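import Pool.Agent.Lib.MP_43bc59_co.Bp

set_option autoImplicit false

namespace Pool.Agent.Lib.MP_43bc59_co.Bx

/-- all lists are short enough for the degrees `d` -/
def ft (d : ℕ → ℕ) : (k : ℕ) → T k → Prop
  | 0 => fun _ => True
  | k + 1 => fun l => List.length (show List (T k) from l) ≤ d k + 1
      ∧ ∀ c ∈ (show List (T k) from l), ft d k c

variable {d d' : ℕ → ℕ} {x y : ℕ → ℝ}

lemma ft_zr (k : ℕ) : ft d k (zr k) := by
  cases k with
  | zero => trivial
  | succ k => exact ⟨Nat.zero_le _, fun c hc => absurd hc List.not_mem_nil⟩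

lemma ft_mono (k : ℕ) (h : ∀ j, j < k → d j ≤ d' j) : ∀ t, ft d k t → ft d' k t := by
  induction k with
  | zero => intro t _; trivial
  | succ k ih =>
    intro t ht
    exact ⟨ht.1.trans (Nat.succ_le_succ (h k (by omega))),
      fun c hc => ih (fun j hj => h j (by omega)) c (ht.2 c hc)⟩

lemma ft_add (k : ℕ) : ∀ s t, ft d k s → ft d k t → ft d k (add k s t) := by
  induction k with
  | zero => intro s t _ _; trivial
  | succ k ih =>
    intro s t h1 h2
    exact ⟨len_zp _ _ _ h1.1 h2.1, bd_zp (P := fun _ a => ft d k a) (M := 0) (N := 0)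
      (fun _ _ a b => ih a b) (fun _ _ _ _ h => h) s t h1.2 h2.2⟩

lemma len_mp {α β : Type} (g : α → β) (l : List α) : (mp g l).length = l.length := by
  rw [mp_eq, List.length_map]

lemma ft_sm (c : ℤ) (k : ℕ) : ∀ t, ft d k t → ft d k (sm c k t) := by
  induction k with
  | zero => intro t _; trivial
  | succ k ih =>
    intro t h
    exact ⟨(len_mp _ _).le.trans h.1, mem_mp (fun a ha => ih a (h.2 a ha))⟩

lemma ev_deg (k : ℕ) (h : ∀ j, j < k → d j = d' j) : ev d x y k = ev d' x y k := by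
  induction k with
  | zero => rfl
  | succ k ih =>
    funext t
    show B (ev d x y k) (x k) (y k) (d k) t = B (ev d' x y k) (x k) (y k) (d' k) t
    rw [ih (fun j hj => h j (by omega)), h k (by omega)]

lemma B_mp' {α β : Type} {f : α → ℝ} {f' : β → ℝ} {g : α → β} {s u v : ℝ} (l : List α)
    (h : ∀ a ∈ l, f' (g a) = s * f a) : ∀ n, B f' u v n (mp g l) = s * B f u v n l := by
  induction l with
  | nil => intro n; show B f' u v n [] = _; simp [B]
  | cons c l ih =>
    intro n
    show B f' u v n (g c :: mp g l) = _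
    have h1 := h c List.mem_cons_self
    cases n with
    | zero => exact h1
    | succ n => simp only [B, h1, ih (fun a ha => h a (List.mem_cons_of_mem _ ha))]; ring

lemma mem_stp {α : Type} {ad : α → α → α} {u v : α → α} {P Q R : α → Prop}
    (h1 : ∀ a, P a → Q (u a)) (h2 : ∀ a p, P a → Q p → R (ad (v a) p)) (h3 : ∀ p, Q p → R p)
    (m : List α) : ∀ p, Q p → (∀ a ∈ m, P a) → ∀ a ∈ stp ad u v m p, R a := by
  induction m with
  | nil => intro p hp _ a ha; rw [List.mem_singleton.1 ha]; exact h3 p hp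
  | cons c m ih =>
    intro p hp h a ha
    have hc := h c List.mem_cons_self
    rcases List.mem_cons.1 (show a ∈ ad (v c) p :: stp ad u v m (u c) from ha) with e | e
    · rw [e]; exact h2 _ _ hc hp
    · exact ih _ (h1 _ hc) (fun a h' => h a (List.mem_cons_of_mem _ h')) a e

/-- multiplication by a linear form in the variables of the axis `i` -/
noncomputable def lin (s u : ℕ) (i k : ℕ) : T k → T k :=
  ax i (fun j l => stp (add j) (sm s j) (sm u j) l (zr j)) k

lemma lin_ok {s u i : ℕ} (h1 : ∀ j, j ≠ i → d' j = d j) (h2 : d' i = d i + 1) (k : ℕ) (hk : i < k) :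
    ∀ t, ft d k t → ft d' k (lin s u i k t) ∧
      ev d' x y k (lin s u i k t) = (s * x i + u * y i) * ev d x y k t := by
  induction k with
  | zero => omega
  | succ k ih =>
    intro t ht
    show (List.length ((Bool.rec (mp (lin s u i k)) (fun l => stp (add k) (sm s k) (sm u k) l (zr k))
        (Nat.beq i k) : List (T k) → List (T k)) t) ≤ d' k + 1 ∧ ∀ c ∈ (Bool.rec (mp (lin s u i k))
        (fun l => stp (add k) (sm s k) (sm u k) l (zr k)) (Nat.beq i k) : List (T k) → List (T k)) t,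
        ft d' k c) ∧ B (ev d' x y k) (x k) (y k) (d' k) ((Bool.rec (mp (lin s u i k))
        (fun l => stp (add k) (sm s k) (sm u k) l (zr k)) (Nat.beq i k) : List (T k) → List (T k)) t)
        = _ * B (ev d x y k) (x k) (y k) (d k) t
    cases e : Nat.beq i k
    · have hik := Nat.ne_of_beq_eq_false e
      rw [h1 k (Ne.symm hik)]
      exact ⟨⟨(len_mp _ _).le.trans ht.1, mem_mp (fun a ha => (ih (by omega) a (ht.2 a ha)).1)⟩,
        B_mp' t (fun a ha => (ih (by omega) a (ht.2 a ha)).2) _⟩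
    · have := Nat.eq_of_beq_eq_true e
      subst this
      have h3 : ∀ j, j < i → d' j = d j := fun j hj => h1 j hj.ne
      rw [h2, ev_deg i h3]
      refine ⟨⟨(len_stp _ _).le.trans (Nat.succ_le_succ ht.1), fun c hc =>
        ft_mono i (fun j hj => (h3 j hj).ge) c (mem_stp (P := ft d i) (Q := ft d i) (R := ft d i)
          (ft_sm _ i) (fun a p ha hp => ft_add i _ _ (ft_sm _ i a ha) hp) (fun _ h => h) t _
          (ft_zr i) ht.2 c hc)⟩, ?_⟩
      show B _ _ _ _ (stp _ _ _ t _) = _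
      rw [B_stp (ev_add i) (ev_sm _ i) (ev_sm _ i) t _ _ ht.1, ev_zr]
      push_cast; ring

lemma bd_lin {s u i k M : ℕ} (h : 1 ≤ s + u) (t : T k) (ht : bd k M t) :
    bd k (M * (s + u)) (lin s u i k t) :=
  bd_ax (Nat.le_mul_of_pos_right M h) (fun l hl => mem_stp (P := bd i M) (Q := bd i (s * M))
    (bd_sm s i M) (fun a p ha hp => bd_mono i _ _ _ (le_of_eq (by ring))
      (bd_add i _ _ _ _ (bd_sm u i M a ha) hp))
    (fun p hp => bd_mono i _ _ _ (by nlinarith) hp) l _ (bd_zr i _) hl) k t ht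

/-- `F` is a form of degree `d` with coefficients in `[0, M]` -/
def NN (k : ℕ) (d : ℕ → ℕ) (M : ℕ) (F : (ℕ → ℝ) → (ℕ → ℝ) → ℝ) : Prop :=
  ∃ t : T k, ft d k t ∧ bd k M t ∧ ∀ x y, ev d x y k t = F x y

variable {k M M' : ℕ} {F F' : (ℕ → ℝ) → (ℕ → ℝ) → ℝ}

lemma NN.congr (h : NN k d M F) (h1 : ∀ j, j < k → d j = d' j) (h2 : M ≤ M')
    (h3 : ∀ x y, F x y = F' x y) : NN k d' M' F' := by
  obtain ⟨t, a, b, c⟩ := h
  exact ⟨t, ft_mono k (fun j hj => (h1 j hj).le) t a, bd_mono k _ _ t h2 b,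
    fun x y => by rw [← ev_deg k h1, c, h3]⟩

lemma NN.add (h : NN k d M F) (h' : NN k d M' F') : NN k d (M + M') (fun x y => F x y + F' x y) := by
  obtain ⟨s, a, b, c⟩ := h
  obtain ⟨t, a', b', c'⟩ := h'
  exact ⟨Bx.add k s t, ft_add k _ _ a a', bd_add k _ _ _ _ b b', fun x y => by rw [ev_add, c, c']⟩

lemma NN.sm (h : NN k d M F) (n : ℕ) : NN k d (M * n) (fun x y => F x y * n) := by
  obtain ⟨s, a, b, c⟩ := h
  exact ⟨Bx.sm n k s, ft_sm _ k _ a, mul_comm n M ▸ bd_sm n k _ _ b, fun x y => by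
    rw [ev_sm, c, mul_comm, Int.cast_natCast]⟩

lemma NN.lin (h : NN k d M F) {s u i : ℕ} (hk : i < k) (h0 : 1 ≤ s + u) :
    NN k (fun j => if j = i then d j + 1 else d j) (M * (s + u))
      (fun x y => F x y * (s * x i + u * y i)) := by
  obtain ⟨t, a, b, c⟩ := h
  have q := fun x y => lin_ok (d := d) (d' := fun j => if j = i then d j + 1 else d j) (x := x)
    (y := y) (s := s) (u := u) (fun j hj => if_neg hj) (if_pos rfl) k hk t a
  exact ⟨Bx.lin s u i k t, (q 0 0).1, bd_lin h0 t b, fun x y => by rw [(q x y).2, c, mul_comm]⟩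

lemma NN.pow (h : NN k d M F) {s u i : ℕ} (hk : i < k) (h0 : 1 ≤ s + u) (n : ℕ) :
    NN k (fun j => if j = i then d j + n else d j) (M * (s + u) ^ n)
      (fun x y => F x y * (s * x i + u * y i) ^ n) := by
  induction n with
  | zero => exact h.congr (fun j _ => by simp) (by simp) (fun x y => by simp)
  | succ n ih =>
    exact (ih.lin hk h0).congr (fun j _ => by split_ifs <;> rfl) (le_of_eq (by ring))
      (fun x y => by ring)

lemma NN.one (k : ℕ) : NN k (fun _ => 0) 1 (fun _ _ => 1) := by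
  refine ⟨cst 1 k, ?_, ?_, fun x y => ?_⟩
  · induction k with
    | zero => trivial
    | succ k ih => exact ⟨le_rfl, fun c hc => by rw [List.mem_singleton.1 hc]; exact ih⟩
  · induction k with
    | zero => exact ⟨zero_le_one (α := ℤ), le_rfl⟩
    | succ k ih => exact fun c hc => by rw [List.mem_singleton.1 hc]; exact ih
  · induction k with
    | zero => exact Int.cast_one
    | succ k ih => exact ih

noncomputable def deg (i : ℕ) (e : E) : ℕ :=
  E.rec (fun j => Bool.rec 0 1 (Nat.beq j i)) (fun _ => 0) (fun _ _ a b => Nat.add a (Nat.sub b a))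
    (fun _ _ a b => Nat.add a (Nat.sub b a)) (fun _ _ a b => Nat.add a b) e

noncomputable def rs (W δ : ℕ → ℕ) (k : ℕ) : ℕ :=
  Nat.rec 1 (fun i ih => Nat.mul ih (Nat.pow (W i) (δ i))) k

def rr (W : ℕ → ℝ) (δ : ℕ → ℕ) : ℕ → ℝ
  | 0 => 1
  | k + 1 => rr W δ k * W k ^ δ k

def cb (R R' a b a' b' : ℕ) : ℕ × ℕ :=
  (Nat.add (Nat.mul a R) (Nat.mul a' R'), Nat.add (Nat.mul b R) (Nat.mul b' R'))

/-- positive and negative part of the homogenised expression -/
noncomputable def hp (k : ℕ) (A W : ℕ → ℕ) (e : E) : ℕ × ℕ :=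
  E.rec (fun i => (A i, 0)) (fun z => (Int.toNat z, Int.toNat (Int.neg z)))
    (fun p q s t => cb (rs W (fun i => Nat.sub (deg i q) (deg i p)) k)
      (rs W (fun i => Nat.sub (deg i p) (deg i q)) k) s.1 s.2 t.1 t.2)
    (fun p q s t => cb (rs W (fun i => Nat.sub (deg i q) (deg i p)) k)
      (rs W (fun i => Nat.sub (deg i p) (deg i q)) k) s.1 s.2 t.2 t.1)
    (fun _ _ s t => cb t.1 t.2 s.1 s.2 s.2 s.1) e

noncomputable def hr (k : ℕ) (A W : ℕ → ℝ) : E → ℝ × ℝ
  | .v i => (A i, 0)
  | .c z => ((Int.toNat z : ℕ), (Int.toNat (-z) : ℕ))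
  | .a p q => ((hr k A W p).1 * rr W (fun i => deg i q - deg i p) k
        + (hr k A W q).1 * rr W (fun i => deg i p - deg i q) k,
      (hr k A W p).2 * rr W (fun i => deg i q - deg i p) k
        + (hr k A W q).2 * rr W (fun i => deg i p - deg i q) k)
  | .s p q => ((hr k A W p).1 * rr W (fun i => deg i q - deg i p) k
        + (hr k A W q).2 * rr W (fun i => deg i p - deg i q) k,
      (hr k A W p).2 * rr W (fun i => deg i q - deg i p) k
        + (hr k A W q).1 * rr W (fun i => deg i p - deg i q) k)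
  | .m p q => ((hr k A W p).1 * (hr k A W q).1 + (hr k A W p).2 * (hr k A W q).2,
      (hr k A W p).2 * (hr k A W q).1 + (hr k A W p).1 * (hr k A W q).2)

lemma rs_cast (W δ : ℕ → ℕ) (k : ℕ) : (rs W δ k : ℝ) = rr (fun i => (W i : ℝ)) δ k := by
  induction k with
  | zero => exact Nat.cast_one
  | succ k ih =>
    show ((rs W δ k * W k ^ δ k : ℕ) : ℝ) = _
    rw [Nat.cast_mul, Nat.cast_pow, ih]; rfl

lemma cb_cast (R R' a b a' b' : ℕ) : ((cb R R' a b a' b').1 : ℝ) = a * R + a' * R'
    ∧ ((cb R R' a b a' b').2 : ℝ) = b * R + b' * R' := by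
  constructor
  · show ((a * R + a' * R' : ℕ) : ℝ) = _
    push_cast; rfl
  · show ((b * R + b' * R' : ℕ) : ℝ) = _
    push_cast; rfl

lemma hp_cast (A W : ℕ → ℕ) (e : E) :
    ((hp k A W e).1 : ℝ) = (hr k (fun i => (A i : ℝ)) (fun i => (W i : ℝ)) e).1 ∧
    ((hp k A W e).2 : ℝ) = (hr k (fun i => (A i : ℝ)) (fun i => (W i : ℝ)) e).2 := by
  induction e with
  | v i => exact ⟨rfl, Nat.cast_zero⟩
  | c z => exact ⟨rfl, rfl⟩
  | a p q h1 h2 =>
    simp only [hr, ← h1.1, ← h1.2, ← h2.1, ← h2.2, ← rs_cast]; exact cb_cast _ _ _ _ _ _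
  | s p q h1 h2 =>
    simp only [hr, ← h1.1, ← h1.2, ← h2.1, ← h2.2, ← rs_cast]; exact cb_cast _ _ _ _ _ _
  | m p q h1 h2 => simp only [hr, ← h1.1, ← h1.2, ← h2.1, ← h2.2]; exact cb_cast _ _ _ _ _ _

lemma rr_one {W : ℕ → ℝ} (δ : ℕ → ℕ) (k : ℕ) (h : ∀ i, i < k → W i = 1) : rr W δ k = 1 := by
  induction k with
  | zero => rfl
  | succ k ih => rw [rr, ih (fun i hi => h i (by omega)), h k (by omega), one_pow, mul_one]

lemma hr_val {W : ℕ → ℝ} (h : ∀ i, i < k → W i = 1) (e : E) :
    (hr k x W e).1 - (hr k x W e).2 = e.val x := by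
  induction e with
  | v i => exact sub_zero _
  | c z =>
    show ((Int.toNat z : ℕ) : ℝ) - ((Int.toNat (-z) : ℕ) : ℝ) = z
    rw [← Int.cast_natCast z.toNat, ← Int.cast_natCast (-z).toNat, ← Int.cast_sub,
      Int.toNat_sub_toNat_neg]
  | a p q h1 h2 => simp only [hr, rr_one _ k h, E.val, ← h1, ← h2]; ring
  | s p q h1 h2 => simp only [hr, rr_one _ k h, E.val, ← h1, ← h2]; ring
  | m p q h1 h2 => simp only [hr, E.val, ← h1, ← h2]; ring

lemma NN.rs (h : NN k d M F) {q : ℕ → ℕ} (hq : ∀ i, i < k → 1 ≤ q i) (δ : ℕ → ℕ) (n : ℕ)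
    (hn : n ≤ k) : NN k (fun j => if j < n then d j + δ j else d j) (M * rs (fun i => q i + q i) δ n)
      (fun x y => F x y * rr (fun i => q i * x i + q i * y i) δ n) := by
  induction n with
  | zero => exact h.congr (fun j _ => by simp) (mul_one M).ge (fun x y => (mul_one _).symm)
  | succ n ih =>
    refine ((ih (by omega)).pow (s := q n) (u := q n) (i := n) (by omega)
      (by have := hq n (by omega); omega) (δ n)).congr (fun j _ => ?_) (le_of_eq (mul_assoc _ _ _))
      (fun x y => mul_assoc _ _ _)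
    split_ifs <;> first | rfl | omega | (subst_vars; rfl)

lemma NN.hom {lo hi q : ℕ → ℕ} (hq : ∀ i, i < k → 1 ≤ q i) (hh : ∀ i, i < k → 1 ≤ hi i + lo i)
    (hz : ∀ i, k ≤ i → hi i = 0 ∧ lo i = 0) (e : E) : ∀ {d : ℕ → ℕ} {M : ℕ}
    {F : (ℕ → ℝ) → (ℕ → ℝ) → ℝ}, NN k d M F →
    NN k (fun j => d j + deg j e) (M * (hp k (fun i => hi i + lo i) (fun i => q i + q i) e).1)
      (fun x y => F x y * (hr k (fun i => hi i * x i + lo i * y i)
        (fun i => q i * x i + q i * y i) e).1) ∧
    NN k (fun j => d j + deg j e) (M * (hp k (fun i => hi i + lo i) (fun i => q i + q i) e).2)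
      (fun x y => F x y * (hr k (fun i => hi i * x i + lo i * y i)
        (fun i => q i * x i + q i * y i) e).2) := by
  induction e with
  | v i =>
    intro d M F h
    have e1 : ∀ j, deg j (.v i) = if j = i then 1 else 0 := fun j => by
      show (Bool.rec 0 1 (Nat.beq i j) : ℕ) = _
      cases e : Nat.beq i j
      · rw [if_neg (Ne.symm (Nat.ne_of_beq_eq_false e))]
      · rw [if_pos (Nat.eq_of_beq_eq_true e).symm]
    have k1 : NN k (fun j => d j + deg j (.v i)) (M * (hi i + lo i))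
        (fun x y => F x y * (hi i * x i + lo i * y i)) := by
      rcases lt_or_ge i k with h1 | h1
      · exact (h.lin h1 (hh i h1)).congr (fun j _ => by rw [e1]; split_ifs <;> rfl) le_rfl
          (fun _ _ => rfl)
      · exact (h.sm 0).congr (fun j hj => by rw [e1, if_neg (by omega)]; rfl) (Nat.zero_le _)
          (fun x y => by rw [(hz i h1).1, (hz i h1).2]; simp)
    exact ⟨k1, (k1.sm 0).congr (fun _ _ => rfl) (Nat.zero_le _) (fun x y => by simp [hr])⟩
  | c z => intro d M F h; exact ⟨h.sm _, h.sm _⟩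
  | a p r h1 h2 =>
    intro d M F h
    have e1 : ∀ j, j < k → (if j < k then d j + deg j p + (deg j r - deg j p) else d j + deg j p)
        = d j + deg j (.a p r) := fun j hj => by rw [if_pos hj]; exact add_assoc _ _ _
    have e2 : ∀ j, j < k → (if j < k then d j + deg j r + (deg j p - deg j r) else d j + deg j r)
        = d j + deg j (.a p r) := fun j hj => by
      rw [if_pos hj]; show _ = d j + (deg j p + (deg j r - deg j p)); omega
    constructor
    · refine (((((h1 h).1.rs hq _ k le_rfl).congr e1 le_rfl (fun _ _ => rfl)).add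
        (((h2 h).1.rs hq _ k le_rfl).congr e2 le_rfl (fun _ _ => rfl)))).congr (fun _ _ => rfl)
        (le_of_eq ?_) (fun x y => by simp only [hr]; ring)
      rw [mul_assoc, mul_assoc, ← mul_add]; rfl
    · refine (((((h1 h).2.rs hq _ k le_rfl).congr e1 le_rfl (fun _ _ => rfl)).add
        (((h2 h).2.rs hq _ k le_rfl).congr e2 le_rfl (fun _ _ => rfl)))).congr (fun _ _ => rfl)
        (le_of_eq ?_) (fun x y => by simp only [hr]; ring)
      rw [mul_assoc, mul_assoc, ← mul_add]; rfl
  | s p r h1 h2 =>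
    intro d M F h
    have e1 : ∀ j, j < k → (if j < k then d j + deg j p + (deg j r - deg j p) else d j + deg j p)
        = d j + deg j (.s p r) := fun j hj => by rw [if_pos hj]; exact add_assoc _ _ _
    have e2 : ∀ j, j < k → (if j < k then d j + deg j r + (deg j p - deg j r) else d j + deg j r)
        = d j + deg j (.s p r) := fun j hj => by
      rw [if_pos hj]; show _ = d j + (deg j p + (deg j r - deg j p)); omega
    constructor
    · refine (((((h1 h).1.rs hq _ k le_rfl).congr e1 le_rfl (fun _ _ => rfl)).add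
        (((h2 h).2.rs hq _ k le_rfl).congr e2 le_rfl (fun _ _ => rfl)))).congr (fun _ _ => rfl)
        (le_of_eq ?_) (fun x y => by simp only [hr]; ring)
      rw [mul_assoc, mul_assoc, ← mul_add]; rfl
    · refine (((((h1 h).2.rs hq _ k le_rfl).congr e1 le_rfl (fun _ _ => rfl)).add
        (((h2 h).1.rs hq _ k le_rfl).congr e2 le_rfl (fun _ _ => rfl)))).congr (fun _ _ => rfl)
        (le_of_eq ?_) (fun x y => by simp only [hr]; ring)
      rw [mul_assoc, mul_assoc, ← mul_add]; rfl
  | m p r h1 h2 =>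
    intro d M F h
    constructor
    · refine ((h2 (h1 h).1).1.add (h2 (h1 h).2).2).congr (fun _ _ => add_assoc _ _ _)
        (le_of_eq ?_) (fun x y => by simp only [hr]; ring)
      rw [mul_assoc, mul_assoc, ← mul_add]; rfl
    · refine ((h2 (h1 h).2).1.add (h2 (h1 h).1).2).congr (fun _ _ => add_assoc _ _ _)
        (le_of_eq ?_) (fun x y => by simp only [hr]; ring)
      rw [mul_assoc, mul_assoc, ← mul_add]; rfl

def p2 (R : ℕ) (s : ℕ × ℕ) (l : List ℕ) : List ℕ := Nat.mul s.1 R :: Nat.mul s.2 R :: l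

noncomputable def pk (k : ℕ) (d A W : ℕ → ℕ) (es : List E) : List ℕ :=
  List.rec [] (fun p _ ih => p2 (rs W (fun i => Nat.sub (d i) (deg i p)) k) (hp k A W p) ih) es

noncomputable def ls (l : List ℕ) : ℕ := List.rec 0 (fun a _ ih => Nat.add a ih) l

noncomputable def dup (r : List ℤ) : List ℤ := List.rec [] (fun c _ ih => c :: Int.neg c :: ih) r

noncomputable def dk (d : ℕ → ℕ) (p : E) (k : ℕ) : Bool :=
  Nat.rec true (fun i ih => Bool.rec false ih (Nat.ble (deg i p) (d i))) k

lemma dk_ok {p : E} (k : ℕ) (h : dk d p k = true) : ∀ i, i < k → deg i p ≤ d i := by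
  induction k with
  | zero => intro i hi; omega
  | succ k ih =>
    intro i hi
    have h' : (Bool.rec false (dk d p k) (Nat.ble (deg k p) (d k)) : Bool) = true := h
    cases e : Nat.ble (deg k p) (d k)
    · rw [e] at h'; exact absurd h' (by simp)
    rw [e] at h'
    rcases Nat.lt_succ_iff_lt_or_eq.1 hi with h1 | h1
    · exact ih h' i h1
    · rw [h1]; exact Nat.le_of_ble_eq_true e

lemma pk_rep {lo hi q : ℕ → ℕ} (hq : ∀ i, i < k → 1 ≤ q i) (hh : ∀ i, i < k → 1 ≤ hi i + lo i)
    (hz : ∀ i, k ≤ i → hi i = 0 ∧ lo i = 0) (b : ℕ)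
    (hx : ∀ i, i < k → (q i : ℝ) * x i + q i * y i = 1) (es : List E)
    (hd : ∀ p ∈ es, ∀ i, i < k → deg i p ≤ d i) :
    ∀ M, ls (pk k d (fun i => hi i + lo i) (fun i => q i + q i) es) ≤ M →
    ∃ ts : List (T k), List.Forall₂ (Rep b d k M) (pk k d (fun i => hi i * 2 ^ sh b d i + lo i)
      (fun i => q i * 2 ^ sh b d i + q i) es) ts ∧ ∀ r, dot (dup r) (ts.map (ev d x y k))
        = dot r (es.map (E.val (fun i => hi i * x i + lo i * y i))) := by
  induction es with
  | nil =>
    intro M _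
    refine ⟨[], List.Forall₂.nil, fun r => ?_⟩
    cases r <;> rfl
  | cons p es ih =>
    intro M hM
    have hM' : (hp k (fun i => hi i + lo i) (fun i => q i + q i) p).1
        * rs (fun i => q i + q i) (fun i => d i - deg i p) k
        + ((hp k (fun i => hi i + lo i) (fun i => q i + q i) p).2
        * rs (fun i => q i + q i) (fun i => d i - deg i p) k
        + ls (pk k d (fun i => hi i + lo i) (fun i => q i + q i) es)) ≤ M := hM
    obtain ⟨ts, h1, h2⟩ := ih (fun p' h => hd p' (List.mem_cons_of_mem _ h)) M (by omega)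
    have h3 := NN.hom hq hh hz p (NN.one k)
    have e1 : ∀ j, j < k → (if j < k then 0 + deg j p + (d j - deg j p) else 0 + deg j p) = d j :=
      fun j hj => by have := hd p List.mem_cons_self j hj; rw [if_pos hj]; omega
    obtain ⟨s, -, s1, s2⟩ := (h3.1.rs hq (fun i => d i - deg i p) k le_rfl).congr (M' := M) e1
      (by rw [one_mul]; omega) (fun _ _ => rfl)
    obtain ⟨t, -, t1, t2⟩ := (h3.2.rs hq (fun i => d i - deg i p) k le_rfl).congr (M' := M) e1
      (by rw [one_mul]; omega) (fun _ _ => rfl)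
    have c := hp_cast (k := k) (fun i => hi i * 2 ^ sh b d i + lo i)
      (fun i => q i * 2 ^ sh b d i + q i) p
    refine ⟨s :: t :: ts, List.Forall₂.cons ⟨s1, ?_⟩ (List.Forall₂.cons ⟨t1, ?_⟩ h1), fun r => ?_⟩
    · apply Nat.cast_injective (R := ℝ)
      rw [pn_ev k s s1, s2, Nat.mul_eq, Nat.cast_mul, c.1, rs_cast]
      simp only [Nat.cast_add, Nat.cast_mul, mul_one, one_mul]; rfl
    · apply Nat.cast_injective (R := ℝ)
      rw [pn_ev k t t1, t2, Nat.mul_eq, Nat.cast_mul, c.2, rs_cast]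
      simp only [Nat.cast_add, Nat.cast_mul, mul_one, one_mul]; rfl
    · cases r with
      | nil => rfl
      | cons a r =>
        show a * ev d x y k s + (((-a : ℤ) : ℝ) * ev d x y k t + dot (dup r) (ts.map (ev d x y k)))
          = a * p.val _ + dot r (es.map _)
        rw [h2, s2, t2, ← hr_val hx p]
        beta_reduce
        rw [rr_one _ k hx]
        push_cast; ring

noncomputable def chk4 (e : ℕ) (d lo hi q : ℕ → ℕ) (k : ℕ) (es : List E)
    (ok : List ℤ → Bool) (rows : List ℤ → List (List ℤ)) (t : Tr) : Bool :=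
  Bool.rec false (run2 e (gd (Nat.pow 2 e) (Nat.succ e) d k) d k ok (fun u => mp dup (rows u)) t
    (ls (pk k d (fun i => Nat.add (hi i) (lo i)) (fun i => Nat.add (q i) (q i)) es))
    (pk k d (fun i => Nat.add (Nat.mul (hi i) (Nat.pow 2 (sh (Nat.succ e) d i))) (lo i))
      (fun i => Nat.add (Nat.mul (q i) (Nat.pow 2 (sh (Nat.succ e) d i))) (q i)) es))
    (al (fun p => dk d p k) es)

/-- packed checker whose root is computed by evaluation at one large point -/
noncomputable def chk3 (e : ℕ) (ds : List ℕ) (lo hi q : List ℤ) (es : List E)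
    (ok : List ℤ → Bool) (rows : List ℤ → List (List ℤ)) (t : Tr) : Bool :=
  Bool.rec false (chk4 e (fun j => ds.getD j 0) (fun j => Int.toNat (lo.getD j 0))
    (fun j => Int.toNat (hi.getD j 0)) (fun j => Int.toNat (q.getD j 0)) ds.length es ok rows t)
    (decide (lo.length = ds.length ∧ hi.length = ds.length) && lo.all (fun z => decide (0 ≤ z)))

theorem chk3_ok {e : ℕ} {ds : List ℕ} {lo hi q : List ℤ} {es : List E}
    {ok : List ℤ → Bool} {rows : List ℤ → List (List ℤ)} {t : Tr}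
    (h : chk3 e ds lo hi q es ok rows t = true)
    (vs : List ℝ) (hl : vs.length = ds.length) (hb : InBox lo hi q vs) :
    ∃ u, ok u = true ∧ ∀ r ∈ rows u, 0 ≤ dot r (es.map (E.val (fun j => vs.getD j 0))) := by
  unfold chk3 at h
  cases c : (decide (lo.length = ds.length ∧ hi.length = ds.length)
    && lo.all (fun z => decide (0 ≤ z)))
  · rw [c] at h; exact absurd h (by simp)
  rw [c] at h
  simp only [Bool.and_eq_true, decide_eq_true_eq, List.all_eq_true] at c
  unfold chk4 at h
  cases c2 : al (fun p => dk (fun j => ds.getD j 0) p ds.length) es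
  · rw [c2] at h; exact absurd h (by simp)
  rw [c2] at h
  have g := hb.get
  rw [hl] at g
  have l0 : ∀ j, j < ds.length → 0 ≤ lo.getD j 0 := fun j hj => by
    rw [List.getD_eq_getElem _ _ (by omega)]; exact c.2 _ (List.getElem_mem _)
  have pos : ∀ j, j < ds.length → (0 : ℝ) < q.getD j 0 ∧ (0 : ℝ) < hi.getD j 0 - lo.getD j 0 := by
    intro j hj
    have := (g j hj).1
    exact ⟨by exact_mod_cast this.1, by rw [sub_pos]; exact_mod_cast this.2⟩
  have cs : ∀ z : ℤ, 0 ≤ z → ((Int.toNat z : ℕ) : ℝ) = z := fun z hz => by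
    rw [← Int.cast_natCast, Int.toNat_of_nonneg hz]
  obtain ⟨x, hx⟩ : ∃ x : ℕ → ℝ, ∀ j, x j = if j < ds.length then (q.getD j 0 * vs.getD j 0
    - lo.getD j 0) / (q.getD j 0 * (hi.getD j 0 - lo.getD j 0)) else 0 := ⟨_, fun _ => rfl⟩
  obtain ⟨y, hy⟩ : ∃ y : ℕ → ℝ, ∀ j, y j = if j < ds.length then (hi.getD j 0
    - q.getD j 0 * vs.getD j 0) / (q.getD j 0 * (hi.getD j 0 - lo.getD j 0)) else 0 :=
    ⟨_, fun _ => rfl⟩
  obtain ⟨ts, h1, h2⟩ := pk_rep (d := fun j => ds.getD j 0) (x := x) (y := y) (k := ds.length)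
    (lo := fun j => Int.toNat (lo.getD j 0)) (hi := fun j => Int.toNat (hi.getD j 0))
    (q := fun j => Int.toNat (q.getD j 0))
    (fun i hi => by have := (g i hi).1.1; omega)
    (fun i hi => by have := (g i hi).1.2; have := l0 i hi; omega)
    (fun i h' => by rw [List.getD_eq_default _ _ (by omega), List.getD_eq_default _ _ (by omega)]; simp)
    (e + 1) (fun i hi => by
      have p1 := (pos i hi).1.ne'
      have p2 := (pos i hi).2.ne'
      rw [cs _ (g i hi).1.1.le, hx, hy, if_pos hi, if_pos hi]; field_simp; ring)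
    es (fun p hp => dk_ok _ (al_mem c2 p hp)) _ le_rfl
  obtain ⟨u, h3, h4⟩ := run2_ok e _ ok _ t _ _ ts x y h1 h
    (fun j => by
      rw [hx]; split_ifs with hj
      · exact div_nonneg (sub_nonneg.2 (g j hj).2.1) (mul_pos (pos j hj).1 (pos j hj).2).le
      · exact le_rfl)
    (fun j => by
      rw [hy]; split_ifs with hj
      · exact div_nonneg (sub_nonneg.2 (g j hj).2.2) (mul_pos (pos j hj).1 (pos j hj).2).le
      · exact le_rfl)
  refine ⟨u, h3, fun r hr => ?_⟩
  have h5 := h4 _ (by rw [mp_eq]; exact List.mem_map_of_mem hr)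
  rw [h2] at h5
  convert h5 using 4
  funext j
  rw [hx, hy]
  split_ifs with hj
  · have p1 := (pos j hj).1.ne'
    have p2 := (pos j hj).2.ne'
    rw [cs _ (l0 j hj), cs _ ((l0 j hj).trans (g j hj).1.2.le)]; field_simp; ring
  · rw [List.getD_eq_default _ _ (by omega)]; simp

/-- one of the targets `ps` is nonnegative on the part of the box where the side conditions `cs`
hold -/
theorem some_nonneg3 {e : ℕ} {ds : List ℕ} {lo hi q : List ℤ} {ps cs : List E} {t : Tr}
    (h : chk3 e ds lo hi q (ps ++ cs) (okN ps.length) (fun u => [u]) t = true)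
    (vs : List ℝ) (hl : vs.length = ds.length) (hb : InBox lo hi q vs)
    (hc : ∀ C ∈ cs, 0 ≤ C.val (fun j => vs.getD j 0)) :
    ∃ P ∈ ps, 0 ≤ P.val (fun j => vs.getD j 0) := by
  obtain ⟨u, h1, h2⟩ := chk3_ok h vs hl hb
  have h3 := h2 u List.mem_cons_self
  rw [List.map_append] at h3
  obtain ⟨p, hp, h0⟩ := okN_ok _ u _ _ (List.length_map _) h1 (fun v hv => by
    obtain ⟨C, hC, e⟩ := List.mem_map.1 hv
    rw [← e]; exact hc C hC) h3
  obtain ⟨P, hP, e⟩ := List.mem_map.1 hp
  exact ⟨P, hP, e ▸ h0⟩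

end Pool.Agent.Lib.MP_43bc59_co.Bx
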