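import Pool.Agent.Lib.MP_43bc59_co.Bx

set_option autoImplicit false

namespace Pool.Agent.Lib.MP_43bc59_co.Bx

open Finset

section one

variable {α : Type} {f : α → ℕ} {z : α}

/-- positional value of a list -/
noncomputable def hn (f : α → ℕ) (z : α) (q : ℕ) (d : ℕ) : List α → ℕ :=
  Nat.rec (fun l => f (hd z l)) (fun _ ih l => Nat.add (f (hd z l)) (Nat.mul q (ih (tl l)))) d

noncomputable def rp (m q : ℕ) (d : ℕ) : ℕ := Nat.rec m (fun _ ih => Nat.add m (Nat.mul q ih)) d

lemma hn_succ (q d : ℕ) (l : List α) :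
    hn f z q (d + 1) l = f (hd z l) + q * hn f z q d (tl l) := rfl

lemma rp_succ (m q d : ℕ) : rp m q (d + 1) = m + q * rp m q d := rfl

lemma and_split {e a b A C : ℕ} (ha : a < 2 ^ e) (hb : b < 2 ^ e) :
    (a + 2 ^ e * A) &&& (b + 2 ^ e * C) = (a &&& b) + 2 ^ e * (A &&& C) := by
  have p : 0 < 2 ^ e := by positivity
  rw [← Nat.mod_add_div ((a + 2 ^ e * A) &&& (b + 2 ^ e * C)) (2 ^ e), Nat.and_mod_two_pow,
    Nat.and_div_two_pow, Nat.add_mul_mod_self_left, Nat.add_mul_mod_self_left, Nat.mod_eq_of_lt ha,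
    Nat.mod_eq_of_lt hb, Nat.add_mul_div_left _ _ p, Nat.add_mul_div_left _ _ p,
    Nat.div_eq_of_lt ha, Nat.div_eq_of_lt hb, zero_add, zero_add]

lemma all_hd {P : α → Prop} (hz : P z) {l : List α} (h : ∀ c ∈ l, P c) : P (hd z l) := by
  cases l with
  | nil => exact hz
  | cons c l => exact h c List.mem_cons_self

lemma all_tl {P : α → Prop} {l : List α} (h : ∀ c ∈ l, P c) : ∀ c ∈ tl l, P c := by
  cases l with
  | nil => exact h
  | cons c l => exact fun a ha => h a (List.mem_cons_of_mem _ ha)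

lemma add_mul_lt {a q A Q : ℕ} (ha : a < q) (hA : A < Q) : a + q * A < q * Q := by
  have := Nat.mul_le_mul_left q (Nat.succ_le_of_lt hA)
  rw [Nat.mul_succ] at this; omega

lemma hn_lt {g q : ℕ} (hz : f z + g < q) (d : ℕ) : ∀ l : List α, (∀ c ∈ l, f c + g < q) →
    hn f z q d l + rp g q d < q ^ (d + 1) := by
  induction d with
  | zero => intro l h; rw [zero_add, pow_one]; exact all_hd (P := fun c => f c + g < q) hz h
  | succ d ih =>
    intro l h
    rw [hn_succ, rp_succ, pow_succ' q (d + 1)]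
    have := add_mul_lt (all_hd (P := fun c => f c + g < q) hz h) (ih _ (all_tl h))
    rw [mul_add] at this; omega

lemma rp_zero (q d : ℕ) : rp 0 q d = 0 := by
  induction d with
  | zero => rfl
  | succ d ih => rw [rp_succ, ih]; rfl

lemma rp_mul (m q c d : ℕ) : rp (m * c) q d = rp m q d * c := by
  induction d with
  | zero => rfl
  | succ d ih => rw [rp_succ, rp_succ, ih]; ring

lemma hn_le {g q : ℕ} (hz : f z ≤ g) (d : ℕ) : ∀ l : List α, (∀ c ∈ l, f c ≤ g) →
    hn f z q d l ≤ rp g q d := by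
  induction d with
  | zero => intro l h; exact all_hd (P := fun c => f c ≤ g) hz h
  | succ d ih =>
    intro l h
    rw [hn_succ, rp_succ]
    exact Nat.add_le_add (all_hd (P := fun c => f c ≤ g) hz h) (Nat.mul_le_mul_left _ (ih _ (all_tl h)))

lemma hd_mp {g : α → α} (hg : g z = z) (l : List α) : hd z (mp g l) = g (hd z l) := by
  cases l with
  | nil => exact hg.symm
  | cons c l => rfl

lemma tl_mp (g : α → α) (l : List α) : tl (mp g l) = mp g (tl l) := by
  cases l <;> rfl

lemma hn_and {e m c : ℕ} {g : α → α} {P : α → Prop} (hg : f z = 0) (hz : P z) (hm : m < 2 ^ e)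
    (h1 : ∀ a, P a → f a < 2 ^ e) (h2 : ∀ a, P a → f a &&& m = f (g a) * c) (d : ℕ) :
    ∀ l : List α, (∀ a ∈ l, P a) →
      hn f z (2 ^ e) d l &&& rp m (2 ^ e) d = hn f z (2 ^ e) d (mp g l) * c := by
  have k : ∀ l : List α, (∀ a ∈ l, P a) → f (hd z l) &&& m = f (hd z (mp g l)) * c := by
    intro l h
    cases l with
    | nil => show f z &&& m = f z * c; rw [hg]; simp
    | cons a l => exact h2 a (h a List.mem_cons_self)
  induction d with
  | zero => exact k
  | succ d ih =>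
    intro l h
    rw [hn_succ, rp_succ, and_split (h1 _ (all_hd hz h)) hm, k l h, ih _ (all_tl h), hn_succ, tl_mp]
    ring

/-- the entry `j` -/
noncomputable def nt (z : α) (j : ℕ) : List α → α :=
  Nat.rec (fun l => hd z l) (fun _ ih l => ih (tl l)) j

lemma hn_nil (hz : f z = 0) (q d : ℕ) : hn f z q d [] = 0 := by
  induction d with
  | zero => exact hz
  | succ d ih => rw [hn_succ]; show f z + q * hn f z q d [] = 0; rw [hz, ih]; rfl

lemma hn_one (hz : f z = 0) (q d : ℕ) (c : α) : hn f z q d [c] = f c := by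
  cases d with
  | zero => rfl
  | succ d => rw [hn_succ]; show f c + q * hn f z q d [] = _; rw [hn_nil hz]; rfl

lemma hn_sel {e : ℕ} (hz : f z < 2 ^ e) (d : ℕ) : ∀ (j : ℕ) (l : List α), j ≤ d →
    (∀ a ∈ l, f a < 2 ^ e) →
    hn f z (2 ^ e) d l &&& ((2 ^ e - 1) * (2 ^ e) ^ j) = f (nt z j l) * (2 ^ e) ^ j := by
  have p : 0 < 2 ^ e := by positivity
  induction d with
  | zero =>
    intro j l hj h
    obtain rfl : j = 0 := by omega
    rw [pow_zero, mul_one, mul_one, Nat.and_two_pow_sub_one_eq_mod]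
    exact Nat.mod_eq_of_lt (all_hd (P := fun c => f c < 2 ^ e) hz h)
  | succ d ih =>
    intro j l hj h
    have h0 := all_hd (P := fun c => f c < 2 ^ e) hz h
    rw [hn_succ]
    cases j with
    | zero =>
      rw [pow_zero, mul_one, mul_one, Nat.and_two_pow_sub_one_eq_mod, Nat.add_mul_mod_self_left]
      exact Nat.mod_eq_of_lt h0
    | succ j =>
      have e1 : (2 ^ e - 1) * (2 ^ e) ^ (j + 1) = 0 + 2 ^ e * ((2 ^ e - 1) * (2 ^ e) ^ j) := by ring
      rw [e1, and_split h0 p, ih j _ (by omega) (all_tl h), Nat.and_zero]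
      show _ = f (nt z j (tl l)) * _
      ring

lemma B_sum {F : α → ℝ} {x y : ℝ} (hz : F z = 0) (d : ℕ) : ∀ l : List α,
    B F x y d l = ∑ j ∈ range (d + 1), F (nt z j l) * x ^ j * y ^ (d - j) := by
  induction d with
  | zero => intro l; rw [B_zero hz]; simp [nt]
  | succ d ih =>
    intro l
    rw [B_succ hz, ih, sum_range_succ' _ (d + 1), mul_sum, add_comm]
    congr 1
    · refine sum_congr rfl (fun j _ => ?_)
      rw [Nat.add_sub_add_right]
      show _ = F (nt z j (tl l)) * _ * _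
      ring
    · show _ = F (hd z l) * _ * _
      simp

lemma B_hn {F : α → ℝ} {P : α → Prop} (hz : F z = 0) (pz : P z) (h : ∀ a, P a → (f a : ℝ) = F a)
    (q d : ℕ) : ∀ l : List α, (∀ a ∈ l, P a) → (hn f z q d l : ℝ) = B F q 1 d l := by
  induction d with
  | zero => intro l hl; rw [B_zero hz]; exact h _ (all_hd pz hl)
  | succ d ih =>
    intro l hl
    rw [B_succ hz, hn_succ, ← ih _ (all_tl hl), ← h _ (all_hd pz hl)]
    push_cast; ring

lemma B_lin {F : α → ℝ} {G : ℕ → α → ℝ} {g : ℕ → α → α} {c : ℕ → ℝ} {n : ℕ} {x y : ℝ}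
    (h : ∀ a, F a = ∑ j ∈ range n, G j (g j a) * c j) (l : List α) : ∀ d,
    B F x y d l = ∑ j ∈ range n, B (G j) x y d (mp (g j) l) * c j := by
  induction l with
  | nil => intro d; show _ = ∑ j ∈ range n, B (G j) x y d [] * c j; simp [B]
  | cons a l ih =>
    intro d
    show _ = ∑ j ∈ range n, B (G j) x y d (g j a :: mp (g j) l) * c j
    cases d with
    | zero => exact h a
    | succ d =>
      simp only [B, h, ih, sum_mul, mul_sum, ← sum_add_distrib]
      exact sum_congr rfl (fun j _ => by ring)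

lemma guard {F : α → ℝ} {P : α → Prop} {e g : ℕ} {x y : ℝ} (hx : 0 ≤ x) (hy : 0 ≤ y) (hz : F z = 0)
    (pz : P z) (h1 : ∀ a, P a → f a ≤ g) (h2 : ∀ a, P a → f a + g < 2 ^ e)
    (h3 : ∀ a b, P a → P b → (f a + g - f b) &&& g = g → F b ≤ F a) (d : ℕ) :
    ∀ l m : List α, (∀ a ∈ l, P a) → (∀ a ∈ m, P a) →
      (hn f z (2 ^ e) d l + rp g (2 ^ e) d - hn f z (2 ^ e) d m) &&& rp g (2 ^ e) d
        = rp g (2 ^ e) d → B F x y d m ≤ B F x y d l := by
  induction d with
  | zero =>
    intro l m hl hm h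
    rw [B_zero hz, B_zero hz]; exact h3 _ _ (all_hd pz hl) (all_hd pz hm) h
  | succ d ih =>
    intro l m hl hm h
    have a1 := h1 _ (all_hd pz hm)
    have a2 := h2 _ (all_hd pz hl)
    have a3 : hn f z (2 ^ e) d (tl m) ≤ rp g (2 ^ e) d :=
      hn_le (h1 z pz) d _ (fun c hc => h1 c (all_tl hm c hc))
    have e1 : hn f z (2 ^ e) (d + 1) l + rp g (2 ^ e) (d + 1) - hn f z (2 ^ e) (d + 1) m
        = (f (hd z l) + g - f (hd z m)) + 2 ^ e * (hn f z (2 ^ e) d (tl l) + rp g (2 ^ e) d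
          - hn f z (2 ^ e) d (tl m)) := by
      have := Nat.mul_le_mul_left (2 ^ e) a3
      rw [hn_succ, hn_succ, rp_succ, Nat.mul_sub, mul_add]; omega
    rw [e1, rp_succ, and_split (by omega) (by omega)] at h
    have b1 : (f (hd z l) + g - f (hd z m)) &&& g ≤ g := Nat.and_le_right
    have b2 : (hn f z (2 ^ e) d (tl l) + rp g (2 ^ e) d - hn f z (2 ^ e) d (tl m)) &&& rp g (2 ^ e) d
        ≤ rp g (2 ^ e) d := Nat.and_le_right
    have b3 := Nat.mul_le_mul_left (2 ^ e) b2
    have c1 := h3 _ _ (all_hd pz hl) (all_hd pz hm) (by omega)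
    have c2 := ih _ _ (all_tl hl) (all_tl hm)
      (Nat.eq_of_mul_eq_mul_left (show 0 < 2 ^ e by positivity) (by omega))
    rw [B_succ hz, B_succ hz]
    exact add_le_add (mul_le_mul_of_nonneg_right c1 (by positivity)) (mul_le_mul_of_nonneg_left c2 hx)

variable {ad : α → α → α} {P : ℕ → α → Prop}

lemma bd_zp (ha : ∀ M N a b, P M a → P N b → P (M + N) (ad a b))
    (hm : ∀ M N a, M ≤ N → P M a → P N a) {M N : ℕ} (l : List α) : ∀ m : List α,
    (∀ a ∈ l, P M a) → (∀ a ∈ m, P N a) → ∀ a ∈ zp ad l m, P (M + N) a := by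
  induction l with
  | nil => intro m _ h a ha'; exact hm _ _ _ (by omega) (h a ha')
  | cons c l ih =>
    intro m h1 h2 a ha'
    cases m with
    | nil => exact hm _ _ _ (by omega) (h1 a ha')
    | cons b m =>
      rcases List.mem_cons.1 (show a ∈ ad c b :: zp ad l m from ha') with e | e
      · rw [e]; exact ha _ _ _ _ (h1 c List.mem_cons_self) (h2 b List.mem_cons_self)
      · exact ih m (fun a h => h1 a (List.mem_cons_of_mem _ h))
          (fun a h => h2 a (List.mem_cons_of_mem _ h)) a e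

lemma bd_stp (ha : ∀ M N a b, P M a → P N b → P (M + N) (ad a b))
    (hm : ∀ M N a, M ≤ N → P M a → P N a) {M : ℕ} (m : List α) : ∀ p, P (M + M) p →
    (∀ a ∈ m, P M a) → ∀ a ∈ stp ad (fun a => ad a a) (fun a => a) m p, P (M * 3) a := by
  induction m with
  | nil =>
    intro p hp _ a ha'
    rw [List.mem_singleton.1 ha']; exact hm _ _ _ (by omega) hp
  | cons c m ih =>
    intro p hp h a ha'
    have hc := h c List.mem_cons_self
    rcases List.mem_cons.1 (show a ∈ ad c p :: stp ad _ _ m (ad c c) from ha') with e | e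
    · rw [e]; exact hm _ _ _ (by omega) (ha _ _ _ _ hc hp)
    · exact ih _ (ha _ _ _ _ hc hc) (fun a h' => h a (List.mem_cons_of_mem _ h')) a e

lemma bd_shR (ha : ∀ M N a b, P M a → P N b → P (M + N) (ad a b))
    (hm : ∀ M N a, M ≤ N → P M a → P N a) {M : ℕ} (l : List α) : ∀ d,
    (∀ a ∈ l, P M a) → ∀ a ∈ shR ad l d, P (M * 3 ^ d) a := by
  induction l with
  | nil => intro d _ a ha'; exact absurd ha' List.not_mem_nil
  | cons c l ih =>
    intro d h a ha'
    have hc := h c List.mem_cons_self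
    cases d with
    | zero => rw [List.mem_singleton.1 ha', pow_zero, mul_one]; exact hc
    | succ d =>
      rw [pow_succ, ← mul_assoc]
      have : M ≤ M * 3 ^ d := Nat.le_mul_of_pos_right _ (by positivity)
      exact bd_stp ha hm _ c (hm _ _ _ (by omega) hc)
        (ih d (fun a h' => h a (List.mem_cons_of_mem _ h'))) a ha'

lemma bd_rv {Q : α → Prop} (hz : Q z) (d : ℕ) : ∀ l acc : List α, (∀ a ∈ l, Q a) →
    (∀ a ∈ acc, Q a) → ∀ a ∈ rv z d l acc, Q a := by
  have k : ∀ l acc : List α, (∀ a ∈ l, Q a) → (∀ a ∈ acc, Q a) → ∀ a ∈ hd z l :: acc, Q a := by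
    intro l acc h1 h2 a ha
    rcases List.mem_cons.1 ha with e | e
    · rw [e]; exact all_hd hz h1
    · exact h2 a e
  induction d with
  | zero => exact k
  | succ d ih => intro l acc h1 h2; exact ih _ _ (all_tl h1) (k l acc h1 h2)

lemma mem_mp {β : Type} {g : α → β} {l : List α} {Q : β → Prop} (h : ∀ a ∈ l, Q (g a)) :
    ∀ b ∈ mp g l, Q b := by
  intro b hb
  rw [mp_eq] at hb
  obtain ⟨a, ha, e⟩ := List.mem_map.1 hb
  rw [← e]; exact h a ha

end one

/-- all entries lie in `[0, M]` -/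
def bd : (k : ℕ) → ℕ → T k → Prop
  | 0 => fun M c => 0 ≤ (show ℤ from c) ∧ (show ℤ from c) ≤ M
  | k + 1 => fun M l => ∀ c ∈ (show List (T k) from l), bd k M c

lemma bd_zr (k M : ℕ) : bd k M (zr k) := by
  cases k with
  | zero => exact ⟨le_rfl, Int.natCast_nonneg M⟩
  | succ k => intro c hc; exact absurd hc List.not_mem_nil

lemma bd_mono (k : ℕ) : ∀ M N t, M ≤ N → bd k M t → bd k N t := by
  induction k with
  | zero => intro M N t h h1; exact ⟨h1.1, h1.2.trans (by exact_mod_cast h)⟩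
  | succ k ih => intro M N t h h1 c hc; exact ih _ _ _ h (h1 c hc)

lemma bd_add (k : ℕ) : ∀ M N s t, bd k M s → bd k N t → bd k (M + N) (add k s t) := by
  induction k with
  | zero =>
    intro M N s t h1 h2
    exact ⟨Int.add_nonneg h1.1 h2.1, by push_cast; exact Int.add_le_add h1.2 h2.2⟩
  | succ k ih => intro M N s t h1 h2; exact bd_zp ih (bd_mono k) s t h1 h2

lemma bd_sm (c k : ℕ) : ∀ M t, bd k M t → bd k (c * M) (sm c k t) := by
  induction k with
  | zero =>
    intro M t h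
    exact ⟨Int.mul_nonneg (Int.natCast_nonneg c) h.1, by
      push_cast; exact Int.mul_le_mul_of_nonneg_left h.2 (Int.natCast_nonneg c)⟩
  | succ k ih => intro M t h; exact mem_mp (fun a ha => ih M a (h a ha))

lemma bd_ax {i M N : ℕ} {g : (j : ℕ) → List (T j) → List (T j)} (hM : M ≤ N)
    (hg : ∀ l : List (T i), (∀ a ∈ l, bd i M a) → ∀ a ∈ g i l, bd i N a) (k : ℕ) :
    ∀ t, bd k M t → bd k N (ax i g k t) := by
  induction k with
  | zero => intro t h; exact bd_mono 0 _ _ _ hM h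
  | succ k ih =>
    intro t h
    show ∀ c ∈ (Bool.rec (mp (ax i g k)) (g k) (Nat.beq i k) : List (T k) → List (T k)) t, bd k N c
    cases e : Nat.beq i k
    · exact mem_mp (fun a ha => ih a (h a ha))
    · have := Nat.eq_of_beq_eq_true e
      subst this
      exact hg t h

/-- bit offset of the axis `k` -/
noncomputable def sh (b : ℕ) (d : ℕ → ℕ) (k : ℕ) : ℕ :=
  Nat.rec b (fun j ih => Nat.mul ih (Nat.succ (d j))) k

noncomputable def pn (b : ℕ) (d : ℕ → ℕ) (k : ℕ) : T k → ℕ :=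
  Nat.rec (motive := fun k => T k → ℕ) Int.toNat
    (fun j ih => hn ih (zr j) (Nat.pow 2 (sh b d j)) (d j)) k

noncomputable def gd (g b : ℕ) (d : ℕ → ℕ) (k : ℕ) : ℕ :=
  Nat.rec g (fun j ih => rp ih (Nat.pow 2 (sh b d j)) (d j)) k

noncomputable def mk (b : ℕ) (d : ℕ → ℕ) (i k : ℕ) : ℕ :=
  Nat.rec 0 (fun j ih => Bool.rec (rp ih (Nat.pow 2 (sh b d j)) (d j))
    (Nat.pred (Nat.pow 2 (sh b d j))) (Nat.beq i j)) k

noncomputable def sl (i j k : ℕ) : T k → T k := ax i (fun n l => [nt (zr n) j l]) k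

variable {b : ℕ} {d : ℕ → ℕ}

lemma pn_succ (k : ℕ) (l : T (k + 1)) :
    pn b d (k + 1) l = hn (pn b d k) (zr k) (2 ^ sh b d k) (d k) l := rfl

lemma pn_zr (k : ℕ) : pn b d k (zr k) = 0 := by
  induction k with
  | zero => rfl
  | succ k ih => exact hn_nil ih _ _

lemma two_sh (k : ℕ) : 2 ^ sh b d (k + 1) = (2 ^ sh b d k) ^ (d k + 1) := pow_mul _ _ _

lemma pn_lt {M g : ℕ} (h : M + g < 2 ^ b) (k : ℕ) :
    ∀ t, bd k M t → pn b d k t + gd g b d k < 2 ^ sh b d k := by
  induction k with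
  | zero =>
    intro t ht
    have : Int.toNat t ≤ M := Int.toNat_le.2 ht.2
    show Int.toNat t + g < 2 ^ b
    omega
  | succ k ih =>
    intro t ht
    rw [two_sh]
    exact hn_lt (ih _ (bd_zr k M)) _ t (fun c hc => ih c (ht c hc))

lemma pn_lt' {M : ℕ} (h : M < 2 ^ b) (k : ℕ) (t : T k) (ht : bd k M t) :
    pn b d k t < 2 ^ sh b d k :=
  lt_of_le_of_lt (Nat.le_add_right _ _) (pn_lt (g := 0) h k t ht)

lemma pn_le {M g : ℕ} (h : M ≤ g) (k : ℕ) : ∀ t, bd k M t → pn b d k t ≤ gd g b d k := by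
  induction k with
  | zero => intro t ht; exact (Int.toNat_le.2 ht.2).trans h
  | succ k ih => intro t ht; exact hn_le (ih _ (bd_zr k M)) _ t (fun c hc => ih c (ht c hc))

lemma pn_ev {M : ℕ} (k : ℕ) : ∀ t, bd k M t →
    (pn b d k t : ℝ) = ev d (fun j => ((2 ^ sh b d j : ℕ) : ℝ)) (fun _ => 1) k t := by
  induction k with
  | zero =>
    intro t ht
    show ((Int.toNat t : ℕ) : ℝ) = ((show ℤ from t : ℤ) : ℝ)
    rw [← Int.cast_natCast, Int.toNat_of_nonneg ht.1]
  | succ k ih => intro t ht; exact B_hn (ev_zr k) (bd_zr k M) ih _ _ t ht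

lemma pn_guard {M e : ℕ} {x y : ℕ → ℝ} (hx : ∀ i, 0 ≤ x i) (hy : ∀ i, 0 ≤ y i) (h : M < 2 ^ e)
    (k : ℕ) : ∀ s t, bd k M s → bd k M t →
      (pn (e + 1) d k s + gd (2 ^ e) (e + 1) d k - pn (e + 1) d k t) &&& gd (2 ^ e) (e + 1) d k
        = gd (2 ^ e) (e + 1) d k → ev d x y k t ≤ ev d x y k s := by
  induction k with
  | zero =>
    intro s t hs ht h1
    have h2 : (Int.toNat s + 2 ^ e - Int.toNat t) &&& 2 ^ e = 2 ^ e := h1
    have h3 : (Int.toNat s + 2 ^ e - Int.toNat t) &&& 2 ^ e ≤ Int.toNat s + 2 ^ e - Int.toNat t :=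
      Nat.and_le_left
    have h4 : Int.toNat t ≤ M := Int.toNat_le.2 ht.2
    have h5 : Int.toNat t ≤ Int.toNat s := by omega
    have h6 : (show ℤ from t) ≤ (show ℤ from s) := by
      have a1 := Int.toNat_of_nonneg hs.1
      have a2 := Int.toNat_of_nonneg ht.1
      exact a1 ▸ a2 ▸ Int.ofNat_le.2 h5
    exact Int.cast_le.2 h6
  | succ k ih =>
    intro s t hs ht h1
    exact guard (f := pn (e + 1) d k) (hx k) (hy k) (ev_zr k) (bd_zr k M) (pn_le h.le k)
      (pn_lt (by rw [pow_succ]; omega) k) ih _ s t hs ht h1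

lemma mk_lt {i j : ℕ} (hj : j ≤ d i) (k : ℕ) : mk b d i k * (2 ^ sh b d i) ^ j < 2 ^ sh b d k := by
  induction k with
  | zero => show 0 * _ < _; rw [zero_mul]; positivity
  | succ k ih =>
    show (Bool.rec (rp (mk b d i k) (2 ^ sh b d k) (d k)) (Nat.pred (2 ^ sh b d k)) (Nat.beq i k) : ℕ)
      * _ < _
    rw [two_sh]
    cases e : Nat.beq i k
    · show rp (mk b d i k) _ _ * _ < _
      rw [← rp_mul]
      have := hn_lt (f := fun _ : ℕ => 0) (z := 0) (g := mk b d i k * (2 ^ sh b d i) ^ j)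
        (q := 2 ^ sh b d k) (by simpa using ih) (d k) [] (fun c hc => absurd hc List.not_mem_nil)
      omega
    · have := Nat.eq_of_beq_eq_true e
      subst this
      have p : 0 < 2 ^ sh b d i := by positivity
      calc Nat.pred (2 ^ sh b d i) * (2 ^ sh b d i) ^ j < 2 ^ sh b d i * (2 ^ sh b d i) ^ j :=
            Nat.mul_lt_mul_of_pos_right (Nat.pred_lt p.ne') (by positivity)
        _ = (2 ^ sh b d i) ^ (j + 1) := (pow_succ' _ _).symm
        _ ≤ _ := Nat.pow_le_pow_right p (by omega)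

lemma pn_and {M i j : ℕ} (h : M < 2 ^ b) (hj : j ≤ d i) (k : ℕ) (hk : i < k) : ∀ t, bd k M t →
    pn b d k t &&& (mk b d i k * (2 ^ sh b d i) ^ j) = pn b d k (sl i j k t) * (2 ^ sh b d i) ^ j := by
  induction k with
  | zero => omega
  | succ k ih =>
    intro t ht
    show hn (pn b d k) (zr k) (2 ^ sh b d k) (d k) t &&& ((Bool.rec (rp (mk b d i k) (2 ^ sh b d k) (d k))
      (Nat.pred (2 ^ sh b d k)) (Nat.beq i k) : ℕ) * _)
      = hn (pn b d k) (zr k) (2 ^ sh b d k) (d k) ((Bool.rec (mp (sl i j k))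
        (fun l => [nt (zr k) j l]) (Nat.beq i k) : List (T k) → List (T k)) t) * _
    cases e : Nat.beq i k
    · have hik := Nat.ne_of_beq_eq_false e
      show _ &&& (rp (mk b d i k) _ _ * _) = hn _ _ _ _ (mp (sl i j k) t) * _
      rw [← rp_mul]
      exact hn_and (pn_zr k) (bd_zr k M) (mk_lt hj k) (pn_lt' h k) (ih (by omega)) _ t ht
    · have := Nat.eq_of_beq_eq_true e
      subst this
      show _ &&& ((2 ^ sh b d i - 1) * _) = hn _ _ _ _ [nt (zr i) j t] * _
      rw [hn_one (pn_zr i)]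
      exact hn_sel (pn_lt' h i _ (bd_zr i M)) _ j t hj (fun a ha => pn_lt' h i a (ht a ha))

lemma pn_slice {M i j k : ℕ} (h : M < 2 ^ b) (hj : j ≤ d i) (hk : i < k) (t : T k)
    (ht : bd k M t) : (pn b d k t >>> (sh b d i * j)) &&& mk b d i k = pn b d k (sl i j k t) := by
  have := congrArg (· >>> (sh b d i * j)) (pn_and h hj k hk t ht)
  simp only [Nat.shiftRight_and_distrib, ← pow_mul] at this
  rwa [Nat.shiftRight_eq_div_pow (_ * _), Nat.shiftRight_eq_div_pow (_ * _),
    Nat.mul_div_cancel _ (by positivity), Nat.mul_div_cancel _ (by positivity)] at this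

lemma ev_slices {x : ℕ → ℝ} {i : ℕ} (ξ η : ℝ) (k : ℕ) (hk : i < k) : ∀ t,
    ev d (Function.update x i ξ) (Function.update (fun _ => 1) i η) k t
      = ∑ j ∈ range (d i + 1), ev d x (fun _ => 1) k (sl i j k t) * (ξ ^ j * η ^ (d i - j)) := by
  induction k with
  | zero => omega
  | succ k ih =>
    intro t
    show B _ (Function.update x i ξ k) (Function.update (fun _ => (1 : ℝ)) i η k) (d k) t
      = ∑ j ∈ range (d i + 1), B (ev d x (fun _ => 1) k) (x k) 1 (d k) ((Bool.rec (mp (sl i j k))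
        (fun l => [nt (zr k) j l]) (Nat.beq i k) : List (T k) → List (T k)) t) * _
    cases e : Nat.beq i k
    · have hik := Nat.ne_of_beq_eq_false e
      rw [Function.update_of_ne (Ne.symm hik), Function.update_of_ne (Ne.symm hik)]
      exact B_lin (ih (by omega)) t _
    · have := Nat.eq_of_beq_eq_true e
      subst this
      rw [Function.update_self, Function.update_self, B_sum (ev_zr i),
        ev_congr (x' := x) (y' := fun _ => 1) i (fun j hj => by
          rw [Function.update_of_ne hj.ne, Function.update_of_ne hj.ne]; exact ⟨rfl, rfl⟩)]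
      refine sum_congr rfl (fun j _ => ?_)
      show _ = B _ _ _ _ [nt (zr i) j t] * _
      rw [B_cons _ _ _ (Nat.zero_le _)]
      simp only [B]; ring

noncomputable def hR (s m n : ℕ) : ℕ → ℕ :=
  Nat.rec (fun N => Nat.land N m) (fun _ ih N => Nat.add (Nat.add (Nat.land N m)
    (ih (Nat.shiftRight N s))) (Nat.shiftLeft (ih (Nat.shiftRight N s)) (Nat.succ s))) n

noncomputable def hL (s m n : ℕ) : ℕ → ℕ → ℕ :=
  Nat.rec (fun _ A => A) (fun _ ih N A => ih (Nat.shiftRight N s) (Nat.add (Nat.add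
    (Nat.land (Nat.shiftRight N s) m) A) (Nat.shiftLeft A (Nat.succ s)))) n

lemma hR_eq (s m n : ℕ) : ∀ N, hR s m n N
    = ∑ j ∈ range (n + 1), ((N >>> (s * j)) &&& m) * (2 * 2 ^ s + 1) ^ j := by
  induction n with
  | zero => intro N; show N &&& m = _; simp
  | succ n ih =>
    intro N
    show (N &&& m) + hR s m n (N >>> s) + hR s m n (N >>> s) <<< (s + 1) = _
    rw [Nat.shiftLeft_eq, sum_range_succ' _ (n + 1), ih, add_assoc, add_comm, sum_mul,
      ← sum_add_distrib]
    congr 1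
    · refine sum_congr rfl (fun j _ => ?_)
      rw [← Nat.shiftRight_add, show s + s * j = s * (j + 1) by ring]; ring
    · simp

lemma hL_eq (s m n : ℕ) : ∀ N A, hL s m n N A = A * (2 * 2 ^ s + 1) ^ n
    + ∑ j ∈ range n, ((N >>> (s * (j + 1))) &&& m) * (2 * 2 ^ s + 1) ^ (n - (j + 1)) := by
  induction n with
  | zero => intro N A; show A = _; simp
  | succ n ih =>
    intro N A
    show hL s m n (N >>> s) (((N >>> s) &&& m) + A + A <<< (s + 1)) = _
    rw [ih, Nat.shiftLeft_eq, sum_range_succ' _ n]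
    have : ∀ j, ((N >>> s >>> (s * (j + 1))) &&& m) * (2 * 2 ^ s + 1) ^ (n - (j + 1))
        = ((N >>> (s * (j + 1 + 1))) &&& m) * (2 * 2 ^ s + 1) ^ (n + 1 - (j + 1 + 1)) := by
      intro j
      rw [← Nat.shiftRight_add, show s + s * (j + 1) = s * (j + 1 + 1) by ring, Nat.add_sub_add_right]
    rw [sum_congr rfl (fun j _ => this j), zero_add, mul_one, Nat.add_sub_cancel]
    ring

lemma bd_sl {k M : ℕ} {t : T k} (h : bd k M t) (i j : ℕ) : bd k M (sl i j k t) :=
  bd_ax le_rfl (fun l hl a ha => by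
    rw [List.mem_singleton.1 ha]
    clear ha
    induction j generalizing l with
    | zero => exact all_hd (bd_zr i M) hl
    | succ j ih => exact ih _ (all_tl hl)) k t h

/-- `N` is the packed form of `t` -/
def Rep (b : ℕ) (d : ℕ → ℕ) (k M : ℕ) (N : ℕ) (t : T k) : Prop := bd k M t ∧ N = pn b d k t

lemma Rep.right {k M N i : ℕ} {t : T k} (h : Rep b d k M N t) (hM : M < 2 ^ b) (hk : i < k) :
    Rep b d k (M * 3 ^ d i) (hR (sh b d i) (mk b d i k) (d i) N)
      (ax i (fun j l => shR (add j) l (d j)) k t) := by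
  have h1 := bd_ax (i := i) (g := fun j l => shR (add j) l (d j))
    (Nat.le_mul_of_pos_right M (show 0 < 3 ^ d i by positivity))
    (fun l hl => bd_shR (bd_add i) (bd_mono i) l _ hl) k t h.1
  refine ⟨h1, ?_⟩
  apply Nat.cast_injective (R := ℝ)
  rw [pn_ev k _ h1, ev_ax (x' := Function.update (fun j => ((2 ^ sh b d j : ℕ) : ℝ)) i
      (2 * ((2 ^ sh b d i : ℕ) : ℝ) + 1)) (y' := Function.update (fun _ => 1) i 1)
      (fun j hj => by simp only [Function.update_of_ne hj, and_self])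
      (fun l => by rw [B_shR (ev_add i)]; simp only [Function.update_self]),
    ev_slices _ _ k hk, hR_eq, h.2, Nat.cast_sum]
  refine sum_congr rfl (fun j hj => ?_)
  have hj' : j ≤ d i := by have := mem_range.1 hj; omega
  rw [← pn_ev k _ (bd_sl h.1 i j), ← pn_slice hM hj' hk t h.1]
  push_cast; ring

lemma Rep.left {k M N i : ℕ} {t : T k} (h : Rep b d k M N t) (hM : M < 2 ^ b) (hk : i < k) :
    Rep b d k (M * 3 ^ d i) (hL (sh b d i) (mk b d i k) (d i) N (Nat.land N (mk b d i k)))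
      (ax i (fun j l => shR (add j) (rv (zr j) (d j) l []) (d j)) k t) := by
  have h1 := bd_ax (i := i) (g := fun j l => shR (add j) (rv (zr j) (d j) l []) (d j))
    (Nat.le_mul_of_pos_right M (show 0 < 3 ^ d i by positivity))
    (fun l hl => bd_shR (bd_add i) (bd_mono i) _ _ (bd_rv (bd_zr i M) _ l [] hl
      (fun a ha => absurd ha List.not_mem_nil))) k t h.1
  refine ⟨h1, ?_⟩
  apply Nat.cast_injective (R := ℝ)
  have e : hL (sh b d i) (mk b d i k) (d i) N (Nat.land N (mk b d i k)) = ∑ j ∈ range (d i + 1),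
      ((N >>> (sh b d i * j)) &&& mk b d i k) * (2 * 2 ^ sh b d i + 1) ^ (d i - j) := by
    rw [hL_eq, sum_range_succ', add_comm]; rfl
  rw [pn_ev k _ h1, ev_ax (x' := Function.update (fun j => ((2 ^ sh b d j : ℕ) : ℝ)) i 1)
      (y' := Function.update (fun _ => 1) i (2 * ((2 ^ sh b d i : ℕ) : ℝ) + 1))
      (fun j hj => by simp only [Function.update_of_ne hj, and_self])
      (fun l => by rw [B_shR (ev_add i), B_rv0 (ev_zr i)]; simp only [Function.update_self]),
    ev_slices _ _ k hk, e, h.2, Nat.cast_sum]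
  refine sum_congr rfl (fun j hj => ?_)
  have hj' : j ≤ d i := by have := mem_range.1 hj; omega
  rw [← pn_ev k _ (bd_sl h.1 i j), ← pn_slice hM hj' hk t h.1]
  push_cast; ring

lemma Rep.add {k M N P Q : ℕ} {s t : T k} (h : Rep b d k M P s) (h' : Rep b d k N Q t) :
    Rep b d k (M + N) (P + Q) (add k s t) := by
  have h1 := bd_add k _ _ _ _ h.1 h'.1
  refine ⟨h1, ?_⟩
  apply Nat.cast_injective (R := ℝ)
  rw [pn_ev k _ h1, ev_add, h.2, h'.2, Nat.cast_add, pn_ev k _ h.1, pn_ev k _ h'.1]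

lemma Rep.sm {k M P : ℕ} {s : T k} (h : Rep b d k M P s) (c : ℕ) :
    Rep b d k (c * M) (c * P) (sm c k s) := by
  have h1 := bd_sm c k _ _ h.1
  refine ⟨h1, ?_⟩
  apply Nat.cast_injective (R := ℝ)
  rw [pn_ev k _ h1, ev_sm, h.2, Nat.cast_mul, pn_ev k _ h.1, Int.cast_natCast]

/-- positive part of a row -/
noncomputable def cP (r : List ℤ) : List ℕ → ℕ :=
  List.rec (fun _ => 0) (fun c _ ih ns => List.rec 0 (fun N ns' _ => Int.rec
    (fun m => Nat.rec (ih ns') (fun _ _ => Nat.add (Nat.mul m N) (ih ns')) m)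
    (fun _ => ih ns') c) ns) r

/-- negative part of a row -/
noncomputable def cN (r : List ℤ) : List ℕ → ℕ :=
  List.rec (fun _ => 0) (fun c _ ih ns => List.rec 0 (fun N ns' _ => Int.rec
    (fun _ => ih ns') (fun m => Nat.add (Nat.mul (Nat.succ m) N) (ih ns')) c) ns) r

lemma row_rep {k M : ℕ} (r : List ℤ) : ∀ (ns : List ℕ) (ts : List (T k)),
    List.Forall₂ (Rep b d k M) ns ts → ∃ s t, Rep b d k (cP r (mp (fun _ => M) ns)) (cP r ns) s ∧
      Rep b d k (cN r (mp (fun _ => M) ns)) (cN r ns) t ∧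
      ∀ x y, ev d x y k s - ev d x y k t = dot r (ts.map (ev d x y k)) := by
  have z : Rep b d k 0 0 (zr k) := ⟨bd_zr k 0, (pn_zr k).symm⟩
  induction r with
  | nil => intro ns ts _; exact ⟨_, _, z, z, fun x y => sub_self _⟩
  | cons c r ih =>
    intro ns ts h
    cases h with
    | nil => exact ⟨_, _, z, z, fun x y => sub_self _⟩
    | cons h1 h2 =>
      obtain ⟨s, t, a1, a2, a3⟩ := ih _ _ h2
      cases c with
      | ofNat m =>
        cases m with
        | zero =>
          refine ⟨s, t, a1, a2, fun x y => ?_⟩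
          rw [a3]; show _ = ((0 : ℤ) : ℝ) * _ + dot r _
          rw [Int.cast_zero, zero_mul, zero_add]
        | succ m =>
          refine ⟨_, t, (h1.sm (m + 1)).add a1, a2, fun x y => ?_⟩
          rw [ev_add, ev_sm, add_sub_assoc, a3]; rfl
      | negSucc m =>
        refine ⟨s, _, a1, (h1.sm (m + 1)).add a2, fun x y => ?_⟩
        rw [ev_add, ev_sm, add_comm, ← sub_sub, a3]
        show _ = ((Int.negSucc m : ℤ) : ℝ) * _ + dot r _
        rw [Int.cast_negSucc]; push_cast; ring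

noncomputable def leaf (e G M : ℕ) (ns : List ℕ) (r : List ℤ) : Bool :=
  Bool.rec false (Nat.beq (Nat.land (Nat.sub (Nat.add (cP r ns) G) (cN r ns)) G) G)
    (Nat.ble (Nat.succ (Nat.add (cP r (mp (fun _ => M) ns)) (cN r (mp (fun _ => M) ns))))
      (Nat.pow 2 e))

lemma leaf_ok {k e M : ℕ} {ns : List ℕ} {ts : List (T k)} {r : List ℤ} {x y : ℕ → ℝ}
    (hx : ∀ i, 0 ≤ x i) (hy : ∀ i, 0 ≤ y i) (h : List.Forall₂ (Rep (e + 1) d k M) ns ts)
    (h1 : leaf e (gd (2 ^ e) (e + 1) d k) M ns r = true) : 0 ≤ dot r (ts.map (ev d x y k)) := by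
  obtain ⟨s, t, a1, a2, a3⟩ := row_rep r ns ts h
  unfold leaf at h1
  cases c : Nat.ble (Nat.succ (Nat.add (cP r (mp (fun _ => M) ns)) (cN r (mp (fun _ => M) ns))))
      (Nat.pow 2 e)
  · rw [c] at h1; exact absurd h1 (by simp)
  rw [c] at h1
  have c1 : cP r (mp (fun _ => M) ns) + cN r (mp (fun _ => M) ns) < 2 ^ e :=
    Nat.le_of_ble_eq_true c
  have c2 := Nat.eq_of_beq_eq_true h1
  rw [← a3, sub_nonneg]
  refine pn_guard hx hy c1 k s t (bd_mono k _ _ _ (by omega) a1.1) (bd_mono k _ _ _ (by omega) a2.1) ?_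
  rw [← a1.2, ← a2.2]; exact c2

noncomputable def run2 (e G : ℕ) (d : ℕ → ℕ) (k : ℕ) (ok : List ℤ → Bool)
    (rows : List ℤ → List (List ℤ)) (t : Tr) : ℕ → List ℕ → Bool :=
  Tr.rec (fun u M ns => Bool.rec false (al (leaf e G M ns) (rows u)) (ok u))
    (fun i _ _ h1 h2 M ns => Bool.rec false (Bool.rec false (Bool.rec false
      (h2 (Nat.mul M (Nat.pow 3 (d i)))
        (mp (hR (sh (Nat.succ e) d i) (mk (Nat.succ e) d i k) (d i)) ns))
      (h1 (Nat.mul M (Nat.pow 3 (d i))) (mp (fun N => hL (sh (Nat.succ e) d i) (mk (Nat.succ e) d i k)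
        (d i) N (Nat.land N (mk (Nat.succ e) d i k))) ns)))
      (Nat.ble (Nat.succ M) (Nat.pow 2 (Nat.succ e)))) (Nat.ble (Nat.succ i) k)) t

lemma fa_mp {α β : Type} {R S : α → β → Prop} {f : α → α} {g : β → β}
    (h : ∀ a b, R a b → S (f a) (g b)) {l : List α} {m : List β} (h1 : List.Forall₂ R l m) :
    List.Forall₂ S (mp f l) (m.map g) := by
  induction h1 with
  | nil => exact List.Forall₂.nil
  | cons a _ ih => exact List.Forall₂.cons (h _ _ a) ih

lemma run2_ok (e k : ℕ) (ok : List ℤ → Bool) (rows : List ℤ → List (List ℤ)) (t : Tr) :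
    ∀ (M : ℕ) (ns : List ℕ) (ts : List (T k)) (x y : ℕ → ℝ), List.Forall₂ (Rep (e + 1) d k M) ns ts →
    run2 e (gd (2 ^ e) (e + 1) d k) d k ok rows t M ns = true → (∀ i, 0 ≤ x i) → (∀ i, 0 ≤ y i) →
    ∃ u, ok u = true ∧ ∀ r ∈ rows u, 0 ≤ dot r (ts.map (ev d x y k)) := by
  induction t with
  | lf u =>
    intro M ns ts x y hr h hx hy
    have h' : (Bool.rec false (al (leaf e (gd (2 ^ e) (e + 1) d k) M ns) (rows u)) (ok u) : Bool)
      = true := h
    cases c : ok u
    · rw [c] at h'; exact absurd h' (by simp)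
    rw [c] at h'
    exact ⟨u, c, fun r h1 => leaf_ok hx hy hr (al_mem h' r h1)⟩
  | nd i t1 t2 ih1 ih2 =>
    intro M ns ts x y hr h hx hy
    have h' : (Bool.rec false (Bool.rec false (Bool.rec false
      (run2 e (gd (2 ^ e) (e + 1) d k) d k ok rows t2 (M * 3 ^ d i)
        (mp (hR (sh (e + 1) d i) (mk (e + 1) d i k) (d i)) ns))
      (run2 e (gd (2 ^ e) (e + 1) d k) d k ok rows t1 (M * 3 ^ d i) (mp (fun N => hL (sh (e + 1) d i)
        (mk (e + 1) d i k) (d i) N (Nat.land N (mk (e + 1) d i k))) ns)))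
      (Nat.ble (M + 1) (2 ^ (e + 1)))) (Nat.ble (i + 1) k) : Bool) = true := h
    cases c1 : Nat.ble (i + 1) k
    · rw [c1] at h'; exact absurd h' (by simp)
    cases c2 : Nat.ble (M + 1) (2 ^ (e + 1))
    · rw [c1, c2] at h'; exact absurd h' (by simp)
    cases c3 : run2 e (gd (2 ^ e) (e + 1) d k) d k ok rows t1 (M * 3 ^ d i) (mp (fun N =>
        hL (sh (e + 1) d i) (mk (e + 1) d i k) (d i) N (Nat.land N (mk (e + 1) d i k))) ns)
    · rw [c1, c2, c3] at h'; exact absurd h' (by simp)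
    rw [c1, c2, c3] at h'
    have hk : i < k := Nat.le_of_ble_eq_true c1
    have hM : M < 2 ^ (e + 1) := Nat.le_of_ble_eq_true c2
    rcases le_total (x i) (y i) with hxy | hxy
    · obtain ⟨u, hu⟩ := ih1 _ _ _ (Function.update x i ((y i - x i) / 2)) (Function.update y i (x i))
        (fa_mp (fun _ _ a => a.left hM hk) hr) c3
        (fun j => by rw [Function.update_apply]; split_ifs; linarith; exact hx j)
        (fun j => by rw [Function.update_apply]; split_ifs; exact hx i; exact hy j)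
      refine ⟨u, hu.1, fun r h1 => (hu.2 r h1).trans (le_of_eq ?_)⟩
      rw [List.map_map]
      congr 2
      funext s
      refine ev_ax (fun j hj => by simp only [Function.update_of_ne hj, and_self]) (fun l => ?_) k s
      rw [B_shR (ev_add i), B_rv0 (ev_zr i)]
      simp only [Function.update_self]
      congr 1; ring
    · obtain ⟨u, hu⟩ := ih2 _ _ _ (Function.update x i ((x i - y i) / 2)) y
        (fa_mp (fun _ _ a => a.right hM hk) hr) h'
        (fun j => by rw [Function.update_apply]; split_ifs; linarith; exact hx j) hy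
      refine ⟨u, hu.1, fun r h1 => (hu.2 r h1).trans (le_of_eq ?_)⟩
      rw [List.map_map]
      congr 2
      funext s
      refine ev_ax (fun j hj => by simp only [Function.update_of_ne hj, and_self]) (fun l => ?_) k s
      rw [B_shR (ev_add i)]
      simp only [Function.update_self]
      congr 1; ring

noncomputable def bb (M k : ℕ) : T k → Bool :=
  Nat.rec (motive := fun k => T k → Bool)
    (fun c => Int.rec (fun n => Nat.ble n M) (fun _ => false) c) (fun _ ih => al ih) k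

lemma bb_ok (M k : ℕ) : ∀ t, bb M k t = true → bd k M t := by
  induction k with
  | zero =>
    intro t h
    cases t with
    | ofNat n => exact ⟨Int.natCast_nonneg n, Int.ofNat_le.2 (Nat.le_of_ble_eq_true h)⟩
    | negSucc n => exact absurd h Bool.false_ne_true
  | succ k ih => intro t h c hc; exact ih c (al_mem h c hc)

noncomputable def sz (r : List ℤ) : List E → ℤ :=
  List.rec (fun _ => Int.ofNat 0)
    (fun c _ ih es => List.rec (Int.ofNat 0) (fun _ es' _ => Int.add c (ih es')) es) r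

lemma dot_sz (x : ℕ → ℝ) (K : ℤ) (r : List ℤ) : ∀ es : List E,
    dot r ((mp (fun p => E.a p (E.c K)) es).map (E.val x)) = dot r (es.map (E.val x)) + K * sz r es := by
  induction r with
  | nil => intro es; show (0 : ℝ) = 0 + K * ((0 : ℤ) : ℝ); simp
  | cons c r ih =>
    intro es
    cases es with
    | nil => show (0 : ℝ) = 0 + K * ((0 : ℤ) : ℝ); simp
    | cons p es =>
      show c * (p.val x + K) + dot r ((mp (fun p => E.a p (E.c K)) es).map (E.val x))
        = c * p.val x + dot r (es.map (E.val x)) + K * ((c + sz r es : ℤ) : ℝ)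
      rw [ih]; push_cast; ring

noncomputable def chk1 (e M : ℕ) (d : ℕ → ℕ) (k : ℕ) (ok : List ℤ → Bool)
    (rows : List ℤ → List (List ℤ)) (t : Tr) (ts : List (T k)) : Bool :=
  Bool.rec false (run2 e (gd (Nat.pow 2 e) (Nat.succ e) d k) d k ok rows t M
    (mp (pn (Nat.succ e) d k) ts)) (al (bb M k) ts)

/-- packed checker: digits of `e + 1` bits, root bound `M`, offset `K` -/
noncomputable def chk2 (e M : ℕ) (K : ℤ) (ds : List ℕ) (lo hi q : List ℤ) (es : List E)
    (ok : List ℤ → Bool) (rows : List ℤ → List (List ℤ)) (t : Tr) : Bool :=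
  Bool.rec false (chk1 e M (fun j => ds.getD j 0) ds.length ok
    (fun u => mp (fun r => Int.neg (Int.mul K (sz r es)) :: r) (rows u)) t
    (mp (fun p => box (fun j => ds.getD j 0) (fun j => lo.getD j 0) (fun j => hi.getD j 0)
      (fun j => q.getD j 0) ds.length ds.length (p.ten ds.length))
      (E.c 1 :: mp (fun p => E.a p (E.c K)) es)))
    (al (fun p => fit (fun j => ds.getD j 0) ds.length (p.ten ds.length))
      (E.c 1 :: mp (fun p => E.a p (E.c K)) es))

lemma box_ok {ds : List ℕ} {lo hi q : List ℤ} {es : List E} {Q : List ℝ → Prop}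
    (h : ∀ x y : ℕ → ℝ, (∀ i, 0 ≤ x i) → (∀ i, 0 ≤ y i) → Q ((mp (fun p => box (fun j => ds.getD j 0)
      (fun j => lo.getD j 0) (fun j => hi.getD j 0) (fun j => q.getD j 0) ds.length ds.length
      (p.ten ds.length)) es).map (ev (fun j => ds.getD j 0) x y ds.length)))
    (e : al (fun p => fit (fun j => ds.getD j 0) ds.length (p.ten ds.length)) es = true)
    (vs : List ℝ) (hl : vs.length = ds.length) (hb : InBox lo hi q vs) :
    Q (es.map (E.val (fun j => vs.getD j 0))) := by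
  have g := hb.get
  rw [hl] at g
  have pos : ∀ j, j < ds.length → (0 : ℝ) < q.getD j 0 ∧ (0 : ℝ) < hi.getD j 0 - lo.getD j 0 := by
    intro j hj
    have := (g j hj).1
    exact ⟨by exact_mod_cast this.1, by rw [sub_pos]; exact_mod_cast this.2⟩
  have hu := h
    (fun j => if j < ds.length then (q.getD j 0 * vs.getD j 0 - lo.getD j 0)
      / (q.getD j 0 * (hi.getD j 0 - lo.getD j 0)) else 0)
    (fun j => if j < ds.length then (hi.getD j 0 - q.getD j 0 * vs.getD j 0)
      / (q.getD j 0 * (hi.getD j 0 - lo.getD j 0)) else 0)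
    (fun j => by
      split_ifs with hj
      · exact div_nonneg (sub_nonneg.2 (g j hj).2.1) (mul_pos (pos j hj).1 (pos j hj).2).le
      · exact le_rfl)
    (fun j => by
      split_ifs with hj
      · exact div_nonneg (sub_nonneg.2 (g j hj).2.2) (mul_pos (pos j hj).1 (pos j hj).2).le
      · exact le_rfl)
  rw [mp_eq, List.map_map] at hu
  convert hu using 1
  apply List.map_congr_left
  intro p hp
  show _ = ev _ _ _ _ (box _ _ _ _ _ _ _)
  rw [ev_box, ← eh_ten ds.length (fun i hi => List.getD_eq_default _ _ (by omega)),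
    ← ev_fit _ _ (al_mem e p hp)]
  refine congrFun (ev_congr _ (fun j hj => ?_)) _
  have p1 := (pos j hj).1.ne'
  have p2 := (pos j hj).2.ne'
  simp only [if_pos hj]
  constructor <;> field_simp <;> ring

theorem chk2_ok {e M : ℕ} {K : ℤ} {ds : List ℕ} {lo hi q : List ℤ} {es : List E}
    {ok : List ℤ → Bool} {rows : List ℤ → List (List ℤ)} {t : Tr}
    (h : chk2 e M K ds lo hi q es ok rows t = true)
    (vs : List ℝ) (hl : vs.length = ds.length) (hb : InBox lo hi q vs) :
    ∃ u, ok u = true ∧ ∀ r ∈ rows u, 0 ≤ dot r (es.map (E.val (fun j => vs.getD j 0))) := by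
  unfold chk2 at h
  cases c : al (fun p => fit (fun j => ds.getD j 0) ds.length (p.ten ds.length))
      (E.c 1 :: mp (fun p => E.a p (E.c K)) es)
  · rw [c] at h; exact absurd h (by simp)
  rw [c] at h
  obtain ⟨u, h1, h2⟩ := box_ok (Q := fun l => ∃ u, ok u = true ∧ ∀ r ∈ mp
      (fun r => Int.neg (Int.mul K (sz r es)) :: r) (rows u), 0 ≤ dot r l) (fun x y hx hy => by
    generalize mp _ (E.c 1 :: mp (fun p => E.a p (E.c K)) es) = ts at h ⊢
    have h' : (Bool.rec false (run2 e (gd (2 ^ e) (e + 1) (fun j => ds.getD j 0) ds.length) _ _ ok _ t M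
      (mp (pn (e + 1) (fun j => ds.getD j 0) ds.length) ts)) (al (bb M ds.length) ts) : Bool) = true := h
    cases c1 : al (bb M ds.length) ts
    · rw [c1] at h'; exact absurd h' (by simp)
    rw [c1] at h'
    refine run2_ok e _ ok _ t M _ ts x y ?_ h' hx hy
    rw [mp_eq, List.forall₂_map_left_iff, List.forall₂_same]
    exact fun s hs => ⟨bb_ok M _ s (al_mem c1 s hs), rfl⟩) c vs hl hb
  refine ⟨u, h1, fun r hr => ?_⟩
  have h3 := h2 _ (by rw [mp_eq]; exact List.mem_map_of_mem hr)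
  have h4 : (0 : ℝ) ≤ ((-(K * sz r es) : ℤ) : ℝ) * ((1 : ℤ) : ℝ) + dot r ((mp (fun p => E.a p (E.c K))
    es).map (E.val (fun j => vs.getD j 0))) := h3
  rw [dot_sz] at h4
  push_cast at h4
  linarith

/-- one of the targets `ps` is nonnegative on the part of the box where the side conditions `cs`
hold (packed checker) -/
theorem some_nonneg2 {e M : ℕ} {K : ℤ} {ds : List ℕ} {lo hi q : List ℤ} {ps cs : List E} {t : Tr}
    (h : chk2 e M K ds lo hi q (ps ++ cs) (okN ps.length) (fun u => [u]) t = true)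
    (vs : List ℝ) (hl : vs.length = ds.length) (hb : InBox lo hi q vs)
    (hc : ∀ C ∈ cs, 0 ≤ C.val (fun j => vs.getD j 0)) :
    ∃ P ∈ ps, 0 ≤ P.val (fun j => vs.getD j 0) := by
  obtain ⟨u, h1, h2⟩ := chk2_ok h vs hl hb
  have h3 := h2 u List.mem_cons_self
  rw [List.map_append] at h3
  obtain ⟨p, hp, h0⟩ := okN_ok _ u _ _ (List.length_map _) h1 (fun v hv => by
    obtain ⟨C, hC, e⟩ := List.mem_map.1 hv
    rw [← e]; exact hc C hC) h3
  obtain ⟨P, hP, e⟩ := List.mem_map.1 hp
  exact ⟨P, hP, e ▸ h0⟩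

end Pool.Agent.Lib.MP_43bc59_co.Bx
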