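import Pool.Agent.Lib.MP_43bc59_co.Bp

set_option autoImplicit false

namespace Pool.Agent.Lib.MP_43bc59_co.Bx

open Finset

section one

variable {α : Type} {ad : α → α → α} {P : α → Prop} {z : α}

lemma all_cons {c : α} {l : List α} (h : P c) (h' : ∀ a ∈ l, P a) : ∀ a ∈ c :: l, P a :=
  List.forall_mem_cons.2 ⟨h, h'⟩

lemma all_zp (ha : ∀ a b, P a → P b → P (ad a b)) (l m : List α) (h1 : ∀ a ∈ l, P a)
    (h2 : ∀ a ∈ m, P a) : ∀ a ∈ zp ad l m, P a :=
  bd_zp (P := fun _ => P) (M := 0) (N := 0) (fun _ _ => ha) (fun _ _ _ _ h => h) l m h1 h2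

lemma all_stp (ha : ∀ a b, P a → P b → P (ad a b)) {u v : α → α} (hu : ∀ a, P a → P (u a))
    (hv : ∀ a, P a → P (v a)) (m : List α) : ∀ p, P p → (∀ a ∈ m, P a) →
    ∀ a ∈ stp ad u v m p, P a := by
  induction m with
  | nil => intro p hp _; exact all_cons hp (fun _ h => absurd h List.not_mem_nil)
  | cons c m ih =>
    intro p hp h
    have h' := List.forall_mem_cons.1 h
    exact all_cons (ha _ _ (hv _ h'.1) hp) (ih _ (hu _ h'.1) h'.2)

lemma all_gs (ha : ∀ a b, P a → P b → P (ad a b)) (hz : P z) {u v u' v' : α → α}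
    (hu : ∀ a, P a → P (u a)) (hv : ∀ a, P a → P (v a)) (hu' : ∀ a, P a → P (u' a))
    (hv' : ∀ a, P a → P (v' a)) (d : ℕ) : ∀ l : List α, (∀ a ∈ l, P a) →
    ∀ a ∈ gs ad z u v u' v' d l, P a := by
  have k : ∀ c n, P c → ∀ a ∈ pw ad z u' v' c n, P a := by
    intro c n hc
    induction n with
    | zero => exact all_cons hc (fun _ h => absurd h List.not_mem_nil)
    | succ n ih => exact all_stp ha hu' hv' _ z hz ih
  induction d with
  | zero => intro l h; exact all_cons (all_hd hz h) (fun _ h => absurd h List.not_mem_nil)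
  | succ d ih =>
    intro l h
    exact all_zp ha _ _ (k _ _ (all_hd hz h)) (all_stp ha hu hv _ z hz (ih _ (all_tl h)))

lemma al_of {p : α → Bool} {l : List α} (h : ∀ c ∈ l, p c = true) : al p l = true := by
  induction l with
  | nil => rfl
  | cons c l ih =>
    have h' := List.forall_mem_cons.1 h
    show (Bool.rec false (al p l) (p c) : Bool) = true
    rw [h'.1]; exact ih h'.2

lemma H_one {f : α → ℝ} (l : List α) (h : ∀ c ∈ l, 0 ≤ f c) :
    0 ≤ H f 1 l ∧ ∀ c ∈ l, f c ≤ H f 1 l := by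
  induction l with
  | nil => exact ⟨le_rfl, fun _ h => absurd h List.not_mem_nil⟩
  | cons c l ih =>
    have h' := List.forall_mem_cons.1 h
    have := ih h'.2
    show 0 ≤ f c + 1 * H f 1 l ∧ ∀ a ∈ c :: l, f a ≤ f c + 1 * H f 1 l
    exact ⟨by linarith [h'.1, this.1], all_cons (P := fun a => f a ≤ f c + 1 * H f 1 l)
      (by linarith [this.1]) (fun a ha => by linarith [h'.1, this.2 a ha])⟩

lemma B_scale {f g : α → ℝ} {s x y : ℝ} (hy : y ≠ 0) (h : ∀ a, f a = s * g a) (l : List α) :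
    ∀ n, B f x y n l = s * y ^ n * B g (x / y) 1 n l := by
  induction l with
  | nil => intro n; simp [B]
  | cons c l ih =>
    intro n
    cases n with
    | zero => show f c = s * y ^ 0 * g c; rw [h]; ring
    | succ n => simp only [B, ih, h]; field_simp; ring

end one

/-- nonnegative entries, degrees at most `d` -/
def Q (d : ℕ → ℕ) : (k : ℕ) → T k → Prop
  | 0 => fun c => 0 ≤ (show ℤ from c)
  | k + 1 => fun l => (show List (T k) from l).length ≤ d k + 1 ∧ ∀ c ∈ (show List (T k) from l), Q d k c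

variable {d d' : ℕ → ℕ}

lemma Q_zr (k : ℕ) : Q d k (zr k) := by
  cases k with
  | zero => exact le_rfl
  | succ k => exact ⟨Nat.zero_le _, fun _ h => absurd h List.not_mem_nil⟩

lemma Q_mono (k : ℕ) (h : ∀ j, j < k → d j ≤ d' j) : ∀ t, Q d k t → Q d' k t := by
  induction k with
  | zero => intro t h; exact h
  | succ k ih =>
    intro t ht
    exact ⟨ht.1.trans (Nat.succ_le_succ (h k (by omega))),
      fun c hc => ih (fun j hj => h j (by omega)) c (ht.2 c hc)⟩

lemma Q_add (k : ℕ) : ∀ s t, Q d k s → Q d k t → Q d k (add k s t) := by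
  induction k with
  | zero => intro s t h1 h2; exact Int.add_nonneg h1 h2
  | succ k ih => intro s t h1 h2; exact ⟨len_zp _ _ _ h1.1 h2.1, all_zp ih s t h1.2 h2.2⟩

lemma len_mq {α β : Type} (g : α → β) (l : List α) : (mp g l).length = l.length := by
  rw [mp_eq, List.length_map]

lemma Q_sm (c k : ℕ) : ∀ t, Q d k t → Q d k (sm c k t) := by
  induction k with
  | zero => intro t h; exact Int.mul_nonneg (Int.natCast_nonneg c) h
  | succ k ih => intro t h; exact ⟨(len_mq _ t).trans_le h.1, mem_mp (fun a ha => ih a (h.2 a ha))⟩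

lemma Q_mul (k : ℕ) : ∀ s t, Q d k s → Q d' k t → Q (fun j => d j + d' j) k (mul k s t) := by
  induction k with
  | zero => intro s t h1 h2; exact Int.mul_nonneg h1 h2
  | succ k ih =>
    intro s t h1 h2
    have key : ∀ l : List (T k), (∀ c ∈ l, Q d k c) →
        (show List (T k) from mul (k + 1) l t).length ≤ l.length + d' k ∧
        ∀ c ∈ (show List (T k) from mul (k + 1) l t), Q (fun j => d j + d' j) k c := by
      intro l
      induction l with
      | nil => intro _; exact ⟨Nat.zero_le _, fun _ h => absurd h List.not_mem_nil⟩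
      | cons c l ihl =>
        intro h
        have h' := List.forall_mem_cons.1 h
        have a := ihl h'.2
        have a1 := a.1
        have a2 := h2.1
        refine ⟨len_zp (mp (mul k c) t) (zr k :: mul (k + 1) l t) _ ?_ ?_,
          all_zp (Q_add k) (mp (mul k c) t) (zr k :: mul (k + 1) l t)
            (mem_mp (fun b hb => ih c b h'.1 (h2.2 b hb))) (all_cons (Q_zr k) a.2)⟩
        · rw [len_mq, List.length_cons]; exact a2.trans (by omega)
        · rw [List.length_cons, List.length_cons]; exact (Nat.succ_le_succ a1).trans (by omega)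
    have := key s h1.2
    exact ⟨this.1.trans (by have := h1.1; dsimp only at this ⊢; omega), this.2⟩

lemma Q_cst (c k : ℕ) : Q d k (cst c k) := by
  induction k with
  | zero => exact Int.natCast_nonneg c
  | succ k ih => exact ⟨Nat.succ_le_succ (Nat.zero_le _), all_cons ih (fun _ h => absurd h List.not_mem_nil)⟩

lemma Q_vr (i k : ℕ) : Q (fun j => Bool.rec 0 1 (Nat.beq i j)) k (vr i k) := by
  induction k with
  | zero => exact le_rfl
  | succ k ih =>
    show (Bool.rec [vr i k] [zr k, cst 1 k] (Nat.beq i k) : List (T k)).length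
      ≤ Bool.rec 0 1 (Nat.beq i k) + 1 ∧ ∀ c ∈ (Bool.rec [vr i k] [zr k, cst 1 k] (Nat.beq i k) :
        List (T k)), Q _ k c
    cases Nat.beq i k
    · exact ⟨le_rfl, all_cons ih (fun _ h => absurd h List.not_mem_nil)⟩
    · exact ⟨le_rfl, all_cons (Q_zr k) (all_cons (Q_cst 1 k) (fun _ h => absurd h List.not_mem_nil))⟩

lemma Q_fit (k : ℕ) : ∀ t, Q d k t → fit d k t = true := by
  induction k with
  | zero => intro t _; rfl
  | succ k ih =>
    intro t h
    show (Bool.rec false (al (fit d k) t) (Nat.ble (List.length t) (d k + 1)) : Bool) = true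
    rw [Nat.ble_eq_true_of_le h.1]
    exact al_of (fun c hc => ih c (h.2 c hc))

lemma Q_ax {i : ℕ} {g : (j : ℕ) → List (T j) → List (T j)}
    (hg : ∀ l : List (T i), (∀ a ∈ l, Q d i a) → (g i l).length ≤ d i + 1 ∧ ∀ a ∈ g i l, Q d i a)
    (k : ℕ) : ∀ t, Q d k t → Q d k (ax i g k t) := by
  induction k with
  | zero => intro t h; exact h
  | succ k ih =>
    intro t h
    show ((Bool.rec (mp (ax i g k)) (g k) (Nat.beq i k) : List (T k) → List (T k)) t).length ≤ _ ∧
      ∀ c ∈ (Bool.rec (mp (ax i g k)) (g k) (Nat.beq i k) : List (T k) → List (T k)) t, Q d k c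
    cases e : Nat.beq i k
    · exact ⟨(len_mq _ t).trans_le h.1, mem_mp (fun a ha => ih a (h.2 a ha))⟩
    · have := Nat.eq_of_beq_eq_true e
      subst this
      exact hg t h.2

lemma Q_box (lo hi q : ℕ → ℕ) (k : ℕ) {t : T k} (h : Q d k t) (n : ℕ) :
    Q d k (box d (fun j => lo j) (fun j => hi j) (fun j => q j) k n t) := by
  induction n with
  | zero => exact h
  | succ n ih =>
    exact Q_ax (fun l hl => ⟨len_gs _ _, all_gs (Q_add n) (Q_zr n) (Q_sm _ n) (Q_sm _ n) (Q_sm _ n)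
      (Q_sm _ n) _ l hl⟩) k _ ih

lemma Q_bd (M k : ℕ) : ∀ t, Q d k t → 0 ≤ eh (fun _ => 1) k t ∧
    (eh (fun _ => 1) k t ≤ M → bd k M t) := by
  induction k with
  | zero =>
    intro t h
    exact ⟨Int.cast_nonneg h, fun h1 => ⟨h, by
      have : ((show ℤ from t : ℤ) : ℝ) ≤ ((M : ℤ) : ℝ) := h1.trans_eq (Int.cast_natCast M).symm
      exact_mod_cast this⟩⟩
  | succ k ih =>
    intro t h
    have := H_one (f := eh (fun _ => 1) k) t (fun c hc => (ih c (h.2 c hc)).1)
    exact ⟨this.1, fun h1 c hc => (ih c (h.2 c hc)).2 ((this.2 c hc).trans h1)⟩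

lemma ev_scale {x y : ℕ → ℝ} (k : ℕ) (hy : ∀ j, j < k → y j ≠ 0) : ∀ t, ev d x y k t
    = (∏ j ∈ range k, y j ^ d j) * ev d (fun j => x j / y j) (fun _ => 1) k t := by
  induction k with
  | zero => intro t; rw [prod_range_zero, one_mul]; rfl
  | succ k ih =>
    intro t
    rw [prod_range_succ]
    exact B_scale (hy k (by omega)) (ih (fun j hj => hy j (by omega))) t _

/-- positive and negative part of an expression -/
def E.sp : E → E × E
  | .v i => (.v i, .c 0)
  | .c z => (.c (Int.toNat z), .c (Int.toNat (-z)))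
  | .a p q => (.a p.sp.1 q.sp.1, .a p.sp.2 q.sp.2)
  | .s p q => (.a p.sp.1 q.sp.2, .a p.sp.2 q.sp.1)
  | .m p q => (.a (.m p.sp.1 q.sp.1) (.m p.sp.2 q.sp.2), .a (.m p.sp.1 q.sp.2) (.m p.sp.2 q.sp.1))

lemma E.sp_val (x : ℕ → ℝ) (e : E) : e.sp.1.val x - e.sp.2.val x = e.val x := by
  induction e with
  | v i => simp [E.sp, E.val]
  | c z =>
    simp only [E.sp, E.val]
    rw [← Int.cast_sub, Int.toNat_sub_toNat_neg]
  | a p q h1 h2 => simp only [E.sp, E.val, ← h1, ← h2]; ring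
  | s p q h1 h2 => simp only [E.sp, E.val, ← h1, ← h2]; ring
  | m p q h1 h2 => simp only [E.sp, E.val, ← h1, ← h2]; ring

noncomputable def mx (a b : ℕ) : ℕ := Nat.add a (Nat.sub b a)

noncomputable def E.dg (e : E) (j : ℕ) : ℕ :=
  E.rec (fun i => Bool.rec 0 1 (Nat.beq i j)) (fun _ => 0) (fun _ _ s t => mx s t)
    (fun _ _ s t => mx s t) (fun _ _ s t => Nat.add s t) e

lemma le_mx (a b : ℕ) : a ≤ mx a b := Nat.le_add_right _ _

lemma le_mx' (a b : ℕ) : b ≤ mx a b := by
  show b ≤ a + (b - a); omega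

lemma Q_sp (k : ℕ) (e : E) : Q e.dg k (e.sp.1.ten k) ∧ Q e.dg k (e.sp.2.ten k) := by
  induction e with
  | v i => exact ⟨Q_vr i k, Q_cst 0 k⟩
  | c z => exact ⟨Q_cst _ k, Q_cst _ k⟩
  | a p q h1 h2 =>
    exact ⟨Q_add k _ _ (Q_mono k (fun j _ => le_mx _ _) _ h1.1) (Q_mono k (fun j _ => le_mx' _ _) _ h2.1),
      Q_add k _ _ (Q_mono k (fun j _ => le_mx _ _) _ h1.2) (Q_mono k (fun j _ => le_mx' _ _) _ h2.2)⟩
  | s p q h1 h2 =>
    exact ⟨Q_add k _ _ (Q_mono k (fun j _ => le_mx _ _) _ h1.1) (Q_mono k (fun j _ => le_mx' _ _) _ h2.2),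
      Q_add k _ _ (Q_mono k (fun j _ => le_mx _ _) _ h1.2) (Q_mono k (fun j _ => le_mx' _ _) _ h2.1)⟩
  | m p q h1 h2 =>
    exact ⟨Q_add k _ _ (Q_mul k _ _ h1.1 h2.1) (Q_mul k _ _ h1.2 h2.2),
      Q_add k _ _ (Q_mul k _ _ h1.1 h2.2) (Q_mul k _ _ h1.2 h2.1)⟩

/-- raise the degrees from `d'` to `d` -/
noncomputable def lf (Y d d' : ℕ → ℕ) (k N : ℕ) : ℕ :=
  Nat.rec N (fun j ih => Nat.rec ih (fun _ _ => Nat.mul (Nat.pow (Y j) (Nat.sub (d j) (d' j))) ih)
    (Nat.sub (d j) (d' j))) k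

lemma lf_eq {Y : ℕ → ℕ} {N : ℕ} {v : ℝ} (k : ℕ) (h : ∀ j, j < k → d' j ≤ d j)
    (hN : (N : ℝ) = (∏ j ∈ range k, (Y j : ℝ) ^ d' j) * v) :
    (lf Y d d' k N : ℝ) = (∏ j ∈ range k, (Y j : ℝ) ^ d j) * v := by
  have e : ∀ n, lf Y d d' n N = (∏ j ∈ range n, Y j ^ (d j - d' j)) * N := by
    intro n
    induction n with
    | zero => rw [prod_range_zero, one_mul]; rfl
    | succ n ih =>
      rw [prod_range_succ, mul_right_comm, ← ih, mul_comm]
      show (Nat.rec (lf Y d d' n N) (fun _ _ => Y n ^ (d n - d' n) * lf Y d d' n N) (d n - d' n) : ℕ) = _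
      cases d n - d' n with
      | zero => exact (one_mul _).symm
      | succ m => rfl
  rw [e]; push_cast
  rw [hN, ← mul_assoc, ← prod_mul_distrib]
  congr 1
  exact prod_congr rfl (fun j hj => by rw [← pow_add, Nat.sub_add_cancel (h j (mem_range.1 hj))])

lemma lf_add {Y : ℕ → ℕ} {N N' : ℕ} {v v' : ℝ} (k : ℕ)
    (hN : (N : ℝ) = (∏ j ∈ range k, (Y j : ℝ) ^ d j) * v)
    (hN' : (N' : ℝ) = (∏ j ∈ range k, (Y j : ℝ) ^ d' j) * v') :
    ((lf Y (fun j => mx (d j) (d' j)) d k N + lf Y (fun j => mx (d j) (d' j)) d' k N' : ℕ) : ℝ)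
      = (∏ j ∈ range k, (Y j : ℝ) ^ mx (d j) (d' j)) * (v + v') := by
  rw [Nat.cast_add, lf_eq k (fun j _ => le_mx _ _) hN, lf_eq k (fun j _ => le_mx' _ _) hN', mul_add]

/-- homogeneous value of the two parts at the point `X / Y` -/
noncomputable def hv (X Y : ℕ → ℕ) (k : ℕ) (e : E) : ℕ × ℕ :=
  E.rec (fun i => (Bool.rec 0 (X i) (Nat.ble (Nat.succ i) k), 0))
    (fun z => (Int.toNat z, Int.toNat (Int.neg z)))
    (fun p q s t => (Nat.add (lf Y (E.a p q).dg p.dg k s.1) (lf Y (E.a p q).dg q.dg k t.1),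
      Nat.add (lf Y (E.a p q).dg p.dg k s.2) (lf Y (E.a p q).dg q.dg k t.2)))
    (fun p q s t => (Nat.add (lf Y (E.s p q).dg p.dg k s.1) (lf Y (E.s p q).dg q.dg k t.2),
      Nat.add (lf Y (E.s p q).dg p.dg k s.2) (lf Y (E.s p q).dg q.dg k t.1)))
    (fun _ _ s t => (Nat.add (Nat.mul s.1 t.1) (Nat.mul s.2 t.2),
      Nat.add (Nat.mul s.1 t.2) (Nat.mul s.2 t.1))) e

lemma hv_eq {X Y : ℕ → ℕ} {k : ℕ} (hY : ∀ j, j < k → (Y j : ℝ) ≠ 0) (e : E) :
    ((hv X Y k e).1 : ℝ) = (∏ j ∈ range k, (Y j : ℝ) ^ e.dg j)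
      * e.sp.1.val (fun j => if j < k then (X j : ℝ) / Y j else 0) ∧
    ((hv X Y k e).2 : ℝ) = (∏ j ∈ range k, (Y j : ℝ) ^ e.dg j)
      * e.sp.2.val (fun j => if j < k then (X j : ℝ) / Y j else 0) := by
  induction e with
  | v i =>
    refine ⟨?_, by simp [hv, E.sp, E.val]⟩
    show ((Bool.rec 0 (X i) (Nat.ble (i + 1) k) : ℕ) : ℝ)
      = (∏ j ∈ range k, (Y j : ℝ) ^ (Bool.rec 0 1 (Nat.beq i j) : ℕ)) * if i < k then _ else _
    split_ifs with h
    · rw [Nat.ble_eq_true_of_le h, prod_eq_single i (fun j _ hj => by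
        rw [Bool.eq_false_iff.2 (fun c => hj (Nat.eq_of_beq_eq_true c).symm)]; exact pow_zero _)
        (fun c => absurd (mem_range.2 h) c), Nat.beq_refl]
      have := hY i h
      show (X i : ℝ) = Y i ^ 1 * _
      field_simp
    · rw [Bool.eq_false_iff.2 (fun c => h (Nat.le_of_ble_eq_true c)), mul_zero]; exact Nat.cast_zero
  | c z =>
    have e : ∀ n : ℕ, (n : ℝ) = (∏ j ∈ range k, (Y j : ℝ) ^ 0) * ((n : ℤ) : ℝ) := fun n => by simp
    exact ⟨e _, e _⟩
  | a p q h1 h2 =>
    exact ⟨lf_add k h1.1 h2.1, lf_add k h1.2 h2.2⟩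
  | s p q h1 h2 =>
    exact ⟨lf_add k h1.1 h2.2, lf_add k h1.2 h2.1⟩
  | m p q h1 h2 =>
    have e : ∏ j ∈ range k, (Y j : ℝ) ^ (E.m p q).dg j
        = (∏ j ∈ range k, (Y j : ℝ) ^ p.dg j) * ∏ j ∈ range k, (Y j : ℝ) ^ q.dg j := by
      rw [← prod_mul_distrib]; exact prod_congr rfl (fun j _ => pow_add _ _ _)
    rw [e]
    constructor
    · show (((hv X Y k p).1 * (hv X Y k q).1 + (hv X Y k p).2 * (hv X Y k q).2 : ℕ) : ℝ) = _
      push_cast; rw [h1.1, h1.2, h2.1, h2.2]; simp only [E.sp, E.val]; ring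
    · show (((hv X Y k p).1 * (hv X Y k q).2 + (hv X Y k p).2 * (hv X Y k q).1 : ℕ) : ℝ) = _
      push_cast; rw [h1.1, h1.2, h2.1, h2.2]; simp only [E.sp, E.val]; ring

/-- the two packed roots at the point `x` -/
noncomputable def rt (d lo hi q x : ℕ → ℕ) (k : ℕ) (e : E) : List ℕ :=
  [lf (fun j => Nat.add (Nat.mul (q j) (x j)) (q j)) d e.dg k (hv (fun j => Nat.add (Nat.mul (hi j)
      (x j)) (lo j)) (fun j => Nat.add (Nat.mul (q j) (x j)) (q j)) k e).1,
    lf (fun j => Nat.add (Nat.mul (q j) (x j)) (q j)) d e.dg k (hv (fun j => Nat.add (Nat.mul (hi j)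
      (x j)) (lo j)) (fun j => Nat.add (Nat.mul (q j) (x j)) (q j)) k e).2]

lemma rt_eq {lo hi q x : ℕ → ℕ} {k : ℕ} (hq : ∀ j, j < k → 0 < q j) {e : E}
    (he : ∀ j, j < k → e.dg j ≤ d j) : (rt d lo hi q x k e).map (fun n : ℕ => (n : ℝ))
      = [e.sp.1, e.sp.2].map (fun p => ev d (fun j => x j) (fun _ => 1) k
        (box d (fun j => lo j) (fun j => hi j) (fun j => q j) k k (p.ten k))) := by
  have hY : ∀ j, j < k → ((q j * x j + q j : ℕ) : ℝ) ≠ 0 := fun j hj => by
    have := hq j hj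
    exact_mod_cast (show q j * x j + q j ≠ 0 by omega)
  have k1 : ∀ p : E, Q e.dg k (p.ten k) → ev d (fun j => x j) (fun _ => 1) k
      (box d (fun j => lo j) (fun j => hi j) (fun j => q j) k k (p.ten k))
      = (∏ j ∈ range k, ((q j * x j + q j : ℕ) : ℝ) ^ d j) * p.val (fun j => if j < k then
        ((hi j * x j + lo j : ℕ) : ℝ) / ((q j * x j + q j : ℕ) : ℝ) else 0) := by
    intro p hp
    rw [ev_box, ev_congr (x' := fun j => ((hi j * x j + lo j : ℕ) : ℝ))
      (y' := fun j => ((q j * x j + q j : ℕ) : ℝ)) k (fun j hj => by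
        simp only [if_pos hj]; push_cast; exact ⟨by ring, by ring⟩), ev_scale k hY,
      ← eh_ten k (fun i hi => if_neg (by omega)), ← ev_fit k _ (Q_fit k _ (Q_mono k he _ hp))]
    congr 1
    exact congrFun (ev_congr k (fun j hj => ⟨(if_pos hj).symm, rfl⟩)) _
  have k2 := hv_eq (X := fun j => hi j * x j + lo j) hY e
  exact congrArg₂ (fun a b : ℝ => [a, b]) ((lf_eq k he k2.1).trans (k1 _ (Q_sp k e).1).symm)
    ((lf_eq k he k2.2).trans (k1 _ (Q_sp k e).2).symm)

noncomputable def fm {α β : Type} (g : α → List β) (l : List α) : List β :=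
  List.rec [] (fun c _ ih => List.rec ih (fun b _ r => b :: r) (g c)) l

lemma fm_cons {α β : Type} (g : α → List β) (c : α) (l : List α) :
    fm g (c :: l) = g c ++ fm g l := by
  show (List.rec (fm g l) (fun b _ r => b :: r) (g c) : List β) = _
  induction g c with
  | nil => rfl
  | cons b m ih => exact congrArg (b :: ·) ih

lemma dot_fm (x : ℕ → ℝ) (r : List ℤ) : ∀ es : List E,
    dot (fm (fun c => [c, Int.neg c]) r) ((fm (fun e : E => [e.sp.1, e.sp.2]) es).map (E.val x))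
      = dot r (es.map (E.val x)) := by
  induction r with
  | nil => intro es; rfl
  | cons c r ih =>
    intro es
    cases es with
    | nil => rfl
    | cons p es =>
      show c * p.sp.1.val x + (((-c : ℤ) : ℝ) * p.sp.2.val x + dot (fm (fun c => [c, Int.neg c]) r)
        ((fm (fun e : E => [e.sp.1, e.sp.2]) es).map (E.val x))) = c * p.val x + dot r (es.map (E.val x))
      rw [ih, ← p.sp_val]; push_cast; ring

noncomputable def alk (p : ℕ → Bool) (k : ℕ) : Bool :=
  Nat.rec true (fun j ih => Bool.rec false ih (p j)) k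

lemma alk_ok {p : ℕ → Bool} (k : ℕ) (h : alk p k = true) : ∀ j, j < k → p j = true := by
  induction k with
  | zero => intro j hj; omega
  | succ k ih =>
    intro j hj
    have h' : (Bool.rec false (alk p k) (p k) : Bool) = true := h
    cases c : p k
    · rw [c] at h'; exact absurd h' (by simp)
    · rw [c] at h'
      rcases Nat.lt_succ_iff_lt_or_eq.1 hj with e | e
      · exact ih h' j e
      · rw [e]; exact c

noncomputable def chk6 (e M : ℕ) (d lo hi q : ℕ → ℕ) (k : ℕ) (es : List E)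
    (ok : List ℤ → Bool) (rows : List ℤ → List (List ℤ)) (t : Tr) : Bool :=
  Bool.rec false (Bool.rec false (run2 e (gd (Nat.pow 2 e) (Nat.succ e) d k) d k ok
      (fun u => mp (fm (fun c => [c, Int.neg c])) (rows u)) t M
      (fm (rt d lo hi q (fun j => Nat.pow 2 (sh (Nat.succ e) d j)) k) es))
    (al (fun n => Nat.ble n M) (fm (rt d lo hi q (fun _ => 1) k) es)))
    (al (fun p => alk (fun j => Nat.ble (p.dg j) (d j)) k) es)

/-- packed checker with packed root; the box has nonnegative ends -/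
noncomputable def chk5 (e M : ℕ) (ds lo hi q : List ℕ) (es : List E)
    (ok : List ℤ → Bool) (rows : List ℤ → List (List ℤ)) (t : Tr) : Bool :=
  chk6 e M (fun j => ds.getD j 0) (fun j => lo.getD j 0) (fun j => hi.getD j 0)
    (fun j => q.getD j 0) ds.length es ok rows t

lemma getD_cast (l : List ℕ) : (fun j => (l.map (fun n : ℕ => (n : ℤ))).getD j 0)
    = fun j => ((l.getD j 0 : ℕ) : ℤ) := by
  funext j
  exact List.getD_map l 0 (fun n : ℕ => (n : ℤ))

theorem chk5_ok {e M : ℕ} {ds lo hi q : List ℕ} {es : List E}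
    {ok : List ℤ → Bool} {rows : List ℤ → List (List ℤ)} {t : Tr}
    (h : chk5 e M ds lo hi q es ok rows t = true) (vs : List ℝ) (hl : vs.length = ds.length)
    (hb : InBox (lo.map (fun n : ℕ => (n : ℤ))) (hi.map (fun n : ℕ => (n : ℤ)))
      (q.map (fun n : ℕ => (n : ℤ))) vs) :
    ∃ u, ok u = true ∧ ∀ r ∈ rows u, 0 ≤ dot r (es.map (E.val (fun j => vs.getD j 0))) := by
  unfold chk5 chk6 at h
  cases c : al (fun p : E => alk (fun j => Nat.ble (p.dg j) (ds.getD j 0)) ds.length) es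
  · rw [c] at h; exact absurd h (by simp)
  cases c1 : al (fun n => Nat.ble n M) (fm (rt (fun j => ds.getD j 0) (fun j => lo.getD j 0)
    (fun j => hi.getD j 0) (fun j => q.getD j 0) (fun _ => 1) ds.length) es)
  · rw [c, c1] at h; exact absurd h (by simp)
  rw [c, c1] at h
  have hq : ∀ j, j < ds.length → 0 < q.getD j 0 := fun j hj => by
    have := (hb.get j (hl ▸ hj)).1.1
    rw [congrFun (getD_cast q) j] at this
    exact_mod_cast this
  have he : ∀ p ∈ es, ∀ j, j < ds.length → p.dg j ≤ ds.getD j 0 := fun p hp j hj =>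
    Nat.le_of_ble_eq_true (alk_ok _ (al_mem c p hp) j hj)
  have c2 := al_mem c1
  clear c c1
  obtain ⟨u, h1, h2⟩ := box_ok (es := fm (fun e : E => [e.sp.1, e.sp.2]) es)
    (Q := fun l => ∃ u, ok u = true ∧ ∀ r ∈ mp (fm (fun c => [c, Int.neg c])) (rows u), 0 ≤ dot r l)
    (fun x y hx hy => by
      refine run2_ok e _ ok _ t M _ _ x y ?_ h hx hy
      rw [getD_cast, getD_cast, getD_cast]
      clear h
      induction es with
      | nil => exact List.Forall₂.nil
      | cons p es ih =>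
        have he' := List.forall_mem_cons.1 he
        rw [fm_cons] at c2
        have a1 := rt_eq (lo := fun j => lo.getD j 0) (hi := fun j => hi.getD j 0)
          (x := fun _ => 1) hq he'.1
        have a2 := rt_eq (lo := fun j => lo.getD j 0) (hi := fun j => hi.getD j 0)
          (x := fun j => 2 ^ sh (e + 1) (fun j => ds.getD j 0) j) hq he'.1
        have q1 := Q_box (fun j => lo.getD j 0) (fun j => hi.getD j 0) (fun j => q.getD j 0) _
          (Q_mono _ he'.1 _ (Q_sp ds.length p).1) ds.length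
        have q2 := Q_box (fun j => lo.getD j 0) (fun j => hi.getD j 0) (fun j => q.getD j 0) _
          (Q_mono _ he'.1 _ (Q_sp ds.length p).2) ds.length
        simp only [rt, List.map_cons, List.map_nil, List.cons.injEq, and_true, Nat.cast_one] at a1 a2
        have b1 := (Q_bd M _ _ q1).2 (by
          rw [← ev_fit _ _ (Q_fit _ _ q1), ← a1.1]
          exact_mod_cast Nat.le_of_ble_eq_true (c2 _ (List.mem_append_left _ List.mem_cons_self)))
        have b2 := (Q_bd M _ _ q2).2 (by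
          rw [← ev_fit _ _ (Q_fit _ _ q2), ← a1.2]
          exact_mod_cast Nat.le_of_ble_eq_true (c2 _ (List.mem_append_left _
            (List.mem_cons_of_mem _ List.mem_cons_self))))
        refine List.Forall₂.cons ⟨b1, Nat.cast_injective (R := ℝ) ?_⟩ (List.Forall₂.cons
          ⟨b2, Nat.cast_injective (R := ℝ) ?_⟩
          (ih he'.2 (fun n hn => c2 n (List.mem_append_right _ hn))))
        · rw [pn_ev _ _ b1]; exact a2.1
        · rw [pn_ev _ _ b2]; exact a2.2)
    (al_of (by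
      clear h c2
      induction es with
      | nil => intro _ h; exact absurd h List.not_mem_nil
      | cons p es ih =>
        have he' := List.forall_mem_cons.1 he
        exact all_cons (Q_fit _ _ (Q_mono _ he'.1 _ (Q_sp _ p).1))
          (all_cons (Q_fit _ _ (Q_mono _ he'.1 _ (Q_sp _ p).2)) (ih he'.2)))) vs hl hb
  refine ⟨u, h1, fun r hr => ?_⟩
  rw [← dot_fm]
  exact h2 _ (by rw [mp_eq]; exact List.mem_map_of_mem hr)

/-- one of the targets `ps` is nonnegative on the part of the box where the side conditions `cs`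
hold (packed root) -/
theorem some_nonneg5 {e M : ℕ} {ds lo hi q : List ℕ} {ps cs : List E} {t : Tr}
    (h : chk5 e M ds lo hi q (ps ++ cs) (okN ps.length) (fun u => [u]) t = true)
    (vs : List ℝ) (hl : vs.length = ds.length)
    (hb : InBox (lo.map (fun n : ℕ => (n : ℤ))) (hi.map (fun n : ℕ => (n : ℤ)))
      (q.map (fun n : ℕ => (n : ℤ))) vs)
    (hc : ∀ C ∈ cs, 0 ≤ C.val (fun j => vs.getD j 0)) :
    ∃ P ∈ ps, 0 ≤ P.val (fun j => vs.getD j 0) := by
  obtain ⟨u, h1, h2⟩ := chk5_ok h vs hl hb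
  have h3 := h2 u List.mem_cons_self
  rw [List.map_append] at h3
  obtain ⟨p, hp, h0⟩ := okN_ok _ u _ _ (List.length_map _) h1 (fun v hv => by
    obtain ⟨C, hC, e⟩ := List.mem_map.1 hv
    rw [← e]; exact hc C hC) h3
  obtain ⟨P, hP, e⟩ := List.mem_map.1 hp
  exact ⟨P, hP, e ▸ h0⟩

/-- the statement certified on one box -/
def G (ps cs : List E) (n : ℕ) (lo hi q : List ℕ) : Prop :=
  ∀ vs : List ℝ, vs.length = n → InBox (lo.map (fun n : ℕ => (n : ℤ))) (hi.map (fun n : ℕ => (n : ℤ)))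
    (q.map (fun n : ℕ => (n : ℤ))) vs → (∀ C ∈ cs, 0 ≤ C.val (fun j => vs.getD j 0)) →
    ∃ P ∈ ps, 0 ≤ P.val (fun j => vs.getD j 0)

theorem G.leaf (e M : ℕ) (ds : List ℕ) {lo hi q : List ℕ} {ps cs : List E} (t : Tr)
    (h : chk5 e M ds lo hi q (ps ++ cs) (okN ps.length) (fun u => [u]) t = true) :
    G ps cs ds.length lo hi q := some_nonneg5 h

lemma InBox.split : ∀ (i : ℕ) (lo hi q : List ℕ) (vs : List ℝ),
    InBox (lo.map (fun n : ℕ => (n : ℤ))) (hi.map (fun n : ℕ => (n : ℤ)))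
      (q.map (fun n : ℕ => (n : ℤ))) vs →
    InBox ((lo.set i (2 * lo.getD i 0)).map (fun n : ℕ => (n : ℤ)))
      ((hi.set i (lo.getD i 0 + hi.getD i 0)).map (fun n : ℕ => (n : ℤ)))
      ((q.set i (2 * q.getD i 0)).map (fun n : ℕ => (n : ℤ))) vs ∨
    InBox ((lo.set i (lo.getD i 0 + hi.getD i 0)).map (fun n : ℕ => (n : ℤ)))
      ((hi.set i (2 * hi.getD i 0)).map (fun n : ℕ => (n : ℤ)))
      ((q.set i (2 * q.getD i 0)).map (fun n : ℕ => (n : ℤ))) vs
  | _, _, _, _, [], _ => Or.inl (by unfold InBox; split <;> simp_all)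
  | _, [], _, _, _ :: _, h => h.elim
  | _, _ :: _, [], _, _ :: _, h => h.elim
  | _, _ :: _, _ :: _, [], _ :: _, h => h.elim
  | i + 1, _ :: lo, _ :: hi, _ :: q, _ :: vs, h =>
    (InBox.split i lo hi q vs h.2.2).imp (fun a => ⟨h.1, h.2.1, a⟩) (fun a => ⟨h.1, h.2.1, a⟩)
  | 0, l :: lo, u :: hi, m :: q, v :: vs, h => by
    obtain ⟨⟨a1, a2⟩, ⟨a3, a4⟩, a5⟩ := h
    simp only [Int.cast_natCast] at a3 a4
    rcases le_total (2 * (m * v)) ((l : ℝ) + u) with c | c
    · refine Or.inl ⟨⟨?_, ?_⟩, ⟨?_, ?_⟩, a5⟩ <;>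
        simp only [List.getD_cons_zero] <;> push_cast <;> linarith
    · refine Or.inr ⟨⟨?_, ?_⟩, ⟨?_, ?_⟩, a5⟩ <;>
        simp only [List.getD_cons_zero] <;> push_cast <;> linarith

theorem G.split {ps cs : List E} {n : ℕ} (i : ℕ) {lo hi q : List ℕ}
    (h1 : G ps cs n (lo.set i (2 * lo.getD i 0)) (hi.set i (lo.getD i 0 + hi.getD i 0))
      (q.set i (2 * q.getD i 0)))
    (h2 : G ps cs n (lo.set i (lo.getD i 0 + hi.getD i 0)) (hi.set i (2 * hi.getD i 0))
      (q.set i (2 * q.getD i 0))) : G ps cs n lo hi q := fun vs hl hb hc =>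
  (InBox.split i lo hi q vs hb).elim (fun a => h1 vs hl a hc) (fun a => h2 vs hl a hc)

end Pool.Agent.Lib.MP_43bc59_co.Bx
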