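import Mathlib

set_option autoImplicit false

namespace Pool.Agent.Lib.MP_43bc59_co.Bx

section one

variable {α : Type}

/-- binary form of degree `d` with the given coefficients -/
def B (f : α → ℝ) (x y : ℝ) : ℕ → List α → ℝ
  | _, [] => 0
  | 0, c :: _ => f c
  | d + 1, c :: l => f c * y ^ (d + 1) + x * B f x y d l

/-- power form -/
def H (f : α → ℝ) (x : ℝ) : List α → ℝ
  | [] => 0
  | c :: l => f c + x * H f x l

noncomputable def zp (ad : α → α → α) (l : List α) : List α → List α :=
  List.rec (fun m => m) (fun a l' ih m => List.rec (a :: l') (fun b m' _ => ad a b :: ih m') m) l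

noncomputable def stp (ad : α → α → α) (u v : α → α) (m : List α) : α → List α :=
  List.rec (fun p => [p]) (fun a _ ih p => ad (v a) p :: ih (u a)) m

noncomputable def shR (ad : α → α → α) (l : List α) : ℕ → List α :=
  List.rec (fun _ => [])
    (fun c _ ih d => Nat.rec [c] (fun d' _ => stp ad (fun a => ad a a) (fun a => a) (ih d') c) d) l

noncomputable def hd (z : α) (l : List α) : α := List.rec z (fun c _ _ => c) l

noncomputable def tl (l : List α) : List α := List.rec [] (fun _ l' _ => l') l

noncomputable def rv (z : α) (d : ℕ) : List α → List α → List α :=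
  Nat.rec (fun l acc => hd z l :: acc) (fun _ ih l acc => ih (tl l) (hd z l :: acc)) d

noncomputable def pw (ad : α → α → α) (z : α) (u v : α → α) (c : α) (n : ℕ) : List α :=
  Nat.rec [c] (fun _ ih => stp ad u v ih z) n

noncomputable def gs (ad : α → α → α) (z : α) (u v u' v' : α → α) (d : ℕ) : List α → List α :=
  Nat.rec (fun l => [hd z l])
    (fun d' ih l => zp ad (pw ad z u' v' (hd z l) (d' + 1)) (stp ad u v (ih (tl l)) z)) d

noncomputable def mp {β : Type} (g : α → β) (l : List α) : List β :=
  List.rec [] (fun c _ ih => g c :: ih) l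

noncomputable def al (p : α → Bool) (l : List α) : Bool :=
  List.rec true (fun c _ ih => Bool.rec false ih (p c)) l

variable {f : α → ℝ} {ad : α → α → α} {z : α} {x y : ℝ}

lemma B_cons (d : ℕ) (c : α) (l : List α) (h : l.length ≤ d) :
    B f x y d (c :: l) = f c * y ^ d + x * B f x y (d - 1) l := by
  cases d with
  | zero =>
    have : l = [] := List.length_eq_zero_iff.1 (by omega)
    subst this; simp [B]
  | succ d => rfl

lemma B_zero (hz : f z = 0) (l : List α) : B f x y 0 l = f (hd z l) := by
  cases l with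
  | nil => exact hz.symm
  | cons c l => rfl

lemma B_succ (hz : f z = 0) (d : ℕ) (l : List α) :
    B f x y (d + 1) l = f (hd z l) * y ^ (d + 1) + x * B f x y d (tl l) := by
  cases l with
  | nil =>
    show (0 : ℝ) = f z * _ + x * B f x y d []
    rw [hz]; simp [B]
  | cons c l => rfl

lemma B_zp (ha : ∀ a b, f (ad a b) = f a + f b) (l : List α) : ∀ (m : List α) (d : ℕ),
    B f x y d (zp ad l m) = B f x y d l + B f x y d m := by
  induction l with
  | nil => intro m d; show B f x y d m = _; simp [B]
  | cons a l ih =>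
    intro m d
    cases m with
    | nil => show B f x y d (a :: l) = _; simp [B]
    | cons b m =>
      show B f x y d (ad a b :: zp ad l m) = _
      cases d with
      | zero => exact ha a b
      | succ d => simp only [B, ha, ih]; ring

lemma H_zp (ha : ∀ a b, f (ad a b) = f a + f b) (l : List α) : ∀ (m : List α),
    H f x (zp ad l m) = H f x l + H f x m := by
  induction l with
  | nil => intro m; show H f x m = _; simp [H]
  | cons a l ih =>
    intro m
    cases m with
    | nil => show H f x (a :: l) = _; simp [H]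
    | cons b m =>
      show H f x (ad a b :: zp ad l m) = _
      simp only [H, ha, ih]; ring

lemma len_zp (l : List α) : ∀ (m : List α) (n : ℕ), l.length ≤ n → m.length ≤ n →
    (zp ad l m).length ≤ n := by
  induction l with
  | nil => intro m n _ h; exact h
  | cons a l ih =>
    intro m n h1 h2
    cases m with
    | nil => exact h1
    | cons b m =>
      show (ad a b :: zp ad l m).length ≤ n
      simp only [List.length_cons] at h1 h2 ⊢
      have := ih m (n - 1) (by omega) (by omega)
      omega

lemma len_stp {u v : α → α} (m : List α) : ∀ p, (stp ad u v m p).length = m.length + 1 := by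
  induction m with
  | nil => intro p; rfl
  | cons a m ih =>
    intro p
    show (ad (v a) p :: stp ad u v m (u a)).length = _
    simp only [List.length_cons, ih]

lemma B_stp (ha : ∀ a b, f (ad a b) = f a + f b) {u v : α → α} {s t : ℝ}
    (hu : ∀ a, f (u a) = s * f a) (hv : ∀ a, f (v a) = t * f a) (m : List α) :
    ∀ (p : α) (d : ℕ), m.length ≤ d + 1 →
      B f x y (d + 1) (stp ad u v m p) = f p * y ^ (d + 1) + (s * x + t * y) * B f x y d m := by
  induction m with
  | nil => intro p d _; show B f x y (d + 1) [p] = _; simp [B]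
  | cons a m ih =>
    intro p d h
    simp only [List.length_cons] at h
    show B f x y (d + 1) (ad (v a) p :: stp ad u v m (u a)) = _
    cases d with
    | zero =>
      have : m = [] := List.length_eq_zero_iff.1 (by omega)
      subst this
      show f (ad (v a) p) * y ^ (0 + 1) + x * f (u a) = f p * y ^ (0 + 1) + _ * f a
      rw [ha, hu, hv]; ring
    | succ d =>
      show f (ad (v a) p) * y ^ (d + 1 + 1) + x * B f x y (d + 1) (stp ad u v m (u a))
        = _ + _ * (f a * y ^ (d + 1) + x * B f x y d m)
      rw [ih _ d (by omega), ha, hu, hv]; ring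

lemma len_shR (l : List α) : ∀ d, (shR ad l d).length ≤ d + 1 := by
  induction l with
  | nil => intro d; exact Nat.zero_le _
  | cons c l ih =>
    intro d
    cases d with
    | zero => exact le_rfl
    | succ d =>
      show (stp ad _ _ (shR ad l d) c).length ≤ _
      rw [len_stp]; exact Nat.succ_le_succ (ih d)

lemma B_shR (ha : ∀ a b, f (ad a b) = f a + f b) (l : List α) : ∀ d,
    B f x y d (shR ad l d) = B f (2 * x + y) y d l := by
  induction l with
  | nil => intro d; show B f x y d [] = _; simp [B]
  | cons c l ih =>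
    intro d
    cases d with
    | zero => rfl
    | succ d =>
      show B f x y (d + 1) (stp ad _ _ (shR ad l d) c) = f c * y ^ (d + 1) + _ * B f _ y d l
      rw [B_stp ha (s := 2) (t := 1) (fun a => by rw [ha]; ring) (fun a => by ring) _ _ _
        (len_shR l d), ih, one_mul]

lemma B_rv (hz : f z = 0) (d : ℕ) : ∀ (l acc : List α),
    B f x y (d + acc.length) (rv z d l acc)
      = y ^ acc.length * B f y x d l + x ^ (d + 1) * B f x y (acc.length - 1) acc := by
  induction d with
  | zero =>
    intro l acc
    show B f x y (0 + acc.length) (hd z l :: acc) = _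
    rw [zero_add, B_cons _ _ _ le_rfl, B_zero hz]; ring
  | succ d ih =>
    intro l acc
    have := ih (tl l) (hd z l :: acc)
    simp only [List.length_cons, Nat.add_sub_cancel] at this
    show B f x y (d + 1 + acc.length) (rv z d (tl l) (hd z l :: acc)) = _
    rw [show d + 1 + acc.length = d + (acc.length + 1) by omega, this, B_cons _ _ _ le_rfl,
      B_succ hz]
    ring

lemma B_rv0 (hz : f z = 0) (d : ℕ) (l : List α) : B f x y d (rv z d l []) = B f y x d l := by
  have := B_rv (x := x) (y := y) hz d l []
  simpa [B] using this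

lemma len_pw {u v : α → α} (c : α) (n : ℕ) : (pw ad z u v c n).length = n + 1 := by
  induction n with
  | zero => rfl
  | succ n ih => show (stp ad u v (pw ad z u v c n) z).length = _; rw [len_stp, ih]

lemma B_pw (ha : ∀ a b, f (ad a b) = f a + f b) (hz : f z = 0) {u v : α → α} {s t : ℝ}
    (hu : ∀ a, f (u a) = s * f a) (hv : ∀ a, f (v a) = t * f a) (c : α) (n : ℕ) :
    B f x y n (pw ad z u v c n) = f c * (s * x + t * y) ^ n := by
  induction n with
  | zero => show f c = _; simp
  | succ n ih =>
    show B f x y (n + 1) (stp ad u v (pw ad z u v c n) z) = _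
    rw [B_stp ha hu hv _ _ _ (len_pw c n).le, ih, hz]; ring

lemma len_gs {u v u' v' : α → α} (d : ℕ) : ∀ l, (gs ad z u v u' v' d l).length ≤ d + 1 := by
  induction d with
  | zero => intro l; exact le_rfl
  | succ d ih =>
    intro l
    show (zp ad _ _).length ≤ _
    apply len_zp _ _ _ (len_pw _ _).le
    rw [len_stp]; exact Nat.succ_le_succ (ih _)

lemma B_gs (ha : ∀ a b, f (ad a b) = f a + f b) (hz : f z = 0) {u v u' v' : α → α}
    {s t s' t' : ℝ} (hu : ∀ a, f (u a) = s * f a) (hv : ∀ a, f (v a) = t * f a)
    (hu' : ∀ a, f (u' a) = s' * f a) (hv' : ∀ a, f (v' a) = t' * f a) (d : ℕ) : ∀ l,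
    B f x y d (gs ad z u v u' v' d l) = B f (s * x + t * y) (s' * x + t' * y) d l := by
  induction d with
  | zero => intro l; rw [B_zero hz l]; rfl
  | succ d ih =>
    intro l
    show B f x y (d + 1) (zp ad (pw ad z u' v' (hd z l) (d + 1))
      (stp ad u v (gs ad z u v u' v' d (tl l)) z)) = _
    rw [B_zp ha, B_pw ha hz hu' hv', B_stp ha hu hv _ _ _ (len_gs d _), B_succ hz d l, hz, ih]
    ring

lemma B_mp {β : Type} {f' : β → ℝ} {g : α → β} {s : ℝ} (h : ∀ a, f' (g a) = s * f a)
    (l : List α) : ∀ d, B f' x y d (mp g l) = s * B f x y d l := by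
  induction l with
  | nil => intro d; show B f' x y d [] = _; simp [B]
  | cons c l ih =>
    intro d
    show B f' x y d (g c :: mp g l) = _
    cases d with
    | zero => exact h c
    | succ d => simp only [B, h, ih]; ring

lemma H_mp {g : α → α} {s : ℝ} (h : ∀ a, f (g a) = s * f a)
    (l : List α) : H f x (mp g l) = s * H f x l := by
  induction l with
  | nil => show H f x [] = _; simp [H]
  | cons c l ih =>
    show H f x (g c :: mp g l) = _
    simp only [H, h, ih]; ring

lemma al_cons {p : α → Bool} {c : α} {l : List α} (h : al p (c :: l) = true) :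
    p c = true ∧ al p l = true := by
  have h' : (Bool.rec false (al p l) (p c) : Bool) = true := h
  cases e : p c
  · rw [e] at h'; exact absurd h' (by simp)
  · rw [e] at h'; exact ⟨rfl, h'⟩

lemma al_mem {p : α → Bool} {l : List α} (h : al p l = true) : ∀ c ∈ l, p c = true := by
  induction l with
  | nil => intro c hc; simp at hc
  | cons a l ih =>
    intro c hc
    rcases List.mem_cons.1 hc with e | e
    · rw [e]; exact (al_cons h).1
    · exact ih (al_cons h).2 c e

lemma B_nonneg (hx : 0 ≤ x) (hy : 0 ≤ y) (l : List α) (h : ∀ c ∈ l, 0 ≤ f c) :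
    ∀ d, 0 ≤ B f x y d l := by
  induction l with
  | nil => intro d; simp [B]
  | cons c l ih =>
    intro d
    have h1 := h c List.mem_cons_self
    cases d with
    | zero => exact h1
    | succ d =>
      have := ih (fun a ha => h a (List.mem_cons_of_mem _ ha)) d
      simp only [B]; positivity

lemma B_one {f' : α → ℝ} (l : List α) (h : ∀ c ∈ l, f c = f' c) :
    ∀ d, l.length ≤ d + 1 → B f x 1 d l = H f' x l := by
  induction l with
  | nil => intro d _; simp [B, H]
  | cons c l ih =>
    intro d hl
    simp only [List.length_cons] at hl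
    rw [B_cons _ _ _ (by omega), h c List.mem_cons_self, one_pow, mul_one]
    cases l with
    | nil => simp [B, H]
    | cons b l =>
      simp only [List.length_cons] at hl
      rw [ih (fun a ha => h a (List.mem_cons_of_mem _ ha)) _ (by simp only [List.length_cons]; omega)]
      rfl

end one

/-- coefficient tensors -/
def T : ℕ → Type
  | 0 => ℤ
  | k + 1 => List (T k)

noncomputable def ev (d : ℕ → ℕ) (x y : ℕ → ℝ) : (k : ℕ) → T k → ℝ
  | 0 => fun c => ((show ℤ from c : ℤ) : ℝ)
  | k + 1 => fun l => B (ev d x y k) (x k) (y k) (d k) l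

noncomputable def eh (x : ℕ → ℝ) : (k : ℕ) → T k → ℝ
  | 0 => fun c => ((show ℤ from c : ℤ) : ℝ)
  | k + 1 => fun l => H (eh x k) (x k) l

noncomputable def zr (k : ℕ) : T k := Nat.rec (motive := T) (Int.ofNat 0) (fun _ _ => []) k

noncomputable def add (k : ℕ) : T k → T k → T k :=
  Nat.rec (motive := fun k => T k → T k → T k) Int.add (fun _ ih => zp ih) k

noncomputable def sm (c : ℤ) (k : ℕ) : T k → T k :=
  Nat.rec (motive := fun k => T k → T k) (Int.mul c) (fun _ ih => mp ih) k

noncomputable def nn (k : ℕ) : T k → Bool :=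
  Nat.rec (motive := fun k => T k → Bool) (fun c => Int.rec (fun _ => true) (fun _ => false) c)
    (fun _ ih => al ih) k

noncomputable def mul (k : ℕ) : T k → T k → T k :=
  Nat.rec (motive := fun k => T k → T k → T k) Int.mul
    (fun j ih l m => List.rec [] (fun c _ r => zp (add j) (mp (ih c) m) (zr j :: r)) l) k

noncomputable def cst (c : ℤ) (k : ℕ) : T k := Nat.rec (motive := T) c (fun _ ih => [ih]) k

noncomputable def vr (i : ℕ) (k : ℕ) : T k :=
  Nat.rec (motive := T) (Int.ofNat 0)
    (fun j ih => Bool.rec [ih] [zr j, cst 1 j] (Nat.beq i j)) k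

noncomputable def fit (d : ℕ → ℕ) (k : ℕ) : T k → Bool :=
  Nat.rec (motive := fun k => T k → Bool) (fun _ => true)
    (fun j ih l => Bool.rec false (al ih l) (Nat.ble (List.length l) (d j + 1))) k

/-- apply `g` along the axis `i` -/
noncomputable def ax (i : ℕ) (g : (j : ℕ) → List (T j) → List (T j)) (k : ℕ) : T k → T k :=
  Nat.rec (motive := fun k => T k → T k) (fun c => c)
    (fun j ih => Bool.rec (mp ih) (g j) (Nat.beq i j)) k

variable {d : ℕ → ℕ} {x y : ℕ → ℝ}

lemma ev_zr (k : ℕ) : ev d x y k (zr k) = 0 := by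
  cases k with
  | zero => exact Int.cast_zero
  | succ k => show B _ _ _ _ [] = 0; simp [B]

lemma eh_zr (k : ℕ) : eh x k (zr k) = 0 := by
  cases k with
  | zero => exact Int.cast_zero
  | succ k => rfl

lemma ev_add (k : ℕ) : ∀ s t, ev d x y k (add k s t) = ev d x y k s + ev d x y k t := by
  induction k with
  | zero => intro s t; exact Int.cast_add _ _
  | succ k ih => intro s t; exact B_zp ih s t _

lemma eh_add (k : ℕ) : ∀ s t, eh x k (add k s t) = eh x k s + eh x k t := by
  induction k with
  | zero => intro s t; exact Int.cast_add _ _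
  | succ k ih => intro s t; exact H_zp ih s t

lemma ev_sm (c : ℤ) (k : ℕ) : ∀ t, ev d x y k (sm c k t) = c * ev d x y k t := by
  induction k with
  | zero => intro t; exact Int.cast_mul _ _
  | succ k ih => intro t; exact B_mp ih t _

lemma eh_sm (c : ℤ) (k : ℕ) : ∀ t, eh x k (sm c k t) = c * eh x k t := by
  induction k with
  | zero => intro t; exact Int.cast_mul _ _
  | succ k ih => intro t; exact H_mp ih t

lemma ev_nn (hx : ∀ i, 0 ≤ x i) (hy : ∀ i, 0 ≤ y i) (k : ℕ) :
    ∀ t, nn k t = true → 0 ≤ ev d x y k t := by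
  induction k with
  | zero =>
    intro t h
    cases t with
    | ofNat n => exact Int.cast_nonneg (Int.natCast_nonneg n)
    | negSucc n => exact absurd h Bool.false_ne_true
  | succ k ih => intro t h; exact B_nonneg (hx k) (hy k) t (fun c hc => ih c (al_mem h c hc)) _

lemma eh_mul (k : ℕ) : ∀ s t, eh x k (mul k s t) = eh x k s * eh x k t := by
  induction k with
  | zero => intro s t; exact Int.cast_mul _ _
  | succ k ih =>
    intro s t
    induction s with
    | nil => show (0 : ℝ) = 0 * _; ring
    | cons c l ihl =>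
      show H (eh x k) (x k) (zp (add k) (mp (mul k c) t) (zr k :: mul (k + 1) l t))
        = (eh x k c + x k * eh x (k + 1) l) * eh x (k + 1) t
      rw [H_zp (eh_add k), H_mp (ih c)]
      show _ + (eh x k (zr k) + x k * eh x (k + 1) (mul (k + 1) l t)) = _
      rw [ihl, eh_zr]
      show eh x k c * eh x (k + 1) t + _ = _
      ring

lemma eh_cst (c : ℤ) (k : ℕ) : eh x k (cst c k) = c := by
  induction k with
  | zero => rfl
  | succ k ih => show eh x k (cst c k) + x k * 0 = _; rw [ih]; ring

lemma eh_vr (i k : ℕ) : eh x k (vr i k) = if i < k then x i else 0 := by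
  induction k with
  | zero => rw [if_neg (by omega)]; exact Int.cast_zero
  | succ k ih =>
    show H (eh x k) (x k) (Bool.rec [vr i k] [zr k, cst 1 k] (Nat.beq i k)) = _
    cases e : Nat.beq i k
    · have := Nat.ne_of_beq_eq_false e
      show eh x k (vr i k) + x k * 0 = _
      rw [ih, mul_zero, add_zero]
      split_ifs <;> first | rfl | omega
    · have := Nat.eq_of_beq_eq_true e
      show eh x k (zr k) + x k * (eh x k (cst 1 k) + x k * 0) = _
      rw [eh_zr, eh_cst, if_pos (by omega), this]; simp

lemma ev_fit (k : ℕ) : ∀ t, fit d k t = true → ev d x (fun _ => 1) k t = eh x k t := by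
  induction k with
  | zero => intro t _; rfl
  | succ k ih =>
    intro t h
    have h' : (Bool.rec false (al (fit d k) t) (Nat.ble (List.length t) (d k + 1)) : Bool) = true := h
    cases e : Nat.ble (List.length t) (d k + 1)
    · rw [e] at h'; exact absurd h' (by simp)
    · rw [e] at h'
      exact B_one t (fun c hc => ih c (al_mem h' c hc)) _ (Nat.le_of_ble_eq_true e)

lemma ev_congr {x' y' : ℕ → ℝ} (k : ℕ) (h : ∀ j, j < k → x j = x' j ∧ y j = y' j) :
    ev d x y k = ev d x' y' k := by
  induction k with
  | zero => rfl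
  | succ k ih =>
    funext t
    show B (ev d x y k) (x k) (y k) (d k) t = B (ev d x' y' k) (x' k) (y' k) (d k) t
    rw [ih (fun j hj => h j (by omega)), (h k (by omega)).1, (h k (by omega)).2]

lemma ev_ax {i : ℕ} {g : (j : ℕ) → List (T j) → List (T j)} {x' y' : ℕ → ℝ}
    (h : ∀ j, j ≠ i → x j = x' j ∧ y j = y' j)
    (hg : ∀ l, B (ev d x y i) (x i) (y i) (d i) (g i l) = B (ev d x y i) (x' i) (y' i) (d i) l)
    (k : ℕ) : ∀ t, ev d x y k (ax i g k t) = ev d x' y' k t := by
  induction k with
  | zero => intro t; rfl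
  | succ k ih =>
    intro t
    show B (ev d x y k) (x k) (y k) (d k) ((Bool.rec (mp (ax i g k)) (g k) (Nat.beq i k) :
      List (T k) → List (T k)) t) = B (ev d x' y' k) (x' k) (y' k) (d k) t
    cases e : Nat.beq i k
    · have hk := h k (Ne.symm (Nat.ne_of_beq_eq_false e))
      rw [← hk.1, ← hk.2, ← one_mul (B (ev d x' y' k) _ _ _ _)]
      exact B_mp (fun a => by rw [ih, one_mul]) t _
    · have := Nat.eq_of_beq_eq_true e
      subst this
      rw [← ev_congr (x := x) (y := y) i (fun j hj => h j (by omega))]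
      exact hg t

/-- subdivision trees -/
inductive Tr : Type
  | lf : List ℤ → Tr
  | nd : ℕ → Tr → Tr → Tr

noncomputable def cmb (k : ℕ) (r : List ℤ) : List (T k) → T k :=
  List.rec (fun _ => zr k) (fun c _ ih ts => List.rec (zr k) (fun t ts' _ =>
    Bool.rec (add k (sm c k t) (ih ts')) (ih ts') (Nat.beq (Int.natAbs c) 0)) ts) r

/-- scalar product of an integer row with a list of reals -/
def dot : List ℤ → List ℝ → ℝ
  | c :: r, v :: vs => c * v + dot r vs
  | _, _ => 0

lemma ev_cmb (k : ℕ) (r : List ℤ) : ∀ ts : List (T k),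
    ev d x y k (cmb k r ts) = dot r (ts.map (ev d x y k)) := by
  induction r with
  | nil => intro ts; exact ev_zr k
  | cons c r ih =>
    intro ts
    cases ts with
    | nil => exact ev_zr k
    | cons t ts =>
      show ev d x y k (Bool.rec (add k (sm c k t) (cmb k r ts)) (cmb k r ts)
        (Nat.beq (Int.natAbs c) 0)) = c * ev d x y k t + dot r (ts.map (ev d x y k))
      cases e : Nat.beq (Int.natAbs c) 0
      · show ev d x y k (add k _ _) = _
        rw [ev_add, ev_sm, ih]
      · have : c = 0 := Int.natAbs_eq_zero.1 (Nat.eq_of_beq_eq_true e)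
        show ev d x y k (cmb k r ts) = _
        rw [ih, this]; simp

noncomputable def run (d : ℕ → ℕ) (k : ℕ) (ok : List ℤ → Bool) (rows : List ℤ → List (List ℤ))
    (t : Tr) : List (T k) → Bool :=
  Tr.rec (fun u ts => Bool.rec false (al (fun r => nn k (cmb k r ts)) (rows u)) (ok u))
    (fun i _ _ h1 h2 ts => Bool.rec false
      (h2 (mp (ax i (fun j l => shR (add j) l (d j)) k) ts))
      (h1 (mp (ax i (fun j l => shR (add j) (rv (zr j) (d j) l []) (d j)) k) ts))) t

lemma mp_eq {α β : Type} (g : α → β) (l : List α) : mp g l = l.map g := by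
  induction l with
  | nil => rfl
  | cons c l ih => show g c :: mp g l = _; rw [ih]; rfl

lemma run_ok (k : ℕ) (ok : List ℤ → Bool) (rows : List ℤ → List (List ℤ)) (t : Tr) :
    ∀ (ts : List (T k)) (x y : ℕ → ℝ),
    run d k ok rows t ts = true → (∀ i, 0 ≤ x i) → (∀ i, 0 ≤ y i) →
    ∃ u, ok u = true ∧ ∀ r ∈ rows u, 0 ≤ dot r (ts.map (ev d x y k)) := by
  induction t with
  | lf u =>
    intro ts x y h hx hy
    have h' : (Bool.rec false (al (fun r => nn k (cmb k r ts)) (rows u)) (ok u) : Bool) = true := h
    cases e : ok u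
    · rw [e] at h'; exact absurd h' (by simp)
    rw [e] at h'
    exact ⟨u, e, fun r hr => by rw [← ev_cmb]; exact ev_nn hx hy k _ (al_mem h' r hr)⟩
  | nd i t1 t2 ih1 ih2 =>
    intro ts x y h hx hy
    have h' : (Bool.rec false (run d k ok rows t2 (mp (ax i (fun j l => shR (add j) l (d j)) k) ts))
      (run d k ok rows t1 (mp (ax i (fun j l => shR (add j) (rv (zr j) (d j) l []) (d j)) k) ts)) :
        Bool) = true := h
    cases e : run d k ok rows t1
      (mp (ax i (fun j l => shR (add j) (rv (zr j) (d j) l []) (d j)) k) ts)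
    · rw [e] at h'; exact absurd h' (by simp)
    rw [e] at h'
    rcases le_total (x i) (y i) with hxy | hxy
    · obtain ⟨u, hu⟩ := ih1 _ (Function.update x i ((y i - x i) / 2)) (Function.update y i (x i)) e
        (fun j => by rw [Function.update_apply]; split_ifs; linarith; exact hx j)
        (fun j => by rw [Function.update_apply]; split_ifs; exact hx i; exact hy j)
      refine ⟨u, hu.1, fun r hr => (hu.2 r hr).trans (le_of_eq ?_)⟩
      rw [mp_eq, List.map_map]
      congr 2
      funext s
      refine ev_ax (fun j hj => by simp only [Function.update_of_ne hj, and_self]) (fun l => ?_) k s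
      rw [B_shR (ev_add i), B_rv0 (ev_zr i)]
      simp only [Function.update_self]
      congr 1; ring
    · obtain ⟨u, hu⟩ := ih2 _ (Function.update x i ((x i - y i) / 2)) y h'
        (fun j => by rw [Function.update_apply]; split_ifs; linarith; exact hx j) hy
      refine ⟨u, hu.1, fun r hr => (hu.2 r hr).trans (le_of_eq ?_)⟩
      rw [mp_eq, List.map_map]
      congr 2
      funext s
      refine ev_ax (fun j hj => by simp only [Function.update_of_ne hj, and_self]) (fun l => ?_) k s
      rw [B_shR (ev_add i)]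
      simp only [Function.update_self]
      congr 1; ring

/-- polynomial expressions -/
inductive E : Type
  | v : ℕ → E
  | c : ℤ → E
  | a : E → E → E
  | s : E → E → E
  | m : E → E → E

/-- value of an expression -/
def E.val (x : ℕ → ℝ) : E → ℝ
  | .v i => x i
  | .c z => z
  | .a p q => p.val x + q.val x
  | .s p q => p.val x - q.val x
  | .m p q => p.val x * q.val x

noncomputable def E.ten (k : ℕ) (e : E) : T k :=
  E.rec (fun i => vr i k) (fun z => cst z k) (fun _ _ s t => add k s t)
    (fun _ _ s t => add k s (sm (-1) k t)) (fun _ _ s t => mul k s t) e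

lemma eh_ten (k : ℕ) (hx : ∀ i, k ≤ i → x i = 0) (e : E) : eh x k (e.ten k) = e.val x := by
  induction e with
  | v i =>
    show eh x k (vr i k) = x i
    rw [eh_vr]; split_ifs with h
    · rfl
    · exact (hx i (by omega)).symm
  | c z => exact eh_cst z k
  | a p q h1 h2 => show eh x k (add k (p.ten k) (q.ten k)) = _; rw [eh_add, h1, h2]; rfl
  | s p q h1 h2 =>
    show eh x k (add k (p.ten k) (sm (-1) k (q.ten k))) = p.val x - q.val x
    rw [eh_add, eh_sm, h1, h2]; push_cast; ring
  | m p q h1 h2 => show eh x k (mul k (p.ten k) (q.ten k)) = _; rw [eh_mul, h1, h2]; rfl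

/-- restrict the axes `0, …, n-1` to the box `lo i / q i ≤ x i ≤ hi i / q i` -/
noncomputable def box (d : ℕ → ℕ) (lo hi q : ℕ → ℤ) (k n : ℕ) (t : T k) : T k :=
  Nat.rec t (fun i ih => ax i (fun j l => gs (add j) (zr j) (sm (hi j) j) (sm (lo j) j)
    (sm (q j) j) (sm (q j) j) (d j) l) k ih) n

lemma ev_box (lo hi q : ℕ → ℤ) (k : ℕ) (t : T k) (n : ℕ) : ∀ (x y : ℕ → ℝ),
    ev d x y k (box d lo hi q k n t)
      = ev d (fun j => if j < n then hi j * x j + lo j * y j else x j)
        (fun j => if j < n then q j * x j + q j * y j else y j) k t := by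
  induction n with
  | zero => intro x y; rfl
  | succ n ih =>
    intro x y
    show ev d x y k (ax n _ k (box d lo hi q k n t)) = _
    rw [ev_ax (x' := Function.update x n (hi n * x n + lo n * y n))
      (y' := Function.update y n (q n * x n + q n * y n))
      (fun j hj => by simp only [Function.update_of_ne hj, and_self]) (fun l => by
        simp only [Function.update_self]
        exact B_gs (ev_add n) (ev_zr n) (ev_sm _ n) (ev_sm _ n) (ev_sm _ n) (ev_sm _ n) _ l), ih]
    congr 1 <;> funext j <;> rcases lt_trichotomy j n with h | h | h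
    · rw [if_pos h, if_pos (by omega), Function.update_of_ne h.ne, Function.update_of_ne h.ne]
    · rw [if_neg (by omega), if_pos (by omega), h, Function.update_self]
    · rw [if_neg (by omega), if_neg (by omega), Function.update_of_ne h.ne']
    · rw [if_pos h, if_pos (by omega), Function.update_of_ne h.ne, Function.update_of_ne h.ne]
    · rw [if_neg (by omega), if_pos (by omega), h, Function.update_self]
    · rw [if_neg (by omega), if_neg (by omega), Function.update_of_ne h.ne']

noncomputable def chk (ds : List ℕ) (lo hi q : List ℤ) (es : List E)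
    (ok : List ℤ → Bool) (rows : List ℤ → List (List ℤ)) (t : Tr) : Bool :=
  Bool.rec false (run (fun j => ds.getD j 0) ds.length ok rows t
    (mp (fun e => box (fun j => ds.getD j 0) (fun j => lo.getD j 0) (fun j => hi.getD j 0)
      (fun j => q.getD j 0) ds.length ds.length (e.ten ds.length)) es))
    (al (fun e => fit (fun j => ds.getD j 0) ds.length (e.ten ds.length)) es)

/-- `x` lies in the box -/
def InBox : List ℤ → List ℤ → List ℤ → List ℝ → Prop
  | l :: lo, h :: hi, q :: qs, v :: vs =>
    (0 < q ∧ l < h) ∧ ((l : ℝ) ≤ q * v ∧ q * v ≤ h) ∧ InBox lo hi qs vs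
  | _, _, _, [] => True
  | _, _, _, _ => False

lemma InBox.get : ∀ {vs : List ℝ} {lo hi q : List ℤ}, InBox lo hi q vs → ∀ j, j < vs.length →
    (0 < q.getD j 0 ∧ lo.getD j 0 < hi.getD j 0) ∧ ((lo.getD j 0 : ℝ) ≤ q.getD j 0 * vs.getD j 0
      ∧ q.getD j 0 * vs.getD j 0 ≤ hi.getD j 0)
  | [], _, _, _, _, j, hj => absurd hj (Nat.not_lt_zero j)
  | _ :: _, [], _, _, h, _, _ => h.elim
  | _ :: _, _ :: _, [], _, h, _, _ => h.elim
  | _ :: _, _ :: _, _ :: _, [], h, _, _ => h.elim
  | _ :: _, _ :: _, _ :: _, _ :: _, h, 0, _ => ⟨h.1, h.2.1⟩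
  | _ :: _, _ :: _, _ :: _, _ :: _, h, j + 1, hj => InBox.get h.2.2 j (Nat.lt_of_succ_lt_succ hj)

theorem chk_ok {ds : List ℕ} {lo hi q : List ℤ} {es : List E} {ok : List ℤ → Bool}
    {rows : List ℤ → List (List ℤ)} {t : Tr} (h : chk ds lo hi q es ok rows t = true) 
    (vs : List ℝ) (hl : vs.length = ds.length) (hb : InBox lo hi q vs) :
    ∃ u, ok u = true ∧ ∀ r ∈ rows u, 0 ≤ dot r (es.map (E.val (fun j => vs.getD j 0))) := by
  unfold chk at h
  cases e : al (fun e => fit (fun j => ds.getD j 0) ds.length (e.ten ds.length)) es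
  · rw [e] at h; exact absurd h (by simp)
  rw [e] at h
  have g := hb.get
  rw [hl] at g
  have pos : ∀ j, j < ds.length → (0 : ℝ) < q.getD j 0 ∧ (0 : ℝ) < hi.getD j 0 - lo.getD j 0 := by
    intro j hj
    have := (g j hj).1
    exact ⟨by exact_mod_cast this.1, by rw [sub_pos]; exact_mod_cast this.2⟩
  obtain ⟨u, hu⟩ := run_ok ds.length ok rows t _
    (fun j => if j < ds.length then (q.getD j 0 * vs.getD j 0 - lo.getD j 0)
      / (q.getD j 0 * (hi.getD j 0 - lo.getD j 0)) else 0)
    (fun j => if j < ds.length then (hi.getD j 0 - q.getD j 0 * vs.getD j 0)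
      / (q.getD j 0 * (hi.getD j 0 - lo.getD j 0)) else 0) h
    (fun j => by
      split_ifs with hj
      · exact div_nonneg (sub_nonneg.2 (g j hj).2.1) (mul_pos (pos j hj).1 (pos j hj).2).le
      · exact le_rfl)
    (fun j => by
      split_ifs with hj
      · exact div_nonneg (sub_nonneg.2 (g j hj).2.2) (mul_pos (pos j hj).1 (pos j hj).2).le
      · exact le_rfl)
  refine ⟨u, hu.1, fun r hr => (hu.2 r hr).trans (le_of_eq ?_)⟩
  rw [mp_eq, List.map_map]
  congr 1
  apply List.map_congr_left
  intro p hp
  show ev _ _ _ _ (box _ _ _ _ _ _ _) = _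
  rw [ev_box, ← eh_ten ds.length (fun i hi => List.getD_eq_default _ _ (by omega)),
    ← ev_fit _ _ (al_mem e p hp)]
  refine congrFun (ev_congr _ (fun j hj => ?_)) _
  have p1 := (pos j hj).1.ne'
  have p2 := (pos j hj).2.ne'
  simp only [if_pos hj]
  constructor <;> field_simp <;> ring

lemma dot_nonpos : ∀ (r : List ℤ) (vs : List ℝ), r.all (fun z => decide (z ≤ 0)) = true →
    (∀ v ∈ vs, 0 ≤ v) → dot r vs ≤ 0
  | [], _, _, _ => le_rfl
  | _ :: _, [], _, _ => le_rfl
  | c :: r, v :: vs, h, hv => by
    simp only [List.all_cons, Bool.and_eq_true, decide_eq_true_eq] at h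
    have h1 := dot_nonpos r vs h.2 (fun w hw => hv w (List.mem_cons_of_mem _ hw))
    have h2 : (c : ℝ) ≤ 0 := by exact_mod_cast h.1
    have h3 := mul_nonpos_of_nonpos_of_nonneg h2 (hv v List.mem_cons_self)
    show c * v + dot r vs ≤ 0
    linarith

/-- admissible leaf: a positive weight on exactly one of the first `n` entries, nonpositive weights
after them -/
def okN : ℕ → List ℤ → Bool
  | n + 1, c :: r => (decide (c = 0) && okN n r) ||
      (decide (0 < c) && (r.take n).all (fun z => decide (z = 0))
        && (r.drop n).all (fun z => decide (z ≤ 0)))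
  | _, _ => false

lemma dot_split : ∀ (n : ℕ) (r : List ℤ) (ps cs : List ℝ), ps.length = n →
    (r.take n).all (fun z => decide (z = 0)) = true → dot r (ps ++ cs) = dot (r.drop n) cs
  | 0, r, ps, cs, h, _ => by rw [List.length_eq_zero_iff.1 h]; rfl
  | n + 1, [], _, _, _, _ => rfl
  | n + 1, _ :: _, [], _, h, _ => absurd h (by simp)
  | n + 1, c :: r, p :: ps, cs, h, h2 => by
    simp only [List.take_succ_cons, List.all_cons, Bool.and_eq_true, decide_eq_true_eq] at h2
    show c * p + dot r (ps ++ cs) = dot (r.drop n) cs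
    rw [dot_split n r ps cs (by simpa using h) h2.2, h2.1]; simp

lemma okN_ok : ∀ (n : ℕ) (r : List ℤ) (ps cs : List ℝ), ps.length = n → okN n r = true →
    (∀ v ∈ cs, 0 ≤ v) → 0 ≤ dot r (ps ++ cs) → ∃ p ∈ ps, 0 ≤ p
  | 0, _, _, _, _, h, _, _ => absurd h (by simp [okN])
  | n + 1, [], _, _, _, h, _, _ => absurd h (by simp [okN])
  | n + 1, _ :: _, [], _, h, _, _, _ => absurd h (by simp)
  | n + 1, c :: r, p :: ps, cs, h, h2, hc, hd => by
    have hl : ps.length = n := by simpa using h
    have hd' : 0 ≤ c * p + dot r (ps ++ cs) := hd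
    simp only [okN, Bool.or_eq_true, Bool.and_eq_true, decide_eq_true_eq] at h2
    rcases h2 with h2 | h2
    · rw [h2.1] at hd'
      obtain ⟨w, hw, h0⟩ := okN_ok n r ps cs hl h2.2 hc (by simpa using hd')
      exact ⟨w, List.mem_cons_of_mem _ hw, h0⟩
    · rw [dot_split n r ps cs hl h2.1.2] at hd'
      have h1 := dot_nonpos _ cs h2.2 hc
      have h3 : (0 : ℝ) < c := by exact_mod_cast h2.1.1
      exact ⟨p, List.mem_cons_self, nonneg_of_mul_nonneg_right (by linarith) h3⟩

/-- one of the targets `ps` is nonnegative on the part of the box where the side conditions `cs`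
hold -/
theorem some_nonneg {ds : List ℕ} {lo hi q : List ℤ} {ps cs : List E} {t : Tr}
    (h : chk ds lo hi q (ps ++ cs) (okN ps.length) (fun u => [u]) t = true)
    (vs : List ℝ) (hl : vs.length = ds.length) (hb : InBox lo hi q vs)
    (hc : ∀ C ∈ cs, 0 ≤ C.val (fun j => vs.getD j 0)) :
    ∃ P ∈ ps, 0 ≤ P.val (fun j => vs.getD j 0) := by
  obtain ⟨u, h1, h2⟩ := chk_ok h vs hl hb
  have h3 := h2 u List.mem_cons_self
  rw [List.map_append] at h3
  obtain ⟨p, hp, h0⟩ := okN_ok _ u _ _ (List.length_map _) h1 (fun v hv => by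
    obtain ⟨C, hC, e⟩ := List.mem_map.1 hv
    rw [← e]; exact hc C hC) h3
  obtain ⟨P, hP, e⟩ := List.mem_map.1 hp
  exact ⟨P, hP, e ▸ h0⟩

/-- one target -/
theorem nonneg {ds : List ℕ} {lo hi q : List ℤ} {P : E} {cs : List E} {t : Tr}
    (h : chk ds lo hi q (P :: cs) (okN 1) (fun u => [u]) t = true)
    (vs : List ℝ) (hl : vs.length = ds.length) (hb : InBox lo hi q vs)
    (hc : ∀ C ∈ cs, 0 ≤ C.val (fun j => vs.getD j 0)) : 0 ≤ P.val (fun j => vs.getD j 0) := by
  obtain ⟨Q, hQ, h0⟩ := some_nonneg (ps := [P]) h vs hl hb hc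
  rwa [List.mem_singleton.1 hQ] at h0

/-- realises the equation lemmas once, in the defining module -/
theorem seed_eqns : True := by
  have := @InBox.eq_def
  have := @InBox.eq_1
  have := @InBox.eq_2
  have := @InBox.eq_3
  have := @E.val.eq_def
  have := @E.val.eq_1
  have := @B.eq_def
  have := @H.eq_def
  trivial

end Pool.Agent.Lib.MP_43bc59_co.Bx
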