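import Pool.Agent.Lib.MP_43bc59_co.Core

set_option autoImplicit false

namespace Pool.Agent.Lib.MP_43bc59_co

open Finset

/-- the transposition of the positions `i` and `i+1` -/
def sw (n i : ℕ) : Equiv.Perm (Fin n) :=
  if h : i + 1 < n then Equiv.swap ⟨i, by omega⟩ ⟨i + 1, h⟩ else 1

lemma sw_val {n i : ℕ} (h : i + 1 < n) (x : Fin n) : (sw n i x : ℕ) = s i x := by
  unfold sw s
  rw [dif_pos h, Equiv.swap_apply_def]
  by_cases h1 : x = ⟨i, by omega⟩
  · subst h1; simp
  · have h1' : (x : ℕ) ≠ i := fun e => h1 (Fin.ext e)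
    rw [if_neg h1, if_neg h1']
    by_cases h2 : x = ⟨i + 1, h⟩
    · subst h2; simp
    · have h2' : (x : ℕ) ≠ i + 1 := fun e => h2 (Fin.ext e)
      rw [if_neg h2, if_neg h2']

lemma sw_sw (n i : ℕ) : sw n i * sw n i = 1 := by
  unfold sw; split_ifs <;> simp

lemma sw_inv (n i : ℕ) : (sw n i)⁻¹ = sw n i := by
  rw [inv_eq_iff_mul_eq_one, sw_sw]

variable {n : ℕ} (r : Fin n → Fin n → Prop)

/-- `σ` (position to element) is a linear extension of `r` -/
def Ok (σ : Equiv.Perm (Fin n)) : Prop := ∀ a b, r a b → σ⁻¹ a ≤ σ⁻¹ b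

/-- the linear extensions -/
abbrev X := {σ : Equiv.Perm (Fin n) // Ok r σ}

noncomputable instance instFintypeX : Fintype (X r) := Fintype.ofFinite _

variable {r}

/-- the position of an element -/
def pos (σ : X r) (a : Fin n) : ℕ := (σ.1⁻¹ a : Fin n)

lemma pos_lt (σ : X r) (a : Fin n) : pos σ a < n := (σ.1⁻¹ a).2

lemma pos_inj (σ : X r) : Function.Injective (pos σ) := fun _ _ h =>
  σ.1⁻¹.injective (Fin.ext h)

lemma pos_surj (σ : X r) {k : ℕ} (hk : k < n) : ∃ a, pos σ a = k :=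
  ⟨σ.1 ⟨k, hk⟩, by simp [pos]⟩

lemma pos_le (σ : X r) {a b : Fin n} (h : r a b) : pos σ a ≤ pos σ b := σ.2 a b h

lemma eq_of_pos {σ ρ : X r} (h : pos σ = pos ρ) : σ = ρ := by
  apply Subtype.ext
  apply inv_injective
  ext a
  exact congrFun h a

open Classical in
/-- the move at the bond `i, i+1` -/
noncomputable def tau (i : ℕ) (σ : X r) : X r :=
  if h : Ok r (σ.1 * sw n i) then ⟨_, h⟩ else σ

lemma tau_tau (i : ℕ) (σ : X r) : tau i (tau i σ) = σ := by
  by_cases h : Ok r (σ.1 * sw n i)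
  · have e : tau i σ = ⟨_, h⟩ := by unfold tau; rw [dif_pos h]
    rw [e]; unfold tau
    have h2 : Ok r (σ.1 * sw n i * sw n i) := by rw [mul_assoc, sw_sw, mul_one]; exact σ.2
    rw [dif_pos h2]
    apply Subtype.ext
    simp only [mul_assoc, sw_sw, mul_one]
  · have e : tau i σ = σ := by unfold tau; rw [dif_neg h]
    rw [e, e]

/-- the move as a permutation of the linear extensions -/
noncomputable def tauE (i : ℕ) : X r ≃ X r :=
  ⟨tau i, tau i, tau_tau i, tau_tau i⟩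

lemma inv_mul_sw {i : ℕ} (h : i + 1 < n) (σ : Equiv.Perm (Fin n)) (a : Fin n) :
    (((σ * sw n i)⁻¹ a : Fin n) : ℕ) = s i (σ⁻¹ a : Fin n) := by
  rw [mul_inv_rev, sw_inv, Equiv.Perm.mul_apply, sw_val h]

lemma tau_cases {i : ℕ} (h : i + 1 < n) (σ : X r) (c d : Fin n) (hc : pos σ c = i)
    (hd : pos σ d = i + 1) :
    ((pos (tau i σ) = fun a => s i (pos σ a)) ∧ ¬ r c d) ∨ (tau i σ = σ ∧ r c d) := by
  by_cases h1 : Ok r (σ.1 * sw n i)
  · left
    have e : tau i σ = ⟨_, h1⟩ := by unfold tau; rw [dif_pos h1]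
    have e2 : pos (tau i σ) = fun a => s i (pos σ a) := by
      funext a; rw [e]; exact inv_mul_sw h σ.1 a
    refine ⟨e2, fun hr => ?_⟩
    have := pos_le (tau i σ) hr
    rw [e2] at this
    simp only [hc, hd, s_left, s_right] at this
    omega
  · right
    refine ⟨by unfold tau; rw [dif_neg h1], ?_⟩
    unfold Ok at h1
    push Not at h1
    obtain ⟨a, b, hab, hlt⟩ := h1
    have h2 := pos_le σ hab
    have h3 : s i (pos σ b) < s i (pos σ a) := by
      have := Fin.lt_def.1 hlt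
      rwa [inv_mul_sw h, inv_mul_sw h] at this
    have h4 : pos σ a = i ∧ pos σ b = i + 1 := by
      unfold s at h3; split_ifs at h3 <;> omega
    rw [← pos_inj σ (h4.1.trans hc.symm), ← pos_inj σ (h4.2.trans hd.symm)]
    exact hab

lemma pos_tau {i : ℕ} (h : i + 1 < n) (σ : X r) :
    (pos (tau i σ) = fun a => s i (pos σ a)) ∨ tau i σ = σ := by
  obtain ⟨c, hc⟩ := pos_surj σ (show i < n by omega)
  obtain ⟨d, hd⟩ := pos_surj σ h
  rcases tau_cases h σ c d hc hd with h1 | h1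
  · exact Or.inl h1.1
  · exact Or.inr h1.1

lemma bond_tau (G : ℕ → ℝ) {i : ℕ} (h : i + 1 < n) (hG : 0 ≤ G i - G (i + 1)) (σ ρ : X r) :
    Phi G (pos (tau i σ)) (pos (tau i ρ)) - Phi G (pos σ) (pos ρ)
        ≤ linL G i (pos σ) (pos ρ) + linR G i (pos σ) (pos ρ) ∨
      (Phi G (pos (tau i σ)) (pos ρ) - Phi G (pos σ) (pos ρ))
        + (Phi G (pos σ) (pos (tau i ρ)) - Phi G (pos σ) (pos ρ))
        ≤ linL G i (pos σ) (pos ρ) + linR G i (pos σ) (pos ρ) := by
  obtain ⟨c, hc⟩ := pos_surj σ (show i < n by omega)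
  obtain ⟨d, hd⟩ := pos_surj σ h
  obtain ⟨c', hc'⟩ := pos_surj ρ (show i < n by omega)
  obtain ⟨d', hd'⟩ := pos_surj ρ h
  have hcd : c ≠ d := by rintro rfl; omega
  have hcd' : c' ≠ d' := by rintro rfl; omega
  have k1 := tau_cases h σ c d hc hd
  have k2 := tau_cases h ρ c' d' hc' hd'
  have ns : ∀ (u : Fin n → ℕ) (e : Fin n), u e = i → (fun a => s i (u a)) ≠ u := by
    intro u e he h
    have := congrFun h e
    simp only [he, s_left] at this; omega
  apply bond G i hG (pos σ) (pos ρ) _ _ (pos_inj σ) (pos_inj ρ) c d c' d' hc hd hc' hd'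
  · rcases k1 with k | k
    · exact Or.inl k.1
    · exact Or.inr ⟨by rw [k.1], lt_of_le_of_ne (pos_le ρ k.2) (fun e => hcd (pos_inj ρ e))⟩
  · rcases k2 with k | k
    · exact Or.inl k.1
    · exact Or.inr ⟨by rw [k.1], lt_of_le_of_ne (pos_le σ k.2) (fun e => hcd' (pos_inj σ e))⟩
  · rintro rfl rfl
    rcases k1 with k1 | k1 <;> rcases k2 with k2 | k2
    · exact ⟨fun e => absurd (k1.1.symm.trans e) (ns _ c hc),
        fun e => absurd (k2.1.symm.trans e) (ns _ c hc')⟩
    · exact absurd k2.2 k1.2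
    · exact absurd k1.2 k2.2
    · rw [k1.1, k2.1]; simp

/-- same initial segments at all cuts of `S` -/
def Rel (S : Finset ℕ) (σ ρ : X r) : Prop := ∀ μ ∈ S, ∀ a, pos σ a < μ ↔ pos ρ a < μ

lemma Rel.refl (S : Finset ℕ) (σ : X r) : Rel S σ σ := fun _ _ _ => Iff.rfl

lemma Rel.symm {S : Finset ℕ} {σ ρ : X r} (h : Rel S σ ρ) : Rel S ρ σ :=
  fun μ hμ a => (h μ hμ a).symm

lemma Rel.trans {S : Finset ℕ} {σ ρ τ : X r} (h : Rel S σ ρ) (h' : Rel S ρ τ) : Rel S σ τ :=
  fun μ hμ a => (h μ hμ a).trans (h' μ hμ a)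

/-- the bonds that are not cut -/
def bonds (n : ℕ) (S : Finset ℕ) : Finset ℕ := (range (n - 1)).filter (fun i => i + 1 ∉ S)

lemma mem_bonds {S : Finset ℕ} {i : ℕ} : i ∈ bonds n S ↔ i + 1 < n ∧ i + 1 ∉ S := by
  unfold bonds; rw [mem_filter, mem_range]; constructor <;> rintro ⟨h1, h2⟩ <;> exact ⟨by omega, h2⟩

lemma rel_tau {S : Finset ℕ} {i : ℕ} (hi : i ∈ bonds n S) (σ : X r) : Rel S (tau i σ) σ := by
  rw [mem_bonds] at hi
  rcases pos_tau hi.1 σ with h | h
  · intro μ hμ a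
    have : μ ≠ i + 1 := fun e => hi.2 (e ▸ hμ)
    rw [h]; simp only [s]; split_ifs <;> omega
  · rw [h]; exact Rel.refl _ _

/-- admissible weights: nonnegative, vanishing at the ends and at the cuts -/
structure Adm (n : ℕ) (S : Finset ℕ) (W : ℕ → ℝ) : Prop where
  nonneg : ∀ k, 0 ≤ W k
  zero : W 0 = 0
  top : ∀ k, n ≤ k → W k = 0
  cut : ∀ k ∈ S, W k = 0

/-- the potential with decrements `W` -/
noncomputable def pot (W : ℕ → ℝ) (k : ℕ) : ℝ := -∑ i ∈ range k, W (i + 1)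

lemma pot_sub (W : ℕ → ℝ) (i : ℕ) : pot W i - pot W (i + 1) = W (i + 1) := by
  unfold pot; rw [sum_range_succ]; ring

lemma sum_pot {S : Finset ℕ} {W : ℕ → ℝ} (hW : Adm n S W) {x : ℕ} (hx : x < n) :
    ∑ i ∈ bonds n S, (pot W (s i x) - pot W x) = W x - W (x + 1) := by
  have e : ∀ i, pot W (s i x) - pot W x
      = (if i = x then -W (i + 1) else 0) + (if i + 1 = x then W (i + 1) else 0) := by
    intro i
    have := pot_sub W i
    by_cases h1 : x = i
    · subst h1; rw [s_left, if_pos rfl, if_neg (by omega)]; linarith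
    · by_cases h2 : x = i + 1
      · subst h2; rw [s_right, if_neg (by omega), if_pos rfl]; linarith
      · rw [s_other h1 h2, if_neg (by omega), if_neg (by omega)]; ring
  have z : ∀ i, i ∉ bonds n S → W (i + 1) = 0 := by
    intro i hi
    rw [mem_bonds] at hi
    by_cases h : i + 1 < n
    · exact hW.cut _ (by by_contra h'; exact hi ⟨h, h'⟩)
    · exact hW.top _ (by omega)
  rw [sum_congr rfl (fun i _ => e i), sum_add_distrib, sum_ite_eq']
  have a1 : (if x ∈ bonds n S then -W (x + 1) else 0) = -W (x + 1) := by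
    split_ifs with h
    · rfl
    · rw [z x h]; ring
  have a2 : ∑ i ∈ bonds n S, (if i + 1 = x then W (i + 1) else 0) = W x := by
    rcases x with _ | y
    · simp [hW.zero]
    · simp only [Nat.add_right_cancel_iff]
      rw [sum_ite_eq']
      split_ifs with h
      · rfl
      · rw [z y h]
  rw [a1, a2]; ring

/-- the drift of the Lyapunov function -/
noncomputable def drift (W : ℕ → ℝ) (σ ρ : X r) : ℝ :=
  ∑ a, if pos σ a < pos ρ a then
    (W (pos σ a + 1) - W (pos σ a)) - (W (pos ρ a + 1) - W (pos ρ a)) else 0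

lemma sum_lin {S : Finset ℕ} {W : ℕ → ℝ} (hW : Adm n S W) (σ ρ : X r) :
    ∑ i ∈ bonds n S, (linL (pot W) i (pos σ) (pos ρ) + linR (pot W) i (pos σ) (pos ρ))
      = -drift W σ ρ := by
  unfold linL linR drift
  simp only [← sum_add_distrib]
  rw [sum_comm, ← sum_neg_distrib]
  apply sum_congr rfl
  intro a _
  by_cases h : pos σ a < pos ρ a
  · simp only [if_pos h]
    have h1 := sum_pot hW (pos_lt σ a)
    have h2 := sum_pot hW (pos_lt ρ a)
    have h3 : ∑ i ∈ bonds n S, (pot W (pos ρ a) - pot W (s i (pos ρ a)))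
        = -∑ i ∈ bonds n S, (pot W (s i (pos ρ a)) - pot W (pos ρ a)) := by
      rw [← sum_neg_distrib]; exact sum_congr rfl (fun i _ => by ring)
    rw [sum_add_distrib, h3, h1, h2]; ring
  · simp [if_neg h]

/-- the generator of the walk on the uncut bonds -/
noncomputable def Lap (S : Finset ℕ) (ψ : X r → ℝ) (σ : X r) : ℝ :=
  ∑ i ∈ bonds n S, (ψ (tau i σ) - ψ σ)

lemma Phi_self (G : ℕ → ℝ) (p : Fin n → ℕ) : Phi G p p = 0 := by simp [Phi, t]

/-- maximum principle, strict form -/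
lemma maxp_strict {S : Finset ℕ} {W : ℕ → ℝ} (hW : Adm n S W) (ψ : X r → ℝ)
    (h : ∀ σ ρ : X r, Rel S σ ρ → σ ≠ ρ → Lap S ψ ρ - Lap S ψ σ < drift W σ ρ)
    (σ ρ : X r) (hσρ : Rel S σ ρ) : ψ σ - ψ ρ ≤ Phi (pot W) (pos σ) (pos ρ) := by
  classical
  obtain ⟨z, hz, hmax⟩ := exists_max_image
    ((univ : Finset (X r × X r)).filter (fun z => Rel S z.1 z.2))
    (fun z => ψ z.1 - ψ z.2 - Phi (pot W) (pos z.1) (pos z.2)) ⟨(σ, ρ), by simp [hσρ]⟩
  obtain ⟨u, v⟩ := z
  simp only [mem_filter, mem_univ, true_and, Prod.forall] at hz hmax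
  by_cases huv : u = v
  · have := hmax σ ρ hσρ
    subst huv
    rw [Phi_self] at this; linarith
  · exfalso
    have h1 := h u v hz huv
    have h2 : ∑ i ∈ bonds n S, ((ψ (tau i u) - ψ u) - (ψ (tau i v) - ψ v))
        ≤ ∑ i ∈ bonds n S, (linL (pot W) i (pos u) (pos v) + linR (pot W) i (pos u) (pos v)) := by
      apply sum_le_sum
      intro i hi
      have hG : 0 ≤ pot W i - pot W (i + 1) := by rw [pot_sub]; exact hW.nonneg _
      have r1 := rel_tau hi u
      have r2 := rel_tau hi v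
      rcases bond_tau (pot W) (mem_bonds.1 hi).1 hG u v with b | b
      · have := hmax _ _ ((r1.trans hz).trans r2.symm); linarith
      · have a1 := hmax _ _ (r1.trans hz)
        have a2 := hmax _ _ (hz.trans r2.symm)
        linarith
    rw [sum_lin hW, sum_sub_distrib] at h2
    unfold Lap at h1
    linarith

lemma Phi_tau_le {S : Finset ℕ} {W : ℕ → ℝ} (hW : Adm n S W) {i : ℕ} (hi : i + 1 < n) (σ : X r) :
    Phi (pot W) (pos σ) (pos (tau i σ)) ≤ W (i + 1) := by
  rcases pos_tau hi σ with h | h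
  · obtain ⟨c, hc⟩ := pos_surj σ (show i < n by omega)
    have := Phi_right (pot W) i (pos σ) (pos σ) (pos_inj σ) c hc
    rw [h, Phi_self, if_pos hc, pot_sub] at *
    have e : linR (pot W) i (pos σ) (pos σ) = 0 := by simp [linR]
    linarith
  · rw [h, Phi_self]; exact hW.nonneg _

/-- positions in the same block of `S` -/
def Same (S : Finset ℕ) (k l : ℕ) : Prop := ∀ μ ∈ S, k < μ ↔ l < μ

/-- there is an admissible weight which is strictly concave on each block -/
def Strict (n : ℕ) (S : Finset ℕ) : Prop :=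
  ∃ W : ℕ → ℝ, Adm n S W ∧
    ∀ k l, k < l → l < n → Same S k l → W (l + 1) - W l < W (k + 1) - W k

lemma exists_lt_of_ne {σ ρ : X r} (h : σ ≠ ρ) : ∃ a, pos σ a < pos ρ a := by
  by_contra hc
  push Not at hc
  apply h
  apply eq_of_pos
  have e : ∑ a, pos ρ a = ∑ a, pos σ a := by
    unfold pos
    rw [Equiv.sum_comp ρ.1⁻¹ (fun x : Fin n => (x : ℕ)),
      Equiv.sum_comp σ.1⁻¹ (fun x : Fin n => (x : ℕ))]
  funext a
  exact ((sum_eq_sum_iff_of_le (fun a _ => hc a)).1 e a (mem_univ a)).symm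

lemma drift_pos {S : Finset ℕ} {W : ℕ → ℝ}
    (hW : ∀ k l, k < l → l < n → Same S k l → W (l + 1) - W l < W (k + 1) - W k)
    {σ ρ : X r} (h : Rel S σ ρ) (hne : σ ≠ ρ) : 0 < drift W σ ρ := by
  unfold drift
  obtain ⟨a, ha⟩ := exists_lt_of_ne hne
  apply sum_pos'
  · intro b _
    split_ifs with hb
    · have := hW _ _ hb (pos_lt ρ b) (fun μ hμ => h μ hμ b); linarith
    · exact le_rfl
  · refine ⟨a, mem_univ a, ?_⟩
    rw [if_pos ha]
    have := hW _ _ ha (pos_lt ρ a) (fun μ hμ => h μ hμ a); linarith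

lemma drift_add (W W' : ℕ → ℝ) (e : ℝ) (σ ρ : X r) :
    drift (fun k => W k + e * W' k) σ ρ = drift W σ ρ + e * drift W' σ ρ := by
  unfold drift
  rw [mul_sum, ← sum_add_distrib]
  apply sum_congr rfl
  intro a _
  split_ifs <;> ring

lemma Phi_add (W W' : ℕ → ℝ) (e : ℝ) (p q : Fin n → ℕ) :
    Phi (pot (fun k => W k + e * W' k)) p q = Phi (pot W) p q + e * Phi (pot W') p q := by
  have h : ∀ k, pot (fun k => W k + e * W' k) k = pot W k + e * pot W' k := by
    intro k; unfold pot; rw [sum_add_distrib, ← mul_sum]; ring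
  unfold Phi t
  rw [mul_sum, ← sum_add_distrib]
  apply sum_congr rfl
  intro a _
  rw [h, h]
  split_ifs <;> ring

/-- maximum principle -/
lemma maxp {S : Finset ℕ} (hS : Strict n S) {W : ℕ → ℝ} (hW : Adm n S W) (ψ : X r → ℝ)
    (h : ∀ σ ρ : X r, Rel S σ ρ → Lap S ψ ρ - Lap S ψ σ ≤ drift W σ ρ)
    (σ ρ : X r) (hσρ : Rel S σ ρ) : ψ σ - ψ ρ ≤ Phi (pot W) (pos σ) (pos ρ) := by
  obtain ⟨W', hW', hs⟩ := hS
  have key : ∀ e : ℝ, 0 < e →
      ψ σ - ψ ρ ≤ Phi (pot W) (pos σ) (pos ρ) + e * Phi (pot W') (pos σ) (pos ρ) := by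
    intro e he
    rw [← Phi_add]
    apply maxp_strict (S := S) _ ψ _ σ ρ hσρ
    · exact ⟨fun k => add_nonneg (hW.nonneg k) (mul_nonneg he.le (hW'.nonneg k)),
        by simp [hW.zero, hW'.zero], fun k hk => by simp [hW.top k hk, hW'.top k hk],
        fun k hk => by simp [hW.cut k hk, hW'.cut k hk]⟩
    · intro u v huv hne
      rw [drift_add]
      have := mul_pos he (drift_pos hs huv hne)
      linarith [h u v huv]
  apply le_of_forall_pos_le_add
  intro e he
  set c := Phi (pot W') (pos σ) (pos ρ)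
  have hc : 0 < |c| + 1 := by positivity
  have := key (e / (|c| + 1)) (by positivity)
  have h2 : e / (|c| + 1) * c ≤ e := by
    rw [div_mul_eq_mul_div, div_le_iff₀ hc]
    have := le_abs_self c
    nlinarith
  linarith

end Pool.Agent.Lib.MP_43bc59_co
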