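import Pool.Agent.Lib.MP_43bc59_co.SDefs

set_option autoImplicit false

namespace Pool.Agent.Lib.MP_43bc59_co

open Finset

variable {n : ℕ} {r : Fin n → Fin n → Prop}

lemma mem_Sb {p q μ : ℕ} : μ ∈ Sb n p q ↔ μ ≤ n ∧ (μ ≤ p ∨ q ≤ μ) := by
  unfold Sb; rw [mem_filter, mem_range]; constructor <;> rintro ⟨h1, h2⟩ <;> exact ⟨by omega, h2⟩

lemma mem_sub {C : Finset (X r)} {x : Fin n} {k : ℕ} {σ : X r} :
    σ ∈ sub C x k ↔ σ ∈ C ∧ pos σ x = k := by
  unfold sub; rw [mem_filter]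

/-- the relation in terms of positions -/
lemma rel_Sb {p q : ℕ} {σ ρ : X r} :
    Rel (Sb n p q) σ ρ ↔ ∀ a, (pos σ a < p ∨ q ≤ pos σ a ∨ pos ρ a < p ∨ q ≤ pos ρ a) →
      pos σ a = pos ρ a := by
  constructor
  · intro h a ha
    have h1 := pos_lt σ a
    have h2 := pos_lt ρ a
    by_contra hne
    rcases lt_or_gt_of_ne hne with hl | hl
    · rcases ha with ha | ha | ha | ha
      · have := (h (pos σ a + 1) (mem_Sb.2 (by omega)) a).1 (by omega); omega
      · have := (h (pos ρ a) (mem_Sb.2 (by omega)) a).1 (by omega); omega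
      · have := (h (pos σ a + 1) (mem_Sb.2 (by omega)) a).1 (by omega); omega
      · have := (h (pos ρ a) (mem_Sb.2 (by omega)) a).1 (by omega); omega
    · rcases ha with ha | ha | ha | ha
      · have := (h (pos ρ a + 1) (mem_Sb.2 (by omega)) a).2 (by omega); omega
      · have := (h (pos σ a) (mem_Sb.2 (by omega)) a).2 (by omega); omega
      · have := (h (pos ρ a + 1) (mem_Sb.2 (by omega)) a).2 (by omega); omega
      · have := (h (pos σ a) (mem_Sb.2 (by omega)) a).2 (by omega); omega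
  · intro h μ hμ a
    rw [mem_Sb] at hμ
    have := h a
    omega

lemma IsCl.pos_eq {p q : ℕ} {C : Finset (X r)} (hC : IsCl p q C) {σ ρ : X r} (hσ : σ ∈ C)
    (hρ : ρ ∈ C) (a : Fin n) (ha : pos σ a < p ∨ q ≤ pos σ a) : pos ρ a = pos σ a :=
  (rel_Sb.1 ((hC σ hσ ρ).1 hρ) a (by omega)).symm

lemma IsCl.first {p q : ℕ} {C : Finset (X r)} (hC : IsCl p q C) (x : Fin n) :
    IsCl (p + 1) q (sub C x p) := by
  intro σ hσ ρ
  rw [mem_sub] at hσ
  rw [mem_sub, hC σ hσ.1 ρ, rel_Sb, rel_Sb]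
  constructor
  · rintro ⟨h1, h2⟩ a ha
    by_cases e1 : pos σ a = p
    · rw [pos_inj σ (e1.trans hσ.2.symm), hσ.2, h2]
    · by_cases e2 : pos ρ a = p
      · rw [pos_inj ρ (e2.trans h2.symm), hσ.2, h2]
      · exact h1 a (by omega)
  · intro h
    exact ⟨fun a ha => h a (by omega), by rw [← h x (by omega), hσ.2]⟩

lemma IsCl.last {p q : ℕ} {C : Finset (X r)} (hC : IsCl p (q + 1) C) (x : Fin n) :
    IsCl p q (sub C x q) := by
  intro σ hσ ρ
  rw [mem_sub] at hσ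
  rw [mem_sub, hC σ hσ.1 ρ, rel_Sb, rel_Sb]
  constructor
  · rintro ⟨h1, h2⟩ a ha
    by_cases e1 : pos σ a = q
    · rw [pos_inj σ (e1.trans hσ.2.symm), hσ.2, h2]
    · by_cases e2 : pos ρ a = q
      · rw [pos_inj ρ (e2.trans h2.symm), hσ.2, h2]
      · exact h1 a (by omega)
  · intro h
    exact ⟨fun a ha => h a (by omega), by rw [← h x (by omega), hσ.2]⟩

lemma isCl_univ : IsCl 0 n (univ : Finset (X r)) := by
  intro σ _ ρ
  simp only [mem_univ, true_iff]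
  rw [rel_Sb]
  intro a ha
  have := pos_lt σ a
  have := pos_lt ρ a
  omega

lemma sub_comm (C : Finset (X r)) (x y : Fin n) (k l : ℕ) :
    sub (sub C x k) y l = sub (sub C y l) x k := by
  ext σ; simp only [mem_sub]; tauto

lemma sum_sub (C : Finset (X r)) {k : ℕ} (hk : k < n) (h : X r → ℝ) :
    ∑ x, ∑ σ ∈ sub C x k, h σ = ∑ σ ∈ C, h σ := by
  have e : ∀ x, sub C x k = C.filter (fun σ => σ.1 ⟨k, hk⟩ = x) := by
    intro x; ext σ
    rw [mem_sub, mem_filter]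
    apply and_congr_right
    intro _
    unfold pos
    constructor
    · intro h
      have : σ.1⁻¹ x = ⟨k, hk⟩ := Fin.ext h
      rw [← this]; simp
    · rintro rfl; simp
  simp only [e]
  exact sum_fiberwise C (fun σ => σ.1 ⟨k, hk⟩) h

lemma card_sub (C : Finset (X r)) {k : ℕ} (hk : k < n) :
    ∑ x, ((sub C x k).card : ℝ) = C.card := by
  have := sum_sub C hk (fun _ => 1)
  simpa using this

lemma mem_bonds_Sb {p q i : ℕ} (hq : q ≤ n) : i ∈ bonds n (Sb n p q) ↔ p ≤ i ∧ i + 1 < q := by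
  rw [mem_bonds, mem_Sb]; omega

lemma IsCl.tau_mem {p q : ℕ} {C : Finset (X r)} (hC : IsCl p q C) (hq : q ≤ n) {i : ℕ}
    (h1 : p ≤ i) (h2 : i + 1 < q) {σ : X r} (hσ : σ ∈ C) : tau i σ ∈ C :=
  (hC σ hσ _).2 (rel_tau ((mem_bonds_Sb hq).2 ⟨h1, h2⟩) σ).symm

lemma IsCl.sum_tau {p q : ℕ} {C : Finset (X r)} (hC : IsCl p q C) (hq : q ≤ n) {i : ℕ}
    (h1 : p ≤ i) (h2 : i + 1 < q) (h : X r → ℝ) : ∑ σ ∈ C, h (tau i σ) = ∑ σ ∈ C, h σ := by
  apply sum_bij' (fun σ _ => tau i σ) (fun σ _ => tau i σ)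
  · intro σ hσ; exact hC.tau_mem hq h1 h2 hσ
  · intro σ hσ; exact hC.tau_mem hq h1 h2 hσ
  · intro σ _; exact tau_tau i σ
  · intro σ _; exact tau_tau i σ
  · intro σ _; rfl

lemma eC_compl {p q : ℕ} {C : Finset (X r)} (hC : IsCl p q C) (hq : q ≤ n) {i : ℕ}
    (h1 : p ≤ i) (h2 : i + 1 < q) (f : X r → ℝ) : eC (fun σ => 1 - f σ) C i = eC f C i := by
  unfold eC
  rw [← hC.sum_tau hq h1 h2 (fun σ => f σ * (1 - f (tau i σ)))]
  exact sum_congr rfl (fun σ _ => by rw [tau_tau]; ring)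

lemma cA_compl {p q : ℕ} {C : Finset (X r)} (hC : IsCl p q C) (hq : q ≤ n) (f : X r → ℝ) :
    cA (fun σ => 1 - f σ) p q C = cA f p q C := by
  unfold cA
  apply sum_congr rfl
  intro i hi
  rw [mem_Ico] at hi
  rw [eC_compl hC hq hi.1 (by omega)]

lemma eC_sub (f : X r → ℝ) (C : Finset (X r)) {k : ℕ} (hk : k < n) (i : ℕ) :
    ∑ x, eC f (sub C x k) i = eC f C i := sum_sub C hk _

lemma eC_nonneg {f : X r → ℝ} (h0 : ∀ σ, 0 ≤ f σ) (h1 : ∀ σ, f σ ≤ 1) (C : Finset (X r)) (i : ℕ) :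
    0 ≤ eC f C i :=
  sum_nonneg (fun σ _ => mul_nonneg (h0 σ) (by linarith [h1 (tau i σ)]))

lemma cA_nonneg {f : X r → ℝ} (h0 : ∀ σ, 0 ≤ f σ) (h1 : ∀ σ, f σ ≤ 1) (p q : ℕ)
    (C : Finset (X r)) : 0 ≤ cA f p q C := by
  apply sum_nonneg
  intro i hi
  rw [mem_Ico] at hi
  have : ((i + 1 : ℕ) : ℝ) ≤ q := by exact_mod_cast (show i + 1 ≤ q by omega)
  push_cast at this
  exact mul_nonneg (by linarith) (eC_nonneg h0 h1 C i)

lemma cB_nonneg {f : X r → ℝ} (h0 : ∀ σ, 0 ≤ f σ) (h1 : ∀ σ, f σ ≤ 1) (p q : ℕ)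
    (C : Finset (X r)) : 0 ≤ cB f p q C := by
  apply sum_nonneg
  intro i hi
  rw [mem_Ico] at hi
  have : (p : ℝ) ≤ i := by exact_mod_cast hi.1
  exact mul_nonneg (by linarith) (eC_nonneg h0 h1 C i)

/-- the number of boundary edges of the block -/
noncomputable def cE (f : X r → ℝ) (p q : ℕ) (C : Finset (X r)) : ℝ :=
  ∑ i ∈ Ico p (q - 1), eC f C i

lemma cA_add_cB (f : X r → ℝ) (p q : ℕ) (C : Finset (X r)) :
    cA f p q C + cB f p q C = ((q : ℝ) - p) * cE f p q C := by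
  unfold cA cB cE
  rw [← sum_add_distrib, mul_sum]
  exact sum_congr rfl (fun i _ => by ring)

lemma cE_le_cB {f : X r → ℝ} (h0 : ∀ σ, 0 ≤ f σ) (h1 : ∀ σ, f σ ≤ 1) (p q : ℕ)
    (C : Finset (X r)) : cE f p q C ≤ cB f p q C := by
  apply sum_le_sum
  intro i hi
  rw [mem_Ico] at hi
  have : (p : ℝ) ≤ i := by exact_mod_cast hi.1
  have := mul_nonneg (show (0 : ℝ) ≤ i - p by linarith) (eC_nonneg h0 h1 C i)
  linarith

lemma cA_first (f : X r → ℝ) {p q : ℕ} (C : Finset (X r)) (hpq : p + 1 < q) (hq : q ≤ n) :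
    cA f p q C = ∑ x, cA f (p + 1) q (sub C x p) + ((q : ℝ) - 1 - p) * eC f C p := by
  unfold cA
  rw [sum_comm, sum_eq_sum_Ico_succ_bot (show p < q - 1 by omega), add_comm]
  congr 1
  apply sum_congr rfl
  intro i _
  rw [← mul_sum, eC_sub f C (by omega)]

lemma cB_first (f : X r → ℝ) {p q : ℕ} (C : Finset (X r)) (hpq : p + 1 < q) (hq : q ≤ n) :
    cB f p q C = ∑ x, cB f (p + 1) q (sub C x p) + cE f p q C := by
  unfold cB cE
  rw [sum_comm, sum_eq_sum_Ico_succ_bot (show p < q - 1 by omega),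
    sum_eq_sum_Ico_succ_bot (show p < q - 1 by omega)]
  have : ∀ i ∈ Ico (p + 1) (q - 1), ((i : ℝ) + 1 - p) * eC f C i
      = ∑ x, ((i : ℝ) + 1 - (p + 1 : ℕ)) * eC f (sub C x p) i + eC f C i := by
    intro i _
    rw [← mul_sum, eC_sub f C (by omega)]; push_cast; ring
  rw [sum_congr rfl this, sum_add_distrib]; ring

lemma cA_last (f : X r → ℝ) {p q : ℕ} (C : Finset (X r)) (hpq : p < q) (hq : q < n) :
    cA f p (q + 1) C = ∑ x, cA f p q (sub C x q) + cE f p (q + 1) C := by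
  unfold cA cE
  obtain ⟨k, rfl⟩ : ∃ k, q = k + 1 := ⟨q - 1, by omega⟩
  simp only [Nat.add_sub_cancel]
  rw [sum_comm, sum_Ico_succ_top (show p ≤ k by omega), sum_Ico_succ_top (show p ≤ k by omega)]
  have : ∀ i ∈ Ico p k, (((k + 1 + 1 : ℕ) : ℝ) - 1 - i) * eC f C i
      = ∑ x, (((k + 1 : ℕ) : ℝ) - 1 - i) * eC f (sub C x (k + 1)) i + eC f C i := by
    intro i _
    rw [← mul_sum, eC_sub f C (by omega)]; push_cast; ring
  rw [sum_congr rfl this, sum_add_distrib]; push_cast; ring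

/-! ### reversal -/

/-- the reversed word -/
def rev (σ : X r) : X (flip r) :=
  ⟨σ.1 * Fin.revPerm, fun a b h => by
    have := σ.2 b a h
    simp only [mul_inv_rev, Equiv.Perm.mul_apply]
    exact Fin.rev_le_rev.2 this⟩

lemma pos_rev (σ : X r) (a : Fin n) : pos (rev σ) a = n - 1 - pos σ a := by
  unfold pos rev
  simp only [mul_inv_rev, Equiv.Perm.mul_apply]
  show ((Fin.rev (σ.1⁻¹ a) : Fin n) : ℕ) = _
  rw [Fin.val_rev]; omega

lemma rev_rev (σ : X r) : rev (r := flip r) (rev σ) = σ := by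
  apply eq_of_pos
  funext a
  have := pos_lt σ a
  have e1 := pos_rev (r := flip r) (rev σ) a
  rw [pos_rev σ a] at e1
  exact e1.trans (Nat.sub_sub_self (by omega))

lemma tau_rev {i j : ℕ} (h : i + j + 2 = n) (σ : X r) : tau j (rev σ) = rev (tau i σ) := by
  obtain ⟨c, hc⟩ := pos_surj σ (show i < n by omega)
  obtain ⟨d, hd⟩ := pos_surj σ (show i + 1 < n by omega)
  have k1 := tau_cases (show i + 1 < n by omega) σ c d hc hd
  have k2 := tau_cases (show j + 1 < n by omega) (rev σ) d c (by rw [pos_rev]; omega)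
    (by rw [pos_rev]; omega)
  rcases k1 with k1 | k1 <;> rcases k2 with k2 | k2
  · apply eq_of_pos
    funext a
    have := pos_lt σ a
    rw [k2.1, pos_rev, k1.1]
    simp only [pos_rev, s]
    split_ifs <;> omega
  · exact absurd k2.2 k1.2
  · exact absurd k1.2 k2.2
  · rw [k1.1, k2.1]

/-- reversal as a bijection -/
def revE : X r ≃ X (flip r) := ⟨rev, rev (r := flip r), rev_rev, rev_rev (r := flip r)⟩

lemma IsCl.rev {p q : ℕ} {C : Finset (X r)} (hC : IsCl p q C) (hp : p ≤ n) (hq : q ≤ n) :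
    IsCl (n - q) (n - p) (C.map revE.toEmbedding) := by
  intro σ hσ ρ
  rw [mem_map_equiv] at hσ
  rw [mem_map_equiv, hC _ hσ, rel_Sb, rel_Sb]
  have e1 : ∀ (u : X (flip r)) a, pos (revE.symm u : X r) a = n - 1 - pos u a :=
    fun u a => pos_rev (r := flip r) u a
  apply forall_congr'
  intro a
  have := pos_lt σ a
  have := pos_lt ρ a
  rw [e1, e1]
  omega

lemma eC_rev (f : X r → ℝ) (C : Finset (X r)) {i j : ℕ} (h : i + j + 2 = n) :
    eC (fun u => f (revE.symm u)) (C.map revE.toEmbedding) j = eC f C i := by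
  unfold eC
  rw [sum_map]
  apply sum_congr rfl
  intro σ _
  have e : tau j (revE.toEmbedding σ) = revE (tau i σ) := tau_rev h σ
  rw [e]; simp

lemma cA_rev (f : X r → ℝ) (C : Finset (X r)) {p q : ℕ} (hp : p ≤ q) (hq : q ≤ n) :
    cA (fun u => f (revE.symm u)) (n - q) (n - p) (C.map revE.toEmbedding) = cB f p q C := by
  unfold cA cB
  apply sum_bij' (fun j _ => n - 2 - j) (fun i _ => n - 2 - i)
  · intro j hj; rw [mem_Ico] at hj ⊢; omega
  · intro j hj; rw [mem_Ico] at hj ⊢; omega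
  · intro j hj; rw [mem_Ico] at hj; omega
  · intro j hj; rw [mem_Ico] at hj; omega
  · intro j hj
    rw [mem_Ico] at hj
    rw [eC_rev f C (show (n - 2 - j) + j + 2 = n by omega)]
    congr 1
    rw [Nat.cast_sub (by omega), Nat.cast_sub (by omega), Nat.cast_sub (by omega)]
    push_cast; ring

lemma cB_rev (f : X r → ℝ) (C : Finset (X r)) {p q : ℕ} (hp : p ≤ q) (hq : q ≤ n) :
    cB (fun u => f (revE.symm u)) (n - q) (n - p) (C.map revE.toEmbedding) = cA f p q C := by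
  unfold cA cB
  apply sum_bij' (fun j _ => n - 2 - j) (fun i _ => n - 2 - i)
  · intro j hj; rw [mem_Ico] at hj ⊢; omega
  · intro j hj; rw [mem_Ico] at hj ⊢; omega
  · intro j hj; rw [mem_Ico] at hj; omega
  · intro j hj; rw [mem_Ico] at hj; omega
  · intro j hj
    rw [mem_Ico] at hj
    rw [eC_rev f C (show (n - 2 - j) + j + 2 = n by omega)]
    congr 1
    rw [Nat.cast_sub (by omega), Nat.cast_sub (by omega), Nat.cast_sub (by omega)]
    push_cast; ring

end Pool.Agent.Lib.MP_43bc59_co
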