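import Mathlib

set_option autoImplicit false

namespace Pool.Agent.Lib.MP_43bc59_co

open Finset

/-- the transposition of `i` and `i+1` on naturals -/
def s (i x : ℕ) : ℕ := if x = i then i + 1 else if x = i + 1 then i else x

/-- one-sided potential difference -/
noncomputable def t (G : ℕ → ℝ) (x y : ℕ) : ℝ := if x < y then G x - G y else 0

lemma s_left (i : ℕ) : s i i = i + 1 := by simp [s]

lemma s_right (i : ℕ) : s i (i + 1) = i := by simp [s]

lemma s_other {i x : ℕ} (h1 : x ≠ i) (h2 : x ≠ i + 1) : s i x = x := by simp [s, h1, h2]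

lemma t_left (G : ℕ → ℝ) (i x y : ℕ) :
    t G (s i x) y - t G x y = (if x < y then G (s i x) - G x else 0)
      + (if x = i + 1 ∧ y = i + 1 then G i - G (i + 1) else 0) := by
  by_cases h1 : x = i
  · subst h1
    rw [s_left]; unfold t
    rcases lt_trichotomy y (x + 1) with h | h | h
    · rw [if_neg (by omega), if_neg (by omega), if_neg (by omega), if_neg (by omega)]; ring
    · subst h
      rw [if_neg (by omega), if_pos (by omega), if_pos (by omega), if_neg (by omega)]; ring
    · rw [if_pos (by omega), if_pos (by omega), if_pos (by omega), if_neg (by omega)]; ring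
  · by_cases h2 : x = i + 1
    · subst h2
      rw [s_right]; unfold t
      rcases lt_trichotomy y (i + 1) with h | h | h
      · rw [if_neg (by omega), if_neg (by omega), if_neg (by omega), if_neg (by omega)]; ring
      · subst h
        rw [if_pos (by omega), if_neg (by omega), if_neg (by omega), if_pos (by omega)]; ring
      · rw [if_pos (by omega), if_pos (by omega), if_pos (by omega), if_neg (by omega)]; ring
    · rw [s_other h1 h2, if_neg (show ¬ (x = i + 1 ∧ y = i + 1) by omega)]
      split_ifs <;> ring

lemma t_right (G : ℕ → ℝ) (i x y : ℕ) :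
    t G x (s i y) - t G x y = (if x < y then G y - G (s i y) else 0)
      + (if x = i ∧ y = i then G i - G (i + 1) else 0) := by
  by_cases h1 : y = i
  · subst h1
    rw [s_left]; unfold t
    rcases lt_trichotomy x y with h | h | h
    · rw [if_pos (by omega), if_pos (by omega), if_pos (by omega), if_neg (by omega)]; ring
    · subst h
      rw [if_pos (by omega), if_neg (by omega), if_neg (by omega), if_pos (by omega)]; ring
    · rw [if_neg (by omega), if_neg (by omega), if_neg (by omega), if_neg (by omega)]; ring
  · by_cases h2 : y = i + 1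
    · subst h2
      rw [s_right]; unfold t
      rcases lt_trichotomy x i with h | h | h
      · rw [if_pos (by omega), if_pos (by omega), if_pos (by omega), if_neg (by omega)]; ring
      · subst h
        rw [if_neg (by omega), if_pos (by omega), if_pos (by omega), if_neg (by omega)]; ring
      · rw [if_neg (by omega), if_neg (by omega), if_neg (by omega), if_neg (by omega)]; ring
    · rw [s_other h1 h2, if_neg (show ¬ (x = i ∧ y = i) by omega)]
      split_ifs <;> ring

lemma t_both (G : ℕ → ℝ) (i x y : ℕ) (h1 : ¬ (x = i ∧ y = i + 1)) (h2 : ¬ (x = i + 1 ∧ y = i)) :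
    t G (s i x) (s i y) - t G x y = (if x < y then G (s i x) - G x else 0)
      + (if x < y then G y - G (s i y) else 0) := by
  have h : s i x < s i y ↔ x < y := by
    unfold s; split_ifs <;> omega
  unfold t
  by_cases hxy : x < y
  · rw [if_pos (h.2 hxy), if_pos hxy, if_pos hxy, if_pos hxy]; ring
  · rw [if_neg (fun h' => hxy (h.1 h')), if_neg hxy, if_neg hxy, if_neg hxy]; ring

section bond

variable {α : Type*} [Fintype α] [DecidableEq α]

/-- total one-sided potential difference of two position maps -/
noncomputable def Phi (G : ℕ → ℝ) (p q : α → ℕ) : ℝ := ∑ a, t G (p a) (q a)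

noncomputable def linL (G : ℕ → ℝ) (i : ℕ) (p q : α → ℕ) : ℝ :=
  ∑ a, if p a < q a then G (s i (p a)) - G (p a) else 0

noncomputable def linR (G : ℕ → ℝ) (i : ℕ) (p q : α → ℕ) : ℝ :=
  ∑ a, if p a < q a then G (q a) - G (s i (q a)) else 0

lemma linL_eq (G : ℕ → ℝ) (i : ℕ) (p q : α → ℕ) (hp : Function.Injective p) (c d : α)
    (hc : p c = i) (hd : p d = i + 1) :
    linL G i p q = (if i < q c then -(G i - G (i + 1)) else 0)
      + (if i + 1 < q d then G i - G (i + 1) else 0) := by
  unfold linL
  have hcd : c ≠ d := by rintro rfl; omega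
  rw [Fintype.sum_eq_add c d hcd]
  · rw [hc, hd, s_left, s_right]; congr 1; split_ifs <;> ring
  · intro x hx
    have h1 : p x ≠ i := fun h => hx.1 (hp (h.trans hc.symm))
    have h2 : p x ≠ i + 1 := fun h => hx.2 (hp (h.trans hd.symm))
    rw [s_other h1 h2]; simp

lemma linR_eq (G : ℕ → ℝ) (i : ℕ) (p q : α → ℕ) (hq : Function.Injective q) (c d : α)
    (hc : q c = i) (hd : q d = i + 1) :
    linR G i p q = (if p c < i then G i - G (i + 1) else 0)
      + (if p d < i + 1 then -(G i - G (i + 1)) else 0) := by
  unfold linR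
  have hcd : c ≠ d := by rintro rfl; omega
  rw [Fintype.sum_eq_add c d hcd]
  · rw [hc, hd, s_left, s_right]; congr 1; split_ifs <;> ring
  · intro x hx
    have h1 : q x ≠ i := fun h => hx.1 (hq (h.trans hc.symm))
    have h2 : q x ≠ i + 1 := fun h => hx.2 (hq (h.trans hd.symm))
    rw [s_other h1 h2]; simp

lemma Phi_left (G : ℕ → ℝ) (i : ℕ) (p q : α → ℕ) (hp : Function.Injective p) (d : α)
    (hd : p d = i + 1) :
    Phi G (fun a => s i (p a)) q - Phi G p q
      = linL G i p q + (if q d = i + 1 then G i - G (i + 1) else 0) := by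
  unfold Phi linL
  rw [← Finset.sum_sub_distrib, Finset.sum_congr rfl (fun a _ => t_left G i (p a) (q a)),
    Finset.sum_add_distrib]
  congr 1
  rw [Fintype.sum_eq_single d]
  · simp [hd]
  · intro x hx
    rw [if_neg]; exact fun h => hx (hp (h.1.trans hd.symm))

lemma Phi_right (G : ℕ → ℝ) (i : ℕ) (p q : α → ℕ) (hq : Function.Injective q) (c : α)
    (hc : q c = i) :
    Phi G p (fun a => s i (q a)) - Phi G p q
      = linR G i p q + (if p c = i then G i - G (i + 1) else 0) := by
  unfold Phi linR
  rw [← Finset.sum_sub_distrib, Finset.sum_congr rfl (fun a _ => t_right G i (p a) (q a)),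
    Finset.sum_add_distrib]
  congr 1
  rw [Fintype.sum_eq_single c]
  · simp [hc]
  · intro x hx
    rw [if_neg]; exact fun h => hx (hq (h.2.trans hc.symm))

lemma Phi_both (G : ℕ → ℝ) (i : ℕ) (p q : α → ℕ)
    (h : ∀ a, ¬ (p a = i ∧ q a = i + 1) ∧ ¬ (p a = i + 1 ∧ q a = i)) :
    Phi G (fun a => s i (p a)) (fun a => s i (q a)) - Phi G p q
      = linL G i p q + linR G i p q := by
  unfold Phi linL linR
  rw [← Finset.sum_sub_distrib, ← Finset.sum_add_distrib]
  exact Finset.sum_congr rfl (fun a _ => t_both G i (p a) (q a) (h a).1 (h a).2)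

/-- The one-bond estimate. `p'` is `p` after the move at bond `i` (moved, or blocked by a relation
that also holds for `q`), the same for `q'`. -/
lemma bond (G : ℕ → ℝ) (i : ℕ) (hG : 0 ≤ G i - G (i + 1)) (p q p' q' : α → ℕ)
    (hp : Function.Injective p) (hq : Function.Injective q) (c d c' d' : α)
    (hc : p c = i) (hd : p d = i + 1) (hc' : q c' = i) (hd' : q d' = i + 1)
    (hp' : (p' = fun a => s i (p a)) ∨ (p' = p ∧ q c < q d))
    (hq' : (q' = fun a => s i (q a)) ∨ (q' = q ∧ p c' < p d'))
    (hpq : c = c' → d = d' → (p' = p ↔ q' = q)) :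
    Phi G p' q' - Phi G p q ≤ linL G i p q + linR G i p q ∨
      (Phi G p' q - Phi G p q) + (Phi G p q' - Phi G p q) ≤ linL G i p q + linR G i p q := by
  have eL := linL_eq G i p q hp c d hc hd
  have eR := linR_eq G i p q hq c' d' hc' hd'
  have fL := Phi_left G i p q hp d hd
  have fR := Phi_right G i p q hq c' hc'
  have i1 : q d = i + 1 ↔ d = d' := ⟨fun h => hq (h.trans hd'.symm), fun h => h ▸ hd'⟩
  have i2 : p c' = i ↔ c = c' := ⟨fun h => (hp (h.trans hc.symm)).symm, fun h => h ▸ hc⟩
  have i3 : q c = i ↔ c = c' := ⟨fun h => hq (h.trans hc'.symm), fun h => h ▸ hc'⟩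
  have i4 : p d' = i + 1 ↔ d = d' := ⟨fun h => (hp (h.trans hd.symm)).symm, fun h => h ▸ hd⟩
  have nL : q c < q d → 0 ≤ linL G i p q := by
    intro h; rw [eL]; split_ifs <;> linarith
  have nR : p c' < p d' → 0 ≤ linR G i p q := by
    intro h; rw [eR]; split_ifs <;> linarith
  have ns : ∀ (u : α → ℕ) (e : α), u e = i → (fun a => s i (u a)) ≠ u := by
    intro u e he h
    have := congrFun h e
    simp only [he, s_left] at this; omega
  by_cases hs : c = c' ∨ d = d'
  · left
    rcases hp' with hp' | ⟨hp', b1⟩ <;> rcases hq' with hq' | ⟨hq', b2⟩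
    · subst hp' hq'
      apply le_of_eq
      apply Phi_both
      intro a
      constructor
      · rintro ⟨h1, h2⟩
        have e1 : a = c := hp (h1.trans hc.symm)
        have e2 : a = d' := hq (h2.trans hd'.symm)
        rcases hs with hs | hs
        · subst e1; subst hs; omega
        · subst e2; subst hs; omega
      · rintro ⟨h1, h2⟩
        have e1 : a = d := hp (h1.trans hd.symm)
        have e2 : a = c' := hq (h2.trans hc'.symm)
        rcases hs with hs | hs
        · subst e2; subst hs; omega
        · subst e1; subst hs; omega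
    · rw [hp', hq', fL]
      by_cases h : d = d'
      · have hcc : c ≠ c' := fun h' => ns p c hc (hp'.symm.trans ((hpq h' h).2 hq'))
        have h3 : p c' ≠ i := fun h' => hcc (i2.1 h')
        have h4 := i4.2 h
        rw [if_pos (i1.2 h), eR, if_pos (by omega), if_neg (by omega)]; linarith
      · rw [if_neg (fun h' => h (i1.1 h'))]; linarith [nR b2]
    · rw [hp', hq', fR]
      by_cases h : c = c'
      · have hdd : d ≠ d' := fun h' => ns q c' hc' (hq'.symm.trans ((hpq h h').1 hp'))
        have h3 : q d ≠ i + 1 := fun h' => hdd (i1.1 h')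
        have h4 := i3.2 h
        rw [if_pos (i2.2 h), eL, if_neg (by omega), if_pos (by omega)]; linarith
      · rw [if_neg (fun h' => h (i2.1 h'))]; linarith [nL b1]
    · rw [hp', hq']; linarith [nL b1, nR b2]
  · right
    push Not at hs
    rw [if_neg (fun h' => hs.2 (i1.1 h'))] at fL
    rw [if_neg (fun h' => hs.1 (i2.1 h'))] at fR
    have a1 : Phi G p' q - Phi G p q ≤ linL G i p q := by
      rcases hp' with hp' | ⟨hp', b1⟩
      · rw [hp', fL]; linarith
      · rw [hp']; linarith [nL b1]
    have a2 : Phi G p q' - Phi G p q ≤ linR G i p q := by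
      rcases hq' with hq' | ⟨hq', b2⟩
      · rw [hq', fR]; linarith
      · rw [hq']; linarith [nR b2]
    linarith

end bond

end Pool.Agent.Lib.MP_43bc59_co
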