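import Pool.Agent.Lib.MP_43bc59_co.Chain

set_option autoImplicit false

namespace Pool.Agent.Lib.MP_43bc59_co

open Finset

variable {n : ℕ} {r : Fin n → Fin n → Prop}

open Classical in
/-- sum over the class of `σ` -/
noncomputable def csum (S : Finset ℕ) (f : X r → ℝ) (σ : X r) : ℝ :=
  ∑ ρ, if Rel S σ ρ then f ρ else 0

/-- average over the class of `σ` -/
noncomputable def Pr (S : Finset ℕ) (f : X r → ℝ) (σ : X r) : ℝ :=
  csum S f σ / csum S (fun _ => 1) σ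

lemma csum_rel {S : Finset ℕ} (f : X r → ℝ) {σ ρ : X r} (h : Rel S σ ρ) :
    csum S f σ = csum S f ρ := by
  unfold csum
  apply sum_congr rfl
  intro τ _
  have : Rel S σ τ ↔ Rel S ρ τ := ⟨fun h' => h.symm.trans h', fun h' => h.trans h'⟩
  by_cases h1 : Rel S σ τ
  · rw [if_pos h1, if_pos (this.1 h1)]
  · rw [if_neg h1, if_neg (fun h' => h1 (this.2 h'))]

lemma Pr_rel {S : Finset ℕ} (f : X r → ℝ) {σ ρ : X r} (h : Rel S σ ρ) :
    Pr S f σ = Pr S f ρ := by
  unfold Pr; rw [csum_rel f h, csum_rel _ h]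

lemma cnt_pos (S : Finset ℕ) (σ : X r) : 0 < csum S (fun _ => 1) σ := by
  unfold csum
  apply sum_pos'
  · intro ρ _; split_ifs <;> norm_num
  · exact ⟨σ, mem_univ _, by rw [if_pos (Rel.refl S σ)]; norm_num⟩

lemma Pr_const {S : Finset ℕ} {u : X r → ℝ} (hu : ∀ σ ρ, Rel S σ ρ → u σ = u ρ) (σ : X r) :
    Pr S u σ = u σ := by
  unfold Pr
  rw [div_eq_iff (cnt_pos S σ).ne']
  unfold csum
  rw [mul_sum]
  apply sum_congr rfl
  intro ρ _
  split_ifs with h
  · rw [hu σ ρ h]; ring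
  · ring

lemma Pr_symm (S : Finset ℕ) (f g : X r → ℝ) :
    ∑ σ, Pr S f σ * g σ = ∑ σ, f σ * Pr S g σ := by
  classical
  have e1 : ∀ σ, Pr S f σ * g σ
      = ∑ ρ, if Rel S σ ρ then f ρ * g σ / csum S (fun _ => 1) σ else 0 := by
    intro σ
    unfold Pr
    rw [div_mul_eq_mul_div]
    conv_lhs => unfold csum
    rw [sum_mul, sum_div]
    apply sum_congr rfl
    intro ρ _
    split_ifs
    · rfl
    · simp
  have e2 : ∀ ρ, f ρ * Pr S g ρ
      = ∑ σ, if Rel S σ ρ then f ρ * g σ / csum S (fun _ => 1) σ else 0 := by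
    intro ρ
    unfold Pr
    rw [← mul_div_assoc]
    have : csum S g ρ = ∑ σ, if Rel S ρ σ then g σ else 0 := by unfold csum; congr
    rw [this, mul_sum, sum_div]
    apply sum_congr rfl
    intro σ _
    by_cases h : Rel S σ ρ
    · rw [if_pos h, if_pos h.symm, csum_rel _ h]
    · rw [if_neg h, if_neg (fun h' => h h'.symm)]; simp
  rw [sum_congr rfl (fun σ _ => e1 σ), sum_congr rfl (fun σ _ => e2 σ), sum_comm]

lemma Pr_nonneg (S : Finset ℕ) {f : X r → ℝ} (hf : ∀ σ, 0 ≤ f σ) (σ : X r) : 0 ≤ Pr S f σ := by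
  unfold Pr
  apply div_nonneg _ (cnt_pos S σ).le
  unfold csum
  apply sum_nonneg
  intro ρ _
  split_ifs
  · exact hf ρ
  · exact le_rfl

lemma Pr_le_one (S : Finset ℕ) {f : X r → ℝ} (hf : ∀ σ, f σ ≤ 1) (σ : X r) : Pr S f σ ≤ 1 := by
  unfold Pr
  rw [div_le_one (cnt_pos S σ)]
  unfold csum
  apply sum_le_sum
  intro ρ _
  split_ifs
  · exact hf ρ
  · exact le_rfl

lemma sum_inv (i : ℕ) (u ψ : X r → ℝ) (hu : ∀ σ, u (tau i σ) = u σ) :
    ∑ σ, u σ * (ψ σ - ψ (tau i σ)) = 0 := by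
  have h := Equiv.sum_comp (tauE (r := r) i) (fun σ => u σ * ψ σ)
  have h2 : ∑ σ, u σ * ψ (tau i σ) = ∑ σ, u σ * ψ σ := by
    rw [← h]
    apply sum_congr rfl
    intro σ _
    show u σ * ψ (tau i σ) = u (tau i σ) * ψ (tau i σ)
    rw [hu]
  simp only [mul_sub]
  rw [sum_sub_distrib, h2, sub_self]

lemma ip_Lap (S : Finset ℕ) (u ψ : X r → ℝ) :
    ∑ σ, u σ * (-Lap S ψ σ) = ∑ i ∈ bonds n S, ∑ σ, u σ * (ψ σ - ψ (tau i σ)) := by
  rw [sum_comm]
  apply sum_congr rfl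
  intro σ _
  unfold Lap
  rw [← sum_neg_distrib, mul_sum]
  exact sum_congr rfl (fun i _ => by ring)

lemma Pr_zero_of {S : Finset ℕ} {ψ g : X r → ℝ}
    (h : ∀ σ, -Lap S ψ σ + Pr S ψ σ = g σ - Pr S g σ) (σ : X r) : Pr S ψ σ = 0 := by
  have h1 : ∑ σ, Pr S ψ σ * (-Lap S ψ σ) = 0 := by
    rw [ip_Lap]
    apply sum_eq_zero
    intro i hi
    exact sum_inv i _ _ (fun σ => Pr_rel ψ (rel_tau hi σ))
  have h2 : ∑ σ, Pr S ψ σ * Pr S g σ = ∑ σ, Pr S ψ σ * g σ := by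
    rw [← Pr_symm]
    exact sum_congr rfl (fun σ _ => by rw [Pr_const (fun _ _ h => Pr_rel ψ h)])
  have h3 : ∑ σ, Pr S ψ σ * Pr S ψ σ = 0 := by
    have : ∀ σ, Pr S ψ σ * Pr S ψ σ
        = Pr S ψ σ * g σ - Pr S ψ σ * Pr S g σ - Pr S ψ σ * (-Lap S ψ σ) := by
      intro σ; have := h σ; linear_combination (Pr S ψ σ) * this
    rw [sum_congr rfl (fun σ _ => this σ), sum_sub_distrib, sum_sub_distrib, h1, h2]; ring
  have := (sum_eq_zero_iff_of_nonneg (fun σ _ => mul_self_nonneg (Pr S ψ σ))).1 h3 σ (mem_univ σ)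
  exact mul_self_eq_zero.1 this

/-- the operator that is inverted -/
noncomputable def Top (S : Finset ℕ) : (X r → ℝ) →ₗ[ℝ] (X r → ℝ) where
  toFun ψ := fun σ => -Lap S ψ σ + Pr S ψ σ
  map_add' ψ φ := by
    funext σ
    have e1 : Lap S (ψ + φ) σ = Lap S ψ σ + Lap S φ σ := by
      unfold Lap; rw [← sum_add_distrib]
      exact sum_congr rfl (fun i _ => by simp only [Pi.add_apply]; ring)
    have e2 : csum S (ψ + φ) σ = csum S ψ σ + csum S φ σ := by
      unfold csum; rw [← sum_add_distrib]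
      exact sum_congr rfl (fun i _ => by split_ifs <;> simp)
    simp only [Pi.add_apply, Pr, e1, e2]; ring
  map_smul' c ψ := by
    funext σ
    have e1 : Lap S (c • ψ) σ = c * Lap S ψ σ := by
      unfold Lap; rw [mul_sum]
      exact sum_congr rfl (fun i _ => by simp only [Pi.smul_apply, smul_eq_mul]; ring)
    have e2 : csum S (c • ψ) σ = c * csum S ψ σ := by
      unfold csum; rw [mul_sum]
      exact sum_congr rfl (fun i _ => by split_ifs <;> simp)
    simp only [Pi.smul_apply, smul_eq_mul, RingHom.id_apply, Pr, e1, e2]; ring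

lemma poisson {S : Finset ℕ} (hS : Strict n S) (g : X r → ℝ) :
    ∃ ψ : X r → ℝ, ∀ σ, -Lap S ψ σ = g σ - Pr S g σ := by
  have hinj : Function.Injective (Top (r := r) S) := by
    rw [injective_iff_map_eq_zero]
    intro ψ hψ
    have h0 : ∀ σ, -Lap S ψ σ + Pr S ψ σ = 0 := fun σ => congrFun hψ σ
    have h1 : ∀ σ, Pr S ψ σ = 0 := by
      apply Pr_zero_of (g := fun _ => 0)
      intro σ
      rw [h0, Pr_const (fun _ _ _ => rfl)]; ring
    have h2 : ∀ σ, Lap S ψ σ = 0 := fun σ => by have := h0 σ; rw [h1] at this; linarith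
    have hW : Adm n S (fun _ => 0) := ⟨fun _ => le_rfl, rfl, fun _ _ => rfl, fun _ _ => rfl⟩
    have h3 : ∀ σ ρ, Rel S σ ρ → ψ σ ≤ ψ ρ := by
      intro σ ρ h
      have := maxp hS hW ψ (fun u v _ => by simp [h2, drift]) σ ρ h
      have e : Phi (pot fun _ => 0) (pos σ) (pos ρ) = 0 := by simp [Phi, t, pot]
      linarith
    funext σ
    rw [← Pr_const (fun u v h => le_antisymm (h3 u v h) (h3 v u h.symm)) σ, h1]; rfl
  obtain ⟨ψ, hψ⟩ := LinearMap.injective_iff_surjective.1 hinj (fun σ => g σ - Pr S g σ)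
  have h0 : ∀ σ, -Lap S ψ σ + Pr S ψ σ = g σ - Pr S g σ := fun σ => congrFun hψ σ
  exact ⟨ψ, fun σ => by have := h0 σ; rw [Pr_zero_of h0] at this; linarith⟩

lemma exists_cross {μ : ℕ} {σ ρ : X r} (h : ¬ ∀ a, pos σ a < μ ↔ pos ρ a < μ) :
    ∃ a, pos σ a < μ ∧ μ ≤ pos ρ a := by
  classical
  by_contra hc
  push Not at hc
  apply h
  have e : ∑ a, (if pos σ a < μ then 1 else 0) = ∑ a, (if pos ρ a < μ then 1 else 0) := by
    unfold pos
    rw [Equiv.sum_comp ρ.1⁻¹ (fun x : Fin n => if (x : ℕ) < μ then 1 else 0),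
      Equiv.sum_comp σ.1⁻¹ (fun x : Fin n => if (x : ℕ) < μ then 1 else 0)]
  have hle : ∀ a ∈ (univ : Finset (Fin n)),
      (if pos σ a < μ then 1 else 0) ≤ (if pos ρ a < μ then 1 else 0) := by
    intro a _
    have := hc a
    split_ifs <;> omega
  intro a
  have := (sum_eq_sum_iff_of_le hle).1 e a (mem_univ a)
  split_ifs at this <;> omega

/-- number of boundary edges at the bond `i` -/
noncomputable def edg (f : X r → ℝ) (i : ℕ) : ℝ := ∑ σ, f σ * (1 - f (tau i σ))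

/-- the quadratic form of the class average -/
noncomputable def Vq (f : X r → ℝ) (S : Finset ℕ) : ℝ := ∑ σ, f σ * Pr S f σ

lemma edg_nonneg {f : X r → ℝ} (h0 : ∀ σ, 0 ≤ f σ) (h1 : ∀ σ, f σ ≤ 1) (i : ℕ) : 0 ≤ edg f i :=
  sum_nonneg (fun σ _ => mul_nonneg (h0 σ) (by linarith [h1 (tau i σ)]))

/-- The cut lemma. -/
lemma cut {S : Finset ℕ} (hS : Strict n S) {W : ℕ → ℝ} (hW : Adm n S W) (μ : ℕ)
    (hV : ∀ k l, k < l → l < n → Same S k l →
      (if k < μ ∧ μ ≤ l then 1 else 0) ≤ (W (k + 1) - W k) - (W (l + 1) - W l))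
    {f : X r → ℝ} (h0 : ∀ σ, 0 ≤ f σ) (h1 : ∀ σ, f σ ≤ 1) :
    Vq f (insert μ S) - Vq f S ≤ ∑ i ∈ range (n - 1), W (i + 1) * edg f i := by
  set g := Pr (insert μ S) f with hg
  obtain ⟨ψ, hψ⟩ := poisson hS g
  have hsub : ∀ σ ρ : X r, Rel (insert μ S) σ ρ → Rel S σ ρ :=
    fun σ ρ h ν hν => h ν (mem_insert_of_mem hν)
  have e1 : ∑ σ, f σ * Pr S g σ = Vq f S := by
    unfold Vq
    rw [← Pr_symm, hg, ← Pr_symm]
    apply sum_congr rfl
    intro σ _
    rw [Pr_const (fun u v h => Pr_rel f (hsub u v h))]; ring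
  have e2 : Vq f (insert μ S) - Vq f S = ∑ σ, f σ * (-Lap S ψ σ) := by
    rw [← e1]; unfold Vq
    rw [← sum_sub_distrib]
    exact sum_congr rfl (fun σ _ => by rw [hψ]; ring)
  have hterm : ∀ (σ ρ : X r), Rel S σ ρ → ∀ a, (if pos σ a < μ ∧ μ ≤ pos ρ a then (1 : ℝ) else 0)
      ≤ (if pos σ a < pos ρ a then
        (W (pos σ a + 1) - W (pos σ a)) - (W (pos ρ a + 1) - W (pos ρ a)) else 0) := by
    intro σ ρ h a
    by_cases ha : pos σ a < pos ρ a
    · rw [if_pos ha]; exact hV _ _ ha (pos_lt ρ a) (fun ν hν => h ν hν a)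
    · rw [if_neg ha, if_neg (by omega)]
  have hdr : ∀ σ ρ : X r, Rel S σ ρ → Lap S ψ ρ - Lap S ψ σ ≤ drift W σ ρ := by
    intro σ ρ h
    have a1 := hψ σ
    have a2 := hψ ρ
    have a3 := Pr_rel g h
    have a4 : ∑ a, (if pos σ a < μ ∧ μ ≤ pos ρ a then (1 : ℝ) else 0) ≤ drift W σ ρ :=
      sum_le_sum (fun a _ => hterm σ ρ h a)
    have a5 : ∀ a ∈ (univ : Finset (Fin n)),
        (0 : ℝ) ≤ (if pos σ a < μ ∧ μ ≤ pos ρ a then (1 : ℝ) else 0) := by
      intro a _; split_ifs <;> norm_num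
    have a6 : g σ - g ρ ≤ ∑ a, (if pos σ a < μ ∧ μ ≤ pos ρ a then (1 : ℝ) else 0) := by
      by_cases hc : ∀ a, pos σ a < μ ↔ pos ρ a < μ
      · have : Rel (insert μ S) σ ρ := by
          intro ν hν
          rcases mem_insert.1 hν with rfl | hν
          · exact hc
          · exact h ν hν
        rw [hg, Pr_rel f this, sub_self]
        exact sum_nonneg a5
      · obtain ⟨a, ha⟩ := exists_cross hc
        have b1 := single_le_sum a5 (mem_univ a)
        rw [if_pos ha] at b1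
        have b2 := Pr_le_one (insert μ S) h1 σ
        have b3 := Pr_nonneg (insert μ S) h0 ρ
        rw [hg]; linarith
    linarith
  have hgrad : ∀ i ∈ bonds n S, ∀ σ, ψ σ - ψ (tau i σ) ≤ W (i + 1) := fun i hi σ =>
    (maxp hS hW ψ hdr σ _ (rel_tau hi σ).symm).trans (Phi_tau_le hW (mem_bonds.1 hi).1 σ)
  rw [e2, ip_Lap]
  calc ∑ i ∈ bonds n S, ∑ σ, f σ * (ψ σ - ψ (tau i σ))
      ≤ ∑ i ∈ bonds n S, W (i + 1) * edg f i := by
        apply sum_le_sum
        intro i hi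
        have z := sum_inv i (fun σ => f σ * f (tau i σ)) ψ (fun σ => by rw [tau_tau]; ring)
        have e : ∑ σ, f σ * (ψ σ - ψ (tau i σ))
            = ∑ σ, f σ * (1 - f (tau i σ)) * (ψ σ - ψ (tau i σ))
              + ∑ σ, f σ * f (tau i σ) * (ψ σ - ψ (tau i σ)) := by
          rw [← sum_add_distrib]; exact sum_congr rfl (fun σ _ => by ring)
        rw [e, z, add_zero]
        unfold edg
        rw [mul_sum]
        apply sum_le_sum
        intro σ _
        have := mul_nonneg (h0 σ) (show 0 ≤ 1 - f (tau i σ) by linarith [h1 (tau i σ)])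
        nlinarith [hgrad i hi σ]
    _ ≤ ∑ i ∈ range (n - 1), W (i + 1) * edg f i := by
        apply sum_le_sum_of_subset_of_nonneg (filter_subset _ _)
        intro i _ _
        exact mul_nonneg (hW.nonneg _) (edg_nonneg h0 h1 i)

end Pool.Agent.Lib.MP_43bc59_co
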