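import Pool.Agent.Lib.MP_43bc59_co.F_N2

set_option autoImplicit false
set_option maxRecDepth 100000

namespace Pool.Agent.Lib.MP_43bc59_co.P18

open Bx

def pi3 : Pm := ⟨200, 0, 0, 0, 0, 3, 3, ⟨1, 0, 0⟩⟩

noncomputable def ti3_1 : CT :=
  (.sy 130 (.p1 110 120 108 112 0 102 0 130 false false 62 124 [(⟨138, o⟩, ⟨138, o⟩)]) (.p1 110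
  120 108 112 0 102 130 200 false true 112 192 [(⟨140, o⟩, ⟨140, o⟩), (⟨140, o⟩, ⟨140, o⟩),
  (⟨136, o⟩, ⟨133, o⟩)]))

theorem ci3_1 : Cov2 pi3 Ri
    ⟨552, 600, 540, 558⟩ ⟨0, 102, 0, 200, 100, 0, 100, 0⟩ :=
  CT.sound pi3 ci cl_i ti3_1 _ _ (by decide +kernel)

noncomputable def ti3_2 : CT :=
  (.sy 158 (.p1 110 120 108 112 102 131 0 158 false false 92 160 [(⟨139, o⟩, ⟨140, o⟩)]) (.p1 110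
  120 108 112 102 131 158 200 false true 140 196 [(⟨141, o⟩, ⟨149, (.nd 2 o o)⟩), (⟨141, o⟩,
  ⟨141, o⟩), (⟨136, o⟩, ⟨134, o⟩)]))

theorem ci3_2 : Cov2 pi3 Ri
    ⟨552, 600, 540, 558⟩ ⟨102, 131, 0, 200, 100, 0, 100, 0⟩ :=
  CT.sound pi3 ci cl_i ti3_2 _ _ (by decide +kernel)

noncomputable def ti3_3 : CT :=
  (.sy 158 (.p1 110 120 108 112 131 152 0 158 false false 106 136 [(⟨139, o⟩, ⟨140, o⟩)]) (.p2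
  155 147 ⟨174, 34, ⟨127, 1649, -613⟩, ⟨73, 1272, -252⟩, ⟨55, (.lf [0, 1])⟩, ⟨109, (.nd 3 (.nd 3
  (.nd 3 (.nd 3 (.lf [1, -8]) (.lf [1, -7])) (.lf [2, -17])) (.lf [4, -27])) (.lf [1, -4096]))⟩,
  ⟨98, (.lf [0, 1])⟩⟩ ⟨200, 27, ⟨1331, -1267, -263⟩, ⟨1001, -1000, 0⟩, ⟨57, (.lf [0, 1])⟩, ⟨112,
  (.nd 3 (.nd 3 (.nd 3 (.lf [1, -6]) (.lf [4, -25])) (.nd 3 (.nd 3 (.lf [1, -5]) (.lf [4, -23]))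
  (.lf [1, -5]))) (.lf [1, -64]))⟩, ⟨100, (.lf [0, 1])⟩⟩ [(⟨205, o⟩, ⟨205, o⟩), (⟨206, o⟩, ⟨206,
  o⟩), (⟨205, o⟩, ⟨205, o⟩), (⟨205, o⟩, ⟨206, o⟩), (⟨206, o⟩, ⟨206, o⟩), (⟨206, o⟩, ⟨206, o⟩),
  (⟨206, o⟩, ⟨206, o⟩), (⟨206, o⟩, ⟨206, o⟩), (⟨205, o⟩, ⟨205, o⟩), (⟨206, o⟩, ⟨206, o⟩), (⟨205,
  o⟩, ⟨205, o⟩), (⟨206, o⟩, ⟨206, o⟩), (⟨205, o⟩, ⟨206, o⟩), (⟨206, o⟩, ⟨206, o⟩), (⟨205, o⟩,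
  ⟨206, o⟩), (⟨206, o⟩, ⟨206, o⟩)]))

theorem ci3_3 : Cov2 pi3 Ri
    ⟨552, 600, 540, 558⟩ ⟨131, 152, 0, 200, 100, 0, 100, 0⟩ :=
  CT.sound pi3 ci cl_i ti3_3 _ _ (by decide +kernel)

noncomputable def ti3_4 : CT :=
  (.sy 109 (.p1 110 120 108 112 152 166 0 109 false false 86 160 [(⟨139, o⟩, ⟨140, o⟩)]) (.p1 110
  120 108 112 152 166 109 158 true true 132 256 [(⟨143, o⟩, ⟨143, o⟩), (⟨143, o⟩, ⟨143, o⟩),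
  (⟨139, o⟩, ⟨136, o⟩), (⟨143, o⟩, ⟨143, o⟩), (⟨143, o⟩, ⟨143, o⟩), (⟨139, o⟩, ⟨136, o⟩), (z,
  ⟨138, o⟩), (z, ⟨138, o⟩), (z, ⟨136, o⟩)]))

theorem ci3_4 : Cov2 pi3 Ri
    ⟨552, 600, 540, 558⟩ ⟨152, 166, 0, 158, 100, 0, 100, 0⟩ :=
  CT.sound pi3 ci cl_i ti3_4 _ _ (by decide +kernel)

noncomputable def ti3_5 : CT :=
  (.sy 75 (.sy 65 (.p1 110 120 108 112 166 190 0 65 true false 68 168 [(⟨140, o⟩, ⟨140, o⟩),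
  (⟨140, o⟩, ⟨140, o⟩), (z, ⟨135, o⟩)]) (.p2 82 159 ⟨101, 36, ⟨47, 1152, -139⟩, ⟨13, 1033, -30⟩,
  ⟨55, (.lf [0, 1])⟩, ⟨107, (.nd 3 (.nd 3 (.lf [1, -256]) (.nd 3 (.lf [4, -23]) (.lf [4, -21])))
  (.lf [1, -32]))⟩, ⟨97, (.lf [0, 1])⟩⟩ ⟨81, 60, ⟨3078, -3077, 0⟩, ⟨2668, -2667, 0⟩, ⟨56, o⟩,
  ⟨97, o⟩, ⟨102, o⟩⟩ [(⟨203, o⟩, ⟨203, o⟩), (⟨204, o⟩, ⟨204, o⟩), (⟨203, o⟩, ⟨203, o⟩), (⟨204,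
  o⟩, ⟨204, o⟩), (⟨204, o⟩, ⟨203, o⟩), (⟨204, o⟩, ⟨204, o⟩), (⟨204, o⟩, ⟨203, o⟩), (⟨204, o⟩,
  ⟨204, o⟩), (⟨203, o⟩, ⟨203, o⟩), (⟨204, o⟩, ⟨204, o⟩), (⟨203, o⟩, ⟨203, o⟩), (⟨204, o⟩, ⟨204,
  o⟩), (⟨203, o⟩, ⟨203, o⟩), (⟨204, o⟩, ⟨204, o⟩), (⟨203, o⟩, ⟨203, o⟩), (⟨204, o⟩, ⟨204, o⟩)]))
  (.sa 575 (.st 550 (.p1 110 115 108 110 166 190 75 109 true true 110 268 [(⟨143, o⟩, ⟨143, o⟩),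
  (⟨143, o⟩, ⟨143, o⟩), (⟨139, o⟩, ⟨136, o⟩), (⟨151, (.nd 2 o o)⟩, ⟨143, o⟩), (⟨151, (.nd 2 o
  o)⟩, ⟨143, o⟩), (⟨139, o⟩, ⟨136, o⟩), (z, ⟨138, o⟩), (z, ⟨143, (.nd 3 o o)⟩), (z, ⟨136, o⟩)])
  (.sx 178 (.p1 110 115 110 112 166 178 75 109 false false 94 168 [(⟨140, o⟩, ⟨140, o⟩)]) (.sx
  184 (.p2 104 163 ⟨112, 18, ⟨28, 1078, -69⟩, ⟨20, 1053, -47⟩, ⟨55, (.lf [0, 1])⟩, ⟨105, (.nd 3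
  (.nd 3 (.lf [1, -32]) (.lf [16, -89])) (.lf [1, -16]))⟩, ⟨97, (.lf [0, 1])⟩⟩ ⟨111, 63, ⟨2668,
  -2667, 0⟩, ⟨1836, -1835, 0⟩, ⟨56, o⟩, ⟨96, o⟩, ⟨101, o⟩⟩ [(⟨204, o⟩, ⟨204, o⟩), (⟨205, o⟩,
  ⟨205, o⟩), (⟨204, o⟩, ⟨204, o⟩), (⟨205, o⟩, ⟨205, o⟩), (⟨204, o⟩, ⟨204, o⟩), (⟨205, o⟩, ⟨205,
  o⟩), (⟨204, o⟩, ⟨204, o⟩), (⟨205, o⟩, ⟨205, o⟩), (⟨204, o⟩, ⟨204, o⟩), (⟨205, o⟩, ⟨205, o⟩),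
  (⟨204, o⟩, ⟨204, o⟩), (⟨205, o⟩, ⟨205, o⟩), (⟨204, o⟩, ⟨204, o⟩), (⟨205, o⟩, ⟨205, o⟩), (⟨204,
  o⟩, ⟨204, o⟩), (⟨205, o⟩, ⟨205, o⟩)]) (.sa 555 (.cl 1 [⟨68, o⟩, ⟨58, o⟩, ⟨59, o⟩, ⟨59, o⟩, ⟨67,
  o⟩, ⟨53, o⟩]) (.sy 85 (.p1 111 115 110 112 184 190 75 85 true true 96 216 [(⟨141, o⟩, ⟨142,
  o⟩), (⟨141, o⟩, ⟨142, o⟩), (⟨137, o⟩, ⟨134, o⟩), (⟨149, (.nd 2 o o)⟩, ⟨142, o⟩), (⟨157, (.nd 2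
  (.nd 2 o o) o)⟩, ⟨142, o⟩), (⟨137, o⟩, ⟨134, o⟩), (z, ⟨136, o⟩), (z, ⟨136, o⟩), (z, ⟨134, o⟩)])
  (.sx 186 (.p1 111 115 110 112 184 186 85 109 true true 110 256 [(⟨151, (.nd 2 o o)⟩, ⟨143, o⟩),
  (⟨143, o⟩, ⟨143, o⟩), (⟨138, o⟩, ⟨136, o⟩), (⟨151, (.nd 2 o o)⟩, ⟨143, o⟩), (⟨151, (.nd 2 o
  o)⟩, ⟨148, (.nd 3 o o)⟩), (⟨138, o⟩, ⟨136, o⟩), (z, ⟨138, o⟩), (z, ⟨143, (.nd 3 o o)⟩), (z,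
  ⟨135, o⟩)]) (.sa 558 (.cl 1 [⟨68, o⟩, ⟨58, o⟩, ⟨59, o⟩, ⟨59, o⟩, ⟨67, o⟩, ⟨53, o⟩]) (.p2 115
  159 ⟨176, 9, ⟨18, 1045, -40⟩, ⟨13, 1031, -28⟩, ⟨55, (.lf [0, 1])⟩, ⟨104, (.nd 3 (.lf [64,
  -345]) (.lf [1, -16]))⟩, ⟨97, (.lf [0, 1])⟩⟩ ⟨114, 62, ⟨2354, -2353, 0⟩, ⟨1836, -1835, 0⟩, ⟨56,
  o⟩, ⟨96, o⟩, ⟨101, o⟩⟩ [(⟨205, o⟩, ⟨204, o⟩), (⟨206, o⟩, ⟨205, o⟩), (⟨205, o⟩, ⟨204, o⟩),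
  (⟨206, o⟩, ⟨205, o⟩), (⟨205, o⟩, ⟨204, o⟩), (⟨206, o⟩, ⟨205, o⟩), (⟨205, o⟩, ⟨204, o⟩), (⟨206,
  o⟩, ⟨205, o⟩), (⟨213, (.nd 2 o o)⟩, ⟨204, o⟩), (⟨206, o⟩, ⟨205, o⟩), (⟨205, o⟩, ⟨204, o⟩),
  (⟨206, o⟩, ⟨205, o⟩), (⟨205, o⟩, ⟨204, o⟩), (⟨206, o⟩, ⟨205, o⟩), (⟨205, o⟩, ⟨204, o⟩), (⟨206,
  o⟩, ⟨205, o⟩)])))))))) (.p1 115 120 108 112 166 190 75 109 true false 110 168 [(⟨141, o⟩, ⟨141,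
  o⟩), (⟨141, o⟩, ⟨141, o⟩), (z, ⟨136, o⟩)])))

theorem ci3_5 : Cov2 pi3 Ri
    ⟨552, 600, 540, 558⟩ ⟨166, 190, 0, 109, 100, 0, 100, 0⟩ :=
  CT.sound pi3 ci cl_i ti3_5 _ _ (by decide +kernel)

noncomputable def ti3_6 : CT :=
  (.sx 173 (.p1 110 120 108 112 166 173 109 134 false false 106 152 [(⟨140, o⟩, ⟨140, o⟩)]) (.st
  550 (.p1 110 120 108 110 173 190 109 134 true true 136 212 [(⟨142, o⟩, ⟨142, o⟩), (⟨142, o⟩,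
  ⟨142, o⟩), (⟨137, o⟩, ⟨135, o⟩), (⟨150, (.nd 2 o o)⟩, ⟨142, o⟩), (⟨150, (.nd 2 o o)⟩, ⟨142,
  o⟩), (⟨137, o⟩, ⟨135, o⟩), (z, ⟨137, o⟩), (z, ⟨142, (.nd 3 o o)⟩), (z, ⟨134, o⟩)]) (.sa 575
  (.sx 178 (.p1 110 115 110 112 173 178 109 134 true true 124 216 [(⟨142, o⟩, ⟨142, o⟩), (⟨142,
  o⟩, ⟨142, o⟩), (⟨137, o⟩, ⟨135, o⟩), (⟨142, o⟩, ⟨142, o⟩), (⟨142, o⟩, ⟨142, o⟩), (⟨137, o⟩,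
  ⟨135, o⟩), (z, ⟨137, o⟩), (z, ⟨137, o⟩), (z, ⟨134, o⟩)]) (.sa 565 (.sx 184 (.p2 130 182 ⟨186,
  10, ⟨28, 1076, -67⟩, ⟨20, 1052, -45⟩, ⟨55, (.lf [0, 1])⟩, ⟨102, (.nd 3 (.lf [16, -91]) (.lf [1,
  -16]))⟩, ⟨97, (.lf [0, 1])⟩⟩ ⟨130, 63, ⟨1836, -1835, 0⟩, ⟨1494, -1493, 0⟩, ⟨56, (.lf [0, 1])⟩,
  ⟨101, (.lf [4, -30])⟩, ⟨101, o⟩⟩ [(⟨206, o⟩, ⟨205, o⟩), (⟨206, o⟩, ⟨206, o⟩), (⟨206, o⟩, ⟨205,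
  o⟩), (⟨206, o⟩, ⟨206, o⟩), (⟨206, o⟩, ⟨205, o⟩), (⟨206, o⟩, ⟨206, o⟩), (⟨206, o⟩, ⟨205, o⟩),
  (⟨206, o⟩, ⟨206, o⟩), (⟨221, (.nd 2 (.nd 2 o o) o)⟩, ⟨205, o⟩), (⟨206, o⟩, ⟨206, o⟩), (⟨221,
  (.nd 2 (.nd 2 o o) o)⟩, ⟨205, o⟩), (⟨206, o⟩, ⟨206, o⟩), (⟨206, o⟩, ⟨205, o⟩), (⟨206, o⟩, ⟨206,
  o⟩), (⟨214, (.nd 2 o o)⟩, ⟨205, o⟩), (⟨206, o⟩, ⟨206, o⟩)]) (.sa 555 (.cl 1 [⟨68, o⟩, ⟨58, o⟩,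
  ⟨59, o⟩, ⟨59, o⟩, ⟨67, o⟩, ⟨53, o⟩]) (.st 554 (.p2 136 161 ⟨365, 4, ⟨20, 1052, -46⟩, ⟨12, 1031,
  -27⟩, ⟨55, (.lf [0, 1])⟩, ⟨105, (.nd 3 (.nd 3 (.lf [1, -16]) (.lf [16, -86])) (.lf [1, -16]))⟩,
  ⟨97, (.lf [0, 1])⟩⟩ ⟨135, 60, ⟨1836, -1835, 0⟩, ⟨1494, -1493, 0⟩, ⟨56, (.lf [0, 1])⟩, ⟨101,
  (.lf [4, -30])⟩, ⟨101, o⟩⟩ [(⟨208, (.lf [1, 0, -2])⟩, ⟨206, o⟩), (⟨208, (.lf [1, 0, -1])⟩,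
  ⟨206, o⟩), (⟨209, (.lf [1, 0, -4])⟩, ⟨206, o⟩), (⟨210, (.lf [1, 0, -8])⟩, ⟨206, o⟩), (⟨206, o⟩,
  ⟨206, o⟩), (⟨207, o⟩, ⟨207, o⟩), (⟨206, o⟩, ⟨206, o⟩), (⟨207, o⟩, ⟨206, o⟩), (⟨221, (.nd 3 (.nd
  2 o (.lf [1, 0, -2])) (.lf [1, 0, -8]))⟩, ⟨206, o⟩), (⟨208, (.lf [1, 0, -1])⟩, ⟨206, o⟩),
  (⟨231, (.nd 3 (.nd 2 (.nd 2 (.lf [8, 0, -6]) o) (.lf [2, 0, -6])) (.lf [1, 0, -8]))⟩, ⟨206,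
  o⟩), (⟨209, (.lf [1, 0, -4])⟩, ⟨206, o⟩), (⟨206, o⟩, ⟨206, o⟩), (⟨207, o⟩, ⟨206, o⟩), (⟨209,
  (.lf [4, 0, -2])⟩, ⟨206, o⟩), (⟨211, (.lf [16, 0, -2])⟩, ⟨206, o⟩)]) (.sa 556 (.cl 1 [⟨68, o⟩,
  ⟨58, o⟩, ⟨59, o⟩, ⟨59, o⟩, ⟨67, o⟩, ⟨53, o⟩]) (.sx 186 (.p2 132 176 ⟨281, 5, ⟨20, 1052, -45⟩,
  ⟨18, 1044, -39⟩, ⟨55, (.lf [0, 1])⟩, ⟨103, (.lf [256, -1442])⟩, ⟨97, (.lf [0, 1])⟩⟩ ⟨130, 61,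
  ⟨1836, -1835, 0⟩, ⟨1494, -1493, 0⟩, ⟨56, (.lf [0, 1])⟩, ⟨101, (.lf [4, -30])⟩, ⟨101, o⟩⟩
  [(⟨206, o⟩, ⟨206, o⟩), (⟨207, o⟩, ⟨206, o⟩), (⟨207, (.lf [1, 0, -1])⟩, ⟨206, o⟩), (⟨208, (.lf
  [1, 0, -2])⟩, ⟨206, o⟩), (⟨206, o⟩, ⟨206, o⟩), (⟨207, o⟩, ⟨207, o⟩), (⟨206, o⟩, ⟨206, o⟩),
  (⟨207, o⟩, ⟨207, o⟩), (⟨214, (.nd 2 o o)⟩, ⟨206, o⟩), (⟨207, o⟩, ⟨206, o⟩), (⟨222, (.nd 3 (.nd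
  2 o (.lf [8, 0, -1])) (.lf [1, 0, -2]))⟩, ⟨206, o⟩), (⟨209, (.lf [1, 0, -4])⟩, ⟨206, o⟩),
  (⟨206, o⟩, ⟨206, o⟩), (⟨207, o⟩, ⟨207, o⟩), (⟨206, o⟩, ⟨206, o⟩), (⟨207, o⟩, ⟨206, o⟩)]) (.sa
  558 (.cl 1 [⟨68, o⟩, ⟨58, o⟩, ⟨59, o⟩, ⟨59, o⟩, ⟨67, o⟩, ⟨53, o⟩]) (.sx 187 (.p2 133 178 ⟨122,
  10, ⟨18, 1044, -39⟩, ⟨16, 1041, -36⟩, ⟨55, (.lf [0, 1])⟩, ⟨101, (.lf [64, -355])⟩, ⟨97, (.lf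
  [0, 1])⟩⟩ ⟨127, 62, ⟨1836, -1835, 0⟩, ⟨1494, -1493, 0⟩, ⟨56, (.lf [0, 1])⟩, ⟨101, (.lf [4,
  -30])⟩, ⟨101, o⟩⟩ [(⟨213, (.nd 2 o o)⟩, ⟨205, o⟩), (⟨206, o⟩, ⟨205, o⟩), (⟨205, o⟩, ⟨205, o⟩),
  (⟨206, o⟩, ⟨205, o⟩), (⟨205, o⟩, ⟨205, o⟩), (⟨206, o⟩, ⟨206, o⟩), (⟨205, o⟩, ⟨205, o⟩), (⟨206,
  o⟩, ⟨205, o⟩), (⟨213, (.nd 2 o o)⟩, ⟨205, o⟩), (⟨206, o⟩, ⟨205, o⟩), (⟨213, (.nd 2 o o)⟩, ⟨205,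
  o⟩), (⟨206, o⟩, ⟨205, o⟩), (⟨205, o⟩, ⟨205, o⟩), (⟨206, o⟩, ⟨206, o⟩), (⟨205, o⟩, ⟨205, o⟩),
  (⟨206, o⟩, ⟨205, o⟩)]) (.sa 560 (.cl 1 [⟨68, o⟩, ⟨58, o⟩, ⟨59, o⟩, ⟨59, o⟩, ⟨67, o⟩, ⟨53, o⟩])
  (.sy 122 (.p2 131 166 ⟨120, 10, ⟨16, 1041, -36⟩, ⟨13, 1030, -27⟩, ⟨55, (.lf [0, 1])⟩, ⟨97, (.lf
  [4, -22])⟩, ⟨97, (.lf [0, 1])⟩⟩ ⟨126, 62, ⟨1836, -1835, 0⟩, ⟨1640, -1639, 0⟩, ⟨56, o⟩, ⟨102,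
  (.lf [8, -66])⟩, ⟨101, o⟩⟩ [(⟨205, o⟩, ⟨204, o⟩), (⟨205, o⟩, ⟨205, o⟩), (⟨205, o⟩, ⟨204, o⟩),
  (⟨205, o⟩, ⟨205, o⟩), (⟨205, o⟩, ⟨204, o⟩), (⟨206, o⟩, ⟨205, o⟩), (⟨205, o⟩, ⟨204, o⟩), (⟨206,
  o⟩, ⟨205, o⟩), (⟨205, o⟩, ⟨204, o⟩), (⟨206, o⟩, ⟨205, o⟩), (⟨205, o⟩, ⟨204, o⟩), (⟨205, o⟩,
  ⟨205, o⟩), (⟨205, o⟩, ⟨204, o⟩), (⟨206, o⟩, ⟨205, o⟩), (⟨205, o⟩, ⟨204, o⟩), (⟨206, o⟩, ⟨205,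
  o⟩)]) (.p2 141 190 ⟨242, 5, ⟨16, 1041, -36⟩, ⟨13, 1030, -27⟩, ⟨55, (.lf [0, 1])⟩, ⟨97, (.lf [4,
  -22])⟩, ⟨97, (.lf [0, 1])⟩⟩ ⟨121, 58, ⟨3047, -2895, -1932⟩, ⟨1946, -1823, -832⟩, ⟨56, (.lf [0,
  1])⟩, ⟨117, (.nd 3 o (.nd 3 (.nd 3 (.lf [128, -1750]) (.lf [2, -21])) (.lf [1, -512])))⟩, ⟨102,
  (.lf [0, 1])⟩⟩ [(⟨206, o⟩, ⟨206, o⟩), (⟨207, o⟩, ⟨207, o⟩), (⟨206, o⟩, ⟨206, o⟩), (⟨207, o⟩,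
  ⟨207, o⟩), (⟨206, o⟩, ⟨206, o⟩), (⟨208, o⟩, ⟨207, o⟩), (⟨206, o⟩, ⟨206, o⟩), (⟨207, o⟩, ⟨207,
  o⟩), (⟨214, (.nd 2 o o)⟩, ⟨206, o⟩), (⟨207, o⟩, ⟨207, o⟩), (⟨214, (.nd 2 o o)⟩, ⟨206, o⟩),
  (⟨207, o⟩, ⟨207, o⟩), (⟨206, o⟩, ⟨206, o⟩), (⟨208, o⟩, ⟨207, o⟩), (⟨206, o⟩, ⟨206, o⟩), (⟨207,
  o⟩, ⟨207, o⟩)])))))))))) (.p1 113 115 110 112 178 190 109 134 true true 136 208 [(⟨150, (.nd 2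
  o o)⟩, ⟨142, o⟩), (⟨142, o⟩, ⟨142, o⟩), (⟨137, o⟩, ⟨135, o⟩), (⟨150, (.nd 2 o o)⟩, ⟨142, o⟩),
  (⟨150, (.nd 2 o o)⟩, ⟨142, o⟩), (⟨137, o⟩, ⟨135, o⟩), (z, ⟨137, o⟩), (z, ⟨137, o⟩), (z, ⟨134,
  o⟩)]))) (.p1 115 120 110 112 173 190 109 134 true true 136 212 [(⟨142, o⟩, ⟨142, o⟩), (⟨142,
  o⟩, ⟨142, o⟩), (⟨137, o⟩, ⟨135, o⟩), (⟨142, o⟩, ⟨142, o⟩), (⟨142, o⟩, ⟨142, o⟩), (⟨137, o⟩,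
  ⟨135, o⟩), (z, ⟨137, o⟩), (z, ⟨137, o⟩), (z, ⟨134, o⟩)]))))

theorem ci3_6 : Cov2 pi3 Ri
    ⟨552, 600, 540, 558⟩ ⟨166, 190, 109, 134, 100, 0, 100, 0⟩ :=
  CT.sound pi3 ci cl_i ti3_6 _ _ (by decide +kernel)

noncomputable def ti3_7 : CT :=
  (.p1 110 120 108 112 166 178 134 158 true true 148 212 [(⟨142, o⟩, ⟨142, o⟩), (⟨142, o⟩, ⟨142,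
  o⟩), (⟨138, o⟩, ⟨135, o⟩), (⟨158, (.nd 2 (.nd 2 o o) o)⟩, ⟨142, o⟩), (⟨142, o⟩, ⟨147, (.nd 3 o
  o)⟩), (⟨138, o⟩, ⟨135, o⟩), (z, ⟨142, (.nd 3 o o)⟩), (z, ⟨147, (.nd 3 (.nd 3 o o) o)⟩), (z,
  ⟨134, o⟩)])

theorem ci3_7 : Cov2 pi3 Ri
    ⟨552, 600, 540, 558⟩ ⟨166, 178, 134, 158, 100, 0, 100, 0⟩ :=
  CT.sound pi3 ci cl_i ti3_7 _ _ (by decide +kernel)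

noncomputable def ti3_8 : CT :=
  (.p1 110 113 108 110 178 190 134 158 true true 156 196 [(⟨142, o⟩, ⟨142, o⟩), (⟨142, o⟩, ⟨142,
  o⟩), (⟨137, o⟩, ⟨135, o⟩), (⟨158, (.nd 2 (.nd 2 o o) o)⟩, ⟨142, o⟩), (⟨150, (.nd 2 o o)⟩, ⟨147,
  (.nd 3 o o)⟩), (⟨137, o⟩, ⟨135, o⟩), (z, ⟨142, (.nd 3 o o)⟩), (z, ⟨142, (.nd 3 o o)⟩), (z,
  ⟨134, o⟩)])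

theorem ci3_8 : Cov2 pi3 Ri
    ⟨552, 565, 540, 550⟩ ⟨178, 190, 134, 158, 100, 0, 100, 0⟩ :=
  CT.sound pi3 ci cl_i ti3_8 _ _ (by decide +kernel)

noncomputable def ti3_9 : CT :=
  (.sx 182 (.p2 148 204 ⟨260, 7, ⟨28, 1076, -67⟩, ⟨23, 1059, -52⟩, ⟨55, (.lf [0, 1])⟩, ⟨104, (.nd
  3 (.lf [64, -366]) (.lf [1, -16]))⟩, ⟨97, (.lf [0, 1])⟩⟩ ⟨133, 49, ⟨1987, -1866, -878⟩, ⟨1347,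
  -1281, -283⟩, ⟨56, (.lf [0, 1])⟩, ⟨114, (.nd 3 (.nd 3 (.lf [16, -113]) o) (.nd 3 (.nd 3 (.lf
  [1, -128]) (.lf [32, -295])) (.lf [1, -64])))⟩, ⟨101, (.lf [0, 1])⟩⟩ [(⟨207, o⟩, ⟨206, o⟩),
  (⟨208, o⟩, ⟨207, o⟩), (⟨207, o⟩, ⟨206, o⟩), (⟨208, (.lf [1, 0, -1])⟩, ⟨207, o⟩), (⟨207, o⟩,
  ⟨207, o⟩), (⟨208, o⟩, ⟨208, o⟩), (⟨207, o⟩, ⟨207, o⟩), (⟨207, o⟩, ⟨207, o⟩), (⟨215, (.nd 2 o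
  o)⟩, ⟨206, o⟩), (⟨208, o⟩, ⟨207, o⟩), (⟨208, (.lf [1, 0, -1])⟩, ⟨206, o⟩), (⟨210, (.lf [1, 0,
  -4])⟩, ⟨207, o⟩), (⟨207, o⟩, ⟨207, o⟩), (⟨208, o⟩, ⟨208, o⟩), (⟨215, (.nd 2 o o)⟩, ⟨207, o⟩),
  (⟨207, o⟩, ⟨207, o⟩)]) (.sx 186 (.sa 560 (.sa 553 (.cl 1 [⟨68, o⟩, ⟨58, o⟩, ⟨59, o⟩, ⟨59, o⟩,
  ⟨67, o⟩, ⟨53, o⟩]) (.sy 151 (.sx 184 (.p2 146 169 ⟨203, 7, ⟨23, 1059, -52⟩, ⟨20, 1051, -45⟩,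
  ⟨55, (.lf [0, 1])⟩, ⟨102, (.nd 3 (.lf [16, -89]) (.lf [1, -16]))⟩, ⟨97, (.lf [0, 1])⟩⟩ ⟨152,
  43, ⟨2001, -1879, -894⟩, ⟨1466, -1386, -390⟩, ⟨56, (.lf [0, 1])⟩, ⟨112, (.nd 3 (.nd 3 (.nd 3
  (.lf [1, -7]) (.lf [1, -8])) o) (.nd 3 (.nd 3 (.lf [1, -128]) (.lf [2, -19])) (.lf [1,
  -64])))⟩, ⟨101, (.lf [0, 1])⟩⟩ [(⟨206, o⟩, ⟨205, o⟩), (⟨207, o⟩, ⟨206, o⟩), (⟨206, o⟩, ⟨205,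
  o⟩), (⟨206, o⟩, ⟨206, o⟩), (⟨206, o⟩, ⟨205, o⟩), (⟨207, o⟩, ⟨206, o⟩), (⟨206, o⟩, ⟨205, o⟩),
  (⟨206, o⟩, ⟨206, o⟩), (⟨206, o⟩, ⟨205, o⟩), (⟨207, o⟩, ⟨206, o⟩), (⟨206, o⟩, ⟨205, o⟩), (⟨206,
  o⟩, ⟨206, o⟩), (⟨206, o⟩, ⟨205, o⟩), (⟨207, o⟩, ⟨206, o⟩), (⟨206, o⟩, ⟨205, o⟩), (⟨206, o⟩,
  ⟨206, o⟩)]) (.sa 555 (.cl 1 [⟨68, o⟩, ⟨58, o⟩, ⟨59, o⟩, ⟨59, o⟩, ⟨67, o⟩, ⟨53, o⟩]) (.p2 148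
  247 ⟨134, 10, ⟨20, 1051, -45⟩, ⟨17, 1044, -38⟩, ⟨55, (.lf [0, 1])⟩, ⟨100, (.nd 3 (.lf [4, -22])
  (.lf [1, -16]))⟩, ⟨97, (.lf [0, 1])⟩⟩ ⟨113, 57, ⟨1993, -1872, -885⟩, ⟨1464, -1384, -387⟩, ⟨56,
  (.lf [0, 1])⟩, ⟨111, (.nd 3 (.nd 3 (.nd 3 (.lf [1, -7]) (.lf [1, -8])) o) (.nd 3 (.nd 3 (.lf
  [1, -64]) (.lf [2, -19])) (.lf [1, -64])))⟩, ⟨101, (.lf [0, 1])⟩⟩ [(⟨215, (.nd 2 o o)⟩, ⟨206,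
  o⟩), (⟨208, o⟩, ⟨207, o⟩), (⟨207, o⟩, ⟨206, o⟩), (⟨208, o⟩, ⟨207, o⟩), (⟨207, o⟩, ⟨207, o⟩),
  (⟨208, o⟩, ⟨208, o⟩), (⟨207, o⟩, ⟨207, o⟩), (⟨208, o⟩, ⟨207, o⟩), (⟨223, (.nd 2 (.nd 2 o o)
  o)⟩, ⟨206, o⟩), (⟨208, o⟩, ⟨207, o⟩), (⟨215, (.nd 2 o o)⟩, ⟨207, o⟩), (⟨208, o⟩, ⟨207, o⟩),
  (⟨215, (.nd 2 o o)⟩, ⟨207, o⟩), (⟨208, o⟩, ⟨208, o⟩), (⟨215, (.nd 2 o o)⟩, ⟨207, o⟩), (⟨208,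
  o⟩, ⟨207, o⟩)]))) (.p2 157 213 ⟨175, 8, ⟨23, 1059, -52⟩, ⟨17, 1044, -38⟩, ⟨55, (.lf [0, 1])⟩,
  ⟨102, (.nd 3 (.lf [16, -89]) (.lf [1, -16]))⟩, ⟨97, (.lf [0, 1])⟩⟩ ⟨133, 41, ⟨1466, -1386,
  -390⟩, ⟨1349, -1284, -286⟩, ⟨56, (.lf [0, 1])⟩, ⟨110, (.nd 3 (.nd 3 (.nd 3 (.lf [1, -7]) (.lf
  [4, -30])) o) (.lf [1, -64]))⟩, ⟨101, (.lf [0, 1])⟩⟩ [(⟨206, o⟩, ⟨206, o⟩), (⟨207, o⟩, ⟨207,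
  o⟩), (⟨206, o⟩, ⟨206, o⟩), (⟨207, o⟩, ⟨207, o⟩), (⟨206, o⟩, ⟨206, o⟩), (⟨207, o⟩, ⟨207, o⟩),
  (⟨206, o⟩, ⟨206, o⟩), (⟨207, o⟩, ⟨207, o⟩), (⟨214, (.nd 2 o o)⟩, ⟨206, o⟩), (⟨207, o⟩, ⟨207,
  o⟩), (⟨214, (.nd 2 o o)⟩, ⟨206, o⟩), (⟨207, o⟩, ⟨207, o⟩), (⟨206, o⟩, ⟨206, o⟩), (⟨207, o⟩,
  ⟨207, o⟩), (⟨214, (.nd 2 o o)⟩, ⟨206, o⟩), (⟨207, o⟩, ⟨207, o⟩)]))) (.p1 112 113 110 112 182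
  186 134 158 true true 152 204 [(⟨150, (.nd 2 o o)⟩, ⟨142, o⟩), (⟨142, o⟩, ⟨142, o⟩), (⟨137, o⟩,
  ⟨135, o⟩), (⟨158, (.nd 2 (.nd 2 o o) o)⟩, ⟨142, o⟩), (⟨150, (.nd 2 o o)⟩, ⟨160, (.nd 3 (.nd 2 o
  (.nd 3 o o)) o)⟩), (⟨137, o⟩, ⟨135, o⟩), (z, ⟨142, (.nd 3 o o)⟩), (z, ⟨146, (.nd 3 (.nd 3 o o)
  o)⟩), (z, ⟨134, o⟩)])) (.sa 558 (.cl 1 [⟨68, o⟩, ⟨58, o⟩, ⟨59, o⟩, ⟨59, o⟩, ⟨67, o⟩, ⟨53, o⟩])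
  (.sy 151 (.st 554 (.p1 111 113 110 111 186 190 134 151 true true 152 188 [(⟨150, (.nd 2 o o)⟩,
  ⟨142, o⟩), (⟨142, o⟩, ⟨142, o⟩), (⟨137, o⟩, ⟨135, o⟩), (⟨158, (.nd 2 (.nd 2 o o) o)⟩, ⟨142,
  o⟩), (⟨158, (.nd 2 (.nd 2 o o) o)⟩, ⟨147, (.nd 3 o o)⟩), (⟨137, o⟩, ⟨135, o⟩), (z, ⟨137, o⟩),
  (z, ⟨142, (.nd 3 o o)⟩), (z, ⟨134, o⟩)]) (.sx 187 (.p2 149 224 ⟨180, 7, ⟨18, 1044, -39⟩, ⟨16,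
  1041, -36⟩, ⟨55, (.lf [0, 1])⟩, ⟨101, (.lf [64, -355])⟩, ⟨97, (.lf [0, 1])⟩⟩ ⟨119, 53, ⟨1952,
  -1829, -839⟩, ⟨1451, -1371, -373⟩, ⟨56, (.lf [0, 1])⟩, ⟨111, (.nd 3 (.nd 3 (.nd 3 (.lf [1, -7])
  (.lf [1, -8])) o) (.nd 3 (.nd 3 (.lf [1, -64]) (.lf [2, -19])) (.lf [1, -32])))⟩, ⟨101, (.lf
  [0, 1])⟩⟩ [(⟨207, o⟩, ⟨206, o⟩), (⟨208, o⟩, ⟨207, o⟩), (⟨207, o⟩, ⟨206, o⟩), (⟨207, o⟩, ⟨207,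
  o⟩), (⟨207, o⟩, ⟨207, o⟩), (⟨208, o⟩, ⟨207, o⟩), (⟨207, o⟩, ⟨207, o⟩), (⟨207, o⟩, ⟨207, o⟩),
  (⟨215, (.nd 2 o o)⟩, ⟨206, o⟩), (⟨208, o⟩, ⟨207, o⟩), (⟨215, (.nd 2 o o)⟩, ⟨206, o⟩), (⟨207,
  o⟩, ⟨207, o⟩), (⟨207, o⟩, ⟨207, o⟩), (⟨208, o⟩, ⟨207, o⟩), (⟨207, o⟩, ⟨207, o⟩), (⟨207, o⟩,
  ⟨207, o⟩)]) (.sa 560 (.cl 1 [⟨68, o⟩, ⟨58, o⟩, ⟨59, o⟩, ⟨59, o⟩, ⟨67, o⟩, ⟨53, o⟩]) (.p2 152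
  206 ⟨218, 5, ⟨16, 1041, -36⟩, ⟨13, 1030, -27⟩, ⟨55, (.lf [0, 1])⟩, ⟨97, (.lf [4, -22])⟩, ⟨97,
  (.lf [0, 1])⟩⟩ ⟨124, 51, ⟨1946, -1823, -832⟩, ⟨1449, -1369, -371⟩, ⟨56, (.lf [0, 1])⟩, ⟨111,
  (.nd 3 (.nd 3 (.nd 3 (.lf [1, -7]) (.lf [1, -8])) o) (.nd 3 (.nd 3 (.lf [1, -64]) (.lf [2,
  -19])) (.lf [1, -32])))⟩, ⟨101, (.lf [0, 1])⟩⟩ [(⟨206, o⟩, ⟨206, o⟩), (⟨207, o⟩, ⟨207, o⟩),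
  (⟨206, o⟩, ⟨206, o⟩), (⟨207, o⟩, ⟨207, o⟩), (⟨207, o⟩, ⟨206, o⟩), (⟨207, o⟩, ⟨207, o⟩), (⟨207,
  o⟩, ⟨206, o⟩), (⟨207, o⟩, ⟨207, o⟩), (⟨214, (.nd 2 o o)⟩, ⟨206, o⟩), (⟨207, o⟩, ⟨207, o⟩),
  (⟨214, (.nd 2 o o)⟩, ⟨206, o⟩), (⟨207, o⟩, ⟨207, o⟩), (⟨207, o⟩, ⟨206, o⟩), (⟨207, o⟩, ⟨207,
  o⟩), (⟨207, o⟩, ⟨206, o⟩), (⟨207, o⟩, ⟨207, o⟩)])))) (.p2 161 268 ⟨179, 7, ⟨17, 1045, -39⟩,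
  ⟨12, 1031, -27⟩, ⟨55, (.lf [0, 1])⟩, ⟨104, (.nd 3 (.lf [64, -345]) (.lf [1, -16]))⟩, ⟨97, (.lf
  [0, 1])⟩⟩ ⟨107, 50, ⟨1456, -1376, -378⟩, ⟨1342, -1277, -278⟩, ⟨56, (.lf [0, 1])⟩, ⟨108, (.nd 3
  (.nd 3 (.nd 3 (.lf [1, -7]) (.lf [1, -8])) o) (.lf [1, -64]))⟩, ⟨101, (.lf [0, 1])⟩⟩ [(⟨208,
  o⟩, ⟨207, o⟩), (⟨208, o⟩, ⟨208, o⟩), (⟨208, o⟩, ⟨207, o⟩), (⟨208, o⟩, ⟨208, o⟩), (⟨208, o⟩,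
  ⟨207, o⟩), (⟨209, o⟩, ⟨208, o⟩), (⟨208, o⟩, ⟨207, o⟩), (⟨209, o⟩, ⟨208, o⟩), (⟨216, (.nd 2 o
  o)⟩, ⟨207, o⟩), (⟨208, o⟩, ⟨208, o⟩), (⟨216, (.nd 2 o o)⟩, ⟨207, o⟩), (⟨208, o⟩, ⟨208, o⟩),
  (⟨208, o⟩, ⟨207, o⟩), (⟨209, o⟩, ⟨208, o⟩), (⟨216, (.nd 2 o o)⟩, ⟨207, o⟩), (⟨208, o⟩, ⟨208,
  o⟩)])))))

theorem ci3_9 : Cov2 pi3 Ri
    ⟨552, 565, 550, 558⟩ ⟨178, 190, 134, 158, 100, 0, 100, 0⟩ :=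
  CT.sound pi3 ci cl_i ti3_9 _ _ (by decide +kernel)

noncomputable def ti3_10 : CT :=
  (.p1 113 115 108 112 178 190 134 158 true true 156 196 [(⟨150, (.nd 2 o o)⟩, ⟨142, o⟩), (⟨142,
  o⟩, ⟨142, o⟩), (⟨137, o⟩, ⟨135, o⟩), (⟨158, (.nd 2 (.nd 2 o o) o)⟩, ⟨142, o⟩), (⟨150, (.nd 2 o
  o)⟩, ⟨147, (.nd 3 o o)⟩), (⟨137, o⟩, ⟨135, o⟩), (z, ⟨137, o⟩), (z, ⟨142, (.nd 3 o o)⟩), (z,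
  ⟨134, o⟩)])

theorem ci3_10 : Cov2 pi3 Ri
    ⟨565, 575, 540, 558⟩ ⟨178, 190, 134, 158, 100, 0, 100, 0⟩ :=
  CT.sound pi3 ci cl_i ti3_10 _ _ (by decide +kernel)

noncomputable def ti3_11 : CT :=
  (.p1 115 120 108 112 178 190 134 158 true true 156 196 [(⟨142, o⟩, ⟨142, o⟩), (⟨142, o⟩, ⟨142,
  o⟩), (⟨137, o⟩, ⟨135, o⟩), (⟨142, o⟩, ⟨142, o⟩), (⟨142, o⟩, ⟨142, o⟩), (⟨137, o⟩, ⟨135, o⟩),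
  (z, ⟨137, o⟩), (z, ⟨137, o⟩), (z, ⟨134, o⟩)])

theorem ci3_11 : Cov2 pi3 Ri
    ⟨575, 600, 540, 558⟩ ⟨178, 190, 134, 158, 100, 0, 100, 0⟩ :=
  CT.sound pi3 ci cl_i ti3_11 _ _ (by decide +kernel)

noncomputable def ti3_12 : CT :=
  (.cl 1 [⟨68, o⟩, ⟨58, o⟩, ⟨59, o⟩, ⟨59, o⟩, ⟨67, o⟩, ⟨53, o⟩])

theorem ci3_12 : Cov2 pi3 Ri
    ⟨552, 561, 540, 558⟩ ⟨190, 200, 0, 158, 100, 0, 100, 0⟩ :=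
  CT.sound pi3 ci cl_i ti3_12 _ _ (by decide +kernel)

noncomputable def ti3_13 : CT :=
  (.sx 197 (.st 550 (.p1 112 116 108 110 190 197 0 108 true false 122 164 [(⟨141, o⟩, ⟨141, o⟩),
  (⟨141, o⟩, ⟨141, o⟩), (z, ⟨136, o⟩)]) (.sy 84 (.sa 570 (.sx 196 (.sa 562 (.cl 1 [⟨68, o⟩, ⟨58,
  o⟩, ⟨59, o⟩, ⟨59, o⟩, ⟨67, o⟩, ⟨53, o⟩]) (.sx 193 (.sy 72 (.p1 112 114 110 112 190 193 0 72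
  true false 80 164 [(⟨140, o⟩, ⟨140, o⟩), (⟨140, o⟩, ⟨140, o⟩), (z, ⟨135, o⟩)]) (.p1 112 114 110
  112 190 193 72 84 true true 98 220 [(⟨142, o⟩, ⟨142, o⟩), (⟨142, o⟩, ⟨142, o⟩), (⟨137, o⟩,
  ⟨135, o⟩), (⟨150, (.nd 2 o o)⟩, ⟨142, o⟩), (⟨150, (.nd 2 o o)⟩, ⟨142, o⟩), (⟨137, o⟩, ⟨135,
  o⟩), (z, ⟨136, o⟩), (z, ⟨137, o⟩), (z, ⟨134, o⟩)])) (.sa 565 (.cl 2 [⟨68, o⟩, ⟨59, o⟩, ⟨59, o⟩,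
  ⟨59, o⟩, ⟨68, o⟩, ⟨53, o⟩]) (.p1 113 114 110 112 193 196 0 84 true false 98 164 [(⟨140, o⟩,
  ⟨141, o⟩), (⟨148, (.nd 2 o o)⟩, ⟨141, o⟩), (z, ⟨136, o⟩)])))) (.cl 2 [⟨68, o⟩, ⟨59, o⟩, ⟨59,
  o⟩, ⟨59, o⟩, ⟨68, o⟩, ⟨53, o⟩])) (.p1 114 116 110 112 190 197 0 84 true false 102 172 [(⟨141,
  o⟩, ⟨141, o⟩), (⟨141, o⟩, ⟨141, o⟩), (z, ⟨136, o⟩)])) (.sa 570 (.sx 196 (.sa 562 (.cl 1 [⟨68,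
  o⟩, ⟨58, o⟩, ⟨59, o⟩, ⟨59, o⟩, ⟨67, o⟩, ⟨53, o⟩]) (.st 554 (.p1 112 114 110 111 190 196 84 108
  true true 120 216 [(⟨158, (.nd 2 (.nd 2 o o) o)⟩, ⟨142, o⟩), (⟨142, o⟩, ⟨142, o⟩), (⟨137, o⟩,
  ⟨135, o⟩), (⟨150, (.nd 2 o o)⟩, ⟨142, o⟩), (⟨158, (.nd 2 (.nd 2 o o) o)⟩, ⟨142, o⟩), (⟨137, o⟩,
  ⟨135, o⟩), (z, ⟨137, o⟩), (z, ⟨137, o⟩), (z, ⟨134, o⟩)]) (.sx 195 (.sa 563 (.cl 1 [⟨68, o⟩,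
  ⟨58, o⟩, ⟨59, o⟩, ⟨59, o⟩, ⟨67, o⟩, ⟨53, o⟩]) (.sy 96 (.p2 113 161 ⟨224, 5, ⟨12, 1031, -27⟩,
  ⟨7, 1015, -13⟩, ⟨55, (.lf [0, 1])⟩, ⟨103, (.lf [256, -1365])⟩, ⟨97, (.lf [0, 1])⟩⟩ ⟨100, 62,
  ⟨2382, -2381, 0⟩, ⟨2084, -2083, 0⟩, ⟨56, o⟩, ⟨96, o⟩, ⟨101, o⟩⟩ [(⟨205, o⟩, ⟨205, o⟩), (⟨206,
  o⟩, ⟨205, o⟩), (⟨205, o⟩, ⟨205, o⟩), (⟨206, o⟩, ⟨205, o⟩), (⟨205, o⟩, ⟨205, o⟩), (⟨206, o⟩,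
  ⟨205, o⟩), (⟨205, o⟩, ⟨205, o⟩), (⟨206, o⟩, ⟨205, o⟩), (⟨205, o⟩, ⟨205, o⟩), (⟨206, o⟩, ⟨205,
  o⟩), (⟨205, o⟩, ⟨205, o⟩), (⟨206, o⟩, ⟨205, o⟩), (⟨205, o⟩, ⟨205, o⟩), (⟨206, o⟩, ⟨205, o⟩),
  (⟨205, o⟩, ⟨205, o⟩), (⟨206, o⟩, ⟨205, o⟩)]) (.p2 125 156 ⟨208, 5, ⟨12, 1031, -27⟩, ⟨7, 1015,
  -13⟩, ⟨55, (.lf [0, 1])⟩, ⟨103, (.lf [256, -1365])⟩, ⟨97, (.lf [0, 1])⟩⟩ ⟨116, 60, ⟨2084,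
  -2083, 0⟩, ⟨1853, -1852, 0⟩, ⟨56, o⟩, ⟨96, o⟩, ⟨101, o⟩⟩ [(⟨205, o⟩, ⟨205, o⟩), (⟨206, o⟩,
  ⟨205, o⟩), (⟨205, o⟩, ⟨205, o⟩), (⟨206, o⟩, ⟨205, o⟩), (⟨205, o⟩, ⟨205, o⟩), (⟨206, o⟩, ⟨205,
  o⟩), (⟨205, o⟩, ⟨205, o⟩), (⟨206, o⟩, ⟨205, o⟩), (⟨205, o⟩, ⟨205, o⟩), (⟨206, o⟩, ⟨205, o⟩),
  (⟨205, o⟩, ⟨205, o⟩), (⟨206, o⟩, ⟨205, o⟩), (⟨205, o⟩, ⟨205, o⟩), (⟨206, o⟩, ⟨205, o⟩), (⟨205,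
  o⟩, ⟨205, o⟩), (⟨206, o⟩, ⟨205, o⟩)]))) (.cl 2 [⟨68, o⟩, ⟨59, o⟩, ⟨59, o⟩, ⟨59, o⟩, ⟨68, o⟩,
  ⟨53, o⟩])))) (.cl 2 [⟨68, o⟩, ⟨59, o⟩, ⟨59, o⟩, ⟨59, o⟩, ⟨68, o⟩, ⟨53, o⟩])) (.p1 114 116 110
  112 190 197 84 108 true true 120 208 [(⟨150, (.nd 2 o o)⟩, ⟨142, o⟩), (⟨142, o⟩, ⟨142, o⟩),
  (⟨137, o⟩, ⟨135, o⟩), (⟨142, o⟩, ⟨142, o⟩), (⟨142, o⟩, ⟨142, o⟩), (⟨137, o⟩, ⟨135, o⟩), (z,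
  ⟨136, o⟩), (z, ⟨137, o⟩), (z, ⟨134, o⟩)])))) (.sa 569 (.cl 2 [⟨68, o⟩, ⟨59, o⟩, ⟨59, o⟩, ⟨59,
  o⟩, ⟨68, o⟩, ⟨53, o⟩]) (.st 550 (.p1 113 116 108 110 197 200 0 108 true false 134 168 [(⟨141,
  o⟩, ⟨141, o⟩), (⟨141, o⟩, ⟨141, o⟩), (z, ⟨136, o⟩)]) (.sa 572 (.cl 2 [⟨68, o⟩, ⟨59, o⟩, ⟨59,
  o⟩, ⟨59, o⟩, ⟨68, o⟩, ⟨53, o⟩]) (.p1 114 116 110 112 197 200 0 108 true false 130 160 [(⟨149,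
  (.nd 2 o o)⟩, ⟨141, o⟩), (⟨141, o⟩, ⟨141, o⟩), (z, ⟨136, o⟩)])))))

theorem ci3_13 : Cov2 pi3 Ri
    ⟨561, 580, 540, 558⟩ ⟨190, 200, 0, 108, 100, 0, 100, 0⟩ :=
  CT.sound pi3 ci cl_i ti3_13 _ _ (by decide +kernel)

noncomputable def ti3_14 : CT :=
  (.st 550 (.p1 112 116 108 110 190 200 108 129 true true 144 192 [(⟨150, (.nd 2 o o)⟩, ⟨142,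
  o⟩), (⟨142, o⟩, ⟨142, o⟩), (⟨137, o⟩, ⟨135, o⟩), (⟨142, o⟩, ⟨142, o⟩), (⟨142, o⟩, ⟨142, o⟩),
  (⟨137, o⟩, ⟨135, o⟩), (z, ⟨137, o⟩), (z, ⟨137, o⟩), (z, ⟨134, o⟩)]) (.sx 197 (.sa 570 (.sx 196
  (.sa 562 (.cl 1 [⟨68, o⟩, ⟨58, o⟩, ⟨59, o⟩, ⟨59, o⟩, ⟨67, o⟩, ⟨53, o⟩]) (.sx 193 (.st 554 (.p1
  112 114 110 111 190 193 108 129 true true 136 196 [(⟨142, o⟩, ⟨142, o⟩), (⟨142, o⟩, ⟨142, o⟩),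
  (⟨137, o⟩, ⟨135, o⟩), (⟨150, (.nd 2 o o)⟩, ⟨142, o⟩), (⟨150, (.nd 2 o o)⟩, ⟨142, o⟩), (⟨137,
  o⟩, ⟨135, o⟩), (z, ⟨136, o⟩), (z, ⟨136, o⟩), (z, ⟨134, o⟩)]) (.sa 563 (.cl 1 [⟨68, o⟩, ⟨58, o⟩,
  ⟨59, o⟩, ⟨59, o⟩, ⟨67, o⟩, ⟨53, o⟩]) (.p2 137 166 ⟨306, 4, ⟨12, 1031, -27⟩, ⟨9, 1021, -19⟩,
  ⟨55, (.lf [0, 1])⟩, ⟨99, (.lf [16, -86])⟩, ⟨97, (.lf [0, 1])⟩⟩ ⟨124, 63, ⟨1853, -1852, 0⟩,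
  ⟨1551, -1550, 0⟩, ⟨56, (.lf [0, 1])⟩, ⟨101, (.lf [4, -31])⟩, ⟨101, o⟩⟩ [(⟨214, (.nd 2 o o)⟩,
  ⟨206, o⟩), (⟨207, o⟩, ⟨206, o⟩), (⟨209, (.lf [8, 0, -1])⟩, ⟨206, o⟩), (⟨208, (.lf [1, 0, -1])⟩,
  ⟨206, o⟩), (⟨206, o⟩, ⟨206, o⟩), (⟨207, o⟩, ⟨206, o⟩), (⟨206, o⟩, ⟨206, o⟩), (⟨207, o⟩, ⟨206,
  o⟩), (⟨214, (.nd 2 o o)⟩, ⟨206, o⟩), (⟨207, o⟩, ⟨206, o⟩), (⟨223, (.nd 3 (.nd 2 o (.lf [16, 0,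
  -2])) (.lf [1, 0, -1]))⟩, ⟨206, o⟩), (⟨208, (.lf [1, 0, -2])⟩, ⟨206, o⟩), (⟨206, o⟩, ⟨206, o⟩),
  (⟨207, o⟩, ⟨206, o⟩), (⟨206, o⟩, ⟨206, o⟩), (⟨207, o⟩, ⟨206, o⟩)]))) (.sa 565 (.cl 2 [⟨68, o⟩,
  ⟨59, o⟩, ⟨59, o⟩, ⟨59, o⟩, ⟨68, o⟩, ⟨53, o⟩]) (.sy 114 (.p1 113 114 110 112 193 196 108 114
  true true 132 172 [(⟨149, (.nd 2 o o)⟩, ⟨142, o⟩), (⟨141, o⟩, ⟨142, o⟩), (⟨137, o⟩, ⟨134, o⟩),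
  (⟨149, (.nd 2 o o)⟩, ⟨142, o⟩), (⟨149, (.nd 2 o o)⟩, ⟨142, o⟩), (⟨137, o⟩, ⟨134, o⟩), (z, ⟨136,
  o⟩), (z, ⟨136, o⟩), (z, ⟨134, o⟩)]) (.p2 143 173 ⟨261, 4, ⟨9, 1021, -19⟩, ⟨5, 1012, -10⟩, ⟨55,
  (.lf [0, 1])⟩, ⟨97, (.lf [4, -21])⟩, ⟨97, (.lf [0, 1])⟩⟩ ⟨121, 62, ⟨1755, -1754, 0⟩, ⟨1551,
  -1550, 0⟩, ⟨56, (.lf [0, 1])⟩, ⟨99, (.lf [1, -8])⟩, ⟨101, o⟩⟩ [(⟨214, (.nd 2 o o)⟩, ⟨206, o⟩),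
  (⟨207, o⟩, ⟨206, o⟩), (⟨206, o⟩, ⟨206, o⟩), (⟨207, o⟩, ⟨206, o⟩), (⟨206, o⟩, ⟨206, o⟩), (⟨207,
  o⟩, ⟨206, o⟩), (⟨206, o⟩, ⟨206, o⟩), (⟨207, o⟩, ⟨206, o⟩), (⟨206, o⟩, ⟨206, o⟩), (⟨207, o⟩,
  ⟨206, o⟩), (⟨206, o⟩, ⟨206, o⟩), (⟨207, o⟩, ⟨206, o⟩), (⟨206, o⟩, ⟨206, o⟩), (⟨207, o⟩, ⟨206,
  o⟩), (⟨206, o⟩, ⟨206, o⟩), (⟨207, o⟩, ⟨206, o⟩)]))))) (.cl 2 [⟨68, o⟩, ⟨59, o⟩, ⟨59, o⟩, ⟨59,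
  o⟩, ⟨68, o⟩, ⟨53, o⟩])) (.p1 114 116 110 112 190 197 108 129 true true 140 196 [(⟨150, (.nd 2 o
  o)⟩, ⟨142, o⟩), (⟨142, o⟩, ⟨142, o⟩), (⟨137, o⟩, ⟨135, o⟩), (⟨142, o⟩, ⟨142, o⟩), (⟨150, (.nd 2
  o o)⟩, ⟨142, o⟩), (⟨137, o⟩, ⟨135, o⟩), (z, ⟨137, o⟩), (z, ⟨137, o⟩), (z, ⟨134, o⟩)])) (.sa 572
  (.cl 2 [⟨68, o⟩, ⟨59, o⟩, ⟨59, o⟩, ⟨59, o⟩, ⟨68, o⟩, ⟨53, o⟩]) (.p2 144 133 ⟨117, 8, ⟨4, 1009,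
  -8⟩, ⟨1, 1000, 0⟩, ⟨55, (.lf [0, 1])⟩, ⟨101, (.lf [64, -325])⟩, ⟨97, (.lf [0, 1])⟩⟩ ⟨129, 60,
  ⟨1853, -1852, 0⟩, ⟨1551, -1550, 0⟩, ⟨56, (.lf [0, 1])⟩, ⟨101, (.lf [4, -31])⟩, ⟨101, o⟩⟩
  [(⟨204, o⟩, ⟨203, o⟩), (⟨205, o⟩, ⟨204, o⟩), (⟨204, o⟩, ⟨204, o⟩), (⟨205, o⟩, ⟨204, o⟩), (⟨204,
  o⟩, ⟨204, o⟩), (⟨205, o⟩, ⟨204, o⟩), (⟨204, o⟩, ⟨204, o⟩), (⟨205, o⟩, ⟨204, o⟩), (⟨204, o⟩,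
  ⟨203, o⟩), (⟨205, o⟩, ⟨204, o⟩), (⟨204, o⟩, ⟨204, o⟩), (⟨205, o⟩, ⟨204, o⟩), (⟨204, o⟩, ⟨204,
  o⟩), (⟨205, o⟩, ⟨204, o⟩), (⟨204, o⟩, ⟨204, o⟩), (⟨205, o⟩, ⟨204, o⟩)]))))

theorem ci3_14 : Cov2 pi3 Ri
    ⟨561, 580, 540, 558⟩ ⟨190, 200, 108, 129, 100, 0, 100, 0⟩ :=
  CT.sound pi3 ci cl_i ti3_14 _ _ (by decide +kernel)

noncomputable def ti3_15 : CT :=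
  (.p1 116 120 108 112 190 200 0 129 true false 142 164 [(⟨149, (.nd 2 o o)⟩, ⟨141, o⟩), (⟨149,
  (.nd 2 o o)⟩, ⟨141, o⟩), (z, ⟨136, o⟩)])

theorem ci3_15 : Cov2 pi3 Ri
    ⟨580, 600, 540, 558⟩ ⟨190, 200, 0, 129, 100, 0, 100, 0⟩ :=
  CT.sound pi3 ci cl_i ti3_15 _ _ (by decide +kernel)

noncomputable def ti3_16 : CT :=
  (.sa 580 (.sx 197 (.st 550 (.p1 112 116 108 110 190 197 129 158 true true 160 184 [(⟨142, o⟩,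
  ⟨142, o⟩), (⟨142, o⟩, ⟨142, o⟩), (⟨137, o⟩, ⟨135, o⟩), (⟨142, o⟩, ⟨142, o⟩), (⟨142, o⟩, ⟨142,
  o⟩), (⟨137, o⟩, ⟨135, o⟩), (z, ⟨137, o⟩), (z, ⟨137, o⟩), (z, ⟨134, o⟩)]) (.sa 570 (.sx 196 (.sa
  562 (.cl 1 [⟨68, o⟩, ⟨58, o⟩, ⟨59, o⟩, ⟨59, o⟩, ⟨67, o⟩, ⟨53, o⟩]) (.sy 149 (.st 554 (.p2 156
  216 ⟨130, 9, ⟨13, 1031, -28⟩, ⟨5, 1012, -10⟩, ⟨55, (.lf [0, 1])⟩, ⟨101, (.lf [64, -339])⟩, ⟨97,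
  (.lf [0, 1])⟩⟩ ⟨112, 59, ⟨2248, -2114, -1124⟩, ⟨1489, -1406, -405⟩, ⟨56, (.lf [0, 1])⟩, ⟨115,
  (.nd 3 (.nd 3 (.nd 3 (.lf [1, -4]) (.lf [1, -8])) o) (.nd 3 (.nd 3 (.lf [1, -512]) (.lf [1,
  -10])) (.lf [1, -64])))⟩, ⟨101, (.lf [0, 1])⟩⟩ [(⟨214, (.nd 2 o o)⟩, ⟨206, o⟩), (⟨207, o⟩,
  ⟨207, o⟩), (⟨206, o⟩, ⟨206, o⟩), (⟨207, o⟩, ⟨207, o⟩), (⟨206, o⟩, ⟨206, o⟩), (⟨207, o⟩, ⟨207,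
  o⟩), (⟨206, o⟩, ⟨206, o⟩), (⟨207, o⟩, ⟨207, o⟩), (⟨206, o⟩, ⟨206, o⟩), (⟨207, o⟩, ⟨207, o⟩),
  (⟨206, o⟩, ⟨206, o⟩), (⟨207, o⟩, ⟨207, o⟩), (⟨206, o⟩, ⟨206, o⟩), (⟨207, o⟩, ⟨207, o⟩), (⟨206,
  o⟩, ⟨206, o⟩), (⟨207, o⟩, ⟨207, o⟩)]) (.sx 195 (.sa 563 (.cl 1 [⟨68, o⟩, ⟨58, o⟩, ⟨59, o⟩, ⟨59,
  o⟩, ⟨67, o⟩, ⟨53, o⟩]) (.st 556 (.p2 155 227 ⟨298, 4, ⟨12, 1031, -27⟩, ⟨7, 1015, -13⟩, ⟨55,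
  (.lf [0, 1])⟩, ⟨103, (.lf [256, -1365])⟩, ⟨97, (.lf [0, 1])⟩⟩ ⟨108, 60, ⟨2210, -2073, -1084⟩,
  ⟨1481, -1397, -397⟩, ⟨56, (.lf [0, 1])⟩, ⟨113, (.nd 3 (.nd 3 (.nd 3 (.lf [4, -30]) (.lf [1,
  -8])) o) (.nd 3 (.nd 3 (.lf [1, -128]) (.lf [1, -10])) (.lf [1, -64])))⟩, ⟨101, (.lf [0, 1])⟩⟩
  [(⟨222, (.nd 3 (.nd 2 o (.lf [1, 0, -4])) (.lf [1, 0, -2]))⟩, ⟨207, o⟩), (⟨212, (.lf [1, 0,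
  -8])⟩, ⟨208, o⟩), (⟨211, (.lf [1, 0, -8])⟩, ⟨207, o⟩), (⟨211, (.lf [1, 0, -8])⟩, ⟨208, o⟩),
  (⟨208, o⟩, ⟨207, o⟩), (⟨209, o⟩, ⟨208, o⟩), (⟨208, o⟩, ⟨207, o⟩), (⟨208, o⟩, ⟨208, o⟩), (⟨218,
  (.nd 2 o (.lf [1, 0, -4]))⟩, ⟨207, o⟩), (⟨211, (.lf [1, 0, -4])⟩, ⟨208, o⟩), (⟨223, (.nd 3 (.nd
  2 o (.lf [1, 0, -4])) (.lf [1, 0, -4]))⟩, ⟨207, o⟩), (⟨211, (.lf [1, 0, -8])⟩, ⟨208, o⟩),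
  (⟨208, o⟩, ⟨207, o⟩), (⟨209, o⟩, ⟨208, o⟩), (⟨208, o⟩, ⟨207, o⟩), (⟨208, o⟩, ⟨208, o⟩)]) (.sa
  564 (.cl 1 [⟨68, o⟩, ⟨58, o⟩, ⟨59, o⟩, ⟨59, o⟩, ⟨67, o⟩, ⟨53, o⟩]) (.p2 155 210 ⟨319, 4, ⟨12,
  1031, -27⟩, ⟨7, 1015, -13⟩, ⟨55, (.lf [0, 1])⟩, ⟨103, (.lf [256, -1365])⟩, ⟨97, (.lf [0, 1])⟩⟩
  ⟨116, 56, ⟨2184, -2046, -1056⟩, ⟨1476, -1391, -391⟩, ⟨56, (.lf [0, 1])⟩, ⟨112, (.nd 3 (.nd 3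
  (.lf [64, -497]) o) (.nd 3 (.nd 3 (.lf [1, -128]) (.lf [1, -10])) (.lf [1, -64])))⟩, ⟨101, (.lf
  [0, 1])⟩⟩ [(⟨228, (.nd 3 (.nd 2 (.nd 2 o o) (.lf [4, 0, -2])) (.lf [1, 0, -1]))⟩, ⟨207, o⟩),
  (⟨210, (.lf [1, 0, -4])⟩, ⟨208, o⟩), (⟨209, (.lf [1, 0, -4])⟩, ⟨207, o⟩), (⟨211, (.lf [1, 0,
  -8])⟩, ⟨208, o⟩), (⟨207, o⟩, ⟨207, o⟩), (⟨208, o⟩, ⟨208, o⟩), (⟨207, o⟩, ⟨207, o⟩), (⟨208, o⟩,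
  ⟨208, o⟩), (⟨217, (.nd 2 o (.lf [1, 0, -2]))⟩, ⟨207, o⟩), (⟨210, (.lf [1, 0, -4])⟩, ⟨208, o⟩),
  (⟨221, (.nd 3 (.nd 2 o (.lf [1, 0, -2])) (.lf [1, 0, -4]))⟩, ⟨207, o⟩), (⟨210, (.lf [1, 0,
  -5])⟩, ⟨208, o⟩), (⟨207, o⟩, ⟨207, o⟩), (⟨208, o⟩, ⟨208, o⟩), (⟨207, o⟩, ⟨207, o⟩), (⟨208, o⟩,
  ⟨208, o⟩)])))) (.cl 2 [⟨68, o⟩, ⟨59, o⟩, ⟨59, o⟩, ⟨59, o⟩, ⟨68, o⟩, ⟨53, o⟩]))) (.p2 167 196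
  ⟨146, 8, ⟨12, 1031, -27⟩, ⟨5, 1012, -10⟩, ⟨55, (.lf [0, 1])⟩, ⟨100, (.nd 3 (.lf [4, -21]) (.lf
  [1, -16]))⟩, ⟨97, (.lf [0, 1])⟩⟩ ⟨128, 42, ⟨1485, -1401, -401⟩, ⟨1336, -1271, -270⟩, ⟨56, (.lf
  [0, 1])⟩, ⟨108, (.nd 3 (.nd 3 (.nd 3 (.lf [1, -7]) (.lf [1, -8])) o) (.lf [1, -64]))⟩, ⟨101,
  (.lf [0, 1])⟩⟩ [(⟨214, (.nd 2 o o)⟩, ⟨206, o⟩), (⟨207, o⟩, ⟨206, o⟩), (⟨206, o⟩, ⟨206, o⟩),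
  (⟨206, o⟩, ⟨206, o⟩), (⟨206, o⟩, ⟨206, o⟩), (⟨207, o⟩, ⟨207, o⟩), (⟨206, o⟩, ⟨206, o⟩), (⟨207,
  o⟩, ⟨207, o⟩), (⟨214, (.nd 2 o o)⟩, ⟨206, o⟩), (⟨207, o⟩, ⟨207, o⟩), (⟨214, (.nd 2 o o)⟩, ⟨206,
  o⟩), (⟨207, o⟩, ⟨206, o⟩), (⟨206, o⟩, ⟨206, o⟩), (⟨207, o⟩, ⟨207, o⟩), (⟨206, o⟩, ⟨206, o⟩),
  (⟨207, o⟩, ⟨207, o⟩)]))) (.cl 2 [⟨68, o⟩, ⟨59, o⟩, ⟨59, o⟩, ⟨59, o⟩, ⟨68, o⟩, ⟨53, o⟩])) (.p2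
  160 242 ⟨91, 15, ⟨13, 1032, -29⟩, ⟨4, 1009, -8⟩, ⟨55, (.lf [0, 1])⟩, ⟨106, (.nd 3 (.lf [256,
  -1330]) (.lf [1, -16]))⟩, ⟨97, (.lf [0, 1])⟩⟩ ⟨111, 58, ⟨2141, -2004, -1005⟩, ⟨1324, -1260,
  -256⟩, ⟨56, (.lf [0, 1])⟩, ⟨112, (.nd 3 (.nd 3 (.nd 3 (.lf [1, -7]) (.lf [1, -8])) o) (.nd 3
  (.nd 3 (.lf [1, -128]) (.lf [2, -19])) (.lf [1, -64])))⟩, ⟨101, (.lf [0, 1])⟩⟩ [(⟨214, (.nd 2 o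
  o)⟩, ⟨206, o⟩), (⟨207, o⟩, ⟨207, o⟩), (⟨206, o⟩, ⟨206, o⟩), (⟨207, o⟩, ⟨207, o⟩), (⟨206, o⟩,
  ⟨206, o⟩), (⟨207, o⟩, ⟨207, o⟩), (⟨206, o⟩, ⟨206, o⟩), (⟨207, o⟩, ⟨207, o⟩), (⟨214, (.nd 2 o
  o)⟩, ⟨206, o⟩), (⟨207, o⟩, ⟨207, o⟩), (⟨214, (.nd 2 o o)⟩, ⟨206, o⟩), (⟨207, o⟩, ⟨207, o⟩),
  (⟨206, o⟩, ⟨206, o⟩), (⟨207, o⟩, ⟨207, o⟩), (⟨206, o⟩, ⟨206, o⟩), (⟨207, o⟩, ⟨207, o⟩)]))) (.sa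
  569 (.cl 2 [⟨68, o⟩, ⟨59, o⟩, ⟨59, o⟩, ⟨59, o⟩, ⟨68, o⟩, ⟨53, o⟩]) (.sx 199 (.p2 163 168 ⟨169,
  7, ⟨4, 1009, -8⟩, ⟨2, 1003, -3⟩, ⟨55, (.lf [0, 1])⟩, ⟨103, (.lf [256, -1302])⟩, ⟨97, (.lf [0,
  1])⟩⟩ ⟨129, 52, ⟨2198, -2065, -1064⟩, ⟨1332, -1268, -264⟩, ⟨56, (.lf [0, 1])⟩, ⟨110, (.nd 3
  (.nd 3 (.lf [16, -113]) o) (.nd 3 (.nd 3 (.lf [2, -21]) (.lf [2, -19])) (.lf [1, -64])))⟩,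
  ⟨101, (.lf [0, 1])⟩⟩ [(⟨205, o⟩, ⟨205, o⟩), (⟨207, o⟩, ⟨206, o⟩), (⟨206, o⟩, ⟨205, o⟩), (⟨206,
  o⟩, ⟨206, o⟩), (⟨206, o⟩, ⟨205, o⟩), (⟨207, o⟩, ⟨206, o⟩), (⟨206, o⟩, ⟨205, o⟩), (⟨206, o⟩,
  ⟨206, o⟩), (⟨206, o⟩, ⟨205, o⟩), (⟨207, o⟩, ⟨206, o⟩), (⟨206, o⟩, ⟨205, o⟩), (⟨206, o⟩, ⟨206,
  o⟩), (⟨206, o⟩, ⟨205, o⟩), (⟨207, o⟩, ⟨206, o⟩), (⟨206, o⟩, ⟨205, o⟩), (⟨206, o⟩, ⟨206, o⟩)])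
  (.sa 572 (.cl 2 [⟨68, o⟩, ⟨59, o⟩, ⟨59, o⟩, ⟨59, o⟩, ⟨68, o⟩, ⟨53, o⟩]) (.p1 114 116 108 112
  199 200 129 158 true false 170 128 [(⟨141, o⟩, ⟨141, o⟩), (⟨141, o⟩, ⟨141, o⟩), (z, ⟨137,
  o⟩)]))))) (.p2 163 187 ⟨118, 18, ⟨13, 1035, -32⟩, ⟨1, 1000, 0⟩, ⟨55, (.lf [0, 1])⟩, ⟨107, (.nd
  3 (.nd 3 (.lf [1, -32]) (.lf [64, -325])) (.lf [1, -16]))⟩, ⟨97, (.lf [0, 1])⟩⟩ ⟨129, 50,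
  ⟨2063, -1928, -913⟩, ⟨1312, -1249, -241⟩, ⟨56, (.lf [0, 1])⟩, ⟨113, (.nd 3 (.nd 3 (.nd 3 (.lf
  [1, -7]) (.lf [2, -17])) (.lf [4, -26])) (.nd 3 (.nd 3 (.lf [1, -256]) (.lf [2, -19])) (.lf [1,
  -64])))⟩, ⟨101, (.lf [0, 1])⟩⟩ [(⟨205, o⟩, ⟨205, o⟩), (⟨206, o⟩, ⟨206, o⟩), (⟨205, o⟩, ⟨205,
  o⟩), (⟨206, o⟩, ⟨206, o⟩), (⟨206, o⟩, ⟨205, o⟩), (⟨207, o⟩, ⟨206, o⟩), (⟨206, o⟩, ⟨205, o⟩),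
  (⟨206, o⟩, ⟨206, o⟩), (⟨205, o⟩, ⟨205, o⟩), (⟨206, o⟩, ⟨206, o⟩), (⟨205, o⟩, ⟨205, o⟩), (⟨206,
  o⟩, ⟨206, o⟩), (⟨205, o⟩, ⟨205, o⟩), (⟨207, o⟩, ⟨206, o⟩), (⟨206, o⟩, ⟨205, o⟩), (⟨206, o⟩,
  ⟨206, o⟩)]))

theorem ci3_16 : Cov2 pi3 Ri
    ⟨561, 600, 540, 558⟩ ⟨190, 200, 129, 158, 100, 0, 100, 0⟩ :=
  CT.sound pi3 ci cl_i ti3_16 _ _ (by decide +kernel)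

noncomputable def ti3_17 : CT :=
  (.p1 110 120 108 112 152 166 158 187 true true 160 200 [(⟨142, o⟩, ⟨142, o⟩), (⟨142, o⟩, ⟨142,
  o⟩), (⟨137, o⟩, ⟨135, o⟩), (⟨142, o⟩, ⟨142, o⟩), (⟨142, o⟩, ⟨142, o⟩), (⟨137, o⟩, ⟨135, o⟩),
  (z, ⟨137, o⟩), (z, ⟨137, o⟩), (z, ⟨134, o⟩)])

theorem ci3_17 : Cov2 pi3 Ri
    ⟨552, 600, 540, 558⟩ ⟨152, 166, 158, 187, 100, 0, 100, 0⟩ :=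
  CT.sound pi3 ci cl_i ti3_17 _ _ (by decide +kernel)

noncomputable def ti3_18 : CT :=
  (.sa 575 (.sx 178 (.p2 166 244 ⟨189, 16, ⟨45, 1145, -129⟩, ⟨28, 1080, -71⟩, ⟨55, (.lf [0, 1])⟩,
  ⟨107, (.nd 3 (.nd 3 (.lf [1, -64]) (.nd 3 (.lf [1, -6]) (.lf [4, -23]))) (.lf [1, -32]))⟩, ⟨97,
  (.lf [0, 1])⟩⟩ ⟨130, 41, ⟨1347, -1283, -282⟩, ⟨1072, -1055, -54⟩, ⟨56, (.lf [0, 1])⟩, ⟨109,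
  (.nd 3 (.nd 3 (.nd 3 (.lf [4, -25]) (.lf [4, -26])) (.lf [16, -86])) (.lf [1, -64]))⟩, ⟨100,
  (.lf [0, 1])⟩⟩ [(⟨207, o⟩, ⟨207, o⟩), (⟨208, o⟩, ⟨208, o⟩), (⟨207, o⟩, ⟨207, o⟩), (⟨208, o⟩,
  ⟨208, o⟩), (⟨208, o⟩, ⟨207, o⟩), (⟨208, o⟩, ⟨208, o⟩), (⟨208, o⟩, ⟨207, o⟩), (⟨208, o⟩, ⟨208,
  o⟩), (⟨207, o⟩, ⟨207, o⟩), (⟨208, o⟩, ⟨208, o⟩), (⟨207, o⟩, ⟨207, o⟩), (⟨208, o⟩, ⟨208, o⟩),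
  (⟨207, o⟩, ⟨207, o⟩), (⟨208, o⟩, ⟨208, o⟩), (⟨208, o⟩, ⟨207, o⟩), (⟨208, o⟩, ⟨208, o⟩)]) (.sa
  565 (.st 550 (.p2 176 172 ⟨319, 7, ⟨27, 1080, -70⟩, ⟨12, 1032, -27⟩, ⟨55, (.lf [0, 1])⟩, ⟨109,
  (.nd 3 (.nd 3 (.lf [1, -32]) (.nd 3 (.lf [1, -128]) (.lf [16, -86]))) (.lf [1, -16]))⟩, ⟨97,
  (.lf [0, 1])⟩⟩ ⟨165, 32, ⟨1361, -1297, -297⟩, ⟨1075, -1057, -57⟩, ⟨56, (.lf [0, 1])⟩, ⟨108,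
  (.nd 3 (.nd 3 (.lf [16, -101]) (.lf [16, -86])) (.lf [1, -64]))⟩, ⟨100, (.lf [0, 1])⟩⟩ [(⟨206,
  o⟩, ⟨206, o⟩), (⟨207, o⟩, ⟨207, o⟩), (⟨207, (.lf [1, 0, -1])⟩, ⟨206, o⟩), (⟨209, (.lf [1, 0,
  -4])⟩, ⟨207, o⟩), (⟨207, o⟩, ⟨206, o⟩), (⟨207, o⟩, ⟨207, o⟩), (⟨207, o⟩, ⟨206, o⟩), (⟨207, o⟩,
  ⟨207, o⟩), (⟨206, o⟩, ⟨206, o⟩), (⟨207, o⟩, ⟨207, o⟩), (⟨208, (.lf [1, 0, -2])⟩, ⟨206, o⟩),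
  (⟨210, (.lf [1, 0, -8])⟩, ⟨207, o⟩), (⟨207, o⟩, ⟨206, o⟩), (⟨207, o⟩, ⟨207, o⟩), (⟨207, o⟩,
  ⟨206, o⟩), (⟨207, o⟩, ⟨207, o⟩)]) (.sx 184 (.p2 170 223 ⟨211, 9, ⟨28, 1076, -67⟩, ⟨20, 1052,
  -45⟩, ⟨55, (.lf [0, 1])⟩, ⟨102, (.nd 3 (.lf [16, -91]) (.lf [1, -16]))⟩, ⟨97, (.lf [0, 1])⟩⟩
  ⟨141, 36, ⟨1347, -1281, -283⟩, ⟨1073, -1055, -55⟩, ⟨56, (.lf [0, 1])⟩, ⟨108, (.nd 3 (.nd 3 (.lf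
  [16, -102]) (.lf [16, -86])) (.lf [1, -64]))⟩, ⟨100, (.lf [0, 1])⟩⟩ [(⟨207, o⟩, ⟨207, o⟩),
  (⟨208, o⟩, ⟨208, o⟩), (⟨207, o⟩, ⟨207, o⟩), (⟨208, o⟩, ⟨208, o⟩), (⟨207, o⟩, ⟨207, o⟩), (⟨208,
  o⟩, ⟨208, o⟩), (⟨207, o⟩, ⟨207, o⟩), (⟨208, o⟩, ⟨208, o⟩), (⟨215, (.nd 2 o o)⟩, ⟨207, o⟩),
  (⟨208, o⟩, ⟨208, o⟩), (⟨207, o⟩, ⟨207, o⟩), (⟨208, o⟩, ⟨208, o⟩), (⟨215, (.nd 2 o o)⟩, ⟨207,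
  o⟩), (⟨208, o⟩, ⟨208, o⟩), (⟨207, o⟩, ⟨207, o⟩), (⟨208, o⟩, ⟨208, o⟩)]) (.sa 555 (.cl 1 [⟨68,
  o⟩, ⟨58, o⟩, ⟨59, o⟩, ⟨59, o⟩, ⟨67, o⟩, ⟨53, o⟩]) (.sy 173 (.sa 560 (.sx 188 (.p2 168 202 ⟨230,
  6, ⟨20, 1051, -45⟩, ⟨15, 1037, -32⟩, ⟨55, (.lf [0, 1])⟩, ⟨100, (.nd 3 (.lf [4, -22]) (.lf [1,
  -16]))⟩, ⟨97, (.lf [0, 1])⟩⟩ ⟨144, 35, ⟨1348, -1283, -284⟩, ⟨1178, -1139, -139⟩, ⟨56, (.lf [0,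
  1])⟩, ⟨112, (.nd 3 (.nd 3 (.nd 3 (.lf [4, -26]) (.lf [1, -128])) o) (.lf [1, -32]))⟩, ⟨101,
  (.lf [0, 1])⟩⟩ [(⟨207, o⟩, ⟨206, o⟩), (⟨207, o⟩, ⟨207, o⟩), (⟨207, o⟩, ⟨207, o⟩), (⟨207, o⟩,
  ⟨207, o⟩), (⟨207, o⟩, ⟨207, o⟩), (⟨207, o⟩, ⟨207, o⟩), (⟨207, o⟩, ⟨207, o⟩), (⟨207, o⟩, ⟨207,
  o⟩), (⟨214, (.nd 2 o o)⟩, ⟨207, o⟩), (⟨207, o⟩, ⟨207, o⟩), (⟨207, o⟩, ⟨207, o⟩), (⟨207, o⟩,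
  ⟨207, o⟩), (⟨207, o⟩, ⟨207, o⟩), (⟨207, o⟩, ⟨207, o⟩), (⟨207, o⟩, ⟨207, o⟩), (⟨207, o⟩, ⟨207,
  o⟩)]) (.cl 1 [⟨68, o⟩, ⟨58, o⟩, ⟨59, o⟩, ⟨59, o⟩, ⟨67, o⟩, ⟨53, o⟩])) (.p1 112 113 110 112 184
  190 158 173 true true 168 164 [(⟨142, o⟩, ⟨142, o⟩), (⟨142, o⟩, ⟨142, o⟩), (⟨137, o⟩, ⟨135,
  o⟩), (⟨158, (.nd 2 (.nd 2 o o) o)⟩, ⟨142, o⟩), (⟨150, (.nd 2 o o)⟩, ⟨147, (.nd 3 o o)⟩), (⟨137,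
  o⟩, ⟨135, o⟩), (z, ⟨137, o⟩), (z, ⟨146, (.nd 3 (.nd 3 o o) o)⟩), (z, ⟨134, o⟩)])) (.p2 180 222
  ⟨185, 8, ⟨20, 1052, -46⟩, ⟨13, 1030, -27⟩, ⟨55, (.lf [0, 1])⟩, ⟨100, (.nd 3 (.lf [4, -22]) (.lf
  [1, -16]))⟩, ⟨97, (.lf [0, 1])⟩⟩ ⟨129, 31, ⟨1177, -1138, -138⟩, ⟨1072, -1054, -54⟩, ⟨56, (.lf
  [0, 1])⟩, ⟨108, (.nd 3 (.nd 3 (.lf [1, -6]) (.lf [16, -86])) (.lf [1, -32]))⟩, ⟨100, (.lf [0,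
  1])⟩⟩ [(⟨207, o⟩, ⟨207, o⟩), (⟨207, o⟩, ⟨207, o⟩), (⟨207, o⟩, ⟨207, o⟩), (⟨207, o⟩, ⟨207, o⟩),
  (⟨207, o⟩, ⟨207, o⟩), (⟨208, o⟩, ⟨207, o⟩), (⟨207, o⟩, ⟨207, o⟩), (⟨207, o⟩, ⟨207, o⟩), (⟨207,
  o⟩, ⟨207, o⟩), (⟨207, o⟩, ⟨207, o⟩), (⟨207, o⟩, ⟨207, o⟩), (⟨207, o⟩, ⟨207, o⟩), (⟨207, o⟩,
  ⟨207, o⟩), (⟨208, o⟩, ⟨207, o⟩), (⟨207, o⟩, ⟨207, o⟩), (⟨207, o⟩, ⟨207, o⟩)]))))) (.p2 176 185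
  ⟨240, 10, ⟨28, 1082, -73⟩, ⟨13, 1032, -29⟩, ⟨55, (.lf [0, 1])⟩, ⟨109, (.nd 3 (.nd 3 (.lf [1,
  -32]) (.lf [256, -1390])) (.lf [1, -16]))⟩, ⟨97, (.lf [0, 1])⟩⟩ ⟨158, 32, ⟨1338, -1274, -271⟩,
  ⟨1071, -1054, -53⟩, ⟨56, (.lf [0, 1])⟩, ⟨110, (.nd 3 (.nd 3 (.lf [64, -405]) (.lf [16, -86]))
  (.lf [1, -64]))⟩, ⟨100, (.lf [0, 1])⟩⟩ [(⟨206, o⟩, ⟨206, o⟩), (⟨207, o⟩, ⟨207, o⟩), (⟨206, o⟩,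
  ⟨206, o⟩), (⟨207, o⟩, ⟨207, o⟩), (⟨207, o⟩, ⟨206, o⟩), (⟨207, o⟩, ⟨207, o⟩), (⟨207, o⟩, ⟨207,
  o⟩), (⟨207, o⟩, ⟨207, o⟩), (⟨206, o⟩, ⟨206, o⟩), (⟨207, o⟩, ⟨207, o⟩), (⟨206, o⟩, ⟨206, o⟩),
  (⟨208, (.lf [1, 0, -1])⟩, ⟨207, o⟩), (⟨206, o⟩, ⟨206, o⟩), (⟨207, o⟩, ⟨207, o⟩), (⟨207, o⟩,
  ⟨206, o⟩), (⟨207, o⟩, ⟨207, o⟩)]))) (.p1 115 120 108 112 166 190 158 187 true true 176 200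
  [(⟨150, (.nd 2 o o)⟩, ⟨150, (.nd 2 o o)⟩), (⟨142, o⟩, ⟨142, o⟩), (⟨138, o⟩, ⟨135, o⟩), (⟨142,
  o⟩, ⟨142, o⟩), (⟨142, o⟩, ⟨147, (.nd 3 o o)⟩), (⟨138, o⟩, ⟨135, o⟩), (z, ⟨142, (.nd 3 o o)⟩),
  (z, ⟨142, (.nd 3 o o)⟩), (z, ⟨135, o⟩)]))

theorem ci3_18 : Cov2 pi3 Ri
    ⟨552, 600, 540, 558⟩ ⟨166, 190, 158, 187, 100, 0, 100, 0⟩ :=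
  CT.sound pi3 ci cl_i ti3_18 _ _ (by decide +kernel)

noncomputable def ti3_19 : CT :=
  (.sa 561 (.cl 1 [⟨68, o⟩, ⟨58, o⟩, ⟨59, o⟩, ⟨59, o⟩, ⟨67, o⟩, ⟨53, o⟩]) (.sy 173 (.sa 580 (.sa
  570 (.sx 198 (.st 550 (.p1 112 114 108 110 190 198 158 173 true true 180 164 [(⟨142, o⟩, ⟨142,
  o⟩), (⟨142, o⟩, ⟨142, o⟩), (⟨137, o⟩, ⟨135, o⟩), (⟨142, o⟩, ⟨142, o⟩), (⟨142, o⟩, ⟨142, o⟩),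
  (⟨137, o⟩, ⟨135, o⟩), (z, ⟨137, o⟩), (z, ⟨137, o⟩), (z, ⟨134, o⟩)]) (.sx 196 (.sa 562 (.cl 1
  [⟨68, o⟩, ⟨58, o⟩, ⟨59, o⟩, ⟨59, o⟩, ⟨67, o⟩, ⟨53, o⟩]) (.p2 175 225 ⟨107, 11, ⟨12, 1031, -27⟩,
  ⟨5, 1012, -10⟩, ⟨55, (.lf [0, 1])⟩, ⟨100, (.nd 3 (.lf [4, -21]) (.lf [1, -16]))⟩, ⟨97, (.lf [0,
  1])⟩⟩ ⟨119, 40, ⟨1336, -1271, -270⟩, ⟨1172, -1134, -133⟩, ⟨56, (.lf [0, 1])⟩, ⟨110, (.nd 3 (.nd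
  3 (.lf [64, -426]) (.lf [16, -94])) (.lf [1, -32]))⟩, ⟨101, (.lf [0, 1])⟩⟩ [(⟨214, (.nd 2 o
  o)⟩, ⟨206, o⟩), (⟨207, o⟩, ⟨207, o⟩), (⟨206, o⟩, ⟨206, o⟩), (⟨207, o⟩, ⟨207, o⟩), (⟨206, o⟩,
  ⟨206, o⟩), (⟨207, o⟩, ⟨207, o⟩), (⟨206, o⟩, ⟨206, o⟩), (⟨207, o⟩, ⟨207, o⟩), (⟨214, (.nd 2 o
  o)⟩, ⟨206, o⟩), (⟨207, o⟩, ⟨207, o⟩), (⟨206, o⟩, ⟨206, o⟩), (⟨207, o⟩, ⟨207, o⟩), (⟨206, o⟩,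
  ⟨206, o⟩), (⟨207, o⟩, ⟨207, o⟩), (⟨206, o⟩, ⟨206, o⟩), (⟨207, o⟩, ⟨207, o⟩)])) (.cl 2 [⟨68, o⟩,
  ⟨59, o⟩, ⟨59, o⟩, ⟨59, o⟩, ⟨68, o⟩, ⟨53, o⟩]))) (.cl 2 [⟨68, o⟩, ⟨59, o⟩, ⟨59, o⟩, ⟨59, o⟩,
  ⟨68, o⟩, ⟨53, o⟩])) (.p1 114 116 108 112 190 200 158 173 true true 180 172 [(⟨150, (.nd 2 o
  o)⟩, ⟨142, o⟩), (⟨142, o⟩, ⟨142, o⟩), (⟨138, o⟩, ⟨135, o⟩), (⟨150, (.nd 2 o o)⟩, ⟨147, (.nd 3 o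
  o)⟩), (⟨142, o⟩, ⟨147, (.nd 3 o o)⟩), (⟨138, o⟩, ⟨135, o⟩), (z, ⟨142, (.nd 3 o o)⟩), (z, ⟨142,
  (.nd 3 o o)⟩), (z, ⟨134, o⟩)])) (.p1 116 120 108 112 190 200 158 173 true true 180 160 [(⟨142,
  o⟩, ⟨142, o⟩), (⟨142, o⟩, ⟨142, o⟩), (⟨137, o⟩, ⟨135, o⟩), (⟨142, o⟩, ⟨142, o⟩), (⟨142, o⟩,
  ⟨142, o⟩), (⟨138, o⟩, ⟨135, o⟩), (z, ⟨137, o⟩), (z, ⟨137, o⟩), (z, ⟨135, o⟩)])) (.sa 580 (.sa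
  570 (.sx 198 (.p2 186 240 ⟨143, 10, ⟨12, 1032, -28⟩, ⟨3, 1006, -5⟩, ⟨55, (.lf [0, 1])⟩, ⟨104,
  (.nd 3 (.lf [64, -333]) (.lf [1, -16]))⟩, ⟨97, (.lf [0, 1])⟩⟩ ⟨111, 37, ⟨1176, -1138, -137⟩,
  ⟨1072, -1055, -54⟩, ⟨56, (.lf [0, 1])⟩, ⟨110, (.nd 3 (.nd 3 (.lf [1, -6]) (.lf [64, -346]))
  (.lf [1, -32]))⟩, ⟨100, (.lf [0, 1])⟩⟩ [(⟨207, o⟩, ⟨207, o⟩), (⟨208, o⟩, ⟨207, o⟩), (⟨207, o⟩,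
  ⟨207, o⟩), (⟨207, o⟩, ⟨207, o⟩), (⟨207, o⟩, ⟨207, o⟩), (⟨208, o⟩, ⟨208, o⟩), (⟨207, o⟩, ⟨207,
  o⟩), (⟨208, o⟩, ⟨207, o⟩), (⟨207, o⟩, ⟨207, o⟩), (⟨208, o⟩, ⟨207, o⟩), (⟨207, o⟩, ⟨207, o⟩),
  (⟨208, o⟩, ⟨207, o⟩), (⟨207, o⟩, ⟨207, o⟩), (⟨208, o⟩, ⟨207, o⟩), (⟨207, o⟩, ⟨207, o⟩), (⟨208,
  o⟩, ⟨207, o⟩)]) (.cl 2 [⟨68, o⟩, ⟨59, o⟩, ⟨59, o⟩, ⟨59, o⟩, ⟨68, o⟩, ⟨53, o⟩])) (.p1 114 116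
  108 112 190 200 173 187 true true 190 152 [(⟨142, o⟩, ⟨142, o⟩), (⟨142, o⟩, ⟨142, o⟩), (⟨138,
  o⟩, ⟨135, o⟩), (⟨142, o⟩, ⟨147, (.nd 3 o o)⟩), (⟨142, o⟩, ⟨142, o⟩), (⟨138, o⟩, ⟨135, o⟩), (z,
  ⟨142, (.nd 3 o o)⟩), (z, ⟨142, (.nd 3 o o)⟩), (z, ⟨135, o⟩)])) (.p1 116 120 108 112 190 200 173
  187 true true 192 152 [(⟨142, o⟩, ⟨142, o⟩), (⟨142, o⟩, ⟨142, o⟩), (⟨138, o⟩, ⟨135, o⟩), (⟨142,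
  o⟩, ⟨142, o⟩), (⟨142, o⟩, ⟨142, o⟩), (⟨138, o⟩, ⟨135, o⟩), (z, ⟨137, o⟩), (z, ⟨137, o⟩), (z,
  ⟨135, o⟩)]))))

theorem ci3_19 : Cov2 pi3 Ri
    ⟨552, 600, 540, 558⟩ ⟨190, 200, 158, 187, 100, 0, 100, 0⟩ :=
  CT.sound pi3 ci cl_i ti3_19 _ _ (by decide +kernel)

noncomputable def ti3_20 : CT :=
  (.sx 166 (.p1 110 120 108 112 152 166 187 200 false true 170 160 [(⟨141, o⟩, ⟨149, (.nd 2 o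
  o)⟩), (⟨141, o⟩, ⟨141, o⟩), (⟨137, o⟩, ⟨134, o⟩)]) (.sx 190 (.p2 187 163 ⟨202, 18, ⟨47, 1152,
  -139⟩, ⟨13, 1033, -30⟩, ⟨55, (.lf [0, 1])⟩, ⟨107, (.nd 3 (.nd 3 (.lf [1, -256]) (.nd 3 (.lf [4,
  -23]) (.lf [4, -21]))) (.lf [1, -32]))⟩, ⟨97, (.lf [0, 1])⟩⟩ ⟨181, 19, ⟨1070, -1053, -51⟩,
  ⟨1001, -1000, 0⟩, ⟨57, (.lf [0, 1])⟩, ⟨113, (.nd 3 (.nd 3 (.lf [1, -1024]) (.nd 3 (.lf [64,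
  -329]) (.lf [1, -5]))) (.lf [1, -32]))⟩, ⟨100, (.lf [0, 1])⟩⟩ [(⟨206, o⟩, ⟨206, o⟩), (⟨206, o⟩,
  ⟨206, o⟩), (⟨206, o⟩, ⟨206, o⟩), (⟨206, o⟩, ⟨206, o⟩), (⟨206, o⟩, ⟨206, o⟩), (⟨207, o⟩, ⟨207,
  o⟩), (⟨206, o⟩, ⟨206, o⟩), (⟨207, o⟩, ⟨207, o⟩), (⟨206, o⟩, ⟨206, o⟩), (⟨206, o⟩, ⟨206, o⟩),
  (⟨206, o⟩, ⟨206, o⟩), (⟨206, o⟩, ⟨206, o⟩), (⟨206, o⟩, ⟨206, o⟩), (⟨206, o⟩, ⟨207, o⟩), (⟨206,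
  o⟩, ⟨209, (.lf [8, 0, -2])⟩), (⟨206, o⟩, ⟨207, o⟩)]) (.sa 561 (.cl 1 [⟨68, o⟩, ⟨58, o⟩, ⟨59,
  o⟩, ⟨59, o⟩, ⟨67, o⟩, ⟨53, o⟩]) (.sx 193 (.p1 112 120 108 112 190 193 187 200 true true 192 144
  [(⟨142, o⟩, ⟨142, o⟩), (⟨142, o⟩, ⟨142, o⟩), (⟨138, o⟩, ⟨135, o⟩), (⟨142, o⟩, ⟨142, o⟩), (⟨142,
  o⟩, ⟨142, o⟩), (⟨138, o⟩, ⟨136, o⟩), (z, ⟨137, o⟩), (z, ⟨137, o⟩), (z, ⟨135, o⟩)]) (.sx 195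
  (.p1 112 120 108 112 193 195 187 200 true true 194 136 [(⟨142, o⟩, ⟨142, o⟩), (⟨142, o⟩, ⟨142,
  o⟩), (⟨138, o⟩, ⟨136, o⟩), (⟨142, o⟩, ⟨142, o⟩), (⟨142, o⟩, ⟨142, o⟩), (⟨138, o⟩, ⟨136, o⟩),
  (z, ⟨137, o⟩), (z, ⟨137, o⟩), (z, ⟨135, o⟩)]) (.sx 198 (.p2 197 177 ⟨125, 14, ⟨7, 1016, -14⟩,
  ⟨4, 1006, -6⟩, ⟨55, (.lf [0, 1])⟩, ⟨101, (.lf [64, -329])⟩, ⟨97, (.lf [0, 1])⟩⟩ ⟨151, 22,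
  ⟨1069, -1052, -50⟩, ⟨1001, -1000, 0⟩, ⟨57, (.lf [0, 1])⟩, ⟨111, (.nd 3 (.nd 3 (.lf [1, -128])
  (.nd 3 (.lf [16, -83]) (.lf [1, -5]))) (.lf [1, -16]))⟩, ⟨100, (.lf [0, 1])⟩⟩ [(⟨205, o⟩, ⟨206,
  o⟩), (⟨206, o⟩, ⟨206, o⟩), (⟨206, o⟩, ⟨206, o⟩), (⟨206, o⟩, ⟨206, o⟩), (⟨206, o⟩, ⟨206, o⟩),
  (⟨206, o⟩, ⟨206, o⟩), (⟨206, o⟩, ⟨206, o⟩), (⟨206, o⟩, ⟨206, o⟩), (⟨206, o⟩, ⟨206, o⟩), (⟨206,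
  o⟩, ⟨206, o⟩), (⟨206, o⟩, ⟨206, o⟩), (⟨206, o⟩, ⟨206, o⟩), (⟨206, o⟩, ⟨206, o⟩), (⟨206, o⟩,
  ⟨206, o⟩), (⟨206, o⟩, ⟨206, o⟩), (⟨206, o⟩, ⟨206, o⟩)]) (.sa 570 (.cl 2 [⟨68, o⟩, ⟨59, o⟩, ⟨59,
  o⟩, ⟨59, o⟩, ⟨68, o⟩, ⟨53, o⟩]) (.sy 194 (.p1 114 120 108 112 198 200 187 194 true true 196 120
  [(⟨141, o⟩, ⟨142, o⟩), (⟨141, o⟩, ⟨142, o⟩), (⟨138, o⟩, ⟨136, o⟩), (⟨141, o⟩, ⟨142, o⟩), (⟨141,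
  o⟩, ⟨142, o⟩), (⟨138, o⟩, ⟨136, o⟩), (z, ⟨137, o⟩), (z, ⟨137, o⟩), (z, ⟨135, o⟩)]) (.p2 200 398
  ⟨61, 26, ⟨4, 1006, -6⟩, ⟨0, 1000, 0⟩, ⟨55, (.lf [0, 1])⟩, ⟨99, (.nd 3 (.lf [1, -5]) (.lf [1,
  -16]))⟩, ⟨97, (.lf [0, 1])⟩⟩ ⟨77, 33, ⟨1030, -1022, -21⟩, ⟨1000, -1000, 0⟩, ⟨56, (.lf [0, 1])⟩,
  ⟨118, (.nd 3 (.nd 3 (.lf [1, -32]) (.nd 3 (.nd 3 (.lf [1, -5]) (.lf [1, -2048])) (.lf [1,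
  -5]))) (.lf [1, -16]))⟩, ⟨100, (.lf [0, 1])⟩⟩ [(⟨208, o⟩, ⟨208, o⟩), (⟨209, o⟩, ⟨209, o⟩),
  (⟨208, o⟩, ⟨208, o⟩), (⟨209, o⟩, ⟨209, o⟩), (⟨209, o⟩, ⟨209, o⟩), (⟨209, o⟩, ⟨209, o⟩), (⟨209,
  o⟩, ⟨209, o⟩), (⟨209, o⟩, ⟨209, o⟩), (⟨208, o⟩, ⟨208, o⟩), (⟨209, o⟩, ⟨209, o⟩), (⟨208, o⟩,
  ⟨208, o⟩), (⟨209, o⟩, ⟨209, o⟩), (⟨209, o⟩, ⟨209, o⟩), (⟨209, o⟩, ⟨209, o⟩), (⟨209, o⟩, ⟨209,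
  o⟩), (⟨209, o⟩, ⟨209, o⟩)])))))))))

theorem ci3_20 : Cov2 pi3 Ri
    ⟨552, 600, 540, 558⟩ ⟨152, 200, 187, 200, 100, 0, 100, 0⟩ :=
  CT.sound pi3 ci cl_i ti3_20 _ _ (by decide +kernel)

theorem covi3 : Cov2 pi3 Ri
    ⟨552, 600, 540, 558⟩ ⟨0, 200, 0, 200, 100, 0, 100, 0⟩ :=
  (Cov2.sx 102 ci3_1 (Cov2.sx 131 ci3_2 (Cov2.sx 152 ci3_3 (Cov2.sy 158 (Cov2.sx 166 ci3_4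
  (Cov2.sx 190 (Cov2.sy 109 ci3_5 (Cov2.sy 134 ci3_6 (Cov2.sx 178 ci3_7 (Cov2.sa 575 (Cov2.sa 565
  (Cov2.st 550 ci3_8 ci3_9) ci3_10) ci3_11)))) (Cov2.sa 561 ci3_12 (Cov2.sy 129 (Cov2.sa 580
  (Cov2.sy 108 ci3_13 ci3_14) ci3_15) ci3_16)))) (Cov2.sy 187 (Cov2.sx 166 ci3_17 (Cov2.sx 190
  ci3_18 ci3_19)) ci3_20)))))

end Pool.Agent.Lib.MP_43bc59_co.P18
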