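import Pool.Agent.Lib.MP_43bc59_co.F_N2

set_option autoImplicit false
set_option maxRecDepth 100000

namespace Pool.Agent.Lib.MP_43bc59_co.P18

open Bx

def pii2 : Pm := ⟨200, 600, 0, 0, 0, 5, 3, ⟨11, -10, -14⟩⟩

noncomputable def tii2_1 : CT :=
  (.sy 81 (.sa 475 (.p1 91 95 111 120 0 133 0 81 false false 38 160 [(⟨138, o⟩, ⟨138, o⟩)]) (.sx
  (-108) (.p1 95 98 111 120 0 137 0 81 false false 40 160 [(⟨138, o⟩, ⟨138, o⟩)]) (.cl 1 [⟨68,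
  o⟩, ⟨58, o⟩, ⟨58, o⟩, ⟨59, o⟩, ⟨68, o⟩, ⟨53, o⟩]))) (.sx (-129) (.p1 91 98 111 120 0 116 81 130
  false false 52 120 [(⟨137, o⟩, ⟨138, o⟩)]) (.p2 74 198 ⟨161, 26, ⟨1199, -868, -570⟩, ⟨673,
  -154, -226⟩, ⟨56, (.lf [0, 1])⟩, ⟨115, (.nd 3 (.nd 3 (.nd 3 (.nd 3 (.lf [1, -256]) (.lf [1,
  -10])) (.lf [1, -128])) (.nd 3 (.lf [8, -74]) (.nd 3 (.lf [2, -17]) (.lf [16, -123])))) (.lf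
  [1, -64]))⟩, ⟨99, (.lf [0, 1])⟩⟩ ⟨133, 63, ⟨2470, -2469, 0⟩, ⟨1539, -1538, 0⟩, ⟨56, o⟩, ⟨103,
  (.lf [16, -123])⟩, ⟨101, o⟩⟩ [(⟨228, o⟩, ⟨228, o⟩), (⟨229, o⟩, ⟨229, o⟩), (⟨228, o⟩, ⟨228, o⟩),
  (⟨229, o⟩, ⟨229, o⟩), (⟨230, o⟩, ⟨230, o⟩), (⟨230, o⟩, ⟨230, o⟩), (⟨230, o⟩, ⟨230, o⟩), (⟨230,
  o⟩, ⟨230, o⟩), (⟨228, o⟩, ⟨228, o⟩), (⟨229, o⟩, ⟨229, o⟩), (⟨251, (.nd 2 (.lf [1, 0, 0, 0, 0,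
  -1024]) (.nd 3 (.lf [1, 0, -4, 0, 0, -1024]) (.lf [1, 0, -8, 0, 0, -1024])))⟩, ⟨238, (.lf [1,
  0, -16, 0, 0, -1024])⟩), (⟨239, (.lf [1, 0, -8, 0, 0, -1024])⟩, ⟨231, (.lf [1, 0, -4])⟩),
  (⟨229, o⟩, ⟨229, o⟩), (⟨229, o⟩, ⟨229, o⟩), (⟨249, (.nd 2 (.lf [1, 0, 0, 0, 0, -512]) (.lf [4,
  0, -19, 0, 0, -4608]))⟩, ⟨239, (.lf [1, 0, -16, 0, 0, -1024])⟩), (⟨239, (.lf [1, 0, -8, 0, 0,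
  -1024])⟩, ⟨232, (.lf [1, 0, -4])⟩)])))

theorem cii2_1 : Cov2 pii2 Rii
    ⟨456, 490, 558, 600⟩ ⟨-400, -105, 0, 130, 100, 0, 100, 0⟩ :=
  CT.sound pii2 cii cl_ii tii2_1 _ _ (by decide +kernel)

noncomputable def tii2_2 : CT :=
  (.sy 179 (.p1 91 98 111 120 0 100 130 179 false true 88 280 [(⟨141, o⟩, ⟨142, o⟩), (⟨142, o⟩,
  ⟨142, o⟩), (⟨137, o⟩, ⟨135, o⟩)]) (.sx (-157) (.p1 91 98 111 120 0 88 179 200 false true 100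
  240 [(⟨141, o⟩, ⟨141, o⟩), (⟨141, o⟩, ⟨141, o⟩), (⟨136, o⟩, ⟨134, o⟩)]) (.st 580 (.p1 91 98 111
  116 71 100 179 200 false true 108 160 [(⟨139, o⟩, ⟨139, o⟩), (⟨139, o⟩, ⟨139, o⟩), (⟨135, o⟩,
  ⟨133, o⟩)]) (.sa 475 (.p1 91 95 116 120 71 93 179 200 false true 100 200 [(⟨140, o⟩, ⟨140, o⟩),
  (⟨140, o⟩, ⟨140, o⟩), (⟨135, o⟩, ⟨132, o⟩)]) (.p2 103 116 ⟨93, 58, ⟨2739, -4433, 0⟩, ⟨2098,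
  -3135, 0⟩, ⟨56, (.lf [0, 1])⟩, ⟨101, (.lf [2, -22])⟩, ⟨103, o⟩⟩ ⟨140, 33, ⟨1145, -1111, -123⟩,
  ⟨1001, -1000, 0⟩, ⟨56, (.lf [0, 1])⟩, ⟨106, (.nd 3 (.nd 3 (.lf [4, -22]) (.lf [1, -5])) (.lf
  [1, -32]))⟩, ⟨100, (.lf [0, 1])⟩⟩ [(⟨226, o⟩, ⟨231, (.lf [1, 0, 0, 0, 0, -16])⟩), (⟨226, o⟩,
  ⟨227, o⟩), (⟨226, o⟩, ⟨227, o⟩), (⟨226, o⟩, ⟨227, o⟩), (⟨229, o⟩, ⟨230, o⟩), (⟨229, o⟩, ⟨230,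
  o⟩), (⟨229, o⟩, ⟨230, o⟩), (⟨229, o⟩, ⟨230, o⟩), (⟨226, o⟩, ⟨232, (.lf [1, 0, 0, 0, 0, -32])⟩),
  (⟨226, o⟩, ⟨227, o⟩), (⟨226, o⟩, ⟨227, o⟩), (⟨226, o⟩, ⟨227, o⟩), (⟨228, o⟩, ⟨229, o⟩), (⟨229,
  o⟩, ⟨230, o⟩), (⟨234, (.lf [1, 0, 0, 0, 0, -56])⟩, ⟨251, (.nd 2 (.nd 2 (.lf [1, 0, 0, 0, 0,
  -80]) (.lf [1, 0, 0, 0, 0, -56])) (.lf [1, 0, 0, 0, 0, -112]))⟩), (⟨229, o⟩, ⟨229, o⟩)])))))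

theorem cii2_2 : Cov2 pii2 Rii
    ⟨456, 490, 558, 600⟩ ⟨-400, -145, 130, 200, 100, 0, 100, 0⟩ :=
  CT.sound pii2 cii cl_ii tii2_2 _ _ (by decide +kernel)

noncomputable def tii2_3 : CT :=
  (.p2 83 179 ⟨191, 27, ⟨2698, -2987, -1674⟩, ⟨1064, -680, -478⟩, ⟨56, (.lf [0, 1])⟩, ⟨128, (.nd
  3 (.nd 3 (.lf [1, -16]) (.nd 3 (.lf [8, -83]) (.lf [1, -8]))) (.nd 3 (.nd 3 (.nd 0 (.nd 2 (.nd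
  3 (.lf [1, -30]) (.lf [1, -8192])) (.lf [1, -64])) (.lf [1, -128])) (.lf [1, -16])) (.lf [1,
  -512])))⟩, ⟨101, (.lf [0, 1])⟩⟩ ⟨155, 57, ⟨1539, -1538, 0⟩, ⟨1213, -1212, 0⟩, ⟨57, (.lf [0,
  1])⟩, ⟨102, (.lf [16, -97])⟩, ⟨100, o⟩⟩ [(⟨228, o⟩, ⟨228, o⟩), (⟨229, o⟩, ⟨229, o⟩), (⟨233,
  (.lf [1, 0, -16])⟩, ⟨228, o⟩), (⟨239, (.lf [1, 0, -32, 0, 0, -1024])⟩, ⟨229, o⟩), (⟨231, o⟩,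
  ⟨231, o⟩), (⟨232, o⟩, ⟨232, o⟩), (⟨231, o⟩, ⟨231, o⟩), (⟨232, o⟩, ⟨232, o⟩), (⟨228, o⟩, ⟨228,
  o⟩), (⟨229, o⟩, ⟨229, o⟩), (⟨238, (.lf [1, 0, -16, 0, 0, -1024])⟩, ⟨238, (.lf [1, 0, -16, 0, 0,
  -1024])⟩), (⟨242, (.lf [8, 0, -160, 0, -5, -7168])⟩, ⟨238, (.lf [1, 0, -16, 0, 0, -512])⟩),
  (⟨230, o⟩, ⟨230, o⟩), (⟨230, o⟩, ⟨230, o⟩), (⟨240, (.lf [1, 0, -8, 0, 0, -1024])⟩, ⟨240, (.lf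
  [1, 0, -16, 0, 0, -1024])⟩), (⟨244, (.lf [16, 0, -224, 0, -5, -14336])⟩, ⟨232, (.lf [1, 0,
  -4])⟩)])

theorem cii2_3 : Cov2 pii2 Rii
    ⟨456, 490, 558, 600⟩ ⟨-145, -125, 130, 165, 100, 0, 100, 0⟩ :=
  CT.sound pii2 cii cl_ii tii2_3 _ _ (by decide +kernel)

noncomputable def tii2_4 : CT :=
  (.sx (-135) (.st 580 (.p1 91 98 111 116 83 110 165 200 false true 110 120 [(⟨139, o⟩, ⟨139,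
  o⟩), (⟨139, o⟩, ⟨139, o⟩), (⟨135, o⟩, ⟨133, o⟩)]) (.sy 183 (.p2 97 149 ⟨149, 32, ⟨2269, -2384,
  -1334⟩, ⟨1391, -1134, -694⟩, ⟨56, (.lf [0, 1])⟩, ⟨118, (.nd 3 (.nd 3 (.nd 3 (.nd 3 (.lf [1,
  -16]) (.lf [1, -14])) (.nd 0 (.nd 3 (.lf [1, -16]) (.lf [1, -20])) (.lf [1, -16]))) (.nd 3 (.lf
  [2, -21]) o)) (.lf [1, -1024]))⟩, ⟨102, (.lf [0, 1])⟩⟩ ⟨185, 32, ⟨1308, -1247, -274⟩, ⟨1115,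
  -1087, -98⟩, ⟨57, (.lf [0, 1])⟩, ⟨114, (.nd 3 (.nd 3 (.nd 3 (.nd 3 (.lf [16, -97]) (.lf [4,
  -22])) (.lf [16, -102])) (.lf [1, -4])) (.lf [1, -128]))⟩, ⟨100, (.lf [0, 1])⟩⟩ [(⟨228, o⟩,
  ⟨228, o⟩), (⟨228, o⟩, ⟨228, o⟩), (⟨228, o⟩, ⟨228, o⟩), (⟨228, o⟩, ⟨228, o⟩), (⟨230, o⟩, ⟨230,
  o⟩), (⟨231, o⟩, ⟨231, o⟩), (⟨230, o⟩, ⟨230, o⟩), (⟨231, o⟩, ⟨231, o⟩), (⟨228, o⟩, ⟨228, o⟩),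
  (⟨228, o⟩, ⟨228, o⟩), (⟨228, o⟩, ⟨234, (.lf [1, 0, 0, 0, 0, -64])⟩), (⟨228, o⟩, ⟨228, o⟩),
  (⟨229, o⟩, ⟨230, o⟩), (⟨230, o⟩, ⟨230, o⟩), (⟨229, o⟩, ⟨239, (.lf [1, 0, -4, 0, 0, -512])⟩),
  (⟨230, o⟩, ⟨230, o⟩)]) (.p2 111 99 ⟨173, 28, ⟨2269, -2384, -1334⟩, ⟨1391, -1134, -694⟩, ⟨56,
  (.lf [0, 1])⟩, ⟨118, (.nd 3 (.nd 3 (.nd 3 (.nd 3 (.lf [1, -16]) (.lf [1, -14])) (.nd 0 (.nd 3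
  (.lf [1, -16]) (.lf [1, -20])) (.lf [1, -16]))) (.nd 3 (.lf [2, -21]) o)) (.lf [1, -1024]))⟩,
  ⟨102, (.lf [0, 1])⟩⟩ ⟨436, 11, ⟨1115, -1087, -98⟩, ⟨1001, -1000, 0⟩, ⟨57, (.lf [0, 1])⟩, ⟨111,
  (.nd 3 (.nd 3 (.nd 3 (.lf [16, -85]) (.lf [1, -64])) (.lf [1, -5])) (.lf [1, -32]))⟩, ⟨100,
  (.lf [0, 1])⟩⟩ [(⟨227, o⟩, ⟨227, o⟩), (⟨227, o⟩, ⟨228, o⟩), (⟨227, o⟩, ⟨227, o⟩), (⟨227, o⟩,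
  ⟨228, o⟩), (⟨229, o⟩, ⟨230, o⟩), (⟨230, o⟩, ⟨230, o⟩), (⟨229, o⟩, ⟨230, o⟩), (⟨230, o⟩, ⟨230,
  o⟩), (⟨227, o⟩, ⟨231, (.lf [1, 0, 0, 0, 0, -16])⟩), (⟨227, o⟩, ⟨228, o⟩), (⟨227, o⟩, ⟨235, (.lf
  [1, 0, -1, 0, 0, -256])⟩), (⟨227, o⟩, ⟨228, o⟩), (⟨229, o⟩, ⟨241, (.lf [32, 0, -56, 0, -5,
  -3584])⟩), (⟨229, o⟩, ⟨230, o⟩), (⟨229, o⟩, ⟨250, (.nd 2 o (.nd 3 (.lf [1, 0, -2, 0, 0, -256])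
  (.lf [1, 0, 0, 0, -4])))⟩), (⟨229, o⟩, ⟨230, o⟩)]))) (.sy 183 (.p2 111 244 ⟨191, 24, ⟨1487,
  -1271, -772⟩, ⟨1064, -680, -478⟩, ⟨56, (.lf [0, 1])⟩, ⟨111, (.nd 3 (.nd 3 (.nd 3 (.lf [2, -25])
  (.lf [1, -16])) (.nd 3 (.lf [8, -83]) (.lf [1, -8]))) (.lf [1, -128]))⟩, ⟨101, (.lf [0, 1])⟩⟩
  ⟨178, 37, ⟨1323, -1264, -290⟩, ⟨1119, -1093, -102⟩, ⟨57, (.lf [0, 1])⟩, ⟨120, (.nd 3 (.nd 3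
  (.nd 3 (.nd 3 (.nd 1 (.lf [4, -23]) (.nd 3 (.lf [1, -6]) (.lf [4, -25]))) (.lf [4, -23])) (.nd
  3 (.nd 1 (.lf [1, -6]) (.lf [4, -25])) (.lf [16, -102]))) (.lf [4, -22])) (.lf [1, -7]))⟩,
  ⟨100, (.lf [0, 1])⟩⟩ [(⟨230, o⟩, ⟨234, (.lf [1, 0, -8])⟩), (⟨231, o⟩, ⟨231, o⟩), (⟨235, (.lf
  [1, 0, -16])⟩, ⟨236, (.lf [1, 0, -32])⟩), (⟨232, (.lf [1, 0, -2])⟩, ⟨231, o⟩), (⟨232, o⟩, ⟨239,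
  (.lf [1, 0, -64])⟩), (⟨233, o⟩, ⟨233, o⟩), (⟨232, o⟩, ⟨238, (.lf [1, 0, -32])⟩), (⟨233, o⟩,
  ⟨233, o⟩), (⟨233, (.lf [1, 0, -4])⟩, ⟨239, (.lf [1, 0, -64, 0, 0, -256])⟩), (⟨231, o⟩, ⟨231,
  o⟩), (⟨241, (.lf [1, 0, -32, 0, -16, -2048])⟩, ⟨241, (.lf [1, 0, -64, 0, 0, -2048])⟩), (⟨235,
  (.lf [1, 0, -16])⟩, ⟨231, o⟩), (⟨232, o⟩, ⟨241, (.lf [1, 0, -48, 0, 0, -512])⟩), (⟨232, o⟩,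
  ⟨232, o⟩), (⟨243, (.lf [1, 0, -16, 0, -8, -2048])⟩, ⟨243, (.lf [1, 0, -50, 0, 0, -1792])⟩),
  (⟨232, o⟩, ⟨232, o⟩)]) (.st 580 (.p2 125 120 ⟨222, 21, ⟨1563, -1386, -842⟩, ⟨1100, -735, -511⟩,
  ⟨56, (.lf [0, 1])⟩, ⟨112, (.nd 3 (.nd 3 (.nd 3 (.lf [2, -25]) (.lf [1, -16])) (.nd 3 (.nd 3
  (.lf [2, -18]) (.lf [2, -21])) o)) (.lf [1, -128]))⟩, ⟨101, (.lf [0, 1])⟩⟩ ⟨274, 20, ⟨1123,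
  -1097, -106⟩, ⟨1001, -1000, 0⟩, ⟨57, (.lf [0, 1])⟩, ⟨112, (.nd 3 (.nd 3 (.nd 3 (.nd 3 (.lf [4,
  -21]) (.lf [1, -5])) (.lf [4, -22])) (.lf [1, -5])) (.lf [1, -64]))⟩, ⟨100, (.lf [0, 1])⟩⟩
  [(⟨228, o⟩, ⟨228, o⟩), (⟨228, o⟩, ⟨228, o⟩), (⟨228, o⟩, ⟨228, o⟩), (⟨228, o⟩, ⟨228, o⟩), (⟨230,
  o⟩, ⟨230, o⟩), (⟨230, o⟩, ⟨230, o⟩), (⟨230, o⟩, ⟨230, o⟩), (⟨230, o⟩, ⟨230, o⟩), (⟨228, o⟩,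
  ⟨228, o⟩), (⟨228, o⟩, ⟨228, o⟩), (⟨228, o⟩, ⟨228, o⟩), (⟨228, o⟩, ⟨228, o⟩), (⟨229, o⟩, ⟨229,
  o⟩), (⟨229, o⟩, ⟨230, o⟩), (⟨229, o⟩, ⟨229, o⟩), (⟨229, o⟩, ⟨230, o⟩)]) (.p2 119 145 ⟨209, 20,
  ⟨1391, -1134, -694⟩, ⟨1019, -616, -441⟩, ⟨56, (.lf [0, 1])⟩, ⟨114, (.nd 3 (.nd 3 (.nd 3 (.nd 3
  (.lf [1, -128]) (.lf [2, -26])) (.lf [1, -64])) (.nd 3 (.nd 3 (.lf [1, -10]) (.lf [1, -12]))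
  (.lf [2, -17]))) (.lf [1, -64]))⟩, ⟨100, (.lf [0, 1])⟩⟩ ⟨164, 29, ⟨1115, -1087, -98⟩, ⟨1001,
  -1000, 0⟩, ⟨57, (.lf [0, 1])⟩, ⟨111, (.nd 3 (.nd 3 (.nd 3 (.lf [16, -85]) (.lf [1, -64])) (.lf
  [1, -5])) (.lf [1, -32]))⟩, ⟨100, (.lf [0, 1])⟩⟩ [(⟨228, o⟩, ⟨228, o⟩), (⟨228, o⟩, ⟨228, o⟩),
  (⟨228, o⟩, ⟨228, o⟩), (⟨228, o⟩, ⟨228, o⟩), (⟨230, o⟩, ⟨232, (.lf [1, 0, -4])⟩), (⟨230, o⟩,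
  ⟨230, o⟩), (⟨230, o⟩, ⟨231, (.lf [1, 0, -2])⟩), (⟨230, o⟩, ⟨230, o⟩), (⟨228, o⟩, ⟨236, (.lf [1,
  0, -8, 0, 0, -256])⟩), (⟨228, o⟩, ⟨228, o⟩), (⟨228, o⟩, ⟨237, (.lf [1, 0, -8, 0, 0, -512])⟩),
  (⟨228, o⟩, ⟨228, o⟩), (⟨229, o⟩, ⟨256, (.nd 3 (.nd 3 o (.nd 0 (.lf [1, 0, -8]) (.lf [4, 0, -26,
  0, 0, -800]))) o)⟩), (⟨230, o⟩, ⟨230, o⟩), (⟨229, o⟩, ⟨270, (.nd 3 (.nd 0 o (.nd 3 (.lf [1, 0,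
  -4]) (.nd 0 (.lf [1, 0, -7, 0, 0, -320]) (.nd 1 (.lf [1, 0, -7]) (.lf [4, 0, -27, 0, 0,
  -1472]))))) o)⟩), (⟨230, o⟩, ⟨230, o⟩)]))))

theorem cii2_4 : Cov2 pii2 Rii
    ⟨456, 490, 558, 600⟩ ⟨-145, -125, 165, 200, 100, 0, 100, 0⟩ :=
  CT.sound pii2 cii cl_ii tii2_4 _ _ (by decide +kernel)

noncomputable def tii2_5 : CT :=
  (.p2 98 204 ⟨289, 14, ⟨1064, -680, -478⟩, ⟨828, -359, -323⟩, ⟨56, (.lf [0, 1])⟩, ⟨111, (.nd 3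
  (.nd 3 (.lf [1, -16]) (.nd 3 (.lf [8, -78]) (.nd 3 (.lf [2, -17]) (.lf [1, -8])))) (.lf [1,
  -64]))⟩, ⟨100, (.lf [0, 1])⟩⟩ ⟨140, 63, ⟨1539, -1538, 0⟩, ⟨1213, -1212, 0⟩, ⟨57, (.lf [0, 1])⟩,
  ⟨102, (.lf [16, -97])⟩, ⟨100, o⟩⟩ [(⟨235, (.lf [1, 0, -16, 0, 0, -16])⟩, ⟨229, o⟩), (⟨235, (.lf
  [1, 0, -32])⟩, ⟨230, o⟩), (⟨240, (.lf [1, 0, -32, 0, 0, -1024])⟩, ⟨230, o⟩), (⟨243, (.lf [16,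
  0, -1024, 0, -1, -8192])⟩, ⟨230, o⟩), (⟨234, (.lf [1, 0, -8])⟩, ⟨231, o⟩), (⟨235, (.lf [8, 0,
  -1])⟩, ⟨231, o⟩), (⟨242, (.lf [1, 0, -16, 0, 0, -2048])⟩, ⟨233, (.lf [1, 0, -4])⟩), (⟨245, (.lf
  [8, 0, -256, 0, -1, -16384])⟩, ⟨231, o⟩), (⟨248, (.nd 2 (.lf [1, 0, -8, 0, 0, -512]) (.lf [1,
  0, -32, 0, 0, -1024]))⟩, ⟨229, o⟩), (⟨234, (.lf [1, 0, -16])⟩, ⟨230, o⟩), (⟨253, (.nd 3 (.nd 2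
  (.lf [1, 0, -20, 0, 0, -2048]) (.lf [1, 0, -32, 0, 0, -2048])) (.lf [1, 0, -40, 0, 0,
  -1792]))⟩, ⟨240, (.lf [1, 0, -32, 0, 0, -2048])⟩), (⟨240, (.lf [1, 0, -48, 0, 0, -768])⟩, ⟨234,
  (.lf [1, 0, -16])⟩), (⟨249, (.nd 2 (.lf [1, 0, -5, 0, 0, -320]) (.lf [1, 0, -16, 0, 0,
  -2048]))⟩, ⟨233, (.lf [1, 0, -4])⟩), (⟨234, (.lf [1, 0, -8])⟩, ⟨231, o⟩), (⟨262, (.nd 3 (.nd 2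
  (.nd 2 (.lf [1, 0, -16, 0, 0, -2048]) o) (.lf [1, 0, -24, 0, 0, -2048])) (.lf [1, 0, -28, 0, 0,
  -2048]))⟩, ⟨241, (.lf [1, 0, -40, 0, 0, -1792])⟩), (⟨242, (.lf [1, 0, -32, 0, 0, -2048])⟩,
  ⟨233, (.lf [1, 0, -4])⟩)])

theorem cii2_5 : Cov2 pii2 Rii
    ⟨456, 490, 558, 600⟩ ⟨-125, -115, 130, 165, 100, 0, 100, 0⟩ :=
  CT.sound pii2 cii cl_ii tii2_5 _ _ (by decide +kernel)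

noncomputable def tii2_6 : CT :=
  (.sx (-110) (.st 580 (.p2 109 302 ⟨162, 20, ⟨848, -391, -341⟩, ⟨760, -273, -284⟩, ⟨56, (.lf [0,
  1])⟩, ⟨117, (.nd 3 (.nd 3 (.lf [1, -64]) (.nd 3 (.lf [8, -77]) (.nd 3 (.lf [128, -1061]) (.lf
  [1, -7])))) (.lf [1, -32]))⟩, ⟨99, (.lf [0, 1])⟩⟩ ⟨139, 63, ⟨1539, -1538, 0⟩, ⟨1213, -1212, 0⟩,
  ⟨57, (.lf [0, 1])⟩, ⟨102, (.lf [16, -97])⟩, ⟨100, o⟩⟩ [(⟨231, o⟩, ⟨231, o⟩), (⟨232, o⟩, ⟨231,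
  o⟩), (⟨231, o⟩, ⟨231, o⟩), (⟨232, o⟩, ⟨231, o⟩), (⟨232, o⟩, ⟨232, o⟩), (⟨233, o⟩, ⟨232, o⟩),
  (⟨232, o⟩, ⟨232, o⟩), (⟨233, o⟩, ⟨232, o⟩), (⟨231, o⟩, ⟨231, o⟩), (⟨232, o⟩, ⟨231, o⟩), (⟨231,
  o⟩, ⟨231, o⟩), (⟨232, o⟩, ⟨231, o⟩), (⟨232, o⟩, ⟨232, o⟩), (⟨233, o⟩, ⟨232, o⟩), (⟨232, o⟩,
  ⟨232, o⟩), (⟨233, o⟩, ⟨232, o⟩)]) (.p2 104 305 ⟨164, 18, ⟨802, -322, -302⟩, ⟨723, -217, -253⟩,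
  ⟨56, (.lf [0, 1])⟩, ⟨111, (.nd 3 (.nd 3 (.lf [1, -32]) (.nd 3 (.lf [1, -128]) (.nd 3 (.lf [2,
  -18]) (.lf [1, -8])))) (.lf [1, -32]))⟩, ⟨99, (.lf [0, 1])⟩⟩ ⟨129, 63, ⟨3015, -2866, -2057⟩,
  ⟨1308, -1247, -274⟩, ⟨57, (.lf [0, 1])⟩, ⟨121, (.nd 3 (.nd 3 (.nd 3 (.lf [4, -26]) (.lf [4,
  -27])) o) (.nd 3 (.nd 3 (.lf [1, -12]) (.lf [1, -8])) (.nd 3 (.lf [1, -12]) (.nd 2 (.nd 2 (.lf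
  [1, -32]) (.nd 3 (.lf [1, -14]) (.lf [1, -512]))) (.lf [1, -32])))))⟩, ⟨101, (.lf [0, 1])⟩⟩
  [(⟨231, o⟩, ⟨231, o⟩), (⟨232, o⟩, ⟨232, o⟩), (⟨242, (.lf [1, 0, -32, 0, 0, -2048])⟩, ⟨233, (.lf
  [1, 0, -4])⟩), (⟨235, (.lf [1, 0, -8])⟩, ⟨231, o⟩), (⟨242, (.lf [1, 0, 0, 0, 0, -1024])⟩, ⟨232,
  o⟩), (⟨233, o⟩, ⟨233, o⟩), (⟨244, (.lf [1, 0, -24, 0, 0, -3584])⟩, ⟨241, (.lf [1, 0, -64, 0, 0,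
  -512])⟩), (⟨233, o⟩, ⟨232, o⟩), (⟨249, (.nd 2 (.lf [1, 0, 0, 0, 0, -1024]) (.lf [1, 0, 0, 0, 0,
  -256]))⟩, ⟨237, (.lf [1, 0, -64])⟩), (⟨232, o⟩, ⟨232, o⟩), (⟨256, (.nd 2 (.lf [1, 0, -16, 0, 0,
  -4096]) (.nd 3 (.lf [1, 0, -20, 0, 0, -3584]) (.lf [1, 0, -128, 0, 0, -4096])))⟩, ⟨243, (.lf
  [1, 0, -64, 0, 0, -4096])⟩), (⟨243, (.lf [1, 0, -64, 0, 0, -2048])⟩, ⟨231, o⟩), (⟨252, (.nd 2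
  (.lf [1, 0, 0, 0, 0, -3072]) (.lf [1, 0, 0, 0, 0, -1024]))⟩, ⟨241, (.lf [1, 0, -64, 0, 0,
  -512])⟩), (⟨233, o⟩, ⟨233, o⟩), (⟨265, (.nd 2 (.nd 2 (.nd 3 (.lf [1, 0, -10, 0, 0, -3584]) (.lf
  [1, 0, -20, 0, 0, -3584])) o) (.nd 3 (.lf [1, 0, -12, 0, 0, -3072]) (.lf [1, 0, -128, 0, 0,
  -2048])))⟩, ⟨244, (.lf [1, 0, -72, 0, 0, -3968])⟩), (⟨243, (.lf [1, 0, -32, 0, 0, -1024])⟩,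
  ⟨232, o⟩)])) (.sy 141 (.p2 78 185 ⟨157, 19, ⟨743, -247, -269⟩, ⟨714, -208, -251⟩, ⟨56, (.lf [0,
  1])⟩, ⟨111, (.nd 3 (.nd 3 (.lf [1, -32]) (.nd 3 (.lf [1, -10]) (.nd 3 (.lf [2, -17]) (.lf [4,
  -31])))) (.lf [1, -32]))⟩, ⟨99, (.lf [0, 1])⟩⟩ ⟨141, 63, ⟨1539, -1538, 0⟩, ⟨1419, -1418, 0⟩,
  ⟨57, (.lf [0, 1])⟩, ⟨102, (.lf [16, -114])⟩, ⟨101, o⟩⟩ [(⟨230, (.lf [4, 0, -1])⟩, ⟨228, o⟩),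
  (⟨229, o⟩, ⟨228, o⟩), (⟨238, (.lf [1, 0, -4, 0, 0, -1024])⟩, ⟨228, o⟩), (⟨237, (.lf [1, 0, -8,
  0, 0, -256])⟩, ⟨228, o⟩), (⟨229, o⟩, ⟨229, o⟩), (⟨229, o⟩, ⟨229, o⟩), (⟨239, (.lf [1, 0, -4, 0,
  0, -1024])⟩, ⟨229, o⟩), (⟨237, (.lf [1, 0, -8, 0, 0, -256])⟩, ⟨229, o⟩), (⟨235, (.lf [1, 0, -2,
  0, 0, -128])⟩, ⟨228, o⟩), (⟨228, o⟩, ⟨228, o⟩), (⟨238, (.lf [1, 0, -4, 0, 0, -1024])⟩, ⟨231,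
  (.lf [1, 0, -8])⟩), (⟨238, (.lf [1, 0, -8, 0, 0, -1024])⟩, ⟨228, o⟩), (⟨236, (.lf [1, 0, -2, 0,
  0, -128])⟩, ⟨229, o⟩), (⟨229, o⟩, ⟨229, o⟩), (⟨239, (.lf [1, 0, -4, 0, 0, -1024])⟩, ⟨235, (.lf
  [1, 0, -8, 0, 0, -64])⟩), (⟨239, (.lf [1, 0, -8, 0, 0, -1024])⟩, ⟨229, o⟩)]) (.st 580 (.p2 109
  227 ⟨221, 14, ⟨760, -273, -284⟩, ⟨729, -232, -265⟩, ⟨56, (.lf [0, 1])⟩, ⟨115, (.nd 3 (.nd 3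
  (.lf [1, -32]) (.nd 3 (.lf [1, -10]) (.nd 3 (.nd 0 (.lf [2, -17]) (.lf [1, -8])) (.lf [1,
  -7])))) (.lf [1, -32]))⟩, ⟨99, (.lf [0, 1])⟩⟩ ⟨138, 59, ⟨2104, -2000, -1092⟩, ⟨1335, -1279,
  -304⟩, ⟨57, (.lf [0, 1])⟩, ⟨113, (.nd 3 (.nd 3 (.nd 3 o (.lf [4, -27])) o) (.nd 3 (.nd 3 (.lf
  [2, -19]) (.nd 3 (.lf [2, -18]) (.lf [1, -7]))) (.nd 3 (.lf [8, -83]) (.lf [1, -128]))))⟩,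
  ⟨101, (.lf [0, 1])⟩⟩ [(⟨230, o⟩, ⟨230, o⟩), (⟨231, o⟩, ⟨231, o⟩), (⟨232, (.lf [1, 0, -4])⟩,
  ⟨230, o⟩), (⟨234, (.lf [1, 0, -8])⟩, ⟨230, o⟩), (⟨231, o⟩, ⟨231, o⟩), (⟨231, o⟩, ⟨231, o⟩),
  (⟨235, (.lf [16, 0, -1])⟩, ⟨231, o⟩), (⟨231, o⟩, ⟨231, o⟩), (⟨230, o⟩, ⟨230, o⟩), (⟨231, o⟩,
  ⟨230, o⟩), (⟨233, (.lf [1, 0, -8])⟩, ⟨230, o⟩), (⟨234, (.lf [1, 0, -8])⟩, ⟨230, o⟩), (⟨231, o⟩,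
  ⟨230, o⟩), (⟨231, o⟩, ⟨231, o⟩), (⟨233, (.lf [1, 0, -4])⟩, ⟨231, o⟩), (⟨232, (.lf [1, 0, -1])⟩,
  ⟨231, o⟩)]) (.sa 464 (.p2 93 253 ⟨199, 13, ⟨768, -295, -286⟩, ⟨737, -252, -266⟩, ⟨56, (.lf [0,
  1])⟩, ⟨112, (.nd 3 (.nd 3 (.lf [1, -32]) (.nd 3 (.lf [1, -32]) (.nd 3 (.lf [2, -18]) (.lf [8,
  -67])))) (.lf [1, -32]))⟩, ⟨99, (.lf [0, 1])⟩⟩ ⟨119, 63, ⟨2019, -1903, -999⟩, ⟨1323, -1262,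
  -292⟩, ⟨56, (.lf [0, 1])⟩, ⟨112, (.nd 3 (.nd 3 (.lf [4, -27]) o) (.nd 3 (.nd 3 (.lf [2, -19])
  (.lf [8, -70])) (.lf [1, -128])))⟩, ⟨101, (.lf [0, 1])⟩⟩ [(⟨230, o⟩, ⟨230, o⟩), (⟨231, o⟩,
  ⟨231, o⟩), (⟨233, (.lf [1, 0, -8])⟩, ⟨230, o⟩), (⟨235, (.lf [1, 0, -16])⟩, ⟨230, o⟩), (⟨231,
  o⟩, ⟨231, o⟩), (⟨232, o⟩, ⟨231, o⟩), (⟨234, (.lf [1, 0, -8])⟩, ⟨231, o⟩), (⟨235, (.lf [1, 0,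
  -8])⟩, ⟨231, o⟩), (⟨230, o⟩, ⟨230, o⟩), (⟨231, o⟩, ⟨231, o⟩), (⟨234, (.lf [1, 0, -16])⟩, ⟨230,
  o⟩), (⟨235, (.lf [1, 0, -16])⟩, ⟨230, o⟩), (⟨231, o⟩, ⟨231, o⟩), (⟨232, o⟩, ⟨231, o⟩), (⟨235,
  (.lf [1, 0, -16])⟩, ⟨231, o⟩), (⟨236, (.lf [1, 0, -16])⟩, ⟨231, o⟩)]) (.cl 1 [⟨68, o⟩, ⟨58, o⟩,
  ⟨58, o⟩, ⟨59, o⟩, ⟨68, o⟩, ⟨53, o⟩])))))

theorem cii2_6 : Cov2 pii2 Rii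
    ⟨456, 490, 558, 600⟩ ⟨-115, -108, 130, 165, 100, 0, 100, 0⟩ :=
  CT.sound pii2 cii cl_ii tii2_6 _ _ (by decide +kernel)

noncomputable def tii2_7 : CT :=
  (.sa 461 (.p2 94 236 ⟨198, 15, ⟨763, -293, -288⟩, ⟨717, -230, -259⟩, ⟨56, (.lf [0, 1])⟩, ⟨115,
  (.nd 3 (.nd 3 (.lf [1, -32]) (.nd 3 (.lf [1, -128]) (.lf [512, -4281]))) (.lf [1, -32]))⟩, ⟨99,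
  (.lf [0, 1])⟩⟩ ⟨140, 63, ⟨1539, -1538, 0⟩, ⟨1213, -1212, 0⟩, ⟨57, (.lf [0, 1])⟩, ⟨102, (.lf
  [16, -97])⟩, ⟨100, o⟩⟩ [(⟨230, o⟩, ⟨230, o⟩), (⟨230, o⟩, ⟨230, o⟩), (⟨234, (.lf [1, 0, -16])⟩,
  ⟨230, o⟩), (⟨233, (.lf [1, 0, -8])⟩, ⟨230, o⟩), (⟨231, o⟩, ⟨230, o⟩), (⟨231, o⟩, ⟨231, o⟩),
  (⟨235, (.lf [1, 0, -16])⟩, ⟨230, o⟩), (⟨234, (.lf [1, 0, -8])⟩, ⟨231, o⟩), (⟨230, o⟩, ⟨230,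
  o⟩), (⟨230, o⟩, ⟨230, o⟩), (⟨234, (.lf [1, 0, -16])⟩, ⟨230, o⟩), (⟨234, (.lf [1, 0, -16])⟩,
  ⟨230, o⟩), (⟨231, o⟩, ⟨230, o⟩), (⟨231, o⟩, ⟨231, o⟩), (⟨235, (.lf [1, 0, -16])⟩, ⟨230, o⟩),
  (⟨235, (.lf [1, 0, -16])⟩, ⟨231, o⟩)]) (.cl 1 [⟨68, o⟩, ⟨58, o⟩, ⟨58, o⟩, ⟨59, o⟩, ⟨68, o⟩,
  ⟨53, o⟩]))

theorem cii2_7 : Cov2 pii2 Rii
    ⟨456, 490, 558, 600⟩ ⟨-108, -105, 130, 165, 100, 0, 100, 0⟩ :=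
  CT.sound pii2 cii cl_ii tii2_7 _ _ (by decide +kernel)

noncomputable def tii2_8 : CT :=
  (.sx (-122) (.p2 119 95 ⟨523, 8, ⟨1064, -680, -478⟩, ⟨980, -566, -422⟩, ⟨56, (.lf [0, 1])⟩,
  ⟨112, (.nd 3 (.nd 3 (.lf [1, -16]) (.nd 3 (.nd 3 (.lf [1, -10]) (.lf [2, -22])) (.lf [2,
  -17]))) (.lf [1, -64]))⟩, ⟨100, (.lf [0, 1])⟩⟩ ⟨346, 19, ⟨1323, -1264, -290⟩, ⟨1001, -1000, 0⟩,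
  ⟨57, (.lf [0, 1])⟩, ⟨116, (.nd 3 (.nd 3 (.nd 3 (.nd 3 (.nd 2 (.lf [16, -94]) (.lf [4, -21]))
  (.lf [1, -5])) (.lf [1, -6])) (.lf [1, -5])) (.lf [16, -106]))⟩, ⟨100, (.lf [0, 1])⟩⟩ [(⟨249,
  (.nd 2 o (.nd 3 (.lf [1, 0, -4, 0, -16, -256]) (.lf [1, 0, -32, 0, 0, -256])))⟩, ⟨231, (.lf [1,
  0, -8])⟩), (⟨238, (.lf [1, 0, -16, 0, 0, -512])⟩, ⟨228, o⟩), (⟨250, (.nd 2 (.lf [1, 0, -8, 0,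
  0, -512]) (.nd 3 (.lf [1, 0, -10, 0, -10, -512]) (.lf [1, 0, -32, 0, 0, -512])))⟩, ⟨236, (.lf
  [1, 0, -12, 0, 0, -384])⟩), (⟨245, (.nd 2 (.lf [1, 0, -16, 0, 0, -256]) (.lf [16, 0, -356, 0,
  0, -104]))⟩, ⟨229, (.lf [1, 0, -1])⟩), (⟨250, (.nd 2 o (.nd 3 (.lf [1, 0, -4, 0, -8, -256])
  (.lf [1, 0, -16, 0, 0, -256])))⟩, ⟨233, (.lf [2, 0, -18])⟩), (⟨239, (.lf [1, 0, -8, 0, 0,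
  -512])⟩, ⟨230, o⟩), (⟨256, (.nd 2 (.lf [1, 0, -6, 0, 0, -320]) (.nd 3 (.nd 3 (.lf [1, 0, -14,
  0, 0, -384]) o) (.lf [1, 0, -20, 0, 0, -384])))⟩, ⟨237, (.lf [1, 0, -8, 0, 0, -256])⟩), (⟨241,
  (.lf [8, 0, -114, 0, 0, -1680])⟩, ⟨229, o⟩), (⟨250, (.nd 2 o (.nd 3 (.lf [2, 0, -8, 0, -24,
  -640]) (.lf [1, 0, -24, 0, 0, -384])))⟩, ⟨233, (.lf [1, 0, -8, 0, 0, -32])⟩), (⟨237, (.lf [1,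
  0, -16, 0, 0, -512])⟩, ⟨228, o⟩), (⟨262, (.nd 2 (.lf [1, 0, -8, 0, 0, -512]) (.nd 3 (.nd 3 (.nd
  2 (.lf [1, 0, -16, 0, 0, -512]) (.lf [1, 0, -16, 0, -32])) o) (.lf [1, 0, -32, 0, 0, -512])))⟩,
  ⟨236, (.lf [1, 0, -12, 0, 0, -384])⟩), (⟨250, (.nd 2 (.lf [1, 0, -8, 0, 0, -512]) (.nd 3 (.lf
  [1, 0, -16, 0, -4, -512]) (.lf [1, 0, -32, 0, 0, -256])))⟩, ⟨230, (.lf [1, 0, -4])⟩), (⟨250,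
  (.nd 2 o (.nd 3 (.lf [1, 0, -4, 0, -8, -256]) (.lf [1, 0, -16, 0, 0, -256])))⟩, ⟨233, (.lf [2,
  0, -17])⟩), (⟨239, (.lf [1, 0, -8, 0, 0, -512])⟩, ⟨229, o⟩), (⟨264, (.nd 2 (.nd 2 (.nd 3 o (.lf
  [1, 0, -10, 0, 0, -384])) o) (.nd 3 (.nd 3 (.nd 2 (.lf [2, 0, -22, 0, 0, -832]) (.lf [1, 0, -8,
  0, -32])) (.lf [1, 0, 0, 0, -1])) (.lf [1, 0, -20, 0, 0, -384])))⟩, ⟨245, (.nd 2 o (.lf [1, 0,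
  -10, 0, 0, -320]))⟩), (⟨246, (.nd 2 (.lf [1, 0, -8]) (.lf [1, 0, -16, 0, 0, -256]))⟩, ⟨229,
  o⟩)]) (.sy 183 (.p2 119 201 ⟨353, 11, ⟨980, -566, -422⟩, ⟨828, -359, -323⟩, ⟨56, (.lf [0, 1])⟩,
  ⟨111, (.nd 3 (.nd 3 (.lf [1, -256]) (.nd 3 (.nd 3 (.lf [2, -19]) (.lf [2, -21])) (.nd 3 (.lf
  [2, -17]) (.lf [1, -8])))) (.lf [1, -64]))⟩, ⟨99, (.lf [0, 1])⟩⟩ ⟨159, 41, ⟨1323, -1264, -290⟩,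
  ⟨1119, -1093, -102⟩, ⟨57, (.lf [0, 1])⟩, ⟨120, (.nd 3 (.nd 3 (.nd 3 (.nd 3 (.nd 1 (.lf [4,
  -23]) (.nd 3 (.lf [1, -6]) (.lf [4, -25]))) (.lf [4, -23])) (.nd 3 (.nd 1 (.lf [1, -6]) (.lf
  [4, -25])) (.lf [16, -102]))) (.lf [4, -22])) (.lf [1, -7]))⟩, ⟨100, (.lf [0, 1])⟩⟩ [(⟨250,
  (.nd 3 (.nd 3 (.lf [1, 0, -32, 0, 0, -1024]) o) (.lf [1, 0, -64, 0, 0, -1024]))⟩, ⟨235, (.lf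
  [1, 0, -32])⟩), (⟨241, (.lf [1, 0, -64, 0, 0, -1024])⟩, ⟨231, o⟩), (⟨246, (.nd 3 (.lf [1, 0,
  -40, 0, 0, -1280]) (.lf [1, 0, -64, 0, 0, -2048]))⟩, ⟨236, (.lf [1, 0, -64])⟩), (⟨241, (.lf [1,
  0, -64, 0, 0, -1024])⟩, ⟨230, o⟩), (⟨254, (.nd 3 (.nd 2 (.lf [1, 0, 0, 0, 0, -1024]) (.lf [1,
  0, -32, 0, 0, -1024])) (.lf [1, 0, -32, 0, 0, -1024]))⟩, ⟨239, (.lf [1, 0, -64, 0, 0, -128])⟩),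
  (⟨243, (.lf [1, 0, -32, 0, 0, -2048])⟩, ⟨232, o⟩), (⟨242, (.lf [1, 0, -29, 0, 0, -1536])⟩,
  ⟨241, (.lf [1, 0, -64, 0, 0, -1024])⟩), (⟨243, (.lf [1, 0, -64, 0, 0, -2048])⟩, ⟨232, o⟩),
  (⟨261, (.nd 3 (.nd 2 (.nd 2 (.lf [1, 0, -22, 0, 0, -1664]) o) (.lf [1, 0, -32, 0, 0, -1536]))
  (.lf [1, 0, -48, 0, 0, -1536]))⟩, ⟨240, (.lf [1, 0, -64, 0, 0, -1024])⟩), (⟨241, (.lf [1, 0,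
  -64, 0, 0, -1024])⟩, ⟨230, o⟩), (⟨259, (.nd 3 (.nd 3 (.nd 2 (.lf [1, 0, -32, 0, 0, -2048]) (.lf
  [2, 0, -79, 0, 0, -3200])) (.lf [1, 0, 0, 0, -12, -2560])) (.lf [1, 0, -52, 0, 0, -1920]))⟩,
  ⟨241, (.lf [1, 0, -64, 0, 0, -2048])⟩), (⟨241, (.lf [1, 0, -64, 0, 0, -1024])⟩, ⟨230, o⟩),
  (⟨259, (.nd 3 (.nd 3 (.nd 2 (.lf [1, 0, -19, 0, 0, -1728]) (.lf [1, 0, -28, 0, 0, -1792])) (.lf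
  [1, 0, 0, 0, 0, -256])) (.lf [1, 0, -36, 0, 0, -1536]))⟩, ⟨240, (.lf [1, 0, -52, 0, 0,
  -576])⟩), (⟨242, (.lf [1, 0, -32, 0, 0, -2048])⟩, ⟨231, o⟩), (⟨260, (.nd 3 (.nd 3 (.nd 2 (.lf
  [1, 0, -28, 0, 0, -2304]) (.lf [1, 0, -32, 0, 0, -2048])) (.lf [1, 0, 0, 0, -4, -2048])) (.lf
  [2, 0, -81, 0, 0, -4288]))⟩, ⟨242, (.lf [1, 0, -52, 0, 0, -1600])⟩), (⟨242, (.lf [1, 0, -64, 0,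
  0, -2048])⟩, ⟨231, o⟩)]) (.st 580 (.p2 137 233 ⟨353, 11, ⟨1011, -612, -450⟩, ⟨848, -391, -341⟩,
  ⟨56, (.lf [0, 1])⟩, ⟨113, (.nd 3 (.nd 3 (.lf [1, -128]) (.nd 3 (.nd 3 (.lf [8, -75]) (.lf [1,
  -10])) (.lf [1, -8]))) (.lf [1, -64]))⟩, ⟨99, (.lf [0, 1])⟩⟩ ⟨146, 37, ⟨1123, -1097, -106⟩,
  ⟨1001, -1000, 0⟩, ⟨57, (.lf [0, 1])⟩, ⟨112, (.nd 3 (.nd 3 (.nd 3 (.nd 3 (.lf [4, -21]) (.lf [1,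
  -5])) (.lf [4, -22])) (.lf [1, -5])) (.lf [1, -64]))⟩, ⟨100, (.lf [0, 1])⟩⟩ [(⟨237, (.lf [1, 0,
  -64])⟩, ⟨231, o⟩), (⟨238, (.lf [1, 0, -128, 0, -8])⟩, ⟨231, o⟩), (⟨238, (.lf [1, 0, -128])⟩,
  ⟨231, o⟩), (⟨238, (.lf [1, 0, -128, 0, -8])⟩, ⟨231, o⟩), (⟨237, (.lf [1, 0, -32])⟩, ⟨232, o⟩),
  (⟨237, (.lf [1, 0, -16])⟩, ⟨233, o⟩), (⟨238, (.lf [1, 0, -64])⟩, ⟨232, o⟩), (⟨239, (.lf [1, 0,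
  -64])⟩, ⟨233, o⟩), (⟨237, (.lf [1, 0, -64])⟩, ⟨231, o⟩), (⟨238, (.lf [1, 0, -128, 0, -4])⟩,
  ⟨231, o⟩), (⟨237, (.lf [1, 0, -64])⟩, ⟨231, o⟩), (⟨238, (.lf [1, 0, -128, 0, -4])⟩, ⟨231, o⟩),
  (⟨237, (.lf [1, 0, -32])⟩, ⟨232, o⟩), (⟨237, (.lf [1, 0, -32])⟩, ⟨232, o⟩), (⟨238, (.lf [1, 0,
  -64])⟩, ⟨232, o⟩), (⟨238, (.lf [1, 0, -64, 0, -1])⟩, ⟨232, o⟩)]) (.p2 128 172 ⟨354, 10, ⟨943,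
  -513, -392⟩, ⟨802, -322, -302⟩, ⟨56, (.lf [0, 1])⟩, ⟨116, (.nd 3 (.nd 3 (.lf [1, -64]) (.nd 3
  (.lf [32, -330]) (.nd 3 (.nd 0 (.lf [2, -19]) (.lf [2, -17])) (.lf [1, -8])))) (.lf [1,
  -32]))⟩, ⟨99, (.lf [0, 1])⟩⟩ ⟨168, 29, ⟨1115, -1087, -98⟩, ⟨1001, -1000, 0⟩, ⟨57, (.lf [0,
  1])⟩, ⟨111, (.nd 3 (.nd 3 (.nd 3 (.lf [16, -85]) (.lf [1, -64])) (.lf [1, -5])) (.lf [1,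
  -32]))⟩, ⟨100, (.lf [0, 1])⟩⟩ [(⟨244, (.nd 3 (.lf [1, 0, -14, 0, 0, -512]) (.lf [1, 0, -32, 0,
  0, -1024]))⟩, ⟨234, (.lf [1, 0, -16])⟩), (⟨239, (.lf [1, 0, -32, 0, 0, -512])⟩, ⟨230, o⟩),
  (⟨239, (.lf [1, 0, -26, 0, 0, -768])⟩, ⟨234, (.lf [1, 0, -16])⟩), (⟨239, (.lf [1, 0, -32, 0, 0,
  -512])⟩, ⟨230, o⟩), (⟨245, (.nd 3 (.lf [1, 0, -4, 0, 0, -256]) (.lf [1, 0, -16, 0, 0,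
  -1024]))⟩, ⟨239, (.lf [1, 0, -32, 0, 0, -256])⟩), (⟨235, (.lf [1, 0, -16])⟩, ⟨231, o⟩), (⟨241,
  (.lf [1, 0, -17, 0, 0, -896])⟩, ⟨240, (.lf [1, 0, -32, 0, 0, -512])⟩), (⟨241, (.lf [1, 0, -32,
  0, 0, -1024])⟩, ⟨231, o⟩), (⟨249, (.nd 3 (.nd 3 (.lf [1, 0, -16, 0, 0, -1024]) o) (.lf [1, 0,
  -24, 0, 0, -1024]))⟩, ⟨238, (.lf [1, 0, -32, 0, 0, -512])⟩), (⟨239, (.lf [1, 0, -32, 0, 0,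
  -512])⟩, ⟨230, o⟩), (⟨249, (.nd 3 (.nd 3 (.lf [1, 0, -24, 0, 0, -1024]) o) (.lf [1, 0, -32, 0,
  0, -1024]))⟩, ⟨239, (.lf [1, 0, -32, 0, 0, -1024])⟩), (⟨239, (.lf [1, 0, -32, 0, 0, -512])⟩,
  ⟨230, o⟩), (⟨250, (.nd 3 (.nd 3 (.lf [1, 0, -8, 0, 0, -1024]) o) (.lf [1, 0, -16, 0, 0,
  -1024]))⟩, ⟨239, (.lf [1, 0, -28, 0, 0, -512])⟩), (⟨241, (.lf [1, 0, -16, 0, 0, -1024])⟩, ⟨231,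
  o⟩), (⟨250, (.nd 3 (.nd 3 (.lf [1, 0, -16, 0, 0, -1024]) o) (.lf [1, 0, -20, 0, 0, -1024]))⟩,
  ⟨240, (.lf [1, 0, -28, 0, 0, -1024])⟩), (⟨241, (.lf [1, 0, -32, 0, 0, -1024])⟩, ⟨231, o⟩)]))))

theorem cii2_8 : Cov2 pii2 Rii
    ⟨456, 490, 558, 600⟩ ⟨-125, -115, 165, 200, 100, 0, 100, 0⟩ :=
  CT.sound pii2 cii cl_ii tii2_8 _ _ (by decide +kernel)

noncomputable def tii2_9 : CT :=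
  (.p2 121 245 ⟨262, 13, ⟨828, -359, -323⟩, ⟨775, -289, -289⟩, ⟨56, (.lf [0, 1])⟩, ⟨111, (.nd 3
  (.nd 3 (.lf [1, -64]) (.nd 3 (.lf [1, -10]) (.nd 3 (.lf [2, -17]) (.lf [1, -8])))) (.lf [1,
  -32]))⟩, ⟨99, (.lf [0, 1])⟩⟩ ⟨145, 45, ⟨1323, -1264, -290⟩, ⟨1064, -1049, -54⟩, ⟨57, (.lf [0,
  1])⟩, ⟨119, (.nd 3 (.nd 3 (.nd 3 (.nd 3 (.nd 1 (.lf [16, -86]) (.lf [1, -6])) (.lf [16, -86]))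
  (.lf [4, -25])) (.lf [4, -21])) (.lf [64, -437]))⟩, ⟨100, (.lf [0, 1])⟩⟩ [(⟨241, (.lf [1, 0,
  -28, 0, 0, -1536])⟩, ⟨237, (.lf [1, 0, -64])⟩), (⟨236, (.lf [1, 0, -32])⟩, ⟨231, o⟩), (⟨242,
  (.lf [1, 0, -54, 0, 0, -2048])⟩, ⟨243, (.lf [1, 0, -64, 0, 0, -4096])⟩), (⟨241, (.lf [1, 0,
  -64, 0, -2, -1024])⟩, ⟨231, o⟩), (⟨251, (.nd 2 (.lf [1, 0, -12, 0, 0, -1280]) (.lf [1, 0, -32,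
  0, 0, -2048]))⟩, ⟨242, (.lf [1, 0, -64, 0, 0, -1024])⟩), (⟨235, (.lf [1, 0, -8])⟩, ⟨232, o⟩),
  (⟨243, (.lf [1, 0, -40, 0, 0, -2560])⟩, ⟨243, (.lf [1, 0, -64, 0, 0, -2048])⟩), (⟨243, (.lf [1,
  0, -64, 0, -1, -2048])⟩, ⟨232, o⟩), (⟨250, (.nd 2 (.lf [1, 0, -16, 0, 0, -2048]) (.lf [1, 0,
  -32, 0, 0, -2048]))⟩, ⟨241, (.lf [1, 0, -64, 0, 0, -1024])⟩), (⟨236, (.lf [1, 0, -32])⟩, ⟨231,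
  o⟩), (⟨255, (.nd 3 (.nd 2 (.lf [1, 0, -32, 0, 0, -2048]) (.lf [1, 0, -44, 0, 0, -2560])) (.lf
  [1, 0, -64, 0, 0, -2816]))⟩, ⟨242, (.lf [1, 0, -80, 0, 0, -3584])⟩), (⟨241, (.lf [1, 0, -64, 0,
  -1, -1024])⟩, ⟨231, o⟩), (⟨259, (.nd 2 (.nd 2 (.lf [1, 0, -16, 0, 0, -2048]) (.lf [1, 0, 0, 0,
  0, -512])) (.lf [1, 0, -28, 0, 0, -2560]))⟩, ⟨242, (.lf [1, 0, -64, 0, 0, -1024])⟩), (⟨236,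
  (.lf [1, 0, -16])⟩, ⟨232, o⟩), (⟨306, (.nd 2 (.nd 3 (.nd 2 (.nd 3 (.nd 1 o (.nd 2 (.lf [1, 0,
  0, 0, 0, -3072]) (.nd 0 o (.nd 3 (.lf [1, 0, 0, 0, 0, -3072]) (.nd 0 (.lf [1, 0, -32, 0, 0,
  -2048]) (.nd 1 (.lf [1, 0, -16]) (.lf [1, 0, -34, 0, 0, -2560]))))))) (.lf [1, 0, 0, 0, 0,
  -256])) o) (.lf [1, 0, -40, 0, 0, -2560])) (.nd 3 (.nd 3 (.nd 2 (.nd 1 o (.nd 0 (.lf [1, 0,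
  -16]) (.nd 2 (.lf [1, 0, -40, 0, 0, -2560]) (.nd 3 (.lf [1, 0, -32, 0, 0, -2560]) (.lf [1, 0,
  -34, 0, 0, -2560]))))) (.lf [1, 0, -32, 0, -128])) (.lf [1, 0, 0, 0, 0, -2048])) (.lf [1, 0,
  -512])))⟩, ⟨243, (.lf [1, 0, -64, 0, 0, -2560])⟩), (⟨243, (.lf [1, 0, -64, 0, 0, -2048])⟩,
  ⟨232, o⟩)])

theorem cii2_9 : Cov2 pii2 Rii
    ⟨456, 490, 558, 600⟩ ⟨-115, -112, 165, 190, 100, 0, 100, 0⟩ :=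
  CT.sound pii2 cii cl_ii tii2_9 _ _ (by decide +kernel)

noncomputable def tii2_10 : CT :=
  (.sa 475 (.p2 119 234 ⟨259, 12, ⟨803, -338, -310⟩, ⟨754, -270, -279⟩, ⟨56, (.lf [0, 1])⟩, ⟨113,
  (.nd 3 (.nd 3 (.lf [1, -64]) (.nd 3 (.lf [1, -10]) (.nd 3 (.lf [8, -69]) (.lf [1, -8])))) (.lf
  [1, -32]))⟩, ⟨99, (.lf [0, 1])⟩⟩ ⟨157, 42, ⟨1332, -1273, -301⟩, ⟨1066, -1050, -56⟩, ⟨57, (.lf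
  [0, 1])⟩, ⟨113, (.nd 3 (.nd 3 (.nd 3 (.lf [64, -351]) (.lf [4, -25])) (.lf [1, -4])) (.lf [1,
  -7]))⟩, ⟨100, (.lf [0, 1])⟩⟩ [(⟨235, (.lf [1, 0, -32])⟩, ⟨234, (.lf [1, 0, -16])⟩), (⟨234, (.lf
  [1, 0, -8])⟩, ⟨231, o⟩), (⟨236, (.lf [1, 0, -32])⟩, ⟨234, (.lf [1, 0, -16])⟩), (⟨237, (.lf [1,
  0, -64])⟩, ⟨231, o⟩), (⟨236, (.lf [1, 0, -16])⟩, ⟨237, (.lf [1, 0, -64])⟩), (⟨233, (.lf [1, 0,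
  -2])⟩, ⟨232, o⟩), (⟨236, (.lf [1, 0, -32])⟩, ⟨236, (.lf [1, 0, -32])⟩), (⟨237, (.lf [1, 0,
  -32])⟩, ⟨232, o⟩), (⟨243, (.nd 2 (.lf [1, 0, -16]) (.lf [1, 0, -32]))⟩, ⟨236, (.lf [1, 0,
  -64])⟩), (⟨234, (.lf [1, 0, -8])⟩, ⟨231, o⟩), (⟨236, (.lf [1, 0, -40])⟩, ⟨236, (.lf [1, 0,
  -64])⟩), (⟨237, (.lf [1, 0, -64, 0, -2])⟩, ⟨231, o⟩), (⟨244, (.nd 2 (.lf [1, 0, -10]) (.lf [1,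
  0, -32]))⟩, ⟨237, (.lf [1, 0, -64])⟩), (⟨234, (.lf [1, 0, -4])⟩, ⟨232, o⟩), (⟨244, (.nd 2 (.lf
  [1, 0, -32]) (.lf [1, 0, -32]))⟩, ⟨237, (.lf [1, 0, -64])⟩), (⟨238, (.lf [1, 0, -64])⟩, ⟨232,
  o⟩)]) (.sa 485 (.st 590 (.p2 126 219 ⟨276, 11, ⟨753, -254, -275⟩, ⟨708, -196, -247⟩, ⟨56, (.lf
  [0, 1])⟩, ⟨111, (.nd 3 (.nd 3 (.lf [1, -32]) (.nd 3 (.lf [2, -18]) (.nd 3 (.lf [1, -8]) (.lf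
  [4, -31])))) (.lf [1, -32]))⟩, ⟨99, (.lf [0, 1])⟩⟩ ⟨169, 36, ⟨1319, -1262, -285⟩, ⟨1064, -1049,
  -54⟩, ⟨57, (.lf [0, 1])⟩, ⟨114, (.nd 3 (.nd 3 (.nd 3 (.nd 3 (.lf [16, -91]) (.lf [4, -21]))
  (.lf [4, -25])) (.lf [1, -4])) (.lf [1, -256]))⟩, ⟨100, (.lf [0, 1])⟩⟩ [(⟨234, (.lf [1, 0,
  -16])⟩, ⟨230, o⟩), (⟨234, (.lf [1, 0, -8])⟩, ⟨231, o⟩), (⟨235, (.lf [1, 0, -32])⟩, ⟨230, o⟩),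
  (⟨236, (.lf [1, 0, -32])⟩, ⟨231, o⟩), (⟨235, (.lf [1, 0, -16])⟩, ⟨231, o⟩), (⟨232, o⟩, ⟨232,
  o⟩), (⟨236, (.lf [1, 0, -32])⟩, ⟨231, o⟩), (⟨236, (.lf [1, 0, -16])⟩, ⟨231, o⟩), (⟨234, (.lf
  [1, 0, -16])⟩, ⟨230, o⟩), (⟨233, (.lf [1, 0, -4])⟩, ⟨231, o⟩), (⟨235, (.lf [1, 0, -32])⟩, ⟨230,
  o⟩), (⟨236, (.lf [1, 0, -32])⟩, ⟨231, o⟩), (⟨235, (.lf [1, 0, -16])⟩, ⟨236, (.lf [1, 0,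
  -32])⟩), (⟨231, o⟩, ⟨231, o⟩), (⟨236, (.lf [1, 0, -32])⟩, ⟨236, (.lf [1, 0, -32])⟩), (⟨236,
  (.lf [1, 0, -32])⟩, ⟨231, o⟩)]) (.cl 1 [⟨68, o⟩, ⟨58, o⟩, ⟨58, o⟩, ⟨59, o⟩, ⟨68, o⟩, ⟨53, o⟩]))
  (.sy 178 (.p2 121 250 ⟨239, 12, ⟨717, -198, -248⟩, ⟨678, -147, -224⟩, ⟨56, (.lf [0, 1])⟩, ⟨112,
  (.nd 3 (.nd 3 (.lf [1, -32]) (.nd 3 (.lf [1, -512]) (.lf [4, -31]))) (.lf [1, -32]))⟩, ⟨99,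
  (.lf [0, 1])⟩⟩ ⟨146, 41, ⟨1305, -1246, -268⟩, ⟨1157, -1122, -134⟩, ⟨57, (.lf [0, 1])⟩, ⟨114,
  (.nd 3 (.nd 3 (.nd 3 (.nd 3 (.lf [16, -97]) (.lf [1, -6])) (.lf [4, -26])) o) (.lf [1,
  -128]))⟩, ⟨100, (.lf [0, 1])⟩⟩ [(⟨242, (.lf [1, 0, -19, 0, 0, -2304])⟩, ⟨240, (.lf [1, 0, -64,
  0, 0, -512])⟩), (⟨234, (.lf [1, 0, -8])⟩, ⟨231, o⟩), (⟨242, (.lf [1, 0, -32, 0, 0, -2048])⟩,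
  ⟨241, (.lf [1, 0, -64, 0, 0, -1024])⟩), (⟨236, (.lf [1, 0, -32])⟩, ⟨231, o⟩), (⟨244, (.lf [2,
  0, -28, 0, 0, -5888])⟩, ⟨243, (.lf [1, 0, -64, 0, 0, -4096])⟩), (⟨234, (.lf [1, 0, -2])⟩, ⟨232,
  o⟩), (⟨243, (.lf [1, 0, -24, 0, 0, -2560])⟩, ⟨243, (.lf [1, 0, -64, 0, 0, -3072])⟩), (⟨236,
  (.lf [1, 0, -16])⟩, ⟨232, o⟩), (⟨252, (.nd 2 (.lf [1, 0, -8, 0, 0, -4096]) (.lf [4, 0, -107, 0,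
  0, -11008]))⟩, ⟨243, (.lf [1, 0, -64, 0, 0, -4096])⟩), (⟨234, (.lf [1, 0, -8])⟩, ⟨231, o⟩),
  (⟨255, (.nd 2 (.lf [1, 0, -20, 0, 0, -3072]) (.nd 3 (.lf [1, 0, -28, 0, 0, -2560]) (.lf [1, 0,
  -256, 0, 0, -512])))⟩, ⟨243, (.lf [1, 0, -64, 0, 0, -4096])⟩), (⟨236, (.lf [1, 0, -32])⟩, ⟨231,
  o⟩), (⟨259, (.nd 2 (.nd 2 (.lf [1, 0, -8, 0, 0, -3072]) (.lf [1, 0, 0, 0, 0, -4096])) (.lf [1,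
  0, -23, 0, 0, -3072]))⟩, ⟨243, (.lf [1, 0, -64, 0, 0, -3584])⟩), (⟨235, (.lf [1, 0, -8])⟩,
  ⟨232, o⟩), (⟨259, (.nd 2 (.nd 2 (.lf [1, 0, -19, 0, 0, -2944]) o) (.nd 3 (.lf [1, 0, -24, 0, 0,
  -2560]) (.lf [1, 0, -256])))⟩, ⟨243, (.lf [1, 0, -64, 0, 0, -3072])⟩), (⟨237, (.lf [1, 0,
  -32])⟩, ⟨232, o⟩)]) (.p2 128 435 ⟨166, 17, ⟨717, -198, -248⟩, ⟨678, -147, -224⟩, ⟨56, (.lf [0,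
  1])⟩, ⟨112, (.nd 3 (.nd 3 (.lf [1, -32]) (.nd 3 (.lf [1, -512]) (.lf [4, -31]))) (.lf [1,
  -32]))⟩, ⟨99, (.lf [0, 1])⟩⟩ ⟨92, 55, ⟨1157, -1122, -134⟩, ⟨1062, -1047, -51⟩, ⟨57, (.lf [0,
  1])⟩, ⟨112, (.nd 3 (.nd 3 (.nd 3 (.nd 3 (.lf [4, -23]) (.lf [4, -22])) (.lf [1, -6])) (.lf [4,
  -21])) (.lf [1, -32]))⟩, ⟨100, (.lf [0, 1])⟩⟩ [(⟨257, (.nd 2 (.lf [1, 0, 0, 0, 0, -4096]) (.nd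
  3 (.lf [1, 0, -8, 0, 0, -2048]) (.lf [1, 0, -128])))⟩, ⟨241, (.lf [1, 0, -256, 0, 0, -8])⟩),
  (⟨235, (.lf [1, 0, 0, 0, -1])⟩, ⟨233, o⟩), (⟨257, (.nd 2 (.lf [1, 0, -32, 0, 0, -4096]) (.nd 3
  (.lf [1, 0, -32, 0, 0, -2048]) (.lf [1, 0, -128])))⟩, ⟨242, (.lf [1, 0, -256, 0, 0, -512])⟩),
  (⟨240, (.lf [1, 0, -64, 0, -16])⟩, ⟨233, o⟩), (⟨266, (.nd 2 (.lf [2, 0, -8, 0, 0, -12288]) (.nd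
  3 (.lf [128, 0, -6, 0, 0, -458752]) (.lf [1, 0, -128])))⟩, ⟨247, (.lf [1, 0, -256, 0, 0,
  -8192])⟩), (⟨235, o⟩, ⟨234, o⟩), (⟨259, (.nd 2 (.lf [1, 0, -32, 0, 0, -4096]) (.nd 3 (.lf [1,
  0, -28, 0, 0, -3584]) (.lf [1, 0, -256])))⟩, ⟨247, (.lf [1, 0, -256, 0, 0, -8192])⟩), (⟨240,
  (.lf [1, 0, -32, 0, -8])⟩, ⟨234, o⟩), (⟨258, (.nd 2 (.lf [1, 0, -10, 0, 0, -7168]) (.nd 3 (.lf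
  [1, 0, -32, 0, 0, -3584]) (.lf [1, 0, -256])))⟩, ⟨246, (.lf [1, 0, -256, 0, 0, -12288])⟩),
  (⟨237, (.lf [1, 0, 0, 0, -8])⟩, ⟨233, o⟩), (⟨258, (.nd 2 (.lf [1, 0, -42, 0, 0, -6912]) (.nd 3
  (.lf [1, 0, -40, 0, 0, -3328]) (.lf [1, 0, -512])))⟩, ⟨246, (.lf [1, 0, -256, 0, 0, -8192])⟩),
  (⟨241, (.lf [1, 0, -128])⟩, ⟨233, o⟩), (⟨259, (.nd 2 (.lf [16, 0, -119, 0, 0, -100352]) (.nd 3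
  (.lf [1, 0, -20, 0, 0, -3968]) (.lf [1, 0, -256])))⟩, ⟨247, (.lf [1, 0, -256, 0, 0, -8192])⟩),
  (⟨234, o⟩, ⟨234, o⟩), (⟨267, (.nd 2 (.nd 2 (.nd 3 (.lf [1, 0, -32, 0, 0, -4096]) (.lf [1, 0,
  -64, 0, 0, -4096])) o) (.nd 3 (.lf [1, 0, -38, 0, 0, -3840]) (.lf [1, 0, -512])))⟩, ⟨247, (.lf
  [1, 0, -256, 0, 0, -8192])⟩), (⟨240, (.lf [1, 0, -64])⟩, ⟨234, o⟩)]))))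

theorem cii2_10 : Cov2 pii2 Rii
    ⟨456, 490, 558, 600⟩ ⟨-112, -109, 165, 190, 100, 0, 100, 0⟩ :=
  CT.sound pii2 cii cl_ii tii2_10 _ _ (by decide +kernel)

noncomputable def tii2_11 : CT :=
  (.st 580 (.p2 131 439 ⟨155, 19, ⟨744, -252, -274⟩, ⟨729, -232, -265⟩, ⟨56, (.lf [0, 1])⟩, ⟨115,
  (.nd 3 (.nd 3 (.lf [1, -32]) (.nd 3 (.lf [1, -256]) (.nd 3 (.nd 0 (.lf [2, -17]) (.lf [1, -8]))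
  (.lf [1, -7])))) (.lf [1, -32]))⟩, ⟨99, (.lf [0, 1])⟩⟩ ⟨105, 62, ⟨1335, -1279, -304⟩, ⟨1066,
  -1051, -56⟩, ⟨57, (.lf [0, 1])⟩, ⟨111, (.nd 3 (.nd 3 (.nd 3 (.lf [16, -85]) (.lf [4, -25])) o)
  (.nd 3 (.lf [16, -105]) (.lf [1, -32])))⟩, ⟨100, (.lf [0, 1])⟩⟩ [(⟨234, o⟩, ⟨233, o⟩), (⟨234,
  o⟩, ⟨233, o⟩), (⟨238, (.lf [1, 0, -16, 0, -1])⟩, ⟨233, o⟩), (⟨236, (.lf [1, 0, 0, 0, -4])⟩,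
  ⟨233, o⟩), (⟨234, o⟩, ⟨234, o⟩), (⟨235, o⟩, ⟨234, o⟩), (⟨239, (.lf [1, 0, -32])⟩, ⟨234, o⟩),
  (⟨235, o⟩, ⟨234, o⟩), (⟨233, o⟩, ⟨233, o⟩), (⟨234, o⟩, ⟨233, o⟩), (⟨240, (.lf [1, 0, -64])⟩,
  ⟨233, o⟩), (⟨237, (.lf [1, 0, 0, 0, -8])⟩, ⟨233, o⟩), (⟨234, o⟩, ⟨234, o⟩), (⟨235, o⟩, ⟨234,
  o⟩), (⟨240, (.lf [1, 0, -64])⟩, ⟨234, o⟩), (⟨235, o⟩, ⟨234, o⟩)]) (.sa 462 (.p2 115 429 ⟨159,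
  16, ⟨756, -280, -278⟩, ⟨740, -258, -269⟩, ⟨56, (.lf [0, 1])⟩, ⟨112, (.nd 3 (.nd 3 (.lf [1,
  -32]) (.nd 3 (.lf [1, -32]) (.nd 3 (.lf [1, -10]) (.lf [8, -67])))) (.lf [1, -32]))⟩, ⟨99, (.lf
  [0, 1])⟩⟩ ⟨94, 63, ⟨1324, -1263, -294⟩, ⟨1065, -1049, -55⟩, ⟨56, (.lf [0, 1])⟩, ⟨109, (.nd 3
  (.nd 3 (.nd 3 (.lf [4, -21]) (.lf [4, -25])) o) (.lf [1, -128]))⟩, ⟨100, (.lf [0, 1])⟩⟩ [(⟨238,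
  (.lf [1, 0, -32])⟩, ⟨232, o⟩), (⟨234, o⟩, ⟨233, o⟩), (⟨240, (.lf [1, 0, -128])⟩, ⟨233, o⟩),
  (⟨239, (.lf [1, 0, -32])⟩, ⟨233, o⟩), (⟨239, (.lf [1, 0, -32])⟩, ⟨233, o⟩), (⟨234, o⟩, ⟨234,
  o⟩), (⟨240, (.lf [1, 0, -84])⟩, ⟨233, o⟩), (⟨238, (.lf [1, 0, -16])⟩, ⟨234, o⟩), (⟨239, (.lf
  [1, 0, -64])⟩, ⟨232, o⟩), (⟨234, o⟩, ⟨233, o⟩), (⟨246, (.nd 2 o (.lf [1, 0, -32]))⟩, ⟨233, o⟩),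
  (⟨239, (.lf [1, 0, -32])⟩, ⟨233, o⟩), (⟨240, (.lf [1, 0, -64])⟩, ⟨233, o⟩), (⟨234, o⟩, ⟨234,
  o⟩), (⟨247, (.nd 2 o (.lf [1, 0, -32]))⟩, ⟨233, o⟩), (⟨239, (.lf [1, 0, -32])⟩, ⟨234, o⟩)])
  (.cl 1 [⟨68, o⟩, ⟨58, o⟩, ⟨58, o⟩, ⟨59, o⟩, ⟨68, o⟩, ⟨53, o⟩])))

theorem cii2_11 : Cov2 pii2 Rii
    ⟨456, 490, 558, 600⟩ ⟨-109, -108, 165, 190, 100, 0, 100, 0⟩ :=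
  CT.sound pii2 cii cl_ii tii2_11 _ _ (by decide +kernel)

noncomputable def tii2_12 : CT :=
  (.p2 138 175 ⟨354, 10, ⟨828, -359, -323⟩, ⟨714, -208, -251⟩, ⟨56, (.lf [0, 1])⟩, ⟨111, (.nd 3
  (.nd 3 (.lf [1, -64]) (.nd 3 (.lf [2, -19]) (.nd 3 (.lf [2, -17]) (.lf [4, -31])))) (.lf [1,
  -32]))⟩, ⟨99, (.lf [0, 1])⟩⟩ ⟨273, 18, ⟨1064, -1049, -54⟩, ⟨1001, -1000, 0⟩, ⟨57, (.lf [0,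
  1])⟩, ⟨115, (.nd 3 (.nd 3 (.nd 3 (.nd 3 (.lf [4, -21]) (.nd 2 (.lf [16, -83]) (.lf [16, -81])))
  (.lf [4, -21])) (.lf [1, -5])) (.lf [1, -32]))⟩, ⟨100, (.lf [0, 1])⟩⟩ [(⟨242, (.lf [2, 0, -80,
  0, -4, -3072])⟩, ⟨236, (.lf [1, 0, -64])⟩), (⟨234, (.lf [1, 0, -8])⟩, ⟨230, o⟩), (⟨240, (.lf
  [1, 0, -32, 0, -2, -1024])⟩, ⟨235, (.lf [1, 0, -32])⟩), (⟨234, (.lf [1, 0, -16])⟩, ⟨230, o⟩),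
  (⟨241, (.lf [1, 0, -32, 0, -1, -1024])⟩, ⟨240, (.lf [1, 0, -48, 0, 0, -512])⟩), (⟨231, o⟩,
  ⟨231, o⟩), (⟨241, (.lf [1, 0, -32, 0, -1, -1024])⟩, ⟨240, (.lf [1, 0, -32, 0, 0, -512])⟩),
  (⟨234, (.lf [1, 0, -4])⟩, ⟨231, o⟩), (⟨258, (.nd 3 (.nd 1 o (.nd 2 o (.lf [1, 0, 0, 0, -32,
  -2048]))) (.lf [1, 0, -40, 0, -8, -1792]))⟩, ⟨240, (.lf [1, 0, -48, 0, 0, -1024])⟩), (⟨234,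
  (.lf [1, 0, -8])⟩, ⟨230, o⟩), (⟨245, (.nd 3 (.lf [1, 0, 0, 0, -24, -1536]) (.lf [1, 0, -40, 0,
  -7, -1536]))⟩, ⟨241, (.lf [1, 0, -48, 0, 0, -1536])⟩), (⟨234, (.lf [1, 0, -16])⟩, ⟨230, o⟩),
  (⟨255, (.nd 3 (.nd 2 o (.lf [1, 0, 0, 0, -32, -1024])) (.nd 2 (.lf [1, 0, -16, 0, 0, -2048])
  (.lf [2, 0, -56, 0, -27, -2816])))⟩, ⟨241, (.lf [1, 0, -44, 0, 0, -864])⟩), (⟨234, (.lf [1, 0,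
  -8])⟩, ⟨231, o⟩), (⟨246, (.nd 3 (.lf [1, 0, 0, 0, -24, -1280]) (.lf [1, 0, -32, 0, -8,
  -1024]))⟩, ⟨241, (.lf [1, 0, -40, 0, 0, -1280])⟩), (⟨235, (.lf [1, 0, -16])⟩, ⟨231, o⟩)])

theorem cii2_12 : Cov2 pii2 Rii
    ⟨456, 490, 558, 600⟩ ⟨-115, -108, 190, 200, 100, 0, 100, 0⟩ :=
  CT.sound pii2 cii cl_ii tii2_12 _ _ (by decide +kernel)

noncomputable def tii2_13 : CT :=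
  (.sa 461 (.p2 117 223 ⟨265, 11, ⟨763, -293, -288⟩, ⟨717, -230, -259⟩, ⟨56, (.lf [0, 1])⟩, ⟨115,
  (.nd 3 (.nd 3 (.lf [1, -32]) (.nd 3 (.lf [1, -128]) (.lf [512, -4281]))) (.lf [1, -32]))⟩, ⟨99,
  (.lf [0, 1])⟩⟩ ⟨171, 39, ⟨1340, -1282, -312⟩, ⟨1001, -1000, 0⟩, ⟨57, (.lf [0, 1])⟩, ⟨111, (.nd
  3 (.nd 3 (.nd 3 (.lf [1, -5]) (.lf [16, -97])) (.lf [1, -5])) (.lf [16, -106]))⟩, ⟨100, (.lf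
  [0, 1])⟩⟩ [(⟨234, (.lf [1, 0, -16])⟩, ⟨230, o⟩), (⟨233, (.lf [1, 0, -4])⟩, ⟨231, o⟩), (⟨236,
  (.lf [1, 0, -64])⟩, ⟨230, o⟩), (⟨237, (.lf [1, 0, -64])⟩, ⟨230, o⟩), (⟨235, (.lf [1, 0, -16])⟩,
  ⟨232, (.lf [1, 0, -1])⟩), (⟨232, (.lf [1, 0, -1])⟩, ⟨231, o⟩), (⟨236, (.lf [1, 0, -32])⟩, ⟨231,
  o⟩), (⟨237, (.lf [1, 0, -64])⟩, ⟨231, o⟩), (⟨235, (.lf [1, 0, -20])⟩, ⟨235, (.lf [1, 0,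
  -32])⟩), (⟨232, (.lf [1, 0, -2])⟩, ⟨231, o⟩), (⟨235, (.lf [1, 0, -32])⟩, ⟨235, (.lf [1, 0,
  -32])⟩), (⟨237, (.lf [1, 0, -64, 0, -2])⟩, ⟨230, o⟩), (⟨235, (.lf [1, 0, -20])⟩, ⟨236, (.lf [1,
  0, -32])⟩), (⟨234, (.lf [1, 0, -4])⟩, ⟨231, o⟩), (⟨236, (.lf [1, 0, -32])⟩, ⟨236, (.lf [1, 0,
  -32])⟩), (⟨237, (.lf [1, 0, -64, 0, -2])⟩, ⟨231, o⟩)]) (.cl 1 [⟨68, o⟩, ⟨58, o⟩, ⟨58, o⟩, ⟨59,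
  o⟩, ⟨68, o⟩, ⟨53, o⟩]))

theorem cii2_13 : Cov2 pii2 Rii
    ⟨456, 490, 558, 600⟩ ⟨-108, -105, 165, 200, 100, 0, 100, 0⟩ :=
  CT.sound pii2 cii cl_ii tii2_13 _ _ (by decide +kernel)

noncomputable def tii2_14 : CT :=
  (.cl 1 [⟨69, o⟩, ⟨58, o⟩, ⟨58, o⟩, ⟨59, o⟩, ⟨68, o⟩, ⟨53, o⟩])

theorem cii2_14 : Cov2 pii2 Rii
    ⟨456, 490, 558, 600⟩ ⟨-105, 400, 0, 200, 100, 0, 100, 0⟩ :=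
  CT.sound pii2 cii cl_ii tii2_14 _ _ (by decide +kernel)

theorem covii2 : Cov2 pii2 Rii
    ⟨456, 490, 558, 600⟩ ⟨-400, 400, 0, 200, 100, 0, 100, 0⟩ :=
  (Cov2.sx (-105) (Cov2.sy 130 cii2_1 (Cov2.sx (-145) cii2_2 (Cov2.sx (-125) (Cov2.sy 165 cii2_3
  cii2_4) (Cov2.sy 165 (Cov2.sx (-115) cii2_5 (Cov2.sx (-108) cii2_6 cii2_7)) (Cov2.sx (-115)
  cii2_8 (Cov2.sx (-108) (Cov2.sy 190 (Cov2.sx (-112) cii2_9 (Cov2.sx (-109) cii2_10 cii2_11))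
  cii2_12) cii2_13)))))) cii2_14)

end Pool.Agent.Lib.MP_43bc59_co.P18
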