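import Pool.Agent.Lib.MP_43bc59_co.F_N2

set_option autoImplicit false
set_option maxRecDepth 100000

namespace Pool.Agent.Lib.MP_43bc59_co.P18

open Bx

def pii3 : Pm := ⟨200, 840, -105, 0, 0, 5, 5, ⟨11, -10, -14⟩⟩

noncomputable def tii3_1 : CT :=
  (.p1 98 103 111 119 0 107 0 158 false false 62 120 [(⟨138, o⟩, ⟨138, o⟩)])

theorem cii3_1 : Cov2 pii3 Rii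
    ⟨490, 515, 558, 593⟩ ⟨-500, -205, 0, 158, 100, 0, 100, 0⟩ :=
  CT.sound pii3 cii cl_ii tii3_1 _ _ (by decide +kernel)

noncomputable def tii3_2 : CT :=
  (.sa 505 (.sa 500 (.p1 98 100 111 119 86 145 0 89 false false 48 136 [(⟨138, o⟩, ⟨138, o⟩)])
  (.st 586 (.p1 100 101 111 118 93 148 0 89 false false 52 160 [(⟨138, o⟩, ⟨138, o⟩)]) (.cl 3
  [⟨63, o⟩]))) (.st 583 (.st 570 (.p1 101 103 111 114 98 155 0 89 false false 58 160 [(⟨138, o⟩,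
  ⟨139, o⟩)]) (.p1 101 103 114 117 97 154 0 89 false false 54 160 [(⟨138, o⟩, ⟨139, o⟩)])) (.cl 3
  [⟨63, o⟩])))

theorem cii3_2 : Cov2 pii3 Rii
    ⟨490, 515, 558, 593⟩ ⟨-205, -157, 0, 89, 100, 0, 100, 0⟩ :=
  CT.sound pii3 cii cl_ii tii3_2 _ _ (by decide +kernel)

noncomputable def tii3_3 : CT :=
  (.sx (-191) (.p1 98 103 111 119 86 121 89 137 false false 60 120 [(⟨138, o⟩, ⟨138, o⟩)]) (.sy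
  123 (.p2 81 187 ⟨142, 33, ⟨1622, -2194, -188⟩, ⟨724, -573, 43⟩, ⟨57, (.lf [0, 1])⟩, ⟨119, (.nd
  3 (.nd 3 (.nd 3 (.lf [8, -82]) (.lf [1, -2048])) (.nd 3 (.lf [8, -65]) (.nd 3 (.lf [4, -30])
  (.nd 2 o (.nd 0 (.lf [1, -7]) (.lf [4, -27])))))) (.lf [1, -128]))⟩, ⟨101, (.lf [0, 1])⟩⟩ ⟨126,
  63, ⟨2248, -2247, 0⟩, ⟨1627, -1626, 0⟩, ⟨56, o⟩, ⟨99, (.lf [1, -8])⟩, ⟨101, o⟩⟩ [(⟨251, o⟩,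
  ⟨251, o⟩), (⟨252, o⟩, ⟨252, o⟩), (⟨251, o⟩, ⟨251, o⟩), (⟨252, o⟩, ⟨252, o⟩), (⟨254, o⟩, ⟨254,
  o⟩), (⟨254, o⟩, ⟨254, o⟩), (⟨254, o⟩, ⟨254, o⟩), (⟨254, o⟩, ⟨254, o⟩), (⟨251, o⟩, ⟨251, o⟩),
  (⟨252, o⟩, ⟨252, o⟩), (⟨260, (.lf [1, 0, 0, 0, 0, -512])⟩, ⟨261, (.lf [1, 0, 0, 0, 0,
  -1024])⟩), (⟨252, o⟩, ⟨252, o⟩), (⟨252, o⟩, ⟨252, o⟩), (⟨253, o⟩, ⟨253, o⟩), (⟨261, (.lf [1, 0,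
  0, 0, 0, -512])⟩, ⟨262, (.lf [1, 0, -2, 0, 0, -1024])⟩), (⟨252, o⟩, ⟨252, o⟩)]) (.p2 96 187
  ⟨255, 19, ⟨1622, -2194, -188⟩, ⟨724, -573, 43⟩, ⟨57, (.lf [0, 1])⟩, ⟨119, (.nd 3 (.nd 3 (.nd 3
  (.lf [8, -82]) (.lf [1, -2048])) (.nd 3 (.lf [8, -65]) (.nd 3 (.lf [4, -30]) (.nd 2 o (.nd 0
  (.lf [1, -7]) (.lf [4, -27])))))) (.lf [1, -128]))⟩, ⟨101, (.lf [0, 1])⟩⟩ ⟨134, 63, ⟨1627,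
  -1626, 0⟩, ⟨1461, -1460, 0⟩, ⟨57, (.lf [0, 1])⟩, ⟨100, (.lf [4, -29])⟩, ⟨101, o⟩⟩ [(⟨262, (.lf
  [1, 0, -8, 0, 0, -1024])⟩, ⟨252, o⟩), (⟨256, (.lf [1, 0, -8])⟩, ⟨253, o⟩), (⟨262, (.lf [1, 0,
  -16, 0, 0, -1024])⟩, ⟨252, o⟩), (⟨262, (.lf [1, 0, -32, 0, 0, -512])⟩, ⟨253, o⟩), (⟨255, o⟩,
  ⟨255, o⟩), (⟨255, o⟩, ⟨255, o⟩), (⟨255, o⟩, ⟨255, o⟩), (⟨255, o⟩, ⟨255, o⟩), (⟨268, (.nd 3 (.lf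
  [1, 0, -2, 0, 0, -1024]) (.lf [1, 0, -12, 0, 0, -1536]))⟩, ⟨263, (.lf [1, 0, -16, 0, 0,
  -2048])⟩), (⟨262, (.lf [1, 0, -4, 0, 0, -512])⟩, ⟨253, o⟩), (⟨304, (.nd 3 (.nd 2 (.lf [2, 0,
  -5, 0, 0, -3072]) (.nd 3 (.nd 2 (.nd 0 (.lf [1, 0, -2, 0, 0, -1024]) (.nd 1 (.lf [1, 0, -8, 0,
  0, -1024]) (.lf [1, 0, -8, 0, 0, -2048]))) (.lf [1, 0, -12, 0, 0, -1280])) (.lf [1, 0, 0, 0, 0,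
  -1024]))) (.lf [8, 0, -107, 0, 0, -11392]))⟩, ⟨263, (.lf [1, 0, -20, 0, 0, -1792])⟩), (⟨263,
  (.lf [1, 0, -16, 0, 0, -1024])⟩, ⟨263, (.lf [1, 0, -8, 0, 0, -1024])⟩), (⟨272, (.nd 2 (.lf [1,
  0, 0, 0, 0, -1792]) (.lf [1, 0, -4, 0, 0, -1024]))⟩, ⟨264, (.lf [1, 0, -16, 0, 0, -1792])⟩),
  (⟨260, (.lf [1, 0, -4, 0, 0, -64])⟩, ⟨253, o⟩), (⟨280, (.nd 3 (.nd 2 (.lf [16, 0, -22, 0, 0,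
  -21504]) (.lf [4, 0, -23, 0, 0, -5120])) (.nd 2 (.lf [1, 0, -7, 0, 0, -1280]) (.lf [1, 0, -128,
  0, 0, -512])))⟩, ⟨264, (.lf [1, 0, -16, 0, 0, -1536])⟩), (⟨264, (.lf [1, 0, -8, 0, 0, -1024])⟩,
  ⟨263, (.lf [1, 0, -8, 0, 0, -1024])⟩)])))

theorem cii3_3 : Cov2 pii3 Rii
    ⟨490, 515, 558, 593⟩ ⟨-205, -157, 89, 137, 100, 0, 100, 0⟩ :=
  CT.sound pii3 cii cl_ii tii3_3 _ _ (by decide +kernel)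

noncomputable def tii3_4 : CT :=
  (.p2 95 104 ⟨190, 30, ⟨3635, -5977, -827⟩, ⟨946, -961, -9⟩, ⟨57, (.lf [0, 1])⟩, ⟨116, (.nd 3
  (.nd 3 (.lf [1, -12]) (.nd 3 (.lf [2, -18]) (.lf [4, -30]))) (.nd 3 (.nd 3 (.lf [64, -1611])
  (.lf [1, -16])) (.lf [1, -4096])))⟩, ⟨102, (.lf [0, 1])⟩⟩ ⟨217, 35, ⟨2073, -1949, -1014⟩,
  ⟨1399, -1326, -350⟩, ⟨57, (.lf [0, 1])⟩, ⟨111, (.nd 3 (.nd 3 (.nd 3 (.lf [1, -7]) (.lf [4,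
  -30])) o) (.nd 3 (.nd 3 (.lf [1, -10]) (.lf [2, -19])) (.lf [1, -512])))⟩, ⟨101, (.lf [0, 1])⟩⟩
  [(⟨250, o⟩, ⟨250, o⟩), (⟨251, o⟩, ⟨251, o⟩), (⟨250, o⟩, ⟨250, o⟩), (⟨251, o⟩, ⟨251, o⟩), (⟨254,
  o⟩, ⟨254, o⟩), (⟨254, o⟩, ⟨254, o⟩), (⟨254, o⟩, ⟨254, o⟩), (⟨254, o⟩, ⟨254, o⟩), (⟨250, o⟩,
  ⟨254, (.lf [1, 0, 0, 0, 0, -16])⟩), (⟨251, o⟩, ⟨251, o⟩), (⟨259, (.lf [1, 0, 0, 0, 0, -368])⟩,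
  ⟨258, (.lf [1, 0, -1, 0, 0, -256])⟩), (⟨258, (.lf [1, 0, 0, 0, 0, -256])⟩, ⟨256, (.lf [1, 0, 0,
  0, 0, -64])⟩), (⟨251, o⟩, ⟨257, (.lf [1, 0, 0, 0, 0, -64])⟩), (⟨252, o⟩, ⟨252, o⟩), (⟨268, (.nd
  2 (.lf [1, 0, 0, 0, 0, -64]) (.lf [1, 0, 0, 0, 0, -512]))⟩, ⟨260, (.lf [1, 0, 0, 0, 0,
  -332])⟩), (⟨260, (.lf [1, 0, 0, 0, 0, -256])⟩, ⟨259, (.lf [1, 0, 0, 0, 0, -128])⟩)])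

theorem cii3_4 : Cov2 pii3 Rii
    ⟨490, 515, 558, 593⟩ ⟨-205, -171, 137, 158, 100, 0, 100, 0⟩ :=
  CT.sound pii3 cii cl_ii tii3_4 _ _ (by decide +kernel)

noncomputable def tii3_5 : CT :=
  (.sy 148 (.p2 100 174 ⟨234, 15, ⟨987, -1049, -20⟩, ⟨749, -626, 36⟩, ⟨56, (.lf [0, 1])⟩, ⟨112,
  (.nd 3 (.nd 3 (.lf [1, -64]) (.nd 3 (.lf [32, -269]) (.nd 3 (.lf [4, -30]) (.lf [1, -7]))))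
  (.lf [1, -32]))⟩, ⟨100, (.lf [0, 1])⟩⟩ ⟨160, 47, ⟨2110, -1989, -1059⟩, ⟨1634, -1539, -579⟩,
  ⟨57, (.lf [0, 1])⟩, ⟨118, (.nd 3 (.nd 3 (.nd 3 o (.lf [8, -66])) o) (.nd 3 (.nd 3 (.lf [2,
  -21]) (.nd 3 (.nd 1 (.lf [2, -18]) (.lf [1, -10])) (.nd 1 (.lf [2, -17]) (.lf [1, -10])))) (.lf
  [1, -256])))⟩, ⟨101, (.lf [0, 1])⟩⟩ [(⟨254, (.lf [1, 0, -4])⟩, ⟨252, o⟩), (⟨253, o⟩, ⟨253, o⟩),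
  (⟨261, (.lf [1, 0, -8, 0, 0, -512])⟩, ⟨252, o⟩), (⟨256, (.lf [1, 0, -8])⟩, ⟨252, o⟩), (⟨253,
  o⟩, ⟨253, o⟩), (⟨254, o⟩, ⟨254, o⟩), (⟨255, (.lf [1, 0, -2])⟩, ⟨253, o⟩), (⟨254, o⟩, ⟨254, o⟩),
  (⟨264, (.lf [4, 0, -23, 0, 0, -4352])⟩, ⟨262, (.lf [1, 0, 0, 0, 0, -1024])⟩), (⟨255, (.lf [1,
  0, -4])⟩, ⟨252, o⟩), (⟨275, (.nd 3 (.nd 2 (.lf [1, 0, 0, 0, 0, -1024]) (.lf [1, 0, -7, 0, 0,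
  -1024])) (.lf [1, 0, -16, 0, 0, -1024]))⟩, ⟨262, (.lf [1, 0, -16, 0, 0, -1024])⟩), (⟨262, (.lf
  [1, 0, -8, 0, 0, -1024])⟩, ⟨252, o⟩), (⟨268, (.lf [32, 0, -104, 0, 0, -37888])⟩, ⟨263, (.lf [1,
  0, -8, 0, 0, -1024])⟩), (⟨255, (.lf [1, 0, -2])⟩, ⟨253, o⟩), (⟨276, (.nd 3 (.nd 2 (.lf [1, 0,
  0, 0, 0, -1024]) (.lf [1, 0, -5, 0, 0, -1024])) (.lf [1, 0, -8, 0, 0, -1024]))⟩, ⟨263, (.lf [1,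
  0, -12, 0, 0, -1280])⟩), (⟨263, (.lf [1, 0, -8, 0, 0, -1024])⟩, ⟨253, o⟩)]) (.st 575 (.p2 114
  195 ⟨269, 13, ⟨998, -1071, -23⟩, ⟨755, -639, 35⟩, ⟨56, (.lf [0, 1])⟩, ⟨112, (.nd 3 (.nd 3 (.lf
  [1, -64]) (.nd 3 (.lf [2, -17]) (.nd 3 (.lf [4, -30]) (.lf [1, -7])))) (.lf [1, -32]))⟩, ⟨100,
  (.lf [0, 1])⟩⟩ ⟨151, 46, ⟨1665, -1574, -614⟩, ⟨1423, -1353, -378⟩, ⟨56, (.lf [0, 1])⟩, ⟨111,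
  (.nd 3 (.nd 3 (.nd 3 o (.lf [4, -30])) o) (.nd 3 (.nd 3 (.lf [1, -64]) (.lf [8, -67])) (.lf [1,
  -32])))⟩, ⟨101, (.lf [0, 1])⟩⟩ [(⟨255, (.lf [1, 0, -4])⟩, ⟨253, o⟩), (⟨256, (.lf [1, 0, -4])⟩,
  ⟨253, o⟩), (⟨257, (.lf [1, 0, -16])⟩, ⟨253, o⟩), (⟨256, (.lf [1, 0, -8])⟩, ⟨253, o⟩), (⟨254,
  o⟩, ⟨254, o⟩), (⟨255, o⟩, ⟨255, o⟩), (⟨254, o⟩, ⟨254, o⟩), (⟨255, o⟩, ⟨255, o⟩), (⟨256, (.lf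
  [1, 0, -8])⟩, ⟨253, o⟩), (⟨255, (.lf [1, 0, -4])⟩, ⟨253, o⟩), (⟨256, (.lf [1, 0, -8])⟩, ⟨253,
  o⟩), (⟨257, (.lf [1, 0, -16])⟩, ⟨253, o⟩), (⟨256, (.lf [1, 0, -4])⟩, ⟨254, o⟩), (⟨254, o⟩,
  ⟨254, o⟩), (⟨256, (.lf [1, 0, -6])⟩, ⟨254, o⟩), (⟨256, (.lf [1, 0, -4])⟩, ⟨254, o⟩)]) (.p2 110
  245 ⟨236, 14, ⟨977, -1028, -17⟩, ⟨744, -614, 37⟩, ⟨56, (.lf [0, 1])⟩, ⟨112, (.nd 3 (.nd 3 (.lf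
  [1, -64]) (.nd 3 (.lf [2, -17]) (.nd 3 (.lf [4, -30]) (.lf [1, -7])))) (.lf [1, -32]))⟩, ⟨100,
  (.lf [0, 1])⟩⟩ ⟨123, 52, ⟨1604, -1505, -546⟩, ⟨1391, -1317, -343⟩, ⟨56, (.lf [0, 1])⟩, ⟨113,
  (.nd 3 (.nd 3 (.nd 3 (.lf [1, -7]) (.nd 3 (.lf [4, -29]) (.lf [1, -8]))) o) (.lf [2, -19]))⟩,
  ⟨101, (.lf [0, 1])⟩⟩ [(⟨264, (.lf [1, 0, -4, 0, 0, -1024])⟩, ⟨254, o⟩), (⟨264, (.lf [1, 0, -4,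
  0, 0, -1024])⟩, ⟨254, o⟩), (⟨265, (.lf [1, 0, -16, 0, 0, -2048])⟩, ⟨254, o⟩), (⟨259, (.lf [1,
  0, -32])⟩, ⟨254, o⟩), (⟨255, o⟩, ⟨255, o⟩), (⟨256, o⟩, ⟨255, o⟩), (⟨264, (.lf [1, 0, 0, 0, 0,
  -512])⟩, ⟨255, o⟩), (⟨256, o⟩, ⟨255, o⟩), (⟨273, (.nd 2 (.lf [1, 0, -1, 0, 0, -2048]) (.lf [1,
  0, -16, 0, 0, -2048]))⟩, ⟨266, (.lf [1, 0, -64, 0, 0, -4096])⟩), (⟨258, (.lf [1, 0, -16])⟩,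
  ⟨254, o⟩), (⟨282, (.nd 2 (.nd 2 (.lf [1, 0, -7, 0, 0, -2560]) (.lf [1, 0, 0, 0, 0, -4096]))
  (.nd 3 (.lf [1, 0, -16, 0, 0, -2560]) (.lf [1, 0, -256])))⟩, ⟨266, (.lf [1, 0, -64, 0, 0,
  -4096])⟩), (⟨264, (.lf [1, 0, -32, 0, 0, -1024])⟩, ⟨254, o⟩), (⟨274, (.nd 2 (.lf [1, 0, 0, 0,
  0, -2560]) (.lf [1, 0, -8, 0, 0, -2048]))⟩, ⟨266, (.lf [1, 0, -48, 0, 0, -3072])⟩), (⟨258, (.lf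
  [1, 0, -8])⟩, ⟨255, o⟩), (⟨295, (.nd 2 (.nd 3 (.nd 2 (.nd 3 (.lf [16, 0, -94, 0, 0, -37376])
  (.lf [1, 0, 0, 0, 0, -2560])) (.lf [1, 0, 0, 0, 0, -3072])) (.lf [1, 0, -14, 0, 0, -2560]))
  (.nd 3 (.nd 2 (.lf [32, 0, -312, 0, 0, -75008]) (.lf [1, 0, -16, 0, 0, -2048])) (.lf [1, 0,
  -256])))⟩, ⟨266, (.lf [1, 0, -40, 0, 0, -3072])⟩), (⟨266, (.lf [1, 0, -32, 0, 0, -2048])⟩,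
  ⟨255, o⟩)])))

theorem cii3_5 : Cov2 pii3 Rii
    ⟨490, 505, 558, 593⟩ ⟨-171, -157, 137, 158, 100, 0, 100, 0⟩ :=
  CT.sound pii3 cii cl_ii tii3_5 _ _ (by decide +kernel)

noncomputable def tii3_6 : CT :=
  (.st 583 (.p2 116 293 ⟨187, 17, ⟨886, -839, 7⟩, ⟨688, -500, 53⟩, ⟨56, (.lf [0, 1])⟩, ⟨112, (.nd
  3 (.nd 3 (.lf [1, -32]) (.nd 3 (.lf [1, -8]) (.nd 3 (.lf [1, -7]) (.lf [4, -27])))) (.lf [1,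
  -32]))⟩, ⟨100, (.lf [0, 1])⟩⟩ ⟨114, 63, ⟨2049, -1929, -985⟩, ⟨1394, -1323, -344⟩, ⟨56, (.lf [0,
  1])⟩, ⟨110, (.nd 3 (.nd 3 (.nd 3 (.lf [1, -7]) (.lf [4, -29])) o) (.nd 3 (.nd 3 (.lf [1, -10])
  (.lf [2, -18])) (.lf [1, -128])))⟩, ⟨101, (.lf [0, 1])⟩⟩ [(⟨255, o⟩, ⟨254, o⟩), (⟨255, o⟩,
  ⟨255, o⟩), (⟨255, o⟩, ⟨254, o⟩), (⟨255, o⟩, ⟨255, o⟩), (⟨256, o⟩, ⟨256, o⟩), (⟨256, o⟩, ⟨256,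
  o⟩), (⟨256, o⟩, ⟨256, o⟩), (⟨256, o⟩, ⟨256, o⟩), (⟨275, (.nd 2 (.lf [1, 0, 0, 0, 0, -4096])
  (.lf [1, 0, 0, 0, 0, -128]))⟩, ⟨262, (.lf [1, 0, 0, 0, 0, -256])⟩), (⟨255, o⟩, ⟨255, o⟩),
  (⟨278, (.nd 2 (.lf [2, 0, -4, 0, 0, -5120]) (.nd 3 (.lf [1, 0, -8, 0, 0, -2048]) (.lf [1, 0,
  -32, 0, 0, -2048])))⟩, ⟨266, (.lf [1, 0, -64, 0, 0, -4096])⟩), (⟨265, (.lf [1, 0, -32, 0, 0,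
  -1024])⟩, ⟨255, o⟩), (⟨275, (.nd 2 (.lf [1, 0, 0, 0, 0, -3968]) (.lf [1, 0, 0, 0, 0, -512]))⟩,
  ⟨265, (.lf [1, 0, -32, 0, 0, -1024])⟩), (⟨256, o⟩, ⟨256, o⟩), (⟨305, (.nd 2 (.nd 2 (.nd 3 (.nd
  2 (.nd 3 (.lf [1, 0, 0, 0, 0, -3072]) (.lf [1, 0, 0, 0, 0, -3392])) (.nd 3 (.nd 3 (.lf [1, 0,
  0, 0, 0, -2560]) (.lf [1, 0, 0, 0, 0, -2566])) (.lf [1, 0, 0, 0, 0, -3072]))) (.nd 2 (.lf [1,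
  0, 0, 0, 0, -3072]) (.lf [128, 0, -1068, 0, 0, -333568]))) (.lf [1, 0, 0, 0, 0, -3968])) (.nd 3
  (.lf [8, 0, -18, 0, 0, -18432]) (.lf [1, 0, -64, 0, 0, -2048])))⟩, ⟨267, (.lf [1, 0, -40, 0, 0,
  -4096])⟩), (⟨266, (.lf [1, 0, -16, 0, 0, -1024])⟩, ⟨255, o⟩)]) (.cl 3 [⟨63, o⟩]))

theorem cii3_6 : Cov2 pii3 Rii
    ⟨505, 515, 558, 593⟩ ⟨-171, -157, 137, 158, 100, 0, 100, 0⟩ :=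
  CT.sound pii3 cii cl_ii tii3_6 _ _ (by decide +kernel)

noncomputable def tii3_7 : CT :=
  (.sx (-206) (.sa 505 (.p1 98 101 111 119 0 99 158 200 false true 106 240 [(⟨141, o⟩, ⟨141, o⟩),
  (⟨141, o⟩, ⟨141, o⟩), (⟨137, o⟩, ⟨134, o⟩)]) (.st 583 (.p1 101 103 111 117 0 106 158 200 false
  true 114 280 [(⟨142, o⟩, ⟨142, o⟩), (⟨142, o⟩, ⟨142, o⟩), (⟨138, o⟩, ⟨136, o⟩)]) (.cl 3 [⟨63,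
  o⟩]))) (.sy 187 (.p2 104 105 ⟨142, 40, ⟨4209, -6998, -1070⟩, ⟨1377, -1741, -120⟩, ⟨57, (.lf [0,
  1])⟩, ⟨147, (.nd 3 (.nd 3 (.nd 3 (.lf [8, -94]) (.lf [1, -16])) (.nd 3 (.lf [8, -74]) o)) (.nd
  3 (.lf [1, -16]) (.nd 0 (.nd 3 (.nd 2 (.nd 0 (.lf [1, -128]) (.nd 3 (.nd 2 (.lf [1, -64]) (.nd
  1 (.nd 0 (.lf [1, -128]) (.nd 2 (.lf [1, -64]) (.nd 3 (.lf [1, -56]) (.lf [1, -2048])))) (.lf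
  [1, -128]))) (.lf [1, -24]))) (.lf [1, -64])) (.lf [1, -2048])) (.lf [1, -128]))))⟩, ⟨103, (.lf
  [0, 1])⟩⟩ ⟨263, 24, ⟨1399, -1326, -350⟩, ⟨1080, -1061, -65⟩, ⟨57, (.lf [0, 1])⟩, ⟨115, (.nd 3
  (.nd 3 (.nd 3 (.nd 3 (.lf [16, -98]) (.lf [4, -22])) (.lf [4, -26])) (.lf [16, -86])) (.lf [1,
  -512]))⟩, ⟨100, (.lf [0, 1])⟩⟩ [(⟨250, o⟩, ⟨250, o⟩), (⟨250, o⟩, ⟨251, o⟩), (⟨250, o⟩, ⟨250,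
  o⟩), (⟨250, o⟩, ⟨251, o⟩), (⟨254, o⟩, ⟨254, o⟩), (⟨254, o⟩, ⟨254, o⟩), (⟨254, o⟩, ⟨254, o⟩),
  (⟨254, o⟩, ⟨254, o⟩), (⟨250, o⟩, ⟨250, o⟩), (⟨250, o⟩, ⟨251, o⟩), (⟨250, o⟩, ⟨263, (.lf [16, 0,
  -5, 0, 0, -5120])⟩), (⟨250, o⟩, ⟨251, o⟩), (⟨252, o⟩, ⟨252, o⟩), (⟨252, o⟩, ⟨253, o⟩), (⟨252,
  o⟩, ⟨300, (.nd 3 (.nd 3 (.lf [1, 0, 0, 0, 0, -256]) (.nd 2 (.lf [1, 0, 0, 0, 0, -128]) (.nd 0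
  (.lf [1, 0, -1, 0, 0, -256]) (.nd 3 (.lf [8, 0, -2, 0, 0, -2048]) (.nd 2 (.lf [1, 0, 0, 0, 0,
  -256]) (.lf [4, 0, -7, 0, 0, -1024])))))) (.lf [8, 0, 0, 0, -4, -1792]))⟩), (⟨252, o⟩, ⟨253,
  o⟩)]) (.sx (-196) (.p2 111 71 ⟨160, 35, ⟨4209, -6998, -1070⟩, ⟨1982, -2868, -290⟩, ⟨57, (.lf
  [0, 1])⟩, ⟨146, (.nd 3 (.nd 3 (.nd 3 (.lf [1, -12]) (.nd 0 (.nd 3 (.lf [1, -16]) (.lf [1,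
  -17])) (.lf [1, -16]))) (.lf [2, -19])) (.nd 3 (.lf [1, -28]) (.nd 0 (.nd 3 (.nd 0 (.lf [1,
  -128]) (.nd 3 (.nd 2 (.nd 1 (.nd 0 (.lf [1, -128]) (.nd 2 (.lf [1, -128]) (.nd 3 (.lf [1, -64])
  (.lf [1, -2048])))) (.lf [1, -128])) (.lf [1, -64])) (.lf [1, -32]))) (.lf [1, -2048])) (.lf
  [1, -64]))))⟩, ⟨104, (.lf [0, 1])⟩⟩ ⟨290, 15, ⟨1080, -1061, -65⟩, ⟨1001, -1000, 0⟩, ⟨57, (.lf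
  [0, 1])⟩, ⟨114, (.nd 3 (.nd 3 (.lf [16, -85]) (.nd 3 (.nd 3 (.lf [1, -5]) (.lf [16, -82])) o))
  (.lf [1, -32]))⟩, ⟨100, (.lf [0, 1])⟩⟩ [(⟨248, o⟩, ⟨249, o⟩), (⟨249, o⟩, ⟨250, o⟩), (⟨248, o⟩,
  ⟨249, o⟩), (⟨249, o⟩, ⟨250, o⟩), (⟨252, o⟩, ⟨253, o⟩), (⟨252, o⟩, ⟨253, o⟩), (⟨252, o⟩, ⟨253,
  o⟩), (⟨252, o⟩, ⟨253, o⟩), (⟨248, o⟩, ⟨253, (.lf [1, 0, 0, 0, 0, -16])⟩), (⟨249, o⟩, ⟨250, o⟩),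
  (⟨248, o⟩, ⟨255, (.lf [1, 0, 0, 0, 0, -64])⟩), (⟨249, o⟩, ⟨250, o⟩), (⟨251, o⟩, ⟨256, (.lf [1,
  0, 0, 0, 0, -16])⟩), (⟨251, o⟩, ⟨252, o⟩), (⟨251, o⟩, ⟨271, (.nd 3 (.nd 2 (.lf [1, 0, 0, 0, 0,
  -2]) (.lf [1, 0, 0, 0, 0, -96])) o)⟩), (⟨251, o⟩, ⟨252, o⟩)]) (.p2 121 88 ⟨205, 25, ⟨1982,
  -2868, -290⟩, ⟨1377, -1741, -120⟩, ⟨57, (.lf [0, 1])⟩, ⟨120, (.nd 3 (.nd 3 (.nd 3 (.nd 3 (.lf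
  [2, -27]) (.lf [2, -23])) (.nd 0 (.nd 3 (.lf [1, -14]) (.lf [1, -16])) (.lf [1, -1024]))) (.nd
  3 (.lf [8, -74]) o)) (.lf [1, -256]))⟩, ⟨102, (.lf [0, 1])⟩⟩ ⟨278, 16, ⟨1080, -1061, -65⟩,
  ⟨1001, -1000, 0⟩, ⟨57, (.lf [0, 1])⟩, ⟨114, (.nd 3 (.nd 3 (.lf [16, -85]) (.nd 3 (.nd 3 (.lf
  [1, -5]) (.lf [16, -82])) o)) (.lf [1, -32]))⟩, ⟨100, (.lf [0, 1])⟩⟩ [(⟨249, o⟩, ⟨250, o⟩),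
  (⟨250, o⟩, ⟨250, o⟩), (⟨250, o⟩, ⟨256, (.lf [1, 0, 0, 0, 0, -64])⟩), (⟨250, o⟩, ⟨250, o⟩),
  (⟨252, o⟩, ⟨257, (.lf [1, 0, 0, 0, 0, -16])⟩), (⟨252, o⟩, ⟨253, o⟩), (⟨252, o⟩, ⟨259, (.lf [1,
  0, 0, 0, 0, -64])⟩), (⟨252, o⟩, ⟨253, o⟩), (⟨249, o⟩, ⟨257, (.lf [1, 0, -1, 0, 0, -128])⟩),
  (⟨250, o⟩, ⟨250, o⟩), (⟨249, o⟩, ⟨257, (.lf [1, 0, -1, 0, 0, -128])⟩), (⟨250, o⟩, ⟨250, o⟩),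
  (⟨251, o⟩, ⟨262, (.lf [8, 0, -6, 0, 0, -768])⟩), (⟨252, o⟩, ⟨252, o⟩), (⟨251, o⟩, ⟨265, (.lf
  [64, 0, -24, 0, 0, -9216])⟩), (⟨252, o⟩, ⟨252, o⟩)]))))

theorem cii3_7 : Cov2 pii3 Rii
    ⟨490, 515, 558, 593⟩ ⟨-500, -186, 158, 200, 100, 0, 100, 0⟩ :=
  CT.sound pii3 cii cl_ii tii3_7 _ _ (by decide +kernel)

noncomputable def tii3_8 : CT :=
  (.sy 187 (.p2 116 109 ⟨308, 15, ⟨1377, -1741, -120⟩, ⟨1083, -1206, -43⟩, ⟨56, (.lf [0, 1])⟩,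
  ⟨114, (.nd 3 (.nd 3 (.nd 3 (.lf [2, -22]) (.lf [1, -64])) (.nd 3 (.nd 3 (.lf [8, -70]) (.lf [8,
  -77])) (.lf [4, -31]))) (.lf [1, -64]))⟩, ⟨101, (.lf [0, 1])⟩⟩ ⟨303, 21, ⟨1399, -1326, -350⟩,
  ⟨1080, -1061, -65⟩, ⟨57, (.lf [0, 1])⟩, ⟨115, (.nd 3 (.nd 3 (.nd 3 (.nd 3 (.lf [16, -98]) (.lf
  [4, -22])) (.lf [4, -26])) (.lf [16, -86])) (.lf [1, -512]))⟩, ⟨100, (.lf [0, 1])⟩⟩ [(⟨251, o⟩,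
  ⟨251, o⟩), (⟨252, o⟩, ⟨251, o⟩), (⟨260, (.lf [1, 0, -8, 0, 0, -512])⟩, ⟨260, (.lf [1, 0, -4, 0,
  0, -512])⟩), (⟨260, (.lf [1, 0, -8, 0, 0, -512])⟩, ⟨251, o⟩), (⟨253, o⟩, ⟨260, (.lf [1, 0, -7,
  0, 0, -96])⟩), (⟨253, o⟩, ⟨253, o⟩), (⟨262, (.lf [1, 0, -4, 0, 0, -512])⟩, ⟨261, (.lf [1, 0,
  -4, 0, 0, -256])⟩), (⟨256, (.lf [4, 0, -1])⟩, ⟨253, o⟩), (⟨260, (.lf [1, 0, -4, 0, 0, -512])⟩,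
  ⟨258, (.lf [1, 0, -4, 0, 0, -128])⟩), (⟨251, o⟩, ⟨251, o⟩), (⟨269, (.nd 2 o (.lf [2, 0, -19, 0,
  0, -1280]))⟩, ⟨260, (.lf [1, 0, -8, 0, 0, -512])⟩), (⟨260, (.lf [1, 0, -8, 0, 0, -512])⟩, ⟨260,
  (.lf [1, 0, -1, 0, 0, -512])⟩), (⟨262, (.lf [1, 0, -2, 0, 0, -512])⟩, ⟨261, (.lf [1, 0, -6, 0,
  0, -448])⟩), (⟨253, o⟩, ⟨253, o⟩), (⟨282, (.nd 2 o (.nd 3 (.lf [1, 0, 0, 0, -4, -512]) (.nd 2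
  (.lf [1, 0, -4, 0, 0, -512]) (.lf [1, 0, -6, 0, -10, -320]))))⟩, ⟨263, (.lf [4, 0, -17, 0, 0,
  -1792])⟩), (⟨263, (.lf [2, 0, -5, 0, 0, -1280])⟩, ⟨261, (.lf [1, 0, 0, 0, 0, -256])⟩)]) (.p2
  129 118 ⟨235, 19, ⟨1377, -1741, -120⟩, ⟨1083, -1206, -43⟩, ⟨56, (.lf [0, 1])⟩, ⟨114, (.nd 3
  (.nd 3 (.nd 3 (.lf [2, -22]) (.lf [1, -64])) (.nd 3 (.nd 3 (.lf [8, -70]) (.lf [8, -77])) (.lf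
  [4, -31]))) (.lf [1, -64]))⟩, ⟨101, (.lf [0, 1])⟩⟩ ⟨185, 24, ⟨1080, -1061, -65⟩, ⟨1001, -1000,
  0⟩, ⟨57, (.lf [0, 1])⟩, ⟨114, (.nd 3 (.nd 3 (.lf [16, -85]) (.nd 3 (.nd 3 (.lf [1, -5]) (.lf
  [16, -82])) o)) (.lf [1, -32]))⟩, ⟨100, (.lf [0, 1])⟩⟩ [(⟨251, o⟩, ⟨258, (.lf [1, 0, 0, 0, 0,
  -128])⟩), (⟨251, o⟩, ⟨251, o⟩), (⟨251, o⟩, ⟨258, (.lf [1, 0, 0, 0, 0, -128])⟩), (⟨251, o⟩,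
  ⟨251, o⟩), (⟨253, o⟩, ⟨261, (.lf [2, 0, -7, 0, 0, -384])⟩), (⟨253, o⟩, ⟨253, o⟩), (⟨253, o⟩,
  ⟨261, (.lf [1, 0, -1, 0, 0, -256])⟩), (⟨253, o⟩, ⟨253, o⟩), (⟨251, o⟩, ⟨259, (.lf [1, 0, -4, 0,
  0, -256])⟩), (⟨251, o⟩, ⟨251, o⟩), (⟨251, o⟩, ⟨259, (.lf [1, 0, -4, 0, 0, -256])⟩), (⟨251, o⟩,
  ⟨251, o⟩), (⟨258, (.lf [1, 0, 0, 0, 0, -64])⟩, ⟨261, (.lf [2, 0, -6, 0, 0, -384])⟩), (⟨253, o⟩,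
  ⟨253, o⟩), (⟨252, o⟩, ⟨261, (.lf [2, 0, -5, 0, 0, -384])⟩), (⟨253, o⟩, ⟨253, o⟩)]))

theorem cii3_8 : Cov2 pii3 Rii
    ⟨490, 515, 558, 593⟩ ⟨-186, -177, 158, 200, 100, 0, 100, 0⟩ :=
  CT.sound pii3 cii cl_ii tii3_8 _ _ (by decide +kernel)

noncomputable def tii3_9 : CT :=
  (.p2 118 291 ⟨235, 16, ⟨1083, -1206, -43⟩, ⟨807, -716, 24⟩, ⟨56, (.lf [0, 1])⟩, ⟨117, (.nd 3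
  (.nd 3 (.lf [1, -256]) (.nd 3 (.nd 3 (.lf [8, -65]) (.lf [2, -18])) (.nd 3 (.nd 0 (.lf [1, -8])
  (.lf [4, -29])) (.lf [1, -7])))) (.lf [1, -64]))⟩, ⟨100, (.lf [0, 1])⟩⟩ ⟨100, 62, ⟨1399, -1326,
  -350⟩, ⟨1220, -1174, -187⟩, ⟨57, (.lf [0, 1])⟩, ⟨117, (.nd 3 (.nd 3 (.nd 3 (.nd 3 (.lf [16,
  -102]) (.lf [4, -25])) (.nd 3 (.lf [64, -425]) (.lf [1, -7]))) o) (.lf [1, -512]))⟩, ⟨101, (.lf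
  [0, 1])⟩⟩ [(⟨271, (.nd 3 (.lf [1, 0, -32, 0, 0, -2048]) (.lf [1, 0, -32, 0, 0, -2048]))⟩, ⟨254,
  o⟩), (⟨265, (.lf [1, 0, -64, 0, -16, -1024])⟩, ⟨255, o⟩), (⟨271, (.nd 3 (.lf [1, 0, -32, 0, 0,
  -2048]) (.lf [1, 0, -64, 0, 0, -2048]))⟩, ⟨264, (.lf [1, 0, 0, 0, 0, -1024])⟩), (⟨265, (.lf [1,
  0, -64, 0, 0, -1024])⟩, ⟨255, o⟩), (⟨266, (.lf [1, 0, 0, 0, 0, -1024])⟩, ⟨265, (.lf [1, 0, 0,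
  0, 0, -512])⟩), (⟨257, o⟩, ⟨256, o⟩), (⟨267, (.lf [1, 0, -32, 0, 0, -2048])⟩, ⟨267, (.lf [1, 0,
  0, 0, 0, -2048])⟩), (⟨268, (.lf [1, 0, -16, 0, 0, -2048])⟩, ⟨256, o⟩), (⟨279, (.nd 2 (.lf [1,
  0, -8, 0, 0, -3072]) (.nd 3 (.lf [1, 0, -16, 0, 0, -2048]) (.lf [1, 0, -128, 0, 0, -2048])))⟩,
  ⟨266, (.lf [1, 0, -64, 0, 0, -4096])⟩), (⟨265, (.lf [1, 0, -64, 0, 0, -1024])⟩, ⟨255, o⟩),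
  (⟨304, (.nd 2 (.nd 2 (.nd 3 (.lf [2, 0, -31, 0, 0, -5888]) (.lf [1, 0, -32, 0, 0, -3072])) (.lf
  [1, 0, 0, 0, 0, -4096])) (.nd 3 (.nd 3 (.nd 2 (.nd 3 (.nd 2 (.lf [1, 0, -28, 0, 0, -2048]) (.lf
  [1, 0, -19, 0, 0, -2560])) (.lf [1, 0, -40, 0, 0, -2560])) (.lf [1, 0, -32, 0, 0, -2048])) (.lf
  [1, 0, 0, 0, 0, -2048])) (.lf [1, 0, -256, 0, 0, -1024])))⟩, ⟨266, (.lf [1, 0, -64, 0, 0,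
  -4096])⟩), (⟨278, (.nd 2 (.lf [1, 0, -40, 0, 0, -2048]) (.nd 3 (.lf [1, 0, -32, 0, 0, -1024])
  (.lf [1, 0, -128, 0, 0, -512])))⟩, ⟨266, (.lf [1, 0, -64, 0, 0, -2048])⟩), (⟨278, (.nd 2 (.lf
  [8, 0, -7, 0, 0, -24576]) (.lf [1, 0, -28, 0, 0, -2560]))⟩, ⟨268, (.lf [1, 0, -64, 0, 0,
  -4096])⟩), (⟨267, (.lf [1, 0, -32, 0, 0, -2048])⟩, ⟨256, o⟩), (⟨322, (.nd 2 (.nd 2 (.nd 3 (.nd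
  3 (.nd 2 (.lf [1, 0, 0, 0, 0, -3072]) (.nd 0 (.lf [1, 0, 0, 0, 0, -2048]) (.nd 3 (.lf [1, 0, 0,
  0, 0, -3072]) (.nd 2 (.lf [2, 0, -19, 0, 0, -5888]) (.lf [2, 0, -32, 0, 0, -5632]))))) (.lf [1,
  0, 0, 0, 0, -3072])) (.lf [4, 0, -72, 0, 0, -11648])) (.lf [1, 0, 0, 0, 0, -4096])) (.nd 3 (.lf
  [1, 0, -16, 0, 0, -2688]) (.lf [1, 0, -128, 0, 0, -1024])))⟩, ⟨268, (.lf [1, 0, -64, 0, 0,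
  -4096])⟩), (⟨275, (.nd 2 (.lf [1, 0, -32, 0, 0, -2048]) (.lf [1, 0, -40, 0, 0, -1536]))⟩, ⟨267,
  (.lf [1, 0, -64, 0, 0, -2048])⟩)])

theorem cii3_9 : Cov2 pii3 Rii
    ⟨490, 515, 558, 593⟩ ⟨-177, -163, 158, 171, 100, 0, 100, 0⟩ :=
  CT.sound pii3 cii cl_ii tii3_9 _ _ (by decide +kernel)

noncomputable def tii3_10 : CT :=
  (.st 575 (.p2 130 347 ⟨182, 16, ⟨845, -797, 14⟩, ⟨755, -639, 35⟩, ⟨56, (.lf [0, 1])⟩, ⟨112,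
  (.nd 3 (.nd 3 (.lf [1, -32]) (.nd 3 (.lf [1, -8]) (.nd 3 (.lf [4, -30]) (.lf [1, -7])))) (.lf
  [1, -32]))⟩, ⟨100, (.lf [0, 1])⟩⟩ ⟨112, 56, ⟨1423, -1353, -378⟩, ⟨1231, -1186, -199⟩, ⟨56, (.lf
  [0, 1])⟩, ⟨112, (.nd 3 (.nd 3 (.nd 3 (.lf [1, -6]) (.lf [16, -109])) o) (.lf [1, -512]))⟩,
  ⟨101, (.lf [0, 1])⟩⟩ [(⟨256, o⟩, ⟨255, o⟩), (⟨256, o⟩, ⟨256, o⟩), (⟨256, o⟩, ⟨255, o⟩), (⟨256,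
  o⟩, ⟨256, o⟩), (⟨257, o⟩, ⟨256, o⟩), (⟨257, o⟩, ⟨257, o⟩), (⟨257, o⟩, ⟨256, o⟩), (⟨257, o⟩,
  ⟨257, o⟩), (⟨256, o⟩, ⟨255, o⟩), (⟨256, o⟩, ⟨256, o⟩), (⟨256, o⟩, ⟨255, o⟩), (⟨256, o⟩, ⟨256,
  o⟩), (⟨257, o⟩, ⟨256, o⟩), (⟨257, o⟩, ⟨257, o⟩), (⟨257, o⟩, ⟨256, o⟩), (⟨257, o⟩, ⟨257, o⟩)])
  (.sy 162 (.p2 114 210 ⟨232, 12, ⟨830, -766, 18⟩, ⟨744, -614, 37⟩, ⟨56, (.lf [0, 1])⟩, ⟨110,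
  (.nd 3 (.nd 3 (.lf [1, -32]) (.nd 3 (.lf [1, -64]) (.nd 3 (.lf [1, -8]) (.lf [1, -7])))) (.lf
  [1, -32]))⟩, ⟨100, (.lf [0, 1])⟩⟩ ⟨152, 38, ⟨1391, -1317, -343⟩, ⟨1328, -1263, -285⟩, ⟨56, (.lf
  [0, 1])⟩, ⟨112, (.nd 3 (.nd 3 (.nd 3 (.lf [4, -27]) (.lf [16, -114])) o) (.lf [1, -64]))⟩,
  ⟨101, (.lf [0, 1])⟩⟩ [(⟨263, (.lf [1, 0, -8, 0, 0, -1024])⟩, ⟨253, o⟩), (⟨256, (.lf [1, 0,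
  -4])⟩, ⟨253, o⟩), (⟨264, (.lf [1, 0, -16, 0, 0, -2048])⟩, ⟨253, o⟩), (⟨256, (.lf [1, 0, -8])⟩,
  ⟨253, o⟩), (⟨264, (.lf [1, 0, -4, 0, 0, -1024])⟩, ⟨264, (.lf [1, 0, 0, 0, 0, -1024])⟩), (⟨254,
  o⟩, ⟨254, o⟩), (⟨265, (.lf [1, 0, -8, 0, 0, -2048])⟩, ⟨264, (.lf [1, 0, 0, 0, 0, -1024])⟩),
  (⟨256, (.lf [1, 0, -2])⟩, ⟨254, o⟩), (⟨264, (.lf [1, 0, -8, 0, 0, -2048])⟩, ⟨264, (.lf [1, 0,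
  -32, 0, 0, -2048])⟩), (⟨256, (.lf [1, 0, -8])⟩, ⟨253, o⟩), (⟨270, (.nd 3 (.lf [2, 0, -18, 0, 0,
  -4608]) (.lf [1, 0, -32, 0, 0, -2048]))⟩, ⟨264, (.lf [1, 0, -32, 0, 0, -2048])⟩), (⟨263, (.lf
  [1, 0, -16, 0, 0, -1024])⟩, ⟨253, o⟩), (⟨274, (.nd 3 (.lf [32, 0, -27, 0, 0, -53248]) (.lf [1,
  0, -16, 0, 0, -2048]))⟩, ⟨265, (.lf [1, 0, -32, 0, 0, -2048])⟩), (⟨257, (.lf [1, 0, -8])⟩,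
  ⟨254, o⟩), (⟨278, (.nd 3 (.nd 2 (.lf [1, 0, 0, 0, 0, -2048]) (.lf [1, 0, -6, 0, 0, -1536]))
  (.lf [1, 0, -16, 0, 0, -2048]))⟩, ⟨265, (.lf [1, 0, -24, 0, 0, -1792])⟩), (⟨263, (.lf [1, 0,
  -16, 0, 0, -512])⟩, ⟨254, o⟩)]) (.sy 167 (.p2 120 212 ⟨248, 11, ⟨830, -766, 18⟩, ⟨744, -614,
  37⟩, ⟨56, (.lf [0, 1])⟩, ⟨110, (.nd 3 (.nd 3 (.lf [1, -32]) (.nd 3 (.lf [1, -64]) (.nd 3 (.lf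
  [1, -8]) (.lf [1, -7])))) (.lf [1, -32]))⟩, ⟨100, (.lf [0, 1])⟩⟩ ⟨157, 35, ⟨1328, -1263, -285⟩,
  ⟨1262, -1207, -225⟩, ⟨56, (.lf [0, 1])⟩, ⟨114, (.nd 3 (.nd 3 (.nd 3 (.lf [64, -418]) (.lf [1,
  -7])) o) (.lf [1, -64]))⟩, ⟨101, (.lf [0, 1])⟩⟩ [(⟨264, (.lf [1, 0, -16, 0, 0, -2048])⟩, ⟨253,
  o⟩), (⟨257, (.lf [1, 0, -8])⟩, ⟨254, o⟩), (⟨264, (.lf [1, 0, -16, 0, 0, -2048])⟩, ⟨253, o⟩),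
  (⟨258, (.lf [1, 0, -16])⟩, ⟨254, o⟩), (⟨265, (.lf [1, 0, -4, 0, 0, -2048])⟩, ⟨264, (.lf [1, 0,
  0, 0, 0, -1024])⟩), (⟨255, o⟩, ⟨255, o⟩), (⟨265, (.lf [1, 0, -8, 0, 0, -2048])⟩, ⟨265, (.lf [1,
  0, 0, 0, 0, -2048])⟩), (⟨257, (.lf [1, 0, -4])⟩, ⟨255, o⟩), (⟨269, (.nd 3 (.lf [1, 0, -8, 0, 0,
  -2048]) (.lf [1, 0, -32, 0, 0, -2048]))⟩, ⟨264, (.lf [1, 0, -32, 0, 0, -2048])⟩), (⟨258, (.lf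
  [1, 0, -16])⟩, ⟨254, o⟩), (⟨272, (.nd 2 (.lf [1, 0, -2, 0, 0, -2048]) (.lf [1, 0, -14, 0, 0,
  -2048]))⟩, ⟨264, (.lf [1, 0, -32, 0, 0, -2048])⟩), (⟨264, (.lf [1, 0, -16, 0, 0, -1024])⟩,
  ⟨253, o⟩), (⟨274, (.nd 2 (.lf [1, 0, 0, 0, 0, -2048]) (.lf [2, 0, -18, 0, 0, -3840]))⟩, ⟨265,
  (.lf [1, 0, -32, 0, 0, -2048])⟩), (⟨258, (.lf [1, 0, -8])⟩, ⟨254, o⟩), (⟨283, (.nd 2 (.lf [1,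
  0, -1, 0, 0, -2048]) (.nd 3 (.nd 3 (.lf [1, 0, -10, 0, 0, -1792]) (.lf [1, 0, 0, 0, 0, -2048]))
  (.lf [1, 0, -16, 0, 0, -2048])))⟩, ⟨265, (.lf [1, 0, -32, 0, 0, -2048])⟩), (⟨263, (.lf [1, 0,
  -16, 0, 0, -256])⟩, ⟨254, o⟩)]) (.p2 123 221 ⟨253, 11, ⟨830, -766, 18⟩, ⟨744, -614, 37⟩, ⟨56,
  (.lf [0, 1])⟩, ⟨110, (.nd 3 (.nd 3 (.lf [1, -32]) (.nd 3 (.lf [1, -64]) (.nd 3 (.lf [1, -8])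
  (.lf [1, -7])))) (.lf [1, -32]))⟩, ⟨100, (.lf [0, 1])⟩⟩ ⟨148, 35, ⟨1262, -1207, -225⟩, ⟨1217,
  -1169, -184⟩, ⟨56, (.lf [0, 1])⟩, ⟨111, (.nd 3 (.nd 3 (.nd 3 (.lf [16, -102]) (.lf [1, -8])) o)
  (.lf [1, -32]))⟩, ⟨100, (.lf [0, 1])⟩⟩ [(⟨264, (.lf [1, 0, -16, 0, 0, -2048])⟩, ⟨253, o⟩),
  (⟨257, (.lf [1, 0, -8])⟩, ⟨254, o⟩), (⟨264, (.lf [1, 0, -16, 0, 0, -2048])⟩, ⟨261, (.lf [1, 0,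
  0, 0, 0, -256])⟩), (⟨258, (.lf [1, 0, -16])⟩, ⟨254, o⟩), (⟨266, (.lf [1, 0, -4, 0, 0, -2048])⟩,
  ⟨266, (.lf [1, 0, -4, 0, 0, -2048])⟩), (⟨256, (.lf [1, 0, -2])⟩, ⟨255, o⟩), (⟨266, (.lf [1, 0,
  -8, 0, 0, -2048])⟩, ⟨266, (.lf [1, 0, -8, 0, 0, -2048])⟩), (⟨258, (.lf [1, 0, -8])⟩, ⟨255, o⟩),
  (⟨272, (.nd 2 (.lf [1, 0, 0, 0, 0, -2048]) (.lf [1, 0, -16, 0, 0, -2048]))⟩, ⟨264, (.lf [1, 0,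
  -32, 0, 0, -2048])⟩), (⟨261, (.lf [1, 0, -16, 0, 0, -128])⟩, ⟨254, o⟩), (⟨272, (.nd 2 (.lf [1,
  0, -4, 0, 0, -2048]) (.lf [1, 0, -16, 0, 0, -2048]))⟩, ⟨264, (.lf [1, 0, -32, 0, 0, -2048])⟩),
  (⟨264, (.lf [1, 0, -16, 0, 0, -1024])⟩, ⟨254, o⟩), (⟨273, (.nd 2 (.lf [1, 0, 0, 0, 0, -2048])
  (.lf [1, 0, -10, 0, 0, -2048]))⟩, ⟨265, (.lf [1, 0, -32, 0, 0, -2048])⟩), (⟨259, (.lf [1, 0,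
  -16])⟩, ⟨255, o⟩), (⟨279, (.nd 2 (.lf [1, 0, -1, 0, 0, -2048]) (.nd 3 (.lf [2, 0, -20, 0, 0,
  -3840]) (.lf [1, 0, -128, 0, 0, -1024])))⟩, ⟨265, (.lf [1, 0, -32, 0, 0, -2048])⟩), (⟨264, (.lf
  [1, 0, -16, 0, 0, -512])⟩, ⟨255, o⟩)]))))

theorem cii3_10 : Cov2 pii3 Rii
    ⟨490, 505, 558, 593⟩ ⟨-163, -157, 158, 171, 100, 0, 100, 0⟩ :=
  CT.sound pii3 cii cl_ii tii3_10 _ _ (by decide +kernel)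

noncomputable def tii3_11 : CT :=
  (.st 583 (.p2 130 319 ⟨172, 15, ⟨762, -626, 36⟩, ⟨688, -500, 53⟩, ⟨56, (.lf [0, 1])⟩, ⟨113,
  (.nd 3 (.nd 3 (.lf [1, -32]) (.nd 3 (.lf [1, -128]) (.nd 3 (.lf [16, -113]) (.lf [4, -27]))))
  (.lf [1, -32]))⟩, ⟨99, (.lf [0, 1])⟩⟩ ⟨122, 48, ⟨1394, -1323, -344⟩, ⟨1218, -1173, -184⟩, ⟨56,
  (.lf [0, 1])⟩, ⟨110, (.nd 3 (.nd 3 (.nd 3 (.lf [4, -25]) (.lf [1, -7])) o) (.lf [1, -128]))⟩,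
  ⟨101, (.lf [0, 1])⟩⟩ [(⟨255, o⟩, ⟨255, o⟩), (⟨256, o⟩, ⟨255, o⟩), (⟨255, o⟩, ⟨255, o⟩), (⟨255,
  o⟩, ⟨255, o⟩), (⟨256, o⟩, ⟨256, o⟩), (⟨256, o⟩, ⟨256, o⟩), (⟨265, (.lf [1, 0, 0, 0, 0, -512])⟩,
  ⟨266, (.lf [1, 0, 0, 0, 0, -1024])⟩), (⟨256, o⟩, ⟨256, o⟩), (⟨267, (.lf [1, 0, 0, 0, 0,
  -2816])⟩, ⟨267, (.lf [1, 0, 0, 0, 0, -4096])⟩), (⟨255, o⟩, ⟨255, o⟩), (⟨279, (.nd 2 (.lf [1, 0,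
  0, 0, 0, -4096]) (.nd 3 (.lf [1, 0, -16, 0, 0, -2048]) (.lf [1, 0, -16, 0, 0, -2048])))⟩, ⟨267,
  (.lf [1, 0, -32, 0, 0, -4096])⟩), (⟨255, o⟩, ⟨255, o⟩), (⟨276, (.nd 2 (.lf [1, 0, 0, 0, 0,
  -4096]) (.lf [1, 0, -7, 0, 0, -3072]))⟩, ⟨268, (.lf [1, 0, -64, 0, 0, -4096])⟩), (⟨256, o⟩,
  ⟨256, o⟩), (⟨284, (.nd 2 (.nd 2 (.lf [1, 0, 0, 0, 0, -3072]) (.lf [1, 0, 0, 0, 0, -4096])) (.nd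
  3 (.lf [4, 0, -6, 0, 0, -10240]) (.lf [1, 0, -256, 0, 0, -1024])))⟩, ⟨268, (.lf [1, 0, -64, 0,
  0, -4096])⟩), (⟨256, o⟩, ⟨256, o⟩)]) (.cl 3 [⟨63, o⟩]))

theorem cii3_11 : Cov2 pii3 Rii
    ⟨505, 515, 558, 593⟩ ⟨-163, -157, 158, 171, 100, 0, 100, 0⟩ :=
  CT.sound pii3 cii cl_ii tii3_11 _ _ (by decide +kernel)

noncomputable def tii3_12 : CT :=
  (.sy 180 (.p2 122 67 ⟨656, 6, ⟨1083, -1206, -43⟩, ⟨872, -830, 9⟩, ⟨56, (.lf [0, 1])⟩, ⟨115,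
  (.nd 3 (.nd 3 (.lf [1, -128]) (.nd 3 (.nd 3 (.lf [32, -266]) (.lf [8, -74])) (.nd 3 (.lf [16,
  -123]) (.lf [1, -7])))) (.lf [1, -64]))⟩, ⟨100, (.lf [0, 1])⟩⟩ ⟨386, 14, ⟨1220, -1174, -187⟩,
  ⟨1134, -1103, -111⟩, ⟨57, (.lf [0, 1])⟩, ⟨116, (.nd 3 (.nd 3 (.nd 3 (.nd 3 (.lf [1, -6]) (.lf
  [64, -378])) (.lf [4, -25])) (.lf [4, -22])) (.lf [1, -64]))⟩, ⟨100, (.lf [0, 1])⟩⟩ [(⟨272,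
  (.nd 2 o (.nd 3 (.lf [1, 0, 0, 0, 0, -512]) (.lf [1, 0, -8, 0, 0, -256])))⟩, ⟨256, (.lf [1, 0,
  0, 0, 0, -64])⟩), (⟨262, (.lf [16, 0, -90, 0, 0, -2304])⟩, ⟨250, o⟩), (⟨271, (.nd 2 o (.nd 3
  (.lf [1, 0, 0, 0, -4, -256]) (.lf [1, 0, -8, 0, 0, -256])))⟩, ⟨257, (.lf [1, 0, 0, 0, 0,
  -128])⟩), (⟨266, (.nd 2 o (.lf [1, 0, -7, 0, 0, -192]))⟩, ⟨250, o⟩), (⟨273, (.nd 2 o (.lf [64,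
  0, -258, 0, 0, -12288]))⟩, ⟨258, (.lf [1, 0, -2, 0, 0, -128])⟩), (⟨260, (.lf [2, 0, -6, 0, 0,
  -224])⟩, ⟨252, o⟩), (⟨272, (.nd 2 o (.nd 3 (.lf [1, 0, 0, 0, -1, -256]) (.lf [1, 0, -8, 0, 0,
  -128])))⟩, ⟨258, (.lf [1, 0, -2, 0, 0, -128])⟩), (⟨258, (.lf [1, 0, -4, 0, 0, -64])⟩, ⟨252,
  o⟩), (⟨271, (.nd 2 (.lf [1, 0, 0, 0, 0, -64]) (.nd 3 (.lf [1, 0, 0, 0, -4, -320]) (.lf [1, 0,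
  -8, 0, 0, -256])))⟩, ⟨259, (.lf [2, 0, -7, 0, 0, -448])⟩), (⟨266, (.nd 2 o (.lf [1, 0, -6, 0,
  0, -192]))⟩, ⟨250, o⟩), (⟨283, (.nd 2 (.lf [16, 0, -5, 0, 0, -3584]) (.nd 3 (.nd 3 (.nd 2 (.lf
  [1, 0, -2, 0, 0, -256]) (.lf [1, 0, -4, 0, -4, -256])) (.lf [1, 0, 0, 0, 0, -256])) (.lf [1, 0,
  -8, 0, 0, -256])))⟩, ⟨258, (.lf [2, 0, -6, 0, 0, -384])⟩), (⟨271, (.nd 2 (.lf [1, 0, -2, 0, 0,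
  -256]) (.nd 3 (.lf [1, 0, -2, 0, -1, -256]) (.lf [1, 0, -8, 0, 0, -128])))⟩, ⟨260, (.lf [8, 0,
  -1, 0, 0, -1024])⟩), (⟨283, (.nd 2 (.lf [1, 0, 0, 0, 0, -128]) (.nd 3 (.nd 3 (.lf [64, 0, -113,
  0, 0, -21504]) (.lf [1, 0, 0, 0, 0, -256])) (.lf [1, 0, -6, 0, 0, -192])))⟩, ⟨261, (.lf [8, 0,
  -19, 0, 0, -1024])⟩), (⟨267, (.nd 2 o (.lf [1, 0, -4, 0, 0, -128]))⟩, ⟨251, o⟩), (⟨291, (.nd 2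
  (.nd 2 (.lf [1, 0, 0, 0, 0, -256]) (.lf [1, 0, 0, 0, 0, -128])) (.nd 3 (.nd 3 (.nd 2 (.lf [1,
  0, -1, 0, 0, -256]) (.nd 3 (.lf [1, 0, 0, 0, -4, -192]) (.lf [4, 0, -20, 0, -5, -768]))) (.lf
  [1, 0, 0, 0, -1, -256])) (.lf [256, 0, -1654, 0, 0, -42272])))⟩, ⟨269, (.nd 2 (.lf [1, 0, 0, 0,
  0, -128]) (.lf [8, 0, -20, 0, 0, -1216]))⟩), (⟨272, (.nd 2 (.lf [16, 0, -1, 0, 0, -4096]) (.nd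
  3 (.lf [1, 0, -1, 0, 0, -256]) (.lf [1, 0, -6, 0, 0, -128])))⟩, ⟨258, (.lf [1, 0, 0, 0, 0,
  -128])⟩)]) (.sy 190 (.p2 131 195 ⟨371, 11, ⟨1083, -1206, -43⟩, ⟨872, -830, 9⟩, ⟨56, (.lf [0,
  1])⟩, ⟨115, (.nd 3 (.nd 3 (.lf [1, -128]) (.nd 3 (.nd 3 (.lf [32, -266]) (.lf [8, -74])) (.nd 3
  (.lf [16, -123]) (.lf [1, -7])))) (.lf [1, -64]))⟩, ⟨100, (.lf [0, 1])⟩⟩ ⟨137, 35, ⟨1134,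
  -1103, -111⟩, ⟨1060, -1045, -48⟩, ⟨57, (.lf [0, 1])⟩, ⟨111, (.nd 3 (.nd 3 (.nd 3 (.lf [16,
  -89]) (.lf [1, -128])) (.lf [4, -21])) (.lf [1, -32]))⟩, ⟨100, (.lf [0, 1])⟩⟩ [(⟨273, (.nd 3
  (.nd 3 (.lf [1, 0, -40, 0, 0, -1536]) (.lf [1, 0, 0, 0, 0, -512])) (.lf [1, 0, -64, 0, 0,
  -2048]))⟩, ⟨261, (.lf [1, 0, -64, 0, 0, -128])⟩), (⟨264, (.lf [1, 0, -64, 0, 0, -1024])⟩, ⟨254,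
  o⟩), (⟨273, (.nd 3 (.nd 3 (.lf [1, 0, -40, 0, 0, -1536]) (.lf [1, 0, 0, 0, 0, -1024])) (.lf [1,
  0, -64, 0, 0, -2048]))⟩, ⟨263, (.lf [1, 0, -64, 0, 0, -1024])⟩), (⟨264, (.lf [1, 0, -64, 0, 0,
  -1024])⟩, ⟨264, (.lf [1, 0, 0, 0, 0, -1024])⟩), (⟨271, (.nd 3 (.lf [1, 0, -6, 0, 0, -2048])
  (.lf [1, 0, -16, 0, 0, -2048]))⟩, ⟨266, (.lf [1, 0, -32, 0, 0, -2048])⟩), (⟨266, (.lf [1, 0,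
  -32, 0, 0, -2048])⟩, ⟨255, o⟩), (⟨265, (.lf [1, 0, -18, 0, 0, -1536])⟩, ⟨265, (.lf [1, 0, -32,
  0, 0, -1024])⟩), (⟨265, (.lf [1, 0, -32, 0, 0, -1024])⟩, ⟨255, o⟩), (⟨282, (.nd 3 (.nd 3 (.nd 2
  (.lf [1, 0, -4, 0, 0, -2048]) (.lf [1, 0, -32, 0, 0, -1536])) (.lf [1, 0, 0, 0, -4, -2048]))
  (.lf [1, 0, -40, 0, 0, -1792]))⟩, ⟨264, (.lf [1, 0, -56, 0, 0, -2048])⟩), (⟨264, (.lf [1, 0,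
  -32, 0, 0, -1024])⟩, ⟨264, (.lf [1, 0, 0, 0, 0, -1024])⟩), (⟨294, (.nd 3 (.nd 3 (.nd 2 (.lf [1,
  0, -16, 0, 0, -2048]) (.nd 3 (.nd 1 (.lf [1, 0, -30, 0, 0, -1280]) (.lf [1, 0, -30, 0, 0,
  -1920])) (.lf [1, 0, -36, 0, 0, -1536]))) (.lf [1, 0, 0, 0, -10, -1536])) (.lf [1, 0, -40, 0,
  0, -1792]))⟩, ⟨264, (.lf [1, 0, -32, 0, 0, -2048])⟩), (⟨263, (.lf [1, 0, -40, 0, 0, -768])⟩,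
  ⟨264, (.lf [1, 0, -32, 0, 0, -1024])⟩), (⟨275, (.nd 3 (.nd 3 (.lf [1, 0, -16, 0, 0, -2048])
  (.lf [1, 0, 0, 0, 0, -2048])) (.lf [1, 0, -16, 0, 0, -2048]))⟩, ⟨266, (.lf [2, 0, -78, 0, 0,
  -3328])⟩), (⟨265, (.lf [1, 0, -32, 0, 0, -1024])⟩, ⟨255, o⟩), (⟨282, (.nd 3 (.nd 3 (.nd 2 (.lf
  [1, 0, -14, 0, 0, -1536]) (.lf [1, 0, -18, 0, 0, -1472])) (.lf [1, 0, 0, 0, -2, -2048])) (.lf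
  [1, 0, -20, 0, 0, -1536]))⟩, ⟨265, (.lf [1, 0, -32, 0, 0, -1536])⟩), (⟨265, (.lf [1, 0, -32, 0,
  0, -1024])⟩, ⟨265, (.lf [1, 0, -8, 0, 0, -1024])⟩)]) (.p2 139 167 ⟨298, 13, ⟨1083, -1206, -43⟩,
  ⟨872, -830, 9⟩, ⟨56, (.lf [0, 1])⟩, ⟨115, (.nd 3 (.nd 3 (.lf [1, -128]) (.nd 3 (.nd 3 (.lf [32,
  -266]) (.lf [8, -74])) (.nd 3 (.lf [16, -123]) (.lf [1, -7])))) (.lf [1, -64]))⟩, ⟨100, (.lf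
  [0, 1])⟩⟩ ⟨201, 21, ⟨1060, -1045, -48⟩, ⟨1001, -1000, 0⟩, ⟨57, (.lf [0, 1])⟩, ⟨106, (.nd 3 (.nd
  3 (.lf [4, -21]) (.lf [1, -5])) (.lf [1, -32]))⟩, ⟨100, (.lf [0, 1])⟩⟩ [(⟨260, (.lf [1, 0, -16,
  0, 0, -128])⟩, ⟨262, (.lf [1, 0, -16, 0, 0, -512])⟩), (⟨256, (.lf [1, 0, -8])⟩, ⟨253, o⟩),
  (⟨263, (.lf [1, 0, -16, 0, 0, -1024])⟩, ⟨265, (.lf [4, 0, -2, 0, 0, -4096])⟩), (⟨257, (.lf [1,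
  0, -16])⟩, ⟨253, o⟩), (⟨260, (.lf [1, 0, -8, 0, 0, -64])⟩, ⟨264, (.lf [1, 0, -16, 0, 0,
  -1024])⟩), (⟨255, o⟩, ⟨255, o⟩), (⟨263, (.lf [1, 0, -8, 0, 0, -512])⟩, ⟨263, (.lf [1, 0, -16,
  0, 0, -512])⟩), (⟨255, (.lf [1, 0, -1])⟩, ⟨255, o⟩), (⟨263, (.lf [1, 0, -8, 0, 0, -1024])⟩,
  ⟨263, (.lf [1, 0, -28, 0, 0, -1280])⟩), (⟨256, (.lf [1, 0, -8])⟩, ⟨253, o⟩), (⟨263, (.lf [1, 0,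
  -16, 0, 0, -1024])⟩, ⟨263, (.lf [1, 0, -16, 0, 0, -1024])⟩), (⟨263, (.lf [1, 0, -16, 0, 0,
  -1024])⟩, ⟨253, o⟩), (⟨264, (.lf [1, 0, -8, 0, 0, -1024])⟩, ⟨263, (.lf [1, 0, -20, 0, 0,
  -768])⟩), (⟨255, (.lf [1, 0, -1])⟩, ⟨254, o⟩), (⟨264, (.lf [1, 0, -8, 0, 0, -1024])⟩, ⟨263,
  (.lf [1, 0, -16, 0, 0, -768])⟩), (⟨258, (.lf [1, 0, -16])⟩, ⟨254, o⟩)])))

theorem cii3_12 : Cov2 pii3 Rii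
    ⟨490, 515, 558, 593⟩ ⟨-177, -167, 171, 200, 100, 0, 100, 0⟩ :=
  CT.sound pii3 cii cl_ii tii3_12 _ _ (by decide +kernel)

noncomputable def tii3_13 : CT :=
  (.sx (-162) (.p2 130 422 ⟨179, 18, ⟨907, -905, 0⟩, ⟨821, -753, 20⟩, ⟨56, (.lf [0, 1])⟩, ⟨115,
  (.nd 3 (.nd 3 (.lf [1, -64]) (.nd 3 (.lf [2, -17]) (.nd 3 (.nd 3 (.lf [4, -30]) (.lf [1, -8]))
  (.lf [1, -7])))) (.lf [1, -32]))⟩, ⟨100, (.lf [0, 1])⟩⟩ ⟨94, 57, ⟨1224, -1178, -192⟩, ⟨1054,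
  -1041, -44⟩, ⟨57, (.lf [0, 1])⟩, ⟨117, (.nd 3 (.nd 3 (.nd 3 (.nd 3 (.lf [16, -94]) (.nd 1 (.lf
  [4, -21]) (.lf [4, -23]))) (.lf [1, -6])) (.lf [4, -21])) (.lf [1, -64]))⟩, ⟨100, (.lf [0,
  1])⟩⟩ [(⟨280, (.nd 2 (.lf [1, 0, 0, 0, 0, -256]) (.nd 3 (.lf [1, 0, 0, 0, 0, -2048]) (.lf [1,
  0, -64])))⟩, ⟨261, (.lf [1, 0, -32])⟩), (⟨267, (.lf [1, 0, -32, 0, -16, -1024])⟩, ⟨257, o⟩),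
  (⟨280, (.nd 2 (.lf [1, 0, -32, 0, 0, -4096]) (.nd 3 (.lf [1, 0, -64, 0, 0, -2048]) (.lf [1, 0,
  -256])))⟩, ⟨263, (.lf [1, 0, -128])⟩), (⟨267, (.lf [1, 0, -128, 0, 0, -1024])⟩, ⟨256, o⟩),
  (⟨280, (.nd 2 (.lf [1, 0, 0, 0, 0, -512]) (.lf [4, 0, -64, 0, -6, -12288]))⟩, ⟨269, (.lf [1, 0,
  -256, 0, 0, -2048])⟩), (⟨258, o⟩, ⟨258, o⟩), (⟨283, (.nd 2 (.lf [1, 0, -32, 0, 0, -4096]) (.nd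
  3 (.lf [1, 0, -8, 0, 0, -2048]) (.lf [1, 0, -64, 0, 0, -4096])))⟩, ⟨271, (.lf [1, 0, -256, 0,
  0, -8192])⟩), (⟨268, (.lf [1, 0, -128, 0, 0, -1024])⟩, ⟨258, o⟩), (⟨281, (.nd 2 (.lf [1, 0, -4,
  0, 0, -4096]) (.nd 3 (.lf [1, 0, -32, 0, 0, -3072]) (.lf [1, 0, -64, 0, 0, -4096])))⟩, ⟨267,
  (.lf [1, 0, -256, 0, 0, -2048])⟩), (⟨267, (.lf [1, 0, -32, 0, -16, -1024])⟩, ⟨256, o⟩), (⟨286,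
  (.nd 2 (.lf [1, 0, -48, 0, 0, -5888]) (.nd 3 (.nd 3 (.lf [1, 0, -64, 0, 0, -3584]) o) (.lf [1,
  0, -256, 0, 0, -2048])))⟩, ⟨269, (.lf [1, 0, -256, 0, 0, -8192])⟩), (⟨275, (.nd 2 (.lf [1, 0,
  -64]) (.lf [1, 0, -128, 0, -8, -1024]))⟩, ⟨256, o⟩), (⟨283, (.nd 2 (.lf [1, 0, -8, 0, 0,
  -4096]) (.nd 3 (.lf [1, 0, -16, 0, 0, -4096]) (.lf [1, 0, -32, 0, 0, -4096])))⟩, ⟨270, (.lf [1,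
  0, -128, 0, 0, -8192])⟩), (⟨258, o⟩, ⟨258, o⟩), (⟨291, (.nd 2 (.nd 2 (.nd 3 (.lf [1, 0, -32, 0,
  0, -4096]) (.lf [1, 0, -64, 0, 0, -5120])) o) (.nd 3 (.lf [1, 0, -40, 0, 0, -3840]) (.lf [1, 0,
  -512, 0, 0, -1024])))⟩, ⟨270, (.lf [1, 0, -192, 0, 0, -8192])⟩), (⟨269, (.lf [1, 0, -112, 0, 0,
  -2048])⟩, ⟨258, o⟩)]) (.sy 181 (.p2 129 332 ⟨200, 14, ⟨821, -753, 20⟩, ⟨749, -626, 36⟩, ⟨56,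
  (.lf [0, 1])⟩, ⟨115, (.nd 3 (.nd 3 (.lf [1, -32]) (.nd 3 (.lf [1, -512]) (.nd 3 (.nd 3 (.lf [4,
  -30]) (.lf [1, -8])) (.lf [1, -7])))) (.lf [1, -32]))⟩, ⟨100, (.lf [0, 1])⟩⟩ ⟨102, 53, ⟨1224,
  -1178, -192⟩, ⟨1128, -1099, -107⟩, ⟨57, (.lf [0, 1])⟩, ⟨112, (.nd 3 (.nd 3 (.nd 3 (.nd 3 (.lf
  [1, -6]) (.lf [4, -23])) (.lf [4, -25])) (.lf [4, -22])) (.lf [1, -64]))⟩, ⟨100, (.lf [0, 1])⟩⟩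
  [(⟨266, (.lf [1, 0, -27, 0, 0, -1920])⟩, ⟨260, (.lf [1, 0, -32])⟩), (⟨260, (.lf [1, 0, -16])⟩,
  ⟨255, o⟩), (⟨272, (.nd 3 (.lf [1, 0, -32, 0, 0, -2048]) (.lf [1, 0, -64, 0, 0, -4096]))⟩, ⟨261,
  (.lf [1, 0, -64])⟩), (⟨262, (.lf [1, 0, -64])⟩, ⟨255, o⟩), (⟨268, (.lf [1, 0, -10, 0, 0,
  -3072])⟩, ⟨267, (.lf [1, 0, -128, 0, 0, -2048])⟩), (⟨257, o⟩, ⟨256, o⟩), (⟨268, (.lf [1, 0,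
  -26, 0, 0, -2944])⟩, ⟨268, (.lf [1, 0, -64, 0, 0, -4096])⟩), (⟨261, (.lf [1, 0, -16])⟩, ⟨256,
  o⟩), (⟨280, (.nd 2 (.lf [1, 0, -2, 0, 0, -4096]) (.nd 3 (.lf [1, 0, -20, 0, 0, -3072]) (.lf [1,
  0, -64, 0, 0, -4096])))⟩, ⟨268, (.lf [1, 0, -128, 0, 0, -8192])⟩), (⟨260, (.lf [1, 0, -16])⟩,
  ⟨255, o⟩), (⟨288, (.nd 2 (.nd 2 (.nd 3 (.lf [1, 0, -16, 0, 0, -4096]) (.lf [1, 0, -64, 0, 0,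
  -4096])) (.lf [1, 0, 0, 0, 0, -2048])) (.nd 3 (.lf [4, 0, -112, 0, 0, -11520]) (.lf [1, 0,
  -128, 0, 0, -2048])))⟩, ⟨268, (.lf [1, 0, -112, 0, 0, -6144])⟩), (⟨266, (.lf [1, 0, -64, 0, 0,
  -1024])⟩, ⟨255, o⟩), (⟨287, (.nd 2 (.nd 2 (.lf [8, 0, -5, 0, 0, -28672]) (.lf [1, 0, 0, 0, 0,
  -6144])) (.nd 3 (.lf [1, 0, -16, 0, 0, -3584]) (.lf [1, 0, -64, 0, 0, -2048])))⟩, ⟨268, (.lf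
  [1, 0, -64, 0, 0, -4096])⟩), (⟨259, (.lf [1, 0, -4])⟩, ⟨256, o⟩), (⟨296, (.nd 2 (.nd 2 (.nd 3
  (.nd 3 (.lf [8, 0, -96, 0, 0, -26112]) (.lf [1, 0, 0, 0, 0, -4096])) (.lf [1, 0, -24, 0, 0,
  -3072])) (.lf [1, 0, 0, 0, 0, -4096])) (.nd 3 (.nd 3 (.lf [4, 0, -94, 0, 0, -12032]) (.lf [1,
  0, 0, 0, 0, -3072])) (.lf [1, 0, -128, 0, 0, -2048])))⟩, ⟨268, (.lf [1, 0, -96, 0, 0,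
  -4096])⟩), (⟨265, (.lf [1, 0, -64, 0, 0, -256])⟩, ⟨256, o⟩)]) (.p2 137 411 ⟨178, 16, ⟨821,
  -753, 20⟩, ⟨749, -626, 36⟩, ⟨56, (.lf [0, 1])⟩, ⟨115, (.nd 3 (.nd 3 (.lf [1, -32]) (.nd 3 (.lf
  [1, -512]) (.nd 3 (.nd 3 (.lf [4, -30]) (.lf [1, -8])) (.lf [1, -7])))) (.lf [1, -32]))⟩, ⟨100,
  (.lf [0, 1])⟩⟩ ⟨95, 50, ⟨1128, -1099, -107⟩, ⟨1054, -1041, -44⟩, ⟨57, (.lf [0, 1])⟩, ⟨114, (.nd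
  3 (.nd 3 (.nd 3 (.nd 3 (.lf [4, -23]) (.lf [16, -87])) (.lf [1, -64])) (.lf [4, -21])) (.lf [1,
  -32]))⟩, ⟨100, (.lf [0, 1])⟩⟩ [(⟨280, (.nd 2 (.lf [1, 0, 0, 0, 0, -512]) (.nd 3 (.lf [1, 0, 0,
  0, 0, -2048]) (.lf [1, 0, -64])))⟩, ⟨263, (.lf [1, 0, -128])⟩), (⟨258, (.lf [1, 0, -1])⟩, ⟨256,
  o⟩), (⟨280, (.nd 2 (.lf [1, 0, 0, 0, 0, -2048]) (.nd 3 (.lf [1, 0, -16, 0, 0, -2048]) (.lf [1,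
  0, -128])))⟩, ⟨263, (.lf [1, 0, -128])⟩), (⟨262, (.lf [1, 0, -32, 0, -16])⟩, ⟨256, o⟩), (⟨269,
  (.lf [1, 0, -40, 0, 0, -3584])⟩, ⟨269, (.lf [1, 0, -128, 0, 0, -4096])⟩), (⟨258, o⟩, ⟨257, o⟩),
  (⟨269, (.lf [1, 0, -64, 0, 0, -3456])⟩, ⟨269, (.lf [1, 0, -128, 0, 0, -4096])⟩), (⟨261, (.lf
  [1, 0, -8])⟩, ⟨257, o⟩), (⟨281, (.nd 2 (.lf [1, 0, -16, 0, 0, -6144]) (.nd 3 (.lf [1, 0, -40,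
  0, 0, -3584]) (.lf [1, 0, -128, 0, 0, -4096])))⟩, ⟨269, (.lf [1, 0, -256, 0, 0, -8192])⟩),
  (⟨260, (.lf [1, 0, -8])⟩, ⟨256, o⟩), (⟨281, (.nd 2 (.lf [1, 0, -32, 0, 0, -5120]) (.nd 3 (.lf
  [1, 0, -56, 0, 0, -3584]) (.lf [1, 0, -256, 0, 0, -2048])))⟩, ⟨269, (.lf [1, 0, -256, 0, 0,
  -8192])⟩), (⟨264, (.lf [1, 0, -128])⟩, ⟨256, o⟩), (⟨282, (.nd 2 (.lf [1, 0, -8, 0, 0, -5120])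
  (.nd 3 (.lf [1, 0, -32, 0, 0, -4096]) (.lf [1, 0, -128, 0, 0, -4096])))⟩, ⟨270, (.lf [1, 0,
  -128, 0, 0, -8192])⟩), (⟨258, o⟩, ⟨257, o⟩), (⟨290, (.nd 2 (.nd 2 (.nd 3 (.lf [1, 0, -32, 0, 0,
  -4096]) (.lf [1, 0, -32, 0, 0, -4096])) o) (.nd 3 (.lf [1, 0, -28, 0, 0, -3584]) (.lf [1, 0,
  -256, 0, 0, -1024])))⟩, ⟨270, (.lf [1, 0, -160, 0, 0, -6144])⟩), (⟨264, (.lf [1, 0, -64, 0,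
  -8])⟩, ⟨257, o⟩)])))

theorem cii3_13 : Cov2 pii3 Rii
    ⟨490, 505, 558, 593⟩ ⟨-167, -157, 171, 191, 100, 0, 100, 0⟩ :=
  CT.sound pii3 cii cl_ii tii3_13 _ _ (by decide +kernel)

noncomputable def tii3_14 : CT :=
  (.st 583 (.sy 181 (.p2 139 427 ⟨179, 16, ⟨820, -725, 23⟩, ⟨688, -500, 53⟩, ⟨56, (.lf [0, 1])⟩,
  ⟨111, (.nd 3 (.nd 3 (.lf [1, -32]) (.nd 3 (.lf [1, -8]) (.nd 3 (.lf [1, -7]) (.lf [4, -27]))))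
  (.lf [1, -32]))⟩, ⟨99, (.lf [0, 1])⟩⟩ ⟨84, 60, ⟨1218, -1173, -184⟩, ⟨1125, -1096, -103⟩, ⟨56,
  (.lf [0, 1])⟩, ⟨113, (.nd 3 (.nd 3 (.nd 3 (.lf [16, -95]) (.lf [1, -512])) (.lf [1, -4])) (.lf
  [1, -32]))⟩, ⟨100, (.lf [0, 1])⟩⟩ [(⟨279, (.nd 2 o (.nd 3 (.lf [1, 0, -4, 0, -8, -1024]) (.lf
  [1, 0, -8, 0, 0, -1024])))⟩, ⟨256, o⟩), (⟨266, (.lf [1, 0, -64, 0, -32, -256])⟩, ⟨257, o⟩),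
  (⟨280, (.nd 2 o (.nd 3 (.lf [1, 0, -32]) (.lf [1, 0, -16, 0, 0, -1024])))⟩, ⟨256, o⟩), (⟨266,
  (.lf [1, 0, -128, 0, 0, -512])⟩, ⟨256, o⟩), (⟨269, (.lf [1, 0, -16, 0, 0, -2048])⟩, ⟨257, o⟩),
  (⟨258, o⟩, ⟨258, o⟩), (⟨269, (.lf [1, 0, -32, 0, 0, -2048])⟩, ⟨257, o⟩), (⟨268, (.lf [1, 0, 0,
  0, 0, -1024])⟩, ⟨258, o⟩), (⟨294, (.nd 2 (.nd 2 (.nd 3 (.lf [1, 0, -8, 0, 0, -4096]) (.lf [1,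
  0, -64, 0, 0, -4096])) (.lf [1, 0, 0, 0, 0, -4096])) (.nd 3 (.nd 3 (.nd 2 (.lf [1, 0, -24, 0,
  0, -3584]) (.lf [1, 0, -16, 0, 0, -1024])) (.lf [1, 0, 0, 0, 0, -2048])) (.lf [1, 0, -64, 0, 0,
  -4096])))⟩, ⟨268, (.lf [1, 0, -128, 0, 0, -4096])⟩), (⟨265, (.lf [1, 0, -64, 0, -16, -256])⟩,
  ⟨256, o⟩), (⟨302, (.nd 2 (.nd 2 (.nd 3 (.lf [1, 0, -16, 0, 0, -4096]) (.lf [1, 0, -64, 0, 0,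
  -4096])) o) (.nd 3 (.nd 3 (.nd 2 (.nd 2 (.lf [1, 0, -40, 0, 0, -3072]) (.lf [1, 0, -24, 0, 0,
  -4096])) (.lf [1, 0, -32, 0, 0, -2048])) (.lf [1, 0, 0, 0, 0, -2048])) (.lf [1, 0, -128, 0, 0,
  -4096])))⟩, ⟨269, (.lf [1, 0, -128, 0, 0, -8192])⟩), (⟨267, (.lf [1, 0, -64, 0, 0, -1024])⟩,
  ⟨256, o⟩), (⟨291, (.nd 2 (.nd 2 (.nd 3 (.lf [1, 0, 0, 0, 0, -5888]) (.lf [1, 0, -16, 0, 0,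
  -4096])) (.lf [1, 0, 0, 0, 0, -8192])) (.nd 3 (.nd 3 (.lf [1, 0, -21, 0, 0, -3584]) (.lf [1, 0,
  0, 0, 0, -3584])) (.lf [1, 0, -64, 0, 0, -4096])))⟩, ⟨270, (.lf [1, 0, -128, 0, 0, -8192])⟩),
  (⟨269, (.lf [1, 0, -2, 0, 0, -2048])⟩, ⟨257, o⟩), (⟨295, (.nd 2 (.nd 2 (.nd 3 (.lf [4, 0, -19,
  0, 0, -18432]) (.lf [16, 0, -400, 0, 0, -75520])) (.lf [1, 0, 0, 0, 0, -8192])) (.nd 3 (.nd 3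
  (.nd 2 (.lf [1, 0, -20, 0, 0, -4096]) (.lf [1, 0, -16, 0, 0, -2048])) (.lf [1, 0, 0, 0, 0,
  -3072])) (.lf [1, 0, -128, 0, 0, -2048])))⟩, ⟨270, (.lf [1, 0, -128, 0, 0, -8192])⟩), (⟨268,
  (.lf [1, 0, -64, 0, -4, -1024])⟩, ⟨257, o⟩)]) (.p2 145 203 ⟨327, 9, ⟨820, -725, 23⟩, ⟨688,
  -500, 53⟩, ⟨56, (.lf [0, 1])⟩, ⟨111, (.nd 3 (.nd 3 (.lf [1, -32]) (.nd 3 (.lf [1, -8]) (.nd 3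
  (.lf [1, -7]) (.lf [4, -27])))) (.lf [1, -32]))⟩, ⟨99, (.lf [0, 1])⟩⟩ ⟨163, 27, ⟨1125, -1096,
  -103⟩, ⟨1053, -1040, -42⟩, ⟨56, (.lf [0, 1])⟩, ⟨108, (.nd 3 (.nd 3 (.lf [16, -89]) (.lf [4,
  -21])) (.lf [1, -32]))⟩, ⟨100, (.lf [0, 1])⟩⟩ [(⟨264, (.lf [1, 0, -20, 0, 0, -1536])⟩, ⟨254,
  o⟩), (⟨258, (.lf [1, 0, -16])⟩, ⟨254, o⟩), (⟨264, (.lf [1, 0, -32, 0, 0, -1024])⟩, ⟨254, o⟩),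
  (⟨260, (.lf [1, 0, -32, 0, 0, -32])⟩, ⟨254, o⟩), (⟨266, (.lf [1, 0, -8, 0, 0, -2048])⟩, ⟨255,
  o⟩), (⟨257, (.lf [1, 0, -2])⟩, ⟨255, o⟩), (⟨266, (.lf [1, 0, -16, 0, 0, -2048])⟩, ⟨255, o⟩),
  (⟨258, (.lf [1, 0, -8])⟩, ⟨255, o⟩), (⟨272, (.nd 2 (.lf [1, 0, -4, 0, 0, -1024]) (.lf [1, 0,
  -17, 0, 0, -1472]))⟩, ⟨264, (.lf [1, 0, -32, 0, 0, -1024])⟩), (⟨258, (.lf [1, 0, -16])⟩, ⟨254,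
  o⟩), (⟨276, (.nd 3 (.nd 2 (.lf [1, 0, 0, 0, 0, -256]) (.lf [1, 0, -20, 0, 0, -1280])) (.lf [1,
  0, -32, 0, 0, -2048]))⟩, ⟨265, (.lf [1, 0, -32, 0, 0, -2048])⟩), (⟨264, (.lf [1, 0, -32, 0, 0,
  -1024])⟩, ⟨254, o⟩), (⟨278, (.nd 3 (.nd 2 (.lf [1, 0, 0, 0, 0, -2048]) (.lf [1, 0, -10, 0, 0,
  -1536])) (.lf [1, 0, -20, 0, 0, -1536]))⟩, ⟨265, (.lf [1, 0, -32, 0, 0, -2048])⟩), (⟨258, (.lf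
  [1, 0, -8])⟩, ⟨255, o⟩), (⟨278, (.nd 3 (.nd 2 (.lf [1, 0, 0, 0, 0, -1024]) (.lf [2, 0, -28, 0,
  0, -2688])) (.lf [1, 0, -20, 0, 0, -1280]))⟩, ⟨265, (.lf [1, 0, -28, 0, 0, -1536])⟩), (⟨263,
  (.lf [1, 0, -32, 0, 0, -256])⟩, ⟨255, o⟩)])) (.cl 3 [⟨63, o⟩]))

theorem cii3_14 : Cov2 pii3 Rii
    ⟨505, 515, 558, 593⟩ ⟨-167, -157, 171, 191, 100, 0, 100, 0⟩ :=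
  CT.sound pii3 cii cl_ii tii3_14 _ _ (by decide +kernel)

noncomputable def tii3_15 : CT :=
  (.p2 150 195 ⟨401, 8, ⟨872, -830, 9⟩, ⟨724, -573, 43⟩, ⟨56, (.lf [0, 1])⟩, ⟨116, (.nd 3 (.nd 3
  (.lf [1, -64]) (.nd 3 (.lf [8, -66]) (.nd 3 (.nd 0 (.lf [4, -30]) (.lf [1, -7])) (.nd 0 (.lf
  [1, -7]) (.lf [4, -27]))))) (.lf [1, -32]))⟩, ⟨100, (.lf [0, 1])⟩⟩ ⟨154, 27, ⟨1054, -1040,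
  -43⟩, ⟨1001, -1000, 0⟩, ⟨57, (.lf [0, 1])⟩, ⟨106, (.nd 3 (.nd 3 (.lf [4, -21]) (.lf [1, -5]))
  (.lf [1, -32]))⟩, ⟨100, (.lf [0, 1])⟩⟩ [(⟨273, (.nd 3 (.nd 3 (.lf [1, 0, -32, 0, 0, -1024])
  (.lf [1, 0, 0, 0, 0, -512])) (.lf [1, 0, -64, 0, 0, -2048]))⟩, ⟨264, (.lf [1, 0, -16, 0, 0,
  -1024])⟩), (⟨264, (.lf [1, 0, -64, 0, 0, -1024])⟩, ⟨254, o⟩), (⟨264, (.lf [1, 0, -40, 0, 0,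
  -1280])⟩, ⟨264, (.lf [1, 0, 0, 0, 0, -1024])⟩), (⟨264, (.lf [1, 0, -64, 0, 0, -1024])⟩, ⟨254,
  o⟩), (⟨275, (.nd 3 (.nd 3 (.lf [1, 0, -16, 0, 0, -2048]) o) (.lf [1, 0, -32, 0, 0, -2048]))⟩,
  ⟨265, (.lf [1, 0, -48, 0, 0, -1536])⟩), (⟨265, (.lf [1, 0, -32, 0, 0, -1024])⟩, ⟨255, o⟩),
  (⟨265, (.lf [1, 0, -24, 0, 0, -1024])⟩, ⟨265, (.lf [1, 0, -32, 0, 0, -1024])⟩), (⟨265, (.lf [1,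
  0, -32, 0, 0, -1024])⟩, ⟨255, o⟩), (⟨282, (.nd 3 (.nd 3 (.nd 2 (.lf [1, 0, -16, 0, 0, -2048])
  (.lf [1, 0, -28, 0, 0, -1536])) (.lf [2, 0, 0, 0, -7, -3072])) (.lf [1, 0, -32, 0, 0,
  -1536]))⟩, ⟨265, (.lf [1, 0, -32, 0, 0, -2048])⟩), (⟨264, (.lf [1, 0, -32, 0, 0, -1024])⟩,
  ⟨254, o⟩), (⟨274, (.nd 3 (.nd 3 (.lf [1, 0, -29, 0, 0, -1472]) (.lf [1, 0, 0, 0, -8, -1024]))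
  (.lf [1, 0, -32, 0, 0, -1024]))⟩, ⟨265, (.lf [1, 0, -32, 0, 0, -2048])⟩), (⟨263, (.lf [1, 0,
  -32, 0, 0, -512])⟩, ⟨254, o⟩), (⟨275, (.nd 3 (.nd 3 (.lf [1, 0, -17, 0, 0, -1344]) (.lf [1, 0,
  0, 0, 0, -1536])) (.lf [1, 0, -24, 0, 0, -1280]))⟩, ⟨266, (.lf [2, 0, -79, 0, 0, -2528])⟩),
  (⟨265, (.lf [1, 0, -32, 0, 0, -1024])⟩, ⟨255, o⟩), (⟨282, (.nd 3 (.nd 3 (.nd 2 (.lf [1, 0, -16,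
  0, 0, -1024]) (.lf [1, 0, -19, 0, 0, -1088])) (.lf [1, 0, 0, 0, -4, -1024])) (.lf [1, 0, -22,
  0, 0, -1088]))⟩, ⟨265, (.lf [1, 0, -32, 0, 0, -1024])⟩), (⟨265, (.lf [1, 0, -32, 0, 0,
  -1024])⟩, ⟨255, o⟩)])

theorem cii3_15 : Cov2 pii3 Rii
    ⟨490, 515, 558, 593⟩ ⟨-167, -157, 191, 200, 100, 0, 100, 0⟩ :=
  CT.sound pii3 cii cl_ii tii3_15 _ _ (by decide +kernel)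

noncomputable def tii3_16 : CT :=
  (.cl 3 [⟨63, o⟩])

theorem cii3_16 : Cov2 pii3 Rii
    ⟨490, 515, 593, 600⟩ ⟨-500, -157, 0, 200, 100, 0, 100, 0⟩ :=
  CT.sound pii3 cii cl_ii tii3_16 _ _ (by decide +kernel)

noncomputable def tii3_17 : CT :=
  (.cl 1 [⟨69, o⟩, ⟨58, o⟩, ⟨58, o⟩, ⟨59, o⟩, ⟨69, o⟩, ⟨53, o⟩])

theorem cii3_17 : Cov2 pii3 Rii
    ⟨490, 515, 558, 600⟩ ⟨-157, 400, 0, 200, 100, 0, 100, 0⟩ :=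
  CT.sound pii3 cii cl_ii tii3_17 _ _ (by decide +kernel)

theorem covii3 : Cov2 pii3 Rii
    ⟨490, 515, 558, 600⟩ ⟨-500, 400, 0, 200, 100, 0, 100, 0⟩ :=
  (Cov2.sx (-157) (Cov2.st 593 (Cov2.sy 158 (Cov2.sx (-205) cii3_1 (Cov2.sy 89 cii3_2 (Cov2.sy
  137 cii3_3 (Cov2.sx (-171) cii3_4 (Cov2.sa 505 cii3_5 cii3_6))))) (Cov2.sx (-186) cii3_7
  (Cov2.sx (-177) cii3_8 (Cov2.sy 171 (Cov2.sx (-163) cii3_9 (Cov2.sa 505 cii3_10 cii3_11))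
  (Cov2.sx (-167) cii3_12 (Cov2.sy 191 (Cov2.sa 505 cii3_13 cii3_14) cii3_15)))))) cii3_16)
  cii3_17)

end Pool.Agent.Lib.MP_43bc59_co.P18
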