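import Pool.Agent.Lib.MP_43bc59_co.F_N2

set_option autoImplicit false
set_option maxRecDepth 100000

namespace Pool.Agent.Lib.MP_43bc59_co.P18

open Bx

def plb1 : Pm := ⟨200, 0, 0, 0, 0, 3, 3, ⟨-11, 10, 14⟩⟩

noncomputable def tlb1_1 : CT :=
  (.cl 1 [⟨64, o⟩])

theorem clb1_1 : Cov2 plb1 Rlb
    ⟨480, 528, 558, 590⟩ ⟨-400, 164, -400, 184, 100, 0, 100, 0⟩ :=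
  CT.sound plb1 clb cl_lb tlb1_1 _ _ (by decide +kernel)

noncomputable def tlb1_2 : CT :=
  (.cl 4 [⟨63, o⟩])

theorem clb1_2 : Cov2 plb1 Rlb
    ⟨480, 493, 558, 590⟩ ⟨-400, 164, 184, 200, 100, 0, 100, 0⟩ :=
  CT.sound plb1 clb cl_lb tlb1_2 _ _ (by decide +kernel)

noncomputable def tlb1_3 : CT :=
  (.cl 1 [⟨62, o⟩])

theorem clb1_3 : Cov2 plb1 Rlb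
    ⟨493, 528, 558, 590⟩ ⟨-400, 164, 184, 185, 100, 0, 100, 0⟩ :=
  CT.sound plb1 clb cl_lb tlb1_3 _ _ (by decide +kernel)

noncomputable def tlb1_4 : CT :=
  (.cl 4 [⟨63, o⟩])

theorem clb1_4 : Cov2 plb1 Rlb
    ⟨493, 528, 558, 565⟩ ⟨-400, 164, 185, 200, 100, 0, 100, 0⟩ :=
  CT.sound plb1 clb cl_lb tlb1_4 _ _ (by decide +kernel)

noncomputable def tlb1_5 : CT :=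
  (.p1 98 106 113 118 0 91 185 200 false true 110 200 [(⟨140, o⟩, ⟨140, o⟩), (⟨140, o⟩, ⟨140,
  o⟩), (⟨135, o⟩, ⟨133, o⟩)])

theorem clb1_5 : Cov2 plb1 Rlb
    ⟨493, 528, 565, 590⟩ ⟨-400, 91, 185, 200, 100, 0, 100, 0⟩ :=
  CT.sound plb1 clb cl_lb tlb1_5 _ _ (by decide +kernel)

noncomputable def tlb1_6 : CT :=
  (.sx 106 (.p1 98 106 113 118 91 106 185 200 false true 118 160 [(⟨140, o⟩, ⟨140, o⟩), (⟨140,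
  o⟩, ⟨140, o⟩), (⟨135, o⟩, ⟨133, o⟩)]) (.p2 126 118 ⟨146, 36, ⟨223, 2026, -911⟩, ⟨181, 1722,
  -632⟩, ⟨55, (.lf [0, 1])⟩, ⟨110, (.nd 3 (.nd 3 (.nd 3 (.lf [8, -91]) (.lf [8, -107])) (.nd 3
  (.lf [1, -10]) o)) (.lf [1, -256]))⟩, ⟨99, (.lf [0, 1])⟩⟩ ⟨264, 16, ⟨1092, -1069, -74⟩, ⟨1001,
  -1000, 0⟩, ⟨57, (.lf [0, 1])⟩, ⟨111, (.nd 3 (.nd 3 (.lf [16, -86]) (.nd 3 (.lf [16, -81]) o))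
  (.lf [1, -32]))⟩, ⟨100, (.lf [0, 1])⟩⟩ [(⟨203, o⟩, ⟨204, o⟩), (⟨204, o⟩, ⟨205, o⟩), (⟨203, o⟩,
  ⟨204, o⟩), (⟨204, o⟩, ⟨204, o⟩), (⟨204, o⟩, ⟨208, (.lf [8, 0, -5])⟩), (⟨205, o⟩, ⟨205, o⟩),
  (⟨204, o⟩, ⟨205, o⟩), (⟨205, o⟩, ⟨205, o⟩), (⟨203, o⟩, ⟨204, o⟩), (⟨204, o⟩, ⟨205, o⟩), (⟨203,
  o⟩, ⟨204, o⟩), (⟨204, o⟩, ⟨205, o⟩), (⟨204, o⟩, ⟨210, (.lf [32, 0, -26])⟩), (⟨205, o⟩, ⟨205,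
  o⟩), (⟨204, o⟩, ⟨205, o⟩), (⟨205, o⟩, ⟨205, o⟩)]))

theorem clb1_6 : Cov2 plb1 Rlb
    ⟨493, 528, 565, 590⟩ ⟨91, 113, 185, 200, 100, 0, 100, 0⟩ :=
  CT.sound plb1 clb cl_lb tlb1_6 _ _ (by decide +kernel)

noncomputable def tlb1_7 : CT :=
  (.sx 121 (.p2 131 161 ⟨144, 33, ⟨181, 1722, -632⟩, ⟨147, 1516, -447⟩, ⟨55, (.lf [0, 1])⟩, ⟨111,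
  (.nd 3 (.nd 3 (.nd 3 (.lf [8, -81]) (.lf [1, -256])) (.nd 3 (.lf [8, -75]) (.lf [1, -8]))) (.lf
  [1, -64]))⟩, ⟨98, (.lf [0, 1])⟩⟩ ⟨150, 28, ⟨1092, -1069, -74⟩, ⟨1001, -1000, 0⟩, ⟨57, (.lf [0,
  1])⟩, ⟨111, (.nd 3 (.nd 3 (.lf [16, -86]) (.nd 3 (.lf [16, -81]) o)) (.lf [1, -32]))⟩, ⟨100,
  (.lf [0, 1])⟩⟩ [(⟨204, o⟩, ⟨204, o⟩), (⟨205, o⟩, ⟨205, o⟩), (⟨204, o⟩, ⟨205, o⟩), (⟨205, o⟩,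
  ⟨205, o⟩), (⟨205, o⟩, ⟨207, (.lf [1, 0, -2])⟩), (⟨206, o⟩, ⟨206, o⟩), (⟨205, o⟩, ⟨205, o⟩),
  (⟨206, o⟩, ⟨206, o⟩), (⟨204, o⟩, ⟨206, (.lf [1, 0, -2])⟩), (⟨205, o⟩, ⟨205, o⟩), (⟨204, o⟩,
  ⟨205, o⟩), (⟨205, o⟩, ⟨205, o⟩), (⟨205, o⟩, ⟨246, (.nd 3 (.nd 2 o (.nd 3 o (.nd 1 o (.nd 3 o
  (.nd 1 o (.nd 0 (.lf [2, 0, -6]) (.lf [8, 0, -19]))))))) o)⟩), (⟨205, o⟩, ⟨206, o⟩), (⟨205, o⟩,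
  ⟨208, (.lf [2, 0, -5])⟩), (⟨205, o⟩, ⟨206, o⟩)]) (.st 580 (.sa 507 (.cl 4 [⟨63, o⟩]) (.p2 146
  159 ⟨236, 18, ⟨148, 1558, -488⟩, ⟨97, 1298, -255⟩, ⟨55, (.lf [0, 1])⟩, ⟨110, (.nd 3 (.nd 3 (.lf
  [32, -306]) (.nd 3 (.nd 3 (.lf [1, -8]) (.lf [2, -17])) (.lf [4, -30]))) (.lf [1, -64]))⟩, ⟨98,
  (.lf [0, 1])⟩⟩ ⟨206, 19, ⟨1091, -1069, -73⟩, ⟨1001, -1000, 0⟩, ⟨56, (.lf [0, 1])⟩, ⟨110, (.nd 3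
  (.nd 3 (.lf [16, -86]) (.lf [64, -323])) (.lf [1, -32]))⟩, ⟨100, (.lf [0, 1])⟩⟩ [(⟨205, o⟩,
  ⟨205, o⟩), (⟨206, o⟩, ⟨206, o⟩), (⟨205, o⟩, ⟨205, o⟩), (⟨206, o⟩, ⟨206, o⟩), (⟨206, o⟩, ⟨209,
  (.lf [1, 0, -8])⟩), (⟨206, o⟩, ⟨207, o⟩), (⟨206, o⟩, ⟨206, o⟩), (⟨206, o⟩, ⟨206, o⟩), (⟨205,
  o⟩, ⟨208, (.lf [1, 0, -4])⟩), (⟨206, o⟩, ⟨206, o⟩), (⟨205, o⟩, ⟨205, o⟩), (⟨206, o⟩, ⟨206, o⟩),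
  (⟨206, o⟩, ⟨212, (.lf [8, 0, -66])⟩), (⟨206, o⟩, ⟨206, o⟩), (⟨206, o⟩, ⟨209, (.lf [1, 0,
  -8])⟩), (⟨206, o⟩, ⟨206, o⟩)])) (.sx 133 (.sx 127 (.sa 510 (.p2 134 355 ⟨139, 26, ⟨143, 1462,
  -394⟩, ⟨124, 1373, -315⟩, ⟨55, (.lf [0, 1])⟩, ⟨107, (.nd 3 (.nd 3 (.lf [1, -64]) (.nd 3 (.lf
  [2, -18]) (.lf [1, -8]))) (.lf [1, -32]))⟩, ⟨98, (.lf [0, 1])⟩⟩ ⟨122, 31, ⟨1092, -1069, -75⟩,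
  ⟨1001, -1000, 0⟩, ⟨56, (.lf [0, 1])⟩, ⟨108, (.nd 3 (.nd 3 (.lf [16, -86]) (.lf [1, -5])) (.lf
  [1, -32]))⟩, ⟨100, (.lf [0, 1])⟩⟩ [(⟨208, o⟩, ⟨208, o⟩), (⟨209, o⟩, ⟨209, o⟩), (⟨208, o⟩, ⟨208,
  o⟩), (⟨209, o⟩, ⟨209, o⟩), (⟨209, o⟩, ⟨209, o⟩), (⟨209, o⟩, ⟨209, o⟩), (⟨209, o⟩, ⟨209, o⟩),
  (⟨209, o⟩, ⟨209, o⟩), (⟨208, o⟩, ⟨208, o⟩), (⟨209, o⟩, ⟨209, o⟩), (⟨208, o⟩, ⟨208, o⟩), (⟨209,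
  o⟩, ⟨209, o⟩), (⟨209, o⟩, ⟨215, (.lf [1, 0, -64])⟩), (⟨209, o⟩, ⟨209, o⟩), (⟨209, o⟩, ⟨214,
  (.lf [1, 0, -32])⟩), (⟨209, o⟩, ⟨209, o⟩)]) (.st 588 (.p2 136 150 ⟨183, 22, ⟨150, 1517, -457⟩,
  ⟨129, 1413, -362⟩, ⟨55, (.lf [0, 1])⟩, ⟨110, (.nd 3 (.nd 3 (.lf [1, -256]) (.nd 3 (.nd 3 (.lf
  [2, -17]) (.lf [2, -18])) o)) (.lf [1, -32]))⟩, ⟨98, (.lf [0, 1])⟩⟩ ⟨182, 19, ⟨1088, -1065,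
  -70⟩, ⟨1001, -1000, 0⟩, ⟨56, (.lf [0, 1])⟩, ⟨111, (.nd 3 (.nd 3 (.lf [1, -256]) (.nd 3 (.lf
  [16, -82]) o)) (.lf [1, -16]))⟩, ⟨100, (.lf [0, 1])⟩⟩ [(⟨204, o⟩, ⟨205, o⟩), (⟨205, o⟩, ⟨205,
  o⟩), (⟨205, o⟩, ⟨205, o⟩), (⟨205, o⟩, ⟨205, o⟩), (⟨205, o⟩, ⟨205, o⟩), (⟨206, o⟩, ⟨206, o⟩),
  (⟨205, o⟩, ⟨205, o⟩), (⟨206, o⟩, ⟨206, o⟩), (⟨205, o⟩, ⟨205, o⟩), (⟨205, o⟩, ⟨205, o⟩), (⟨205,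
  o⟩, ⟨205, o⟩), (⟨205, o⟩, ⟨205, o⟩), (⟨205, o⟩, ⟨208, (.lf [1, 0, -4])⟩), (⟨206, o⟩, ⟨206, o⟩),
  (⟨205, o⟩, ⟨208, (.lf [1, 0, -4])⟩), (⟨206, o⟩, ⟨206, o⟩)]) (.cl 2 [⟨66, o⟩]))) (.sa 510 (.p2
  139 152 ⟨368, 9, ⟨124, 1373, -315⟩, ⟨107, 1304, -254⟩, ⟨55, (.lf [0, 1])⟩, ⟨108, (.nd 3 (.nd 3
  (.lf [1, -32]) (.nd 3 (.lf [2, -17]) (.lf [4, -31]))) (.lf [1, -32]))⟩, ⟨98, (.lf [0, 1])⟩⟩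
  ⟨274, 14, ⟨1092, -1069, -75⟩, ⟨1001, -1000, 0⟩, ⟨56, (.lf [0, 1])⟩, ⟨108, (.nd 3 (.nd 3 (.lf
  [16, -86]) (.lf [1, -5])) (.lf [1, -32]))⟩, ⟨100, (.lf [0, 1])⟩⟩ [(⟨209, (.lf [1, 0, -8])⟩,
  ⟨206, o⟩), (⟨206, o⟩, ⟨206, o⟩), (⟨211, (.lf [1, 0, -32])⟩, ⟨206, o⟩), (⟨209, (.lf [1, 0,
  -4])⟩, ⟨206, o⟩), (⟨209, (.lf [1, 0, -8])⟩, ⟨211, (.lf [32, 0, -2])⟩), (⟨207, o⟩, ⟨207, o⟩),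
  (⟨210, (.lf [1, 0, -16])⟩, ⟨206, o⟩), (⟨207, o⟩, ⟨207, o⟩), (⟨210, (.lf [1, 0, -16])⟩, ⟨206,
  o⟩), (⟨206, o⟩, ⟨206, o⟩), (⟨210, (.lf [1, 0, -24])⟩, ⟨206, o⟩), (⟨210, (.lf [1, 0, -8])⟩,
  ⟨206, o⟩), (⟨210, (.lf [1, 0, -14])⟩, ⟨211, (.lf [1, 0, -24])⟩), (⟨207, o⟩, ⟨207, o⟩), (⟨210,
  (.lf [1, 0, -16])⟩, ⟨211, (.lf [1, 0, -24])⟩), (⟨207, o⟩, ⟨207, o⟩)]) (.st 585 (.p2 141 184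
  ⟨186, 19, ⟨129, 1417, -365⟩, ⟨111, 1336, -292⟩, ⟨55, (.lf [0, 1])⟩, ⟨109, (.nd 3 (.nd 3 (.lf
  [1, -64]) (.nd 3 (.lf [8, -67]) (.lf [4, -31]))) (.lf [1, -32]))⟩, ⟨98, (.lf [0, 1])⟩⟩ ⟨212,
  16, ⟨1088, -1065, -70⟩, ⟨1001, -1000, 0⟩, ⟨56, (.lf [0, 1])⟩, ⟨114, (.nd 3 (.nd 3 (.lf [1,
  -256]) (.lf [1024, -5175])) (.lf [1, -16]))⟩, ⟨100, (.lf [0, 1])⟩⟩ [(⟨206, o⟩, ⟨206, o⟩),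
  (⟨206, o⟩, ⟨206, o⟩), (⟨206, o⟩, ⟨206, o⟩), (⟨206, o⟩, ⟨206, o⟩), (⟨206, o⟩, ⟨206, o⟩), (⟨207,
  o⟩, ⟨207, o⟩), (⟨206, o⟩, ⟨206, o⟩), (⟨207, o⟩, ⟨207, o⟩), (⟨206, o⟩, ⟨206, o⟩), (⟨206, o⟩,
  ⟨206, o⟩), (⟨206, o⟩, ⟨206, o⟩), (⟨206, o⟩, ⟨206, o⟩), (⟨206, o⟩, ⟨208, (.lf [1, 0, -4])⟩),
  (⟨207, o⟩, ⟨207, o⟩), (⟨206, o⟩, ⟨206, o⟩), (⟨207, o⟩, ⟨207, o⟩)]) (.cl 2 [⟨66, o⟩])))) (.sa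
  519 (.st 588 (.p2 145 114 ⟨562, 6, ⟨108, 1313, -264⟩, ⟨96, 1264, -222⟩, ⟨55, (.lf [0, 1])⟩,
  ⟨107, (.nd 3 (.nd 3 (.lf [1, -32]) (.nd 3 (.lf [1, -8]) (.lf [4, -30]))) (.lf [1, -32]))⟩, ⟨97,
  (.lf [0, 1])⟩⟩ ⟨351, 11, ⟨1091, -1068, -74⟩, ⟨1001, -1000, 0⟩, ⟨56, (.lf [0, 1])⟩, ⟨113, (.nd 3
  (.nd 3 (.lf [16, -86]) (.nd 3 (.lf [64, -326]) o)) (.lf [1, -32]))⟩, ⟨100, (.lf [0, 1])⟩⟩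
  [(⟨218, (.nd 2 o (.lf [1, 0, -20]))⟩, ⟨205, o⟩), (⟨210, (.lf [1, 0, -16])⟩, ⟨206, o⟩), (⟨218,
  (.nd 2 o (.lf [1, 0, -24]))⟩, ⟨205, o⟩), (⟨211, (.lf [1, 0, -32])⟩, ⟨206, o⟩), (⟨223, (.nd 2 o
  (.nd 3 (.lf [1, 0, 0, 0, -4]) (.lf [1, 0, -16, 0, -4])))⟩, ⟨210, (.lf [1, 0, -16])⟩), (⟨206,
  o⟩, ⟨206, o⟩), (⟨219, (.nd 2 o (.lf [2, 0, -30]))⟩, ⟨209, (.lf [1, 0, -8])⟩), (⟨209, (.lf [1,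
  0, -8])⟩, ⟨206, o⟩), (⟨226, (.nd 2 o (.nd 3 (.lf [1, 0, -1, 0, -16, -256]) (.lf [1, 0, -20, 0,
  -6])))⟩, ⟨209, (.lf [1, 0, -16])⟩), (⟨210, (.lf [1, 0, -16])⟩, ⟨206, o⟩), (⟨224, (.nd 2 o (.nd
  3 (.lf [1, 0, 0, 0, -8]) (.lf [2, 0, -48, 0, -6])))⟩, ⟨209, (.lf [1, 0, -16])⟩), (⟨210, (.lf
  [1, 0, -16])⟩, ⟨206, o⟩), (⟨232, (.nd 2 o (.nd 3 (.nd 2 o (.lf [1, 0, -8, 0, -8])) (.nd 2 (.lf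
  [1, 0, -10]) (.lf [2, 0, -23, 0, -25]))))⟩, ⟨210, (.lf [1, 0, -14])⟩), (⟨206, o⟩, ⟨206, o⟩),
  (⟨232, (.nd 2 o (.nd 3 (.lf [1, 0, 0, 0, -16]) (.nd 2 (.lf [1, 0, -16]) (.lf [2, 0, -25, 0,
  -31]))))⟩, ⟨210, (.lf [1, 0, -14])⟩), (⟨209, (.lf [1, 0, -8])⟩, ⟨206, o⟩)]) (.cl 2 [⟨66, o⟩]))
  (.cl 2 [⟨66, o⟩])))))

theorem clb1_7 : Cov2 plb1 Rlb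
    ⟨493, 528, 565, 590⟩ ⟨113, 138, 185, 200, 100, 0, 100, 0⟩ :=
  CT.sound plb1 clb cl_lb tlb1_7 _ _ (by decide +kernel)

noncomputable def tlb1_8 : CT :=
  (.st 586 (.sa 499 (.cl 4 [⟨63, o⟩]) (.sx 141 (.p2 148 131 ⟨405, 8, ⟨96, 1288, -244⟩, ⟨89, 1260,
  -219⟩, ⟨55, (.lf [0, 1])⟩, ⟨107, (.nd 3 (.nd 3 (.lf [1, -32]) (.nd 3 (.lf [4, -31]) (.lf [4,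
  -29]))) (.lf [1, -32]))⟩, ⟨97, (.lf [0, 1])⟩⟩ ⟨270, 15, ⟨1092, -1069, -74⟩, ⟨1001, -1000, 0⟩,
  ⟨57, (.lf [0, 1])⟩, ⟨110, (.nd 3 (.nd 3 (.lf [16, -86]) (.lf [64, -322])) (.lf [1, -32]))⟩,
  ⟨100, (.lf [0, 1])⟩⟩ [(⟨209, (.lf [1, 0, -8])⟩, ⟨209, (.lf [8, 0, -1])⟩), (⟨209, (.lf [1, 0,
  -8])⟩, ⟨206, o⟩), (⟨209, (.lf [1, 0, -16])⟩, ⟨205, o⟩), (⟨210, (.lf [1, 0, -16])⟩, ⟨206, o⟩),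
  (⟨208, (.lf [1, 0, -5])⟩, ⟨209, (.lf [1, 0, -12])⟩), (⟨206, o⟩, ⟨206, o⟩), (⟨209, (.lf [1, 0,
  -8])⟩, ⟨208, (.lf [1, 0, -4])⟩), (⟨206, o⟩, ⟨206, o⟩), (⟨217, (.nd 2 o (.lf [1, 0, -10]))⟩,
  ⟨209, (.lf [1, 0, -8])⟩), (⟨209, (.lf [1, 0, -8])⟩, ⟨206, o⟩), (⟨209, (.lf [1, 0, -14])⟩, ⟨205,
  o⟩), (⟨210, (.lf [1, 0, -16])⟩, ⟨206, o⟩), (⟨218, (.nd 2 o (.lf [2, 0, -12, 0, -5]))⟩, ⟨209,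
  (.lf [1, 0, -8])⟩), (⟨206, o⟩, ⟨206, o⟩), (⟨218, (.nd 2 o (.lf [1, 0, -4, 0, -16]))⟩, ⟨209,
  (.lf [1, 0, -8])⟩), (⟨208, (.lf [1, 0, -2])⟩, ⟨206, o⟩)]) (.st 583 (.sa 503 (.cl 4 [⟨63, o⟩])
  (.p2 153 102 ⟨593, 5, ⟨90, 1264, -224⟩, ⟨75, 1207, -174⟩, ⟨55, (.lf [0, 1])⟩, ⟨105, (.nd 3 (.nd
  3 (.lf [1, -32]) (.nd 3 (.lf [1, -8]) (.lf [1, -7]))) (.lf [1, -32]))⟩, ⟨97, (.lf [0, 1])⟩⟩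
  ⟨354, 12, ⟨1092, -1069, -74⟩, ⟨1001, -1000, 0⟩, ⟨57, (.lf [0, 1])⟩, ⟨108, (.nd 3 (.nd 3 (.lf
  [16, -86]) (.lf [1, -5])) (.lf [1, -32]))⟩, ⟨100, (.lf [0, 1])⟩⟩ [(⟨222, (.nd 2 o (.nd 3 (.lf
  [1, 0, 0, 0, -8]) (.lf [1, 0, -16, 0, -2])))⟩, ⟨205, o⟩), (⟨210, (.lf [1, 0, -16])⟩, ⟨205, o⟩),
  (⟨217, (.nd 2 o (.lf [1, 0, -16]))⟩, ⟨205, o⟩), (⟨210, (.lf [1, 0, -16])⟩, ⟨205, o⟩), (⟨221,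
  (.nd 2 o (.nd 3 (.lf [1, 0, -1, 0, -8]) (.lf [1, 0, -8, 0, -1])))⟩, ⟨208, (.lf [1, 0, -4])⟩),
  (⟨206, o⟩, ⟨206, o⟩), (⟨218, (.nd 2 o (.lf [2, 0, -18]))⟩, ⟨205, o⟩), (⟨208, (.lf [1, 0, -4])⟩,
  ⟨206, o⟩), (⟨226, (.nd 2 o (.nd 3 (.nd 3 (.lf [1, 0, -5, 0, -4]) o) (.lf [1, 0, -16, 0,
  -1])))⟩, ⟨208, (.lf [1, 0, -8])⟩), (⟨209, (.lf [1, 0, -8])⟩, ⟨206, o⟩), (⟨222, (.nd 2 o (.nd 3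
  (.lf [1, 0, -4, 0, -8]) (.lf [1, 0, -16, 0, -1])))⟩, ⟨205, o⟩), (⟨210, (.lf [1, 0, -16])⟩,
  ⟨205, o⟩), (⟨232, (.nd 2 o (.nd 3 (.nd 2 (.lf [8, 0, -28, 0, -5]) (.lf [1, 0, -5, 0, -5, -40]))
  (.lf [16, 0, -136, 0, -28])))⟩, ⟨208, (.lf [1, 0, -8])⟩), (⟨207, (.lf [1, 0, -2])⟩, ⟨206, o⟩),
  (⟨225, (.nd 2 o (.nd 3 (.lf [1, 0, -2, 0, -8]) (.lf [8, 0, -80, 0, -5])))⟩, ⟨208, (.lf [1, 0,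
  -8])⟩), (⟨209, (.lf [1, 0, -8])⟩, ⟨206, o⟩)])) (.cl 2 [⟨66, o⟩])))) (.cl 2 [⟨66, o⟩]))

theorem clb1_8 : Cov2 plb1 Rlb
    ⟨493, 528, 565, 590⟩ ⟨138, 148, 185, 200, 100, 0, 100, 0⟩ :=
  CT.sound plb1 clb cl_lb tlb1_8 _ _ (by decide +kernel)

noncomputable def tlb1_9 : CT :=
  (.sa 507 (.cl 3 [⟨68, o⟩, ⟨58, o⟩, ⟨58, o⟩, ⟨59, o⟩, ⟨67, o⟩, ⟨53, o⟩]) (.st 577 (.sa 512 (.cl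
  4 [⟨63, o⟩]) (.sx 156 (.p2 158 434 ⟨171, 15, ⟨75, 1215, -182⟩, ⟨60, 1161, -135⟩, ⟨55, (.lf [0,
  1])⟩, ⟨109, (.nd 3 (.nd 3 (.lf [1, -32]) (.nd 3 (.lf [1, -128]) (.lf [16, -106]))) (.lf [1,
  -32]))⟩, ⟨97, (.lf [0, 1])⟩⟩ ⟨94, 40, ⟨1091, -1069, -73⟩, ⟨1001, -1000, 0⟩, ⟨56, (.lf [0, 1])⟩,
  ⟨108, (.nd 3 (.nd 3 (.lf [16, -86]) (.lf [1, -5])) (.lf [1, -32]))⟩, ⟨100, (.lf [0, 1])⟩⟩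
  [(⟨215, (.lf [1, 0, 0, 0, -32])⟩, ⟨210, o⟩), (⟨211, o⟩, ⟨210, o⟩), (⟨215, (.lf [1, 0, -8, 0,
  -16])⟩, ⟨210, o⟩), (⟨210, o⟩, ⟨210, o⟩), (⟨210, o⟩, ⟨210, o⟩), (⟨211, o⟩, ⟨210, o⟩), (⟨210, o⟩,
  ⟨210, o⟩), (⟨211, o⟩, ⟨210, o⟩), (⟨223, (.nd 2 o (.nd 3 o o))⟩, ⟨211, (.lf [1, 0, -2])⟩),
  (⟨211, o⟩, ⟨210, o⟩), (⟨224, (.nd 2 o (.lf [1, 0, -32, 0, -48]))⟩, ⟨210, o⟩), (⟨211, o⟩, ⟨210,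
  o⟩), (⟨220, (.nd 2 o (.lf [1, 0, -2]))⟩, ⟨218, (.lf [1, 0, -128, 0, 0, -256])⟩), (⟨211, o⟩,
  ⟨210, o⟩), (⟨217, (.lf [4, 0, -124, 0, -17])⟩, ⟨210, o⟩), (⟨211, o⟩, ⟨210, o⟩)]) (.sa 518 (.cl
  3 [⟨68, o⟩, ⟨58, o⟩, ⟨58, o⟩, ⟨59, o⟩, ⟨67, o⟩, ⟨53, o⟩]) (.sy 186 (.cl 1 [⟨63, o⟩]) (.st 571
  (.sa 520 (.cl 4 [⟨63, o⟩]) (.st 570 (.sa 521 (.cl 4 [⟨63, o⟩]) (.p2 163 380 ⟨166, 12, ⟨60,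
  1167, -141⟩, ⟨48, 1128, -107⟩, ⟨55, (.lf [0, 1])⟩, ⟨106, (.nd 3 (.nd 3 (.lf [1, -32]) (.lf [16,
  -103])) (.lf [1, -16]))⟩, ⟨97, (.lf [0, 1])⟩⟩ ⟨113, 31, ⟨1084, -1063, -67⟩, ⟨1001, -1000, 0⟩,
  ⟨56, (.lf [0, 1])⟩, ⟨108, (.nd 3 (.nd 3 (.lf [16, -85]) (.lf [1, -5])) (.lf [1, -16]))⟩, ⟨100,
  (.lf [0, 1])⟩⟩ [(⟨209, o⟩, ⟨209, o⟩), (⟨210, o⟩, ⟨210, o⟩), (⟨209, o⟩, ⟨209, o⟩), (⟨210, o⟩,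
  ⟨210, o⟩), (⟨209, o⟩, ⟨209, o⟩), (⟨210, o⟩, ⟨210, o⟩), (⟨209, o⟩, ⟨209, o⟩), (⟨210, o⟩, ⟨210,
  o⟩), (⟨209, o⟩, ⟨209, o⟩), (⟨210, o⟩, ⟨210, o⟩), (⟨209, o⟩, ⟨209, o⟩), (⟨210, o⟩, ⟨210, o⟩),
  (⟨209, o⟩, ⟨209, o⟩), (⟨210, o⟩, ⟨210, o⟩), (⟨209, o⟩, ⟨209, o⟩), (⟨210, o⟩, ⟨210, o⟩)])) (.cl
  2 [⟨66, o⟩]))) (.cl 2 [⟨66, o⟩])))))) (.cl 2 [⟨66, o⟩])))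

theorem clb1_9 : Cov2 plb1 Rlb
    ⟨493, 528, 565, 590⟩ ⟨148, 163, 185, 200, 100, 0, 100, 0⟩ :=
  CT.sound plb1 clb cl_lb tlb1_9 _ _ (by decide +kernel)

noncomputable def tlb1_10 : CT :=
  (.cl 3 [⟨68, o⟩, ⟨58, o⟩, ⟨58, o⟩, ⟨59, o⟩, ⟨67, o⟩, ⟨53, o⟩])

theorem clb1_10 : Cov2 plb1 Rlb
    ⟨493, 528, 565, 590⟩ ⟨163, 164, 185, 200, 100, 0, 100, 0⟩ :=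
  CT.sound plb1 clb cl_lb tlb1_10 _ _ (by decide +kernel)

noncomputable def tlb1_11 : CT :=
  (.cl 3 [⟨68, o⟩, ⟨58, o⟩, ⟨58, o⟩, ⟨59, o⟩, ⟨68, o⟩, ⟨53, o⟩])

theorem clb1_11 : Cov2 plb1 Rlb
    ⟨480, 528, 558, 590⟩ ⟨164, 400, -400, 200, 100, 0, 100, 0⟩ :=
  CT.sound plb1 clb cl_lb tlb1_11 _ _ (by decide +kernel)

theorem covlb1 : Cov2 plb1 Rlb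
    ⟨480, 528, 558, 590⟩ ⟨-400, 400, -400, 200, 100, 0, 100, 0⟩ :=
  (Cov2.sx 164 (Cov2.sy 184 clb1_1 (Cov2.sa 493 clb1_2 (Cov2.sy 185 clb1_3 (Cov2.st 565 clb1_4
  (Cov2.sx 163 (Cov2.sx 91 clb1_5 (Cov2.sx 113 clb1_6 (Cov2.sx 148 (Cov2.sx 138 clb1_7 clb1_8)
  clb1_9))) clb1_10))))) clb1_11)

def plb2 : Pm := ⟨200, 0, 0, 0, 0, 3, 3, ⟨-11, 10, 14⟩⟩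

noncomputable def tlb2_1 : CT :=
  (.cl 1 [⟨64, o⟩])

theorem clb2_1 : Cov2 plb2 Rlb
    ⟨480, 528, 590, 600⟩ ⟨-400, 136, -400, 184, 100, 0, 100, 0⟩ :=
  CT.sound plb2 clb cl_lb tlb2_1 _ _ (by decide +kernel)

noncomputable def tlb2_2 : CT :=
  (.sy 192 (.p1 96 106 118 120 0 98 184 192 false true 108 160 [(⟨139, o⟩, ⟨140, o⟩), (⟨140, o⟩,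
  ⟨140, o⟩), (⟨135, o⟩, ⟨133, o⟩)]) (.sy 194 (.p1 96 106 118 120 0 98 192 194 false true 110 120
  [(⟨139, o⟩, ⟨139, o⟩), (⟨139, o⟩, ⟨139, o⟩), (⟨135, o⟩, ⟨133, o⟩)]) (.sa 505 (.p1 96 101 118
  120 0 98 194 200 false true 112 240 [(⟨141, o⟩, ⟨141, o⟩), (⟨141, o⟩, ⟨141, o⟩), (⟨137, o⟩,
  ⟨134, o⟩)]) (.sy 197 (.p1 101 106 118 120 0 98 194 197 false true 114 160 [(⟨140, o⟩, ⟨140,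
  o⟩), (⟨140, o⟩, ⟨140, o⟩), (⟨135, o⟩, ⟨133, o⟩)]) (.p1 101 106 118 120 0 98 197 200 false true
  118 160 [(⟨140, o⟩, ⟨140, o⟩), (⟨140, o⟩, ⟨140, o⟩), (⟨135, o⟩, ⟨133, o⟩)])))))

theorem clb2_2 : Cov2 plb2 Rlb
    ⟨480, 528, 590, 600⟩ ⟨-400, 98, 184, 200, 100, 0, 100, 0⟩ :=
  CT.sound plb2 clb cl_lb tlb2_2 _ _ (by decide +kernel)

noncomputable def tlb2_3 : CT :=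
  (.sx 102 (.st 595 (.p2 118 121 ⟨123, 43, ⟨290, 2337, -1210⟩, ⟨249, 2037, -928⟩, ⟨55, (.lf [0,
  1])⟩, ⟨112, (.nd 3 (.nd 3 (.nd 3 (.lf [2, -27]) (.nd 3 (.lf [2, -30]) (.lf [1, -17]))) (.nd 3
  (.lf [2, -23]) o)) (.lf [1, -512]))⟩, ⟨99, (.lf [0, 1])⟩⟩ ⟨199, 20, ⟨1096, -1071, -78⟩, ⟨1001,
  -1000, 0⟩, ⟨57, (.lf [0, 1])⟩, ⟨112, (.nd 3 (.nd 3 (.lf [4, -22]) (.nd 3 (.nd 3 (.lf [1, -5])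
  (.lf [4, -21])) o)) (.lf [1, -32]))⟩, ⟨100, (.lf [0, 1])⟩⟩ [(⟨203, o⟩, ⟨204, o⟩), (⟨204, o⟩,
  ⟨204, o⟩), (⟨203, o⟩, ⟨204, o⟩), (⟨204, o⟩, ⟨204, o⟩), (⟨204, o⟩, ⟨208, (.lf [8, 0, -2])⟩),
  (⟨205, o⟩, ⟨205, o⟩), (⟨204, o⟩, ⟨205, o⟩), (⟨204, o⟩, ⟨205, o⟩), (⟨203, o⟩, ⟨204, o⟩), (⟨204,
  o⟩, ⟨204, o⟩), (⟨203, o⟩, ⟨204, o⟩), (⟨204, o⟩, ⟨204, o⟩), (⟨204, o⟩, ⟨207, (.lf [4, 0, -1])⟩),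
  (⟨204, o⟩, ⟨205, o⟩), (⟨204, o⟩, ⟨204, o⟩), (⟨204, o⟩, ⟨205, o⟩)]) (.sa 518 (.p2 115 279 ⟨96,
  51, ⟨275, 2178, -1050⟩, ⟨240, 1935, -827⟩, ⟨55, (.lf [0, 1])⟩, ⟨112, (.nd 3 (.nd 3 (.nd 3 (.nd
  3 (.lf [1, -14]) (.lf [2, -26])) (.lf [16, -258])) (.nd 3 (.nd 3 o (.lf [1, -12])) o)) (.lf [1,
  -128]))⟩, ⟨99, (.lf [0, 1])⟩⟩ ⟨138, 27, ⟨1096, -1071, -78⟩, ⟨1001, -1000, 0⟩, ⟨56, (.lf [0,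
  1])⟩, ⟨112, (.nd 3 (.nd 3 (.lf [4, -22]) (.nd 3 (.nd 3 (.lf [1, -5]) (.lf [4, -21])) o)) (.lf
  [1, -32]))⟩, ⟨100, (.lf [0, 1])⟩⟩ [(⟨206, o⟩, ⟨207, o⟩), (⟨207, o⟩, ⟨207, o⟩), (⟨206, o⟩, ⟨207,
  o⟩), (⟨207, o⟩, ⟨207, o⟩), (⟨207, o⟩, ⟨209, (.lf [1, 0, -2])⟩), (⟨208, o⟩, ⟨208, o⟩), (⟨207,
  o⟩, ⟨208, o⟩), (⟨208, o⟩, ⟨208, o⟩), (⟨206, o⟩, ⟨207, o⟩), (⟨207, o⟩, ⟨207, o⟩), (⟨206, o⟩,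
  ⟨207, o⟩), (⟨207, o⟩, ⟨207, o⟩), (⟨207, o⟩, ⟨210, (.lf [1, 0, -4])⟩), (⟨208, o⟩, ⟨208, o⟩),
  (⟨207, o⟩, ⟨207, o⟩), (⟨208, o⟩, ⟨208, o⟩)]) (.cl 2 [⟨66, o⟩]))) (.st 595 (.st 593 (.sa 489
  (.cl 4 [⟨63, o⟩]) (.sy 185 (.cl 1 [⟨62, o⟩]) (.p2 124 383 ⟨94, 53, ⟨251, 2090, -980⟩, ⟨191,
  1691, -611⟩, ⟨55, (.lf [0, 1])⟩, ⟨114, (.nd 3 (.nd 3 (.nd 3 (.nd 3 (.lf [1, -12]) (.lf [2,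
  -23])) (.nd 3 (.lf [1, -14]) (.lf [1, -128]))) (.nd 3 (.lf [8, -82]) o)) (.lf [1, -128]))⟩,
  ⟨99, (.lf [0, 1])⟩⟩ ⟨102, 36, ⟨1088, -1065, -71⟩, ⟨1001, -1000, 0⟩, ⟨56, (.lf [0, 1])⟩, ⟨112,
  (.nd 3 (.nd 3 (.lf [4, -22]) (.nd 3 (.nd 3 (.lf [1, -5]) (.lf [4, -21])) o)) (.lf [1, -32]))⟩,
  ⟨100, (.lf [0, 1])⟩⟩ [(⟨208, o⟩, ⟨208, o⟩), (⟨209, o⟩, ⟨209, o⟩), (⟨208, o⟩, ⟨208, o⟩), (⟨209,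
  o⟩, ⟨209, o⟩), (⟨209, o⟩, ⟨212, (.lf [1, 0, -8])⟩), (⟨209, o⟩, ⟨210, o⟩), (⟨209, o⟩, ⟨209, o⟩),
  (⟨209, o⟩, ⟨210, o⟩), (⟨208, o⟩, ⟨210, (.lf [1, 0, -2])⟩), (⟨209, o⟩, ⟨209, o⟩), (⟨208, o⟩,
  ⟨208, o⟩), (⟨209, o⟩, ⟨209, o⟩), (⟨209, o⟩, ⟨213, (.lf [1, 0, -10])⟩), (⟨209, o⟩, ⟨210, o⟩),
  (⟨209, o⟩, ⟨209, o⟩), (⟨209, o⟩, ⟨210, o⟩)]))) (.sa 519 (.sa 486 (.cl 4 [⟨63, o⟩]) (.sy 185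
  (.cl 1 [⟨62, o⟩]) (.p2 122 298 ⟨101, 47, ⟨242, 1998, -885⟩, ⟨187, 1647, -565⟩, ⟨55, (.lf [0,
  1])⟩, ⟨116, (.nd 3 (.nd 3 (.nd 3 (.lf [512, -6287]) (.lf [1, -256])) (.nd 3 (.lf [2, -21]) o))
  (.lf [1, -64]))⟩, ⟨98, (.lf [0, 1])⟩⟩ ⟨139, 26, ⟨1089, -1066, -72⟩, ⟨1001, -1000, 0⟩, ⟨56, (.lf
  [0, 1])⟩, ⟨112, (.nd 3 (.nd 3 (.lf [4, -22]) (.nd 3 (.nd 3 (.lf [1, -5]) (.lf [4, -21])) o))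
  (.lf [1, -32]))⟩, ⟨100, (.lf [0, 1])⟩⟩ [(⟨207, o⟩, ⟨207, o⟩), (⟨207, o⟩, ⟨208, o⟩), (⟨207, o⟩,
  ⟨207, o⟩), (⟨207, o⟩, ⟨208, o⟩), (⟨208, o⟩, ⟨210, (.lf [1, 0, -2])⟩), (⟨208, o⟩, ⟨209, o⟩),
  (⟨208, o⟩, ⟨208, o⟩), (⟨208, o⟩, ⟨209, o⟩), (⟨207, o⟩, ⟨207, o⟩), (⟨207, o⟩, ⟨208, o⟩), (⟨207,
  o⟩, ⟨207, o⟩), (⟨207, o⟩, ⟨208, o⟩), (⟨207, o⟩, ⟨213, (.lf [4, 0, -30])⟩), (⟨208, o⟩, ⟨208,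
  o⟩), (⟨207, o⟩, ⟨208, o⟩), (⟨208, o⟩, ⟨208, o⟩)]))) (.cl 2 [⟨66, o⟩]))) (.sa 513 (.sx 105 (.p2
  116 249 ⟨103, 44, ⟨237, 1912, -801⟩, ⟨217, 1786, -687⟩, ⟨55, (.lf [0, 1])⟩, ⟨110, (.nd 3 (.nd 3
  (.nd 3 (.lf [8, -102]) (.lf [1, -64])) (.nd 3 (.lf [2, -22]) o)) (.lf [1, -64]))⟩, ⟨98, (.lf
  [0, 1])⟩⟩ ⟨116, 33, ⟨1097, -1071, -79⟩, ⟨1001, -1000, 0⟩, ⟨56, (.lf [0, 1])⟩, ⟨113, (.nd 3 (.nd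
  3 (.lf [4, -22]) (.nd 3 (.lf [64, -326]) o)) (.lf [1, -32]))⟩, ⟨100, (.lf [0, 1])⟩⟩ [(⟨206, o⟩,
  ⟨206, o⟩), (⟨206, o⟩, ⟨206, o⟩), (⟨206, o⟩, ⟨206, o⟩), (⟨206, o⟩, ⟨206, o⟩), (⟨206, o⟩, ⟨207,
  o⟩), (⟨207, o⟩, ⟨207, o⟩), (⟨206, o⟩, ⟨207, o⟩), (⟨207, o⟩, ⟨207, o⟩), (⟨206, o⟩, ⟨206, o⟩),
  (⟨206, o⟩, ⟨206, o⟩), (⟨206, o⟩, ⟨206, o⟩), (⟨206, o⟩, ⟨206, o⟩), (⟨206, o⟩, ⟨209, (.lf [1, 0,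
  -4])⟩), (⟨207, o⟩, ⟨207, o⟩), (⟨206, o⟩, ⟨207, o⟩), (⟨207, o⟩, ⟨207, o⟩)]) (.sx 109 (.st 598
  (.p2 119 312 ⟨100, 44, ⟨216, 1793, -692⟩, ⟨193, 1662, -574⟩, ⟨55, (.lf [0, 1])⟩, ⟨112, (.nd 3
  (.nd 3 (.nd 3 (.lf [8, -97]) (.lf [1, -64])) (.nd 3 (.lf [32, -341]) o)) (.lf [1, -64]))⟩, ⟨98,
  (.lf [0, 1])⟩⟩ ⟨137, 28, ⟨1098, -1072, -80⟩, ⟨1001, -1000, 0⟩, ⟨56, (.lf [0, 1])⟩, ⟨110, (.nd 3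
  (.nd 3 (.lf [4, -22]) (.lf [64, -323])) (.lf [1, -32]))⟩, ⟨100, (.lf [0, 1])⟩⟩ [(⟨207, o⟩,
  ⟨207, o⟩), (⟨208, o⟩, ⟨208, o⟩), (⟨207, o⟩, ⟨207, o⟩), (⟨208, o⟩, ⟨208, o⟩), (⟨208, o⟩, ⟨208,
  o⟩), (⟨208, o⟩, ⟨209, o⟩), (⟨208, o⟩, ⟨208, o⟩), (⟨208, o⟩, ⟨209, o⟩), (⟨207, o⟩, ⟨207, o⟩),
  (⟨208, o⟩, ⟨208, o⟩), (⟨207, o⟩, ⟨207, o⟩), (⟨208, o⟩, ⟨208, o⟩), (⟨208, o⟩, ⟨211, (.lf [1, 0,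
  -8])⟩), (⟨208, o⟩, ⟨209, o⟩), (⟨208, o⟩, ⟨210, (.lf [1, 0, -4])⟩), (⟨208, o⟩, ⟨208, o⟩)]) (.sa
  499 (.p2 117 80 ⟨242, 17, ⟨209, 1732, -629⟩, ⟨188, 1616, -527⟩, ⟨55, (.lf [0, 1])⟩, ⟨113, (.nd
  3 (.nd 3 (.lf [1, -256]) (.nd 3 (.nd 3 (.lf [8, -82]) (.lf [2, -22])) o)) (.lf [1, -64]))⟩,
  ⟨98, (.lf [0, 1])⟩⟩ ⟨256, 15, ⟨1099, -1073, -81⟩, ⟨1001, -1000, 0⟩, ⟨56, (.lf [0, 1])⟩, ⟨106,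
  (.nd 3 (.nd 3 (.lf [4, -22]) (.lf [1, -5])) (.lf [1, -32]))⟩, ⟨100, (.lf [0, 1])⟩⟩ [(⟨202, o⟩,
  ⟨202, o⟩), (⟨203, o⟩, ⟨203, o⟩), (⟨202, o⟩, ⟨202, o⟩), (⟨203, o⟩, ⟨203, o⟩), (⟨203, o⟩, ⟨203,
  o⟩), (⟨203, o⟩, ⟨204, o⟩), (⟨203, o⟩, ⟨203, o⟩), (⟨203, o⟩, ⟨204, o⟩), (⟨202, o⟩, ⟨202, o⟩),
  (⟨203, o⟩, ⟨203, o⟩), (⟨202, o⟩, ⟨202, o⟩), (⟨203, o⟩, ⟨203, o⟩), (⟨203, o⟩, ⟨203, o⟩), (⟨203,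
  o⟩, ⟨204, o⟩), (⟨203, o⟩, ⟨208, (.lf [32, 0, -1])⟩), (⟨203, o⟩, ⟨204, o⟩)]) (.cl 2 [⟨66, o⟩])))
  (.sa 503 (.p2 119 82 ⟨254, 16, ⟨189, 1633, -542⟩, ⟨180, 1583, -498⟩, ⟨55, (.lf [0, 1])⟩, ⟨110,
  (.nd 3 (.nd 3 (.lf [1, -128]) (.nd 3 (.lf [8, -83]) o)) (.lf [1, -64]))⟩, ⟨98, (.lf [0, 1])⟩⟩
  ⟨306, 13, ⟨1099, -1073, -81⟩, ⟨1001, -1000, 0⟩, ⟨56, (.lf [0, 1])⟩, ⟨106, (.nd 3 (.nd 3 (.lf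
  [4, -22]) (.lf [1, -5])) (.lf [1, -32]))⟩, ⟨100, (.lf [0, 1])⟩⟩ [(⟨202, o⟩, ⟨203, o⟩), (⟨203,
  o⟩, ⟨203, o⟩), (⟨202, o⟩, ⟨203, o⟩), (⟨203, o⟩, ⟨203, o⟩), (⟨203, o⟩, ⟨207, (.lf [8, 0, -5])⟩),
  (⟨204, o⟩, ⟨204, o⟩), (⟨203, o⟩, ⟨203, o⟩), (⟨204, o⟩, ⟨204, o⟩), (⟨202, o⟩, ⟨203, o⟩), (⟨203,
  o⟩, ⟨203, o⟩), (⟨202, o⟩, ⟨203, o⟩), (⟨203, o⟩, ⟨203, o⟩), (⟨203, o⟩, ⟨219, (.nd 3 (.nd 2 o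
  (.lf [4, 0, -5])) o)⟩), (⟨204, o⟩, ⟨204, o⟩), (⟨203, o⟩, ⟨219, (.nd 3 (.nd 2 o (.lf [4, 0,
  -6])) o)⟩), (⟨204, o⟩, ⟨204, o⟩)]) (.cl 2 [⟨66, o⟩])))) (.cl 2 [⟨66, o⟩]))))

theorem clb2_3 : Cov2 plb2 Rlb
    ⟨480, 528, 590, 600⟩ ⟨98, 111, 184, 200, 100, 0, 100, 0⟩ :=
  CT.sound plb2 clb cl_lb tlb2_3 _ _ (by decide +kernel)

noncomputable def tlb2_4 : CT :=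
  (.sa 517 (.sa 500 (.sx 113 (.p2 120 121 ⟨211, 18, ⟨179, 1588, -500⟩, ⟨170, 1543, -461⟩, ⟨55,
  (.lf [0, 1])⟩, ⟨111, (.nd 3 (.nd 3 (.lf [1, -128]) (.nd 3 (.lf [32, -322]) (.lf [2, -18])))
  (.lf [1, -32]))⟩, ⟨98, (.lf [0, 1])⟩⟩ ⟨359, 11, ⟨1100, -1074, -82⟩, ⟨1001, -1000, 0⟩, ⟨56, (.lf
  [0, 1])⟩, ⟨106, (.nd 3 (.nd 3 (.lf [4, -22]) (.lf [1, -5])) (.lf [1, -32]))⟩, ⟨100, (.lf [0,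
  1])⟩⟩ [(⟨204, o⟩, ⟨204, o⟩), (⟨205, o⟩, ⟨205, o⟩), (⟨204, o⟩, ⟨204, o⟩), (⟨205, o⟩, ⟨205, o⟩),
  (⟨205, o⟩, ⟨205, o⟩), (⟨205, o⟩, ⟨205, o⟩), (⟨205, o⟩, ⟨205, o⟩), (⟨205, o⟩, ⟨205, o⟩), (⟨204,
  o⟩, ⟨204, o⟩), (⟨205, o⟩, ⟨205, o⟩), (⟨204, o⟩, ⟨204, o⟩), (⟨205, o⟩, ⟨205, o⟩), (⟨205, o⟩,
  ⟨207, (.lf [1, 0, -4])⟩), (⟨205, o⟩, ⟨205, o⟩), (⟨205, o⟩, ⟨208, (.lf [1, 0, -6])⟩), (⟨205, o⟩,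
  ⟨205, o⟩)]) (.sa 490 (.st 592 (.cl 4 [⟨63, o⟩]) (.p2 122 131 ⟨269, 13, ⟨167, 1522, -438⟩, ⟨151,
  1451, -375⟩, ⟨55, (.lf [0, 1])⟩, ⟨109, (.nd 3 (.nd 3 (.lf [1, -64]) (.nd 3 (.lf [8, -78]) (.lf
  [8, -71]))) (.lf [1, -32]))⟩, ⟨98, (.lf [0, 1])⟩⟩ ⟨257, 15, ⟨1101, -1075, -84⟩, ⟨1001, -1000,
  0⟩, ⟨56, (.lf [0, 1])⟩, ⟨106, (.nd 3 (.nd 3 (.lf [4, -22]) (.lf [1, -5])) (.lf [1, -32]))⟩,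
  ⟨100, (.lf [0, 1])⟩⟩ [(⟨204, o⟩, ⟨204, o⟩), (⟨205, o⟩, ⟨205, o⟩), (⟨204, o⟩, ⟨205, o⟩), (⟨205,
  o⟩, ⟨205, o⟩), (⟨205, o⟩, ⟨205, o⟩), (⟨205, o⟩, ⟨206, o⟩), (⟨205, o⟩, ⟨205, o⟩), (⟨205, o⟩,
  ⟨206, o⟩), (⟨204, o⟩, ⟨205, o⟩), (⟨205, o⟩, ⟨205, o⟩), (⟨204, o⟩, ⟨205, o⟩), (⟨205, o⟩, ⟨205,
  o⟩), (⟨205, o⟩, ⟨208, (.lf [1, 0, -8])⟩), (⟨205, o⟩, ⟨206, o⟩), (⟨205, o⟩, ⟨208, (.lf [1, 0,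
  -8])⟩), (⟨205, o⟩, ⟨206, o⟩)])) (.sy 185 (.cl 1 [⟨62, o⟩]) (.st 598 (.p2 124 248 ⟨152, 24,
  ⟨172, 1565, -483⟩, ⟨156, 1484, -412⟩, ⟨55, (.lf [0, 1])⟩, ⟨109, (.nd 3 (.nd 3 (.lf [1, -64])
  (.nd 3 (.lf [8, -78]) (.lf [1, -8]))) (.lf [1, -32]))⟩, ⟨98, (.lf [0, 1])⟩⟩ ⟨129, 28, ⟨1091,
  -1067, -75⟩, ⟨1001, -1000, 0⟩, ⟨56, (.lf [0, 1])⟩, ⟨110, (.nd 3 (.nd 3 (.lf [16, -86]) (.lf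
  [64, -323])) (.lf [1, -32]))⟩, ⟨100, (.lf [0, 1])⟩⟩ [(⟨206, o⟩, ⟨206, o⟩), (⟨207, o⟩, ⟨207,
  o⟩), (⟨206, o⟩, ⟨206, o⟩), (⟨207, o⟩, ⟨207, o⟩), (⟨207, o⟩, ⟨207, o⟩), (⟨207, o⟩, ⟨207, o⟩),
  (⟨207, o⟩, ⟨207, o⟩), (⟨207, o⟩, ⟨207, o⟩), (⟨206, o⟩, ⟨206, o⟩), (⟨207, o⟩, ⟨207, o⟩), (⟨206,
  o⟩, ⟨206, o⟩), (⟨207, o⟩, ⟨207, o⟩), (⟨207, o⟩, ⟨211, (.lf [1, 0, -16])⟩), (⟨207, o⟩, ⟨207,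
  o⟩), (⟨207, o⟩, ⟨211, (.lf [1, 0, -16])⟩), (⟨207, o⟩, ⟨207, o⟩)]) (.cl 2 [⟨66, o⟩]))))) (.sy
  185 (.cl 1 [⟨62, o⟩]) (.st 595 (.sx 114 (.p2 123 162 ⟨133, 31, ⟨190, 1682, -601⟩, ⟨175, 1600,
  -527⟩, ⟨55, (.lf [0, 1])⟩, ⟨107, (.nd 3 (.nd 3 (.lf [1, -12]) (.nd 3 (.lf [1, -10]) o)) (.lf
  [1, -64]))⟩, ⟨98, (.lf [0, 1])⟩⟩ ⟨247, 14, ⟨1088, -1065, -71⟩, ⟨1001, -1000, 0⟩, ⟨56, (.lf [0,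
  1])⟩, ⟨112, (.nd 3 (.nd 3 (.lf [1, -128]) (.nd 3 (.nd 3 (.lf [1, -5]) (.lf [4, -21])) o)) (.lf
  [1, -16]))⟩, ⟨100, (.lf [0, 1])⟩⟩ [(⟨204, o⟩, ⟨205, o⟩), (⟨205, o⟩, ⟨205, o⟩), (⟨205, o⟩, ⟨205,
  o⟩), (⟨205, o⟩, ⟨205, o⟩), (⟨205, o⟩, ⟨205, o⟩), (⟨206, o⟩, ⟨206, o⟩), (⟨205, o⟩, ⟨205, o⟩),
  (⟨206, o⟩, ⟨206, o⟩), (⟨204, o⟩, ⟨205, o⟩), (⟨205, o⟩, ⟨205, o⟩), (⟨205, o⟩, ⟨205, o⟩), (⟨205,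
  o⟩, ⟨205, o⟩), (⟨205, o⟩, ⟨208, (.lf [4, 0, -2])⟩), (⟨206, o⟩, ⟨206, o⟩), (⟨205, o⟩, ⟨205, o⟩),
  (⟨206, o⟩, ⟨206, o⟩)]) (.sa 512 (.st 594 (.p2 126 130 ⟨198, 20, ⟨174, 1592, -517⟩, ⟨161, 1526,
  -457⟩, ⟨55, (.lf [0, 1])⟩, ⟨109, (.nd 3 (.nd 3 (.lf [1, -128]) (.nd 3 (.lf [8, -78]) o)) (.lf
  [1, -32]))⟩, ⟨98, (.lf [0, 1])⟩⟩ ⟨208, 17, ⟨1089, -1065, -72⟩, ⟨1001, -1000, 0⟩, ⟨56, (.lf [0,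
  1])⟩, ⟨110, (.nd 3 (.nd 3 (.lf [1, -128]) (.lf [64, -323])) (.lf [1, -16]))⟩, ⟨100, (.lf [0,
  1])⟩⟩ [(⟨204, o⟩, ⟨204, o⟩), (⟨205, o⟩, ⟨205, o⟩), (⟨204, o⟩, ⟨204, o⟩), (⟨205, o⟩, ⟨205, o⟩),
  (⟨205, o⟩, ⟨205, o⟩), (⟨205, o⟩, ⟨205, o⟩), (⟨205, o⟩, ⟨205, o⟩), (⟨205, o⟩, ⟨205, o⟩), (⟨204,
  o⟩, ⟨204, o⟩), (⟨205, o⟩, ⟨205, o⟩), (⟨204, o⟩, ⟨204, o⟩), (⟨205, o⟩, ⟨205, o⟩), (⟨204, o⟩,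
  ⟨205, o⟩), (⟨205, o⟩, ⟨205, o⟩), (⟨205, o⟩, ⟨205, o⟩), (⟨205, o⟩, ⟨205, o⟩)]) (.cl 2 [⟨66,
  o⟩])) (.cl 2 [⟨66, o⟩]))) (.cl 2 [⟨66, o⟩])))) (.cl 2 [⟨66, o⟩]))

theorem clb2_4 : Cov2 plb2 Rlb
    ⟨480, 528, 590, 600⟩ ⟨111, 117, 184, 200, 100, 0, 100, 0⟩ :=
  CT.sound plb2 clb cl_lb tlb2_4 _ _ (by decide +kernel)

noncomputable def tlb2_5 : CT :=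
  (.sa 508 (.st 599 (.sx 121 (.sa 495 (.p2 127 258 ⟨203, 17, ⟨153, 1462, -387⟩, ⟨138, 1401,
  -333⟩, ⟨55, (.lf [0, 1])⟩, ⟨107, (.nd 3 (.nd 3 (.lf [1, -64]) (.nd 3 (.lf [1, -10]) (.lf [2,
  -17]))) (.lf [1, -32]))⟩, ⟨98, (.lf [0, 1])⟩⟩ ⟨135, 29, ⟨1100, -1075, -83⟩, ⟨1001, -1000, 0⟩,
  ⟨56, (.lf [0, 1])⟩, ⟨106, (.nd 3 (.nd 3 (.lf [4, -22]) (.lf [1, -5])) (.lf [1, -32]))⟩, ⟨100,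
  (.lf [0, 1])⟩⟩ [(⟨207, o⟩, ⟨207, o⟩), (⟨208, o⟩, ⟨208, o⟩), (⟨209, (.lf [1, 0, -4])⟩, ⟨207,
  o⟩), (⟨210, (.lf [1, 0, -4])⟩, ⟨208, o⟩), (⟨207, o⟩, ⟨212, (.lf [1, 0, -32])⟩), (⟨208, o⟩,
  ⟨208, o⟩), (⟨207, o⟩, ⟨212, (.lf [16, 0, -1])⟩), (⟨208, o⟩, ⟨208, o⟩), (⟨207, o⟩, ⟨207, o⟩),
  (⟨208, o⟩, ⟨208, o⟩), (⟨210, (.lf [1, 0, -8])⟩, ⟨207, o⟩), (⟨211, (.lf [1, 0, -8])⟩, ⟨208, o⟩),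
  (⟨207, o⟩, ⟨213, (.lf [1, 0, -48])⟩), (⟨208, o⟩, ⟨208, o⟩), (⟨209, (.lf [1, 0, -2])⟩, ⟨213,
  (.lf [1, 0, -48])⟩), (⟨208, o⟩, ⟨208, o⟩)]) (.sy 185 (.cl 1 [⟨62, o⟩]) (.st 594 (.p2 128 187
  ⟨176, 21, ⟨159, 1511, -440⟩, ⟨144, 1440, -377⟩, ⟨55, (.lf [0, 1])⟩, ⟨107, (.nd 3 (.nd 3 (.lf
  [1, -64]) (.nd 3 (.lf [2, -19]) (.lf [1, -8]))) (.lf [1, -32]))⟩, ⟨98, (.lf [0, 1])⟩⟩ ⟨186, 19,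
  ⟨1090, -1066, -73⟩, ⟨1001, -1000, 0⟩, ⟨56, (.lf [0, 1])⟩, ⟨110, (.nd 3 (.nd 3 (.lf [1, -512])
  (.lf [1, -5])) (.lf [1, -16]))⟩, ⟨100, (.lf [0, 1])⟩⟩ [(⟨205, o⟩, ⟨205, o⟩), (⟨206, o⟩, ⟨206,
  o⟩), (⟨205, o⟩, ⟨205, o⟩), (⟨206, o⟩, ⟨206, o⟩), (⟨206, o⟩, ⟨206, o⟩), (⟨206, o⟩, ⟨207, o⟩),
  (⟨206, o⟩, ⟨206, o⟩), (⟨206, o⟩, ⟨206, o⟩), (⟨205, o⟩, ⟨205, o⟩), (⟨206, o⟩, ⟨206, o⟩), (⟨205,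
  o⟩, ⟨205, o⟩), (⟨206, o⟩, ⟨206, o⟩), (⟨206, o⟩, ⟨209, (.lf [1, 0, -8])⟩), (⟨206, o⟩, ⟨206, o⟩),
  (⟨206, o⟩, ⟨209, (.lf [1, 0, -8])⟩), (⟨206, o⟩, ⟨206, o⟩)]) (.cl 2 [⟨66, o⟩])))) (.sa 502 (.st
  597 (.sa 484 (.cl 4 [⟨63, o⟩]) (.sy 185 (.cl 1 [⟨62, o⟩]) (.st 596 (.p2 131 126 ⟨359, 9, ⟨141,
  1417, -351⟩, ⟨128, 1363, -304⟩, ⟨55, (.lf [0, 1])⟩, ⟨109, (.nd 3 (.nd 3 (.lf [1, -32]) (.nd 3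
  (.lf [1, -10]) (.lf [8, -66]))) (.lf [1, -32]))⟩, ⟨98, (.lf [0, 1])⟩⟩ ⟨353, 11, ⟨1092, -1068,
  -76⟩, ⟨1001, -1000, 0⟩, ⟨56, (.lf [0, 1])⟩, ⟨108, (.nd 3 (.nd 3 (.lf [16, -86]) (.lf [1, -5]))
  (.lf [1, -32]))⟩, ⟨100, (.lf [0, 1])⟩⟩ [(⟨205, o⟩, ⟨205, o⟩), (⟨206, o⟩, ⟨206, o⟩), (⟨205, o⟩,
  ⟨205, o⟩), (⟨206, o⟩, ⟨206, o⟩), (⟨205, o⟩, ⟨205, o⟩), (⟨206, o⟩, ⟨206, o⟩), (⟨205, o⟩, ⟨206,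
  o⟩), (⟨206, o⟩, ⟨206, o⟩), (⟨205, o⟩, ⟨205, o⟩), (⟨206, o⟩, ⟨206, o⟩), (⟨205, o⟩, ⟨205, o⟩),
  (⟨206, o⟩, ⟨206, o⟩), (⟨205, o⟩, ⟨211, (.lf [2, 0, -31])⟩), (⟨206, o⟩, ⟨206, o⟩), (⟨208, (.lf
  [1, 0, -4])⟩, ⟨210, (.lf [1, 0, -16])⟩), (⟨206, o⟩, ⟨206, o⟩)]) (.cl 2 [⟨66, o⟩])))) (.cl 2
  [⟨66, o⟩])) (.cl 2 [⟨66, o⟩]))) (.cl 2 [⟨66, o⟩])) (.cl 2 [⟨66, o⟩]))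

theorem clb2_5 : Cov2 plb2 Rlb
    ⟨480, 528, 590, 600⟩ ⟨117, 125, 184, 200, 100, 0, 100, 0⟩ :=
  CT.sound plb2 clb cl_lb tlb2_5 _ _ (by decide +kernel)

noncomputable def tlb2_6 : CT :=
  (.sa 497 (.st 595 (.sa 486 (.cl 4 [⟨63, o⟩]) (.sx 132 (.sy 185 (.cl 1 [⟨62, o⟩]) (.st 593 (.sa
  489 (.cl 4 [⟨63, o⟩]) (.sx 130 (.p2 136 183 ⟨420, 7, ⟨127, 1367, -306⟩, ⟨113, 1310, -257⟩, ⟨55,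
  (.lf [0, 1])⟩, ⟨109, (.nd 3 (.nd 3 (.lf [1, -32]) (.nd 3 (.lf [1, -64]) (.lf [1, -8]))) (.lf
  [1, -32]))⟩, ⟨98, (.lf [0, 1])⟩⟩ ⟨175, 21, ⟨1093, -1069, -76⟩, ⟨1001, -1000, 0⟩, ⟨56, (.lf [0,
  1])⟩, ⟨108, (.nd 3 (.nd 3 (.lf [16, -86]) (.lf [1, -5])) (.lf [1, -32]))⟩, ⟨100, (.lf [0, 1])⟩⟩
  [(⟨217, (.nd 3 (.lf [1, 0, -32]) (.lf [1, 0, -64]))⟩, ⟨206, o⟩), (⟨213, (.lf [1, 0, -64, 0,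
  -4])⟩, ⟨207, o⟩), (⟨212, (.lf [1, 0, -48])⟩, ⟨206, o⟩), (⟨213, (.lf [1, 0, -64])⟩, ⟨207, o⟩),
  (⟨217, (.nd 3 (.lf [1, 0, -16]) (.lf [1, 0, -32]))⟩, ⟨207, o⟩), (⟨211, (.lf [1, 0, -16])⟩,
  ⟨207, o⟩), (⟨212, (.lf [1, 0, -32])⟩, ⟨207, o⟩), (⟨212, (.lf [1, 0, -32])⟩, ⟨207, o⟩), (⟨221,
  (.nd 3 (.nd 3 (.lf [1, 0, -32]) o) (.lf [1, 0, -48]))⟩, ⟨206, o⟩), (⟨213, (.lf [1, 0, -64, 0,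
  -4])⟩, ⟨207, o⟩), (⟨217, (.nd 3 (.lf [1, 0, -38]) (.lf [1, 0, -64]))⟩, ⟨206, o⟩), (⟨217, (.lf
  [16, 0, -1024, 0, -1])⟩, ⟨207, o⟩), (⟨221, (.nd 3 (.nd 3 (.lf [1, 0, -24]) o) (.lf [1, 0,
  -32]))⟩, ⟨207, o⟩), (⟨212, (.lf [1, 0, -32])⟩, ⟨207, o⟩), (⟨217, (.nd 3 (.lf [1, 0, -25]) (.lf
  [1, 0, -32]))⟩, ⟨207, o⟩), (⟨212, (.lf [1, 0, -32])⟩, ⟨207, o⟩)]) (.cl 2 [⟨66, o⟩]))) (.cl 2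
  [⟨66, o⟩]))) (.cl 2 [⟨66, o⟩]))) (.cl 2 [⟨66, o⟩])) (.cl 2 [⟨66, o⟩]))

theorem clb2_6 : Cov2 plb2 Rlb
    ⟨480, 528, 590, 600⟩ ⟨125, 136, 184, 200, 100, 0, 100, 0⟩ :=
  CT.sound plb2 clb cl_lb tlb2_6 _ _ (by decide +kernel)

noncomputable def tlb2_7 : CT :=
  (.cl 2 [⟨66, o⟩])

theorem clb2_7 : Cov2 plb2 Rlb
    ⟨480, 528, 590, 600⟩ ⟨136, 400, -400, 200, 100, 0, 100, 0⟩ :=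
  CT.sound plb2 clb cl_lb tlb2_7 _ _ (by decide +kernel)

theorem covlb2 : Cov2 plb2 Rlb
    ⟨480, 528, 590, 600⟩ ⟨-400, 400, -400, 200, 100, 0, 100, 0⟩ :=
  (Cov2.sx 136 (Cov2.sy 184 clb2_1 (Cov2.sx 98 clb2_2 (Cov2.sx 125 (Cov2.sx 117 (Cov2.sx 111
  clb2_3 clb2_4) clb2_5) clb2_6))) clb2_7)

def pla : Pm := ⟨200, 0, 0, 0, 0, 3, 3, ⟨1, 0, 0⟩⟩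

noncomputable def tla_1 : CT :=
  (.cl 1 [⟨64, o⟩])

theorem cla_1 : Cov2 pla Rla
    ⟨528, 558, 558, 600⟩ ⟨-400, 179, -400, 186, 100, 0, 100, 0⟩ :=
  CT.sound pla cla cl_la tla_1 _ _ (by decide +kernel)

noncomputable def tla_2 : CT :=
  (.sx 85 (.p1 105 112 111 120 0 85 186 200 false true 108 216 [(⟨141, o⟩, ⟨149, (.nd 2 o o)⟩),
  (⟨141, o⟩, ⟨141, o⟩), (⟨136, o⟩, ⟨133, o⟩)]) (.sx 126 (.sx 114 (.st 580 (.p1 105 112 111 116 85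
  114 186 200 false true 132 160 [(⟨140, o⟩, ⟨140, o⟩), (⟨140, o⟩, ⟨140, o⟩), (⟨136, o⟩, ⟨133,
  o⟩)]) (.sx 105 (.st 590 (.p1 105 112 116 118 85 105 186 200 false true 124 200 [(⟨141, o⟩,
  ⟨149, (.nd 2 o o)⟩), (⟨141, o⟩, ⟨141, o⟩), (⟨136, o⟩, ⟨133, o⟩)]) (.sx 103 (.st 598 (.st 594
  (.sy 193 (.p1 105 112 118 119 85 103 186 193 false true 118 172 [(⟨140, o⟩, ⟨148, (.nd 2 o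
  o)⟩), (⟨140, o⟩, ⟨140, o⟩), (⟨135, o⟩, ⟨133, o⟩)]) (.sa 545 (.p1 105 109 118 119 85 103 193 200
  false true 122 160 [(⟨140, o⟩, ⟨140, o⟩), (⟨140, o⟩, ⟨140, o⟩), (⟨135, o⟩, ⟨133, o⟩)]) (.sx 100
  (.p1 109 112 118 119 85 100 193 200 false true 124 200 [(⟨141, o⟩, ⟨141, o⟩), (⟨141, o⟩, ⟨141,
  o⟩), (⟨136, o⟩, ⟨133, o⟩)]) (.cl 2 [⟨66, o⟩])))) (.sx 93 (.sy 193 (.p1 105 112 118 120 85 93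
  186 193 false true 108 160 [(⟨140, o⟩, ⟨140, o⟩), (⟨140, o⟩, ⟨140, o⟩), (⟨135, o⟩, ⟨133, o⟩)])
  (.sy 197 (.p1 105 112 118 120 85 93 193 197 false true 116 172 [(⟨140, o⟩, ⟨140, o⟩), (⟨140,
  o⟩, ⟨140, o⟩), (⟨135, o⟩, ⟨133, o⟩)]) (.p1 105 112 118 120 85 93 197 200 false true 118 160
  [(⟨140, o⟩, ⟨140, o⟩), (⟨140, o⟩, ⟨140, o⟩), (⟨135, o⟩, ⟨133, o⟩)]))) (.cl 2 [⟨66, o⟩]))) (.cl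
  2 [⟨66, o⟩])) (.cl 2 [⟨66, o⟩]))) (.st 589 (.sx 108 (.p1 105 112 116 118 105 108 186 200 false
  true 126 200 [(⟨141, o⟩, ⟨149, (.nd 2 o o)⟩), (⟨141, o⟩, ⟨141, o⟩), (⟨136, o⟩, ⟨133, o⟩)]) (.st
  588 (.p2 131 127 ⟨132, 41, ⟨233, 2176, -1099⟩, ⟨194, 1839, -778⟩, ⟨55, (.lf [0, 1])⟩, ⟨114,
  (.nd 3 (.nd 3 (.nd 3 (.nd 3 (.lf [8, -94]) (.lf [2, -22])) (.lf [8, -107])) o) (.lf [1,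
  -512]))⟩, ⟨99, (.lf [0, 1])⟩⟩ ⟨152, 20, ⟨1075, -1054, -57⟩, ⟨1001, -1000, 0⟩, ⟨56, (.lf [0,
  1])⟩, ⟨109, (.nd 3 (.nd 3 (.lf [1, -64]) (.nd 3 (.lf [4, -21]) (.lf [1, -5]))) (.lf [1,
  -16]))⟩, ⟨100, (.lf [0, 1])⟩⟩ [(⟨203, o⟩, ⟨204, o⟩), (⟨204, o⟩, ⟨204, o⟩), (⟨203, o⟩, ⟨204,
  o⟩), (⟨204, o⟩, ⟨204, o⟩), (⟨204, o⟩, ⟨205, o⟩), (⟨205, o⟩, ⟨205, o⟩), (⟨204, o⟩, ⟨205, o⟩),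
  (⟨205, o⟩, ⟨205, o⟩), (⟨203, o⟩, ⟨204, o⟩), (⟨204, o⟩, ⟨204, o⟩), (⟨203, o⟩, ⟨204, o⟩), (⟨204,
  o⟩, ⟨204, o⟩), (⟨204, o⟩, ⟨205, o⟩), (⟨205, o⟩, ⟨205, o⟩), (⟨204, o⟩, ⟨205, o⟩), (⟨205, o⟩,
  ⟨205, o⟩)]) (.cl 2 [⟨66, o⟩]))) (.cl 2 [⟨66, o⟩])))) (.st 586 (.st 570 (.p1 105 112 111 114 114
  126 186 200 false true 140 240 [(⟨142, o⟩, ⟨142, o⟩), (⟨142, o⟩, ⟨142, o⟩), (⟨137, o⟩, ⟨135,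
  o⟩)]) (.sx 120 (.p2 135 120 ⟨143, 37, ⟨193, 1889, -822⟩, ⟨164, 1666, -611⟩, ⟨55, (.lf [0, 1])⟩,
  ⟨116, (.nd 3 (.nd 3 (.nd 3 (.nd 3 (.lf [2, -22]) (.lf [2, -21])) (.nd 3 (.lf [2, -23]) (.lf [1,
  -512]))) (.lf [2, -18])) (.lf [1, -128]))⟩, ⟨99, (.lf [0, 1])⟩⟩ ⟨323, 10, ⟨1077, -1056, -59⟩,
  ⟨1001, -1000, 0⟩, ⟨56, (.lf [0, 1])⟩, ⟨111, (.nd 3 (.nd 3 (.lf [1, -128]) (.nd 3 (.lf [16,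
  -83]) (.lf [1, -5]))) (.lf [1, -16]))⟩, ⟨100, (.lf [0, 1])⟩⟩ [(⟨204, o⟩, ⟨204, o⟩), (⟨204, o⟩,
  ⟨205, o⟩), (⟨204, o⟩, ⟨204, o⟩), (⟨204, o⟩, ⟨205, o⟩), (⟨204, o⟩, ⟨205, o⟩), (⟨205, o⟩, ⟨206,
  o⟩), (⟨205, o⟩, ⟨205, o⟩), (⟨205, o⟩, ⟨206, o⟩), (⟨204, o⟩, ⟨204, o⟩), (⟨204, o⟩, ⟨205, o⟩),
  (⟨204, o⟩, ⟨204, o⟩), (⟨204, o⟩, ⟨205, o⟩), (⟨204, o⟩, ⟨205, o⟩), (⟨205, o⟩, ⟨206, o⟩), (⟨204,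
  o⟩, ⟨205, o⟩), (⟨205, o⟩, ⟨206, o⟩)]) (.st 583 (.p2 140 130 ⟨155, 32, ⟨163, 1674, -618⟩, ⟨140,
  1522, -476⟩, ⟨55, (.lf [0, 1])⟩, ⟨112, (.nd 3 (.nd 3 (.nd 3 (.lf [32, -310]) (.lf [1, -256]))
  (.nd 3 (.lf [8, -71]) o)) (.lf [1, -64]))⟩, ⟨98, (.lf [0, 1])⟩⟩ ⟨223, 15, ⟨1077, -1057, -59⟩,
  ⟨1001, -1000, 0⟩, ⟨57, (.lf [0, 1])⟩, ⟨111, (.nd 3 (.nd 3 (.lf [1, -128]) (.nd 3 (.lf [16,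
  -83]) (.lf [1, -5]))) (.lf [1, -16]))⟩, ⟨100, (.lf [0, 1])⟩⟩ [(⟨204, o⟩, ⟨204, o⟩), (⟨205, o⟩,
  ⟨205, o⟩), (⟨204, o⟩, ⟨204, o⟩), (⟨204, o⟩, ⟨205, o⟩), (⟨205, o⟩, ⟨205, o⟩), (⟨205, o⟩, ⟨206,
  o⟩), (⟨205, o⟩, ⟨205, o⟩), (⟨205, o⟩, ⟨206, o⟩), (⟨204, o⟩, ⟨204, o⟩), (⟨205, o⟩, ⟨205, o⟩),
  (⟨204, o⟩, ⟨204, o⟩), (⟨205, o⟩, ⟨205, o⟩), (⟨205, o⟩, ⟨205, o⟩), (⟨205, o⟩, ⟨206, o⟩), (⟨205,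
  o⟩, ⟨205, o⟩), (⟨205, o⟩, ⟨206, o⟩)]) (.cl 2 [⟨66, o⟩])))) (.cl 2 [⟨66, o⟩]))) (.st 581 (.sx
  135 (.p2 147 129 ⟨191, 25, ⟨139, 1550, -500⟩, ⟨111, 1387, -348⟩, ⟨55, (.lf [0, 1])⟩, ⟨113, (.nd
  3 (.nd 3 (.nd 3 (.lf [2, -18]) (.lf [1, -128])) (.nd 3 (.lf [128, -1063]) o)) (.lf [1, -64]))⟩,
  ⟨98, (.lf [0, 1])⟩⟩ ⟨239, 15, ⟨1079, -1059, -61⟩, ⟨1001, -1000, 0⟩, ⟨57, (.lf [0, 1])⟩, ⟨114,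
  (.nd 3 (.nd 3 (.lf [16, -85]) (.nd 3 (.nd 3 (.lf [16, -82]) (.lf [4, -21])) (.lf [1, -5])))
  (.lf [1, -32]))⟩, ⟨100, (.lf [0, 1])⟩⟩ [(⟨204, o⟩, ⟨205, o⟩), (⟨205, o⟩, ⟨205, o⟩), (⟨204, o⟩,
  ⟨205, o⟩), (⟨205, o⟩, ⟨205, o⟩), (⟨205, o⟩, ⟨209, (.lf [4, 0, -6])⟩), (⟨205, o⟩, ⟨206, o⟩),
  (⟨205, o⟩, ⟨205, o⟩), (⟨205, o⟩, ⟨206, o⟩), (⟨204, o⟩, ⟨205, o⟩), (⟨205, o⟩, ⟨205, o⟩), (⟨204,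
  o⟩, ⟨205, o⟩), (⟨205, o⟩, ⟨205, o⟩), (⟨205, o⟩, ⟨208, (.lf [4, 0, -6])⟩), (⟨205, o⟩, ⟨206, o⟩),
  (⟨205, o⟩, ⟨205, o⟩), (⟨205, o⟩, ⟨206, o⟩)]) (.st 577 (.p2 154 147 ⟨211, 20, ⟨110, 1392, -352⟩,
  ⟨90, 1291, -260⟩, ⟨55, (.lf [0, 1])⟩, ⟨114, (.nd 3 (.nd 3 (.lf [32, -273]) (.nd 3 (.lf [256,
  -1955]) (.lf [1, -7]))) (.lf [1, -32]))⟩, ⟨98, (.lf [0, 1])⟩⟩ ⟨261, 14, ⟨1079, -1059, -61⟩,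
  ⟨1001, -1000, 0⟩, ⟨57, (.lf [0, 1])⟩, ⟨112, (.nd 3 (.nd 3 (.lf [16, -85]) (.nd 3 (.nd 3 (.lf
  [1, -5]) (.lf [4, -21])) (.lf [1, -5]))) (.lf [1, -32]))⟩, ⟨100, (.lf [0, 1])⟩⟩ [(⟨205, o⟩,
  ⟨205, o⟩), (⟨206, o⟩, ⟨206, o⟩), (⟨205, o⟩, ⟨205, o⟩), (⟨206, o⟩, ⟨206, o⟩), (⟨206, o⟩, ⟨207,
  (.lf [1, 0, -1])⟩), (⟨206, o⟩, ⟨206, o⟩), (⟨206, o⟩, ⟨206, o⟩), (⟨206, o⟩, ⟨206, o⟩), (⟨205,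
  o⟩, ⟨205, o⟩), (⟨206, o⟩, ⟨206, o⟩), (⟨205, o⟩, ⟨205, o⟩), (⟨206, o⟩, ⟨206, o⟩), (⟨206, o⟩,
  ⟨208, (.lf [1, 0, -4])⟩), (⟨206, o⟩, ⟨206, o⟩), (⟨206, o⟩, ⟨206, o⟩), (⟨206, o⟩, ⟨206, o⟩)])
  (.cl 2 [⟨66, o⟩]))) (.cl 2 [⟨66, o⟩]))))

theorem cla_2 : Cov2 pla Rla
    ⟨528, 558, 558, 600⟩ ⟨-400, 143, 186, 200, 100, 0, 100, 0⟩ :=
  CT.sound pla cla cl_la tla_2 _ _ (by decide +kernel)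

noncomputable def tla_3 : CT :=
  (.st 573 (.sx 168 (.sx 156 (.p2 165 366 ⟨167, 22, ⟨90, 1295, -263⟩, ⟨62, 1182, -160⟩, ⟨55, (.lf
  [0, 1])⟩, ⟨109, (.nd 3 (.nd 3 (.lf [1, -128]) (.nd 3 (.lf [16, -111]) (.lf [4, -26]))) (.lf [1,
  -32]))⟩, ⟨98, (.lf [0, 1])⟩⟩ ⟨96, 37, ⟨1080, -1060, -61⟩, ⟨1001, -1000, 0⟩, ⟨56, (.lf [0, 1])⟩,
  ⟨111, (.nd 3 (.nd 3 (.lf [16, -85]) (.nd 3 (.lf [16, -82]) (.lf [1, -4]))) (.lf [1, -32]))⟩,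
  ⟨100, (.lf [0, 1])⟩⟩ [(⟨209, o⟩, ⟨209, o⟩), (⟨210, o⟩, ⟨209, o⟩), (⟨209, o⟩, ⟨209, o⟩), (⟨210,
  o⟩, ⟨209, o⟩), (⟨209, o⟩, ⟨214, (.lf [1, 0, -32])⟩), (⟨210, o⟩, ⟨210, o⟩), (⟨209, o⟩, ⟨209,
  o⟩), (⟨210, o⟩, ⟨210, o⟩), (⟨209, o⟩, ⟨211, (.lf [1, 0, -4])⟩), (⟨210, o⟩, ⟨210, o⟩), (⟨209,
  o⟩, ⟨209, o⟩), (⟨210, o⟩, ⟨210, o⟩), (⟨209, o⟩, ⟨215, (.lf [1, 0, -64])⟩), (⟨210, o⟩, ⟨210,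
  o⟩), (⟨209, o⟩, ⟨209, o⟩), (⟨210, o⟩, ⟨210, o⟩)]) (.st 568 (.p2 168 348 ⟨186, 16, ⟨62, 1185,
  -162⟩, ⟨41, 1114, -98⟩, ⟨55, (.lf [0, 1])⟩, ⟨109, (.nd 3 (.nd 3 (.lf [1, -32]) (.nd 3 (.lf [4,
  -26]) (.lf [16, -97]))) (.lf [1, -32]))⟩, ⟨97, (.lf [0, 1])⟩⟩ ⟨118, 30, ⟨1080, -1060, -62⟩,
  ⟨1001, -1000, 0⟩, ⟨56, (.lf [0, 1])⟩, ⟨111, (.nd 3 (.nd 3 (.lf [16, -85]) (.nd 3 (.lf [16,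
  -82]) o)) (.lf [1, -32]))⟩, ⟨100, (.lf [0, 1])⟩⟩ [(⟨209, o⟩, ⟨209, o⟩), (⟨210, o⟩, ⟨210, o⟩),
  (⟨209, o⟩, ⟨209, o⟩), (⟨211, (.lf [1, 0, -1])⟩, ⟨210, o⟩), (⟨209, o⟩, ⟨209, o⟩), (⟨210, o⟩,
  ⟨210, o⟩), (⟨209, o⟩, ⟨209, o⟩), (⟨210, o⟩, ⟨210, o⟩), (⟨209, o⟩, ⟨210, (.lf [1, 0, -1])⟩),
  (⟨210, o⟩, ⟨210, o⟩), (⟨213, (.lf [1, 0, -16])⟩, ⟨209, o⟩), (⟨214, (.lf [1, 0, -16])⟩, ⟨210,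
  o⟩), (⟨209, o⟩, ⟨215, (.lf [1, 0, -64])⟩), (⟨210, o⟩, ⟨210, o⟩), (⟨212, (.lf [1, 0, -4])⟩,
  ⟨213, (.lf [1, 0, -16])⟩), (⟨210, o⟩, ⟨210, o⟩)]) (.cl 2 [⟨66, o⟩]))) (.sa 534 (.cl 3 [⟨68, o⟩,
  ⟨58, o⟩, ⟨58, o⟩, ⟨59, o⟩, ⟨67, o⟩, ⟨53, o⟩]) (.st 563 (.sx 174 (.p2 173 109 ⟨364, 6, ⟨42,
  1116, -101⟩, ⟨33, 1088, -76⟩, ⟨55, (.lf [0, 1])⟩, ⟨106, (.nd 3 (.nd 3 (.lf [1, -32]) (.lf [16,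
  -95])) (.lf [1, -16]))⟩, ⟨97, (.lf [0, 1])⟩⟩ ⟨320, 11, ⟨1081, -1061, -62⟩, ⟨1001, -1000, 0⟩,
  ⟨56, (.lf [0, 1])⟩, ⟨109, (.nd 3 (.nd 3 (.lf [1, -256]) (.lf [1, -5])) (.lf [1, -16]))⟩, ⟨100,
  (.lf [0, 1])⟩⟩ [(⟨205, o⟩, ⟨205, o⟩), (⟨205, o⟩, ⟨205, o⟩), (⟨205, o⟩, ⟨205, o⟩), (⟨205, o⟩,
  ⟨205, o⟩), (⟨205, o⟩, ⟨205, o⟩), (⟨206, o⟩, ⟨206, o⟩), (⟨205, o⟩, ⟨205, o⟩), (⟨206, o⟩, ⟨206,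
  o⟩), (⟨205, o⟩, ⟨205, o⟩), (⟨205, o⟩, ⟨205, o⟩), (⟨205, o⟩, ⟨205, o⟩), (⟨205, o⟩, ⟨205, o⟩),
  (⟨205, o⟩, ⟨205, o⟩), (⟨206, o⟩, ⟨206, o⟩), (⟨205, o⟩, ⟨205, o⟩), (⟨206, o⟩, ⟨206, o⟩)]) (.sa
  540 (.cl 3 [⟨68, o⟩, ⟨58, o⟩, ⟨58, o⟩, ⟨59, o⟩, ⟨67, o⟩, ⟨53, o⟩]) (.st 560 (.p2 177 119 ⟨336,
  5, ⟨33, 1089, -78⟩, ⟨26, 1068, -59⟩, ⟨55, (.lf [0, 1])⟩, ⟨103, (.nd 3 (.nd 3 (.lf [1, -16])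
  (.lf [4, -23])) (.lf [1, -16]))⟩, ⟨97, (.lf [0, 1])⟩⟩ ⟨279, 12, ⟨1080, -1060, -61⟩, ⟨1001,
  -1000, 0⟩, ⟨56, (.lf [0, 1])⟩, ⟨108, (.nd 3 (.nd 3 (.lf [1, -128]) (.lf [1, -5])) (.lf [1,
  -16]))⟩, ⟨100, (.lf [0, 1])⟩⟩ [(⟨205, o⟩, ⟨205, o⟩), (⟨206, o⟩, ⟨206, o⟩), (⟨205, o⟩, ⟨205,
  o⟩), (⟨206, o⟩, ⟨206, o⟩), (⟨205, o⟩, ⟨205, o⟩), (⟨206, o⟩, ⟨206, o⟩), (⟨205, o⟩, ⟨205, o⟩),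
  (⟨206, o⟩, ⟨206, o⟩), (⟨205, o⟩, ⟨205, o⟩), (⟨206, o⟩, ⟨206, o⟩), (⟨205, o⟩, ⟨205, o⟩), (⟨206,
  o⟩, ⟨206, o⟩), (⟨205, o⟩, ⟨205, o⟩), (⟨206, o⟩, ⟨206, o⟩), (⟨205, o⟩, ⟨205, o⟩), (⟨206, o⟩,
  ⟨206, o⟩)]) (.cl 2 [⟨66, o⟩])))) (.cl 2 [⟨66, o⟩])))) (.cl 2 [⟨66, o⟩]))

theorem cla_3 : Cov2 pla Rla
    ⟨528, 558, 558, 600⟩ ⟨143, 179, 186, 200, 100, 0, 100, 0⟩ :=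
  CT.sound pla cla cl_la tla_3 _ _ (by decide +kernel)

noncomputable def tla_4 : CT :=
  (.cl 2 [⟨66, o⟩])

theorem cla_4 : Cov2 pla Rla
    ⟨528, 558, 558, 600⟩ ⟨179, 200, -400, 200, 100, 0, 100, 0⟩ :=
  CT.sound pla cla cl_la tla_4 _ _ (by decide +kernel)

theorem covla : Cov2 pla Rla
    ⟨528, 558, 558, 600⟩ ⟨-400, 200, -400, 200, 100, 0, 100, 0⟩ :=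
  (Cov2.sx 179 (Cov2.sy 186 cla_1 (Cov2.sx 143 cla_2 cla_3)) cla_4)

end Pool.Agent.Lib.MP_43bc59_co.P18
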