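import Pool.Agent.Lib.MP_43bc59_co.F_N2

set_option autoImplicit false
set_option maxRecDepth 100000

namespace Pool.Agent.Lib.MP_43bc59_co.P18

open Bx

def pii4 : Pm := ⟨200, 880, -105, 0, 0, 5, 5, ⟨11, -10, -14⟩⟩

noncomputable def tii4_1 : CT :=
  (.p1 103 108 111 116 0 117 0 158 false false 72 120 [(⟨138, o⟩, ⟨138, o⟩)])

theorem cii4_1 : Cov2 pii4 Rii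
    ⟨515, 540, 558, 576⟩ ⟨-500, -231, 0, 158, 100, 0, 100, 0⟩ :=
  CT.sound pii4 cii cl_ii tii4_1 _ _ (by decide +kernel)

noncomputable def tii4_2 : CT :=
  (.sa 530 (.sy 69 (.p1 103 106 111 116 96 166 0 69 false false 50 168 [(⟨138, o⟩, ⟨139, o⟩)])
  (.p2 69 181 ⟨143, 39, ⟨3272, -5212, -625⟩, ⟨664, -463, 70⟩, ⟨57, (.lf [0, 1])⟩, ⟨117, (.nd 3
  (.nd 3 (.nd 3 (.lf [1, -8]) (.lf [2, -21])) (.nd 3 (.lf [1, -8]) (.lf [16, -103]))) (.nd 3 (.nd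
  3 (.lf [1, -512]) (.nd 2 (.nd 2 (.lf [1, -32]) (.nd 3 (.lf [2, -29]) (.lf [1, -12]))) (.lf [1,
  -32]))) (.lf [1, -128])))⟩, ⟨102, (.lf [0, 1])⟩⟩ ⟨91, 63, ⟨2900, -2899, 0⟩, ⟨2248, -2247, 0⟩,
  ⟨56, o⟩, ⟨96, o⟩, ⟨101, o⟩⟩ [(⟨251, o⟩, ⟨251, o⟩), (⟨251, o⟩, ⟨251, o⟩), (⟨251, o⟩, ⟨251, o⟩),
  (⟨251, o⟩, ⟨251, o⟩), (⟨254, o⟩, ⟨254, o⟩), (⟨255, o⟩, ⟨255, o⟩), (⟨254, o⟩, ⟨254, o⟩), (⟨255,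
  o⟩, ⟨255, o⟩), (⟨251, o⟩, ⟨251, o⟩), (⟨251, o⟩, ⟨251, o⟩), (⟨251, o⟩, ⟨251, o⟩), (⟨251, o⟩,
  ⟨251, o⟩), (⟨252, o⟩, ⟨252, o⟩), (⟨252, o⟩, ⟨252, o⟩), (⟨252, o⟩, ⟨252, o⟩), (⟨252, o⟩, ⟨252,
  o⟩)])) (.sa 539 (.st 565 (.p1 106 108 111 113 108 173 0 89 false false 72 164 [(⟨139, o⟩, ⟨139,
  o⟩)]) (.cl 3 [⟨63, o⟩])) (.cl 3 [⟨63, o⟩])))

theorem cii4_2 : Cov2 pii4 Rii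
    ⟨515, 540, 558, 576⟩ ⟨-231, -174, 0, 89, 100, 0, 100, 0⟩ :=
  CT.sound pii4 cii cl_ii tii4_2 _ _ (by decide +kernel)

noncomputable def tii4_3 : CT :=
  (.st 565 (.p2 104 193 ⟨158, 36, ⟨2955, -4553, -550⟩, ⟨646, -429, 77⟩, ⟨57, (.lf [0, 1])⟩, ⟨118,
  (.nd 3 (.nd 3 (.nd 3 (.lf [1, -8]) (.lf [1, -10])) (.nd 3 (.lf [1, -7]) (.nd 2 o (.nd 2 (.lf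
  [1, -6]) (.nd 0 (.lf [4, -26]) (.lf [1, -6])))))) (.nd 3 (.nd 3 (.lf [1, -512]) (.lf [8,
  -110])) (.lf [1, -128])))⟩, ⟨102, (.lf [0, 1])⟩⟩ ⟨128, 63, ⟨2248, -2247, 0⟩, ⟨1614, -1613, 0⟩,
  ⟨56, o⟩, ⟨99, (.lf [1, -8])⟩, ⟨101, o⟩⟩ [(⟨252, o⟩, ⟨252, o⟩), (⟨252, o⟩, ⟨252, o⟩), (⟨252, o⟩,
  ⟨252, o⟩), (⟨252, o⟩, ⟨252, o⟩), (⟨255, o⟩, ⟨255, o⟩), (⟨256, o⟩, ⟨256, o⟩), (⟨255, o⟩, ⟨255,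
  o⟩), (⟨256, o⟩, ⟨256, o⟩), (⟨260, (.lf [1, 0, 0, 0, 0, -256])⟩, ⟨252, o⟩), (⟨252, o⟩, ⟨252,
  o⟩), (⟨261, (.lf [1, 0, 0, 0, 0, -512])⟩, ⟨252, o⟩), (⟨252, o⟩, ⟨252, o⟩), (⟨260, (.lf [1, 0,
  0, 0, 0, -128])⟩, ⟨253, o⟩), (⟨253, o⟩, ⟨253, o⟩), (⟨263, (.lf [1, 0, 0, 0, 0, -1024])⟩, ⟨262,
  (.lf [1, 0, 0, 0, 0, -512])⟩), (⟨253, o⟩, ⟨253, o⟩)]) (.sa 530 (.p2 93 179 ⟨174, 32, ⟨3204,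
  -5083, -603⟩, ⟨661, -458, 70⟩, ⟨57, (.lf [0, 1])⟩, ⟨117, (.nd 3 (.nd 3 (.nd 3 (.lf [1, -8])
  (.lf [2, -21])) (.nd 3 (.lf [1, -8]) (.nd 2 o (.nd 2 (.lf [1, -6]) (.nd 3 (.lf [1, -8]) (.lf
  [4, -25])))))) (.nd 3 (.nd 3 (.lf [1, -256]) (.nd 2 (.nd 2 (.lf [1, -32]) (.nd 3 (.lf [1, -16])
  (.lf [1, -12]))) (.lf [1, -32]))) (.lf [1, -128])))⟩, ⟨102, (.lf [0, 1])⟩⟩ ⟨127, 63, ⟨2248,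
  -2247, 0⟩, ⟨1614, -1613, 0⟩, ⟨56, o⟩, ⟨99, (.lf [1, -8])⟩, ⟨101, o⟩⟩ [(⟨252, o⟩, ⟨252, o⟩),
  (⟨252, o⟩, ⟨252, o⟩), (⟨252, o⟩, ⟨252, o⟩), (⟨252, o⟩, ⟨252, o⟩), (⟨255, o⟩, ⟨255, o⟩), (⟨256,
  o⟩, ⟨256, o⟩), (⟨255, o⟩, ⟨255, o⟩), (⟨256, o⟩, ⟨255, o⟩), (⟨252, o⟩, ⟨252, o⟩), (⟨252, o⟩,
  ⟨252, o⟩), (⟨262, (.lf [1, 0, -1, 0, 0, -1024])⟩, ⟨261, (.lf [1, 0, 0, 0, 0, -512])⟩), (⟨262,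
  (.lf [4, 0, -2, 0, 0, -1024])⟩, ⟨252, o⟩), (⟨252, o⟩, ⟨252, o⟩), (⟨253, o⟩, ⟨253, o⟩), (⟨266,
  (.lf [16, 0, -1, 0, 0, -16384])⟩, ⟨262, (.lf [1, 0, -4, 0, 0, -1024])⟩), (⟨263, (.lf [4, 0, -1,
  0, 0, -1024])⟩, ⟨253, o⟩)]) (.cl 3 [⟨63, o⟩])))

theorem cii4_3 : Cov2 pii4 Rii
    ⟨515, 540, 558, 576⟩ ⟨-231, -174, 89, 124, 100, 0, 100, 0⟩ :=
  CT.sound pii4 cii cl_ii tii4_3 _ _ (by decide +kernel)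

noncomputable def tii4_4 : CT :=
  (.p2 106 180 ⟨148, 38, ⟨2878, -4404, -522⟩, ⟨852, -769, 30⟩, ⟨57, (.lf [0, 1])⟩, ⟨114, (.nd 3
  (.nd 3 (.nd 3 (.lf [2, -18]) (.lf [1, -10])) (.nd 3 (.lf [1, -8]) (.lf [4, -26]))) (.nd 3 (.nd
  3 (.lf [1, -512]) (.lf [8, -119])) (.lf [1, -128])))⟩, ⟨102, (.lf [0, 1])⟩⟩ ⟨146, 54, ⟨3430,
  -3281, -2408⟩, ⟨1373, -1303, -317⟩, ⟨57, (.lf [0, 1])⟩, ⟨117, (.nd 3 (.nd 3 (.lf [16, -114]) o)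
  (.nd 3 (.nd 3 (.lf [1, -12]) (.lf [1, -8])) (.nd 3 (.lf [1, -14]) (.nd 2 (.nd 2 (.lf [1, -32])
  (.nd 3 (.lf [1, -16]) (.lf [1, -20]))) (.lf [1, -32])))))⟩, ⟨102, (.lf [0, 1])⟩⟩ [(⟨252, o⟩,
  ⟨252, o⟩), (⟨253, o⟩, ⟨253, o⟩), (⟨252, o⟩, ⟨252, o⟩), (⟨252, o⟩, ⟨252, o⟩), (⟨255, o⟩, ⟨255,
  o⟩), (⟨256, o⟩, ⟨256, o⟩), (⟨255, o⟩, ⟨255, o⟩), (⟨255, o⟩, ⟨255, o⟩), (⟨252, o⟩, ⟨252, o⟩),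
  (⟨253, o⟩, ⟨253, o⟩), (⟨252, o⟩, ⟨261, (.lf [1, 0, 0, 0, 0, -512])⟩), (⟨259, (.lf [1, 0, 0, 0,
  0, -128])⟩, ⟨260, (.lf [1, 0, 0, 0, 0, -256])⟩), (⟨253, o⟩, ⟨253, o⟩), (⟨254, o⟩, ⟨254, o⟩),
  (⟨261, (.lf [1, 0, 0, 0, 0, -256])⟩, ⟨263, (.lf [1, 0, -2, 0, 0, -1024])⟩), (⟨262, (.lf [1, 0,
  0, 0, 0, -512])⟩, ⟨265, (.lf [8, 0, -2, 0, 0, -4096])⟩)])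

theorem cii4_4 : Cov2 pii4 Rii
    ⟨515, 540, 558, 576⟩ ⟨-231, -191, 124, 158, 100, 0, 100, 0⟩ :=
  CT.sound pii4 cii cl_ii tii4_4 _ _ (by decide +kernel)

noncomputable def tii4_5 : CT :=
  (.st 565 (.p2 123 213 ⟨195, 16, ⟨857, -780, 30⟩, ⟨646, -429, 77⟩, ⟨57, (.lf [0, 1])⟩, ⟨111,
  (.nd 3 (.nd 3 (.lf [1, -32]) (.nd 3 (.lf [1, -8]) (.nd 3 (.lf [4, -26]) (.lf [1, -6])))) (.lf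
  [1, -32]))⟩, ⟨100, (.lf [0, 1])⟩⟩ ⟨134, 59, ⟨3660, -3523, -2680⟩, ⟨1809, -1702, -733⟩, ⟨56,
  (.lf [0, 1])⟩, ⟨116, (.nd 3 (.lf [1, -8]) (.nd 3 (.nd 3 (.lf [2, -26]) (.lf [2, -19])) (.nd 3
  (.lf [1, -16]) (.nd 2 (.nd 3 (.lf [1, -16]) (.lf [1, -20])) (.lf [1, -64])))))⟩, ⟨102, (.lf [0,
  1])⟩⟩ [(⟨253, o⟩, ⟨253, o⟩), (⟨254, o⟩, ⟨254, o⟩), (⟨253, o⟩, ⟨253, o⟩), (⟨254, o⟩, ⟨253, o⟩),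
  (⟨254, o⟩, ⟨254, o⟩), (⟨255, o⟩, ⟨255, o⟩), (⟨254, o⟩, ⟨254, o⟩), (⟨255, o⟩, ⟨255, o⟩), (⟨263,
  (.lf [1, 0, 0, 0, 0, -1024])⟩, ⟨253, o⟩), (⟨254, o⟩, ⟨254, o⟩), (⟨263, (.lf [1, 0, 0, 0, 0,
  -1024])⟩, ⟨253, o⟩), (⟨253, o⟩, ⟨253, o⟩), (⟨263, (.lf [1, 0, 0, 0, 0, -768])⟩, ⟨254, o⟩),
  (⟨255, o⟩, ⟨255, o⟩), (⟨264, (.lf [1, 0, 0, 0, 0, -1536])⟩, ⟨254, o⟩), (⟨254, o⟩, ⟨254, o⟩)])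
  (.sa 530 (.p2 115 197 ⟨186, 16, ⟨882, -830, 21⟩, ⟨661, -458, 70⟩, ⟨57, (.lf [0, 1])⟩, ⟨112,
  (.nd 3 (.nd 3 (.lf [1, -32]) (.nd 3 (.lf [1, -8]) (.nd 3 (.lf [4, -27]) (.lf [4, -25])))) (.lf
  [1, -32]))⟩, ⟨100, (.lf [0, 1])⟩⟩ ⟨149, 51, ⟨3426, -3281, -2412⟩, ⟨1786, -1675, -710⟩, ⟨56,
  (.lf [0, 1])⟩, ⟨117, (.nd 3 (.nd 3 (.lf [32, -275]) o) (.nd 3 (.nd 3 (.lf [2, -26]) (.lf [8,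
  -78])) (.nd 3 (.lf [2, -31]) (.lf [1, -2048]))))⟩, ⟨102, (.lf [0, 1])⟩⟩ [(⟨252, o⟩, ⟨252, o⟩),
  (⟨253, o⟩, ⟨253, o⟩), (⟨252, o⟩, ⟨252, o⟩), (⟨253, o⟩, ⟨253, o⟩), (⟨254, o⟩, ⟨254, o⟩), (⟨255,
  o⟩, ⟨255, o⟩), (⟨254, o⟩, ⟨254, o⟩), (⟨254, o⟩, ⟨254, o⟩), (⟨263, (.lf [1, 0, 0, 0, 0,
  -2048])⟩, ⟨252, o⟩), (⟨253, o⟩, ⟨253, o⟩), (⟨265, (.lf [4, 0, -1, 0, 0, -8192])⟩, ⟨262, (.lf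
  [1, 0, 0, 0, 0, -1024])⟩), (⟨253, o⟩, ⟨253, o⟩), (⟨264, (.lf [1, 0, 0, 0, 0, -1536])⟩, ⟨261,
  (.lf [1, 0, 0, 0, 0, -256])⟩), (⟨254, o⟩, ⟨254, o⟩), (⟨272, (.nd 2 (.lf [1, 0, 0, 0, 0, -1792])
  (.lf [1, 0, 0, 0, 0, -2048]))⟩, ⟨263, (.lf [1, 0, -8, 0, 0, -1024])⟩), (⟨254, o⟩, ⟨254, o⟩)])
  (.cl 3 [⟨63, o⟩])))

theorem cii4_5 : Cov2 pii4 Rii
    ⟨515, 540, 558, 576⟩ ⟨-191, -174, 124, 141, 100, 0, 100, 0⟩ :=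
  CT.sound pii4 cii cl_ii tii4_5 _ _ (by decide +kernel)

noncomputable def tii4_6 : CT :=
  (.st 565 (.p2 135 289 ⟨196, 16, ⟨857, -780, 30⟩, ⟨646, -429, 77⟩, ⟨57, (.lf [0, 1])⟩, ⟨111,
  (.nd 3 (.nd 3 (.lf [1, -32]) (.nd 3 (.lf [1, -8]) (.nd 3 (.lf [4, -26]) (.lf [1, -6])))) (.lf
  [1, -32]))⟩, ⟨100, (.lf [0, 1])⟩⟩ ⟨112, 60, ⟨1809, -1702, -733⟩, ⟨1381, -1313, -326⟩, ⟨56, (.lf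
  [0, 1])⟩, ⟨112, (.nd 3 (.nd 3 (.nd 3 (.lf [1, -7]) (.lf [16, -118])) o) (.nd 3 (.nd 3 (.lf [1,
  -128]) (.lf [8, -70])) (.lf [1, -64])))⟩, ⟨101, (.lf [0, 1])⟩⟩ [(⟨255, o⟩, ⟨255, o⟩), (⟨255,
  o⟩, ⟨255, o⟩), (⟨255, o⟩, ⟨255, o⟩), (⟨255, o⟩, ⟨255, o⟩), (⟨256, o⟩, ⟨256, o⟩), (⟨257, o⟩,
  ⟨256, o⟩), (⟨256, o⟩, ⟨256, o⟩), (⟨257, o⟩, ⟨256, o⟩), (⟨273, (.nd 2 (.lf [1, 0, 0, 0, 0,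
  -1024]) o)⟩, ⟨254, o⟩), (⟨255, o⟩, ⟨255, o⟩), (⟨274, (.nd 2 (.lf [1, 0, 0, 0, 0, -2048]) (.lf
  [1, 0, -8, 0, 0, -2048]))⟩, ⟨254, o⟩), (⟨264, (.lf [1, 0, -16, 0, 0, -512])⟩, ⟨255, o⟩), (⟨283,
  (.nd 2 (.nd 2 (.lf [1, 0, 0, 0, 0, -2048]) (.lf [1, 0, 0, 0, 0, -1024])) o)⟩, ⟨255, o⟩), (⟨256,
  o⟩, ⟨256, o⟩), (⟨277, (.nd 2 (.lf [1, 0, 0, 0, 0, -3328]) (.lf [4, 0, -1, 0, 0, -8192]))⟩,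
  ⟨266, (.lf [1, 0, -8, 0, 0, -2048])⟩), (⟨263, (.lf [1, 0, 0, 0, 0, -128])⟩, ⟨256, o⟩)]) (.sa
  530 (.sa 525 (.sx (-175) (.p2 126 233 ⟨199, 15, ⟨901, -868, 16⟩, ⟨683, -498, 64⟩, ⟨57, (.lf [0,
  1])⟩, ⟨114, (.nd 3 (.nd 3 (.lf [1, -32]) (.nd 3 (.lf [1, -8]) (.nd 3 (.lf [1, -7]) (.lf [16,
  -102])))) (.lf [1, -32]))⟩, ⟨100, (.lf [0, 1])⟩⟩ ⟨146, 45, ⟨1798, -1687, -724⟩, ⟨1378, -1307,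
  -324⟩, ⟨56, (.lf [0, 1])⟩, ⟨115, (.nd 3 (.nd 3 (.lf [1024, -7339]) o) (.nd 3 (.nd 3 (.lf [1,
  -64]) (.lf [2, -18])) (.lf [1, -32])))⟩, ⟨101, (.lf [0, 1])⟩⟩ [(⟨254, o⟩, ⟨254, o⟩), (⟨254, o⟩,
  ⟨254, o⟩), (⟨254, o⟩, ⟨254, o⟩), (⟨254, o⟩, ⟨254, o⟩), (⟨255, o⟩, ⟨255, o⟩), (⟨255, o⟩, ⟨255,
  o⟩), (⟨255, o⟩, ⟨255, o⟩), (⟨255, o⟩, ⟨255, o⟩), (⟨265, (.lf [1, 0, 0, 0, 0, -2048])⟩, ⟨253,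
  o⟩), (⟨254, o⟩, ⟨254, o⟩), (⟨265, (.lf [1, 0, -4, 0, 0, -2048])⟩, ⟨265, (.lf [1, 0, 0, 0, 0,
  -2048])⟩), (⟨254, o⟩, ⟨254, o⟩), (⟨273, (.nd 2 (.lf [1, 0, 0, 0, 0, -2048]) (.lf [1, 0, 0, 0,
  0, -2048]))⟩, ⟨265, (.lf [1, 0, -8, 0, 0, -2048])⟩), (⟨255, o⟩, ⟨255, o⟩), (⟨274, (.nd 2 (.lf
  [1, 0, 0, 0, 0, -2048]) (.lf [2, 0, -4, 0, 0, -3584]))⟩, ⟨265, (.lf [1, 0, -16, 0, 0,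
  -2048])⟩), (⟨255, o⟩, ⟨255, o⟩)]) (.cl 1 [⟨69, o⟩, ⟨58, o⟩, ⟨58, o⟩, ⟨59, o⟩, ⟨68, o⟩, ⟨53,
  o⟩])) (.st 568 (.p2 131 269 ⟨162, 17, ⟨848, -763, 31⟩, ⟨641, -419, 76⟩, ⟨57, (.lf [0, 1])⟩,
  ⟨111, (.nd 3 (.nd 3 (.lf [1, -32]) (.nd 3 (.lf [1, -256]) (.lf [4, -25]))) (.lf [1, -32]))⟩,
  ⟨99, (.lf [0, 1])⟩⟩ ⟨121, 52, ⟨1782, -1673, -704⟩, ⟨1372, -1303, -317⟩, ⟨56, (.lf [0, 1])⟩,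
  ⟨108, (.nd 3 (.nd 3 (.nd 3 (.lf [1, -7]) (.lf [1, -8])) o) (.nd 3 (.lf [8, -73]) (.lf [1,
  -32])))⟩, ⟨101, (.lf [0, 1])⟩⟩ [(⟨254, o⟩, ⟨254, o⟩), (⟨255, o⟩, ⟨254, o⟩), (⟨254, o⟩, ⟨254,
  o⟩), (⟨255, o⟩, ⟨254, o⟩), (⟨255, o⟩, ⟨255, o⟩), (⟨256, o⟩, ⟨256, o⟩), (⟨255, o⟩, ⟨255, o⟩),
  (⟨256, o⟩, ⟨256, o⟩), (⟨264, (.lf [1, 0, 0, 0, 0, -1024])⟩, ⟨254, o⟩), (⟨255, o⟩, ⟨254, o⟩),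
  (⟨262, (.lf [1, 0, 0, 0, 0, -256])⟩, ⟨254, o⟩), (⟨255, o⟩, ⟨254, o⟩), (⟨274, (.nd 2 (.lf [1, 0,
  0, 0, 0, -2048]) o)⟩, ⟨255, o⟩), (⟨255, o⟩, ⟨255, o⟩), (⟨274, (.nd 2 (.lf [1, 0, 0, 0, 0,
  -3072]) o)⟩, ⟨266, (.lf [1, 0, -16, 0, 0, -2048])⟩), (⟨255, o⟩, ⟨255, o⟩)]) (.cl 3 [⟨63, o⟩])))
  (.cl 3 [⟨63, o⟩])))

theorem cii4_6 : Cov2 pii4 Rii
    ⟨515, 540, 558, 576⟩ ⟨-191, -174, 141, 158, 100, 0, 100, 0⟩ :=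
  CT.sound pii4 cii cl_ii tii4_6 _ _ (by decide +kernel)

noncomputable def tii4_7 : CT :=
  (.sx (-232) (.p1 103 108 111 116 0 116 158 200 false true 124 176 [(⟨140, o⟩, ⟨148, (.nd 2 o
  o)⟩), (⟨140, o⟩, ⟨140, o⟩), (⟨136, o⟩, ⟨133, o⟩)]) (.sa 530 (.sx (-225) (.p1 103 106 111 116 95
  115 158 200 false true 122 280 [(⟨142, o⟩, ⟨142, o⟩), (⟨142, o⟩, ⟨163, (.nd 2 o (.nd 2 o (.nd 3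
  o o)))⟩), (⟨138, o⟩, ⟨136, o⟩)]) (.p2 124 107 ⟨175, 30, ⟨2297, -3384, -347⟩, ⟨1285, -1536,
  -77⟩, ⟨57, (.lf [0, 1])⟩, ⟨112, (.nd 3 (.nd 3 (.nd 3 (.lf [1, -10]) (.lf [8, -102])) (.nd 3
  (.lf [2, -17]) o)) (.lf [1, -512]))⟩, ⟨102, (.lf [0, 1])⟩⟩ ⟨300, 19, ⟨1380, -1310, -326⟩,
  ⟨1001, -1000, 0⟩, ⟨56, (.lf [0, 1])⟩, ⟨109, (.nd 3 (.nd 3 (.nd 3 (.lf [1, -6]) (.lf [4, -25]))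
  (.lf [1, -5])) (.lf [1, -64]))⟩, ⟨100, (.lf [0, 1])⟩⟩ [(⟨251, o⟩, ⟨251, o⟩), (⟨251, o⟩, ⟨251,
  o⟩), (⟨251, o⟩, ⟨251, o⟩), (⟨251, o⟩, ⟨251, o⟩), (⟨253, o⟩, ⟨254, o⟩), (⟨254, o⟩, ⟨254, o⟩),
  (⟨253, o⟩, ⟨254, o⟩), (⟨254, o⟩, ⟨254, o⟩), (⟨250, o⟩, ⟨251, o⟩), (⟨251, o⟩, ⟨251, o⟩), (⟨250,
  o⟩, ⟨259, (.lf [1, 0, 0, 0, 0, -256])⟩), (⟨251, o⟩, ⟨251, o⟩), (⟨252, o⟩, ⟨253, o⟩), (⟨253, o⟩,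
  ⟨253, o⟩), (⟨252, o⟩, ⟨261, (.lf [1, 0, -1, 0, 0, -256])⟩), (⟨253, o⟩, ⟨253, o⟩)])) (.sa 539
  (.st 565 (.p1 106 108 111 113 107 139 158 200 false true 144 200 [(⟨141, o⟩, ⟨161, (.nd 2 o
  (.nd 3 (.nd 2 o o) o))⟩), (⟨141, o⟩, ⟨141, o⟩), (⟨136, o⟩, ⟨134, o⟩)]) (.cl 3 [⟨63, o⟩])) (.cl
  3 [⟨63, o⟩]))))

theorem cii4_7 : Cov2 pii4 Rii
    ⟨515, 540, 558, 576⟩ ⟨-500, -208, 158, 200, 100, 0, 100, 0⟩ :=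
  CT.sound pii4 cii cl_ii tii4_7 _ _ (by decide +kernel)

noncomputable def tii4_8 : CT :=
  (.p2 137 161 ⟨230, 18, ⟨1217, -1399, -58⟩, ⟨974, -978, 2⟩, ⟨57, (.lf [0, 1])⟩, ⟨117, (.nd 3
  (.nd 3 (.lf [1, -10]) (.nd 3 (.nd 3 (.nd 0 (.lf [1, -8]) (.lf [4, -30])) (.lf [2, -17])) (.lf
  [16, -111]))) (.lf [1, -64]))⟩, ⟨101, (.lf [0, 1])⟩⟩ ⟨192, 30, ⟨1373, -1303, -317⟩, ⟨1001,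
  -1000, 0⟩, ⟨57, (.lf [0, 1])⟩, ⟨114, (.nd 3 (.nd 3 (.lf [1024, -6298]) (.lf [1, -5])) (.lf [1,
  -64]))⟩, ⟨100, (.lf [0, 1])⟩⟩ [(⟨252, o⟩, ⟨252, o⟩), (⟨253, o⟩, ⟨253, o⟩), (⟨262, (.lf [1, 0,
  -1, 0, 0, -1024])⟩, ⟨260, (.lf [1, 0, 0, 0, 0, -256])⟩), (⟨262, (.lf [1, 0, -8, 0, 0, -512])⟩,
  ⟨253, o⟩), (⟨254, o⟩, ⟨264, (.lf [1, 0, -8, 0, 0, -1024])⟩), (⟨255, o⟩, ⟨255, o⟩), (⟨262, (.lf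
  [1, 0, 0, 0, 0, -256])⟩, ⟨263, (.lf [1, 0, 0, 0, 0, -512])⟩), (⟨260, (.lf [1, 0, 0, 0, 0,
  -64])⟩, ⟨254, o⟩), (⟨252, o⟩, ⟨252, o⟩), (⟨253, o⟩, ⟨253, o⟩), (⟨262, (.lf [1, 0, -8, 0, 0,
  -1024])⟩, ⟨262, (.lf [1, 0, -16, 0, 0, -1024])⟩), (⟨264, (.lf [1, 0, -16, 0, 0, -2048])⟩, ⟨262,
  (.lf [1, 0, 0, 0, 0, -512])⟩), (⟨254, o⟩, ⟨255, (.lf [1, 0, -2])⟩), (⟨254, o⟩, ⟨254, o⟩),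
  (⟨264, (.lf [1, 0, -4, 0, 0, -1024])⟩, ⟨264, (.lf [1, 0, -7, 0, 0, -1024])⟩), (⟨265, (.lf [1,
  0, -8, 0, 0, -2048])⟩, ⟨263, (.lf [1, 0, -2, 0, 0, -512])⟩)])

theorem cii4_8 : Cov2 pii4 Rii
    ⟨515, 540, 558, 576⟩ ⟨-208, -198, 158, 200, 100, 0, 100, 0⟩ :=
  CT.sound pii4 cii cl_ii tii4_8 _ _ (by decide +kernel)

noncomputable def tii4_9 : CT :=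
  (.p2 143 199 ⟨233, 15, ⟨974, -978, 2⟩, ⟨852, -769, 30⟩, ⟨57, (.lf [0, 1])⟩, ⟨113, (.nd 3 (.nd 3
  (.lf [1, -64]) (.nd 3 (.nd 3 (.lf [4, -30]) (.lf [8, -66])) (.lf [4, -26]))) (.lf [1, -32]))⟩,
  ⟨100, (.lf [0, 1])⟩⟩ ⟨164, 35, ⟨1373, -1303, -317⟩, ⟨1001, -1000, 0⟩, ⟨57, (.lf [0, 1])⟩, ⟨114,
  (.nd 3 (.nd 3 (.lf [1024, -6298]) (.lf [1, -5])) (.lf [1, -64]))⟩, ⟨100, (.lf [0, 1])⟩⟩ [(⟨253,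
  o⟩, ⟨253, o⟩), (⟨254, o⟩, ⟨254, o⟩), (⟨264, (.lf [1, 0, -16, 0, -4, -2048])⟩, ⟨262, (.lf [1, 0,
  0, 0, 0, -512])⟩), (⟨264, (.lf [1, 0, -32, 0, -2, -2048])⟩, ⟨253, o⟩), (⟨255, o⟩, ⟨266, (.lf
  [1, 0, -16, 0, 0, -2048])⟩), (⟨255, o⟩, ⟨255, o⟩), (⟨266, (.lf [1, 0, -8, 0, 0, -2048])⟩, ⟨266,
  (.lf [1, 0, -4, 0, 0, -2048])⟩), (⟨263, (.lf [1, 0, -8, 0, 0, -256])⟩, ⟨255, o⟩), (⟨253, o⟩,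
  ⟨253, o⟩), (⟨254, o⟩, ⟨254, o⟩), (⟨264, (.lf [1, 0, -16, 0, -4, -2048])⟩, ⟨264, (.lf [1, 0,
  -16, 0, 0, -2048])⟩), (⟨264, (.lf [1, 0, -16, 0, -2, -2048])⟩, ⟨264, (.lf [1, 0, 0, 0, 0,
  -2048])⟩), (⟨254, o⟩, ⟨265, (.lf [1, 0, -16, 0, 0, -1792])⟩), (⟨255, o⟩, ⟨255, o⟩), (⟨265, (.lf
  [1, 0, -8, 0, 0, -2048])⟩, ⟨265, (.lf [1, 0, -12, 0, 0, -1792])⟩), (⟨269, (.lf [8, 0, -96, 0,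
  -8, -24576])⟩, ⟨264, (.lf [1, 0, -8, 0, 0, -512])⟩)])

theorem cii4_9 : Cov2 pii4 Rii
    ⟨515, 540, 558, 576⟩ ⟨-198, -191, 158, 200, 100, 0, 100, 0⟩ :=
  CT.sound pii4 cii cl_ii tii4_9 _ _ (by decide +kernel)

noncomputable def tii4_10 : CT :=
  (.p2 137 98 ⟨316, 10, ⟨852, -769, 30⟩, ⟨780, -648, 47⟩, ⟨57, (.lf [0, 1])⟩, ⟨112, (.nd 3 (.nd 3
  (.lf [1, -32]) (.nd 3 (.lf [1, -8]) (.nd 3 (.lf [4, -27]) o))) (.lf [1, -32]))⟩, ⟨100, (.lf [0,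
  1])⟩⟩ ⟨312, 18, ⟨1373, -1303, -317⟩, ⟨1135, -1104, -109⟩, ⟨56, (.lf [0, 1])⟩, ⟨113, (.nd 3 (.nd
  3 (.nd 3 (.nd 3 (.lf [4, -26]) (.lf [4, -23])) (.lf [4, -27])) (.lf [16, -91])) (.lf [1,
  -64]))⟩, ⟨100, (.lf [0, 1])⟩⟩ [(⟨251, o⟩, ⟨251, o⟩), (⟨251, o⟩, ⟨251, o⟩), (⟨257, (.lf [1, 0,
  -2, 0, 0, -64])⟩, ⟨251, o⟩), (⟨251, o⟩, ⟨251, o⟩), (⟨252, o⟩, ⟨252, o⟩), (⟨253, o⟩, ⟨252, o⟩),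
  (⟨260, (.lf [1, 0, -1, 0, 0, -256])⟩, ⟨259, (.lf [1, 0, 0, 0, 0, -128])⟩), (⟨252, o⟩, ⟨252,
  o⟩), (⟨254, (.lf [8, 0, -1])⟩, ⟨251, o⟩), (⟨251, o⟩, ⟨251, o⟩), (⟨259, (.lf [1, 0, -2, 0, 0,
  -256])⟩, ⟨259, (.lf [1, 0, 0, 0, 0, -256])⟩), (⟨256, (.lf [1, 0, -2, 0, 0, -16])⟩, ⟨251, o⟩),
  (⟨260, (.lf [1, 0, 0, 0, 0, -256])⟩, ⟨257, (.lf [1, 0, -1, 0, 0, -32])⟩), (⟨252, o⟩, ⟨252, o⟩),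
  (⟨274, (.nd 2 (.lf [1, 0, 0, 0, 0, -128]) (.lf [32, 0, -48, 0, -21, -15872]))⟩, ⟨260, (.lf [1,
  0, -1, 0, 0, -256])⟩), (⟨253, (.lf [1, 0, -1])⟩, ⟨252, o⟩)])

theorem cii4_10 : Cov2 pii4 Rii
    ⟨515, 540, 558, 576⟩ ⟨-191, -186, 158, 179, 100, 0, 100, 0⟩ :=
  CT.sound pii4 cii cl_ii tii4_10 _ _ (by decide +kernel)

noncomputable def tii4_11 : CT :=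
  (.p2 139 102 ⟨322, 9, ⟨780, -648, 47⟩, ⟨706, -525, 63⟩, ⟨57, (.lf [0, 1])⟩, ⟨113, (.nd 3 (.nd 3
  (.lf [1, -32]) (.nd 3 (.lf [1, -1024]) (.nd 3 (.lf [4, -27]) (.lf [1, -6])))) (.lf [1, -32]))⟩,
  ⟨100, (.lf [0, 1])⟩⟩ ⟨313, 18, ⟨1373, -1303, -317⟩, ⟨1287, -1230, -240⟩, ⟨56, (.lf [0, 1])⟩,
  ⟨112, (.nd 3 (.nd 3 (.nd 3 (.lf [16, -106]) (.lf [1, -7])) o) (.lf [1, -64]))⟩, ⟨101, (.lf [0,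
  1])⟩⟩ [(⟨257, (.lf [1, 0, -1, 0, 0, -64])⟩, ⟨251, o⟩), (⟨252, o⟩, ⟨251, o⟩), (⟨259, (.lf [1, 0,
  -1, 0, 0, -256])⟩, ⟨251, o⟩), (⟨252, o⟩, ⟨251, o⟩), (⟨261, (.lf [1, 0, 0, 0, 0, -384])⟩, ⟨257,
  (.lf [1, 0, 0, 0, 0, -32])⟩), (⟨253, o⟩, ⟨252, o⟩), (⟨260, (.lf [1, 0, -1, 0, 0, -256])⟩, ⟨258,
  (.lf [1, 0, 0, 0, 0, -64])⟩), (⟨253, o⟩, ⟨252, o⟩), (⟨263, (.lf [8, 0, -7, 0, 0, -3584])⟩,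
  ⟨258, (.lf [1, 0, 0, 0, 0, -128])⟩), (⟨252, o⟩, ⟨251, o⟩), (⟨262, (.lf [4, 0, -6, 0, 0,
  -1792])⟩, ⟨259, (.lf [1, 0, 0, 0, 0, -256])⟩), (⟨252, o⟩, ⟨251, o⟩), (⟨283, (.nd 2 (.lf [1, 0,
  0, 0, 0, -256]) (.nd 2 (.lf [1, 0, 0, 0, 0, -512]) (.nd 3 (.lf [2, 0, 0, 0, -6, -1024]) (.lf
  [1, 0, -16, 0, 0, -256]))))⟩, ⟨261, (.lf [2, 0, -5, 0, 0, -640])⟩), (⟨252, o⟩, ⟨252, o⟩),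
  (⟨299, (.nd 2 (.lf [1, 0, 0, 0, 0, -256]) (.nd 3 (.nd 2 (.lf [1, 0, 0, 0, 0, -512]) (.nd 3 (.nd
  2 (.lf [16, 0, -6, 0, 0, -12288]) (.lf [16, 0, -6, 0, -80, -10240])) (.lf [8, 0, 0, 0, -22,
  -4608]))) (.lf [1, 0, -8, 0, 0, -512])))⟩, ⟨260, (.lf [1, 0, -2, 0, 0, -256])⟩), (⟨252, o⟩,
  ⟨252, o⟩)])

theorem cii4_11 : Cov2 pii4 Rii
    ⟨515, 540, 558, 576⟩ ⟨-186, -180, 158, 164, 100, 0, 100, 0⟩ :=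
  CT.sound pii4 cii cl_ii tii4_11 _ _ (by decide +kernel)

noncomputable def tii4_12 : CT :=
  (.sa 525 (.sx (-175) (.sa 520 (.p2 132 297 ⟨161, 15, ⟨757, -628, 48⟩, ⟨697, -526, 61⟩, ⟨56,
  (.lf [0, 1])⟩, ⟨110, (.nd 3 (.nd 3 (.lf [1, -32]) (.nd 3 (.lf [1, -64]) (.lf [16, -106]))) (.lf
  [1, -32]))⟩, ⟨99, (.lf [0, 1])⟩⟩ ⟨123, 46, ⟨1388, -1318, -335⟩, ⟨1299, -1241, -254⟩, ⟨56, (.lf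
  [0, 1])⟩, ⟨110, (.nd 3 (.nd 3 (.nd 3 (.lf [4, -26]) (.lf [1, -7])) o) (.lf [1, -64]))⟩, ⟨101,
  (.lf [0, 1])⟩⟩ [(⟨255, o⟩, ⟨254, o⟩), (⟨255, o⟩, ⟨255, o⟩), (⟨255, o⟩, ⟨254, o⟩), (⟨255, o⟩,
  ⟨255, o⟩), (⟨256, o⟩, ⟨255, o⟩), (⟨256, o⟩, ⟨256, o⟩), (⟨256, o⟩, ⟨255, o⟩), (⟨256, o⟩, ⟨256,
  o⟩), (⟨255, o⟩, ⟨254, o⟩), (⟨255, o⟩, ⟨255, o⟩), (⟨255, o⟩, ⟨254, o⟩), (⟨255, o⟩, ⟨255, o⟩),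
  (⟨267, (.lf [1, 0, 0, 0, 0, -3328])⟩, ⟨266, (.lf [1, 0, 0, 0, 0, -2048])⟩), (⟨256, o⟩, ⟨256,
  o⟩), (⟨267, (.lf [1, 0, 0, 0, 0, -2944])⟩, ⟨267, (.lf [1, 0, -8, 0, 0, -4096])⟩), (⟨256, o⟩,
  ⟨256, o⟩)]) (.st 572 (.p2 137 111 ⟨284, 8, ⟨730, -575, 56⟩, ⟨674, -481, 68⟩, ⟨56, (.lf [0,
  1])⟩, ⟨112, (.nd 3 (.nd 3 (.lf [1, -32]) (.nd 3 (.lf [1, -32]) (.lf [64, -414]))) (.lf [1,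
  -16]))⟩, ⟨99, (.lf [0, 1])⟩⟩ ⟨290, 19, ⟨1383, -1314, -329⟩, ⟨1295, -1238, -249⟩, ⟨56, (.lf [0,
  1])⟩, ⟨112, (.nd 3 (.nd 3 (.nd 3 (.lf [16, -106]) (.lf [1, -7])) o) (.lf [1, -64]))⟩, ⟨101,
  (.lf [0, 1])⟩⟩ [(⟨251, o⟩, ⟨251, o⟩), (⟨252, o⟩, ⟨251, o⟩), (⟨251, o⟩, ⟨251, o⟩), (⟨252, o⟩,
  ⟨251, o⟩), (⟨252, o⟩, ⟨252, o⟩), (⟨253, o⟩, ⟨252, o⟩), (⟨252, o⟩, ⟨252, o⟩), (⟨253, o⟩, ⟨252,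
  o⟩), (⟨252, (.lf [1, 0, -1])⟩, ⟨251, o⟩), (⟨252, o⟩, ⟨251, o⟩), (⟨260, (.lf [1, 0, -1, 0, 0,
  -512])⟩, ⟨251, o⟩), (⟨252, o⟩, ⟨251, o⟩), (⟨289, (.nd 2 (.lf [1, 0, 0, 0, 0, -128]) (.nd 3 (.nd
  2 (.lf [1, 0, 0, 0, 0, -256]) (.nd 3 (.lf [8, 0, -5, 0, -14, -3072]) (.lf [8, 0, 0, 0, -7,
  -3072]))) (.lf [1, 0, -8, 0, 0, -256])))⟩, ⟨260, (.lf [1, 0, -2, 0, 0, -256])⟩), (⟨252, o⟩,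
  ⟨252, o⟩), (⟨290, (.nd 2 (.lf [1, 0, 0, 0, 0, -64]) (.nd 3 (.nd 2 (.lf [1, 0, 0, 0, 0, -256])
  (.nd 3 (.lf [16, 0, -16, 0, -27, -5632]) (.lf [4, 0, 0, 0, -5, -1280]))) (.lf [1, 0, -8, 0, 0,
  -256])))⟩, ⟨260, (.lf [1, 0, -2, 0, 0, -256])⟩), (⟨252, o⟩, ⟨252, o⟩)]) (.cl 3 [⟨63, o⟩])))
  (.cl 1 [⟨69, o⟩, ⟨58, o⟩, ⟨58, o⟩, ⟨59, o⟩, ⟨68, o⟩, ⟨53, o⟩])) (.st 568 (.p2 139 279 ⟨195, 11,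
  ⟨706, -527, 63⟩, ⟨643, -424, 77⟩, ⟨56, (.lf [0, 1])⟩, ⟨108, (.nd 3 (.nd 3 (.lf [1, -32]) (.nd 3
  (.lf [1, -32]) (.lf [4, -25]))) (.lf [1, -16]))⟩, ⟨99, (.lf [0, 1])⟩⟩ ⟨128, 42, ⟨1378, -1310,
  -323⟩, ⟨1292, -1235, -245⟩, ⟨56, (.lf [0, 1])⟩, ⟨112, (.nd 3 (.nd 3 (.nd 3 (.lf [4, -27]) (.lf
  [16, -113])) o) (.lf [1, -64]))⟩, ⟨101, (.lf [0, 1])⟩⟩ [(⟨255, o⟩, ⟨254, o⟩), (⟨255, o⟩, ⟨255,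
  o⟩), (⟨255, o⟩, ⟨254, o⟩), (⟨255, o⟩, ⟨255, o⟩), (⟨256, o⟩, ⟨255, o⟩), (⟨256, o⟩, ⟨256, o⟩),
  (⟨256, o⟩, ⟨255, o⟩), (⟨256, o⟩, ⟨256, o⟩), (⟨255, o⟩, ⟨254, o⟩), (⟨255, o⟩, ⟨255, o⟩), (⟨263,
  (.lf [1, 0, -1, 0, 0, -256])⟩, ⟨254, o⟩), (⟨255, o⟩, ⟨255, o⟩), (⟨267, (.lf [1, 0, 0, 0, 0,
  -3072])⟩, ⟨255, o⟩), (⟨256, o⟩, ⟨256, o⟩), (⟨274, (.nd 2 (.lf [1, 0, 0, 0, 0, -2048]) (.lf [1,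
  0, 0, 0, 0, -2048]))⟩, ⟨255, o⟩), (⟨256, o⟩, ⟨256, o⟩)]) (.cl 3 [⟨63, o⟩])))

theorem cii4_12 : Cov2 pii4 Rii
    ⟨515, 530, 558, 576⟩ ⟨-180, -174, 158, 164, 100, 0, 100, 0⟩ :=
  CT.sound pii4 cii cl_ii tii4_12 _ _ (by decide +kernel)

noncomputable def tii4_13 : CT :=
  (.sa 539 (.st 565 (.p2 144 222 ⟨230, 9, ⟨673, -464, 73⟩, ⟨615, -371, 86⟩, ⟨56, (.lf [0, 1])⟩,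
  ⟨113, (.nd 3 (.nd 3 (.lf [1, -16]) (.nd 3 (.lf [1, -32]) (.nd 3 (.lf [4, -25]) (.lf [16,
  -94])))) (.lf [1, -16]))⟩, ⟨99, (.lf [0, 1])⟩⟩ ⟨151, 35, ⟨1370, -1302, -313⟩, ⟨1286, -1230,
  -237⟩, ⟨56, (.lf [0, 1])⟩, ⟨110, (.nd 3 (.nd 3 (.nd 3 (.lf [4, -27]) (.lf [1, -7])) o) (.lf [1,
  -64]))⟩, ⟨101, (.lf [0, 1])⟩⟩ [(⟨254, o⟩, ⟨254, o⟩), (⟨254, o⟩, ⟨254, o⟩), (⟨254, o⟩, ⟨254,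
  o⟩), (⟨254, o⟩, ⟨254, o⟩), (⟨255, o⟩, ⟨254, o⟩), (⟨255, o⟩, ⟨255, o⟩), (⟨255, o⟩, ⟨254, o⟩),
  (⟨255, o⟩, ⟨255, o⟩), (⟨264, (.lf [1, 0, 0, 0, 0, -1024])⟩, ⟨254, o⟩), (⟨254, o⟩, ⟨254, o⟩),
  (⟨265, (.lf [1, 0, -4, 0, 0, -2048])⟩, ⟨254, o⟩), (⟨254, o⟩, ⟨254, o⟩), (⟨265, (.lf [1, 0, 0,
  0, 0, -2048])⟩, ⟨254, o⟩), (⟨255, o⟩, ⟨255, o⟩), (⟨265, (.lf [1, 0, -1, 0, 0, -2048])⟩, ⟨254,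
  o⟩), (⟨255, o⟩, ⟨255, o⟩)]) (.cl 3 [⟨63, o⟩])) (.cl 3 [⟨63, o⟩]))

theorem cii4_13 : Cov2 pii4 Rii
    ⟨530, 540, 558, 576⟩ ⟨-180, -174, 158, 164, 100, 0, 100, 0⟩ :=
  CT.sound pii4 cii cl_ii tii4_13 _ _ (by decide +kernel)

noncomputable def tii4_14 : CT :=
  (.st 565 (.p2 152 197 ⟨211, 13, ⟨783, -657, 47⟩, ⟨646, -429, 77⟩, ⟨56, (.lf [0, 1])⟩, ⟨113,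
  (.nd 3 (.nd 3 (.lf [1, -32]) (.nd 3 (.lf [1, -1024]) (.nd 3 (.lf [16, -102]) (.lf [1, -6]))))
  (.lf [1, -32]))⟩, ⟨99, (.lf [0, 1])⟩⟩ ⟨173, 31, ⟨1294, -1237, -247⟩, ⟨1137, -1107, -111⟩, ⟨56,
  (.lf [0, 1])⟩, ⟨112, (.nd 3 (.nd 3 (.nd 3 (.nd 3 (.lf [1, -6]) (.lf [4, -23])) (.lf [4, -26]))
  (.lf [16, -91])) (.lf [1, -64]))⟩, ⟨100, (.lf [0, 1])⟩⟩ [(⟨253, o⟩, ⟨253, o⟩), (⟨253, o⟩, ⟨253,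
  o⟩), (⟨253, o⟩, ⟨253, o⟩), (⟨253, o⟩, ⟨253, o⟩), (⟨254, o⟩, ⟨254, o⟩), (⟨254, o⟩, ⟨254, o⟩),
  (⟨254, o⟩, ⟨254, o⟩), (⟨254, o⟩, ⟨254, o⟩), (⟨253, o⟩, ⟨253, o⟩), (⟨253, o⟩, ⟨253, o⟩), (⟨262,
  (.lf [1, 0, -2, 0, 0, -512])⟩, ⟨260, (.lf [1, 0, 0, 0, 0, -128])⟩), (⟨253, o⟩, ⟨253, o⟩),
  (⟨271, (.nd 2 (.lf [1, 0, 0, 0, 0, -384]) (.lf [1, 0, 0, 0, 0, -512]))⟩, ⟨261, (.lf [1, 0, 0,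
  0, 0, -128])⟩), (⟨254, o⟩, ⟨254, o⟩), (⟨266, (.lf [4, 0, -2, 0, 0, -4096])⟩, ⟨263, (.lf [1, 0,
  -8, 0, 0, -512])⟩), (⟨254, o⟩, ⟨254, o⟩)]) (.sa 530 (.sx (-178) (.p2 140 107 ⟨319, 9, ⟨806,
  -700, 39⟩, ⟨705, -530, 61⟩, ⟨57, (.lf [0, 1])⟩, ⟨110, (.nd 3 (.nd 3 (.lf [1, -32]) (.nd 3 (.lf
  [1, -128]) (.lf [16, -105]))) (.lf [1, -32]))⟩, ⟨100, (.lf [0, 1])⟩⟩ ⟨295, 18, ⟨1289, -1230,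
  -243⟩, ⟨1136, -1104, -110⟩, ⟨56, (.lf [0, 1])⟩, ⟨113, (.nd 3 (.nd 3 (.nd 3 (.lf [16, -97]) (.lf
  [1, -256])) (.lf [16, -91])) (.lf [1, -32]))⟩, ⟨100, (.lf [0, 1])⟩⟩ [(⟨251, o⟩, ⟨251, o⟩),
  (⟨252, o⟩, ⟨251, o⟩), (⟨251, o⟩, ⟨251, o⟩), (⟨252, o⟩, ⟨251, o⟩), (⟨252, o⟩, ⟨252, o⟩), (⟨253,
  o⟩, ⟨253, o⟩), (⟨259, (.lf [1, 0, -1, 0, 0, -128])⟩, ⟨258, (.lf [1, 0, 0, 0, 0, -64])⟩), (⟨253,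
  o⟩, ⟨253, o⟩), (⟨262, (.lf [4, 0, -1, 0, 0, -2048])⟩, ⟨259, (.lf [1, 0, 0, 0, 0, -256])⟩),
  (⟨252, o⟩, ⟨251, o⟩), (⟨260, (.lf [1, 0, -2, 0, 0, -512])⟩, ⟨260, (.lf [1, 0, -1, 0, 0,
  -512])⟩), (⟨255, (.lf [8, 0, -1])⟩, ⟨251, o⟩), (⟨269, (.nd 2 (.lf [1, 0, 0, 0, 0, -256]) (.lf
  [1, 0, -1, 0, 0, -512]))⟩, ⟨261, (.lf [2, 0, -6, 0, 0, -640])⟩), (⟨253, o⟩, ⟨252, o⟩), (⟨288,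
  (.nd 2 (.lf [1, 0, 0, 0, 0, -256]) (.nd 3 (.nd 2 (.lf [1, 0, 0, 0, 0, -512]) (.lf [64, 0, -18,
  0, -224, -47104])) (.lf [1, 0, -4, 0, 0, -512])))⟩, ⟨261, (.lf [2, 0, -5, 0, 0, -640])⟩),
  (⟨252, o⟩, ⟨252, o⟩)]) (.p2 146 252 ⟨193, 11, ⟨705, -530, 61⟩, ⟨661, -458, 70⟩, ⟨56, (.lf [0,
  1])⟩, ⟨111, (.nd 3 (.nd 3 (.lf [1, -32]) (.nd 3 (.lf [1, -32]) (.nd 3 (.lf [1, -8]) (.lf [4,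
  -25])))) (.lf [1, -16]))⟩, ⟨99, (.lf [0, 1])⟩⟩ ⟨155, 33, ⟨1289, -1230, -243⟩, ⟨1136, -1104,
  -110⟩, ⟨56, (.lf [0, 1])⟩, ⟨113, (.nd 3 (.nd 3 (.nd 3 (.lf [16, -97]) (.lf [1, -256])) (.lf
  [16, -91])) (.lf [1, -32]))⟩, ⟨100, (.lf [0, 1])⟩⟩ [(⟨254, o⟩, ⟨254, o⟩), (⟨255, o⟩, ⟨254, o⟩),
  (⟨264, (.lf [1, 0, 0, 0, 0, -1024])⟩, ⟨254, o⟩), (⟨255, o⟩, ⟨254, o⟩), (⟨266, (.lf [1, 0, 0, 0,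
  0, -2048])⟩, ⟨265, (.lf [1, 0, 0, 0, 0, -1024])⟩), (⟨255, o⟩, ⟨255, o⟩), (⟨266, (.lf [1, 0, -2,
  0, 0, -2048])⟩, ⟨265, (.lf [1, 0, 0, 0, 0, -1024])⟩), (⟨255, o⟩, ⟨255, o⟩), (⟨267, (.lf [4, 0,
  -2, 0, 0, -8192])⟩, ⟨264, (.lf [1, 0, 0, 0, 0, -1024])⟩), (⟨255, o⟩, ⟨254, o⟩), (⟨266, (.lf [1,
  0, -16, 0, 0, -4096])⟩, ⟨265, (.lf [1, 0, 0, 0, 0, -2048])⟩), (⟨255, o⟩, ⟨254, o⟩), (⟨278, (.nd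
  2 (.lf [1, 0, 0, 0, 0, -2944]) (.lf [16, 0, -2, 0, 0, -32768]))⟩, ⟨266, (.lf [1, 0, -32, 0, 0,
  -2048])⟩), (⟨255, o⟩, ⟨255, o⟩), (⟨290, (.nd 2 (.lf [1, 0, 0, 0, 0, -4096]) (.nd 3 (.nd 2 (.lf
  [2, 0, -5, 0, 0, -7168]) (.lf [8, 0, -26, 0, 0, -27648])) (.lf [1, 0, -20, 0, 0, -3072])))⟩,
  ⟨266, (.lf [1, 0, -32, 0, 0, -2048])⟩), (⟨255, o⟩, ⟨255, o⟩)])) (.cl 3 [⟨63, o⟩])))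

theorem cii4_14 : Cov2 pii4 Rii
    ⟨515, 540, 558, 576⟩ ⟨-186, -174, 164, 179, 100, 0, 100, 0⟩ :=
  CT.sound pii4 cii cl_ii tii4_14 _ _ (by decide +kernel)

noncomputable def tii4_15 : CT :=
  (.sx (-186) (.p2 153 421 ⟨172, 18, ⟨852, -769, 30⟩, ⟨780, -648, 47⟩, ⟨57, (.lf [0, 1])⟩, ⟨112,
  (.nd 3 (.nd 3 (.lf [1, -32]) (.nd 3 (.lf [1, -8]) (.nd 3 (.lf [4, -27]) o))) (.lf [1, -32]))⟩,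
  ⟨100, (.lf [0, 1])⟩⟩ ⟨81, 53, ⟨1135, -1104, -109⟩, ⟨1001, -1000, 0⟩, ⟨56, (.lf [0, 1])⟩, ⟨112,
  (.nd 3 (.nd 3 (.lf [4, -22]) (.nd 3 (.nd 3 (.lf [1, -5]) (.lf [4, -21])) o)) (.lf [1, -32]))⟩,
  ⟨100, (.lf [0, 1])⟩⟩ [(⟨280, (.nd 2 o (.nd 3 (.lf [1, 0, -8, 0, -32, -1024]) (.lf [1, 0, -16,
  0, 0, -128])))⟩, ⟨256, o⟩), (⟨267, (.lf [1, 0, 0, 0, -32, -1024])⟩, ⟨257, o⟩), (⟨280, (.nd 2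
  (.lf [1, 0, 0, 0, 0, -256]) (.nd 3 (.lf [1, 0, -32, 0, -32, -1024]) (.lf [1, 0, -32, 0, 0,
  -1024])))⟩, ⟨264, (.lf [1, 0, 0, 0, 0, -256])⟩), (⟨268, (.lf [1, 0, -128, 0, 0, -2048])⟩, ⟨257,
  o⟩), (⟨267, (.lf [1, 0, 0, 0, -2, -512])⟩, ⟨258, o⟩), (⟨258, o⟩, ⟨258, o⟩), (⟨269, (.lf [1, 0,
  -32, 0, 0, -2048])⟩, ⟨270, (.lf [1, 0, 0, 0, 0, -4096])⟩), (⟨268, (.lf [1, 0, -32, 0, 0,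
  -1024])⟩, ⟨258, o⟩), (⟨280, (.nd 2 o (.nd 3 (.lf [1, 0, -32, 0, -32, -1024]) (.lf [1, 0, -8, 0,
  0, -512])))⟩, ⟨256, o⟩), (⟨268, (.lf [1, 0, -4, 0, -32, -2048])⟩, ⟨257, o⟩), (⟨281, (.nd 2 (.lf
  [1, 0, 0, 0, 0, -2048]) (.nd 3 (.lf [1, 0, -32, 0, -16, -2048]) (.lf [1, 0, -64, 0, 0,
  -2048])))⟩, ⟨268, (.lf [1, 0, 0, 0, 0, -4096])⟩), (⟨277, (.nd 2 (.lf [1, 0, -32, 0, 0, -2048])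
  (.lf [2, 0, -192, 0, -5, -4096]))⟩, ⟨257, o⟩), (⟨269, (.lf [1, 0, 0, 0, -16, -2048])⟩, ⟨267,
  (.lf [1, 0, 0, 0, 0, -1024])⟩), (⟨258, o⟩, ⟨258, o⟩), (⟨283, (.nd 2 (.lf [1, 0, -14, 0, 0,
  -6144]) (.nd 3 (.lf [1, 0, -16, 0, -8, -2048]) (.lf [1, 0, -32, 0, 0, -4096])))⟩, ⟨270, (.lf
  [1, 0, -64, 0, 0, -8192])⟩), (⟨270, (.lf [1, 0, -64, 0, 0, -4096])⟩, ⟨258, o⟩)]) (.sy 190 (.p2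
  158 409 ⟨189, 15, ⟨780, -648, 47⟩, ⟨643, -422, 76⟩, ⟨57, (.lf [0, 1])⟩, ⟨113, (.nd 3 (.nd 3
  (.lf [1, -32]) (.nd 3 (.lf [1, -1024]) (.nd 3 (.lf [4, -26]) (.lf [16, -97])))) (.lf [1,
  -32]))⟩, ⟨99, (.lf [0, 1])⟩⟩ ⟨88, 49, ⟨1135, -1104, -109⟩, ⟨1058, -1043, -45⟩, ⟨56, (.lf [0,
  1])⟩, ⟨110, (.nd 3 (.nd 3 (.lf [4, -23]) (.lf [64, -343])) (.lf [1, -32]))⟩, ⟨100, (.lf [0,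
  1])⟩⟩ [(⟨272, (.nd 3 (.lf [1, 0, -32, 0, -2, -1024]) (.lf [1, 0, -16, 0, 0, -1024]))⟩, ⟨256,
  o⟩), (⟨267, (.lf [1, 0, -2, 0, 0, -1024])⟩, ⟨257, o⟩), (⟨273, (.nd 3 (.lf [1, 0, -16, 0, 0,
  -1024]) (.lf [1, 0, -16, 0, 0, -2048]))⟩, ⟨256, o⟩), (⟨268, (.lf [1, 0, -32, 0, -16, -2048])⟩,
  ⟨257, o⟩), (⟨269, (.lf [1, 0, -4, 0, -16, -2048])⟩, ⟨257, o⟩), (⟨258, o⟩, ⟨258, o⟩), (⟨269,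
  (.lf [1, 0, -16, 0, -16, -2048])⟩, ⟨266, (.lf [1, 0, 0, 0, 0, -512])⟩), (⟨258, o⟩, ⟨258, o⟩),
  (⟨281, (.nd 2 (.lf [1, 0, 0, 0, 0, -4096]) (.nd 3 (.lf [1, 0, -12, 0, 0, -2560]) (.lf [1, 0,
  -64, 0, 0, -4096])))⟩, ⟨269, (.lf [1, 0, -128, 0, 0, -8192])⟩), (⟨268, (.lf [1, 0, -16, 0, -16,
  -2048])⟩, ⟨257, o⟩), (⟨286, (.nd 2 (.lf [1, 0, -10, 0, 0, -6144]) (.nd 3 (.nd 3 (.lf [1, 0,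
  -28, 0, 0, -3072]) (.lf [1, 0, 0, 0, -8, -4096])) (.lf [1, 0, -128, 0, 0, -4096])))⟩, ⟨269,
  (.lf [1, 0, -128, 0, 0, -8192])⟩), (⟨269, (.lf [1, 0, -80, 0, 0, -3072])⟩, ⟨257, o⟩), (⟨282,
  (.nd 2 (.lf [1, 0, 0, 0, 0, -4096]) (.nd 3 (.lf [1, 0, -16, 0, 0, -4096]) (.lf [1, 0, -32, 0,
  0, -4096])))⟩, ⟨270, (.lf [1, 0, -112, 0, 0, -7168])⟩), (⟨266, (.lf [1, 0, 0, 0, 0, -256])⟩,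
  ⟨257, o⟩), (⟨291, (.nd 2 (.nd 2 (.nd 3 (.lf [1, 0, -7, 0, 0, -6144]) (.lf [1, 0, -32, 0, 0,
  -4096])) (.lf [1, 0, 0, 0, 0, -8192])) (.nd 3 (.lf [1, 0, -8, 0, 0, -3584]) (.lf [1, 0, -128,
  0, 0, -2048])))⟩, ⟨269, (.lf [1, 0, -64, 0, 0, -4096])⟩), (⟨270, (.lf [1, 0, -32, 0, 0,
  -4096])⟩, ⟨257, o⟩)]) (.p2 166 362 ⟨207, 13, ⟨780, -648, 47⟩, ⟨643, -422, 76⟩, ⟨57, (.lf [0,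
  1])⟩, ⟨113, (.nd 3 (.nd 3 (.lf [1, -32]) (.nd 3 (.lf [1, -1024]) (.nd 3 (.lf [4, -26]) (.lf
  [16, -97])))) (.lf [1, -32]))⟩, ⟨99, (.lf [0, 1])⟩⟩ ⟨92, 39, ⟨1058, -1043, -45⟩, ⟨1001, -1000,
  0⟩, ⟨56, (.lf [0, 1])⟩, ⟨106, (.nd 3 (.nd 3 (.lf [4, -21]) (.lf [1, -5])) (.lf [1, -32]))⟩,
  ⟨100, (.lf [0, 1])⟩⟩ [(⟨278, (.nd 2 o (.nd 3 (.lf [1, 0, -8, 0, 0, -512]) (.lf [1, 0, -16, 0,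
  0, -256])))⟩, ⟨256, o⟩), (⟨265, (.lf [1, 0, 0, 0, 0, -512])⟩, ⟨256, o⟩), (⟨266, (.lf [1, 0,
  -32, 0, -64, -1024])⟩, ⟨256, o⟩), (⟨265, (.lf [1, 0, -16, 0, 0, -512])⟩, ⟨256, o⟩), (⟨262, (.lf
  [1, 0, 0, 0, 0, -32])⟩, ⟨257, o⟩), (⟨258, o⟩, ⟨257, o⟩), (⟨267, (.lf [1, 0, 0, 0, 0, -1024])⟩,
  ⟨257, o⟩), (⟨258, o⟩, ⟨257, o⟩), (⟨280, (.nd 2 (.lf [1, 0, 0, 0, 0, -2048]) (.nd 3 (.lf [1, 0,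
  -16, 0, 0, -2048]) (.lf [1, 0, -16, 0, 0, -2048])))⟩, ⟨267, (.lf [1, 0, 0, 0, 0, -2048])⟩),
  (⟨265, (.lf [1, 0, -4, 0, 0, -512])⟩, ⟨256, o⟩), (⟨273, (.nd 3 (.lf [1, 0, -32, 0, -2, -2048])
  (.lf [1, 0, -64, 0, 0, -4096]))⟩, ⟨268, (.lf [1, 0, 0, 0, 0, -4096])⟩), (⟨265, (.lf [1, 0, -64,
  0, 0, -256])⟩, ⟨256, o⟩), (⟨268, (.lf [1, 0, -4, 0, -2, -2048])⟩, ⟨269, (.lf [1, 0, -64, 0, 0,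
  -4096])⟩), (⟨257, o⟩, ⟨257, o⟩), (⟨268, (.lf [1, 0, -16, 0, 0, -2048])⟩, ⟨269, (.lf [1, 0, -64,
  0, 0, -4096])⟩), (⟨267, (.lf [1, 0, -8, 0, 0, -1024])⟩, ⟨257, o⟩)])))

theorem cii4_15 : Cov2 pii4 Rii
    ⟨515, 540, 558, 576⟩ ⟨-191, -174, 179, 200, 100, 0, 100, 0⟩ :=
  CT.sound pii4 cii cl_ii tii4_15 _ _ (by decide +kernel)

noncomputable def tii4_16 : CT :=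
  (.cl 3 [⟨63, o⟩])

theorem cii4_16 : Cov2 pii4 Rii
    ⟨515, 540, 576, 600⟩ ⟨-500, -174, 0, 200, 100, 0, 100, 0⟩ :=
  CT.sound pii4 cii cl_ii tii4_16 _ _ (by decide +kernel)

noncomputable def tii4_17 : CT :=
  (.cl 1 [⟨69, o⟩, ⟨58, o⟩, ⟨58, o⟩, ⟨59, o⟩, ⟨69, o⟩, ⟨53, o⟩])

theorem cii4_17 : Cov2 pii4 Rii
    ⟨515, 540, 558, 600⟩ ⟨-174, 400, 0, 200, 100, 0, 100, 0⟩ :=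
  CT.sound pii4 cii cl_ii tii4_17 _ _ (by decide +kernel)

theorem covii4 : Cov2 pii4 Rii
    ⟨515, 540, 558, 600⟩ ⟨-500, 400, 0, 200, 100, 0, 100, 0⟩ :=
  (Cov2.sx (-174) (Cov2.st 576 (Cov2.sy 158 (Cov2.sx (-231) cii4_1 (Cov2.sy 89 cii4_2 (Cov2.sy
  124 cii4_3 (Cov2.sx (-191) cii4_4 (Cov2.sy 141 cii4_5 cii4_6))))) (Cov2.sx (-208) cii4_7
  (Cov2.sx (-198) cii4_8 (Cov2.sx (-191) cii4_9 (Cov2.sy 179 (Cov2.sx (-186) cii4_10 (Cov2.sy 164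
  (Cov2.sx (-180) cii4_11 (Cov2.sa 530 cii4_12 cii4_13)) cii4_14)) cii4_15))))) cii4_16) cii4_17)

end Pool.Agent.Lib.MP_43bc59_co.P18
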