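import Pool.Agent.Lib.MP_43bc59_co.F_E1
import Pool.Agent.Lib.MP_43bc59_co.F_E2
import Pool.Agent.Lib.MP_43bc59_co.F_E3
import Pool.Agent.Lib.MP_43bc59_co.F_E4
import Pool.Agent.Lib.MP_43bc59_co.F_E5
import Pool.Agent.Lib.MP_43bc59_co.F_E6

set_option autoImplicit false

namespace Pool.Agent.Lib.MP_43bc59_co.P18

variable {ι : Type} [Fintype ι] [DecidableEq ι] {a θ : ℝ} {w g A Φ : ι → ℝ} {c G : ι → ι → ℝ}

/-- use of a cover -/
lemma St4.use {p : Pm} {R : ℝ → ℝ → ℝ → ℝ → Prop} {a0 a1 t0 t1 : ℤ}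
    (h : St4 (fun a θ u v _ _ => (R a θ u v ∧ 0 ≤ p.Z.r a θ) ∧ Bo.In ⟨a0, a1, t0, t1⟩ a θ))
    (H : Hyp a θ w g A Φ c G) {x y : ι} (gx : a ≤ g x) (gy : g y ≤ a) (hx : ∀ j, g j ≤ g x)
    (hy : ∀ j, g y ≤ g j) (hR : R a θ (g x) (g y)) (hZ : 0 ≤ p.Z.r a θ)
    (b1 : (a0 : ℝ) ≤ 1200 * a) (b2 : 1200 * a ≤ a1) (b3 : (t0 : ℝ) ≤ 1200 * θ)
    (b4 : 1200 * θ ≤ t1) : Goal a θ w g Φ c G :=
  h ι a θ w g A Φ c G H x y gx gy hx hy ⟨⟨hR, hZ⟩, b1, b2, b3, b4⟩

lemma r_one (a θ : ℝ) : 0 ≤ Af.r ⟨1, 0, 0⟩ a θ := by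
  unfold Af.r
  norm_num

lemma r_lo (h : 10 * a + 14 * θ ≤ 11) : 0 ≤ Af.r ⟨11, -10, -14⟩ a θ := by
  unfold Af.r
  push_cast
  linarith

lemma r_hi (h : 11 ≤ 10 * a + 14 * θ) : 0 ≤ Af.r ⟨-11, 10, 14⟩ a θ := by
  unfold Af.r
  push_cast
  linarith

/-- the zone `9 / 20 ≤ θ ≤ 93 / 200` -/
theorem zone_i (H : Hyp a θ w g A Φ c G) (x y : ι) (gx : a ≤ g x) (gy : g y ≤ a)
    (hy : ∀ j, g y ≤ g j) (hx : ∀ j, g j ≤ g x) (a0 : 1 / 3 ≤ a) (a1 : a ≤ 1 / 2)
    (t0 : 9 / 20 ≤ θ) (t1 : θ ≤ 93 / 200) : Goal a θ w g Φ c G := by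
  rcases le_total (1200 * a) 456 with k | k
  · exact (covi1.root (by decide)).use H gx gy hx hy t0 (r_one a θ) (by push_cast; linarith)
      (by push_cast; linarith) (by push_cast; linarith) (by push_cast; linarith)
  rcases le_total (1200 * a) 552 with k' | k'
  · exact (covi2.root (by decide)).use H gx gy hx hy t0 (r_one a θ) (by push_cast; linarith)
      (by push_cast; linarith) (by push_cast; linarith) (by push_cast; linarith)
  · exact (covi3.root (by decide)).use H gx gy hx hy t0 (r_one a θ) (by push_cast; linarith)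
      (by push_cast; linarith) (by push_cast; linarith) (by push_cast; linarith)

/-- the zone `93 / 200 ≤ θ` left of the line -/
theorem zone_ii (H : Hyp a θ w g A Φ c G) (x y : ι) (gx : a ≤ g x) (gy : g y ≤ a)
    (hy : ∀ j, g y ≤ g j) (hx : ∀ j, g j ≤ g x) (t0 : 93 / 200 ≤ θ) (a0 : 1 / 3 ≤ a)
    (a1 : a ≤ 2 / 5 + 7 / 5 * (1 / 2 - θ)) : Goal a θ w g Φ c G := by
  have t1 := H.th1
  have l : 10 * a + 14 * θ ≤ 11 := by linarith
  have hR : Rii a θ (g x) (g y) := ⟨by linarith, l⟩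
  rcases le_total (1200 * a) 456 with k | k
  · exact (covii1.root (by decide)).use H gx gy hx hy hR (r_lo l) (by push_cast; linarith)
      (by push_cast; linarith) (by push_cast; linarith) (by push_cast; linarith)
  rcases le_total (1200 * a) 490 with k1 | k1
  · exact (covii2.root (by decide)).use H gx gy hx hy hR (r_lo l) (by push_cast; linarith)
      (by push_cast; linarith) (by push_cast; linarith) (by push_cast; linarith)
  rcases le_total (1200 * a) 515 with k2 | k2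
  · exact (covii3.root (by decide)).use H gx gy hx hy hR (r_lo l) (by push_cast; linarith)
      (by push_cast; linarith) (by push_cast; linarith) (by push_cast; linarith)
  · exact (covii4.root (by decide)).use H gx gy hx hy hR (r_lo l) (by push_cast; linarith)
      (by push_cast; linarith) (by push_cast; linarith) (by push_cast; linarith)

/-- the central block -/
theorem zone_blob (H : Hyp a θ w g A Φ c G) (x y : ι) (gx : a ≤ g x) (gy : g y ≤ a)
    (hy : ∀ j, g y ≤ g j) (hx : ∀ j, g j ≤ g x)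
    (hR : 93 / 200 ≤ θ ∧ 2 / 5 ≤ a ∧ a ≤ 1 / 2 ∧
      3 / 20 + 11 / 10 * (1 / 2 - a) - 3 / 10 * (1 / 2 - θ) ≤ 1 - g x ∧
      3 / 20 - 4 / 5 * (1 / 2 - a) - 3 / 5 * (1 / 2 - θ) ≤ g y) : Goal a θ w g Φ c G := by
  obtain ⟨t0, a0, a1, e1, e2⟩ := hR
  have t1 := H.th1
  rcases le_total (10 * a + 14 * θ) 11 with l | l
  · exact zone_ii H x y gx gy hy hx t0 (by linarith) (by linarith)
  · exact (covb.root (by decide)).use H gx gy hx hy ⟨l, by linarith, by linarith⟩ (r_hi l)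
      (by push_cast; linarith) (by push_cast; linarith) (by push_cast; linarith)
      (by push_cast; linarith)

/-- the strip near the bottom, far from the top -/
theorem zone_L2 (H : Hyp a θ w g A Φ c G) (x y : ι) (gx : a ≤ g x) (gy : g y ≤ a)
    (hy : ∀ j, g y ≤ g j) (hx : ∀ j, g j ≤ g x)
    (hR : 93 / 200 ≤ θ ∧ 2 / 5 ≤ a ∧ g y ≤ 3 / 100 ∧
      ((a ≤ 93 / 200 ∧ 17 / 50 - 8 * (1 / 2 - θ) ≤ 1 - g x) ∨
        (a ≤ 11 / 25 ∧ 17 / 50 - 8 * (1 / 2 - θ) - 2 * (11 / 25 - a) ≤ 1 - g x))) :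
    Goal a θ w g Φ c G := by
  obtain ⟨t0, a0, h1, hR⟩ := hR
  have t1 := H.th1
  rcases le_total (10 * a + 14 * θ) 11 with l | l
  · exact zone_ii H x y gx gy hy hx t0 (by linarith) (by linarith)
  rcases le_total a (11 / 25) with k | k
  · have hb : Rlb a θ (g x) (g y) :=
      ⟨by linarith, by linarith, by rcases hR with ⟨_, f⟩ | ⟨_, f⟩ <;> linarith, l⟩
    rcases le_total (1200 * θ) 590 with k1 | k1
    · exact (covlb1.root (by decide)).use H gx gy hx hy hb (r_hi l) (by push_cast; linarith)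
        (by push_cast; linarith) (by push_cast; linarith) (by push_cast; linarith)
    · exact (covlb2.root (by decide)).use H gx gy hx hy hb (r_hi l) (by push_cast; linarith)
        (by push_cast; linarith) (by push_cast; linarith) (by push_cast; linarith)
  · have f : a ≤ 93 / 200 ∧ 17 / 50 - 8 * (1 / 2 - θ) ≤ 1 - g x := by
      rcases hR with f | ⟨f1, f2⟩
      · exact f
      · exact ⟨by linarith, by linarith⟩
    exact (covla.root (by decide)).use H gx gy hx hy ⟨by linarith, by linarith, by linarith [f.2]⟩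
      (r_one a θ) (by push_cast; linarith) (by push_cast; linarith [f.1]) (by push_cast; linarith)
      (by push_cast; linarith)

end Pool.Agent.Lib.MP_43bc59_co.P18
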