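import Pool.Agent.Lib.MP_43bc59_co.Bq

set_option autoImplicit false
set_option maxRecDepth 100000

namespace Pool.Agent.Lib.MP_43bc59_co.ZM

open Bx

def eT : E := .v 0
def eA : E := .v 1
def eE : E := .v 2
def eH : E := .v 3
def eW : E := .v 4

def eM : E :=
  (.s (.c 1) eA)

def eP : E :=
  (.s (.s (.c 1) eE) eA)

def eD : E :=
  (.s eA eH)

def eV : E :=
  (.m eA eM)

def eZ : E :=
  (.a (.m eW eP) (.m (.m (.s (.c 2) eW) eA) eE))

def eB : E :=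
  (.s eV (.m eT eZ))

def eG : E :=
  (.m eM eH)

def eR : E :=
  (.s eV (.m eT (.m eW eP)))

def eU : E :=
  (.m eW (.m (.s (.c 1) eE) eE))

def eP0 : E :=
  (.m (.c 10000000000) (.m (.m eG eM) (.s (.m (.c 2) eB) (.m eG eM))))

def eP1 : E :=
  (.m (.c 10000000000) (.m eB eB))

def eDA : E :=
  (.s eV (.m eT eD))

def eDB : E :=
  (.m eT eD)

def eza : E :=
  (.s (.m (.c 10) (.s eZ (.m eA eM))) (.c 1))

def edn : E :=
  (.s (.m (.c 20) (.s eD eG)) (.c 1))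

def ez0 : E :=
  (.s eM eZ)

def ez1 : E :=
  (.s eZ eM)

def eh0 : E :=
  (.s eB (.m eG eM))

def eh1 : E :=
  (.s (.m eG eM) eB)

def es0 : E :=
  (.s (.s eT eE) eH)

def ex1 : E :=
  (.a (.s (.s (.c 11) (.m (.c 22) eA)) (.m (.c 20) eE)) (.m (.c 6) eT))

def ex2 : E :=
  (.s (.a (.s (.s (.c 22) (.m (.c 38) eA)) (.m (.c 6) eT)) (.m (.c 20) eH)) (.m (.c 20) eE))

def ex3 : E :=
  (.s (.a (.m (.c 10) eA) (.m (.c 14) eT)) (.c 11))

def ey1 : E :=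
  (.a (.s (.s (.c 5) (.m (.c 16) eA)) (.m (.c 20) eE)) (.m (.c 12) eT))

def ey2 : E :=
  (.s (.a (.a (.s (.c 16) (.m (.c 38) eA)) (.m (.c 6) eT)) (.m (.c 20) eH)) (.m (.c 20) eE))

def ey3 : E :=
  (.s (.s (.m (.c 14) eT) (.c 1)) (.m (.c 10) eA))

def ecB : E :=
  (.s eV (.m (.m (.c 2) eT) eD))

def ecA : E :=
  (.s (.m (.m (.c 2) eT) eD) eV)

def sS (X : E) : E :=
  (.m X (.s (.m (.c 200000) eT) X))

def sC (L R : E) : E :=
  (.s (sS L) (.m (.c 100000) R))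

def sN (U : E) : E :=
  (.m (sS U) (.s eW (.m (.s (.c 2) eW) eH)))

def s0 (L : E) : E :=
  (.m (.m eM eM) (.s (.m (.c 10000000000) (.s (.s (.m (.m eT (.s (.c 1) eT)) eV) (.m (.m eT eT)
  (.m (.m eW eP) eP))) (.m eR eR))) (.m (.m (.m eT eT) eU) (.m L (.s (.c 200000) L)))))

def sY (U : E) : E :=
  (.m eM (.s (.m (.s (.c 1) eH) (.m U (.s (.m (.c 200000) (.s (.m eD eM) eB)) (.m U (.s eZ (.m eH
  eM)))))) (.m (.c 10000000000) (.m (.m eM eD) eD))))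

def sE0 (_V : E) : E :=
  (.m (.m (.c 100000) eM) (.m (.c 200000) eB))

def sE1 (V : E) : E :=
  (.m (.m (.c 100000) eM) (.a (.m (.c 200000) eB) (.m V (.s eZ eM))))

def c0 (L U R : E) : E :=
  (.s (sN U) (.m (sC L R) eW))

def c1A (L U R : E) : E :=
  (.s (.m (.s (sS L) (.m eE (sC L R))) eW) (sN U))

def c1B (L U : E) : E :=
  (.s (.m (sS L) eW) (sN U))

def c2 (X V D : E) : E :=
  (.s (.m eT (.m X eW)) (.m (sS V) (.s (.m eT eW) (.m (.s (.c 2) eW) (.s (.m eT eA) D)))))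

def c3 (V D : E) : E :=
  (.s (.m V (.a (.m eT (.s eZ (.m eA eM))) (.m D eM))) (.m (.c 100000) (.s (.m D eM) (.m eT
  eB))))

def up (X : E) : E :=
  (.s (.m (.c 100000) eT) X)

def kr (X : E) : E :=
  (.m (.c 100000) X)

def pA (L R P : E) : E :=
  (.a P (.m (.m (.m eM eM) eU) (sC L R)))

def f1 (L U T P : E) : E :=
  (.a (s0 L) (.m eT (.s (.m eT (.a (sY U) P)) (.m T (.s eV (.m eT eD))))))

def f2A (L U T P : E) : E :=
  (.a (.m (.s eD eG) (.a (s0 L) (.m (.m (.m (.c 2) eT) eT) P))) (.m eT (.s (.m (.s eV (.m (.m (.c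
  2) eT) eG)) (.s (sY U) P)) (.m (.m T eG) (.s (.m (.m (.c 2) eT) eD) eV)))))

def f2B (L U P : E) : E :=
  (.a (.m eD (.a (s0 L) (.m (.m (.m (.c 2) eT) eT) P))) (.m (.m eT eV) (.s (sY U) P)))

def sdXA : List E := [eB, es0, ex1, ex2, ex3, ecA]
def sdXB : List E := [eB, es0, ex1, ex2, ex3, ecB]
def sdYA : List E := [eB, es0, ey1, ey2, ey3, ecA]
def sdYB : List E := [eB, es0, ey1, ey2, ey3, ecB]

end Pool.Agent.Lib.MP_43bc59_co.ZM
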