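import Pool.Agent.Lib.MP_43bc59_co.F_X2
import Pool.Agent.Lib.MP_43bc59_co.M_E

set_option autoImplicit false

namespace Pool.Agent.Lib.MP_43bc59_co

open Finset

variable {ι : Type} [Fintype ι] [DecidableEq ι] {a θ : ℝ} {w g A Φ : ι → ℝ} {c G : ι → ι → ℝ}

/-- the lowest letter is strictly below the mean as soon as one letter is above -/
lemma Hyp.low_lt (H : Hyp a θ w g A Φ c G) {x y : ι} (hx : a < g x) (ymin : ∀ j, g y ≤ g j) :
    g y < a := by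
  by_contra k
  have k' : ∀ j, 0 ≤ w j * (g j - a) := fun j =>
    mul_nonneg (by linarith [H.w1 j]) (by linarith [ymin j, not_lt.1 k])
  have t := single_le_sum (f := fun j => w j * (g j - a)) (fun j _ => k' j) (mem_univ x)
  have := mul_pos (show 0 < w x by linarith [H.w1 x]) (sub_pos.2 hx)
  linarith [H.bal]

/-- a narrow range of values needs no certificate -/
lemma Hyp.narrow (H : Hyp a θ w g A Φ c G) {x y : ι} (hx : a ≤ g x) (hy : g y ≤ a)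
    (ymin : ∀ j, g y ≤ g j) (xmax : ∀ j, g j ≤ g x) (hn : g x - g y ≤ 1 - θ) :
    Goal a θ w g Φ c G := by
  have e0 := H.Ed_ge (fun _ _ => 0) (fun _ _ => le_rfl) (fun _ _ => sq_nonneg θ) (fun _ => rfl)
  simp only [zero_mul, sum_const_zero] at e0
  have p0 : 0 ≤ ∑ j, w j * Φ j :=
    sum_nonneg fun j _ => mul_nonneg (by linarith [H.w1 j]) (H.Phi0 j)
  have u := mul_le_mul_of_nonneg_left (C36.up_sum H) (sub_nonneg.2 hx)
  have d := mul_le_mul_of_nonneg_left (C36.down_sum H) (sub_nonneg.2 hy)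
  have s : ∑ j, w j * (g j - a) ^ 2 ≤ (g x - a) * ∑ j, w j * max (g j - a) 0
      + (a - g y) * ∑ j, w j * max (a - g j) 0 := by
    rw [mul_sum, mul_sum, ← sum_add_distrib]
    refine sum_le_sum fun j _ => ?_
    have w0 : 0 ≤ w j := by linarith [H.w1 j]
    rcases le_total a (g j) with k | k
    · rw [max_eq_left (sub_nonneg.2 k), max_eq_right (sub_nonpos.2 k)]
      have := mul_le_mul_of_nonneg_left (sub_le_sub_right (xmax j) a)
        (mul_nonneg w0 (sub_nonneg.2 k))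
      linarith
    · rw [max_eq_right (sub_nonpos.2 k), max_eq_left (sub_nonneg.2 k)]
      have := mul_le_mul_of_nonneg_left (sub_le_sub_left (ymin j) a)
        (mul_nonneg w0 (sub_nonneg.2 k))
      linarith
  have al0 : 0 ≤ a * (1 - a) / θ :=
    div_nonneg (mul_nonneg H.a0.le (sub_nonneg.2 H.a1.le)) H.th0.le
  have t := mul_le_mul_of_nonneg_right hn al0
  unfold Goal
  rw [mul_div_assoc]
  linarith

/-- The pivot certificate with the clean share `C` of the pivot given directly. -/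
theorem Hyp.pivotC (H : Hyp a θ w g A Φ c G) (x y : ι) (hx : a < g x) (hy : g y < a)
    (ymin : ∀ j, g y ≤ g j) (xmax : ∀ j, g j ≤ g x) {e W h p d al z b r : ℝ}
    (he : e = 1 - g x) (hW : W = w x) (W2 : W ≤ 2) (hh : h = g y)
    (hp : p = 1 - e - a) (hd : d = a - h) (hal : θ * al = a * (1 - a))
    (hz : z * (1 - a) = W * p + (2 - W) * a * e) (hb : b = a - θ * z) (hr : r = al - W * p)
    (l C u v D2 k : ℝ) (h0 : 0 < h) (za : a < z) (l0 : 0 ≤ l) (l1 : l ≤ θ)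
    (u0 : 0 ≤ u) (u1 : u ≤ θ) (v0 : 0 ≤ v) (v1 : v ≤ θ) (C0 : 0 ≤ C) (C1 : C ≤ l * (2 * θ - l))
    (hC : C = 0 ∨ al ≤ 2 * d) (hk : k = 0 ∨ k = 1) (Dn0 : 0 < d - k * ((1 - a) * h))
    (cap0 : C * W ≤ u * (2 * θ - u) * (W - (2 - W) * h))
    (cap1 : u * (2 * θ - u) * (W - (2 - W) * h) ≤ (l * (2 * θ - l) - e * C) * W)
    (hD : d ≤ D2 ∨ al - d ≤ D2) (hu : D2 - b ≤ v * (z - a + D2))
    (cap2 : v * (2 * θ - v) * (W - (2 - W) * (a - D2)) ≤ (l * (2 * θ - l) - C) * W)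
    (F : ∀ J Ψ, ((z ≤ 1 ∧ J = 0) ∨ (1 ≤ z ∧ J = v * (z - 1))) →
      (((1 - a) * h ≤ b ∧ Ψ = ((1 - a) * h) * (2 * b - (1 - a) * h))
        ∨ (b ≤ (1 - a) * h ∧ Ψ = b * b)) → ∀ S Y P,
      S = (1 - θ) * al - W * p ^ 2 - r ^ 2 - W * ((1 - e) * e) * (l * (2 - l)) →
      Y = (1 - h) * (u * (2 * (d - b) - u * (z - h))) - d ^ 2 → P = Ψ + W * ((1 - e) * e) * C →
      0 ≤ S + Y + P - (2 * b + J) * (al - d) ∧
      0 ≤ (d - k * ((1 - a) * h)) * (S + 2 * P) + (al - 2 * k * ((1 - a) * h)) * (Y - P)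
        - k * ((2 * b + J) * ((1 - a) * h) * (2 * d - al))) :
    Goal a θ w g Φ c G := by
  have sl : 0 ≤ l * (2 * θ - l) := C0.trans C1
  obtain ⟨ξ, ξ0, ξ1, hξ, hξ0⟩ : ∃ ξ, 0 ≤ ξ ∧ ξ ≤ 1 ∧ ξ * (l * (2 * θ - l)) = C ∧ (C = 0 → ξ = 0) := by
    refine ⟨C / (l * (2 * θ - l)), div_nonneg C0 sl, div_le_one_of_le₀ C1 sl, ?_,
      fun k => by rw [k, zero_div]⟩
    rcases sl.eq_or_lt with k | k
    · rw [← k, mul_zero]; linarith
    · exact div_mul_cancel₀ _ k.ne'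
  obtain ⟨J, hJ⟩ : ∃ J, (z ≤ 1 ∧ J = 0) ∨ (1 ≤ z ∧ J = v * (z - 1)) := by
    rcases le_total z 1 with k | k
    · exact ⟨_, Or.inl ⟨k, rfl⟩⟩
    · exact ⟨_, Or.inr ⟨k, rfl⟩⟩
  obtain ⟨Ψ, hΨ⟩ : ∃ Ψ, ((1 - a) * h ≤ b ∧ Ψ = ((1 - a) * h) * (2 * b - (1 - a) * h))
      ∨ (b ≤ (1 - a) * h ∧ Ψ = b * b) := by
    rcases le_total ((1 - a) * h) b with k | k
    · exact ⟨_, Or.inl ⟨k, rfl⟩⟩
    · exact ⟨_, Or.inr ⟨k, rfl⟩⟩
  obtain ⟨F1, F2⟩ := F J Ψ hJ hΨ _ _ _ rfl rfl rfl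
  have m0 := mul_pos (sub_pos.2 H.a1) h0
  refine H.pivotMw x y hx hy ymin xmax he hW W2 hh hp hd hal hz hb hr l ξ u J Ψ D2 v
    (al - 2 * k * ((1 - a) * h)) (d - k * ((1 - a) * h)) _ _ _ h0 za l0 l1 ξ0 ξ1 u0 u1
    (hC.imp hξ0 Or.inl) (by rw [hξ]; exact cap0) ?_ hD hu v0 v1 ?_ ?_ (Or.inl ?_) ?_ ?_
    rfl rfl rfl Dn0 ?_ ?_ ?_
  · rw [← hξ] at cap1; linarith only [cap1]
  · rw [← hξ] at cap2; linarith only [cap2]
  · rcases hJ with k | k
    · exact k.2.ge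
    · rw [k.2]; exact mul_nonneg v0 (sub_nonneg.2 k.1)
  · rcases hJ with k | k
    · rw [k.2]; exact mul_nonpos_of_nonpos_of_nonneg (sub_nonpos.2 k.1) v0
    · rw [k.2, mul_comm]
  · rcases hΨ with k | k
    · rw [k.2]; exact mul_nonneg m0.le (by linarith only [k.1, m0])
    · rw [k.2]; exact mul_self_nonneg b
  · rcases hΨ with k | k
    · exact Or.inl (by rw [k.2]; exact le_of_eq (by ring))
    · exact Or.inr ⟨k.1, by rw [k.2]; exact le_of_eq (by ring)⟩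
  · have t1 := H.wd_le y hal
    have t2 := H.gap_down y hal
    rw [← hh, ← hd] at t1 t2
    have t3 := mul_le_mul_of_nonneg_right (min_le_left (w y) 2) m0.le
    rcases hk with k | k <;> rw [k] <;> linarith only [t1, t2, t3]
  · rw [hξ]; linarith only [F1]
  · rw [hξ]; linarith only [F2]

end Pool.Agent.Lib.MP_43bc59_co
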