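import Pool.Agent.Lib.MP_43bc59_co.F_S3
import Pool.Agent.Lib.MP_43bc59_co.M_K

set_option autoImplicit false
set_option linter.unusedVariables false

namespace Pool.Agent.Lib.MP_43bc59_co.ZS

open F_SC hiding HS

variable {ι : Type} [Fintype ι] [DecidableEq ι] {a θ : ℝ} {w g A Φ : ι → ℝ} {c G : ι → ι → ℝ}
  {x y : ι} {b o e h ω z W d al gp p w' W' z' b' : ℝ}

/-- plain certificate with gain `2 b ^ 2` -/
lemma case0 (H : Hyp a θ w g A Φ c G) (S : HS a θ w g x y e W h w' W' p d al z b z' b' gp o)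
    (P : Pt θ b o e h ω z a W) (sE : 0 ≤ h - e) (sB : 0 ≤ θ * h + (1 - θ) - a)
    (sA : 0 ≤ 14 * θ - 1 - 10 * a) (Rb : 0 ≤ θ * (h - b) - a * (a - (1 - θ)))
    (II : 2 ≤ w' ∨ θ * b ≤ θ * ((1 - a) * h) + a * b')
    (hc : 0 ≤ 1 - θ - a ∨ 0 ≤ 20 * (θ * (gp * b + a * e)) - 23 * (θ * b)) :
    Goal a θ w g Φ c G := by
  obtain ⟨th, z0, z1, a0⟩ := facts P
  have hg := S.hg
  obtain rfl := S.hp
  have sb : 0 ≤ 17 - 30 * θ - 30 * b := hc.elim (wsb2 P) (wsb3 P (rho_eq hg))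
  have b1 : b ≤ 11 / 100 := by linarith [P.t0]
  rcases le_total h (7 / 25) with hu | hl
  · obtain ⟨ξ, hX⟩ : ∃ ξ, 20 * ξ = 40 * θ + 32 * b + 13 * o - 30 * h - 10 :=
      ⟨(40 * θ + 32 * b + 13 * o - 30 * h - 10) / 20, by ring⟩
    obtain ⟨μ, hM⟩ : ∃ μ, 20 * μ = h * (132 * θ + 90 * b - 45 * h - 32 * o - 39) :=
      ⟨h * (132 * θ + 90 * b - 45 * h - 32 * o - 39) / 20, by ring⟩
    refine H.S0 S (cbL P S.hd S.hal S.bd hX hM hu sE sA Rb sb) (4 / 3) (2 * b ^ 2)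
      (Or.inl ⟨le_rfl, II⟩) ?_
    rcases hc with k | k
    · exact fin2 (c := 72000) (by norm_num) th hg P.b0 k (wf0 P k)
        (wL2 P hM hX (by simp only [E0, Cc]; ring) b1 hu k)
    · exact pos_of (72000 * θ ^ 2) (by positivity)
        (wL3 P hM hX (En := 72000 * (E0 θ a e W h (1 - e - a) z b ξ μ (4 / 3) - 0 * h))
          (by simp only [E0, Cc]; ring) (tc_eq hg) (rho_eq hg) b1 hu k sB Rb sE) (by ring)
  · obtain ⟨μ, hM⟩ : ∃ μ, 50 * μ = 42 * θ + 31 * h + 6 * b - 31 * o - 15 :=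
      ⟨(42 * θ + 31 * h + 6 * b - 31 * o - 15) / 50, by ring⟩
    refine H.S0 S (cbH P S.hd S.bd hM hl sb) (8 / 5) (2 * b ^ 2) (Or.inl ⟨le_rfl, II⟩) ?_
    rcases hc with k | k
    · exact fin2 (c := 62500) (by norm_num) th hg P.b0 k (wf0 P k)
        (wH2 P hM (by simp only [E0, Cc]; ring) b1 hl k)
    · exact pos_of (62500 * θ ^ 2) (by positivity)
        (wH3 P hM (En := 62500 * (E0 θ a e W h (1 - e - a) z b 0 μ (8 / 5) - 0 * h))
          (by simp only [E0, Cc]; ring) (tc_eq hg) (rho_eq hg) b1 hl k sA) (by ring)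

/-- plain certificate, lower pivot close to the mean -/
lemma case7 (H : Hyp a θ w g A Φ c G) (S : HS a θ w g x y e W h w' W' p d al z b z' b' gp o)
    (P : Pt θ b o e h ω z a W) (rA : 0 ≤ 107 - 200 * a) (hA2 : 0 ≤ 100 * h + 63 - 200 * θ) :
    Goal a θ w g Φ c G := by
  obtain ⟨th, z0, z1, a0⟩ := facts P
  have hg := S.hg
  obtain rfl := S.hp
  have sb := wsb7 P rA
  have b1 : b ≤ 11 / 100 := by linarith [P.t0]
  have hl : 7 / 25 ≤ h := by linarith [P.t0]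
  obtain ⟨μ, hM⟩ : ∃ μ, 50 * μ = 42 * θ + 31 * h + 6 * b - 31 * o - 15 :=
    ⟨(42 * θ + 31 * h + 6 * b - 31 * o - 15) / 50, by ring⟩
  refine H.S0 S (cbH P S.hd S.bd hM hl sb) (8 / 5)
    ((3 - 18 * (1 - 2 * θ) + 90 * ((1 - 2 * θ) * (1 - 2 * θ))) * b ^ 2) (Or.inr ?_) ?_
  · refine le_of θ th (mul_nonneg (wLq P rA hA2) (sq_nonneg b)) ?_
    rw [S.hd]
    linear_combination (-b ^ 2) * S.hal
  · exact pos_of (62500 * θ ^ 2) (by positivity)
      (wH7 P hM (En := 62500 * (E0 θ a e W h (1 - e - a) z b 0 μ (8 / 5) - 0 * h))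
        (by simp only [E0, Cc]; ring) (tc_eq hg) (rho_eq hg) b1 hl) (by ring)

/-- certificate A -/
lemma caseA (H : Hyp a θ w g A Φ c G) (S : HS a θ w g x y e W h w' W' p d al z b z' b' gp o)
    (P : Pt θ b o e h ω z a W) (b0 : 0 < b) (sB : 0 ≤ θ * h + (1 - θ) - a)
    (sA : 0 ≤ 14 * θ - 1 - 10 * a) (psi : 0 ≤ a - (1 - θ))
    (small : 0 ≤ 23 * (θ * b) - 20 * (θ * (gp * b + a * e)))
    (regA : 0 ≤ 10 * ((1 - a) * h) - b * (10 + 7 * ((1 - θ) * z)))
    (hA : 0 ≤ 200 * θ - 63 - 100 * h)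
    (hull : 0 ≤ 506 - 500 * h - 500 * (1 - 2 * θ) - 600 * a) : Goal a θ w g Φ c G := by
  obtain ⟨th, z0, z1, a0⟩ := facts P
  have hg := S.hg
  obtain rfl := S.hp
  have hu : h ≤ 37 / 100 := by linarith [P.t1]
  obtain ⟨ξ, hX⟩ : ∃ ξ, 20 * ξ = 40 * θ - 18 * h - 13 := ⟨(40 * θ - 18 * h - 13) / 20, by ring⟩
  obtain ⟨μ, hM⟩ : ∃ μ, μ = h * (2 * θ - h) := ⟨_, rfl⟩
  refine H.S2A S (cbA P S.hd S.hal hg hX hM sA psi small regA hA hull)
    (c2 P S.hd S.hal hg b0 le_rfl sA psi small hu) (4 / 3) (Or.inr (by linarith)) ?_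
  exact pos_of (25 * 4500 * θ) (by positivity)
    (wA4 P hM hX
      (En := 4500 * (E0 θ a e W h (1 - e - a) z b ξ μ (4 / 3) - 2 * θ * (16 / 25) * b * h))
      (by simp only [E0, Cc]; ring) (tc_eq hg) (rho_eq hg) hu small regA sB) (by ring)

/-- the lower pivot leaves at most the room `θ h + 1 - θ - a` -/
lemma b'_le (H : Hyp a θ w g A Φ c G) (S : HS a θ w g x y e W h w' W' p d al z b z' b' gp o)
    (Hd : (1 - a) * h ≤ d) : b' ≤ θ * h + (1 - θ) - a := by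
  obtain ⟨-, -, W1, -⟩ := S.facts H
  have f : 1 - h ≤ z' := by
    refine le_of a H.a0 (mul_nonneg (sub_nonneg.2 W1) (sub_nonneg.2 Hd)) ?_
    have := S.hz'
    rw [S.hd] at this ⊢
    linear_combination -this
  have := mul_le_mul_of_nonneg_left f H.th0.le
  linarith [S.hb']

/-- certificate 1 -/
lemma caseI (H : Hyp a θ w g A Φ c G) (S : HS a θ w g x y e W h w' W' p d al z b z' b' gp o)
    (P : Pt θ b o e h ω z a W) (sE : 0 ≤ h - e) (sB : 0 ≤ θ * h + (1 - θ) - a)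
    (sA : 0 ≤ 14 * θ - 1 - 10 * a) (θa : θ ≤ a) (w2 : w' ≤ 2) (bb : b' ≤ b - (1 - a) * h)
    (reg : 0 ≤ 107 - 200 * a ∨ 0 ≤ 73 - 200 * (1 - 2 * θ) - 100 * a - 50 * h) :
    Goal a θ w g Φ c G := by
  obtain ⟨th, z0, z1, a0⟩ := facts P
  obtain ⟨-, w1, -, -, -, e0, -, h0, d0, b0, b0', -, r0, -⟩ := S.facts H
  have ⟨t0, t1, b2, e1⟩ : _ ∧ _ ∧ _ ∧ _ := ⟨P.t0, P.t1, P.b2, P.e1⟩
  have hg := S.hg
  obtain rfl := S.hp
  have Hb : 0 ≤ b - (1 - a) * h := by linarith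
  have Hd : (1 - a) * h ≤ d := by linarith [S.bd]
  have bl := b'_le H S Hd
  have hu : h ≤ 3 / 10 := by linarith [whI P Hb sA]
  have hz' : z' * a = w' * (a - h) + (2 - w') * ((1 - a) * h) := by
    have := S.hz'
    rw [S.hW', min_eq_left w2, S.hd] at this
    linear_combination this
  obtain ⟨ξ, hX⟩ : ∃ ξ, 4 * ξ = 5 - 6 * h - 6 * θ := ⟨(5 - 6 * h - 6 * θ) / 4, by ring⟩
  obtain ⟨μ, hM⟩ : ∃ μ, 10 * μ = h * (120 * θ - 7 * h - 28 * b - 9 * o - 47) :=
    ⟨h * (120 * θ - 7 * h - 28 * b - 9 * o - 47) / 10, by ring⟩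
  obtain ⟨r, hR⟩ : ∃ r, 10 * r = 5 * ((7 - 4 * a - 6 * θ) * b) + 6 * e :=
    ⟨(5 * ((7 - 4 * a - 6 * θ) * b) + 6 * e) / 10, by ring⟩
  obtain ⟨n, hN⟩ : ∃ n, 200 * n = 10 * r * (3 + 30 * h + 20 * a + 20 * θ - 6 * (10 * r)) :=
    ⟨10 * r * (3 + 30 * h + 20 * a + 20 * θ - 6 * (10 * r)) / 200, by ring⟩
  have C := cbI P S.hd S.hal hX hM hR hN sE sB sA Hb reg
  have r1 : gp * b + a * e ≤ r := by
    refine le_of (10 * θ) (by linarith) (add_nonneg
      (mul_nonneg (mul_nonneg (show 0 ≤ 1 - 2 * θ by linarith)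
        (show 0 ≤ 10 * a + 15 * θ - 10 by linarith)) b0)
      (mul_nonneg (mul_nonneg th.le e0) (show 0 ≤ 6 - 10 * a by linarith))) ?_
    linear_combination (-θ) * hR + 10 * b * hg
  have r7 := wr1 P hR
  have Γ0 : 0 ≤ 7 - 4 * a - 6 * θ := by linarith
  have s0 : 0 ≤ a * (1 - a) - θ * (w' * (a - h) + (2 - w') * ((1 - a) * h)) := by
    rw [← hz']
    have := mul_nonneg H.a0.le b0'
    rw [S.hb'] at this
    linarith
  have bu : b ≤ a - θ + 3 / 200 := by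
    have := mul_le_mul_of_nonneg_left z0 th.le
    linarith [P.ha]
  have q1 := NQ θ a h r w' (by linarith) (by linarith) (by linarith) (by linarith) (by linarith)
    (by linarith) (by linarith) (by linarith) w1 w2
  have q2 := N1 θ a h r w' (by linarith) (by linarith) (by linarith) (by linarith) (by linarith)
    (by linarith) (by linarith) (by linarith) w1 w2 s0 (by linarith [mul_nonneg Γ0 Hb])
    (by linarith [mul_nonneg Γ0 (sub_nonneg.2 bu)])
  rw [← hz'] at q1 q2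
  have r2 : r ≤ θ * ((1 - θ) * z' + r) := le_of a H.a0 q1 (by ring)
  have r3 : r * (2 * θ * ((1 - θ) * z' + r) - r) * (w' - (2 - w') * (1 - a - r))
      ≤ n * w' * ((1 - θ) * z' + r) ^ 2 :=
    le_of (20 * a ^ 2) (by positivity) (mul_nonneg (r0.trans r1) q2)
      (by linear_combination (-a ^ 2 * w' * ((1 - θ) * z' + r) ^ 2 / 10) * hN)
  have hE : 720000 * (E0 θ a e W h (1 - e - a) z b ξ μ (4 / 3) - n * h)
      = 200 * (3600 * ((1 - a) * b + a * (1 - a) + θ * θ * (z - h) - 2 * (θ * (1 - θ) * h))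
        + 1600 * ((1 - θ) * (1 - θ) * h * h * (6 - 4 * (z - h)))
        + 9 * (W * (400 * (1 - e - a - a * (1 - a))
          - (4 * (100 * (θ * (2 - θ)) - 20 * ((1 - θ) * (10 * μ)) - 10 * μ * (10 * μ))
            - 4 * ξ * (100 * (θ * θ) - 10 * μ * (10 * μ))) * (1 - e)))) - 3600 * (200 * n * h) := by
    simp only [E0, Cc]; ring
  have m0 : b' ≤ min (θ * h + (1 - θ) - a) (b - (1 - a) * h) := le_min bl bb
  rcases le_total a (1 - θ) with k | k
  · have npsi : 0 ≤ 1 - θ - a := by linarith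
    refine H.S1 S C (4 / 3) r (5 / 3 * (1 - θ - a) * (2 * b + e) ^ 2) _ w2 θa (by linarith) Hd bb
      r1 r2 r3 (by positivity) ?_ m0 (fin11 th hg H.a0.le H.a1.le b0 e0 h0 npsi (min_le_left _ _)
        (min_le_right _ _) (min_le_right _ _) (wf2 P hu npsi)
        (pos_of 720000 (by norm_num) (wI1 P hM hX hR hN hE hu npsi) (by ring)))
    have g1 : gp ≤ 6 / 5 := le_of θ th (show 0 ≤ 6 / 5 * θ - (1 - a) by linarith) (by linarith)
    have g2 : gp * b + a * e ≤ 3 / 5 * (2 * b + e) := by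
      linarith [mul_nonneg (sub_nonneg.2 g1) b0, mul_nonneg (show 0 ≤ 3 / 5 - a by linarith) e0]
    have g3 := mul_le_mul_of_nonneg_left (pow_le_pow_left₀ r0 g2 2) npsi
    have g4 : 27 / 125 ≤ θ * a := by
      have := mul_le_mul t0 (t0.trans θa) (by norm_num) th.le
      linarith
    linarith [mul_nonneg (mul_nonneg npsi (sq_nonneg (2 * b + e))) (sub_nonneg.2 g4)]
  · have psi : 0 ≤ a - (1 - θ) := by linarith
    have Y1 : (1 - θ - a) * (gp * b + a * e) ^ 2 ≤ 0 * θ * a := by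
      linarith [mul_nonneg psi (sq_nonneg (gp * b + a * e))]
    rcases wI0 P hM hX hR hN hE (tc_eq hg) (rho_eq hg) hu sA with q | q | q
    · exact H.S1 S C (4 / 3) r 0 _ w2 θa (by linarith) Hd bb r1 r2 r3 le_rfl Y1 m0
        (fin10 th hg H.a0.le H.a1.le b0 e0 h0 psi (b0'.trans m0) (min_le_left _ _)
          (min_le_right _ _) (min_le_left _ _) (pos_of 720000 (by norm_num) q (by ring)))
    · exact H.S1 S C (4 / 3) r 0 _ w2 θa (by linarith) Hd bb r1 r2 r3 le_rfl Y1 bb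
        (pos_of (720000 * θ) (by positivity) q (by ring))
    · exact H.S1 S C (4 / 3) r 0 _ w2 θa (by linarith) Hd bb r1 r2 r3 le_rfl Y1 bl
        (pos_of (720000 * θ) (by positivity) q (by ring))

/-- certificate B -/
lemma caseB (H : Hyp a θ w g A Φ c G) (S : HS a θ w g x y e W h w' W' p d al z b z' b' gp o)
    (P : Pt θ b o e h ω z a W) (b0 : 0 < b) (sE : 0 ≤ h - e) (sB : 0 ≤ θ * h + (1 - θ) - a)
    (sA : 0 ≤ 14 * θ - 1 - 10 * a) (psi : 0 ≤ a - (1 - θ))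
    (small : 0 ≤ 23 * (θ * b) - 20 * (θ * (gp * b + a * e)))
    (regC : 0 ≤ b * (10 + 7 * ((1 - θ) * z)) - 10 * ((1 - a) * h))
    (Rb : 0 ≤ θ * (h - b) - a * (a - (1 - θ)))
    (II : 2 < w' ∨ b - (1 - a) * h ≤ b')
    (reg : 0 ≤ 107 - 200 * a ∨ 0 ≤ 73 - 200 * (1 - 2 * θ) - 100 * a - 50 * h) :
    Goal a θ w g Φ c G := by
  obtain ⟨th, z0, z1, a0⟩ := facts P
  obtain ⟨-, w1, -, -, -, e0, -, h0, d0, -, b0', wd, r0, -⟩ := S.facts H
  have ⟨t0, t1, b2, e1⟩ : _ ∧ _ ∧ _ ∧ _ := ⟨P.t0, P.t1, P.b2, P.e1⟩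
  have hg := S.hg
  have hal := S.hal
  have hd := S.hd
  obtain rfl := S.hp
  have h4 : 0 ≤ 4 - 13 * h := reg.elim (whBa P regC) (whBb P regC)
  have hu : h ≤ 31 / 100 := by linarith
  have Hd : (1 - a) * h ≤ d := by linarith [wrd P (by linarith)]
  have bl := b'_le H S Hd
  obtain ⟨ξ, hX⟩ : ∃ ξ, 20 * ξ = 23 + 29 * o - 30 * θ - 26 * h :=
    ⟨(23 + 29 * o - 30 * θ - 26 * h) / 20, by ring⟩
  obtain ⟨μ, hM⟩ : ∃ μ, 10 * μ = h * (20 * θ + 3 - 12 * h - 19 * b - 10 * o) :=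
    ⟨h * (20 * θ + 3 - 12 * h - 19 * b - 10 * o) / 10, by ring⟩
  obtain ⟨r, hR⟩ : ∃ r, 5 * r = 5 * ((3 - 2 * a - 2 * θ) * b) + 3 * e :=
    ⟨(5 * ((3 - 2 * a - 2 * θ) * b) + 3 * e) / 5, by ring⟩
  obtain ⟨n, hN⟩ : ∃ n, 100 * n = 5 * r * (28 * h + 30 * a + 30 * θ - 1 - 18 * (5 * r)) :=
    ⟨5 * r * (28 * h + 30 * a + 30 * θ - 1 - 18 * (5 * r)) / 100, by ring⟩
  have C := cbB P hd hal hg hX hM hR hN h4 sE sA psi small regC Rb reg
  have D := c2 (n := n) P hd hal hg b0 (by linarith [wnB P hR hN hu]) sA psi small (by linarith)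
  have hE : 1800000 * (E0 θ a e W h (1 - e - a) z b ξ μ (4 / 3) - n * h)
      = 100 * (18000 * ((1 - a) * b + a * (1 - a) + θ * θ * (z - h) - 2 * (θ * (1 - θ) * h))
        + 8000 * ((1 - θ) * (1 - θ) * h * h * (6 - 4 * (z - h)))
        + 9 * (W * (2000 * (1 - e - a - a * (1 - a))
          - (20 * (100 * (θ * (2 - θ)) - 20 * ((1 - θ) * (10 * μ)) - 10 * μ * (10 * μ))
            - 20 * ξ * (100 * (θ * θ) - 10 * μ * (10 * μ))) * (1 - e)))) - 18000 * (100 * n * h) := by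
    simp only [E0, Cc]; ring
  have k2 : 0 ≤ 1 - 2 * θ := by linarith
  have tz : 16 / 33 ≤ (1 - θ) * z := by
    have := mul_le_mul (show 1 / 2 ≤ 1 - θ by linarith) z0 (by norm_num) (by linarith)
    linarith
  have F5 : b ≤ (1 - a) * h → 0 ≤ Core θ a e W h (1 - e - a) z b gp o ξ μ (4 / 3) n + 2 * b ^ 2
      - e * (16 / 25 * b) * (2 * b + 2 * θ * a) - 3 / 2 * (1 - 2 * θ) * b * (gp * b + a * e) := by
    intro k
    rcases wB5 P hM hX hR hN hE (tc_eq hg) (rho_eq hg) hu sB with q | q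
    · refine pos_of (50 * 1800000 * θ) (by positivity) (add_nonneg q (mul_nonneg
        (show (0 : ℝ) ≤ 90000000 by norm_num) (mul_nonneg (mul_nonneg (mul_nonneg th.le
          (show 0 ≤ 1 - θ by linarith)) P.o0) (sub_nonneg.2 k)))) (by ring)
    · exact pos_of (50 * 1800000 * θ) (by positivity) q (by ring)
  have hw : b - (1 - a) * h < 0 ∨ w' ≤ 2 := by
    rcases lt_or_ge (b - (1 - a) * h) 0 with k | k
    · exact Or.inl k
    · refine Or.inr (le_of (d * θ) (by positivity) (add_nonneg (ww2 P k)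
        (mul_nonneg th.le (sub_nonneg.2 wd))) ?_)
      rw [hd]
      linear_combination hal
  rcases lt_or_ge 2 w' with w2 | w2
  · have k : b ≤ (1 - a) * h := by
      rcases hw with k | k <;> linarith
    refine H.S2A S C D (4 / 3) (Or.inl w2.le) ?_
    linarith [F5 k, mul_nonneg (mul_nonneg k2 b0.le) r0]
  have hz' : z' * a = w' * (a - h) + (2 - w') * ((1 - a) * h) := by
    have := S.hz'
    rw [S.hW', min_eq_left w2, hd] at this
    linear_combination this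
  have R0 : 0 ≤ al - d - b := pos_of θ th Rb (by rw [hd]; linear_combination -hal)
  have II' : b - (1 - a) * h ≤ b' := II.resolve_left (not_lt.2 w2)
  have bM : θ * b ≤ θ * ((1 - a) * h) + a * b' := by
    linarith [mul_le_mul_of_nonneg_left II' th.le,
      mul_nonneg (show 0 ≤ a - θ by linarith) b0']
  have r1 : gp * b + a * e ≤ r := by
    refine le_of (5 * θ) (by linarith) (add_nonneg
      (mul_nonneg (mul_nonneg k2 (show 0 ≤ 5 * (a - (1 - θ)) by linarith)) b0.le)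
      (mul_nonneg (mul_nonneg th.le e0) (show 0 ≤ 3 - 5 * a by linarith))) ?_
    linear_combination (-θ) * hR + 5 * b * hg
  have r7 := wr2 P hR
  have Γ0 : 0 ≤ 3 - 2 * a - 2 * θ := by linarith
  have s0 : 0 ≤ a * (1 - a) - θ * (w' * (a - h) + (2 - w') * ((1 - a) * h)) := by
    rw [← hz']
    have := mul_nonneg H.a0.le b0'
    rw [S.hb'] at this
    linarith
  have bu : b ≤ a - θ + 3 / 200 := by
    have := mul_le_mul_of_nonneg_left z0 th.le
    linarith [P.ha]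
  have bh : b ≤ h := le_of θ th (add_nonneg Rb (mul_nonneg H.a0.le psi)) (by ring)
  have s2 : 0 ≤ r * (10 * θ + 7 * ((1 - θ) * a))
      - 10 * (θ * (3 - 2 * a - 2 * θ) * ((1 - a) * h)) := by
    have f1 := mul_nonneg (mul_nonneg th.le Γ0) regC
    have f2 := mul_nonneg (mul_nonneg (mul_nonneg Γ0 b0.le) (show 0 ≤ 1 - θ by linarith)) b0.le
    have f3 := mul_nonneg (show 0 ≤ r - (3 - 2 * a - 2 * θ) * b by linarith)
      (show 0 ≤ 10 * θ + 7 * ((1 - θ) * a) from add_nonneg (by linarith)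
        (mul_nonneg (by norm_num) (mul_nonneg (by linarith) H.a0.le)))
    refine pos_of 1 one_pos (add_nonneg (add_nonneg f1 (mul_nonneg (show (0 : ℝ) ≤ 7 by norm_num)
      f2)) f3) ?_
    linear_combination (-7 * (3 - 2 * a - 2 * θ) * b * (1 - θ)) * P.ha
  have q1 := NQ θ a h r w' (by linarith) (by linarith) (by linarith) (by linarith) (by linarith)
    (by linarith) (by linarith) (by linarith) w1 w2
  have q2 := N2 θ a h r w' (by linarith) (by linarith) (by linarith) (by linarith) (by linarith)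
    (by linarith) (by linarith) (by linarith) w1 w2 s0 sA s2
    (by linarith [mul_nonneg Γ0 (sub_nonneg.2 bu)]) (by linarith [mul_nonneg psi b0.le])
  rw [← hz'] at q1 q2
  have r2 : r ≤ θ * ((1 - θ) * z' + r) := le_of a H.a0 q1 (by ring)
  have r3 : r * (2 * θ * ((1 - θ) * z' + r) - r) * (w' - (2 - w') * (1 - a - r))
      + 2 * θ * (11 / 20) * r * (2 - w') * (1 - a) * ((1 - θ) * z' + r) ^ 2
      ≤ n * w' * ((1 - θ) * z' + r) ^ 2 :=
    le_of (20 * a ^ 2) (by positivity) (mul_nonneg (r0.trans r1) q2)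
      (by linear_combination (-a ^ 2 * w' * ((1 - θ) * z' + r) ^ 2 / 5) * hN)
  have ka : 16 / 25 * a * (2 * θ + 1) ≤ 2 * θ := by
    linarith [mul_nonneg (show 0 ≤ 3 / 5 - a by linarith) (show 0 ≤ 2 * θ + 1 by linarith)]
  have kk : (11 / 20 : ℝ) ^ 2 * (2 * (gp * b + a * e) + al) ≤ 1 :=
    le_of (400 * θ) (by linarith) (wkc P (rho_eq hg)) (by linear_combination 121 * hal)
  have kQ : 11 / 20 * ((1 - θ) * z' + r) ≤ 1 := by
    have f : z' ≤ 1 := le_of θ th (add_nonneg b0' psi) (by linarith [S.hb'])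
    linarith [mul_nonneg (show 0 ≤ 1 - θ by linarith) (sub_nonneg.2 f)]
  rcases le_total b ((1 - a) * h) with k | k
  · refine H.S2B S C D (4 / 3) r (3 / 2 * (1 - 2 * θ) * b) (16 / 25 * b) w2 Hd bM ka kk r1 r2 kQ r3
      (by positivity) (fun X X0 X1 X2 => ?_) (Or.inl le_rfl) (F5 k)
    have f1 : 2 * X ≤ 3 / 2 * (b * ((1 - θ) * z)) := by
      refine le_of (1 - 16 / 25 * b) (by linarith) (add_nonneg (mul_nonneg two_pos.le
        (sub_nonneg.2 X2)) (mul_nonneg (mul_nonneg b0.le (show 0 ≤ (1 - θ) * z by linarith))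
        (show 0 ≤ 11 / 50 - 24 / 25 * b by linarith))) (by ring)
    linarith [mul_nonneg (mul_nonneg k2 H.a0.le) (sub_nonneg.2 f1),
      mul_nonneg (mul_nonneg (sub_nonneg.2 k) th.le) (show 0 ≤ (1 - θ) * z by linarith)]
  have Hb : 0 ≤ b - (1 - a) * h := by linarith
  have y0 : 0 ≤ θ * h + (1 - θ) - a - (b - (1 - a) * h) := by linarith
  have η0 : 0 ≤ 2 * (b - (1 - a) * h) * (1 - 5 / 3 * (a - θ))
      + 33 / 8 * (1 - 2 * θ) * (al - d - b) :=
    add_nonneg (mul_nonneg (by linarith) (by linarith)) (mul_nonneg (by linarith) R0)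
  have f0 : 0 ≤ (al - d - b) * (33 / 16 * ((1 - θ) * z) - 1) := mul_nonneg R0 (by linarith)
  have hη : ∀ X, 0 ≤ X → X ≤ al - d - b → X * (1 - 16 / 25 * b) ≤ 16 / 25 * b * (1 - θ) * z →
      2 * (b - (1 - a) * h) * θ * (1 - θ) * z + 2 * (1 - 2 * θ) * X * a
        ≤ (2 * (b - (1 - a) * h) * (1 - 5 / 3 * (a - θ)) + 33 / 8 * (1 - 2 * θ) * (al - d - b))
          * a * (1 - θ) * z := fun X X0 X1 _ => by
    linarith [mul_nonneg (mul_nonneg k2 H.a0.le) (add_nonneg f0 (sub_nonneg.2 X1)),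
      mul_nonneg (mul_nonneg Hb (show 0 ≤ (1 - θ) * z by linarith))
        (mul_nonneg (show 0 ≤ a - θ by linarith) (show 0 ≤ 1 - 5 / 3 * a by linarith))]
  have hRb : θ * (h - b) - a * (a - (1 - θ)) = θ * (al - d - b) := by
    rw [hd]; linear_combination -hal
  rcases wB6 P hM hX hR hN hE (tc_eq hg) (rho_eq hg) hu y0 Hb small sE with q | q | q
  · exact H.S2B S C D (4 / 3) r _ (16 / 25 * b) w2 Hd bM ka kk r1 r2 kQ r3 η0 hη (Or.inl le_rfl)
      (fin6 P (by norm_num) hd hal hg sA psi Hb y0 q)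
  · rw [hRb] at q
    exact H.S2B S C D (4 / 3) r _ (16 / 25 * b) w2 Hd bM ka kk r1 r2 kQ r3 η0 hη (Or.inl le_rfl)
      (pos_of (600 * 1800000 * θ ^ 2) (by positivity) q (by ring))
  · rw [hRb] at q
    exact H.S2B S C D (4 / 3) r _ (33 / 16 * (al - d - b)) w2 Hd bM ka kk r1 r2 kQ r3 η0 hη
      (Or.inr (by linarith)) (pos_of (600 * 1800000 * θ ^ 2) (by positivity) q (by ring))

/-- the case tree -/
lemma tree (H : Hyp a θ w g A Φ c G) (S : HS a θ w g x y e W h w' W' p d al z b z' b' gp o)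
    (P : Pt θ b o e h ω z a W) (sE : 0 ≤ h - e) (sA : 0 ≤ 14 * θ - 1 - 10 * a)
    (reg : a ≤ 107 / 200 ∨ (h ≤ 17 / 50 - 8 * (1 / 2 - θ) ∧ h ≤ 73 / 50 - 8 * (1 / 2 - θ) - 2 * a)) :
    Goal a θ w g Φ c G := by
  obtain ⟨th, z0, z1, a0⟩ := facts P
  obtain ⟨-, w1, -, -, -, e0, -, h0, d0, b0, b0', wd, r0, -, HR, -⟩ := S.facts H
  have ⟨t0, t1⟩ : _ ∧ _ := ⟨P.t0, P.t1⟩
  have sB : 0 ≤ θ * h + (1 - θ) - a := by
    have := H.pd y
    rw [← S.hh] at this
    linarith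
  have reg' : 0 ≤ 107 - 200 * a ∨ 0 ≤ 73 - 200 * (1 - 2 * θ) - 100 * a - 50 * h :=
    reg.imp (fun k => by linarith) (fun k => by linarith [k.2])
  have θa : (1 - a) * h ≤ b → θ ≤ a := fun k => by
    by_contra j
    have f1 := mul_le_mul_of_nonneg_right (show θ ≤ 1 - a by linarith) h0
    have f2 := mul_nonneg th.le sE
    have f3 := mul_nonneg th.le P.o0
    have f4 := P.ha
    rw [P.hz] at f4
    linarith
  by_cases hI : w' ≤ 2 ∧ b' ≤ b - (1 - a) * h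
  · exact caseI H S P sE sB sA (θa (by linarith [hI.2])) hI.1 hI.2 reg'
  have II : 2 < w' ∨ b - (1 - a) * h ≤ b' := by
    rcases lt_or_ge 2 w' with k | k
    · exact Or.inl k
    · exact Or.inr (not_le.1 (fun j => hI ⟨k, j⟩)).le
  have hRb : θ * (h - b) - a * (a - (1 - θ)) = θ * (al - d - b) := by
    rw [S.hd]; linear_combination -S.hal
  have Rb : 0 ≤ θ * (h - b) - a * (a - (1 - θ)) := by
    rcases le_total b ((1 - a) * h) with k | k
    · rw [hRb]; exact mul_nonneg th.le (by linarith)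
    · rcases II with j | j
      · rw [hRb]
        exact mul_nonneg th.le (by linarith [mul_le_mul_of_nonneg_right j.le d0.le, S.bd])
      · have f1 := b'_le H S (by linarith [S.bd])
        linarith [mul_nonneg H.a0.le (sub_nonneg.2 (j.trans f1)),
          mul_nonneg (sub_nonneg.2 (θa k)) (sub_nonneg.2 k)]
  have II0 : 2 ≤ w' ∨ θ * b ≤ θ * ((1 - a) * h) + a * b' := by
    refine II.imp le_of_lt (fun j => ?_)
    rcases le_total b ((1 - a) * h) with k | k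
    · linarith [mul_le_mul_of_nonneg_left k th.le, mul_nonneg H.a0.le b0']
    · linarith [mul_le_mul_of_nonneg_left j th.le, mul_nonneg (sub_nonneg.2 (θa k)) b0']
  rcases le_total a (1 - θ) with k | k
  · exact case0 H S P sE sB sA Rb II0 (Or.inl (by linarith))
  rcases le_or_gt (23 * (θ * b)) (20 * (θ * (gp * b + a * e))) with j | j
  · exact case0 H S P sE sB sA Rb II0 (Or.inr (by linarith))
  have b1 : 0 < b := by
    refine lt_of_le_of_ne b0 (fun i => ?_)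
    have := mul_nonneg th.le r0
    rw [← i] at j this
    linarith
  rcases le_total (200 * θ - 63) (100 * h) with i | i
  · exact case7 H S P (by rcases reg with l | l <;> linarith [l]) (by linarith)
  rcases le_total (b * (10 + 7 * ((1 - θ) * z))) (10 * ((1 - a) * h)) with l | l
  · exact caseA H S P b1 sB sA (by linarith) (by linarith) (by linarith) (by linarith)
      (by rcases reg with m | ⟨m, m'⟩ <;> linarith)
  · exact caseB H S P b1 sE sB sA (by linarith) (by linarith) (by linarith) Rb II reg'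

/-- the strip zone: the upper extreme letter is within `3 / 100` of the top -/
theorem zoneS (H : Hyp a θ w g A Φ c G) (x y : ι) (hx : a < g x) (hy : g y < a)
    (ymin : ∀ j, g y ≤ g j) (xmax : ∀ j, g j ≤ g x) (t0 : 93 / 200 ≤ θ) (e1 : 1 - g x ≤ 3 / 100)
    (eh : 1 - g x ≤ g y) (sA : a ≤ 3 / 5 - 7 / 5 * (1 / 2 - θ))
    (reg : a ≤ 107 / 200 ∨
      (g y ≤ 17 / 50 - 8 * (1 / 2 - θ) ∧ g y ≤ 73 / 50 - 8 * (1 / 2 - θ) - 2 * a)) :
    Goal a θ w g Φ c G := by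
  rcases le_or_gt θ (1 - g x + g y) with k | k
  · exact H.narrow hx.le hy.le ymin xmax (by linarith)
  have th := H.th0
  have t1 := H.th1
  have a0 := H.a0
  have a1 : 0 < 1 - a := sub_pos.2 H.a1
  obtain ⟨e, he⟩ : ∃ e, e = 1 - g x := ⟨_, rfl⟩
  obtain ⟨h, hh⟩ : ∃ h, h = g y := ⟨_, rfl⟩
  obtain ⟨W, hW⟩ : ∃ W, W = w x := ⟨_, rfl⟩
  rw [← he] at e1 eh k
  rw [← hh] at eh k reg
  have e0 : 0 ≤ e := by linarith [H.g1 x]
  have h0 : 0 ≤ h := hh ▸ H.g0 y
  have W1 : 1 ≤ W := hW ▸ H.w1 x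
  obtain ⟨al, hal⟩ : ∃ al, θ * al = a * (1 - a) := ⟨a * (1 - a) / θ, mul_div_cancel₀ _ th.ne'⟩
  obtain ⟨gp, hg⟩ : ∃ gp, θ * gp = 1 - a := ⟨(1 - a) / θ, mul_div_cancel₀ _ th.ne'⟩
  obtain ⟨z, hz⟩ : ∃ z, z * (1 - a) = W * (1 - e - a) + (2 - W) * a * e :=
    ⟨_ / (1 - a), div_mul_cancel₀ _ a1.ne'⟩
  obtain ⟨z', hz'⟩ : ∃ z', z' * a = min (w y) 2 * (a - h) + (2 - min (w y) 2) * (1 - a) * h :=
    ⟨_ / a, div_mul_cancel₀ _ a0.ne'⟩
  have W2 : W ≤ 2 := by
    have f1 := H.wp_le x hal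
    rw [← hW, show g x - a = 1 - e - a by linarith] at f1
    have f2 : al ≤ 3 / 5 := by
      refine le_of_mul_le_mul_left ?_ th
      linarith [sq_nonneg (a - 1 / 2)]
    by_contra j
    have := mul_le_mul_of_nonneg_right (not_le.1 j).le (show 0 ≤ 1 - e - a by linarith)
    linarith
  have ae : a * e ≤ 3 / 5 * e := mul_le_mul_of_nonneg_right (by linarith) e0
  have ae0 := mul_nonneg a0.le e0
  have q0 : 0 < 1 - e - a - a * e := by linarith
  obtain ⟨ω, hω⟩ : ∃ ω, ω * (1 - e - a - a * e) = 1 - a := ⟨_ / _, div_mul_cancel₀ _ q0.ne'⟩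
  obtain ⟨o, ho⟩ : ∃ o, z = 1 + o - e := ⟨z - 1 + e, by ring⟩
  have oq : o * (1 - a) = (W - 1) * (1 - e - a - a * e) := by
    rw [ho] at hz; linear_combination hz
  have o0 : 0 ≤ o := pos_of (1 - a) a1 (mul_nonneg (sub_nonneg.2 W1) q0.le) (by linarith)
  obtain ⟨b, hb⟩ : ∃ b, b = a - θ * z := ⟨_, rfl⟩
  have b0 : 0 ≤ b := H.b_nonneg x he hW W2 rfl hz hb
  have tz := mul_le_mul_of_nonneg_left (show 97 / 100 ≤ z by linarith) th.le
  have te := mul_le_mul_of_nonneg_right t1 e0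
  have to' := mul_nonneg th.le o0
  have bz : θ * z = θ + θ * o - θ * e := by rw [ho]; ring
  have P : Pt θ b o e h ω z a W := by
    refine ⟨ho, by linarith, ?_, t0, t1, b0, by linarith, o0, ?_, e0, e1, h0, by linarith, ?_, ?_⟩
    · apply mul_right_cancel₀ q0.ne'
      linear_combination -oq - o * hω
    · refine le_of_mul_le_mul_left ?_ th
      linarith [mul_le_mul_of_nonneg_left e1 th.le]
    · exact le_of_mul_le_mul_right (by linarith) q0
    · exact le_of_mul_le_mul_right (by linarith) q0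
  exact tree H ⟨hx, hy, ymin, xmax, he, hW, W2, hh, rfl, rfl, rfl, rfl, hal, hz, hb, hz', rfl, hg,
    ho, o0, by linarith, by linarith⟩ P (by linarith) (by linarith) reg

end Pool.Agent.Lib.MP_43bc59_co.ZS
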