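import Pool.Agent.Lib.MP_43bc59_co.F_D
import Pool.Agent.Lib.MP_43bc59_co.F_S4
import Pool.Agent.Lib.MP_43bc59_co.F_E

set_option autoImplicit false

namespace Pool.Agent.Lib.MP_43bc59_co

/-- the finite inequality behind the sharp constant -/
theorem st_F : St_F :=
  st_F_of_zones
    (st_R_of_X fun _ _ _ _ _ _ _ _ _ _ _ H x y hx hy ymin xmax k =>
      P18.zone_i H x y hx.le hy.le ymin xmax k.1.1 k.1.2.1 k.1.2.2.1 k.1.2.2.2)
    (st_R_of_X fun _ _ _ _ _ _ _ _ _ _ _ H x y hx hy ymin xmax k =>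
      P18.zone_ii H x y hx.le hy.le ymin xmax k.1.1 k.1.2.1 k.1.2.2)
    (fun _ _ _ _ _ _ _ _ _ _ _ H x y hx hy ymin xmax k =>
      P18.zone_blob H x y hx.le hy.le ymin xmax k)
    (fun _ _ _ _ _ _ _ _ _ _ _ H x y hx hy ymin xmax k =>
      P18.zone_L2 H x y hx.le hy.le ymin xmax k)
    (fun _ _ _ _ _ _ _ _ _ _ _ H x y hx hy ymin xmax ⟨t0, e1, eh, _, _, sA, reg⟩ =>
      ZS.zoneS H x y hx hy ymin xmax t0 e1 eh sA reg)

end Pool.Agent.Lib.MP_43bc59_co
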