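import Pool.Agent.Lib.MP_43bc59_co.F_C

set_option autoImplicit false

namespace Pool.Agent.Lib.MP_43bc59_co

open Finset

variable {ι : Type} [Fintype ι] [DecidableEq ι] {a θ : ℝ} {w g A Φ : ι → ℝ} {c G : ι → ι → ℝ}

namespace P36

/-- denominator of the level function -/
def qf (k t : ℝ) : ℝ := k + (1 - k) * t

/-- with `φ = l t / qf k t` one has `φ (2 - φ) = t * Gf l k t` -/
noncomputable def Gf (l k t : ℝ) : ℝ := l * (2 * qf k t - l * t) / qf k t ^ 2

noncomputable def r1 (t s : ℝ) : ℝ := if t < s then 1 else s / t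

noncomputable def r2 (t s : ℝ) : ℝ := if t < s then t / s else 1

/-- cost per unit of mass at the position `U t` -/
noncomputable def cm (a L k U t : ℝ) : ℝ := U * t + Gf L k t * ((a + U * t) * (1 - a - U * t)) / U

/-- cost per unit of weight on the plateau -/
def cp (a L d : ℝ) : ℝ := d ^ 2 + L * (2 - L) * ((a + d) * (1 - a - d))

/-- extreme configurations of one side -/
def Cfg (b : Bool) (U1 U2 e ξ τ t : ℝ) : Prop :=
  0 ≤ t ∧ t ≤ 1 ∧ ((b = true ∧ e = 1 ∧ τ = U1 ∧ (ξ = U1 ∨ ξ = U2))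
    ∨ (e = 0 ∧ ξ = 0 ∧ τ = U2 ∧ (b = true → t = 1)))

/-- the value of the product certificate at a pair of extreme configurations -/
noncomputable def FF (a θ l k M e ξ τ t e' η τ' s : ℝ) : ℝ :=
  (1 - θ) * M - e * cp a (θ * l) ξ - (M - e * ξ) * cm a (θ * l) k τ t
    - e' * cp (1 - a) (θ * l) η - (M - e' * η) * cm (1 - a) (θ * l) k τ' s
    + θ ^ 2 * (e * e' * (l * (2 - l)) * (ξ + η) + e * (M - e' * η) * Gf l k s * (ξ + τ' * s) / τ'
      + e' * (M - e * ξ) * Gf l k t * (τ * t + η) / τ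
      + (M - e * ξ) * (M - e' * η) * Gf l k (min t s) * (r1 t s / τ + r2 t s / τ'))

lemma qf_pos {k t : ℝ} (k0 : 0 < k) (t0 : 0 ≤ t) (t1 : t ≤ 1) : 0 < qf k t := by
  unfold qf
  rcases t1.eq_or_lt with h | h
  · rw [h]; linarith
  · nlinarith [mul_pos k0 (sub_pos.2 h)]

lemma Gf_one (l k : ℝ) : Gf l k 1 = l * (2 - l) := by
  unfold Gf qf; rw [show k + (1 - k) * 1 = 1 by ring]; ring

lemma Gf_zero (θ l k : ℝ) : Gf (θ * l) k 0 = θ * Gf l k 0 := by
  unfold Gf; ring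

lemma Gf_zero_nonneg {l k : ℝ} (l0 : 0 ≤ l) (k0 : 0 < k) : 0 ≤ Gf l k 0 := by
  unfold Gf qf
  apply div_nonneg _ (sq_nonneg _)
  nlinarith [mul_nonneg l0 k0.le]

lemma r1_mul {t s : ℝ} (s0 : 0 ≤ s) : r1 t s * t = min t s := by
  unfold r1
  split_ifs with h
  · rw [one_mul, min_eq_left h.le]
  · rw [min_eq_right (not_lt.1 h)]
    by_cases h0 : t = 0
    · rw [h0, mul_zero]; rw [h0] at h; linarith [not_lt.1 h]
    · exact div_mul_cancel₀ _ h0

lemma r2_mul {t s : ℝ} (t0 : 0 ≤ t) : r2 t s * s = min t s := by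
  unfold r2
  split_ifs with h
  · rw [min_eq_left h.le]; exact div_mul_cancel₀ _ (by linarith)
  · rw [one_mul, min_eq_right (not_lt.1 h)]

lemma r1_zero_le (s : ℝ) : r1 0 s ≤ 1 := by
  unfold r1
  split_ifs
  · exact le_rfl
  · rw [div_zero]; exact zero_le_one

lemma conc {κ α β U1 U2 d m : ℝ} (κ0 : 0 ≤ κ) (h1 : U1 ≤ d) (h2 : d ≤ U2)
    (m1 : m ≤ -κ * U1 ^ 2 + α * U1 + β) (m2 : m ≤ -κ * U2 ^ 2 + α * U2 + β) :
    m ≤ -κ * d ^ 2 + α * d + β := by
  rcases (h1.trans h2).eq_or_lt with h | h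
  · rw [le_antisymm h2 (h ▸ h1)]; exact m2
  · apply le_of_mul_le_mul_left _ (sub_pos.2 h)
    nlinarith [mul_nonneg (sub_nonneg.2 h2) (sub_nonneg.2 m1),
      mul_nonneg (sub_nonneg.2 h1) (sub_nonneg.2 m2),
      mul_nonneg (mul_nonneg κ0 (sub_pos.2 h).le) (mul_nonneg (sub_nonneg.2 h1) (sub_nonneg.2 h2))]

omit [DecidableEq ι] in
/-- reduction of one side to its extreme configurations -/
lemma side (b : Bool) (w δ val : ι → ℝ) {U1 U2 M : ℝ} (Y : ℝ → ℝ → ℝ) (P : ℝ → ℝ)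
    (hw : ∀ j, 1 ≤ w j) (d0 : ∀ j, 0 ≤ δ j) (d1 : ∀ j, δ j ≤ U2) (hM : ∑ j, w j * δ j ≤ M)
    (U0 : 0 < U1) (U12 : U1 ≤ U2) (hP : ∃ κ α β : ℝ, 0 ≤ κ ∧ ∀ d, P d = -κ * d ^ 2 + α * d + β)
    (lo : ∀ j, δ j < U1 → δ j * Y U1 (δ j / U1) ≤ val j) (pl : ∀ j, U1 ≤ δ j → P (δ j) ≤ val j)
    (Y1 : ∀ U, 0 < U → U * Y U 1 = P U) (Y0 : Y U1 0 ≤ 0)
    (hb : if b = true then ∃ x, U1 ≤ δ x else U1 = U2) :
    ∃ e ξ τ t, Cfg b U1 U2 e ξ τ t ∧ e * P ξ + (M - e * ξ) * Y τ t ≤ ∑ j, w j * val j := by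
  classical
  obtain ⟨κ, α, β, κ0, hP⟩ := hP
  obtain ⟨t, ht, hm⟩ := exists_min_image
    (insert 0 (insert 1 (univ.image (fun j => min (δ j / U1) 1)))) (Y U1) (insert_nonempty _ _)
  have t01 : 0 ≤ t ∧ t ≤ 1 := by
    simp only [mem_insert, mem_image, mem_univ, true_and] at ht
    rcases ht with h | h | ⟨j, h⟩
    · rw [h]; exact ⟨le_rfl, zero_le_one⟩
    · rw [h]; exact ⟨zero_le_one, le_rfl⟩
    · rw [← h]; exact ⟨le_min (div_nonneg (d0 j) U0.le) zero_le_one, min_le_right _ _⟩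
  have m0 := hm 0 (mem_insert_self _ _)
  have m1 := hm 1 (mem_insert_of_mem (mem_insert_self _ _))
  have key : ∀ ψ, ψ ≤ Y U1 t → ψ ≤ Y U2 1 → (∀ j, 0 ≤ val j - δ j * ψ) ∧
      ∑ j, w j * (val j - δ j * ψ) + M * ψ ≤ ∑ j, w j * val j := by
    intro ψ a1 a2
    constructor
    · intro j
      rcases lt_or_ge (δ j) U1 with h | h
      · have a3 := hm (δ j / U1) (mem_insert_of_mem (mem_insert_of_mem (mem_image.2
          ⟨j, mem_univ j, min_eq_left ((div_le_one U0).2 h.le)⟩)))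
        have := mul_le_mul_of_nonneg_left (a1.trans a3) (d0 j)
        linarith [lo j h]
      · have b1 := mul_le_mul_of_nonneg_left (a1.trans m1) U0.le
        have b2 := mul_le_mul_of_nonneg_left a2 (U0.le.trans U12)
        rw [Y1 _ U0, hP] at b1
        rw [Y1 _ (U0.trans_le U12), hP] at b2
        have := conc (α := α - ψ) (β := β) (m := 0) κ0 h (d1 j) (by linarith) (by linarith)
        have b3 := pl j h
        rw [hP] at b3
        linarith
    · have e : ∑ j, w j * (val j - δ j * ψ) = ∑ j, w j * val j - (∑ j, w j * δ j) * ψ := by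
        rw [sum_mul, ← sum_sub_distrib]; exact sum_congr rfl (fun j _ => by ring)
      have := mul_le_mul_of_nonpos_right hM (show ψ ≤ 0 by linarith)
      linarith
  have nn : ∀ ψ, (∀ j, 0 ≤ val j - δ j * ψ) → ∀ j, 0 ≤ w j * (val j - δ j * ψ) :=
    fun ψ h j => mul_nonneg (by linarith [hw j]) (h j)
  split_ifs at hb with hb'
  · rcases le_total (Y U1 t) (Y U2 1) with h | h
    · obtain ⟨k1, k2⟩ := key _ le_rfl h
      obtain ⟨x, hx⟩ := hb
      have s1 := single_le_sum (f := fun j => w j * (val j - δ j * Y U1 t))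
        (fun j _ => nn _ k1 j) (mem_univ x)
      have s2 := mul_le_mul_of_nonneg_right (hw x) (k1 x)
      have s3 := pl x hx
      have := conc (α := α - Y U1 t) (β := β) (m := min (P U1 - U1 * Y U1 t) (P U2 - U2 * Y U1 t))
        κ0 hx (d1 x) ((min_le_left _ _).trans (by rw [hP]; linarith))
        ((min_le_right _ _).trans (by rw [hP]; linarith))
      rw [hP] at s3
      rcases min_choice (P U1 - U1 * Y U1 t) (P U2 - U2 * Y U1 t) with e | e
      · exact ⟨1, U1, U1, t, ⟨t01.1, t01.2, Or.inl ⟨hb', rfl, rfl, Or.inl rfl⟩⟩, by linarith⟩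
      · exact ⟨1, U2, U1, t, ⟨t01.1, t01.2, Or.inl ⟨hb', rfl, rfl, Or.inr rfl⟩⟩, by linarith⟩
    · obtain ⟨k1, k2⟩ := key _ h le_rfl
      have := sum_nonneg (s := univ) (fun j _ => nn _ k1 j)
      exact ⟨0, 0, U2, 1, ⟨zero_le_one, le_rfl, Or.inr ⟨rfl, rfl, rfl, fun _ => rfl⟩⟩, by linarith⟩
  · subst hb
    obtain ⟨k1, k2⟩ := key _ le_rfl m1
    have := sum_nonneg (s := univ) (fun j _ => nn _ k1 j)
    exact ⟨0, 0, U1, t, ⟨t01.1, t01.2, Or.inr ⟨rfl, rfl, rfl, fun h => absurd h hb'⟩⟩, by linarith⟩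

lemma Cfg.pos {b : Bool} {U1 U2 e ξ τ t : ℝ} (h : Cfg b U1 U2 e ξ τ t) (U0 : 0 < U1)
    (U12 : U1 ≤ U2) : 0 < τ := by
  rcases h.2.2 with h | h
  · rw [h.2.2.1]; exact U0
  · rw [h.2.2.1]; linarith

lemma lev_s {θ l k t : ℝ} (h : 0 < qf k t) :
    θ * l * t / qf k t * (2 * θ - θ * l * t / qf k t) = θ ^ 2 * (t * Gf l k t) := by
  unfold Gf; field_simp

lemma lev_c {L k t : ℝ} (h : 0 < qf k t) :
    L * t / qf k t * (2 - L * t / qf k t) = t * Gf L k t := by
  unfold Gf; field_simp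

lemma lev_mono {L k t s : ℝ} (L0 : 0 ≤ L) (k0 : 0 < k) (t0 : 0 ≤ t) (h : t ≤ s) (s1 : s ≤ 1) :
    L * t / qf k t ≤ L * s / qf k s := by
  rw [div_le_div_iff₀ (qf_pos k0 t0 (h.trans s1)) (qf_pos k0 (t0.trans h) s1)]
  unfold qf
  nlinarith [mul_nonneg (mul_nonneg L0 k0.le) (sub_nonneg.2 h)]

/-- the product certificate, written with the two sides separated -/
lemma prod2 (H : Hyp a θ w g A Φ c G) {l k : ℝ} (l0 : 0 ≤ l) (l1 : l ≤ 1) (k0 : 0 < k)
    (p n tp tn : ι → ℝ) (hp : ∀ j, p j = max (g j - a) 0) (hn : ∀ j, n j = max (a - g j) 0)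
    (p0 : ∀ j, 0 ≤ tp j) (p1 : ∀ j, tp j ≤ 1) (n0 : ∀ j, 0 ≤ tn j) (n1 : ∀ j, tn j ≤ 1)
    (p2 : ∀ j, g j ≤ a → tp j = 0) (n2 : ∀ j, a ≤ g j → tn j = 0)
    (h : 0 ≤ (1 - θ) * (a * (1 - a) / θ) + ∑ x, w x * (-p x ^ 2
        - tp x * Gf (θ * l) k (tp x) * ((a + p x) * (1 - a - p x))
        + ∑ y, w y * (θ ^ 2 * (min (tp x) (tn y) * Gf l k (min (tp x) (tn y))) * (p x + n y)))
      + ∑ y, w y * (-n y ^ 2 - tn y * Gf (θ * l) k (tn y) * ((1 - a + n y) * (1 - (1 - a) - n y)))) :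
    Goal a θ w g Φ c G := by
  have t0 := H.th0
  have L0 : 0 ≤ θ * l := mul_nonneg t0.le l0
  obtain ⟨t, ht⟩ : ∃ t : ι → ℝ, ∀ j, t j = if a ≤ g j then tp j else tn j := ⟨_, fun _ => rfl⟩
  have a0 : ∀ j, 0 ≤ t j := fun j => by rw [ht]; split_ifs; exacts [p0 j, n0 j]
  have a1 : ∀ j, t j ≤ 1 := fun j => by rw [ht]; split_ifs; exacts [p1 j, n1 j]
  have a2 : ∀ j, tp j ≤ t j := fun j => by
    rw [ht]; split_ifs with e
    · exact le_rfl
    · rw [p2 j (not_le.1 e).le]; exact n0 j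
  have a3 : ∀ j, tn j ≤ t j := fun j => by
    rw [ht]; split_ifs with e
    · rw [n2 j e]; exact p0 j
    · exact le_rfl
  have top : ∀ s, 0 ≤ s → s ≤ 1 → θ * l * s / qf k s ≤ θ := fun s s0 s1 => by
    have := lev_mono L0 k0 s0 s1 le_rfl
    rw [show qf k 1 = 1 by unfold qf; ring] at this
    nlinarith
  have bot : ∀ s, 0 ≤ s → s ≤ 1 → 0 ≤ θ * l * s / qf k s := fun s s0 s1 =>
    div_nonneg (mul_nonneg L0 s0) (qf_pos k0 s0 s1).le
  have mono : ∀ m s, 0 ≤ m → m ≤ s → s ≤ 1 → θ ^ 2 * (m * Gf l k m)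
      ≤ θ * l * s / qf k s * (2 * θ - θ * l * s / qf k s) := fun m s m0 m1 s1 => by
    rw [← lev_s (qf_pos k0 m0 (m1.trans s1))]
    exact C36.s_mono (lev_mono L0 k0 m0 m1 s1) (top s (m0.trans m1) s1)
  have nz : ∀ x y, θ ^ 2 * (min (tp x) (tn y) * Gf l k (min (tp x) (tn y))) ≠ 0 →
      a < g x ∧ g y < a := fun x y e => by
    constructor
    · by_contra h'
      rw [p2 x (not_lt.1 h'), min_eq_left (n0 y)] at e
      exact e (by ring)
    · by_contra h'
      rw [n2 y (not_lt.1 h'), min_eq_right (p0 x)] at e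
      exact e (by ring)
  have q := H.prod (fun j => a < g j) (fun j => θ * l * t j / qf k (t j))
    (fun j => bot _ (a0 j) (a1 j)) (fun j => top _ (a0 j) (a1 j))
    (fun x y => θ ^ 2 * (min (tp x) (tn y) * Gf l k (min (tp x) (tn y))))
    (fun x y => by
      have m0 : 0 ≤ min (tp x) (tn y) := le_min (p0 x) (n0 y)
      have m1 : min (tp x) (tn y) ≤ 1 := (min_le_left _ _).trans (p1 x)
      rw [← lev_s (qf_pos k0 m0 m1)]
      exact mul_nonneg (bot _ m0 m1) (by linarith [top _ m0 m1]))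
    (fun x y => mono _ _ (le_min (p0 x) (n0 y)) ((min_le_left _ _).trans (a2 x)) (a1 x))
    (fun x y => mono _ _ (le_min (p0 x) (n0 y)) ((min_le_right _ _).trans (a3 y)) (a1 y))
    (fun x y e => ⟨(nz x y e).1, not_lt.2 (nz x y e).2.le, by linarith [(nz x y e).1, (nz x y e).2]⟩)
  have e1 : ∑ x, ∑ y, θ ^ 2 * (min (tp x) (tn y) * Gf l k (min (tp x) (tn y)))
      * (w x * w y * (g x - g y)) = ∑ x, w x * ∑ y, w y * (θ ^ 2 * (min (tp x) (tn y)
        * Gf l k (min (tp x) (tn y))) * (p x + n y)) := by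
    refine sum_congr rfl (fun x _ => ?_)
    rw [mul_sum]
    refine sum_congr rfl (fun y _ => ?_)
    by_cases e : θ ^ 2 * (min (tp x) (tn y) * Gf l k (min (tp x) (tn y))) = 0
    · rw [e]; ring
    · rw [hp, hn, max_eq_left (by linarith [(nz x y e).1]), max_eq_left (by linarith [(nz x y e).2])]
      ring
  have e2 : ∀ j, w j * (g j - a) ^ 2 + w j * (θ * l * t j / qf k (t j)
      * (2 - θ * l * t j / qf k (t j)) * (g j * (1 - g j)))
      + w j * (-p j ^ 2 - tp j * Gf (θ * l) k (tp j) * ((a + p j) * (1 - a - p j)))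
      + w j * (-n j ^ 2 - tn j * Gf (θ * l) k (tn j) * ((1 - a + n j) * (1 - (1 - a) - n j))) = 0 :=
    fun j => by
    rw [lev_c (qf_pos k0 (a0 j) (a1 j)), ht, hp, hn]
    split_ifs with e
    · rw [n2 j e, max_eq_left (by linarith), max_eq_right (by linarith)]; ring
    · have e' := (not_le.1 e).le
      rw [p2 j e', max_eq_right (by linarith), max_eq_left (by linarith)]; ring
  have e3 := sum_congr (s₁ := univ) rfl (fun j _ => e2 j)
  simp only [sum_add_distrib, sum_const_zero] at e3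
  simp only [mul_add (w _), sum_add_distrib] at h
  rw [e1] at q
  unfold Goal
  rw [mul_div_assoc]
  linarith

lemma cp_shape {a L : ℝ} {ι : Type} [Fintype ι] (u v : ι → ℝ) :
    ∃ κ α β : ℝ, 0 ≤ κ ∧ ∀ d, -cp a L d + ∑ y, u y * (d + v y) = -κ * d ^ 2 + α * d + β :=
  ⟨1 - L * (2 - L), -(L * (2 - L) * (1 - 2 * a)) + ∑ y, u y,
    -(L * (2 - L) * (a * (1 - a))) + ∑ y, u y * v y, by nlinarith [sq_nonneg (1 - L)], fun d => by
    simp only [mul_add (u _), sum_add_distrib]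
    rw [← sum_mul]; unfold cp; ring⟩

/-- Product certificate with optional unit atoms on the two plateaus. -/
theorem leaf (H : Hyp a θ w g A Φ c G) {l k U1 U2 D1 D2 : ℝ} (b b' : Bool) (l0 : 0 ≤ l) (l1 : l ≤ 1)
    (k0 : 0 < k) (U0 : 0 < U1) (U12 : U1 ≤ U2) (D0 : 0 < D1) (D12 : D1 ≤ D2)
    (hU : ∀ j, g j - a ≤ U2) (hD : ∀ j, a - g j ≤ D2)
    (hb : if b = true then ∃ x, U1 ≤ g x - a else U1 = U2)
    (hb' : if b' = true then ∃ y, D1 ≤ a - g y else D1 = D2)
    (hF : ∀ e ξ τ t e' η τ' s, Cfg b U1 U2 e ξ τ t → Cfg b' D1 D2 e' η τ' s →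
      0 ≤ FF a θ l k (a * (1 - a) / θ) e ξ τ t e' η τ' s) : Goal a θ w g Φ c G := by
  have t0 := H.th0
  obtain ⟨M, hM⟩ : ∃ M, M = a * (1 - a) / θ := ⟨_, rfl⟩
  have hM' : θ * M = a * (1 - a) := by rw [hM]; exact mul_div_cancel₀ _ t0.ne'
  obtain ⟨p, hp⟩ : ∃ p : ι → ℝ, ∀ j, p j = max (g j - a) 0 := ⟨_, fun _ => rfl⟩
  obtain ⟨n, hn⟩ : ∃ n : ι → ℝ, ∀ j, n j = max (a - g j) 0 := ⟨_, fun _ => rfl⟩
  have p0 : ∀ j, 0 ≤ p j := fun j => by rw [hp]; exact le_max_right _ _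
  have n0 : ∀ j, 0 ≤ n j := fun j => by rw [hn]; exact le_max_right _ _
  have sp : ∑ j, w j * p j ≤ M := by simp only [hp, hM]; exact C36.up_sum H
  have sn : ∑ j, w j * n j ≤ M := by simp only [hn, hM]; exact C36.down_sum H
  obtain ⟨tp, htp⟩ : ∃ tp : ι → ℝ, ∀ j, tp j = min (p j / U1) 1 := ⟨_, fun _ => rfl⟩
  obtain ⟨tn, htn⟩ : ∃ tn : ι → ℝ, ∀ j, tn j = min (n j / D1) 1 := ⟨_, fun _ => rfl⟩
  have tp0 : ∀ j, 0 ≤ tp j := fun j => by
    rw [htp]; exact le_min (div_nonneg (p0 j) U0.le) zero_le_one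
  have tn0 : ∀ j, 0 ≤ tn j := fun j => by
    rw [htn]; exact le_min (div_nonneg (n0 j) D0.le) zero_le_one
  have tp1 : ∀ j, tp j ≤ 1 := fun j => by rw [htp]; exact min_le_right _ _
  have tn1 : ∀ j, tn j ≤ 1 := fun j => by rw [htn]; exact min_le_right _ _
  have G0 := Gf_zero_nonneg l0 k0
  refine prod2 H l0 l1 k0 p n tp tn hp hn tp0 tp1 tn0 tn1
    (fun j h => by rw [htp, hp, max_eq_right (by linarith), zero_div, min_eq_left zero_le_one])
    (fun j h => by rw [htn, hn, max_eq_right (by linarith), zero_div, min_eq_left zero_le_one]) ?_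
  rw [← hM] at hF ⊢
  obtain ⟨e, ξ, τ, t, hc, h1⟩ := side b w p (fun x => -p x ^ 2
      - tp x * Gf (θ * l) k (tp x) * ((a + p x) * (1 - a - p x))
      + ∑ y, w y * (θ ^ 2 * (min (tp x) (tn y) * Gf l k (min (tp x) (tn y))) * (p x + n y)))
    (fun U t => -cm a (θ * l) k U t + ∑ y, w y * (θ ^ 2 * Gf l k (min t (tn y)) * r1 t (tn y)
      * (U * t + n y) / U))
    (fun d => -cp a (θ * l) d + ∑ y, w y * (θ ^ 2 * (tn y * Gf l k (tn y))) * (d + n y))
    H.w1 p0 (fun j => by rw [hp]; exact max_le (hU j) (by linarith)) sp U0 U12 (cp_shape _ _)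
    (fun j h => by
      have e1 : tp j = p j / U1 := by rw [htp, min_eq_left ((div_le_one U0).2 h.le)]
      have e2 : p j = U1 * tp j := by rw [e1]; field_simp
      rw [← e1, mul_add, mul_sum]
      apply le_of_eq
      congr 1
      · unfold cm; rw [e2]; field_simp; ring
      · refine sum_congr rfl (fun y _ => ?_)
        have := r1_mul (t := tp j) (tn0 y)
        generalize min (tp j) (tn y) = m at this ⊢
        rw [e2, ← this]; field_simp)
    (fun j h => by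
      have e1 : tp j = 1 := by rw [htp, min_eq_right ((one_le_div U0).2 h)]
      rw [e1, Gf_one]
      apply le_of_eq
      congr 1
      · unfold cp; ring
      · exact sum_congr rfl (fun y _ => by rw [min_eq_right (tn1 y)]; ring))
    (fun U h => by
      rw [mul_add, mul_sum]
      congr 1
      · unfold cm cp; rw [Gf_one]; field_simp
      · refine sum_congr rfl (fun y _ => ?_)
        rw [min_eq_right (tn1 y), r1, if_neg (not_lt.2 (tn1 y))]; field_simp)
    (by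
      have s1 : ∑ y, w y * (θ ^ 2 * Gf l k (min 0 (tn y)) * r1 0 (tn y) * (U1 * 0 + n y) / U1)
          ≤ θ ^ 2 * Gf l k 0 / U1 * ∑ y, w y * n y := by
        rw [mul_sum]
        refine sum_le_sum (fun y _ => ?_)
        rw [min_eq_left (tn0 y)]
        have := mul_le_mul_of_nonneg_left (r1_zero_le (tn y)) (show 0 ≤ θ ^ 2 * Gf l k 0 / U1
          * (w y * n y) from mul_nonneg (by positivity) (mul_nonneg (by linarith [H.w1 y]) (n0 y)))
        refine le_trans (le_of_eq ?_) (this.trans (le_of_eq ?_)) <;> ring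
      have s2 := mul_le_mul_of_nonneg_left sn (show 0 ≤ θ ^ 2 * Gf l k 0 / U1 by positivity)
      have s3 : cm a (θ * l) k U1 0 = θ ^ 2 * Gf l k 0 / U1 * M := by
        unfold cm; rw [Gf_zero]
        linear_combination (-(θ * Gf l k 0 / U1)) * hM'
      linarith)
    (by
      split_ifs at hb ⊢
      · obtain ⟨x, hx⟩ := hb
        exact ⟨x, by rw [hp]; exact le_max_of_le_left hx⟩
      · exact hb)
  have τ0 := hc.pos U0 U12
  obtain ⟨e', η, τ', s, hc', h2⟩ := side b' w n (fun y => -n y ^ 2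
      - tn y * Gf (θ * l) k (tn y) * ((1 - a + n y) * (1 - (1 - a) - n y))
      + (e * (θ ^ 2 * (tn y * Gf l k (tn y)) * (ξ + n y))
      + (M - e * ξ) * (θ ^ 2 * Gf l k (min t (tn y)) * r1 t (tn y) * (τ * t + n y) / τ)))
    (fun D s => -cm (1 - a) (θ * l) k D s + (e * (θ ^ 2 * Gf l k s * (ξ + D * s) / D)
      + (M - e * ξ) * (θ ^ 2 * Gf l k (min t s) * (r1 t s / τ + r2 t s / D))))
    (fun d => -cp (1 - a) (θ * l) d + (e * (θ ^ 2 * (l * (2 - l)) * (d + ξ))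
      + (M - e * ξ) * (θ ^ 2 * Gf l k t / τ * (d + τ * t))))
    H.w1 n0 (fun j => by rw [hn]; exact max_le (hD j) (by linarith)) sn D0 D12
    (by
      obtain ⟨κ, α, β, h, h'⟩ := cp_shape (a := 1 - a) (L := θ * l)
        ![e * (θ ^ 2 * (l * (2 - l))), (M - e * ξ) * (θ ^ 2 * Gf l k t / τ)] ![ξ, τ * t]
      refine ⟨κ, α, β, h, fun d => ?_⟩
      rw [← h', Fin.sum_univ_two]
      simp only [Matrix.cons_val_zero, Matrix.cons_val_one]
      ring)
    (fun j h => by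
      have e1 : tn j = n j / D1 := by rw [htn, min_eq_left ((div_le_one D0).2 h.le)]
      have e2 : n j = D1 * tn j := by rw [e1]; field_simp
      rw [← e1]
      apply le_of_eq
      have q1 := r1_mul (t := t) (tn0 j)
      have q2 := r2_mul (s := tn j) hc.1
      generalize Gf l k (min t (tn j)) = m
      have q3 : D1 * tn j * (r1 t (tn j) / τ + r2 t (tn j) / D1)
          = r1 t (tn j) * (τ * t + D1 * tn j) / τ := by
        field_simp
        linear_combination τ * q2 - τ * q1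
      have q4 : D1 * tn j * cm (1 - a) (θ * l) k D1 (tn j) = (D1 * tn j) ^ 2 + tn j
          * Gf (θ * l) k (tn j) * ((1 - a + D1 * tn j) * (1 - (1 - a) - D1 * tn j)) := by
        unfold cm; field_simp
      have q5 : D1 * tn j * (θ ^ 2 * Gf l k (tn j) * (ξ + D1 * tn j) / D1)
          = θ ^ 2 * (tn j * Gf l k (tn j)) * (ξ + D1 * tn j) := by field_simp
      rw [e2]
      linear_combination (-1) * q4 + e * q5 + (M - e * ξ) * θ ^ 2 * m * q3)
    (fun j h => by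
      have e1 : tn j = 1 := by rw [htn, min_eq_right ((one_le_div D0).2 h)]
      have e2 : r1 t 1 = 1 := by unfold r1; split_ifs with h'; rfl; rw [le_antisymm hc.2.1 (not_lt.1 h')]; simp
      rw [e1, Gf_one, Gf_one, min_eq_left hc.2.1, e2]
      apply le_of_eq
      unfold cp; ring)
    (fun D h => by
      have e2 : r1 t 1 = 1 := by unfold r1; split_ifs with h'; rfl; rw [le_antisymm hc.2.1 (not_lt.1 h')]; simp
      have e3 : r2 t 1 = t := by unfold r2; split_ifs with h'; simp; exact (le_antisymm hc.2.1 (not_lt.1 h')).symm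
      rw [Gf_one, min_eq_left hc.2.1, e2, e3]
      unfold cm cp; rw [Gf_one]; field_simp; ring)
    (by
      have e2 : r1 t 0 = 0 := by unfold r1; rw [if_neg (not_lt.2 hc.1), zero_div]
      have e3 : r2 t 0 = 1 := by unfold r2; rw [if_neg (not_lt.2 hc.1)]
      rw [min_eq_right hc.1, e2, e3]
      apply le_of_eq
      unfold cm; rw [Gf_zero]
      linear_combination (θ * Gf l k 0 / D1) * hM')
    (by
      split_ifs at hb' ⊢
      · obtain ⟨x, hx⟩ := hb'
        exact ⟨x, by rw [hn]; exact le_max_of_le_left hx⟩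
      · exact hb')
  have f := hF _ _ _ _ _ _ _ _ hc hc'
  simp only [mul_add (w _), sum_add_distrib] at h2
  have e4 : ∑ y, w y * (e * (θ ^ 2 * (tn y * Gf l k (tn y)) * (ξ + n y)))
      = e * ∑ y, w y * (θ ^ 2 * (tn y * Gf l k (tn y))) * (ξ + n y) := by
    rw [mul_sum]; exact sum_congr rfl (fun y _ => by ring)
  have e5 : ∑ y, w y * ((M - e * ξ) * (θ ^ 2 * Gf l k (min t (tn y)) * r1 t (tn y)
      * (τ * t + n y) / τ)) = (M - e * ξ) * ∑ y, w y * (θ ^ 2 * Gf l k (min t (tn y)) * r1 t (tn y)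
      * (τ * t + n y) / τ) := by
    rw [mul_sum]; exact sum_congr rfl (fun y _ => by ring)
  rw [e4, e5] at h2
  unfold FF at f
  refine f.trans ?_
  linear_combination h1 + h2

end P36

end Pool.Agent.Lib.MP_43bc59_co
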