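import Pool.Agent.Lib.MP_43bc59_co.Bp
import Pool.Agent.Lib.MP_43bc59_co.F_P

set_option autoImplicit false
set_option maxRecDepth 100000
set_option linter.unusedSimpArgs false

namespace Pool.Agent.Lib.MP_43bc59_co

namespace B18

open Bx

def K1_p0 : E :=
  (.a (.s (.s (.m (.m (.m (.v 0) (.s (.m (.c 2) (.a (.s (.c 1) (.v 0)) (.m (.v 0) (.m (.v 2) (.v
  1))))) (.m (.v 2) (.v 1)))) (.a (.v 0) (.m (.s (.c 1) (.v 0)) (.v 2)))) (.a (.s (.c 1) (.v 0))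
  (.m (.v 0) (.v 1)))) (.m (.m (.m (.m (.v 0) (.a (.m (.c 2) (.s (.c 1) (.v 0))) (.m (.v 0) (.m
  (.v 2) (.v 1))))) (.a (.v 0) (.m (.s (.c 1) (.v 0)) (.m (.v 2) (.v 1))))) (.s (.c 1) (.m (.v 2)
  (.v 1)))) (.a (.s (.c 1) (.v 0)) (.m (.v 0) (.v 1))))) (.m (.m (.m (.m (.v 0) (.a (.m (.c 2)
  (.s (.c 1) (.v 0))) (.m (.v 0) (.v 1)))) (.s (.c 1) (.v 1))) (.a (.s (.c 1) (.v 0)) (.m (.v 0)
  (.m (.v 2) (.v 1))))) (.a (.s (.c 1) (.v 0)) (.m (.v 0) (.m (.v 2) (.v 1)))))) (.m (.m (.m (.s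
  (.s (.s (.c 1) (.v 0)) (.m (.s (.c 1) (.v 0)) (.m (.v 2) (.v 1)))) (.m (.v 0) (.v 1))) (.a (.s
  (.c 1) (.v 0)) (.m (.v 0) (.m (.v 2) (.v 1))))) (.a (.s (.c 1) (.v 0)) (.m (.v 0) (.m (.v 2)
  (.v 1))))) (.a (.s (.c 1) (.v 0)) (.m (.v 0) (.v 1)))))

def K1_t : Tr :=
  (.lf [1])

theorem K1_k : chk2 14 8748 0 [4, 4, 3] [0, 0, 0] [1, 1, 1] [3, 1, 1] ([K1_p0] ++ [])
    (okN (List.length [K1_p0])) (fun u => [u]) K1_t = true := by decide +kernel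

theorem K1 (θ t r : ℝ)
    (l0 : (0 : ℝ) ≤ 3 * θ) (u0 : 3 * θ ≤ 1)
    (l1 : (0 : ℝ) ≤ t) (u1 : t ≤ 1)
    (l2 : (0 : ℝ) ≤ r) (u2 : r ≤ 1)
    :
    0 ≤ (((((θ * ((2 * ((1 - θ) + (θ * (r * t)))) - (r * t))) * (θ + ((1 - θ) * r))) * ((1 - θ) +
    (θ * t))) - ((((θ * ((2 * (1 - θ)) + (θ * (r * t)))) * (θ + ((1 - θ) * (r * t)))) * (1 - (r *
    t))) * ((1 - θ) + (θ * t)))) - ((((θ * ((2 * (1 - θ)) + (θ * t))) * (1 - t)) * ((1 - θ) + (θ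
    * (r * t)))) * ((1 - θ) + (θ * (r * t))))) + ((((((1 - θ) - ((1 - θ) * (r * t))) - (θ * t)) *
    ((1 - θ) + (θ * (r * t)))) * ((1 - θ) + (θ * (r * t)))) * ((1 - θ) + (θ * t))) := by
  have hbx := some_nonneg2 K1_k [θ, t, r] rfl
    (by simp only [InBox]; push_cast; exact ⟨⟨by norm_num, by norm_num⟩, ⟨by linarith, by
    linarith⟩, ⟨by norm_num, by norm_num⟩, ⟨by linarith, by linarith⟩, ⟨by norm_num, by
    norm_num⟩, ⟨by linarith, by linarith⟩, trivial⟩)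
    (by simp only [List.forall_mem_cons, List.not_mem_nil, false_imp_iff, implies_true, and_true,
    K1_p0, E.val, List.getD_cons_zero, List.getD_cons_succ, Int.cast_ofNat, Int.cast_one,
    Int.cast_zero])
  simpa only [List.mem_cons, List.not_mem_nil, or_false, exists_eq_or_imp, exists_eq_left, K1_p0,
  E.val, List.getD_cons_zero, List.getD_cons_succ, Int.cast_ofNat, Int.cast_one, Int.cast_zero]
  using hbx

def K2_p0 : E :=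
  (.a (.s (.s (.m (.m (.m (.m (.v 0) (.s (.m (.c 2) (.a (.s (.c 1) (.v 0)) (.m (.v 0) (.m (.v 2)
  (.v 1))))) (.m (.v 2) (.v 1)))) (.a (.m (.v 0) (.v 2)) (.s (.c 1) (.v 0)))) (.a (.s (.c 1) (.v
  0)) (.m (.v 0) (.v 1)))) (.a (.s (.c 1) (.v 0)) (.m (.v 0) (.v 1)))) (.m (.m (.m (.m (.m (.v 0)
  (.a (.m (.c 2) (.s (.c 1) (.v 0))) (.m (.v 0) (.v 1)))) (.a (.v 0) (.m (.s (.c 1) (.v 0)) (.v
  1)))) (.s (.c 1) (.v 1))) (.a (.s (.c 1) (.v 0)) (.m (.v 0) (.m (.v 2) (.v 1))))) (.a (.s (.c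
  1) (.v 0)) (.m (.v 0) (.m (.v 2) (.v 1)))))) (.m (.m (.m (.m (.m (.v 0) (.a (.m (.c 2) (.s (.c
  1) (.v 0))) (.m (.v 0) (.m (.v 2) (.v 1))))) (.s (.c 1) (.m (.v 2) (.v 1)))) (.a (.s (.c 1) (.v
  0)) (.m (.v 0) (.v 1)))) (.a (.s (.c 1) (.v 0)) (.m (.v 0) (.v 1)))) (.a (.s (.c 1) (.v 0)) (.m
  (.v 0) (.m (.v 2) (.v 1)))))) (.m (.m (.m (.m (.s (.s (.s (.c 1) (.v 0)) (.m (.s (.c 1) (.v 0))
  (.v 1))) (.m (.v 0) (.m (.v 2) (.v 1)))) (.a (.s (.c 1) (.v 0)) (.m (.v 0) (.v 1)))) (.a (.s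
  (.c 1) (.v 0)) (.m (.v 0) (.v 1)))) (.a (.s (.c 1) (.v 0)) (.m (.v 0) (.m (.v 2) (.v 1))))) (.a
  (.s (.c 1) (.v 0)) (.m (.v 0) (.m (.v 2) (.v 1))))))

def K2_t : Tr :=
  (.lf [1])

theorem K2_k : chk2 17 72900 0 [5, 5, 3] [0, 0, 0] [1, 1, 1] [3, 1, 1] ([K2_p0] ++ [])
    (okN (List.length [K2_p0])) (fun u => [u]) K2_t = true := by decide +kernel

theorem K2 (θ t r : ℝ)
    (l0 : (0 : ℝ) ≤ 3 * θ) (u0 : 3 * θ ≤ 1)
    (l1 : (0 : ℝ) ≤ t) (u1 : t ≤ 1)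
    (l2 : (0 : ℝ) ≤ r) (u2 : r ≤ 1)
    :
    0 ≤ ((((((θ * ((2 * ((1 - θ) + (θ * (r * t)))) - (r * t))) * ((θ * r) + (1 - θ))) * ((1 - θ)
    + (θ * t))) * ((1 - θ) + (θ * t))) - (((((θ * ((2 * (1 - θ)) + (θ * t))) * (θ + ((1 - θ) *
    t))) * (1 - t)) * ((1 - θ) + (θ * (r * t)))) * ((1 - θ) + (θ * (r * t))))) - (((((θ * ((2 *
    (1 - θ)) + (θ * (r * t)))) * (1 - (r * t))) * ((1 - θ) + (θ * t))) * ((1 - θ) + (θ * t))) *
    ((1 - θ) + (θ * (r * t))))) + (((((((1 - θ) - ((1 - θ) * t)) - (θ * (r * t))) * ((1 - θ) + (θ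
    * t))) * ((1 - θ) + (θ * t))) * ((1 - θ) + (θ * (r * t)))) * ((1 - θ) + (θ * (r * t)))) := by
  have hbx := some_nonneg2 K2_k [θ, t, r] rfl
    (by simp only [InBox]; push_cast; exact ⟨⟨by norm_num, by norm_num⟩, ⟨by linarith, by
    linarith⟩, ⟨by norm_num, by norm_num⟩, ⟨by linarith, by linarith⟩, ⟨by norm_num, by
    norm_num⟩, ⟨by linarith, by linarith⟩, trivial⟩)
    (by simp only [List.forall_mem_cons, List.not_mem_nil, false_imp_iff, implies_true, and_true,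
    K2_p0, E.val, List.getD_cons_zero, List.getD_cons_succ, Int.cast_ofNat, Int.cast_one,
    Int.cast_zero])
  simpa only [List.mem_cons, List.not_mem_nil, or_false, exists_eq_or_imp, exists_eq_left, K2_p0,
  E.val, List.getD_cons_zero, List.getD_cons_succ, Int.cast_ofNat, Int.cast_one, Int.cast_zero]
  using hbx

open P36

/-- the certificate per unit of mass -/
noncomputable def fB (a θ t s m x y : ℝ) : ℝ :=
  (1 - θ) - ((1 - a) * t + Gf (θ * 1) (1 - θ) t * ((a + (1 - a) * t) * (1 - t)))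
    - (a * s + Gf (θ * 1) (1 - θ) s * ((1 - a + a * s) * (1 - s)))
    + θ * Gf 1 (1 - θ) m * (a * x + (1 - a) * y)

/-- the admissible shapes of the pair term -/
def Sh (t s m x y : ℝ) : Prop :=
  (0 ≤ s ∧ s ≤ 1 ∧ 0 ≤ y ∧ y ≤ 1 ∧ t = y * s ∧ m = t ∧ x = 1) ∨
    (0 ≤ t ∧ t ≤ 1 ∧ 0 ≤ x ∧ x ≤ 1 ∧ s = x * t ∧ m = s ∧ y = 1)

lemma Gq (L θ t : ℝ) : Gf L (1 - θ) t = L * (2 * (1 - θ + θ * t) - L * t) / (1 - θ + θ * t) ^ 2 := by
  unfold Gf qf; rw [sub_sub_cancel]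

lemma fB_end {θ t s m x y : ℝ} (h0 : 0 < θ) (h1 : θ ≤ 1 / 3) (h : Sh t s m x y) :
    0 ≤ fB θ θ t s m x y := by
  have k0 : 0 < 1 - θ := by linarith
  rcases h with ⟨s0, s1, y0, y1, ht, hm, hx⟩ | ⟨t0, t1, x0, x1, hs, hm, hy⟩
  · rw [hm, hx, ht]
    have q1 : 0 < 1 - θ + θ * (y * s) := by positivity
    have q2 : 0 < 1 - θ + θ * s := by positivity
    have k := K1 θ s y (by linarith) (by linarith) s0 s1 y0 y1
    refine (div_nonneg k (show 0 ≤ (1 - θ + θ * (y * s)) ^ 2 * (1 - θ + θ * s) by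
      positivity)).trans (le_of_eq ?_)
    unfold fB
    rw [Gq, Gq, Gq, div_eq_iff (by positivity)]
    field_simp
    ring
  · rw [hm, hy, hs]
    have q1 : 0 < 1 - θ + θ * (x * t) := by positivity
    have q2 : 0 < 1 - θ + θ * t := by positivity
    have k := K2 θ t x (by linarith) (by linarith) t0 t1 x0 x1
    refine (div_nonneg k (show 0 ≤ (1 - θ + θ * (x * t)) ^ 2 * (1 - θ + θ * t) ^ 2 by
      positivity)).trans (le_of_eq ?_)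
    unfold fB
    rw [Gq, Gq, Gq, div_eq_iff (by positivity)]
    field_simp
    ring

lemma fB_nonneg {a θ t s m x y : ℝ} (h0 : 0 < θ) (h1 : θ ≤ 1 / 3) (a0 : θ ≤ a) (a1 : a ≤ 1 - θ)
    (h : Sh t s m x y) : 0 ≤ fB a θ t s m x y := by
  have e1 := fB_end h0 h1 h
  have e2 := fB_end h0 h1 (show Sh s t m y x from h.symm)
  have e : (1 - 2 * θ) * fB a θ t s m x y =
      (1 - θ - a) * fB θ θ t s m x y + (a - θ) * fB θ θ s t m y x := by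
    unfold fB; ring
  have := add_nonneg (mul_nonneg (sub_nonneg.2 a1) e1) (mul_nonneg (sub_nonneg.2 a0) e2)
  rw [← e] at this
  exact nonneg_of_mul_nonneg_right this (by linarith)

lemma sh_r {t s : ℝ} (t0 : 0 ≤ t) (t1 : t ≤ 1) (s0 : 0 ≤ s) (s1 : s ≤ 1) :
    Sh t s (min t s) (r1 t s) (r2 t s) := by
  unfold r1 r2
  split_ifs with h
  · have : 0 < s := t0.trans_lt h
    exact Or.inl ⟨s0, s1, by positivity, (div_le_one this).2 h.le,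
      (div_mul_cancel₀ _ this.ne').symm, min_eq_left h.le, rfl⟩
  · have h' := not_lt.1 h
    refine Or.inr ⟨t0, t1, by positivity, div_le_one_of_le₀ h' t0, ?_, min_eq_right h', rfl⟩
    rcases t0.eq_or_lt with e | e
    · rw [← e, mul_zero]; linarith
    · exact (div_mul_cancel₀ _ e.ne').symm

end B18

open P36 B18 in
/-- the region `θ ≤ a ≤ 1 - θ`, `θ ≤ 1/3` -/
theorem st_B' : St_R (fun a θ => θ ≤ a ∧ a ≤ 1 - θ ∧ θ ≤ 1 / 3) := by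
  intro ι _ _ a θ w g A Φ c G H ⟨h1, h2, h3⟩
  have t0 := H.th0
  have a0 := H.a0
  have a1 : 0 < 1 - a := by linarith [H.a1]
  refine leaf H (l := 1) (k := 1 - θ) (U1 := 1 - a) (U2 := 1 - a) (D1 := a) (D2 := a) false false
    zero_le_one le_rfl (by linarith) a1 le_rfl a0 le_rfl (fun j => by linarith [H.g1 j])
    (fun j => by linarith [H.g0 j]) (by simp) (by simp) ?_
  intro e ξ τ t e' η τ' s hc hc'
  obtain ⟨t0', t1, ⟨hb, -⟩ | ⟨rfl, rfl, rfl, -⟩⟩ := hc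
  · exact absurd hb (by simp)
  obtain ⟨s0, s1, ⟨hb, -⟩ | ⟨rfl, rfl, rfl, -⟩⟩ := hc'
  · exact absurd hb (by simp)
  refine (mul_nonneg (show 0 ≤ τ' * (1 - τ') / θ by positivity)
    (fB_nonneg t0 h3 h1 h2 (sh_r t0' t1 s0 s1))).trans (le_of_eq ?_)
  unfold FF fB cm
  field_simp
  ring

theorem st_B : St_R (fun a θ => θ ≤ a ∧ a ≤ 1 / 2 ∧ θ ≤ 1 / 3) :=
  fun ι _ _ a θ w g A Φ c G H h =>
    st_B' ι a θ w g A Φ c G H ⟨h.1, by linarith [h.2.1, H.th1], h.2.2⟩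

end Pool.Agent.Lib.MP_43bc59_co
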