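import Pool.Agent.Lib.MP_43bc59_co.F_Kit

set_option autoImplicit false

namespace Pool.Agent.Lib.MP_43bc59_co

open Finset

variable {ι : Type} [Fintype ι] [DecidableEq ι] {a θ : ℝ} {w g A Φ : ι → ℝ} {c G : ι → ι → ℝ}

namespace C36

lemma s_mono {θ u l : ℝ} (h1 : u ≤ l) (h2 : l ≤ θ) : u * (2 * θ - u) ≤ l * (2 * θ - l) := by
  nlinarith [mul_nonneg (sub_nonneg.2 h1) (show 0 ≤ 2 * θ - u - l by linarith)]

/-- One-sided pivot certificate at the letter `x`. -/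
lemma pivot (H : Hyp a θ w g A Φ c G) (x : ι) {W l : ℝ} (W1 : 1 ≤ W) (W2 : W ≤ 2) (W3 : W ≤ w x)
    (l0 : 0 ≤ l) (l1 : l ≤ θ) (u : ι → ℝ) (u0 : ∀ j, 0 ≤ u j) (u1 : ∀ j, u j ≤ l) (ux : u x = 0) :
    ∑ j, w j * (u j * (2 * θ - u j) * (W * (g x - g j) + (2 - W) * g j * (1 - g x))
        - u j * (2 - u j) * (g j * (1 - g j))) - l * (2 - l) * (W * (g x * (1 - g x)))
      ≤ θ ^ 2 * Ed c G + ∑ j, w j * Φ j := by
  have wp : ∀ j, 0 < w j := fun j => by linarith [H.w1 j]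
  have s0 : ∀ j, 0 ≤ u j * (2 * θ - u j) := fun j =>
    mul_nonneg (u0 j) (by linarith [u1 j, H.th0])
  have s1 : ∀ j, u j * (2 * θ - u j) ≤ l * (2 * θ - l) := fun j => s_mono (u1 j) l1
  have m0 : ∀ j, 0 ≤ W - (2 - W) * g j := fun j => by
    nlinarith [mul_nonneg (sub_nonneg.2 W2) (sub_nonneg.2 (H.g1 j))]
  have m1 : ∀ j, W - (2 - W) * g j ≤ W := fun j => by
    nlinarith [mul_nonneg (sub_nonneg.2 W2) (H.g0 j)]
  have cp : ∀ j, x ≠ j → 0 < c x j := fun j h => lt_of_lt_of_le (mul_pos (wp x) (wp j)) (H.cw x j h)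
  obtain ⟨S, hS⟩ : ∃ S, S = l * (2 * θ - l) := ⟨_, rfl⟩
  have S0 : 0 ≤ S := by rw [hS]; exact (s0 x).trans (s1 x)
  have S1 : S ≤ θ ^ 2 := by rw [hS]; nlinarith [sq_nonneg (θ - l)]
  obtain ⟨N, hN⟩ : ∃ N : ι → ℝ, ∀ j, N j = w j * (u j * (2 * θ - u j) * (W - (2 - W) * g j)) :=
    ⟨_, fun _ => rfl⟩
  have Nx : N x = 0 := by rw [hN, ux]; ring
  have N0 : ∀ j, 0 ≤ N j := fun j => by
    rw [hN]; exact mul_nonneg (wp j).le (mul_nonneg (s0 j) (m0 j))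
  have N1 : ∀ j, N j ≤ w j * (S * W) := fun j => by
    rw [hN, hS]
    exact mul_le_mul_of_nonneg_left (mul_le_mul (s1 j) (m1 j) (m0 j) ((s0 j).trans (s1 j))) (wp j).le
  have k0 : ∀ j, 0 ≤ N j / c x j := fun j => by
    by_cases h : x = j
    · rw [← h, Nx, zero_div]
    · exact div_nonneg (N0 j) (cp j h).le
  have k1 : ∀ j, N j / c x j * w x ≤ S * W := fun j => by
    have SW : 0 ≤ S * W := mul_nonneg S0 (by linarith)
    by_cases h : x = j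
    · rw [← h, Nx, zero_div, zero_mul]; exact SW
    · rw [div_mul_eq_mul_div, div_le_iff₀ (cp j h)]
      have a1 := mul_le_mul_of_nonneg_right (N1 j) (wp x).le
      have a2 := mul_le_mul_of_nonneg_left (H.cw x j h) SW
      linarith
  have k2 : ∀ j, N j / c x j * c x j = N j := fun j => by
    by_cases h : x = j
    · rw [← h, Nx, zero_div, zero_mul]
    · exact div_mul_cancel₀ _ (cp j h).ne'
  have e1 : ∑ j, N j * (G x j - G j x) ≤ θ ^ 2 * Ed c G := by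
    have t := H.Ed_ge (fun i j => if i = x then N j / c x j else 0)
      (fun i j => by
        split_ifs
        · exact k0 j
        · exact le_rfl)
      (fun i j => by
        split_ifs
        · refine le_trans ?_ S1
          apply le_of_mul_le_mul_right _ (wp x)
          exact (k1 j).trans (mul_le_mul_of_nonneg_left W3 S0)
        · exact sq_nonneg θ)
      (fun j => by
        split_ifs with h
        · rw [h, Nx, zero_div]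
        · rfl)
    rw [sum_eq_single x (fun i _ h => by simp only [if_neg h, zero_mul, sum_const_zero])
      (fun h => absurd (mem_univ x) h)] at t
    simp only [if_true] at t
    refine le_trans (le_of_eq (sum_congr rfl (fun j _ => ?_))) t
    rw [← mul_assoc, k2]
  have e2 : ∑ j, N j * (g x - G x j) ≤ S * W * A x := by
    rcases S0.eq_or_lt with h | h
    · have z : ∀ j, N j = 0 := fun j => le_antisymm (by simpa [← h] using N1 j) (N0 j)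
      simp only [z, zero_mul, sum_const_zero, ← h, le_refl]
    have SW : 0 < S * W := mul_pos h (by linarith)
    have t := H.td x (fun j => N j / c x j * w x / (S * W))
      (fun j => div_nonneg (mul_nonneg (k0 j) (wp x).le) SW.le)
      (fun j => (div_le_one SW).2 (k1 j)) (by simp only [Nx, zero_div, zero_mul])
    apply le_of_mul_le_mul_left _ (wp x)
    have t2 := mul_le_mul_of_nonneg_left t SW.le
    rw [mul_sum] at t2 ⊢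
    refine le_trans (le_of_eq (sum_congr rfl (fun j _ => ?_))) (t2.trans (le_of_eq (by ring)))
    rw [← mul_assoc (S * W), mul_div_cancel₀ _ SW.ne']
    calc w x * (N j * (g x - G x j)) = w x * (N j / c x j * c x j * (g x - G x j)) := by rw [k2]
      _ = _ := by ring
  have e3 : ∀ j, w j * (u j * (2 * θ - u j) * (W * (g x - g j) + (2 - W) * g j * (1 - g x))
        - u j * (2 - u j) * (g j * (1 - g j))) + (if j = x then W * Φ x else 0)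
      ≤ w j * Φ j + N j * (G x j - G j x) + N j * (g x - G x j) := fun j => by
    split_ifs with h
    · rw [h, ux, Nx]
      nlinarith [mul_le_mul_of_nonneg_right W3 (H.Phi0 x)]
    · have a1 := mul_le_mul_of_nonneg_left (H.clean_up h W1 W2 W3) (s0 j)
      have a2 := H.ch j (u j) (u0 j) ((u1 j).trans l1)
      have a3 := mul_le_mul_of_nonneg_left (show u j * (2 * θ - u j) * (W * (G j x - g j)
        + (2 - W) * g j * (1 - G j x)) - u j * (2 - u j) * (g j * (1 - g j)) ≤ Φ j by linarith)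
        (wp j).le
      rw [hN]; linarith
  have e4 := sum_le_sum (s := univ) (fun j _ => e3 j)
  simp only [sum_add_distrib, sum_ite_eq', mem_univ, if_true] at e4
  have e5 := mul_le_mul_of_nonneg_left (H.ch x l l0 l1) (show 0 ≤ W by linarith)
  rw [← hS] at e5
  linarith

omit [DecidableEq ι] in
lemma up_sum (H : Hyp a θ w g A Φ c G) : ∑ j, w j * max (g j - a) 0 ≤ a * (1 - a) / θ := by
  have t := H.par (fun j => if a ≤ g j then 1 else 0) (fun j => by split_ifs <;> norm_num)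
    (fun j => by split_ifs <;> norm_num)
  rw [le_div_iff₀ H.th0, mul_comm]
  refine le_trans (le_of_eq ?_) t
  congr 1
  refine sum_congr rfl (fun j _ => ?_)
  split_ifs with h
  · rw [max_eq_left (by linarith), one_mul]
  · rw [max_eq_right (by linarith), zero_mul, mul_zero]

lemma down_sum (H : Hyp a θ w g A Φ c G) : ∑ j, w j * max (a - g j) 0 ≤ a * (1 - a) / θ := by
  have t := up_sum H.mirror
  simp only [sub_sub_cancel] at t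
  rw [mul_comm a]
  refine le_trans (le_of_eq (sum_congr rfl (fun j _ => ?_))) t
  congr 2; ring

lemma plus1 (H : Hyp a θ w g A Φ c G) {U : ℝ} (U0 : 0 ≤ U) (hU : ∀ j, g j - a ≤ U) :
    ∑ j, w j * max (g j - a) 0 ^ 2 ≤ a * (1 - a) / θ * U := by
  refine le_trans ?_ (mul_le_mul_of_nonneg_right (up_sum H) U0)
  rw [sum_mul]
  refine sum_le_sum (fun j _ => ?_)
  have m0 : 0 ≤ max (g j - a) 0 := le_max_right _ _
  have m1 : max (g j - a) 0 ≤ U := max_le (hU j) U0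
  have := mul_le_mul_of_nonneg_left m1 (mul_nonneg (show 0 ≤ w j by linarith [H.w1 j]) m0)
  linarith

lemma plus2 (H : Hyp a θ w g A Φ c G) (x : ι) (hx : a ≤ g x) :
    ∑ j, w j * max (g j - a) 0 ^ 2
      ≤ w x * (g x - a) ^ 2 + (a * (1 - a) / θ - w x * (g x - a)) ^ 2 := by
  have t := up_sum H
  have m0 : ∀ j, 0 ≤ max (g j - a) 0 := fun j => le_max_right _ _
  have n0 : ∀ j, 0 ≤ w j * max (g j - a) 0 := fun j => mul_nonneg (by linarith [H.w1 j]) (m0 j)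
  rw [← add_sum_erase _ _ (mem_univ x), max_eq_left (sub_nonneg.2 hx)] at t ⊢
  obtain ⟨R, hR⟩ : ∃ R, R = ∑ j ∈ univ.erase x, w j * max (g j - a) 0 := ⟨_, rfl⟩
  have R0 : 0 ≤ R := by rw [hR]; exact sum_nonneg (fun j _ => n0 j)
  have b : ∑ j ∈ univ.erase x, w j * max (g j - a) 0 ^ 2 ≤ R * R := by
    conv_rhs => rw [hR, sum_mul, ← hR]
    refine sum_le_sum (fun j hj => ?_)
    have h1 : w j * max (g j - a) 0 ≤ R := by
      rw [hR]; exact single_le_sum (f := fun j => w j * max (g j - a) 0) (fun j _ => n0 j) hj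
    have h2 : max (g j - a) 0 ≤ R := by nlinarith [H.w1 j, m0 j]
    have := mul_le_mul_of_nonneg_left h2 (n0 j)
    linarith
  rw [← hR] at t
  nlinarith [mul_self_le_mul_self R0 (show R ≤ a * (1 - a) / θ - w x * (g x - a) by linarith)]

/-- reduction to a pointwise bound on the lower side and one final inequality -/
lemma master (H : Hyp a θ w g A Φ c G) (x : ι) (hx : a ≤ g x) {W l η B : ℝ} (W1 : 1 ≤ W)
    (W2 : W ≤ 2) (W3 : W ≤ w x) (l0 : 0 ≤ l) (l1 : l ≤ θ) (η0 : 0 ≤ η)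
    (hB : ∑ j, w j * max (g j - a) 0 ^ 2 ≤ B)
    (hp : ∀ y, 0 ≤ y → y < a → ∃ u, 0 ≤ u ∧ u ≤ l ∧ (a - y) ^ 2 ≤ η * (a - y)
      + (u * (2 * θ - u) * (W * (g x - y) + (2 - W) * y * (1 - g x)) - u * (2 - u) * (y * (1 - y))))
    (fin : B + η * (a * (1 - a) / θ) + l * (2 - l) * (W * (g x * (1 - g x)))
      ≤ (1 - θ) * (a * (1 - a) / θ)) : Goal a θ w g Φ c G := by
  have hu : ∀ j, ∃ u, 0 ≤ u ∧ u ≤ l ∧ (a ≤ g j → u = 0) ∧ (g j - a) ^ 2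
      ≤ max (g j - a) 0 ^ 2 + η * max (a - g j) 0 + (u * (2 * θ - u) * (W * (g x - g j)
        + (2 - W) * g j * (1 - g x)) - u * (2 - u) * (g j * (1 - g j))) := fun j => by
    rcases le_or_gt a (g j) with h | h
    · refine ⟨0, le_rfl, l0, fun _ => rfl, ?_⟩
      rw [max_eq_left (by linarith), max_eq_right (by linarith)]; simp
    · obtain ⟨u, a1, a2, a3⟩ := hp (g j) (H.g0 j) h
      refine ⟨u, a1, a2, fun h' => absurd h (not_lt.2 h'), ?_⟩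
      rw [max_eq_right (by linarith), max_eq_left (by linarith)]; nlinarith
  choose u u0 u1 u2 u3 using hu
  have p := pivot H x W1 W2 W3 l0 l1 u u0 u1 (u2 x hx)
  have q := sum_le_sum (s := univ) (fun j _ =>
    mul_le_mul_of_nonneg_left (u3 j) (show 0 ≤ w j by linarith [H.w1 j]))
  simp only [mul_add (w _), sum_add_distrib] at q
  have d := mul_le_mul_of_nonneg_left (down_sum H) η0
  have e : ∑ j, w j * (η * max (a - g j) 0) = η * ∑ j, w j * max (a - g j) 0 := by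
    rw [mul_sum]; exact sum_congr rfl (fun j _ => by ring)
  unfold Goal
  rw [mul_div_assoc]
  linarith

/-- the pointwise gain of a lower letter -/
lemma pt {θ z γ y A : ℝ} (t0 : 0 ≤ θ) (t1 : θ ≤ 1) (z0 : 0 ≤ z) (z1 : z ≤ 1) (γ0 : 0 ≤ γ)
    (γ1 : γ ≤ 1) (y0 : 0 ≤ y) (y1 : y < 1) (y2 : y ≤ θ * z) (hA : (1 - y) * z ≤ A) :
    ∃ u, 0 ≤ u ∧ u ≤ γ * (θ * z) ∧
      γ * (2 - γ * z) * (θ * z - y) ^ 2 ≤ u * (2 * θ - u) * A - u * (2 - u) * (y * (1 - y)) := by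
  have p : 0 < 1 - y := by linarith
  have tz : θ * z ≤ θ := by nlinarith
  obtain ⟨u, hu⟩ : ∃ u, u * (1 - y) = γ * (θ * z - y) := ⟨_, div_mul_cancel₀ _ p.ne'⟩
  have n0 : 0 ≤ γ * (θ * z - y) := mul_nonneg γ0 (by linarith)
  have u0 : 0 ≤ u := nonneg_of_mul_nonneg_left (hu ▸ n0) p
  have u1 : u ≤ γ * (θ * z) := by
    apply le_of_mul_le_mul_right _ p
    rw [hu]
    nlinarith [mul_nonneg γ0 (mul_nonneg y0 (show 0 ≤ 1 - θ * z by linarith))]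
  have u2 : u ≤ θ := by nlinarith [mul_nonneg t0 z0]
  refine ⟨u, u0, u1, ?_⟩
  have a1 := mul_le_mul_of_nonneg_left hA (mul_nonneg u0 (show 0 ≤ 2 * θ - u by linarith))
  have a2 : u * (z - y) ≤ γ * (θ * z - y) * z := by
    rw [← hu]; nlinarith [mul_nonneg u0 (mul_nonneg y0 (sub_nonneg.2 z1))]
  have a3 := mul_le_mul_of_nonneg_left a2 n0
  have e : u * (2 * θ - u) * ((1 - y) * z) - u * (2 - u) * (y * (1 - y))
      = γ * (θ * z - y) * (2 * (θ * z - y) - u * (z - y)) := by rw [← hu]; ring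
  nlinarith

/-- the final inequality near the extremal family -/
lemma finN {a e o h : ℝ} (a0 : 0 ≤ a) (a1 : a ≤ 1 / 3) (e0 : 0 ≤ e) (e1 : e ≤ 1 / 5) (o0 : 0 ≤ o)
    (o1 : o ≤ 1) (h0 : 0 ≤ h) (h1 : h ≤ e * (1 - a)) :
    0 ≤ e * ((1 - 3 * a + a ^ 2) - e * (1 - a) ^ 2)
      + o * (a * (1 - a) + e * (1 - 5 * a + a ^ 2) - e ^ 2 * (1 - a) ^ 2) + h * (1 - 2 * a)
      - (h + (1 - o) * a * e) ^ 2 := by
  have ae : 0 ≤ a * e := mul_nonneg a0 e0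
  have b1 : (h + (1 - o) * a * e) ^ 2 ≤ (h + a * e) ^ 2 := by
    apply pow_le_pow_left₀
    · nlinarith [mul_nonneg (sub_nonneg.2 o1) ae]
    · nlinarith [mul_nonneg o0 ae]
  have b2 : 0 ≤ e * ((1 - 3 * a + a ^ 2) - e * ((1 - a) ^ 2 + a ^ 2)) := by
    apply mul_nonneg e0
    nlinarith [mul_nonneg (sub_nonneg.2 e1) (add_nonneg (sq_nonneg (1 - a)) (sq_nonneg a)),
      mul_nonneg (show 0 ≤ 1 - 3 * a by linarith) (show 0 ≤ 4 - a by linarith)]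
  have b3 : 0 ≤ h * (1 - 2 * a - h - 2 * a * e) := by
    apply mul_nonneg h0
    nlinarith
  have b4 : 0 ≤ o * (a * (1 - a) + e * (1 - 5 * a + a ^ 2) - e ^ 2 * (1 - a) ^ 2) := by
    apply mul_nonneg o0
    have c1 : 0 ≤ (1 - 5 * e) * (a * (1 - a)) := mul_nonneg (by linarith) (by nlinarith)
    have c2 : 0 ≤ e * (1 - 5 * e) * (1 - a) ^ 2 :=
      mul_nonneg (mul_nonneg e0 (by linarith)) (sq_nonneg _)
    have c3 : 0 ≤ e * (1 - 4 * a ^ 2 - (1 - a) ^ 2 / 5) := mul_nonneg e0 (by nlinarith)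
    nlinarith
  nlinarith

/-- the final inequality away from the extremal family (Bernstein certificate) -/
lemma finF {a θ e : ℝ} (a0 : 0 ≤ a) (a1 : a ≤ 1 / 3) (e0 : 1 / 5 ≤ e) (e1 : e ≤ θ)
    (t1 : θ ≤ 1 / 2) :
    0 ≤ a * (1 - a) * (e - θ) + a * (e / 2 + 1 / 10) * (2 * (1 - a - e) * θ - a * (1 - a))
      + 4 / 7 * θ ^ 2 * (1 - e) ^ 2 * (2 * (1 - a - e) - 4 / 7 * (1 - e) * (1 - a - θ * e)) := by
  have k0 : ∀ p q r : ℝ, 0 ≤ p → 0 ≤ q → 0 ≤ r → (0:ℝ) ≤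
      (15500000:ℝ)*r^(7:ℕ) + (663200000:ℝ)*q*r^(6:ℕ) + (3158520000:ℝ)*q^(2:ℕ)*r^(5:ℕ)
      + (6362800000:ℝ)*q^(3:ℕ)*r^(4:ℕ) + (6609370000:ℝ)*q^(4:ℕ)*r^(3:ℕ)
      + (3635880000:ℝ)*q^(5:ℕ)*r^(2:ℕ) + (971375360:ℝ)*q^(6:ℕ)*r + (93830144:ℝ)*q^(7:ℕ)
      + (77300000:ℝ)*p*r^(6:ℕ) + (3337320000:ℝ)*p*q*r^(5:ℕ) + (12929700000:ℝ)*p*q^(2:ℕ)*r^(4:ℕ)
      + (19765240000:ℝ)*p*q^(3:ℕ)*r^(3:ℕ) + (14070313200:ℝ)*p*q^(4:ℕ)*r^(2:ℕ)
      + (4375198560:ℝ)*p*q^(5:ℕ)*r + (402649856:ℝ)*p*q^(6:ℕ) + (239550000:ℝ)*p^(2:ℕ)*r^(5:ℕ)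
      + (7208400000:ℝ)*p^(2:ℕ)*q*r^(4:ℕ) + (20863248000:ℝ)*p^(2:ℕ)*q^(2:ℕ)*r^(3:ℕ)
      + (21590793600:ℝ)*p^(2:ℕ)*q^(3:ℕ)*r^(2:ℕ) + (8421373920:ℝ)*p^(2:ℕ)*q^(4:ℕ)*r
      + (743069184:ℝ)*p^(2:ℕ)*q^(5:ℕ) + (648790000:ℝ)*p^(3:ℕ)*r^(4:ℕ)
      + (8906164000:ℝ)*p^(3:ℕ)*q*r^(3:ℕ) + (16779285600:ℝ)*p^(3:ℕ)*q^(2:ℕ)*r^(2:ℕ)
      + (9413272000:ℝ)*p^(3:ℕ)*q^(3:ℕ)*r + (971597056:ℝ)*p^(3:ℕ)*q^(4:ℕ)
      + (1198786000:ℝ)*p^(4:ℕ)*r^(3:ℕ) + (6888043200:ℝ)*p^(4:ℕ)*q*r^(2:ℕ)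
      + (6892927680:ℝ)*p^(4:ℕ)*q^(2:ℕ)*r + (1224638464:ℝ)*p^(4:ℕ)*q^(3:ℕ)
      + (1265118000:ℝ)*p^(5:ℕ)*r^(2:ℕ) + (3183794400:ℝ)*p^(5:ℕ)*q*r
      + (1205710080:ℝ)*p^(5:ℕ)*q^(2:ℕ) + (686588000:ℝ)*p^(6:ℕ)*r + (667635200:ℝ)*p^(6:ℕ)*q
      + (149216000:ℝ)*p^(7:ℕ) :=
    fun p q r _ _ _ => by positivity
  have k1 : ∀ p q r : ℝ, 0 ≤ p → 0 ≤ q → 0 ≤ r → (0:ℝ) ≤
      (362750000:ℝ)*r^(7:ℕ) + (2768900000:ℝ)*q*r^(6:ℕ) + (8616480000:ℝ)*q^(2:ℕ)*r^(5:ℕ)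
      + (14187640000:ℝ)*q^(3:ℕ)*r^(4:ℕ) + (13301044000:ℝ)*q^(4:ℕ)*r^(3:ℕ)
      + (7047045600:ℝ)*q^(5:ℕ)*r^(2:ℕ) + (1931694560:ℝ)*q^(6:ℕ)*r + (209327744:ℝ)*q^(7:ℕ)
      + (2489450000:ℝ)*p*r^(6:ℕ) + (16031280000:ℝ)*p*q*r^(5:ℕ) + (40692000000:ℝ)*p*q^(2:ℕ)*r^(4:ℕ)
      + (52012216000:ℝ)*p*q^(3:ℕ)*r^(3:ℕ) + (35026284000:ℝ)*p*q^(4:ℕ)*r^(2:ℕ)
      + (11596179360:ℝ)*p*q^(5:ℕ)*r + (1434145856:ℝ)*p*q^(6:ℕ) + (7507950000:ℝ)*p^(2:ℕ)*r^(5:ℕ)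
      + (39456120000:ℝ)*p^(2:ℕ)*q*r^(4:ℕ) + (77928468000:ℝ)*p^(2:ℕ)*q^(2:ℕ)*r^(3:ℕ)
      + (71863022400:ℝ)*p^(2:ℕ)*q^(3:ℕ)*r^(2:ℕ) + (30447045120:ℝ)*p^(2:ℕ)*q^(4:ℕ)*r
      + (4581245184:ℝ)*p^(2:ℕ)*q^(5:ℕ) + (12959050000:ℝ)*p^(3:ℕ)*r^(4:ℕ)
      + (53062372000:ℝ)*p^(3:ℕ)*q*r^(3:ℕ) + (75971803200:ℝ)*p^(3:ℕ)*q^(2:ℕ)*r^(2:ℕ)
      + (44512532800:ℝ)*p^(3:ℕ)*q^(3:ℕ)*r + (8732453056:ℝ)*p^(3:ℕ)*q^(4:ℕ)
      + (13845076000:ℝ)*p^(4:ℕ)*r^(3:ℕ) + (41224447200:ℝ)*p^(4:ℕ)*q*r^(2:ℕ)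
      + (37841702880:ℝ)*p^(4:ℕ)*q^(2:ℕ)*r + (10473806464:ℝ)*p^(4:ℕ)*q^(3:ℕ)
      + (9136428000:ℝ)*p^(5:ℕ)*r^(2:ℕ) + (17543258400:ℝ)*p^(5:ℕ)*q*r
      + (7722847680:ℝ)*p^(5:ℕ)*q^(2:ℕ) + (3431528000:ℝ)*p^(6:ℕ)*r + (3187443200:ℝ)*p^(6:ℕ)*q
      + (562376000:ℝ)*p^(7:ℕ) :=
    fun p q r _ _ _ => by positivity
  have k2 : ∀ p q r : ℝ, 0 ≤ p → 0 ≤ q → 0 ≤ r → (0:ℝ) ≤
      (179500000:ℝ)*r^(7:ℕ) + (1283500000:ℝ)*q*r^(6:ℕ) + (3829080000:ℝ)*q^(2:ℕ)*r^(5:ℕ)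
      + (6145160000:ℝ)*q^(3:ℕ)*r^(4:ℕ) + (5692406000:ℝ)*q^(4:ℕ)*r^(3:ℕ)
      + (3020570400:ℝ)*q^(5:ℕ)*r^(2:ℕ) + (843137920:ℝ)*q^(6:ℕ)*r + (95208448:ℝ)*q^(7:ℕ)
      + (1307200000:ℝ)*p*r^(6:ℕ) + (7953180000:ℝ)*p*q*r^(5:ℕ) + (19535100000:ℝ)*p*q^(2:ℕ)*r^(4:ℕ)
      + (24640064000:ℝ)*p*q^(3:ℕ)*r^(3:ℕ) + (16700751600:ℝ)*p*q^(4:ℕ)*r^(2:ℕ)
      + (5708886720:ℝ)*p*q^(5:ℕ)*r + (759813952:ℝ)*p*q^(6:ℕ) + (4165950000:ℝ)*p^(2:ℕ)*r^(5:ℕ)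
      + (20912280000:ℝ)*p^(2:ℕ)*q*r^(4:ℕ) + (40489896000:ℝ)*p^(2:ℕ)*q^(2:ℕ)*r^(3:ℕ)
      + (37526750400:ℝ)*p^(2:ℕ)*q^(3:ℕ)*r^(2:ℕ) + (16486405440:ℝ)*p^(2:ℕ)*q^(4:ℕ)*r
      + (2708473728:ℝ)*p^(2:ℕ)*q^(5:ℕ) + (7524770000:ℝ)*p^(3:ℕ)*r^(4:ℕ)
      + (29841860000:ℝ)*p^(3:ℕ)*q*r^(3:ℕ) + (42604773600:ℝ)*p^(3:ℕ)*q^(2:ℕ)*r^(2:ℕ)
      + (25736931200:ℝ)*p^(3:ℕ)*q^(3:ℕ)*r + (5481436352:ℝ)*p^(3:ℕ)*q^(4:ℕ)
      + (8299622000:ℝ)*p^(4:ℕ)*r^(3:ℕ) + (24329450400:ℝ)*p^(4:ℕ)*q*r^(2:ℕ)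
      + (22734159360:ℝ)*p^(4:ℕ)*q^(2:ℕ)*r + (6704991488:ℝ)*p^(4:ℕ)*q^(3:ℕ)
      + (5571246000:ℝ)*p^(5:ℕ)*r^(2:ℕ) + (10717540800:ℝ)*p^(5:ℕ)*q*r
      + (4913261760:ℝ)*p^(5:ℕ)*q^(2:ℕ) + (2099656000:ℝ)*p^(6:ℕ)*r + (1987350400:ℝ)*p^(6:ℕ)*q
      + (341512000:ℝ)*p^(7:ℕ) :=
    fun p q r _ _ _ => by positivity
  have k3 : ∀ p q r : ℝ, 0 ≤ p → 0 ≤ q → 0 ≤ r → (0:ℝ) ≤
      (13750000:ℝ)*r^(7:ℕ) + (103000000:ℝ)*q*r^(6:ℕ) + (318900000:ℝ)*q^(2:ℕ)*r^(5:ℕ)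
      + (526160000:ℝ)*q^(3:ℕ)*r^(4:ℕ) + (496496000:ℝ)*q^(4:ℕ)*r^(3:ℕ)
      + (265958400:ℝ)*q^(5:ℕ)*r^(2:ℕ) + (74260480:ℝ)*q^(6:ℕ)*r + (8323072:ℝ)*q^(7:ℕ)
      + (120250000:ℝ)*p*r^(6:ℕ) + (759300000:ℝ)*p*q*r^(5:ℕ) + (1924800000:ℝ)*p*q^(2:ℕ)*r^(4:ℕ)
      + (2494784000:ℝ)*p*q^(3:ℕ)*r^(3:ℕ) + (1733452800:ℝ)*p*q^(4:ℕ)*r^(2:ℕ)
      + (607764480:ℝ)*p*q^(5:ℕ)*r + (83427328:ℝ)*p*q^(6:ℕ) + (446250000:ℝ)*p^(2:ℕ)*r^(5:ℕ)
      + (2309280000:ℝ)*p^(2:ℕ)*q*r^(4:ℕ) + (4603404000:ℝ)*p^(2:ℕ)*q^(2:ℕ)*r^(3:ℕ)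
      + (4398240000:ℝ)*p^(2:ℕ)*q^(3:ℕ)*r^(2:ℕ) + (2002421760:ℝ)*p^(2:ℕ)*q^(4:ℕ)*r
      + (345096192:ℝ)*p^(2:ℕ)*q^(5:ℕ) + (910910000:ℝ)*p^(3:ℕ)*r^(4:ℕ)
      + (3709844000:ℝ)*p^(3:ℕ)*q*r^(3:ℕ) + (5456179200:ℝ)*p^(3:ℕ)*q^(2:ℕ)*r^(2:ℕ)
      + (3419187200:ℝ)*p^(3:ℕ)*q^(3:ℕ)*r + (765820928:ℝ)*p^(3:ℕ)*q^(4:ℕ)
      + (1104728000:ℝ)*p^(4:ℕ)*r^(3:ℕ) + (3321657600:ℝ)*p^(4:ℕ)*q*r^(2:ℕ)
      + (3206768640:ℝ)*p^(4:ℕ)*q^(2:ℕ)*r + (989560832:ℝ)*p^(4:ℕ)*q^(3:ℕ)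
      + (796224000:ℝ)*p^(5:ℕ)*r^(2:ℕ) + (1572403200:ℝ)*p^(5:ℕ)*q*r + (748093440:ℝ)*p^(5:ℕ)*q^(2:ℕ)
      + (315904000:ℝ)*p^(6:ℕ)*r + (307609600:ℝ)*p^(6:ℕ)*q + (53248000:ℝ)*p^(7:ℕ) :=
    fun p q r _ _ _ => by positivity
  have p0 : 0 ≤ θ - e := by linarith
  have q0 : 0 ≤ 1 / 2 - θ := by linarith
  have r0 : 0 ≤ e - 1 / 5 := by linarith
  have x0 : 0 ≤ 1 - 3 * a := by linarith
  have t := add_nonneg (add_nonneg (mul_nonneg (pow_nonneg a0 3) (k0 _ _ _ p0 q0 r0))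
    (mul_nonneg (mul_nonneg x0 (pow_nonneg a0 2)) (k1 _ _ _ p0 q0 r0)))
    (add_nonneg (mul_nonneg (mul_nonneg (pow_nonneg x0 2) a0) (k2 _ _ _ p0 q0 r0))
    (mul_nonneg (pow_nonneg x0 3) (k3 _ _ _ p0 q0 r0)))
  apply nonneg_of_mul_nonneg_right (a := (107163 : ℝ)) _ (by norm_num)
  refine t.trans (le_of_eq ?_)
  ring

lemma near (H : Hyp a θ w g A Φ c G) (h1 : a ≤ θ) (h2 : a ≤ 1 / 3) (x : ι) (hx : a ≤ g x)
    (he : 1 - g x ≤ 1 / 5) : Goal a θ w g Φ c G := by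
  have t0 := H.th0
  have a0 := H.a0
  have p : 0 < 1 - a := by linarith
  have e0 : 0 ≤ 1 - g x := by linarith [H.g1 x]
  have W1 := H.w1 x
  have hv : a * (1 - a) ≤ θ * (1 - a) := mul_le_mul_of_nonneg_right h1 p.le
  have W2 : w x ≤ 2 := by
    by_contra h
    have := H.par_up x (W := 2) (by norm_num) le_rfl (by linarith)
    nlinarith
  have pu := H.par_up x W1 W2 le_rfl
  obtain ⟨B, hB⟩ : ∃ B, B = a * (1 - a) / θ := ⟨_, rfl⟩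
  have hB' : θ * B = a * (1 - a) := by rw [hB]; exact mul_div_cancel₀ _ t0.ne'
  obtain ⟨z, hz⟩ : ∃ z, z * (1 - a) = w x * (g x - a) + (2 - w x) * a * (1 - g x) :=
    ⟨_, div_mul_cancel₀ _ p.ne'⟩
  have n0 : 0 ≤ (2 - w x) * a * (1 - g x) := mul_nonneg (mul_nonneg (by linarith) a0.le) e0
  have z0 : 0 ≤ z := by
    apply nonneg_of_mul_nonneg_left _ p
    rw [hz]; nlinarith
  have z2 : θ * z ≤ a := by
    apply le_of_mul_le_mul_right _ p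
    rw [mul_assoc, hz]; exact pu
  have z1 : z ≤ 1 := by
    apply le_of_mul_le_mul_left _ t0
    linarith
  have B1 : B ≤ 1 - a := by
    apply le_of_mul_le_mul_left _ t0
    linarith
  have B2 : z * (1 - a) ≤ B := by
    apply le_of_mul_le_mul_left _ t0
    rw [hz]; linarith
  refine master H x hx (l := a) (η := 2 * (a - θ * z)) W1 W2 le_rfl a0.le h1 (by linarith)
    (plus2 H x hx) (fun y y0 y1 => ?_) ?_
  · rcases le_total y (θ * z) with h | h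
    · have hA : (1 - y) * z ≤ w x * (g x - y) + (2 - w x) * y * (1 - g x) := by
        apply le_of_mul_le_mul_right _ p
        rw [mul_assoc, hz]
        nlinarith [mul_nonneg (mul_nonneg (sub_nonneg.2 y1.le) (sub_nonneg.2 W1)) e0]
      obtain ⟨u, u0, u1, u2⟩ := pt t0.le (by linarith [H.th1]) z0 z1 zero_le_one le_rfl y0
        (by linarith) h hA
      refine ⟨u, u0, by linarith, ?_⟩
      nlinarith [mul_nonneg (sub_nonneg.2 z1) (sq_nonneg (θ * z - y)), sq_nonneg (a - θ * z)]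
    · refine ⟨0, le_rfl, a0.le, ?_⟩
      nlinarith [mul_nonneg (sub_nonneg.2 y1.le) (show 0 ≤ 2 * (a - θ * z) - (a - y) by linarith)]
  · rw [← hB]
    have U1 : a * (1 - g x) ≤ g x - a := by nlinarith
    have f := finN (e := 1 - g x) (o := w x - 1) (h := B - z * (1 - a)) a0.le h2 e0 he
      (by linarith) (by linarith) (by linarith) (by
        rw [hz]; nlinarith [mul_nonneg (sub_nonneg.2 W1) (sub_nonneg.2 U1)])
    have e : θ * z * B = a * (z * (1 - a)) := by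
      calc θ * z * B = z * (θ * B) := by ring
        _ = _ := by rw [hB']; ring
    rw [hz] at f e
    nlinarith

lemma plus3 (H : Hyp a θ w g A Φ c G) (x : ι) (hx : a ≤ g x) (hU : ∀ j, g j ≤ g x) {m : ℝ}
    (m0 : 0 ≤ m) (m1 : m ≤ a * (1 - g x)) :
    ∑ j, w j * max (g j - a) 0 ^ 2 ≤ a * (1 - a) / θ * (g x - a)
      - m * (2 * (g x - a) - a * (1 - a) / θ) := by
  have t0 := H.th0
  have p1 := plus1 H (sub_nonneg.2 hx) (fun j => by linarith [hU j])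
  have p2 := plus2 H x hx
  obtain ⟨B, hB⟩ : ∃ B, B = a * (1 - a) / θ := ⟨_, rfl⟩
  have hB' : θ * B = a * (1 - a) := by rw [hB]; exact mul_div_cancel₀ _ t0.ne'
  rw [← hB] at p1 p2 ⊢
  rcases le_or_gt (2 * (g x - a)) B with h | h
  · nlinarith [mul_nonneg m0 (sub_nonneg.2 h)]
  have W1 := H.w1 x
  have W2 : w x ≤ 2 := by
    by_contra h'
    have := H.par_up x (W := 2) (by norm_num) le_rfl (by linarith)
    nlinarith
  have pu : w x * (g x - a) + (2 - w x) * a * (1 - g x) ≤ B := by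
    apply le_of_mul_le_mul_left _ t0
    linarith [H.par_up x W1 W2 le_rfl]
  obtain ⟨U, hU'⟩ : ∃ U, U = g x - a := ⟨_, rfl⟩
  obtain ⟨E, hE⟩ : ∃ E, E = a * (1 - g x) := ⟨_, rfl⟩
  rw [mul_assoc, ← hE] at pu
  rw [← hE] at m1
  rw [← hU'] at p1 p2 h pu ⊢
  have U0 : 0 ≤ U := by linarith
  have E0 : 0 ≤ E := m0.trans m1
  obtain ⟨r, hr⟩ : ∃ r, r = B - w x * U := ⟨_, rfl⟩
  have r0 : (2 - w x) * E ≤ r := by linarith
  have r1 : 0 ≤ r := le_trans (mul_nonneg (by linarith) E0) r0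
  have r2 : r ≤ U := by nlinarith [mul_nonneg (sub_nonneg.2 W1) U0]
  have k : E * (2 * U - B) ≤ r * (U - r) := by
    have e : 2 * U - B = (2 - w x) * U - r := by rw [hr]; ring
    rw [e]
    rcases le_total r E with h3 | h3
    · nlinarith [mul_nonneg (sub_nonneg.2 r0) U0, mul_nonneg r1 (sub_nonneg.2 h3)]
    · nlinarith [mul_nonneg (sub_nonneg.2 h3) (sub_nonneg.2 r2),
        mul_nonneg (mul_nonneg (sub_nonneg.2 W1) E0) U0]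
  have k2 := mul_le_mul_of_nonneg_right m1 (show 0 ≤ 2 * U - B by linarith)
  have e2 : w x * U ^ 2 + (B - w x * U) ^ 2 = B * U - r * (U - r) := by rw [hr]; ring
  linarith

lemma far (H : Hyp a θ w g A Φ c G) (h2 : a ≤ 1 / 3) (x : ι) (hx : a ≤ g x)
    (hU : ∀ j, g j ≤ g x) (he : 1 / 5 ≤ 1 - g x) (he' : 1 - g x ≤ θ) : Goal a θ w g Φ c G := by
  have t0 := H.th0
  have t1 := H.th1
  have a0 := H.a0
  have G0 := H.g0 x
  have G1 := H.g1 x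
  have pu := H.pu x
  have tG : 0 ≤ θ * g x := mul_nonneg t0.le G0
  obtain ⟨k, hk⟩ : ∃ k, k = 4 / 7 * (2 - 4 / 7 * g x) := ⟨_, rfl⟩
  have k0 : 0 ≤ k := by rw [hk]; linarith
  have k1 : k ≤ 1 := by rw [hk]; linarith
  obtain ⟨d, hd⟩ : ∃ d, d * a = k * (θ * g x) ^ 2 := ⟨_, div_mul_cancel₀ _ a0.ne'⟩
  have d1 : d ≤ θ * g x := by
    apply le_of_mul_le_mul_right _ a0
    rw [hd]
    nlinarith [mul_nonneg (sub_nonneg.2 k1) (sq_nonneg (θ * g x)), mul_nonneg tG (sub_nonneg.2 pu)]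
  refine master H x hx (W := 1) (l := 4 / 7 * (θ * g x)) (η := a - d) le_rfl (by norm_num) (H.w1 x)
    (by linarith) (by nlinarith) (by linarith)
    (plus3 H x hx hU (m := a * ((1 - g x) / 2 + 1 / 10)) (mul_nonneg a0.le (by linarith))
      (mul_le_mul_of_nonneg_left (by linarith) a0.le)) (fun y y0 y1 => ?_) ?_
  · rcases le_total y (θ * g x) with h | h
    · obtain ⟨u, u0, u1, u2⟩ := pt (A := 1 * (g x - y) + (2 - 1) * y * (1 - g x)) (γ := 4 / 7) t0.le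
        (by linarith) G0 G1 (by norm_num) (by norm_num) y0 (by linarith) h (le_of_eq (by ring))
      refine ⟨u, u0, u1, le_trans ?_ (add_le_add_right u2 _)⟩
      rw [← hk]
      apply le_of_mul_le_mul_right _ a0
      have e : ((a - d) * (a - y) + k * (θ * g x - y) ^ 2) * a - (a - y) ^ 2 * a
          = y * (a * a - a * y - k * (2 * a * (θ * g x) - (θ * g x) ^ 2 - a * y)) := by
        linear_combination (y - a) * hd
      have b1 : 0 ≤ 2 * a * (θ * g x) - (θ * g x) ^ 2 - a * y := by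
        nlinarith [mul_nonneg tG (sub_nonneg.2 pu), mul_nonneg a0.le (sub_nonneg.2 h)]
      have b2 := mul_le_mul_of_nonneg_right k1 b1
      have b3 : 0 ≤ y * (a * a - a * y - k * (2 * a * (θ * g x) - (θ * g x) ^ 2 - a * y)) :=
        mul_nonneg y0 (by nlinarith [sq_nonneg (a - θ * g x)])
      linarith
    · refine ⟨0, le_rfl, by linarith, ?_⟩
      nlinarith [mul_nonneg (sub_nonneg.2 y1.le) (show 0 ≤ (a - d) - (a - y) by linarith)]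
  · have f := finF a0.le h2 he he' t1
    obtain ⟨B, hB⟩ : ∃ B, B = a * (1 - a) / θ := ⟨_, rfl⟩
    have hB' : θ * B = a * (1 - a) := by rw [hB]; exact mul_div_cancel₀ _ t0.ne'
    rw [← hB]
    apply le_of_mul_le_mul_left _ t0
    rw [hk] at hd
    have e : θ * ((1 - θ) * B) - θ * (B * (g x - a) - a * ((1 - g x) / 2 + 1 / 10)
        * (2 * (g x - a) - B) + (a - d) * B + 4 / 7 * (θ * g x) * (2 - 4 / 7 * (θ * g x))
        * (1 * (g x * (1 - g x)))) = a * (1 - a) * ((1 - g x) - θ) + a * ((1 - g x) / 2 + 1 / 10)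
        * (2 * (1 - a - (1 - g x)) * θ - a * (1 - a)) + 4 / 7 * θ ^ 2 * (1 - (1 - g x)) ^ 2
        * (2 * (1 - a - (1 - g x)) - 4 / 7 * (1 - (1 - g x)) * (1 - a - θ * (1 - g x))) := by
      linear_combination (1 - θ - g x - a * ((1 - g x) / 2 + 1 / 10) + d) * hB' + (1 - a) * hd
    linarith

end C36

/-- the inequality (F) for `a ≤ θ`, `a ≤ 1/3` -/
theorem st_C : St_R (fun a θ => a ≤ θ ∧ a ≤ 1 / 3) := by
  intro ι _ _ a θ w g A Φ c G H ⟨h1, h2⟩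
  have t0 := H.th0
  have a0 := H.a0
  have B0 : 0 ≤ a * (1 - a) / θ := div_nonneg (mul_nonneg a0.le (by linarith)) t0.le
  rcases isEmpty_or_nonempty ι with hι | hι
  · unfold Goal Ed
    simp only [univ_eq_empty, sum_empty, mul_zero, add_zero]
    rw [mul_div_assoc]
    exact mul_nonneg (by linarith [H.th1]) B0
  obtain ⟨x, -, hx⟩ := exists_max_image univ g univ_nonempty
  have hU : ∀ j, g j ≤ g x := fun j => hx j (mem_univ j)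
  have gx : a ≤ g x := by
    by_contra h
    have : ∑ j, w j * (g j - a) < 0 := sum_neg (fun j _ =>
      mul_neg_of_pos_of_neg (by linarith [H.w1 j]) (by linarith [hU j])) univ_nonempty
    linarith [H.bal]
  rcases le_total (1 - g x) (1 / 5) with he | he
  · exact C36.near H h1 h2 x gx he
  rcases le_total (1 - g x) θ with he' | he'
  · exact C36.far H h2 x gx hU he he'
  refine C36.master H x gx (W := 1) (l := 0) (η := a) le_rfl (by norm_num) (H.w1 x) le_rfl t0.le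
    a0.le (C36.plus1 H (sub_nonneg.2 gx) (fun j => by linarith [hU j])) (fun y y0 y1 => ?_) ?_
  · exact ⟨0, le_rfl, le_rfl, by nlinarith⟩
  · nlinarith [mul_nonneg B0 (sub_nonneg.2 he')]

end Pool.Agent.Lib.MP_43bc59_co
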