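import Pool.Agent.Lib.MP_43bc59_co.F_Q

set_option autoImplicit false
set_option maxRecDepth 100000

namespace Pool.Agent.Lib.MP_43bc59_co

namespace P36.D1

open Bx

def o : Tr := .lf [1]

def z : Ck := ⟨0, o⟩

def T1 : CT :=
  (.sa 100 (.sa 90 (.sx 78 (.sy 70 (.pr false false 40 70 [(⟨128, o⟩, ⟨128, o⟩)]) (.pr false true
  68 115 [(⟨131, o⟩, ⟨131, o⟩), (⟨131, o⟩, ⟨131, o⟩), (⟨127, o⟩, ⟨124, o⟩)])) .ra) (.st 87 (.pr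
  false false 100 73 [(⟨130, o⟩, ⟨130, o⟩)]) (.sa 95 (.sx 81 (.pr false false 66 70 [(⟨129, o⟩,
  ⟨129, o⟩)]) .ra) (.st 90 (.pr false false 100 73 [(⟨130, o⟩, ⟨130, o⟩)]) (.sx 88 (.pr false
  false 81 70 [(⟨130, o⟩, ⟨130, o⟩)]) .ra))))) (.pr false false 100 77 [(⟨131, o⟩, ⟨131, o⟩)]))

theorem cov1 : Cov 100 80 120 80 94 0 100 0 100 :=
  T1.sound _ _ _ _ _ _ _ _ _ (by decide +kernel)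

def T2 : CT :=
  (.sa 90 (.st 101 (.sx 68 (.sy 70 (.pr false false 33 55 [(⟨127, o⟩, ⟨127, o⟩)]) (.pr false true
  59 85 [(⟨129, o⟩, ⟨129, o⟩), (⟨129, o⟩, ⟨129, o⟩), (⟨125, o⟩, ⟨123, o⟩)])) .ra) (.sx 63 (.sy 70
  (.pr false false 29 55 [(⟨127, o⟩, ⟨127, o⟩)]) (.pr false true 53 115 [(⟨130, o⟩, ⟨131, o⟩),
  (⟨130, o⟩, ⟨131, o⟩), (⟨126, o⟩, ⟨124, o⟩)])) .ra)) (.st 101 (.sa 95 (.sx 76 (.sy 70 (.pr false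
  false 42 70 [(⟨128, o⟩, ⟨129, o⟩)]) (.pr false true 70 85 [(⟨130, o⟩, ⟨130, o⟩), (⟨130, o⟩,
  ⟨130, o⟩), (⟨126, o⟩, ⟨123, o⟩)])) .ra) (.sx 85 (.sy 70 (.pr false false 50 70 [(⟨129, o⟩,
  ⟨129, o⟩)]) (.pr false true 78 93 [(⟨130, o⟩, ⟨131, o⟩), (⟨130, o⟩, ⟨131, o⟩), (⟨126, o⟩, ⟨124,
  o⟩)])) .ra)) (.sa 95 (.st 104 (.sx 71 (.sy 70 (.pr false false 38 55 [(⟨128, o⟩, ⟨128, o⟩)])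
  (.pr false true 66 85 [(⟨130, o⟩, ⟨130, o⟩), (⟨130, o⟩, ⟨130, o⟩), (⟨125, o⟩, ⟨123, o⟩)])) .ra)
  (.sx 69 (.sy 85 (.sy 55 (.pr false false 28 70 [(⟨128, o⟩, ⟨128, o⟩)]) (.pr false true 54 100
  [(⟨130, o⟩, ⟨130, o⟩), (⟨130, o⟩, ⟨130, o⟩), (⟨125, o⟩, ⟨123, o⟩)])) (.pr false true 66 85
  [(⟨130, o⟩, ⟨130, o⟩), (⟨130, o⟩, ⟨130, o⟩), (⟨125, o⟩, ⟨123, o⟩)])) .ra)) (.st 104 (.sx 79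
  (.sy 70 (.pr false false 44 70 [(⟨129, o⟩, ⟨129, o⟩)]) (.pr false true 73 115 [(⟨131, o⟩, ⟨132,
  o⟩), (⟨131, o⟩, ⟨132, o⟩), (⟨127, o⟩, ⟨125, o⟩)])) .ra) (.sa 97 (.sx 72 (.sy 80 (.pr false
  false 43 55 [(⟨128, o⟩, ⟨128, o⟩)]) (.pr false true 70 85 [(⟨130, o⟩, ⟨130, o⟩), (⟨130, o⟩,
  ⟨130, o⟩), (⟨126, o⟩, ⟨123, o⟩)])) .ra) (.st 106 (.sx 77 (.sy 70 (.pr false false 44 70 [(⟨129,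
  o⟩, ⟨129, o⟩)]) (.pr false true 72 85 [(⟨130, o⟩, ⟨130, o⟩), (⟨130, o⟩, ⟨130, o⟩), (⟨126, o⟩,
  ⟨124, o⟩)])) .ra) (.sx 75 (.sy 90 (.sy 70 (.pr false false 41 70 [(⟨129, o⟩, ⟨129, o⟩)]) (.pr
  false true 67 100 [(⟨130, o⟩, ⟨131, o⟩), (⟨130, o⟩, ⟨131, o⟩), (⟨126, o⟩, ⟨123, o⟩)])) (.pr
  false true 75 85 [(⟨130, o⟩, ⟨130, o⟩), (⟨130, o⟩, ⟨130, o⟩), (⟨126, o⟩, ⟨124, o⟩)]))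
  .ra)))))))

theorem cov2 : Cov 100 80 100 94 108 0 100 0 100 :=
  T2.sound _ _ _ _ _ _ _ _ _ (by decide +kernel)

def T3 : CT :=
  (.st 101 (.sa 105 (.sx 94 (.sy 80 (.sy 60 (.pr false false 56 81 [(⟨129, o⟩, ⟨130, o⟩)]) (.pr
  false true 74 102 [(⟨143, (.nd 3 (.nd 2 o o) o)⟩, ⟨131, o⟩), (⟨131, o⟩, ⟨131, o⟩), (⟨126, o⟩,
  ⟨124, o⟩)])) (.pr false true 90 85 [(⟨131, o⟩, ⟨131, o⟩), (⟨131, o⟩, ⟨131, o⟩), (⟨126, o⟩,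
  ⟨124, o⟩)])) .ra) (.sx 85 (.pr false false 80 70 [(⟨130, o⟩, ⟨130, o⟩)]) (.sy 97 (.sy 87 (.pr
  true false 89 84 [(⟨131, o⟩, ⟨131, o⟩), (⟨131, o⟩, ⟨131, o⟩), (z, ⟨127, o⟩)]) (.pr true true 97
  63 [(⟨131, o⟩, ⟨131, o⟩), (⟨131, o⟩, ⟨131, o⟩), (⟨127, o⟩, ⟨125, o⟩), (⟨131, o⟩, ⟨131, o⟩),
  (⟨131, o⟩, ⟨131, o⟩), (⟨127, o⟩, ⟨125, o⟩), (z, ⟨127, o⟩), (z, ⟨127, o⟩), (z, ⟨124, o⟩)])) (.pr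
  true true 100 55 [(⟨131, o⟩, ⟨131, o⟩), (⟨131, o⟩, ⟨131, o⟩), (⟨127, o⟩, ⟨125, o⟩), (⟨131, o⟩,
  ⟨131, o⟩), (⟨131, o⟩, ⟨131, o⟩), (⟨127, o⟩, ⟨125, o⟩), (z, ⟨127, o⟩), (z, ⟨127, o⟩), (z, ⟨124,
  o⟩)])))) (.sa 105 (.st 104 (.sx 89 (.sy 90 (.sy 75 (.sy 55 (.pr false false 46 77 [(⟨129, o⟩,
  ⟨129, o⟩)]) (.pr false true 64 106 [(⟨161, (.nd 3 (.nd 2 o (.nd 3 (.nd 2 o (.nd 3 o o)) o))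
  o)⟩, ⟨131, o⟩), (⟨131, o⟩, ⟨131, o⟩), (⟨126, o⟩, ⟨124, o⟩)])) (.pr false true 80 85 [(⟨130, o⟩,
  ⟨131, o⟩), (⟨130, o⟩, ⟨131, o⟩), (⟨126, o⟩, ⟨124, o⟩)])) (.pr false true 88 70 [(⟨130, o⟩,
  ⟨130, o⟩), (⟨130, o⟩, ⟨130, o⟩), (⟨126, o⟩, ⟨124, o⟩)])) .ra) (.sa 102 (.st 106 (.sx 80 (.sy 70
  (.pr false false 47 70 [(⟨129, o⟩, ⟨129, o⟩)]) (.pr false true 76 115 [(⟨131, o⟩, ⟨132, o⟩),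
  (⟨132, o⟩, ⟨132, o⟩), (⟨127, o⟩, ⟨125, o⟩)])) .rb) (.sx 79 (.sy 95 (.sy 85 (.sy 65 (.pr false
  false 43 70 [(⟨129, o⟩, ⟨129, o⟩)]) (.pr false true 68 130 [(⟨137, (.nd 3 o o)⟩, ⟨132, o⟩),
  (⟨137, (.nd 3 o o)⟩, ⟨132, o⟩), (⟨128, o⟩, ⟨126, o⟩)])) (.pr false true 77 70 [(⟨130, o⟩, ⟨130,
  o⟩), (⟨130, o⟩, ⟨130, o⟩), (⟨126, o⟩, ⟨124, o⟩)])) (.pr false true 81 70 [(⟨130, o⟩, ⟨130, o⟩),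
  (⟨130, o⟩, ⟨130, o⟩), (⟨126, o⟩, ⟨124, o⟩)])) .ra)) (.st 106 (.sx 85 (.sy 80 (.sy 60 (.pr false
  false 46 78 [(⟨129, o⟩, ⟨129, o⟩)]) (.pr false true 67 109 [(⟨136, (.nd 3 o o)⟩, ⟨131, o⟩),
  (⟨131, o⟩, ⟨131, o⟩), (⟨127, o⟩, ⟨124, o⟩)])) (.pr false true 83 85 [(⟨131, o⟩, ⟨131, o⟩),
  (⟨131, o⟩, ⟨131, o⟩), (⟨126, o⟩, ⟨124, o⟩)])) .rb) (.sa 103 (.sx 81 (.sy 85 (.sy 65 (.pr false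
  false 45 70 [(⟨129, o⟩, ⟨129, o⟩)]) (.pr false true 70 115 [(⟨136, (.nd 3 o o)⟩, ⟨132, o⟩),
  (⟨131, o⟩, ⟨132, o⟩), (⟨127, o⟩, ⟨125, o⟩)])) (.pr false true 81 100 [(⟨131, o⟩, ⟨131, o⟩),
  (⟨131, o⟩, ⟨131, o⟩), (⟨126, o⟩, ⟨124, o⟩)])) .ra) (.sx 84 (.sy 90 (.sy 70 (.pr false false 51
  70 [(⟨129, o⟩, ⟨129, o⟩)]) (.pr false true 76 100 [(⟨131, o⟩, ⟨177, (.nd 2 o (.nd 3 (.nd 2 o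
  (.nd 3 o (.nd 2 o (.nd 3 o (.nd 2 o o))))) o))⟩), (⟨131, o⟩, ⟨131, o⟩), (⟨126, o⟩, ⟨124, o⟩)]))
  (.pr false true 85 85 [(⟨131, o⟩, ⟨131, o⟩), (⟨131, o⟩, ⟨131, o⟩), (⟨126, o⟩, ⟨124, o⟩)]))
  .rb))))) (.st 104 (.sx 99 (.sx 84 (.sy 70 (.pr false false 57 77 [(⟨130, o⟩, ⟨130, o⟩)]) (.pr
  false true 85 115 [(⟨137, (.nd 3 o o)⟩, ⟨132, o⟩), (⟨132, o⟩, ⟨132, o⟩), (⟨128, o⟩, ⟨125,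
  o⟩)])) (.sy 85 (.sy 70 (.sy 55 (.pr true false 65 94 [(⟨131, o⟩, ⟨131, o⟩), (⟨139, (.nd 2 o
  o)⟩, ⟨136, (.nd 3 o o)⟩), (z, ⟨131, (.nd 3 o o)⟩)]) (.pr true true 74 101 [(⟨131, o⟩, ⟨132,
  o⟩), (⟨131, o⟩, ⟨132, o⟩), (⟨127, o⟩, ⟨124, o⟩), (⟨131, o⟩, ⟨132, o⟩), (⟨132, o⟩, ⟨132, o⟩),
  (⟨127, o⟩, ⟨124, o⟩), (z, ⟨127, o⟩), (z, ⟨127, o⟩), (z, ⟨124, o⟩)])) (.pr true true 86 93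
  [(⟨132, o⟩, ⟨132, o⟩), (⟨132, o⟩, ⟨132, o⟩), (⟨127, o⟩, ⟨125, o⟩), (⟨140, (.nd 2 o o)⟩, ⟨137,
  (.nd 3 o o)⟩), (⟨132, o⟩, ⟨137, (.nd 3 o o)⟩), (⟨127, o⟩, ⟨125, o⟩), (z, ⟨132, (.nd 3 o o)⟩),
  (z, ⟨132, (.nd 3 o o)⟩), (z, ⟨124, o⟩)])) (.pr true true 96 78 [(⟨131, o⟩, ⟨132, o⟩), (⟨131,
  o⟩, ⟨132, o⟩), (⟨127, o⟩, ⟨125, o⟩), (⟨131, o⟩, ⟨132, o⟩), (⟨132, o⟩, ⟨132, o⟩), (⟨127, o⟩,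
  ⟨125, o⟩), (z, ⟨132, (.nd 3 o o)⟩), (z, ⟨127, o⟩), (z, ⟨124, o⟩)]))) .ra) (.sa 107 (.sx 88 (.sy
  90 (.sy 75 (.sy 60 (.pr false false 49 77 [(⟨129, o⟩, ⟨130, o⟩)]) (.pr false true 63 98 [(⟨143,
  (.nd 3 (.nd 2 o o) o)⟩, ⟨131, o⟩), (⟨130, o⟩, ⟨131, o⟩), (⟨126, o⟩, ⟨123, o⟩)])) (.pr false
  true 81 89 [(⟨139, (.nd 2 o o)⟩, ⟨139, (.nd 2 o o)⟩), (⟨131, o⟩, ⟨131, o⟩), (⟨126, o⟩, ⟨124,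
  o⟩)])) (.pr false true 89 70 [(⟨130, o⟩, ⟨131, o⟩), (⟨130, o⟩, ⟨131, o⟩), (⟨126, o⟩, ⟨124,
  o⟩)])) .rb) (.sx 94 (.sx 79 (.sy 70 (.pr false false 51 70 [(⟨129, o⟩, ⟨129, o⟩)]) (.pr false
  true 76 100 [(⟨139, (.nd 2 o o)⟩, ⟨131, o⟩), (⟨131, o⟩, ⟨131, o⟩), (⟨126, o⟩, ⟨124, o⟩)])) (.sy
  95 (.sy 85 (.sy 75 (.sy 60 (.sy 40 (.pr true false 40 84 [(⟨130, o⟩, ⟨130, o⟩), (⟨130, o⟩,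
  ⟨130, o⟩), (z, ⟨125, o⟩)]) (.pr true true 58 143 [(⟨133, o⟩, ⟨133, o⟩), (⟨133, o⟩, ⟨133, o⟩),
  (⟨129, o⟩, ⟨127, o⟩), (⟨141, (.nd 2 o o)⟩, ⟨133, o⟩), (⟨133, o⟩, ⟨138, (.nd 3 o o)⟩), (⟨129,
  o⟩, ⟨127, o⟩), (z, ⟨133, (.nd 3 o o)⟩), (z, ⟨138, (.nd 3 (.nd 3 o o) o)⟩), (z, ⟨126, o⟩)]))
  (.pr true true 72 99 [(⟨131, o⟩, ⟨132, o⟩), (⟨131, o⟩, ⟨132, o⟩), (⟨127, o⟩, ⟨124, o⟩), (⟨139,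
  (.nd 2 o o)⟩, ⟨132, o⟩), (⟨131, o⟩, ⟨132, o⟩), (⟨127, o⟩, ⟨124, o⟩), (z, ⟨126, o⟩), (z, ⟨136,
  (.nd 3 (.nd 3 o o) o)⟩), (z, ⟨124, o⟩)])) (.pr true true 84 94 [(⟨132, o⟩, ⟨132, o⟩), (⟨132,
  o⟩, ⟨132, o⟩), (⟨127, o⟩, ⟨125, o⟩), (⟨140, (.nd 2 o o)⟩, ⟨132, o⟩), (⟨132, o⟩, ⟨132, o⟩),
  (⟨127, o⟩, ⟨125, o⟩), (z, ⟨132, (.nd 3 o o)⟩), (z, ⟨132, (.nd 3 o o)⟩), (z, ⟨124, o⟩)])) (.pr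
  true true 89 78 [(⟨131, o⟩, ⟨131, o⟩), (⟨131, o⟩, ⟨131, o⟩), (⟨127, o⟩, ⟨125, o⟩), (⟨131, o⟩,
  ⟨132, o⟩), (⟨131, o⟩, ⟨132, o⟩), (⟨127, o⟩, ⟨125, o⟩), (z, ⟨127, o⟩), (z, ⟨127, o⟩), (z, ⟨124,
  o⟩)])) (.pr true true 93 57 [(⟨131, o⟩, ⟨131, o⟩), (⟨131, o⟩, ⟨131, o⟩), (⟨127, o⟩, ⟨125, o⟩),
  (⟨131, o⟩, ⟨131, o⟩), (⟨131, o⟩, ⟨131, o⟩), (⟨127, o⟩, ⟨125, o⟩), (z, ⟨127, o⟩), (z, ⟨127, o⟩),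
  (z, ⟨124, o⟩)]))) .rb)))))

theorem cov3 : Cov 100 100 110 94 108 0 100 0 100 :=
  T3.sound _ _ _ _ _ _ _ _ _ (by decide +kernel)

def T4 : CT :=
  (.st 101 (.pr false false 100 81 [(⟨139, (.nd 2 o o)⟩, ⟨139, (.nd 2 o o)⟩)]) (.sa 115 (.st 104
  (.sy 95 (.pr false false 97 92 [(⟨131, o⟩, ⟨144, (.nd 2 o (.nd 3 o o))⟩)]) (.pr false true 100
  70 [(⟨131, o⟩, ⟨131, o⟩), (⟨131, o⟩, ⟨131, o⟩), (⟨127, o⟩, ⟨125, o⟩)])) (.sa 112 (.sx 97 (.sx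
  82 (.sy 70 (.pr false false 56 75 [(⟨130, o⟩, ⟨130, o⟩)]) (.pr false true 76 100 [(⟨144, (.nd 3
  (.nd 2 o o) o)⟩, ⟨131, o⟩), (⟨131, o⟩, ⟨131, o⟩), (⟨127, o⟩, ⟨124, o⟩)])) (.sy 85 (.sy 65 (.sy
  45 (.pr true false 50 86 [(⟨130, o⟩, ⟨130, o⟩), (⟨130, o⟩, ⟨131, o⟩), (z, ⟨126, o⟩)]) (.pr true
  true 66 129 [(⟨133, o⟩, ⟨133, o⟩), (⟨133, o⟩, ⟨133, o⟩), (⟨129, o⟩, ⟨126, o⟩), (⟨133, o⟩, ⟨133,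
  o⟩), (⟨133, o⟩, ⟨133, o⟩), (⟨129, o⟩, ⟨126, o⟩), (z, ⟨128, o⟩), (z, ⟨128, o⟩), (z, ⟨126, o⟩)]))
  (.pr true true 82 110 [(⟨140, (.nd 2 o o)⟩, ⟨133, o⟩), (⟨132, o⟩, ⟨133, o⟩), (⟨128, o⟩, ⟨125,
  o⟩), (⟨132, o⟩, ⟨137, (.nd 3 o o)⟩), (⟨132, o⟩, ⟨137, (.nd 3 o o)⟩), (⟨128, o⟩, ⟨126, o⟩), (z,
  ⟨132, (.nd 3 o o)⟩), (z, ⟨132, (.nd 3 o o)⟩), (z, ⟨125, o⟩)])) (.pr true true 93 87 [(⟨132, o⟩,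
  ⟨132, o⟩), (⟨132, o⟩, ⟨132, o⟩), (⟨127, o⟩, ⟨125, o⟩), (⟨132, o⟩, ⟨132, o⟩), (⟨132, o⟩, ⟨137,
  (.nd 3 o o)⟩), (⟨127, o⟩, ⟨125, o⟩), (z, ⟨127, o⟩), (z, ⟨132, (.nd 3 o o)⟩), (z, ⟨125, o⟩)])))
  .rb) (.st 106 (.sy 95 (.pr false false 94 89 [(⟨139, (.nd 2 o o)⟩, ⟨160, (.nd 2 o (.nd 3 (.nd 2
  (.nd 2 o o) o) (.nd 2 o (.nd 3 o o))))⟩)]) (.pr false true 100 70 [(⟨131, o⟩, ⟨131, o⟩), (⟨131,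
  o⟩, ⟨131, o⟩), (⟨127, o⟩, ⟨125, o⟩)])) (.sa 113 (.sx 98 (.sx 83 (.sy 80 (.pr false false 65 73
  [(⟨130, o⟩, ⟨130, o⟩)]) (.pr false true 86 89 [(⟨131, o⟩, ⟨131, o⟩), (⟨131, o⟩, ⟨131, o⟩),
  (⟨127, o⟩, ⟨124, o⟩)])) (.sy 85 (.sy 65 (.pr true false 72 97 [(⟨131, o⟩, ⟨131, o⟩), (⟨131, o⟩,
  ⟨136, (.nd 3 o o)⟩), (z, ⟨131, (.nd 3 o o)⟩)]) (.pr true true 84 130 [(⟨133, o⟩, ⟨134, o⟩),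
  (⟨133, o⟩, ⟨134, o⟩), (⟨129, o⟩, ⟨127, o⟩), (⟨141, (.nd 2 o o)⟩, ⟨138, (.nd 3 o o)⟩), (⟨134,
  o⟩, ⟨139, (.nd 3 o o)⟩), (⟨129, o⟩, ⟨127, o⟩), (z, ⟨134, (.nd 3 o o)⟩), (z, ⟨134, (.nd 3 o
  o)⟩), (z, ⟨126, o⟩)])) (.pr true true 95 80 [(⟨132, o⟩, ⟨132, o⟩), (⟨132, o⟩, ⟨132, o⟩), (⟨127,
  o⟩, ⟨125, o⟩), (⟨132, o⟩, ⟨132, o⟩), (⟨132, o⟩, ⟨132, o⟩), (⟨127, o⟩, ⟨125, o⟩), (z, ⟨127, o⟩),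
  (z, ⟨127, o⟩), (z, ⟨125, o⟩)]))) .rb) (.sa 114 (.st 107 (.sx 85 (.sy 80 (.pr false false 69 77
  [(⟨130, o⟩, ⟨130, o⟩)]) (.pr false true 89 91 [(⟨131, o⟩, ⟨131, o⟩), (⟨131, o⟩, ⟨131, o⟩),
  (⟨127, o⟩, ⟨124, o⟩)])) (.sy 95 (.sy 80 (.pr true false 84 94 [(⟨140, (.nd 2 o o)⟩, ⟨137, (.nd
  3 o o)⟩), (⟨132, o⟩, ⟨137, (.nd 3 o o)⟩), (z, ⟨132, (.nd 3 o o)⟩)]) (.pr true true 95 93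
  [(⟨132, o⟩, ⟨132, o⟩), (⟨132, o⟩, ⟨132, o⟩), (⟨127, o⟩, ⟨125, o⟩), (⟨132, o⟩, ⟨132, o⟩), (⟨132,
  o⟩, ⟨132, o⟩), (⟨128, o⟩, ⟨125, o⟩), (z, ⟨127, o⟩), (z, ⟨127, o⟩), (z, ⟨125, o⟩)])) (.pr true
  true 100 70 [(⟨131, o⟩, ⟨132, o⟩), (⟨132, o⟩, ⟨132, o⟩), (⟨127, o⟩, ⟨125, o⟩), (⟨132, o⟩, ⟨132,
  o⟩), (⟨132, o⟩, ⟨132, o⟩), (⟨127, o⟩, ⟨125, o⟩), (z, ⟨127, o⟩), (z, ⟨127, o⟩), (z, ⟨125,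
  o⟩)]))) (.sx 99 (.sx 84 (.sy 80 (.pr false false 67 75 [(⟨130, o⟩, ⟨130, o⟩)]) (.pr false true
  87 93 [(⟨131, o⟩, ⟨131, o⟩), (⟨131, o⟩, ⟨131, o⟩), (⟨127, o⟩, ⟨124, o⟩)])) (.sy 85 (.sy 65 (.pr
  true false 72 93 [(⟨131, o⟩, ⟨131, o⟩), (⟨131, o⟩, ⟨132, o⟩), (z, ⟨126, o⟩)]) (.pr true true 85
  115 [(⟨141, (.nd 2 o o)⟩, ⟨133, o⟩), (⟨133, o⟩, ⟨133, o⟩), (⟨128, o⟩, ⟨126, o⟩), (⟨133, o⟩,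
  ⟨133, o⟩), (⟨133, o⟩, ⟨133, o⟩), (⟨128, o⟩, ⟨126, o⟩), (z, ⟨128, o⟩), (z, ⟨128, o⟩), (z, ⟨125,
  o⟩)])) (.pr true true 97 86 [(⟨132, o⟩, ⟨140, (.nd 2 o o)⟩), (⟨132, o⟩, ⟨132, o⟩), (⟨127, o⟩,
  ⟨125, o⟩), (⟨132, o⟩, ⟨132, o⟩), (⟨132, o⟩, ⟨132, o⟩), (⟨128, o⟩, ⟨125, o⟩), (z, ⟨127, o⟩), (z,
  ⟨127, o⟩), (z, ⟨125, o⟩)]))) .rb)) (.sx 85 (.sy 80 (.pr false false 68 77 [(⟨130, o⟩, ⟨130,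
  o⟩)]) (.pr false true 88 103 [(⟨136, (.nd 3 o o)⟩, ⟨132, o⟩), (⟨132, o⟩, ⟨132, o⟩), (⟨127, o⟩,
  ⟨125, o⟩)])) (.sy 95 (.sy 80 (.pr true false 82 90 [(⟨139, (.nd 2 o o)⟩, ⟨132, o⟩), (⟨139, (.nd
  2 o o)⟩, ⟨137, (.nd 3 o o)⟩), (z, ⟨132, (.nd 3 o o)⟩)]) (.pr true true 95 93 [(⟨132, o⟩, ⟨132,
  o⟩), (⟨132, o⟩, ⟨132, o⟩), (⟨127, o⟩, ⟨125, o⟩), (⟨132, o⟩, ⟨132, o⟩), (⟨132, o⟩, ⟨132, o⟩),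
  (⟨128, o⟩, ⟨125, o⟩), (z, ⟨127, o⟩), (z, ⟨127, o⟩), (z, ⟨125, o⟩)])) (.pr true true 100 70
  [(⟨132, o⟩, ⟨132, o⟩), (⟨132, o⟩, ⟨132, o⟩), (⟨127, o⟩, ⟨125, o⟩), (⟨132, o⟩, ⟨132, o⟩), (⟨132,
  o⟩, ⟨132, o⟩), (⟨127, o⟩, ⟨125, o⟩), (z, ⟨127, o⟩), (z, ⟨127, o⟩), (z, ⟨125, o⟩)])))))))) (.sx
  85 (.sy 80 (.pr false false 69 79 [(⟨130, o⟩, ⟨130, o⟩)]) (.pr false true 85 100 [(⟨136, (.nd 3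
  o o)⟩, ⟨131, o⟩), (⟨131, o⟩, ⟨132, o⟩), (⟨127, o⟩, ⟨124, o⟩)])) (.sy 95 (.sy 80 (.pr true false
  84 96 [(⟨140, (.nd 2 o o)⟩, ⟨137, (.nd 3 o o)⟩), (⟨132, o⟩, ⟨137, (.nd 3 o o)⟩), (z, ⟨132, (.nd
  3 o o)⟩)]) (.pr true true 95 93 [(⟨132, o⟩, ⟨132, o⟩), (⟨132, o⟩, ⟨132, o⟩), (⟨128, o⟩, ⟨125,
  o⟩), (⟨132, o⟩, ⟨132, o⟩), (⟨132, o⟩, ⟨132, o⟩), (⟨128, o⟩, ⟨125, o⟩), (z, ⟨127, o⟩), (z, ⟨127,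
  o⟩), (z, ⟨125, o⟩)])) (.pr true true 100 70 [(⟨132, o⟩, ⟨132, o⟩), (⟨132, o⟩, ⟨132, o⟩), (⟨127,
  o⟩, ⟨125, o⟩), (⟨132, o⟩, ⟨132, o⟩), (⟨132, o⟩, ⟨132, o⟩), (⟨127, o⟩, ⟨125, o⟩), (z, ⟨127, o⟩),
  (z, ⟨127, o⟩), (z, ⟨125, o⟩)])))))

theorem cov4 : Cov 100 110 120 94 108 0 100 0 100 :=
  T4.sound _ _ _ _ _ _ _ _ _ (by decide +kernel)

end P36.D1

/-- the inequality (F) for `1/3 ≤ a ≤ 1/2`, `1/3 ≤ θ ≤ 9/20` -/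
theorem st_D1 : St_R (fun a θ => 1 / 3 ≤ a ∧ a ≤ 1 / 2 ∧ 1 / 3 ≤ θ ∧ θ ≤ 9 / 20) := by
  intro ι _ _ a θ w g A Φ c G H ⟨h1, h2, h3, h4⟩
  refine P36.Cov.fin (by norm_num) (P36.Cov.st 94 P36.D1.cov1 (P36.Cov.sa 100 P36.D1.cov2
    (P36.Cov.sa 110 P36.D1.cov3 P36.D1.cov4))) ι a θ w g A Φ c G H ?_
  push_cast
  exact ⟨by linarith, by linarith, by linarith, by linarith⟩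

end Pool.Agent.Lib.MP_43bc59_co
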