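import Pool.Agent.Lib.MP_43bc59_co.F_M
import Pool.Agent.Lib.MP_43bc59_co.F_B
import Pool.Agent.Lib.MP_43bc59_co.F_D1

set_option autoImplicit false

namespace Pool.Agent.Lib.MP_43bc59_co

open Finset

/-- `St_F` on a region `R a θ e h`, where `1 - e` is the largest and `h` the smallest value -/
def St_X (R : ℝ → ℝ → ℝ → ℝ → Prop) : Prop :=
  ∀ (ι : Type) [Fintype ι] [DecidableEq ι] (a θ : ℝ) (w g A Φ : ι → ℝ) (c G : ι → ι → ℝ),
    Hyp a θ w g A Φ c G → ∀ x y : ι, a < g x → g y < a → (∀ j, g y ≤ g j) → (∀ j, g j ≤ g x) →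
    R a θ (1 - g x) (g y) → Goal a θ w g Φ c G

/-- the central block -/
def R_blob (a θ e h : ℝ) : Prop :=
  93 / 200 ≤ θ ∧ 2 / 5 ≤ a ∧ a ≤ 1 / 2 ∧
    3 / 20 + 11 / 10 * (1 / 2 - a) - 3 / 10 * (1 / 2 - θ) ≤ e ∧
    3 / 20 - 4 / 5 * (1 / 2 - a) - 3 / 5 * (1 / 2 - θ) ≤ h

/-- the strip near the bottom, far from the top -/
def R_L2 (a θ e h : ℝ) : Prop :=
  93 / 200 ≤ θ ∧ 2 / 5 ≤ a ∧ h ≤ 3 / 100 ∧
    ((a ≤ 93 / 200 ∧ 17 / 50 - 8 * (1 / 2 - θ) ≤ e) ∨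
      (a ≤ 11 / 25 ∧ 17 / 50 - 8 * (1 / 2 - θ) - 2 * (11 / 25 - a) ≤ e))

/-- the zone of the tight configurations, top value the closer to its end -/
def R_S (a θ e h : ℝ) : Prop :=
  93 / 200 ≤ θ ∧ e ≤ 3 / 100 ∧ e ≤ h ∧ e + h ≤ θ ∧ 2 / 5 + 7 / 5 * (1 / 2 - θ) ≤ a ∧
    a ≤ 3 / 5 - 7 / 5 * (1 / 2 - θ) ∧
    (a ≤ 107 / 200 ∨ (h ≤ 17 / 50 - 8 * (1 / 2 - θ) ∧ h ≤ 73 / 50 - 8 * (1 / 2 - θ) - 2 * a))

/-- extreme letters exist, or the inequality is trivial -/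
theorem st_R_of_X {R : ℝ → ℝ → Prop} (h : St_X (fun a θ e h => R a θ ∧ e + h ≤ θ)) : St_R R := by
  intro ι _ _ a θ w g A Φ c G H hR
  rcases isEmpty_or_nonempty ι with hι | hι
  · unfold Goal Ed
    simp only [univ_eq_empty, sum_empty, mul_zero, add_zero]
    exact div_nonneg (mul_nonneg (by linarith [H.th1])
      (mul_nonneg H.a0.le (sub_nonneg.2 H.a1.le))) H.th0.le
  obtain ⟨x, -, hx⟩ := exists_max_image univ g univ_nonempty
  obtain ⟨y, -, hy⟩ := exists_min_image univ g univ_nonempty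
  have xmax : ∀ j, g j ≤ g x := fun j => hx j (mem_univ j)
  have ymin : ∀ j, g y ≤ g j := fun j => hy j (mem_univ j)
  have top : a ≤ g x := by
    by_contra k
    have t := H.mirror.low_lt (x := x) (y := x) (by linarith [not_le.1 k])
      (fun j => by linarith [xmax j])
    have := not_le.1 k
    linarith
  have bot : g y ≤ a := by
    by_contra k
    have t := H.low_lt (x := y) (y := y) (not_le.1 k) ymin
    have := not_le.1 k
    linarith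
  rcases le_total (g x - g y) (1 - θ) with hn | hn
  · exact H.narrow top bot ymin xmax hn
  have t1 := H.th1
  have top' : a < g x := by
    rcases top.eq_or_lt with k | k
    · have t := H.mirror.low_lt (x := y) (y := x) (by linarith) (fun j => by linarith [xmax j])
      linarith
    · exact k
  exact h ι a θ w g A Φ c G H x y top' (H.low_lt top' ymin) ymin xmax ⟨hR, by linarith⟩

/-- the last region from its six zones -/
theorem st_D2_of (hi : St_R (fun a θ => 1 / 3 ≤ a ∧ a ≤ 1 / 2 ∧ 9 / 20 ≤ θ ∧ θ ≤ 93 / 200))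
    (hii : St_R (fun a θ => 93 / 200 ≤ θ ∧ 1 / 3 ≤ a ∧ a ≤ 2 / 5 + 7 / 5 * (1 / 2 - θ)))
    (hb : St_X R_blob) (hL : St_X R_L2) (hS : St_X R_S) :
    St_R (fun a θ => 1 / 3 ≤ a ∧ a ≤ 1 / 2 ∧ 9 / 20 ≤ θ) := by
  refine st_R_of_X ?_
  intro ι _ _ a θ w g A Φ c G H x y hx hy ymin xmax ⟨⟨h1, h2, h3⟩, h4⟩
  have t1 := H.th1
  rcases le_total θ (93 / 200) with t0 | t0
  · exact hi ι a θ w g A Φ c G H ⟨h1, h2, h3, t0⟩
  rcases le_total a (2 / 5 + 7 / 5 * (1 / 2 - θ)) with a0 | a0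
  · exact hii ι a θ w g A Φ c G H ⟨t0, h1, a0⟩
  by_cases hm : 3 / 100 ≤ 1 - g x ∧ 3 / 100 ≤ g y
  · by_cases ho : 1 - g x ≤ 3 / 20 + 11 / 10 * (1 / 2 - a) - 3 / 10 * (1 / 2 - θ)
        ∨ g y ≤ 3 / 20 - 4 / 5 * (1 / 2 - a) - 3 / 5 * (1 / 2 - θ)
    · exact ZM.zoneM H x y ymin xmax t0 a0 h2 hm.1 hm.2 ho
    · rw [not_or, not_le, not_le] at ho
      exact hb ι a θ w g A Φ c G H x y hx hy ymin xmax ⟨t0, by linarith, h2, ho.1.le, ho.2.le⟩
  rw [not_and_or, not_le, not_le] at hm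
  rcases le_total (1 - g x) (g y) with k | k
  · refine hS ι a θ w g A Φ c G H x y hx hy ymin xmax
      ⟨t0, ?_, k, h4, a0, by linarith, Or.inl (by linarith)⟩
    rcases hm with f | f <;> linarith
  have h0 : g y ≤ 3 / 100 := by rcases hm with f | f <;> linarith
  by_cases hl : (a ≤ 93 / 200 ∧ 17 / 50 - 8 * (1 / 2 - θ) ≤ 1 - g x) ∨
      (a ≤ 11 / 25 ∧ 17 / 50 - 8 * (1 / 2 - θ) - 2 * (11 / 25 - a) ≤ 1 - g x)
  · exact hL ι a θ w g A Φ c G H x y hx hy ymin xmax ⟨t0, by linarith, h0, hl⟩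
  refine Goal.of_mirror H.cs (hS ι _ θ w _ A Φ c _ H.mirror y x (by linarith) (by linarith)
    (fun j => by linarith [xmax j]) (fun j => by linarith [ymin j])
    ⟨t0, by linarith, by linarith, by linarith, by linarith, by linarith, ?_⟩)
  rw [not_or, not_and_or, not_and_or, not_le, not_le, not_le, not_le] at hl
  obtain ⟨f1 | f1, f2 | f2⟩ := hl
  · exact Or.inl (by linarith)
  · exact Or.inl (by linarith)
  · exact Or.inr ⟨by linarith, by linarith⟩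
  · exact Or.inr ⟨by linarith, by linarith⟩

/-- the inequality (F) from the five zones that are proved in other files -/
theorem st_F_of_zones (hi : St_R (fun a θ => 1 / 3 ≤ a ∧ a ≤ 1 / 2 ∧ 9 / 20 ≤ θ ∧ θ ≤ 93 / 200))
    (hii : St_R (fun a θ => 93 / 200 ≤ θ ∧ 1 / 3 ≤ a ∧ a ≤ 2 / 5 + 7 / 5 * (1 / 2 - θ)))
    (hb : St_X R_blob) (hL : St_X R_L2) (hS : St_X R_S) : St_F := by
  refine st_F_of st_B st_C ?_
  intro ι _ _ a θ w g A Φ c G H ⟨h1, h2, h3⟩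
  rcases le_total θ (9 / 20) with k | k
  · exact st_D1 ι a θ w g A Φ c G H ⟨h1, h2, h3, k⟩
  · exact st_D2_of hi hii hb hL hS ι a θ w g A Φ c G H ⟨h1, h2, k⟩

end Pool.Agent.Lib.MP_43bc59_co
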