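import Pool.Agent.Lib.MP_43bc59_co.F_N2

set_option autoImplicit false
set_option maxRecDepth 100000

namespace Pool.Agent.Lib.MP_43bc59_co.P18

open Bx

def pi1 : Pm := ⟨200, 600, 0, 0, 0, 5, 3, ⟨1, 0, 0⟩⟩

noncomputable def ti1_1 : CT :=
  (.sx (-90) (.sy 102 (.p1 80 92 108 112 0 138 0 102 false false 44 120 [(⟨137, o⟩, ⟨137, o⟩)])
  (.sx (-113) (.sy 151 (.p1 80 92 108 112 0 115 102 151 false false 56 120 [(⟨137, o⟩, ⟨138,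
  o⟩)]) (.p1 80 92 108 112 0 115 151 200 false true 100 120 [(⟨138, o⟩, ⟨138, o⟩), (⟨138, o⟩,
  ⟨138, o⟩), (⟨134, o⟩, ⟨132, o⟩)])) (.p2 109 162 ⟨264, 15, ⟨1215, -1009, -638⟩, ⟨659, -192,
  -244⟩, ⟨56, (.lf [0, 1])⟩, ⟨115, (.nd 3 (.nd 3 (.nd 3 (.lf [32, -414]) (.lf [1, -128])) (.nd 3
  (.nd 0 (.lf [1, -10]) (.lf [2, -17])) (.nd 0 (.lf [8, -73]) (.lf [16, -125])))) (.lf [1,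
  -128]))⟩, ⟨99, (.lf [0, 1])⟩⟩ ⟨210, 60, ⟨1962, -1961, 0⟩, ⟨1000, -1000, 0⟩, ⟨57, (.lf [0, 1])⟩,
  ⟨98, (.lf [1, -5])⟩, ⟨100, o⟩⟩ [(⟨233, (.lf [1, 0, -16])⟩, ⟨228, o⟩), (⟨229, o⟩, ⟨229, o⟩),
  (⟨234, (.lf [1, 0, -32])⟩, ⟨228, o⟩), (⟨234, (.lf [1, 0, -32])⟩, ⟨229, o⟩), (⟨230, o⟩, ⟨232,
  (.lf [1, 0, -4])⟩), (⟨231, o⟩, ⟨231, o⟩), (⟨235, (.lf [1, 0, -16])⟩, ⟨230, o⟩), (⟨235, (.lf [1,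
  0, -16])⟩, ⟨230, o⟩), (⟨241, (.nd 2 o (.lf [1, 0, -16]))⟩, ⟨228, o⟩), (⟨229, o⟩, ⟨229, o⟩),
  (⟨254, (.nd 3 (.nd 0 o (.nd 2 (.lf [1, 0, -14]) (.lf [1, 0, -22]))) (.lf [1, 0, -24]))⟩, ⟨232,
  (.lf [1, 0, -16])⟩), (⟨234, (.lf [1, 0, -24])⟩, ⟨229, o⟩), (⟨240, (.nd 2 o (.lf [1, 0, -8]))⟩,
  ⟨229, o⟩), (⟨230, o⟩, ⟨229, o⟩), (⟨270, (.nd 3 (.nd 0 o (.nd 2 (.nd 0 o (.nd 2 (.lf [1, 0,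
  -14]) o)) (.lf [4, 0, -78]))) (.nd 0 (.lf [1, 0, -16]) (.nd 2 (.lf [1, 0, -20]) (.lf [1, 0,
  -512]))))⟩, ⟨233, (.lf [1, 0, -20])⟩), (⟨234, (.lf [1, 0, -20])⟩, ⟨229, o⟩)]))) (.cl 3 [⟨68,
  o⟩, ⟨58, o⟩, ⟨58, o⟩, ⟨59, o⟩, ⟨68, o⟩, ⟨53, o⟩]))

theorem ci1_1 : Cov2 pi1 Ri
    ⟨400, 456, 540, 558⟩ ⟨-400, 400, 0, 200, 100, 0, 100, 0⟩ :=
  CT.sound pi1 ci cl_i ti1_1 _ _ (by decide +kernel)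

theorem covi1 : Cov2 pi1 Ri
    ⟨400, 456, 540, 558⟩ ⟨-400, 400, 0, 200, 100, 0, 100, 0⟩ :=
  ci1_1

def pi2 : Pm := ⟨200, 840, -180, 0, 0, 5, 5, ⟨1, 0, 0⟩⟩

noncomputable def ti2_1 : CT :=
  (.sy 130 (.p1 91 111 108 112 0 99 0 130 false false 50 104 [(⟨137, o⟩, ⟨137, o⟩)]) (.p1 91 111
  108 112 0 99 130 200 false true 106 168 [(⟨139, o⟩, ⟨139, o⟩), (⟨139, o⟩, ⟨139, o⟩), (⟨135, o⟩,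
  ⟨133, o⟩)]))

theorem ci2_1 : Cov2 pi2 Ri
    ⟨456, 552, 540, 558⟩ ⟨-400, -207, 0, 200, 100, 0, 100, 0⟩ :=
  CT.sound pi2 ci cl_i ti2_1 _ _ (by decide +kernel)

noncomputable def ti2_2 : CT :=
  (.sy 130 (.sa 480 (.p1 91 96 108 112 28 139 0 130 false false 64 120 [(⟨138, o⟩, ⟨138, o⟩)])
  (.sx (-124) (.sa 495 (.p1 96 99 108 112 45 142 0 130 false false 70 160 [(⟨139, o⟩, ⟨139, o⟩)])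
  (.sx (-125) (.p1 99 101 108 112 55 148 0 130 false false 74 160 [(⟨139, o⟩, ⟨139, o⟩)]) (.cl 1
  [⟨69, o⟩, ⟨58, o⟩, ⟨58, o⟩, ⟨59, o⟩, ⟨68, o⟩, ⟨53, o⟩]))) (.cl 1 [⟨69, o⟩, ⟨58, o⟩, ⟨58, o⟩,
  ⟨59, o⟩, ⟨68, o⟩, ⟨53, o⟩]))) (.sx (-143) (.sa 480 (.p1 91 96 108 112 28 112 130 200 false true
  106 240 [(⟨141, o⟩, ⟨141, o⟩), (⟨141, o⟩, ⟨141, o⟩), (⟨137, o⟩, ⟨134, o⟩)]) (.sy 165 (.p1 96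
  101 108 112 45 130 130 165 false true 102 240 [(⟨141, o⟩, ⟨141, o⟩), (⟨141, o⟩, ⟨141, o⟩),
  (⟨137, o⟩, ⟨134, o⟩)]) (.p1 96 101 108 112 45 130 165 200 false true 130 160 [(⟨140, o⟩, ⟨140,
  o⟩), (⟨140, o⟩, ⟨140, o⟩), (⟨136, o⟩, ⟨133, o⟩)]))) (.sa 480 (.p2 119 112 ⟨355, 14, ⟨1704,
  -2989, 175⟩, ⟨764, -898, 208⟩, ⟨56, (.lf [0, 1])⟩, ⟨123, (.nd 3 (.nd 3 (.nd 3 (.lf [32, -309])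
  (.nd 0 (.nd 3 (.lf [2, -26]) (.lf [1, -2048])) (.lf [1, -256]))) (.nd 3 (.nd 0 (.lf [8, -73])
  (.lf [2, -17])) (.lf [16, -119]))) (.lf [1, -256]))⟩, ⟨101, (.lf [0, 1])⟩⟩ ⟨270, 35, ⟨1539,
  -1538, 0⟩, ⟨1000, -1000, 0⟩, ⟨57, (.lf [0, 1])⟩, ⟨97, (.lf [1, -5])⟩, ⟨100, o⟩⟩ [(⟨264, (.nd 2
  o (.lf [1, 0, -24]))⟩, ⟨251, o⟩), (⟨255, (.lf [1, 0, -8])⟩, ⟨251, o⟩), (⟨264, (.nd 2 o (.lf [1,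
  0, -32]))⟩, ⟨251, o⟩), (⟨257, (.lf [1, 0, -28])⟩, ⟨251, o⟩), (⟨254, o⟩, ⟨256, (.lf [1, 0,
  -4])⟩), (⟨254, o⟩, ⟨254, o⟩), (⟨257, (.lf [1, 0, -8])⟩, ⟨253, o⟩), (⟨254, o⟩, ⟨254, o⟩), (⟨264,
  (.nd 2 o (.lf [2, 0, -27]))⟩, ⟨251, o⟩), (⟨252, o⟩, ⟨251, o⟩), (⟨273, (.nd 2 (.lf [64, 0, -1])
  (.nd 3 (.nd 3 (.lf [1, 0, -16]) o) (.lf [1, 0, -32])))⟩, ⟨251, o⟩), (⟨269, (.nd 2 (.lf [1, 0,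
  -2]) (.nd 3 (.lf [1, 0, -4]) (.lf [1, 0, -24])))⟩, ⟨251, o⟩), (⟨264, (.nd 2 o (.lf [1, 0,
  -8]))⟩, ⟨252, o⟩), (⟨253, o⟩, ⟨252, o⟩), (⟨274, (.nd 2 (.lf [1, 0, -2]) (.nd 3 (.nd 3 (.lf [1,
  0, -12]) o) (.lf [1, 0, -18])))⟩, ⟨255, (.lf [1, 0, -7])⟩), (⟨265, (.nd 2 o (.lf [1, 0,
  -14]))⟩, ⟨252, o⟩)]) (.sx (-124) (.p2 131 219 ⟨248, 17, ⟨1145, -1608, 188⟩, ⟨735, -770, 205⟩,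
  ⟨56, (.lf [0, 1])⟩, ⟨117, (.nd 3 (.nd 3 (.nd 3 (.nd 3 (.lf [1, -256]) (.lf [8, -78])) (.lf [1,
  -64])) (.nd 3 (.nd 3 (.nd 0 (.lf [2, -17]) (.lf [4, -30])) (.nd 0 (.lf [2, -17]) (.lf [1,
  -8]))) (.lf [1, -7]))) (.lf [1, -64]))⟩, ⟨100, (.lf [0, 1])⟩⟩ ⟨156, 57, ⟨1539, -1538, 0⟩,
  ⟨1000, -1000, 0⟩, ⟨57, (.lf [0, 1])⟩, ⟨98, (.lf [1, -5])⟩, ⟨100, o⟩⟩ [(⟨253, o⟩, ⟨253, o⟩),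
  (⟨254, o⟩, ⟨254, o⟩), (⟨259, (.lf [1, 0, -64])⟩, ⟨253, o⟩), (⟨264, (.lf [16, 0, -1024, 0,
  -2])⟩, ⟨254, o⟩), (⟨255, o⟩, ⟨260, (.lf [1, 0, -32])⟩), (⟨256, o⟩, ⟨256, o⟩), (⟨255, o⟩, ⟨255,
  o⟩), (⟨257, (.lf [1, 0, -1])⟩, ⟨255, o⟩), (⟨253, o⟩, ⟨253, o⟩), (⟨254, o⟩, ⟨254, o⟩), (⟨258,
  (.lf [1, 0, -32])⟩, ⟨253, o⟩), (⟨260, (.lf [1, 0, -56])⟩, ⟨254, o⟩), (⟨255, o⟩, ⟨254, o⟩),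
  (⟨255, o⟩, ⟨255, o⟩), (⟨259, (.lf [1, 0, -20])⟩, ⟨260, (.lf [1, 0, -32])⟩), (⟨260, (.lf [1, 0,
  -32])⟩, ⟨255, o⟩)]) (.cl 1 [⟨69, o⟩, ⟨58, o⟩, ⟨58, o⟩, ⟨59, o⟩, ⟨68, o⟩, ⟨53, o⟩])))))

theorem ci2_2 : Cov2 pi2 Ri
    ⟨456, 505, 540, 558⟩ ⟨-207, -116, 0, 200, 100, 0, 100, 0⟩ :=
  CT.sound pi2 ci cl_i ti2_2 _ _ (by decide +kernel)

noncomputable def ti2_3 : CT :=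
  (.p1 101 111 108 112 62 124 0 158 false false 80 120 [(⟨138, o⟩, ⟨138, o⟩)])

theorem ci2_3 : Cov2 pi2 Ri
    ⟨505, 552, 540, 558⟩ ⟨-207, -182, 0, 158, 100, 0, 100, 0⟩ :=
  CT.sound pi2 ci cl_i ti2_3 _ _ (by decide +kernel)

noncomputable def ti2_4 : CT :=
  (.sx (-124) (.sy 89 (.p1 101 106 108 112 87 166 0 89 false false 64 160 [(⟨139, o⟩, ⟨139, o⟩)])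
  (.sx (-153) (.p1 101 106 108 112 87 137 89 158 false false 84 120 [(⟨138, o⟩, ⟨139, o⟩)]) (.sy
  124 (.p2 99 170 ⟨138, 32, ⟨1114, -1443, 184⟩, ⟨614, -487, 209⟩, ⟨56, (.lf [0, 1])⟩, ⟨117, (.nd
  3 (.nd 3 (.nd 3 (.nd 3 (.lf [1, -1024]) (.lf [8, -69])) (.lf [1, -64])) (.nd 3 (.nd 0 (.lf [4,
  -30]) (.nd 3 (.lf [1, -7]) (.lf [4, -29]))) (.nd 3 (.lf [64, -425]) o))) (.lf [1, -64]))⟩,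
  ⟨100, (.lf [0, 1])⟩⟩ ⟨129, 62, ⟨2248, -2247, 0⟩, ⟨1614, -1613, 0⟩, ⟨56, o⟩, ⟨99, (.lf [1,
  -8])⟩, ⟨101, o⟩⟩ [(⟨251, o⟩, ⟨251, o⟩), (⟨252, o⟩, ⟨251, o⟩), (⟨251, o⟩, ⟨251, o⟩), (⟨252, o⟩,
  ⟨251, o⟩), (⟨253, o⟩, ⟨253, o⟩), (⟨253, o⟩, ⟨253, o⟩), (⟨253, o⟩, ⟨253, o⟩), (⟨253, o⟩, ⟨253,
  o⟩), (⟨251, o⟩, ⟨251, o⟩), (⟨251, o⟩, ⟨251, o⟩), (⟨251, o⟩, ⟨251, o⟩), (⟨251, o⟩, ⟨251, o⟩),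
  (⟨252, o⟩, ⟨252, o⟩), (⟨252, o⟩, ⟨252, o⟩), (⟨252, o⟩, ⟨252, o⟩), (⟨252, o⟩, ⟨252, o⟩)]) (.p2
  130 224 ⟨220, 20, ⟨1114, -1443, 184⟩, ⟨614, -487, 209⟩, ⟨56, (.lf [0, 1])⟩, ⟨117, (.nd 3 (.nd 3
  (.nd 3 (.nd 3 (.lf [1, -1024]) (.lf [8, -69])) (.lf [1, -64])) (.nd 3 (.nd 0 (.lf [4, -30])
  (.nd 3 (.lf [1, -7]) (.lf [4, -29]))) (.nd 3 (.lf [64, -425]) o))) (.lf [1, -64]))⟩, ⟨100, (.lf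
  [0, 1])⟩⟩ ⟨144, 60, ⟨1614, -1613, 0⟩, ⟨1267, -1266, 0⟩, ⟨57, (.lf [0, 1])⟩, ⟨102, (.lf [16,
  -101])⟩, ⟨101, o⟩⟩ [(⟨253, o⟩, ⟨253, o⟩), (⟨254, o⟩, ⟨254, o⟩), (⟨253, o⟩, ⟨253, o⟩), (⟨254,
  o⟩, ⟨254, o⟩), (⟨255, o⟩, ⟨255, o⟩), (⟨256, o⟩, ⟨256, o⟩), (⟨255, o⟩, ⟨255, o⟩), (⟨256, o⟩,
  ⟨255, o⟩), (⟨253, o⟩, ⟨253, o⟩), (⟨254, o⟩, ⟨254, o⟩), (⟨253, o⟩, ⟨253, o⟩), (⟨254, o⟩, ⟨254,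
  o⟩), (⟨254, o⟩, ⟨254, o⟩), (⟨255, o⟩, ⟨254, o⟩), (⟨254, o⟩, ⟨254, o⟩), (⟨255, o⟩, ⟨254,
  o⟩)])))) (.cl 1 [⟨69, o⟩, ⟨58, o⟩, ⟨58, o⟩, ⟨59, o⟩, ⟨68, o⟩, ⟨53, o⟩]))

theorem ci2_4 : Cov2 pi2 Ri
    ⟨505, 530, 540, 558⟩ ⟨-182, -122, 0, 158, 100, 0, 100, 0⟩ :=
  CT.sound pi2 ci cl_i ti2_4 _ _ (by decide +kernel)

noncomputable def ti2_5 : CT :=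
  (.sy 81 (.sa 540 (.sx (-123) (.p1 106 108 108 112 105 174 0 81 false false 68 168 [(⟨139, o⟩,
  ⟨139, o⟩)]) (.cl 1 [⟨69, o⟩, ⟨58, o⟩, ⟨59, o⟩, ⟨59, o⟩, ⟨68, o⟩, ⟨53, o⟩])) (.st 550 (.p1 108
  111 108 110 113 184 0 81 false false 74 172 [(⟨139, o⟩, ⟨139, o⟩)]) (.p1 108 111 110 112 112
  182 0 81 false false 72 172 [(⟨139, o⟩, ⟨139, o⟩)]))) (.sy 115 (.p2 108 203 ⟨112, 51, ⟨2122,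
  -3319, 103⟩, ⟨515, -280, 218⟩, ⟨57, (.lf [0, 1])⟩, ⟨126, (.nd 3 (.nd 3 (.nd 3 (.lf [4, -25])
  (.lf [2, -17])) (.nd 3 (.lf [1, -7]) (.nd 2 o (.nd 2 (.lf [1, -4]) (.nd 3 (.lf [1, -6]) (.lf
  [1, -5])))))) (.nd 3 (.nd 3 (.lf [1, -128]) (.nd 2 (.nd 2 (.lf [1, -32]) (.nd 0 (.nd 3 (.lf [1,
  -1024]) (.lf [2, -22])) (.lf [1, -128]))) (.lf [1, -32]))) (.lf [1, -128])))⟩, ⟨101, (.lf [0,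
  1])⟩⟩ ⟨117, 63, ⟨2470, -2469, 0⟩, ⟨1740, -1739, 0⟩, ⟨56, o⟩, ⟨96, o⟩, ⟨101, o⟩⟩ [(⟨252, o⟩,
  ⟨252, o⟩), (⟨252, o⟩, ⟨252, o⟩), (⟨252, o⟩, ⟨252, o⟩), (⟨252, o⟩, ⟨252, o⟩), (⟨254, o⟩, ⟨254,
  o⟩), (⟨255, o⟩, ⟨255, o⟩), (⟨254, o⟩, ⟨255, o⟩), (⟨255, o⟩, ⟨255, o⟩), (⟨251, o⟩, ⟨251, o⟩),
  (⟨252, o⟩, ⟨252, o⟩), (⟨251, o⟩, ⟨252, o⟩), (⟨252, o⟩, ⟨252, o⟩), (⟨252, o⟩, ⟨252, o⟩), (⟨253,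
  o⟩, ⟨253, o⟩), (⟨252, o⟩, ⟨252, o⟩), (⟨252, o⟩, ⟨253, o⟩)]) (.p2 121 176 ⟨179, 32, ⟨2122,
  -3319, 103⟩, ⟨515, -280, 218⟩, ⟨57, (.lf [0, 1])⟩, ⟨126, (.nd 3 (.nd 3 (.nd 3 (.lf [4, -25])
  (.lf [2, -17])) (.nd 3 (.lf [1, -7]) (.nd 2 o (.nd 2 (.lf [1, -4]) (.nd 3 (.lf [1, -6]) (.lf
  [1, -5])))))) (.nd 3 (.nd 3 (.lf [1, -128]) (.nd 2 (.nd 2 (.lf [1, -32]) (.nd 0 (.nd 3 (.lf [1,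
  -1024]) (.lf [2, -22])) (.lf [1, -128]))) (.lf [1, -32]))) (.lf [1, -128])))⟩, ⟨101, (.lf [0,
  1])⟩⟩ ⟨138, 60, ⟨1740, -1739, 0⟩, ⟨1551, -1550, 0⟩, ⟨56, o⟩, ⟨101, (.lf [4, -31])⟩, ⟨101, o⟩⟩
  [(⟨252, o⟩, ⟨252, o⟩), (⟨252, o⟩, ⟨252, o⟩), (⟨252, o⟩, ⟨252, o⟩), (⟨252, o⟩, ⟨252, o⟩), (⟨255,
  o⟩, ⟨255, o⟩), (⟨255, o⟩, ⟨255, o⟩), (⟨255, o⟩, ⟨255, o⟩), (⟨255, o⟩, ⟨255, o⟩), (⟨252, o⟩,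
  ⟨252, o⟩), (⟨252, o⟩, ⟨252, o⟩), (⟨252, o⟩, ⟨252, o⟩), (⟨252, o⟩, ⟨252, o⟩), (⟨252, o⟩, ⟨252,
  o⟩), (⟨253, o⟩, ⟨253, o⟩), (⟨252, o⟩, ⟨252, o⟩), (⟨253, o⟩, ⟨253, o⟩)])))

theorem ci2_5 : Cov2 pi2 Ri
    ⟨530, 552, 540, 558⟩ ⟨-182, -122, 0, 129, 100, 0, 100, 0⟩ :=
  CT.sound pi2 ci cl_i ti2_5 _ _ (by decide +kernel)

noncomputable def ti2_6 : CT :=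
  (.sx (-164) (.p1 106 111 108 112 105 142 129 158 false false 94 156 [(⟨139, o⟩, ⟨140, o⟩)])
  (.sx (-151) (.p1 106 111 108 112 123 155 129 158 false true 124 204 [(⟨153, (.nd 3 (.nd 2 o o)
  o)⟩, ⟨141, o⟩), (⟨141, o⟩, ⟨141, o⟩), (⟨136, o⟩, ⟨134, o⟩)]) (.sy 144 (.p2 139 177 ⟨153, 24,
  ⟨842, -857, 202⟩, ⟨515, -280, 218⟩, ⟨56, (.lf [0, 1])⟩, ⟨111, (.nd 3 (.nd 3 (.lf [1, -128])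
  (.nd 3 (.nd 3 (.lf [4, -25]) (.lf [1, -7])) (.nd 3 (.lf [1, -6]) (.lf [4, -22])))) (.lf [1,
  -32]))⟩, ⟨99, (.lf [0, 1])⟩⟩ ⟨160, 48, ⟨2645, -2521, -1575⟩, ⟨1702, -1608, -623⟩, ⟨56, (.lf [0,
  1])⟩, ⟨113, (.nd 3 (.nd 3 (.nd 3 o (.lf [2, -17])) o) (.nd 3 (.nd 3 (.lf [1, -12]) (.lf [2,
  -18])) (.nd 3 (.lf [8, -107]) (.lf [1, -128]))))⟩, ⟨102, (.lf [0, 1])⟩⟩ [(⟨252, o⟩, ⟨252, o⟩),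
  (⟨253, o⟩, ⟨253, o⟩), (⟨252, o⟩, ⟨252, o⟩), (⟨253, o⟩, ⟨252, o⟩), (⟨253, o⟩, ⟨253, o⟩), (⟨254,
  o⟩, ⟨254, o⟩), (⟨253, o⟩, ⟨253, o⟩), (⟨254, o⟩, ⟨254, o⟩), (⟨252, o⟩, ⟨252, o⟩), (⟨253, o⟩,
  ⟨253, o⟩), (⟨252, o⟩, ⟨252, o⟩), (⟨252, o⟩, ⟨252, o⟩), (⟨252, o⟩, ⟨252, o⟩), (⟨253, o⟩, ⟨253,
  o⟩), (⟨252, o⟩, ⟨252, o⟩), (⟨253, o⟩, ⟨253, o⟩)]) (.p2 149 208 ⟨171, 22, ⟨842, -857, 202⟩,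
  ⟨515, -280, 218⟩, ⟨56, (.lf [0, 1])⟩, ⟨111, (.nd 3 (.nd 3 (.lf [1, -128]) (.nd 3 (.nd 3 (.lf
  [4, -25]) (.lf [1, -7])) (.nd 3 (.lf [1, -6]) (.lf [4, -22])))) (.lf [1, -32]))⟩, ⟨99, (.lf [0,
  1])⟩⟩ ⟨148, 46, ⟨1702, -1608, -623⟩, ⟨1381, -1316, -322⟩, ⟨57, (.lf [0, 1])⟩, ⟨111, (.nd 3 (.nd
  3 (.nd 3 (.lf [1, -7]) (.nd 3 (.lf [1, -7]) (.lf [1, -8]))) o) (.nd 3 (.nd 3 (.lf [1, -64])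
  (.lf [2, -17])) (.lf [1, -32])))⟩, ⟨101, (.lf [0, 1])⟩⟩ [(⟨253, o⟩, ⟨253, o⟩), (⟨253, o⟩, ⟨253,
  o⟩), (⟨253, o⟩, ⟨253, o⟩), (⟨253, o⟩, ⟨253, o⟩), (⟨254, o⟩, ⟨254, o⟩), (⟨255, o⟩, ⟨255, o⟩),
  (⟨254, o⟩, ⟨254, o⟩), (⟨255, o⟩, ⟨255, o⟩), (⟨253, o⟩, ⟨253, o⟩), (⟨253, o⟩, ⟨253, o⟩), (⟨253,
  o⟩, ⟨253, o⟩), (⟨253, o⟩, ⟨253, o⟩), (⟨253, o⟩, ⟨253, o⟩), (⟨254, o⟩, ⟨254, o⟩), (⟨261, (.nd 2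
  o o)⟩, ⟨253, o⟩), (⟨254, o⟩, ⟨254, o⟩)]))))

theorem ci2_6 : Cov2 pi2 Ri
    ⟨530, 552, 540, 558⟩ ⟨-182, -122, 129, 158, 100, 0, 100, 0⟩ :=
  CT.sound pi2 ci cl_i ti2_6 _ _ (by decide +kernel)

noncomputable def ti2_7 : CT :=
  (.sx (-166) (.sa 530 (.p1 101 106 108 112 62 124 158 200 false true 130 240 [(⟨142, o⟩, ⟨142,
  o⟩), (⟨142, o⟩, ⟨142, o⟩), (⟨137, o⟩, ⟨135, o⟩)]) (.p1 106 111 108 112 80 140 158 200 false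
  true 146 240 [(⟨147, (.nd 3 o o)⟩, ⟨142, o⟩), (⟨142, o⟩, ⟨142, o⟩), (⟨138, o⟩, ⟨135, o⟩)]))
  (.sa 530 (.p2 133 120 ⟨193, 27, ⟨1708, -2638, 142⟩, ⟨983, -1185, 192⟩, ⟨57, (.lf [0, 1])⟩,
  ⟨117, (.nd 3 (.nd 3 (.nd 3 (.nd 3 (.lf [8, -77]) (.nd 0 (.lf [1, -10]) (.lf [2, -17]))) (.nd 0
  (.nd 3 (.lf [1, -12]) (.lf [2, -25])) (.lf [1, -12]))) (.nd 3 (.nd 3 (.lf [4, -30]) (.lf [1,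
  -8])) o)) (.lf [1, -256]))⟩, ⟨101, (.lf [0, 1])⟩⟩ ⟨254, 26, ⟨1421, -1356, -371⟩, ⟨1000, -1000,
  0⟩, ⟨57, (.lf [0, 1])⟩, ⟨109, (.nd 3 (.nd 3 (.nd 3 (.lf [1, -5]) (.lf [4, -25])) (.lf [1, -5]))
  (.lf [1, -7]))⟩, ⟨100, (.lf [0, 1])⟩⟩ [(⟨251, o⟩, ⟨251, o⟩), (⟨251, o⟩, ⟨252, o⟩), (⟨251, o⟩,
  ⟨251, o⟩), (⟨251, o⟩, ⟨251, o⟩), (⟨253, o⟩, ⟨254, o⟩), (⟨254, o⟩, ⟨254, o⟩), (⟨253, o⟩, ⟨254,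
  o⟩), (⟨254, o⟩, ⟨254, o⟩), (⟨251, o⟩, ⟨251, o⟩), (⟨251, o⟩, ⟨251, o⟩), (⟨251, o⟩, ⟨251, o⟩),
  (⟨251, o⟩, ⟨251, o⟩), (⟨253, o⟩, ⟨253, o⟩), (⟨253, o⟩, ⟨253, o⟩), (⟨253, o⟩, ⟨253, o⟩), (⟨253,
  o⟩, ⟨253, o⟩)]) (.p2 148 108 ⟨249, 19, ⟨1192, -1508, 178⟩, ⟨793, -770, 205⟩, ⟨57, (.lf [0,
  1])⟩, ⟨117, (.nd 3 (.nd 3 (.nd 3 (.nd 3 (.lf [2, -18]) (.lf [16, -126])) (.lf [1, -128])) (.nd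
  3 (.nd 3 (.lf [4, -27]) (.nd 0 (.lf [1, -8]) (.lf [4, -29]))) o)) (.lf [1, -64]))⟩, ⟨101, (.lf
  [0, 1])⟩⟩ ⟨268, 22, ⟨1381, -1316, -322⟩, ⟨1000, -1000, 0⟩, ⟨57, (.lf [0, 1])⟩, ⟨109, (.nd 3
  (.nd 3 (.nd 3 (.lf [1, -6]) (.lf [4, -25])) (.lf [1, -5])) (.lf [1, -128]))⟩, ⟨100, (.lf [0,
  1])⟩⟩ [(⟨251, o⟩, ⟨251, o⟩), (⟨251, o⟩, ⟨251, o⟩), (⟨251, o⟩, ⟨251, o⟩), (⟨251, o⟩, ⟨251, o⟩),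
  (⟨253, o⟩, ⟨253, o⟩), (⟨253, o⟩, ⟨253, o⟩), (⟨253, o⟩, ⟨253, o⟩), (⟨253, o⟩, ⟨253, o⟩), (⟨251,
  o⟩, ⟨251, o⟩), (⟨251, o⟩, ⟨251, o⟩), (⟨251, o⟩, ⟨251, o⟩), (⟨251, o⟩, ⟨251, o⟩), (⟨252, o⟩,
  ⟨252, o⟩), (⟨253, o⟩, ⟨253, o⟩), (⟨252, o⟩, ⟨256, (.lf [16, 0, -1])⟩), (⟨253, o⟩, ⟨253, o⟩)])))

theorem ci2_7 : Cov2 pi2 Ri
    ⟨505, 552, 540, 558⟩ ⟨-207, -148, 158, 200, 100, 0, 100, 0⟩ :=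
  CT.sound pi2 ci cl_i ti2_7 _ _ (by decide +kernel)

noncomputable def ti2_8 : CT :=
  (.sx (-124) (.sy 179 (.p2 147 203 ⟨309, 13, ⟨983, -1185, 192⟩, ⟨614, -487, 209⟩, ⟨56, (.lf [0,
  1])⟩, ⟨116, (.nd 3 (.nd 3 (.lf [2, -18]) (.nd 3 (.nd 0 (.lf [4, -30]) (.lf [1, -7])) (.nd 3
  (.lf [64, -425]) o))) (.lf [1, -64]))⟩, ⟨100, (.lf [0, 1])⟩⟩ ⟨154, 42, ⟨1421, -1356, -371⟩,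
  ⟨1149, -1119, -124⟩, ⟨57, (.lf [0, 1])⟩, ⟨110, (.nd 3 (.nd 3 (.nd 3 (.lf [4, -23]) (.lf [4,
  -27])) o) (.lf [4, -30]))⟩, ⟨100, (.lf [0, 1])⟩⟩ [(⟨257, (.lf [1, 0, -16])⟩, ⟨253, o⟩), (⟨259,
  (.lf [1, 0, -32])⟩, ⟨254, o⟩), (⟨258, (.lf [1, 0, -32])⟩, ⟨253, o⟩), (⟨260, (.lf [1, 0, -64])⟩,
  ⟨254, o⟩), (⟨255, o⟩, ⟨255, o⟩), (⟨255, o⟩, ⟨255, o⟩), (⟨255, o⟩, ⟨255, o⟩), (⟨255, o⟩, ⟨255,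
  o⟩), (⟨256, (.lf [1, 0, -8])⟩, ⟨253, o⟩), (⟨256, (.lf [1, 0, -4])⟩, ⟨254, o⟩), (⟨257, (.lf [1,
  0, -16])⟩, ⟨253, o⟩), (⟨259, (.lf [1, 0, -32])⟩, ⟨254, o⟩), (⟨254, o⟩, ⟨254, o⟩), (⟨255, o⟩,
  ⟨255, o⟩), (⟨257, (.lf [1, 0, -8])⟩, ⟨254, o⟩), (⟨256, (.lf [1, 0, -2])⟩, ⟨255, o⟩)]) (.p2 159
  201 ⟨280, 15, ⟨983, -1185, 192⟩, ⟨614, -487, 209⟩, ⟨56, (.lf [0, 1])⟩, ⟨116, (.nd 3 (.nd 3 (.lf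
  [2, -18]) (.nd 3 (.nd 0 (.lf [4, -30]) (.lf [1, -7])) (.nd 3 (.lf [64, -425]) o))) (.lf [1,
  -64]))⟩, ⟨100, (.lf [0, 1])⟩⟩ ⟨181, 28, ⟨1149, -1119, -124⟩, ⟨1000, -1000, 0⟩, ⟨56, (.lf [0,
  1])⟩, ⟨112, (.nd 3 (.nd 3 (.nd 3 (.nd 3 (.lf [4, -22]) (.lf [1, -5])) (.lf [1, -6])) (.lf [1,
  -5])) (.lf [1, -32]))⟩, ⟨100, (.lf [0, 1])⟩⟩ [(⟨253, o⟩, ⟨253, o⟩), (⟨254, o⟩, ⟨254, o⟩),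
  (⟨255, (.lf [1, 0, -2])⟩, ⟨253, o⟩), (⟨257, (.lf [1, 0, -8])⟩, ⟨254, o⟩), (⟨255, o⟩, ⟨259, (.lf
  [1, 0, -16])⟩), (⟨255, o⟩, ⟨255, o⟩), (⟨255, o⟩, ⟨255, o⟩), (⟨255, o⟩, ⟨255, o⟩), (⟨253, o⟩,
  ⟨253, o⟩), (⟨254, o⟩, ⟨254, o⟩), (⟨258, (.lf [1, 0, -16, 0, -4])⟩, ⟨253, o⟩), (⟨257, (.lf [1,
  0, -8])⟩, ⟨254, o⟩), (⟨254, o⟩, ⟨254, o⟩), (⟨255, o⟩, ⟨255, o⟩), (⟨258, (.lf [1, 0, -8, 0,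
  -1])⟩, ⟨257, (.lf [1, 0, -8])⟩), (⟨255, o⟩, ⟨255, o⟩)])) (.cl 1 [⟨69, o⟩, ⟨58, o⟩, ⟨58, o⟩,
  ⟨59, o⟩, ⟨68, o⟩, ⟨53, o⟩]))

theorem ci2_8 : Cov2 pi2 Ri
    ⟨505, 530, 540, 558⟩ ⟨-148, -122, 158, 200, 100, 0, 100, 0⟩ :=
  CT.sound pi2 ci cl_i ti2_8 _ _ (by decide +kernel)

noncomputable def ti2_9 : CT :=
  (.sx (-140) (.p2 158 196 ⟨231, 16, ⟨793, -770, 205⟩, ⟨685, -577, 211⟩, ⟨56, (.lf [0, 1])⟩,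
  ⟨116, (.nd 3 (.nd 3 (.lf [1, -64]) (.nd 3 (.nd 3 (.nd 0 (.lf [1, -7]) (.lf [4, -26])) (.lf [4,
  -30])) (.lf [1, -6]))) (.lf [1, -32]))⟩, ⟨100, (.lf [0, 1])⟩⟩ ⟨173, 34, ⟨1381, -1316, -322⟩,
  ⟨1000, -1000, 0⟩, ⟨57, (.lf [0, 1])⟩, ⟨109, (.nd 3 (.nd 3 (.nd 3 (.lf [1, -6]) (.lf [4, -25]))
  (.lf [1, -5])) (.lf [1, -128]))⟩, ⟨100, (.lf [0, 1])⟩⟩ [(⟨253, o⟩, ⟨253, o⟩), (⟨254, o⟩, ⟨254,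
  o⟩), (⟨253, o⟩, ⟨253, o⟩), (⟨256, (.lf [1, 0, -4])⟩, ⟨253, o⟩), (⟨254, o⟩, ⟨254, o⟩), (⟨255,
  o⟩, ⟨255, o⟩), (⟨254, o⟩, ⟨254, o⟩), (⟨255, o⟩, ⟨255, o⟩), (⟨253, o⟩, ⟨253, o⟩), (⟨253, o⟩,
  ⟨254, o⟩), (⟨255, (.lf [1, 0, -4])⟩, ⟨253, o⟩), (⟨257, (.lf [1, 0, -8])⟩, ⟨253, o⟩), (⟨254, o⟩,
  ⟨254, o⟩), (⟨255, o⟩, ⟨255, o⟩), (⟨256, (.lf [4, 0, -1])⟩, ⟨254, o⟩), (⟨254, o⟩, ⟨254, o⟩)])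
  (.sy 187 (.sy 173 (.p2 160 340 ⟨185, 17, ⟨685, -577, 211⟩, ⟨515, -280, 218⟩, ⟨56, (.lf [0,
  1])⟩, ⟨118, (.nd 3 (.nd 3 (.lf [1, -32]) (.nd 3 (.nd 3 (.nd 0 (.lf [4, -26]) (.lf [16, -98]))
  (.lf [1, -64])) (.nd 3 (.lf [64, -378]) (.lf [4, -22])))) (.lf [1, -32]))⟩, ⟨99, (.lf [0, 1])⟩⟩
  ⟨106, 55, ⟨1381, -1316, -322⟩, ⟨1192, -1153, -156⟩, ⟨56, (.lf [0, 1])⟩, ⟨110, (.nd 3 (.nd 3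
  (.nd 3 (.lf [4, -25]) (.lf [4, -27])) o) (.lf [1, -128]))⟩, ⟨101, (.lf [0, 1])⟩⟩ [(⟨261, (.lf
  [1, 0, -32])⟩, ⟨255, o⟩), (⟨256, o⟩, ⟨256, o⟩), (⟨261, (.lf [1, 0, 0, 0, -32])⟩, ⟨255, o⟩),
  (⟨256, o⟩, ⟨256, o⟩), (⟨257, o⟩, ⟨256, o⟩), (⟨257, o⟩, ⟨257, o⟩), (⟨257, o⟩, ⟨256, o⟩), (⟨257,
  o⟩, ⟨257, o⟩), (⟨256, o⟩, ⟨255, o⟩), (⟨256, o⟩, ⟨256, o⟩), (⟨259, (.lf [1, 0, -12])⟩, ⟨255,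
  o⟩), (⟨260, (.lf [1, 0, -4, 0, -8])⟩, ⟨256, o⟩), (⟨264, (.nd 2 o o)⟩, ⟨256, o⟩), (⟨257, o⟩,
  ⟨256, o⟩), (⟨264, (.nd 2 o o)⟩, ⟨256, o⟩), (⟨257, o⟩, ⟨256, o⟩)]) (.p2 170 101 ⟨350, 9, ⟨685,
  -577, 211⟩, ⟨515, -280, 218⟩, ⟨56, (.lf [0, 1])⟩, ⟨118, (.nd 3 (.nd 3 (.lf [1, -32]) (.nd 3
  (.nd 3 (.nd 0 (.lf [4, -26]) (.lf [16, -98])) (.lf [1, -64])) (.nd 3 (.lf [64, -378]) (.lf [4,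
  -22])))) (.lf [1, -32]))⟩, ⟨99, (.lf [0, 1])⟩⟩ ⟨317, 16, ⟨1192, -1153, -156⟩, ⟨1078, -1060,
  -61⟩, ⟨57, (.lf [0, 1])⟩, ⟨111, (.nd 3 (.nd 3 (.nd 3 (.lf [4, -23]) (.lf [1, -128])) (.lf [16,
  -86])) (.lf [1, -32]))⟩, ⟨100, (.lf [0, 1])⟩⟩ [(⟨251, o⟩, ⟨251, o⟩), (⟨252, o⟩, ⟨252, o⟩),
  (⟨251, o⟩, ⟨251, o⟩), (⟨252, o⟩, ⟨251, o⟩), (⟨252, o⟩, ⟨252, o⟩), (⟨253, o⟩, ⟨253, o⟩), (⟨252,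
  o⟩, ⟨252, o⟩), (⟨253, o⟩, ⟨253, o⟩), (⟨251, o⟩, ⟨251, o⟩), (⟨252, o⟩, ⟨251, o⟩), (⟨251, o⟩,
  ⟨251, o⟩), (⟨252, o⟩, ⟨251, o⟩), (⟨264, (.nd 2 o (.lf [8, 0, -2, 0, -8]))⟩, ⟨252, o⟩), (⟨252,
  o⟩, ⟨252, o⟩), (⟨271, (.nd 2 o (.nd 2 o (.lf [1, 0, 0, 0, -8])))⟩, ⟨252, o⟩), (⟨252, o⟩, ⟨252,
  o⟩)])) (.p2 180 307 ⟨239, 13, ⟨685, -577, 211⟩, ⟨515, -280, 218⟩, ⟨56, (.lf [0, 1])⟩, ⟨118,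
  (.nd 3 (.nd 3 (.lf [1, -32]) (.nd 3 (.nd 3 (.nd 0 (.lf [4, -26]) (.lf [16, -98])) (.lf [1,
  -64])) (.nd 3 (.lf [64, -378]) (.lf [4, -22])))) (.lf [1, -32]))⟩, ⟨99, (.lf [0, 1])⟩⟩ ⟨109,
  36, ⟨1078, -1060, -61⟩, ⟨1000, -1000, 0⟩, ⟨56, (.lf [0, 1])⟩, ⟨106, (.nd 3 (.nd 3 (.lf [4,
  -22]) (.lf [1, -5])) (.lf [1, -32]))⟩, ⟨100, (.lf [0, 1])⟩⟩ [(⟨262, (.lf [2, 0, -20, 0,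
  -100])⟩, ⟨255, o⟩), (⟨259, (.lf [1, 0, -8])⟩, ⟨256, o⟩), (⟨261, (.lf [1, 0, -16, 0, -16])⟩,
  ⟨255, o⟩), (⟨260, (.lf [1, 0, -16])⟩, ⟨256, o⟩), (⟨257, o⟩, ⟨256, o⟩), (⟨257, o⟩, ⟨257, o⟩),
  (⟨257, o⟩, ⟨256, o⟩), (⟨257, o⟩, ⟨257, o⟩), (⟨257, (.lf [1, 0, -1, 0, -2])⟩, ⟨255, o⟩), (⟨256,
  o⟩, ⟨256, o⟩), (⟨260, (.lf [1, 0, -16, 0, -16])⟩, ⟨255, o⟩), (⟨260, (.lf [1, 0, -16])⟩, ⟨256,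
  o⟩), (⟨256, o⟩, ⟨256, o⟩), (⟨256, o⟩, ⟨256, o⟩), (⟨256, o⟩, ⟨256, o⟩), (⟨256, o⟩, ⟨256, o⟩)])))

theorem ci2_9 : Cov2 pi2 Ri
    ⟨530, 552, 540, 558⟩ ⟨-148, -122, 158, 200, 100, 0, 100, 0⟩ :=
  CT.sound pi2 ci cl_i ti2_9 _ _ (by decide +kernel)

noncomputable def ti2_10 : CT :=
  (.cl 1 [⟨69, o⟩, ⟨58, o⟩, ⟨59, o⟩, ⟨59, o⟩, ⟨68, o⟩, ⟨53, o⟩])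

theorem ci2_10 : Cov2 pi2 Ri
    ⟨505, 552, 540, 558⟩ ⟨-122, -116, 0, 200, 100, 0, 100, 0⟩ :=
  CT.sound pi2 ci cl_i ti2_10 _ _ (by decide +kernel)

noncomputable def ti2_11 : CT :=
  (.cl 1 [⟨69, o⟩, ⟨58, o⟩, ⟨58, o⟩, ⟨59, o⟩, ⟨69, o⟩, ⟨53, o⟩])

theorem ci2_11 : Cov2 pi2 Ri
    ⟨456, 552, 540, 558⟩ ⟨-116, 400, 0, 200, 100, 0, 100, 0⟩ :=
  CT.sound pi2 ci cl_i ti2_11 _ _ (by decide +kernel)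

theorem covi2 : Cov2 pi2 Ri
    ⟨456, 552, 540, 558⟩ ⟨-400, 400, 0, 200, 100, 0, 100, 0⟩ :=
  (Cov2.sx (-116) (Cov2.sx (-207) ci2_1 (Cov2.sa 505 ci2_2 (Cov2.sx (-122) (Cov2.sy 158 (Cov2.sx
  (-182) ci2_3 (Cov2.sa 530 ci2_4 (Cov2.sy 129 ci2_5 ci2_6))) (Cov2.sx (-148) ci2_7 (Cov2.sa 530
  ci2_8 ci2_9))) ci2_10))) ci2_11)

def pii1 : Pm := ⟨200, 600, 0, 0, 0, 5, 3, ⟨11, -10, -14⟩⟩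

noncomputable def tii1_1 : CT :=
  (.sa 430 (.p1 80 86 111 120 0 125 0 102 false false 38 120 [(⟨137, o⟩, ⟨137, o⟩)]) (.sx (-108)
  (.p1 86 92 111 120 0 120 0 102 false false 40 120 [(⟨137, o⟩, ⟨137, o⟩)]) (.cl 2 [⟨68, o⟩, ⟨58,
  o⟩, ⟨58, o⟩, ⟨59, o⟩, ⟨68, o⟩, ⟨53, o⟩])))

theorem cii1_1 : Cov2 pii1 Rii
    ⟨400, 456, 558, 600⟩ ⟨-400, -90, 0, 102, 100, 0, 100, 0⟩ :=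
  CT.sound pii1 cii cl_ii tii1_1 _ _ (by decide +kernel)

noncomputable def tii1_2 : CT :=
  (.sy 131 (.p1 80 92 111 120 0 115 102 131 false false 46 120 [(⟨137, o⟩, ⟨137, o⟩)]) (.sx
  (-152) (.p1 80 92 111 120 0 76 131 200 false false 54 112 [(⟨137, o⟩, ⟨137, o⟩)]) (.sx (-125)
  (.sy 166 (.p1 80 92 111 120 48 103 131 166 false true 60 120 [(⟨137, o⟩, ⟨138, o⟩), (⟨137, o⟩,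
  ⟨138, o⟩), (⟨134, o⟩, ⟨132, o⟩)]) (.sa 430 (.p1 80 86 111 120 48 90 166 200 false true 88 240
  [(⟨140, o⟩, ⟨140, o⟩), (⟨140, o⟩, ⟨140, o⟩), (⟨136, o⟩, ⟨133, o⟩)]) (.sx (-133) (.p1 86 92 111
  120 63 95 166 200 false true 94 288 [(⟨142, o⟩, ⟨142, o⟩), (⟨142, o⟩, ⟨142, o⟩), (⟨138, o⟩,
  ⟨135, o⟩)]) (.p2 103 148 ⟨175, 27, ⟨2033, -2203, -1187⟩, ⟨1377, -1210, -707⟩, ⟨56, (.lf [0,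
  1])⟩, ⟨112, (.nd 3 (.nd 3 (.nd 3 (.lf [8, -122]) (.lf [4, -79])) (.nd 3 (.lf [1, -12]) o)) (.lf
  [1, -1024]))⟩, ⟨101, (.lf [0, 1])⟩⟩ ⟨193, 37, ⟨1345, -1288, -322⟩, ⟨1001, -1000, 0⟩, ⟨57, (.lf
  [0, 1])⟩, ⟨108, (.nd 3 (.nd 3 (.nd 3 (.lf [1, -5]) (.lf [1, -6])) (.lf [1, -4])) (.nd 3 (.lf
  [16, -101]) (.lf [1, -32])))⟩, ⟨100, (.lf [0, 1])⟩⟩ [(⟨228, o⟩, ⟨228, o⟩), (⟨228, o⟩, ⟨228,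
  o⟩), (⟨228, o⟩, ⟨228, o⟩), (⟨228, o⟩, ⟨228, o⟩), (⟨230, o⟩, ⟨230, o⟩), (⟨231, o⟩, ⟨231, o⟩),
  (⟨230, o⟩, ⟨230, o⟩), (⟨231, o⟩, ⟨231, o⟩), (⟨228, o⟩, ⟨228, o⟩), (⟨228, o⟩, ⟨228, o⟩), (⟨228,
  o⟩, ⟨228, o⟩), (⟨228, o⟩, ⟨228, o⟩), (⟨230, o⟩, ⟨230, o⟩), (⟨230, o⟩, ⟨230, o⟩), (⟨230, o⟩,
  ⟨230, o⟩), (⟨230, o⟩, ⟨230, o⟩)])))) (.sy 166 (.p2 77 229 ⟨157, 28, ⟨1790, -1857, -1028⟩,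
  ⟨1077, -795, -503⟩, ⟨56, (.lf [0, 1])⟩, ⟨113, (.nd 3 (.nd 3 (.nd 3 (.lf [1, -16]) (.lf [16,
  -346])) (.nd 3 (.lf [1, -14]) (.lf [2, -18]))) (.lf [1, -2048]))⟩, ⟨101, (.lf [0, 1])⟩⟩ ⟨160,
  63, ⟨1528, -1527, 0⟩, ⟨1206, -1205, 0⟩, ⟨57, (.lf [0, 1])⟩, ⟨98, (.lf [1, -6])⟩, ⟨100, o⟩⟩
  [(⟨229, o⟩, ⟨229, o⟩), (⟨230, o⟩, ⟨230, o⟩), (⟨229, o⟩, ⟨229, o⟩), (⟨231, (.lf [1, 0, -1])⟩,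
  ⟨229, o⟩), (⟨232, o⟩, ⟨231, o⟩), (⟨232, o⟩, ⟨232, o⟩), (⟨232, o⟩, ⟨231, o⟩), (⟨232, o⟩, ⟨232,
  o⟩), (⟨229, o⟩, ⟨229, o⟩), (⟨230, o⟩, ⟨229, o⟩), (⟨233, (.lf [1, 0, -16])⟩, ⟨229, o⟩), (⟨234,
  (.lf [1, 0, -16])⟩, ⟨229, o⟩), (⟨231, o⟩, ⟨230, o⟩), (⟨231, o⟩, ⟨231, o⟩), (⟨235, (.lf [1, 0,
  -16])⟩, ⟨231, o⟩), (⟨234, (.lf [1, 0, -8])⟩, ⟨231, o⟩)]) (.p2 109 181 ⟨271, 17, ⟨1790, -1857,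
  -1028⟩, ⟨1077, -795, -503⟩, ⟨56, (.lf [0, 1])⟩, ⟨113, (.nd 3 (.nd 3 (.nd 3 (.lf [1, -16]) (.lf
  [16, -346])) (.nd 3 (.lf [1, -14]) (.lf [2, -18]))) (.lf [1, -2048]))⟩, ⟨101, (.lf [0, 1])⟩⟩
  ⟨233, 34, ⟨1366, -1309, -349⟩, ⟨1001, -1000, 0⟩, ⟨57, (.lf [0, 1])⟩, ⟨115, (.nd 3 (.nd 3 (.nd 3
  (.lf [1, -5]) (.nd 3 (.nd 1 (.lf [1, -5]) (.lf [1, -6])) (.lf [1, -6]))) (.lf [1, -4])) (.nd 3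
  (.nd 3 (.lf [4, -26]) (.lf [4, -25])) (.lf [1, -64])))⟩, ⟨100, (.lf [0, 1])⟩⟩ [(⟨234, (.lf [1,
  0, -32])⟩, ⟨229, o⟩), (⟨233, (.lf [1, 0, -8])⟩, ⟨230, o⟩), (⟨235, (.lf [1, 0, -64])⟩, ⟨229,
  o⟩), (⟨236, (.lf [1, 0, -64])⟩, ⟨230, o⟩), (⟨236, (.lf [1, 0, -16])⟩, ⟨238, (.lf [1, 0,
  -64])⟩), (⟨232, o⟩, ⟨232, o⟩), (⟨237, (.lf [1, 0, -32])⟩, ⟨234, (.lf [1, 0, -4])⟩), (⟨236, (.lf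
  [1, 0, -16])⟩, ⟨232, o⟩), (⟨234, (.lf [1, 0, -32])⟩, ⟨234, (.lf [1, 0, -32])⟩), (⟨232, (.lf [1,
  0, -4])⟩, ⟨230, o⟩), (⟨235, (.lf [1, 0, -40])⟩, ⟨235, (.lf [1, 0, -64])⟩), (⟨237, (.lf [4, 0,
  -128, 0, -2])⟩, ⟨230, o⟩), (⟨236, (.lf [1, 0, -32])⟩, ⟨236, (.lf [1, 0, -32])⟩), (⟨231, o⟩,
  ⟨231, o⟩), (⟨236, (.lf [1, 0, -32])⟩, ⟨236, (.lf [1, 0, -32])⟩), (⟨239, (.lf [8, 0, -256, 0,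
  -2])⟩, ⟨231, o⟩)])))))

theorem cii1_2 : Cov2 pii1 Rii
    ⟨400, 456, 558, 600⟩ ⟨-400, -113, 102, 200, 100, 0, 100, 0⟩ :=
  CT.sound pii1 cii cl_ii tii1_2 _ _ (by decide +kernel)

noncomputable def tii1_3 : CT :=
  (.sx (-106) (.sy 151 (.p2 76 176 ⟨193, 19, ⟨1077, -795, -503⟩, ⟨883, -509, -372⟩, ⟨56, (.lf [0,
  1])⟩, ⟨113, (.nd 3 (.nd 3 (.lf [1, -512]) (.nd 3 (.lf [2, -25]) (.nd 0 (.lf [1, -10]) (.lf [2,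
  -18])))) (.lf [1, -64]))⟩, ⟨100, (.lf [0, 1])⟩⟩ ⟨154, 63, ⟨1962, -1961, 0⟩, ⟨1326, -1325, 0⟩,
  ⟨56, o⟩, ⟨102, (.lf [16, -106])⟩, ⟨101, o⟩⟩ [(⟨228, o⟩, ⟨228, o⟩), (⟨229, o⟩, ⟨228, o⟩), (⟨231,
  (.lf [1, 0, -8])⟩, ⟨228, o⟩), (⟨232, (.lf [1, 0, -8])⟩, ⟨228, o⟩), (⟨229, o⟩, ⟨229, o⟩), (⟨230,
  o⟩, ⟨230, o⟩), (⟨233, (.lf [1, 0, -8])⟩, ⟨229, o⟩), (⟨232, (.lf [1, 0, -4])⟩, ⟨230, o⟩), (⟨228,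
  o⟩, ⟨228, o⟩), (⟨228, o⟩, ⟨228, o⟩), (⟨231, (.lf [1, 0, -8])⟩, ⟨228, o⟩), (⟨233, (.lf [1, 0,
  -16])⟩, ⟨228, o⟩), (⟨229, o⟩, ⟨229, o⟩), (⟨230, o⟩, ⟨229, o⟩), (⟨232, (.lf [1, 0, -8])⟩, ⟨229,
  o⟩), (⟨234, (.lf [1, 0, -16])⟩, ⟨229, o⟩)]) (.p2 112 297 ⟨220, 17, ⟨1077, -795, -503⟩, ⟨883,
  -509, -372⟩, ⟨56, (.lf [0, 1])⟩, ⟨113, (.nd 3 (.nd 3 (.lf [1, -512]) (.nd 3 (.lf [2, -25]) (.nd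
  0 (.lf [1, -10]) (.lf [2, -18])))) (.lf [1, -64]))⟩, ⟨100, (.lf [0, 1])⟩⟩ ⟨138, 63, ⟨1785,
  -1698, -787⟩, ⟨1001, -1000, 0⟩, ⟨57, (.lf [0, 1])⟩, ⟨113, (.nd 3 (.lf [1, -5]) (.nd 3 (.lf [16,
  -117]) (.nd 2 (.nd 3 (.lf [1, -8]) (.lf [1, -128])) (.lf [1, -32]))))⟩, ⟨100, (.lf [0, 1])⟩⟩
  [(⟨238, (.lf [1, 0, -64])⟩, ⟨235, (.lf [1, 0, -16])⟩), (⟨232, o⟩, ⟨232, o⟩), (⟨239, (.lf [1, 0,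
  -128])⟩, ⟨231, o⟩), (⟨239, (.lf [1, 0, -128, 0, -4])⟩, ⟨231, o⟩), (⟨239, (.lf [1, 0, -64])⟩,
  ⟨240, (.lf [1, 0, -128])⟩), (⟨234, o⟩, ⟨233, o⟩), (⟨240, (.lf [1, 0, -128])⟩, ⟨238, (.lf [1, 0,
  -32])⟩), (⟨239, (.lf [1, 0, -64])⟩, ⟨233, o⟩), (⟨244, (.nd 2 (.lf [1, 0, -32]) (.lf [1, 0,
  -32]))⟩, ⟨238, (.lf [1, 0, -128])⟩), (⟨232, o⟩, ⟨232, o⟩), (⟨246, (.nd 2 (.lf [1, 0, -64]) (.lf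
  [1, 0, -64]))⟩, ⟨238, (.lf [1, 0, -128])⟩), (⟨239, (.lf [1, 0, -128])⟩, ⟨231, o⟩), (⟨246, (.nd
  2 (.lf [1, 0, -32]) (.lf [1, 0, -32]))⟩, ⟨239, (.lf [1, 0, -128])⟩), (⟨233, o⟩, ⟨233, o⟩),
  (⟨247, (.nd 2 (.lf [1, 0, -64]) (.lf [1, 0, -64]))⟩, ⟨239, (.lf [1, 0, -128])⟩), (⟨240, (.lf
  [1, 0, -128])⟩, ⟨233, o⟩)])) (.sa 426 (.sy 151 (.p2 71 171 ⟨241, 14, ⟨959, -661, -427⟩, ⟨658,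
  -206, -235⟩, ⟨56, (.lf [0, 1])⟩, ⟨111, (.nd 3 (.nd 3 (.lf [1, -64]) (.nd 3 (.lf [2, -22]) (.nd
  3 (.lf [1, -10]) (.lf [2, -18])))) (.lf [1, -64]))⟩, ⟨99, (.lf [0, 1])⟩⟩ ⟨154, 63, ⟨1962,
  -1961, 0⟩, ⟨1326, -1325, 0⟩, ⟨56, o⟩, ⟨102, (.lf [16, -106])⟩, ⟨101, o⟩⟩ [(⟨231, (.lf [1, 0,
  -8])⟩, ⟨228, o⟩), (⟨229, o⟩, ⟨228, o⟩), (⟨232, (.lf [1, 0, -16])⟩, ⟨228, o⟩), (⟨233, (.lf [1,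
  0, -16])⟩, ⟨228, o⟩), (⟨232, (.lf [1, 0, -8])⟩, ⟨229, o⟩), (⟨230, o⟩, ⟨229, o⟩), (⟨233, (.lf
  [1, 0, -16])⟩, ⟨229, o⟩), (⟨234, (.lf [1, 0, -16])⟩, ⟨229, o⟩), (⟨231, (.lf [1, 0, -5])⟩, ⟨228,
  o⟩), (⟨229, o⟩, ⟨228, o⟩), (⟨260, (.nd 2 (.nd 1 o (.nd 0 (.lf [1, 0, -1]) (.nd 2 (.lf [1, 0,
  -8]) o))) (.lf [1, 0, -16]))⟩, ⟨231, (.lf [1, 0, -8])⟩), (⟨233, (.lf [1, 0, -16])⟩, ⟨228, o⟩),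
  (⟨232, (.lf [1, 0, -12])⟩, ⟨228, o⟩), (⟨229, o⟩, ⟨229, o⟩), (⟨238, (.nd 3 (.lf [1, 0, -16])
  (.lf [1, 0, -20]))⟩, ⟨228, o⟩), (⟨233, (.lf [1, 0, -20])⟩, ⟨229, o⟩)]) (.sa 415 (.p2 100 385
  ⟨172, 19, ⟨994, -731, -452⟩, ⟨674, -238, -246⟩, ⟨56, (.lf [0, 1])⟩, ⟨110, (.nd 3 (.nd 3 (.lf
  [1, -64]) (.nd 3 (.lf [2, -22]) (.lf [8, -77]))) (.lf [1, -64]))⟩, ⟨99, (.lf [0, 1])⟩⟩ ⟨140,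
  63, ⟨1871, -1795, -901⟩, ⟨1001, -1000, 0⟩, ⟨57, (.lf [0, 1])⟩, ⟨113, (.nd 3 (.lf [1, -5]) (.nd
  3 (.nd 3 (.lf [4, -30]) (.lf [1, -7])) (.nd 2 (.nd 3 (.lf [1, -8]) (.lf [1, -128])) (.lf [1,
  -32]))))⟩, ⟨100, (.lf [0, 1])⟩⟩ [(⟨233, o⟩, ⟨232, o⟩), (⟨233, o⟩, ⟨233, o⟩), (⟨238, (.lf [1, 0,
  -32])⟩, ⟨232, o⟩), (⟨234, (.lf [1, 0, -1])⟩, ⟨232, o⟩), (⟨234, o⟩, ⟨233, o⟩), (⟨235, o⟩, ⟨234,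
  o⟩), (⟨239, (.lf [1, 0, -32])⟩, ⟨233, o⟩), (⟨234, o⟩, ⟨234, o⟩), (⟨246, (.nd 2 (.lf [1, 0,
  -56]) (.lf [1, 0, -32]))⟩, ⟨240, (.lf [1, 0, -256])⟩), (⟨233, o⟩, ⟨233, o⟩), (⟨255, (.nd 2 (.nd
  2 (.lf [1, 0, -88]) o) (.nd 3 (.lf [1, 0, -4]) (.lf [1, 0, -256])))⟩, ⟨240, (.lf [1, 0,
  -256])⟩), (⟨238, (.lf [1, 0, -32])⟩, ⟨232, o⟩), (⟨246, (.nd 2 o (.lf [1, 0, -32]))⟩, ⟨233, o⟩),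
  (⟨234, o⟩, ⟨233, o⟩), (⟨248, (.nd 2 (.lf [1, 0, -128]) (.lf [1, 0, -128]))⟩, ⟨233, o⟩), (⟨241,
  (.lf [1, 0, -128])⟩, ⟨233, o⟩)]) (.sx (-99) (.p2 103 323 ⟨205, 15, ⟨907, -566, -391⟩, ⟨766,
  -355, -300⟩, ⟨56, (.lf [0, 1])⟩, ⟨111, (.nd 3 (.nd 3 (.lf [1, -64]) (.nd 3 (.lf [8, -86]) (.nd
  3 (.lf [1, -10]) (.lf [2, -18])))) (.lf [1, -64]))⟩, ⟨99, (.lf [0, 1])⟩⟩ ⟨133, 63, ⟨1807,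
  -1728, -819⟩, ⟨1001, -1000, 0⟩, ⟨57, (.lf [0, 1])⟩, ⟨112, (.nd 3 (.lf [1, -5]) (.nd 3 (.nd 3
  (.lf [4, -30]) (.lf [16, -114])) (.nd 2 (.nd 3 (.lf [1, -8]) (.lf [1, -64])) (.lf [1,
  -32]))))⟩, ⟨100, (.lf [0, 1])⟩⟩ [(⟨236, (.lf [1, 0, -16])⟩, ⟨231, o⟩), (⟨232, o⟩, ⟨232, o⟩),
  (⟨238, (.lf [1, 0, -64])⟩, ⟨231, o⟩), (⟨238, (.lf [1, 0, -64])⟩, ⟨232, o⟩), (⟨236, (.lf [1, 0,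
  -8])⟩, ⟨232, o⟩), (⟨234, o⟩, ⟨233, o⟩), (⟨239, (.lf [1, 0, -64])⟩, ⟨232, o⟩), (⟨238, (.lf [1,
  0, -32])⟩, ⟨233, o⟩), (⟨238, (.lf [1, 0, -64])⟩, ⟨231, o⟩), (⟨232, o⟩, ⟨232, o⟩), (⟨239, (.lf
  [1, 0, -128])⟩, ⟨231, o⟩), (⟨238, (.lf [1, 0, -64])⟩, ⟨232, o⟩), (⟨239, (.lf [1, 0, -64])⟩,
  ⟨232, o⟩), (⟨233, o⟩, ⟨233, o⟩), (⟨240, (.lf [1, 0, -128])⟩, ⟨232, o⟩), (⟨239, (.lf [1, 0,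
  -64])⟩, ⟨232, o⟩)]) (.cl 2 [⟨68, o⟩, ⟨58, o⟩, ⟨58, o⟩, ⟨59, o⟩, ⟨68, o⟩, ⟨53, o⟩])))) (.cl 2
  [⟨68, o⟩, ⟨58, o⟩, ⟨58, o⟩, ⟨59, o⟩, ⟨68, o⟩, ⟨53, o⟩])))

theorem cii1_3 : Cov2 pii1 Rii
    ⟨400, 456, 558, 600⟩ ⟨-113, -90, 102, 200, 100, 0, 100, 0⟩ :=
  CT.sound pii1 cii cl_ii tii1_3 _ _ (by decide +kernel)

noncomputable def tii1_4 : CT :=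
  (.cl 2 [⟨68, o⟩, ⟨58, o⟩, ⟨58, o⟩, ⟨59, o⟩, ⟨68, o⟩, ⟨53, o⟩])

theorem cii1_4 : Cov2 pii1 Rii
    ⟨400, 456, 558, 600⟩ ⟨-90, 400, 0, 200, 100, 0, 100, 0⟩ :=
  CT.sound pii1 cii cl_ii tii1_4 _ _ (by decide +kernel)

theorem covii1 : Cov2 pii1 Rii
    ⟨400, 456, 558, 600⟩ ⟨-400, 400, 0, 200, 100, 0, 100, 0⟩ :=
  (Cov2.sx (-90) (Cov2.sy 102 cii1_1 (Cov2.sx (-113) cii1_2 cii1_3)) cii1_4)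

def pb : Pm := ⟨200, 266, 0, -250, 0, 5, 3, ⟨-11, 10, 14⟩⟩

noncomputable def tb_1 : CT :=
  (.sx 11 (.sy 218 (.sa 510 (.st 578 (.cl 3 [⟨63, o⟩]) (.sx 9 (.p1 96 102 115 120 0 123 0 118
  false false 52 160 [(⟨138, o⟩, ⟨138, o⟩)]) (.cl 1 [⟨64, o⟩]))) (.sx 10 (.p1 102 108 111 120 0
  130 0 112 false false 56 160 [(⟨138, o⟩, ⟨139, o⟩)]) (.cl 1 [⟨64, o⟩]))) (.sx (-25) (.p1 96 108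
  111 120 0 95 105 176 false true 80 240 [(⟨140, o⟩, ⟨140, o⟩), (⟨140, o⟩, ⟨140, o⟩), (⟨136, o⟩,
  ⟨134, o⟩)]) (.sx (-7) (.p2 86 115 ⟨130, 49, ⟨1244, -649, 0⟩, ⟨856, -125, 0⟩, ⟨55, (.lf [0,
  1])⟩, ⟨119, (.nd 3 o (.nd 3 (.lf [1, -8]) (.nd 3 (.lf [1, -8]) (.nd 3 (.lf [1, -10]) (.nd 3
  (.lf [1, -10]) (.nd 0 (.lf [1, -10]) (.lf [2, -19])))))))⟩, ⟨98, o⟩⟩ ⟨167, 54, ⟨812, 514, 0⟩,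
  ⟨755, -181, 0⟩, ⟨57, (.lf [0, 1])⟩, ⟨138, (.nd 3 (.lf [1, -4]) (.nd 3 (.lf [1, -8]) (.nd 3 (.lf
  [1, -8]) (.nd 3 (.lf [1, -6]) (.nd 0 (.nd 3 (.lf [1, -6]) (.nd 0 (.nd 3 (.lf [1, -6]) (.nd 0
  (.lf [64, -373]) (.lf [64, -377]))) (.nd 3 (.lf [1, -6]) (.nd 0 (.lf [64, -370]) (.lf [256,
  -1465]))))) (.nd 3 (.lf [4, -25]) (.nd 0 (.nd 3 (.lf [1, -6]) (.nd 0 (.lf [1, -6]) (.lf [16,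
  -95]))) (.nd 3 (.lf [4, -25]) (.nd 0 (.lf [16, -97]) (.lf [64, -391]))))))))))⟩, ⟨99, o⟩⟩
  [(⟨226, o⟩, ⟨226, o⟩), (⟨226, o⟩, ⟨226, o⟩), (⟨226, o⟩, ⟨226, o⟩), (⟨226, o⟩, ⟨226, o⟩), (⟨227,
  o⟩, ⟨227, o⟩), (⟨227, o⟩, ⟨227, o⟩), (⟨227, o⟩, ⟨227, o⟩), (⟨227, o⟩, ⟨227, o⟩), (⟨226, o⟩,
  ⟨226, o⟩), (⟨226, o⟩, ⟨226, o⟩), (⟨226, o⟩, ⟨226, o⟩), (⟨226, o⟩, ⟨226, o⟩), (⟨226, o⟩, ⟨226,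
  o⟩), (⟨227, o⟩, ⟨227, o⟩), (⟨226, o⟩, ⟨226, o⟩), (⟨227, o⟩, ⟨227, o⟩)]) (.st 580 (.sa 507 (.cl
  3 [⟨63, o⟩]) (.sx 10 (.sy 274 (.p2 102 176 ⟨154, 34, ⟨901, 463, -948⟩, ⟨524, 586, -426⟩, ⟨55,
  (.lf [0, 1])⟩, ⟨118, (.nd 3 (.nd 3 (.nd 3 (.nd 3 (.lf [32, -347]) (.lf [1, -10])) (.nd 3 (.nd 2
  (.nd 3 (.lf [1, -12]) (.lf [8, -91])) (.lf [1, -64])) (.lf [1, -1024]))) (.nd 3 (.nd 3 (.lf [1,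
  -8]) (.nd 3 (.lf [8, -71]) (.lf [2, -18]))) o)) (.lf [1, -128]))⟩, ⟨98, (.lf [0, 1])⟩⟩ ⟨182,
  48, ⟨801, 540, 0⟩, ⟨762, -177, 0⟩, ⟨57, (.lf [0, 1])⟩, ⟨129, (.nd 3 (.lf [1, -6]) (.nd 3 (.lf
  [1, -8]) (.nd 3 (.lf [1, -8]) (.nd 3 (.lf [1, -6]) (.nd 3 (.lf [4, -25]) (.nd 0 (.nd 3 (.lf [1,
  -6]) (.nd 0 (.lf [16, -97]) (.lf [1, -6]))) (.nd 3 (.lf [4, -25]) (.nd 0 (.lf [16, -98]) (.lf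
  [16, -99])))))))))⟩, ⟨99, o⟩⟩ [(⟨228, o⟩, ⟨228, o⟩), (⟨228, o⟩, ⟨228, o⟩), (⟨228, o⟩, ⟨228,
  o⟩), (⟨228, o⟩, ⟨228, o⟩), (⟨228, o⟩, ⟨228, o⟩), (⟨229, o⟩, ⟨229, o⟩), (⟨229, o⟩, ⟨229, o⟩),
  (⟨229, o⟩, ⟨229, o⟩), (⟨228, o⟩, ⟨228, o⟩), (⟨228, o⟩, ⟨228, o⟩), (⟨228, o⟩, ⟨228, o⟩), (⟨228,
  o⟩, ⟨228, o⟩), (⟨228, o⟩, ⟨228, o⟩), (⟨229, o⟩, ⟨228, o⟩), (⟨228, o⟩, ⟨228, o⟩), (⟨228, o⟩,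
  ⟨228, o⟩)]) (.cl 2 [⟨64, o⟩])) (.cl 1 [⟨64, o⟩]))) (.sx 9 (.sy 271 (.sx 1 (.p2 93 99 ⟨182, 26,
  ⟨814, 487, -790⟩, ⟨627, 552, -541⟩, ⟨55, (.lf [0, 1])⟩, ⟨123, (.nd 3 (.nd 3 (.nd 3 (.nd 3 (.nd
  0 (.lf [2, -26]) (.lf [8, -93])) (.nd 0 (.nd 3 (.lf [1, -12]) (.lf [2, -23])) (.nd 3 (.lf [2,
  -22]) (.lf [2, -21])))) (.lf [1, -128])) (.nd 3 (.nd 3 (.nd 0 (.nd 3 (.lf [8, -81]) (.lf [1,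
  -8])) (.lf [1, -8])) (.nd 0 (.nd 3 (.lf [32, -334]) (.lf [8, -87])) (.nd 3 (.lf [8, -78]) (.lf
  [1, -10])))) o)) (.lf [1, -64]))⟩, ⟨98, (.lf [0, 1])⟩⟩ ⟨304, 28, ⟨812, 514, 0⟩, ⟨765, -155, 0⟩,
  ⟨57, (.lf [0, 1])⟩, ⟨136, (.nd 3 (.lf [1, -6]) (.nd 3 (.lf [1, -8]) (.nd 3 (.lf [1, -8]) (.nd 3
  (.lf [1, -8]) (.nd 3 (.lf [4, -25]) (.nd 0 (.nd 0 (.lf [16, -97]) (.nd 3 (.lf [1, -6]) (.nd 0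
  (.lf [1, -6]) (.lf [64, -377])))) (.nd 0 (.lf [16, -99]) (.lf [256, -1609]))))))))⟩, ⟨99, o⟩⟩
  [(⟨226, o⟩, ⟨226, o⟩), (⟨226, o⟩, ⟨226, o⟩), (⟨226, o⟩, ⟨226, o⟩), (⟨226, o⟩, ⟨226, o⟩), (⟨227,
  o⟩, ⟨227, o⟩), (⟨227, o⟩, ⟨227, o⟩), (⟨227, o⟩, ⟨227, o⟩), (⟨227, o⟩, ⟨227, o⟩), (⟨226, o⟩,
  ⟨226, o⟩), (⟨226, o⟩, ⟨226, o⟩), (⟨226, o⟩, ⟨226, o⟩), (⟨226, o⟩, ⟨226, o⟩), (⟨226, o⟩, ⟨226,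
  o⟩), (⟨227, o⟩, ⟨227, o⟩), (⟨241, (.nd 2 o (.nd 3 o (.lf [1, 0, 0, 0, -4])))⟩, ⟨226, o⟩),
  (⟨227, o⟩, ⟨227, o⟩)]) (.sa 510 (.p2 99 190 ⟨278, 15, ⟨630, 553, -547⟩, ⟨509, 594, -395⟩, ⟨55,
  (.lf [0, 1])⟩, ⟨116, (.nd 3 (.nd 3 (.lf [1, -512]) (.nd 3 (.nd 3 (.lf [128, -1193]) (.lf [32,
  -322])) (.lf [8, -69]))) (.lf [1, -64]))⟩, ⟨98, (.lf [0, 1])⟩⟩ ⟨149, 56, ⟨824, 485, 0⟩, ⟨762,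
  -149, 0⟩, ⟨57, (.lf [0, 1])⟩, ⟨123, (.nd 3 (.lf [1, -6]) (.nd 3 (.lf [1, -8]) (.nd 3 (.lf [1,
  -8]) (.nd 3 (.lf [1, -8]) (.nd 3 (.lf [1, -6]) (.nd 0 (.lf [64, -381]) (.lf [16, -97])))))))⟩,
  ⟨99, o⟩⟩ [(⟨238, (.nd 3 (.lf [1, 0, -8]) (.lf [1, 0, -32]))⟩, ⟨228, o⟩), (⟨232, (.lf [1, -4,
  -8])⟩, ⟨229, o⟩), (⟨238, (.nd 3 (.lf [1, 0, -32]) (.lf [1, 0, -32]))⟩, ⟨228, o⟩), (⟨234, (.lf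
  [1, 0, -48])⟩, ⟨229, o⟩), (⟨229, o⟩, ⟨229, o⟩), (⟨229, o⟩, ⟨229, o⟩), (⟨233, (.lf [1, 0,
  -16])⟩, ⟨229, o⟩), (⟨234, (.lf [1, 0, -32])⟩, ⟨229, o⟩), (⟨238, (.nd 3 (.lf [1, 0, -8]) (.lf
  [1, 0, -32]))⟩, ⟨228, o⟩), (⟨231, (.lf [1, 0, -4])⟩, ⟨229, o⟩), (⟨243, (.nd 3 (.nd 3 (.lf [1,
  0, -28]) o) (.lf [1, 0, -32]))⟩, ⟨231, (.lf [1, 0, -4])⟩), (⟨235, (.lf [2, 0, -90])⟩, ⟨229,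
  o⟩), (⟨230, (.lf [1, 0, -1])⟩, ⟨229, o⟩), (⟨229, o⟩, ⟨229, o⟩), (⟨238, (.nd 3 (.lf [1, 0, -12])
  (.lf [1, 0, -16]))⟩, ⟨234, (.lf [1, 0, -32])⟩), (⟨234, (.lf [1, 0, -32])⟩, ⟨229, o⟩)]) (.sx 8
  (.sy 269 (.p2 100 160 ⟨237, 18, ⟨625, 550, -535⟩, ⟨520, 585, -403⟩, ⟨55, (.lf [0, 1])⟩, ⟨118,
  (.nd 3 (.nd 3 (.nd 3 (.nd 3 (.lf [1, -64]) (.lf [1, -10])) (.lf [1, -32])) (.nd 3 (.nd 3 (.lf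
  [8, -70]) (.nd 3 (.lf [8, -75]) (.lf [32, -306]))) o)) (.lf [1, -64]))⟩, ⟨98, (.lf [0, 1])⟩⟩
  ⟨169, 48, ⟨799, 543, 0⟩, ⟨771, -149, 0⟩, ⟨57, (.lf [0, 1])⟩, ⟨129, (.nd 3 (.lf [1, -4]) (.nd 3
  (.lf [1, -8]) (.nd 3 (.lf [1, -8]) (.nd 3 (.lf [1, -8]) (.nd 3 (.lf [4, -26]) (.nd 0 (.nd 3
  (.lf [4, -25]) (.nd 0 (.lf [4, -25]) (.lf [16, -99]))) (.nd 3 (.lf [4, -26]) (.nd 0 (.lf [16,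
  -101]) (.lf [16, -102])))))))))⟩, ⟨99, o⟩⟩ [(⟨229, (.lf [1, 0, -2])⟩, ⟨228, o⟩), (⟨228, o⟩,
  ⟨228, o⟩), (⟨237, (.nd 3 (.lf [1, 0, -8]) (.lf [1, 0, -16]))⟩, ⟨228, o⟩), (⟨232, (.lf [1, 0,
  -16])⟩, ⟨228, o⟩), (⟨228, o⟩, ⟨228, o⟩), (⟨229, o⟩, ⟨229, o⟩), (⟨231, (.lf [1, 0, -4])⟩, ⟨228,
  o⟩), (⟨230, (.lf [1, 0, -1])⟩, ⟨228, o⟩), (⟨229, (.lf [1, 0, -2])⟩, ⟨228, o⟩), (⟨228, o⟩, ⟨228,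
  o⟩), (⟨249, (.nd 3 (.nd 2 o (.nd 3 (.lf [1, 0, -16]) o)) (.lf [1, 0, -16]))⟩, ⟨228, o⟩), (⟨232,
  (.lf [1, 0, -14])⟩, ⟨228, o⟩), (⟨228, o⟩, ⟨228, o⟩), (⟨229, o⟩, ⟨228, o⟩), (⟨236, (.nd 3 o (.lf
  [1, 0, -8]))⟩, ⟨231, (.lf [1, 0, -8])⟩), (⟨232, (.lf [1, 0, -8])⟩, ⟨228, o⟩)]) (.cl 2 [⟨64,
  o⟩])) (.cl 1 [⟨64, o⟩])))) (.cl 2 [⟨64, o⟩])) (.cl 1 [⟨64, o⟩])))))) (.cl 1 [⟨64, o⟩]))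

theorem cb_1 : Cov2 pb Rblob
    ⟨480, 540, 558, 600⟩ ⟨-400, 12, -400, 276, 100, 0, 100, 0⟩ :=
  CT.sound pb cblob cl_blob tb_1 _ _ (by decide +kernel)

noncomputable def tb_2 : CT :=
  (.sy 274 (.sy 223 (.p1 108 120 111 120 0 145 0 111 false false 66 136 [(⟨139, o⟩, ⟨139, o⟩)])
  (.sx (-31) (.sa 570 (.sy 273 (.p1 108 114 111 120 0 96 104 161 false false 64 136 [(⟨138, o⟩,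
  ⟨138, o⟩)]) (.cl 2 [⟨64, o⟩])) (.p1 114 120 111 120 0 102 98 156 false false 68 136 [(⟨138, o⟩,
  ⟨139, o⟩)])) (.sx (-10) (.p2 83 104 ⟨153, 48, ⟨1324, -685, 0⟩, ⟨888, -148, 0⟩, ⟨56, (.lf [0,
  1])⟩, ⟨133, (.nd 3 o (.nd 3 (.lf [1, -8]) (.nd 3 (.lf [1, -8]) (.nd 3 (.lf [1, -8]) (.nd 3 (.lf
  [2, -18]) (.nd 0 (.nd 3 (.lf [2, -18]) (.nd 0 (.lf [8, -71]) (.lf [128, -1161]))) (.nd 3 (.lf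
  [2, -17]) (.nd 0 (.lf [32, -274]) (.lf [128, -1063])))))))))⟩, ⟨99, o⟩⟩ ⟨178, 46, ⟨772, 499,
  0⟩, ⟨772, -199, 0⟩, ⟨57, (.lf [0, 1])⟩, ⟨128, (.nd 3 (.lf [1, -8]) (.nd 3 (.lf [1, -8]) (.nd 3
  (.lf [1, -8]) (.nd 3 (.lf [1, -8]) (.nd 0 (.nd 3 (.lf [4, -26]) (.nd 0 (.lf [16, -103]) (.lf
  [64, -403]))) (.nd 3 (.lf [1, -7]) (.nd 0 (.lf [16, -105]) (.lf [16, -107]))))))))⟩, ⟨100, o⟩⟩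
  [(⟨226, o⟩, ⟨226, o⟩), (⟨226, o⟩, ⟨227, o⟩), (⟨226, o⟩, ⟨226, o⟩), (⟨226, o⟩, ⟨227, o⟩), (⟨227,
  o⟩, ⟨227, o⟩), (⟨227, o⟩, ⟨228, o⟩), (⟨227, o⟩, ⟨227, o⟩), (⟨227, o⟩, ⟨228, o⟩), (⟨226, o⟩,
  ⟨226, o⟩), (⟨226, o⟩, ⟨227, o⟩), (⟨226, o⟩, ⟨240, (.nd 3 (.nd 2 o (.lf [1, 0, -2])) o)⟩),
  (⟨226, o⟩, ⟨227, o⟩), (⟨226, o⟩, ⟨227, o⟩), (⟨227, o⟩, ⟨227, o⟩), (⟨226, o⟩, ⟨227, o⟩), (⟨227,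
  o⟩, ⟨227, o⟩)]) (.st 580 (.p2 108 154 ⟨148, 40, ⟨986, 411, -1038⟩, ⟨496, 575, -369⟩, ⟨56, (.lf
  [0, 1])⟩, ⟨121, (.nd 3 (.nd 3 (.nd 3 (.nd 3 (.lf [2, -18]) (.nd 0 (.lf [2, -17]) (.lf [1,
  -8]))) (.nd 3 (.nd 0 (.lf [2, -21]) (.lf [8, -78])) (.nd 2 (.nd 0 (.nd 3 (.lf [2, -22]) (.lf
  [2, -23])) (.lf [32, -337])) (.lf [1, -64])))) (.nd 3 (.nd 3 o (.nd 0 (.lf [1, -8]) (.lf [4,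
  -31]))) o)) (.nd 3 (.nd 3 (.lf [1, -64]) (.nd 3 (.lf [1, -128]) (.lf [2, -25]))) (.lf [1,
  -64])))⟩, ⟨99, (.lf [0, 1])⟩⟩ ⟨169, 48, ⟨772, 499, 0⟩, ⟨772, -199, 0⟩, ⟨57, (.lf [0, 1])⟩,
  ⟨128, (.nd 3 (.lf [1, -8]) (.nd 3 (.lf [1, -8]) (.nd 3 (.lf [1, -8]) (.nd 3 (.lf [1, -8]) (.nd
  3 (.lf [1, -7]) (.nd 0 (.nd 0 (.lf [16, -103]) (.lf [64, -403])) (.nd 0 (.lf [16, -105]) (.lf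
  [16, -107]))))))))⟩, ⟨100, o⟩⟩ [(⟨227, o⟩, ⟨227, o⟩), (⟨228, o⟩, ⟨228, o⟩), (⟨227, o⟩, ⟨227,
  o⟩), (⟨228, o⟩, ⟨228, o⟩), (⟨228, o⟩, ⟨228, o⟩), (⟨229, o⟩, ⟨229, o⟩), (⟨228, o⟩, ⟨228, o⟩),
  (⟨229, o⟩, ⟨229, o⟩), (⟨227, o⟩, ⟨227, o⟩), (⟨228, o⟩, ⟨228, o⟩), (⟨227, o⟩, ⟨227, o⟩), (⟨228,
  o⟩, ⟨228, o⟩), (⟨228, o⟩, ⟨228, o⟩), (⟨228, o⟩, ⟨228, o⟩), (⟨228, o⟩, ⟨228, o⟩), (⟨228, o⟩,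
  ⟨228, o⟩)]) (.sx 10 (.sy 270 (.sx 0 (.p2 90 111 ⟨153, 36, ⟨874, 453, -847⟩, ⟨633, 535, -528⟩,
  ⟨56, (.lf [0, 1])⟩, ⟨118, (.nd 3 (.nd 3 (.nd 3 (.nd 3 (.nd 0 (.lf [8, -87]) (.lf [1, -10]))
  (.nd 0 (.lf [8, -77]) (.lf [2, -18]))) (.nd 3 (.nd 0 (.lf [1, -12]) (.lf [8, -86])) (.lf [1,
  -256]))) (.nd 3 (.nd 3 o (.lf [8, -70])) o)) (.lf [1, -128]))⟩, ⟨99, (.lf [0, 1])⟩⟩ ⟨206, 37,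
  ⟨772, 499, 0⟩, ⟨778, -175, 0⟩, ⟨57, (.lf [0, 1])⟩, ⟨126, (.nd 3 (.lf [1, -8]) (.nd 3 (.lf [1,
  -8]) (.nd 3 (.lf [1, -8]) (.nd 3 (.lf [1, -8]) (.nd 0 (.nd 3 (.lf [1, -8]) (.nd 0 (.lf [16,
  -106]) (.lf [4, -26]))) (.lf [256, -1761]))))))⟩, ⟨100, o⟩⟩ [(⟨226, o⟩, ⟨226, o⟩), (⟨227, o⟩,
  ⟨227, o⟩), (⟨226, o⟩, ⟨226, o⟩), (⟨227, o⟩, ⟨227, o⟩), (⟨227, o⟩, ⟨227, o⟩), (⟨227, o⟩, ⟨227,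
  o⟩), (⟨227, o⟩, ⟨227, o⟩), (⟨227, o⟩, ⟨227, o⟩), (⟨226, o⟩, ⟨226, o⟩), (⟨227, o⟩, ⟨227, o⟩),
  (⟨226, o⟩, ⟨226, o⟩), (⟨227, o⟩, ⟨227, o⟩), (⟨227, o⟩, ⟨227, o⟩), (⟨227, o⟩, ⟨227, o⟩), (⟨227,
  o⟩, ⟨227, o⟩), (⟨227, o⟩, ⟨227, o⟩)]) (.st 590 (.p2 102 186 ⟨163, 30, ⟨643, 531, -546⟩, ⟨498,
  577, -363⟩, ⟨55, (.lf [0, 1])⟩, ⟨119, (.nd 3 (.nd 3 (.nd 3 (.nd 3 (.nd 0 (.lf [1, -256]) (.lf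
  [2, -18])) (.nd 0 (.nd 3 (.lf [2, -19]) (.lf [2, -18])) (.lf [32, -274]))) (.lf [1, -64])) (.nd
  3 (.nd 3 (.lf [4, -30]) (.nd 0 (.lf [2, -17]) (.lf [1, -8]))) o)) (.lf [1, -64]))⟩, ⟨98, (.lf
  [0, 1])⟩⟩ ⟨141, 54, ⟨772, 499, 0⟩, ⟨778, -175, 0⟩, ⟨57, (.lf [0, 1])⟩, ⟨126, (.nd 3 (.lf [1,
  -4]) (.nd 3 (.lf [1, -8]) (.nd 3 (.lf [1, -8]) (.nd 3 (.lf [1, -8]) (.nd 3 (.lf [1, -8]) (.nd 0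
  (.nd 0 (.lf [16, -106]) (.lf [4, -26])) (.lf [256, -1761])))))))⟩, ⟨100, o⟩⟩ [(⟨228, o⟩, ⟨228,
  o⟩), (⟨228, o⟩, ⟨228, o⟩), (⟨228, o⟩, ⟨228, o⟩), (⟨228, o⟩, ⟨228, o⟩), (⟨228, o⟩, ⟨228, o⟩),
  (⟨229, o⟩, ⟨229, o⟩), (⟨229, o⟩, ⟨229, o⟩), (⟨229, o⟩, ⟨229, o⟩), (⟨228, o⟩, ⟨228, o⟩), (⟨228,
  o⟩, ⟨228, o⟩), (⟨228, o⟩, ⟨228, o⟩), (⟨228, o⟩, ⟨228, o⟩), (⟨228, o⟩, ⟨228, o⟩), (⟨229, o⟩,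
  ⟨229, o⟩), (⟨228, o⟩, ⟨228, o⟩), (⟨229, o⟩, ⟨229, o⟩)]) (.sx 9 (.sy 268 (.p2 100 184 ⟨167, 27,
  ⟨622, 539, -510⟩, ⟨496, 580, -356⟩, ⟨55, (.lf [0, 1])⟩, ⟨117, (.nd 3 (.nd 3 (.nd 3 (.nd 3 (.lf
  [1, -128]) (.nd 0 (.lf [2, -19]) (.lf [8, -69]))) (.lf [1, -64])) (.nd 3 (.nd 3 (.nd 0 (.lf [1,
  -8]) (.lf [1, -2])) (.nd 0 (.lf [2, -17]) (.lf [1, -8]))) o)) (.lf [1, -32]))⟩, ⟨98, (.lf [0,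
  1])⟩⟩ ⟨145, 50, ⟨772, 499, 0⟩, ⟨782, -162, 0⟩, ⟨57, (.lf [0, 1])⟩, ⟨97, (.lf [1, -7])⟩, ⟨100,
  o⟩⟩ [(⟨228, o⟩, ⟨228, o⟩), (⟨228, o⟩, ⟨228, o⟩), (⟨228, o⟩, ⟨228, o⟩), (⟨228, o⟩, ⟨228, o⟩),
  (⟨228, o⟩, ⟨228, o⟩), (⟨229, o⟩, ⟨229, o⟩), (⟨229, o⟩, ⟨228, o⟩), (⟨229, o⟩, ⟨229, o⟩), (⟨228,
  o⟩, ⟨228, o⟩), (⟨228, o⟩, ⟨228, o⟩), (⟨228, o⟩, ⟨228, o⟩), (⟨240, (.nd 3 o (.lf [64, 0,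
  -86]))⟩, ⟨228, o⟩), (⟨228, o⟩, ⟨228, o⟩), (⟨229, o⟩, ⟨229, o⟩), (⟨228, o⟩, ⟨231, (.lf [1, 0,
  -6])⟩), (⟨229, o⟩, ⟨229, o⟩)]) (.cl 2 [⟨64, o⟩])) (.cl 1 [⟨64, o⟩])))) (.cl 2 [⟨64, o⟩])) (.cl
  1 [⟨64, o⟩])))))) (.cl 2 [⟨64, o⟩]))

theorem cb_2 : Cov2 pb Rblob
    ⟨540, 600, 558, 600⟩ ⟨-400, 12, -400, 276, 100, 0, 100, 0⟩ :=
  CT.sound pb cblob cl_blob tb_2 _ _ (by decide +kernel)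

noncomputable def tb_3 : CT :=
  (.cl 2 [⟨64, o⟩])

theorem cb_3 : Cov2 pb Rblob
    ⟨480, 600, 558, 600⟩ ⟨-400, 12, 276, 800, 100, 0, 100, 0⟩ :=
  CT.sound pb cblob cl_blob tb_3 _ _ (by decide +kernel)

noncomputable def tb_4 : CT :=
  (.cl 1 [⟨65, o⟩])

theorem cb_4 : Cov2 pb Rblob
    ⟨480, 600, 558, 600⟩ ⟨12, 400, -400, 800, 100, 0, 100, 0⟩ :=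
  CT.sound pb cblob cl_blob tb_4 _ _ (by decide +kernel)

theorem covb : Cov2 pb Rblob
    ⟨480, 600, 558, 600⟩ ⟨-400, 400, -400, 800, 100, 0, 100, 0⟩ :=
  (Cov2.sx 12 (Cov2.sy 276 (Cov2.sa 540 cb_1 cb_2) cb_3) cb_4)

end Pool.Agent.Lib.MP_43bc59_co.P18
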