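import Pool.Agent.Lib.MP_43bc59_co.SDefs

set_option autoImplicit false

namespace Pool.Agent.Lib.MP_43bc59_co

open Finset

/-- the hypotheses of `St_F`, named -/
structure Hyp {ι : Type} [Fintype ι] (a θ : ℝ) (w g A Φ : ι → ℝ) (c G : ι → ι → ℝ) : Prop where
  th0 : 0 < θ
  th1 : θ ≤ 1 / 2
  a0 : 0 < a
  a1 : a < 1
  w1 : ∀ j, 1 ≤ w j
  g0 : ∀ j, 0 ≤ g j
  g1 : ∀ j, g j ≤ 1
  bal : ∑ j, w j * (g j - a) = 0
  par : ∀ β : ι → ℝ, (∀ j, 0 ≤ β j) → (∀ j, β j ≤ 1) →
    θ * ∑ j, β j * (w j * (g j - a)) ≤ a * (1 - a)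
  pd : ∀ j, θ * (1 - g j) ≤ 1 - a
  pu : ∀ j, θ * g j ≤ a
  wd : ∀ j, w j ≤ 2 → θ * (w j * (a - g j) + (2 - w j) * (1 - a) * (w j * g j)) ≤ a * (1 - a)
  wu : ∀ j, w j ≤ 2 → θ * (w j * (g j - a) + (2 - w j) * a * (w j * (1 - g j))) ≤ a * (1 - a)
  cs : ∀ j l, c j l = c l j
  cw : ∀ j l, j ≠ l → w j * w l ≤ c j l
  G0 : ∀ j l, 0 ≤ G j l
  G1 : ∀ j l, G j l ≤ 1
  ch : ∀ j u, 0 ≤ u → u ≤ θ → u * (2 * θ - u) * A j - u * (2 - u) * (g j * (1 - g j)) ≤ Φ j
  tu : ∀ j (β : ι → ℝ), (∀ l, 0 ≤ β l) → (∀ l, β l ≤ 1) → β j = 0 →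
    ∑ l, β l * (c j l * (G j l - g j)) ≤ w j * A j
  td : ∀ j (β : ι → ℝ), (∀ l, 0 ≤ β l) → (∀ l, β l ≤ 1) → β j = 0 →
    ∑ l, β l * (c j l * (g j - G j l)) ≤ w j * A j
  qd : ∀ j l, j ≠ l → g j * (1 - G j l) ≤ A j
  qu : ∀ j l, j ≠ l → (1 - g j) * G j l ≤ A j
  rd : ∀ j l, j ≠ l → c j l ≤ 2 * w j → c j l / w j * (g j - G j l)
    + (2 - c j l / w j) * (1 - g j) * (c j l / w j * G j l) ≤ A j
  ru : ∀ j l, j ≠ l → c j l ≤ 2 * w j → c j l / w j * (G j l - g j)
    + (2 - c j l / w j) * g j * (c j l / w j * (1 - G j l)) ≤ A j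

/-- the edge term at the first bond -/
noncomputable def Ed {ι : Type} [Fintype ι] [DecidableEq ι] (c G : ι → ι → ℝ) : ℝ :=
  ∑ j, ∑ l, (if j = l then 0 else c j l * max (G j l - G l j) 0)

/-- the conclusion of `St_F` -/
def Goal {ι : Type} [Fintype ι] [DecidableEq ι] (a θ : ℝ) (w g Φ : ι → ℝ) (c G : ι → ι → ℝ) :
    Prop :=
  ∑ j, w j * (g j - a) ^ 2 ≤ (1 - θ) * (a * (1 - a)) / θ + θ ^ 2 * Ed c G + ∑ j, w j * Φ j

/-- `St_F` on the region `R` of the parameters `(a, θ)` -/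
def St_R (R : ℝ → ℝ → Prop) : Prop :=
  ∀ (ι : Type) [Fintype ι] [DecidableEq ι] (a θ : ℝ) (w g A Φ : ι → ℝ) (c G : ι → ι → ℝ),
    Hyp a θ w g A Φ c G → R a θ → Goal a θ w g Φ c G

variable {ι : Type} [Fintype ι] [DecidableEq ι] {a θ : ℝ} {w g A Φ : ι → ℝ} {c G : ι → ι → ℝ}

/-- the parent test on the other side -/
lemma Hyp.par' (H : Hyp a θ w g A Φ c G) (β : ι → ℝ) (b0 : ∀ j, 0 ≤ β j) (b1 : ∀ j, β j ≤ 1) :
    θ * ∑ j, β j * (w j * (a - g j)) ≤ a * (1 - a) := by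
  have t := H.par (fun j => 1 - β j) (fun j => by linarith [b1 j]) (fun j => by linarith [b0 j])
  have e : ∑ j, (1 - β j) * (w j * (g j - a))
      = ∑ j, w j * (g j - a) + ∑ j, β j * (w j * (a - g j)) := by
    rw [← sum_add_distrib]; exact sum_congr rfl (fun j _ => by ring)
  rwa [e, H.bal, zero_add] at t

lemma Hyp.mirror (H : Hyp a θ w g A Φ c G) :
    Hyp (1 - a) θ w (fun j => 1 - g j) A Φ c (fun j l => 1 - G j l) where
  th0 := H.th0
  th1 := H.th1
  a0 := by linarith [H.a1]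
  a1 := by linarith [H.a0]
  w1 := H.w1
  g0 := fun j => by linarith [H.g1 j]
  g1 := fun j => by linarith [H.g0 j]
  bal := by
    have e : ∑ j, w j * (1 - g j - (1 - a)) = -∑ j, w j * (g j - a) := by
      rw [← sum_neg_distrib]; exact sum_congr rfl (fun j _ => by ring)
    rw [e, H.bal, neg_zero]
  par := fun β b0 b1 => by
    have t := H.par' β b0 b1
    have e : ∑ j, β j * (w j * (1 - g j - (1 - a))) = ∑ j, β j * (w j * (a - g j)) :=
      sum_congr rfl (fun j _ => by ring)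
    rw [e]; linarith
  pd := fun j => by linarith [H.pu j]
  pu := fun j => by linarith [H.pd j]
  wd := fun j h => by linarith [H.wu j h]
  wu := fun j h => by linarith [H.wd j h]
  cs := H.cs
  cw := H.cw
  G0 := fun j l => by linarith [H.G1 j l]
  G1 := fun j l => by linarith [H.G0 j l]
  ch := fun j u u0 u1 => by linarith [H.ch j u u0 u1]
  tu := fun j β b0 b1 b2 => by
    refine le_trans (le_of_eq (sum_congr rfl (fun l _ => by ring))) (H.td j β b0 b1 b2)
  td := fun j β b0 b1 b2 => by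
    refine le_trans (le_of_eq (sum_congr rfl (fun l _ => by ring))) (H.tu j β b0 b1 b2)
  qd := fun j l h => by linarith [H.qu j l h]
  qu := fun j l h => by linarith [H.qd j l h]
  rd := fun j l h h' => by linarith [H.ru j l h h']
  ru := fun j l h h' => by linarith [H.rd j l h h']

lemma Ed_mirror (hc : ∀ j l, c j l = c l j) : Ed c (fun j l => 1 - G j l) = Ed c G := by
  unfold Ed
  rw [sum_comm]
  refine sum_congr rfl (fun j _ => sum_congr rfl (fun l _ => ?_))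
  by_cases h : j = l
  · rw [if_pos h, if_pos h.symm]
  · rw [if_neg h, if_neg (Ne.symm h), hc l j]; congr 2; ring

lemma Goal.of_mirror (hc : ∀ j l, c j l = c l j)
    (h : Goal (1 - a) θ w (fun j => 1 - g j) Φ c (fun j l => 1 - G j l)) : Goal a θ w g Φ c G := by
  unfold Goal at h ⊢
  rw [Ed_mirror hc] at h
  have e : ∑ j, w j * (1 - g j - (1 - a)) ^ 2 = ∑ j, w j * (g j - a) ^ 2 :=
    sum_congr rfl (fun j _ => by ring)
  rw [e, sub_sub_cancel, mul_comm (1 - a) a] at h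
  exact h

/-- it is enough to treat `a ≤ 1/2` -/
theorem st_F_of_half (h : St_R (fun a _ => a ≤ 1 / 2)) : St_F := by
  intro ι _ _ a θ w g A Φ c G h1 h2 h3 h4 h5 h6 h7 h8 h9 h10 h11 h12 h13 h14 h15 h16 h17 h18 h19
    h20 h21 h22 h23 h24
  have H : Hyp a θ w g A Φ c G := ⟨h1, h2, h3, h4, h5, h6, h7, h8, h9, h10, h11, h12, h13, h14, h15,
    h16, h17, h18, h19, h20, h21, h22, h23, h24⟩
  rcases le_total a (1 / 2) with ha | ha
  · exact h ι a θ w g A Φ c G H ha
  · exact Goal.of_mirror H.cs (h ι _ θ w _ A Φ c _ H.mirror (by linarith))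

/-- the three regions -/
theorem st_F_of (hB : St_R (fun a θ => θ ≤ a ∧ a ≤ 1 / 2 ∧ θ ≤ 1 / 3))
    (hC : St_R (fun a θ => a ≤ θ ∧ a ≤ 1 / 3))
    (hD : St_R (fun a θ => 1 / 3 ≤ a ∧ a ≤ 1 / 2 ∧ 1 / 3 ≤ θ)) : St_F := by
  apply st_F_of_half
  intro ι _ _ a θ w g A Φ c G H ha
  rcases le_total θ (1 / 3) with h1 | h1
  · rcases le_total θ a with h2 | h2
    · exact hB ι a θ w g A Φ c G H ⟨h2, ha, h1⟩
    · exact hC ι a θ w g A Φ c G H ⟨h2, h2.trans h1⟩
  · rcases le_total a (1 / 3) with h2 | h2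
    · exact hC ι a θ w g A Φ c G H ⟨h2.trans h1, h2⟩
    · exact hD ι a θ w g A Φ c G H ⟨h2, ha, h1⟩

lemma Hyp.Phi0 (H : Hyp a θ w g A Φ c G) (j : ι) : 0 ≤ Φ j := by
  simpa using H.ch j 0 le_rfl H.th0.le

lemma Hyp.A0 (H : Hyp a θ w g A Φ c G) (j : ι) : 0 ≤ A j := by
  have t := H.tu j (fun _ => 0) (fun _ => le_rfl) (fun _ => zero_le_one) rfl
  simp only [zero_mul, sum_const_zero] at t
  exact nonneg_of_mul_nonneg_right t (by linarith [H.w1 j])

lemma Hyp.c0 (H : Hyp a θ w g A Φ c G) {j l : ι} (h : j ≠ l) : 0 ≤ c j l :=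
  le_trans (mul_nonneg (by linarith [H.w1 j]) (by linarith [H.w1 l])) (H.cw j l h)

/-- any part of the edge term -/
lemma Hyp.Ed_ge (H : Hyp a θ w g A Φ c G) (κ : ι → ι → ℝ) (k0 : ∀ j l, 0 ≤ κ j l)
    (k1 : ∀ j l, κ j l ≤ θ ^ 2) (kd : ∀ j, κ j j = 0) :
    ∑ j, ∑ l, κ j l * (c j l * (G j l - G l j)) ≤ θ ^ 2 * Ed c G := by
  unfold Ed
  rw [mul_sum]
  refine sum_le_sum (fun j _ => ?_)
  rw [mul_sum]
  refine sum_le_sum (fun l _ => ?_)
  split_ifs with h
  · rw [h, kd]; simp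
  · have c0 := H.c0 h
    calc κ j l * (c j l * (G j l - G l j)) ≤ κ j l * (c j l * max (G j l - G l j) 0) :=
          mul_le_mul_of_nonneg_left (mul_le_mul_of_nonneg_left (le_max_left _ _) c0) (k0 j l)
      _ ≤ _ := mul_le_mul_of_nonneg_right (k1 j l) (mul_nonneg c0 (le_max_right _ _))

/-- Product certificate.  `σ x y` is supported on pairs with `g y ≤ g x`, `x` in `U`, `y` outside,
and is at most `u (2θ - u)` at both ends. -/
lemma Hyp.prod (H : Hyp a θ w g A Φ c G) (U : ι → Prop) (u : ι → ℝ) (u0 : ∀ j, 0 ≤ u j)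
    (u1 : ∀ j, u j ≤ θ) (σ : ι → ι → ℝ) (s0 : ∀ x y, 0 ≤ σ x y)
    (s1 : ∀ x y, σ x y ≤ u x * (2 * θ - u x)) (s2 : ∀ x y, σ x y ≤ u y * (2 * θ - u y))
    (s3 : ∀ x y, σ x y ≠ 0 → U x ∧ ¬ U y ∧ g y ≤ g x) :
    ∑ x, ∑ y, σ x y * (w x * w y * (g x - g y)) - ∑ j, w j * (u j * (2 - u j) * (g j * (1 - g j)))
      ≤ θ ^ 2 * Ed c G + ∑ j, w j * Φ j := by
  classical
  have sd : ∀ j, σ j j = 0 := fun j => by
    by_contra h; exact (s3 j j h).2.1 (s3 j j h).1
  have hs : ∀ j, 0 ≤ u j * (2 * θ - u j) := fun j =>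
    mul_nonneg (u0 j) (by linarith [u1 j, H.th0])
  have e := H.Ed_ge σ s0 (fun j l => (s1 j l).trans (by nlinarith [sq_nonneg (θ - u j)])) sd
  have k : ∀ j, ∑ l, σ j l * (c j l * (g j - G j l)) + ∑ l, σ l j * (c j l * (G j l - g j))
      ≤ u j * (2 * θ - u j) * (w j * A j) := by
    intro j
    rcases (hs j).eq_or_lt with h | h
    · have z1 : ∀ l, σ j l = 0 := fun l => le_antisymm ((s1 j l).trans h.ge) (s0 j l)
      have z2 : ∀ l, σ l j = 0 := fun l => le_antisymm ((s2 l j).trans h.ge) (s0 l j)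
      simp only [z1, z2, zero_mul, sum_const_zero, add_zero, ← h, le_refl]
    by_cases hU : U j
    · have z2 : ∀ l, σ l j = 0 := fun l => by by_contra h'; exact (s3 l j h').2.1 hU
      have t := H.td j (fun l => σ j l / (u j * (2 * θ - u j))) (fun l => div_nonneg (s0 j l) h.le)
        (fun l => (div_le_one h).2 (s1 j l)) (by simp only [sd, zero_div])
      simp only [z2, zero_mul, sum_const_zero, add_zero]
      refine le_trans (le_of_eq ?_) (mul_le_mul_of_nonneg_left t h.le)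
      rw [mul_sum]; exact sum_congr rfl (fun l _ => by
        rw [← mul_assoc (u j * (2 * θ - u j)), mul_div_cancel₀ _ h.ne'])
    · have z1 : ∀ l, σ j l = 0 := fun l => by by_contra h'; exact hU (s3 j l h').1
      have t := H.tu j (fun l => σ l j / (u j * (2 * θ - u j))) (fun l => div_nonneg (s0 l j) h.le)
        (fun l => (div_le_one h).2 (s2 l j)) (by simp only [sd, zero_div])
      simp only [z1, zero_mul, sum_const_zero, zero_add]
      refine le_trans (le_of_eq ?_) (mul_le_mul_of_nonneg_left t h.le)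
      rw [mul_sum]; exact sum_congr rfl (fun l _ => by
        rw [← mul_assoc (u j * (2 * θ - u j)), mul_div_cancel₀ _ h.ne'])
  have k2 := sum_le_sum (s := univ) (fun j _ => k j)
  rw [sum_add_distrib, sum_comm (f := fun j l => σ l j * (c j l * (G j l - g j)))] at k2
  have k3 : ∑ x, ∑ y, σ x y * (w x * w y * (g x - g y))
      ≤ ∑ j, ∑ l, σ j l * (c j l * (g j - G j l)) + ∑ y, ∑ x, σ y x * (c x y * (G x y - g x))
        + ∑ j, ∑ l, σ j l * (c j l * (G j l - G l j)) := by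
    rw [← sum_add_distrib, ← sum_add_distrib]
    refine sum_le_sum (fun x _ => ?_)
    rw [← sum_add_distrib, ← sum_add_distrib]
    refine sum_le_sum (fun y _ => ?_)
    by_cases h : σ x y = 0
    · rw [h]; simp
    · obtain ⟨b1, b2, b3⟩ := s3 x y h
      have hxy : x ≠ y := fun e => b2 (e ▸ b1)
      have := mul_le_mul_of_nonneg_left
        (mul_le_mul_of_nonneg_right (H.cw x y hxy) (sub_nonneg.2 b3)) (s0 x y)
      rw [H.cs y x]; linarith
  have k4 : ∑ j, u j * (2 * θ - u j) * (w j * A j)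
      - ∑ j, w j * (u j * (2 - u j) * (g j * (1 - g j))) ≤ ∑ j, w j * Φ j := by
    rw [← sum_sub_distrib]
    refine sum_le_sum (fun j _ => ?_)
    have := mul_le_mul_of_nonneg_left (H.ch j (u j) (u0 j) (u1 j)) (show 0 ≤ w j by linarith [H.w1 j])
    linarith
  linarith

lemma affine_le {L1 L2 V W B : ℝ} (W1 : 1 ≤ W) (W2 : W ≤ V) (h1 : L1 + 1 * L2 ≤ B)
    (h2 : L1 + V * L2 ≤ B) : L1 + W * L2 ≤ B := by
  rcases le_total 0 L2 with h | h
  · nlinarith
  · nlinarith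

/-- the test of a child with one letter -/
lemma Hyp.tu_one (H : Hyp a θ w g A Φ c G) {l x : ι} (h : l ≠ x) {b : ℝ} (b0 : 0 ≤ b) (b1 : b ≤ 1) :
    b * (c l x * (G l x - g l)) ≤ w l * A l := by
  have t := H.tu l (fun y => if y = x then b else 0) (fun y => by split_ifs <;> linarith)
    (fun y => by split_ifs <;> linarith) (if_neg h)
  simpa only [ite_mul, zero_mul, sum_ite_eq', mem_univ, if_true] using t

/-- clean child bound towards a letter `x` above: any real `W` in `[1, min (w x) 2]` -/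
lemma Hyp.clean_up (H : Hyp a θ w g A Φ c G) {l x : ι} (h : l ≠ x) {W : ℝ} (W1 : 1 ≤ W)
    (W2 : W ≤ 2) (W3 : W ≤ w x) :
    W * (G l x - g l) + (2 - W) * g l * (1 - G l x) ≤ A l := by
  have wl : 0 < w l := by linarith [H.w1 l]
  have q := H.qu l x h
  have cw := H.cw l x h
  have hV : w x ≤ c l x / w l := by rw [le_div_iff₀ wl]; linarith
  have e : ∀ V, V * (G l x - g l) + (2 - V) * g l * (1 - G l x)
      = 2 * g l * (1 - G l x) + V * (G l x - g l - g l * (1 - G l x)) := fun V => by ring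
  rw [e]
  rcases le_total (c l x) (2 * w l) with hc | hc
  · have t := H.ru l x h hc
    have hV2 : c l x / w l ≤ 2 := by rw [div_le_iff₀ wl]; exact hc
    apply affine_le W1 (W3.trans hV) (by rw [← e]; linarith)
    rw [← e]
    have := mul_nonneg (mul_nonneg (sub_nonneg.2 hV2) (H.g0 l))
      (mul_nonneg (show 0 ≤ c l x / w l - 1 by linarith) (sub_nonneg.2 (H.G1 l x)))
    nlinarith
  · have c0 : 0 < c l x := by linarith
    have t := H.tu_one h (b := 2 * w l / c l x) (by positivity) ((div_le_one c0).2 hc)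
    rw [← mul_assoc, div_mul_cancel₀ _ c0.ne'] at t
    apply affine_le W1 W2 (by rw [← e]; linarith)
    rw [← e]
    apply le_of_mul_le_mul_left _ wl
    linarith

/-- clean child bound towards a letter `x` below -/
lemma Hyp.clean_down (H : Hyp a θ w g A Φ c G) {l x : ι} (h : l ≠ x) {W : ℝ} (W1 : 1 ≤ W)
    (W2 : W ≤ 2) (W3 : W ≤ w x) :
    W * (g l - G l x) + (2 - W) * (1 - g l) * G l x ≤ A l := by
  have t := H.mirror.clean_up h W1 W2 W3
  linarith

/-- clean parent bound, letter above -/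
lemma Hyp.par_up (H : Hyp a θ w g A Φ c G) (x : ι) {W : ℝ} (W1 : 1 ≤ W) (W2 : W ≤ 2)
    (W3 : W ≤ w x) : θ * (W * (g x - a) + (2 - W) * a * (1 - g x)) ≤ a * (1 - a) := by
  have e : ∀ V, θ * (V * (g x - a) + (2 - V) * a * (1 - g x))
      = θ * (2 * a * (1 - g x)) + V * (θ * (g x - a - a * (1 - g x))) := fun V => by ring
  have q : θ * (1 * (g x - a) + (2 - 1) * a * (1 - g x)) ≤ a * (1 - a) := by
    nlinarith [mul_le_mul_of_nonneg_right (H.pu x) (sub_nonneg.2 H.a1.le)]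
  rw [e]
  rcases le_total (w x) 2 with hc | hc
  · apply affine_le W1 W3 (by rw [← e]; exact q)
    rw [← e]
    have t := H.wu x hc
    have := mul_nonneg (mul_nonneg H.th0.le (mul_nonneg (sub_nonneg.2 hc) H.a0.le))
      (mul_nonneg (show 0 ≤ w x - 1 by linarith) (sub_nonneg.2 (H.g1 x)))
    nlinarith
  · have w0 : 0 < w x := by linarith
    have t := H.par (fun y => if y = x then 2 / w x else 0)
      (fun y => by split_ifs <;> positivity)
      (fun y => by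
        split_ifs
        · exact (div_le_one w0).2 hc
        · exact zero_le_one)
    simp only [ite_mul, zero_mul, sum_ite_eq', mem_univ, if_true] at t
    rw [← mul_assoc (2 / w x), div_mul_cancel₀ _ w0.ne'] at t
    apply affine_le W1 W2 (by rw [← e]; exact q)
    rw [← e]; linarith

/-- clean parent bound, letter below -/
lemma Hyp.par_down (H : Hyp a θ w g A Φ c G) (x : ι) {W : ℝ} (W1 : 1 ≤ W) (W2 : W ≤ 2)
    (W3 : W ≤ w x) : θ * (W * (a - g x) + (2 - W) * (1 - a) * g x) ≤ a * (1 - a) := by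
  have t := H.mirror.par_up x W1 W2 W3
  linarith

end Pool.Agent.Lib.MP_43bc59_co
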