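import Pool.Agent.Lib.MP_43bc59_co.M_C5

set_option autoImplicit false
set_option maxRecDepth 100000

namespace Pool.Agent.Lib.MP_43bc59_co.ZM

open Bx

theorem YBf21_1 : G [(f2B lYB uYB eP1)] (eh1 :: sdYB) 5 [93, 5, 3, 6, 3] [100, 6, 15, 50, 5] [200, 10, 100, 200, 3] :=
  G.leaf 232 187858576284846818544871842817376130170880000000000000 [4, 7, 4, 4, 3]
    (.nd 4 (.nd 4 (.nd 4 (.lf [1, 0, 0, 0, 0, 0, 0, -24117248]) (.lf [1, 0, -39845888, 0, 0, 0,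
    0, -51380224])) (.lf [1, 0, 0, 0, 0, 0, 0, -33554432])) (.nd 3 (.lf [1, 0, 0, 0, 0, 0, 0,
    -1342177280]) (.nd 4 (.nd 2 (.lf [1, 0, -2147483648, 0, 0, 0, 0, -1342177280]) (.lf [1, 0,
    -209715200, 0, -4194304, 0, 0, -41943040])) (.lf [1, 0, -3758096384, 0, -100663296, 0, 0,
    0]))))
    (by decide +kernel)

theorem YBf21_4 : G [(f2B lYB uYB eP1)] (eh1 :: sdYB) 5 [93, 5, 3, 50, 12] [100, 6, 15, 94, 14] [200, 10, 100, 200, 12] :=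
  G.leaf 232 18381248698041676361818482695123548186555187200000000000 [4, 7, 4, 4, 3]
    (.nd 3 (.nd 2 (.lf [1, 0, 0, 0, 0, 0, 0, -5242880]) (.lf [1, 0, 0, 0, -1048576, 0, 0,
    -4194304])) (.nd 2 (.nd 3 (.lf [1, 0, 0, 0, 0, 0, 0, 0]) (.lf [1, 0, 0, -4456448, 0, 0, 0,
    0])) (.nd 3 (.lf [1, 0, 0, 0, -524288, 0, 0, 0]) (.lf [1, 0, 0, -268435456, 0, 0, 0, 0]))))
    (by decide +kernel)

theorem YBf21_6 : G [(f2B lYB uYB eP1)] (eh1 :: sdYB) 5 [93, 5, 3, 100, 14] [100, 6, 15, 144, 16] [200, 10, 100, 400, 12] :=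
  G.leaf 257 300067036752584293281425363032986097173921792000000000000 [4, 7, 4, 4, 3]
    (.nd 2 (.lf [1, 0, -23068672, 0, 0, 0, 0, -7340032]) (.nd 3 (.lf [1, 0, 0, 0, -262144, 0, 0,
    0]) (.nd 4 (.lf [1, 0, 0, 0, 0, 0, 0, 0]) (.nd 1 (.nd 2 (.lf [1, 0, 0, 0, 0, 0, 0, 0]) (.nd 3
    (.lf [1, 0, -25165824, 0, 0, 0, 0, 0]) (.lf [1, 0, -109051904, -8388608, -3145728, 0, 0,
    0]))) (.lf [1, 0, 0, 0, 0, 0, 0, 0])))))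
    (by decide +kernel)

theorem YBf21_8 : G [(f2B lYB uYB eP1)] (eh1 :: sdYB) 5 [93, 5, 6, 144, 14] [100, 6, 18, 188, 16] [200, 10, 200, 400, 12] :=
  G.leaf 236 6028630167005735611413965173842847927583637504000000000000 [4, 7, 4, 4, 3]
    (.nd 4 (.nd 3 (.lf [1, 0, 0, 0, 0, 0, 0, 0]) (.lf [1, 0, -25165824, -12582912, 0, 0, 0, 0]))
    (.nd 1 (.lf [1, 0, -67108864, -16777216, 0, 0, 0, 0]) (.lf [1, 0, 0, 0, 0, 0, 0, 0])))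
    (by decide +kernel)

theorem YBf21_9 : G [(f2B lYB uYB eP1)] (eh1 :: sdYB) 5 [93, 5, 18, 144, 14] [100, 6, 30, 188, 16] [200, 10, 200, 400, 12] :=
  G.leaf 254 7247119981768665313929660879114289204873396224000000000000 [4, 7, 4, 4, 3]
    (.nd 4 (.nd 1 (.nd 3 (.lf [1, 0, 0, -25165824, 0, 0, 0, 0]) (.lf [1, 0, 0, -805306368, 0, 0,
    0, 0])) (.lf [1, 0, 0, -16777216, 0, 0, 0, 0])) (.nd 1 (.nd 3 (.nd 2 (.lf [1, 0, -33554432,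
    -33554432, 0, 0, 0, 0]) (.nd 4 (.lf [1, 0, 0, -34603008, 0, 0, 0, 0]) (.lf [1, 0, -106954752,
    -39845888, -2752512, 0, 0, 0]))) (.lf [1, 0, 0, -1610612736, 0, 0, 0, 0])) (.lf [1, 0, 0,
    -25165824, 0, 0, 0, 0])))
    (by decide +kernel)

theorem YBf21_7 : G [(f2B lYB uYB eP1)] (eh1 :: sdYB) 5 [93, 5, 3, 144, 14] [100, 6, 15, 188, 16] [200, 10, 100, 400, 12] :=
  G.split 2 YBf21_8 YBf21_9

theorem YBf21_5 : G [(f2B lYB uYB eP1)] (eh1 :: sdYB) 5 [93, 5, 3, 50, 14] [100, 6, 15, 94, 16] [200, 10, 100, 200, 12] :=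
  G.split 3 YBf21_6 YBf21_7

theorem YBf21_3 : G [(f2B lYB uYB eP1)] (eh1 :: sdYB) 5 [93, 5, 3, 50, 6] [100, 6, 15, 94, 8] [200, 10, 100, 200, 6] :=
  G.split 4 YBf21_4 YBf21_5

theorem YBf21_12 : G [(f2B lYB uYB eP1)] (eh1 :: sdYB) 5 [93, 5, 3, 100, 16] [100, 6, 15, 144, 18] [200, 10, 100, 400, 12] :=
  G.leaf 237 356771804580663815085962744761376299174959513600000000000 [4, 7, 4, 4, 3]
    (.nd 2 (.lf [1, 0, -106954752, 0, -1441792, 0, -1048576, -10485760]) (.nd 3 (.lf [1, 0,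
    -142606336, 0, -3801088, 0, 0, -10485760]) (.nd 4 (.lf [1, 0, -189267968, -786432, -5668864,
    0, 0, 0]) (.lf [1, 0, -1610612736, 0, -58720256, 0, 0, 0]))))
    (by decide +kernel)

theorem YBf21_13 : G [(f2B lYB uYB eP1)] (eh1 :: sdYB) 5 [93, 5, 3, 144, 16] [100, 6, 15, 188, 18] [200, 10, 100, 400, 12] :=
  G.leaf 248 491426007599423804683822711066102361964622643200000000000 [4, 7, 4, 4, 3]
    (.nd 2 (.nd 4 (.nd 3 (.lf [1, 0, -56623104, 0, 0, 0, 0, 0]) (.lf [1, 0, -134217728,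
    -67108864, 0, 0, 0, 0])) (.lf [1, 0, -536870912, 0, -14680064, 0, 0, 0])) (.nd 4 (.nd 1 (.nd
    2 (.lf [1, 0, -134217728, -41943040, -1572864, 0, 0, 0]) (.lf [1, 0, -327155712, -41943040,
    -9961472, 0, 0, 0])) (.nd 3 (.lf [1, 0, -125829120, 0, -5242880, 0, 0, 0]) (.lf [1, 0, 0,
    -1073741824, 0, 0, 0, 0]))) (.lf [1, 0, -6979321856, 0, -201326592, 0, 0, 0])))
    (by decide +kernel)

theorem YBf21_11 : G [(f2B lYB uYB eP1)] (eh1 :: sdYB) 5 [93, 5, 3, 50, 16] [100, 6, 15, 94, 18] [200, 10, 100, 200, 12] :=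
  G.split 3 YBf21_12 YBf21_13

theorem YBf21_14 : G [(f2B lYB uYB eP1)] (eh1 :: sdYB) 5 [93, 5, 3, 50, 18] [100, 6, 15, 94, 20] [200, 10, 100, 200, 12] :=
  G.leaf 217 30910575583052076469069604329177967855927296000000000000 [4, 7, 4, 4, 3]
    (.lf [1, 0, -2684354560, 0, -67108864, 0, 0, 0])
    (by decide +kernel)

theorem YBf21_10 : G [(f2B lYB uYB eP1)] (eh1 :: sdYB) 5 [93, 5, 3, 50, 8] [100, 6, 15, 94, 10] [200, 10, 100, 200, 6] :=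
  G.split 4 YBf21_11 YBf21_14

theorem YBf21_2 : G [(f2B lYB uYB eP1)] (eh1 :: sdYB) 5 [93, 5, 3, 50, 3] [100, 6, 15, 94, 5] [200, 10, 100, 200, 3] :=
  G.split 4 YBf21_3 YBf21_10

theorem YBf21 : G [(f2B lYB uYB eP1)] (eh1 :: sdYB) 5 [93, 5, 3, 3, 3] [100, 6, 15, 47, 5] [200, 10, 100, 100, 3] :=
  G.split 3 YBf21_1 YBf21_2

theorem XAf101_3 : G [(f1 lXA uXA (sE0 vXA) (pA lXA rXA eP1))] (ez0 :: eh1 :: sdXA) 5 [93, 4, 6, 6, 6] [100, 5, 29, 50, 8] [200, 10, 200, 200, 6] :=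
  G.leaf 243 398567838032723388902114882420912947200000000000000000 [4, 6, 4, 4, 3]
    (.nd 1 (.nd 4 (.nd 3 (.nd 1 (.nd 2 (.lf [1, 0, 0, -134217728, 0, 0, 0, 0, 0]) (.lf [1, 0, 0,
    -67108864, 0, 0, 0, 0, 0])) (.lf [1, 0, 0, -268435456, 0, 0, 0, 0, 0])) (.lf [1, 0, 0,
    -201326592, 0, 0, 0, 0, -33554432])) (.lf [1, 0, 0, -536870912, 0, 0, 0, 0, 0])) (.nd 4 (.nd
    3 (.nd 2 (.lf [1, -33554432, 0, 0, 0, 0, 0, 0, 0]) (.lf [1, 0, 0, 0, 0, 0, -2097152, 0, 0]))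
    (.lf [1, 0, 0, 0, 0, 0, 0, 0, 0])) (.lf [1, -67108864, 0, 0, 0, 0, -1048576, 0, 0])))
    (by decide +kernel)

theorem XAf101_7 : G [(f1 lXA uXA (sE0 vXA) (pA lXA rXA eP1))] (ez0 :: eh1 :: sdXA) 5 [93, 8, 29, 12, 12] [100, 9, 52, 56, 14] [200, 20, 200, 400, 12] :=
  G.leaf 238 3289989412620485782256725132831943927594483712000000000000 [4, 6, 4, 4, 3]
    (.nd 2 (.nd 1 (.lf [1, 0, 0, -67108864, 0, 0, 0, 0, 0]) (.lf [1, 0, 0, 0, 0, 0, -2621440, 0,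
    0])) (.nd 3 (.nd 1 (.lf [1, 0, 0, 0, 0, 0, -4194304, 0, 0]) (.lf [1, 0, 0, 0, 0, 0, -8388608,
    0, 0])) (.lf [1, 0, 0, 0, 0, -5373952, 0, 0, 0])))
    (by decide +kernel)

theorem XAf101_8 : G [(f1 lXA uXA (sE0 vXA) (pA lXA rXA eP1))] (ez0 :: eh1 :: sdXA) 5 [93, 8, 29, 12, 14] [100, 9, 52, 56, 16] [200, 20, 200, 400, 12] :=
  G.leaf 243 4057183993320014193129472186647804123367342080000000000000 [4, 6, 4, 4, 3]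
    (.nd 2 (.nd 1 (.lf [1, 0, 0, -268435456, 0, 0, 0, 0, 0]) (.lf [1, 0, 0, -134217728, 0, 0,
    -2097152, 0, 0])) (.nd 3 (.nd 1 (.lf [1, 0, 0, -150994944, 0, 0, -2359296, 0, 0]) (.lf [1, 0,
    0, -100663296, 0, 0, -4718592, 0, 0])) (.nd 1 (.lf [1, 0, 0, -285212672, 0, -8650752, 0, 0,
    0]) (.lf [1, 0, 0, -201326592, 0, -10485760, 0, 0, 0]))))
    (by decide +kernel)

theorem XAf101_6 : G [(f1 lXA uXA (sE0 vXA) (pA lXA rXA eP1))] (ez0 :: eh1 :: sdXA) 5 [93, 8, 29, 12, 6] [100, 9, 52, 56, 8] [200, 20, 200, 400, 6] :=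
  G.split 4 XAf101_7 XAf101_8

theorem XAf101_9 : G [(f1 lXA uXA (sE0 vXA) (pA lXA rXA eP1))] (ez0 :: eh1 :: sdXA) 5 [93, 9, 29, 12, 6] [100, 10, 52, 56, 8] [200, 20, 200, 400, 6] :=
  G.leaf 231 545115189194336744577002495552282133505507328000000000000 [4, 6, 4, 4, 3]
    (.nd 4 (.nd 3 (.lf [1, 0, 0, 0, 0, 0, -6815744, 0, 0]) (.nd 2 (.lf [1, 0, 0, 0, 0, 0,
    -3670016, 0, 0]) (.lf [1, 0, 0, 0, 0, -16777216, 0, 0, 0]))) (.nd 2 (.lf [1, 0, 0, 0, 0, 0,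
    -2097152, 0, 0]) (.lf [1, 0, 0, 0, 0, -8388608, 0, 0, 0])))
    (by decide +kernel)

theorem XAf101_5 : G [(f1 lXA uXA (sE0 vXA) (pA lXA rXA eP1))] (ez0 :: eh1 :: sdXA) 5 [93, 4, 29, 12, 6] [100, 5, 52, 56, 8] [200, 10, 200, 400, 6] :=
  G.split 1 XAf101_6 XAf101_9

theorem XAf101_12 : G [(f1 lXA uXA (sE0 vXA) (pA lXA rXA eP1))] (ez0 :: eh1 :: sdXA) 5 [93, 8, 58, 56, 6] [100, 9, 81, 100, 8] [200, 20, 400, 400, 6] :=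
  G.leaf 226 8388541822406272026455279530079190527338610688000000000000 [4, 6, 4, 4, 3]
    (.nd 4 (.lf [1, 0, 0, 0, 0, 0, 0, 0, -33554432]) (.lf [1, 0, 0, -100663296, 0, 0, 0, 0,
    -33554432]))
    (by decide +kernel)

theorem XAf101_13 : G [(f1 lXA uXA (sE0 vXA) (pA lXA rXA eP1))] (ez0 :: eh1 :: sdXA) 5 [93, 8, 81, 56, 6] [100, 9, 104, 100, 8] [200, 20, 400, 400, 6] :=
  G.leaf 250 9807036840726324304314060415215697645273088000000000000000 [4, 6, 4, 4, 3]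
    (.nd 4 (.nd 3 (.lf [1, 0, 0, 0, 0, -5963776, 0, 0, -46137344]) (.lf [1, 0, 0, 0, 0, -8388608,
    0, 0, -201326592])) (.nd 3 (.nd 1 (.nd 2 (.lf [1, 0, 0, -327155712, 0, -10223616, 0,
    -6291456, 0]) (.lf [1, 0, 0, -469762048, 0, -19660800, 0, -5242880, -54525952])) (.nd 2 (.lf
    [1, 0, 0, -268435456, 0, -12582912, 0, 0, 0]) (.lf [1, 0, 0, -268435456, 0, -29360128, 0, 0,
    0]))) (.lf [1, 0, 0, -335544320, 0, -18874368, 0, 0, -184549376])))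
    (by decide +kernel)

theorem XAf101_11 : G [(f1 lXA uXA (sE0 vXA) (pA lXA rXA eP1))] (ez0 :: eh1 :: sdXA) 5 [93, 8, 29, 56, 6] [100, 9, 52, 100, 8] [200, 20, 200, 400, 6] :=
  G.split 2 XAf101_12 XAf101_13

theorem XAf101_14 : G [(f1 lXA uXA (sE0 vXA) (pA lXA rXA eP1))] (ez0 :: eh1 :: sdXA) 5 [93, 9, 29, 56, 6] [100, 10, 52, 100, 8] [200, 20, 200, 400, 6] :=
  G.leaf 229 671304520516207011762819977849187660294258688000000000000 [4, 6, 4, 4, 3]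
    (.nd 4 (.nd 2 (.lf [1, 0, 0, 0, 0, -5242880, 0, 0, -16777216]) (.lf [1, 0, 0, 0, 0,
    -12582912, 0, 0, -67108864])) (.nd 2 (.lf [1, 0, 0, -134217728, 0, -9437184, 0, 0, 0]) (.lf
    [1, 0, 0, -167772160, 0, -22020096, 0, 0, 0])))
    (by decide +kernel)

theorem XAf101_10 : G [(f1 lXA uXA (sE0 vXA) (pA lXA rXA eP1))] (ez0 :: eh1 :: sdXA) 5 [93, 4, 29, 56, 6] [100, 5, 52, 100, 8] [200, 10, 200, 400, 6] :=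
  G.split 1 XAf101_11 XAf101_14

theorem XAf101_4 : G [(f1 lXA uXA (sE0 vXA) (pA lXA rXA eP1))] (ez0 :: eh1 :: sdXA) 5 [93, 4, 29, 6, 6] [100, 5, 52, 50, 8] [200, 10, 200, 200, 6] :=
  G.split 3 XAf101_5 XAf101_10

theorem XAf101_2 : G [(f1 lXA uXA (sE0 vXA) (pA lXA rXA eP1))] (ez0 :: eh1 :: sdXA) 5 [93, 4, 3, 6, 6] [100, 5, 26, 50, 8] [200, 10, 100, 200, 6] :=
  G.split 2 XAf101_3 XAf101_4

theorem XAf101_15 : G [(f1 lXA uXA (sE0 vXA) (pA lXA rXA eP1))] (ez0 :: eh1 :: sdXA) 5 [93, 4, 3, 50, 6] [100, 5, 26, 94, 8] [200, 10, 100, 200, 6] :=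
  G.leaf 211 43225097615380470786575391764525751468032000000000000 [4, 6, 4, 4, 3]
    (.nd 2 (.lf [1, 0, 0, 0, 0, 0, 0, 0, -268435456]) (.lf [1, 0, 0, 0, 0, -12320768, 0, 0,
    -289406976]))
    (by decide +kernel)

theorem XAf101_1 : G [(f1 lXA uXA (sE0 vXA) (pA lXA rXA eP1))] (ez0 :: eh1 :: sdXA) 5 [93, 4, 3, 3, 6] [100, 5, 26, 47, 8] [200, 10, 100, 100, 6] :=
  G.split 3 XAf101_2 XAf101_15

theorem XAf101_16 : G [(f1 lXA uXA (sE0 vXA) (pA lXA rXA eP1))] (ez0 :: eh1 :: sdXA) 5 [93, 4, 3, 3, 8] [100, 5, 26, 47, 10] [200, 10, 100, 100, 6] :=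
  G.leaf 246 3264899699548374177169626837929725132800000000000000 [4, 6, 4, 4, 3]
    (.nd 2 (.lf [1, -5368709120, 0, 0, 0, 0, 0, 0, 0]) (.nd 4 (.nd 3 (.nd 2 (.nd 1 (.lf [1, 0, 0,
    -891205713920, 0, -21407727616, 0, 0, 0]) (.nd 3 (.lf [1, 0, 0, -402653184, 0, -16777216, 0,
    0, 0]) (.lf [1, -125829120, 0, -251658240, 0, -11796480, 0, 0, 0]))) (.lf [1, 0, 0,
    -59592671232, 0, -1828716544, 0, 0, 0])) (.lf [1, 0, 0, 0, 0, -19922944, 0, 0, -687865856]))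
    (.lf [1, 0, 0, -7516192768, 0, -251658240, 0, 0, 0])))
    (by decide +kernel)

theorem XAf101 : G [(f1 lXA uXA (sE0 vXA) (pA lXA rXA eP1))] (ez0 :: eh1 :: sdXA) 5 [93, 4, 3, 3, 3] [100, 5, 26, 47, 5] [200, 10, 100, 100, 3] :=
  G.split 4 XAf101_1 XAf101_16

theorem XAc2_3 : G [(c2 (kr rXA) vXA eDA)] (sdXA) 5 [93, 4, 3, 12, 6] [100, 5, 26, 56, 8] [200, 10, 100, 400, 6] :=
  G.leaf 203 330940182629309228423944180491878400000000 [3, 4, 2, 3, 3]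
    (.nd 1 (.nd 4 (.nd 3 (.lf [1, -595591168, 0, 0, 0, -13631488, 0]) (.nd 2 (.nd 1 (.nd 4 (.lf
    [1, -536870912, 0, 0, 0, 0, 0]) (.nd 3 (.lf [1, -402653184, 0, 0, 0, 0, 0]) (.lf [1,
    -268435456, 0, 0, 0, 0, 0]))) (.lf [1, -536870912, 0, 0, 0, 0, 0])) (.lf [1, 0, 0, 0, 0, 0,
    0]))) (.lf [1, -536870912, 0, 0, 0, 0, 0])) (.nd 4 (.nd 3 (.lf [1, -536870912, 0, 0, 0, 0,
    0]) (.nd 2 (.nd 1 (.nd 4 (.lf [1, -536870912, 0, 0, 0, 0, 0]) (.nd 3 (.lf [1, -469762048, 0,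
    0, 0, 0, 0]) (.lf [1, -335544320, 0, 0, 0, 0, 0]))) (.lf [1, -268435456, 0, 0, 0, 0, 0]))
    (.lf [1, 0, 0, 0, 0, 0, 0]))) (.lf [1, -536870912, 0, 0, 0, 0, 0])))
    (by decide +kernel)

theorem XAc2_5 : G [(c2 (kr rXA) vXA eDA)] (sdXA) 5 [93, 8, 3, 56, 6] [100, 9, 26, 100, 8] [200, 20, 100, 400, 6] :=
  G.leaf 218 5691443980801755940642368475312947200000000 [3, 4, 2, 3, 3]
    (.nd 2 (.nd 3 (.lf [1, -234881024, 0, 0, 0, 0, 0]) (.lf [1, -402653184, 0, 0, 0, 0,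
    -603979776])) (.nd 4 (.nd 2 (.nd 3 (.nd 1 (.lf [1, 0, 0, 0, 0, 0, -268435456]) (.lf [1, 0, 0,
    0, 0, 0, -201326592])) (.lf [1, 0, 0, 0, 0, 0, -536870912])) (.nd 3 (.nd 1 (.nd 4 (.nd 2 (.lf
    [1, 0, 0, 0, 0, 0, -385875968]) (.nd 0 (.lf [1, 0, 0, 0, 0, 0, -536870912]) (.nd 3 (.lf [1,
    0, 0, -4194304, 0, 0, -469762048]) (.lf [1, 0, 0, 0, 0, 0, -402653184])))) (.lf [1, 0, 0,
    -3932160, 0, 0, -377487360])) (.nd 4 (.nd 2 (.lf [1, 0, 0, 0, 0, 0, -402653184]) (.lf [1, 0,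
    0, -4194304, 0, 0, -402653184])) (.lf [1, 0, 0, -5242880, 0, 0, -268435456]))) (.lf [1, 0, 0,
    -3145728, 0, 0, -671088640]))) (.nd 2 (.nd 1 (.lf [1, -536870912, 0, 0, 0, 0, -268435456])
    (.nd 3 (.lf [1, -167772160, 0, 0, 0, 0, -318767104]) (.lf [1, -167772160, 0, 0, 0, 0,
    -503316480]))) (.nd 3 (.nd 1 (.nd 4 (.nd 2 (.lf [1, -167772160, 0, 0, 0, 0, -436207616]) (.nd
    0 (.lf [1, 0, 0, -12582912, 0, 0, 0]) (.nd 1 (.lf [1, 0, 0, -3932160, 0, 0, -432013312]) (.nd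
    3 (.lf [1, 0, 0, 0, 0, 0, -536870912]) (.lf [1, 0, 0, 0, 0, 0, -402653184]))))) (.lf [1,
    -2147483648, 0, -67108864, 0, 0, 0])) (.nd 4 (.nd 0 (.lf [1, 0, 0, 0, 0, 0, 0]) (.nd 2 (.lf
    [1, 0, 0, 0, 0, 0, -402653184]) (.lf [1, 0, 0, 0, 0, 0, -520093696]))) (.lf [1, 0, 0, 0, 0,
    0, -402653184]))) (.lf [1, 0, 0, 0, 0, 0, -671088640])))))
    (by decide +kernel)

theorem XAc2_7 : G [(c2 (kr rXA) vXA eDA)] (sdXA) 5 [93, 9, 6, 56, 6] [100, 10, 29, 100, 8] [200, 20, 200, 400, 6] :=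
  G.leaf 218 26453409105543905041528893032366080000000000 [3, 4, 2, 3, 3]
    (.nd 3 (.nd 4 (.nd 1 (.nd 2 (.lf [1, -268435456, 0, 0, 0, 0, 0]) (.lf [1, 0, 0, 0, 0, 0, 0]))
    (.nd 2 (.nd 4 (.lf [1, -268435456, 0, 0, 0, 0, 0]) (.lf [1, 0, 0, 0, 0, 0, 0])) (.lf [1, 0,
    0, 0, 0, 0, 0]))) (.lf [1, -402653184, 0, 0, 0, 0, 0])) (.nd 4 (.nd 1 (.nd 2 (.lf [1, 0, 0,
    0, 0, 0, 0]) (.lf [1, -16777216, 0, 0, 0, 0, -281018368])) (.nd 2 (.lf [1, 0, 0, 0, 0, 0, 0])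
    (.nd 4 (.nd 3 (.lf [1, 0, 0, 0, 0, 0, 0]) (.lf [1, 0, 0, 0, 0, 0, -335544320])) (.nd 3 (.lf
    [1, 0, 0, 0, 0, 0, -134217728]) (.lf [1, 0, 0, 0, 0, 0, -268435456]))))) (.nd 1 (.lf [1,
    -402653184, 0, 0, 0, 0, -335544320]) (.nd 2 (.lf [1, -251658240, 0, 0, 0, 0, 0]) (.nd 4 (.nd
    3 (.lf [1, -134217728, 0, 0, 0, 0, 0]) (.nd 1 (.lf [1, -268435456, 0, 0, 0, 0, -469762048])
    (.nd 0 (.lf [1, 0, 0, 0, 0, 0, -134217728]) (.nd 2 (.lf [1, -268435456, 0, 0, 0, 0,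
    -335544320]) (.lf [1, -167772160, 0, 0, 0, 0, -452984832]))))) (.lf [1, -536870912, 0, 0, 0,
    0, -536870912]))))))
    (by decide +kernel)

theorem XAc2_8 : G [(c2 (kr rXA) vXA eDA)] (sdXA) 5 [93, 9, 29, 56, 6] [100, 10, 52, 100, 8] [200, 20, 200, 400, 6] :=
  G.leaf 218 29290626575918000379664079934141235200000000 [3, 4, 2, 3, 3]
    (.nd 4 (.nd 2 (.nd 3 (.nd 1 (.lf [1, 0, 0, -2883584, 0, 0, -142606336]) (.lf [1, 0, 0, 0, 0,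
    0, 0])) (.nd 1 (.nd 4 (.nd 3 (.lf [1, 0, 0, 0, 0, 0, -402653184]) (.lf [1, 0, 0, 0, 0, 0,
    -536870912])) (.nd 3 (.lf [1, 0, 0, -2097152, 0, 0, -327155712]) (.lf [1, 0, 0, 0, 0, 0,
    -1073741824]))) (.nd 4 (.nd 1 (.nd 3 (.lf [1, 0, 0, 0, 0, 0, -268435456]) (.lf [1, 0, 0, 0,
    0, 0, -536870912])) (.lf [1, 0, 0, 0, 0, 0, -402653184])) (.nd 3 (.nd 1 (.lf [1, 0, 0,
    -4194304, 0, 0, -251658240]) (.lf [1, 0, 0, -4194304, 0, 0, -268435456])) (.lf [1, 0, 0,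
    -4194304, 0, 0, -335544320]))))) (.nd 1 (.nd 3 (.lf [1, 0, 0, -33554432, 0, 0, 0]) (.lf [1,
    0, 0, -8388608, 0, 0, -536870912])) (.lf [1, 0, 0, -67108864, 0, 0, 0]))) (.nd 2 (.nd 3 (.lf
    [1, 0, 0, 0, 0, 0, 0]) (.nd 1 (.nd 4 (.nd 3 (.nd 0 (.lf [1, 0, 0, 0, 0, 0, -134217728]) (.nd
    2 (.lf [1, 0, 0, 0, 0, 0, -436207616]) (.lf [1, -134217728, 0, 0, 0, 0, -402653184]))) (.lf
    [1, -134217728, 0, 0, 0, 0, -603979776])) (.lf [1, -335544320, 0, 0, 0, 0, -587202560])) (.nd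
    4 (.nd 0 (.lf [1, 0, 0, 0, 0, 0, -536870912]) (.nd 2 (.lf [1, 0, 0, 0, 0, 0, -536870912])
    (.nd 1 (.nd 3 (.lf [1, 0, 0, 0, 0, 0, 0]) (.lf [1, -134217728, 0, 0, 0, 0, -536870912])) (.lf
    [1, 0, 0, 0, 0, 0, -536870912])))) (.lf [1, -134217728, 0, 0, 0, 0, -536870912])))) (.lf [1,
    0, 0, -3145728, 0, 0, -536870912])))
    (by decide +kernel)

theorem XAc2_6 : G [(c2 (kr rXA) vXA eDA)] (sdXA) 5 [93, 9, 3, 56, 6] [100, 10, 26, 100, 8] [200, 20, 100, 400, 6] :=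
  G.split 2 XAc2_7 XAc2_8

theorem XAc2_4 : G [(c2 (kr rXA) vXA eDA)] (sdXA) 5 [93, 4, 3, 56, 6] [100, 5, 26, 100, 8] [200, 10, 100, 400, 6] :=
  G.split 1 XAc2_5 XAc2_6

theorem XAc2_2 : G [(c2 (kr rXA) vXA eDA)] (sdXA) 5 [93, 4, 3, 6, 6] [100, 5, 26, 50, 8] [200, 10, 100, 200, 6] :=
  G.split 3 XAc2_3 XAc2_4

theorem XAc2_9 : G [(c2 (kr rXA) vXA eDA)] (sdXA) 5 [93, 4, 3, 6, 8] [100, 5, 26, 50, 10] [200, 10, 100, 200, 6] :=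
  G.leaf 173 59786092430255305453060807144243200000000 [3, 4, 2, 3, 3]
    (.nd 3 (.lf [1, -2147483648, 0, 0, 0, 0, 0]) (.lf [1, -2684354560, 0, -50331648, 0, 0,
    -268435456]))
    (by decide +kernel)

theorem XAc2_1 : G [(c2 (kr rXA) vXA eDA)] (sdXA) 5 [93, 4, 3, 6, 3] [100, 5, 26, 50, 5] [200, 10, 100, 200, 3] :=
  G.split 4 XAc2_2 XAc2_9

theorem XAc2_10 : G [(c2 (kr rXA) vXA eDA)] (sdXA) 5 [93, 4, 3, 50, 3] [100, 5, 26, 94, 5] [200, 10, 100, 200, 3] :=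
  G.leaf 192 9050178925103383449480961038745600000000 [3, 4, 2, 3, 3]
    (.nd 2 (.nd 3 (.nd 4 (.nd 1 (.lf [1, -536870912, 0, 0, 0, 0, 0]) (.nd 4 (.lf [1, -268435456,
    0, 0, 0, 0, -603979776]) (.lf [1, 0, 0, 0, 0, 0, -536870912]))) (.lf [1, -8589934592, 0, 0,
    0, 0, -8589934592])) (.lf [1, 0, 0, 0, 0, 0, -4294967296])) (.nd 4 (.nd 2 (.nd 1 (.lf [1, 0,
    0, 0, 0, 0, -4294967296]) (.nd 3 (.nd 4 (.lf [1, 0, 0, 0, 0, 0, -1073741824]) (.lf [1, 0, 0,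
    0, 0, 0, -1073741824])) (.lf [1, 0, -42949672960, 0, 0, 0, 0]))) (.lf [1, 0, 0, 0, 0, 0,
    -1073741824])) (.lf [1, 0, 0, 0, 0, 0, -1342177280])))
    (by decide +kernel)

theorem XAc2 : G [(c2 (kr rXA) vXA eDA)] (sdXA) 5 [93, 4, 3, 3, 3] [100, 5, 26, 47, 5] [200, 10, 100, 100, 3] :=
  G.split 3 XAc2_1 XAc2_10

theorem YAf101_1 : G [(f1 lYA uYA (sE0 vYA) (pA lYA rYA eP1))] (ez0 :: eh1 :: sdYA) 5 [93, 5, 3, 6, 3] [100, 6, 15, 50, 5] [200, 10, 100, 200, 3] :=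
  G.leaf 216 4148470679890727961506903703420458237952000000000000 [4, 6, 4, 4, 3]
    (.nd 4 (.nd 2 (.nd 3 (.lf [1, -58720256, 0, 0, 0, 0, -753664, 0, 0]) (.lf [1, 0, 0, 0, 0, 0,
    0, 0, 0])) (.nd 3 (.lf [1, 0, 0, 0, 0, 0, -2097152, 0, 0]) (.lf [1, 0, 0, 0, 0, -3145728, 0,
    0, 0]))) (.lf [1, -1879048192, 0, 0, 0, -100663296, 0, 0, 0]))
    (by decide +kernel)

theorem YAf101_4 : G [(f1 lYA uYA (sE0 vYA) (pA lYA rYA eP1))] (ez0 :: eh1 :: sdYA) 5 [93, 5, 3, 50, 12] [100, 6, 15, 94, 14] [200, 10, 100, 200, 12] :=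
  G.leaf 239 292645623152318765369265173211101093953536000000000000 [4, 6, 4, 4, 3]
    (.nd 2 (.nd 3 (.nd 4 (.nd 1 (.lf [1, 0, 0, 0, 0, 0, 0, 0, -16777216]) (.lf [1, 0, 0, 0, 0, 0,
    0, 0, -4194304])) (.lf [1, 0, 0, 0, 0, 0, 0, 0, 0])) (.lf [1, 0, 0, 0, 0, 0, 0, 0,
    -67108864])) (.nd 3 (.nd 1 (.nd 3 (.lf [1, 0, 0, 0, 0, 0, 0, 0, -3489660928]) (.lf [1, 0, 0,
    0, 0, -1703936, 0, 0, -28311552])) (.nd 4 (.nd 3 (.lf [1, 0, 0, 0, 0, -3145728, 0, 0,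
    -33554432]) (.lf [1, 0, 0, 0, 0, -2097152, 0, 0, 0])) (.lf [1, 0, 0, 0, 0, -8388608, 0, 0,
    0]))) (.lf [1, 0, 0, 0, 0, -67108864, 0, 0, -805306368])))
    (by decide +kernel)

theorem YAf101_5 : G [(f1 lYA uYA (sE0 vYA) (pA lYA rYA eP1))] (ez0 :: eh1 :: sdYA) 5 [93, 5, 3, 50, 14] [100, 6, 15, 94, 16] [200, 10, 100, 200, 12] :=
  G.leaf 221 349829284295545097965369525509962197893120000000000000 [4, 6, 4, 4, 3]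
    (.nd 2 (.lf [1, 0, 0, 0, 0, 0, 0, 0, 0]) (.nd 3 (.lf [1, 0, 0, 0, 0, -6291456, 0, 0,
    -33554432]) (.lf [1, 0, 0, 0, 0, -33554432, 0, 0, -536870912])))
    (by decide +kernel)

theorem YAf101_3 : G [(f1 lYA uYA (sE0 vYA) (pA lYA rYA eP1))] (ez0 :: eh1 :: sdYA) 5 [93, 5, 3, 50, 6] [100, 6, 15, 94, 8] [200, 10, 100, 200, 6] :=
  G.split 4 YAf101_4 YAf101_5

theorem YAf101_6 : G [(f1 lYA uYA (sE0 vYA) (pA lYA rYA eP1))] (ez0 :: eh1 :: sdYA) 5 [93, 5, 3, 50, 8] [100, 6, 15, 94, 10] [200, 10, 100, 200, 6] :=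
  G.leaf 208 56166872580085477356546042077910046605312000000000000 [4, 6, 4, 4, 3]
    (.lf [1, -2684354560, 0, 0, 0, -33554432, 0, 0, 0])
    (by decide +kernel)

theorem YAf101_2 : G [(f1 lYA uYA (sE0 vYA) (pA lYA rYA eP1))] (ez0 :: eh1 :: sdYA) 5 [93, 5, 3, 50, 3] [100, 6, 15, 94, 5] [200, 10, 100, 200, 3] :=
  G.split 4 YAf101_3 YAf101_6

theorem YAf101 : G [(f1 lYA uYA (sE0 vYA) (pA lYA rYA eP1))] (ez0 :: eh1 :: sdYA) 5 [93, 5, 3, 3, 3] [100, 6, 15, 47, 5] [200, 10, 100, 100, 3] :=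
  G.split 3 YAf101_1 YAf101_2

theorem XBc3 : G [(c3 vXB eDB)] (sdXB) 5 [93, 4, 3, 3, 3] [100, 5, 26, 47, 5] [200, 10, 100, 100, 3] :=
  G.leaf 147 31411855638267722240000000 [2, 3, 2, 2, 2]
    (.nd 4 (.nd 3 (.nd 3 (.nd 4 (.nd 2 (.lf [1, 0, 0, 0, 0, 0, -2048]) (.nd 2 (.nd 3 (.nd 4 (.lf
    [1, 0, 0, 0, 0, -256, -5120]) (.lf [1, 0, 0, 0, 0, -512, -8192])) (.lf [1, 0, 0, 0, 0, 0,
    0])) (.nd 3 (.nd 1 (.nd 4 (.nd 3 (.nd 2 (.lf [1, 0, 0, -96, 0, -256, -2560]) (.lf [1, 0, 0,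
    -144, 0, -128, 0])) (.nd 2 (.lf [1, 0, 0, 0, 0, -512, -8192]) (.nd 3 (.nd 1 (.lf [1, 0, 0,
    -2048, 0, 0, -16384]) (.nd 2 (.lf [1, 0, 0, -32, 0, -416, -6400]) (.lf [1, -2896, 0, -157, 0,
    -396, -4872]))) (.lf [1, 0, 0, 0, 0, -2048, -57344])))) (.nd 2 (.lf [1, -6656, 0, -288, 0,
    -544, -6912]) (.lf [1, -458752, 0, -18432, 0, -8192, 0]))) (.lf [1, 0, 0, -10240, 0, 0,
    -98304])) (.lf [1, 0, 0, 0, 0, 0, 0])))) (.nd 2 (.nd 3 (.lf [1, 0, 0, 0, 0, 0, 0]) (.nd 4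
    (.lf [1, 0, 0, 0, 0, 0, 0]) (.nd 2 (.nd 3 (.lf [1, 0, 0, 0, 0, 0, 0]) (.lf [1, 0, 0, 0, 0, 0,
    0])) (.lf [1, 0, 0, 0, 0, 0, 0])))) (.nd 3 (.nd 2 (.nd 3 (.nd 4 (.lf [1, 0, 0, 0, 0, -128,
    -2176]) (.lf [1, 0, 0, -6, 0, 0, 0])) (.lf [1, 0, 0, 0, 0, -512, -6144])) (.nd 3 (.nd 4 (.nd
    2 (.lf [1, 0, 0, -66, 0, -136, -1120]) (.lf [1, 0, 0, -104, 0, -96, 0])) (.lf [1, 0, 0, -36,
    0, -64, 0])) (.lf [1, 0, 0, -64, 0, -256, -3584]))) (.nd 2 (.nd 4 (.lf [1, 0, 0, 0, 0, 0, 0])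
    (.nd 3 (.nd 4 (.lf [1, 0, 0, 0, 0, 0, 0]) (.nd 2 (.lf [4, 0, 0, 0, 0, -1, 0]) (.lf [1, 0, 0,
    0, 0, 0, 0]))) (.lf [1, 0, 0, 0, 0, 0, 0]))) (.nd 4 (.lf [1, 0, 0, 0, 0, 0, 0]) (.nd 3 (.lf
    [1, 0, 0, 0, 0, 0, 0]) (.lf [1, 0, 0, 0, 0, 0, 0]))))))) (.lf [1, 0, 0, 0, 0, 0, -917504]))
    (.nd 4 (.lf [1, 0, 0, 0, 0, 0, 0]) (.nd 3 (.nd 2 (.nd 4 (.lf [1, 0, 0, 0, 0, 0, 0]) (.nd 3
    (.lf [1, 0, 0, 0, 0, 0, 0]) (.nd 2 (.nd 3 (.lf [1, 0, 0, 0, 0, 0, 0]) (.lf [1, 0, 0, 0, 0, 0,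
    0])) (.lf [1, 0, 0, 0, 0, 0, 0])))) (.lf [1, 0, 0, 0, 0, 0, 0])) (.lf [1, 0, 0, 0, 0, 0,
    0])))) (.nd 2 (.nd 3 (.lf [1, -16384, 0, 0, 0, 0, -16384]) (.lf [1, 0, 0, 0, 0, 0, 0])) (.nd
    3 (.nd 4 (.nd 3 (.lf [1, -15360, 0, -640, 0, -768, -9216]) (.lf [1, 0, 0, 0, 0, 0,
    -1703936])) (.lf [1, -327680, 0, -10240, 0, 0, 0])) (.lf [1, 0, 0, 0, 0, 0, 0]))))
    (by decide +kernel)

theorem XAc0 : G [(c0 lXA uXA rXA)] (sdXA) 5 [93, 4, 3, 3, 3] [100, 5, 26, 47, 5] [200, 10, 100, 100, 3] :=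
  G.leaf 151 2887558165914755026611200000000000 [2, 2, 2, 3, 3]
    (.nd 4 (.lf [1, 0, 0, 0, 0, 0, 0]) (.lf [1, -17179869184, 0, 0, 0, 0, 0]))
    (by decide +kernel)

theorem XAl1 : G [(up lXA)] (sdXA) 5 [93, 4, 3, 3, 3] [100, 5, 26, 47, 5] [200, 10, 100, 100, 3] :=
  G.leaf 88 9689568771200000 [1, 2, 1, 1, 1]
    (.nd 3 (.nd 3 (.lf [1, -262144, 0, 0, 0, 0, 0]) (.nd 2 (.nd 3 (.lf [1, -98304, 0, 0, 0, 0,
    0]) (.nd 2 (.lf [1, -65536, 0, 0, 0, 0, 0]) (.nd 1 (.lf [1, -393216, 0, 0, 0, 0, 0]) (.nd 2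
    (.lf [1, -65536, 0, 0, 0, 0, 0]) (.nd 3 (.lf [1, -65536, 0, 0, 0, 0, 0]) (.nd 1 (.lf [1,
    -66304, 0, 0, 0, 0, 0]) (.lf [1, -65536, 0, 0, 0, 0, 0]))))))) (.lf [1, -32768, 0, 0, 0, 0,
    0]))) (.lf [1, -196608, -65536, 0, 0, 0, 0]))
    (by decide +kernel)

theorem YBu1 : G [(up uYB)] (sdYB) 5 [93, 5, 3, 3, 3] [100, 6, 15, 47, 5] [200, 10, 100, 100, 3] :=
  G.leaf 76 15449907481600000 [1, 2, 1, 1, 1]
    (.nd 4 (.nd 3 (.lf [1, 0, 0, 0, 0, 0, -131072]) (.lf [1, 0, 0, 0, 0, 0, 0])) (.lf [1,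
    -524288, 0, -16384, 0, 0, 0]))
    (by decide +kernel)

theorem XAza : G [eza] (sdXA) 5 [93, 4, 3, 3, 3] [100, 5, 26, 47, 5] [200, 10, 100, 100, 3] :=
  G.leaf 41 1036800000000 [1, 2, 1, 1, 1]
    (.lf [1, 0, 0, 0, 0, 0, 0])
    (by decide +kernel)

theorem XBu0 : G [uXB] (sdXB) 5 [93, 4, 3, 3, 3] [100, 5, 26, 47, 5] [200, 10, 100, 100, 3] :=
  G.leaf 70 9414930000000000 [1, 2, 1, 1, 1]
    (.lf [1, 0, -32768, 0, 0, 0, 0])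
    (by decide +kernel)

theorem YAu0 : G [uYA] (sdYA) 5 [93, 5, 3, 3, 3] [100, 6, 15, 47, 5] [200, 10, 100, 100, 3] :=
  G.leaf 55 9098699552000000 [1, 2, 1, 1, 1]
    (.lf [1, 0, 0, 0, 0, 0, 0])
    (by decide +kernel)

end Pool.Agent.Lib.MP_43bc59_co.ZM
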