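import Pool.Agent.Lib.MP_43bc59_co.M_C6

set_option autoImplicit false
set_option maxRecDepth 100000

namespace Pool.Agent.Lib.MP_43bc59_co.ZM

open Bx

theorem YAf200_5 : G [(f2A lYA uYA (sE0 vYA) (pA lYA rYA eP0))] (ez0 :: eh0 :: sdYA) 5 [93, 5, 6, 12, 12] [100, 6, 18, 56, 14] [200, 10, 200, 400, 12] :=
  G.leaf 250 969935328066048803966784068508180445635463348224000000000000 [4, 7, 4, 5, 3]
    (.nd 1 (.nd 4 (.nd 2 (.nd 3 (.lf [1, 0, 0, 0, 0, 0, -524288, 0, 0]) (.lf [1, 0, 0, 0, 0, 0,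
    0, 0, 0])) (.lf [1, 0, 0, 0, 0, 0, -655360, 0, 0])) (.lf [1, -41943040, 0, 0, 0, 0, -524288,
    0, 0])) (.lf [1, 0, 0, 0, 0, 0, -1048576, 0, 0]))
    (by decide +kernel)

theorem YAf200_7 : G [(f2A lYA uYA (sE0 vYA) (pA lYA rYA eP0))] (ez0 :: eh0 :: sdYA) 5 [93, 10, 6, 56, 12] [100, 11, 18, 100, 14] [200, 20, 200, 400, 12] :=
  G.leaf 244 170682160009572951328457636734695981627016640200704000000000000 [4, 7, 4, 5, 3]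
    (.nd 4 (.nd 3 (.nd 2 (.lf [1, 0, 0, 0, 0, 0, 0, 0, 0]) (.lf [1, 0, 0, 0, 0, 0, -131072, 0,
    0])) (.lf [1, 0, 0, 0, 0, 0, 0, 0, 0])) (.lf [1, -16777216, 0, 0, 0, 0, 0, 0, 0]))
    (by decide +kernel)

theorem YAf200_10 : G [(f2A lYA uYA (sE0 vYA) (pA lYA rYA eP0))] (ez0 :: eh0 :: sdYA) 5 [93, 11, 12, 56, 24] [100, 12, 24, 100, 26] [200, 20, 400, 400, 24] :=
  G.leaf 271 24046905536689413837569894327230783286259879153500160000000000000 [4, 7, 4, 5, 3]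
    (.nd 3 (.nd 4 (.nd 2 (.nd 3 (.nd 4 (.lf [1, 0, 0, 0, 0, 0, -65536, 0, 0]) (.nd 0 (.lf [1, 0,
    0, 0, 0, 0, -229376, 0, 0]) (.lf [1, 0, 0, 0, 0, 0, -131072, 0, 0]))) (.lf [1, 0, 0, 0, 0, 0,
    -327680, 0, 0])) (.lf [1, 0, 0, 0, 0, 0, -327680, 0, 0])) (.lf [1, 0, 0, 0, 0, 0, -65536, 0,
    0])) (.nd 4 (.nd 2 (.nd 3 (.lf [1, 0, 0, 0, 0, 0, 0, -262144, 0]) (.lf [1, 0, 0, 0, 0, 0, 0,
    0, 0])) (.lf [1, 0, 0, 0, 0, 0, 0, -393216, 0])) (.lf [1, 0, 0, 0, 0, 0, 0, 0, 0])))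
    (by decide +kernel)

theorem YAf200_11 : G [(f2A lYA uYA (sE0 vYA) (pA lYA rYA eP0))] (ez0 :: eh0 :: sdYA) 5 [93, 11, 24, 56, 24] [100, 12, 36, 100, 26] [200, 20, 400, 400, 24] :=
  G.leaf 262 29532297874633574501137427714517913024496041721856000000000000000 [4, 7, 4, 5, 3]
    (.nd 3 (.lf [1, 0, 0, 0, 0, 0, -524288, 0, 0]) (.nd 4 (.nd 2 (.lf [1, 0, 0, 0, 0, 0, 0,
    -655360, 0]) (.nd 3 (.lf [1, 0, 0, 0, 0, -720896, 0, 0, 0]) (.lf [1, 0, 0, 0, 0, -524288, 0,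
    0, 0]))) (.lf [1, 0, 0, 0, 0, -262144, 0, 0, 0])))
    (by decide +kernel)

theorem YAf200_9 : G [(f2A lYA uYA (sE0 vYA) (pA lYA rYA eP0))] (ez0 :: eh0 :: sdYA) 5 [93, 11, 6, 56, 24] [100, 12, 18, 100, 26] [200, 20, 200, 400, 24] :=
  G.split 2 YAf200_10 YAf200_11

theorem YAf200_12 : G [(f2A lYA uYA (sE0 vYA) (pA lYA rYA eP0))] (ez0 :: eh0 :: sdYA) 5 [93, 11, 6, 56, 26] [100, 12, 18, 100, 28] [200, 20, 200, 400, 24] :=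
  G.leaf 229 1841417340482820802714783756562530441444818249842688000000000000 [4, 7, 4, 5, 3]
    (.lf [1, 0, 0, 0, 0, 0, -131072, 0, 0])
    (by decide +kernel)

theorem YAf200_8 : G [(f2A lYA uYA (sE0 vYA) (pA lYA rYA eP0))] (ez0 :: eh0 :: sdYA) 5 [93, 11, 6, 56, 12] [100, 12, 18, 100, 14] [200, 20, 200, 400, 12] :=
  G.split 4 YAf200_9 YAf200_12

theorem YAf200_6 : G [(f2A lYA uYA (sE0 vYA) (pA lYA rYA eP0))] (ez0 :: eh0 :: sdYA) 5 [93, 5, 6, 56, 12] [100, 6, 18, 100, 14] [200, 10, 200, 400, 12] :=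
  G.split 1 YAf200_7 YAf200_8

theorem YAf200_4 : G [(f2A lYA uYA (sE0 vYA) (pA lYA rYA eP0))] (ez0 :: eh0 :: sdYA) 5 [93, 5, 6, 6, 12] [100, 6, 18, 50, 14] [200, 10, 200, 200, 12] :=
  G.split 3 YAf200_5 YAf200_6

theorem YAf200_13 : G [(f2A lYA uYA (sE0 vYA) (pA lYA rYA eP0))] (ez0 :: eh0 :: sdYA) 5 [93, 5, 6, 6, 14] [100, 6, 18, 50, 16] [200, 10, 200, 200, 12] :=
  G.leaf 226 46402931046093566911472567778837685040987504640000000000000 [4, 7, 4, 5, 3]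
    (.lf [1, -1073741824, 0, 0, 0, 0, 0, 0, 0])
    (by decide +kernel)

theorem YAf200_3 : G [(f2A lYA uYA (sE0 vYA) (pA lYA rYA eP0))] (ez0 :: eh0 :: sdYA) 5 [93, 5, 6, 6, 6] [100, 6, 18, 50, 8] [200, 10, 200, 200, 6] :=
  G.split 4 YAf200_4 YAf200_13

theorem YAf200_15 : G [(f2A lYA uYA (sE0 vYA) (pA lYA rYA eP0))] (ez0 :: eh0 :: sdYA) 5 [93, 5, 18, 12, 6] [100, 6, 30, 56, 8] [200, 10, 200, 400, 6] :=
  G.leaf 233 198046128288689619881830923599231497382261686272000000000000 [4, 7, 4, 5, 3]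
    (.nd 4 (.nd 2 (.lf [1, 0, -9549824, 0, 0, 0, -1453632, 0, 0]) (.lf [1, 0, 0, 0, 0, 0,
    -2097152, 0, 0])) (.lf [1, -41943040, 0, 0, 0, 0, -1310720, 0, 0]))
    (by decide +kernel)

theorem YAf200_18 : G [(f2A lYA uYA (sE0 vYA) (pA lYA rYA eP0))] (ez0 :: eh0 :: sdYA) 5 [93, 10, 18, 56, 12] [100, 11, 30, 100, 14] [200, 20, 200, 400, 12] :=
  G.leaf 255 251793594529534211669587501460880425347075069181952000000000000 [4, 7, 4, 5, 3]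
    (.nd 3 (.nd 4 (.nd 2 (.nd 3 (.lf [1, 0, 0, 0, 0, -786432, 0, 0, 0]) (.lf [1, 0, 0, 0, 0, 0,
    -786432, 0, 0])) (.lf [1, 0, 0, 0, 0, -1900544, 0, 0, 0])) (.lf [1, 0, -39845888, 0, 0,
    -2097152, 0, 0, 0])) (.lf [1, 0, -12582912, 0, 0, -1048576, 0, 0, 0]))
    (by decide +kernel)

theorem YAf200_19 : G [(f2A lYA uYA (sE0 vYA) (pA lYA rYA eP0))] (ez0 :: eh0 :: sdYA) 5 [93, 11, 18, 56, 12] [100, 12, 30, 100, 14] [200, 20, 200, 400, 12] :=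
  G.leaf 252 321387594512031198980767339572381398107812186292224000000000000 [4, 7, 4, 5, 3]
    (.nd 3 (.lf [1, 0, 0, 0, 0, 0, -1572864, 0, 0]) (.nd 4 (.nd 2 (.lf [1, 0, 0, 0, 0, -983040,
    0, 0, 0]) (.lf [1, 0, 0, 0, 0, -16777216, 0, 0, 0])) (.lf [1, 0, 0, 0, 0, -1048576, 0, 0,
    0])))
    (by decide +kernel)

theorem YAf200_17 : G [(f2A lYA uYA (sE0 vYA) (pA lYA rYA eP0))] (ez0 :: eh0 :: sdYA) 5 [93, 5, 18, 56, 12] [100, 6, 30, 100, 14] [200, 10, 200, 400, 12] :=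
  G.split 1 YAf200_18 YAf200_19

theorem YAf200_20 : G [(f2A lYA uYA (sE0 vYA) (pA lYA rYA eP0))] (ez0 :: eh0 :: sdYA) 5 [93, 5, 18, 56, 14] [100, 6, 30, 100, 16] [200, 10, 200, 400, 12] :=
  G.leaf 229 2722451973098108456550126527803906928021392588800000000000000 [4, 7, 4, 5, 3]
    (.lf [1, 0, -100663296, 0, 0, -4194304, 0, 0, 0])
    (by decide +kernel)

theorem YAf200_16 : G [(f2A lYA uYA (sE0 vYA) (pA lYA rYA eP0))] (ez0 :: eh0 :: sdYA) 5 [93, 5, 18, 56, 6] [100, 6, 30, 100, 8] [200, 10, 200, 400, 6] :=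
  G.split 4 YAf200_17 YAf200_20

theorem YAf200_14 : G [(f2A lYA uYA (sE0 vYA) (pA lYA rYA eP0))] (ez0 :: eh0 :: sdYA) 5 [93, 5, 18, 6, 6] [100, 6, 30, 50, 8] [200, 10, 200, 200, 6] :=
  G.split 3 YAf200_15 YAf200_16

theorem YAf200_2 : G [(f2A lYA uYA (sE0 vYA) (pA lYA rYA eP0))] (ez0 :: eh0 :: sdYA) 5 [93, 5, 3, 6, 6] [100, 6, 15, 50, 8] [200, 10, 100, 200, 6] :=
  G.split 2 YAf200_3 YAf200_14

theorem YAf200_21 : G [(f2A lYA uYA (sE0 vYA) (pA lYA rYA eP0))] (ez0 :: eh0 :: sdYA) 5 [93, 5, 3, 6, 8] [100, 6, 15, 50, 10] [200, 10, 100, 200, 6] :=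
  G.leaf 221 588661177745242732234640902658414710590799872000000000000 [4, 7, 4, 5, 3]
    (.lf [1, -2013265920, 0, 0, 0, -100663296, 0, 0, 0])
    (by decide +kernel)

theorem YAf200_1 : G [(f2A lYA uYA (sE0 vYA) (pA lYA rYA eP0))] (ez0 :: eh0 :: sdYA) 5 [93, 5, 3, 6, 3] [100, 6, 15, 50, 5] [200, 10, 100, 200, 3] :=
  G.split 4 YAf200_2 YAf200_21

theorem YAf200_24 : G [(f2A lYA uYA (sE0 vYA) (pA lYA rYA eP0))] (ez0 :: eh0 :: sdYA) 5 [93, 5, 3, 100, 6] [100, 6, 15, 144, 8] [200, 10, 100, 400, 6] :=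
  G.leaf 255 23516675284589236606742540434809406902276980736000000000000 [4, 7, 4, 5, 3]
    (.nd 1 (.nd 4 (.nd 3 (.nd 2 (.lf [1, 0, 0, 0, 0, 0, 0, 0, 0]) (.lf [1, 0, 0, 0, 0, -262144,
    0, 0, 0])) (.lf [1, 0, 0, 0, 0, 0, 0, 0, 0])) (.lf [1, 0, -16777216, 0, 0, 0, 0, 0, 0])) (.nd
    4 (.nd 2 (.nd 3 (.nd 4 (.lf [1, 0, 0, 0, 0, 0, 0, 0, 0]) (.nd 2 (.lf [1, 0, 0, 0, 0, -262144,
    0, 0, 0]) (.lf [1, 0, 0, 0, 0, 0, 0, 0, 0]))) (.lf [1, 0, 0, 0, 0, 0, 0, 0, 0])) (.lf [1, 0,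
    0, 0, 0, -589824, 0, 0, 0])) (.lf [1, -12582912, 0, 0, 0, -786432, 0, 0, 0])))
    (by decide +kernel)

theorem YAf200_25 : G [(f2A lYA uYA (sE0 vYA) (pA lYA rYA eP0))] (ez0 :: eh0 :: sdYA) 5 [93, 5, 3, 100, 8] [100, 6, 15, 144, 10] [200, 10, 100, 400, 6] :=
  G.leaf 224 33776166966025683324539421961908408189286612992000000000000 [4, 7, 4, 5, 3]
    (.lf [1, -234881024, 0, 0, 0, -12582912, 0, 0, 0])
    (by decide +kernel)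

theorem YAf200_23 : G [(f2A lYA uYA (sE0 vYA) (pA lYA rYA eP0))] (ez0 :: eh0 :: sdYA) 5 [93, 5, 3, 100, 3] [100, 6, 15, 144, 5] [200, 10, 100, 400, 3] :=
  G.split 4 YAf200_24 YAf200_25

theorem YAf200_26 : G [(f2A lYA uYA (sE0 vYA) (pA lYA rYA eP0))] (ez0 :: eh0 :: sdYA) 5 [93, 5, 3, 144, 3] [100, 6, 15, 188, 5] [200, 10, 100, 400, 3] :=
  G.leaf 222 4987827782738567985041224664416129036874416128000000000000 [4, 7, 4, 5, 3]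
    (.lf [1, 0, -503316480, 0, 0, -4194304, 0, -8388608, 0])
    (by decide +kernel)

theorem YAf200_22 : G [(f2A lYA uYA (sE0 vYA) (pA lYA rYA eP0))] (ez0 :: eh0 :: sdYA) 5 [93, 5, 3, 50, 3] [100, 6, 15, 94, 5] [200, 10, 100, 200, 3] :=
  G.split 3 YAf200_23 YAf200_26

theorem YAf200 : G [(f2A lYA uYA (sE0 vYA) (pA lYA rYA eP0))] (ez0 :: eh0 :: sdYA) 5 [93, 5, 3, 3, 3] [100, 6, 15, 47, 5] [200, 10, 100, 100, 3] :=
  G.split 3 YAf200_1 YAf200_22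

theorem XAf100_4 : G [(f1 lXA uXA (sE0 vXA) (pA lXA rXA eP0))] (ez0 :: eh0 :: sdXA) 5 [93, 8, 6, 6, 6] [100, 9, 29, 50, 8] [200, 20, 200, 200, 6] :=
  G.leaf 251 23150174733451568717440231588756430048460800000000000000 [4, 6, 4, 4, 3]
    (.nd 4 (.nd 3 (.nd 1 (.lf [1, 0, -536870912, 0, 0, 0, 0, 0, 0]) (.nd 2 (.lf [1, 0,
    -335544320, 0, 0, 0, 0, 0, 0]) (.nd 4 (.lf [1, 0, -268435456, 0, 0, 0, 0, 0, 0]) (.nd 3 (.lf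
    [1, 0, -268435456, 0, 0, 0, 0, 0, 0]) (.lf [1, 0, -100663296, 0, 0, 0, 0, 0, 0]))))) (.lf [1,
    0, -6442450944, 0, 0, 0, 0, 0, 0])) (.lf [1, 0, -21474836480, 0, 0, 0, 0, 0, 0]))
    (by decide +kernel)

theorem XAf100_7 : G [(f1 lXA uXA (sE0 vXA) (pA lXA rXA eP0))] (ez0 :: eh0 :: sdXA) 5 [93, 9, 6, 12, 12] [100, 10, 29, 56, 14] [200, 20, 200, 400, 12] :=
  G.leaf 247 2888113415628307283728074054355677201039360000000000000000 [4, 6, 4, 4, 3]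
    (.nd 2 (.nd 1 (.nd 4 (.lf [1, 0, -143654912, 0, 0, 0, 0, 0, 0]) (.lf [1, 0, -268435456, 0, 0,
    0, 0, 0, 0])) (.nd 4 (.nd 2 (.lf [1, 0, 0, 0, 0, 0, -360448, 0, 0]) (.lf [1, 0, -51380224, 0,
    0, 0, 0, 0, 0])) (.lf [1, -134217728, 0, 0, 0, 0, 0, 0, 0]))) (.nd 1 (.nd 4 (.nd 3 (.nd 2
    (.lf [1, 0, 0, 0, 0, 0, 0, 0, 0]) (.lf [1, 0, 0, 0, 0, 0, -2621440, 0, 0])) (.lf [1, 0,
    -16777216, 0, 0, 0, 0, 0, 0])) (.lf [1, 0, -268435456, 0, 0, 0, -4194304, 0, 0])) (.nd 4 (.nd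
    3 (.lf [1, 0, 0, 0, 0, 0, -4194304, 0, 0]) (.lf [1, 0, 0, 0, 0, 0, -1925120, 0, 0])) (.lf [1,
    0, -134217728, 0, 0, 0, -4194304, 0, 0]))))
    (by decide +kernel)

theorem XAf100_8 : G [(f1 lXA uXA (sE0 vXA) (pA lXA rXA eP0))] (ez0 :: eh0 :: sdXA) 5 [93, 9, 6, 56, 12] [100, 10, 29, 100, 14] [200, 20, 200, 400, 12] :=
  G.leaf 237 3527379240280776231017486787759574735650816000000000000000 [4, 6, 4, 4, 3]
    (.nd 2 (.lf [1, 0, -268435456, 0, 0, 0, 0, 0, 0]) (.nd 1 (.lf [1, 0, -268435456, 0, 0, 0, 0,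
    0, 0]) (.lf [1, 0, -67108864, 0, 0, 0, 0, 0, 0])))
    (by decide +kernel)

theorem XAf100_6 : G [(f1 lXA uXA (sE0 vXA) (pA lXA rXA eP0))] (ez0 :: eh0 :: sdXA) 5 [93, 9, 6, 6, 12] [100, 10, 29, 50, 14] [200, 20, 200, 200, 12] :=
  G.split 3 XAf100_7 XAf100_8

theorem XAf100_9 : G [(f1 lXA uXA (sE0 vXA) (pA lXA rXA eP0))] (ez0 :: eh0 :: sdXA) 5 [93, 9, 6, 6, 14] [100, 10, 29, 50, 16] [200, 20, 200, 200, 12] :=
  G.leaf 222 243667214057731218272612232099453688872960000000000000000 [4, 6, 4, 4, 3]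
    (.lf [1, 0, -12884901888, 0, 0, 0, -167772160, 0, 0])
    (by decide +kernel)

theorem XAf100_5 : G [(f1 lXA uXA (sE0 vXA) (pA lXA rXA eP0))] (ez0 :: eh0 :: sdXA) 5 [93, 9, 6, 6, 6] [100, 10, 29, 50, 8] [200, 20, 200, 200, 6] :=
  G.split 4 XAf100_6 XAf100_9

theorem XAf100_3 : G [(f1 lXA uXA (sE0 vXA) (pA lXA rXA eP0))] (ez0 :: eh0 :: sdXA) 5 [93, 4, 6, 6, 6] [100, 5, 29, 50, 8] [200, 10, 200, 200, 6] :=
  G.split 1 XAf100_4 XAf100_5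

theorem XAf100_14 : G [(f1 lXA uXA (sE0 vXA) (pA lXA rXA eP0))] (ez0 :: eh0 :: sdXA) 5 [93, 8, 58, 12, 12] [100, 9, 81, 56, 14] [200, 20, 400, 400, 12] :=
  G.leaf 246 48344560621763128271051632604477344619119509504000000000000 [4, 6, 4, 4, 3]
    (.nd 3 (.nd 1 (.nd 4 (.lf [1, 0, -83886080, 0, 0, 0, 0, -4194304, 0]) (.lf [1, 0, -268435456,
    0, 0, 0, 0, 0, 0])) (.nd 4 (.nd 2 (.lf [1, 0, 0, 0, 0, 0, -1572864, 0, 0]) (.lf [1, 0, 0, 0,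
    0, 0, -4718592, 0, 0])) (.lf [1, 0, -268435456, 0, 0, 0, -6291456, 0, 0]))) (.nd 1 (.lf [1,
    0, -268435456, 0, 0, 0, 0, 0, 0]) (.lf [1, 0, -75497472, 0, 0, 0, 0, 0, 0])))
    (by decide +kernel)

theorem XAf100_15 : G [(f1 lXA uXA (sE0 vXA) (pA lXA rXA eP0))] (ez0 :: eh0 :: sdXA) 5 [93, 8, 81, 12, 12] [100, 9, 104, 56, 14] [200, 20, 400, 400, 12] :=
  G.leaf 246 56101330581508708000033300176113568325828608000000000000000 [4, 6, 4, 4, 3]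
    (.nd 3 (.nd 4 (.nd 1 (.lf [1, 0, -335544320, 0, 0, 0, -12582912, -16777216, 0]) (.lf [1, 0,
    0, 0, 0, 0, -8388608, 0, 0])) (.lf [1, 0, -469762048, 0, 0, 0, -14680064, -16777216, 0]))
    (.nd 1 (.lf [1, 0, -268435456, 0, 0, -8388608, 0, 0, 0]) (.lf [1, 0, -117440512, 0, 0,
    -10485760, 0, 0, 0])))
    (by decide +kernel)

theorem XAf100_13 : G [(f1 lXA uXA (sE0 vXA) (pA lXA rXA eP0))] (ez0 :: eh0 :: sdXA) 5 [93, 8, 29, 12, 12] [100, 9, 52, 56, 14] [200, 20, 200, 400, 12] :=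
  G.split 2 XAf100_14 XAf100_15

theorem XAf100_16 : G [(f1 lXA uXA (sE0 vXA) (pA lXA rXA eP0))] (ez0 :: eh0 :: sdXA) 5 [93, 8, 29, 12, 14] [100, 9, 52, 56, 16] [200, 20, 200, 400, 12] :=
  G.leaf 227 4015727311814491715153336890033404123367342080000000000000 [4, 6, 4, 4, 3]
    (.lf [1, 0, -18253611008, 0, 0, 0, -335544320, 0, 0])
    (by decide +kernel)

theorem XAf100_12 : G [(f1 lXA uXA (sE0 vXA) (pA lXA rXA eP0))] (ez0 :: eh0 :: sdXA) 5 [93, 8, 29, 12, 6] [100, 9, 52, 56, 8] [200, 20, 200, 400, 6] :=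
  G.split 4 XAf100_13 XAf100_16

theorem XAf100_17 : G [(f1 lXA uXA (sE0 vXA) (pA lXA rXA eP0))] (ez0 :: eh0 :: sdXA) 5 [93, 9, 29, 12, 6] [100, 10, 52, 56, 8] [200, 20, 200, 400, 6] :=
  G.leaf 251 539555330255005200064895743961882133505507328000000000000 [4, 6, 4, 4, 3]
    (.nd 4 (.nd 2 (.nd 3 (.nd 1 (.lf [1, 0, -44040192, 0, 0, 0, -6668288, 0, 0]) (.lf [1, 0, 0,
    0, 0, 0, -436207616, 0, 0])) (.nd 1 (.nd 4 (.lf [1, 0, -201326592, 0, 0, -8388608, 0, 0, 0])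
    (.nd 2 (.lf [1, 0, 0, 0, 0, -8388608, 0, 0, 0]) (.lf [1, 0, 0, 0, 0, -4194304, 0, 0, 0])))
    (.nd 4 (.lf [1, 0, 0, 0, 0, -6291456, 0, 0, 0]) (.lf [1, 0, 0, 0, 0, -5242880, -2097152, 0,
    0])))) (.lf [1, 0, 0, 0, 0, -10747904, -3407872, 0, 0])) (.lf [1, 0, -8589934592, 0, 0, 0,
    -167772160, 0, 0]))
    (by decide +kernel)

theorem XAf100_11 : G [(f1 lXA uXA (sE0 vXA) (pA lXA rXA eP0))] (ez0 :: eh0 :: sdXA) 5 [93, 4, 29, 12, 6] [100, 5, 52, 56, 8] [200, 10, 200, 400, 6] :=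
  G.split 1 XAf100_12 XAf100_17

theorem XAf100_18 : G [(f1 lXA uXA (sE0 vXA) (pA lXA rXA eP0))] (ez0 :: eh0 :: sdXA) 5 [93, 4, 29, 56, 6] [100, 5, 52, 100, 8] [200, 10, 200, 400, 6] :=
  G.leaf 248 9600702362320762068246204838234587804991488000000000000 [4, 6, 4, 4, 3]
    (.nd 1 (.lf [1, 0, -79456894976, 0, 0, -1006632960, 0, 0, 0]) (.nd 4 (.nd 2 (.nd 3 (.nd 1
    (.lf [1, 0, -150994944, 0, 0, -6291456, 0, 0, 0]) (.lf [1, 0, -67108864, 0, 0, -8388608, 0,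
    0, 0])) (.lf [1, 0, -15032385536, 0, 0, -402653184, 0, 0, 0])) (.lf [1, 0, -1073741824, 0, 0,
    -134217728, 0, 0, 0])) (.lf [1, 0, -3221225472, 0, 0, -67108864, 0, 0, 0])))
    (by decide +kernel)

theorem XAf100_10 : G [(f1 lXA uXA (sE0 vXA) (pA lXA rXA eP0))] (ez0 :: eh0 :: sdXA) 5 [93, 4, 29, 6, 6] [100, 5, 52, 50, 8] [200, 10, 200, 200, 6] :=
  G.split 3 XAf100_11 XAf100_18

theorem XAf100_2 : G [(f1 lXA uXA (sE0 vXA) (pA lXA rXA eP0))] (ez0 :: eh0 :: sdXA) 5 [93, 4, 3, 6, 6] [100, 5, 26, 50, 8] [200, 10, 100, 200, 6] :=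
  G.split 2 XAf100_3 XAf100_10

theorem XAf100_19 : G [(f1 lXA uXA (sE0 vXA) (pA lXA rXA eP0))] (ez0 :: eh0 :: sdXA) 5 [93, 4, 3, 50, 6] [100, 5, 26, 94, 8] [200, 10, 100, 200, 6] :=
  G.leaf 210 43272867457543589708970535672671144771584000000000000 [4, 6, 4, 4, 3]
    (.lf [1, 0, -18253611008, 0, 0, -201326592, 0, 0, 0])
    (by decide +kernel)

theorem XAf100_1 : G [(f1 lXA uXA (sE0 vXA) (pA lXA rXA eP0))] (ez0 :: eh0 :: sdXA) 5 [93, 4, 3, 3, 6] [100, 5, 26, 47, 8] [200, 10, 100, 100, 6] :=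
  G.split 3 XAf100_2 XAf100_19

theorem XAf100_20 : G [(f1 lXA uXA (sE0 vXA) (pA lXA rXA eP0))] (ez0 :: eh0 :: sdXA) 5 [93, 4, 3, 3, 8] [100, 5, 26, 47, 10] [200, 10, 100, 100, 6] :=
  G.leaf 210 3253335520642016368004784207679065292800000000000000 [4, 6, 4, 4, 3]
    (.lf [1, 0, -173946175488, 0, 0, -4026531840, 0, 0, 0])
    (by decide +kernel)

theorem XAf100 : G [(f1 lXA uXA (sE0 vXA) (pA lXA rXA eP0))] (ez0 :: eh0 :: sdXA) 5 [93, 4, 3, 3, 3] [100, 5, 26, 47, 5] [200, 10, 100, 100, 3] :=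
  G.split 4 XAf100_1 XAf100_20

theorem XAf111_1 : G [(f1 lXA uXA (sE1 vXA) (pA lXA rXA eP1))] (ez1 :: eh1 :: sdXA) 5 [93, 4, 6, 3, 3] [100, 5, 29, 47, 5] [200, 10, 200, 100, 3] :=
  G.leaf 247 5861894209362301880967366775252992000000000000000000 [4, 6, 4, 4, 3]
    (.nd 4 (.nd 3 (.nd 1 (.lf [1, -3221225472, 0, -6442450944, 0, 0, 0, 0, 0]) (.nd 4 (.nd 2 (.lf
    [1, 0, 0, -268435456, 0, 0, 0, 0, 0]) (.lf [1, 0, 0, -134217728, 0, 0, -1572864, 0, 0])) (.nd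
    2 (.nd 3 (.lf [1, 0, 0, 0, 0, 0, 0, 0, 0]) (.nd 1 (.lf [1, 0, 0, -67108864, 0, 0, 0, 0, 0])
    (.lf [1, 0, 0, 0, 0, 0, 0, 0, 0]))) (.lf [1, -67108864, 0, 0, 0, 0, 0, 0, 0])))) (.lf [1, 0,
    0, 0, 0, 0, 0, 0, -671088640])) (.nd 1 (.lf [1, 0, 0, -9663676416, 0, 0, 0, 0, 0]) (.nd 3
    (.lf [1, 0, 0, -419430400, 0, 0, -786432, 0, 0]) (.lf [1, 0, 0, -7516192768, 0, 0, 0, 0,
    -8053063680]))))
    (by decide +kernel)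

theorem XAf111_3 : G [(f1 lXA uXA (sE1 vXA) (pA lXA rXA eP1))] (ez1 :: eh1 :: sdXA) 5 [93, 4, 29, 3, 6] [100, 5, 52, 47, 8] [200, 10, 200, 100, 6] :=
  G.leaf 239 52114052588016413771513706756282394214400000000000000 [4, 6, 4, 4, 3]
    (.nd 3 (.nd 1 (.lf [1, -1073741824, 0, -2147483648, 0, 0, 0, 0, 0]) (.nd 3 (.nd 4 (.lf [1,
    -134217728, 0, 0, 0, 0, 0, 0, 0]) (.nd 2 (.lf [1, -100663296, 0, 0, 0, 0, 0, 0, 0]) (.lf [1,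
    -536870912, 0, 0, 0, 0, 0, 0, 0]))) (.nd 4 (.lf [1, -1073741824, 0, 0, 0, 0, 0, 0, 0]) (.lf
    [1, -138543104, 0, -169607168, 0, 0, -2002944, 0, 0])))) (.lf [1, -268435456, 0, 0, 0, 0, 0,
    0, -268435456]))
    (by decide +kernel)

theorem XAf111_4 : G [(f1 lXA uXA (sE1 vXA) (pA lXA rXA eP1))] (ez1 :: eh1 :: sdXA) 5 [93, 4, 29, 3, 8] [100, 5, 52, 47, 10] [200, 10, 200, 100, 6] :=
  G.leaf 240 74528483421604358780750198126808141004800000000000000 [4, 6, 4, 4, 3]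
    (.nd 3 (.nd 4 (.nd 2 (.nd 1 (.lf [1, 0, 0, -805306368, 0, 0, 0, 0, 0]) (.nd 3 (.lf [1, 0, 0,
    -603979776, 0, -18874368, 0, 0, 0]) (.lf [1, 0, 0, -469762048, 0, -11010048, -2097152, 0,
    0]))) (.lf [1, 0, 0, -40802189312, 0, -1275068416, 0, 0, 0])) (.lf [1, 0, 0, -4294967296, 0,
    -134217728, 0, 0, 0])) (.lf [1, 0, 0, -12884901888, 0, -335544320, 0, 0, -9663676416]))
    (by decide +kernel)

theorem XAf111_2 : G [(f1 lXA uXA (sE1 vXA) (pA lXA rXA eP1))] (ez1 :: eh1 :: sdXA) 5 [93, 4, 29, 3, 3] [100, 5, 52, 47, 5] [200, 10, 200, 100, 3] :=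
  G.split 4 XAf111_3 XAf111_4

theorem XAf111 : G [(f1 lXA uXA (sE1 vXA) (pA lXA rXA eP1))] (ez1 :: eh1 :: sdXA) 5 [93, 4, 3, 3, 3] [100, 5, 26, 47, 5] [200, 10, 100, 100, 3] :=
  G.split 2 XAf111_1 XAf111_2

theorem YAf110_3 : G [(f1 lYA uYA (sE1 vYA) (pA lYA rYA eP0))] (ez1 :: eh0 :: sdYA) 5 [93, 10, 3, 6, 6] [100, 11, 15, 50, 8] [200, 20, 100, 200, 6] :=
  G.leaf 240 2873528983607116240900657733033306959642624000000000000 [4, 6, 4, 4, 3]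
    (.nd 4 (.nd 2 (.nd 3 (.nd 2 (.lf [1, 0, -83886080, 0, 0, 0, -2883584, 0, 0]) (.nd 4 (.lf [1,
    0, -268435456, 0, 0, 0, -4194304, 0, 0]) (.nd 1 (.lf [1, 0, 0, 0, 0, 0, 0, 0, 0]) (.lf [1, 0,
    0, 0, 0, 0, -1048576, 0, 0])))) (.nd 4 (.lf [1, 0, -150994944, 0, 0, 0, 0, 0, 0]) (.lf [1,
    -142606336, -150994944, 0, 0, 0, 0, 0, 0]))) (.lf [1, -5368709120, -10737418240, 0, 0, 0,
    -117440512, 0, 0])) (.lf [1, 0, -603979776, 0, 0, 0, -8388608, 0, 0]))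
    (by decide +kernel)

theorem YAf110_4 : G [(f1 lYA uYA (sE1 vYA) (pA lYA rYA eP0))] (ez1 :: eh0 :: sdYA) 5 [93, 11, 3, 6, 6] [100, 12, 15, 50, 8] [200, 20, 100, 200, 6] :=
  G.leaf 247 3488829631705501488252313561231123636289536000000000000 [4, 6, 4, 4, 3]
    (.nd 2 (.nd 4 (.nd 3 (.lf [1, 0, 0, 0, 0, 0, -2097152, 0, 0]) (.nd 4 (.lf [1, 0, -109051904,
    0, 0, 0, -1835008, 0, 0]) (.nd 2 (.lf [1, -134217728, 0, 0, 0, 0, 0, 0, 0]) (.nd 1 (.lf [1,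
    -50331648, 0, 0, 0, 0, 0, 0, 0]) (.lf [1, -58720256, 0, 0, 0, 0, -786432, 0, 0]))))) (.lf [1,
    0, -16106127360, 0, 0, 0, -251658240, 0, 0])) (.lf [1, -5368709120, -11274289152, 0, 0,
    -335544320, -117440512, 0, 0]))
    (by decide +kernel)

theorem YAf110_2 : G [(f1 lYA uYA (sE1 vYA) (pA lYA rYA eP0))] (ez1 :: eh0 :: sdYA) 5 [93, 5, 3, 6, 6] [100, 6, 15, 50, 8] [200, 10, 100, 200, 6] :=
  G.split 1 YAf110_3 YAf110_4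

theorem YAf110_5 : G [(f1 lYA uYA (sE1 vYA) (pA lYA rYA eP0))] (ez1 :: eh0 :: sdYA) 5 [93, 5, 3, 50, 6] [100, 6, 15, 94, 8] [200, 10, 100, 200, 6] :=
  G.leaf 208 67295090889470667437352613720530509365248000000000000 [4, 6, 4, 4, 3]
    (.lf [1, -684851200, -1353842688, 0, 0, 0, -1355776, -44531712, 0])
    (by decide +kernel)

theorem YAf110_1 : G [(f1 lYA uYA (sE1 vYA) (pA lYA rYA eP0))] (ez1 :: eh0 :: sdYA) 5 [93, 5, 3, 3, 6] [100, 6, 15, 47, 8] [200, 10, 100, 100, 6] :=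
  G.split 3 YAf110_2 YAf110_5

theorem YAf110_6 : G [(f1 lYA uYA (sE1 vYA) (pA lYA rYA eP0))] (ez1 :: eh0 :: sdYA) 5 [93, 5, 3, 3, 8] [100, 6, 15, 47, 10] [200, 10, 100, 100, 6] :=
  G.leaf 211 4888592563061612141543018116055354572800000000000000 [4, 6, 4, 4, 3]
    (.lf [1, -54223962112, -184146722816, 0, 0, 0, -1476395008, 0, 0])
    (by decide +kernel)

theorem YAf110 : G [(f1 lYA uYA (sE1 vYA) (pA lYA rYA eP0))] (ez1 :: eh0 :: sdYA) 5 [93, 5, 3, 3, 3] [100, 6, 15, 47, 5] [200, 10, 100, 100, 3] :=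
  G.split 4 YAf110_1 YAf110_6

theorem XBc2 : G [(c2 (sS lXB) vXB eDB)] (sdXB) 5 [93, 4, 3, 3, 3] [100, 5, 26, 47, 5] [200, 10, 100, 100, 3] :=
  G.leaf 210 8702815200948131778273996800000000000 [3, 3, 2, 3, 3]
    (.nd 4 (.nd 3 (.nd 3 (.nd 2 (.nd 4 (.lf [1, -134217728, 0, 0, 0, 0, -469762048]) (.nd 3 (.nd
    2 (.nd 4 (.lf [1, 0, 0, 0, 0, 0, -369098752]) (.lf [1, 0, 0, 0, 0, 0, -301989888])) (.lf [1,
    0, 0, 0, 0, 0, -352321536])) (.nd 2 (.nd 4 (.lf [1, 0, 0, 0, 0, 0, -268435456]) (.lf [1, 0,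
    0, 0, 0, 0, -234881024])) (.lf [1, 0, 0, 0, 0, 0, -268435456])))) (.nd 4 (.nd 2 (.lf [1,
    -201326592, 0, 0, 0, 0, -452984832]) (.lf [1, 0, 0, 0, 0, 0, -402653184])) (.nd 3 (.nd 2 (.nd
    4 (.lf [1, 0, 0, 0, 0, 0, -352321536]) (.lf [1, 0, 0, 0, 0, 0, -285212672])) (.nd 4 (.lf [1,
    0, 0, 0, 0, 0, -335544320]) (.lf [1, 0, 0, 0, 0, 0, -268435456]))) (.nd 2 (.nd 4 (.lf [1, 0,
    0, 0, 0, 0, -268435456]) (.nd 3 (.lf [1, 0, 0, 0, 0, 0, -234881024]) (.lf [1, 0, 0, 0, 0, 0,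
    -134217728]))) (.lf [1, 0, 0, -4194304, 0, 0, -134217728]))))) (.lf [1, 0, 0, 0, 0, 0,
    -73014444032])) (.nd 4 (.lf [1, 0, 0, 0, 0, 0, 0]) (.nd 3 (.nd 3 (.nd 4 (.lf [1, 0, 0, 0, 0,
    0, 0]) (.nd 2 (.lf [1, 0, 0, 0, 0, 0, 0]) (.nd 3 (.lf [1, 0, -150994944, 0, 0, 0, 0]) (.lf
    [1, 0, -285212672, 0, 0, 0, 0])))) (.nd 2 (.lf [1, 0, 0, 0, 0, 0, 0]) (.lf [1, 0, 0,
    -4194304, 0, 0, 0]))) (.nd 4 (.lf [1, 0, -402653184, 0, 0, 0, 0]) (.nd 3 (.nd 4 (.lf [1, 0,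
    -335544320, 0, 0, 0, 0]) (.nd 2 (.nd 3 (.nd 4 (.lf [1, 0, -268435456, 0, 0, 0, 0]) (.nd 0
    (.lf [1, 0, -402653184, 0, 0, 0, 0]) (.nd 2 (.lf [1, 0, -469762048, 0, 0, 0, 0]) (.lf [1, 0,
    -268435456, 0, 0, 0, 0])))) (.lf [1, 0, -314572800, 0, 0, 0, 0])) (.lf [1, 0, -19327352832,
    0, 0, 0, 0]))) (.nd 4 (.lf [1, 0, -1073741824, 0, 0, 0, 0]) (.nd 2 (.nd 3 (.nd 4 (.lf [1, 0,
    -536870912, 0, 0, 0, 0]) (.nd 2 (.lf [1, 0, -21474836480, 0, 0, 0, 0]) (.lf [1, 0,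
    -536870912, 0, 0, 0, 0]))) (.nd 4 (.lf [1, 0, -1073741824, 0, 0, 0, 0]) (.nd 0 (.lf [1, 0,
    -1073741824, 0, 0, 0, 0]) (.nd 2 (.lf [1, 0, -3221225472, 0, 0, 0, 0]) (.lf [1, 0,
    -671088640, 0, 0, 0, 0]))))) (.lf [1, 0, -4294967296, 0, 0, 0, 0])))))))) (.nd 4 (.nd 3 (.lf
    [1, -536870912, 0, 0, 0, 0, -671088640]) (.lf [1, 0, 0, 0, 0, 0, 0])) (.lf [1, -17179869184,
    0, -469762048, 0, 0, 0])))
    (by decide +kernel)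

theorem XAv1 : G [(up vXA)] (sdXA) 5 [93, 4, 3, 3, 3] [100, 5, 26, 47, 5] [200, 10, 100, 100, 3] :=
  G.leaf 75 14776278464000000 [1, 2, 1, 1, 1]
    (.nd 3 (.nd 4 (.lf [1, 0, 0, 0, 0, 0, -98304]) (.lf [1, -131072, 0, 0, 0, 0, 0])) (.lf [1, 0,
    0, 0, 0, 0, -131072]))
    (by decide +kernel)

theorem YAl0 : G [lYA] (sdYA) 5 [93, 5, 3, 3, 3] [100, 6, 15, 47, 5] [200, 10, 100, 100, 3] :=
  G.leaf 69 18121029664000000 [1, 2, 1, 1, 1]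
    (.nd 4 (.lf [1, 0, 0, 0, 0, 0, 0]) (.lf [1, 0, 0, -4096, 0, 0, 0]))
    (by decide +kernel)

theorem XBza : G [eza] (sdXB) 5 [93, 4, 3, 3, 3] [100, 5, 26, 47, 5] [200, 10, 100, 100, 3] :=
  G.leaf 41 1036800000000 [1, 2, 1, 1, 1]
    (.lf [1, 0, 0, 0, 0, 0, 0])
    (by decide +kernel)

theorem YAcR : G [rYA] (sdYA) 5 [93, 5, 3, 3, 3] [100, 6, 15, 47, 5] [200, 10, 100, 100, 3] :=
  G.leaf 67 14360889510400000 [1, 2, 1, 1, 1]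
    (.lf [1, 0, 0, 0, -2816, 0, 0])
    (by decide +kernel)

end Pool.Agent.Lib.MP_43bc59_co.ZM
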