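import Pool.Agent.Lib.MP_43bc59_co.M_S
import Pool.Agent.Lib.MP_43bc59_co.M_C7
import Pool.Agent.Lib.MP_43bc59_co.M_C8

set_option autoImplicit false

namespace Pool.Agent.Lib.MP_43bc59_co.ZM

open Bx

variable {ι : Type} [Fintype ι] [DecidableEq ι] {a θ : ℝ} {w g A Φ : ι → ℝ} {c Γ : ι → ι → ℝ}

lemma w_le (H : Hyp a θ w g A Φ c Γ) (x : ι) (t0 : 93 / 200 ≤ θ) (hp : 33 / 100 ≤ g x - a) :
    3 * w x ≤ 5 := by
  have t := H.wp_le x (al := a * (1 - a) / θ) (mul_div_cancel₀ _ H.th0.ne')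
  rw [le_div_iff₀ H.th0] at t
  have w0 : 0 ≤ w x := by linarith [H.w1 x]
  have k1 := mul_le_mul_of_nonneg_left hp w0
  have k2 := mul_le_mul k1 t0 (by norm_num) (mul_nonneg w0 (by linarith))
  nlinarith [sq_nonneg (a - 1 / 2)]

lemma eB_of (H : Hyp a θ w g A Φ c Γ) (x y : ι) (W2 : w x ≤ 2) :
    0 ≤ eB.val (fun j => [θ, a, 1 - g x, g y, w x].getD j 0) := by
  simp only [eT, eA, eE, eW, eM, eP, eV, eZ, eB, E.val, List.getD_cons_zero, List.getD_cons_succ,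
    Int.cast_one, Int.cast_ofNat]
  linarith [H.par_up x (H.w1 x) W2 le_rfl]

/-- pivot at the top, mean at most one half -/
theorem zoneX (H : Hyp a θ w g A Φ c Γ) (x y : ι) (ymin : ∀ j, g y ≤ g j) (xmax : ∀ j, g j ≤ g x)
    (t0 : 93 / 200 ≤ θ) (a0 : 2 / 5 + 7 / 5 * (1 / 2 - θ) ≤ a) (a1 : a ≤ 1 / 2)
    (e0 : 3 / 100 ≤ 1 - g x) (h0 : 3 / 100 ≤ g y)
    (e1 : 1 - g x ≤ 3 / 20 + 11 / 10 * (1 / 2 - a) - 3 / 10 * (1 / 2 - θ))
    (sp : 1 - g x - g y ≤ 19 / 10 * (1 / 2 - a) + 3 / 10 * (1 / 2 - θ)) :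
    Goal a θ w g Φ c Γ := by
  have t1 := H.th1
  have hx : a < g x := by linarith
  have hy := H.low_lt hx ymin
  rcases le_total (g x - g y) (1 - θ) with hn | hn
  · exact H.narrow hx.le hy.le ymin xmax hn
  have W1 := H.w1 x
  have W3 := w_le H x t0 (by linarith)
  have W2 : w x ≤ 2 := by linarith
  have b0 := eB_of H x y W2
  have bx : InBox (([93, 4, 3, 3, 3] : List ℕ).map (fun n : ℕ => (n : ℤ)))
      (([100, 5, 26, 47, 5] : List ℕ).map (fun n : ℕ => (n : ℤ)))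
      (([200, 10, 100, 100, 3] : List ℕ).map (fun n : ℕ => (n : ℤ))) [θ, a, 1 - g x, g y, w x] := by
    simp only [InBox, List.map_cons, List.map_nil]
    push_cast
    exact ⟨⟨by norm_num, by norm_num⟩, ⟨by linarith, by linarith⟩, ⟨by norm_num, by norm_num⟩,
      ⟨by linarith, by linarith⟩, ⟨by norm_num, by norm_num⟩, ⟨by linarith, by linarith⟩,
      ⟨by norm_num, by norm_num⟩, ⟨by linarith, by linarith⟩, ⟨by norm_num, by norm_num⟩,
      ⟨by linarith, by linarith⟩, trivial⟩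
  rcases le_total (a * (1 - a)) (2 * θ * (a - g y)) with k | k
  · refine slabA lXA uXA rXA vXA XAc0 XAcC XAcR XAc1 XAc2 XAc3 XAdn XAza XAl0 XAl1 XAu0 XAu1 XAv0
      XAv1 XAf100 XAf200 XAf101 XAf201 XAf110 XAf210 XAf111 XAf211 H x y hx hy ymin xmax W2
      (by linarith) k bx ?_
    simp only [sdXA, List.forall_mem_cons, List.not_mem_nil, false_imp_iff, implies_true, and_true]
    refine ⟨b0, ?_, ?_, ?_, ?_, ?_⟩ <;>
      simp only [es0, ex1, ex2, ex3, ecA, eT, eA, eE, eH, eM, eD, eV, E.val, List.getD_cons_zero,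
        List.getD_cons_succ, Int.cast_one, Int.cast_ofNat] <;> linarith
  · refine slabB lXB uXB vXB XBc1 XBc2 XBc3 XBza XBl0 XBl1 XBu0 XBu1 XBv0 XBv1 XBf100 XBf20 XBf101
      XBf21 XBf110 XBf111 H x y hx hy ymin xmax W2 (by linarith) bx ?_
    simp only [sdXB, List.forall_mem_cons, List.not_mem_nil, false_imp_iff, implies_true, and_true]
    refine ⟨b0, ?_, ?_, ?_, ?_, ?_⟩ <;>
      simp only [es0, ex1, ex2, ex3, ecB, eT, eA, eE, eH, eM, eD, eV, E.val, List.getD_cons_zero,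
        List.getD_cons_succ, Int.cast_one, Int.cast_ofNat] <;> linarith

/-- pivot at the top, mean at least one half -/
theorem zoneY (H : Hyp a θ w g A Φ c Γ) (x y : ι) (ymin : ∀ j, g y ≤ g j) (xmax : ∀ j, g j ≤ g x)
    (t0 : 93 / 200 ≤ θ) (a0 : 1 / 2 ≤ a) (a1 : a ≤ 3 / 5 - 7 / 5 * (1 / 2 - θ))
    (e0 : 3 / 100 ≤ 1 - g x) (h0 : 3 / 100 ≤ g y)
    (e1 : 1 - g x ≤ 3 / 20 - 4 / 5 * (a - 1 / 2) - 3 / 5 * (1 / 2 - θ))
    (sp : 19 / 10 * (a - 1 / 2) + 3 / 10 * (1 / 2 - θ) ≤ g y - (1 - g x)) :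
    Goal a θ w g Φ c Γ := by
  have t1 := H.th1
  have hx : a < g x := by linarith
  have hy := H.low_lt hx ymin
  rcases le_total (g x - g y) (1 - θ) with hn | hn
  · exact H.narrow hx.le hy.le ymin xmax hn
  have W1 := H.w1 x
  have W3 := w_le H x t0 (by linarith)
  have W2 : w x ≤ 2 := by linarith
  have b0 := eB_of H x y W2
  have bx : InBox (([93, 5, 3, 3, 3] : List ℕ).map (fun n : ℕ => (n : ℤ)))
      (([100, 6, 15, 47, 5] : List ℕ).map (fun n : ℕ => (n : ℤ)))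
      (([200, 10, 100, 100, 3] : List ℕ).map (fun n : ℕ => (n : ℤ))) [θ, a, 1 - g x, g y, w x] := by
    simp only [InBox, List.map_cons, List.map_nil]
    push_cast
    exact ⟨⟨by norm_num, by norm_num⟩, ⟨by linarith, by linarith⟩, ⟨by norm_num, by norm_num⟩,
      ⟨by linarith, by linarith⟩, ⟨by norm_num, by norm_num⟩, ⟨by linarith, by linarith⟩,
      ⟨by norm_num, by norm_num⟩, ⟨by linarith, by linarith⟩, ⟨by norm_num, by norm_num⟩,
      ⟨by linarith, by linarith⟩, trivial⟩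
  rcases le_total (a * (1 - a)) (2 * θ * (a - g y)) with k | k
  · refine slabA lYA uYA rYA vYA YAc0 YAcC YAcR YAc1 YAc2 YAc3 YAdn YAza YAl0 YAl1 YAu0 YAu1 YAv0
      YAv1 YAf100 YAf200 YAf101 YAf201 YAf110 YAf210 YAf111 YAf211 H x y hx hy ymin xmax W2
      (by linarith) k bx ?_
    simp only [sdYA, List.forall_mem_cons, List.not_mem_nil, false_imp_iff, implies_true, and_true]
    refine ⟨b0, ?_, ?_, ?_, ?_, ?_⟩ <;>
      simp only [es0, ey1, ey2, ey3, ecA, eT, eA, eE, eH, eM, eD, eV, E.val, List.getD_cons_zero,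
        List.getD_cons_succ, Int.cast_one, Int.cast_ofNat] <;> linarith
  · refine slabB lYB uYB vYB YBc1 YBc2 YBc3 YBza YBl0 YBl1 YBu0 YBu1 YBv0 YBv1 YBf100 YBf20 YBf101
      YBf21 YBf110 YBf111 H x y hx hy ymin xmax W2 (by linarith) bx ?_
    simp only [sdYB, List.forall_mem_cons, List.not_mem_nil, false_imp_iff, implies_true, and_true]
    refine ⟨b0, ?_, ?_, ?_, ?_, ?_⟩ <;>
      simp only [es0, ey1, ey2, ey3, ecB, eT, eA, eE, eH, eM, eD, eV, E.val, List.getD_cons_zero,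
        List.getD_cons_succ, Int.cast_one, Int.cast_ofNat] <;> linarith

/-- the middle zone outside the central block -/
theorem zoneM (H : Hyp a θ w g A Φ c Γ) (x y : ι) (ymin : ∀ j, g y ≤ g j) (xmax : ∀ j, g j ≤ g x)
    (t0 : 93 / 200 ≤ θ) (a0 : 2 / 5 + 7 / 5 * (1 / 2 - θ) ≤ a) (a1 : a ≤ 1 / 2)
    (e0 : 3 / 100 ≤ 1 - g x) (h0 : 3 / 100 ≤ g y)
    (out : 1 - g x ≤ 3 / 20 + 11 / 10 * (1 / 2 - a) - 3 / 10 * (1 / 2 - θ)
      ∨ g y ≤ 3 / 20 - 4 / 5 * (1 / 2 - a) - 3 / 5 * (1 / 2 - θ)) :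
    Goal a θ w g Φ c Γ := by
  rcases le_total (1 - g x - g y) (19 / 10 * (1 / 2 - a) + 3 / 10 * (1 / 2 - θ)) with k | k
  · refine zoneX H x y ymin xmax t0 a0 a1 e0 h0 ?_ k
    rcases out with f | f <;> linarith
  · refine Goal.of_mirror H.cs (zoneY H.mirror y x (fun j => by linarith [xmax j])
      (fun j => by linarith [ymin j]) t0 (by linarith) (by linarith) (by linarith) e0 ?_
      (by linarith))
    rcases out with f | f <;> linarith

end Pool.Agent.Lib.MP_43bc59_co.ZM
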