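import Pool.Agent.Lib.MP_43bc59_co.F_Kit

set_option autoImplicit false

namespace Pool.Agent.Lib.MP_43bc59_co

open Finset

variable {ι : Type} [Fintype ι] [DecidableEq ι] {a θ : ℝ} {w g A Φ : ι → ℝ} {c G : ι → ι → ℝ}

/-- One child looking down: a share `sg` of the budget `s` is spent on the clean bound towards `y`,
the rest on the linear test over the letters of `T`. -/
lemma Hyp.mix_down (H : Hyp a θ w g A Φ c G) (T : Finset ι) {j y : ι} (hj : j ∉ T) (hy : y ∈ T)
    {W : ℝ} (W1 : 1 ≤ W) (W2 : W ≤ 2) (W3 : W ≤ w y) {s sg : ℝ} (sg0 : 0 ≤ sg) (sg1 : sg ≤ s)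
    (n : ι → ℝ)
    (n0 : ∀ l ∈ T, (if l = y then sg * (W - (2 - W) * (1 - g j)) / w y else 0) ≤ n l)
    (n1 : ∀ l ∈ T, n l ≤ (if l = y then sg * (W - (2 - W) * (1 - g j)) / w y else 0) + s - sg) :
    ∑ l ∈ T, n l * (w j * w l * (g j - G j l)) + w j * sg * (2 - W) * (g j * (1 - g j))
      ≤ s * (w j * A j) := by
  have wp : ∀ l, 0 < w l := fun l => by linarith [H.w1 l]
  have hne : ∀ l ∈ T, j ≠ l := fun l hl e => hj (e ▸ hl)
  set C : ι → ℝ := fun l => if l = y then sg * (W - (2 - W) * (1 - g j)) / w y else 0 with hC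
  have h1 : ∑ l ∈ T, C l * (w j * w l * (g j - G j l)) + w j * sg * (2 - W) * (g j * (1 - g j))
      ≤ sg * (w j * A j) := by
    have t := mul_le_mul_of_nonneg_left (H.clean_down (hne y hy) W1 W2 W3)
      (mul_nonneg sg0 (wp j).le)
    simp only [hC, ite_mul, zero_mul, sum_ite_eq', hy, if_true]
    have e : sg * (W - (2 - W) * (1 - g j)) / w y * (w j * w y * (g j - G j y))
        = sg * (W - (2 - W) * (1 - g j)) * (w j * (g j - G j y)) := by
      have := (wp y).ne'
      field_simp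
    rw [e]
    linarith
  have h2 : ∑ l ∈ T, (n l - C l) * (w j * w l * (g j - G j l)) ≤ (s - sg) * (w j * A j) := by
    rcases (sub_nonneg.2 sg1).eq_or_lt with h | h
    · rw [← h, zero_mul]
      refine le_of_eq (sum_eq_zero fun l hl => ?_)
      have e : n l - C l = 0 := by
        have b0 := n0 l hl
        have b1 := n1 l hl
        simp only [hC]
        linarith
      rw [e, zero_mul]
    · have cp : ∀ l ∈ T, 0 < c j l := fun l hl =>
        lt_of_lt_of_le (mul_pos (wp j) (wp l)) (H.cw j l (hne l hl))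
      have t := H.td j
        (fun l => if l ∈ T then (n l - C l) * (w j * w l) / ((s - sg) * c j l) else 0)
        (fun l => by
          split_ifs with hl
          · exact div_nonneg (mul_nonneg (sub_nonneg.2 (n0 l hl)) (mul_pos (wp j) (wp l)).le)
              (mul_pos h (cp l hl)).le
          · exact le_rfl)
        (fun l => by
          split_ifs with hl
          · rw [div_le_one (mul_pos h (cp l hl))]
            refine mul_le_mul ?_ (H.cw j l (hne l hl)) (mul_pos (wp j) (wp l)).le h.le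
            have b1 := n1 l hl
            simp only [hC]
            linarith
          · exact zero_le_one)
        (if_neg hj)
      simp only [ite_mul, zero_mul, sum_ite_mem, univ_inter] at t
      refine le_trans (le_of_eq ?_) (mul_le_mul_of_nonneg_left t h.le)
      rw [mul_sum]
      refine sum_congr rfl fun l hl => ?_
      have b1 := (cp l hl).ne'
      have b2 := h.ne'
      field_simp
  have h3 : ∑ l ∈ T, n l * (w j * w l * (g j - G j l))
      = ∑ l ∈ T, C l * (w j * w l * (g j - G j l))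
        + ∑ l ∈ T, (n l - C l) * (w j * w l * (g j - G j l)) := by
    rw [← sum_add_distrib]; exact sum_congr rfl fun l _ => by ring
  rw [h3]
  linarith

/-- One child looking up. -/
lemma Hyp.mix_up (H : Hyp a θ w g A Φ c G) (T : Finset ι) {l x : ι} (hl : l ∉ T) (hx : x ∈ T)
    {W : ℝ} (W1 : 1 ≤ W) (W2 : W ≤ 2) (W3 : W ≤ w x) {s sg : ℝ} (sg0 : 0 ≤ sg) (sg1 : sg ≤ s)
    (n : ι → ℝ)
    (n0 : ∀ j ∈ T, (if j = x then sg * (W - (2 - W) * g l) / w x else 0) ≤ n j)
    (n1 : ∀ j ∈ T, n j ≤ (if j = x then sg * (W - (2 - W) * g l) / w x else 0) + s - sg) :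
    ∑ j ∈ T, n j * (w l * w j * (G l j - g l)) + w l * sg * (2 - W) * (g l * (1 - g l))
      ≤ s * (w l * A l) := by
  have t := H.mirror.mix_down T hl hx W1 W2 W3 sg0 sg1 n
    (fun j hj => by simpa only [sub_sub_cancel] using n0 j hj)
    (fun j hj => by simpa only [sub_sub_cancel] using n1 j hj)
  have e : ∑ j ∈ T, n j * (w l * w j * (G l j - g l))
      = ∑ j ∈ T, n j * (w l * w j * (1 - g l - (1 - G l j))) :=
    sum_congr rfl fun j _ => by ring
  rw [e]
  linarith

/-- Mixed certificate: clean bounds towards the pivots `x` (in `U`) and `y` (outside `U`) with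
budget `sg`, linear tests with the remaining budget, and the edge term. -/
lemma Hyp.mix (H : Hyp a θ w g A Φ c G) (U : ι → Prop) [DecidablePred U] (x y : ι) (hx : U x)
    (hy : ¬ U y) {W W' : ℝ} (W1 : 1 ≤ W) (W2 : W ≤ 2) (W3 : W ≤ w x) (W1' : 1 ≤ W') (W2' : W' ≤ 2)
    (W3' : W' ≤ w y) (u sg : ι → ℝ) (u0 : ∀ j, 0 ≤ u j) (u1 : ∀ j, u j ≤ θ) (sg0 : ∀ j, 0 ≤ sg j)
    (sg1 : ∀ j, sg j ≤ u j * (2 * θ - u j)) (n : ι → ι → ℝ)
    (p0 : ∀ j l, U j → ¬ U l →
      (if l = y then sg j * (W' - (2 - W') * (1 - g j)) / w y else 0) ≤ n j l)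
    (p1 : ∀ j l, U j → ¬ U l → n j l
      ≤ (if l = y then sg j * (W' - (2 - W') * (1 - g j)) / w y else 0)
        + u j * (2 * θ - u j) - sg j)
    (m0 : ∀ j l, U j → ¬ U l → (if j = x then sg l * (W - (2 - W) * g l) / w x else 0) ≤ n j l)
    (m1 : ∀ j l, U j → ¬ U l → n j l
      ≤ (if j = x then sg l * (W - (2 - W) * g l) / w x else 0) + u l * (2 * θ - u l) - sg l) :
    ∑ j ∈ univ.filter U, ∑ l ∈ univ.filter (fun l => ¬ U l), n j l * (w j * w l * (g j - g l))
      + ∑ j ∈ univ.filter U, w j * sg j * (2 - W') * (g j * (1 - g j))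
      + ∑ l ∈ univ.filter (fun l => ¬ U l), w l * sg l * (2 - W) * (g l * (1 - g l))
      - ∑ j, w j * (u j * (2 - u j) * (g j * (1 - g j)))
      ≤ θ ^ 2 * Ed c G + ∑ j, w j * Φ j := by
  have wp : ∀ l, 0 < w l := fun l => by linarith [H.w1 l]
  have hne : ∀ j l, U j → ¬ U l → j ≠ l := fun j l h1 h2 e => h2 (e ▸ h1)
  have cp : ∀ j l, U j → ¬ U l → 0 < c j l := fun j l h1 h2 =>
    lt_of_lt_of_le (mul_pos (wp j) (wp l)) (H.cw j l (hne j l h1 h2))
  have sl : ∀ j, 0 ≤ W' - (2 - W') * (1 - g j) ∧ W' - (2 - W') * (1 - g j) ≤ w y := fun j => by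
    have b0 := H.g0 j
    have b1 := H.g1 j
    constructor <;> nlinarith
  have n0 : ∀ j l, U j → ¬ U l → 0 ≤ n j l := fun j l h1 h2 => by
    refine le_trans ?_ (p0 j l h1 h2)
    split_ifs
    · exact div_nonneg (mul_nonneg (sg0 j) (sl j).1) (wp y).le
    · exact le_rfl
  have n1 : ∀ j l, U j → ¬ U l → n j l ≤ θ ^ 2 := fun j l h1 h2 => by
    have b1 := p1 j l h1 h2
    have b2 : (if l = y then sg j * (W' - (2 - W') * (1 - g j)) / w y else 0) ≤ sg j := by
      split_ifs
      · rw [div_le_iff₀ (wp y)]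
        exact mul_le_mul_of_nonneg_left (sl j).2 (sg0 j)
      · exact sg0 j
    nlinarith [sq_nonneg (θ - u j)]
  have e := H.Ed_ge (fun j l => if U j ∧ ¬ U l then n j l * (w j * w l) / c j l else 0)
    (fun j l => by
      split_ifs with h
      · exact div_nonneg (mul_nonneg (n0 j l h.1 h.2) (mul_pos (wp j) (wp l)).le)
          (cp j l h.1 h.2).le
      · exact le_rfl)
    (fun j l => by
      split_ifs with h
      · rw [div_le_iff₀ (cp j l h.1 h.2)]
        exact mul_le_mul (n1 j l h.1 h.2) (H.cw j l (hne j l h.1 h.2))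
          (mul_pos (wp j) (wp l)).le (sq_nonneg θ)
      · exact sq_nonneg θ)
    (fun j => if_neg fun h => h.2 h.1)
  have e' : ∑ j, ∑ l, (if U j ∧ ¬ U l then n j l * (w j * w l) / c j l else 0)
        * (c j l * (G j l - G l j))
      = ∑ j ∈ univ.filter U, ∑ l ∈ univ.filter (fun l => ¬ U l),
        n j l * (w j * w l * (G j l - G l j)) := by
    rw [sum_filter]
    refine sum_congr rfl fun j _ => ?_
    by_cases h1 : U j
    · rw [if_pos h1, sum_filter]
      refine sum_congr rfl fun l _ => ?_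
      by_cases h2 : U l
      · rw [if_neg (fun h => h.2 h2), if_neg (not_not.2 h2), zero_mul]
      · rw [if_pos ⟨h1, h2⟩, if_pos h2]
        have := (cp j l h1 h2).ne'
        field_simp
    · rw [if_neg h1]
      exact sum_eq_zero fun l _ => by rw [if_neg (fun h => h1 h.1), zero_mul]
  rw [e'] at e
  have k1 := sum_le_sum (s := univ.filter U) fun j hj =>
    H.mix_down (univ.filter fun l => ¬ U l) (j := j) (y := y)
      (fun h => (mem_filter.1 h).2 (mem_filter.1 hj).2) (mem_filter.2 ⟨mem_univ _, hy⟩)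
      W1' W2' W3' (sg0 j) (sg1 j) (n j)
      (fun l hl => p0 j l (mem_filter.1 hj).2 (mem_filter.1 hl).2)
      (fun l hl => p1 j l (mem_filter.1 hj).2 (mem_filter.1 hl).2)
  have k2 := sum_le_sum (s := univ.filter fun l => ¬ U l) fun l hl =>
    H.mix_up (univ.filter U) (l := l) (x := x)
      (fun h => (mem_filter.1 hl).2 (mem_filter.1 h).2) (mem_filter.2 ⟨mem_univ _, hx⟩)
      W1 W2 W3 (sg0 l) (sg1 l) (fun j => n j l)
      (fun j hj => m0 j l (mem_filter.1 hj).2 (mem_filter.1 hl).2)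
      (fun j hj => m1 j l (mem_filter.1 hj).2 (mem_filter.1 hl).2)
  rw [sum_add_distrib] at k1 k2
  rw [sum_comm] at k2
  have k3 : ∑ j ∈ univ.filter U, ∑ l ∈ univ.filter (fun l => ¬ U l),
        n j l * (w j * w l * (g j - g l))
      = ∑ j ∈ univ.filter U, ∑ l ∈ univ.filter (fun l => ¬ U l),
          n j l * (w j * w l * (g j - G j l))
        + ∑ j ∈ univ.filter U, ∑ l ∈ univ.filter (fun l => ¬ U l),
          n j l * (w l * w j * (G l j - g l))
        + ∑ j ∈ univ.filter U, ∑ l ∈ univ.filter (fun l => ¬ U l),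
          n j l * (w j * w l * (G j l - G l j)) := by
    rw [← sum_add_distrib, ← sum_add_distrib]
    refine sum_congr rfl fun j _ => ?_
    rw [← sum_add_distrib, ← sum_add_distrib]
    exact sum_congr rfl fun l _ => by ring
  have k4 : ∑ j, u j * (2 * θ - u j) * (w j * A j)
      - ∑ j, w j * (u j * (2 - u j) * (g j * (1 - g j))) ≤ ∑ j, w j * Φ j := by
    rw [← sum_sub_distrib]
    refine sum_le_sum (fun j _ => ?_)
    have := mul_le_mul_of_nonneg_left (H.ch j (u j) (u0 j) (u1 j)) (wp j).le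
    linarith
  have k5 := sum_filter_add_sum_filter_not univ U fun j => u j * (2 * θ - u j) * (w j * A j)
  linarith

/-- Leftover letters. -/
lemma leftover {κ : Type} (T : Finset κ) (w d val : κ → ℝ) {R m η Ψ L Lb Lp q : ℝ}
    (w1 : ∀ l ∈ T, 1 ≤ w l) (d0 : ∀ l ∈ T, 0 ≤ d l) (hR : ∑ l ∈ T, w l * d l ≤ R) (m0 : 0 < m)
    (hv : ∀ l ∈ T, -η * d l + Ψ * min 1 (d l / m) + Lb * d l * (1 - min 1 (d l / m)) ≤ val l)
    (L1 : L ≤ Lb) (P0 : 0 ≤ Ψ + Lp) (P1 : Ψ + Lp ≤ (η - Lb) * m) (q1 : q ≤ 1) (q2 : q * m ≤ R) :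
    (L - η) * R + q * (Ψ + Lp) ≤ ∑ l ∈ T, w l * (val l + min 1 (d l / m) * (L * d l + Lp)) := by
  have b0 : ∀ l ∈ T, 0 ≤ min 1 (d l / m) := fun l hl =>
    le_min zero_le_one (div_nonneg (d0 l hl) m0.le)
  have h1 : (L - η) * ∑ l ∈ T, w l * d l + (Ψ + Lp) * ∑ l ∈ T, w l * min 1 (d l / m)
      ≤ ∑ l ∈ T, w l * (val l + min 1 (d l / m) * (L * d l + Lp)) := by
    rw [mul_sum, mul_sum, ← sum_add_distrib]
    refine sum_le_sum fun l hl => ?_
    have t : (L - η) * d l + (Ψ + Lp) * min 1 (d l / m)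
        ≤ val l + min 1 (d l / m) * (L * d l + Lp) := by
      have := mul_nonneg (mul_nonneg (sub_nonneg.2 L1) (d0 l hl))
        (sub_nonneg.2 (min_le_left 1 (d l / m)))
      nlinarith [hv l hl]
    have := mul_le_mul_of_nonneg_left t (show 0 ≤ w l by linarith [w1 l hl])
    linarith
  have e0 : 0 ≤ η - Lb := by
    by_contra h
    have := mul_neg_of_neg_of_pos (not_le.1 h) m0
    linarith
  have r0 : 0 ≤ R - ∑ l ∈ T, w l * d l := sub_nonneg.2 hR
  refine le_trans ?_ h1
  by_cases hc : ∃ l ∈ T, m ≤ d l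
  · obtain ⟨l, hl, hm⟩ := hc
    have t : w l * min 1 (d l / m) ≤ ∑ l ∈ T, w l * min 1 (d l / m) :=
      single_le_sum (f := fun l => w l * min 1 (d l / m))
        (fun l hl => mul_nonneg (by linarith [w1 l hl]) (b0 l hl)) hl
    rw [min_eq_left ((one_le_div m0).2 hm), mul_one] at t
    have t1 : q ≤ ∑ l ∈ T, w l * min 1 (d l / m) := by linarith [w1 l hl]
    have t2 := mul_le_mul_of_nonneg_left t1 P0
    have t3 := mul_nonneg (show 0 ≤ η - L by linarith) r0
    nlinarith
  · have t : ∑ l ∈ T, w l * min 1 (d l / m) = (∑ l ∈ T, w l * d l) / m := by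
      rw [sum_div]
      refine sum_congr rfl fun l hl => ?_
      have : d l ≤ m := by
        by_contra h
        exact hc ⟨l, hl, (not_le.1 h).le⟩
      rw [min_eq_right ((div_le_one m0).2 this), mul_div_assoc]
    rw [t]
    set D := ∑ l ∈ T, w l * d l with hD
    have t1 : (Ψ + Lp) / m ≤ η - L := by
      rw [div_le_iff₀ m0]
      nlinarith
    have t2 := mul_le_mul_of_nonneg_right t1 r0
    have t3 : q ≤ R / m := by rw [le_div_iff₀ m0]; exact q2
    have t4 := mul_le_mul_of_nonneg_left t3 P0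
    have t5 : (Ψ + Lp) / m * (R - D) = (Ψ + Lp) * (R / m) - (Ψ + Lp) * (D / m) := by ring
    nlinarith

end Pool.Agent.Lib.MP_43bc59_co
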