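import Pool.Agent.Lib.MP_43bc59_co.Bk

set_option autoImplicit false
set_option maxRecDepth 100000

namespace Pool.Agent.Lib.MP_43bc59_co.P18

open Bx

def Nap_p0 : E :=
  (.s (.s (.s (.s (.s (.a (.a (.m (.a (.c 1) (.v 2)) (.s (.s (.c 1) (.v 0)) (.v 1))) (.m (.m (.s
  (.c 1) (.v 2)) (.v 0)) (.v 1))) (.v 3)) (.m (.m (.a (.c 1) (.v 2)) (.s (.s (.c 1) (.v 0)) (.v
  1))) (.s (.s (.c 1) (.v 0)) (.v 1)))) (.m (.a (.v 3) (.m (.m (.s (.c 1) (.v 2)) (.v 0)) (.v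
  1))) (.a (.v 3) (.m (.m (.s (.c 1) (.v 2)) (.v 0)) (.v 1))))) (.m (.m (.v 0) (.s (.c 2) (.v
  0))) (.m (.m (.a (.c 1) (.v 2)) (.s (.c 1) (.v 1))) (.v 1)))) (.m (.m (.c 2) (.v 0)) (.v 3)))
  (.m (.v 0) (.a (.m (.a (.c 1) (.v 2)) (.s (.s (.c 1) (.v 0)) (.v 1))) (.m (.m (.s (.c 1) (.v
  2)) (.v 0)) (.v 1)))))

def Nap_c0 : E :=
  (.s (.m (.c 112) (.a (.a (.m (.a (.c 1) (.v 2)) (.s (.s (.c 1) (.v 0)) (.v 1))) (.m (.m (.s (.c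
  1) (.v 2)) (.v 0)) (.v 1))) (.v 3))) (.m (.c 240) (.m (.v 0) (.s (.c 1) (.v 0)))))

def Nap_c1 : E :=
  (.s (.m (.c 240) (.m (.v 0) (.s (.c 1) (.v 0)))) (.m (.c 108) (.a (.a (.m (.a (.c 1) (.v 2))
  (.s (.s (.c 1) (.v 0)) (.v 1))) (.m (.m (.s (.c 1) (.v 2)) (.v 0)) (.v 1))) (.v 3))))

def Nap_c2 : E :=
  (.s (.m (.c 20) (.m (.v 0) (.s (.c 1) (.v 0)))) (.m (.s (.m (.c 20) (.v 0)) (.c 1)) (.a (.a (.m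
  (.a (.c 1) (.v 2)) (.s (.s (.c 1) (.v 0)) (.v 1))) (.m (.m (.s (.c 1) (.v 2)) (.v 0)) (.v 1)))
  (.v 3))))

def Nap_c3 : E :=
  (.s (.m (.c 500) (.m (.v 0) (.s (.c 1) (.v 0)))) (.m (.a (.s (.m (.c 1000) (.v 1)) (.c 1064))
  (.m (.c 2700) (.v 0))) (.a (.a (.m (.a (.c 1) (.v 2)) (.s (.s (.c 1) (.v 0)) (.v 1))) (.m (.m
  (.s (.c 1) (.v 2)) (.v 0)) (.v 1))) (.v 3))))

def Nap_c4 : E :=
  (.s (.a (.m (.a (.c 1) (.v 2)) (.s (.s (.c 1) (.v 0)) (.v 1))) (.m (.m (.s (.c 1) (.v 2)) (.v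
  0)) (.v 1))) (.s (.c 1) (.v 0)))

def Nap_t : Tr :=
  (.nd 3 (.nd 1 (.nd 3 (.lf [1024, 0, -16, 0, -2, 0]) (.nd 1 (.nd 3 (.lf [1024, 0, -17, 0, -1,
  -2010]) (.nd 0 (.lf [64, 0, -1, 0, 0, -55]) (.nd 1 (.nd 2 (.lf [262144, 0, -131, 0, -43, 0])
  (.lf [256, 0, -1, 0, 0, 0])) (.lf [256, 0, -15, 0, -2, -1941])))) (.nd 3 (.lf [64, 0, -1, 0, 0,
  -95]) (.nd 1 (.nd 0 (.lf [256, 0, -1, 0, 0, -77]) (.nd 2 (.nd 3 (.lf [1024, 0, -137, 0, -9,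
  -16897]) (.nd 1 (.lf [16384, 0, -4, 0, -1, 0]) (.lf [65536, 0, -19, 0, -7, 0]))) (.lf [1024, 0,
  -1, 0, 0, 0]))) (.nd 3 (.lf [4096, 0, -1, 0, 0, 0]) (.nd 0 (.lf [1024, 0, -2, 0, 0, 0]) (.nd 1
  (.nd 0 (.lf [64, 0, -2, 0, 0, -169]) (.nd 2 (.nd 3 (.lf [4096, 0, -1, 0, 0, 0]) (.nd 1 (.lf
  [16384, 0, -3, 0, 0, 0]) (.lf [16384, 0, -2, 0, -1, 0]))) (.lf [1024, 0, -1, 0, 0, 0]))) (.nd 1
  (.lf [16384, 0, -2, 0, 0, 0]) (.nd 3 (.lf [16384, 0, -1, 0, 0, 0]) (.nd 2 (.nd 3 (.lf [16384,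
  0, -1, 0, 0, 0]) (.nd 2 (.lf [4096, 0, -1, 0, 0, 0]) (.nd 0 (.lf [1, 0, 0, 0, 0, 0]) (.nd 2
  (.lf [16384, 0, -2, 0, 0, 0]) (.lf [1, 0, 0, 0, 0, 0]))))) (.lf [4096, 0, -1, 0, 0,
  0]))))))))))) (.lf [256, 0, -19, 0, -3, -2229])) (.lf [1024, 0, -19, 0, -2, 0]))

theorem Nap_k : chk3 107 [2, 2, 2, 2] [38, 0, 0, 0] [47, 1, 1, 1] [100, 4, 1, 3] ([Nap_p0] ++ [Nap_c0, Nap_c1, Nap_c2, Nap_c3, Nap_c4])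
    (okN (List.length [Nap_p0])) (fun u => [u]) Nap_t = true := by decide +kernel

theorem Nap (a e o h : ℝ)
    (l0 : (38 : ℝ) ≤ 100 * a) (u0 : 100 * a ≤ 47)
    (l1 : (0 : ℝ) ≤ 4 * e) (u1 : 4 * e ≤ 1)
    (l2 : (0 : ℝ) ≤ o) (u2 : o ≤ 1)
    (l3 : (0 : ℝ) ≤ 3 * h) (u3 : 3 * h ≤ 1)
    (c0 : 0 ≤ (112 * ((((1 + o) * ((1 - a) - e)) + (((1 - o) * a) * e)) + h)) - (240 * (a * (1 -
    a))))
    (c1 : 0 ≤ (240 * (a * (1 - a))) - (108 * ((((1 + o) * ((1 - a) - e)) + (((1 - o) * a) * e)) +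
    h)))
    (c2 : 0 ≤ (20 * (a * (1 - a))) - (((20 * a) - 1) * ((((1 + o) * ((1 - a) - e)) + (((1 - o) *
    a) * e)) + h)))
    (c3 : 0 ≤ (500 * (a * (1 - a))) - ((((1000 * e) - 1064) + (2700 * a)) * ((((1 + o) * ((1 - a)
    - e)) + (((1 - o) * a) * e)) + h)))
    (c4 : 0 ≤ (((1 + o) * ((1 - a) - e)) + (((1 - o) * a) * e)) - (1 - a))
    :
    0 ≤ ((((((((1 + o) * ((1 - a) - e)) + (((1 - o) * a) * e)) + h) - (((1 + o) * ((1 - a) - e))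
    * ((1 - a) - e))) - ((h + (((1 - o) * a) * e)) * (h + (((1 - o) * a) * e)))) - ((a * (2 - a))
    * (((1 + o) * (1 - e)) * e))) - ((2 * a) * h)) - (a * (((1 + o) * ((1 - a) - e)) + (((1 - o)
    * a) * e))) := by
  have hbx := some_nonneg3 Nap_k [a, e, o, h] rfl
    (by simp only [InBox]; push_cast; exact ⟨⟨by norm_num, by norm_num⟩, ⟨by linarith, by
    linarith⟩, ⟨by norm_num, by norm_num⟩, ⟨by linarith, by linarith⟩, ⟨by norm_num, by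
    norm_num⟩, ⟨by linarith, by linarith⟩, ⟨by norm_num, by norm_num⟩, ⟨by linarith, by
    linarith⟩, trivial⟩)
    (by simp only [List.forall_mem_cons, List.not_mem_nil, false_imp_iff, implies_true, and_true,
    Nap_p0, Nap_c0, Nap_c1, Nap_c2, Nap_c3, Nap_c4, E.val, List.getD_cons_zero,
    List.getD_cons_succ, Int.cast_ofNat, Int.cast_one, Int.cast_zero]; exact ⟨c0, c1, c2, c3,
    c4⟩)
  simpa only [List.mem_cons, List.not_mem_nil, or_false, exists_eq_or_imp, exists_eq_left,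
  Nap_p0, Nap_c0, Nap_c1, Nap_c2, Nap_c3, Nap_c4, E.val, List.getD_cons_zero,
  List.getD_cons_succ, Int.cast_ofNat, Int.cast_one, Int.cast_zero] using hbx

def Naz_p0 : E :=
  (.s (.m (.c 900) (.s (.s (.s (.a (.a (.m (.a (.c 1) (.v 2)) (.s (.s (.c 1) (.v 0)) (.v 1))) (.m
  (.m (.s (.c 1) (.v 2)) (.v 0)) (.v 1))) (.v 3)) (.m (.v 0) (.s (.c 1) (.v 0)))) (.m (.m (.a (.c
  1) (.v 2)) (.s (.s (.c 1) (.v 0)) (.v 1))) (.s (.s (.c 1) (.v 0)) (.v 1)))) (.m (.a (.v 3) (.m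
  (.m (.s (.c 1) (.v 2)) (.v 0)) (.v 1))) (.a (.v 3) (.m (.m (.s (.c 1) (.v 2)) (.v 0)) (.v
  1)))))) (.a (.a (.m (.m (.m (.c 225) (.s (.c 8) (.m (.v 1) (.v 1)))) (.v 0)) (.v 3)) (.m (.m
  (.c 100) (.m (.s (.c 2) (.v 1)) (.s (.c 2) (.v 1)))) (.s (.s (.c 1) (.v 0)) (.a (.m (.a (.c 1)
  (.v 2)) (.s (.s (.c 1) (.v 0)) (.v 1))) (.m (.m (.s (.c 1) (.v 2)) (.v 0)) (.v 1)))))) (.m (.m
  (.c 36) (.m (.s (.c 2) (.v 1)) (.s (.c 2) (.v 1)))) (.m (.m (.a (.c 1) (.v 2)) (.s (.c 1) (.v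
  1))) (.v 1)))))

def Naz_c0 : E :=
  (.s (.m (.c 112) (.a (.a (.m (.a (.c 1) (.v 2)) (.s (.s (.c 1) (.v 0)) (.v 1))) (.m (.m (.s (.c
  1) (.v 2)) (.v 0)) (.v 1))) (.v 3))) (.m (.c 240) (.m (.v 0) (.s (.c 1) (.v 0)))))

def Naz_c1 : E :=
  (.s (.m (.c 240) (.m (.v 0) (.s (.c 1) (.v 0)))) (.m (.c 108) (.a (.a (.m (.a (.c 1) (.v 2))
  (.s (.s (.c 1) (.v 0)) (.v 1))) (.m (.m (.s (.c 1) (.v 2)) (.v 0)) (.v 1))) (.v 3))))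

def Naz_c2 : E :=
  (.s (.m (.c 20) (.m (.v 0) (.s (.c 1) (.v 0)))) (.m (.s (.m (.c 20) (.v 0)) (.c 1)) (.a (.a (.m
  (.a (.c 1) (.v 2)) (.s (.s (.c 1) (.v 0)) (.v 1))) (.m (.m (.s (.c 1) (.v 2)) (.v 0)) (.v 1)))
  (.v 3))))

def Naz_c3 : E :=
  (.s (.m (.c 500) (.m (.v 0) (.s (.c 1) (.v 0)))) (.m (.a (.s (.m (.c 1000) (.v 1)) (.c 1064))
  (.m (.c 2700) (.v 0))) (.a (.a (.m (.a (.c 1) (.v 2)) (.s (.s (.c 1) (.v 0)) (.v 1))) (.m (.m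
  (.s (.c 1) (.v 2)) (.v 0)) (.v 1))) (.v 3))))

def Naz_c4 : E :=
  (.s (.s (.c 1) (.v 0)) (.a (.m (.a (.c 1) (.v 2)) (.s (.s (.c 1) (.v 0)) (.v 1))) (.m (.m (.s
  (.c 1) (.v 2)) (.v 0)) (.v 1))))

def Naz_t : Tr :=
  (.nd 3 (.nd 2 (.nd 2 (.lf [4, 0, 0, 0, -1, 0]) (.nd 3 (.lf [1, 0, -26, 0, -3, 0]) (.nd 1 (.nd 2
  (.lf [1, 0, 0, 0, 0, 0]) (.nd 3 (.lf [16, 0, -23, 0, -3, 0]) (.lf [1, 0, 0, 0, 0, 0]))) (.nd 0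
  (.nd 2 (.lf [1, 0, 0, 0, 0, 0]) (.nd 3 (.lf [64, 0, -38, 0, -19, 0]) (.lf [4, -6, 0, 0, 0,
  0]))) (.lf [16, -5, 0, 0, -5, 0]))))) (.lf [1, 0, 0, 0, 0, 0])) (.lf [1, 0, -13, 0, -2, 0]))

theorem Naz_k : chk3 85 [2, 4, 2, 2] [38, 0, 0, 0] [47, 1, 1, 1] [100, 4, 1, 3] ([Naz_p0] ++ [Naz_c0, Naz_c1, Naz_c2, Naz_c3, Naz_c4])
    (okN (List.length [Naz_p0])) (fun u => [u]) Naz_t = true := by decide +kernel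

theorem Naz (a e o h : ℝ)
    (l0 : (38 : ℝ) ≤ 100 * a) (u0 : 100 * a ≤ 47)
    (l1 : (0 : ℝ) ≤ 4 * e) (u1 : 4 * e ≤ 1)
    (l2 : (0 : ℝ) ≤ o) (u2 : o ≤ 1)
    (l3 : (0 : ℝ) ≤ 3 * h) (u3 : 3 * h ≤ 1)
    (c0 : 0 ≤ (112 * ((((1 + o) * ((1 - a) - e)) + (((1 - o) * a) * e)) + h)) - (240 * (a * (1 -
    a))))
    (c1 : 0 ≤ (240 * (a * (1 - a))) - (108 * ((((1 + o) * ((1 - a) - e)) + (((1 - o) * a) * e)) +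
    h)))
    (c2 : 0 ≤ (20 * (a * (1 - a))) - (((20 * a) - 1) * ((((1 + o) * ((1 - a) - e)) + (((1 - o) *
    a) * e)) + h)))
    (c3 : 0 ≤ (500 * (a * (1 - a))) - ((((1000 * e) - 1064) + (2700 * a)) * ((((1 + o) * ((1 - a)
    - e)) + (((1 - o) * a) * e)) + h)))
    (c4 : 0 ≤ (1 - a) - (((1 + o) * ((1 - a) - e)) + (((1 - o) * a) * e)))
    :
    0 ≤ (900 * (((((((1 + o) * ((1 - a) - e)) + (((1 - o) * a) * e)) + h) - (a * (1 - a))) - (((1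
    + o) * ((1 - a) - e)) * ((1 - a) - e))) - ((h + (((1 - o) * a) * e)) * (h + (((1 - o) * a) *
    e))))) - (((((225 * (8 - (e * e))) * a) * h) + ((100 * ((2 - e) * (2 - e))) * ((1 - a) - (((1
    + o) * ((1 - a) - e)) + (((1 - o) * a) * e))))) + ((36 * ((2 - e) * (2 - e))) * (((1 + o) *
    (1 - e)) * e))) := by
  have hbx := some_nonneg3 Naz_k [a, e, o, h] rfl
    (by simp only [InBox]; push_cast; exact ⟨⟨by norm_num, by norm_num⟩, ⟨by linarith, by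
    linarith⟩, ⟨by norm_num, by norm_num⟩, ⟨by linarith, by linarith⟩, ⟨by norm_num, by
    norm_num⟩, ⟨by linarith, by linarith⟩, ⟨by norm_num, by norm_num⟩, ⟨by linarith, by
    linarith⟩, trivial⟩)
    (by simp only [List.forall_mem_cons, List.not_mem_nil, false_imp_iff, implies_true, and_true,
    Naz_p0, Naz_c0, Naz_c1, Naz_c2, Naz_c3, Naz_c4, E.val, List.getD_cons_zero,
    List.getD_cons_succ, Int.cast_ofNat, Int.cast_one, Int.cast_zero]; exact ⟨c0, c1, c2, c3,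
    c4⟩)
  simpa only [List.mem_cons, List.not_mem_nil, or_false, exists_eq_or_imp, exists_eq_left,
  Naz_p0, Naz_c0, Naz_c1, Naz_c2, Naz_c3, Naz_c4, E.val, List.getD_cons_zero,
  List.getD_cons_succ, Int.cast_ofNat, Int.cast_one, Int.cast_zero] using hbx

def Naa_p0 : E :=
  (.s (.m (.c 900) (.s (.s (.s (.a (.a (.m (.a (.c 1) (.v 2)) (.s (.s (.c 1) (.v 0)) (.v 1))) (.m
  (.m (.s (.c 1) (.v 2)) (.v 0)) (.v 1))) (.v 3)) (.m (.v 0) (.s (.c 1) (.v 0)))) (.m (.m (.a (.c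
  1) (.v 2)) (.s (.s (.c 1) (.v 0)) (.v 1))) (.s (.s (.c 1) (.v 0)) (.v 1)))) (.m (.a (.v 3) (.m
  (.m (.s (.c 1) (.v 2)) (.v 0)) (.v 1))) (.a (.v 3) (.m (.m (.s (.c 1) (.v 2)) (.v 0)) (.v
  1)))))) (.a (.s (.a (.m (.m (.m (.c 225) (.s (.c 8) (.m (.v 1) (.v 1)))) (.v 0)) (.v 3)) (.m
  (.m (.m (.m (.c 225) (.v 1)) (.v 1)) (.v 0)) (.a (.a (.m (.a (.c 1) (.v 2)) (.s (.s (.c 1) (.v
  0)) (.v 1))) (.m (.m (.s (.c 1) (.v 2)) (.v 0)) (.v 1))) (.v 3)))) (.m (.m (.m (.c 25) (.m (.s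
  (.c 2) (.v 1)) (.s (.c 2) (.v 1)))) (.s (.s (.c 1) (.v 0)) (.a (.m (.a (.c 1) (.v 2)) (.s (.s
  (.c 1) (.v 0)) (.v 1))) (.m (.m (.s (.c 1) (.v 2)) (.v 0)) (.v 1))))) (.s (.m (.c 16) (.v 0))
  (.c 4)))) (.m (.a (.s (.m (.m (.c 900) (.s (.c 2) (.v 1))) (.v 0)) (.m (.m (.c 180) (.m (.s (.c
  2) (.v 1)) (.s (.c 2) (.v 1)))) (.v 0))) (.m (.c 36) (.m (.s (.c 2) (.v 1)) (.s (.c 2) (.v
  1))))) (.m (.m (.a (.c 1) (.v 2)) (.s (.c 1) (.v 1))) (.v 1)))))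

def Naa_c0 : E :=
  (.s (.m (.c 112) (.a (.a (.m (.a (.c 1) (.v 2)) (.s (.s (.c 1) (.v 0)) (.v 1))) (.m (.m (.s (.c
  1) (.v 2)) (.v 0)) (.v 1))) (.v 3))) (.m (.c 240) (.m (.v 0) (.s (.c 1) (.v 0)))))

def Naa_c1 : E :=
  (.s (.m (.c 240) (.m (.v 0) (.s (.c 1) (.v 0)))) (.m (.c 108) (.a (.a (.m (.a (.c 1) (.v 2))
  (.s (.s (.c 1) (.v 0)) (.v 1))) (.m (.m (.s (.c 1) (.v 2)) (.v 0)) (.v 1))) (.v 3))))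

def Naa_c2 : E :=
  (.s (.m (.c 20) (.m (.v 0) (.s (.c 1) (.v 0)))) (.m (.s (.m (.c 20) (.v 0)) (.c 1)) (.a (.a (.m
  (.a (.c 1) (.v 2)) (.s (.s (.c 1) (.v 0)) (.v 1))) (.m (.m (.s (.c 1) (.v 2)) (.v 0)) (.v 1)))
  (.v 3))))

def Naa_c3 : E :=
  (.s (.m (.c 500) (.m (.v 0) (.s (.c 1) (.v 0)))) (.m (.a (.s (.m (.c 1000) (.v 1)) (.c 1064))
  (.m (.c 2700) (.v 0))) (.a (.a (.m (.a (.c 1) (.v 2)) (.s (.s (.c 1) (.v 0)) (.v 1))) (.m (.m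
  (.s (.c 1) (.v 2)) (.v 0)) (.v 1))) (.v 3))))

def Naa_c4 : E :=
  (.s (.s (.c 1) (.v 0)) (.a (.m (.a (.c 1) (.v 2)) (.s (.s (.c 1) (.v 0)) (.v 1))) (.m (.m (.s
  (.c 1) (.v 2)) (.v 0)) (.v 1))))

def Naa_t : Tr :=
  (.nd 3 (.nd 1 (.nd 3 (.lf [1, 0, -10, 0, -1, 0]) (.nd 2 (.nd 3 (.nd 2 (.lf [4, 0, -4, 0, -1,
  0]) (.nd 1 (.nd 0 (.lf [4, 0, -1, 0, 0, 0]) (.nd 2 (.lf [4, 0, -7, 0, -2, 0]) (.nd 3 (.nd 1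
  (.nd 2 (.lf [4, 0, -6, 0, -1, 0]) (.nd 2 (.lf [4, 0, -17, 0, -2, 0]) (.nd 3 (.lf [1, 0, -7, 0,
  -1, 0]) (.nd 2 (.lf [1, 0, -9, 0, -1, 0]) (.nd 0 (.nd 0 (.lf [256, 0, -61, 0, -42, 0]) (.lf [1,
  0, 0, 0, 0, 0])) (.lf [16, 0, -19, 0, -5, 0])))))) (.nd 0 (.nd 2 (.lf [4, 0, -4, 0, -1, 0])
  (.nd 3 (.lf [1, 0, -8, 0, -1, 0]) (.nd 2 (.lf [4, 0, -12, 0, -2, 0]) (.nd 0 (.nd 1 (.lf [64, 0,
  -14, 0, -14, 0]) (.lf [4, 0, 0, 0, -1, 0])) (.lf [256, 0, -49, 0, -51, 0]))))) (.lf [1, 0, 0,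
  0, -2, 0]))) (.lf [1, 0, -8, 0, -1, 0])))) (.lf [4, 0, -95, 0, -10, 0]))) (.nd 1 (.nd 0 (.lf
  [1, 0, 0, 0, 0, 0]) (.nd 2 (.lf [4, 0, -2, 0, -1, 0]) (.nd 1 (.nd 2 (.lf [4, 0, -4, 0, -1, 0])
  (.nd 3 (.nd 0 (.nd 2 (.lf [1, 0, 0, 0, 0, 0]) (.nd 3 (.lf [256, 0, 0, 0, -27, 0]) (.nd 2 (.lf
  [64, 0, 0, 0, -1, 0]) (.nd 1 (.lf [64, 0, 0, 0, -9, 0]) (.lf [1, 0, 0, 0, 0, 0]))))) (.nd 2
  (.lf [1, 0, -5, 0, -1, 0]) (.nd 3 (.nd 0 (.nd 2 (.lf [4, 0, 0, 0, -1, 0]) (.nd 1 (.lf [256,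
  -39, 0, 0, -37, 0]) (.lf [1024, 0, 0, 0, -125, 0]))) (.lf [1, -5, 0, 0, -2, 0])) (.nd 0 (.nd 2
  (.lf [4, 0, -12, 0, -2, 0]) (.nd 1 (.lf [16, 0, 0, 0, -3, 0]) (.lf [256, 0, 0, 0, -37, 0])))
  (.lf [1, 0, 0, 0, -2, 0]))))) (.nd 0 (.lf [1, 0, 0, 0, 0, 0]) (.nd 3 (.nd 1 (.lf [16, -7, 0, 0,
  -2, 0]) (.lf [64, -29, 0, 0, -5, 0])) (.lf [64, -30, 0, 0, -5, 0]))))) (.nd 0 (.nd 3 (.nd 2
  (.lf [4, 0, 0, 0, -1, 0]) (.nd 2 (.lf [16, 0, -21, 0, -6, 0]) (.nd 3 (.nd 0 (.nd 1 (.lf [64,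
  -14, 0, 0, -9, 0]) (.lf [16, -3, 0, 0, -3, 0])) (.lf [16, 0, 0, 0, -2, 0])) (.nd 0 (.nd 2 (.lf
  [4, 0, 0, 0, -1, 0]) (.nd 1 (.lf [16, 0, 0, 0, -3, 0]) (.lf [4, 0, 0, 0, -1, 0]))) (.lf [64, 0,
  0, 0, -10, 0]))))) (.lf [256, -109, 0, 0, -26, 0])) (.lf [1, -9, 0, 0, -4, 0]))))) (.nd 0 (.lf
  [1, 0, 0, 0, 0, 0]) (.nd 2 (.lf [1, 0, 0, 0, 0, 0]) (.nd 3 (.nd 2 (.lf [64, 0, 0, 0, -1, 0])
  (.nd 1 (.nd 0 (.lf [1, 0, 0, 0, 0, 0]) (.nd 2 (.lf [16, 0, 0, 0, -2, 0]) (.nd 3 (.nd 2 (.lf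
  [16, 0, -2, 0, -2, 0]) (.nd 1 (.nd 0 (.lf [1, 0, 0, 0, 0, 0]) (.lf [256, 0, 0, 0, -22, 0]))
  (.nd 0 (.lf [16, 0, 0, 0, -1, 0]) (.lf [16, 0, 0, 0, -2, 0])))) (.nd 2 (.lf [4, 0, -4, 0, -1,
  0]) (.nd 1 (.nd 2 (.lf [4, 0, -6, 0, -1, 0]) (.nd 0 (.lf [1, 0, 0, 0, 0, 0]) (.lf [64, 0, 0, 0,
  -7, 0]))) (.nd 0 (.lf [256, 0, -34, 0, -31, 0]) (.lf [64, 0, 0, 0, -9, 0]))))))) (.nd 2 (.lf
  [1, 0, 0, 0, 0, 0]) (.nd 3 (.lf [64, 0, 0, 0, -2, 0]) (.nd 0 (.lf [1, 0, 0, 0, 0, 0]) (.lf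
  [256, 0, -50, 0, -18, 0])))))) (.nd 1 (.nd 0 (.lf [1, 0, 0, 0, 0, 0]) (.nd 3 (.nd 2 (.lf [1, 0,
  0, 0, 0, 0]) (.nd 1 (.lf [256, -106, 0, 0, -7, 0]) (.lf [64, -30, 0, 0, -3, 0]))) (.lf [64,
  -25, 0, 0, -1, 0]))) (.nd 2 (.lf [1, 0, 0, 0, 0, 0]) (.nd 3 (.lf [1, 0, 0, 0, 0, 0]) (.nd 2
  (.lf [1, 0, 0, 0, 0, 0]) (.nd 0 (.lf [1, 0, 0, 0, 0, 0]) (.nd 1 (.lf [16, -1, 0, 0, 0, 0]) (.lf
  [1, 0, 0, 0, 0, 0])))))))))))) (.lf [4, 0, -1, 0, -1, 0]))) (.nd 3 (.lf [1, 0, -44, 0, -6, 0])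
  (.nd 2 (.nd 1 (.nd 0 (.nd 3 (.nd 2 (.lf [4, 0, 0, 0, -1, 0]) (.nd 2 (.lf [4, 0, -6, 0, -2, 0])
  (.nd 3 (.nd 0 (.nd 1 (.nd 2 (.lf [1, 0, -4, 0, -1, 0]) (.nd 0 (.lf [64, 0, -8, 0, -17, 0]) (.lf
  [256, 0, 0, 0, -78, 0]))) (.lf [1024, 0, -216, 0, -237, 0])) (.lf [1, 0, 0, 0, 0, 0])) (.lf [1,
  0, -10, 0, -1, 0])))) (.nd 2 (.lf [16, 0, -9, 0, -6, 0]) (.nd 3 (.nd 2 (.lf [4, 0, -8, 0, -2,
  0]) (.nd 0 (.nd 1 (.nd 3 (.lf [16, -8, 0, 0, -3, 0]) (.nd 0 (.lf [64, -3, 0, 0, -15, 0]) (.lf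
  [256, -61, 0, 0, -65, 0]))) (.lf [64, -1, 0, 0, -11, 0])) (.lf [1, 0, 0, 0, 0, 0]))) (.nd 0
  (.nd 1 (.lf [256, -80, 0, 0, -46, 0]) (.lf [1, 0, 0, 0, 0, 0])) (.lf [1, 0, 0, 0, 0, 0])))))
  (.nd 3 (.nd 2 (.lf [1, 0, -3, 0, -1, 0]) (.nd 0 (.nd 1 (.lf [1, -13, 0, 0, -6, 0]) (.nd 2 (.lf
  [4, 0, -6, 0, -2, 0]) (.nd 3 (.nd 2 (.lf [1, 0, -4, 0, -1, 0]) (.nd 0 (.lf [1, 0, 0, 0, -2, 0])
  (.nd 3 (.lf [1, 0, -16, 0, -3, 0]) (.lf [256, 0, 0, 0, -65, 0])))) (.lf [1, 0, -9, 0, -1,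
  0])))) (.lf [1, -4, 0, 0, -2, 0]))) (.nd 0 (.nd 2 (.lf [1, 0, -1, 0, -1, 0]) (.nd 3 (.nd 1 (.lf
  [1, -10, 0, 0, -5, 0]) (.nd 2 (.lf [1, 0, -2, 0, -1, 0]) (.nd 3 (.nd 0 (.lf [1, -5, 0, 0, -2,
  0]) (.lf [64, -32, 0, 0, -10, 0])) (.nd 2 (.lf [1, 0, -7, 0, -1, 0]) (.nd 0 (.lf [1, -5, 0, 0,
  -3, 0]) (.nd 1 (.lf [4, -1, 0, 0, -1, 0]) (.lf [64, 0, 0, 0, -14, 0]))))))) (.nd 1 (.lf [1, -9,
  0, 0, -4, 0]) (.lf [64, -34, 0, 0, -12, 0])))) (.lf [1, -5, 0, 0, -2, 0])))) (.nd 0 (.nd 3 (.nd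
  2 (.lf [1, 0, -4, 0, -1, 0]) (.nd 0 (.nd 1 (.nd 3 (.nd 2 (.lf [1, 0, -3, 0, -1, 0]) (.nd 2 (.lf
  [1, 0, -20, 0, -4, 0]) (.nd 0 (.lf [64, 0, 0, 0, -22, 0]) (.lf [1, -7, 0, 0, -3, 0])))) (.lf
  [1, 0, -24, 0, -4, 0])) (.lf [1, -13, 0, 0, -6, 0])) (.nd 1 (.nd 2 (.lf [4, 0, 0, 0, -1, 0])
  (.nd 3 (.lf [256, 0, 0, 0, -74, 0]) (.lf [4, 0, -48, 0, -7, 0]))) (.nd 3 (.nd 2 (.lf [1, 0, -3,
  0, -1, 0]) (.nd 0 (.nd 2 (.lf [4, 0, 0, 0, -2, 0]) (.nd 3 (.lf [64, 0, 0, 0, -25, 0]) (.nd 1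
  (.lf [64, -6, 0, 0, -22, 0]) (.lf [16, -4, 0, 0, -6, 0])))) (.lf [64, -4, 0, 0, -21, 0]))) (.nd
  2 (.lf [1, 0, -1, 0, -1, 0]) (.nd 2 (.lf [1, 0, -4, 0, -1, 0]) (.nd 0 (.lf [1, 0, -340, 0, -58,
  0]) (.lf [16, 0, -3, 0, -6, 0])))))))) (.nd 2 (.lf [1, 0, -77, 0, -13, 0]) (.nd 0 (.nd 1 (.nd 3
  (.nd 2 (.lf [1, 0, -27, 0, -7, 0]) (.nd 0 (.lf [256, -136, 0, 0, -66, 0]) (.lf [1, -6, 0, 0,
  -3, 0]))) (.lf [16, -13, 0, 0, -5, 0])) (.lf [1, -11, 0, 0, -5, 0])) (.nd 1 (.lf [16, -7, 0, 0,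
  -3, 0]) (.nd 3 (.nd 2 (.lf [16, 0, 0, 0, -7, 0]) (.nd 0 (.lf [16, -8, 0, 0, -5, 0]) (.lf [4,
  -2, 0, 0, -1, 0]))) (.nd 2 (.nd 1 (.lf [16, -6, 0, 0, -5, 0]) (.nd 0 (.lf [16, -13, 0, 0, -7,
  0]) (.lf [256, -103, 0, 0, -86, 0]))) (.lf [4, -4, 0, 0, -1, 0]))))))) (.lf [1, -9, 0, 0, -4,
  0]))) (.lf [1, 0, -8, 0, -2, 0])))) (.lf [1, 0, -15, 0, -2, 0]))

theorem Naa_k : chk3 127 [2, 4, 2, 2] [38, 0, 0, 0] [47, 1, 1, 1] [100, 4, 1, 3] ([Naa_p0] ++ [Naa_c0, Naa_c1, Naa_c2, Naa_c3, Naa_c4])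
    (okN (List.length [Naa_p0])) (fun u => [u]) Naa_t = true := by decide +kernel

theorem Naa (a e o h : ℝ)
    (l0 : (38 : ℝ) ≤ 100 * a) (u0 : 100 * a ≤ 47)
    (l1 : (0 : ℝ) ≤ 4 * e) (u1 : 4 * e ≤ 1)
    (l2 : (0 : ℝ) ≤ o) (u2 : o ≤ 1)
    (l3 : (0 : ℝ) ≤ 3 * h) (u3 : 3 * h ≤ 1)
    (c0 : 0 ≤ (112 * ((((1 + o) * ((1 - a) - e)) + (((1 - o) * a) * e)) + h)) - (240 * (a * (1 -
    a))))
    (c1 : 0 ≤ (240 * (a * (1 - a))) - (108 * ((((1 + o) * ((1 - a) - e)) + (((1 - o) * a) * e)) +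
    h)))
    (c2 : 0 ≤ (20 * (a * (1 - a))) - (((20 * a) - 1) * ((((1 + o) * ((1 - a) - e)) + (((1 - o) *
    a) * e)) + h)))
    (c3 : 0 ≤ (500 * (a * (1 - a))) - ((((1000 * e) - 1064) + (2700 * a)) * ((((1 + o) * ((1 - a)
    - e)) + (((1 - o) * a) * e)) + h)))
    (c4 : 0 ≤ (1 - a) - (((1 + o) * ((1 - a) - e)) + (((1 - o) * a) * e)))
    :
    0 ≤ (900 * (((((((1 + o) * ((1 - a) - e)) + (((1 - o) * a) * e)) + h) - (a * (1 - a))) - (((1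
    + o) * ((1 - a) - e)) * ((1 - a) - e))) - ((h + (((1 - o) * a) * e)) * (h + (((1 - o) * a) *
    e))))) - ((((((225 * (8 - (e * e))) * a) * h) + ((((225 * e) * e) * a) * ((((1 + o) * ((1 -
    a) - e)) + (((1 - o) * a) * e)) + h))) - (((25 * ((2 - e) * (2 - e))) * ((1 - a) - (((1 + o)
    * ((1 - a) - e)) + (((1 - o) * a) * e)))) * ((16 * a) - 4))) + (((((900 * (2 - e)) * a) -
    ((180 * ((2 - e) * (2 - e))) * a)) + (36 * ((2 - e) * (2 - e)))) * (((1 + o) * (1 - e)) *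
    e))) := by
  have hbx := some_nonneg3 Naa_k [a, e, o, h] rfl
    (by simp only [InBox]; push_cast; exact ⟨⟨by norm_num, by norm_num⟩, ⟨by linarith, by
    linarith⟩, ⟨by norm_num, by norm_num⟩, ⟨by linarith, by linarith⟩, ⟨by norm_num, by
    norm_num⟩, ⟨by linarith, by linarith⟩, ⟨by norm_num, by norm_num⟩, ⟨by linarith, by
    linarith⟩, trivial⟩)
    (by simp only [List.forall_mem_cons, List.not_mem_nil, false_imp_iff, implies_true, and_true,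
    Naa_p0, Naa_c0, Naa_c1, Naa_c2, Naa_c3, Naa_c4, E.val, List.getD_cons_zero,
    List.getD_cons_succ, Int.cast_ofNat, Int.cast_one, Int.cast_zero]; exact ⟨c0, c1, c2, c3,
    c4⟩)
  simpa only [List.mem_cons, List.not_mem_nil, or_false, exists_eq_or_imp, exists_eq_left,
  Naa_p0, Naa_c0, Naa_c1, Naa_c2, Naa_c3, Naa_c4, E.val, List.getD_cons_zero,
  List.getD_cons_succ, Int.cast_ofNat, Int.cast_one, Int.cast_zero] using hbx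

def Nbp_p0 : E :=
  (.s (.s (.s (.s (.s (.a (.a (.m (.a (.c 1) (.v 2)) (.s (.s (.c 1) (.v 0)) (.v 1))) (.m (.m (.s
  (.c 1) (.v 2)) (.v 0)) (.v 1))) (.v 3)) (.m (.m (.a (.c 1) (.v 2)) (.s (.s (.c 1) (.v 0)) (.v
  1))) (.s (.s (.c 1) (.v 0)) (.v 1)))) (.m (.a (.v 3) (.m (.m (.s (.c 1) (.v 2)) (.v 0)) (.v
  1))) (.a (.v 3) (.m (.m (.s (.c 1) (.v 2)) (.v 0)) (.v 1))))) (.m (.m (.v 0) (.s (.c 2) (.v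
  0))) (.m (.m (.a (.c 1) (.v 2)) (.s (.c 1) (.v 1))) (.v 1)))) (.m (.m (.c 2) (.v 0)) (.v 3)))
  (.m (.v 0) (.a (.m (.a (.c 1) (.v 2)) (.s (.s (.c 1) (.v 0)) (.v 1))) (.m (.m (.s (.c 1) (.v
  2)) (.v 0)) (.v 1)))))

def Nbp_c0 : E :=
  (.s (.m (.c 112) (.a (.a (.m (.a (.c 1) (.v 2)) (.s (.s (.c 1) (.v 0)) (.v 1))) (.m (.m (.s (.c
  1) (.v 2)) (.v 0)) (.v 1))) (.v 3))) (.m (.c 240) (.m (.v 0) (.s (.c 1) (.v 0)))))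

def Nbp_c1 : E :=
  (.s (.m (.c 240) (.m (.v 0) (.s (.c 1) (.v 0)))) (.m (.c 108) (.a (.a (.m (.a (.c 1) (.v 2))
  (.s (.s (.c 1) (.v 0)) (.v 1))) (.m (.m (.s (.c 1) (.v 2)) (.v 0)) (.v 1))) (.v 3))))

def Nbp_c2 : E :=
  (.s (.m (.c 20) (.m (.v 0) (.s (.c 1) (.v 0)))) (.m (.s (.m (.c 20) (.v 0)) (.c 1)) (.a (.a (.m
  (.a (.c 1) (.v 2)) (.s (.s (.c 1) (.v 0)) (.v 1))) (.m (.m (.s (.c 1) (.v 2)) (.v 0)) (.v 1)))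
  (.v 3))))

def Nbp_c3 : E :=
  (.s (.m (.c 550) (.m (.v 0) (.s (.c 1) (.v 0)))) (.m (.a (.s (.m (.c 1000) (.v 1)) (.c 733))
  (.m (.c 2050) (.v 0))) (.a (.a (.m (.a (.c 1) (.v 2)) (.s (.s (.c 1) (.v 0)) (.v 1))) (.m (.m
  (.s (.c 1) (.v 2)) (.v 0)) (.v 1))) (.v 3))))

def Nbp_c4 : E :=
  (.s (.a (.m (.a (.c 1) (.v 2)) (.s (.s (.c 1) (.v 0)) (.v 1))) (.m (.m (.s (.c 1) (.v 2)) (.v
  0)) (.v 1))) (.s (.c 1) (.v 0)))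

def Nbp_t : Tr :=
  (.nd 3 (.nd 3 (.lf [1024, 0, -10, 0, -2, 0]) (.nd 1 (.nd 3 (.lf [256, 0, -5, 0, -1, 0]) (.nd 1
  (.nd 3 (.lf [64, 0, -6, 0, -1, -842]) (.nd 2 (.nd 1 (.lf [262144, 0, -29, 0, -21, 0]) (.lf
  [4096, 0, 0, 0, -1, 0])) (.lf [1024, 0, -1, 0, 0, 0]))) (.nd 3 (.lf [16384, 0, -1, 0, -1, 0])
  (.nd 1 (.nd 2 (.nd 3 (.lf [16384, 0, -1, 0, -1, 0]) (.nd 1 (.lf [1048576, 0, -57, 0, -41, 0])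
  (.lf [16384, 0, -1, 0, -1, 0]))) (.lf [4096, 0, -1, 0, 0, 0])) (.nd 1 (.nd 3 (.lf [16384, 0, 0,
  0, -1, 0]) (.nd 2 (.nd 3 (.lf [65536, 0, -1, 0, -2, 0]) (.nd 1 (.lf [1048576, 0, -29, 0, -20,
  0]) (.lf [65536, 0, -2, 0, -2, 0]))) (.lf [4096, 0, -1, 0, 0, 0]))) (.nd 3 (.lf [262144, 0, 0,
  0, -5, 0]) (.nd 2 (.nd 3 (.lf [65536, 0, -1, 0, -1, 0]) (.nd 1 (.nd 1 (.lf [4194304, 0, -57, 0,
  -41, 0]) (.lf [65536, 0, -1, 0, -1, 0])) (.nd 2 (.lf [16384, 0, -1, 0, 0, 0]) (.nd 3 (.lf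
  [262144, 0, 0, 0, -2, 0]) (.nd 1 (.nd 3 (.lf [262144, 0, -1, 0, -2, 0]) (.nd 1 (.lf [262144, 0,
  -2, 0, -1, 0]) (.lf [262144, 0, -2, 0, -2, 0]))) (.nd 3 (.lf [262144, 0, 0, 0, -1, 0]) (.nd 2
  (.lf [65536, 0, -2, 0, 0, 0]) (.nd 0 (.lf [1, 0, 0, 0, 0, 0]) (.nd 2 (.nd 3 (.lf [1048576, 0,
  0, 0, -1, 0]) (.nd 0 (.lf [262144, 0, -1, 0, 0, 0]) (.nd 2 (.nd 3 (.lf [1, 0, 0, 0, 0, 0]) (.nd
  2 (.lf [4194304, 0, -5, 0, -7, 0]) (.lf [1, 0, 0, 0, 0, 0]))) (.lf [65536, 0, -1, 0, 0, 0]))))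
  (.lf [1, 0, 0, 0, 0, 0])))))))))) (.lf [16384, 0, -1, 0, 0, 0])))))))) (.lf [64, 0, 0, 0, -1,
  -215]))) (.lf [64, 0, -1, 0, 0, 0]))

theorem Nbp_k : chk3 141 [2, 2, 2, 2] [23, 0, 0, 0] [24, 1, 1, 1] [50, 10, 1, 3] ([Nbp_p0] ++ [Nbp_c0, Nbp_c1, Nbp_c2, Nbp_c3, Nbp_c4])
    (okN (List.length [Nbp_p0])) (fun u => [u]) Nbp_t = true := by decide +kernel

theorem Nbp (a e o h : ℝ)
    (l0 : (23 : ℝ) ≤ 50 * a) (u0 : 50 * a ≤ 24)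
    (l1 : (0 : ℝ) ≤ 10 * e) (u1 : 10 * e ≤ 1)
    (l2 : (0 : ℝ) ≤ o) (u2 : o ≤ 1)
    (l3 : (0 : ℝ) ≤ 3 * h) (u3 : 3 * h ≤ 1)
    (c0 : 0 ≤ (112 * ((((1 + o) * ((1 - a) - e)) + (((1 - o) * a) * e)) + h)) - (240 * (a * (1 -
    a))))
    (c1 : 0 ≤ (240 * (a * (1 - a))) - (108 * ((((1 + o) * ((1 - a) - e)) + (((1 - o) * a) * e)) +
    h)))
    (c2 : 0 ≤ (20 * (a * (1 - a))) - (((20 * a) - 1) * ((((1 + o) * ((1 - a) - e)) + (((1 - o) *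
    a) * e)) + h)))
    (c3 : 0 ≤ (550 * (a * (1 - a))) - ((((1000 * e) - 733) + (2050 * a)) * ((((1 + o) * ((1 - a)
    - e)) + (((1 - o) * a) * e)) + h)))
    (c4 : 0 ≤ (((1 + o) * ((1 - a) - e)) + (((1 - o) * a) * e)) - (1 - a))
    :
    0 ≤ ((((((((1 + o) * ((1 - a) - e)) + (((1 - o) * a) * e)) + h) - (((1 + o) * ((1 - a) - e))
    * ((1 - a) - e))) - ((h + (((1 - o) * a) * e)) * (h + (((1 - o) * a) * e)))) - ((a * (2 - a))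
    * (((1 + o) * (1 - e)) * e))) - ((2 * a) * h)) - (a * (((1 + o) * ((1 - a) - e)) + (((1 - o)
    * a) * e))) := by
  have hbx := some_nonneg3 Nbp_k [a, e, o, h] rfl
    (by simp only [InBox]; push_cast; exact ⟨⟨by norm_num, by norm_num⟩, ⟨by linarith, by
    linarith⟩, ⟨by norm_num, by norm_num⟩, ⟨by linarith, by linarith⟩, ⟨by norm_num, by
    norm_num⟩, ⟨by linarith, by linarith⟩, ⟨by norm_num, by norm_num⟩, ⟨by linarith, by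
    linarith⟩, trivial⟩)
    (by simp only [List.forall_mem_cons, List.not_mem_nil, false_imp_iff, implies_true, and_true,
    Nbp_p0, Nbp_c0, Nbp_c1, Nbp_c2, Nbp_c3, Nbp_c4, E.val, List.getD_cons_zero,
    List.getD_cons_succ, Int.cast_ofNat, Int.cast_one, Int.cast_zero]; exact ⟨c0, c1, c2, c3,
    c4⟩)
  simpa only [List.mem_cons, List.not_mem_nil, or_false, exists_eq_or_imp, exists_eq_left,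
  Nbp_p0, Nbp_c0, Nbp_c1, Nbp_c2, Nbp_c3, Nbp_c4, E.val, List.getD_cons_zero,
  List.getD_cons_succ, Int.cast_ofNat, Int.cast_one, Int.cast_zero] using hbx

def Nbz_p0 : E :=
  (.s (.m (.c 900) (.s (.s (.s (.a (.a (.m (.a (.c 1) (.v 2)) (.s (.s (.c 1) (.v 0)) (.v 1))) (.m
  (.m (.s (.c 1) (.v 2)) (.v 0)) (.v 1))) (.v 3)) (.m (.v 0) (.s (.c 1) (.v 0)))) (.m (.m (.a (.c
  1) (.v 2)) (.s (.s (.c 1) (.v 0)) (.v 1))) (.s (.s (.c 1) (.v 0)) (.v 1)))) (.m (.a (.v 3) (.m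
  (.m (.s (.c 1) (.v 2)) (.v 0)) (.v 1))) (.a (.v 3) (.m (.m (.s (.c 1) (.v 2)) (.v 0)) (.v
  1)))))) (.a (.a (.m (.m (.m (.c 225) (.s (.c 8) (.m (.v 1) (.v 1)))) (.v 0)) (.v 3)) (.m (.m
  (.c 100) (.m (.s (.c 2) (.v 1)) (.s (.c 2) (.v 1)))) (.s (.s (.c 1) (.v 0)) (.a (.m (.a (.c 1)
  (.v 2)) (.s (.s (.c 1) (.v 0)) (.v 1))) (.m (.m (.s (.c 1) (.v 2)) (.v 0)) (.v 1)))))) (.m (.m
  (.c 36) (.m (.s (.c 2) (.v 1)) (.s (.c 2) (.v 1)))) (.m (.m (.a (.c 1) (.v 2)) (.s (.c 1) (.v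
  1))) (.v 1)))))

def Nbz_c0 : E :=
  (.s (.m (.c 112) (.a (.a (.m (.a (.c 1) (.v 2)) (.s (.s (.c 1) (.v 0)) (.v 1))) (.m (.m (.s (.c
  1) (.v 2)) (.v 0)) (.v 1))) (.v 3))) (.m (.c 240) (.m (.v 0) (.s (.c 1) (.v 0)))))

def Nbz_c1 : E :=
  (.s (.m (.c 240) (.m (.v 0) (.s (.c 1) (.v 0)))) (.m (.c 108) (.a (.a (.m (.a (.c 1) (.v 2))
  (.s (.s (.c 1) (.v 0)) (.v 1))) (.m (.m (.s (.c 1) (.v 2)) (.v 0)) (.v 1))) (.v 3))))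

def Nbz_c2 : E :=
  (.s (.m (.c 20) (.m (.v 0) (.s (.c 1) (.v 0)))) (.m (.s (.m (.c 20) (.v 0)) (.c 1)) (.a (.a (.m
  (.a (.c 1) (.v 2)) (.s (.s (.c 1) (.v 0)) (.v 1))) (.m (.m (.s (.c 1) (.v 2)) (.v 0)) (.v 1)))
  (.v 3))))

def Nbz_c3 : E :=
  (.s (.m (.c 550) (.m (.v 0) (.s (.c 1) (.v 0)))) (.m (.a (.s (.m (.c 1000) (.v 1)) (.c 733))
  (.m (.c 2050) (.v 0))) (.a (.a (.m (.a (.c 1) (.v 2)) (.s (.s (.c 1) (.v 0)) (.v 1))) (.m (.m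
  (.s (.c 1) (.v 2)) (.v 0)) (.v 1))) (.v 3))))

def Nbz_c4 : E :=
  (.s (.s (.c 1) (.v 0)) (.a (.m (.a (.c 1) (.v 2)) (.s (.s (.c 1) (.v 0)) (.v 1))) (.m (.m (.s
  (.c 1) (.v 2)) (.v 0)) (.v 1))))

def Nbz_t : Tr :=
  (.nd 3 (.nd 2 (.nd 2 (.lf [1, 0, 0, 0, 0, 0]) (.nd 3 (.lf [1, 0, -4, 0, -1, 0]) (.nd 2 (.lf [1,
  0, 0, 0, 0, 0]) (.nd 3 (.lf [4, 0, -16, 0, -2, 0]) (.nd 2 (.lf [1, 0, 0, 0, 0, 0]) (.nd 2 (.lf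
  [1, 0, 0, 0, 0, 0]) (.nd 1 (.nd 3 (.lf [64, 0, 0, 0, -2, 0]) (.lf [1, 0, 0, 0, 0, 0])) (.lf [1,
  0, 0, 0, 0, 0])))))))) (.lf [1, 0, 0, 0, 0, 0])) (.lf [1, 0, -7, 0, -1, 0]))

theorem Nbz_k : chk3 94 [2, 4, 2, 2] [23, 0, 0, 0] [24, 1, 1, 1] [50, 10, 1, 3] ([Nbz_p0] ++ [Nbz_c0, Nbz_c1, Nbz_c2, Nbz_c3, Nbz_c4])
    (okN (List.length [Nbz_p0])) (fun u => [u]) Nbz_t = true := by decide +kernel

theorem Nbz (a e o h : ℝ)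
    (l0 : (23 : ℝ) ≤ 50 * a) (u0 : 50 * a ≤ 24)
    (l1 : (0 : ℝ) ≤ 10 * e) (u1 : 10 * e ≤ 1)
    (l2 : (0 : ℝ) ≤ o) (u2 : o ≤ 1)
    (l3 : (0 : ℝ) ≤ 3 * h) (u3 : 3 * h ≤ 1)
    (c0 : 0 ≤ (112 * ((((1 + o) * ((1 - a) - e)) + (((1 - o) * a) * e)) + h)) - (240 * (a * (1 -
    a))))
    (c1 : 0 ≤ (240 * (a * (1 - a))) - (108 * ((((1 + o) * ((1 - a) - e)) + (((1 - o) * a) * e)) +
    h)))
    (c2 : 0 ≤ (20 * (a * (1 - a))) - (((20 * a) - 1) * ((((1 + o) * ((1 - a) - e)) + (((1 - o) *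
    a) * e)) + h)))
    (c3 : 0 ≤ (550 * (a * (1 - a))) - ((((1000 * e) - 733) + (2050 * a)) * ((((1 + o) * ((1 - a)
    - e)) + (((1 - o) * a) * e)) + h)))
    (c4 : 0 ≤ (1 - a) - (((1 + o) * ((1 - a) - e)) + (((1 - o) * a) * e)))
    :
    0 ≤ (900 * (((((((1 + o) * ((1 - a) - e)) + (((1 - o) * a) * e)) + h) - (a * (1 - a))) - (((1
    + o) * ((1 - a) - e)) * ((1 - a) - e))) - ((h + (((1 - o) * a) * e)) * (h + (((1 - o) * a) *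
    e))))) - (((((225 * (8 - (e * e))) * a) * h) + ((100 * ((2 - e) * (2 - e))) * ((1 - a) - (((1
    + o) * ((1 - a) - e)) + (((1 - o) * a) * e))))) + ((36 * ((2 - e) * (2 - e))) * (((1 + o) *
    (1 - e)) * e))) := by
  have hbx := some_nonneg3 Nbz_k [a, e, o, h] rfl
    (by simp only [InBox]; push_cast; exact ⟨⟨by norm_num, by norm_num⟩, ⟨by linarith, by
    linarith⟩, ⟨by norm_num, by norm_num⟩, ⟨by linarith, by linarith⟩, ⟨by norm_num, by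
    norm_num⟩, ⟨by linarith, by linarith⟩, ⟨by norm_num, by norm_num⟩, ⟨by linarith, by
    linarith⟩, trivial⟩)
    (by simp only [List.forall_mem_cons, List.not_mem_nil, false_imp_iff, implies_true, and_true,
    Nbz_p0, Nbz_c0, Nbz_c1, Nbz_c2, Nbz_c3, Nbz_c4, E.val, List.getD_cons_zero,
    List.getD_cons_succ, Int.cast_ofNat, Int.cast_one, Int.cast_zero]; exact ⟨c0, c1, c2, c3,
    c4⟩)
  simpa only [List.mem_cons, List.not_mem_nil, or_false, exists_eq_or_imp, exists_eq_left,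
  Nbz_p0, Nbz_c0, Nbz_c1, Nbz_c2, Nbz_c3, Nbz_c4, E.val, List.getD_cons_zero,
  List.getD_cons_succ, Int.cast_ofNat, Int.cast_one, Int.cast_zero] using hbx

def Nba_p0 : E :=
  (.s (.m (.c 900) (.s (.s (.s (.a (.a (.m (.a (.c 1) (.v 2)) (.s (.s (.c 1) (.v 0)) (.v 1))) (.m
  (.m (.s (.c 1) (.v 2)) (.v 0)) (.v 1))) (.v 3)) (.m (.v 0) (.s (.c 1) (.v 0)))) (.m (.m (.a (.c
  1) (.v 2)) (.s (.s (.c 1) (.v 0)) (.v 1))) (.s (.s (.c 1) (.v 0)) (.v 1)))) (.m (.a (.v 3) (.m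
  (.m (.s (.c 1) (.v 2)) (.v 0)) (.v 1))) (.a (.v 3) (.m (.m (.s (.c 1) (.v 2)) (.v 0)) (.v
  1)))))) (.a (.s (.a (.m (.m (.m (.c 225) (.s (.c 8) (.m (.v 1) (.v 1)))) (.v 0)) (.v 3)) (.m
  (.m (.m (.m (.c 225) (.v 1)) (.v 1)) (.v 0)) (.a (.a (.m (.a (.c 1) (.v 2)) (.s (.s (.c 1) (.v
  0)) (.v 1))) (.m (.m (.s (.c 1) (.v 2)) (.v 0)) (.v 1))) (.v 3)))) (.m (.m (.m (.c 25) (.m (.s
  (.c 2) (.v 1)) (.s (.c 2) (.v 1)))) (.s (.s (.c 1) (.v 0)) (.a (.m (.a (.c 1) (.v 2)) (.s (.s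
  (.c 1) (.v 0)) (.v 1))) (.m (.m (.s (.c 1) (.v 2)) (.v 0)) (.v 1))))) (.s (.m (.c 16) (.v 0))
  (.c 4)))) (.m (.a (.s (.m (.m (.c 900) (.s (.c 2) (.v 1))) (.v 0)) (.m (.m (.c 180) (.m (.s (.c
  2) (.v 1)) (.s (.c 2) (.v 1)))) (.v 0))) (.m (.c 36) (.m (.s (.c 2) (.v 1)) (.s (.c 2) (.v
  1))))) (.m (.m (.a (.c 1) (.v 2)) (.s (.c 1) (.v 1))) (.v 1)))))

def Nba_c0 : E :=
  (.s (.m (.c 112) (.a (.a (.m (.a (.c 1) (.v 2)) (.s (.s (.c 1) (.v 0)) (.v 1))) (.m (.m (.s (.c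
  1) (.v 2)) (.v 0)) (.v 1))) (.v 3))) (.m (.c 240) (.m (.v 0) (.s (.c 1) (.v 0)))))

def Nba_c1 : E :=
  (.s (.m (.c 240) (.m (.v 0) (.s (.c 1) (.v 0)))) (.m (.c 108) (.a (.a (.m (.a (.c 1) (.v 2))
  (.s (.s (.c 1) (.v 0)) (.v 1))) (.m (.m (.s (.c 1) (.v 2)) (.v 0)) (.v 1))) (.v 3))))

def Nba_c2 : E :=
  (.s (.m (.c 20) (.m (.v 0) (.s (.c 1) (.v 0)))) (.m (.s (.m (.c 20) (.v 0)) (.c 1)) (.a (.a (.m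
  (.a (.c 1) (.v 2)) (.s (.s (.c 1) (.v 0)) (.v 1))) (.m (.m (.s (.c 1) (.v 2)) (.v 0)) (.v 1)))
  (.v 3))))

def Nba_c3 : E :=
  (.s (.m (.c 550) (.m (.v 0) (.s (.c 1) (.v 0)))) (.m (.a (.s (.m (.c 1000) (.v 1)) (.c 733))
  (.m (.c 2050) (.v 0))) (.a (.a (.m (.a (.c 1) (.v 2)) (.s (.s (.c 1) (.v 0)) (.v 1))) (.m (.m
  (.s (.c 1) (.v 2)) (.v 0)) (.v 1))) (.v 3))))

def Nba_c4 : E :=
  (.s (.s (.c 1) (.v 0)) (.a (.m (.a (.c 1) (.v 2)) (.s (.s (.c 1) (.v 0)) (.v 1))) (.m (.m (.s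
  (.c 1) (.v 2)) (.v 0)) (.v 1))))

def Nba_t : Tr :=
  (.nd 3 (.nd 3 (.lf [1, 0, -6, 0, -1, 0]) (.nd 3 (.lf [1, 0, -15, 0, -2, 0]) (.nd 2 (.nd 2 (.lf
  [4, -1, 0, 0, -1, 0]) (.nd 1 (.nd 3 (.nd 2 (.lf [16, 0, 0, 0, -1, 0]) (.nd 2 (.lf [4, 0, 0, 0,
  -1, 0]) (.nd 1 (.nd 3 (.lf [16, 0, 0, 0, -2, 0]) (.lf [16, 0, -3, 0, -3, 0])) (.nd 3 (.nd 2
  (.lf [1, 0, 0, 0, 0, 0]) (.nd 1 (.lf [64, 0, 0, 0, -5, 0]) (.lf [64, 0, 0, 0, -3, 0]))) (.lf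
  [256, 0, -52, 0, -27, 0]))))) (.nd 1 (.nd 2 (.lf [1, 0, 0, 0, 0, 0]) (.nd 3 (.nd 2 (.lf [16, 0,
  0, 0, -1, 0]) (.nd 1 (.lf [64, -20, 0, 0, -3, 0]) (.lf [64, -19, 0, 0, -5, 0]))) (.lf [64, -26,
  0, 0, -2, 0]))) (.nd 3 (.nd 2 (.lf [1, 0, 0, 0, 0, 0]) (.nd 2 (.lf [1, 0, 0, 0, 0, 0]) (.nd 2
  (.lf [1, 0, 0, 0, 0, 0]) (.nd 1 (.lf [256, -88, 0, 0, -6, 0]) (.lf [1, 0, 0, 0, 0, 0]))))) (.nd
  2 (.lf [1, 0, 0, 0, 0, 0]) (.nd 2 (.lf [1, 0, 0, 0, 0, 0]) (.nd 2 (.lf [1, 0, 0, 0, 0, 0]) (.nd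
  1 (.lf [4, -1, 0, 0, 0, 0]) (.nd 3 (.lf [256, -1, 0, 0, 0, 0]) (.nd 2 (.lf [1, 0, 0, 0, 0, 0])
  (.nd 0 (.lf [1, 0, 0, 0, 0, 0]) (.lf [16, -2, 0, 0, 0, 0]))))))))))) (.lf [1, -11, 0, 0, -5,
  0]))) (.lf [4, -3, 0, 0, -1, 0])))) (.lf [1, 0, -7, 0, -1, 0]))

theorem Nba_k : chk3 118 [2, 4, 2, 2] [23, 0, 0, 0] [24, 1, 1, 1] [50, 10, 1, 3] ([Nba_p0] ++ [Nba_c0, Nba_c1, Nba_c2, Nba_c3, Nba_c4])
    (okN (List.length [Nba_p0])) (fun u => [u]) Nba_t = true := by decide +kernel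

theorem Nba (a e o h : ℝ)
    (l0 : (23 : ℝ) ≤ 50 * a) (u0 : 50 * a ≤ 24)
    (l1 : (0 : ℝ) ≤ 10 * e) (u1 : 10 * e ≤ 1)
    (l2 : (0 : ℝ) ≤ o) (u2 : o ≤ 1)
    (l3 : (0 : ℝ) ≤ 3 * h) (u3 : 3 * h ≤ 1)
    (c0 : 0 ≤ (112 * ((((1 + o) * ((1 - a) - e)) + (((1 - o) * a) * e)) + h)) - (240 * (a * (1 -
    a))))
    (c1 : 0 ≤ (240 * (a * (1 - a))) - (108 * ((((1 + o) * ((1 - a) - e)) + (((1 - o) * a) * e)) +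
    h)))
    (c2 : 0 ≤ (20 * (a * (1 - a))) - (((20 * a) - 1) * ((((1 + o) * ((1 - a) - e)) + (((1 - o) *
    a) * e)) + h)))
    (c3 : 0 ≤ (550 * (a * (1 - a))) - ((((1000 * e) - 733) + (2050 * a)) * ((((1 + o) * ((1 - a)
    - e)) + (((1 - o) * a) * e)) + h)))
    (c4 : 0 ≤ (1 - a) - (((1 + o) * ((1 - a) - e)) + (((1 - o) * a) * e)))
    :
    0 ≤ (900 * (((((((1 + o) * ((1 - a) - e)) + (((1 - o) * a) * e)) + h) - (a * (1 - a))) - (((1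
    + o) * ((1 - a) - e)) * ((1 - a) - e))) - ((h + (((1 - o) * a) * e)) * (h + (((1 - o) * a) *
    e))))) - ((((((225 * (8 - (e * e))) * a) * h) + ((((225 * e) * e) * a) * ((((1 + o) * ((1 -
    a) - e)) + (((1 - o) * a) * e)) + h))) - (((25 * ((2 - e) * (2 - e))) * ((1 - a) - (((1 + o)
    * ((1 - a) - e)) + (((1 - o) * a) * e)))) * ((16 * a) - 4))) + (((((900 * (2 - e)) * a) -
    ((180 * ((2 - e) * (2 - e))) * a)) + (36 * ((2 - e) * (2 - e)))) * (((1 + o) * (1 - e)) *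
    e))) := by
  have hbx := some_nonneg3 Nba_k [a, e, o, h] rfl
    (by simp only [InBox]; push_cast; exact ⟨⟨by norm_num, by norm_num⟩, ⟨by linarith, by
    linarith⟩, ⟨by norm_num, by norm_num⟩, ⟨by linarith, by linarith⟩, ⟨by norm_num, by
    norm_num⟩, ⟨by linarith, by linarith⟩, ⟨by norm_num, by norm_num⟩, ⟨by linarith, by
    linarith⟩, trivial⟩)
    (by simp only [List.forall_mem_cons, List.not_mem_nil, false_imp_iff, implies_true, and_true,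
    Nba_p0, Nba_c0, Nba_c1, Nba_c2, Nba_c3, Nba_c4, E.val, List.getD_cons_zero,
    List.getD_cons_succ, Int.cast_ofNat, Int.cast_one, Int.cast_zero]; exact ⟨c0, c1, c2, c3,
    c4⟩)
  simpa only [List.mem_cons, List.not_mem_nil, or_false, exists_eq_or_imp, exists_eq_left,
  Nba_p0, Nba_c0, Nba_c1, Nba_c2, Nba_c3, Nba_c4, E.val, List.getD_cons_zero,
  List.getD_cons_succ, Int.cast_ofNat, Int.cast_one, Int.cast_zero] using hbx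

def Ncp_p0 : E :=
  (.s (.s (.s (.s (.s (.a (.a (.m (.a (.c 1) (.v 2)) (.s (.s (.c 1) (.v 0)) (.v 1))) (.m (.m (.s
  (.c 1) (.v 2)) (.v 0)) (.v 1))) (.v 3)) (.m (.m (.a (.c 1) (.v 2)) (.s (.s (.c 1) (.v 0)) (.v
  1))) (.s (.s (.c 1) (.v 0)) (.v 1)))) (.m (.a (.v 3) (.m (.m (.s (.c 1) (.v 2)) (.v 0)) (.v
  1))) (.a (.v 3) (.m (.m (.s (.c 1) (.v 2)) (.v 0)) (.v 1))))) (.m (.m (.v 0) (.s (.c 2) (.v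
  0))) (.m (.m (.a (.c 1) (.v 2)) (.s (.c 1) (.v 1))) (.v 1)))) (.m (.m (.c 2) (.v 0)) (.v 3)))
  (.m (.v 0) (.a (.m (.a (.c 1) (.v 2)) (.s (.s (.c 1) (.v 0)) (.v 1))) (.m (.m (.s (.c 1) (.v
  2)) (.v 0)) (.v 1)))))

def Ncp_c0 : E :=
  (.s (.m (.c 120) (.a (.a (.m (.a (.c 1) (.v 2)) (.s (.s (.c 1) (.v 0)) (.v 1))) (.m (.m (.s (.c
  1) (.v 2)) (.v 0)) (.v 1))) (.v 3))) (.m (.c 240) (.m (.v 0) (.s (.c 1) (.v 0)))))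

def Ncp_c1 : E :=
  (.s (.m (.c 240) (.m (.v 0) (.s (.c 1) (.v 0)))) (.m (.c 108) (.a (.a (.m (.a (.c 1) (.v 2))
  (.s (.s (.c 1) (.v 0)) (.v 1))) (.m (.m (.s (.c 1) (.v 2)) (.v 0)) (.v 1))) (.v 3))))

def Ncp_c2 : E :=
  (.s (.m (.c 20) (.m (.v 0) (.s (.c 1) (.v 0)))) (.m (.s (.m (.c 20) (.v 0)) (.c 1)) (.a (.a (.m
  (.a (.c 1) (.v 2)) (.s (.s (.c 1) (.v 0)) (.v 1))) (.m (.m (.s (.c 1) (.v 2)) (.v 0)) (.v 1)))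
  (.v 3))))

def Ncp_c3 : E :=
  (.s (.m (.c 300) (.m (.v 0) (.s (.c 1) (.v 0)))) (.m (.a (.s (.m (.c 1000) (.v 1)) (.c 1151))
  (.m (.c 2700) (.v 0))) (.a (.a (.m (.a (.c 1) (.v 2)) (.s (.s (.c 1) (.v 0)) (.v 1))) (.m (.m
  (.s (.c 1) (.v 2)) (.v 0)) (.v 1))) (.v 3))))

def Ncp_c4 : E :=
  (.s (.a (.m (.a (.c 1) (.v 2)) (.s (.s (.c 1) (.v 0)) (.v 1))) (.m (.m (.s (.c 1) (.v 2)) (.v
  0)) (.v 1))) (.s (.c 1) (.v 0)))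

def Ncp_t : Tr :=
  (.nd 3 (.nd 1 (.nd 3 (.lf [64, 0, -1, 0, 0, 0]) (.nd 1 (.nd 3 (.lf [64, 0, -1, 0, 0, -59]) (.nd
  1 (.lf [16384, 0, -12, 0, -1, 0]) (.lf [1024, 0, -73, 0, -4, -8446]))) (.lf [4096, 0, -2, 0, 0,
  0]))) (.lf [256, 0, -18, 0, -1, -2113])) (.lf [64, 0, -1, 0, 0, 0]))

theorem Ncp_k : chk3 81 [2, 2, 2, 2] [38, 0, 0, 0] [45, 6, 1, 1] [100, 25, 1, 3] ([Ncp_p0] ++ [Ncp_c0, Ncp_c1, Ncp_c2, Ncp_c3, Ncp_c4])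
    (okN (List.length [Ncp_p0])) (fun u => [u]) Ncp_t = true := by decide +kernel

theorem Ncp (a e o h : ℝ)
    (l0 : (38 : ℝ) ≤ 100 * a) (u0 : 100 * a ≤ 45)
    (l1 : (0 : ℝ) ≤ 25 * e) (u1 : 25 * e ≤ 6)
    (l2 : (0 : ℝ) ≤ o) (u2 : o ≤ 1)
    (l3 : (0 : ℝ) ≤ 3 * h) (u3 : 3 * h ≤ 1)
    (c0 : 0 ≤ (120 * ((((1 + o) * ((1 - a) - e)) + (((1 - o) * a) * e)) + h)) - (240 * (a * (1 -
    a))))
    (c1 : 0 ≤ (240 * (a * (1 - a))) - (108 * ((((1 + o) * ((1 - a) - e)) + (((1 - o) * a) * e)) +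
    h)))
    (c2 : 0 ≤ (20 * (a * (1 - a))) - (((20 * a) - 1) * ((((1 + o) * ((1 - a) - e)) + (((1 - o) *
    a) * e)) + h)))
    (c3 : 0 ≤ (300 * (a * (1 - a))) - ((((1000 * e) - 1151) + (2700 * a)) * ((((1 + o) * ((1 - a)
    - e)) + (((1 - o) * a) * e)) + h)))
    (c4 : 0 ≤ (((1 + o) * ((1 - a) - e)) + (((1 - o) * a) * e)) - (1 - a))
    :
    0 ≤ ((((((((1 + o) * ((1 - a) - e)) + (((1 - o) * a) * e)) + h) - (((1 + o) * ((1 - a) - e))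
    * ((1 - a) - e))) - ((h + (((1 - o) * a) * e)) * (h + (((1 - o) * a) * e)))) - ((a * (2 - a))
    * (((1 + o) * (1 - e)) * e))) - ((2 * a) * h)) - (a * (((1 + o) * ((1 - a) - e)) + (((1 - o)
    * a) * e))) := by
  have hbx := some_nonneg3 Ncp_k [a, e, o, h] rfl
    (by simp only [InBox]; push_cast; exact ⟨⟨by norm_num, by norm_num⟩, ⟨by linarith, by
    linarith⟩, ⟨by norm_num, by norm_num⟩, ⟨by linarith, by linarith⟩, ⟨by norm_num, by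
    norm_num⟩, ⟨by linarith, by linarith⟩, ⟨by norm_num, by norm_num⟩, ⟨by linarith, by
    linarith⟩, trivial⟩)
    (by simp only [List.forall_mem_cons, List.not_mem_nil, false_imp_iff, implies_true, and_true,
    Ncp_p0, Ncp_c0, Ncp_c1, Ncp_c2, Ncp_c3, Ncp_c4, E.val, List.getD_cons_zero,
    List.getD_cons_succ, Int.cast_ofNat, Int.cast_one, Int.cast_zero]; exact ⟨c0, c1, c2, c3,
    c4⟩)
  simpa only [List.mem_cons, List.not_mem_nil, or_false, exists_eq_or_imp, exists_eq_left,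
  Ncp_p0, Ncp_c0, Ncp_c1, Ncp_c2, Ncp_c3, Ncp_c4, E.val, List.getD_cons_zero,
  List.getD_cons_succ, Int.cast_ofNat, Int.cast_one, Int.cast_zero] using hbx

def Ncz_p0 : E :=
  (.s (.m (.c 900) (.s (.s (.s (.a (.a (.m (.a (.c 1) (.v 2)) (.s (.s (.c 1) (.v 0)) (.v 1))) (.m
  (.m (.s (.c 1) (.v 2)) (.v 0)) (.v 1))) (.v 3)) (.m (.v 0) (.s (.c 1) (.v 0)))) (.m (.m (.a (.c
  1) (.v 2)) (.s (.s (.c 1) (.v 0)) (.v 1))) (.s (.s (.c 1) (.v 0)) (.v 1)))) (.m (.a (.v 3) (.m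
  (.m (.s (.c 1) (.v 2)) (.v 0)) (.v 1))) (.a (.v 3) (.m (.m (.s (.c 1) (.v 2)) (.v 0)) (.v
  1)))))) (.a (.a (.m (.m (.m (.c 225) (.s (.c 8) (.m (.v 1) (.v 1)))) (.v 0)) (.v 3)) (.m (.m
  (.c 100) (.m (.s (.c 2) (.v 1)) (.s (.c 2) (.v 1)))) (.s (.s (.c 1) (.v 0)) (.a (.m (.a (.c 1)
  (.v 2)) (.s (.s (.c 1) (.v 0)) (.v 1))) (.m (.m (.s (.c 1) (.v 2)) (.v 0)) (.v 1)))))) (.m (.m
  (.c 36) (.m (.s (.c 2) (.v 1)) (.s (.c 2) (.v 1)))) (.m (.m (.a (.c 1) (.v 2)) (.s (.c 1) (.v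
  1))) (.v 1)))))

def Ncz_c0 : E :=
  (.s (.m (.c 120) (.a (.a (.m (.a (.c 1) (.v 2)) (.s (.s (.c 1) (.v 0)) (.v 1))) (.m (.m (.s (.c
  1) (.v 2)) (.v 0)) (.v 1))) (.v 3))) (.m (.c 240) (.m (.v 0) (.s (.c 1) (.v 0)))))

def Ncz_c1 : E :=
  (.s (.m (.c 240) (.m (.v 0) (.s (.c 1) (.v 0)))) (.m (.c 108) (.a (.a (.m (.a (.c 1) (.v 2))
  (.s (.s (.c 1) (.v 0)) (.v 1))) (.m (.m (.s (.c 1) (.v 2)) (.v 0)) (.v 1))) (.v 3))))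

def Ncz_c2 : E :=
  (.s (.m (.c 20) (.m (.v 0) (.s (.c 1) (.v 0)))) (.m (.s (.m (.c 20) (.v 0)) (.c 1)) (.a (.a (.m
  (.a (.c 1) (.v 2)) (.s (.s (.c 1) (.v 0)) (.v 1))) (.m (.m (.s (.c 1) (.v 2)) (.v 0)) (.v 1)))
  (.v 3))))

def Ncz_c3 : E :=
  (.s (.m (.c 300) (.m (.v 0) (.s (.c 1) (.v 0)))) (.m (.a (.s (.m (.c 1000) (.v 1)) (.c 1151))
  (.m (.c 2700) (.v 0))) (.a (.a (.m (.a (.c 1) (.v 2)) (.s (.s (.c 1) (.v 0)) (.v 1))) (.m (.m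
  (.s (.c 1) (.v 2)) (.v 0)) (.v 1))) (.v 3))))

def Ncz_c4 : E :=
  (.s (.s (.c 1) (.v 0)) (.a (.m (.a (.c 1) (.v 2)) (.s (.s (.c 1) (.v 0)) (.v 1))) (.m (.m (.s
  (.c 1) (.v 2)) (.v 0)) (.v 1))))

def Ncz_t : Tr :=
  (.nd 3 (.nd 2 (.nd 2 (.lf [1, 0, 0, 0, 0, 0]) (.nd 3 (.lf [1, 0, -19, 0, -2, 0]) (.nd 1 (.lf
  [1, 0, 0, 0, 0, 0]) (.nd 2 (.lf [1, 0, 0, 0, 0, 0]) (.nd 3 (.lf [256, 0, -270, 0, -82, 0]) (.lf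
  [256, 0, 0, 0, -42, 0])))))) (.lf [1, 0, 0, 0, 0, 0])) (.lf [1, 0, -12, 0, -1, 0]))

theorem Ncz_k : chk3 95 [2, 4, 2, 2] [38, 0, 0, 0] [45, 6, 1, 1] [100, 25, 1, 3] ([Ncz_p0] ++ [Ncz_c0, Ncz_c1, Ncz_c2, Ncz_c3, Ncz_c4])
    (okN (List.length [Ncz_p0])) (fun u => [u]) Ncz_t = true := by decide +kernel

theorem Ncz (a e o h : ℝ)
    (l0 : (38 : ℝ) ≤ 100 * a) (u0 : 100 * a ≤ 45)
    (l1 : (0 : ℝ) ≤ 25 * e) (u1 : 25 * e ≤ 6)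
    (l2 : (0 : ℝ) ≤ o) (u2 : o ≤ 1)
    (l3 : (0 : ℝ) ≤ 3 * h) (u3 : 3 * h ≤ 1)
    (c0 : 0 ≤ (120 * ((((1 + o) * ((1 - a) - e)) + (((1 - o) * a) * e)) + h)) - (240 * (a * (1 -
    a))))
    (c1 : 0 ≤ (240 * (a * (1 - a))) - (108 * ((((1 + o) * ((1 - a) - e)) + (((1 - o) * a) * e)) +
    h)))
    (c2 : 0 ≤ (20 * (a * (1 - a))) - (((20 * a) - 1) * ((((1 + o) * ((1 - a) - e)) + (((1 - o) *
    a) * e)) + h)))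
    (c3 : 0 ≤ (300 * (a * (1 - a))) - ((((1000 * e) - 1151) + (2700 * a)) * ((((1 + o) * ((1 - a)
    - e)) + (((1 - o) * a) * e)) + h)))
    (c4 : 0 ≤ (1 - a) - (((1 + o) * ((1 - a) - e)) + (((1 - o) * a) * e)))
    :
    0 ≤ (900 * (((((((1 + o) * ((1 - a) - e)) + (((1 - o) * a) * e)) + h) - (a * (1 - a))) - (((1
    + o) * ((1 - a) - e)) * ((1 - a) - e))) - ((h + (((1 - o) * a) * e)) * (h + (((1 - o) * a) *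
    e))))) - (((((225 * (8 - (e * e))) * a) * h) + ((100 * ((2 - e) * (2 - e))) * ((1 - a) - (((1
    + o) * ((1 - a) - e)) + (((1 - o) * a) * e))))) + ((36 * ((2 - e) * (2 - e))) * (((1 + o) *
    (1 - e)) * e))) := by
  have hbx := some_nonneg3 Ncz_k [a, e, o, h] rfl
    (by simp only [InBox]; push_cast; exact ⟨⟨by norm_num, by norm_num⟩, ⟨by linarith, by
    linarith⟩, ⟨by norm_num, by norm_num⟩, ⟨by linarith, by linarith⟩, ⟨by norm_num, by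
    norm_num⟩, ⟨by linarith, by linarith⟩, ⟨by norm_num, by norm_num⟩, ⟨by linarith, by
    linarith⟩, trivial⟩)
    (by simp only [List.forall_mem_cons, List.not_mem_nil, false_imp_iff, implies_true, and_true,
    Ncz_p0, Ncz_c0, Ncz_c1, Ncz_c2, Ncz_c3, Ncz_c4, E.val, List.getD_cons_zero,
    List.getD_cons_succ, Int.cast_ofNat, Int.cast_one, Int.cast_zero]; exact ⟨c0, c1, c2, c3,
    c4⟩)
  simpa only [List.mem_cons, List.not_mem_nil, or_false, exists_eq_or_imp, exists_eq_left,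
  Ncz_p0, Ncz_c0, Ncz_c1, Ncz_c2, Ncz_c3, Ncz_c4, E.val, List.getD_cons_zero,
  List.getD_cons_succ, Int.cast_ofNat, Int.cast_one, Int.cast_zero] using hbx

def Nca_p0 : E :=
  (.s (.m (.c 900) (.s (.s (.s (.a (.a (.m (.a (.c 1) (.v 2)) (.s (.s (.c 1) (.v 0)) (.v 1))) (.m
  (.m (.s (.c 1) (.v 2)) (.v 0)) (.v 1))) (.v 3)) (.m (.v 0) (.s (.c 1) (.v 0)))) (.m (.m (.a (.c
  1) (.v 2)) (.s (.s (.c 1) (.v 0)) (.v 1))) (.s (.s (.c 1) (.v 0)) (.v 1)))) (.m (.a (.v 3) (.m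
  (.m (.s (.c 1) (.v 2)) (.v 0)) (.v 1))) (.a (.v 3) (.m (.m (.s (.c 1) (.v 2)) (.v 0)) (.v
  1)))))) (.a (.s (.a (.m (.m (.m (.c 225) (.s (.c 8) (.m (.v 1) (.v 1)))) (.v 0)) (.v 3)) (.m
  (.m (.m (.m (.c 225) (.v 1)) (.v 1)) (.v 0)) (.a (.a (.m (.a (.c 1) (.v 2)) (.s (.s (.c 1) (.v
  0)) (.v 1))) (.m (.m (.s (.c 1) (.v 2)) (.v 0)) (.v 1))) (.v 3)))) (.m (.m (.m (.c 25) (.m (.s
  (.c 2) (.v 1)) (.s (.c 2) (.v 1)))) (.s (.s (.c 1) (.v 0)) (.a (.m (.a (.c 1) (.v 2)) (.s (.s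
  (.c 1) (.v 0)) (.v 1))) (.m (.m (.s (.c 1) (.v 2)) (.v 0)) (.v 1))))) (.s (.m (.c 16) (.v 0))
  (.c 4)))) (.m (.a (.s (.m (.m (.c 900) (.s (.c 2) (.v 1))) (.v 0)) (.m (.m (.c 180) (.m (.s (.c
  2) (.v 1)) (.s (.c 2) (.v 1)))) (.v 0))) (.m (.c 36) (.m (.s (.c 2) (.v 1)) (.s (.c 2) (.v
  1))))) (.m (.m (.a (.c 1) (.v 2)) (.s (.c 1) (.v 1))) (.v 1)))))

def Nca_c0 : E :=
  (.s (.m (.c 120) (.a (.a (.m (.a (.c 1) (.v 2)) (.s (.s (.c 1) (.v 0)) (.v 1))) (.m (.m (.s (.c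
  1) (.v 2)) (.v 0)) (.v 1))) (.v 3))) (.m (.c 240) (.m (.v 0) (.s (.c 1) (.v 0)))))

def Nca_c1 : E :=
  (.s (.m (.c 240) (.m (.v 0) (.s (.c 1) (.v 0)))) (.m (.c 108) (.a (.a (.m (.a (.c 1) (.v 2))
  (.s (.s (.c 1) (.v 0)) (.v 1))) (.m (.m (.s (.c 1) (.v 2)) (.v 0)) (.v 1))) (.v 3))))

def Nca_c2 : E :=
  (.s (.m (.c 20) (.m (.v 0) (.s (.c 1) (.v 0)))) (.m (.s (.m (.c 20) (.v 0)) (.c 1)) (.a (.a (.m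
  (.a (.c 1) (.v 2)) (.s (.s (.c 1) (.v 0)) (.v 1))) (.m (.m (.s (.c 1) (.v 2)) (.v 0)) (.v 1)))
  (.v 3))))

def Nca_c3 : E :=
  (.s (.m (.c 300) (.m (.v 0) (.s (.c 1) (.v 0)))) (.m (.a (.s (.m (.c 1000) (.v 1)) (.c 1151))
  (.m (.c 2700) (.v 0))) (.a (.a (.m (.a (.c 1) (.v 2)) (.s (.s (.c 1) (.v 0)) (.v 1))) (.m (.m
  (.s (.c 1) (.v 2)) (.v 0)) (.v 1))) (.v 3))))

def Nca_c4 : E :=
  (.s (.s (.c 1) (.v 0)) (.a (.m (.a (.c 1) (.v 2)) (.s (.s (.c 1) (.v 0)) (.v 1))) (.m (.m (.s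
  (.c 1) (.v 2)) (.v 0)) (.v 1))))

def Nca_t : Tr :=
  (.nd 3 (.nd 1 (.nd 3 (.lf [4, 0, -29, 0, -3, 0]) (.nd 2 (.nd 3 (.nd 2 (.lf [16, 0, -3, 0, -3,
  0]) (.nd 1 (.nd 2 (.lf [1, 0, -1, 0, 0, 0]) (.nd 0 (.lf [1, 0, 0, 0, 0, 0]) (.nd 3 (.nd 2 (.lf
  [4, 0, -5, 0, -1, 0]) (.nd 1 (.lf [1, 0, -71, 0, -7, 0]) (.nd 0 (.lf [16, 0, -6, 0, -3, 0])
  (.lf [64, 0, -34, 0, -15, 0])))) (.lf [4, 0, -18, 0, -2, 0])))) (.lf [1, 0, -1, 0, 0, 0])))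
  (.nd 2 (.lf [16, 0, 0, 0, -1, 0]) (.nd 1 (.nd 0 (.lf [1, 0, 0, 0, 0, 0]) (.nd 3 (.nd 2 (.lf
  [16, 0, 0, 0, -2, 0]) (.nd 1 (.nd 0 (.lf [1, 0, 0, 0, 0, 0]) (.lf [64, 0, 0, 0, -7, 0])) (.nd 0
  (.lf [1, 0, 0, 0, 0, 0]) (.lf [64, 0, 0, 0, -11, 0])))) (.nd 2 (.lf [16, -1, 0, 0, -2, 0]) (.nd
  1 (.lf [16, 0, 0, 0, -1, 0]) (.nd 0 (.lf [1, 0, 0, 0, 0, 0]) (.nd 3 (.lf [64, 0, 0, 0, -9, 0])
  (.nd 2 (.lf [16, 0, 0, 0, -2, 0]) (.nd 1 (.lf [64, 0, 0, 0, -7, 0]) (.lf [16, 0, 0, 0, -2,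
  0]))))))))) (.lf [1, 0, 0, 0, 0, 0])))) (.lf [16, 0, 0, 0, -1, 0]))) (.nd 3 (.lf [1, 0, -30, 0,
  -3, 0]) (.nd 2 (.nd 1 (.nd 3 (.nd 0 (.lf [256, 0, -141, 0, -59, 0]) (.nd 2 (.lf [1, 0, -1, 0,
  -1, 0]) (.nd 3 (.nd 1 (.lf [16, 0, -2, 0, -5, 0]) (.nd 2 (.lf [4, 0, -4, 0, -2, 0]) (.nd 2 (.lf
  [1, 0, -4, 0, -1, 0]) (.nd 0 (.lf [4, 0, -2, 0, -1, 0]) (.lf [1, 0, 0, 0, -26, 0]))))) (.lf [1,
  0, -17, 0, -2, 0])))) (.nd 0 (.lf [64, 0, 0, 0, -1, 0]) (.nd 2 (.lf [1, 0, -3, 0, -1, 0]) (.nd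
  1 (.nd 3 (.lf [64, 0, 0, 0, -17, 0]) (.nd 0 (.lf [64, -1, 0, 0, -13, 0]) (.lf [1, -2, 0, 0, -2,
  0]))) (.nd 3 (.nd 2 (.lf [4, 0, -6, 0, -2, 0]) (.nd 0 (.lf [16, 0, 0, 0, -3, 0]) (.lf [4, 0, 0,
  0, -1, 0]))) (.nd 2 (.lf [16, 0, -15, 0, -5, 0]) (.nd 0 (.lf [16, -1, 0, 0, -2, 0]) (.lf [16,
  0, 0, 0, -3, 0])))))))) (.nd 0 (.nd 3 (.nd 2 (.lf [1, 0, -2, 0, -1, 0]) (.nd 1 (.nd 2 (.lf [4,
  0, -6, 0, -2, 0]) (.nd 3 (.nd 0 (.lf [16, 0, -1, 0, -5, 0]) (.lf [1, 0, 0, 0, 0, 0])) (.lf [4,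
  0, -51, 0, -7, 0]))) (.nd 2 (.lf [1, 0, -7, 0, -1, 0]) (.nd 3 (.lf [256, 0, 0, 0, -87, 0]) (.lf
  [1, 0, -169, 0, -19, 0]))))) (.nd 2 (.lf [1, 0, -15, 0, -2, 0]) (.nd 1 (.nd 3 (.lf [4, 0, 0, 0,
  -1, 0]) (.nd 0 (.lf [64, -6, 0, 0, -14, 0]) (.lf [1, 0, 0, 0, 0, 0]))) (.nd 0 (.nd 3 (.lf [16,
  0, 0, 0, -5, 0]) (.nd 2 (.lf [4, 0, 0, 0, -2, 0]) (.lf [256, -88, 0, 0, -78, 0]))) (.lf [4, 0,
  0, 0, -1, 0]))))) (.lf [16, -2, 0, 0, -8, 0]))) (.lf [1, 0, -6, 0, -2, 0])))) (.lf [1, 0, -14,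
  0, -2, 0]))

theorem Nca_k : chk3 127 [2, 4, 2, 2] [38, 0, 0, 0] [45, 6, 1, 1] [100, 25, 1, 3] ([Nca_p0] ++ [Nca_c0, Nca_c1, Nca_c2, Nca_c3, Nca_c4])
    (okN (List.length [Nca_p0])) (fun u => [u]) Nca_t = true := by decide +kernel

theorem Nca (a e o h : ℝ)
    (l0 : (38 : ℝ) ≤ 100 * a) (u0 : 100 * a ≤ 45)
    (l1 : (0 : ℝ) ≤ 25 * e) (u1 : 25 * e ≤ 6)
    (l2 : (0 : ℝ) ≤ o) (u2 : o ≤ 1)
    (l3 : (0 : ℝ) ≤ 3 * h) (u3 : 3 * h ≤ 1)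
    (c0 : 0 ≤ (120 * ((((1 + o) * ((1 - a) - e)) + (((1 - o) * a) * e)) + h)) - (240 * (a * (1 -
    a))))
    (c1 : 0 ≤ (240 * (a * (1 - a))) - (108 * ((((1 + o) * ((1 - a) - e)) + (((1 - o) * a) * e)) +
    h)))
    (c2 : 0 ≤ (20 * (a * (1 - a))) - (((20 * a) - 1) * ((((1 + o) * ((1 - a) - e)) + (((1 - o) *
    a) * e)) + h)))
    (c3 : 0 ≤ (300 * (a * (1 - a))) - ((((1000 * e) - 1151) + (2700 * a)) * ((((1 + o) * ((1 - a)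
    - e)) + (((1 - o) * a) * e)) + h)))
    (c4 : 0 ≤ (1 - a) - (((1 + o) * ((1 - a) - e)) + (((1 - o) * a) * e)))
    :
    0 ≤ (900 * (((((((1 + o) * ((1 - a) - e)) + (((1 - o) * a) * e)) + h) - (a * (1 - a))) - (((1
    + o) * ((1 - a) - e)) * ((1 - a) - e))) - ((h + (((1 - o) * a) * e)) * (h + (((1 - o) * a) *
    e))))) - ((((((225 * (8 - (e * e))) * a) * h) + ((((225 * e) * e) * a) * ((((1 + o) * ((1 -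
    a) - e)) + (((1 - o) * a) * e)) + h))) - (((25 * ((2 - e) * (2 - e))) * ((1 - a) - (((1 + o)
    * ((1 - a) - e)) + (((1 - o) * a) * e)))) * ((16 * a) - 4))) + (((((900 * (2 - e)) * a) -
    ((180 * ((2 - e) * (2 - e))) * a)) + (36 * ((2 - e) * (2 - e)))) * (((1 + o) * (1 - e)) *
    e))) := by
  have hbx := some_nonneg3 Nca_k [a, e, o, h] rfl
    (by simp only [InBox]; push_cast; exact ⟨⟨by norm_num, by norm_num⟩, ⟨by linarith, by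
    linarith⟩, ⟨by norm_num, by norm_num⟩, ⟨by linarith, by linarith⟩, ⟨by norm_num, by
    norm_num⟩, ⟨by linarith, by linarith⟩, ⟨by norm_num, by norm_num⟩, ⟨by linarith, by
    linarith⟩, trivial⟩)
    (by simp only [List.forall_mem_cons, List.not_mem_nil, false_imp_iff, implies_true, and_true,
    Nca_p0, Nca_c0, Nca_c1, Nca_c2, Nca_c3, Nca_c4, E.val, List.getD_cons_zero,
    List.getD_cons_succ, Int.cast_ofNat, Int.cast_one, Int.cast_zero]; exact ⟨c0, c1, c2, c3,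
    c4⟩)
  simpa only [List.mem_cons, List.not_mem_nil, or_false, exists_eq_or_imp, exists_eq_left,
  Nca_p0, Nca_c0, Nca_c1, Nca_c2, Nca_c3, Nca_c4, E.val, List.getD_cons_zero,
  List.getD_cons_succ, Int.cast_ofNat, Int.cast_one, Int.cast_zero] using hbx

def Ndp_p0 : E :=
  (.s (.s (.s (.s (.s (.a (.a (.m (.a (.c 1) (.v 2)) (.s (.s (.c 1) (.v 0)) (.v 1))) (.m (.m (.s
  (.c 1) (.v 2)) (.v 0)) (.v 1))) (.v 3)) (.m (.m (.a (.c 1) (.v 2)) (.s (.s (.c 1) (.v 0)) (.v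
  1))) (.s (.s (.c 1) (.v 0)) (.v 1)))) (.m (.a (.v 3) (.m (.m (.s (.c 1) (.v 2)) (.v 0)) (.v
  1))) (.a (.v 3) (.m (.m (.s (.c 1) (.v 2)) (.v 0)) (.v 1))))) (.m (.m (.v 0) (.s (.c 2) (.v
  0))) (.m (.m (.a (.c 1) (.v 2)) (.s (.c 1) (.v 1))) (.v 1)))) (.m (.m (.c 2) (.v 0)) (.v 3)))
  (.m (.v 0) (.a (.m (.a (.c 1) (.v 2)) (.s (.s (.c 1) (.v 0)) (.v 1))) (.m (.m (.s (.c 1) (.v
  2)) (.v 0)) (.v 1)))))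

def Ndp_c0 : E :=
  (.s (.m (.c 120) (.a (.a (.m (.a (.c 1) (.v 2)) (.s (.s (.c 1) (.v 0)) (.v 1))) (.m (.m (.s (.c
  1) (.v 2)) (.v 0)) (.v 1))) (.v 3))) (.m (.c 240) (.m (.v 0) (.s (.c 1) (.v 0)))))

def Ndp_c1 : E :=
  (.s (.m (.c 240) (.m (.v 0) (.s (.c 1) (.v 0)))) (.m (.c 108) (.a (.a (.m (.a (.c 1) (.v 2))
  (.s (.s (.c 1) (.v 0)) (.v 1))) (.m (.m (.s (.c 1) (.v 2)) (.v 0)) (.v 1))) (.v 3))))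

def Ndp_c2 : E :=
  (.s (.m (.c 20) (.m (.v 0) (.s (.c 1) (.v 0)))) (.m (.s (.m (.c 20) (.v 0)) (.c 1)) (.a (.a (.m
  (.a (.c 1) (.v 2)) (.s (.s (.c 1) (.v 0)) (.v 1))) (.m (.m (.s (.c 1) (.v 2)) (.v 0)) (.v 1)))
  (.v 3))))

def Ndp_c3 : E :=
  (.s (.m (.c 150) (.m (.v 0) (.s (.c 1) (.v 0)))) (.m (.a (.s (.m (.c 1000) (.v 1)) (.c 956))
  (.m (.c 2000) (.v 0))) (.a (.a (.m (.a (.c 1) (.v 2)) (.s (.s (.c 1) (.v 0)) (.v 1))) (.m (.m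
  (.s (.c 1) (.v 2)) (.v 0)) (.v 1))) (.v 3))))

def Ndp_c4 : E :=
  (.s (.a (.m (.a (.c 1) (.v 2)) (.s (.s (.c 1) (.v 0)) (.v 1))) (.m (.m (.s (.c 1) (.v 2)) (.v
  0)) (.v 1))) (.s (.c 1) (.v 0)))

def Ndp_t : Tr :=
  (.lf [64, 0, -1, 0, 0, -65])

theorem Ndp_k : chk3 53 [2, 2, 2, 2] [50, 0, 0, 0] [57, 3, 1, 1] [150, 10, 1, 3] ([Ndp_p0] ++ [Ndp_c0, Ndp_c1, Ndp_c2, Ndp_c3, Ndp_c4])
    (okN (List.length [Ndp_p0])) (fun u => [u]) Ndp_t = true := by decide +kernel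

theorem Ndp (a e o h : ℝ)
    (l0 : (50 : ℝ) ≤ 150 * a) (u0 : 150 * a ≤ 57)
    (l1 : (0 : ℝ) ≤ 10 * e) (u1 : 10 * e ≤ 3)
    (l2 : (0 : ℝ) ≤ o) (u2 : o ≤ 1)
    (l3 : (0 : ℝ) ≤ 3 * h) (u3 : 3 * h ≤ 1)
    (c0 : 0 ≤ (120 * ((((1 + o) * ((1 - a) - e)) + (((1 - o) * a) * e)) + h)) - (240 * (a * (1 -
    a))))
    (c1 : 0 ≤ (240 * (a * (1 - a))) - (108 * ((((1 + o) * ((1 - a) - e)) + (((1 - o) * a) * e)) +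
    h)))
    (c2 : 0 ≤ (20 * (a * (1 - a))) - (((20 * a) - 1) * ((((1 + o) * ((1 - a) - e)) + (((1 - o) *
    a) * e)) + h)))
    (c3 : 0 ≤ (150 * (a * (1 - a))) - ((((1000 * e) - 956) + (2000 * a)) * ((((1 + o) * ((1 - a)
    - e)) + (((1 - o) * a) * e)) + h)))
    (c4 : 0 ≤ (((1 + o) * ((1 - a) - e)) + (((1 - o) * a) * e)) - (1 - a))
    :
    0 ≤ ((((((((1 + o) * ((1 - a) - e)) + (((1 - o) * a) * e)) + h) - (((1 + o) * ((1 - a) - e))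
    * ((1 - a) - e))) - ((h + (((1 - o) * a) * e)) * (h + (((1 - o) * a) * e)))) - ((a * (2 - a))
    * (((1 + o) * (1 - e)) * e))) - ((2 * a) * h)) - (a * (((1 + o) * ((1 - a) - e)) + (((1 - o)
    * a) * e))) := by
  have hbx := some_nonneg3 Ndp_k [a, e, o, h] rfl
    (by simp only [InBox]; push_cast; exact ⟨⟨by norm_num, by norm_num⟩, ⟨by linarith, by
    linarith⟩, ⟨by norm_num, by norm_num⟩, ⟨by linarith, by linarith⟩, ⟨by norm_num, by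
    norm_num⟩, ⟨by linarith, by linarith⟩, ⟨by norm_num, by norm_num⟩, ⟨by linarith, by
    linarith⟩, trivial⟩)
    (by simp only [List.forall_mem_cons, List.not_mem_nil, false_imp_iff, implies_true, and_true,
    Ndp_p0, Ndp_c0, Ndp_c1, Ndp_c2, Ndp_c3, Ndp_c4, E.val, List.getD_cons_zero,
    List.getD_cons_succ, Int.cast_ofNat, Int.cast_one, Int.cast_zero]; exact ⟨c0, c1, c2, c3,
    c4⟩)
  simpa only [List.mem_cons, List.not_mem_nil, or_false, exists_eq_or_imp, exists_eq_left,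
  Ndp_p0, Ndp_c0, Ndp_c1, Ndp_c2, Ndp_c3, Ndp_c4, E.val, List.getD_cons_zero,
  List.getD_cons_succ, Int.cast_ofNat, Int.cast_one, Int.cast_zero] using hbx

def Ndz_p0 : E :=
  (.s (.m (.c 900) (.s (.s (.s (.a (.a (.m (.a (.c 1) (.v 2)) (.s (.s (.c 1) (.v 0)) (.v 1))) (.m
  (.m (.s (.c 1) (.v 2)) (.v 0)) (.v 1))) (.v 3)) (.m (.v 0) (.s (.c 1) (.v 0)))) (.m (.m (.a (.c
  1) (.v 2)) (.s (.s (.c 1) (.v 0)) (.v 1))) (.s (.s (.c 1) (.v 0)) (.v 1)))) (.m (.a (.v 3) (.m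
  (.m (.s (.c 1) (.v 2)) (.v 0)) (.v 1))) (.a (.v 3) (.m (.m (.s (.c 1) (.v 2)) (.v 0)) (.v
  1)))))) (.a (.a (.m (.m (.m (.c 225) (.s (.c 8) (.m (.v 1) (.v 1)))) (.v 0)) (.v 3)) (.m (.m
  (.c 100) (.m (.s (.c 2) (.v 1)) (.s (.c 2) (.v 1)))) (.s (.s (.c 1) (.v 0)) (.a (.m (.a (.c 1)
  (.v 2)) (.s (.s (.c 1) (.v 0)) (.v 1))) (.m (.m (.s (.c 1) (.v 2)) (.v 0)) (.v 1)))))) (.m (.m
  (.c 36) (.m (.s (.c 2) (.v 1)) (.s (.c 2) (.v 1)))) (.m (.m (.a (.c 1) (.v 2)) (.s (.c 1) (.v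
  1))) (.v 1)))))

def Ndz_c0 : E :=
  (.s (.m (.c 120) (.a (.a (.m (.a (.c 1) (.v 2)) (.s (.s (.c 1) (.v 0)) (.v 1))) (.m (.m (.s (.c
  1) (.v 2)) (.v 0)) (.v 1))) (.v 3))) (.m (.c 240) (.m (.v 0) (.s (.c 1) (.v 0)))))

def Ndz_c1 : E :=
  (.s (.m (.c 240) (.m (.v 0) (.s (.c 1) (.v 0)))) (.m (.c 108) (.a (.a (.m (.a (.c 1) (.v 2))
  (.s (.s (.c 1) (.v 0)) (.v 1))) (.m (.m (.s (.c 1) (.v 2)) (.v 0)) (.v 1))) (.v 3))))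

def Ndz_c2 : E :=
  (.s (.m (.c 20) (.m (.v 0) (.s (.c 1) (.v 0)))) (.m (.s (.m (.c 20) (.v 0)) (.c 1)) (.a (.a (.m
  (.a (.c 1) (.v 2)) (.s (.s (.c 1) (.v 0)) (.v 1))) (.m (.m (.s (.c 1) (.v 2)) (.v 0)) (.v 1)))
  (.v 3))))

def Ndz_c3 : E :=
  (.s (.m (.c 150) (.m (.v 0) (.s (.c 1) (.v 0)))) (.m (.a (.s (.m (.c 1000) (.v 1)) (.c 956))
  (.m (.c 2000) (.v 0))) (.a (.a (.m (.a (.c 1) (.v 2)) (.s (.s (.c 1) (.v 0)) (.v 1))) (.m (.m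
  (.s (.c 1) (.v 2)) (.v 0)) (.v 1))) (.v 3))))

def Ndz_c4 : E :=
  (.s (.s (.c 1) (.v 0)) (.a (.m (.a (.c 1) (.v 2)) (.s (.s (.c 1) (.v 0)) (.v 1))) (.m (.m (.s
  (.c 1) (.v 2)) (.v 0)) (.v 1))))

def Ndz_t : Tr :=
  (.nd 3 (.nd 2 (.nd 1 (.lf [1, 0, 0, 0, 0, 0]) (.nd 3 (.lf [1, 0, -15, 0, -2, 0]) (.nd 2 (.lf
  [1, 0, 0, 0, 0, 0]) (.nd 2 (.lf [1, 0, 0, 0, 0, 0]) (.nd 1 (.lf [1, 0, 0, 0, 0, 0]) (.nd 3 (.lf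
  [16, 0, -8, 0, -6, 0]) (.lf [4, 0, 0, 0, -1, 0]))))))) (.lf [1, 0, 0, 0, 0, 0])) (.lf [1, 0,
  -10, 0, -1, 0]))

theorem Ndz_k : chk3 93 [2, 4, 2, 2] [50, 0, 0, 0] [57, 3, 1, 1] [150, 10, 1, 3] ([Ndz_p0] ++ [Ndz_c0, Ndz_c1, Ndz_c2, Ndz_c3, Ndz_c4])
    (okN (List.length [Ndz_p0])) (fun u => [u]) Ndz_t = true := by decide +kernel

theorem Ndz (a e o h : ℝ)
    (l0 : (50 : ℝ) ≤ 150 * a) (u0 : 150 * a ≤ 57)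
    (l1 : (0 : ℝ) ≤ 10 * e) (u1 : 10 * e ≤ 3)
    (l2 : (0 : ℝ) ≤ o) (u2 : o ≤ 1)
    (l3 : (0 : ℝ) ≤ 3 * h) (u3 : 3 * h ≤ 1)
    (c0 : 0 ≤ (120 * ((((1 + o) * ((1 - a) - e)) + (((1 - o) * a) * e)) + h)) - (240 * (a * (1 -
    a))))
    (c1 : 0 ≤ (240 * (a * (1 - a))) - (108 * ((((1 + o) * ((1 - a) - e)) + (((1 - o) * a) * e)) +
    h)))
    (c2 : 0 ≤ (20 * (a * (1 - a))) - (((20 * a) - 1) * ((((1 + o) * ((1 - a) - e)) + (((1 - o) *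
    a) * e)) + h)))
    (c3 : 0 ≤ (150 * (a * (1 - a))) - ((((1000 * e) - 956) + (2000 * a)) * ((((1 + o) * ((1 - a)
    - e)) + (((1 - o) * a) * e)) + h)))
    (c4 : 0 ≤ (1 - a) - (((1 + o) * ((1 - a) - e)) + (((1 - o) * a) * e)))
    :
    0 ≤ (900 * (((((((1 + o) * ((1 - a) - e)) + (((1 - o) * a) * e)) + h) - (a * (1 - a))) - (((1
    + o) * ((1 - a) - e)) * ((1 - a) - e))) - ((h + (((1 - o) * a) * e)) * (h + (((1 - o) * a) *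
    e))))) - (((((225 * (8 - (e * e))) * a) * h) + ((100 * ((2 - e) * (2 - e))) * ((1 - a) - (((1
    + o) * ((1 - a) - e)) + (((1 - o) * a) * e))))) + ((36 * ((2 - e) * (2 - e))) * (((1 + o) *
    (1 - e)) * e))) := by
  have hbx := some_nonneg3 Ndz_k [a, e, o, h] rfl
    (by simp only [InBox]; push_cast; exact ⟨⟨by norm_num, by norm_num⟩, ⟨by linarith, by
    linarith⟩, ⟨by norm_num, by norm_num⟩, ⟨by linarith, by linarith⟩, ⟨by norm_num, by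
    norm_num⟩, ⟨by linarith, by linarith⟩, ⟨by norm_num, by norm_num⟩, ⟨by linarith, by
    linarith⟩, trivial⟩)
    (by simp only [List.forall_mem_cons, List.not_mem_nil, false_imp_iff, implies_true, and_true,
    Ndz_p0, Ndz_c0, Ndz_c1, Ndz_c2, Ndz_c3, Ndz_c4, E.val, List.getD_cons_zero,
    List.getD_cons_succ, Int.cast_ofNat, Int.cast_one, Int.cast_zero]; exact ⟨c0, c1, c2, c3,
    c4⟩)
  simpa only [List.mem_cons, List.not_mem_nil, or_false, exists_eq_or_imp, exists_eq_left,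
  Ndz_p0, Ndz_c0, Ndz_c1, Ndz_c2, Ndz_c3, Ndz_c4, E.val, List.getD_cons_zero,
  List.getD_cons_succ, Int.cast_ofNat, Int.cast_one, Int.cast_zero] using hbx

def Nda_p0 : E :=
  (.s (.m (.c 900) (.s (.s (.s (.a (.a (.m (.a (.c 1) (.v 2)) (.s (.s (.c 1) (.v 0)) (.v 1))) (.m
  (.m (.s (.c 1) (.v 2)) (.v 0)) (.v 1))) (.v 3)) (.m (.v 0) (.s (.c 1) (.v 0)))) (.m (.m (.a (.c
  1) (.v 2)) (.s (.s (.c 1) (.v 0)) (.v 1))) (.s (.s (.c 1) (.v 0)) (.v 1)))) (.m (.a (.v 3) (.m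
  (.m (.s (.c 1) (.v 2)) (.v 0)) (.v 1))) (.a (.v 3) (.m (.m (.s (.c 1) (.v 2)) (.v 0)) (.v
  1)))))) (.a (.s (.a (.m (.m (.m (.c 225) (.s (.c 8) (.m (.v 1) (.v 1)))) (.v 0)) (.v 3)) (.m
  (.m (.m (.m (.c 225) (.v 1)) (.v 1)) (.v 0)) (.a (.a (.m (.a (.c 1) (.v 2)) (.s (.s (.c 1) (.v
  0)) (.v 1))) (.m (.m (.s (.c 1) (.v 2)) (.v 0)) (.v 1))) (.v 3)))) (.m (.m (.m (.c 25) (.m (.s
  (.c 2) (.v 1)) (.s (.c 2) (.v 1)))) (.s (.s (.c 1) (.v 0)) (.a (.m (.a (.c 1) (.v 2)) (.s (.s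
  (.c 1) (.v 0)) (.v 1))) (.m (.m (.s (.c 1) (.v 2)) (.v 0)) (.v 1))))) (.s (.m (.c 16) (.v 0))
  (.c 4)))) (.m (.a (.s (.m (.m (.c 900) (.s (.c 2) (.v 1))) (.v 0)) (.m (.m (.c 180) (.m (.s (.c
  2) (.v 1)) (.s (.c 2) (.v 1)))) (.v 0))) (.m (.c 36) (.m (.s (.c 2) (.v 1)) (.s (.c 2) (.v
  1))))) (.m (.m (.a (.c 1) (.v 2)) (.s (.c 1) (.v 1))) (.v 1)))))

def Nda_c0 : E :=
  (.s (.m (.c 120) (.a (.a (.m (.a (.c 1) (.v 2)) (.s (.s (.c 1) (.v 0)) (.v 1))) (.m (.m (.s (.c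
  1) (.v 2)) (.v 0)) (.v 1))) (.v 3))) (.m (.c 240) (.m (.v 0) (.s (.c 1) (.v 0)))))

def Nda_c1 : E :=
  (.s (.m (.c 240) (.m (.v 0) (.s (.c 1) (.v 0)))) (.m (.c 108) (.a (.a (.m (.a (.c 1) (.v 2))
  (.s (.s (.c 1) (.v 0)) (.v 1))) (.m (.m (.s (.c 1) (.v 2)) (.v 0)) (.v 1))) (.v 3))))

def Nda_c2 : E :=
  (.s (.m (.c 20) (.m (.v 0) (.s (.c 1) (.v 0)))) (.m (.s (.m (.c 20) (.v 0)) (.c 1)) (.a (.a (.m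
  (.a (.c 1) (.v 2)) (.s (.s (.c 1) (.v 0)) (.v 1))) (.m (.m (.s (.c 1) (.v 2)) (.v 0)) (.v 1)))
  (.v 3))))

def Nda_c3 : E :=
  (.s (.m (.c 150) (.m (.v 0) (.s (.c 1) (.v 0)))) (.m (.a (.s (.m (.c 1000) (.v 1)) (.c 956))
  (.m (.c 2000) (.v 0))) (.a (.a (.m (.a (.c 1) (.v 2)) (.s (.s (.c 1) (.v 0)) (.v 1))) (.m (.m
  (.s (.c 1) (.v 2)) (.v 0)) (.v 1))) (.v 3))))

def Nda_c4 : E :=
  (.s (.s (.c 1) (.v 0)) (.a (.m (.a (.c 1) (.v 2)) (.s (.s (.c 1) (.v 0)) (.v 1))) (.m (.m (.s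
  (.c 1) (.v 2)) (.v 0)) (.v 1))))

def Nda_t : Tr :=
  (.nd 3 (.nd 1 (.lf [1, 0, 0, 0, 0, 0]) (.nd 3 (.lf [4, 0, -75, 0, -10, 0]) (.nd 1 (.lf [1, 0,
  0, 0, 0, 0]) (.nd 2 (.nd 3 (.nd 2 (.lf [1, 0, -3, 0, -1, 0]) (.nd 0 (.lf [1, 0, 0, 0, 0, 0])
  (.nd 1 (.lf [4, 0, -3, 0, 0, 0]) (.lf [64, 0, -26, 0, -31, 0])))) (.nd 2 (.nd 1 (.lf [4, 0, -1,
  0, 0, 0]) (.nd 0 (.lf [1, 0, 0, 0, 0, 0]) (.nd 3 (.lf [1, 0, -7, 0, -2, 0]) (.nd 2 (.nd 0 (.lf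
  [16, 0, -4, 0, -9, 0]) (.nd 1 (.lf [16, 0, -4, 0, -9, 0]) (.lf [4, 0, 0, 0, -3, 0]))) (.lf [1,
  0, -6, 0, -2, 0]))))) (.nd 0 (.lf [1, 0, 0, 0, 0, 0]) (.nd 1 (.lf [1, 0, 0, 0, 0, 0]) (.nd 3
  (.lf [16, 0, 0, 0, -7, 0]) (.nd 2 (.nd 0 (.lf [16, 0, 0, 0, -7, 0]) (.nd 1 (.lf [64, 0, 0, 0,
  -31, 0]) (.lf [16, 0, 0, 0, -9, 0]))) (.nd 1 (.lf [16, 0, 0, 0, -6, 0]) (.lf [16, -5, 0, 0, -7,
  0])))))))) (.lf [1, 0, -6, 0, -2, 0]))))) (.lf [1, 0, -11, 0, -1, 0]))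

theorem Nda_k : chk3 117 [2, 4, 2, 2] [50, 0, 0, 0] [57, 3, 1, 1] [150, 10, 1, 3] ([Nda_p0] ++ [Nda_c0, Nda_c1, Nda_c2, Nda_c3, Nda_c4])
    (okN (List.length [Nda_p0])) (fun u => [u]) Nda_t = true := by decide +kernel

theorem Nda (a e o h : ℝ)
    (l0 : (50 : ℝ) ≤ 150 * a) (u0 : 150 * a ≤ 57)
    (l1 : (0 : ℝ) ≤ 10 * e) (u1 : 10 * e ≤ 3)
    (l2 : (0 : ℝ) ≤ o) (u2 : o ≤ 1)
    (l3 : (0 : ℝ) ≤ 3 * h) (u3 : 3 * h ≤ 1)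
    (c0 : 0 ≤ (120 * ((((1 + o) * ((1 - a) - e)) + (((1 - o) * a) * e)) + h)) - (240 * (a * (1 -
    a))))
    (c1 : 0 ≤ (240 * (a * (1 - a))) - (108 * ((((1 + o) * ((1 - a) - e)) + (((1 - o) * a) * e)) +
    h)))
    (c2 : 0 ≤ (20 * (a * (1 - a))) - (((20 * a) - 1) * ((((1 + o) * ((1 - a) - e)) + (((1 - o) *
    a) * e)) + h)))
    (c3 : 0 ≤ (150 * (a * (1 - a))) - ((((1000 * e) - 956) + (2000 * a)) * ((((1 + o) * ((1 - a)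
    - e)) + (((1 - o) * a) * e)) + h)))
    (c4 : 0 ≤ (1 - a) - (((1 + o) * ((1 - a) - e)) + (((1 - o) * a) * e)))
    :
    0 ≤ (900 * (((((((1 + o) * ((1 - a) - e)) + (((1 - o) * a) * e)) + h) - (a * (1 - a))) - (((1
    + o) * ((1 - a) - e)) * ((1 - a) - e))) - ((h + (((1 - o) * a) * e)) * (h + (((1 - o) * a) *
    e))))) - ((((((225 * (8 - (e * e))) * a) * h) + ((((225 * e) * e) * a) * ((((1 + o) * ((1 -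
    a) - e)) + (((1 - o) * a) * e)) + h))) - (((25 * ((2 - e) * (2 - e))) * ((1 - a) - (((1 + o)
    * ((1 - a) - e)) + (((1 - o) * a) * e)))) * ((16 * a) - 4))) + (((((900 * (2 - e)) * a) -
    ((180 * ((2 - e) * (2 - e))) * a)) + (36 * ((2 - e) * (2 - e)))) * (((1 + o) * (1 - e)) *
    e))) := by
  have hbx := some_nonneg3 Nda_k [a, e, o, h] rfl
    (by simp only [InBox]; push_cast; exact ⟨⟨by norm_num, by norm_num⟩, ⟨by linarith, by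
    linarith⟩, ⟨by norm_num, by norm_num⟩, ⟨by linarith, by linarith⟩, ⟨by norm_num, by
    norm_num⟩, ⟨by linarith, by linarith⟩, ⟨by norm_num, by norm_num⟩, ⟨by linarith, by
    linarith⟩, trivial⟩)
    (by simp only [List.forall_mem_cons, List.not_mem_nil, false_imp_iff, implies_true, and_true,
    Nda_p0, Nda_c0, Nda_c1, Nda_c2, Nda_c3, Nda_c4, E.val, List.getD_cons_zero,
    List.getD_cons_succ, Int.cast_ofNat, Int.cast_one, Int.cast_zero]; exact ⟨c0, c1, c2, c3,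
    c4⟩)
  simpa only [List.mem_cons, List.not_mem_nil, or_false, exists_eq_or_imp, exists_eq_left,
  Nda_p0, Nda_c0, Nda_c1, Nda_c2, Nda_c3, Nda_c4, E.val, List.getD_cons_zero,
  List.getD_cons_succ, Int.cast_ofNat, Int.cast_one, Int.cast_zero] using hbx

end Pool.Agent.Lib.MP_43bc59_co.P18
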