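import Pool.Agent.Lib.MP_43bc59_co.F_Q2
import Pool.Agent.Lib.MP_43bc59_co.F_N0

set_option autoImplicit false
set_option maxRecDepth 100000

namespace Pool.Agent.Lib.MP_43bc59_co.P18

open Bx

open P36

variable {ι : Type} [Fintype ι] [DecidableEq ι] {a θ : ℝ} {w g A Φ : ι → ℝ} {c G : ι → ι → ℝ}

lemma near_a (H : Hyp a θ w g A Φ c G) (x y : ι) (hx : a ≤ g x) (hy : ∀ j, g y ≤ g j)
    (t1 : 9 / 20 ≤ θ) (a1 : 456 ≤ 1200 * a) (a2 : 1200 * a ≤ 564) (t2 : 1200 * θ ≤ 560)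
    (a3 : a ≤ θ + 1 / 20) (e1 : 1000 * (1 - g x) ≤ 250)
    (e2 : 1000 * (1 - g x) ≤ 1064 - 2700 * a + 500 * θ) : Goal a θ w g Φ c G := by
  have e0 : 0 ≤ 1 - g x := by linarith [H.g1 x]
  refine R36.near3 H x y hx hy (by linarith) (by linarith) (by linarith) a3 (by linarith) (by
    have : 3 / 10 ≤ g x - a := by linarith
    nlinarith) (fun o h o0 o1 h0 h1 hh S0 => ?_)
  generalize 1 - g x = e at *
  have c0 := mul_nonneg (sub_nonneg.2 t2) S0
  have c1 := mul_nonneg (sub_nonneg.2 t1) S0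
  have c2 := mul_nonneg (sub_nonneg.2 a3) S0
  have c3 := mul_nonneg (sub_nonneg.2 e2) S0
  unfold R36.Fp R36.Fm R36.Bs
  unfold R36.As at *
  refine ⟨fun k => ?_, fun k => ⟨?_, ?_⟩⟩
  · linarith [Nap a e o h (by linarith) (by linarith) (by linarith) (by linarith) o0 o1 (by linarith)
      h1 (by linarith) (by linarith) (by linarith) (by linarith) (by linarith)]
  · linarith [Naz a e o h (by linarith) (by linarith) (by linarith) (by linarith) o0 o1 (by linarith)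
      h1 (by linarith) (by linarith) (by linarith) (by linarith) (by linarith)]
  · linarith [Naa a e o h (by linarith) (by linarith) (by linarith) (by linarith) o0 o1 (by linarith)
      h1 (by linarith) (by linarith) (by linarith) (by linarith) (by linarith)]

lemma near_b (H : Hyp a θ w g A Φ c G) (x y : ι) (hx : a ≤ g x) (hy : ∀ j, g y ≤ g j)
    (t1 : 9 / 20 ≤ θ) (a1 : 552 ≤ 1200 * a) (a2 : 1200 * a ≤ 576) (t2 : 1200 * θ ≤ 560)
    (a3 : a ≤ θ + 1 / 20) (e1 : 1000 * (1 - g x) ≤ 100)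
    (e2 : 1000 * (1 - g x) ≤ 733 - 2050 * a + 550 * θ) : Goal a θ w g Φ c G := by
  have e0 : 0 ≤ 1 - g x := by linarith [H.g1 x]
  refine R36.near3 H x y hx hy (by linarith) (by linarith) (by linarith) a3 (by linarith) (by
    have : 3 / 10 ≤ g x - a := by linarith
    nlinarith) (fun o h o0 o1 h0 h1 hh S0 => ?_)
  generalize 1 - g x = e at *
  have c0 := mul_nonneg (sub_nonneg.2 t2) S0
  have c1 := mul_nonneg (sub_nonneg.2 t1) S0
  have c2 := mul_nonneg (sub_nonneg.2 a3) S0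
  have c3 := mul_nonneg (sub_nonneg.2 e2) S0
  unfold R36.Fp R36.Fm R36.Bs
  unfold R36.As at *
  refine ⟨fun k => ?_, fun k => ⟨?_, ?_⟩⟩
  · linarith [Nbp a e o h (by linarith) (by linarith) (by linarith) (by linarith) o0 o1 (by linarith)
      h1 (by linarith) (by linarith) (by linarith) (by linarith) (by linarith)]
  · linarith [Nbz a e o h (by linarith) (by linarith) (by linarith) (by linarith) o0 o1 (by linarith)
      h1 (by linarith) (by linarith) (by linarith) (by linarith) (by linarith)]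
  · linarith [Nba a e o h (by linarith) (by linarith) (by linarith) (by linarith) o0 o1 (by linarith)
      h1 (by linarith) (by linarith) (by linarith) (by linarith) (by linarith)]

lemma near_c (H : Hyp a θ w g A Φ c G) (x y : ι) (hx : a ≤ g x) (hy : ∀ j, g y ≤ g j)
    (t1 : 9 / 20 ≤ θ) (a1 : 456 ≤ 1200 * a) (a2 : 1200 * a ≤ 540) (t2 : 1200 * θ ≤ 600)
    (a3 : a ≤ θ + 1 / 20) (e1 : 1000 * (1 - g x) ≤ 240)
    (e2 : 1000 * (1 - g x) ≤ 1151 - 2700 * a + 300 * θ) : Goal a θ w g Φ c G := by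
  have e0 : 0 ≤ 1 - g x := by linarith [H.g1 x]
  refine R36.near3 H x y hx hy (by linarith) (by linarith) (by linarith) a3 (by linarith) (by
    have : 3 / 10 ≤ g x - a := by linarith
    nlinarith) (fun o h o0 o1 h0 h1 hh S0 => ?_)
  generalize 1 - g x = e at *
  have c0 := mul_nonneg (sub_nonneg.2 t2) S0
  have c1 := mul_nonneg (sub_nonneg.2 t1) S0
  have c2 := mul_nonneg (sub_nonneg.2 a3) S0
  have c3 := mul_nonneg (sub_nonneg.2 e2) S0
  unfold R36.Fp R36.Fm R36.Bs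
  unfold R36.As at *
  refine ⟨fun k => ?_, fun k => ⟨?_, ?_⟩⟩
  · linarith [Ncp a e o h (by linarith) (by linarith) (by linarith) (by linarith) o0 o1 (by linarith)
      h1 (by linarith) (by linarith) (by linarith) (by linarith) (by linarith)]
  · linarith [Ncz a e o h (by linarith) (by linarith) (by linarith) (by linarith) o0 o1 (by linarith)
      h1 (by linarith) (by linarith) (by linarith) (by linarith) (by linarith)]
  · linarith [Nca a e o h (by linarith) (by linarith) (by linarith) (by linarith) o0 o1 (by linarith)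
      h1 (by linarith) (by linarith) (by linarith) (by linarith) (by linarith)]

lemma near_d (H : Hyp a θ w g A Φ c G) (x y : ι) (hx : a ≤ g x) (hy : ∀ j, g y ≤ g j)
    (t1 : 9 / 20 ≤ θ) (a1 : 400 ≤ 1200 * a) (a2 : 1200 * a ≤ 456) (t2 : 1200 * θ ≤ 600)
    (a3 : a ≤ θ + 1 / 20) (e1 : 1000 * (1 - g x) ≤ 300)
    (e2 : 1000 * (1 - g x) ≤ 956 - 2000 * a + 150 * θ) : Goal a θ w g Φ c G := by
  have e0 : 0 ≤ 1 - g x := by linarith [H.g1 x]
  refine R36.near3 H x y hx hy (by linarith) (by linarith) (by linarith) a3 (by linarith) (by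
    have : 3 / 10 ≤ g x - a := by linarith
    nlinarith) (fun o h o0 o1 h0 h1 hh S0 => ?_)
  generalize 1 - g x = e at *
  have c0 := mul_nonneg (sub_nonneg.2 t2) S0
  have c1 := mul_nonneg (sub_nonneg.2 t1) S0
  have c2 := mul_nonneg (sub_nonneg.2 a3) S0
  have c3 := mul_nonneg (sub_nonneg.2 e2) S0
  unfold R36.Fp R36.Fm R36.Bs
  unfold R36.As at *
  refine ⟨fun k => ?_, fun k => ⟨?_, ?_⟩⟩
  · linarith [Ndp a e o h (by linarith) (by linarith) (by linarith) (by linarith) o0 o1 (by linarith)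
      h1 (by linarith) (by linarith) (by linarith) (by linarith) (by linarith)]
  · linarith [Ndz a e o h (by linarith) (by linarith) (by linarith) (by linarith) o0 o1 (by linarith)
      h1 (by linarith) (by linarith) (by linarith) (by linarith) (by linarith)]
  · linarith [Nda a e o h (by linarith) (by linarith) (by linarith) (by linarith) o0 o1 (by linarith)
      h1 (by linarith) (by linarith) (by linarith) (by linarith) (by linarith)]

def o : Tr := .lf [1]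

def z : Ck := ⟨0, o⟩

lemma Cov2.root {p : Pm} {R : ℝ → ℝ → ℝ → ℝ → Prop} {b : Bo} {x0 x1 y0 y1 : ℤ}
    (h : Cov2 p R b ⟨x0, x1, y0, y1, 100, 0, 100, 0⟩)
    (k : 0 < p.N ∧ 0 ≤ (Af.mk (-x0) (-p.α) (-p.β)).lo b ∧ 0 ≤ (Af.mk (x1 - p.N) p.α p.β).lo b
      ∧ 0 ≤ (Af.mk (-y0) (-p.γ) (-p.δ)).lo b ∧ 0 ≤ (Af.mk (y1 - p.N) p.γ p.δ).lo b) :
    St4 (fun a θ u v _ _ => (R a θ u v ∧ 0 ≤ p.Z.r a θ) ∧ b.In a θ) := by
  intro ι _ _ a θ w g A Φ c G H x y gx gy hx hy ⟨hR, hb⟩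
  have N0 : (0 : ℝ) < p.N := by exact_mod_cast k.1
  have b1 : 0 ≤ 1 - a := by linarith [H.a1]
  have q1 := mul_nonneg (Af.nn hb k.2.1) b1
  have q2 := mul_nonneg (Af.nn hb k.2.2.1) b1
  have q3 := mul_nonneg (Af.nn hb k.2.2.2.1) H.a0.le
  have q4 := mul_nonneg (Af.nn hb k.2.2.2.2) H.a0.le
  have r1 := mul_nonneg N0.le (sub_nonneg.2 gx)
  have r2 := mul_nonneg N0.le (sub_nonneg.2 (H.g1 x))
  have r3 := mul_nonneg N0.le (sub_nonneg.2 gy)
  have r4 := mul_nonneg N0.le (H.g0 y)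
  refine h ι a θ w g A Φ c G H x y gx gy hx hy ⟨hR, hb, ?_⟩
  unfold Xy.In
  unfold Af.r at *
  push_cast at *
  exact ⟨⟨by linarith, by linarith⟩, ⟨by linarith, by linarith⟩, ⟨by linarith [H.w1 x], by simp⟩,
    by linarith [H.w1 y], by simp⟩

section
variable {p : Pm} {R : ℝ → ℝ → ℝ → ℝ → Prop} {a0 a1 t0 t1 x0 x1 y0 y1 u0 u1 v0 v1 : ℤ} {b : Bo}
  {q : Xy}

lemma Cov2.sa (m : ℤ) (h : Cov2 p R ⟨a0, m, t0, t1⟩ q) (h' : Cov2 p R ⟨m, a1, t0, t1⟩ q) :
    Cov2 p R ⟨a0, a1, t0, t1⟩ q := by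
  intro ι _ _ a θ w g A Φ c G H x y gx gy hx hy ⟨hR, hb, hz⟩
  rcases le_total (1200 * a) m with e | e
  · exact h ι a θ w g A Φ c G H x y gx gy hx hy ⟨hR, ⟨hb.1, e, hb.2.2⟩, hz⟩
  · exact h' ι a θ w g A Φ c G H x y gx gy hx hy ⟨hR, ⟨e, hb.2⟩, hz⟩

lemma Cov2.st (m : ℤ) (h : Cov2 p R ⟨a0, a1, t0, m⟩ q) (h' : Cov2 p R ⟨a0, a1, m, t1⟩ q) :
    Cov2 p R ⟨a0, a1, t0, t1⟩ q := by
  intro ι _ _ a θ w g A Φ c G H x y gx gy hx hy ⟨hR, hb, hz⟩
  rcases le_total (1200 * θ) m with e | e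
  · exact h ι a θ w g A Φ c G H x y gx gy hx hy ⟨hR, ⟨hb.1, hb.2.1, hb.2.2.1, e⟩, hz⟩
  · exact h' ι a θ w g A Φ c G H x y gx gy hx hy ⟨hR, ⟨hb.1, hb.2.1, e, hb.2.2.2⟩, hz⟩

lemma Cov2.sx (m : ℤ) (h : Cov2 p R b ⟨x0, m, y0, y1, u0, u1, v0, v1⟩)
    (h' : Cov2 p R b ⟨m, x1, y0, y1, u0, u1, v0, v1⟩) :
    Cov2 p R b ⟨x0, x1, y0, y1, u0, u1, v0, v1⟩ := by
  intro ι _ _ a θ w g A Φ c G H x y gx gy hx hy ⟨hR, hb, hz⟩
  rcases le_total (p.N * (g x - a)) ((Af.mk m p.α p.β).r a θ * (1 - a)) with e | e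
  · exact h ι a θ w g A Φ c G H x y gx gy hx hy ⟨hR, hb, ⟨hz.1.1, e⟩, hz.2⟩
  · exact h' ι a θ w g A Φ c G H x y gx gy hx hy ⟨hR, hb, ⟨e, hz.1.2⟩, hz.2⟩

lemma Cov2.sy (m : ℤ) (h : Cov2 p R b ⟨x0, x1, y0, m, u0, u1, v0, v1⟩)
    (h' : Cov2 p R b ⟨x0, x1, m, y1, u0, u1, v0, v1⟩) :
    Cov2 p R b ⟨x0, x1, y0, y1, u0, u1, v0, v1⟩ := by
  intro ι _ _ a θ w g A Φ c G H x y gx gy hx hy ⟨hR, hb, hz⟩
  rcases le_total (p.N * (a - g y)) ((Af.mk m p.γ p.δ).r a θ * a) with e | e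
  · exact h ι a θ w g A Φ c G H x y gx gy hx hy ⟨hR, hb, hz.1, ⟨hz.2.1.1, e⟩, hz.2.2⟩
  · exact h' ι a θ w g A Φ c G H x y gx gy hx hy ⟨hR, hb, hz.1, ⟨e, hz.2.1.2⟩, hz.2.2⟩

end

/-- the regions -/
def Ri (_a θ _u _v : ℝ) : Prop := 9 / 20 ≤ θ

def Rii (a θ _u _v : ℝ) : Prop := 9 / 20 ≤ θ ∧ 10 * a + 14 * θ ≤ 11

def Rblob (a θ u v : ℝ) : Prop := 11 ≤ 10 * a + 14 * θ ∧ 55 - 110 * a + 30 * θ ≤ 100 * (1 - u)
  ∧ -55 + 80 * a + 60 * θ ≤ 100 * v

def Rla (_a θ u v : ℝ) : Prop := 9 / 20 ≤ θ ∧ 100 * v ≤ 3 ∧ -366 + 800 * θ ≤ 100 * (1 - u)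

def Rlb (a θ u v : ℝ) : Prop := 9 / 20 ≤ θ ∧ 100 * v ≤ 3
  ∧ -454 + 200 * a + 800 * θ ≤ 100 * (1 - u) ∧ 11 ≤ 10 * a + 14 * θ

def ci : List (List E) :=
  [[fm (-1) (-200) 0 0 0 1], [fm 12800 (-540000) 100000 1000 0 0, fm (-456) 1200 0 0 0 0, fm 564
  (-1200) 0 0 0 0, fm 560 0 (-1200) 0 0 0, fm (-150000) 0 0 1000 0 0, fm 1 (-20) 20 0 0 0], [fm
  (-53400) (-410000) 110000 1000 0 0, fm (-552) 1200 0 0 0 0, fm 576 (-1200) 0 0 0 0, fm 560 0
  (-1200) 0 0 0, fm (-180000) 0 0 1000 0 0, fm 1 (-20) 20 0 0 0], [fm (-8800) (-400000) 30000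
  1000 0 0, fm (-400) 1200 0 0 0 0, fm 456 (-1200) 0 0 0 0, fm 600 0 (-1200) 0 0 0, fm (-140000)
  0 0 1000 0 0, fm 1 (-20) 20 0 0 0]]

lemma cl_i : ∀ fs ∈ ci, Cl 200 Ri fs := by
  simp only [ci, List.forall_mem_cons, List.not_mem_nil, false_imp_iff, implies_true, and_true]
  refine ⟨?_, ?_, ?_, ?_⟩ <;>
    intro ι _ _ a θ w g A Φ c G H x y gx gy hx hy ⟨hR, hf⟩ <;>
    simp only [List.forall_mem_cons, List.not_mem_nil, false_imp_iff, implies_true, and_true,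
      fm_val] at hf <;> push_cast at hf
  · exact absurd (H.pu x) (by linarith)
  · obtain ⟨f1, f2, f3, f4, f5, f6⟩ := hf
    exact near_a H x y gx hy hR (by linarith) (by linarith) (by linarith) (by linarith)
      (by linarith) (by linarith)
  · obtain ⟨f1, f2, f3, f4, f5, f6⟩ := hf
    exact near_b H x y gx hy hR (by linarith) (by linarith) (by linarith) (by linarith)
      (by linarith) (by linarith)
  · obtain ⟨f1, f2, f3, f4, f5, f6⟩ := hf
    exact near_d H x y gx hy hR (by linarith) (by linarith) (by linarith) (by linarith)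
      (by linarith) (by linarith)

def cii : List (List E) :=
  [[fm (-1) (-200) 0 0 0 1], [fm 30200 (-540000) 60000 1000 0 0, fm (-456) 1200 0 0 0 0, fm 540
  (-1200) 0 0 0 0, fm 600 0 (-1200) 0 0 0, fm (-152000) 0 0 1000 0 0, fm 1 (-20) 20 0 0 0], [fm
  (-8800) (-400000) 30000 1000 0 0, fm (-400) 1200 0 0 0 0, fm 456 (-1200) 0 0 0 0, fm 600 0
  (-1200) 0 0 0, fm (-140000) 0 0 1000 0 0, fm 1 (-20) 20 0 0 0], [fm (-11001) 10000 14000 0 0
  0]]

lemma cl_ii : ∀ fs ∈ cii, Cl 200 Rii fs := by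
  simp only [cii, List.forall_mem_cons, List.not_mem_nil, false_imp_iff, implies_true, and_true]
  refine ⟨?_, ?_, ?_, ?_⟩ <;>
    intro ι _ _ a θ w g A Φ c G H x y gx gy hx hy ⟨hR, hf⟩ <;>
    simp only [List.forall_mem_cons, List.not_mem_nil, false_imp_iff, implies_true, and_true,
      fm_val] at hf <;> push_cast at hf
  · exact absurd (H.pu x) (by linarith)
  · obtain ⟨f1, f2, f3, f4, f5, f6⟩ := hf
    exact near_c H x y gx hy hR.1 (by linarith) (by linarith) (by linarith) (by linarith)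
      (by linarith) (by linarith)
  · obtain ⟨f1, f2, f3, f4, f5, f6⟩ := hf
    exact near_d H x y gx hy hR.1 (by linarith) (by linarith) (by linarith) (by linarith)
      (by linarith) (by linarith)
  · unfold Rii at hR
    exact absurd hf (by linarith [hR.2])

def cblob : List (List E) :=
  [[fm (-1) (-200) 0 0 0 1], [fm (-9001) (-22000) 6000 100 0 0], [fm (-11001) 16000 12000 0
  (-100) 0], [fm 10999 (-10000) (-14000) 0 0 0]]

lemma cl_blob : ∀ fs ∈ cblob, Cl 200 Rblob fs := by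
  simp only [cblob, List.forall_mem_cons, List.not_mem_nil, false_imp_iff, implies_true, and_true]
  refine ⟨?_, ?_, ?_, ?_⟩ <;>
    intro ι _ _ a θ w g A Φ c G H x y gx gy hx hy ⟨hR, hf⟩ <;>
    simp only [List.forall_mem_cons, List.not_mem_nil, false_imp_iff, implies_true, and_true,
      fm_val] at hf <;> push_cast at hf
  · exact absurd (H.pu x) (by linarith)
  · unfold Rblob at hR
    exact absurd hf (by linarith [hR.1, hR.2.1, hR.2.2])
  · unfold Rblob at hR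
    exact absurd hf (by linarith [hR.1, hR.2.1, hR.2.2])
  · unfold Rblob at hR
    exact absurd hf (by linarith [hR.1, hR.2.1, hR.2.2])

def cla : List (List E) :=
  [[fm (-1) (-200) 0 0 0 1], [fm (-601) 0 0 0 100 0], [fm (-93201) 0 160000 100 0 0], [fm 30200
  (-540000) 60000 1000 0 0, fm (-456) 1200 0 0 0 0, fm 540 (-1200) 0 0 0 0, fm 600 0 (-1200) 0 0
  0, fm (-152000) 0 0 1000 0 0, fm 1 (-20) 20 0 0 0]]

lemma cl_la : ∀ fs ∈ cla, Cl 200 Rla fs := by
  simp only [cla, List.forall_mem_cons, List.not_mem_nil, false_imp_iff, implies_true, and_true]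
  refine ⟨?_, ?_, ?_, ?_⟩ <;>
    intro ι _ _ a θ w g A Φ c G H x y gx gy hx hy ⟨hR, hf⟩ <;>
    simp only [List.forall_mem_cons, List.not_mem_nil, false_imp_iff, implies_true, and_true,
      fm_val] at hf <;> push_cast at hf
  · exact absurd (H.pu x) (by linarith)
  · unfold Rla at hR
    exact absurd hf (by linarith [hR.2.1, hR.2.2])
  · unfold Rla at hR
    exact absurd hf (by linarith [hR.2.1, hR.2.2])
  · obtain ⟨f1, f2, f3, f4, f5, f6⟩ := hf
    exact near_c H x y gx hy hR.1 (by linarith) (by linarith) (by linarith) (by linarith)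
      (by linarith) (by linarith)

def clb : List (List E) :=
  [[fm (-1) (-200) 0 0 0 1], [fm (-601) 0 0 0 100 0], [fm (-110801) 40000 160000 100 0 0], [fm
  30200 (-540000) 60000 1000 0 0, fm (-456) 1200 0 0 0 0, fm 540 (-1200) 0 0 0 0, fm 600 0
  (-1200) 0 0 0, fm (-152000) 0 0 1000 0 0, fm 1 (-20) 20 0 0 0], [fm 10999 (-10000) (-14000) 0 0
  0]]

lemma cl_lb : ∀ fs ∈ clb, Cl 200 Rlb fs := by
  simp only [clb, List.forall_mem_cons, List.not_mem_nil, false_imp_iff, implies_true, and_true]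
  refine ⟨?_, ?_, ?_, ?_, ?_⟩ <;>
    intro ι _ _ a θ w g A Φ c G H x y gx gy hx hy ⟨hR, hf⟩ <;>
    simp only [List.forall_mem_cons, List.not_mem_nil, false_imp_iff, implies_true, and_true,
      fm_val] at hf <;> push_cast at hf
  · exact absurd (H.pu x) (by linarith)
  · unfold Rlb at hR
    exact absurd hf (by linarith [hR.2.1, hR.2.2.1, hR.2.2.2])
  · unfold Rlb at hR
    exact absurd hf (by linarith [hR.2.1, hR.2.2.1, hR.2.2.2])
  · obtain ⟨f1, f2, f3, f4, f5, f6⟩ := hf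
    exact near_c H x y gx hy hR.1 (by linarith) (by linarith) (by linarith) (by linarith)
      (by linarith) (by linarith)
  · unfold Rlb at hR
    exact absurd hf (by linarith [hR.2.1, hR.2.2.1, hR.2.2.2])

end Pool.Agent.Lib.MP_43bc59_co.P18
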