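import Pool.Agent.Lib.MP_43bc59_co.F_P

set_option autoImplicit false

namespace Pool.Agent.Lib.MP_43bc59_co

open Finset

variable {ι : Type} [Fintype ι] [DecidableEq ι] {a θ : ℝ} {w g A Φ : ι → ℝ} {c G : ι → ι → ℝ}

namespace P18

open P36

/-- one explicit atom, the rest at its worst admissible position -/
lemma side2 (w δ val : ι → ℝ) (x : ι) {U M : ℝ} (Y : ℝ → ℝ) (C : ℝ → Prop)
    (hw : ∀ j, 1 ≤ w j) (hM : ∑ j, w j * δ j ≤ M) (C0 : C 0) (hC : ∀ j, j ≠ x → C (δ j / U))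
    (lo : ∀ j, j ≠ x → δ j * Y (δ j / U) ≤ val j) (d0 : ∀ j, 0 ≤ δ j) (Y0 : Y 0 ≤ 0) :
    ∃ t, C t ∧ w x * val x + (M - w x * δ x) * Y t ≤ ∑ j, w j * val j := by
  classical
  obtain ⟨t, ht, hm⟩ := exists_min_image
    (insert 0 ((univ.erase x).image (fun j => δ j / U))) Y (insert_nonempty _ _)
  have m0 := hm 0 (mem_insert_self _ _)
  refine ⟨t, ?_, ?_⟩
  · simp only [mem_insert, mem_image, mem_erase, mem_univ, and_true] at ht
    rcases ht with h | ⟨j, h, h'⟩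
    · rw [h]; exact C0
    · rw [← h']; exact hC j h
  · rw [← add_sum_erase _ _ (mem_univ x)] at hM ⊢
    have k : (∑ j ∈ univ.erase x, w j * δ j) * Y t ≤ ∑ j ∈ univ.erase x, w j * val j := by
      rw [sum_mul]
      refine sum_le_sum (fun j hj => ?_)
      have a1 := hm _ (mem_insert_of_mem (mem_image_of_mem (fun j => δ j / U) hj))
      have a2 := mul_le_mul_of_nonneg_left a1 (d0 j)
      have a3 := mul_le_mul_of_nonneg_left (a2.trans (lo j (mem_erase.1 hj).1))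
        (show 0 ≤ w j by linarith [hw j])
      linarith
    have := mul_le_mul_of_nonpos_right (show ∑ j ∈ univ.erase x, w j * δ j ≤ M - w x * δ x by
      linarith) (show Y t ≤ 0 by linarith)
    linarith

/-- the four vertices for the weight and the position of the explicit atom -/
def Vx (V P0 P1 W0 W1 e ξ : ℝ) : Prop :=
  (ξ = P0 ∧ (e = V ∨ e = W0)) ∨ (ξ = P1 ∧ (e = V ∨ e = W1))

lemma vert {V P0 P1 W0 W1 P u : ℝ} (f : ℝ → ℝ)
    (hf : ∃ κ α β : ℝ, 0 ≤ κ ∧ ∀ d, f d = -κ * d ^ 2 + α * d + β) (h0 : P0 ≤ P) (h1 : P ≤ P1)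
    (h01 : P0 < P1) (V0 : 0 ≤ V) (hV : V ≤ u) (W00 : 0 < W0) (W10 : 0 < W1)
    (cap : u * ((P1 - P) * W1 + (P - P0) * W0) ≤ (P1 - P0) * (W0 * W1)) :
    ∃ e ξ, Vx V P0 P1 W0 W1 e ξ ∧ e * f ξ ≤ u * f P := by
  obtain ⟨κ, α, β, κ0, hf⟩ := hf
  have u0 : 0 ≤ u := V0.trans hV
  have d0 := sub_pos.2 h01
  have b0 := sub_nonneg.2 h0
  have b1 := sub_nonneg.2 h1
  have cv : (P1 - P) * f P0 + (P - P0) * f P1 ≤ (P1 - P0) * f P := by
    rw [hf, hf, hf]
    nlinarith [mul_nonneg (mul_nonneg κ0 d0.le) (mul_nonneg b0 b1)]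
  have cu := mul_le_mul_of_nonneg_left cv u0
  by_contra hn
  push Not at hn
  have n1 := hn V P0 (Or.inl ⟨rfl, Or.inl rfl⟩)
  have n2 := hn W0 P0 (Or.inl ⟨rfl, Or.inr rfl⟩)
  have n3 := hn V P1 (Or.inr ⟨rfl, Or.inl rfl⟩)
  have n4 := hn W1 P1 (Or.inr ⟨rfl, Or.inr rfl⟩)
  obtain ⟨m, hm⟩ : ∃ m, m = u * f P := ⟨_, rfl⟩
  rw [← hm] at n1 n2 n3 n4
  have cu' : u * (P1 - P) * f P0 + u * (P - P0) * f P1 ≤ (P1 - P0) * m := by rw [hm]; linarith
  have q0 := mul_nonneg u0 b1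
  have q1 := mul_nonneg u0 b0
  rcases le_or_gt 0 m with hm0 | hm0
  · have Vp : 0 < V := by
      rcases V0.eq_or_lt with h | h
      · rw [← h] at n1; linarith
      · exact h
    have r0 := mul_le_mul_of_nonneg_left n1.le q0
    have r1 := mul_le_mul_of_nonneg_left n3.le q1
    have r2 := mul_le_mul_of_nonneg_left cu' V0
    have r3 := mul_le_mul_of_nonneg_left hV (mul_nonneg d0.le hm0)
    have up : 0 < u := Vp.trans_le hV
    rcases b0.eq_or_lt with e | e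
    · have := mul_lt_mul_of_pos_left n1 (mul_pos up (show 0 < P1 - P by linarith))
      nlinarith
    · have := mul_lt_mul_of_pos_left n3 (mul_pos up e)
      nlinarith
  · have r0 := mul_le_mul_of_nonneg_left n2.le (mul_nonneg q0 W10.le)
    have r1 := mul_le_mul_of_nonneg_left n4.le (mul_nonneg q1 W00.le)
    have r2 := mul_le_mul_of_nonneg_left cu' (mul_pos W00 W10).le
    have r3 := mul_le_mul_of_nonpos_right cap hm0.le
    have up : 0 < u := by
      rcases u0.eq_or_lt with h | h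
      · rw [← h] at hm; linarith
      · exact h
    rcases b0.eq_or_lt with e | e
    · have := mul_lt_mul_of_pos_left n2 (mul_pos (mul_pos up (show 0 < P1 - P by linarith)) W10)
      nlinarith
    · have := mul_lt_mul_of_pos_left n4 (mul_pos (mul_pos up e) W00)
      nlinarith

/-- admissible normalised positions of the rest -/
def Rs (U P1 R t : ℝ) : Prop := 0 ≤ t ∧ U * t ≤ P1 ∧ U * t ≤ R

omit [DecidableEq ι] in
lemma rest (w δ : ι → ℝ) (x j : ι) {M V P0 P1 U : ℝ} (hw : ∀ j, 1 ≤ w j) (d0 : ∀ j, 0 ≤ δ j)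
    (hM : ∑ j, w j * δ j ≤ M) (V0 : 0 ≤ V) (hV : V ≤ w x) (h0 : P0 ≤ δ x) (h1 : ∀ j, δ j ≤ P1)
    (U0 : 0 < U) : Rs U P1 (M - V * P0) 0 ∧ (j ≠ x → Rs U P1 (M - V * P0) (δ j / U)) := by
  classical
  have n0 : ∀ j, 0 ≤ w j * δ j := fun j => mul_nonneg (by linarith [hw j]) (d0 j)
  have a1 := mul_le_mul_of_nonneg_left h0 V0
  have a2 := mul_le_mul_of_nonneg_right hV (d0 x)
  constructor
  · have := single_le_sum (fun j _ => n0 j) (mem_univ x)
    exact ⟨le_rfl, by linarith [d0 x, h1 x], by linarith⟩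
  · intro h
    have := add_le_sum (s := univ) (fun j _ => n0 j) (mem_univ j) (mem_univ x) h
    have a3 := mul_le_mul_of_nonneg_right (hw j) (d0 j)
    unfold Rs
    rw [mul_div_cancel₀ _ U0.ne']
    exact ⟨div_nonneg (d0 j) U0.le, h1 j, by linarith⟩

lemma shape {a L y : ℝ} {ι : Type} [Fintype ι] (u v : ι → ℝ) :
    ∃ κ α β : ℝ, 0 ≤ κ ∧ ∀ d, -cp a L d + ∑ y, u y * (d + v y) - d * y
      = -κ * d ^ 2 + α * d + β := by
  obtain ⟨κ, α, β, h, h'⟩ := cp_shape (a := a) (L := L) u v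
  exact ⟨κ, α - y, β, h, fun d => by rw [h']; ring⟩

/-- Product certificate with the two extreme atoms explicit. -/
theorem leaf2 (H : Hyp a θ w g A Φ c G) (x y : ι) {l k U D V P0 P1 W0 W1 V' Q0 Q1 Z0 Z1 : ℝ}
    (l0 : 0 ≤ l) (l1 : l ≤ 1) (k0 : 0 < k) (U0 : 0 < U) (D0 : 0 < D)
    (hx : ∀ j, g j ≤ g x) (hy : ∀ j, g y ≤ g j)
    (P00 : 0 < P0) (x0 : P0 ≤ g x - a) (x1 : g x - a ≤ P1) (x01 : P0 < P1) (V0 : 0 ≤ V)
    (hV : V ≤ w x) (W00 : 0 < W0) (W10 : 0 < W1)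
    (cx : w x * ((P1 - (g x - a)) * W1 + (g x - a - P0) * W0) ≤ (P1 - P0) * (W0 * W1))
    (Q00 : 0 < Q0) (y0 : Q0 ≤ a - g y) (y1 : a - g y ≤ Q1) (y01 : Q0 < Q1) (V1 : 0 ≤ V')
    (hV' : V' ≤ w y) (Z00 : 0 < Z0) (Z10 : 0 < Z1)
    (cy : w y * ((Q1 - (a - g y)) * Z1 + (a - g y - Q0) * Z0) ≤ (Q1 - Q0) * (Z0 * Z1))
    (hU : ∀ t, Rs U P1 (a * (1 - a) / θ - V * P0) t → t ≤ 1)
    (hD : ∀ t, Rs D Q1 (a * (1 - a) / θ - V' * Q0) t → t ≤ 1)
    (hF : ∀ e ξ t e' η s, Vx V P0 P1 W0 W1 e ξ → Vx V' Q0 Q1 Z0 Z1 e' η →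
      Rs U P1 (a * (1 - a) / θ - V * P0) t → Rs D Q1 (a * (1 - a) / θ - V' * Q0) s →
      0 ≤ FF a θ l k (a * (1 - a) / θ) e ξ U t e' η D s) : Goal a θ w g Φ c G := by
  have t0 := H.th0
  obtain ⟨M, hM⟩ : ∃ M, M = a * (1 - a) / θ := ⟨_, rfl⟩
  have hM' : θ * M = a * (1 - a) := by rw [hM]; exact mul_div_cancel₀ _ t0.ne'
  obtain ⟨p, hp⟩ : ∃ p : ι → ℝ, ∀ j, p j = max (g j - a) 0 := ⟨_, fun _ => rfl⟩
  obtain ⟨n, hn⟩ : ∃ n : ι → ℝ, ∀ j, n j = max (a - g j) 0 := ⟨_, fun _ => rfl⟩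
  have p0 : ∀ j, 0 ≤ p j := fun j => by rw [hp]; exact le_max_right _ _
  have n0 : ∀ j, 0 ≤ n j := fun j => by rw [hn]; exact le_max_right _ _
  have sp : ∑ j, w j * p j ≤ M := by simp only [hp, hM]; exact C36.up_sum H
  have sn : ∑ j, w j * n j ≤ M := by simp only [hn, hM]; exact C36.down_sum H
  have px : p x = g x - a := by rw [hp, max_eq_left (by linarith)]
  have ny : n y = a - g y := by rw [hn, max_eq_left (by linarith)]
  rw [← hM] at hF hU hD
  rw [← px] at x0 x1 cx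
  rw [← ny] at y0 y1 cy
  have rp := fun j => rest w p x j H.w1 p0 sp V0 hV x0 (P1 := P1)
    (fun j => by rw [hp]; exact max_le (by linarith [hx j]) (by linarith)) U0
  have rn := fun j => rest w n y j H.w1 n0 sn V1 hV' y0 (P1 := Q1)
    (fun j => by rw [hn]; exact max_le (by linarith [hy j]) (by linarith)) D0
  obtain ⟨tp, htp⟩ : ∃ tp : ι → ℝ, ∀ j, tp j = if j = x then 1 else p j / U := ⟨_, fun _ => rfl⟩
  obtain ⟨tn, htn⟩ : ∃ tn : ι → ℝ, ∀ j, tn j = if j = y then 1 else n j / D := ⟨_, fun _ => rfl⟩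
  have tp0 : ∀ j, 0 ≤ tp j := fun j => by
    rw [htp]; split_ifs; exacts [zero_le_one, div_nonneg (p0 j) U0.le]
  have tn0 : ∀ j, 0 ≤ tn j := fun j => by
    rw [htn]; split_ifs; exacts [zero_le_one, div_nonneg (n0 j) D0.le]
  have tp1 : ∀ j, tp j ≤ 1 := fun j => by
    rw [htp]; split_ifs with h; exacts [le_rfl, hU _ ((rp j).2 h)]
  have tn1 : ∀ j, tn j ≤ 1 := fun j => by
    rw [htn]; split_ifs with h; exacts [le_rfl, hD _ ((rn j).2 h)]
  have G0 := Gf_zero_nonneg l0 k0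
  refine prod2 H l0 l1 k0 p n tp tn hp hn tp0 tp1 tn0 tn1
    (fun j h => by
      rw [htp, if_neg (fun e => by rw [e] at h; linarith), hp, max_eq_right (by linarith), zero_div])
    (fun j h => by
      rw [htn, if_neg (fun e => by rw [e] at h; linarith), hn, max_eq_right (by linarith),
        zero_div]) ?_
  rw [← hM]
  obtain ⟨Y, hY⟩ : ∃ Y : ℝ → ℝ, ∀ t, Y t = -cm a (θ * l) k U t + ∑ y, w y * (θ ^ 2
      * Gf l k (min t (tn y)) * r1 t (tn y) * (U * t + n y) / U) := ⟨_, fun _ => rfl⟩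
  obtain ⟨t, hc, h1⟩ := side2 w p (fun x => -p x ^ 2
      - tp x * Gf (θ * l) k (tp x) * ((a + p x) * (1 - a - p x))
      + ∑ y, w y * (θ ^ 2 * (min (tp x) (tn y) * Gf l k (min (tp x) (tn y))) * (p x + n y))) x Y
    (Rs U P1 (M - V * P0)) H.w1 sp (rp x).1 (fun j => (rp j).2)
    (fun j h => by
      have e1 : tp j = p j / U := by rw [htp, if_neg h]
      have e2 : p j = U * tp j := by rw [e1]; field_simp
      rw [← e1, hY, mul_add, mul_sum]
      apply le_of_eq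
      congr 1
      · unfold cm; rw [e2]; field_simp; ring
      · refine sum_congr rfl (fun y _ => ?_)
        have := r1_mul (t := tp j) (tn0 y)
        generalize min (tp j) (tn y) = m at this ⊢
        rw [e2, ← this]; field_simp) p0
    (by
      have s1 : ∑ y, w y * (θ ^ 2 * Gf l k (min 0 (tn y)) * r1 0 (tn y) * (U * 0 + n y) / U)
          ≤ θ ^ 2 * Gf l k 0 / U * ∑ y, w y * n y := by
        rw [mul_sum]
        refine sum_le_sum (fun y _ => ?_)
        rw [min_eq_left (tn0 y)]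
        have := mul_le_mul_of_nonneg_left (r1_zero_le (tn y)) (show 0 ≤ θ ^ 2 * Gf l k 0 / U
          * (w y * n y) from mul_nonneg (by positivity) (mul_nonneg (by linarith [H.w1 y]) (n0 y)))
        refine le_trans (le_of_eq ?_) (this.trans (le_of_eq ?_)) <;> ring
      have s2 := mul_le_mul_of_nonneg_left sn (show 0 ≤ θ ^ 2 * Gf l k 0 / U by positivity)
      have s3 : cm a (θ * l) k U 0 = θ ^ 2 * Gf l k 0 / U * M := by
        unfold cm; rw [Gf_zero]
        linear_combination (-(θ * Gf l k 0 / U)) * hM'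
      rw [hY]
      linarith)
  have c1 := hU _ hc
  obtain ⟨e, ξ, hv, h3⟩ := vert (fun d => -cp a (θ * l) d
    + ∑ y, w y * (θ ^ 2 * (tn y * Gf l k (tn y))) * (d + n y) - d * Y t) (shape _ _) x0 x1 x01 V0 hV
    W00 W10 cx
  have e6 : ∑ y, w y * (θ ^ 2 * (min (tp x) (tn y) * Gf l k (min (tp x) (tn y))) * (p x + n y))
      = ∑ y, w y * (θ ^ 2 * (tn y * Gf l k (tn y))) * (p x + n y) := by
    rw [htp, if_pos rfl]
    exact sum_congr rfl (fun y _ => by rw [min_eq_right (tn1 y)]; ring)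
  have e7 : tp x * Gf (θ * l) k (tp x) = θ * l * (2 - θ * l) := by
    rw [htp, if_pos rfl, Gf_one, one_mul]
  beta_reduce at h1 h3
  rw [e6, e7] at h1
  obtain ⟨Y', hY'⟩ : ∃ Y' : ℝ → ℝ, ∀ s, Y' s = -cm (1 - a) (θ * l) k D s
      + (e * (θ ^ 2 * Gf l k s * (ξ + D * s) / D)
      + (M - e * ξ) * (θ ^ 2 * Gf l k (min t s) * (r1 t s / U + r2 t s / D))) := ⟨_, fun _ => rfl⟩
  obtain ⟨s, hc', h2⟩ := side2 w n (fun y => -n y ^ 2
      - tn y * Gf (θ * l) k (tn y) * ((1 - a + n y) * (1 - (1 - a) - n y))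
      + (e * (θ ^ 2 * (tn y * Gf l k (tn y)) * (ξ + n y))
      + (M - e * ξ) * (θ ^ 2 * Gf l k (min t (tn y)) * r1 t (tn y) * (U * t + n y) / U))) y Y'
    (Rs D Q1 (M - V' * Q0)) H.w1 sn (rn y).1 (fun j => (rn j).2)
    (fun j h => by
      have e1 : tn j = n j / D := by rw [htn, if_neg h]
      have e2 : n j = D * tn j := by rw [e1]; field_simp
      rw [← e1, hY']
      apply le_of_eq
      have q1 := r1_mul (t := t) (tn0 j)
      have q2 := r2_mul (s := tn j) hc.1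
      generalize Gf l k (min t (tn j)) = m
      have q3 : D * tn j * (r1 t (tn j) / U + r2 t (tn j) / D)
          = r1 t (tn j) * (U * t + D * tn j) / U := by
        field_simp
        linear_combination U * q2 - U * q1
      have q4 : D * tn j * cm (1 - a) (θ * l) k D (tn j) = (D * tn j) ^ 2 + tn j
          * Gf (θ * l) k (tn j) * ((1 - a + D * tn j) * (1 - (1 - a) - D * tn j)) := by
        unfold cm; field_simp
      have q5 : D * tn j * (θ ^ 2 * Gf l k (tn j) * (ξ + D * tn j) / D)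
          = θ ^ 2 * (tn j * Gf l k (tn j)) * (ξ + D * tn j) := by field_simp
      rw [e2]
      linear_combination (-1) * q4 + e * q5 + (M - e * ξ) * θ ^ 2 * m * q3) n0
    (by
      have e2 : r1 t 0 = 0 := by unfold r1; rw [if_neg (not_lt.2 hc.1), zero_div]
      have e3 : r2 t 0 = 1 := by unfold r2; rw [if_neg (not_lt.2 hc.1)]
      rw [hY', min_eq_right hc.1, e2, e3]
      apply le_of_eq
      unfold cm; rw [Gf_zero]
      linear_combination (θ * Gf l k 0 / D) * hM')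
  obtain ⟨e', η, hv', h4⟩ := vert (fun d => -cp (1 - a) (θ * l) d
    + ∑ i, ![e * (θ ^ 2 * (l * (2 - l))), (M - e * ξ) * (θ ^ 2 * Gf l k t / U)] i
      * (d + ![ξ, U * t] i) - d * Y' s) (shape _ _) y0 y1 y01 V1 hV' Z00 Z10 cy
  have e2 : r1 t 1 = 1 := by
    unfold r1; split_ifs with h'; rfl; rw [le_antisymm c1 (not_lt.1 h')]; simp
  have e8 : tn y = 1 := by rw [htn, if_pos rfl]
  beta_reduce at h2
  rw [e8, Gf_one, Gf_one, min_eq_left c1, e2] at h2
  simp only [Fin.sum_univ_two, Matrix.cons_val_zero, Matrix.cons_val_one] at h4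
  have f := hF _ _ _ _ _ _ hv hv' hc hc'
  simp only [mul_add (w _), sum_add_distrib] at h2
  have e4 : ∑ y, w y * (e * (θ ^ 2 * (tn y * Gf l k (tn y)) * (ξ + n y)))
      = e * ∑ y, w y * (θ ^ 2 * (tn y * Gf l k (tn y))) * (ξ + n y) := by
    rw [mul_sum]; exact sum_congr rfl (fun y _ => by ring)
  have e5 : ∑ y, w y * ((M - e * ξ) * (θ ^ 2 * Gf l k (min t (tn y)) * r1 t (tn y)
      * (U * t + n y) / U)) = (M - e * ξ) * ∑ y, w y * (θ ^ 2 * Gf l k (min t (tn y)) * r1 t (tn y)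
      * (U * t + n y) / U) := by
    rw [mul_sum]; exact sum_congr rfl (fun y _ => by ring)
  rw [e4, e5] at h2
  have k1 := hY t
  have k2 := hY' s
  unfold FF at f
  unfold cp at f h3 h4
  refine f.trans ?_
  linear_combination h1 + h2 + h3 + h4 - (M - e * ξ) * k1 - (M - e' * η) * k2

end P18

end Pool.Agent.Lib.MP_43bc59_co
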