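import Pool.Agent.Lib.MP_43bc59_co.F_Mix
import Pool.Agent.Lib.MP_43bc59_co.F_C

set_option autoImplicit false

namespace Pool.Agent.Lib.MP_43bc59_co

open Finset

variable {ι : Type} [Fintype ι] [DecidableEq ι] {a θ : ℝ} {w g A Φ : ι → ℝ} {c G : ι → ι → ℝ}

/-- Leftover letters, with the alternative that no letter reaches the threshold. -/
lemma leftover2 {κ : Type} (T : Finset κ) (w d val : κ → ℝ) {R m η Ψ L Lb Lp q : ℝ}
    (w1 : ∀ l ∈ T, 1 ≤ w l) (d0 : ∀ l ∈ T, 0 ≤ d l) (hR : ∑ l ∈ T, w l * d l ≤ R) (m0 : 0 < m)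
    (hv : ∀ l ∈ T, -η * d l + Ψ * min 1 (d l / m) + Lb * d l * (1 - min 1 (d l / m)) ≤ val l)
    (L1 : L ≤ Lb) (P0 : 0 ≤ Ψ + Lp) (P1 : Ψ + Lp ≤ (η - Lb) * m)
    (q1 : q ≤ 1 ∨ ∀ l ∈ T, d l ≤ m) (q2 : q * m ≤ R) :
    (L - η) * R + q * (Ψ + Lp) ≤ ∑ l ∈ T, w l * (val l + min 1 (d l / m) * (L * d l + Lp)) := by
  rcases q1 with q1 | hc
  · exact leftover T w d val w1 d0 hR m0 hv L1 P0 P1 q1 q2
  have h1 : (L - η + (Ψ + Lp) / m) * ∑ l ∈ T, w l * d l
      ≤ ∑ l ∈ T, w l * (val l + min 1 (d l / m) * (L * d l + Lp)) := by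
    rw [mul_sum]
    refine sum_le_sum fun l hl => ?_
    have t : (L - η) * d l + (Ψ + Lp) * min 1 (d l / m)
        ≤ val l + min 1 (d l / m) * (L * d l + Lp) := by
      have := mul_nonneg (mul_nonneg (sub_nonneg.2 L1) (d0 l hl))
        (sub_nonneg.2 (min_le_left 1 (d l / m)))
      nlinarith [hv l hl]
    have t2 := mul_le_mul_of_nonneg_left t (show 0 ≤ w l by linarith [w1 l hl])
    refine le_trans (le_of_eq ?_) t2
    rw [min_eq_right ((div_le_one m0).2 (hc l hl))]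
    ring
  refine le_trans ?_ h1
  set D := ∑ l ∈ T, w l * d l with hD
  have t1 : (Ψ + Lp) / m ≤ η - L := by
    rw [div_le_iff₀ m0]
    nlinarith
  have t2 := mul_le_mul_of_nonneg_right t1 (sub_nonneg.2 hR)
  have t3 : q ≤ R / m := by rw [le_div_iff₀ m0]; exact q2
  have t4 := mul_le_mul_of_nonneg_left t3 P0
  have t5 : (Ψ + Lp) * (R / m) = (Ψ + Lp) / m * R := by ring
  nlinarith

/-- key for a letter below the mean, paired with the upper pivot -/
lemma key_minus {θ a e W p z b u sh t : ℝ} (a1 : a < 1) (e0 : 0 ≤ e) (W1 : 1 ≤ W)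
    (hp : p = 1 - e - a) (hz : z * (1 - a) = W * p + (2 - W) * a * e) (hb : b = a - θ * z)
    (t0 : 0 ≤ t) (s0 : 0 ≤ u * (2 * θ - u)) :
    -t ^ 2 + (1 - a + t) * (2 * u * (t - b) - u ^ 2 * (z - a + t)) - sh * (2 - W) * (a - t) * e
      ≤ ((u * (2 * θ - u) - sh) * (W - (2 - W) * (a - t)) / W + sh) * (W * (p + t))
        + (u * (2 * θ - u) - sh) * (2 - W) * ((a - t) * (1 - (a - t)))
        - u * (2 - u) * ((a - t) * (1 - (a - t))) - t ^ 2 := by
  have W0 : W ≠ 0 := by linarith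
  have h1 : z * (1 - a + t) ≤ W * (p + t) + (2 - W) * (a - t) * e := by
    refine le_of_mul_le_mul_right ?_ (sub_pos.2 a1)
    have k : (W * (p + t) + (2 - W) * (a - t) * e) * (1 - a) - z * (1 - a + t) * (1 - a)
        = 2 * (t * ((W - 1) * e)) := by
      have : z * (1 - a + t) * (1 - a) = (W * p + (2 - W) * a * e) * (1 - a + t) := by
        rw [← hz]; ring
      rw [this, hp]; ring
    have := mul_nonneg t0 (mul_nonneg (sub_nonneg.2 W1) e0)
    linarith
  have h2 := mul_le_mul_of_nonneg_left h1 s0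
  have h3 : ((u * (2 * θ - u) - sh) * (W - (2 - W) * (a - t)) / W + sh) * (W * (p + t))
      = ((u * (2 * θ - u) - sh) * (W - (2 - W) * (a - t)) + sh * W) * (p + t) := by
    field_simp
  rw [h3, hb]
  rw [hp] at h2 ⊢
  linarith

/-- key for a letter above the mean, paired with the lower pivot -/
lemma key_plus {θ a h W' w' d z' b' u sh t : ℝ} (a0 : 0 < a) (h0 : 0 ≤ h) (W1 : 1 ≤ W')
    (w0 : w' ≠ 0) (hd : d = a - h) (hz : z' * a = W' * d + (2 - W') * (1 - a) * h)
    (hb : b' = 1 - a - θ * z') (t0 : 0 ≤ t) (s0 : sh ≤ u * (2 * θ - u)) :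
    -t ^ 2 + (a + t) * (2 * u * (t - b') - u ^ 2 * (z' - 1 + a + t))
        + sh * (w' * (t + d) - z' * (a + t))
      ≤ ((u * (2 * θ - u) - sh) * (W' - (2 - W') * (1 - a - t)) / w' + sh) * (w' * (t + d))
        + (u * (2 * θ - u) - sh) * (2 - W') * ((a + t) * (1 - (a + t)))
        - u * (2 - u) * ((a + t) * (1 - (a + t))) - t ^ 2 := by
  have h1 : z' * (a + t) ≤ W' * (t + d) + (2 - W') * (1 - a - t) * h := by
    refine le_of_mul_le_mul_right ?_ a0
    have k : (W' * (t + d) + (2 - W') * (1 - a - t) * h) * a - z' * (a + t) * a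
        = 2 * (t * ((W' - 1) * h)) := by
      have : z' * (a + t) * a = (W' * d + (2 - W') * (1 - a) * h) * (a + t) := by
        rw [← hz]; ring
      rw [this, hd]; ring
    have := mul_nonneg t0 (mul_nonneg (sub_nonneg.2 W1) h0)
    linarith
  have h2 := mul_le_mul_of_nonneg_left h1 (sub_nonneg.2 s0)
  have h3 : ((u * (2 * θ - u) - sh) * (W' - (2 - W') * (1 - a - t)) / w' + sh) * (w' * (t + d))
      = ((u * (2 * θ - u) - sh) * (W' - (2 - W') * (1 - a - t)) + sh * w') * (t + d) := by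
    field_simp
  rw [h3, hb]
  rw [hd] at h2 ⊢
  linarith

lemma slope_nonneg {W x : ℝ} (W1 : 1 ≤ W) (x0 : 0 ≤ x) (x1 : x ≤ 1) : 0 ≤ W - (2 - W) * x := by
  nlinarith

/-- The pivot master. -/
theorem Hyp.pivot (H : Hyp a θ w g A Φ c G) (x y : ι) (hx : a < g x) (hy : g y < a)
    (ymin : ∀ j, g y ≤ g j) (xmax : ∀ j, g j ≤ g x)
    {e W h w' W' p d al z b z' b' r r' : ℝ}
    (he : e = 1 - g x) (hW : W = w x) (W2 : W ≤ 2) (hh : h = g y) (hw' : w' = w y)
    (W1' : 1 ≤ W') (W2' : W' ≤ 2) (W3' : W' ≤ w') (hp : p = 1 - e - a) (hd : d = a - h)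
    (hal : θ * al = a * (1 - a)) (hz : z * (1 - a) = W * p + (2 - W) * a * e) (hb : b = a - θ * z)
    (hz' : z' * a = W' * d + (2 - W') * (1 - a) * h) (hb' : b' = 1 - a - θ * z')
    (hr : r = al - W * p) (hr' : r' = al - w' * d)
    (l ξ uy ν1 νb m q η Ψ Lb kb ηp : ℝ) (um up ν : ℝ → ℝ)
    (l0 : 0 ≤ l) (l1 : l ≤ θ) (ξ0 : 0 ≤ ξ) (ξ1 : ξ ≤ 1) (uy0 : 0 ≤ uy) (uy1 : uy ≤ θ)
    (ν10 : 0 ≤ ν1) (ν11 : ν1 ≤ uy * (2 * θ - uy)) (νb0 : 0 ≤ νb) (m0 : 0 < m)
    (C1 : ξ * (l * (2 * θ - l)) * (W' - (2 - W') * e) / w'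
      ≤ (uy * (2 * θ - uy) - ν1) * (W - (2 - W) * h) / W + ν1)
    (C2 : (uy * (2 * θ - uy) - ν1) * (W - (2 - W) * h) / W + ν1
      ≤ ξ * (l * (2 * θ - l)) * (W' - (2 - W') * e) / w' + (1 - ξ) * (l * (2 * θ - l)))
    (hM : ∀ t, 0 ≤ t → t ≤ d → t ≤ r' →
      0 ≤ um t ∧ um t ≤ θ ∧ min 1 (t / m) * νb ≤ um t * (2 * θ - um t)
      ∧ (um t * (2 * θ - um t) - min 1 (t / m) * νb) * (W - (2 - W) * (a - t)) / W
          + min 1 (t / m) * νb ≤ (1 - ξ) * (l * (2 * θ - l))
      ∧ -η * t + Ψ * min 1 (t / m) + Lb * t * (1 - min 1 (t / m))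
          ≤ -t ^ 2 + (1 - a + t) * (2 * um t * (t - b) - um t ^ 2 * (z - a + t))
            - min 1 (t / m) * νb * (2 - W) * (a - t) * e)
    (hP : ∀ t, 0 < t → t ≤ p → t ≤ r →
      0 ≤ up t ∧ up t ≤ θ ∧ 0 ≤ ν t ∧ ν t ≤ νb ∧ ν t ≤ kb * t ∧ ν t ≤ up t * (2 * θ - up t)
      ∧ (up t * (2 * θ - up t) - ν t) * (W' - (2 - W') * (1 - a - t)) / w' + ν t ≤ ν1
      ∧ -ηp * t ≤ -t ^ 2 + (a + t) * (2 * up t * (t - b') - up t ^ 2 * (z' - 1 + a + t))
          + ν t * ((w' + q) * t + al - z' * (a + t)))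
    (kb0 : 0 ≤ kb) (S1 : kb * r ≤ Lb) (Ψ0 : 0 ≤ Ψ) (S2 : Ψ + νb * r ≤ (η - Lb) * m)
    (S3 : q ≤ 1 ∨ d ≤ m) (S4 : q * m ≤ r') (ηp0 : 0 ≤ ηp)
    (hF : 0 ≤ (1 - θ) * al - W * p ^ 2
      - W * (l * (2 - l) - ξ * (l * (2 * θ - l)) * (2 - W')) * ((1 - e) * e)
      + w' * (-d ^ 2 + (1 - h) * (2 * uy * (d - b) - uy ^ 2 * (z - h)) - ν1 * (2 - W) * h * e)
      - η * r' + q * Ψ - ηp * r) :
    Goal a θ w g Φ c G := by
  have wp : ∀ j, 0 < w j := fun j => by linarith [H.w1 j]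
  have hy' : ¬ a < g y := not_lt.2 hy.le
  have hxy : y ≠ x := fun k => hy' (k ▸ hx)
  have W1 : 1 ≤ W := hW ▸ H.w1 x
  have w'0 : 0 < w' := by linarith
  have e0 : 0 ≤ e := by linarith [H.g1 x]
  have h0 : 0 ≤ h := hh ▸ H.g0 y
  have gx : g x = a + p := by linarith
  have gy : g y = a - d := by linarith
  have al' : a * (1 - a) / θ = al := by
    rw [← hal]; exact mul_div_cancel_left₀ _ H.th0.ne'
  have sl : 0 ≤ l * (2 * θ - l) := mul_nonneg l0 (by linarith [H.th0])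
  set U := univ.filter fun j => a < g j with hU
  set N := univ.filter fun j => ¬ a < g j with hN
  have xU : x ∈ U := mem_filter.2 ⟨mem_univ _, hx⟩
  have yN : y ∈ N := mem_filter.2 ⟨mem_univ _, hy'⟩
  have mP : ∀ j, j ∈ U.erase x ↔ j ≠ x ∧ a < g j := fun j => by simp [hU]
  have mM : ∀ j, j ∈ N.erase y ↔ j ≠ y ∧ ¬ a < g j := fun j => by simp [hN]
  -- the rests
  have rP : ∑ j ∈ U.erase x, w j * (g j - a) ≤ r := by
    have t := C36.up_sum H
    have t2 : ∑ j ∈ U, w j * (g j - a) ≤ ∑ j, w j * max (g j - a) 0 :=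
      le_trans (sum_le_sum fun j _ => mul_le_mul_of_nonneg_left (le_max_left _ _) (wp j).le)
        (sum_le_sum_of_subset_of_nonneg (subset_univ _)
          fun j _ _ => mul_nonneg (wp j).le (le_max_right _ _))
    rw [← add_sum_erase _ _ xU, ← hW, gx] at t2
    rw [al'] at t
    linarith
  have rM : ∑ j ∈ N.erase y, w j * (a - g j) ≤ r' := by
    have t := C36.down_sum H
    have t2 : ∑ j ∈ N, w j * (a - g j) ≤ ∑ j, w j * max (a - g j) 0 :=
      le_trans (sum_le_sum fun j _ => mul_le_mul_of_nonneg_left (le_max_left _ _) (wp j).le)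
        (sum_le_sum_of_subset_of_nonneg (subset_univ _)
          fun j _ _ => mul_nonneg (wp j).le (le_max_right _ _))
    rw [← add_sum_erase _ _ yN, ← hw', gy] at t2
    rw [al'] at t
    linarith
  have P' : ∀ j, j ≠ x → a < g j → _ := fun j j1 j2 => hP (g j - a) (sub_pos.2 j2)
    (by linarith [xmax j]) (by
      have t := single_le_sum (f := fun j => w j * (g j - a))
        (fun j hj => mul_nonneg (wp j).le (sub_pos.2 ((mP j).1 hj).2).le) ((mP j).2 ⟨j1, j2⟩)
      have := mul_le_mul_of_nonneg_right (H.w1 j) (sub_pos.2 j2).le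
      linarith)
  have M' : ∀ j, j ≠ y → ¬ a < g j → _ := fun j j1 j2 => hM (a - g j) (sub_nonneg.2 (not_lt.1 j2))
    (by linarith [ymin j]) (by
      have t := single_le_sum (f := fun j => w j * (a - g j))
        (fun j hj => mul_nonneg (wp j).le (sub_nonneg.2 (not_lt.1 ((mM j).1 hj).2)))
        ((mM j).2 ⟨j1, j2⟩)
      have := mul_le_mul_of_nonneg_right (H.w1 j) (sub_nonneg.2 (not_lt.1 j2))
      linarith)
  have β0 : ∀ j, ¬ a < g j → 0 ≤ min 1 ((a - g j) / m) := fun j j2 =>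
    le_min zero_le_one (div_nonneg (sub_nonneg.2 (not_lt.1 j2)) m0.le)
  have β1 : ∀ j, min 1 ((a - g j) / m) ≤ 1 := fun j => min_le_left _ _
  -- levels and shares
  obtain ⟨u, ux, uy', uP, uM⟩ : ∃ u : ι → ℝ, u x = l ∧ u y = uy ∧
      (∀ j, j ≠ x → a < g j → u j = up (g j - a)) ∧
      ∀ j, j ≠ y → ¬ a < g j → u j = um (a - g j) := by
    refine ⟨fun j => if a < g j then (if j = x then l else up (g j - a))
      else (if j = y then uy else um (a - g j)), ?_, ?_, ?_, ?_⟩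
    · simp only [if_pos hx, if_true]
    · simp only [if_neg hy', if_true]
    · intro j j1 j2; simp only [if_pos j2, if_neg j1]
    · intro j j1 j2; simp only [if_neg j2, if_neg j1]
  obtain ⟨sh, sx, sy, sP, sM⟩ : ∃ sh : ι → ℝ, sh x = (1 - ξ) * (l * (2 * θ - l)) ∧ sh y = ν1 ∧
      (∀ j, j ≠ x → a < g j → sh j = ν (g j - a)) ∧
      ∀ j, j ≠ y → ¬ a < g j → sh j = min 1 ((a - g j) / m) * νb := by
    refine ⟨fun j => if a < g j then (if j = x then (1 - ξ) * (l * (2 * θ - l)) else ν (g j - a))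
      else (if j = y then ν1 else min 1 ((a - g j) / m) * νb), ?_, ?_, ?_, ?_⟩
    · simp only [if_pos hx, if_true]
    · simp only [if_neg hy', if_true]
    · intro j j1 j2; simp only [if_pos j2, if_neg j1]
    · intro j j1 j2; simp only [if_neg j2, if_neg j1]
  obtain ⟨n, nx, ny, nn⟩ : ∃ n : ι → ι → ℝ,
      (∀ k, n x k = (u k * (2 * θ - u k) - sh k) * (W - (2 - W) * g k) / W + sh k) ∧
      (∀ j, j ≠ x → n j y
        = (u j * (2 * θ - u j) - sh j) * (W' - (2 - W') * (1 - g j)) / w' + sh j) ∧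
      ∀ j k, j ≠ x → k ≠ y → n j k = min 1 ((a - g k) / m) * sh j := by
    refine ⟨fun j k => if j = x then (u k * (2 * θ - u k) - sh k) * (W - (2 - W) * g k) / W + sh k
      else if k = y then (u j * (2 * θ - u j) - sh j) * (W' - (2 - W') * (1 - g j)) / w' + sh j
      else min 1 ((a - g k) / m) * sh j, ?_, ?_, ?_⟩
    · intro k; simp only [if_true]
    · intro j j1; simp only [if_neg j1, if_true]
    · intro j k j1 k1; simp only [if_neg j1, if_neg k1]
  have all : ∀ j, 0 ≤ u j ∧ u j ≤ θ ∧ 0 ≤ sh j ∧ sh j ≤ u j * (2 * θ - u j) := by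
    intro j
    by_cases j2 : a < g j
    · by_cases j1 : j = x
      · rw [j1, ux, sx]
        exact ⟨l0, l1, mul_nonneg (sub_nonneg.2 ξ1) sl,
          mul_le_of_le_one_left sl (sub_le_self _ ξ0)⟩
      · obtain ⟨k1, k2, k3, _, _, k6, _⟩ := P' j j1 j2
        rw [uP j j1 j2, sP j j1 j2]
        exact ⟨k1, k2, k3, k6⟩
    · by_cases j1 : j = y
      · rw [j1, uy', sy]
        exact ⟨uy0, uy1, ν10, ν11⟩
      · obtain ⟨k1, k2, k3, _⟩ := M' j j1 j2
        rw [uM j j1 j2, sM j j1 j2]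
        exact ⟨k1, k2, mul_nonneg (β0 j j2) νb0, k3⟩
  have slm : ∀ k, 0 ≤ (u k * (2 * θ - u k) - sh k) * (W - (2 - W) * g k) / W := fun k =>
    div_nonneg (mul_nonneg (sub_nonneg.2 (all k).2.2.2)
      (slope_nonneg W1 (H.g0 k) (H.g1 k))) (zero_le_one.trans W1)
  have slp : ∀ j, 0 ≤ (u j * (2 * θ - u j) - sh j) * (W' - (2 - W') * (1 - g j)) / w' := fun j =>
    div_nonneg (mul_nonneg (sub_nonneg.2 (all j).2.2.2)
      (slope_nonneg W1' (sub_nonneg.2 (H.g1 j)) (sub_le_self _ (H.g0 j)))) w'0.le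
  have sgx : u x * (2 * θ - u x) - sh x = ξ * (l * (2 * θ - l)) := by rw [ux, sx]; ring
  have mix := H.mix (fun j => a < g j) x y hx hy' W1 W2 hW.le W1' W2' (hw' ▸ W3') u
    (fun j => u j * (2 * θ - u j) - sh j) (fun j => (all j).1) (fun j => (all j).2.1)
    (fun j => sub_nonneg.2 (all j).2.2.2) (fun j => sub_le_self _ (all j).2.2.1) n
    (fun j k j2 k2 => by
      by_cases k1 : k = y
      · rw [if_pos k1, k1, ← hw']
        by_cases j1 : j = x
        · rw [j1, nx, sgx, uy', sy, ← hh, ← he]; exact C1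
        · rw [ny j j1]; linarith [(all j).2.2.1]
      · rw [if_neg k1]
        by_cases j1 : j = x
        · rw [j1, nx]; linarith [slm k, (all k).2.2.1]
        · rw [nn j k j1 k1]; exact mul_nonneg (β0 k k2) (all j).2.2.1)
    (fun j k j2 k2 => by
      by_cases k1 : k = y
      · rw [if_pos k1, k1, ← hw']
        by_cases j1 : j = x
        · rw [j1, nx, sgx, uy', sy, ← hh, ← he, ux]; linarith
        · rw [ny j j1]; linarith
      · rw [if_neg k1]
        by_cases j1 : j = x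
        · have t := (M' k k1 k2).2.2.2.1
          rw [← sM k k1 k2, ← uM k k1 k2, sub_sub_cancel] at t
          rw [j1, nx, sx]; linarith
        · rw [nn j k j1 k1]
          have := mul_le_mul_of_nonneg_right (β1 k) (all j).2.2.1
          linarith)
    (fun j k j2 k2 => by
      by_cases j1 : j = x
      · rw [if_pos j1, j1, ← hW, nx]; linarith [(all k).2.2.1]
      · rw [if_neg j1]
        by_cases k1 : k = y
        · rw [k1, ny j j1]; linarith [slp j, (all j).2.2.1]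
        · rw [nn j k j1 k1]; exact mul_nonneg (β0 k k2) (all j).2.2.1)
    (fun j k j2 k2 => by
      by_cases j1 : j = x
      · rw [if_pos j1, j1, ← hW, nx]; linarith
      · rw [if_neg j1]
        by_cases k1 : k = y
        · have t := (P' j j1 j2).2.2.2.2.2.2.1
          rw [← sP j j1 j2, ← uP j j1 j2, show 1 - a - (g j - a) = 1 - g j by ring] at t
          rw [k1, ny j j1, sy]; linarith
        · rw [nn j k j1 k1, sM k k1 k2, sP j j1 j2]
          have := mul_le_mul_of_nonneg_left (P' j j1 j2).2.2.2.1 (β0 k k2)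
          linarith)
  rw [← hU, ← hN] at mix
  -- keys
  have km : ∀ k, ¬ a < g k → w k * (-(a - g k) ^ 2 + (1 - a + (a - g k))
        * (2 * u k * (a - g k - b) - u k ^ 2 * (z - a + (a - g k)))
        - sh k * (2 - W) * (a - (a - g k)) * e)
      ≤ n x k * (w x * w k * (g x - g k))
        + w k * (u k * (2 * θ - u k) - sh k) * (2 - W) * (g k * (1 - g k))
        - w k * (u k * (2 - u k) * (g k * (1 - g k))) - w k * (g k - a) ^ 2 := by
    intro k k2
    have t := mul_le_mul_of_nonneg_left (key_minus (sh := sh k) H.a1 e0 W1 hp hz hb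
      (sub_nonneg.2 (not_lt.1 k2)) ((all k).2.2.1.trans (all k).2.2.2)) (wp k).le
    refine t.trans (le_of_eq ?_)
    rw [nx, ← hW, gx, sub_sub_cancel]
    ring
  have kp : ∀ j, j ≠ x → a < g j → w j * (-(g j - a) ^ 2 + (a + (g j - a))
        * (2 * u j * (g j - a - b') - u j ^ 2 * (z' - 1 + a + (g j - a)))
        + sh j * (w' * (g j - a + d) - z' * (a + (g j - a))))
      ≤ n j y * (w j * w y * (g j - g y))
        + w j * (u j * (2 * θ - u j) - sh j) * (2 - W') * (g j * (1 - g j))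
        - w j * (u j * (2 - u j) * (g j * (1 - g j))) - w j * (g j - a) ^ 2 := by
    intro j j1 j2
    have t := mul_le_mul_of_nonneg_left (key_plus H.a0 h0 W1' w'0.ne' hd hz' hb'
      (sub_pos.2 j2).le (all j).2.2.2) (wp j).le
    refine t.trans (le_of_eq ?_)
    rw [ny j j1, ← hw', gy, show 1 - a - (g j - a) = 1 - g j by ring]
    ring
  set L := ∑ j ∈ U.erase x, w j * sh j with hL
  set Lp := ∑ j ∈ U.erase x, w j * sh j * (g j - a) with hLp
  have L1 : L ≤ Lb := by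
    have t : L ≤ kb * ∑ j ∈ U.erase x, w j * (g j - a) := by
      rw [mul_sum]
      refine sum_le_sum fun j hj => ?_
      obtain ⟨j1, j2⟩ := (mP j).1 hj
      have := mul_le_mul_of_nonneg_left (P' j j1 j2).2.2.2.2.1 (wp j).le
      rw [sP j j1 j2]; linarith
    exact t.trans ((mul_le_mul_of_nonneg_left rP kb0).trans S1)
  have Lp0 : 0 ≤ Lp := sum_nonneg fun j hj =>
    mul_nonneg (mul_nonneg (wp j).le (all j).2.2.1) (sub_pos.2 ((mP j).1 hj).2).le
  have Lp1 : Lp ≤ νb * r := by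
    have t : Lp ≤ νb * ∑ j ∈ U.erase x, w j * (g j - a) := by
      rw [mul_sum]
      refine sum_le_sum fun j hj => ?_
      obtain ⟨j1, j2⟩ := (mP j).1 hj
      have := mul_le_mul_of_nonneg_left (P' j j1 j2).2.2.2.1
        (mul_nonneg (wp j).le (sub_pos.2 j2).le)
      rw [sP j j1 j2]; linarith
    exact t.trans (mul_le_mul_of_nonneg_left rP νb0)
  have lo := leftover2 (N.erase y) w (fun k => a - g k)
    (fun k => -(a - g k) ^ 2 + (1 - a + (a - g k))
        * (2 * u k * (a - g k - b) - u k ^ 2 * (z - a + (a - g k)))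
        - sh k * (2 - W) * (a - (a - g k)) * e)
    (η := η) (Ψ := Ψ) (L := L) (Lb := Lb) (Lp := Lp) (q := q)
    (fun k _ => H.w1 k) (fun k hk => sub_nonneg.2 (not_lt.1 ((mM k).1 hk).2)) rM m0
    (fun k hk => by
      obtain ⟨k1, k2⟩ := (mM k).1 hk
      have t := (M' k k1 k2).2.2.2.2
      rw [← sM k k1 k2, ← uM k k1 k2] at t
      exact t)
    L1 (by linarith) (by linarith)
    (S3.imp id fun k j _ => by linarith [ymin j]) S4
  have cross : ∑ j ∈ U.erase x, ∑ k ∈ N.erase y, n j k * (w j * w k * (g j - g k))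
      = ∑ k ∈ N.erase y, w k * (min 1 ((a - g k) / m) * (L * (a - g k) + Lp)) := by
    rw [sum_comm]
    refine sum_congr rfl fun k hk => ?_
    rw [hL, hLp, sum_mul, ← sum_add_distrib, mul_sum, mul_sum]
    refine sum_congr rfl fun j hj => ?_
    rw [nn j k ((mP j).1 hj).1 ((mM k).1 hk).1]
    ring
  have sM' := sum_le_sum (s := N.erase y) fun k hk => km k ((mM k).1 hk).2
  have sP' := sum_le_sum (s := U.erase x) fun j hj => kp j ((mP j).1 hj).1 ((mP j).1 hj).2
  have pl : -ηp * ∑ j ∈ U.erase x, w j * (g j - a)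
      ≤ ∑ j ∈ U.erase x, w j * (-(g j - a) ^ 2 + (a + (g j - a))
        * (2 * u j * (g j - a - b') - u j ^ 2 * (z' - 1 + a + (g j - a)))
        + sh j * (w' * (g j - a + d) - z' * (a + (g j - a)))) + L * r' + q * Lp := by
    rw [hL, hLp, mul_sum, sum_mul, mul_sum, ← sum_add_distrib, ← sum_add_distrib]
    refine sum_le_sum fun j hj => ?_
    obtain ⟨j1, j2⟩ := (mP j).1 hj
    have t := (P' j j1 j2).2.2.2.2.2.2.2
    rw [← sP j j1 j2, ← uP j j1 j2] at t
    have t2 := mul_le_mul_of_nonneg_left t (wp j).le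
    rw [hr']
    linarith
  have pl2 := mul_le_mul_of_nonneg_left rP ηp0
  have ky := km y hy'
  have ky' : w y * (-(a - g y) ^ 2 + (1 - a + (a - g y))
        * (2 * u y * (a - g y - b) - u y ^ 2 * (z - a + (a - g y)))
        - sh y * (2 - W) * (a - (a - g y)) * e)
      = w' * (-d ^ 2 + (1 - h) * (2 * uy * (d - b) - uy ^ 2 * (z - h))
        - ν1 * (2 - W) * h * e) := by
    rw [uy', sy, ← hw', ← hh, hd]; ring
  have kx : w x * (u x * (2 * θ - u x) - sh x) * (2 - W') * (g x * (1 - g x))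
        - w x * (u x * (2 - u x) * (g x * (1 - g x))) - w x * (g x - a) ^ 2
      = - W * p ^ 2 - W * (l * (2 - l) - ξ * (l * (2 * θ - l)) * (2 - W')) * ((1 - e) * e) := by
    rw [sgx, ux, ← hW, hp, he]; ring
  have s1 := sum_filter_add_sum_filter_not univ (fun j => a < g j)
    fun j => w j * (u j * (2 - u j) * (g j * (1 - g j)))
  have s2 := sum_filter_add_sum_filter_not univ (fun j => a < g j) fun j => w j * (g j - a) ^ 2
  rw [← hU, ← hN, ← add_sum_erase _ _ xU, ← add_sum_erase _ _ yN] at s1 s2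
  have s3 : ∑ j ∈ U, ∑ k ∈ N, n j k * (w j * w k * (g j - g k))
      = n x y * (w x * w y * (g x - g y)) + ∑ k ∈ N.erase y, n x k * (w x * w k * (g x - g k))
        + (∑ j ∈ U.erase x, n j y * (w j * w y * (g j - g y))
          + ∑ j ∈ U.erase x, ∑ k ∈ N.erase y, n j k * (w j * w k * (g j - g k))) := by
    rw [← add_sum_erase _ _ xU, ← add_sum_erase _ _ yN, ← sum_add_distrib]
    congr 1
    exact sum_congr rfl fun j _ => (add_sum_erase _ _ yN).symm
  rw [s3, cross, ← add_sum_erase _ _ xU, ← add_sum_erase _ _ yN, ← s1] at mix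
  rw [sum_sub_distrib, sum_sub_distrib, sum_add_distrib] at sM' sP'
  rw [sum_congr rfl fun k _ => mul_add (w k) _ _, sum_add_distrib] at lo
  unfold Goal
  rw [mul_div_assoc, al', ← s2]
  linarith only [mix, sM', sP', lo, pl, pl2, ky, ky', kx, hF]

end Pool.Agent.Lib.MP_43bc59_co
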