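import Pool.Agent.Lib.MP_43bc59_co.Bk

set_option autoImplicit false
set_option maxRecDepth 100000

namespace Pool.Agent.Lib.MP_43bc59_co.R36

open Bx

def Rap_p0 : E :=
  (.s (.s (.s (.s (.s (.a (.a (.m (.a (.c 1) (.v 2)) (.s (.s (.c 1) (.v 0)) (.v 1))) (.m (.m (.s
  (.c 1) (.v 2)) (.v 0)) (.v 1))) (.v 3)) (.m (.m (.a (.c 1) (.v 2)) (.s (.s (.c 1) (.v 0)) (.v
  1))) (.s (.s (.c 1) (.v 0)) (.v 1)))) (.m (.a (.v 3) (.m (.m (.s (.c 1) (.v 2)) (.v 0)) (.v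
  1))) (.a (.v 3) (.m (.m (.s (.c 1) (.v 2)) (.v 0)) (.v 1))))) (.m (.m (.v 0) (.s (.c 2) (.v
  0))) (.m (.m (.a (.c 1) (.v 2)) (.s (.c 1) (.v 1))) (.v 1)))) (.m (.m (.c 2) (.v 0)) (.v 3)))
  (.m (.v 0) (.a (.m (.a (.c 1) (.v 2)) (.s (.s (.c 1) (.v 0)) (.v 1))) (.m (.m (.s (.c 1) (.v
  2)) (.v 0)) (.v 1)))))

def Rap_c0 : E :=
  (.s (.m (.c 108) (.a (.a (.m (.a (.c 1) (.v 2)) (.s (.s (.c 1) (.v 0)) (.v 1))) (.m (.m (.s (.c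
  1) (.v 2)) (.v 0)) (.v 1))) (.v 3))) (.m (.c 240) (.m (.v 0) (.s (.c 1) (.v 0)))))

def Rap_c1 : E :=
  (.s (.m (.c 240) (.m (.v 0) (.s (.c 1) (.v 0)))) (.m (.c 80) (.a (.a (.m (.a (.c 1) (.v 2)) (.s
  (.s (.c 1) (.v 0)) (.v 1))) (.m (.m (.s (.c 1) (.v 2)) (.v 0)) (.v 1))) (.v 3))))

def Rap_c2 : E :=
  (.s (.m (.c 20) (.m (.v 0) (.s (.c 1) (.v 0)))) (.m (.s (.m (.c 20) (.v 0)) (.c 1)) (.a (.a (.m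
  (.a (.c 1) (.v 2)) (.s (.s (.c 1) (.v 0)) (.v 1))) (.m (.m (.s (.c 1) (.v 2)) (.v 0)) (.v 1)))
  (.v 3))))

def Rap_c3 : E :=
  (.s (.m (.c 1100) (.m (.v 0) (.s (.c 1) (.v 0)))) (.m (.a (.s (.m (.c 1000) (.v 1)) (.c 785))
  (.m (.c 2700) (.v 0))) (.a (.a (.m (.a (.c 1) (.v 2)) (.s (.s (.c 1) (.v 0)) (.v 1))) (.m (.m
  (.s (.c 1) (.v 2)) (.v 0)) (.v 1))) (.v 3))))

def Rap_c4 : E :=
  (.s (.a (.m (.a (.c 1) (.v 2)) (.s (.s (.c 1) (.v 0)) (.v 1))) (.m (.m (.s (.c 1) (.v 2)) (.v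
  0)) (.v 1))) (.s (.c 1) (.v 0)))

def Rap_t : Tr :=
  (.nd 1 (.nd 0 (.nd 3 (.nd 3 (.lf [16384, 0, 0, -443, -1, -1961]) (.nd 1 (.nd 3 (.lf [4096, 0,
  0, -4, -1, 0]) (.nd 1 (.lf [65536, 0, 0, -135, -10, 0]) (.lf [4096, 0, 0, 0, -1, 0]))) (.nd 3
  (.lf [256, 0, 0, -1, 0, 0]) (.nd 1 (.lf [4096, 0, 0, -26, 0, 0]) (.nd 0 (.nd 3 (.lf [1024, 0,
  0, -2, 0, 0]) (.nd 1 (.lf [256, 0, 0, -1, 0, 0]) (.nd 3 (.lf [1024, 0, 0, -1, 0, 0]) (.nd 2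
  (.nd 2 (.lf [262144, 0, -2, -7, 0, 0]) (.lf [1, 0, 0, 0, 0, 0])) (.lf [1024, 0, 0, -2, 0,
  0]))))) (.lf [1, 0, 0, 0, 0, 0])))))) (.lf [4, 0, 0, -1, 0, -5])) (.nd 3 (.nd 3 (.lf [1, 0, 0,
  -4, 0, -29]) (.nd 1 (.nd 0 (.nd 1 (.lf [65536, 0, 0, 0, -14, 0]) (.lf [16384, 0, 0, 0, -10,
  -2900])) (.lf [1024, -25, 0, 0, -5, 0])) (.nd 1 (.nd 3 (.lf [4096, 0, 0, 0, -1, -229]) (.nd 0
  (.nd 1 (.lf [262144, 0, 0, 0, -25, 0]) (.lf [65536, 0, 0, 0, -9, 0])) (.lf [262144, -82, 0, 0,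
  -49, 0]))) (.nd 3 (.nd 0 (.lf [16384, 0, 0, 0, -1, -87]) (.lf [16384, 0, 0, 0, -3, -896])) (.nd
  1 (.nd 3 (.lf [65536, 0, 0, 0, -7, -1422]) (.nd 2 (.nd 0 (.nd 3 (.lf [16384, 0, 0, 0, -1, 0])
  (.nd 1 (.lf [262144, 0, 0, -53, -10, 0]) (.lf [16384, 0, 0, 0, -1, 0]))) (.nd 1 (.lf [16384,
  -1, 0, 0, -1, 0]) (.lf [262144, -29, 0, 0, -22, 0]))) (.lf [4096, 0, -5, 0, -1, 0]))) (.nd 3
  (.nd 0 (.lf [65536, 0, 0, 0, -2, 0]) (.lf [4194304, 0, 0, 0, -293, -91022])) (.nd 2 (.nd 0 (.nd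
  3 (.lf [262144, 0, 0, 0, -5, 0]) (.nd 1 (.lf [262144, 0, 0, -111, -5, 0]) (.nd 0 (.nd 3 (.lf
  [262144, 0, 0, 0, -3, 0]) (.nd 1 (.lf [4194304, 0, 0, -736, -41, 0]) (.nd 2 (.lf [1024, 0, 0,
  -1, 0, 0]) (.nd 3 (.lf [1, 0, 0, 0, 0, 0]) (.nd 2 (.nd 3 (.lf [16777216, 0, 0, 0, -2, 0]) (.nd
  0 (.lf [1, 0, 0, 0, 0, 0]) (.nd 2 (.lf [1, 0, 0, 0, 0, 0]) (.lf [262144, 0, 0, 0, -2, 0]))))
  (.lf [1, 0, 0, 0, 0, 0])))))) (.nd 3 (.lf [1, 0, 0, 0, 0, 0]) (.nd 2 (.lf [1024, 0, 0, -1, 0,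
  0]) (.lf [1, 0, 0, 0, 0, 0])))))) (.nd 1 (.nd 3 (.lf [16384, -1, 0, 0, -1, 0]) (.nd 1 (.lf
  [262144, -1, 0, 0, -7, 0]) (.lf [1048576, -16, 0, 0, -38, 0]))) (.nd 3 (.lf [65536, -4, 0, 0,
  -2, 0]) (.nd 1 (.nd 0 (.nd 3 (.lf [262144, -6, 0, 0, -5, 0]) (.nd 1 (.lf [262144, 0, 0, 0, -3,
  0]) (.lf [65536, 0, 0, 0, -1, 0]))) (.lf [4096, -5, 0, 0, -1, 0])) (.nd 3 (.lf [65536, -1, 0,
  0, -1, 0]) (.nd 1 (.nd 0 (.nd 3 (.lf [65536, -1, 0, 0, -1, 0]) (.nd 1 (.lf [1048576, 0, 0, 0,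
  -6, 0]) (.lf [262144, 0, 0, 0, -2, 0]))) (.lf [4096, -3, 0, 0, -1, 0])) (.nd 0 (.nd 3 (.lf
  [1048576, -8, 0, 0, -5, 0]) (.nd 2 (.lf [65536, 0, 0, 0, -1, 0]) (.nd 3 (.lf [262144, 0, 0, 0,
  -1, 0]) (.nd 1 (.lf [4194304, 0, 0, 0, -13, 0]) (.nd 2 (.lf [65536, 0, 0, 0, -2, 0]) (.nd 3
  (.lf [1, 0, 0, 0, 0, 0]) (.nd 0 (.nd 2 (.nd 3 (.lf [4194304, 0, 0, 0, -2, 0]) (.nd 0 (.nd 2
  (.lf [1, 0, 0, 0, 0, 0]) (.lf [1048576, 0, 0, 0, -1, 0])) (.lf [262144, 0, 0, 0, -1, 0]))) (.lf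
  [1, 0, 0, 0, 0, 0])) (.lf [1, 0, 0, 0, 0, 0])))))))) (.lf [65536, -23, 0, 0, -5, 0]))))))))
  (.lf [16384, 0, -10, 0, -2, 0])))))))) (.lf [256, 0, 0, -28, -1, 0]))) (.nd 0 (.nd 3 (.nd 1
  (.nd 3 (.lf [1024, 0, -165, 0, -22, -19154]) (.nd 0 (.lf [16384, 0, 0, 0, -11, -2665]) (.lf
  [16384, 0, 0, 0, -6, 0]))) (.lf [4096, 0, 0, 0, -5, -1159])) (.lf [1024, 0, -12, 0, -2,
  -1497])) (.lf [64, 0, 0, 0, -1, -509])))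

theorem Rap_k : chk3 146 [2, 2, 2, 2] [2, 0, 0, 0] [3, 3, 1, 1] [6, 10, 1, 3] ([Rap_p0] ++ [Rap_c0, Rap_c1, Rap_c2, Rap_c3, Rap_c4])
    (okN (List.length [Rap_p0])) (fun u => [u]) Rap_t = true := by decide +kernel

theorem Rap (a e o h : ℝ)
    (l0 : (2 : ℝ) ≤ 6 * a) (u0 : 6 * a ≤ 3)
    (l1 : (0 : ℝ) ≤ 10 * e) (u1 : 10 * e ≤ 3)
    (l2 : (0 : ℝ) ≤ o) (u2 : o ≤ 1)
    (l3 : (0 : ℝ) ≤ 3 * h) (u3 : 3 * h ≤ 1)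
    (c0 : 0 ≤ (108 * ((((1 + o) * ((1 - a) - e)) + (((1 - o) * a) * e)) + h)) - (240 * (a * (1 -
    a))))
    (c1 : 0 ≤ (240 * (a * (1 - a))) - (80 * ((((1 + o) * ((1 - a) - e)) + (((1 - o) * a) * e)) +
    h)))
    (c2 : 0 ≤ (20 * (a * (1 - a))) - (((20 * a) - 1) * ((((1 + o) * ((1 - a) - e)) + (((1 - o) *
    a) * e)) + h)))
    (c3 : 0 ≤ (1100 * (a * (1 - a))) - ((((1000 * e) - 785) + (2700 * a)) * ((((1 + o) * ((1 - a)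
    - e)) + (((1 - o) * a) * e)) + h)))
    (c4 : 0 ≤ (((1 + o) * ((1 - a) - e)) + (((1 - o) * a) * e)) - (1 - a))
    :
    0 ≤ ((((((((1 + o) * ((1 - a) - e)) + (((1 - o) * a) * e)) + h) - (((1 + o) * ((1 - a) - e))
    * ((1 - a) - e))) - ((h + (((1 - o) * a) * e)) * (h + (((1 - o) * a) * e)))) - ((a * (2 - a))
    * (((1 + o) * (1 - e)) * e))) - ((2 * a) * h)) - (a * (((1 + o) * ((1 - a) - e)) + (((1 - o)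
    * a) * e))) := by
  have hbx := some_nonneg3 Rap_k [a, e, o, h] rfl
    (by simp only [InBox]; push_cast; exact ⟨⟨by norm_num, by norm_num⟩, ⟨by linarith, by
    linarith⟩, ⟨by norm_num, by norm_num⟩, ⟨by linarith, by linarith⟩, ⟨by norm_num, by
    norm_num⟩, ⟨by linarith, by linarith⟩, ⟨by norm_num, by norm_num⟩, ⟨by linarith, by
    linarith⟩, trivial⟩)
    (by simp only [List.forall_mem_cons, List.not_mem_nil, false_imp_iff, implies_true, and_true,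
    Rap_p0, Rap_c0, Rap_c1, Rap_c2, Rap_c3, Rap_c4, E.val, List.getD_cons_zero,
    List.getD_cons_succ, Int.cast_ofNat, Int.cast_one, Int.cast_zero]; exact ⟨c0, c1, c2, c3,
    c4⟩)
  simpa only [List.mem_cons, List.not_mem_nil, or_false, exists_eq_or_imp, exists_eq_left,
  Rap_p0, Rap_c0, Rap_c1, Rap_c2, Rap_c3, Rap_c4, E.val, List.getD_cons_zero,
  List.getD_cons_succ, Int.cast_ofNat, Int.cast_one, Int.cast_zero] using hbx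

def Raz_p0 : E :=
  (.s (.m (.c 900) (.s (.s (.s (.a (.a (.m (.a (.c 1) (.v 2)) (.s (.s (.c 1) (.v 0)) (.v 1))) (.m
  (.m (.s (.c 1) (.v 2)) (.v 0)) (.v 1))) (.v 3)) (.m (.v 0) (.s (.c 1) (.v 0)))) (.m (.m (.a (.c
  1) (.v 2)) (.s (.s (.c 1) (.v 0)) (.v 1))) (.s (.s (.c 1) (.v 0)) (.v 1)))) (.m (.a (.v 3) (.m
  (.m (.s (.c 1) (.v 2)) (.v 0)) (.v 1))) (.a (.v 3) (.m (.m (.s (.c 1) (.v 2)) (.v 0)) (.v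
  1)))))) (.a (.a (.m (.m (.m (.c 225) (.s (.c 8) (.m (.v 1) (.v 1)))) (.v 0)) (.v 3)) (.m (.m
  (.c 100) (.m (.s (.c 2) (.v 1)) (.s (.c 2) (.v 1)))) (.s (.s (.c 1) (.v 0)) (.a (.m (.a (.c 1)
  (.v 2)) (.s (.s (.c 1) (.v 0)) (.v 1))) (.m (.m (.s (.c 1) (.v 2)) (.v 0)) (.v 1)))))) (.m (.m
  (.c 36) (.m (.s (.c 2) (.v 1)) (.s (.c 2) (.v 1)))) (.m (.m (.a (.c 1) (.v 2)) (.s (.c 1) (.v
  1))) (.v 1)))))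

def Raz_c0 : E :=
  (.s (.m (.c 108) (.a (.a (.m (.a (.c 1) (.v 2)) (.s (.s (.c 1) (.v 0)) (.v 1))) (.m (.m (.s (.c
  1) (.v 2)) (.v 0)) (.v 1))) (.v 3))) (.m (.c 240) (.m (.v 0) (.s (.c 1) (.v 0)))))

def Raz_c1 : E :=
  (.s (.m (.c 240) (.m (.v 0) (.s (.c 1) (.v 0)))) (.m (.c 80) (.a (.a (.m (.a (.c 1) (.v 2)) (.s
  (.s (.c 1) (.v 0)) (.v 1))) (.m (.m (.s (.c 1) (.v 2)) (.v 0)) (.v 1))) (.v 3))))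

def Raz_c2 : E :=
  (.s (.m (.c 20) (.m (.v 0) (.s (.c 1) (.v 0)))) (.m (.s (.m (.c 20) (.v 0)) (.c 1)) (.a (.a (.m
  (.a (.c 1) (.v 2)) (.s (.s (.c 1) (.v 0)) (.v 1))) (.m (.m (.s (.c 1) (.v 2)) (.v 0)) (.v 1)))
  (.v 3))))

def Raz_c3 : E :=
  (.s (.m (.c 1100) (.m (.v 0) (.s (.c 1) (.v 0)))) (.m (.a (.s (.m (.c 1000) (.v 1)) (.c 785))
  (.m (.c 2700) (.v 0))) (.a (.a (.m (.a (.c 1) (.v 2)) (.s (.s (.c 1) (.v 0)) (.v 1))) (.m (.m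
  (.s (.c 1) (.v 2)) (.v 0)) (.v 1))) (.v 3))))

def Raz_c4 : E :=
  (.s (.s (.c 1) (.v 0)) (.a (.m (.a (.c 1) (.v 2)) (.s (.s (.c 1) (.v 0)) (.v 1))) (.m (.m (.s
  (.c 1) (.v 2)) (.v 0)) (.v 1))))

def Raz_t : Tr :=
  (.nd 3 (.nd 2 (.nd 1 (.nd 2 (.lf [1, 0, 0, 0, 0, 0]) (.nd 3 (.nd 2 (.lf [4, 0, 0, 0, -1, 0])
  (.nd 1 (.nd 0 (.lf [16, 0, 0, 0, -3, 0]) (.lf [16, 0, 0, 0, -6, 0])) (.nd 3 (.nd 2 (.lf [1, 0,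
  0, 0, 0, 0]) (.nd 0 (.lf [1, 0, 0, 0, 0, 0]) (.lf [64, 0, 0, -1179, -9, 0]))) (.lf [1, 0, 0,
  -65, 0, 0])))) (.nd 2 (.lf [1, 0, 0, 0, 0, 0]) (.nd 1 (.nd 3 (.nd 0 (.lf [1, 0, 0, 0, 0, 0])
  (.lf [4, 0, 0, 0, -1, 0])) (.lf [4, -3, 0, 0, 0, 0])) (.nd 3 (.nd 2 (.lf [1, 0, 0, 0, 0, 0])
  (.nd 0 (.lf [1, 0, 0, 0, 0, 0]) (.nd 2 (.lf [1, 0, 0, 0, 0, 0]) (.nd 1 (.lf [16, 0, 0, 0, -2,
  0]) (.nd 3 (.lf [1024, 0, 0, 0, -86, 0]) (.lf [64, 0, 0, -469, -6, 0])))))) (.nd 2 (.lf [1, 0,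
  0, 0, 0, 0]) (.nd 2 (.lf [1, 0, 0, 0, 0, 0]) (.nd 0 (.lf [1, 0, 0, 0, 0, 0]) (.nd 3 (.nd 1 (.lf
  [256, 0, 0, 0, -1, 0]) (.nd 2 (.lf [1, 0, 0, 0, 0, 0]) (.nd 1 (.lf [64, 0, 0, 0, -2, 0]) (.nd 2
  (.lf [1, 0, 0, 0, 0, 0]) (.nd 0 (.lf [1, 0, 0, 0, 0, 0]) (.lf [16, 0, 0, 0, -1, 0])))))) (.nd 1
  (.lf [1, 0, 0, 0, 0, 0]) (.nd 2 (.lf [1, 0, 0, 0, 0, 0]) (.nd 2 (.lf [1, 0, 0, 0, 0, 0]) (.nd 1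
  (.lf [1, 0, 0, 0, 0, 0]) (.nd 3 (.lf [4, -1, 0, 0, 0, 0]) (.nd 2 (.lf [1, 0, 0, 0, 0, 0]) (.nd
  1 (.lf [1, 0, 0, 0, 0, 0]) (.nd 2 (.lf [1, 0, 0, 0, 0, 0]) (.nd 0 (.lf [1, 0, 0, 0, 0, 0]) (.lf
  [16, -1, 0, 0, 0, 0]))))))))))))))))))) (.nd 0 (.nd 3 (.nd 2 (.lf [16, 0, 0, 0, -2, 0]) (.nd 2
  (.lf [4, -2, 0, 0, -2, 0]) (.nd 1 (.lf [16, 0, 0, 0, -5, 0]) (.lf [4, 0, 0, 0, -2, 0])))) (.nd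
  2 (.lf [1, 0, 0, 0, 0, 0]) (.nd 3 (.nd 2 (.lf [4, 0, 0, 0, -1, 0]) (.nd 1 (.lf [4, 0, 0, 0, -1,
  0]) (.nd 2 (.lf [4, -3, 0, 0, -2, 0]) (.nd 0 (.lf [4, -5, 0, 0, -2, 0]) (.lf [4, -3, 0, 0, -1,
  0]))))) (.lf [1, -2, 0, 0, 0, 0])))) (.lf [16, -24, 0, 0, -9, 0]))) (.lf [1, 0, 0, 0, -4,
  -1014])) (.nd 2 (.nd 1 (.lf [16, 0, -19, -749, -5, 0]) (.nd 2 (.lf [1, 0, -8, 0, -2, 0]) (.nd 3
  (.nd 0 (.lf [64, 0, -53, 0, -38, 0]) (.lf [1, 0, 0, 0, -3, 0])) (.lf [1, 0, -24, 0, -3, 0]))))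
  (.lf [1, 0, -1, 0, -1, 0])))

theorem Raz_k : chk3 134 [2, 4, 2, 2] [2, 0, 0, 0] [3, 3, 1, 1] [6, 10, 1, 3] ([Raz_p0] ++ [Raz_c0, Raz_c1, Raz_c2, Raz_c3, Raz_c4])
    (okN (List.length [Raz_p0])) (fun u => [u]) Raz_t = true := by decide +kernel

theorem Raz (a e o h : ℝ)
    (l0 : (2 : ℝ) ≤ 6 * a) (u0 : 6 * a ≤ 3)
    (l1 : (0 : ℝ) ≤ 10 * e) (u1 : 10 * e ≤ 3)
    (l2 : (0 : ℝ) ≤ o) (u2 : o ≤ 1)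
    (l3 : (0 : ℝ) ≤ 3 * h) (u3 : 3 * h ≤ 1)
    (c0 : 0 ≤ (108 * ((((1 + o) * ((1 - a) - e)) + (((1 - o) * a) * e)) + h)) - (240 * (a * (1 -
    a))))
    (c1 : 0 ≤ (240 * (a * (1 - a))) - (80 * ((((1 + o) * ((1 - a) - e)) + (((1 - o) * a) * e)) +
    h)))
    (c2 : 0 ≤ (20 * (a * (1 - a))) - (((20 * a) - 1) * ((((1 + o) * ((1 - a) - e)) + (((1 - o) *
    a) * e)) + h)))
    (c3 : 0 ≤ (1100 * (a * (1 - a))) - ((((1000 * e) - 785) + (2700 * a)) * ((((1 + o) * ((1 - a)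
    - e)) + (((1 - o) * a) * e)) + h)))
    (c4 : 0 ≤ (1 - a) - (((1 + o) * ((1 - a) - e)) + (((1 - o) * a) * e)))
    :
    0 ≤ (900 * (((((((1 + o) * ((1 - a) - e)) + (((1 - o) * a) * e)) + h) - (a * (1 - a))) - (((1
    + o) * ((1 - a) - e)) * ((1 - a) - e))) - ((h + (((1 - o) * a) * e)) * (h + (((1 - o) * a) *
    e))))) - (((((225 * (8 - (e * e))) * a) * h) + ((100 * ((2 - e) * (2 - e))) * ((1 - a) - (((1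
    + o) * ((1 - a) - e)) + (((1 - o) * a) * e))))) + ((36 * ((2 - e) * (2 - e))) * (((1 + o) *
    (1 - e)) * e))) := by
  have hbx := some_nonneg3 Raz_k [a, e, o, h] rfl
    (by simp only [InBox]; push_cast; exact ⟨⟨by norm_num, by norm_num⟩, ⟨by linarith, by
    linarith⟩, ⟨by norm_num, by norm_num⟩, ⟨by linarith, by linarith⟩, ⟨by norm_num, by
    norm_num⟩, ⟨by linarith, by linarith⟩, ⟨by norm_num, by norm_num⟩, ⟨by linarith, by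
    linarith⟩, trivial⟩)
    (by simp only [List.forall_mem_cons, List.not_mem_nil, false_imp_iff, implies_true, and_true,
    Raz_p0, Raz_c0, Raz_c1, Raz_c2, Raz_c3, Raz_c4, E.val, List.getD_cons_zero,
    List.getD_cons_succ, Int.cast_ofNat, Int.cast_one, Int.cast_zero]; exact ⟨c0, c1, c2, c3,
    c4⟩)
  simpa only [List.mem_cons, List.not_mem_nil, or_false, exists_eq_or_imp, exists_eq_left,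
  Raz_p0, Raz_c0, Raz_c1, Raz_c2, Raz_c3, Raz_c4, E.val, List.getD_cons_zero,
  List.getD_cons_succ, Int.cast_ofNat, Int.cast_one, Int.cast_zero] using hbx

def Raa_p0 : E :=
  (.s (.m (.c 900) (.s (.s (.s (.a (.a (.m (.a (.c 1) (.v 2)) (.s (.s (.c 1) (.v 0)) (.v 1))) (.m
  (.m (.s (.c 1) (.v 2)) (.v 0)) (.v 1))) (.v 3)) (.m (.v 0) (.s (.c 1) (.v 0)))) (.m (.m (.a (.c
  1) (.v 2)) (.s (.s (.c 1) (.v 0)) (.v 1))) (.s (.s (.c 1) (.v 0)) (.v 1)))) (.m (.a (.v 3) (.m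
  (.m (.s (.c 1) (.v 2)) (.v 0)) (.v 1))) (.a (.v 3) (.m (.m (.s (.c 1) (.v 2)) (.v 0)) (.v
  1)))))) (.a (.s (.a (.m (.m (.m (.c 225) (.s (.c 8) (.m (.v 1) (.v 1)))) (.v 0)) (.v 3)) (.m
  (.m (.m (.m (.c 225) (.v 1)) (.v 1)) (.v 0)) (.a (.a (.m (.a (.c 1) (.v 2)) (.s (.s (.c 1) (.v
  0)) (.v 1))) (.m (.m (.s (.c 1) (.v 2)) (.v 0)) (.v 1))) (.v 3)))) (.m (.m (.m (.c 25) (.m (.s
  (.c 2) (.v 1)) (.s (.c 2) (.v 1)))) (.s (.s (.c 1) (.v 0)) (.a (.m (.a (.c 1) (.v 2)) (.s (.s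
  (.c 1) (.v 0)) (.v 1))) (.m (.m (.s (.c 1) (.v 2)) (.v 0)) (.v 1))))) (.s (.m (.c 16) (.v 0))
  (.c 4)))) (.m (.a (.s (.m (.m (.c 900) (.s (.c 2) (.v 1))) (.v 0)) (.m (.m (.c 180) (.m (.s (.c
  2) (.v 1)) (.s (.c 2) (.v 1)))) (.v 0))) (.m (.c 36) (.m (.s (.c 2) (.v 1)) (.s (.c 2) (.v
  1))))) (.m (.m (.a (.c 1) (.v 2)) (.s (.c 1) (.v 1))) (.v 1)))))

def Raa_c0 : E :=
  (.s (.m (.c 108) (.a (.a (.m (.a (.c 1) (.v 2)) (.s (.s (.c 1) (.v 0)) (.v 1))) (.m (.m (.s (.c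
  1) (.v 2)) (.v 0)) (.v 1))) (.v 3))) (.m (.c 240) (.m (.v 0) (.s (.c 1) (.v 0)))))

def Raa_c1 : E :=
  (.s (.m (.c 240) (.m (.v 0) (.s (.c 1) (.v 0)))) (.m (.c 80) (.a (.a (.m (.a (.c 1) (.v 2)) (.s
  (.s (.c 1) (.v 0)) (.v 1))) (.m (.m (.s (.c 1) (.v 2)) (.v 0)) (.v 1))) (.v 3))))

def Raa_c2 : E :=
  (.s (.m (.c 20) (.m (.v 0) (.s (.c 1) (.v 0)))) (.m (.s (.m (.c 20) (.v 0)) (.c 1)) (.a (.a (.m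
  (.a (.c 1) (.v 2)) (.s (.s (.c 1) (.v 0)) (.v 1))) (.m (.m (.s (.c 1) (.v 2)) (.v 0)) (.v 1)))
  (.v 3))))

def Raa_c3 : E :=
  (.s (.m (.c 1100) (.m (.v 0) (.s (.c 1) (.v 0)))) (.m (.a (.s (.m (.c 1000) (.v 1)) (.c 785))
  (.m (.c 2700) (.v 0))) (.a (.a (.m (.a (.c 1) (.v 2)) (.s (.s (.c 1) (.v 0)) (.v 1))) (.m (.m
  (.s (.c 1) (.v 2)) (.v 0)) (.v 1))) (.v 3))))

def Raa_c4 : E :=
  (.s (.s (.c 1) (.v 0)) (.a (.m (.a (.c 1) (.v 2)) (.s (.s (.c 1) (.v 0)) (.v 1))) (.m (.m (.s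
  (.c 1) (.v 2)) (.v 0)) (.v 1))))

def Raa_t : Tr :=
  (.nd 1 (.nd 3 (.nd 2 (.nd 2 (.lf [1, 0, 0, 0, -2, -9315]) (.nd 3 (.nd 0 (.nd 1 (.nd 3 (.lf [64,
  0, 0, 0, -14, 0]) (.nd 0 (.lf [16, 0, 0, 0, -5, 0]) (.lf [1, 0, 0, 0, 0, 0]))) (.lf [64, 0, 0,
  -794, -6, 0])) (.nd 1 (.lf [4, 0, 0, 0, -2, 0]) (.nd 3 (.nd 2 (.lf [1, 0, 0, -40, -1, 0]) (.nd
  0 (.nd 2 (.lf [4, 0, 0, -61, -1, 0]) (.nd 1 (.lf [4, 0, 0, 0, -1, 0]) (.lf [16, 0, 0, -147, -2,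
  0]))) (.lf [1, 0, 0, 0, -2, 0]))) (.lf [1, 0, 0, -435, -4, 0])))) (.nd 0 (.nd 3 (.lf [16, 0, 0,
  0, -1, 0]) (.lf [1, 0, 0, 0, 0, 0])) (.nd 1 (.nd 3 (.nd 0 (.nd 2 (.lf [1, 0, 0, 0, -2, -450])
  (.nd 1 (.lf [64, 0, 0, 0, -15, 0]) (.lf [16, -3, 0, 0, -5, 0]))) (.lf [1, -10, 0, 0, -2, 0]))
  (.nd 0 (.nd 1 (.nd 3 (.nd 0 (.lf [64, -41, 0, 0, -10, 0]) (.lf [1, 0, 0, 0, 0, 0])) (.lf [64,
  -37, 0, 0, -5, 0])) (.lf [16, -17, 0, 0, -3, 0])) (.lf [1, -8, 0, 0, -2, 0]))) (.nd 3 (.nd 0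
  (.nd 2 (.lf [16, 0, 0, 0, -1, 0]) (.nd 3 (.nd 1 (.lf [64, 0, 0, 0, -9, 0]) (.lf [16, 0, 0, 0,
  -1, 0])) (.nd 1 (.lf [16, 0, 0, 0, -3, 0]) (.lf [64, 0, 0, 0, -7, 0])))) (.nd 2 (.lf [4, 0, 0,
  0, -2, 0]) (.nd 1 (.lf [1, 0, 0, 0, -6, 0]) (.lf [1024, 0, 0, 0, -173, 0])))) (.nd 0 (.nd 3
  (.nd 2 (.lf [1, 0, 0, 0, 0, 0]) (.nd 1 (.nd 2 (.lf [64, 0, 0, 0, -1, 0]) (.nd 0 (.lf [1024,
  -554, 0, 0, -75, 0]) (.lf [1, 0, 0, 0, 0, 0]))) (.lf [1, 0, 0, 0, 0, 0]))) (.nd 1 (.lf [4, -1,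
  0, 0, 0, 0]) (.lf [1, 0, 0, 0, 0, 0]))) (.nd 3 (.nd 2 (.lf [4, 0, 0, 0, -1, 0]) (.nd 1 (.lf
  [64, -35, 0, 0, -9, 0]) (.nd 0 (.nd 2 (.lf [16, 0, 0, 0, -1, 0]) (.nd 3 (.lf [64, -26, 0, 0,
  -2, 0]) (.lf [64, 0, 0, 0, -6, 0]))) (.lf [1, -3, 0, 0, -1, 0])))) (.nd 1 (.lf [16, -18, 0, 0,
  -2, 0]) (.lf [4, -3, 0, 0, 0, -206]))))))))) (.lf [1, 0, -11, 0, -2, 0])) (.nd 2 (.nd 3 (.nd 2
  (.lf [1, 0, -7, 0, -1, 0]) (.nd 1 (.lf [16, 0, -55, -758, -10, 0]) (.lf [1, 0, -5, -332, 0,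
  0]))) (.lf [1, 0, -21, 0, -2, 0])) (.lf [1, 0, -4, 0, -1, 0]))) (.nd 3 (.nd 0 (.nd 3 (.nd 2
  (.nd 1 (.lf [256, 0, 0, 0, -102, 0]) (.lf [64, 0, 0, 0, -41, 0])) (.lf [1, 0, -1, 0, -1, 0]))
  (.nd 1 (.nd 2 (.nd 0 (.nd 3 (.nd 2 (.lf [4, -2, 0, 0, -2, 0]) (.nd 1 (.lf [64, -38, 0, 0, -22,
  0]) (.lf [4, -1, 0, 0, -1, 0]))) (.nd 2 (.lf [1, 0, 0, 0, -1, 0]) (.nd 1 (.lf [64, -70, 0, 0,
  -15, 0]) (.lf [16, -14, 0, 0, -2, 0])))) (.lf [1, 0, 0, 0, 0, 0])) (.lf [1, 0, 0, 0, -1, 0]))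
  (.nd 2 (.nd 0 (.nd 3 (.nd 2 (.lf [1, 0, 0, 0, -2, 0]) (.nd 1 (.lf [64, -85, 0, 0, -26, 0]) (.lf
  [4, -7, 0, 0, -2, 0]))) (.nd 2 (.lf [4, -7, 0, 0, -3, 0]) (.nd 0 (.lf [64, -131, 0, 0, -25, 0])
  (.lf [1, -20, 0, 0, -4, 0])))) (.nd 3 (.lf [256, -204, 0, 0, -85, 0]) (.nd 2 (.nd 1 (.lf [1, 0,
  0, 0, 0, 0]) (.nd 0 (.nd 3 (.lf [1, 0, 0, 0, -1, 0]) (.nd 1 (.lf [4, -6, 0, 0, -2, 0]) (.nd 0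
  (.lf [4, -6, 0, 0, -2, 0]) (.lf [64, -133, 0, 0, -38, 0])))) (.lf [1, 0, 0, 0, 0, 0]))) (.nd 0
  (.lf [1024, -1698, 0, 0, -279, 0]) (.lf [1, 0, 0, 0, 0, 0]))))) (.lf [1, 0, 0, 0, -2, 0]))))
  (.nd 0 (.nd 1 (.nd 3 (.lf [1, 0, 0, 0, -5, 0]) (.nd 2 (.nd 3 (.lf [4, -5, 0, 0, -2, 0]) (.lf
  [4, -9, 0, 0, -2, 0])) (.lf [1, 0, 0, 0, -1, 0]))) (.lf [1, -20, 0, 0, -4, 0])) (.lf [1, -19,
  0, 0, -4, 0]))) (.nd 0 (.nd 2 (.nd 3 (.nd 2 (.lf [1, 0, -5, 0, -2, 0]) (.nd 1 (.lf [16, 0, -15,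
  0, -9, 0]) (.lf [1, 0, 0, 0, -1, 0]))) (.lf [1, 0, -16, 0, -2, 0])) (.lf [1, 0, -2, 0, -1, 0]))
  (.lf [1, 0, 0, 0, -5, 0]))))

theorem Raa_k : chk3 112 [2, 4, 2, 2] [2, 0, 0, 0] [3, 3, 1, 1] [6, 10, 1, 3] ([Raa_p0] ++ [Raa_c0, Raa_c1, Raa_c2, Raa_c3, Raa_c4])
    (okN (List.length [Raa_p0])) (fun u => [u]) Raa_t = true := by decide +kernel

theorem Raa (a e o h : ℝ)
    (l0 : (2 : ℝ) ≤ 6 * a) (u0 : 6 * a ≤ 3)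
    (l1 : (0 : ℝ) ≤ 10 * e) (u1 : 10 * e ≤ 3)
    (l2 : (0 : ℝ) ≤ o) (u2 : o ≤ 1)
    (l3 : (0 : ℝ) ≤ 3 * h) (u3 : 3 * h ≤ 1)
    (c0 : 0 ≤ (108 * ((((1 + o) * ((1 - a) - e)) + (((1 - o) * a) * e)) + h)) - (240 * (a * (1 -
    a))))
    (c1 : 0 ≤ (240 * (a * (1 - a))) - (80 * ((((1 + o) * ((1 - a) - e)) + (((1 - o) * a) * e)) +
    h)))
    (c2 : 0 ≤ (20 * (a * (1 - a))) - (((20 * a) - 1) * ((((1 + o) * ((1 - a) - e)) + (((1 - o) *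
    a) * e)) + h)))
    (c3 : 0 ≤ (1100 * (a * (1 - a))) - ((((1000 * e) - 785) + (2700 * a)) * ((((1 + o) * ((1 - a)
    - e)) + (((1 - o) * a) * e)) + h)))
    (c4 : 0 ≤ (1 - a) - (((1 + o) * ((1 - a) - e)) + (((1 - o) * a) * e)))
    :
    0 ≤ (900 * (((((((1 + o) * ((1 - a) - e)) + (((1 - o) * a) * e)) + h) - (a * (1 - a))) - (((1
    + o) * ((1 - a) - e)) * ((1 - a) - e))) - ((h + (((1 - o) * a) * e)) * (h + (((1 - o) * a) *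
    e))))) - ((((((225 * (8 - (e * e))) * a) * h) + ((((225 * e) * e) * a) * ((((1 + o) * ((1 -
    a) - e)) + (((1 - o) * a) * e)) + h))) - (((25 * ((2 - e) * (2 - e))) * ((1 - a) - (((1 + o)
    * ((1 - a) - e)) + (((1 - o) * a) * e)))) * ((16 * a) - 4))) + (((((900 * (2 - e)) * a) -
    ((180 * ((2 - e) * (2 - e))) * a)) + (36 * ((2 - e) * (2 - e)))) * (((1 + o) * (1 - e)) *
    e))) := by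
  have hbx := some_nonneg3 Raa_k [a, e, o, h] rfl
    (by simp only [InBox]; push_cast; exact ⟨⟨by norm_num, by norm_num⟩, ⟨by linarith, by
    linarith⟩, ⟨by norm_num, by norm_num⟩, ⟨by linarith, by linarith⟩, ⟨by norm_num, by
    norm_num⟩, ⟨by linarith, by linarith⟩, ⟨by norm_num, by norm_num⟩, ⟨by linarith, by
    linarith⟩, trivial⟩)
    (by simp only [List.forall_mem_cons, List.not_mem_nil, false_imp_iff, implies_true, and_true,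
    Raa_p0, Raa_c0, Raa_c1, Raa_c2, Raa_c3, Raa_c4, E.val, List.getD_cons_zero,
    List.getD_cons_succ, Int.cast_ofNat, Int.cast_one, Int.cast_zero]; exact ⟨c0, c1, c2, c3,
    c4⟩)
  simpa only [List.mem_cons, List.not_mem_nil, or_false, exists_eq_or_imp, exists_eq_left,
  Raa_p0, Raa_c0, Raa_c1, Raa_c2, Raa_c3, Raa_c4, E.val, List.getD_cons_zero,
  List.getD_cons_succ, Int.cast_ofNat, Int.cast_one, Int.cast_zero] using hbx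

def Rbp_p0 : E :=
  (.s (.s (.s (.s (.s (.a (.a (.m (.a (.c 1) (.v 2)) (.s (.s (.c 1) (.v 0)) (.v 1))) (.m (.m (.s
  (.c 1) (.v 2)) (.v 0)) (.v 1))) (.v 3)) (.m (.m (.a (.c 1) (.v 2)) (.s (.s (.c 1) (.v 0)) (.v
  1))) (.s (.s (.c 1) (.v 0)) (.v 1)))) (.m (.a (.v 3) (.m (.m (.s (.c 1) (.v 2)) (.v 0)) (.v
  1))) (.a (.v 3) (.m (.m (.s (.c 1) (.v 2)) (.v 0)) (.v 1))))) (.m (.m (.v 0) (.s (.c 2) (.v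
  0))) (.m (.m (.a (.c 1) (.v 2)) (.s (.c 1) (.v 1))) (.v 1)))) (.m (.m (.c 2) (.v 0)) (.v 3)))
  (.m (.v 0) (.a (.m (.a (.c 1) (.v 2)) (.s (.s (.c 1) (.v 0)) (.v 1))) (.m (.m (.s (.c 1) (.v
  2)) (.v 0)) (.v 1)))))

def Rbp_c0 : E :=
  (.s (.m (.c 108) (.a (.a (.m (.a (.c 1) (.v 2)) (.s (.s (.c 1) (.v 0)) (.v 1))) (.m (.m (.s (.c
  1) (.v 2)) (.v 0)) (.v 1))) (.v 3))) (.m (.c 240) (.m (.v 0) (.s (.c 1) (.v 0)))))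

def Rbp_c1 : E :=
  (.s (.m (.c 240) (.m (.v 0) (.s (.c 1) (.v 0)))) (.m (.c 104) (.a (.a (.m (.a (.c 1) (.v 2))
  (.s (.s (.c 1) (.v 0)) (.v 1))) (.m (.m (.s (.c 1) (.v 2)) (.v 0)) (.v 1))) (.v 3))))

def Rbp_c2 : E :=
  (.s (.m (.c 20) (.m (.v 0) (.s (.c 1) (.v 0)))) (.m (.s (.m (.c 20) (.v 0)) (.c 1)) (.a (.a (.m
  (.a (.c 1) (.v 2)) (.s (.s (.c 1) (.v 0)) (.v 1))) (.m (.m (.s (.c 1) (.v 2)) (.v 0)) (.v 1)))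
  (.v 3))))

def Rbp_c3 : E :=
  (.s (.m (.c 700) (.m (.v 0) (.s (.c 1) (.v 0)))) (.m (.a (.s (.m (.c 1000) (.v 1)) (.c 834))
  (.m (.c 2400) (.v 0))) (.a (.a (.m (.a (.c 1) (.v 2)) (.s (.s (.c 1) (.v 0)) (.v 1))) (.m (.m
  (.s (.c 1) (.v 2)) (.v 0)) (.v 1))) (.v 3))))

def Rbp_c4 : E :=
  (.s (.a (.m (.a (.c 1) (.v 2)) (.s (.s (.c 1) (.v 0)) (.v 1))) (.m (.m (.s (.c 1) (.v 2)) (.v
  0)) (.v 1))) (.s (.c 1) (.v 0)))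

def Rbp_t : Tr :=
  (.nd 3 (.nd 1 (.nd 1 (.nd 0 (.lf [64, 0, -1, 0, 0, -95]) (.nd 3 (.lf [1024, 0, -11, 0, -2,
  -1535]) (.nd 1 (.nd 3 (.lf [256, 0, -4, 0, -1, -569]) (.nd 0 (.nd 2 (.lf [65536, 0, -22, 0,
  -14, 0]) (.lf [1024, 0, -2, 0, -1, 0])) (.lf [256, -3, 0, 0, -1, 0]))) (.lf [64, 0, -6, 0, -1,
  -841])))) (.nd 3 (.lf [1024, 0, -18, 0, -2, 0]) (.nd 0 (.lf [4096, 0, -18, 0, 0, -1645]) (.nd 1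
  (.nd 3 (.lf [256, 0, -10, 0, -1, -1253]) (.nd 0 (.nd 1 (.lf [4194304, 0, -677, 0, -415, 0])
  (.lf [65536, 0, -13, 0, -10, 0])) (.nd 0 (.nd 1 (.lf [65536, 0, 0, 0, -10, 0]) (.lf [256, -6,
  0, 0, -2, 0])) (.lf [256, -2, 0, 0, -1, 0])))) (.nd 3 (.nd 0 (.lf [64, 0, -1, 0, 0, -67]) (.nd
  1 (.lf [256, 0, -40, 0, -5, -5509]) (.nd 3 (.nd 0 (.nd 2 (.nd 2 (.lf [4096, 0, 0, 0, -1, 0])
  (.nd 2 (.lf [4096, 0, -1, 0, -1, 0]) (.nd 3 (.lf [1024, 0, -8, 0, -1, 0]) (.lf [16777216, 0,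
  -3817, 0, -1745, 0])))) (.lf [4096, 0, 0, 0, -1, 0])) (.lf [256, 0, 0, 0, -1, 0])) (.lf [1024,
  0, -10, 0, -1, 0])))) (.nd 1 (.nd 0 (.lf [16384, 0, -5, 0, 0, 0]) (.nd 3 (.lf [16384, 0, 0, 0,
  -2, -146]) (.nd 1 (.nd 2 (.nd 3 (.lf [65536, 0, 0, 0, -5, 0]) (.nd 0 (.nd 1 (.lf [262144, 0,
  -5, 0, -18, 0]) (.lf [262144, 0, -13, 0, -13, 0])) (.lf [1024, -2, 0, 0, -1, 0]))) (.lf [1024,
  0, -1, 0, 0, 0])) (.lf [1048576, 0, -12, 0, -101, 0])))) (.nd 3 (.nd 0 (.lf [16384, 0, -2, 0,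
  0, 0]) (.nd 1 (.lf [65536, 0, 0, 0, -6, -842]) (.nd 0 (.lf [65536, 0, 0, 0, -3, -428]) (.lf
  [256, -8, 0, 0, -3, 0])))) (.nd 1 (.nd 0 (.lf [65536, 0, -9, 0, 0, 0]) (.nd 2 (.nd 0 (.nd 3
  (.lf [65536, 0, -1, 0, -3, 0]) (.nd 1 (.nd 3 (.lf [65536, 0, -1, 0, -2, 0]) (.nd 1 (.lf [65536,
  0, -2, 0, -2, 0]) (.lf [1048576, 0, -26, 0, -25, 0]))) (.lf [1048576, 0, -45, 0, -38, 0])))
  (.lf [1024, -3, 0, 0, -1, 0])) (.lf [16384, 0, -6, 0, -1, 0]))) (.nd 0 (.nd 3 (.lf [16384, 0,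
  -1, 0, 0, 0]) (.nd 2 (.nd 0 (.nd 3 (.lf [16384, 0, -1, 0, 0, 0]) (.nd 2 (.lf [16384, 0, -2, 0,
  0, 0]) (.nd 2 (.lf [16384, 0, -1, 0, 0, 0]) (.lf [1, 0, 0, 0, 0, 0])))) (.nd 3 (.lf [1, 0, 0,
  0, 0, 0]) (.nd 2 (.lf [16384, 0, -1, 0, 0, 0]) (.lf [1, 0, 0, 0, 0, 0])))) (.lf [16384, 0, -2,
  0, -1, 0]))) (.nd 2 (.nd 3 (.nd 1 (.lf [262144, -11, 0, 0, -10, 0]) (.lf [262144, -12, 0, 0,
  -7, 0])) (.nd 2 (.lf [16384, 0, -4, 0, -1, 0]) (.nd 3 (.nd 1 (.lf [262144, 0, 0, 0, -7, 0])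
  (.lf [1048576, -3, 0, 0, -14, 0])) (.nd 1 (.nd 0 (.nd 3 (.lf [65536, 0, -1, 0, -1, 0]) (.nd 1
  (.nd 3 (.lf [65536, 0, -1, 0, -1, 0]) (.nd 1 (.lf [262144, 0, -3, 0, -4, 0]) (.lf [262144, 0,
  -3, 0, -3, 0]))) (.lf [1048576, 0, -20, 0, -18, 0]))) (.lf [4096, -5, 0, 0, -2, 0])) (.nd 0
  (.nd 0 (.nd 3 (.lf [1048576, 0, -7, 0, -7, 0]) (.nd 1 (.nd 3 (.lf [262144, 0, 0, 0, -3, 0])
  (.nd 1 (.nd 3 (.lf [262144, 0, 0, 0, -2, 0]) (.nd 1 (.lf [262144, 0, -1, 0, -2, 0]) (.lf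
  [1048576, 0, -2, 0, -7, 0]))) (.lf [1048576, 0, -2, 0, -11, 0]))) (.nd 2 (.lf [16384, 0, -1, 0,
  0, 0]) (.nd 3 (.lf [1, 0, 0, 0, 0, 0]) (.nd 2 (.nd 3 (.lf [262144, 0, 0, 0, -1, 0]) (.nd 1 (.lf
  [262144, 0, 0, 0, -1, 0]) (.nd 3 (.lf [1048576, 0, 0, 0, -1, 0]) (.nd 1 (.lf [1048576, 0, 0, 0,
  -2, 0]) (.nd 3 (.lf [1048576, 0, 0, 0, -1, 0]) (.nd 1 (.lf [1048576, 0, 0, 0, -1, 0]) (.nd 0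
  (.nd 3 (.lf [1, 0, 0, 0, 0, 0]) (.nd 2 (.lf [1, 0, 0, 0, 0, 0]) (.lf [1048576, 0, -1, 0, 0,
  0]))) (.nd 3 (.lf [4194304, 0, 0, 0, -1, 0]) (.nd 2 (.nd 2 (.nd 3 (.lf [1, 0, 0, 0, 0, 0]) (.nd
  0 (.lf [1, 0, 0, 0, 0, 0]) (.lf [4194304, 0, 0, 0, -1, 0]))) (.lf [1, 0, 0, 0, 0, 0])) (.lf
  [65536, 0, 0, 0, -1, 0])))))))))) (.lf [1, 0, 0, 0, 0, 0])))))) (.nd 3 (.lf [65536, 0, -1, 0,
  0, 0]) (.nd 2 (.lf [16384, 0, -2, 0, 0, 0]) (.lf [1, 0, 0, 0, 0, 0])))) (.lf [16384, -46, 0, 0,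
  -16, 0])))))) (.lf [4096, 0, -1, 0, 0, 0]))))))))))) (.lf [256, 0, -33, 0, -6, -4138])) (.lf
  [256, 0, -7, 0, -1, 0]))

theorem Rbp_k : chk3 170 [2, 2, 2, 2] [2, 0, 0, 0] [3, 3, 1, 1] [6, 10, 1, 3] ([Rbp_p0] ++ [Rbp_c0, Rbp_c1, Rbp_c2, Rbp_c3, Rbp_c4])
    (okN (List.length [Rbp_p0])) (fun u => [u]) Rbp_t = true := by decide +kernel

theorem Rbp (a e o h : ℝ)
    (l0 : (2 : ℝ) ≤ 6 * a) (u0 : 6 * a ≤ 3)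
    (l1 : (0 : ℝ) ≤ 10 * e) (u1 : 10 * e ≤ 3)
    (l2 : (0 : ℝ) ≤ o) (u2 : o ≤ 1)
    (l3 : (0 : ℝ) ≤ 3 * h) (u3 : 3 * h ≤ 1)
    (c0 : 0 ≤ (108 * ((((1 + o) * ((1 - a) - e)) + (((1 - o) * a) * e)) + h)) - (240 * (a * (1 -
    a))))
    (c1 : 0 ≤ (240 * (a * (1 - a))) - (104 * ((((1 + o) * ((1 - a) - e)) + (((1 - o) * a) * e)) +
    h)))
    (c2 : 0 ≤ (20 * (a * (1 - a))) - (((20 * a) - 1) * ((((1 + o) * ((1 - a) - e)) + (((1 - o) *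
    a) * e)) + h)))
    (c3 : 0 ≤ (700 * (a * (1 - a))) - ((((1000 * e) - 834) + (2400 * a)) * ((((1 + o) * ((1 - a)
    - e)) + (((1 - o) * a) * e)) + h)))
    (c4 : 0 ≤ (((1 + o) * ((1 - a) - e)) + (((1 - o) * a) * e)) - (1 - a))
    :
    0 ≤ ((((((((1 + o) * ((1 - a) - e)) + (((1 - o) * a) * e)) + h) - (((1 + o) * ((1 - a) - e))
    * ((1 - a) - e))) - ((h + (((1 - o) * a) * e)) * (h + (((1 - o) * a) * e)))) - ((a * (2 - a))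
    * (((1 + o) * (1 - e)) * e))) - ((2 * a) * h)) - (a * (((1 + o) * ((1 - a) - e)) + (((1 - o)
    * a) * e))) := by
  have hbx := some_nonneg3 Rbp_k [a, e, o, h] rfl
    (by simp only [InBox]; push_cast; exact ⟨⟨by norm_num, by norm_num⟩, ⟨by linarith, by
    linarith⟩, ⟨by norm_num, by norm_num⟩, ⟨by linarith, by linarith⟩, ⟨by norm_num, by
    norm_num⟩, ⟨by linarith, by linarith⟩, ⟨by norm_num, by norm_num⟩, ⟨by linarith, by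
    linarith⟩, trivial⟩)
    (by simp only [List.forall_mem_cons, List.not_mem_nil, false_imp_iff, implies_true, and_true,
    Rbp_p0, Rbp_c0, Rbp_c1, Rbp_c2, Rbp_c3, Rbp_c4, E.val, List.getD_cons_zero,
    List.getD_cons_succ, Int.cast_ofNat, Int.cast_one, Int.cast_zero]; exact ⟨c0, c1, c2, c3,
    c4⟩)
  simpa only [List.mem_cons, List.not_mem_nil, or_false, exists_eq_or_imp, exists_eq_left,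
  Rbp_p0, Rbp_c0, Rbp_c1, Rbp_c2, Rbp_c3, Rbp_c4, E.val, List.getD_cons_zero,
  List.getD_cons_succ, Int.cast_ofNat, Int.cast_one, Int.cast_zero] using hbx

def Rbz_p0 : E :=
  (.s (.m (.c 900) (.s (.s (.s (.a (.a (.m (.a (.c 1) (.v 2)) (.s (.s (.c 1) (.v 0)) (.v 1))) (.m
  (.m (.s (.c 1) (.v 2)) (.v 0)) (.v 1))) (.v 3)) (.m (.v 0) (.s (.c 1) (.v 0)))) (.m (.m (.a (.c
  1) (.v 2)) (.s (.s (.c 1) (.v 0)) (.v 1))) (.s (.s (.c 1) (.v 0)) (.v 1)))) (.m (.a (.v 3) (.m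
  (.m (.s (.c 1) (.v 2)) (.v 0)) (.v 1))) (.a (.v 3) (.m (.m (.s (.c 1) (.v 2)) (.v 0)) (.v
  1)))))) (.a (.a (.m (.m (.m (.c 225) (.s (.c 8) (.m (.v 1) (.v 1)))) (.v 0)) (.v 3)) (.m (.m
  (.c 100) (.m (.s (.c 2) (.v 1)) (.s (.c 2) (.v 1)))) (.s (.s (.c 1) (.v 0)) (.a (.m (.a (.c 1)
  (.v 2)) (.s (.s (.c 1) (.v 0)) (.v 1))) (.m (.m (.s (.c 1) (.v 2)) (.v 0)) (.v 1)))))) (.m (.m
  (.c 36) (.m (.s (.c 2) (.v 1)) (.s (.c 2) (.v 1)))) (.m (.m (.a (.c 1) (.v 2)) (.s (.c 1) (.v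
  1))) (.v 1)))))

def Rbz_c0 : E :=
  (.s (.m (.c 108) (.a (.a (.m (.a (.c 1) (.v 2)) (.s (.s (.c 1) (.v 0)) (.v 1))) (.m (.m (.s (.c
  1) (.v 2)) (.v 0)) (.v 1))) (.v 3))) (.m (.c 240) (.m (.v 0) (.s (.c 1) (.v 0)))))

def Rbz_c1 : E :=
  (.s (.m (.c 240) (.m (.v 0) (.s (.c 1) (.v 0)))) (.m (.c 104) (.a (.a (.m (.a (.c 1) (.v 2))
  (.s (.s (.c 1) (.v 0)) (.v 1))) (.m (.m (.s (.c 1) (.v 2)) (.v 0)) (.v 1))) (.v 3))))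

def Rbz_c2 : E :=
  (.s (.m (.c 20) (.m (.v 0) (.s (.c 1) (.v 0)))) (.m (.s (.m (.c 20) (.v 0)) (.c 1)) (.a (.a (.m
  (.a (.c 1) (.v 2)) (.s (.s (.c 1) (.v 0)) (.v 1))) (.m (.m (.s (.c 1) (.v 2)) (.v 0)) (.v 1)))
  (.v 3))))

def Rbz_c3 : E :=
  (.s (.m (.c 700) (.m (.v 0) (.s (.c 1) (.v 0)))) (.m (.a (.s (.m (.c 1000) (.v 1)) (.c 834))
  (.m (.c 2400) (.v 0))) (.a (.a (.m (.a (.c 1) (.v 2)) (.s (.s (.c 1) (.v 0)) (.v 1))) (.m (.m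
  (.s (.c 1) (.v 2)) (.v 0)) (.v 1))) (.v 3))))

def Rbz_c4 : E :=
  (.s (.s (.c 1) (.v 0)) (.a (.m (.a (.c 1) (.v 2)) (.s (.s (.c 1) (.v 0)) (.v 1))) (.m (.m (.s
  (.c 1) (.v 2)) (.v 0)) (.v 1))))

def Rbz_t : Tr :=
  (.nd 3 (.nd 2 (.nd 1 (.nd 2 (.lf [1, 0, 0, 0, 0, 0]) (.nd 3 (.lf [1, 0, -16, 0, -2, 0]) (.nd 2
  (.lf [1, 0, 0, 0, 0, 0]) (.nd 1 (.nd 3 (.lf [256, 0, -254, 0, -70, 0]) (.lf [4, -3, 0, 0, 0,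
  0])) (.nd 3 (.nd 2 (.lf [1, 0, 0, 0, 0, 0]) (.nd 0 (.lf [1, 0, 0, 0, 0, 0]) (.nd 2 (.lf [1, 0,
  0, 0, 0, 0]) (.nd 1 (.lf [16, 0, -13, 0, -3, 0]) (.nd 3 (.nd 2 (.lf [1, 0, 0, 0, 0, 0]) (.nd 0
  (.lf [1, 0, 0, 0, 0, 0]) (.nd 2 (.lf [64, 0, 0, 0, -1, 0]) (.nd 1 (.lf [16, 0, 0, 0, -2, 0])
  (.nd 3 (.lf [1, 0, -9, 0, -1, 0]) (.nd 2 (.lf [16, 0, 0, 0, -1, 0]) (.nd 1 (.lf [16, 0, 0, 0,
  -2, 0]) (.nd 0 (.lf [64, 0, -13, 0, -6, 0]) (.lf [1, 0, 0, 0, -1, 0]))))))))) (.lf [4, 0, -14,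
  0, -2, 0])))))) (.nd 2 (.lf [1, 0, 0, 0, 0, 0]) (.nd 2 (.lf [1, 0, 0, 0, 0, 0]) (.nd 0 (.lf [1,
  0, 0, 0, 0, 0]) (.nd 3 (.nd 1 (.lf [256, 0, 0, 0, -1, 0]) (.nd 2 (.lf [1, 0, 0, 0, 0, 0]) (.nd
  1 (.lf [16, 0, 0, 0, -1, 0]) (.nd 0 (.lf [1, 0, 0, 0, 0, 0]) (.nd 0 (.lf [1, 0, 0, 0, 0, 0])
  (.lf [1, -6, 0, 0, -2, 0])))))) (.nd 1 (.lf [1, 0, 0, 0, 0, 0]) (.nd 2 (.lf [1, 0, 0, 0, 0, 0])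
  (.nd 2 (.lf [1, 0, 0, 0, 0, 0]) (.nd 1 (.lf [1, 0, 0, 0, 0, 0]) (.nd 3 (.lf [4, -1, 0, 0, 0,
  0]) (.nd 2 (.lf [1, 0, 0, 0, 0, 0]) (.nd 1 (.lf [1, 0, 0, 0, 0, 0]) (.nd 2 (.lf [1, 0, 0, 0, 0,
  0]) (.nd 0 (.lf [1, 0, 0, 0, 0, 0]) (.lf [16, -1, 0, 0, 0, 0]))))))))))))))))))) (.nd 0 (.nd 3
  (.lf [1, 0, -24, 0, -4, 0]) (.nd 2 (.lf [1, 0, 0, 0, 0, 0]) (.nd 3 (.nd 2 (.lf [4, 0, 0, 0, -1,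
  0]) (.nd 1 (.lf [4, 0, 0, 0, -1, 0]) (.lf [16, -1, 0, 0, -6, 0]))) (.lf [1, -2, 0, 0, 0, 0]))))
  (.lf [1, -515, 0, 0, -176, 0]))) (.lf [1, 0, -49, 0, -30, -9082])) (.lf [1, 0, -20, 0, -3, 0]))

theorem Rbz_k : chk3 136 [2, 4, 2, 2] [2, 0, 0, 0] [3, 3, 1, 1] [6, 10, 1, 3] ([Rbz_p0] ++ [Rbz_c0, Rbz_c1, Rbz_c2, Rbz_c3, Rbz_c4])
    (okN (List.length [Rbz_p0])) (fun u => [u]) Rbz_t = true := by decide +kernel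

theorem Rbz (a e o h : ℝ)
    (l0 : (2 : ℝ) ≤ 6 * a) (u0 : 6 * a ≤ 3)
    (l1 : (0 : ℝ) ≤ 10 * e) (u1 : 10 * e ≤ 3)
    (l2 : (0 : ℝ) ≤ o) (u2 : o ≤ 1)
    (l3 : (0 : ℝ) ≤ 3 * h) (u3 : 3 * h ≤ 1)
    (c0 : 0 ≤ (108 * ((((1 + o) * ((1 - a) - e)) + (((1 - o) * a) * e)) + h)) - (240 * (a * (1 -
    a))))
    (c1 : 0 ≤ (240 * (a * (1 - a))) - (104 * ((((1 + o) * ((1 - a) - e)) + (((1 - o) * a) * e)) +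
    h)))
    (c2 : 0 ≤ (20 * (a * (1 - a))) - (((20 * a) - 1) * ((((1 + o) * ((1 - a) - e)) + (((1 - o) *
    a) * e)) + h)))
    (c3 : 0 ≤ (700 * (a * (1 - a))) - ((((1000 * e) - 834) + (2400 * a)) * ((((1 + o) * ((1 - a)
    - e)) + (((1 - o) * a) * e)) + h)))
    (c4 : 0 ≤ (1 - a) - (((1 + o) * ((1 - a) - e)) + (((1 - o) * a) * e)))
    :
    0 ≤ (900 * (((((((1 + o) * ((1 - a) - e)) + (((1 - o) * a) * e)) + h) - (a * (1 - a))) - (((1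
    + o) * ((1 - a) - e)) * ((1 - a) - e))) - ((h + (((1 - o) * a) * e)) * (h + (((1 - o) * a) *
    e))))) - (((((225 * (8 - (e * e))) * a) * h) + ((100 * ((2 - e) * (2 - e))) * ((1 - a) - (((1
    + o) * ((1 - a) - e)) + (((1 - o) * a) * e))))) + ((36 * ((2 - e) * (2 - e))) * (((1 + o) *
    (1 - e)) * e))) := by
  have hbx := some_nonneg3 Rbz_k [a, e, o, h] rfl
    (by simp only [InBox]; push_cast; exact ⟨⟨by norm_num, by norm_num⟩, ⟨by linarith, by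
    linarith⟩, ⟨by norm_num, by norm_num⟩, ⟨by linarith, by linarith⟩, ⟨by norm_num, by
    norm_num⟩, ⟨by linarith, by linarith⟩, ⟨by norm_num, by norm_num⟩, ⟨by linarith, by
    linarith⟩, trivial⟩)
    (by simp only [List.forall_mem_cons, List.not_mem_nil, false_imp_iff, implies_true, and_true,
    Rbz_p0, Rbz_c0, Rbz_c1, Rbz_c2, Rbz_c3, Rbz_c4, E.val, List.getD_cons_zero,
    List.getD_cons_succ, Int.cast_ofNat, Int.cast_one, Int.cast_zero]; exact ⟨c0, c1, c2, c3,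
    c4⟩)
  simpa only [List.mem_cons, List.not_mem_nil, or_false, exists_eq_or_imp, exists_eq_left,
  Rbz_p0, Rbz_c0, Rbz_c1, Rbz_c2, Rbz_c3, Rbz_c4, E.val, List.getD_cons_zero,
  List.getD_cons_succ, Int.cast_ofNat, Int.cast_one, Int.cast_zero] using hbx

def Rba_p0 : E :=
  (.s (.m (.c 900) (.s (.s (.s (.a (.a (.m (.a (.c 1) (.v 2)) (.s (.s (.c 1) (.v 0)) (.v 1))) (.m
  (.m (.s (.c 1) (.v 2)) (.v 0)) (.v 1))) (.v 3)) (.m (.v 0) (.s (.c 1) (.v 0)))) (.m (.m (.a (.c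
  1) (.v 2)) (.s (.s (.c 1) (.v 0)) (.v 1))) (.s (.s (.c 1) (.v 0)) (.v 1)))) (.m (.a (.v 3) (.m
  (.m (.s (.c 1) (.v 2)) (.v 0)) (.v 1))) (.a (.v 3) (.m (.m (.s (.c 1) (.v 2)) (.v 0)) (.v
  1)))))) (.a (.s (.a (.m (.m (.m (.c 225) (.s (.c 8) (.m (.v 1) (.v 1)))) (.v 0)) (.v 3)) (.m
  (.m (.m (.m (.c 225) (.v 1)) (.v 1)) (.v 0)) (.a (.a (.m (.a (.c 1) (.v 2)) (.s (.s (.c 1) (.v
  0)) (.v 1))) (.m (.m (.s (.c 1) (.v 2)) (.v 0)) (.v 1))) (.v 3)))) (.m (.m (.m (.c 25) (.m (.s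
  (.c 2) (.v 1)) (.s (.c 2) (.v 1)))) (.s (.s (.c 1) (.v 0)) (.a (.m (.a (.c 1) (.v 2)) (.s (.s
  (.c 1) (.v 0)) (.v 1))) (.m (.m (.s (.c 1) (.v 2)) (.v 0)) (.v 1))))) (.s (.m (.c 16) (.v 0))
  (.c 4)))) (.m (.a (.s (.m (.m (.c 900) (.s (.c 2) (.v 1))) (.v 0)) (.m (.m (.c 180) (.m (.s (.c
  2) (.v 1)) (.s (.c 2) (.v 1)))) (.v 0))) (.m (.c 36) (.m (.s (.c 2) (.v 1)) (.s (.c 2) (.v
  1))))) (.m (.m (.a (.c 1) (.v 2)) (.s (.c 1) (.v 1))) (.v 1)))))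

def Rba_c0 : E :=
  (.s (.m (.c 108) (.a (.a (.m (.a (.c 1) (.v 2)) (.s (.s (.c 1) (.v 0)) (.v 1))) (.m (.m (.s (.c
  1) (.v 2)) (.v 0)) (.v 1))) (.v 3))) (.m (.c 240) (.m (.v 0) (.s (.c 1) (.v 0)))))

def Rba_c1 : E :=
  (.s (.m (.c 240) (.m (.v 0) (.s (.c 1) (.v 0)))) (.m (.c 104) (.a (.a (.m (.a (.c 1) (.v 2))
  (.s (.s (.c 1) (.v 0)) (.v 1))) (.m (.m (.s (.c 1) (.v 2)) (.v 0)) (.v 1))) (.v 3))))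

def Rba_c2 : E :=
  (.s (.m (.c 20) (.m (.v 0) (.s (.c 1) (.v 0)))) (.m (.s (.m (.c 20) (.v 0)) (.c 1)) (.a (.a (.m
  (.a (.c 1) (.v 2)) (.s (.s (.c 1) (.v 0)) (.v 1))) (.m (.m (.s (.c 1) (.v 2)) (.v 0)) (.v 1)))
  (.v 3))))

def Rba_c3 : E :=
  (.s (.m (.c 700) (.m (.v 0) (.s (.c 1) (.v 0)))) (.m (.a (.s (.m (.c 1000) (.v 1)) (.c 834))
  (.m (.c 2400) (.v 0))) (.a (.a (.m (.a (.c 1) (.v 2)) (.s (.s (.c 1) (.v 0)) (.v 1))) (.m (.m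
  (.s (.c 1) (.v 2)) (.v 0)) (.v 1))) (.v 3))))

def Rba_c4 : E :=
  (.s (.s (.c 1) (.v 0)) (.a (.m (.a (.c 1) (.v 2)) (.s (.s (.c 1) (.v 0)) (.v 1))) (.m (.m (.s
  (.c 1) (.v 2)) (.v 0)) (.v 1))))

def Rba_t : Tr :=
  (.nd 3 (.nd 1 (.nd 3 (.lf [1, 0, -29, 0, -4, 0]) (.nd 0 (.lf [16384, 0, -5387, 0, -171, 0])
  (.nd 1 (.nd 2 (.nd 0 (.nd 3 (.nd 1 (.nd 2 (.lf [4, 0, 0, 0, -1, 0]) (.nd 2 (.lf [4, 0, -1, 0,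
  -1, 0]) (.nd 3 (.nd 0 (.lf [4, 0, 0, 0, -1, 0]) (.lf [16, 0, 0, 0, -3, 0])) (.lf [4, 0, -39, 0,
  -6, 0])))) (.lf [64, 0, 0, 0, -21, 0])) (.nd 1 (.nd 0 (.lf [64, -35, 0, 0, -9, 0]) (.lf [1, 0,
  0, 0, 0, 0])) (.lf [64, -38, 0, 0, -13, 0]))) (.lf [1, -10, 0, 0, -3, 0])) (.lf [1, 0, -1, 0,
  -1, 0])) (.nd 2 (.nd 3 (.nd 2 (.lf [4, 0, -1, 0, -1, 0]) (.nd 2 (.lf [4, 0, -8, 0, -2, 0]) (.nd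
  0 (.nd 3 (.nd 1 (.nd 2 (.lf [16, 0, 0, 0, -2, 0]) (.nd 0 (.nd 2 (.lf [4, 0, -7, 0, -2, 0]) (.nd
  3 (.lf [16, 0, -4, 0, -3, 0]) (.nd 1 (.lf [16, 0, 0, 0, -2, 0]) (.lf [16, 0, 0, 0, -3, 0]))))
  (.lf [1, 0, 0, 0, 0, 0]))) (.lf [16, 0, -4, 0, -1, 0])) (.lf [4, 0, -22, 0, -3, 0])) (.nd 1
  (.nd 3 (.lf [64, 0, 0, 0, -15, 0]) (.lf [1, 0, -13, 0, -2, 0])) (.nd 3 (.nd 2 (.lf [4, 0, -5,
  0, -1, 0]) (.nd 0 (.nd 2 (.lf [4, 0, -8, 0, -1, 0]) (.nd 3 (.lf [1, 0, -43, 0, -5, 0]) (.nd 1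
  (.nd 2 (.lf [4, 0, -1, 0, -1, 0]) (.nd 0 (.lf [1, 0, 0, 0, -45, 0]) (.lf [256, 0, 0, 0, -31,
  0]))) (.nd 2 (.lf [16, 0, -3, 0, -2, -771]) (.nd 0 (.nd 3 (.nd 1 (.lf [16, 0, -1, 0, -2, 0])
  (.lf [64, 0, -2, 0, -7, 0])) (.lf [256, 0, 0, 0, -25, 0])) (.lf [256, 0, -39, 0, -23, 0]))))))
  (.lf [1, 0, 0, 0, -1, 0]))) (.lf [1, 0, -7, 0, -1, 0])))))) (.nd 0 (.nd 2 (.lf [1, 0, 0, 0, 0,
  0]) (.nd 3 (.nd 2 (.lf [1, 0, 0, 0, 0, 0]) (.nd 1 (.nd 2 (.lf [64, 0, 0, 0, -1, 0]) (.nd 0 (.nd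
  3 (.lf [16, -9, 0, 0, -1, 0]) (.nd 1 (.lf [64, 0, 0, 0, -6, 0]) (.lf [16, -5, 0, 0, -2, 0])))
  (.lf [1, 0, 0, 0, 0, 0]))) (.lf [1, 0, 0, 0, 0, 0]))) (.nd 1 (.lf [4, -1, 0, 0, 0, 0]) (.lf [1,
  0, 0, 0, 0, 0])))) (.nd 1 (.nd 3 (.nd 2 (.lf [4, 0, 0, 0, -1, 0]) (.nd 0 (.nd 2 (.lf [4, 0, 0,
  0, -1, 0]) (.nd 2 (.lf [4, 0, 0, 0, -2, -729]) (.nd 3 (.lf [64, -53, 0, 0, -5, 0]) (.nd 1 (.lf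
  [64, -12, 0, 0, -9, 0]) (.lf [1, -4, 0, 0, -1, 0]))))) (.lf [1, -1, 0, 0, -1, 0]))) (.lf [16,
  -18, 0, 0, -3, 0])) (.nd 3 (.nd 2 (.lf [16, 0, 0, 0, -1, 0]) (.nd 2 (.lf [16, 0, 0, 0, -2, 0])
  (.nd 0 (.nd 3 (.nd 1 (.lf [64, -35, 0, 0, -2, 0]) (.lf [4, -2, 0, 0, 0, 0])) (.nd 2 (.lf [16,
  0, 0, 0, -1, 0]) (.nd 1 (.nd 2 (.lf [16, 0, 0, 0, -2, 0]) (.nd 2 (.lf [16, 0, 0, 0, -2, 0])
  (.nd 0 (.lf [16, -2, 0, 0, -2, 0]) (.lf [64, 0, 0, 0, -6, 0])))) (.nd 2 (.lf [1, 0, 0, 0, 0,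
  0]) (.nd 2 (.lf [16, 0, 0, 0, -1, 0]) (.nd 0 (.nd 3 (.lf [64, 0, 0, 0, -5, 0]) (.lf [64, 0, 0,
  0, -6, 0])) (.lf [1, 0, 0, 0, 0, 0]))))))) (.lf [1, -24, 0, 0, -8, 0])))) (.lf [4, -3, 0, 0, 0,
  -207]))))) (.lf [4, 0, 0, 0, -1, 0]))))) (.nd 0 (.nd 3 (.lf [1, 0, -42, 0, -7, 0]) (.nd 1 (.nd
  2 (.nd 0 (.nd 3 (.lf [64, 0, -1, 0, -21, 0]) (.nd 2 (.lf [1, 0, -2, 0, -1, 0]) (.nd 1 (.lf [4,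
  -3, 0, 0, -1, 0]) (.lf [16, -5, 0, 0, -3, 0])))) (.lf [1, 0, 0, 0, 0, 0])) (.lf [4, 0, -2, 0,
  -3, 0])) (.nd 2 (.nd 0 (.lf [256, -405, 0, 0, -152, 0]) (.nd 3 (.lf [4, -1, 0, 0, -1, 0]) (.nd
  2 (.lf [16, 0, 0, 0, -10, 0]) (.lf [4, -5, 0, 0, -1, 0])))) (.lf [1, 0, -5, 0, -3, 0])))) (.lf
  [1, -1058, 0, 0, -362, 0]))) (.lf [1, 0, -25, 0, -3, 0]))

theorem Rba_k : chk3 136 [2, 4, 2, 2] [2, 0, 0, 0] [3, 3, 1, 1] [6, 10, 1, 3] ([Rba_p0] ++ [Rba_c0, Rba_c1, Rba_c2, Rba_c3, Rba_c4])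
    (okN (List.length [Rba_p0])) (fun u => [u]) Rba_t = true := by decide +kernel

theorem Rba (a e o h : ℝ)
    (l0 : (2 : ℝ) ≤ 6 * a) (u0 : 6 * a ≤ 3)
    (l1 : (0 : ℝ) ≤ 10 * e) (u1 : 10 * e ≤ 3)
    (l2 : (0 : ℝ) ≤ o) (u2 : o ≤ 1)
    (l3 : (0 : ℝ) ≤ 3 * h) (u3 : 3 * h ≤ 1)
    (c0 : 0 ≤ (108 * ((((1 + o) * ((1 - a) - e)) + (((1 - o) * a) * e)) + h)) - (240 * (a * (1 -
    a))))
    (c1 : 0 ≤ (240 * (a * (1 - a))) - (104 * ((((1 + o) * ((1 - a) - e)) + (((1 - o) * a) * e)) +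
    h)))
    (c2 : 0 ≤ (20 * (a * (1 - a))) - (((20 * a) - 1) * ((((1 + o) * ((1 - a) - e)) + (((1 - o) *
    a) * e)) + h)))
    (c3 : 0 ≤ (700 * (a * (1 - a))) - ((((1000 * e) - 834) + (2400 * a)) * ((((1 + o) * ((1 - a)
    - e)) + (((1 - o) * a) * e)) + h)))
    (c4 : 0 ≤ (1 - a) - (((1 + o) * ((1 - a) - e)) + (((1 - o) * a) * e)))
    :
    0 ≤ (900 * (((((((1 + o) * ((1 - a) - e)) + (((1 - o) * a) * e)) + h) - (a * (1 - a))) - (((1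
    + o) * ((1 - a) - e)) * ((1 - a) - e))) - ((h + (((1 - o) * a) * e)) * (h + (((1 - o) * a) *
    e))))) - ((((((225 * (8 - (e * e))) * a) * h) + ((((225 * e) * e) * a) * ((((1 + o) * ((1 -
    a) - e)) + (((1 - o) * a) * e)) + h))) - (((25 * ((2 - e) * (2 - e))) * ((1 - a) - (((1 + o)
    * ((1 - a) - e)) + (((1 - o) * a) * e)))) * ((16 * a) - 4))) + (((((900 * (2 - e)) * a) -
    ((180 * ((2 - e) * (2 - e))) * a)) + (36 * ((2 - e) * (2 - e)))) * (((1 + o) * (1 - e)) *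
    e))) := by
  have hbx := some_nonneg3 Rba_k [a, e, o, h] rfl
    (by simp only [InBox]; push_cast; exact ⟨⟨by norm_num, by norm_num⟩, ⟨by linarith, by
    linarith⟩, ⟨by norm_num, by norm_num⟩, ⟨by linarith, by linarith⟩, ⟨by norm_num, by
    norm_num⟩, ⟨by linarith, by linarith⟩, ⟨by norm_num, by norm_num⟩, ⟨by linarith, by
    linarith⟩, trivial⟩)
    (by simp only [List.forall_mem_cons, List.not_mem_nil, false_imp_iff, implies_true, and_true,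
    Rba_p0, Rba_c0, Rba_c1, Rba_c2, Rba_c3, Rba_c4, E.val, List.getD_cons_zero,
    List.getD_cons_succ, Int.cast_ofNat, Int.cast_one, Int.cast_zero]; exact ⟨c0, c1, c2, c3,
    c4⟩)
  simpa only [List.mem_cons, List.not_mem_nil, or_false, exists_eq_or_imp, exists_eq_left,
  Rba_p0, Rba_c0, Rba_c1, Rba_c2, Rba_c3, Rba_c4, E.val, List.getD_cons_zero,
  List.getD_cons_succ, Int.cast_ofNat, Int.cast_one, Int.cast_zero] using hbx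

end Pool.Agent.Lib.MP_43bc59_co.R36
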