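import Pool.Agent.Lib.MP_43bc59_co.F_C
import Pool.Agent.Lib.MP_43bc59_co.F_R0

set_option autoImplicit false

namespace Pool.Agent.Lib.MP_43bc59_co

open Finset

variable {ι : Type} [Fintype ι] [DecidableEq ι] {a θ : ℝ} {w g A Φ : ι → ℝ} {c G : ι → ι → ℝ}

namespace R36

/-- pivot certificate with an extra gain `Δ` at one lower letter -/
lemma master2 (H : Hyp a θ w g A Φ c G) (x y : ι) (hx : a ≤ g x) {W l η B Δ : ℝ} (W1 : 1 ≤ W)
    (W2 : W ≤ 2) (W3 : W ≤ w x) (l0 : 0 ≤ l) (l1 : l ≤ θ) (η0 : 0 ≤ η) (Δ0 : 0 ≤ Δ)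
    (hy : a ≤ g y → Δ ≤ 0) (hB : ∑ j, w j * max (g j - a) 0 ^ 2 ≤ B)
    (hp : ∀ j, g j < a → ∃ u, 0 ≤ u ∧ u ≤ l ∧ (a - g j) ^ 2 + (if j = y then Δ else 0)
      ≤ η * (a - g j) + (u * (2 * θ - u) * (W * (g x - g j) + (2 - W) * g j * (1 - g x))
        - u * (2 - u) * (g j * (1 - g j))))
    (fin : B + η * (a * (1 - a) / θ) + l * (2 - l) * (W * (g x * (1 - g x))) - Δ
      ≤ (1 - θ) * (a * (1 - a) / θ)) : Goal a θ w g Φ c G := by
  have hu : ∀ j, ∃ u, 0 ≤ u ∧ u ≤ l ∧ (a ≤ g j → u = 0) ∧ (g j - a) ^ 2 + (if j = y then Δ else 0)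
      ≤ max (g j - a) 0 ^ 2 + η * max (a - g j) 0 + (u * (2 * θ - u) * (W * (g x - g j)
        + (2 - W) * g j * (1 - g x)) - u * (2 - u) * (g j * (1 - g j))) := fun j => by
    rcases le_or_gt a (g j) with h | h
    · refine ⟨0, le_rfl, l0, fun _ => rfl, ?_⟩
      rw [max_eq_left (by linarith), max_eq_right (by linarith)]
      split_ifs with e
      · rw [e] at h; linarith [hy h]
      · linarith
    · obtain ⟨u, a1, a2, a3⟩ := hp j h
      refine ⟨u, a1, a2, fun h' => absurd h (not_lt.2 h'), ?_⟩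
      rw [max_eq_right (by linarith), max_eq_left (by linarith)]; linarith
  choose u u0 u1 u2 u3 using hu
  have p := C36.pivot H x W1 W2 W3 l0 l1 u u0 u1 (u2 x hx)
  have q := sum_le_sum (s := univ) (fun j _ =>
    mul_le_mul_of_nonneg_left (u3 j) (show 0 ≤ w j by linarith [H.w1 j]))
  simp only [mul_add (w _), sum_add_distrib, mul_ite, mul_zero, sum_ite_eq', mem_univ, if_true] at q
  have d := mul_le_mul_of_nonneg_left (C36.down_sum H) η0
  have e : ∑ j, w j * (η * max (a - g j) 0) = η * ∑ j, w j * max (a - g j) 0 := by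
    rw [mul_sum]; exact sum_congr rfl (fun j _ => by ring)
  have f := mul_le_mul_of_nonneg_right (H.w1 y) Δ0
  unfold Goal
  rw [mul_div_assoc]
  linarith

def As (a e o : ℝ) : ℝ := (1 + o) * (1 - a - e) + (1 - o) * a * e

def Bs (a e o h : ℝ) : ℝ := As a e o + h - (1 + o) * (1 - a - e) ^ 2 - (h + (1 - o) * a * e) ^ 2

def Fp (a e o h : ℝ) : ℝ :=
  Bs a e o h - a * (2 - a) * ((1 + o) * (1 - e) * e) - 2 * a * h - a * As a e o

def Fm (a e o h μ : ℝ) : ℝ :=
  900 * (Bs a e o h - a * (1 - a)) - (225 * (8 - e ^ 2) * a * h + 225 * e ^ 2 * μ * (As a e o + h)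
    - 25 * (2 - e) ^ 2 * (1 - a - As a e o) * (16 * μ - 4)
    + (900 * (2 - e) * μ - 180 * (2 - e) ^ 2 * μ + 36 * (2 - e) ^ 2) * ((1 + o) * (1 - e) * e))

lemma gain {θ z γ y m A : ℝ} (hm : m * (1 - y) = θ * z - y) (u0 : 0 ≤ γ * m) (u1 : γ * m ≤ θ)
    (hA : (1 - y) * z ≤ A) : γ * (2 - γ) * (θ * z - y) ^ 2 + γ ^ 2 * (1 - z) * ((θ * z - y) * m)
      ≤ γ * m * (2 * θ - γ * m) * A - γ * m * (2 - γ * m) * (y * (1 - y)) := by
  have a1 := mul_le_mul_of_nonneg_left hA (mul_nonneg u0 (show 0 ≤ 2 * θ - γ * m by linarith))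
  refine le_trans (le_of_eq ?_) (sub_le_sub_right a1 _)
  have e : y = θ * z - m * (1 - y) := by linarith
  rw [← hm]
  linear_combination (2 * γ * m * (1 - y)) * e

lemma near2 (H : Hyp a θ w g A Φ c G) (x y : ι) (hx : a ≤ g x) (hy : ∀ j, g y ≤ g j)
    (W2 : w x ≤ 2) {h : ℝ} (hh : θ * (As a (1 - g x) (w x - 1) + h) = a * (1 - a))
    (f1 : 1 - a ≤ As a (1 - g x) (w x - 1) → 0 ≤ Fp a (1 - g x) (w x - 1) h)
    (f2 : As a (1 - g x) (w x - 1) ≤ 1 - a →
      0 ≤ Fm a (1 - g x) (w x - 1) h 0 ∧ 0 ≤ Fm a (1 - g x) (w x - 1) h a) :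
    Goal a θ w g Φ c G := by
  have t0 := H.th0
  have a0 := H.a0
  have p : 0 < 1 - a := by linarith [H.a1]
  have e0 : 0 ≤ 1 - g x := by linarith [H.g1 x]
  have W1 := H.w1 x
  have pu := H.par_up x W1 W2 le_rfl
  obtain ⟨S, hS⟩ : ∃ S, S = As a (1 - g x) (w x - 1) := ⟨_, rfl⟩
  have hS' : S = w x * (g x - a) + (2 - w x) * a * (1 - g x) := by rw [hS]; unfold As; ring
  have hB : a * (1 - a) / θ = S + h := by rw [div_eq_iff t0.ne', hS]; linarith
  obtain ⟨z, hz⟩ : ∃ z, z * (1 - a) = S := ⟨_, div_mul_cancel₀ _ p.ne'⟩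
  have V0 : 0 ≤ w x * (g x * (1 - g x)) := mul_nonneg (by linarith) (mul_nonneg (H.g0 x) e0)
  have z2 : θ * z ≤ a := by
    apply le_of_mul_le_mul_right _ p
    rw [mul_assoc, hz, hS']; exact pu
  have hA : ∀ v, v < a → (1 - v) * z ≤ w x * (g x - v) + (2 - w x) * v * (1 - g x) := fun v h1 => by
    apply le_of_mul_le_mul_right _ p
    rw [mul_assoc, hz, hS']
    nlinarith [mul_nonneg (mul_nonneg (sub_nonneg.2 h1.le) (sub_nonneg.2 W1)) e0]
  have pl := C36.plus2 H x hx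
  rw [hB] at pl
  have eB : w x * (g x - a) ^ 2 + (S + h - w x * (g x - a)) ^ 2
      = S + h - Bs a (1 - g x) (w x - 1) h := by
    unfold Bs; rw [← hS, hS']; ring
  rw [eB] at pl
  rw [← hS] at hh f1 f2
  have eb : (a - θ * z) * (S + h) = a * h := by linear_combination (-z) * hh - a * hz
  have h0 : 0 ≤ h := by
    apply nonneg_of_mul_nonneg_right _ t0
    rw [hS'] at hh; linarith
  rcases le_total (1 - a) S with hc | hc
  · have z1 : 1 ≤ z := by
      apply le_of_mul_le_mul_right _ p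
      linarith
    have tz : 0 ≤ (z - 1) * θ := mul_nonneg (by linarith) t0.le
    refine C36.master H x hx (l := θ) (η := 2 * (a - θ * z) + (z - 1) * θ) W1 W2 le_rfl t0.le le_rfl
      (by linarith) pl (fun v v0 v1 => ?_) ?_
    · rcases le_total v (θ * z) with h1 | h1
      · have q : 0 < z - v := by linarith
        obtain ⟨u, hu⟩ : ∃ u, u * (z - v) = θ * z - v := ⟨_, div_mul_cancel₀ _ q.ne'⟩
        have u0 : 0 ≤ u := nonneg_of_mul_nonneg_left (by linarith) q
        have u1 : u ≤ θ := by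
          apply le_of_mul_le_mul_right _ q
          nlinarith [mul_nonneg v0 (show 0 ≤ 1 - θ by linarith [H.th1])]
        refine ⟨u, u0, u1, ?_⟩
        have a1 := mul_le_mul_of_nonneg_left (hA v v1)
          (mul_nonneg u0 (show 0 ≤ 2 * θ - u by linarith))
        have a2 : u * (2 * θ - u) * ((1 - v) * z) - u * (2 - u) * (v * (1 - v))
            = (θ * z - v) ^ 2 - (z - 1) * u * (θ * z - v) := by
          linear_combination (-(1 - v) * u + (θ * z - v)) * hu
        have a3 := mul_nonneg (mul_nonneg (sub_nonneg.2 z1) (sub_nonneg.2 u1)) (sub_nonneg.2 h1)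
        have a4 := mul_nonneg tz (sub_nonneg.2 z2)
        nlinarith [sq_nonneg (a - θ * z)]
      · refine ⟨0, le_rfl, t0.le, ?_⟩
        nlinarith [mul_nonneg (sub_nonneg.2 v1.le)
          (show 0 ≤ 2 * (a - θ * z) + (z - 1) * θ - (a - v) by linarith)]
    · have f := f1 hc
      unfold Fp at f
      rw [← hS] at f
      have ta : θ * (2 - θ) ≤ a * (2 - a) := by
        nlinarith [mul_nonneg (show 0 ≤ a - θ by linarith) (show 0 ≤ 2 - a - θ by linarith [H.th1])]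
      have b1 := mul_le_mul_of_nonneg_right ta V0
      have b2 : (z - 1) * θ * (S + h) = a * S - a * (1 - a) := by
        linear_combination (z - 1) * hh + a * hz
      rw [hB]
      linarith
  obtain ⟨f0, fa⟩ := f2 hc
  have z1 : z ≤ 1 := by
    apply le_of_mul_le_mul_right _ p
    linarith
  have e1 : 1 - g x ≤ 1 := by linarith [H.g0 x]
  rcases le_or_gt (θ * z) (g y) with hc2 | hc2
  · refine master2 H x y hx (l := 0) (η := a - θ * z) (Δ := 0) W1 W2 le_rfl le_rfl t0.le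
      (by linarith) le_rfl (fun _ => le_rfl) pl (fun j h1 => ⟨0, le_rfl, le_rfl, ?_⟩) ?_
    · rw [ite_self]
      nlinarith [mul_nonneg (sub_nonneg.2 h1.le) (show 0 ≤ g j - θ * z by linarith [hy j])]
    · unfold Fm at f0
      rw [← hS] at f0
      have b1 := mul_nonneg (sq_nonneg (2 - (1 - g x))) (sub_nonneg.2 hc)
      have b2 := mul_nonneg (sq_nonneg (2 - (1 - g x))) V0
      have b3 := mul_nonneg (show 0 ≤ 4 - (1 - g x) ^ 2 by nlinarith) (mul_nonneg a0.le h0)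
      rw [hB]
      linarith
  have y0 := H.g0 y
  have q : 0 < 1 - g y := by linarith
  obtain ⟨μ, hμ⟩ : ∃ μ, μ * (1 - g y) = θ * z - g y := ⟨_, div_mul_cancel₀ _ q.ne'⟩
  have tz : θ * z ≤ θ := by nlinarith
  have μ0 : 0 ≤ μ := nonneg_of_mul_nonneg_left (by linarith) q
  have μ1 : μ ≤ θ * z := by
    apply le_of_mul_le_mul_right _ q
    nlinarith [mul_nonneg y0 (show 0 ≤ 1 - θ * z by linarith)]
  obtain ⟨γ, hγ⟩ : ∃ γ, γ = (2 - (1 - g x)) / 2 := ⟨_, rfl⟩
  have γ0 : 0 ≤ γ := by linarith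
  have γ1 : γ ≤ 1 := by linarith
  have k0 : 0 ≤ γ * (2 - γ) := mul_nonneg γ0 (by linarith)
  have k1 : 0 ≤ 1 - γ * (2 - γ) := by nlinarith [sq_nonneg (1 - γ)]
  have b0 : 0 ≤ a - θ * z := by linarith
  have l1 : γ * μ ≤ θ := by nlinarith [mul_nonneg (sub_nonneg.2 γ1) μ0]
  refine master2 H x y hx (l := γ * μ)
    (η := (1 - γ * (2 - γ)) * (a - g y) + 2 * (γ * (2 - γ)) * (a - θ * z))
    (Δ := γ ^ 2 * (1 - z) * ((θ * z - g y) * μ)) W1 W2 le_rfl (mul_nonneg γ0 μ0) l1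
    (add_nonneg (mul_nonneg k1 (by linarith)) (mul_nonneg (by linarith) b0))
    (mul_nonneg (mul_nonneg (sq_nonneg _) (by linarith)) (mul_nonneg (by linarith) μ0))
    (fun h1 => by linarith) pl (fun j h1 => ?_) ?_
  · have j1 := hy j
    rcases le_or_gt (g j) (θ * z) with h2 | h2
    · have q' : 0 < 1 - g j := by linarith
      obtain ⟨m, hm⟩ : ∃ m, m * (1 - g j) = θ * z - g j := ⟨_, div_mul_cancel₀ _ q'.ne'⟩
      have m0 : 0 ≤ m := nonneg_of_mul_nonneg_left (by linarith) q'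
      have m1 : m ≤ μ := by
        apply le_of_mul_le_mul_right _ q'
        nlinarith [mul_nonneg (sub_nonneg.2 j1) (show 0 ≤ 1 - μ by linarith [H.th1])]
      have m2 := mul_le_mul_of_nonneg_left m1 γ0
      have k := gain hm (mul_nonneg γ0 m0) (m2.trans l1) (hA _ h1)
      refine ⟨γ * m, mul_nonneg γ0 m0, m2, le_trans ?_ (add_le_add_right k _)⟩
      have c1 := mul_nonneg (mul_nonneg k1 (sub_nonneg.2 j1)) (sub_nonneg.2 h1.le)
      have c2 := mul_nonneg k0 (sq_nonneg (a - θ * z))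
      have c3 : (if j = y then γ ^ 2 * (1 - z) * ((θ * z - g y) * μ) else 0)
          ≤ γ ^ 2 * (1 - z) * ((θ * z - g j) * m) := by
        split_ifs with e
        · rw [e] at hm ⊢
          rw [mul_right_cancel₀ q.ne' (hm.trans hμ.symm)]
        · exact mul_nonneg (mul_nonneg (sq_nonneg _) (by linarith)) (mul_nonneg (by linarith) m0)
      linarith
    · refine ⟨0, le_rfl, mul_nonneg γ0 μ0, ?_⟩
      rw [if_neg (fun e => by rw [e] at h2; linarith)]
      have c1 := mul_nonneg (mul_nonneg k1 (sub_nonneg.2 j1)) (sub_nonneg.2 h1.le)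
      have c2 := mul_nonneg (mul_nonneg k0 (sub_nonneg.2 h1.le))
        (show 0 ≤ 2 * (a - θ * z) - (a - g j) by linarith)
      linarith
  · have fμ : 0 ≤ Fm a (1 - g x) (w x - 1) h μ := by
      apply nonneg_of_mul_nonneg_right _ a0
      have c1 := mul_nonneg (show 0 ≤ a - μ by linarith) f0
      have c2 := mul_nonneg μ0 fa
      refine (add_nonneg c1 c2).trans (le_of_eq ?_)
      unfold Fm; ring
    unfold Fm at fμ
    rw [← hS, show 2 - (1 - g x) = 2 * γ by linarith] at fμ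
    have q2 : 0 < 1 - μ := by linarith [H.th1]
    have c1 : (1 - a) * (16 * μ - 4) ≤ 9 * ((θ * z - g y) * μ) := by
      apply le_of_mul_le_mul_right _ q2
      have d1 := mul_nonneg p.le (sq_nonneg (5 * μ - 2))
      have d2 := mul_nonneg (sq_nonneg μ) b0
      have d3 : (θ * z - g y) * μ * (1 - μ) = μ ^ 2 * (1 - θ * z) := by
        linear_combination (-μ * (1 - μ) - μ ^ 2) * hμ
      nlinarith
    have c2 := mul_le_mul_of_nonneg_left c1 (mul_nonneg (sq_nonneg γ) (sub_nonneg.2 z1))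
    have c3 := mul_nonneg (mul_nonneg (sq_nonneg γ) (sq_nonneg (5 * μ - 2))) V0
    have S0 : 0 ≤ S + h := by
      rw [← hB]; exact div_nonneg (mul_nonneg a0.le p.le) t0.le
    have c4 := mul_nonneg (mul_nonneg k1 (mul_nonneg μ0 y0)) S0
    have c5 : (1 - g x) ^ 2 = 4 * (1 - γ * (2 - γ)) := by rw [hγ]; ring
    rw [c5] at fμ
    have c6 : (a - g y) * (S + h) = a * h + (μ - μ * g y) * (S + h) := by
      linear_combination eb - (S + h) * hμ
    have c7 : γ ^ 2 * (1 - z) * ((1 - a) * (16 * μ - 4)) = γ ^ 2 * (1 - a - S) * (16 * μ - 4) := by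
      rw [← hz]; ring
    rw [hB]
    linear_combination (1 / 900) * fμ + (1 / 9) * c2 + (1 / 25) * c3 + c4 - (1 / 9) * c7
      + (1 - γ * (2 - γ)) * c6 + 2 * (γ * (2 - γ)) * eb + hh

lemma near3 (H : Hyp a θ w g A Φ c G) (x y : ι) (hx : a ≤ g x) (hy : ∀ j, g y ≤ g j)
    (a1 : 1 / 3 ≤ a) (a2 : a ≤ 1 / 2) (t1 : 1 / 3 ≤ θ) (a3 : a ≤ θ + 1 / 20) (e1 : 1 - g x ≤ 3 / 10)
    (hW : 1 / 4 < 2 * θ * (g x - a))
    (f : ∀ o h, 0 ≤ o → o ≤ 1 → 0 ≤ h → 3 * h ≤ 1 → θ * (As a (1 - g x) o + h) = a * (1 - a) →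
      0 ≤ As a (1 - g x) o + h → (1 - a ≤ As a (1 - g x) o → 0 ≤ Fp a (1 - g x) o h) ∧
      (As a (1 - g x) o ≤ 1 - a → 0 ≤ Fm a (1 - g x) o h 0 ∧ 0 ≤ Fm a (1 - g x) o h a)) :
    Goal a θ w g Φ c G := by
  have t0 := H.th0
  have W1 := H.w1 x
  have e0 : 0 ≤ 1 - g x := by linarith [H.g1 x]
  have W2 : w x ≤ 2 := by
    by_contra h
    have := H.par_up x (W := 2) (by norm_num) le_rfl (by linarith)
    nlinarith [sq_nonneg (a - 1 / 2)]
  have pu := H.par_up x W1 W2 le_rfl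
  obtain ⟨h, hh⟩ : ∃ h, θ * (As a (1 - g x) (w x - 1) + h) = a * (1 - a) :=
    ⟨a * (1 - a) / θ - As a (1 - g x) (w x - 1), by field_simp; ring⟩
  have h0 : 0 ≤ h := by
    apply nonneg_of_mul_nonneg_right _ t0
    unfold As at hh; linarith
  have s1 : (1 - a) * g x ≤ As a (1 - g x) (w x - 1) := by
    unfold As
    nlinarith [mul_nonneg (sub_nonneg.2 W1) (show 0 ≤ g x - a - a * (1 - g x) by nlinarith)]
  have h1 : 3 * h ≤ 1 := by
    apply le_of_mul_le_mul_left _ t0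
    have b1 := mul_le_mul_of_nonneg_left s1 t0.le
    have b2 : a - θ * g x ≤ θ / 2 := by nlinarith
    nlinarith [mul_le_mul_of_nonneg_left b2 (show 0 ≤ 1 - a by linarith)]
  have k := f (w x - 1) h (by linarith) (by linarith) h0 h1 hh (by nlinarith)
  exact near2 H x y hx hy W2 hh k.1 k.2

theorem nearA (H : Hyp a θ w g A Φ c G) (x y : ι) (hx : a ≤ g x) (hy : ∀ j, g y ≤ g j)
    (a1 : 1 / 3 ≤ a) (a2 : a ≤ 1 / 2) (t1 : 80 ≤ 240 * θ) (t2 : 240 * θ ≤ 108) (a3 : a ≤ θ + 1 / 20)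
    (e1 : 1 - g x ≤ 3 / 10) (e2 : 1000 * (1 - g x) ≤ 785 - 2700 * a + 1100 * θ) :
    Goal a θ w g Φ c G := by
  have e0 : 0 ≤ 1 - g x := by linarith [H.g1 x]
  refine near3 H x y hx hy a1 a2 (by linarith) a3 e1 (by
    have : 52 / 100 - 41 / 100 * θ ≤ g x - a := by linarith
    nlinarith [mul_nonneg (sub_nonneg.2 t1) (sub_nonneg.2 t2)]) (fun o h o0 o1 h0 h1 hh S0 => ?_)
  generalize 1 - g x = e at *
  have c0 := mul_nonneg (sub_nonneg.2 t2) S0
  have c1 := mul_nonneg (sub_nonneg.2 t1) S0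
  have c2 := mul_nonneg (sub_nonneg.2 a3) S0
  have c3 := mul_nonneg (sub_nonneg.2 e2) S0
  unfold Fp Fm Bs
  unfold As at *
  refine ⟨fun k => ?_, fun k => ⟨?_, ?_⟩⟩
  · linarith [Rap a e o h (by linarith) (by linarith) (by linarith) (by linarith) o0 o1 (by linarith)
      h1 (by linarith) (by linarith) (by linarith) (by linarith) (by linarith)]
  · linarith [Raz a e o h (by linarith) (by linarith) (by linarith) (by linarith) o0 o1 (by linarith)
      h1 (by linarith) (by linarith) (by linarith) (by linarith) (by linarith)]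
  · linarith [Raa a e o h (by linarith) (by linarith) (by linarith) (by linarith) o0 o1 (by linarith)
      h1 (by linarith) (by linarith) (by linarith) (by linarith) (by linarith)]

theorem nearB (H : Hyp a θ w g A Φ c G) (x y : ι) (hx : a ≤ g x) (hy : ∀ j, g y ≤ g j)
    (a1 : 1 / 3 ≤ a) (a2 : a ≤ 1 / 2) (t1 : 104 ≤ 240 * θ) (t2 : 240 * θ ≤ 108) (a3 : a ≤ θ + 1 / 20)
    (e1 : 1 - g x ≤ 3 / 10) (e2 : 1000 * (1 - g x) ≤ 834 - 2400 * a + 700 * θ) :
    Goal a θ w g Φ c G := by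
  have e0 : 0 ≤ 1 - g x := by linarith [H.g1 x]
  refine near3 H x y hx hy a1 a2 (by linarith) a3 e1 (by
    have : 3 / 10 ≤ g x - a := by linarith
    nlinarith) (fun o h o0 o1 h0 h1 hh S0 => ?_)
  generalize 1 - g x = e at *
  have c0 := mul_nonneg (sub_nonneg.2 t2) S0
  have c1 := mul_nonneg (sub_nonneg.2 t1) S0
  have c2 := mul_nonneg (sub_nonneg.2 a3) S0
  have c3 := mul_nonneg (sub_nonneg.2 e2) S0
  unfold Fp Fm Bs
  unfold As at *
  refine ⟨fun k => ?_, fun k => ⟨?_, ?_⟩⟩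
  · linarith [Rbp a e o h (by linarith) (by linarith) (by linarith) (by linarith) o0 o1 (by linarith)
      h1 (by linarith) (by linarith) (by linarith) (by linarith) (by linarith)]
  · linarith [Rbz a e o h (by linarith) (by linarith) (by linarith) (by linarith) o0 o1 (by linarith)
      h1 (by linarith) (by linarith) (by linarith) (by linarith) (by linarith)]
  · linarith [Rba a e o h (by linarith) (by linarith) (by linarith) (by linarith) o0 o1 (by linarith)
      h1 (by linarith) (by linarith) (by linarith) (by linarith) (by linarith)]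

end R36

end Pool.Agent.Lib.MP_43bc59_co
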