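import Pool.Agent.Lib.MP_43bc59_co.F_P
import Pool.Agent.Lib.MP_43bc59_co.F_R
import Pool.Agent.Lib.MP_43bc59_co.Bk

set_option autoImplicit false

namespace Pool.Agent.Lib.MP_43bc59_co

namespace P36

open Bx

/-- the cleared form of `FF`; all parameters are measured in the unit `1 / N` -/
def PP (a θ N L K e X T e' Y T' t s r r' m m' : ℝ) : ℝ :=
  (K + (N - K) * s) * (K + (N - K) * s) * ((K + (N - K) * t) * (K + (N - K) * t) * (T * T'
      * (N * N * N * N * ((1 - θ) * (a * (1 - a)))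
        - e * (θ * (1 - a) * (X * X * N * N * (1 - a)
          + (N - X) * L * (θ * (2 * N - L * θ) * (N * a + X * (1 - a)))))
        - e' * (θ * a * (Y * Y * N * N * a
          + (N - Y) * L * (θ * (2 * N - L * θ) * (N * (1 - a) + Y * a))))
        + e * (e' * (N * L * (2 * N - L) * (θ * θ * θ * (X * (1 - a) + Y * a))))))
    + (N * a - e * (X * θ)) * (e' * (N * N * N * L * T' * (θ * θ * (2 * (K + (N - K) * t) - L * t)
          * (T * ((1 - a) * t) + Y * a)))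
      + m * (N * N * N * L * ((N * (1 - a) - e' * (Y * θ)) * θ * (2 * (K + (N - K) * t) - L * t)
          * (T' * (a * r) + T * ((1 - a) * r'))))
      - N * N * T' * ((1 - a) * (T * T * ((1 - a) * t * ((K + (N - K) * t) * (K + (N - K) * t)))
        + L * (θ * (2 * (K + (N - K) * t) - L * (θ * t)) * (N * a + T * ((1 - a) * t))
          * (N - T * t))))))
  + (K + (N - K) * t) * (K + (N - K) * t) * ((N * (1 - a) - e' * (Y * θ))
    * (e * (N * N * N * L * T * (θ * θ * (2 * (K + (N - K) * s) - L * s)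
          * (T' * (a * s) + X * (1 - a))))
      + m' * (N * N * N * L * ((N * a - e * (X * θ)) * θ * (2 * (K + (N - K) * s) - L * s)
          * (T' * (a * r) + T * ((1 - a) * r'))))
      - N * N * T * (a * (T' * T' * (a * s * ((K + (N - K) * s) * (K + (N - K) * s)))
        + L * (θ * (2 * (K + (N - K) * s) - L * (θ * s)) * (N * (1 - a) + T' * (a * s))
          * (N - T' * s))))))

lemma FF_of_PP {a θ N L K e X T e' Y T' t s m m' : ℝ} (a0 : 0 < a) (a1 : a < 1) (t0 : 0 < θ)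
    (N0 : 0 < N) (T0 : 0 < T) (T1 : 0 < T') (q1 : 0 < qf (K / N) t) (q2 : 0 < qf (K / N) s)
    (hm : (m = 1 ∧ m' = 0 ∧ min t s = t) ∨ (m = 0 ∧ m' = 1 ∧ min t s = s))
    (h : 0 ≤ PP a θ N L K e X T e' Y T' t s (r1 t s) (r2 t s) m m') :
    0 ≤ FF a θ (L / N) (K / N) (a * (1 - a) / θ) e ((1 - a) * X / N) ((1 - a) * T / N) t e'
      (a * Y / N) (a * T' / N) s := by
  have b0 : 0 < 1 - a := by linarith
  have e1 : K + (N - K) * t = N * qf (K / N) t := by unfold qf; field_simp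
  have e2 : K + (N - K) * s = N * qf (K / N) s := by unfold qf; field_simp
  apply nonneg_of_mul_nonneg_right (a := N ^ 8 * θ * T * T' * qf (K / N) t ^ 2 * qf (K / N) s ^ 2) _
    (by positivity)
  refine h.trans (le_of_eq ?_)
  unfold PP FF cm cp
  rw [e1, e2]
  rcases hm with ⟨h1, h2, h3⟩ | ⟨h1, h2, h3⟩ <;> rw [h1, h2, h3] <;> unfold Gf <;>
    generalize qf (K / N) t = Q at q1 ⊢ <;> generalize qf (K / N) s = Q' at q2 ⊢ <;>
    generalize r1 t s = r <;> generalize r2 t s = r' <;>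
    obtain ⟨b, hb⟩ : ∃ b, b = 1 - a := ⟨_, rfl⟩ <;> rw [← hb] at b0 ⊢ <;> field_simp <;>
    rw [hb] <;> ring

noncomputable def sw (b : Bool) (p : E) : E := Bool.rec (E.c 0) p b

lemma sw_val (x : ℕ → ℝ) (b : Bool) (p : E) :
    (sw b p).val x = (if b = true then 1 else 0) * p.val x := by
  cases b
  · show ((0 : ℤ) : ℝ) = _; simp
  · show p.val x = _; simp

instance : Add E := ⟨E.a⟩
instance : Sub E := ⟨E.s⟩
instance : Mul E := ⟨E.m⟩

/-- the expression for `PP` -/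
noncomputable def mkP (N L K : ℤ) (e : Bool) (X T : ℤ) (e' : Bool) (Y T' : ℤ) (t s r r' : E)
    (m m' : Bool) : E :=
  let a := E.v 0
  let θ := E.v 1
  let b := E.c 1 - a
  let Q := E.c K + E.c (N - K) * t
  let Q' := E.c K + E.c (N - K) * s
  let A := E.c N * a - sw e (E.c X * θ)
  let A' := E.c N * b - sw e' (E.c Y * θ)
  let c1 := θ * (E.c (2 * N) - E.c L * θ)
  let z := E.c T' * (a * r) + E.c T * (b * r')
  Q' * Q' * (Q * Q * (E.c (T * T')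
      * (E.c (N * N * N * N) * ((E.c 1 - θ) * (a * b))
        - sw e (θ * b * (E.c (X * X * N * N) * b + E.c ((N - X) * L) * (c1 * (E.c N * a + E.c X * b))))
        - sw e' (θ * a * (E.c (Y * Y * N * N) * a + E.c ((N - Y) * L) * (c1 * (E.c N * b + E.c Y * a))))
        + sw e (sw e' (E.c (N * L * (2 * N - L)) * (θ * θ * θ * (E.c X * b + E.c Y * a))))))
    + A * (sw e' (E.c (N * N * N * L * T') * (θ * θ * (E.c 2 * Q - E.c L * t)
          * (E.c T * (b * t) + E.c Y * a)))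
      + sw m (E.c (N * N * N * L) * (A' * θ * (E.c 2 * Q - E.c L * t) * z))
      - E.c (N * N * T') * (b * (E.c (T * T) * (b * t * (Q * Q))
        + E.c L * (θ * (E.c 2 * Q - E.c L * (θ * t)) * (E.c N * a + E.c T * (b * t))
          * (E.c N - E.c T * t))))))
  + Q * Q * (A' * (sw e (E.c (N * N * N * L * T) * (θ * θ * (E.c 2 * Q' - E.c L * s)
          * (E.c T' * (a * s) + E.c X * b)))
      + sw m' (E.c (N * N * N * L) * (A * θ * (E.c 2 * Q' - E.c L * s) * z))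
      - E.c (N * N * T) * (a * (E.c (T' * T') * (a * s * (Q' * Q'))
        + E.c L * (θ * (E.c 2 * Q' - E.c L * (θ * s)) * (E.c N * b + E.c T' * (a * s))
          * (E.c N - E.c T' * s))))))

lemma val_add (x : ℕ → ℝ) (p q : E) : (p + q).val x = p.val x + q.val x := rfl
lemma val_sub (x : ℕ → ℝ) (p q : E) : (p - q).val x = p.val x - q.val x := rfl
lemma val_mul (x : ℕ → ℝ) (p q : E) : (p * q).val x = p.val x * q.val x := rfl
lemma val_c (x : ℕ → ℝ) (z : ℤ) : (E.c z).val x = z := rfl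
lemma val_v (x : ℕ → ℝ) (i : ℕ) : (E.v i).val x = x i := rfl

lemma mkP_val (x : ℕ → ℝ) (N L K : ℤ) (e : Bool) (X T : ℤ) (e' : Bool) (Y T' : ℤ) (t s r r' : E)
    (m m' : Bool) : (mkP N L K e X T e' Y T' t s r r' m m').val x
      = PP (x 0) (x 1) N L K (if e = true then 1 else 0) X T (if e' = true then 1 else 0) Y T'
        (t.val x) (s.val x) (r.val x) (r'.val x) (if m = true then 1 else 0)
        (if m' = true then 1 else 0) := by
  unfold mkP PP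
  simp only [val_add, val_sub, val_mul, val_c, val_v, sw_val]
  push_cast
  rfl

/-- data of one box check -/
structure Ck : Type where
  e : ℕ
  t : Tr

/-- integer data of an extreme configuration -/
structure Cf : Type where
  e : Bool
  X : ℤ
  T : ℤ
  f : Bool

noncomputable def one (a0 a1 t0 t1 : ℤ) (d2 d3 : ℕ) (P : E) (c : Ck) : Bool :=
  chk3 c.e [3, 3, d2, d3] [a0, t0, 0, 0] [a1, t1, 1, 1] [240, 240, 1, 1] ([P] ++ [])
    (okN (List.length [P])) (fun u => [u]) c.t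

lemma one_ok {a0 a1 t0 t1 : ℤ} {d2 d3 : ℕ} {P : E} {c : Ck} (h : one a0 a1 t0 t1 d2 d3 P c = true)
    (ha : a0 < a1) (ht : t0 < t1) {a θ s ρ : ℝ} (h1 : (a0 : ℝ) ≤ 240 * a) (h2 : 240 * a ≤ a1)
    (h3 : (t0 : ℝ) ≤ 240 * θ) (h4 : 240 * θ ≤ t1) (s0 : 0 ≤ s) (s1 : s ≤ 1) (ρ0 : 0 ≤ ρ)
    (ρ1 : ρ ≤ 1) : 0 ≤ P.val (fun j => [a, θ, s, ρ].getD j 0) := by
  obtain ⟨Q, hQ, h0⟩ := some_nonneg3 h [a, θ, s, ρ] rfl (by
    simp only [InBox]; push_cast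
    exact ⟨⟨by norm_num, ha⟩, ⟨h1, h2⟩, ⟨by norm_num, ht⟩, ⟨h3, h4⟩, ⟨by norm_num, by norm_num⟩,
      ⟨by linarith, by linarith⟩, ⟨by norm_num, by norm_num⟩, ⟨by linarith, by linarith⟩, trivial⟩)
    (fun C hC => absurd hC List.not_mem_nil)
  rwa [List.mem_singleton.1 hQ] at h0

noncomputable def ov (b : Bool) (i : ℕ) : E := Bool.rec (E.c 1) (E.v i) b

noncomputable def pairOK (N L K a0 a1 t0 t1 : ℤ) (p : Cf × Cf) (k : Ck × Ck) : Bool :=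
  (Bool.rec true (one a0 a1 t0 t1 (Bool.rec 0 5 p.2.f) 3 (mkP N L K p.1.e p.1.X p.1.T p.2.e p.2.X p.2.T
    (E.v 3 * ov p.2.f 2) (ov p.2.f 2) (E.c 1) (E.v 3) true false) k.1) p.1.f : Bool)
  && one a0 a1 t0 t1 (Bool.rec 0 5 (p.1.f && p.2.f)) (Bool.rec 0 3 p.2.f)
    (mkP N L K p.1.e p.1.X p.1.T p.2.e p.2.X p.2.T (ov (p.1.f && p.2.f) 2)
      (ov p.2.f 3 * ov (p.1.f && p.2.f) 2) (ov p.2.f 3) (E.c 1) false true) k.2

lemma pair_ok {N L K a0 a1 t0 t1 : ℤ} {p : Cf × Cf} {k : Ck × Ck}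
    (h : pairOK N L K a0 a1 t0 t1 p k = true) (ha : a0 < a1) (ht : t0 < t1) {a θ t s : ℝ}
    (h1 : (a0 : ℝ) ≤ 240 * a) (h2 : 240 * a ≤ a1) (h3 : (t0 : ℝ) ≤ 240 * θ) (h4 : 240 * θ ≤ t1)
    (b0 : 0 < a) (b1 : a < 1) (θ0 : 0 < θ) (N0 : (0 : ℝ) < N) (K0 : (0 : ℝ) < K)
    (T0 : (0 : ℝ) < p.1.T) (T1 : (0 : ℝ) < p.2.T) (c0 : 0 ≤ t) (c1 : t ≤ 1) (s0 : 0 ≤ s) (s1 : s ≤ 1)
    (f1 : p.1.f = false → t = 1) (f2 : p.2.f = false → s = 1) :
    0 ≤ FF a θ (L / N) (K / N) (a * (1 - a) / θ) (if p.1.e = true then 1 else 0)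
      ((1 - a) * p.1.X / N) ((1 - a) * p.1.T / N) t (if p.2.e = true then 1 else 0)
      (a * p.2.X / N) (a * p.2.T / N) s := by
  have k0 : (0 : ℝ) < K / N := div_pos K0 N0
  unfold pairOK at h
  rw [Bool.and_eq_true] at h
  rcases lt_or_ge t s with hts | hts
  · have e1 : p.1.f = true := by
      cases e : p.1.f
      · linarith [f1 e]
      · rfl
    have hA := h.1
    rw [e1] at hA
    have sp : 0 < s := by linarith
    have q := one_ok hA ha ht h1 h2 h3 h4 s0 s1 (div_nonneg c0 s0) ((div_le_one sp).2 hts.le)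
    have e2 : (ov p.2.f 2).val (fun j => [a, θ, s, t / s].getD j 0) = s := by
      cases e : p.2.f
      · rw [f2 e]; exact Int.cast_one
      · rfl
    rw [mkP_val, val_mul, e2] at q
    refine FF_of_PP (m := 1) (m' := 0) b0 b1 θ0 N0 T0 T1 (qf_pos k0 c0 c1) (qf_pos k0 s0 s1)
      (Or.inl ⟨rfl, rfl, min_eq_left hts.le⟩) ?_
    rw [r1, r2, if_pos hts, if_pos hts]
    simpa [val_c, val_v, div_mul_cancel₀ _ sp.ne'] using q
  · have hr := r1_mul (t := t) s0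
    rw [min_eq_right hts] at hr
    have r0 : 0 ≤ r1 t s := by rw [r1, if_neg (not_lt.2 hts)]; exact div_nonneg s0 c0
    have r1' : r1 t s ≤ 1 := by
      rw [r1, if_neg (not_lt.2 hts)]; exact div_le_one_of_le₀ hts c0
    have q := one_ok h.2 ha ht h1 h2 h3 h4 c0 c1 r0 r1'
    have e2 : (ov (p.1.f && p.2.f) 2).val (fun j => [a, θ, t, r1 t s].getD j 0) = t := by
      cases e : p.1.f
      · rw [f1 e]; exact Int.cast_one
      · cases e' : p.2.f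
        · rw [show t = 1 by linarith [f2 e']]; exact Int.cast_one
        · rfl
    have e3 : (ov p.2.f 3).val (fun j => [a, θ, t, r1 t s].getD j 0) = r1 t s := by
      cases e' : p.2.f
      · have := f2 e'
        rw [show r1 t s = 1 by rw [show t = 1 by linarith] at hr ⊢; linarith]; exact Int.cast_one
      · rfl
    rw [mkP_val, val_mul, e2, e3, hr] at q
    refine FF_of_PP (m := 0) (m' := 1) b0 b1 θ0 N0 T0 T1 (qf_pos k0 c0 c1) (qf_pos k0 s0 s1)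
      (Or.inr ⟨rfl, rfl, min_eq_right hts⟩) ?_
    rw [r2, if_neg (not_lt.2 hts)]
    simpa [val_c] using q

noncomputable def cfs (b : Bool) (x0 x1 : ℤ) : List Cf :=
  Bool.rec [⟨false, 0, x1, true⟩] [⟨true, x0, x0, true⟩, ⟨true, x1, x0, true⟩, ⟨false, 0, x1, false⟩] b

lemma cfs_ok {b : Bool} {x0 x1 N : ℤ} {β e ξ τ t : ℝ}
    (h : Cfg b (β * (if b = true then x0 else x1 : ℤ) / N) (β * x1 / N) e ξ τ t) :
    ∃ c ∈ cfs b x0 x1, e = (if c.e = true then 1 else 0) ∧ ξ = β * c.X / N ∧ τ = β * c.T / N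
      ∧ (c.f = false → t = 1) ∧ (c.T = x1 ∨ (b = true ∧ c.T = x0)) := by
  obtain ⟨-, -, h⟩ := h
  cases b
  · rcases h with h | h
    · exact absurd h.1 (by simp)
    · exact ⟨⟨false, 0, x1, true⟩, List.mem_cons_self, by simp [h.1], by simp [h.2.1], h.2.2.1,
        by simp, Or.inl rfl⟩
  · rcases h with ⟨-, h1, h2, h3 | h3⟩ | h
    · exact ⟨⟨true, x0, x0, true⟩, List.mem_cons_self, by simp [h1], by simpa using h3,
        by simpa using h2, by simp, Or.inr ⟨rfl, rfl⟩⟩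
    · exact ⟨⟨true, x1, x0, true⟩, List.mem_cons_of_mem _ List.mem_cons_self, by simp [h1], h3,
        by simpa using h2, by simp, Or.inr ⟨rfl, rfl⟩⟩
    · exact ⟨⟨false, 0, x1, false⟩, List.mem_cons_of_mem _ (List.mem_cons_of_mem _
        List.mem_cons_self), by simp [h.1], by simp [h.2.1], h.2.2.1, fun _ => h.2.2.2 rfl, Or.inl rfl⟩

noncomputable def al2 {α β : Type} (f : α → β → Bool) (l : List α) : List β → Bool :=
  List.rec (fun _ => true) (fun a _ ih m => List.rec false (fun b m' _ => f a b && ih m') m) l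

lemma al2_ok {α β : Type} {f : α → β → Bool} : ∀ {l : List α} {m : List β}, al2 f l m = true →
    ∀ a ∈ l, ∃ b, f a b = true
  | [], _, _, _, ha => absurd ha List.not_mem_nil
  | _ :: _, [], h, _, _ => absurd h Bool.false_ne_true
  | c :: l, b :: m, h, a, ha => by
    have h' : (f c b && al2 f l m) = true := h
    rw [Bool.and_eq_true] at h'
    rcases List.mem_cons.1 ha with e | e
    · exact ⟨b, e ▸ h'.1⟩
    · exact al2_ok h'.2 a e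

/-- the inequality holds when the parameters and the extreme letters lie in the given box -/
def Cov (N a0 a1 t0 t1 x0 x1 y0 y1 : ℤ) : Prop :=
  ∀ (ι : Type) [Fintype ι] [DecidableEq ι] (a θ : ℝ) (w g A Φ : ι → ℝ) (c G : ι → ι → ℝ),
    Hyp a θ w g A Φ c G → ∀ x y : ι, a ≤ g x → (∀ j, g j ≤ g x) → (∀ j, g y ≤ g j) →
    (a0 : ℝ) ≤ 240 * a → 240 * a ≤ a1 → (t0 : ℝ) ≤ 240 * θ → 240 * θ ≤ t1 →
    x0 * (1 - a) ≤ N * (g x - a) → N * (g x - a) ≤ x1 * (1 - a) →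
    y0 * a ≤ N * (a - g y) → N * (a - g y) ≤ y1 * a → Goal a θ w g Φ c G

noncomputable def prOK (N a0 a1 t0 t1 x0 x1 y0 y1 : ℤ) (b b' : Bool) (L K : ℤ)
    (ks : List (Ck × Ck)) : Bool :=
  decide (a0 < a1 ∧ t0 < t1 ∧ 0 < N ∧ 0 ≤ L ∧ L ≤ N ∧ 0 < K ∧ 0 < (if b = true then x0 else x1)
    ∧ (if b = true then x0 else x1) ≤ x1 ∧ 0 < (if b' = true then y0 else y1)
    ∧ (if b' = true then y0 else y1) ≤ y1)
  && al2 (pairOK N L K a0 a1 t0 t1) (List.product (cfs b x0 x1) (cfs b' y0 y1)) ks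

lemma pr_ok {N a0 a1 t0 t1 x0 x1 y0 y1 : ℤ} {b b' : Bool} {L K : ℤ} {ks : List (Ck × Ck)}
    (h : prOK N a0 a1 t0 t1 x0 x1 y0 y1 b b' L K ks = true) : Cov N a0 a1 t0 t1 x0 x1 y0 y1 := by
  intro ι _ _ a θ w g A Φ c G H x y _ hx hy h1 h2 h3 h4 h5 h6 h7 h8
  unfold prOK at h
  rw [Bool.and_eq_true, decide_eq_true_eq] at h
  obtain ⟨⟨k1, k2, k3, k4, k5, k6, k7, k8, k9, k10⟩, h⟩ := h
  have N0 : (0 : ℝ) < N := by exact_mod_cast k3
  have b0 := H.a0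
  have b1 : 0 < 1 - a := by linarith [H.a1]
  have m7 : (0 : ℝ) < (if b = true then x0 else x1 : ℤ) := by exact_mod_cast k7
  have m8 : (((if b = true then x0 else x1 : ℤ) : ℤ) : ℝ) ≤ x1 := by exact_mod_cast k8
  have m9 : (0 : ℝ) < (if b' = true then y0 else y1 : ℤ) := by exact_mod_cast k9
  have m10 : (((if b' = true then y0 else y1 : ℤ) : ℤ) : ℝ) ≤ y1 := by exact_mod_cast k10
  refine leaf H (l := L / N) (k := K / N) (U1 := (1 - a) * (if b = true then x0 else x1 : ℤ) / N)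
    (U2 := (1 - a) * x1 / N) (D1 := a * (if b' = true then y0 else y1 : ℤ) / N) (D2 := a * y1 / N)
    b b' (div_nonneg (by exact_mod_cast k4) N0.le) ((div_le_one N0).2 (by exact_mod_cast k5))
    (div_pos (by exact_mod_cast k6) N0) (by positivity) (by gcongr) (by positivity) (by gcongr)
    (fun j => by rw [le_div_iff₀ N0]; nlinarith [mul_le_mul_of_nonneg_left (hx j) N0.le])
    (fun j => by rw [le_div_iff₀ N0]; nlinarith [mul_le_mul_of_nonneg_left (hy j) N0.le])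
    (by
      split_ifs
      · exact ⟨x, by rw [div_le_iff₀ N0]; linarith⟩
      · rfl)
    (by
      split_ifs
      · exact ⟨y, by rw [div_le_iff₀ N0]; linarith⟩
      · rfl) (fun e ξ τ t e' η τ' s c1 c2 => ?_)
  obtain ⟨p, hp, p1, p2, p3, p4, p5⟩ := cfs_ok c1
  obtain ⟨q, hq, q1, q2, q3, q4, q5⟩ := cfs_ok c2
  obtain ⟨k, hk⟩ := al2_ok h (p, q) (List.pair_mem_product.2 ⟨hp, hq⟩)
  rw [p1, p2, p3, q1, q2, q3]
  refine pair_ok hk k1 k2 h1 h2 h3 h4 b0 H.a1 H.th0 N0 (by exact_mod_cast k6) ?_ ?_ c1.1 c1.2.1 c2.1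
    c2.2.1 p4 q4
  · rcases p5 with e | ⟨e1, e⟩
    · show (0 : ℝ) < p.T; rw [e]; linarith
    · show (0 : ℝ) < p.T; rw [e]; rwa [if_pos e1] at m7
  · rcases q5 with e | ⟨e1, e⟩
    · show (0 : ℝ) < q.T; rw [e]; linarith
    · show (0 : ℝ) < q.T; rw [e]; rwa [if_pos e1] at m9

def rgOK (c0 c1 c2 lo N a0 a1 t0 t1 x0 : ℤ) : Bool :=
  decide (0 < N ∧ 0 ≤ x0 ∧ x0 ≤ N ∧ 80 ≤ a0 ∧ a1 ≤ 120 ∧ lo ≤ t0 ∧ t1 ≤ 108 ∧ a1 ≤ t0 + 12
    ∧ 10 * ((240 - a0) * (N - x0)) ≤ 720 * N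
    ∧ 1000 * ((240 - a1) * (N - x0)) ≤ N * (240 * c0 - c1 * a1 + c2 * t0))

lemma rg_ok {c0 c1 c2 lo N a0 a1 t0 t1 x0 : ℤ} (h : rgOK c0 c1 c2 lo N a0 a1 t0 t1 x0 = true)
    (k1 : 1000 ≤ c1) (k2 : 0 ≤ c2) {a θ v : ℝ} (h1 : (a0 : ℝ) ≤ 240 * a) (h2 : 240 * a ≤ a1)
    (h3 : (t0 : ℝ) ≤ 240 * θ) (h4 : 240 * θ ≤ t1) (h5 : x0 * (1 - a) ≤ N * (v - a)) :
    1 / 3 ≤ a ∧ a ≤ 1 / 2 ∧ (lo : ℝ) ≤ 240 * θ ∧ 240 * θ ≤ 108 ∧ a ≤ θ + 1 / 20 ∧ 1 - v ≤ 3 / 10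
      ∧ 1000 * (1 - v) ≤ c0 - c1 * a + c2 * θ := by
  unfold rgOK at h
  rw [decide_eq_true_eq] at h
  obtain ⟨m1, m2, m3, m4, m5, m6, m7, m8, m9, m10⟩ := h
  have n1 : (0 : ℝ) < N := by exact_mod_cast m1
  have n2 : (0 : ℝ) ≤ x0 := by exact_mod_cast m2
  have n3 : (x0 : ℝ) ≤ N := by exact_mod_cast m3
  have n4 : (80 : ℝ) ≤ a0 := by exact_mod_cast m4
  have n5 : (a1 : ℝ) ≤ 120 := by exact_mod_cast m5
  have n6 : (lo : ℝ) ≤ t0 := by exact_mod_cast m6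
  have n7 : (t1 : ℝ) ≤ 108 := by exact_mod_cast m7
  have n8 : (a1 : ℝ) ≤ t0 + 12 := by exact_mod_cast m8
  have n9 : (10 : ℝ) * ((240 - a0) * (N - x0)) ≤ 720 * N := by exact_mod_cast m9
  have n10 : (1000 : ℝ) * ((240 - a1) * (N - x0)) ≤ N * (240 * c0 - c1 * a1 + c2 * t0) := by
    exact_mod_cast m10
  have j1 : (1000 : ℝ) ≤ c1 := by exact_mod_cast k1
  have j2 : (0 : ℝ) ≤ c2 := by exact_mod_cast k2
  refine ⟨by linarith, by linarith, by linarith, by linarith, by linarith, ?_, ?_⟩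
  · apply le_of_mul_le_mul_left _ n1
    nlinarith [mul_nonneg (sub_nonneg.2 h1) (sub_nonneg.2 n3)]
  · apply le_of_mul_le_mul_left _ n1
    nlinarith [mul_nonneg (sub_nonneg.2 h2) n2, mul_nonneg (mul_nonneg (sub_nonneg.2 h2)
      (sub_nonneg.2 j1)) n1.le, mul_nonneg (mul_nonneg (sub_nonneg.2 h3) j2) n1.le]

/-- covers of the parameter box -/
inductive CT : Type
  | sa : ℤ → CT → CT → CT
  | st : ℤ → CT → CT → CT
  | sx : ℤ → CT → CT → CT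
  | sy : ℤ → CT → CT → CT
  | ra : CT
  | rb : CT
  | no : CT
  | pr : Bool → Bool → ℤ → ℤ → List (Ck × Ck) → CT

noncomputable def CT.ok (N : ℤ) (T : CT) : ℤ → ℤ → ℤ → ℤ → ℤ → ℤ → ℤ → ℤ → Bool :=
  CT.rec
    (fun z _ _ h1 h2 a0 a1 t0 t1 x0 x1 y0 y1 => h1 a0 z t0 t1 x0 x1 y0 y1 && h2 z a1 t0 t1 x0 x1 y0 y1)
    (fun z _ _ h1 h2 a0 a1 t0 t1 x0 x1 y0 y1 => h1 a0 a1 t0 z x0 x1 y0 y1 && h2 a0 a1 z t1 x0 x1 y0 y1)
    (fun z _ _ h1 h2 a0 a1 t0 t1 x0 x1 y0 y1 => h1 a0 a1 t0 t1 x0 z y0 y1 && h2 a0 a1 t0 t1 z x1 y0 y1)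
    (fun z _ _ h1 h2 a0 a1 t0 t1 x0 x1 y0 y1 => h1 a0 a1 t0 t1 x0 x1 y0 z && h2 a0 a1 t0 t1 x0 x1 z y1)
    (fun a0 a1 t0 t1 x0 _ _ _ => rgOK 785 2700 1100 80 N a0 a1 t0 t1 x0)
    (fun a0 a1 t0 t1 x0 _ _ _ => rgOK 834 2400 700 104 N a0 a1 t0 t1 x0)
    (fun _ a1 t0 _ x0 _ _ _ => decide (0 < N ∧ 0 ≤ x0 ∧ x0 ≤ N ∧ 0 ≤ t0 ∧ t0 ≤ 240
      ∧ 240 * a1 * N < t0 * (a1 * N + (240 - a1) * x0)))
    (fun b b' L K ks a0 a1 t0 t1 x0 x1 y0 y1 => prOK N a0 a1 t0 t1 x0 x1 y0 y1 b b' L K ks) T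

lemma Cov.sa {N a0 a1 t0 t1 x0 x1 y0 y1 : ℤ} (z : ℤ) (h : Cov N a0 z t0 t1 x0 x1 y0 y1)
    (h' : Cov N z a1 t0 t1 x0 x1 y0 y1) : Cov N a0 a1 t0 t1 x0 x1 y0 y1 := by
  intro ι _ _ a θ w g A Φ c G H x y h0 hx hy h1 h2 h3 h4 h5 h6 h7 h8
  rcases le_total (240 * a) z with e | e
  · exact h ι a θ w g A Φ c G H x y h0 hx hy h1 e h3 h4 h5 h6 h7 h8
  · exact h' ι a θ w g A Φ c G H x y h0 hx hy e h2 h3 h4 h5 h6 h7 h8

lemma Cov.st {N a0 a1 t0 t1 x0 x1 y0 y1 : ℤ} (z : ℤ) (h : Cov N a0 a1 t0 z x0 x1 y0 y1)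
    (h' : Cov N a0 a1 z t1 x0 x1 y0 y1) : Cov N a0 a1 t0 t1 x0 x1 y0 y1 := by
  intro ι _ _ a θ w g A Φ c G H x y h0 hx hy h1 h2 h3 h4 h5 h6 h7 h8
  rcases le_total (240 * θ) z with e | e
  · exact h ι a θ w g A Φ c G H x y h0 hx hy h1 h2 h3 e h5 h6 h7 h8
  · exact h' ι a θ w g A Φ c G H x y h0 hx hy h1 h2 e h4 h5 h6 h7 h8

lemma Cov.sx {N a0 a1 t0 t1 x0 x1 y0 y1 : ℤ} (z : ℤ) (h : Cov N a0 a1 t0 t1 x0 z y0 y1)
    (h' : Cov N a0 a1 t0 t1 z x1 y0 y1) : Cov N a0 a1 t0 t1 x0 x1 y0 y1 := by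
  intro ι _ _ a θ w g A Φ c G H x y h0 hx hy h1 h2 h3 h4 h5 h6 h7 h8
  rcases le_total (N * (g x - a)) (z * (1 - a)) with e | e
  · exact h ι a θ w g A Φ c G H x y h0 hx hy h1 h2 h3 h4 h5 e h7 h8
  · exact h' ι a θ w g A Φ c G H x y h0 hx hy h1 h2 h3 h4 e h6 h7 h8

lemma Cov.sy {N a0 a1 t0 t1 x0 x1 y0 y1 : ℤ} (z : ℤ) (h : Cov N a0 a1 t0 t1 x0 x1 y0 z)
    (h' : Cov N a0 a1 t0 t1 x0 x1 z y1) : Cov N a0 a1 t0 t1 x0 x1 y0 y1 := by
  intro ι _ _ a θ w g A Φ c G H x y h0 hx hy h1 h2 h3 h4 h5 h6 h7 h8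
  rcases le_total (N * (a - g y)) (z * a) with e | e
  · exact h ι a θ w g A Φ c G H x y h0 hx hy h1 h2 h3 h4 h5 h6 h7 e
  · exact h' ι a θ w g A Φ c G H x y h0 hx hy h1 h2 h3 h4 h5 h6 e h8

theorem CT.sound (N : ℤ) (T : CT) : ∀ a0 a1 t0 t1 x0 x1 y0 y1 : ℤ,
    T.ok N a0 a1 t0 t1 x0 x1 y0 y1 = true → Cov N a0 a1 t0 t1 x0 x1 y0 y1 := by
  induction T with
  | sa z _ _ i1 i2 =>
    intro _ _ _ _ _ _ _ _ h
    exact Cov.sa z (i1 _ _ _ _ _ _ _ _ (Bool.and_eq_true_iff.1 h).1)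
      (i2 _ _ _ _ _ _ _ _ (Bool.and_eq_true_iff.1 h).2)
  | st z _ _ i1 i2 =>
    intro _ _ _ _ _ _ _ _ h
    exact Cov.st z (i1 _ _ _ _ _ _ _ _ (Bool.and_eq_true_iff.1 h).1)
      (i2 _ _ _ _ _ _ _ _ (Bool.and_eq_true_iff.1 h).2)
  | sx z _ _ i1 i2 =>
    intro _ _ _ _ _ _ _ _ h
    exact Cov.sx z (i1 _ _ _ _ _ _ _ _ (Bool.and_eq_true_iff.1 h).1)
      (i2 _ _ _ _ _ _ _ _ (Bool.and_eq_true_iff.1 h).2)
  | sy z _ _ i1 i2 =>
    intro _ _ _ _ _ _ _ _ h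
    exact Cov.sy z (i1 _ _ _ _ _ _ _ _ (Bool.and_eq_true_iff.1 h).1)
      (i2 _ _ _ _ _ _ _ _ (Bool.and_eq_true_iff.1 h).2)
  | ra =>
    intro _ _ _ _ _ _ _ _ h ι _ _ a θ w g A Φ c G H x y h0 _ hy h1 h2 h3 h4 h5 _ _ _
    obtain ⟨k1, k2, k3, k4, k5, k6, k7⟩ := rg_ok h (by norm_num) (by norm_num) h1 h2 h3 h4 h5
    exact R36.nearA H x y h0 hy k1 k2 (by exact_mod_cast k3) k4 k5 k6 (by exact_mod_cast k7)
  | rb =>
    intro _ _ _ _ _ _ _ _ h ι _ _ a θ w g A Φ c G H x y h0 _ hy h1 h2 h3 h4 h5 _ _ _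
    obtain ⟨k1, k2, k3, k4, k5, k6, k7⟩ := rg_ok h (by norm_num) (by norm_num) h1 h2 h3 h4 h5
    exact R36.nearB H x y h0 hy k1 k2 (by exact_mod_cast k3) k4 k5 k6 (by exact_mod_cast k7)
  | no =>
    intro a0 a1 t0 t1 x0 _ _ _ h ι _ _ a θ w g A Φ c G H x y h0 _ hy h1 h2 h3 h4 h5 _ _ _
    exfalso
    obtain ⟨m1, m2, m3, m4, m5, m6⟩ : 0 < N ∧ 0 ≤ x0 ∧ x0 ≤ N ∧ 0 ≤ t0 ∧ t0 ≤ 240
      ∧ 240 * a1 * N < t0 * (a1 * N + (240 - a1) * x0) := of_decide_eq_true h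
    have n1 : (0 : ℝ) < N := by exact_mod_cast m1
    have n2 : (0 : ℝ) ≤ x0 := by exact_mod_cast m2
    have n3 : (x0 : ℝ) ≤ N := by exact_mod_cast m3
    have n4 : (0 : ℝ) ≤ t0 := by exact_mod_cast m4
    have n5 : (t0 : ℝ) ≤ 240 := by exact_mod_cast m5
    have n6 : (240 : ℝ) * a1 * N < t0 * (a1 * N + (240 - a1) * x0) := by exact_mod_cast m6
    have b1 := mul_le_mul_of_nonneg_left (H.pu x) n1.le
    have b2 := mul_nonneg (mul_nonneg (sub_nonneg.2 h3) (H.g0 x)) n1.le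
    have b3 := mul_le_mul_of_nonneg_left h5 n4
    have b4 := mul_nonneg (mul_nonneg (sub_nonneg.2 h2) (sub_nonneg.2 n5)) n1.le
    have b5 := mul_nonneg (mul_nonneg (sub_nonneg.2 h2) n4) n2
    nlinarith
  | pr b b' L K ks => intro _ _ _ _ _ _ _ _ h; exact pr_ok h

/-- a full cover gives the inequality on a box of parameters -/
theorem Cov.fin {N a0 a1 t0 t1 : ℤ} (N0 : 0 < N) (h : Cov N a0 a1 t0 t1 0 N 0 N) :
    St_R (fun a θ => (a0 : ℝ) ≤ 240 * a ∧ 240 * a ≤ a1 ∧ (t0 : ℝ) ≤ 240 * θ ∧ 240 * θ ≤ t1) := by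
  intro ι _ _ a θ w g A Φ c G H ⟨h1, h2, h3, h4⟩
  have n0 : (0 : ℝ) ≤ N := by exact_mod_cast N0.le
  rcases isEmpty_or_nonempty ι with hι | hι
  · unfold Goal Ed
    simp only [Finset.univ_eq_empty, Finset.sum_empty, mul_zero, add_zero]
    exact div_nonneg (mul_nonneg (by linarith [H.th1]) (mul_nonneg H.a0.le (by linarith [H.a1])))
      H.th0.le
  obtain ⟨x, -, hx⟩ := Finset.exists_max_image Finset.univ g Finset.univ_nonempty
  obtain ⟨y, -, hy⟩ := Finset.exists_min_image Finset.univ g Finset.univ_nonempty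
  have hU : ∀ j, g j ≤ g x := fun j => hx j (Finset.mem_univ j)
  have hD : ∀ j, g y ≤ g j := fun j => hy j (Finset.mem_univ j)
  have gx : a ≤ g x := by
    by_contra h
    have : ∑ j, w j * (g j - a) < 0 := Finset.sum_neg (fun j _ =>
      mul_neg_of_pos_of_neg (by linarith [H.w1 j]) (by linarith [hU j])) Finset.univ_nonempty
    linarith [H.bal]
  have gy : g y ≤ a := by
    by_contra h
    have : 0 < ∑ j, w j * (g j - a) := Finset.sum_pos (fun j _ =>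
      mul_pos (by linarith [H.w1 j]) (by linarith [hD j])) Finset.univ_nonempty
    linarith [H.bal]
  refine h ι a θ w g A Φ c G H x y gx hU hD h1 h2 h3 h4 ?_ ?_ ?_ ?_
  · simpa using mul_nonneg n0 (sub_nonneg.2 gx)
  · exact mul_le_mul_of_nonneg_left (by linarith [H.g1 x]) n0
  · simpa using mul_nonneg n0 (sub_nonneg.2 gy)
  · exact mul_le_mul_of_nonneg_left (by linarith [H.g0 y]) n0

end P36

end Pool.Agent.Lib.MP_43bc59_co
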