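import Pool.Agent.Lib.MP_43bc59_co.F_Q
import Pool.Agent.Lib.MP_43bc59_co.F_P2

set_option autoImplicit false

namespace Pool.Agent.Lib.MP_43bc59_co

namespace P18

open Bx P36

/-- the cleared form of `FF` with weights `Ω / (1000 θ)` -/
def PP2 (a θ N L K Ω X T Ω' Y T' t s r r' m m' : ℝ) : ℝ :=
  (K + (N - K) * s) * (K + (N - K) * s) * ((K + (N - K) * t) * (K + (N - K) * t) * (T * T'
      * (1000000 * N * N * N * N * ((1 - θ) * (a * (1 - a)))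
        - Ω * (1000 * (1 - a) * (N * N * (X * X * (1 - a))
          + L * ((N - X) * (θ * (2 * N - L * θ) * (N * a + X * (1 - a))))))
        - Ω' * (1000 * a * (N * N * (Y * Y * a)
          + L * ((N - Y) * (θ * (2 * N - L * θ) * (N * (1 - a) + Y * a)))))
        + Ω * (Ω' * (N * L * (2 * N - L) * (θ * (X * (1 - a) + Y * a))))))
    + (1000 * N * a - Ω * X) * (Ω' * (N * N * N * L * T' * (θ * (2 * (K + (N - K) * t) - L * t)
          * (T * ((1 - a) * t) + Y * a)))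
      + m * (N * N * N * L * ((1000 * N * (1 - a) - Ω' * Y) * θ * (2 * (K + (N - K) * t) - L * t)
          * (T' * (a * r) + T * ((1 - a) * r'))))
      - 1000 * N * N * T' * ((1 - a) * (T * T * ((1 - a) * t * ((K + (N - K) * t) * (K + (N - K) * t)))
        + L * (θ * (2 * (K + (N - K) * t) - L * (θ * t)) * (N * a + T * ((1 - a) * t))
          * (N - T * t))))))
  + (K + (N - K) * t) * (K + (N - K) * t) * ((1000 * N * (1 - a) - Ω' * Y)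
    * (Ω * (N * N * N * L * T * (θ * (2 * (K + (N - K) * s) - L * s)
          * (T' * (a * s) + X * (1 - a))))
      + m' * (N * N * N * L * ((1000 * N * a - Ω * X) * θ * (2 * (K + (N - K) * s) - L * s)
          * (T' * (a * r) + T * ((1 - a) * r'))))
      - 1000 * N * N * T * (a * (T' * T' * (a * s * ((K + (N - K) * s) * (K + (N - K) * s)))
        + L * (θ * (2 * (K + (N - K) * s) - L * (θ * s)) * (N * (1 - a) + T' * (a * s))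
          * (N - T' * s))))))

lemma PP2_eq (a θ N L K e X T e' Y T' t s r r' m m' : ℝ) :
    PP2 a θ N L K (1000 * θ * e) X T (1000 * θ * e') Y T' t s r r' m m'
      = 1000000 * PP a θ N L K e X T e' Y T' t s r r' m m' := by
  unfold PP2 PP
  generalize K + (N - K) * s = Q'
  generalize K + (N - K) * t = Q
  generalize 1 - a = b
  ring

/-- the expression for `PP2` -/
noncomputable def mkP2 (N L K : ℤ) (Ω X : E) (T : ℤ) (Ω' Y : E) (T' : ℤ) (t s r r' : E)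
    (m m' : Bool) : E :=
  let a := E.v 0
  let θ := E.v 1
  let b := E.c 1 - a
  let Q := E.c K + E.c (N - K) * t
  let Q' := E.c K + E.c (N - K) * s
  let A := E.c (1000 * N) * a - Ω * X
  let A' := E.c (1000 * N) * b - Ω' * Y
  let c1 := θ * (E.c (2 * N) - E.c L * θ)
  let z := E.c T' * (a * r) + E.c T * (b * r')
  Q' * Q' * (Q * Q * (E.c (T * T')
      * (E.c (1000000 * N * N * N * N) * ((E.c 1 - θ) * (a * b))
        - Ω * (E.c 1000 * b * (E.c (N * N) * (X * X * b)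
          + E.c L * ((E.c N - X) * (c1 * (E.c N * a + X * b)))))
        - Ω' * (E.c 1000 * a * (E.c (N * N) * (Y * Y * a)
          + E.c L * ((E.c N - Y) * (c1 * (E.c N * b + Y * a)))))
        + Ω * (Ω' * (E.c (N * L * (2 * N - L)) * (θ * (X * b + Y * a))))))
    + A * (Ω' * (E.c (N * N * N * L * T') * (θ * (E.c 2 * Q - E.c L * t)
          * (E.c T * (b * t) + Y * a)))
      + P36.sw m (E.c (N * N * N * L) * (A' * θ * (E.c 2 * Q - E.c L * t) * z))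
      - E.c (1000 * N * N * T') * (b * (E.c (T * T) * (b * t * (Q * Q))
        + E.c L * (θ * (E.c 2 * Q - E.c L * (θ * t)) * (E.c N * a + E.c T * (b * t))
          * (E.c N - E.c T * t))))))
  + Q * Q * (A' * (Ω * (E.c (N * N * N * L * T) * (θ * (E.c 2 * Q' - E.c L * s)
          * (E.c T' * (a * s) + X * b)))
      + P36.sw m' (E.c (N * N * N * L) * (A * θ * (E.c 2 * Q' - E.c L * s) * z))
      - E.c (1000 * N * N * T) * (a * (E.c (T' * T') * (a * s * (Q' * Q'))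
        + E.c L * (θ * (E.c 2 * Q' - E.c L * (θ * s)) * (E.c N * b + E.c T' * (a * s))
          * (E.c N - E.c T' * s))))))

lemma mkP2_val (x : ℕ → ℝ) (N L K : ℤ) (Ω X : E) (T : ℤ) (Ω' Y : E) (T' : ℤ) (t s r r' : E)
    (m m' : Bool) : (mkP2 N L K Ω X T Ω' Y T' t s r r' m m').val x
      = PP2 (x 0) (x 1) N L K (Ω.val x) (X.val x) T (Ω'.val x) (Y.val x) T'
        (t.val x) (s.val x) (r.val x) (r'.val x) (if m = true then 1 else 0)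
        (if m' = true then 1 else 0) := by
  unfold mkP2 PP2
  simp only [val_add, val_sub, val_mul, val_c, val_v, P36.sw_val]
  push_cast
  rfl

/-- an affine form in the two parameters -/
structure Af : Type where
  c0 : ℤ
  c1 : ℤ
  c2 : ℤ

def Af.r (f : Af) (a θ : ℝ) : ℝ := f.c0 + f.c1 * a + f.c2 * θ

noncomputable def Af.e (f : Af) : E :=
  E.c f.c0 + P36.sw (decide (f.c1 ≠ 0)) (E.c f.c1 * E.v 0) + P36.sw (decide (f.c2 ≠ 0)) (E.c f.c2 * E.v 1)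

lemma Af.val (f : Af) (x : ℕ → ℝ) : f.e.val x = f.r (x 0) (x 1) := by
  unfold Af.e Af.r
  simp only [val_add, val_mul, val_c, val_v, P36.sw_val]
  by_cases h1 : f.c1 = 0 <;> by_cases h2 : f.c2 = 0 <;> simp [h1, h2]

/-- a box of the two parameters, in the unit `1 / 1200` -/
structure Bo : Type where
  a0 : ℤ
  a1 : ℤ
  t0 : ℤ
  t1 : ℤ

def Bo.In (b : Bo) (a θ : ℝ) : Prop :=
  (b.a0 : ℝ) ≤ 1200 * a ∧ 1200 * a ≤ b.a1 ∧ (b.t0 : ℝ) ≤ 1200 * θ ∧ 1200 * θ ≤ b.t1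

def Af.lo (f : Af) (b : Bo) : ℤ :=
  1200 * f.c0 + min (f.c1 * b.a0) (f.c1 * b.a1) + min (f.c2 * b.t0) (f.c2 * b.t1)

lemma min_le_mid {c u v : ℤ} {z : ℝ} (h1 : (u : ℝ) ≤ z) (h2 : z ≤ v) :
    ((min (c * u) (c * v) : ℤ) : ℝ) ≤ c * z := by
  push_cast
  rcases le_total (0 : ℝ) c with h | h
  · exact (min_le_left _ _).trans (mul_le_mul_of_nonneg_left h1 h)
  · exact (min_le_right _ _).trans (mul_le_mul_of_nonpos_left h2 h)

lemma Af.lo_le (f : Af) {b : Bo} {a θ : ℝ} (h : b.In a θ) : (f.lo b : ℝ) ≤ 1200 * f.r a θ := by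
  have h1 := min_le_mid (c := f.c1) h.1 h.2.1
  have h2 := min_le_mid (c := f.c2) h.2.2.1 h.2.2.2
  unfold Af.lo Af.r
  rw [Int.cast_add, Int.cast_add, Int.cast_mul]
  push_cast at h1 h2 ⊢
  linarith

lemma Af.pos {f : Af} {b : Bo} {a θ : ℝ} (h : b.In a θ) (h0 : 0 < f.lo b) : 0 < f.r a θ := by
  have := f.lo_le h
  have : (0 : ℝ) < f.lo b := by exact_mod_cast h0
  linarith

lemma Af.nn {f : Af} {b : Bo} {a θ : ℝ} (h : b.In a θ) (h0 : 0 ≤ f.lo b) : 0 ≤ f.r a θ := by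
  have := f.lo_le h
  have : (0 : ℝ) ≤ f.lo b := by exact_mod_cast h0
  linarith

noncomputable def ck (b : Bo) (ds : List ℕ) (h2 q2 l3 h3 : ℤ) (ps cs : List E) (c : Ck) : Bool :=
  chk3 c.e ds [b.a0, b.t0, 0, l3] [b.a1, b.t1, h2, h3] [1200, 1200, q2, 1] (ps ++ cs)
    (okN (List.length ps)) (fun u => [u]) c.t

lemma ck_ok {b : Bo} {d0 d1 d2 d3 : ℕ} {h2 q2 l3 h3 : ℤ} {ps cs : List E} {c : Ck}
    (h : ck b [d0, d1, d2, d3] h2 q2 l3 h3 ps cs c = true) (ha : b.a0 < b.a1) (ht : b.t0 < b.t1)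
    (k2 : 0 < h2) (k3 : 0 < q2) (k4 : l3 < h3) {a θ s ρ : ℝ} (hb : b.In a θ) (s0 : 0 ≤ s)
    (s1 : q2 * s ≤ h2) (ρ0 : (l3 : ℝ) ≤ ρ) (ρ1 : ρ ≤ h3)
    (hc : ∀ C ∈ cs, 0 ≤ C.val (fun j => [a, θ, s, ρ].getD j 0)) :
    ∃ P ∈ ps, 0 ≤ P.val (fun j => [a, θ, s, ρ].getD j 0) :=
  some_nonneg3 h [a, θ, s, ρ] rfl (by
    simp only [InBox]; push_cast
    exact ⟨⟨by norm_num, ha⟩, ⟨hb.1, hb.2.1⟩, ⟨by norm_num, ht⟩, ⟨hb.2.2.1, hb.2.2.2⟩, ⟨k3, k2⟩,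
      ⟨mul_nonneg (by exact_mod_cast k3.le) s0, s1⟩, ⟨by norm_num, k4⟩, ⟨by linarith, by linarith⟩,
      trivial⟩) hc

/-- data of one side of a leaf -/
structure Sd : Type where
  T : ℤ
  h : ℤ
  o0 : Af
  o1 : Af
  k1 : Ck
  k2 : Ck
  k3 : Ck

noncomputable def sdOK (N : ℤ) (b : Bo) (am : E) (x0 x1 α β u0 u1 : ℤ) (s : Sd) : Bool :=
  let X0 := (Af.mk x0 α β).e
  let Xm := X0 + E.c (x1 - x0) * E.v 2
  let den := (E.c 1 - E.v 2) * s.o1.e + E.v 2 * s.o0.e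
  decide (x0 < x1 ∧ 0 < s.T ∧ 0 < s.h ∧ s.h ≤ 64 ∧ 0 ≤ u0 ∧ 0 < (Af.mk x0 α β).lo b
    ∧ 0 < s.o0.lo b ∧ 0 < s.o1.lo b)
  && ck b [1, 2, 0, 0] 1 1 0 1 [E.c (s.T * s.h) - E.c 64 * (Af.mk x1 α β).e,
    E.v 1 * (E.c (100 * s.T * s.h) + E.c (64 * u0) * X0) - E.c (6400 * N) * am] [] s.k1
  && ck b [3, 3, 1, 2] 1 1 1 2 [s.o0.e * s.o1.e - E.c 1000 * (E.v 1 * E.v 3 * den)]
    [s.o0.e * (E.c N * am - E.v 1 * E.v 3 * (Xm + (E.c 2 - E.v 3) * am * (E.c N - Xm))),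
      E.c u1 * (E.c u1 - E.c 100 * E.v 3), E.c 100 * E.v 3 - E.c u0] s.k2
  && (decide (0 < u1 ∧ u1 ≤ 200) || ck b [3, 3, 1, 0] 1 1 0 1
    [s.o0.e * s.o1.e * Xm - E.c (1000 * N) * (am * den), E.c 2 * (E.v 1 * Xm) - E.c N * am] [] s.k3)

lemma sd_ok {N : ℤ} {b : Bo} {am : E} {x0 x1 α β u0 u1 : ℤ} {s : Sd}
    (h : sdOK N b am x0 x1 α β u0 u1 s = true) (ha : b.a0 < b.a1) (ht : b.t0 < b.t1)
    (N0 : (0 : ℝ) < N) {a θ A B P w : ℝ} (hb : b.In a θ) (θ0 : 0 < θ) (B0 : 0 < B)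
    (hA : ∀ s ρ, am.val (fun j => [a, θ, s, ρ].getD j 0) = A) (w1 : 1 ≤ w)
    (m1 : θ * (w * P) ≤ A * B) (m2 : w ≤ 2 → θ * (w * P + (2 - w) * A * (w * (B - P))) ≤ A * B)
    (h0 : (Af.mk x0 α β).r a θ * B ≤ N * P) (h1 : N * P ≤ (Af.mk x1 α β).r a θ * B)
    (h2 : (u0 : ℝ) ≤ 100 * w) (h3 : (0 : ℝ) ≤ u1 * (u1 - 100 * w)) :
    (0 < B * (Af.mk x0 α β).r a θ / N ∧ B * (Af.mk x0 α β).r a θ / N ≤ P
      ∧ P ≤ B * (Af.mk x1 α β).r a θ / N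
      ∧ B * (Af.mk x0 α β).r a θ / N < B * (Af.mk x1 α β).r a θ / N ∧ (0 : ℝ) ≤ u0 / 100
      ∧ u0 / 100 ≤ w ∧ 0 < s.o0.r a θ / (1000 * θ) ∧ 0 < s.o1.r a θ / (1000 * θ))
    ∧ w * ((B * (Af.mk x1 α β).r a θ / N - P) * (s.o1.r a θ / (1000 * θ))
        + (P - B * (Af.mk x0 α β).r a θ / N) * (s.o0.r a θ / (1000 * θ)))
      ≤ (B * (Af.mk x1 α β).r a θ / N - B * (Af.mk x0 α β).r a θ / N)
        * (s.o0.r a θ / (1000 * θ) * (s.o1.r a θ / (1000 * θ)))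
    ∧ (0 < s.T ∧ 0 < s.h ∧ s.h ≤ 64) ∧ ∀ t, Rs (B * s.T / N) (B * (Af.mk x1 α β).r a θ / N)
      (A * B / θ - u0 / 100 * (B * (Af.mk x0 α β).r a θ / N)) t → 0 ≤ t ∧ 64 * t ≤ s.h
        ∧ 0 ≤ (Af.mk x1 α β).r a θ - s.T * t
        ∧ 0 ≤ 100 * N * A - θ * (100 * s.T * t + u0 * (Af.mk x0 α β).r a θ) := by
  unfold sdOK at h
  simp only [Bool.and_eq_true, Bool.or_eq_true, decide_eq_true_eq] at h
  obtain ⟨⟨⟨⟨k1, k2, k3, k4, k5, k6, k7, k8⟩, c1⟩, c2⟩, c3⟩ := h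
  have X0 := Af.pos hb k6
  have O0 := Af.pos hb k7
  have O1 := Af.pos hb k8
  have d0 : (0 : ℝ) < x1 - x0 := by rw [sub_pos]; exact_mod_cast k1
  have T0 : (0 : ℝ) < s.T := by exact_mod_cast k2
  have u00 : (0 : ℝ) ≤ u0 := by exact_mod_cast k5
  have eX : (Af.mk x1 α β).r a θ = (Af.mk x0 α β).r a θ + (x1 - x0) := by unfold Af.r; ring
  have q1 := ck_ok c1 ha ht one_pos one_pos one_pos hb le_rfl (s := 0) (ρ := 0) (by simp) (by simp)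
    (by simp) (fun C hC => absurd hC List.not_mem_nil)
  obtain ⟨μ, hμ⟩ : ∃ μ, N * P = B * ((Af.mk x0 α β).r a θ + (x1 - x0) * μ) :=
    ⟨(N * P / B - (Af.mk x0 α β).r a θ) / (x1 - x0), by field_simp; ring⟩
  have μ0 : 0 ≤ μ := by
    apply nonneg_of_mul_nonneg_right _ (mul_pos B0 d0)
    linarith
  have μ1 : μ ≤ 1 := by
    apply le_of_mul_le_mul_left _ (mul_pos B0 d0)
    rw [eX] at h1; linarith
  have q3 := fun h => ck_ok (b := b) (c := s.k3) (d0 := 3) (d1 := 3) (d2 := 1) (d3 := 0)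
    (ps := [s.o0.e * s.o1.e * ((Af.mk x0 α β).e + E.c (x1 - x0) * E.v 2) - E.c (1000 * N)
      * (am * ((E.c 1 - E.v 2) * s.o1.e + E.v 2 * s.o0.e)), E.c 2 * (E.v 1 * ((Af.mk x0 α β).e
      + E.c (x1 - x0) * E.v 2)) - E.c N * am]) (cs := []) h ha ht one_pos
    one_pos one_pos hb μ0 (ρ := 0) (by simpa using μ1) (by simp) (by simp)
    (fun C hC => absurd hC List.not_mem_nil)
  have q2 := fun (h : w ≤ 2) => ck_ok c2 ha ht one_pos one_pos (by norm_num) hb μ0 (ρ := w)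
    (by simpa using μ1) (by simpa using w1) (by simpa using h) (by
      simp only [List.forall_mem_cons, List.not_mem_nil, false_imp_iff, implies_true, and_true,
        val_add, val_sub, val_mul, val_c, val_v, Af.val, hA, List.getD_cons_zero,
        List.getD_cons_succ]
      push_cast
      refine ⟨mul_nonneg O0.le ?_, h3, by linarith⟩
      apply nonneg_of_mul_nonneg_right _ B0
      have := mul_le_mul_of_nonneg_left (m2 h) N0.le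
      linear_combination this - θ * w * (1 - (2 - w) * A) * hμ)
  simp only [List.mem_cons, List.not_mem_nil, or_false, exists_eq_or_imp, exists_eq_left, val_add,
    val_sub, val_mul, val_c, val_v, Af.val, hA, List.getD_cons_zero, List.getD_cons_succ] at q1 q2 q3
  push_cast at q1 q2 q3
  rw [eX] at q1 h1 ⊢
  generalize (Af.mk x0 α β).r a θ = X at *
  generalize s.o0.r a θ = o0 at *
  generalize s.o1.r a θ = o1 at *
  generalize (x1 - x0 : ℝ) = d at *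
  have Xm : 0 < X + d * μ := by positivity
  have dn : 0 ≤ (1 - μ) * o1 + μ * o0 := add_nonneg (mul_nonneg (by linarith) O1.le) (by positivity)
  have ms : θ * w * (X + d * μ) ≤ N * A := by
    apply le_of_mul_le_mul_left _ B0
    have := mul_le_mul_of_nonneg_left m1 N0.le
    linear_combination this - θ * w * hμ
  have cap : 0 ≤ o0 * o1 - 1000 * (θ * w * ((1 - μ) * o1 + μ * o0)) := by
    rcases le_or_gt w 2 with h | h
    · exact q2 h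
    rcases c3 with c3 | c3
    · have e1 : (0 : ℝ) < u1 := by exact_mod_cast c3.1
      have e2 : (u1 : ℝ) ≤ 200 := by exact_mod_cast c3.2
      nlinarith
    rcases q3 c3 with e | e
    · apply nonneg_of_mul_nonneg_right _ Xm
      have := mul_le_mul_of_nonneg_left ms dn
      linarith
    · have := mul_lt_mul_of_pos_left h (mul_pos θ0 Xm)
      linarith
  have eP : P = B * (X + d * μ) / N := by rw [← hμ]; field_simp
  refine ⟨⟨by positivity, by rw [div_le_iff₀ N0]; linarith, by rw [le_div_iff₀ N0]; linarith,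
    by gcongr; linarith, by positivity, by linarith, by positivity, by positivity⟩, ?_,
    ⟨k2, k3, k4⟩, fun t r => ?_⟩
  · have := mul_nonneg cap (show 0 ≤ B * d / (N * (1000 * θ) ^ 2) by positivity)
    refine le_of_sub_nonneg (this.trans (le_of_eq ?_))
    rw [eP]; field_simp; ring
  · obtain ⟨r0, r1, r2⟩ := r
    have s1 : 0 ≤ X + d - s.T * t := by
      have := mul_nonneg (sub_nonneg.2 r1) (show 0 ≤ N / B by positivity)
      refine this.trans (le_of_eq ?_)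
      field_simp
    have s2 : 0 ≤ 100 * N * A - θ * (100 * s.T * t + u0 * X) := by
      have := mul_nonneg (sub_nonneg.2 r2) (show 0 ≤ 100 * N * θ / B by positivity)
      refine this.trans (le_of_eq ?_)
      field_simp; ring
    refine ⟨r0, ?_, s1, s2⟩
    rcases q1 with e | e
    · apply le_of_mul_le_mul_left _ T0
      linarith
    · apply le_of_mul_le_mul_left _ (mul_pos θ0 T0)
      linarith

noncomputable def sides (N : ℤ) (Z X0 X1 Y0 Y1 : E) (T T' u0 v0 : ℤ) (t s : E) : List E :=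
  [E.c (1000 * N ^ 9) * (X1 - E.c T * t),
    E.c (10 * N ^ 9) * (E.c (100 * N) * E.v 0 - E.v 1 * (E.c (100 * T) * t + E.c u0 * X0)),
    E.c (1000 * N ^ 9) * (Y1 - E.c T' * s),
    E.c (10 * N ^ 9) * (E.c (100 * N) * (E.c 1 - E.v 0) - E.v 1 * (E.c (100 * T') * s + E.c v0 * Y0)),
    E.c (1000 * N ^ 9) * Z]

noncomputable def pairOK2 (N L K : ℤ) (da dt : ℕ) (b : Bo) (Z X0 X1 Y0 Y1 : Af)
    (T h T' h' u0 v0 : ℤ) (p : (Af × Af) × (Af × Af)) (k : Ck × Ck) : Bool :=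
  ck b [da, dt, 5, 3] h' 64 0 1 [mkP2 N L K p.1.1.e p.1.2.e T p.2.1.e p.2.2.e T' (E.v 3 * E.v 2)
    (E.v 2) (E.c 1) (E.v 3) true false]
    (sides N Z.e X0.e X1.e Y0.e Y1.e T T' u0 v0 (E.v 3 * E.v 2) (E.v 2)) k.1
  && ck b [da, dt, 5, 3] h 64 0 1 [mkP2 N L K p.1.1.e p.1.2.e T p.2.1.e p.2.2.e T' (E.v 2)
    (E.v 3 * E.v 2) (E.v 3) (E.c 1) false true]
    (sides N Z.e X0.e X1.e Y0.e Y1.e T T' u0 v0 (E.v 2) (E.v 3 * E.v 2)) k.2

lemma pair_ok2 {N L K : ℤ} {da dt : ℕ} {b : Bo} {Z X0 X1 Y0 Y1 : Af} {T h T' h' u0 v0 : ℤ}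
    {p : (Af × Af) × (Af × Af)} {k : Ck × Ck}
    (hk : pairOK2 N L K da dt b Z X0 X1 Y0 Y1 T h T' h' u0 v0 p k = true) (ha : b.a0 < b.a1)
    (ht : b.t0 < b.t1) {a θ t s e e' : ℝ} (hb : b.In a θ) (hZ : 0 ≤ Z.r a θ) (b0 : 0 < a) (b1 : a < 1)
    (θ0 : 0 < θ) (N0 : (0 : ℝ) < N) (K0 : (0 : ℝ) < K) (kx : 0 < T ∧ 0 < h ∧ h ≤ 64)
    (ky : 0 < T' ∧ 0 < h' ∧ h' ≤ 64) (he : p.1.1.r a θ = 1000 * θ * e)
    (he' : p.2.1.r a θ = 1000 * θ * e')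
    (rx : 0 ≤ t ∧ 64 * t ≤ h ∧ 0 ≤ X1.r a θ - T * t
      ∧ 0 ≤ 100 * N * a - θ * (100 * T * t + u0 * X0.r a θ))
    (ry : 0 ≤ s ∧ 64 * s ≤ h' ∧ 0 ≤ Y1.r a θ - T' * s
      ∧ 0 ≤ 100 * N * (1 - a) - θ * (100 * T' * s + v0 * Y0.r a θ)) :
    0 ≤ FF a θ (L / N) (K / N) (a * (1 - a) / θ) e ((1 - a) * p.1.2.r a θ / N) ((1 - a) * T / N) t e'
      (a * p.2.2.r a θ / N) (a * T' / N) s := by
  have k0 : (0 : ℝ) < K / N := div_pos K0 N0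
  have T0 : (0 : ℝ) < T := by exact_mod_cast kx.1
  have T1 : (0 : ℝ) < T' := by exact_mod_cast ky.1
  have c1 : t ≤ 1 := by
    have : (h : ℝ) ≤ 64 := by exact_mod_cast kx.2.2
    linarith [rx.2.1]
  have s1 : s ≤ 1 := by
    have : (h' : ℝ) ≤ 64 := by exact_mod_cast ky.2.2
    linarith [ry.2.1]
  have sd : ∀ (z ρ : ℝ) (t' s' : E), t'.val (fun j => [a, θ, z, ρ].getD j 0) = t →
      s'.val (fun j => [a, θ, z, ρ].getD j 0) = s →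
      ∀ C ∈ sides N Z.e X0.e X1.e Y0.e Y1.e T T' u0 v0 t' s',
        0 ≤ C.val (fun j => [a, θ, z, ρ].getD j 0) := fun z ρ t' s' e1 e2 => by
    simp only [sides, List.forall_mem_cons, List.not_mem_nil, false_imp_iff, implies_true, and_true,
      val_add, val_sub, val_mul, val_c, val_v, Af.val, e1, e2, List.getD_cons_zero,
      List.getD_cons_succ]
    push_cast
    exact ⟨mul_nonneg (by positivity) rx.2.2.1, mul_nonneg (by positivity) rx.2.2.2,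
      mul_nonneg (by positivity) ry.2.2.1, mul_nonneg (by positivity) ry.2.2.2,
      mul_nonneg (by positivity) hZ⟩
  unfold pairOK2 at hk
  rw [Bool.and_eq_true] at hk
  rcases lt_or_ge t s with hts | hts
  · have sp : 0 < s := by linarith [rx.1]
    obtain ⟨P, hP, q⟩ := ck_ok hk.1 ha ht ky.2.1 (by norm_num) one_pos hb ry.1 (ρ := t / s)
      (by simpa using ry.2.1) (by simpa using div_nonneg rx.1 ry.1)
      (by simpa using (div_le_one sp).2 hts.le) (sd _ _ _ _ (div_mul_cancel₀ _ sp.ne') rfl)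
    rw [List.mem_singleton.1 hP, mkP2_val] at q
    refine FF_of_PP (m := 1) (m' := 0) b0 b1 θ0 N0 T0 T1 (qf_pos k0 rx.1 c1) (qf_pos k0 ry.1 s1)
      (Or.inl ⟨rfl, rfl, min_eq_left hts.le⟩) ?_
    rw [r1, r2, if_pos hts, if_pos hts]
    apply nonneg_of_mul_nonneg_right _ (show (0 : ℝ) < 1000000 by norm_num)
    rw [← PP2_eq, ← he, ← he']
    simpa [val_c, val_v, val_mul, Af.val, div_mul_cancel₀ _ sp.ne'] using q
  · have hr := r1_mul (t := t) ry.1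
    rw [min_eq_right hts] at hr
    have r0 : 0 ≤ r1 t s := by rw [r1, if_neg (not_lt.2 hts)]; exact div_nonneg ry.1 rx.1
    have r1' : r1 t s ≤ 1 := by
      rw [r1, if_neg (not_lt.2 hts)]; exact div_le_one_of_le₀ hts rx.1
    obtain ⟨P, hP, q⟩ := ck_ok hk.2 ha ht kx.2.1 (by norm_num) one_pos hb rx.1 (ρ := r1 t s)
      (by simpa using rx.2.1) (by simpa using r0) (by simpa using r1') (sd _ _ _ _ rfl hr)
    rw [List.mem_singleton.1 hP, mkP2_val] at q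
    refine FF_of_PP (m := 0) (m' := 1) b0 b1 θ0 N0 T0 T1 (qf_pos k0 rx.1 c1) (qf_pos k0 ry.1 s1)
      (Or.inr ⟨rfl, rfl, min_eq_right hts⟩) ?_
    rw [r2, if_neg (not_lt.2 hts)]
    apply nonneg_of_mul_nonneg_right _ (show (0 : ℝ) < 1000000 by norm_num)
    rw [← PP2_eq, ← he, ← he']
    simpa [val_c, val_v, val_mul, Af.val, hr] using q

def vts (X0 X1 o0 o1 : Af) (u0 : ℤ) : List (Af × Af) :=
  [(⟨0, 0, 10 * u0⟩, X0), (o0, X0), (⟨0, 0, 10 * u0⟩, X1), (o1, X1)]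

lemma vts_ok {X0 X1 o0 o1 : Af} {u0 : ℤ} {a θ B N e ξ : ℝ} (θ0 : 0 < θ)
    (h : Vx (u0 / 100) (B * X0.r a θ / N) (B * X1.r a θ / N) (o0.r a θ / (1000 * θ))
      (o1.r a θ / (1000 * θ)) e ξ) :
    ∃ p ∈ vts X0 X1 o0 o1 u0, p.1.r a θ = 1000 * θ * e ∧ ξ = B * p.2.r a θ / N := by
  have e1 : (Af.mk 0 0 (10 * u0)).r a θ = 1000 * θ * (u0 / 100) := by
    unfold Af.r; push_cast; ring
  have e2 : ∀ z : ℝ, z = 1000 * θ * (z / (1000 * θ)) := fun z => by field_simp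
  rcases h with ⟨h1, h2 | h2⟩ | ⟨h1, h2 | h2⟩
  · exact ⟨_, List.mem_cons_self, h2 ▸ e1, h1⟩
  · exact ⟨_, List.mem_cons_of_mem _ List.mem_cons_self, h2 ▸ e2 _, h1⟩
  · exact ⟨_, List.mem_cons_of_mem _ (List.mem_cons_of_mem _ List.mem_cons_self), h2 ▸ e1, h1⟩
  · exact ⟨_, List.mem_cons_of_mem _ (List.mem_cons_of_mem _ (List.mem_cons_of_mem _
      List.mem_cons_self)), h2 ▸ e2 _, h1⟩

/-- global data of a cover: unit, shears and degrees -/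
structure Pm : Type where
  N : ℤ
  α : ℤ
  β : ℤ
  γ : ℤ
  δ : ℤ
  da : ℕ
  dt : ℕ
  Z : Af

/-- ranges of the extreme letters and of their weights -/
structure Xy : Type where
  x0 : ℤ
  x1 : ℤ
  y0 : ℤ
  y1 : ℤ
  u0 : ℤ
  u1 : ℤ
  v0 : ℤ
  v1 : ℤ

def Xy.In (p : Pm) (z : Xy) (a θ u v w w' : ℝ) : Prop :=
  ((Af.mk z.x0 p.α p.β).r a θ * (1 - a) ≤ p.N * (u - a)
    ∧ p.N * (u - a) ≤ (Af.mk z.x1 p.α p.β).r a θ * (1 - a))
  ∧ ((Af.mk z.y0 p.γ p.δ).r a θ * a ≤ p.N * (a - v) ∧ p.N * (a - v) ≤ (Af.mk z.y1 p.γ p.δ).r a θ * a)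
  ∧ ((z.u0 : ℝ) ≤ 100 * w ∧ (0 : ℝ) ≤ z.u1 * (z.u1 - 100 * w))
  ∧ ((z.v0 : ℝ) ≤ 100 * w' ∧ (0 : ℝ) ≤ z.v1 * (z.v1 - 100 * w'))

/-- the inequality holds under a condition on the parameters and the two extreme letters -/
def St4 (R : ℝ → ℝ → ℝ → ℝ → ℝ → ℝ → Prop) : Prop :=
  ∀ (ι : Type) [Fintype ι] [DecidableEq ι] (a θ : ℝ) (w g A Φ : ι → ℝ) (c G : ι → ι → ℝ),
    Hyp a θ w g A Φ c G → ∀ x y : ι, a ≤ g x → g y ≤ a → (∀ j, g j ≤ g x) → (∀ j, g y ≤ g j) →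
    R a θ (g x) (g y) (w x) (w y) → Goal a θ w g Φ c G

def Cov2 (p : Pm) (R : ℝ → ℝ → ℝ → ℝ → Prop) (b : Bo) (z : Xy) : Prop :=
  St4 (fun a θ u v w w' => (R a θ u v ∧ 0 ≤ p.Z.r a θ) ∧ b.In a θ ∧ z.In p a θ u v w w')

noncomputable def p2OK (p : Pm) (b : Bo) (z : Xy) (L K : ℤ) (s s' : Sd) (ks : List (Ck × Ck)) :
    Bool :=
  decide (b.a0 < b.a1 ∧ b.t0 < b.t1 ∧ 0 < p.N ∧ 0 ≤ L ∧ L ≤ p.N ∧ 0 < K)
  && sdOK p.N b (E.v 0) z.x0 z.x1 p.α p.β z.u0 z.u1 s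
  && sdOK p.N b (E.c 1 - E.v 0) z.y0 z.y1 p.γ p.δ z.v0 z.v1 s'
  && al2 (pairOK2 p.N L K p.da p.dt b p.Z ⟨z.x0, p.α, p.β⟩ ⟨z.x1, p.α, p.β⟩ ⟨z.y0, p.γ, p.δ⟩
    ⟨z.y1, p.γ, p.δ⟩ s.T s.h s'.T s'.h z.u0 z.v0)
    (List.product (vts ⟨z.x0, p.α, p.β⟩ ⟨z.x1, p.α, p.β⟩ s.o0 s.o1 z.u0)
      (vts ⟨z.y0, p.γ, p.δ⟩ ⟨z.y1, p.γ, p.δ⟩ s'.o0 s'.o1 z.v0)) ks

lemma p2_ok {p : Pm} {R : ℝ → ℝ → ℝ → ℝ → Prop} {b : Bo} {z : Xy} {L K : ℤ} {s s' : Sd}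
    {ks : List (Ck × Ck)} (h : p2OK p b z L K s s' ks = true) : Cov2 p R b z := by
  intro ι _ _ a θ w g A Φ c G H x y gx gy hx hy ⟨hR, hb, ⟨h1, h2⟩, ⟨h3, h4⟩, ⟨h5, h6⟩, h7, h8⟩
  unfold p2OK at h
  simp only [Bool.and_eq_true, decide_eq_true_eq] at h
  obtain ⟨⟨⟨⟨k1, k2, k3, k4, k5, k6⟩, c1⟩, c2⟩, c3⟩ := h
  have N0 : (0 : ℝ) < p.N := by exact_mod_cast k3
  have b0 := H.a0
  have b1 : 0 < 1 - a := by linarith [H.a1]
  have t0 := H.th0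
  have nn : ∀ (f : ι → ℝ) (j : ι), θ * (w j * f j) ≤ θ * ∑ j, w j * max (f j) 0 := fun f j =>
    mul_le_mul_of_nonneg_left ((mul_le_mul_of_nonneg_left (le_max_left _ _)
      (by linarith [H.w1 j])).trans (Finset.single_le_sum (f := fun j => w j * max (f j) 0)
      (fun j _ => mul_nonneg (by linarith [H.w1 j]) (le_max_right _ _)) (Finset.mem_univ j))) t0.le
  obtain ⟨⟨x1, x2, x3, x4, x5, x6, x7, x8⟩, x9, x10, x11⟩ := sd_ok c1 k1 k2 N0 hb t0 b1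
    (fun _ _ => rfl) (H.w1 x) (P := g x - a)
    ((nn (fun j => g j - a) x).trans (by rw [mul_comm, ← le_div_iff₀ t0]; exact C36.up_sum H))
    (fun h => by have := H.wu x h; linarith) h1 h2 h5 h6
  obtain ⟨⟨y1, y2, y3, y4, y5, y6, y7, y8⟩, y9, y10, y11⟩ := sd_ok c2 k1 k2 N0 hb t0 b0
    (fun _ _ => by rw [val_sub, val_c, val_v]; simp) (H.w1 y) (A := 1 - a) (P := a - g y)
    ((nn (fun j => a - g j) y).trans (by
      rw [mul_comm, ← le_div_iff₀ t0, mul_comm (1 - a)]; exact C36.down_sum H))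
    (fun h => by have := H.wd y h; linarith) h3 h4 h7 h8
  rw [mul_comm (1 - a) a] at y11
  have T0 : (0 : ℝ) < s.T := by exact_mod_cast x10.1
  have T1 : (0 : ℝ) < s'.T := by exact_mod_cast y10.1
  have m1 : (s.h : ℝ) ≤ 64 := by exact_mod_cast x10.2.2
  have m2 : (s'.h : ℝ) ≤ 64 := by exact_mod_cast y10.2.2
  refine leaf2 H x y (l := L / p.N) (k := K / p.N) (U := (1 - a) * s.T / p.N) (D := a * s'.T / p.N)
    (div_nonneg (by exact_mod_cast k4) N0.le) ((div_le_one N0).2 (by exact_mod_cast k5))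
    (div_pos (by exact_mod_cast k6) N0) (by positivity) (by positivity) hx hy
    x1 x2 x3 x4 x5 x6 x7 x8 x9 y1 y2 y3 y4 y5 y6 y7 y8 y9
    (fun t r => by linarith [(x11 t r).2.1]) (fun t r => by linarith [(y11 t r).2.1])
    (fun e ξ t e' η s v1 v2 r r' => ?_)
  obtain ⟨q, hq, q1, q2⟩ := vts_ok t0 v1
  obtain ⟨q', hq', q3, q4⟩ := vts_ok t0 v2
  obtain ⟨k, hk⟩ := al2_ok c3 (q, q') (List.pair_mem_product.2 ⟨hq, hq'⟩)
  rw [q2, q4]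
  exact pair_ok2 hk k1 k2 hb hR.2 b0 H.a1 t0 N0 (by exact_mod_cast k6) x10 y10 q1 q3 (x11 t r)
    (y11 s r')

noncomputable def p1OK (p : Pm) (b : Bo) (z : Xy) (a0 a1 t0 t1 x0 x1 y0 y1 : ℤ) (f f' : Bool)
    (L K : ℤ) (ks : List (Ck × Ck)) : Bool :=
  decide (0 < p.N ∧ 5 * a0 ≤ b.a0 ∧ b.a1 ≤ 5 * a1 ∧ 5 * t0 ≤ b.t0 ∧ b.t1 ≤ 5 * t1
    ∧ (x0 ≤ 0 ∨ 0 ≤ (Af.mk (z.x0 - x0) p.α p.β).lo b)
    ∧ (p.N ≤ x1 ∨ 0 ≤ (Af.mk (x1 - z.x1) (-p.α) (-p.β)).lo b)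
    ∧ (y0 ≤ 0 ∨ 0 ≤ (Af.mk (z.y0 - y0) p.γ p.δ).lo b)
    ∧ (p.N ≤ y1 ∨ 0 ≤ (Af.mk (y1 - z.y1) (-p.γ) (-p.δ)).lo b))
  && prOK p.N a0 a1 t0 t1 x0 x1 y0 y1 f f' L K ks

lemma bnd {b : Bo} {N z0 z1 x0 x1 α β : ℤ} {a θ B P : ℝ} (hb : b.In a θ) (N0 : (0 : ℝ) < N)
    (B0 : 0 < B) (P0 : 0 ≤ P) (P1 : P ≤ B) (k1 : x0 ≤ 0 ∨ 0 ≤ (Af.mk (z0 - x0) α β).lo b)
    (k2 : N ≤ x1 ∨ 0 ≤ (Af.mk (x1 - z1) (-α) (-β)).lo b)
    (h : (Af.mk z0 α β).r a θ * B ≤ N * P ∧ N * P ≤ (Af.mk z1 α β).r a θ * B) :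
    x0 * B ≤ N * P ∧ N * P ≤ x1 * B := by
  constructor
  · rcases k1 with k | k
    · have : (x0 : ℝ) ≤ 0 := by exact_mod_cast k
      nlinarith [mul_nonneg N0.le P0]
    · have := mul_nonneg (Af.nn hb k) B0.le
      unfold Af.r at *
      push_cast at *
      linarith [h.1]
  · rcases k2 with k | k
    · have : (N : ℝ) ≤ x1 := by exact_mod_cast k
      nlinarith
    · have := mul_nonneg (Af.nn hb k) B0.le
      unfold Af.r at *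
      push_cast at *
      linarith [h.2]

lemma p1_ok {p : Pm} {R : ℝ → ℝ → ℝ → ℝ → Prop} {b : Bo} {z : Xy} {a0 a1 t0 t1 x0 x1 y0 y1 : ℤ}
    {f f' : Bool} {L K : ℤ} {ks : List (Ck × Ck)}
    (h : p1OK p b z a0 a1 t0 t1 x0 x1 y0 y1 f f' L K ks = true) : Cov2 p R b z := by
  intro ι _ _ a θ w g A Φ c G H x y gx gy hx hy ⟨_, hb, h1, h2, _⟩
  unfold p1OK at h
  rw [Bool.and_eq_true, decide_eq_true_eq] at h
  obtain ⟨⟨k1, k2, k3, k4, k5, k6, k7, k8, k9⟩, h⟩ := h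
  have N0 : (0 : ℝ) < p.N := by exact_mod_cast k1
  have m2 : (5 : ℝ) * a0 ≤ b.a0 := by exact_mod_cast k2
  have m3 : (b.a1 : ℝ) ≤ 5 * a1 := by exact_mod_cast k3
  have m4 : (5 : ℝ) * t0 ≤ b.t0 := by exact_mod_cast k4
  have m5 : (b.t1 : ℝ) ≤ 5 * t1 := by exact_mod_cast k5
  have q1 := bnd hb N0 (show 0 < 1 - a by linarith [H.a1]) (sub_nonneg.2 gx)
    (by linarith [H.g1 x]) k6 k7 h1
  have q2 := bnd hb N0 H.a0 (sub_nonneg.2 gy) (by linarith [H.g0 y]) k8 k9 h2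
  exact pr_ok h ι a θ w g A Φ c G H x y gx hx hy (by linarith [hb.1]) (by linarith [hb.2.1])
    (by linarith [hb.2.2.1]) (by linarith [hb.2.2.2]) q1.1 q1.2 q2.1 q2.2

noncomputable def sb (σ : ℕ → E) (e : E) : E :=
  E.rec σ E.c (fun _ _ p q => p + q) (fun _ _ p q => p - q) (fun _ _ p q => p * q) e

lemma sb_val (σ : ℕ → E) (x : ℕ → ℝ) (e : E) :
    (sb σ e).val x = e.val (fun i => (σ i).val x) := by
  induction e with
  | v i => rfl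
  | c z => rfl
  | a p q h1 h2 => show (sb σ p).val x + (sb σ q).val x = _; rw [h1, h2]; rfl
  | s p q h1 h2 => show (sb σ p).val x - (sb σ q).val x = _; rw [h1, h2]; rfl
  | m p q h1 h2 => show (sb σ p).val x * (sb σ q).val x = _; rw [h1, h2]; rfl

/-- the conditions `fs`, in the variables `a, θ, N u, N v`, close the goal -/
def Cl (N : ℤ) (R : ℝ → ℝ → ℝ → ℝ → Prop) (fs : List E) : Prop :=
  St4 (fun a θ u v _ _ => R a θ u v
    ∧ ∀ f ∈ fs, 0 ≤ f.val (fun j => [a, θ, N * u, N * v].getD j 0))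

/-- the form `c0 + c1 a + c2 θ + c3 U + c4 V + c5 θ U` -/
def fm (c0 c1 c2 c3 c4 c5 : ℤ) : E :=
  E.c c0 + E.c c1 * E.v 0 + E.c c2 * E.v 1 + E.c c3 * E.v 2 + E.c c4 * E.v 3
    + E.c c5 * (E.v 1 * E.v 2)

lemma fm_val (c0 c1 c2 c3 c4 c5 : ℤ) (a θ U V : ℝ) :
    (fm c0 c1 c2 c3 c4 c5).val (fun j => [a, θ, U, V].getD j 0)
      = c0 + c1 * a + c2 * θ + c3 * U + c4 * V + c5 * (θ * U) := rfl

noncomputable def clOK (p : Pm) (b : Bo) (z : Xy) (fs : List E) (ks : List Ck) : Bool :=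
  decide (b.a0 < b.a1 ∧ b.t0 < b.t1 ∧ z.x0 < z.x1 ∧ z.y0 < z.y1)
  && al2 (fun f k => ck b [2, 2, 1, 1] 1 1 0 1 [sb (fun j => [E.v 0, E.v 1,
    E.c p.N * E.v 0 + (E.c 1 - E.v 0) * ((Af.mk z.x0 p.α p.β).e + E.c (z.x1 - z.x0) * E.v 2),
    E.c p.N * E.v 0 - E.v 0 * ((Af.mk z.y0 p.γ p.δ).e + E.c (z.y1 - z.y0) * E.v 3)].getD j (E.c 0))
    f] [] k) fs ks

lemma mid {z0 z1 α β : ℤ} {a θ B y : ℝ} (k : z0 < z1) (B0 : 0 < B)
    (h : (Af.mk z0 α β).r a θ * B ≤ y ∧ y ≤ (Af.mk z1 α β).r a θ * B) :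
    ∃ μ, 0 ≤ μ ∧ μ ≤ 1 ∧ B * ((Af.mk z0 α β).r a θ + (z1 - z0) * μ) = y := by
  have d0 : (0 : ℝ) < z1 - z0 := by rw [sub_pos]; exact_mod_cast k
  have eX : (Af.mk z1 α β).r a θ = (Af.mk z0 α β).r a θ + (z1 - z0) := by unfold Af.r; ring
  obtain ⟨μ, hμ⟩ : ∃ μ, B * ((Af.mk z0 α β).r a θ + (z1 - z0) * μ) = y :=
    ⟨(y / B - (Af.mk z0 α β).r a θ) / (z1 - z0), by field_simp; ring⟩
  refine ⟨μ, ?_, ?_, hμ⟩
  · apply nonneg_of_mul_nonneg_right _ (mul_pos B0 d0)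
    linarith [h.1]
  · apply le_of_mul_le_mul_left _ (mul_pos B0 d0)
    rw [eX] at h; linarith [h.2]

lemma cl_ok {p : Pm} {R : ℝ → ℝ → ℝ → ℝ → Prop} {b : Bo} {z : Xy} {fs : List E} {ks : List Ck}
    (hc : Cl p.N R fs) (h : clOK p b z fs ks = true) : Cov2 p R b z := by
  intro ι _ _ a θ w g A Φ c G H x y gx gy hx hy ⟨hR, hb, h1, h2, _⟩
  unfold clOK at h
  rw [Bool.and_eq_true, decide_eq_true_eq] at h
  obtain ⟨⟨k1, k2, k3, k4⟩, h⟩ := h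
  obtain ⟨μ, μ0, μ1, hμ⟩ := mid k3 (show 0 < 1 - a by linarith [H.a1]) h1
  obtain ⟨ν, ν0, ν1, hν⟩ := mid k4 H.a0 h2
  refine hc ι a θ w g A Φ c G H x y gx gy hx hy ⟨hR.1, fun f hf => ?_⟩
  obtain ⟨k, hk⟩ := al2_ok h f hf
  obtain ⟨P, hP, q⟩ := ck_ok hk k1 k2 one_pos one_pos one_pos hb μ0 (ρ := ν) (by simpa using μ1)
    (by simpa using ν0) (by simpa using ν1) (fun C hC => absurd hC List.not_mem_nil)
  rw [List.mem_singleton.1 hP, sb_val] at q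
  convert q using 2
  funext j
  rcases j with _ | _ | _ | _ | j
  · rfl
  · rfl
  · simp only [List.getD_cons_zero, List.getD_cons_succ, val_add, val_sub, val_mul, val_c, val_v,
      Af.val]
    push_cast
    linarith
  · simp only [List.getD_cons_zero, List.getD_cons_succ, val_add, val_sub, val_mul, val_c, val_v,
      Af.val]
    push_cast
    linarith
  · simp [val_c]

/-- covers of the parameter box -/
inductive CT : Type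
  | sa : ℤ → CT → CT → CT
  | st : ℤ → CT → CT → CT
  | sx : ℤ → CT → CT → CT
  | sy : ℤ → CT → CT → CT
  | su : ℤ → CT → CT → CT
  | sv : ℤ → CT → CT → CT
  | cl : ℕ → List Ck → CT
  | p1 : ℤ → ℤ → ℤ → ℤ → ℤ → ℤ → ℤ → ℤ → Bool → Bool → ℤ → ℤ → List (Ck × Ck) → CT
  | p2 : ℤ → ℤ → Sd → Sd → List (Ck × Ck) → CT

noncomputable def CT.ok (p : Pm) (cls : List (List E)) (T : CT) : Bo → Xy → Bool :=
  CT.rec
    (fun m _ _ h1 h2 b z => h1 ⟨b.a0, m, b.t0, b.t1⟩ z && h2 ⟨m, b.a1, b.t0, b.t1⟩ z)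
    (fun m _ _ h1 h2 b z => h1 ⟨b.a0, b.a1, b.t0, m⟩ z && h2 ⟨b.a0, b.a1, m, b.t1⟩ z)
    (fun m _ _ h1 h2 b z => h1 b ⟨z.x0, m, z.y0, z.y1, z.u0, z.u1, z.v0, z.v1⟩
      && h2 b ⟨m, z.x1, z.y0, z.y1, z.u0, z.u1, z.v0, z.v1⟩)
    (fun m _ _ h1 h2 b z => h1 b ⟨z.x0, z.x1, z.y0, m, z.u0, z.u1, z.v0, z.v1⟩
      && h2 b ⟨z.x0, z.x1, m, z.y1, z.u0, z.u1, z.v0, z.v1⟩)
    (fun m _ _ h1 h2 b z => h1 b ⟨z.x0, z.x1, z.y0, z.y1, z.u0, m, z.v0, z.v1⟩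
      && h2 b ⟨z.x0, z.x1, z.y0, z.y1, m, z.u1, z.v0, z.v1⟩)
    (fun m _ _ h1 h2 b z => h1 b ⟨z.x0, z.x1, z.y0, z.y1, z.u0, z.u1, z.v0, m⟩
      && h2 b ⟨z.x0, z.x1, z.y0, z.y1, z.u0, z.u1, m, z.v1⟩)
    (fun i ks b z => decide (i < cls.length) && clOK p b z (cls.getD i []) ks)
    (fun a0 a1 t0 t1 x0 x1 y0 y1 f f' L K ks b z => p1OK p b z a0 a1 t0 t1 x0 x1 y0 y1 f f' L K ks)
    (fun L K s s' ks b z => p2OK p b z L K s s' ks) T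

theorem CT.sound (p : Pm) {R : ℝ → ℝ → ℝ → ℝ → Prop} (cls : List (List E))
    (hc : ∀ fs ∈ cls, Cl p.N R fs) (T : CT) :
    ∀ b z, T.ok p cls b z = true → Cov2 p R b z := by
  have cut : ∀ (m : ℤ) (w : ℝ), 1 ≤ w → 100 * w ≤ m → (0 : ℝ) ≤ m * (m - 100 * w) :=
    fun m w h1 h2 => mul_nonneg (by linarith) (by linarith)
  induction T with
  | sa m _ _ i1 i2 =>
    intro b z h ι _ _ a θ w g A Φ c G H x y gx gy hx hy ⟨hR, hb, hz⟩
    rcases le_total (1200 * a) m with e | e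
    · exact i1 _ _ (Bool.and_eq_true_iff.1 h).1 ι a θ w g A Φ c G H x y gx gy hx hy
        ⟨hR, ⟨hb.1, e, hb.2.2⟩, hz⟩
    · exact i2 _ _ (Bool.and_eq_true_iff.1 h).2 ι a θ w g A Φ c G H x y gx gy hx hy
        ⟨hR, ⟨e, hb.2⟩, hz⟩
  | st m _ _ i1 i2 =>
    intro b z h ι _ _ a θ w g A Φ c G H x y gx gy hx hy ⟨hR, hb, hz⟩
    rcases le_total (1200 * θ) m with e | e
    · exact i1 _ _ (Bool.and_eq_true_iff.1 h).1 ι a θ w g A Φ c G H x y gx gy hx hy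
        ⟨hR, ⟨hb.1, hb.2.1, hb.2.2.1, e⟩, hz⟩
    · exact i2 _ _ (Bool.and_eq_true_iff.1 h).2 ι a θ w g A Φ c G H x y gx gy hx hy
        ⟨hR, ⟨hb.1, hb.2.1, e, hb.2.2.2⟩, hz⟩
  | sx m _ _ i1 i2 =>
    intro b z h ι _ _ a θ w g A Φ c G H x y gx gy hx hy ⟨hR, hb, hz⟩
    rcases le_total (p.N * (g x - a)) ((Af.mk m p.α p.β).r a θ * (1 - a)) with e | e
    · exact i1 _ _ (Bool.and_eq_true_iff.1 h).1 ι a θ w g A Φ c G H x y gx gy hx hy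
        ⟨hR, hb, ⟨hz.1.1, e⟩, hz.2⟩
    · exact i2 _ _ (Bool.and_eq_true_iff.1 h).2 ι a θ w g A Φ c G H x y gx gy hx hy
        ⟨hR, hb, ⟨e, hz.1.2⟩, hz.2⟩
  | sy m _ _ i1 i2 =>
    intro b z h ι _ _ a θ w g A Φ c G H x y gx gy hx hy ⟨hR, hb, hz⟩
    rcases le_total (p.N * (a - g y)) ((Af.mk m p.γ p.δ).r a θ * a) with e | e
    · exact i1 _ _ (Bool.and_eq_true_iff.1 h).1 ι a θ w g A Φ c G H x y gx gy hx hy
        ⟨hR, hb, hz.1, ⟨hz.2.1.1, e⟩, hz.2.2⟩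
    · exact i2 _ _ (Bool.and_eq_true_iff.1 h).2 ι a θ w g A Φ c G H x y gx gy hx hy
        ⟨hR, hb, hz.1, ⟨e, hz.2.1.2⟩, hz.2.2⟩
  | su m _ _ i1 i2 =>
    intro b z h ι _ _ a θ w g A Φ c G H x y gx gy hx hy ⟨hR, hb, hz⟩
    rcases le_total (100 * w x) m with e | e
    · exact i1 _ _ (Bool.and_eq_true_iff.1 h).1 ι a θ w g A Φ c G H x y gx gy hx hy
        ⟨hR, hb, hz.1, hz.2.1, ⟨hz.2.2.1.1, cut _ _ (H.w1 x) e⟩, hz.2.2.2⟩
    · exact i2 _ _ (Bool.and_eq_true_iff.1 h).2 ι a θ w g A Φ c G H x y gx gy hx hy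
        ⟨hR, hb, hz.1, hz.2.1, ⟨e, hz.2.2.1.2⟩, hz.2.2.2⟩
  | sv m _ _ i1 i2 =>
    intro b z h ι _ _ a θ w g A Φ c G H x y gx gy hx hy ⟨hR, hb, hz⟩
    rcases le_total (100 * w y) m with e | e
    · exact i1 _ _ (Bool.and_eq_true_iff.1 h).1 ι a θ w g A Φ c G H x y gx gy hx hy
        ⟨hR, hb, hz.1, hz.2.1, hz.2.2.1, hz.2.2.2.1, cut _ _ (H.w1 y) e⟩
    · exact i2 _ _ (Bool.and_eq_true_iff.1 h).2 ι a θ w g A Φ c G H x y gx gy hx hy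
        ⟨hR, hb, hz.1, hz.2.1, hz.2.2.1, e, hz.2.2.2.2⟩
  | cl i ks =>
    intro b z h
    have h1 : i < cls.length := of_decide_eq_true (Bool.and_eq_true_iff.1 h).1
    refine cl_ok (hc _ ?_) (Bool.and_eq_true_iff.1 h).2
    rw [List.getD_eq_getElem _ _ h1]; exact List.getElem_mem _
  | p1 => intro b z h; exact p1_ok h
  | p2 => intro b z h; exact p2_ok h

end P18

end Pool.Agent.Lib.MP_43bc59_co
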