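import Pool.Agent.Lib.MP_43bc59_co.F_X1

set_option autoImplicit false

namespace Pool.Agent.Lib.MP_43bc59_co

open Finset

variable {ι : Type} [Fintype ι] [DecidableEq ι] {a θ : ℝ} {w g A Φ : ι → ℝ} {c G : ι → ι → ℝ}

/-- cost of the upper pivot -/
def Cc (θ ξ μ : ℝ) : ℝ := θ * (2 - θ) - 2 * (1 - θ) * μ - μ ^ 2 - ξ * (θ ^ 2 - μ ^ 2)

/-- first order part in `e` -/
def E0 (θ a e W h p z b ξ μ yy : ℝ) : ℝ :=
  (1 - a) * b + a * (1 - a) + θ ^ 2 * (z - h) - 2 * θ * (1 - θ) * h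
    + (1 - θ) ^ 2 * h ^ 2 * yy * (2 - yy * (z - h)) + W * (p - a * (1 - a) - Cc θ ξ μ * (1 - e))

/-- the common part of the slack -/
def Core (θ a e W h p z b gp o ξ μ yy n : ℝ) : ℝ :=
  -gp * b * (b + (a - (1 - θ))) + o * (1 - θ) * ((1 - a) * h)
    + e * (E0 θ a e W h p z b ξ μ yy - n * h)

/-- the pivots and their coordinates -/
structure HS (a θ : ℝ) (w g : ι → ℝ) (x y : ι) (e W h w' W' p d al z b z' b' gp o : ℝ) : Prop where
  hx : a < g x
  hy : g y < a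
  ymin : ∀ j, g y ≤ g j
  xmax : ∀ j, g j ≤ g x
  he : e = 1 - g x
  hW : W = w x
  W2 : W ≤ 2
  hh : h = g y
  hw' : w' = w y
  hW' : W' = min w' 2
  hp : p = 1 - e - a
  hd : d = a - h
  hal : θ * al = a * (1 - a)
  hz : z * (1 - a) = W * p + (2 - W) * a * e
  hb : b = a - θ * z
  hz' : z' * a = W' * d + (2 - W') * (1 - a) * h
  hb' : b' = 1 - a - θ * z'
  hg : θ * gp = 1 - a
  ho : z = 1 + o - e
  o0 : 0 ≤ o
  za : a < z
  bd : b < d

/-- the capacity block -/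
structure CB (θ a e W h d al z ξ μ n nb : ℝ) : Prop where
  ξ0 : 0 ≤ ξ
  ξ1 : ξ ≤ 1
  μ0 : 0 ≤ μ
  μ1 : μ ≤ θ
  n0 : 0 ≤ n
  nb0 : 0 ≤ nb
  K1 : 0 ≤ ((1 - ξ * e) * (θ ^ 2 - μ ^ 2) * W - n * (2 - W) * h - θ ^ 2 * (W - (2 - W) * h))
    * (z - h) ^ 2 + (1 - θ) ^ 2 * h ^ 2 * (W - (2 - W) * h)
  K3 : (W * ξ * θ ^ 2 + n * h) * (z - h) ≤ (θ * z - h) ^ 2
  K4 : n * (z - h) ^ 2 ≤ θ ^ 2 * (z - h) ^ 2 - (1 - θ) ^ 2 * h ^ 2
  K5 : (ξ = 0 ∧ nb = 0) ∨ ∃ t, (t = h ∨ al - d ≤ a - t) ∧ 0 ≤ t ∧ t < z ∧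
    0 ≤ ((1 - ξ) * (θ ^ 2 - μ ^ 2) * W - nb * (2 - W) * a - θ ^ 2 * (W - (2 - W) * t)) * (z - t) ^ 2
      + (1 - θ) ^ 2 * t ^ 2 * (W - (2 - W) * t)

/-- the optimal level at distance `t` -/
lemma lev_eq {θ z t : ℝ} (h : t < z) :
    ((θ * z - t) / (z - t)) * (z - t) = θ * z - t
      ∧ (θ - (θ * z - t) / (z - t)) * (z - t) = (1 - θ) * t
      ∧ (θ * z - t) / (z - t) * (2 * θ - (θ * z - t) / (z - t)) * (z - t) ^ 2
        = θ ^ 2 * (z - t) ^ 2 - (1 - θ) ^ 2 * t ^ 2 := by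
  have := (sub_pos.2 h).ne'
  refine ⟨?_, ?_, ?_⟩ <;> field_simp <;> ring

lemma cap_of {θ z t u R N : ℝ} (h : t < z)
    (hu : u * (2 * θ - u) * (z - t) ^ 2 = θ ^ 2 * (z - t) ^ 2 - (1 - θ) ^ 2 * t ^ 2)
    (K : 0 ≤ (R - θ ^ 2 * N) * (z - t) ^ 2 + (1 - θ) ^ 2 * t ^ 2 * N) :
    u * (2 * θ - u) * N ≤ R := by
  refine le_of_mul_le_mul_right ?_ (pow_pos (sub_pos.2 h) 2)
  have : u * (2 * θ - u) * N * (z - t) ^ 2 = (θ ^ 2 * (z - t) ^ 2 - (1 - θ) ^ 2 * t ^ 2) * N := by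
    rw [← hu]; ring
  linarith only [this, K]

section
variable {x y : ι} {e W h w' W' p d al z b z' b' gp o ξ μ n nb : ℝ}

/-- elementary consequences of the header -/
lemma HS.facts (H : Hyp a θ w g A Φ c G) (S : HS a θ w g x y e W h w' W' p d al z b z' b' gp o) :
    1 ≤ W ∧ 1 ≤ w' ∧ 1 ≤ W' ∧ W' ≤ 2 ∧ W' ≤ w' ∧ 0 ≤ e ∧ e ≤ 1 ∧ 0 ≤ h ∧ 0 < d ∧ 0 ≤ b ∧ 0 ≤ b'
      ∧ w' * d ≤ al ∧ 0 ≤ gp * b + a * e ∧ al - W * p ≤ gp * b + a * e
      ∧ (1 - a) * h ≤ al - d ∧ (2 - W') * ((1 - a) * h) ≤ al - w' * d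
      ∧ a * b' = θ * (al - W' * d - (2 - W') * ((1 - a) * h)) := by
  have W1 : 1 ≤ W := S.hW ▸ H.w1 x
  have w1 : 1 ≤ w' := S.hw' ▸ H.w1 y
  have W1' : 1 ≤ W' := S.hW' ▸ le_min w1 one_le_two
  have W2' : W' ≤ 2 := S.hW' ▸ min_le_right _ _
  have W3' : W' ≤ w' := S.hW' ▸ min_le_left _ _
  have e0 : 0 ≤ e := by linarith only [S.he, H.g1 x]
  have b0 := H.b_nonneg x S.he S.hW S.W2 S.hp S.hz S.hb
  have th := H.th0
  have gp0 : 0 ≤ gp := nonneg_of_mul_nonneg_right (S.hg ▸ (sub_pos.2 H.a1).le) th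
  have h1 : al = a * gp := by
    apply mul_left_cancel₀ th.ne'
    rw [S.hal, ← S.hg]; ring
  have h3 : gp * b = al - z * (1 - a) := by rw [S.hb, h1, ← S.hg]; ring
  have wd := H.wd_le y S.hal
  have gd := H.gap_down y S.hal
  rw [← S.hw', ← S.hh, ← S.hd] at wd gd
  refine ⟨W1, w1, W1', W2', W3', e0, by linarith only [S.he, H.g0 x], S.hh ▸ H.g0 y,
    by linarith only [S.hd, S.hh, S.hy], b0,
    H.b'_nonneg y S.hh S.hw' W1' W2' W3' S.hd S.hz' S.hb', wd,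
    add_nonneg (mul_nonneg gp0 b0) (mul_nonneg H.a0.le e0), ?_, ?_, S.hW' ▸ gd, ?_⟩
  · have := mul_nonneg (sub_nonneg.2 W1) (mul_nonneg H.a0.le e0)
    linarith only [this, h3, S.hz]
  · refine le_of_mul_le_mul_left ?_ th
    have := mul_le_mul_of_nonneg_left (H.pd y) H.a0.le
    rw [← S.hh] at this
    rw [mul_sub θ al, S.hal, S.hd]
    linarith only [this]
  · have : θ * (z' * a) = θ * (W' * d + (2 - W') * (1 - a) * h) := by rw [S.hz']
    rw [S.hb']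
    linarith only [this, S.hal]

/-- The common block: levels, capacities and the key bound. -/
lemma HS.common (H : Hyp a θ w g A Φ c G) (S : HS a θ w g x y e W h w' W' p d al z b z' b' gp o)
    (C : CB θ a e W h d al z ξ μ n nb) (yy : ℝ) :
    ∃ l ξ' uy J D2 uD : ℝ, 0 ≤ l ∧ l ≤ θ ∧ 0 ≤ ξ' ∧ ξ' ≤ 1 ∧ 0 ≤ uy ∧ uy ≤ θ
      ∧ n ≤ uy * (2 * θ - uy)
      ∧ ξ' * (l * (2 * θ - l)) * W ≤ (uy * (2 * θ - uy) - n) * (W - (2 - W) * h) + n * W
      ∧ ((W' = w' ∧ (uy * (2 * θ - uy) - n) * (W - (2 - W) * h) + n * W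
          ≤ (1 - ξ' * e) * (l * (2 * θ - l)) * W)
        ∨ (uy * (2 * θ - uy) - n) * (W - (2 - W) * h) + n * W ≤ (1 - ξ') * (l * (2 * θ - l)) * W)
      ∧ (d ≤ D2 ∨ al - d ≤ D2) ∧ D2 - b ≤ uD * (z - a + D2) ∧ 0 ≤ uD ∧ uD ≤ θ
      ∧ (∀ s, s ≤ nb → (s = 0 ∨ b ≤ D2) → uD * (2 * θ - uD) * (W - (2 - W) * (a - D2))
          + s * (2 - W) * a ≤ (1 - ξ') * (l * (2 * θ - l)) * W)
      ∧ 0 ≤ J ∧ (z - 1) * (d - b) ^ 2 ≤ J * d * (z - h)
      ∧ Core θ a e W h p z b gp o ξ μ yy n + w' * b ^ 2 ≤ (1 - θ) * al - W * p ^ 2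
        - W * (l * (2 - l) - ξ' * (l * (2 * θ - l)) * (2 - W')) * ((1 - e) * e)
        + w' * (-d ^ 2 + (1 - h) * (2 * uy * (d - b) - uy ^ 2 * (z - h)) - n * (2 - W) * h * e)
        - (2 * b + J) * (al - w' * d) := by
  obtain ⟨W1, w1, W1', W2', W3', e0, e1, h0, d0, b0, b0', wd, -⟩ := S.facts H
  have th := H.th0
  have a0 := H.a0
  have a1 := sub_pos.2 H.a1
  have τ0 : 0 < 1 - θ := by linarith only [H.th1]
  have W0 : 0 ≤ W := zero_le_one.trans W1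
  have V0 := sub_nonneg.2 S.W2
  have hz0 : h < z := by linarith only [S.za, S.hd, d0]
  have zh := sub_pos.2 hz0
  have X : d - b = θ * z - h := by linarith only [S.hd, S.hb]
  obtain ⟨u, u1, u2, u3⟩ : ∃ u, u * (z - h) = θ * z - h ∧ (θ - u) * (z - h) = (1 - θ) * h
      ∧ u * (2 * θ - u) * (z - h) ^ 2 = θ ^ 2 * (z - h) ^ 2 - (1 - θ) ^ 2 * h ^ 2 :=
    ⟨_, lev_eq hz0⟩
  have u0 : 0 ≤ u := nonneg_of_mul_nonneg_left (by linarith only [u1, X, S.bd]) zh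
  have uθ : u ≤ θ :=
    sub_nonneg.1 (nonneg_of_mul_nonneg_left (u2 ▸ mul_nonneg τ0.le h0) zh)
  obtain ⟨Sg, hS⟩ : ∃ Sg, Sg = θ ^ 2 - μ ^ 2 := ⟨_, rfl⟩
  have eS : (θ - μ) * (2 * θ - (θ - μ)) = Sg := by rw [hS]; ring
  have S0 : 0 ≤ Sg := eS ▸ mul_nonneg (sub_nonneg.2 C.μ1) (by linarith only [th, C.μ0])
  have SW := mul_nonneg S0 W0
  have nh := mul_nonneg C.n0 h0
  have nVh : 0 ≤ n * (2 - W) * h := mul_nonneg (mul_nonneg C.n0 V0) h0
  have nVh1 : n * (2 - W) * h ≤ n * h := by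
    linarith only [mul_nonneg nh (sub_nonneg.2 W1)]
  -- `U = u ^ 2 * (z - h)`
  have k3 : W * ξ * θ ^ 2 + n * h ≤ u ^ 2 * (z - h) := by
    refine le_of_mul_le_mul_right (C.K3.trans (le_of_eq ?_)) zh
    rw [← u1]; ring
  have k3' : ξ * Sg * W + n * h ≤ u ^ 2 * (z - h) := by
    have := mul_nonneg (mul_nonneg W0 C.ξ0) (sq_nonneg μ)
    rw [hS]; linarith only [this, k3]
  have k1 : u * (2 * θ - u) * (W - (2 - W) * h) ≤ (1 - ξ * e) * Sg * W - n * (2 - W) * h :=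
    cap_of hz0 u3 (hS ▸ C.K1)
  have ξS : 0 ≤ ξ * Sg * W := mul_nonneg (mul_nonneg C.ξ0 S0) W0
  have oW : o ≤ W - 1 := by
    refine le_of_mul_le_mul_right ?_ a1
    have f1 : o * (1 - a) = (W - 1) * (p - a * e) := by
      have := S.hz
      rw [S.ho, S.hp] at this
      rw [S.hp]; linarith only [this]
    rw [f1]
    exact mul_le_mul_of_nonneg_left (by linarith only [S.hp, e0, mul_nonneg a0.le e0])
      (sub_nonneg.2 W1)
  have c1 : ξ * Sg * W ≤ u * (2 * θ - u) * (W - (2 - W) * h) := by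
    have f1 : z - h ≤ W - (2 - W) * h := by
      linarith only [S.ho, oW, e0, mul_nonneg (sub_nonneg.2 W1) h0]
    have f2 : u ^ 2 ≤ u * (2 * θ - u) := by linarith only [mul_nonneg u0 (sub_nonneg.2 uθ)]
    have := mul_le_mul f2 f1 zh.le ((sq_nonneg u).trans f2)
    linarith only [this, k3', nh]
  -- the choice of `ξ'`
  obtain ⟨ξ', x0, x1, x2, x3⟩ : ∃ ξ', 0 ≤ ξ' ∧ ξ' ≤ ξ ∧
      ((W' = w' ∧ u * (2 * θ - u) * (W - (2 - W) * h) + n * (2 - W) * h ≤ (1 - ξ' * e) * Sg * W)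
        ∨ u * (2 * θ - u) * (W - (2 - W) * h) + n * (2 - W) * h ≤ (1 - ξ') * Sg * W) ∧
      u ^ 2 * (z - h) + ξ * Sg * W * (1 - e) - n * h
        ≤ w' * (u ^ 2 * (z - h)) + ξ' * Sg * W * (2 - W') * (1 - e) - w' * (n * (2 - W) * h) := by
    have f0 := mul_le_mul_of_nonneg_left nVh1 (zero_le_one.trans w1)
    have f2 := mul_nonneg ξS e0
    rcases le_total w' 2 with k | k
    · have k' : W' = w' := S.hW'.trans (min_eq_left k)
      refine ⟨ξ, C.ξ0, le_rfl, Or.inl ⟨k', by linarith only [k1]⟩, ?_⟩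
      have f1 := mul_nonneg (sub_nonneg.2 w1)
        (show 0 ≤ u ^ 2 * (z - h) - ξ * Sg * W * (1 - e) - n * h by linarith only [k3', f2])
      rw [k']; linarith only [f0, f1]
    · refine ⟨0, le_rfl, C.ξ0, Or.inr (by linarith only [k1, f2]), ?_⟩
      have f1 := mul_nonneg (sub_nonneg.2 k)
        (show 0 ≤ u ^ 2 * (z - h) - n * h by linarith only [k3', ξS])
      linarith only [f0, f1, f2, k3']
  have xS : (1 - ξ) * Sg * W ≤ (1 - ξ') * Sg * W := by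
    linarith only [mul_nonneg (sub_nonneg.2 x1) SW]
  -- the choice of `D2`
  obtain ⟨D2, uD, y1, y2, y3, y4, y5⟩ : ∃ D2 uD, (d ≤ D2 ∨ al - d ≤ D2)
      ∧ D2 - b ≤ uD * (z - a + D2) ∧ 0 ≤ uD ∧ uD ≤ θ ∧ ∀ s, s ≤ nb → (s = 0 ∨ b ≤ D2) →
        uD * (2 * θ - uD) * (W - (2 - W) * (a - D2)) + s * (2 - W) * a ≤ (1 - ξ) * Sg * W := by
    have Va := mul_nonneg V0 a0.le
    rcases C.K5 with ⟨k, k'⟩ | ⟨t, t1, t0, tz, k⟩
    · refine ⟨d, u, Or.inl le_rfl, ?_, u0, uθ, fun s s1 _ => ?_⟩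
      · rw [show z - a + d = z - h by linarith only [S.hd], u1, X]
      · have := mul_le_mul_of_nonneg_right (k' ▸ s1) Va
        rw [show a - d = h by linarith only [S.hd]]
        rw [k] at k1 ⊢
        linarith only [this, k1, nVh]
    · have hD : d ≤ a - t ∨ al - d ≤ a - t := t1.imp (fun f => by rw [f, S.hd]) id
      obtain ⟨v1, v2, v3⟩ := lev_eq (θ := θ) tz
      have zt := sub_pos.2 tz
      rcases le_or_gt b (a - t) with f | f
      · refine ⟨a - t, (θ * z - t) / (z - t), hD, ?_, ?_, ?_, fun s s1 _ => ?_⟩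
        · rw [show z - a + (a - t) = z - t by ring, v1]; linarith only [S.hb]
        · exact div_nonneg (by linarith only [f, S.hb]) zt.le
        · exact sub_nonneg.1 (nonneg_of_mul_nonneg_left (v2 ▸ mul_nonneg τ0.le t0) zt)
        · have f1 := cap_of tz v3 (hS ▸ k)
          have := mul_le_mul_of_nonneg_right s1 Va
          rw [sub_sub_cancel]
          linarith only [this, f1]
      · refine ⟨a - t, 0, hD, by linarith only [f], le_rfl, th.le, fun s _ s2 => ?_⟩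
        rw [s2.resolve_right (not_le.2 f)]
        linarith only [mul_nonneg (sub_nonneg.2 C.ξ1) SW]
  -- the choice of `J`
  have j0 : 0 ≤ θ * (d - b + θ * h) / a :=
    div_nonneg (mul_nonneg th.le (add_nonneg (sub_nonneg.2 S.bd.le) (mul_nonneg th.le h0))) a0.le
  have j1 : (d - b) ^ 2 ≤ θ * (d - b + θ * h) / a * d * (z - h) := by
    rw [div_mul_eq_mul_div, div_mul_eq_mul_div, le_div_iff₀ a0]
    have f1 : θ * (d - b + θ * h) * d * (z - h) - (d - b) ^ 2 * a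
        = h * (d - b) * b + θ * (1 - θ) * h ^ 2 * d := by
      have f2 : θ * (z - h) = d - b + (1 - θ) * h := by rw [X]; ring
      have f3 : a = d + h := by linarith only [S.hd]
      calc θ * (d - b + θ * h) * d * (z - h) - (d - b) ^ 2 * a
          = (d - b + θ * h) * d * (θ * (z - h)) - (d - b) ^ 2 * a := by ring
        _ = _ := by rw [f2, f3]; ring
    have f4 := mul_nonneg (mul_nonneg h0 (sub_nonneg.2 S.bd.le)) b0
    have f5 : 0 ≤ θ * (1 - θ) * h ^ 2 * d := by positivity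
    linarith only [f1, f4, f5]
  have j3 : θ * (d - b + θ * h) / a * al = a * (1 - a) - (1 - a) * (b + (1 - θ) * h) := by
    rw [div_mul_eq_mul_div, mul_right_comm, S.hal, S.hd]; field_simp; ring
  generalize θ * (d - b + θ * h) / a = j at j0 j1 j3
  have j2 : u ^ 2 * (z - h) ≤ j * d := by
    refine le_of_mul_le_mul_right (le_trans (le_of_eq ?_) j1) zh
    rw [X, ← u1]; ring
  have j4 := mul_le_mul_of_nonneg_left j2 (zero_le_one.trans w1)
  have j5 : (1 - a) * (b + (1 - θ) * h) ≤ a * (1 - a) - w' * (u ^ 2 * (z - h)) := by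
    linarith only [j3, j4, mul_le_mul_of_nonneg_left wd j0]
  obtain ⟨J, J0, hJ, hJ2⟩ : ∃ J, 0 ≤ J ∧ (z - 1) * (d - b) ^ 2 ≤ J * d * (z - h) ∧
      o * ((1 - a) * (b + (1 - θ) * h)) - e * (a * (1 - a) - w' * (u ^ 2 * (z - h)))
        ≤ (z - 1) * (a * (1 - a)) - J * al + w' * (J * d - (z - 1) * (u ^ 2 * (z - h))) := by
    have oe : z - 1 = o - e := by linarith only [S.ho]
    rcases le_total z 1 with k | k
    · refine ⟨0, le_rfl, ?_, ?_⟩
      · rw [zero_mul, zero_mul]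
        exact mul_nonpos_of_nonpos_of_nonneg (sub_nonpos.2 k) (sq_nonneg _)
      · rw [oe]; linarith only [mul_le_mul_of_nonneg_left j5 S.o0]
    · have Y0 := sub_nonneg.2 k
      refine ⟨(z - 1) * j, mul_nonneg Y0 j0, ?_, ?_⟩
      · linarith only [mul_le_mul_of_nonneg_left j1 Y0]
      · have f1 := mul_le_mul_of_nonneg_left j4 Y0
        rw [mul_assoc (z - 1) j al, j3]
        rw [oe] at f1 ⊢
        linarith only [f1, mul_le_mul_of_nonneg_left j5 e0]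
  refine ⟨θ - μ, ξ', u, J, D2, uD, sub_nonneg.2 C.μ1, sub_le_self _ C.μ0, x0, x1.trans C.ξ1, u0,
    uθ, ?_, ?_, ?_, y1, y2, y3, y4, fun s s1 s2 => eS ▸ (y5 s s1 s2).trans xS, J0, hJ, ?_⟩
  · exact le_of_mul_le_mul_right (u3 ▸ C.K4) (pow_pos zh 2)
  · rw [eS]; linarith only [c1, nVh, mul_nonneg (sub_nonneg.2 x1) SW]
  · rw [eS]
    exact x2.imp (fun k => ⟨k.1, by linarith only [k.2]⟩) fun k => by linarith only [k]
  · have be := base_eq S.hp S.hal S.hz S.hb S.hg th.ne'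
    have Zy : -d ^ 2 + (1 - h) * (2 * u * (d - b) - u ^ 2 * (z - h)) + (2 * b + J) * d
        = b ^ 2 + (J * d - (z - 1) * (u ^ 2 * (z - h))) := by
      have f1 : d = b + u * (z - h) := by linarith only [u1, X]
      rw [f1]; ring
    have Zw := congrArg (w' * ·) Zy
    have cU : θ ^ 2 * (z - h) - 2 * θ * (1 - θ) * h + (1 - θ) ^ 2 * h ^ 2 * yy * (2 - yy * (z - h))
        ≤ u ^ 2 * (z - h) := by
      have f1 := mul_nonneg (mul_nonneg (sq_nonneg (θ - u)) zh.le) (sq_nonneg (1 - yy * (z - h)))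
      rw [mul_assoc (2 * θ), ← mul_pow, ← u2]
      linarith only [f1]
    have cD : o * (1 - a) * b + gp * b * (1 - 2 * a)
        = -gp * b * (b + (a - (1 - θ))) + e * (1 - a) * b := by
      have f1 : θ * o = a - θ + θ * e - b := by rw [S.hb, S.ho]; ring
      have f2 := congrArg (gp * b * ·) f1
      rw [← S.hg]
      linarith only [f2]
    rw [eS, Core, E0, Cc, ← hS]
    linarith only [be, Zw, hJ2, mul_le_mul_of_nonneg_left x3 e0, mul_le_mul_of_nonneg_left cU e0,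
      cD]

/-- first core: no share, the upper rest is given up -/
theorem Hyp.S0 (H : Hyp a θ w g A Φ c G) (S : HS a θ w g x y e W h w' W' p d al z b z' b' gp o)
    (C : CB θ a e W h d al z ξ μ n 0) (yy Gn : ℝ)
    (hG : (Gn ≤ 2 * b ^ 2 ∧ (2 ≤ w' ∨ θ * b ≤ θ * ((1 - a) * h) + a * b')) ∨ Gn * d ≤ al * b ^ 2)
    (hF : 0 ≤ Core θ a e W h p z b gp o ξ μ yy n + Gn - (gp * b + a * e) ^ 2) :
    Goal a θ w g Φ c G := by
  obtain ⟨W1, w1, W1', W2', W3', e0, e1, h0, d0, b0, b0', wd, r0, rr, hH, gd, ab⟩ := S.facts H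
  obtain ⟨l, ξ', uy, J, D2, uD, l0, l1, x0, x1, u0, u1, n1, c1, c2, hD, hu, uD0, uD1, c3, J0, hJ,
    key⟩ := S.common H C yy
  obtain ⟨m, q, m0, bm, S3, S4, hq⟩ : ∃ m q, 0 < m ∧ b ≤ m ∧ (q ≤ 1 ∨ d ≤ m) ∧
      q * m ≤ al - w' * d ∧ Gn ≤ w' * b ^ 2 + q * b ^ 2 := by
    rcases hG with ⟨k, k'⟩ | k
    · rcases le_total 2 w' with f | f
      · exact ⟨d, 0, d0, S.bd.le, Or.inl zero_le_one, by linarith only [wd],
          by linarith only [k, mul_le_mul_of_nonneg_right f (sq_nonneg b)]⟩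
      rcases b0.eq_or_lt with f0 | f0
      · exact ⟨d, 0, d0, S.bd.le, Or.inl zero_le_one, by linarith only [wd],
          by rw [← f0] at k ⊢; linarith only [k]⟩
      have k2 : W' = w' := S.hW'.trans (min_eq_left f)
      refine ⟨b, 2 - w', f0, le_rfl, Or.inl (by linarith only [w1]), ?_, by linarith only [k]⟩
      rcases k' with k' | k'
      · rw [le_antisymm f k'] at wd ⊢; linarith only [wd]
      · refine le_of_mul_le_mul_left ?_ H.th0
        have f1 := mul_le_mul_of_nonneg_left k' (sub_nonneg.2 f)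
        have f2 := mul_nonneg (sub_nonneg.2 w1) (mul_nonneg H.a0.le b0')
        rw [k2] at ab
        linarith only [f1, f2, ab]
    · refine ⟨d, (al - w' * d) / d, d0, S.bd.le, Or.inr le_rfl, (div_mul_cancel₀ _ d0.ne').le,
        le_of_mul_le_mul_right (k.trans (le_of_eq ?_)) d0⟩
      have := d0.ne'
      field_simp; ring
  refine H.pivot1 x y S.hx S.hy S.ymin S.xmax S.he S.hW S.W2 S.hh S.hw' W1' W2' W3' S.hp S.hd S.hal
    S.hz S.hb S.hz' S.hb' rfl rfl S.za l ξ' uy n J D2 uD l0 l1 x0 x1 u0 u1 C.n0 n1 c1 c2 hD hu uD0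
    uD1 ?_ J0 hJ m q (b ^ 2) _ _ m0 S3 S4 (sq_nonneg b) (Or.inr ⟨bm, le_rfl⟩) rr (Or.inl le_rfl) ?_
  · linarith only [c3 0 le_rfl (Or.inl rfl)]
  · linarith only [key, hq, hF]

/-- the level of the upper rest -/
lemma lev_up {θ T rt rh b' k N N' R : ℝ} (T0 : 0 < T) (r0 : 0 ≤ rh) (rr : rh ≤ rt) (b0 : 0 ≤ b')
    (h1 : rt ≤ θ * (T + rt)) (NN : N ≤ N') (h2 : rt * (2 * θ * (T + rt) - rt) * N'
      + k * (T + rt) ^ 2 ≤ R * (T + rt) ^ 2) :
    rh - b' ≤ rt / (T + rt) * (T - b' + rh) ∧ 0 ≤ rt / (T + rt) ∧ rt / (T + rt) ≤ θ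
      ∧ rt / (T + rt) * (2 * θ - rt / (T + rt)) * N + k ≤ R := by
  have Q0 : 0 < T + rt := by linarith only [T0, r0, rr]
  have u0 := div_nonneg (r0.trans rr) Q0.le
  have u1 := (div_le_iff₀ Q0).2 h1
  refine ⟨?_, u0, u1, ?_⟩
  · rw [div_mul_eq_mul_div, le_div_iff₀ Q0]
    linarith only [mul_nonneg (show 0 ≤ rt - (rh - b') by linarith only [rr, b0]) T0.le]
  · have f1 := mul_le_mul_of_nonneg_left NN
      (mul_nonneg u0 (show 0 ≤ 2 * θ - rt / (T + rt) by linarith only [u0, u1]))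
    have f2 : rt / (T + rt) * (2 * θ - rt / (T + rt)) * N' + k ≤ R := by
      refine le_of_mul_le_mul_right (le_trans (le_of_eq ?_) h2) (pow_pos Q0 2)
      have := Q0.ne'
      field_simp
    linarith only [f1, f2]

lemma HS.z'_ge (H : Hyp a θ w g A Φ c G) (S : HS a θ w g x y e W h w' W' p d al z b z' b' gp o)
    (Hd : (1 - a) * h ≤ d) : 1 - a < z' := by
  have W1' := (S.facts H).2.2.1
  have f1 := mul_nonneg (sub_nonneg.2 W1') (sub_nonneg.2 Hd)
  have f2 : (1 - h) * a ≤ z' * a := by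
    rw [S.hz']; rw [S.hd] at f1 ⊢; linarith only [f1]
  linarith only [le_of_mul_le_mul_right f2 H.a0, S.hh, S.hy]

/-- second core: no share, the upper rest is paired with the lower pivot -/
theorem Hyp.S1 (H : Hyp a θ w g A Φ c G) (S : HS a θ w g x y e W h w' W' p d al z b z' b' gp o)
    (C : CB θ a e W h d al z ξ μ n 0) (yy rt Yq be : ℝ) (w2 : w' ≤ 2) (θa : θ ≤ a)
    (b1 : b ≤ 1 - a) (Hd : (1 - a) * h ≤ d) (bb : b' ≤ b - (1 - a) * h)
    (r1 : gp * b + a * e ≤ rt) (r2 : rt ≤ θ * ((1 - θ) * z' + rt))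
    (r3 : rt * (2 * θ * ((1 - θ) * z' + rt) - rt) * (w' - (2 - w') * (1 - a - rt))
      ≤ n * w' * ((1 - θ) * z' + rt) ^ 2)
    (Y0 : 0 ≤ Yq) (Y1 : (1 - θ - a) * (gp * b + a * e) ^ 2 ≤ Yq * θ * a) (be1 : b' ≤ be)
    (hF : 0 ≤ Core θ a e W h p z b gp o ξ μ yy n + b ^ 2 + 2 * b * ((1 - a) * h)
      - ((1 - a) * h) ^ 2 - Yq - 2 * be * (gp * b + a * e + (1 - a) * h - b)) :
    Goal a θ w g Φ c G := by
  obtain ⟨W1, w1, W1', W2', W3', e0, e1, h0, d0, b0, b0', wd, r0, rr, hH, gd, ab⟩ := S.facts H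
  obtain ⟨l, ξ', uy, J, D2, uD, l0, l1, x0, x1, u0, u1, n1, c1, c2, hD, hu, uD0, uD1, c3, J0, hJ,
    key⟩ := S.common H C yy
  have th := H.th0
  have a0 := H.a0
  have k2 : W' = w' := S.hW'.trans (min_eq_left w2)
  have H0 := mul_nonneg (sub_pos.2 H.a1).le h0
  have z1 := S.z'_ge H Hd
  have g1 : b - (1 - a) * h ≤ gp * b := by
    refine le_of_mul_le_mul_left ?_ th
    rw [← mul_assoc, S.hg]
    have pd := H.pd y
    rw [← S.hh] at pd
    have f1 := mul_le_mul_of_nonneg_right pd b0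
    have f2 := mul_le_mul_of_nonneg_left b1 (mul_nonneg th.le h0)
    linarith only [f1, f2]
  have ae := mul_nonneg a0.le e0
  have g2 : b - (1 - a) * h ≤ gp * b + a * e := by linarith only [g1, ae]
  generalize gp * b + a * e = rh at *
  generalize (1 - a) * h = Hh at *
  obtain ⟨m, q, Ψ, m0, S3, S4, Ψ0, hΨ, hq⟩ : ∃ m q Ψ, 0 < m ∧ (q ≤ 1 ∨ d ≤ m) ∧
      q * m ≤ al - w' * d ∧ 0 ≤ Ψ ∧ (Ψ ≤ 2 * b * m - m ^ 2 ∨ (b ≤ m ∧ Ψ ≤ b ^ 2)) ∧
      b ^ 2 + (2 * b * (Hh + b') - (Hh + b') ^ 2) ≤ w' * b ^ 2 + q * Ψ := by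
    rcases (add_nonneg H0 b0').eq_or_lt with f | f
    · refine ⟨d, 0, 0, d0, Or.inl zero_le_one, by linarith only [wd], le_rfl,
        Or.inr ⟨S.bd.le, sq_nonneg b⟩, ?_⟩
      rw [← f]; linarith only [mul_le_mul_of_nonneg_right w1 (sq_nonneg b)]
    · refine ⟨_, 2 - w', _, f, Or.inl (by linarith only [w1]), ?_, ?_, Or.inl le_rfl, ?_⟩
      · refine le_of_mul_le_mul_left ?_ th
        have f1 := mul_le_mul_of_nonneg_right θa b0'
        have f2 := mul_nonneg (sub_nonneg.2 w1) (mul_nonneg th.le b0')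
        rw [k2] at ab
        linarith only [f1, f2, ab]
      · linarith only [mul_nonneg f.le (show 0 ≤ 2 * b - (Hh + b') by linarith only [bb, b0])]
      · linarith only [mul_nonneg (sub_nonneg.2 w1) (sq_nonneg (b - (Hh + b')))]
  obtain ⟨v1, v2, v3, v4⟩ := lev_up (k := 0) (N := W' - (2 - W') * (1 - a - rh))
    (N' := w' - (2 - w') * (1 - a - rt)) (R := n * w') (T := (1 - θ) * z')
    (mul_pos (by linarith only [H.th1]) (by linarith only [z1, H.a1])) r0 r1 b0' r2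
    (by rw [k2]; linarith only [mul_le_mul_of_nonneg_left r1 (sub_nonneg.2 w2)])
    (by linarith only [r3])
  have θa0 := mul_pos th a0
  refine H.pivot1 x y S.hx S.hy S.ymin S.xmax S.he S.hW S.W2 S.hh S.hw' W1' W2' W3' S.hp S.hd S.hal
    S.hz S.hb S.hz' S.hb' rfl rfl S.za l ξ' uy n J D2 uD l0 l1 x0 x1 u0 u1 C.n0 n1 c1 c2 hD hu uD0
    uD1 ?_ J0 hJ m q Ψ (2 * b' * rh - b' ^ 2 + Yq) rh m0 S3 S4 Ψ0 hΨ rr
    (Or.inr ⟨_, max (1 - θ - a) 0 * rh / (θ * a), z1, by linarith only [bb, g2], ?_, v2, v3,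
      by linarith only [v4], div_nonneg (mul_nonneg (le_max_right _ _) r0) θa0.le, Or.inl ?_, ?_⟩)
    ?_
  · linarith only [c3 0 le_rfl (Or.inl rfl)]
  · rwa [show z' - 1 + a + rh = (1 - θ) * z' - b' + rh by rw [S.hb']; ring]
  · rw [div_mul_eq_mul_div, le_div_iff₀ θa0]
    have f1 : θ * (z' - 1) ≤ max (1 - θ - a) 0 :=
      le_trans (by linarith only [S.hb', b0']) (le_max_left _ _)
    linarith only [mul_le_mul_of_nonneg_right f1 (mul_nonneg r0 a0.le)]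
  · rw [add_le_add_iff_left, div_mul_eq_mul_div, div_le_iff₀ θa0, mul_assoc, max_mul_of_nonneg _ _
      (mul_nonneg r0 r0)]
    exact max_le (by linarith only [Y1]) (by linarith only [mul_nonneg Y0 θa0.le])
  · linarith only [key, hq, hF, mul_le_mul_of_nonneg_right be1 (sub_nonneg.2 g2)]

/-- the hypotheses common to the two cores with shares -/
structure C2 (θ a e d al z b gp n nb k k1 RB ρ : ℝ) : Prop where
  b0 : 0 < b
  rb : gp * b + a * e ≤ RB * b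
  τa : 1 - θ ≤ a
  k0 : 0 ≤ k
  kR : k * RB ≤ k1
  k11 : k1 ≤ 1
  kb : k1 * b < 1
  knb : 2 * θ * k1 * b ≤ nb
  kn : 2 * θ * k1 * b ≤ n
  kρ : k1 * (1 - θ) * z ≤ ρ * (1 - k1 * b)
  bρ : b * (1 + ρ) ≤ d
  hY : 2 * θ * k * RB * (1 - k1 * b + k1 * (1 - θ) * z) ≤ 1 - k1 * b
  hS : ∀ s, 0 ≤ s → s ≤ k1 → (1 - b * s) * (1 + s * (2 * θ - b * s) * RB)
    ≤ (2 - 2 * θ * k * RB) * (1 - b * s + s * (1 - θ) * z)
  hL : e * k1 * (2 * b + 2 * θ * a) ≤ b
  N1 : ∀ t, 0 ≤ t → t ≤ gp * b + a * e →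
    1 ≤ 2 * k * (2 * θ + 2 * a - 1 + t) - k ^ 2 * (2 * t + al - (a + t) * (1 - a - t))

variable {k k1 RB ρ : ℝ}

lemma C2.X_le (D : C2 θ a e d al z b gp n nb k k1 RB ρ) {X : ℝ}
    (hX : X * (1 - k1 * b) ≤ k1 * b * ((1 - θ) * z)) : b + X ≤ b * (1 + ρ) := by
  have f1 := mul_le_mul_of_nonneg_left D.kρ D.b0.le
  have : X ≤ b * ρ := le_of_mul_le_mul_right (by linarith only [f1, hX]) (sub_pos.2 D.kb)
  linarith only [this]

/-- the cores with shares, at the level `b * s` -/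
lemma Hyp.S2 (H : Hyp a θ w g A Φ c G) (S : HS a θ w g x y e W h w' W' p d al z b z' b' gp o)
    (C : CB θ a e W h d al z ξ μ n nb) (D : C2 θ a e d al z b gp n nb k k1 RB ρ) (yy s X et : ℝ)
    (s0 : 0 ≤ s) (s1 : s ≤ k1) (X0 : 0 ≤ X) (hX : X * (1 - b * s) = b * s * ((1 - θ) * z))
    (XR : b + X ≤ al - d) (S4 : (2 - W') * (b + X) ≤ al - w' * d) (et0 : 0 ≤ et)
    (hAB : k * (gp * b + a * e) ≤ b * s
      ∨ (1 - a < z' ∧ 2 * b' - b * s * (2 * θ - b * s) ≤ et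
        ∧ k ^ 2 * (2 * (gp * b + a * e) + al) ≤ 1
        ∧ ∃ uP, gp * b + a * e - b' ≤ uP * (z' - 1 + a + (gp * b + a * e)) ∧ b * s ≤ uP ∧ uP ≤ θ
        ∧ uP * (2 * θ - uP) * (W' - (2 - W') * (1 - a - (gp * b + a * e)))
          + b * s * (2 * θ - b * s) * (w' - (W' - (2 - W') * (1 - a))) ≤ n * w'))
    (hF : 0 ≤ Core θ a e W h p z b gp o ξ μ yy n + 2 * b ^ 2 - e * (b * s) * (2 * b + 2 * θ * a)
      - et * (gp * b + a * e)) : Goal a θ w g Φ c G := by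
  obtain ⟨W1, w1, W1', W2', W3', e0, e1, h0, d0, -, b0', wd, r0, rr, hH, gd, ab⟩ := S.facts H
  obtain ⟨l, ξ', uy, J, D2, uD, l0, l1, x0, x1, u0, u1, n1, c1, c2, hD, hu, uD0, uD1, c3, J0, hJ,
    key⟩ := S.common H C yy
  have th := H.th0
  have a0 := H.a0
  have b0 := D.b0
  have rb := D.rb
  have N1 := D.N1
  generalize gp * b + a * e = rh at *
  have T0 : 0 < (1 - θ) * z := mul_pos (by linarith only [H.th1]) (a0.trans S.za)
  have za := sub_pos.2 S.za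
  have bs0 := mul_nonneg b0.le s0
  have bs1 := mul_le_mul_of_nonneg_left s1 b0.le
  have bs2 : 0 < 1 - b * s := by linarith only [bs1, D.kb]
  have hX1 : X * (1 - k1 * b) ≤ k1 * b * ((1 - θ) * z) := by
    linarith only [hX, mul_le_mul_of_nonneg_left bs1 X0, mul_le_mul_of_nonneg_right bs1 T0.le]
  have md := (D.X_le hX1).trans D.bρ
  have mD : b + X ≤ D2 := hD.elim md.trans XR.trans
  have hub : b * s * (z - a + (b + X)) = b + X - b := by
    rw [show z - a + (b + X) = (1 - θ) * z + X by rw [S.hb]; ring]; linarith only [hX]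
  have ub1 : b * s ≤ uD := by
    refine le_trans ?_ (um_le b0.le za (add_nonneg b0.le X0) mD uD0 hu)
    rw [le_div_iff₀ (by linarith only [za, b0, X0]), hub]
    exact le_max_left _ _
  have sb0 : 0 ≤ 2 * θ - b * s := by linarith only [ub1, uD1, th]
  have sb1 : b * s * (2 * θ - b * s) ≤ 2 * θ * k1 * b := by
    linarith only [mul_le_mul_of_nonneg_left bs1 th.le, mul_self_nonneg (b * s)]
  have RB0 : 0 ≤ RB := nonneg_of_mul_nonneg_left (r0.trans rb) b0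
  have θk := mul_nonneg th.le D.k0
  have m0 := add_pos_of_pos_of_nonneg b0 X0
  have La0 : 0 ≤ b * s * (2 * θ - b * s) * (2 - W) * a * e :=
    mul_nonneg (mul_nonneg (mul_nonneg (mul_nonneg bs0 sb0) (sub_nonneg.2 S.W2)) a0.le) e0
  have La1 : b * s * (2 * θ - b * s) * (2 - W) * a * e ≤ e * (b * s) * (2 * θ * a) := by
    have f0 := mul_nonneg (mul_nonneg bs0 a0.le) e0
    have f1 := mul_nonneg (mul_nonneg f0 sb0) (sub_nonneg.2 W1)
    linarith only [f1, mul_nonneg f0 bs0]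
  have ebs := mul_nonneg (mul_nonneg e0 b0.le) bs0
  refine H.pivot2 x y S.hx S.hy S.ymin S.xmax S.he S.hW S.W2 S.hh S.hw' W1' W2' W3' S.hp S.hd S.hal
    S.hz S.hb S.hz' S.hb' rfl rfl S.za l ξ' uy n J D2 uD (b * s) l0 l1 x0 x1 u0 u1 C.n0 n1 c1 c2 hD
    hu uD1 (c3 _ (sb1.trans D.knb) (Or.inr (by linarith only [mD, X0]))) J0 hJ (b + X) k rh (2 - W')
    e _ et m0 (by linarith only [X0]) hub ub1 ?_ (by linarith only [W1']) S4
    (by linarith only [W3']) rr D.k0 ?_ ?_ e0 (by linarith only [S.ho, S.o0]) le_rfl ?_ N1 et0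
    (hAB.imp (fun f => ⟨f, sb1.trans D.kn⟩) fun f => ⟨f.1, ?_, D.τa, f.2⟩) ?_
  · have f1 : s * (b + X) ≤ 1 * 1 := mul_le_mul (s1.trans D.k11)
      (by linarith only [md, S.hd, h0, H.a1]) m0.le zero_le_one
    linarith only [mul_le_mul_of_nonneg_left f1 b0.le, b0]
  · refine le_of_mul_le_mul_right ?_ (sub_pos.2 D.kb)
    have f1 := mul_le_mul_of_nonneg_left D.hY (sq_nonneg b)
    have f2 := mul_le_mul_of_nonneg_left rb (mul_nonneg (mul_nonneg θk m0.le) (sub_pos.2 D.kb).le)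
    have f3 := mul_le_mul_of_nonneg_left hX1 (mul_nonneg (mul_nonneg θk RB0) b0.le)
    linarith only [f1, f2, f3]
  · refine le_of_mul_le_mul_right ?_ bs2
    have f1 := mul_le_mul_of_nonneg_left (D.hS s s0 s1) (sq_nonneg b)
    have f2 := mul_le_mul_of_nonneg_left rb (mul_nonneg (mul_nonneg θk m0.le) bs2.le)
    have f3 := mul_le_mul_of_nonneg_left rb (mul_nonneg (mul_nonneg bs0 sb0) bs2.le)
    have f4 := congrArg ((2 - 2 * θ * k * RB) * b * ·) hX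
    linarith only [f1, f2, f3, f4]
  · have f1 := mul_le_mul_of_nonneg_left D.hL b0.le
    have f2 := mul_le_mul_of_nonneg_left bs1
      (mul_nonneg e0 (show 0 ≤ 2 * b + 2 * θ * a by positivity))
    linarith only [f1, f2, La1]
  · refine le_of_mul_le_mul_left ?_ th
    linarith only [S.hb', b0', D.τa]
  · have f1 := mul_le_mul_of_nonneg_right W3' (sq_nonneg b)
    have f2 := mul_nonneg (sub_nonneg.2 W1') (add_nonneg ebs (add_nonneg ebs La0))
    linarith only [key, hF, f1, f2, La1]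

/-- third core -/
theorem Hyp.S2A (H : Hyp a θ w g A Φ c G) (S : HS a θ w g x y e W h w' W' p d al z b z' b' gp o)
    (C : CB θ a e W h d al z ξ μ n nb) (D : C2 θ a e d al z b gp n nb k k1 RB ρ) (yy : ℝ)
    (hA : 2 ≤ w' ∨ b * (1 + ρ) ≤ (1 - a) * h)
    (hF : 0 ≤ Core θ a e W h p z b gp o ξ μ yy n + 2 * b ^ 2
      - e * k1 * b * (2 * b + 2 * θ * a)) : Goal a θ w g Φ c G := by
  obtain ⟨W1, w1, W1', W2', W3', e0, e1, h0, d0, b0, b0', wd, r0, rr, hH, gd, ab⟩ := S.facts H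
  have T0 : 0 < (1 - θ) * z := mul_pos (by linarith only [H.th1]) (H.a0.trans S.za)
  have kb := sub_pos.2 D.kb
  have RB0 : 0 ≤ RB := nonneg_of_mul_nonneg_left (r0.trans D.rb) D.b0
  have k0 := (mul_nonneg D.k0 RB0).trans D.kR
  have hX := div_mul_cancel₀ (k1 * b * ((1 - θ) * z)) kb.ne'
  have md := D.X_le hX.le
  refine H.S2 S C D yy k1 (k1 * b * ((1 - θ) * z) / (1 - k1 * b)) 0 k0 le_rfl
    (div_nonneg (by positivity) kb.le) (by rw [mul_comm b k1, hX]) ?_ ?_ le_rfl (Or.inl ?_)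
    (by linarith only [hF])
  · rcases hA with f | f
    · linarith only [md, D.bρ, wd, mul_le_mul_of_nonneg_right f d0.le]
    · linarith only [md, f, hH]
  · rcases hA with f | f
    · rw [S.hW', min_eq_right f]; linarith only [wd]
    · exact (mul_le_mul_of_nonneg_left (md.trans f) (sub_nonneg.2 W2')).trans gd
  · linarith only [mul_le_mul_of_nonneg_left D.rb D.k0, mul_le_mul_of_nonneg_right D.kR b0]

/-- fourth core -/
theorem Hyp.S2B (H : Hyp a θ w g A Φ c G) (S : HS a θ w g x y e W h w' W' p d al z b z' b' gp o)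
    (C : CB θ a e W h d al z ξ μ n nb) (D : C2 θ a e d al z b gp n nb k k1 RB ρ)
    (yy rt η ubar : ℝ) (w2 : w' ≤ 2) (Hd : (1 - a) * h ≤ d)
    (bM : θ * b ≤ θ * ((1 - a) * h) + a * b') (ka : k1 * a * (2 * θ + 1) ≤ 2 * θ)
    (kk : k ^ 2 * (2 * (gp * b + a * e) + al) ≤ 1)
    (r1 : gp * b + a * e ≤ rt) (r2 : rt ≤ θ * ((1 - θ) * z' + rt))
    (kQ : k * ((1 - θ) * z' + rt) ≤ 1)
    (r3 : rt * (2 * θ * ((1 - θ) * z' + rt) - rt) * (w' - (2 - w') * (1 - a - rt))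
      + 2 * θ * k * rt * (2 - w') * (1 - a) * ((1 - θ) * z' + rt) ^ 2
      ≤ n * w' * ((1 - θ) * z' + rt) ^ 2) (η0 : 0 ≤ η)
    (hη : ∀ X, 0 ≤ X → X ≤ al - d - b → X * (1 - k1 * b) ≤ k1 * b * (1 - θ) * z →
      2 * (b - (1 - a) * h) * θ * (1 - θ) * z + 2 * (1 - 2 * θ) * X * a ≤ η * a * (1 - θ) * z)
    (hub : k1 * b ≤ ubar ∨ al - d - b ≤ ubar * (1 - θ) * z)
    (hF : 0 ≤ Core θ a e W h p z b gp o ξ μ yy n + 2 * b ^ 2 - e * ubar * (2 * b + 2 * θ * a)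
      - η * (gp * b + a * e)) : Goal a θ w g Φ c G := by
  obtain ⟨W1, w1, W1', W2', W3', e0, e1, h0, d0, -, b0', wd, r0, rr, hH, gd, ab⟩ := S.facts H
  have th := H.th0
  have a0 := H.a0
  have b0 := D.b0
  have τ0 : 0 < 1 - θ := by linarith only [H.th1]
  have T0 : 0 < (1 - θ) * z := mul_pos τ0 (a0.trans S.za)
  have kb := sub_pos.2 D.kb
  have RB0 : 0 ≤ RB := nonneg_of_mul_nonneg_left (r0.trans D.rb) b0
  have k0 := (mul_nonneg D.k0 RB0).trans D.kR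
  have k2 : W' = w' := S.hW'.trans (min_eq_left w2)
  have z1 := S.z'_ge H Hd
  have kr : k * (gp * b + a * e) ≤ k1 * b := by
    linarith only [mul_le_mul_of_nonneg_left D.rb D.k0, mul_le_mul_of_nonneg_right D.kR b0.le]
  -- the threshold
  obtain ⟨X, X0, X1, X2, X3⟩ : ∃ X, 0 ≤ X ∧ X * (1 - k1 * b) ≤ k1 * b * ((1 - θ) * z)
      ∧ θ * (b + X) ≤ θ * ((1 - a) * h) + a * b'
      ∧ (X * (1 - k1 * b) = k1 * b * ((1 - θ) * z) ∨ θ * (b + X) = θ * ((1 - a) * h) + a * b') := by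
    have f1 := div_mul_cancel₀ (k1 * b * ((1 - θ) * z)) kb.ne'
    have f2 := mul_div_cancel₀ (θ * ((1 - a) * h) + a * b' - θ * b) th.ne'
    rcases le_total (k1 * b * ((1 - θ) * z) / (1 - k1 * b))
      ((θ * ((1 - a) * h) + a * b' - θ * b) / θ) with f | f
    · exact ⟨_, div_nonneg (by positivity) kb.le, f1.le,
        by linarith only [f2, mul_le_mul_of_nonneg_left f th.le], Or.inl f1⟩
    · exact ⟨_, div_nonneg (sub_nonneg.2 bM) th.le,
        by linarith only [f1, mul_le_mul_of_nonneg_right f kb.le], by linarith only [f2],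
        Or.inr (by linarith only [f2])⟩
  have TX : 0 < (1 - θ) * z + X := add_pos_of_pos_of_nonneg T0 X0
  obtain ⟨s, hs⟩ : ∃ s, b * s * ((1 - θ) * z + X) = X :=
    ⟨X / ((1 - θ) * z + X) / b, by rw [mul_div_cancel₀ _ b0.ne', div_mul_cancel₀ _ TX.ne']⟩
  have bs0 : 0 ≤ b * s := nonneg_of_mul_nonneg_left (hs.symm ▸ X0) TX
  have bs1 : b * s ≤ b * k1 := le_of_mul_le_mul_right (by linarith only [hs, X1]) TX
  have XR : b + X ≤ al - d := by
    refine le_of_mul_le_mul_left ?_ th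
    have f1 := mul_nonneg th.le (mul_nonneg (sub_nonneg.2 W1') (sub_nonneg.2 Hd))
    linarith only [f1, X2, ab]
  refine H.S2 S C D yy s X η (nonneg_of_mul_nonneg_right bs0 b0) (le_of_mul_le_mul_left bs1 b0) X0
    (by linarith only [hs]) XR ?_ η0 ?_ ?_
  · refine le_of_mul_le_mul_left ?_ th
    have f1 := mul_le_mul_of_nonneg_left X2 (sub_nonneg.2 W2')
    have f2 := mul_nonneg (sub_nonneg.2 W1') (mul_nonneg a0.le b0')
    rw [← k2]
    linarith only [f1, f2, ab]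
  · refine (le_or_gt _ _).imp id fun f => ⟨z1, ?_, kk, ?_⟩
    · have X4 := X3.resolve_left fun f1 => by
        have : k1 * b ≤ b * s := le_of_mul_le_mul_right (by linarith only [hs, f1]) TX
        linarith only [this, f, kr]
      have f1 := hη X X0 (by linarith only [XR]) (by linarith only [X1])
      refine le_of_mul_le_mul_right ?_ (mul_pos a0 T0)
      have f2 : a * (2 * θ + 1) * (b * s) ≤ 2 * (1 - θ) * b := by
        have g1 := mul_le_mul_of_nonneg_left bs1 (show 0 ≤ a * (2 * θ + 1) by positivity)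
        have g2 := mul_le_mul_of_nonneg_left ka b0.le
        linarith only [g1, g2, mul_le_mul_of_nonneg_left H.th1 b0.le]
      have f3 : 2 * θ * ((1 - θ) * z) - (1 - b * s) * (2 * θ - b * s) * a
          ≤ 2 * (1 - 2 * θ) * a := by
        have g1 := congrArg ((1 - θ) * ·) S.hb
        linarith only [f2, g1, mul_nonneg a0.le (mul_self_nonneg (b * s))]
      have f4 := mul_le_mul_of_nonneg_left f3 X0
      have f5 := congrArg ((2 * θ - b * s) * a * ·) hs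
      have f6 := congrArg ((1 - θ) * z * ·) X4
      linarith only [f1, f4, f5, f6]
    · have Q0 : 0 < (1 - θ) * z' := mul_pos τ0 (by linarith only [z1, H.a1])
      obtain ⟨v1, v2, v3, v4⟩ := lev_up (N := W' - (2 - W') * (1 - a - (gp * b + a * e))) Q0 r0 r1
        b0' r2 (by rw [k2]; linarith only [mul_le_mul_of_nonneg_left r1 (sub_nonneg.2 w2)]) r3
      have f1 : b * s ≤ k * rt := f.le.trans (mul_le_mul_of_nonneg_left r1 D.k0)
      refine ⟨_, ?_, f1.trans ?_, v3, le_trans ?_ v4⟩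
      · rwa [show z' - 1 + a + (gp * b + a * e) = (1 - θ) * z' - b' + (gp * b + a * e) by
          rw [S.hb']; ring]
      · rw [le_div_iff₀ (by linarith only [Q0, r0, r1])]
        linarith only [mul_le_mul_of_nonneg_left kQ (r0.trans r1)]
      · have f2 : b * s * (2 * θ - b * s) ≤ 2 * θ * k * rt := by
          linarith only [mul_le_mul_of_nonneg_left f1 th.le, mul_self_nonneg (b * s)]
        have f3 := mul_le_mul_of_nonneg_right f2
          (mul_nonneg (sub_nonneg.2 w2) (sub_pos.2 H.a1).le)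
        rw [k2]
        linarith only [f3]
  · have f1 : b * s ≤ ubar := by
      rcases hub with f | f
      · linarith only [bs1, f]
      · exact le_of_mul_le_mul_right (by linarith only [hs, f, XR, mul_nonneg bs0 X0]) T0
    have f2 := mul_le_mul_of_nonneg_left f1
      (mul_nonneg e0 (show 0 ≤ 2 * b + 2 * θ * a by positivity))
    linarith only [f2, hF]

end

end Pool.Agent.Lib.MP_43bc59_co
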