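import Pool.Agent.Lib.MP_43bc59_co.F_SC

set_option autoImplicit false
set_option linter.unusedVariables false

namespace Pool.Agent.Lib.MP_43bc59_co.F_SC

/-- coordinates of the strip zone -/
structure Pt (θ b o e h ω z a W : ℝ) : Prop where
  hz : z = 1 + o - e
  ha : a = θ * z + b
  hW : W = 1 + o * ω
  t0 : 93 / 200 ≤ θ
  t1 : θ ≤ 1 / 2
  b0 : 0 ≤ b
  b2 : b ≤ 3 / 25
  o0 : 0 ≤ o
  o1 : o ≤ 6 / 25
  e0 : 0 ≤ e
  e1 : e ≤ 3 / 100
  h0 : 0 ≤ h
  h1 : h ≤ 1 / 2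
  w0 : 1 ≤ ω
  w1 : ω ≤ 23 / 20

theorem wLK1 {θ b o e h ω z a W : ℝ} (P : Pt θ b o e h ω z a W) {X M : ℝ}
    (hX : X = ((((40 * θ) + (32 * b)) + (13 * o)) - (30 * h)) - 10)
    (hM : M = h * (((((132 * θ) + (90 * b)) - (45 * h)) - (32 * o)) - 39))
    (b1 : b ≤ 11 / 100)
    (hu : h ≤ 7 / 25)
    (sE : 0 ≤ h - e)
    (sA : 0 ≤ ((14 * θ) - 1) - (10 * a))
    (Rb : 0 ≤ (θ * (h - b)) - (a * (a - (1 - θ))))
    (sb : 0 ≤ (17 - (30 * θ)) - (30 * b))
    :
    0 ≤ (((((20 - (X * e)) * ((400 * (θ * θ)) - (M * M))) * W) - (8000 * ((θ * θ) * (W - ((2 - W)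
    * h))))) * ((z - h) * (z - h))) + (8000 * (((((1 - θ) * (1 - θ)) * h) * h) * (W - ((2 - W) *
    h)))) := by
  obtain ⟨hz, ha, hW, t0, t1, b0, b2, o0, o1, e0, e1, h0, h1, w0, w1⟩ := P
  subst hM hX hW ha hz
  exact LK1 θ b o e h ω (by linarith) (by linarith) (by linarith) (by linarith) (by linarith)
    (by linarith) (by linarith) (by linarith) (by linarith) (by linarith) (by linarith) (by
    linarith) sE sA Rb (mul_nonneg h0 sb)

theorem wLK3 {θ b o e h ω z a W : ℝ} (P : Pt θ b o e h ω z a W) {X : ℝ}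
    (hX : X = ((((40 * θ) + (32 * b)) + (13 * o)) - (30 * h)) - 10)
    (b1 : b ≤ 11 / 100)
    (hu : h ≤ 7 / 25)
    (sA : 0 ≤ ((14 * θ) - 1) - (10 * a))
    (sb : 0 ≤ (17 - (30 * θ)) - (30 * b))
    :
    0 ≤ (20 * (((θ * z) - h) * ((θ * z) - h))) - ((((W * X) * θ) * θ) * (z - h)) := by
  obtain ⟨hz, ha, hW, t0, t1, b0, b2, o0, o1, e0, e1, h0, h1, w0, w1⟩ := P
  subst hX hW ha hz
  exact LK3 θ b o e h ω (by linarith) (by linarith) (by linarith) (by linarith) (by linarith)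
    (by linarith) (by linarith) (by linarith) (by linarith) (by linarith) (by linarith) (by
    linarith) sA sb

theorem wLK5 {θ b o e h ω z a W : ℝ} (P : Pt θ b o e h ω z a W) {X M : ℝ}
    (hX : X = ((((40 * θ) + (32 * b)) + (13 * o)) - (30 * h)) - 10)
    (hM : M = h * (((((132 * θ) + (90 * b)) - (45 * h)) - (32 * o)) - 39))
    (b1 : b ≤ 11 / 100)
    (hu : h ≤ 7 / 25)
    :
    0 ≤ (((25 * (((20 - X) * ((400 * (θ * θ)) - (M * M))) * W)) - (8000 * ((θ * θ) * ((25 * W) -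
    ((2 - W) * ((25 * (((2 * a) - h) - (1 - θ))) - (1 - (2 * θ)))))))) * (((25 * z) - ((25 * (((2
    * a) - h) - (1 - θ))) - (1 - (2 * θ)))) * ((25 * z) - ((25 * (((2 * a) - h) - (1 - θ))) - (1
    - (2 * θ)))))) + (8000 * (((((1 - θ) * (1 - θ)) * ((25 * (((2 * a) - h) - (1 - θ))) - (1 - (2
    * θ)))) * ((25 * (((2 * a) - h) - (1 - θ))) - (1 - (2 * θ)))) * ((25 * W) - ((2 - W) * ((25 *
    (((2 * a) - h) - (1 - θ))) - (1 - (2 * θ))))))) ∨ 0 ≤ 15625 * ((((1 * (((20 - X) * ((400 * (θ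
    * θ)) - (M * M))) * W)) - (8000 * ((θ * θ) * (W - ((2 - W) * h))))) * ((z - h) * (z - h))) +
    (8000 * (((((1 - θ) * (1 - θ)) * h) * h) * (W - ((2 - W) * h))))) := by
  obtain ⟨hz, ha, hW, t0, t1, b0, b2, o0, o1, e0, e1, h0, h1, w0, w1⟩ := P
  subst hM hX hW ha hz
  exact LK5 θ b o e h ω (by linarith) (by linarith) (by linarith) (by linarith) (by linarith)
    (by linarith) (by linarith) (by linarith) (by linarith) (by linarith) (by linarith) (by
    linarith)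

theorem wHK1 {θ b o e h ω z a W : ℝ} (P : Pt θ b o e h ω z a W) {M : ℝ}
    (hM : M = ((((42 * θ) + (31 * h)) + (6 * b)) - (31 * o)) - 15)
    (b1 : b ≤ 11 / 100)
    (hl : 7 / 25 ≤ h)
    :
    0 ≤ (((((2500 * (θ * θ)) - (M * M)) * W) - (2500 * ((θ * θ) * (W - ((2 - W) * h))))) * ((z -
    h) * (z - h))) + (2500 * (((((1 - θ) * (1 - θ)) * h) * h) * (W - ((2 - W) * h)))) := by
  obtain ⟨hz, ha, hW, t0, t1, b0, b2, o0, o1, e0, e1, h0, h1, w0, w1⟩ := P
  subst hM hW ha hz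
  exact HK1 θ b o e h ω (by linarith) (by linarith) (by linarith) (by linarith) (by linarith)
    (by linarith) (by linarith) (by linarith) (by linarith) (by linarith) (by linarith) (by
    linarith)

theorem wL2 {θ b o e h ω z a W : ℝ} (P : Pt θ b o e h ω z a W) {M X En : ℝ}
    (hM : M = h * (((((132 * θ) + (90 * b)) - (45 * h)) - (32 * o)) - 39))
    (hX : X = ((((40 * θ) + (32 * b)) + (13 * o)) - (30 * h)) - 10)
    (hEn : En = ((72000 * (((((1 - a) * b) + (a * (1 - a))) + ((θ * θ) * (z - h))) - (2 * ((θ *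
    (1 - θ)) * h)))) + (32000 * (((((1 - θ) * (1 - θ)) * h) * h) * (6 - (4 * (z - h)))))) + (9 *
    (W * ((8000 * (((1 - e) - a) - (a * (1 - a)))) - (((20 * (((400 * (θ * (2 - θ))) - (40 * ((1
    - θ) * M))) - (M * M))) - (X * ((400 * (θ * θ)) - (M * M)))) * (1 - e))))))
    (b1 : b ≤ 11 / 100)
    (hu : h ≤ 7 / 25)
    (npsi : 0 ≤ (1 - θ) - a)
    :
    0 ≤ (72000 * (θ * ((o * (1 - θ)) * ((1 - a) * h)))) + (e * ((θ * En) - (72000 * ((2 * (((1 -
    a) * a) * b)) + (((θ * a) * a) * e))))) := by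
  obtain ⟨hz, ha, hW, t0, t1, b0, b2, o0, o1, e0, e1, h0, h1, w0, w1⟩ := P
  subst hEn hX hM hW ha hz
  exact L2 θ b o e h ω (by linarith) (by linarith) (by linarith) (by linarith) (by linarith)
    (by linarith) (by linarith) (by linarith) (by linarith) (by linarith) (by linarith) (by
    linarith) (mul_nonneg e0 npsi)

theorem wH2 {θ b o e h ω z a W : ℝ} (P : Pt θ b o e h ω z a W) {M En : ℝ}
    (hM : M = ((((42 * θ) + (31 * h)) + (6 * b)) - (31 * o)) - 15)
    (hEn : En = ((62500 * (((((1 - a) * b) + (a * (1 - a))) + ((θ * θ) * (z - h))) - (2 * ((θ *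
    (1 - θ)) * h)))) + (20000 * (((((1 - θ) * (1 - θ)) * h) * h) * (10 - (8 * (z - h)))))) + (25
    * (W * ((2500 * (((1 - e) - a) - (a * (1 - a)))) - ((((2500 * (θ * (2 - θ))) - (100 * ((1 -
    θ) * M))) - (M * M)) * (1 - e))))))
    (b1 : b ≤ 11 / 100)
    (hl : 7 / 25 ≤ h)
    (npsi : 0 ≤ (1 - θ) - a)
    :
    0 ≤ (62500 * (θ * ((o * (1 - θ)) * ((1 - a) * h)))) + (e * ((θ * En) - (62500 * ((2 * (((1 -
    a) * a) * b)) + (((θ * a) * a) * e))))) := by
  obtain ⟨hz, ha, hW, t0, t1, b0, b2, o0, o1, e0, e1, h0, h1, w0, w1⟩ := P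
  subst hEn hM hW ha hz
  exact H2 θ b o e h ω (by linarith) (by linarith) (by linarith) (by linarith) (by linarith)
    (by linarith) (by linarith) (by linarith) (by linarith) (by linarith) (by linarith) (by
    linarith) (mul_nonneg b0 npsi)

theorem wL3 {θ b o e h ω z a W : ℝ} (P : Pt θ b o e h ω z a W) {M X En T ρ : ℝ}
    (hM : M = h * (((((132 * θ) + (90 * b)) - (45 * h)) - (32 * o)) - 39))
    (hX : X = ((((40 * θ) + (32 * b)) + (13 * o)) - (30 * h)) - 10)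
    (hEn : En = ((72000 * (((((1 - a) * b) + (a * (1 - a))) + ((θ * θ) * (z - h))) - (2 * ((θ *
    (1 - θ)) * h)))) + (32000 * (((((1 - θ) * (1 - θ)) * h) * h) * (6 - (4 * (z - h)))))) + (9 *
    (W * ((8000 * (((1 - e) - a) - (a * (1 - a)))) - (((20 * (((400 * (θ * (2 - θ))) - (40 * ((1
    - θ) * M))) - (M * M))) - (X * ((400 * (θ * θ)) - (M * M)))) * (1 - e))))))
    (hT : T = (72000 * ((θ * ((o * (1 - θ)) * ((1 - a) * h))) - (((1 - a) * b) * (b + (a - (1 -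
    θ)))))) + (θ * (e * En)))
    (hρ : ρ = ((1 - a) * b) + ((θ * a) * e))
    (b1 : b ≤ 11 / 100)
    (hu : h ≤ 7 / 25)
    (big : 0 ≤ (20 * ρ) - (23 * (θ * b)))
    (sB : 0 ≤ ((θ * h) + (1 - θ)) - a)
    (Rb : 0 ≤ (θ * (h - b)) - (a * (a - (1 - θ))))
    (sE : 0 ≤ h - e)
    :
    0 ≤ (θ * T) + (72000 * (((θ * θ) * (2 * (b * b))) - (ρ * ρ))) := by
  obtain ⟨hz, ha, hW, t0, t1, b0, b2, o0, o1, e0, e1, h0, h1, w0, w1⟩ := P
  subst hρ hT hEn hX hM hW ha hz
  exact L3 θ b o e h ω (by linarith) (by linarith) (by linarith) (by linarith) (by linarith)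
    (by linarith) (by linarith) (by linarith) (by linarith) (by linarith) (by linarith) (by
    linarith) big (mul_nonneg b0 sB) (mul_nonneg e0 Rb) (mul_nonneg o0 sE)

theorem wH3 {θ b o e h ω z a W : ℝ} (P : Pt θ b o e h ω z a W) {M En T ρ : ℝ}
    (hM : M = ((((42 * θ) + (31 * h)) + (6 * b)) - (31 * o)) - 15)
    (hEn : En = ((62500 * (((((1 - a) * b) + (a * (1 - a))) + ((θ * θ) * (z - h))) - (2 * ((θ *
    (1 - θ)) * h)))) + (20000 * (((((1 - θ) * (1 - θ)) * h) * h) * (10 - (8 * (z - h)))))) + (25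
    * (W * ((2500 * (((1 - e) - a) - (a * (1 - a)))) - ((((2500 * (θ * (2 - θ))) - (100 * ((1 -
    θ) * M))) - (M * M)) * (1 - e))))))
    (hT : T = (62500 * ((θ * ((o * (1 - θ)) * ((1 - a) * h))) - (((1 - a) * b) * (b + (a - (1 -
    θ)))))) + (θ * (e * En)))
    (hρ : ρ = ((1 - a) * b) + ((θ * a) * e))
    (b1 : b ≤ 11 / 100)
    (hl : 7 / 25 ≤ h)
    (big : 0 ≤ (20 * ρ) - (23 * (θ * b)))
    (sA : 0 ≤ ((14 * θ) - 1) - (10 * a))
    :
    0 ≤ (θ * T) + (62500 * (((θ * θ) * (2 * (b * b))) - (ρ * ρ))) := by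
  obtain ⟨hz, ha, hW, t0, t1, b0, b2, o0, o1, e0, e1, h0, h1, w0, w1⟩ := P
  subst hρ hT hEn hM hW ha hz
  exact H3 θ b o e h ω (by linarith) (by linarith) (by linarith) (by linarith) (by linarith)
    (by linarith) (by linarith) (by linarith) (by linarith) (by linarith) (by linarith) (by
    linarith) big (mul_nonneg e0 sA)

theorem wH7 {θ b o e h ω z a W : ℝ} (P : Pt θ b o e h ω z a W) {M En T ρ : ℝ}
    (hM : M = ((((42 * θ) + (31 * h)) + (6 * b)) - (31 * o)) - 15)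
    (hEn : En = ((62500 * (((((1 - a) * b) + (a * (1 - a))) + ((θ * θ) * (z - h))) - (2 * ((θ *
    (1 - θ)) * h)))) + (20000 * (((((1 - θ) * (1 - θ)) * h) * h) * (10 - (8 * (z - h)))))) + (25
    * (W * ((2500 * (((1 - e) - a) - (a * (1 - a)))) - ((((2500 * (θ * (2 - θ))) - (100 * ((1 -
    θ) * M))) - (M * M)) * (1 - e))))))
    (hT : T = (62500 * ((θ * ((o * (1 - θ)) * ((1 - a) * h))) - (((1 - a) * b) * (b + (a - (1 -
    θ)))))) + (θ * (e * En)))
    (hρ : ρ = ((1 - a) * b) + ((θ * a) * e))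
    (b1 : b ≤ 11 / 100)
    (hl : 7 / 25 ≤ h)
    :
    0 ≤ (θ * T) + (62500 * (((θ * θ) * (((3 - (18 * (1 - (2 * θ)))) + (90 * ((1 - (2 * θ)) * (1 -
    (2 * θ))))) * (b * b))) - (ρ * ρ))) := by
  obtain ⟨hz, ha, hW, t0, t1, b0, b2, o0, o1, e0, e1, h0, h1, w0, w1⟩ := P
  subst hρ hT hEn hM hW ha hz
  exact H7 θ b o e h ω (by linarith) (by linarith) (by linarith) (by linarith) (by linarith)
    (by linarith) (by linarith) (by linarith) (by linarith) (by linarith) (by linarith) (by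
    linarith)

theorem wAK1 {θ b o e h ω z a W : ℝ} (P : Pt θ b o e h ω z a W) {X M ρ : ℝ}
    (hX : X = ((40 * θ) - (18 * h)) - 13)
    (hM : M = h * ((2 * θ) - h))
    (hρ : ρ = ((1 - a) * b) + ((θ * a) * e))
    (hu : h ≤ 37 / 100)
    (small : 0 ≤ (23 * (θ * b)) - (20 * ρ))
    (regA : 0 ≤ (10 * ((1 - a) * h)) - (b * (10 + (7 * ((1 - θ) * z)))))
    (sA : 0 ≤ ((14 * θ) - 1) - (10 * a))
    :
    0 ≤ ((((25 * (((20 - (X * e)) * ((1 * (θ * θ)) - (M * M))) * W)) - (20 * (((32 * (θ * b)) *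
    (2 - W)) * h))) - (500 * ((θ * θ) * (W - ((2 - W) * h))))) * ((z - h) * (z - h))) + (500 *
    (((((1 - θ) * (1 - θ)) * h) * h) * (W - ((2 - W) * h)))) := by
  obtain ⟨hz, ha, hW, t0, t1, b0, b2, o0, o1, e0, e1, h0, h1, w0, w1⟩ := P
  subst hρ hM hX hW ha hz
  exact AK1 θ b o e h ω (by linarith) (by linarith) (by linarith) (by linarith) (by linarith)
    (by linarith) (by linarith) (by linarith) (by linarith) (by linarith) (by linarith) (by
    linarith) small regA (mul_nonneg h0 sA)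

theorem wAK3 {θ b o e h ω z a W : ℝ} (P : Pt θ b o e h ω z a W) {X : ℝ}
    (hX : X = ((40 * θ) - (18 * h)) - 13)
    (hu : h ≤ 37 / 100)
    (hull : 0 ≤ ((506 - (500 * h)) - (500 * (1 - (2 * θ)))) - (600 * a))
    :
    0 ≤ (500 * (((θ * z) - h) * ((θ * z) - h))) - (((25 * (((W * X) * θ) * θ)) + (20 * ((32 * (θ
    * b)) * h))) * (z - h)) := by
  obtain ⟨hz, ha, hW, t0, t1, b0, b2, o0, o1, e0, e1, h0, h1, w0, w1⟩ := P
  subst hX hW ha hz
  exact AK3 θ b o e h ω (by linarith) (by linarith) (by linarith) (by linarith) (by linarith)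
    (by linarith) (by linarith) (by linarith) (by linarith) (by linarith) (by linarith) (by
    linarith) hull

theorem wAK4 {θ b o e h ω z a W : ℝ} (P : Pt θ b o e h ω z a W)
    (hu : h ≤ 37 / 100)
    :
    0 ≤ (25 * ((((θ * θ) * (z - h)) * (z - h)) - ((((1 - θ) * (1 - θ)) * h) * h))) - (((32 * (θ *
    b)) * (z - h)) * (z - h)) := by
  obtain ⟨hz, ha, hW, t0, t1, b0, b2, o0, o1, e0, e1, h0, h1, w0, w1⟩ := P
  subst  hW ha hz
  exact AK4 θ b o e h ω (by linarith) (by linarith) (by linarith) (by linarith) (by linarith)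
    (by linarith) (by linarith) (by linarith) (by linarith) (by linarith) (by linarith) (by
    linarith)

theorem wAK5 {θ b o e h ω z a W : ℝ} (P : Pt θ b o e h ω z a W) {X M : ℝ}
    (hX : X = ((40 * θ) - (18 * h)) - 13)
    (hM : M = h * ((2 * θ) - h))
    (hu : h ≤ 37 / 100)
    (sA : 0 ≤ ((14 * θ) - 1) - (10 * a))
    (psi : 0 ≤ a - (1 - θ))
    :
    0 ≤ ((((25 * (((20 - X) * ((1 * (θ * θ)) - (M * M))) * W)) - (20 * (((32 * (θ * b)) * (2 -
    W)) * a))) - (500 * ((θ * θ) * (W - ((2 - W) * (((2 * a) - h) - (1 - θ))))))) * ((z - (((2 *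
    a) - h) - (1 - θ))) * (z - (((2 * a) - h) - (1 - θ))))) + (500 * (((((1 - θ) * (1 - θ)) *
    (((2 * a) - h) - (1 - θ))) * (((2 * a) - h) - (1 - θ))) * (W - ((2 - W) * (((2 * a) - h) - (1
    - θ)))))) ∨ 0 ≤ ((((25 * (((20 - X) * ((1 * (θ * θ)) - (M * M))) * W)) - (20 * (((32 * (θ *
    b)) * (2 - W)) * a))) - (500 * ((θ * θ) * (W - ((2 - W) * h))))) * ((z - h) * (z - h))) +
    (500 * (((((1 - θ) * (1 - θ)) * h) * h) * (W - ((2 - W) * h)))) := by
  obtain ⟨hz, ha, hW, t0, t1, b0, b2, o0, o1, e0, e1, h0, h1, w0, w1⟩ := P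
  subst hM hX hW ha hz
  exact AK5 θ b o e h ω (by linarith) (by linarith) (by linarith) (by linarith) (by linarith)
    (by linarith) (by linarith) (by linarith) (by linarith) (by linarith) (by linarith) (by
    linarith) sA psi

theorem wA4 {θ b o e h ω z a W : ℝ} (P : Pt θ b o e h ω z a W) {M X En T ρ : ℝ}
    (hM : M = h * ((2 * θ) - h))
    (hX : X = ((40 * θ) - (18 * h)) - 13)
    (hEn : En = (25 * (((180 * (((((1 - a) * b) + (a * (1 - a))) + ((θ * θ) * (z - h))) - (2 *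
    ((θ * (1 - θ)) * h)))) + (80 * (((((1 - θ) * (1 - θ)) * h) * h) * (6 - (4 * (z - h)))))) + (9
    * (W * ((20 * (((1 - e) - a) - (a * (1 - a)))) - (((20 * (((1 * (θ * (2 - θ))) - (2 * ((1 -
    θ) * M))) - (M * M))) - (X * ((1 * (θ * θ)) - (M * M)))) * (1 - e))))))) - (180 * ((32 * (θ *
    b)) * h)))
    (hT : T = (4500 * ((θ * ((o * (1 - θ)) * ((1 - a) * h))) - (((1 - a) * b) * (b + (a - (1 -
    θ)))))) + (θ * (e * En)))
    (hρ : ρ = ((1 - a) * b) + ((θ * a) * e))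
    (hu : h ≤ 37 / 100)
    (small : 0 ≤ (23 * (θ * b)) - (20 * ρ))
    (regA : 0 ≤ (10 * ((1 - a) * h)) - (b * (10 + (7 * ((1 - θ) * z)))))
    (sB : 0 ≤ ((θ * h) + (1 - θ)) - a)
    :
    0 ≤ (25 * T) + (4500 * (θ * ((50 * (b * b)) - (32 * ((e * b) * (b + (θ * a))))))) := by
  obtain ⟨hz, ha, hW, t0, t1, b0, b2, o0, o1, e0, e1, h0, h1, w0, w1⟩ := P
  subst hρ hT hEn hX hM hW ha hz
  exact A4 θ b o e h ω (by linarith) (by linarith) (by linarith) (by linarith) (by linarith)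
    (by linarith) (by linarith) (by linarith) (by linarith) (by linarith) (by linarith) (by
    linarith) small (mul_nonneg o0 regA) (mul_nonneg e0 sB)

theorem wIK1 {θ b o e h ω z a W : ℝ} (P : Pt θ b o e h ω z a W) {X M R Nn : ℝ}
    (hX : X = (5 - (6 * h)) - (6 * θ))
    (hM : M = h * (((((120 * θ) - (7 * h)) - (28 * b)) - (9 * o)) - 47))
    (hR : R = (5 * (((7 - (4 * a)) - (6 * θ)) * b)) + (6 * e))
    (hNn : Nn = R * ((((3 + (30 * h)) + (20 * a)) + (20 * θ)) - (6 * R)))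
    (hu : h ≤ 3 / 10)
    (sE : 0 ≤ h - e)
    (sB : 0 ≤ ((θ * h) + (1 - θ)) - a)
    (sA : 0 ≤ ((14 * θ) - 1) - (10 * a))
    (Hb : 0 ≤ b - ((1 - a) * h))
    :
    0 ≤ ((((200 * (((4 - (X * e)) * ((100 * (θ * θ)) - (M * M))) * W)) - (400 * ((Nn * (2 - W)) *
    h))) - (80000 * ((θ * θ) * (W - ((2 - W) * h))))) * ((z - h) * (z - h))) + (80000 * (((((1 -
    θ) * (1 - θ)) * h) * h) * (W - ((2 - W) * h)))) := by
  obtain ⟨hz, ha, hW, t0, t1, b0, b2, o0, o1, e0, e1, h0, h1, w0, w1⟩ := P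
  subst hNn hR hM hX hW ha hz
  exact IK1 θ b o e h ω (by linarith) (by linarith) (by linarith) (by linarith) (by linarith)
    (by linarith) (by linarith) (by linarith) (by linarith) (by linarith) (by linarith) (by
    linarith) sE sB sA (mul_nonneg h0 sB) (mul_nonneg h0 Hb)

theorem wIK3a {θ b o e h ω z a W : ℝ} (P : Pt θ b o e h ω z a W) {X R Nn : ℝ}
    (hX : X = (5 - (6 * h)) - (6 * θ))
    (hR : R = (5 * (((7 - (4 * a)) - (6 * θ)) * b)) + (6 * e))
    (hNn : Nn = R * ((((3 + (30 * h)) + (20 * a)) + (20 * θ)) - (6 * R)))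
    (hu : h ≤ 3 / 10)
    (Hb : 0 ≤ b - ((1 - a) * h))
    (rA : 0 ≤ 107 - (200 * a))
    :
    0 ≤ (800 * (((θ * z) - h) * ((θ * z) - h))) - (((200 * (((W * X) * θ) * θ)) + (4 * (Nn * h)))
    * (z - h)) := by
  obtain ⟨hz, ha, hW, t0, t1, b0, b2, o0, o1, e0, e1, h0, h1, w0, w1⟩ := P
  subst hNn hR hX hW ha hz
  exact IK3a θ b o e h ω (by linarith) (by linarith) (by linarith) (by linarith) (by linarith)
    (by linarith) (by linarith) (by linarith) (by linarith) (by linarith) (by linarith) (by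
    linarith) Hb rA

theorem wIK3b {θ b o e h ω z a W : ℝ} (P : Pt θ b o e h ω z a W) {X R Nn : ℝ}
    (hX : X = (5 - (6 * h)) - (6 * θ))
    (hR : R = (5 * (((7 - (4 * a)) - (6 * θ)) * b)) + (6 * e))
    (hNn : Nn = R * ((((3 + (30 * h)) + (20 * a)) + (20 * θ)) - (6 * R)))
    (hu : h ≤ 3 / 10)
    (Hb : 0 ≤ b - ((1 - a) * h))
    (rB2 : 0 ≤ ((73 - (200 * (1 - (2 * θ)))) - (100 * a)) - (50 * h))
    :
    0 ≤ (800 * (((θ * z) - h) * ((θ * z) - h))) - (((200 * (((W * X) * θ) * θ)) + (4 * (Nn * h)))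
    * (z - h)) := by
  obtain ⟨hz, ha, hW, t0, t1, b0, b2, o0, o1, e0, e1, h0, h1, w0, w1⟩ := P
  subst hNn hR hX hW ha hz
  exact IK3b θ b o e h ω (by linarith) (by linarith) (by linarith) (by linarith) (by linarith)
    (by linarith) (by linarith) (by linarith) (by linarith) (by linarith) (by linarith) (by
    linarith) Hb rB2

theorem wIK4 {θ b o e h ω z a W : ℝ} (P : Pt θ b o e h ω z a W) {R Nn : ℝ}
    (hR : R = (5 * (((7 - (4 * a)) - (6 * θ)) * b)) + (6 * e))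
    (hNn : Nn = R * ((((3 + (30 * h)) + (20 * a)) + (20 * θ)) - (6 * R)))
    (hu : h ≤ 3 / 10)
    (Hb : 0 ≤ b - ((1 - a) * h))
    :
    0 ≤ (200 * ((((θ * θ) * (z - h)) * (z - h)) - ((((1 - θ) * (1 - θ)) * h) * h))) - ((Nn * (z -
    h)) * (z - h)) := by
  obtain ⟨hz, ha, hW, t0, t1, b0, b2, o0, o1, e0, e1, h0, h1, w0, w1⟩ := P
  subst hNn hR hW ha hz
  exact IK4 θ b o e h ω (by linarith) (by linarith) (by linarith) (by linarith) (by linarith)
    (by linarith) (by linarith) (by linarith) (by linarith) (by linarith) (by linarith) (by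
    linarith) Hb

theorem wIK5 {θ b o e h ω z a W : ℝ} (P : Pt θ b o e h ω z a W) {X M : ℝ}
    (hX : X = (5 - (6 * h)) - (6 * θ))
    (hM : M = h * (((((120 * θ) - (7 * h)) - (28 * b)) - (9 * o)) - 47))
    (hu : h ≤ 3 / 10)
    (Hb : 0 ≤ b - ((1 - a) * h))
    :
    0 ≤ (((25 * (((4 - X) * ((100 * (θ * θ)) - (M * M))) * W)) - (400 * ((θ * θ) * ((25 * W) -
    ((2 - W) * ((25 * (((2 * a) - h) - (1 - θ))) - (1 - (2 * θ)))))))) * (((25 * z) - ((25 * (((2
    * a) - h) - (1 - θ))) - (1 - (2 * θ)))) * ((25 * z) - ((25 * (((2 * a) - h) - (1 - θ))) - (1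
    - (2 * θ)))))) + (400 * (((((1 - θ) * (1 - θ)) * ((25 * (((2 * a) - h) - (1 - θ))) - (1 - (2
    * θ)))) * ((25 * (((2 * a) - h) - (1 - θ))) - (1 - (2 * θ)))) * ((25 * W) - ((2 - W) * ((25 *
    (((2 * a) - h) - (1 - θ))) - (1 - (2 * θ))))))) := by
  obtain ⟨hz, ha, hW, t0, t1, b0, b2, o0, o1, e0, e1, h0, h1, w0, w1⟩ := P
  subst hM hX hW ha hz
  exact IK5 θ b o e h ω (by linarith) (by linarith) (by linarith) (by linarith) (by linarith)
    (by linarith) (by linarith) (by linarith) (by linarith) (by linarith) (by linarith) (by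
    linarith) Hb

theorem wI0 {θ b o e h ω z a W : ℝ} (P : Pt θ b o e h ω z a W) {M X R Nn En T ρ : ℝ}
    (hM : M = h * (((((120 * θ) - (7 * h)) - (28 * b)) - (9 * o)) - 47))
    (hX : X = (5 - (6 * h)) - (6 * θ))
    (hR : R = (5 * (((7 - (4 * a)) - (6 * θ)) * b)) + (6 * e))
    (hNn : Nn = R * ((((3 + (30 * h)) + (20 * a)) + (20 * θ)) - (6 * R)))
    (hEn : En = (200 * (((3600 * (((((1 - a) * b) + (a * (1 - a))) + ((θ * θ) * (z - h))) - (2 *
    ((θ * (1 - θ)) * h)))) + (1600 * (((((1 - θ) * (1 - θ)) * h) * h) * (6 - (4 * (z - h)))))) +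
    (9 * (W * ((400 * (((1 - e) - a) - (a * (1 - a)))) - (((4 * (((100 * (θ * (2 - θ))) - (20 *
    ((1 - θ) * M))) - (M * M))) - (X * ((100 * (θ * θ)) - (M * M)))) * (1 - e))))))) - (3600 *
    (Nn * h)))
    (hT : T = (720000 * ((θ * ((o * (1 - θ)) * ((1 - a) * h))) - (((1 - a) * b) * (b + (a - (1 -
    θ)))))) + (θ * (e * En)))
    (hρ : ρ = ((1 - a) * b) + ((θ * a) * e))
    (hu : h ≤ 3 / 10)
    (sA : 0 ≤ ((14 * θ) - 1) - (10 * a))
    :
    0 ≤ (720000 * ((o * (1 - θ)) * ((1 - a) * h))) + (e * (En - (1440000 * (a * (((θ * h) + (1 -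
    θ)) - a))))) ∨ 0 ≤ T + (720000 * ((θ * (((b * b) + (2 * (b * ((1 - a) * h)))) - (((1 - a) *
    h) * ((1 - a) * h)))) - (2 * ((b - ((1 - a) * h)) * (ρ - (θ * (b - ((1 - a) * h)))))))) ∨ 0 ≤
    T + (720000 * ((θ * (((b * b) + (2 * (b * ((1 - a) * h)))) - (((1 - a) * h) * ((1 - a) *
    h)))) - (2 * ((((θ * h) + (1 - θ)) - a) * (ρ - (θ * (b - ((1 - a) * h)))))))) := by
  obtain ⟨hz, ha, hW, t0, t1, b0, b2, o0, o1, e0, e1, h0, h1, w0, w1⟩ := P
  subst hρ hT hEn hNn hR hX hM hW ha hz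
  exact I0 θ b o e h ω (by linarith) (by linarith) (by linarith) (by linarith) (by linarith)
    (by linarith) (by linarith) (by linarith) (by linarith) (by linarith) (by linarith) (by
    linarith) sA (mul_nonneg e0 sA)

theorem wI1 {θ b o e h ω z a W : ℝ} (P : Pt θ b o e h ω z a W) {M X R Nn En : ℝ}
    (hM : M = h * (((((120 * θ) - (7 * h)) - (28 * b)) - (9 * o)) - 47))
    (hX : X = (5 - (6 * h)) - (6 * θ))
    (hR : R = (5 * (((7 - (4 * a)) - (6 * θ)) * b)) + (6 * e))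
    (hNn : Nn = R * ((((3 + (30 * h)) + (20 * a)) + (20 * θ)) - (6 * R)))
    (hEn : En = (200 * (((3600 * (((((1 - a) * b) + (a * (1 - a))) + ((θ * θ) * (z - h))) - (2 *
    ((θ * (1 - θ)) * h)))) + (1600 * (((((1 - θ) * (1 - θ)) * h) * h) * (6 - (4 * (z - h)))))) +
    (9 * (W * ((400 * (((1 - e) - a) - (a * (1 - a)))) - (((4 * (((100 * (θ * (2 - θ))) - (20 *
    ((1 - θ) * M))) - (M * M))) - (X * ((100 * (θ * θ)) - (M * M)))) * (1 - e))))))) - (3600 *
    (Nn * h)))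
    (hu : h ≤ 3 / 10)
    (npsi : 0 ≤ (1 - θ) - a)
    :
    0 ≤ (3 * ((720000 * ((o * (1 - θ)) * ((1 - a) * h))) + (e * (En - (1440000 * (a * (b - ((1 -
    a) * h)))))))) - (3600000 * ((e * ((1 - θ) - a)) * ((4 * b) + e))) := by
  obtain ⟨hz, ha, hW, t0, t1, b0, b2, o0, o1, e0, e1, h0, h1, w0, w1⟩ := P
  subst hEn hNn hR hX hM hW ha hz
  exact I1 θ b o e h ω (by linarith) (by linarith) (by linarith) (by linarith) (by linarith)
    (by linarith) (by linarith) (by linarith) (by linarith) (by linarith) (by linarith) (by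
    linarith) (mul_nonneg e0 npsi)

theorem wBK1 {θ b o e h ω z a W : ℝ} (P : Pt θ b o e h ω z a W) {X M R Nn ρ : ℝ}
    (hX : X = ((23 + (29 * o)) - (30 * θ)) - (26 * h))
    (hM : M = h * (((((20 * θ) + 3) - (12 * h)) - (19 * b)) - (10 * o)))
    (hR : R = (5 * (((3 - (2 * a)) - (2 * θ)) * b)) + (3 * e))
    (hNn : Nn = R * (((((28 * h) + (30 * a)) + (30 * θ)) - 1) - (18 * R)))
    (hρ : ρ = ((1 - a) * b) + ((θ * a) * e))
    (hu : h ≤ 31 / 100)
    (sE : 0 ≤ h - e)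
    (psi : 0 ≤ a - (1 - θ))
    (small : 0 ≤ (23 * (θ * b)) - (20 * ρ))
    (Rb : 0 ≤ (θ * (h - b)) - (a * (a - (1 - θ))))
    :
    0 ≤ ((((100 * (((20 - (X * e)) * ((100 * (θ * θ)) - (M * M))) * W)) - (2000 * ((Nn * (2 - W))
    * h))) - (200000 * ((θ * θ) * (W - ((2 - W) * h))))) * ((z - h) * (z - h))) + (200000 *
    (((((1 - θ) * (1 - θ)) * h) * h) * (W - ((2 - W) * h)))) := by
  obtain ⟨hz, ha, hW, t0, t1, b0, b2, o0, o1, e0, e1, h0, h1, w0, w1⟩ := P
  subst hρ hNn hR hM hX hW ha hz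
  exact BK1 θ b o e h ω (by linarith) (by linarith) (by linarith) (by linarith) (by linarith)
    (by linarith) (by linarith) (by linarith) (by linarith) (by linarith) (by linarith) (by
    linarith) sE psi small Rb

theorem wBK3a {θ b o e h ω z a W : ℝ} (P : Pt θ b o e h ω z a W) {X R Nn ρ : ℝ}
    (hX : X = ((23 + (29 * o)) - (30 * θ)) - (26 * h))
    (hR : R = (5 * (((3 - (2 * a)) - (2 * θ)) * b)) + (3 * e))
    (hNn : Nn = R * (((((28 * h) + (30 * a)) + (30 * θ)) - 1) - (18 * R)))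
    (hρ : ρ = ((1 - a) * b) + ((θ * a) * e))
    (hu : h ≤ 31 / 100)
    (small : 0 ≤ (23 * (θ * b)) - (20 * ρ))
    (regC : 0 ≤ (b * (10 + (7 * ((1 - θ) * z)))) - (10 * ((1 - a) * h)))
    (rA : 0 ≤ 107 - (200 * a))
    :
    0 ≤ (2000 * (((θ * z) - h) * ((θ * z) - h))) - (((100 * (((W * X) * θ) * θ)) + (20 * (Nn *
    h))) * (z - h)) := by
  obtain ⟨hz, ha, hW, t0, t1, b0, b2, o0, o1, e0, e1, h0, h1, w0, w1⟩ := P
  subst hρ hNn hR hX hW ha hz
  exact BK3a θ b o e h ω (by linarith) (by linarith) (by linarith) (by linarith) (by linarith)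
    (by linarith) (by linarith) (by linarith) (by linarith) (by linarith) (by linarith) (by
    linarith) small regC rA

theorem wBK3b {θ b o e h ω z a W : ℝ} (P : Pt θ b o e h ω z a W) {X R Nn : ℝ}
    (hX : X = ((23 + (29 * o)) - (30 * θ)) - (26 * h))
    (hR : R = (5 * (((3 - (2 * a)) - (2 * θ)) * b)) + (3 * e))
    (hNn : Nn = R * (((((28 * h) + (30 * a)) + (30 * θ)) - 1) - (18 * R)))
    (hu : h ≤ 31 / 100)
    (sA : 0 ≤ ((14 * θ) - 1) - (10 * a))
    (regC : 0 ≤ (b * (10 + (7 * ((1 - θ) * z)))) - (10 * ((1 - a) * h)))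
    (rB2 : 0 ≤ ((73 - (200 * (1 - (2 * θ)))) - (100 * a)) - (50 * h))
    :
    0 ≤ (2000 * (((θ * z) - h) * ((θ * z) - h))) - (((100 * (((W * X) * θ) * θ)) + (20 * (Nn *
    h))) * (z - h)) := by
  obtain ⟨hz, ha, hW, t0, t1, b0, b2, o0, o1, e0, e1, h0, h1, w0, w1⟩ := P
  subst hNn hR hX hW ha hz
  exact BK3b θ b o e h ω (by linarith) (by linarith) (by linarith) (by linarith) (by linarith)
    (by linarith) (by linarith) (by linarith) (by linarith) (by linarith) (by linarith) (by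
    linarith) sA regC rB2

theorem wBK4a {θ b o e h ω z a W : ℝ} (P : Pt θ b o e h ω z a W) {R Nn : ℝ}
    (hR : R = (5 * (((3 - (2 * a)) - (2 * θ)) * b)) + (3 * e))
    (hNn : Nn = R * (((((28 * h) + (30 * a)) + (30 * θ)) - 1) - (18 * R)))
    (hu : h ≤ 31 / 100)
    (rA : 0 ≤ 107 - (200 * a))
    :
    0 ≤ (100 * ((((θ * θ) * (z - h)) * (z - h)) - ((((1 - θ) * (1 - θ)) * h) * h))) - ((Nn * (z -
    h)) * (z - h)) := by
  obtain ⟨hz, ha, hW, t0, t1, b0, b2, o0, o1, e0, e1, h0, h1, w0, w1⟩ := P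
  subst hNn hR hW ha hz
  exact BK4a θ b o e h ω (by linarith) (by linarith) (by linarith) (by linarith) (by linarith)
    (by linarith) (by linarith) (by linarith) (by linarith) (by linarith) (by linarith) (by
    linarith) rA

theorem wBK4b {θ b o e h ω z a W : ℝ} (P : Pt θ b o e h ω z a W) {R Nn : ℝ}
    (hR : R = (5 * (((3 - (2 * a)) - (2 * θ)) * b)) + (3 * e))
    (hNn : Nn = R * (((((28 * h) + (30 * a)) + (30 * θ)) - 1) - (18 * R)))
    (hu : h ≤ 31 / 100)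
    (rB2 : 0 ≤ ((73 - (200 * (1 - (2 * θ)))) - (100 * a)) - (50 * h))
    :
    0 ≤ (100 * ((((θ * θ) * (z - h)) * (z - h)) - ((((1 - θ) * (1 - θ)) * h) * h))) - ((Nn * (z -
    h)) * (z - h)) := by
  obtain ⟨hz, ha, hW, t0, t1, b0, b2, o0, o1, e0, e1, h0, h1, w0, w1⟩ := P
  subst hNn hR hW ha hz
  exact BK4b θ b o e h ω (by linarith) (by linarith) (by linarith) (by linarith) (by linarith)
    (by linarith) (by linarith) (by linarith) (by linarith) (by linarith) (by linarith) (by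
    linarith) rB2

theorem wBK5 {θ b o e h ω z a W : ℝ} (P : Pt θ b o e h ω z a W) {X M : ℝ}
    (hX : X = ((23 + (29 * o)) - (30 * θ)) - (26 * h))
    (hM : M = h * (((((20 * θ) + 3) - (12 * h)) - (19 * b)) - (10 * o)))
    (hu : h ≤ 31 / 100)
    (regC : 0 ≤ (b * (10 + (7 * ((1 - θ) * z)))) - (10 * ((1 - a) * h)))
    :
    0 ≤ ((((25 * (((20 - X) * ((100 * (θ * θ)) - (M * M))) * W)) - (2000 * (((32 * (θ * b)) * (2
    - W)) * a))) - (50000 * ((θ * θ) * (W - ((2 - W) * (((2 * a) - h) - (1 - θ))))))) * ((z -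
    (((2 * a) - h) - (1 - θ))) * (z - (((2 * a) - h) - (1 - θ))))) + (50000 * (((((1 - θ) * (1 -
    θ)) * (((2 * a) - h) - (1 - θ))) * (((2 * a) - h) - (1 - θ))) * (W - ((2 - W) * (((2 * a) -
    h) - (1 - θ)))))) := by
  obtain ⟨hz, ha, hW, t0, t1, b0, b2, o0, o1, e0, e1, h0, h1, w0, w1⟩ := P
  subst hM hX hW ha hz
  exact BK5 θ b o e h ω (by linarith) (by linarith) (by linarith) (by linarith) (by linarith)
    (by linarith) (by linarith) (by linarith) (by linarith) (by linarith) (by linarith) (by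
    linarith) regC

theorem wB5 {θ b o e h ω z a W : ℝ} (P : Pt θ b o e h ω z a W) {M X R Nn En T ρ : ℝ}
    (hM : M = h * (((((20 * θ) + 3) - (12 * h)) - (19 * b)) - (10 * o)))
    (hX : X = ((23 + (29 * o)) - (30 * θ)) - (26 * h))
    (hR : R = (5 * (((3 - (2 * a)) - (2 * θ)) * b)) + (3 * e))
    (hNn : Nn = R * (((((28 * h) + (30 * a)) + (30 * θ)) - 1) - (18 * R)))
    (hEn : En = (100 * (((18000 * (((((1 - a) * b) + (a * (1 - a))) + ((θ * θ) * (z - h))) - (2 *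
    ((θ * (1 - θ)) * h)))) + (8000 * (((((1 - θ) * (1 - θ)) * h) * h) * (6 - (4 * (z - h)))))) +
    (9 * (W * ((2000 * (((1 - e) - a) - (a * (1 - a)))) - (((20 * (((100 * (θ * (2 - θ))) - (20 *
    ((1 - θ) * M))) - (M * M))) - (X * ((100 * (θ * θ)) - (M * M)))) * (1 - e))))))) - (18000 *
    (Nn * h)))
    (hT : T = (1800000 * ((θ * ((o * (1 - θ)) * ((1 - a) * h))) - (((1 - a) * b) * (b + (a - (1 -
    θ)))))) + (θ * (e * En)))
    (hρ : ρ = ((1 - a) * b) + ((θ * a) * e))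
    (hu : h ≤ 31 / 100)
    (sB : 0 ≤ ((θ * h) + (1 - θ)) - a)
    :
    0 ≤ ((50 * T) + (1800000 * ((θ * ((100 * (b * b)) - (64 * ((e * b) * (b + (θ * a)))))) - (75
    * (((1 - (2 * θ)) * b) * ρ))))) - (90000000 * (((θ * (1 - θ)) * o) * (((1 - a) * h) - b))) ∨
    0 ≤ (50 * T) + (1800000 * ((θ * ((100 * (b * b)) - (64 * ((e * b) * (b + (θ * a)))))) - (75 *
    (((1 - (2 * θ)) * b) * ρ)))) := by
  obtain ⟨hz, ha, hW, t0, t1, b0, b2, o0, o1, e0, e1, h0, h1, w0, w1⟩ := P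
  subst hρ hT hEn hNn hR hX hM hW ha hz
  exact B5 θ b o e h ω (by linarith) (by linarith) (by linarith) (by linarith) (by linarith)
    (by linarith) (by linarith) (by linarith) (by linarith) (by linarith) (by linarith) (by
    linarith) (mul_nonneg e0 sB)

theorem wB6 {θ b o e h ω z a W : ℝ} (P : Pt θ b o e h ω z a W) {M X R Nn En T ρ : ℝ}
    (hM : M = h * (((((20 * θ) + 3) - (12 * h)) - (19 * b)) - (10 * o)))
    (hX : X = ((23 + (29 * o)) - (30 * θ)) - (26 * h))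
    (hR : R = (5 * (((3 - (2 * a)) - (2 * θ)) * b)) + (3 * e))
    (hNn : Nn = R * (((((28 * h) + (30 * a)) + (30 * θ)) - 1) - (18 * R)))
    (hEn : En = (100 * (((18000 * (((((1 - a) * b) + (a * (1 - a))) + ((θ * θ) * (z - h))) - (2 *
    ((θ * (1 - θ)) * h)))) + (8000 * (((((1 - θ) * (1 - θ)) * h) * h) * (6 - (4 * (z - h)))))) +
    (9 * (W * ((2000 * (((1 - e) - a) - (a * (1 - a)))) - (((20 * (((100 * (θ * (2 - θ))) - (20 *
    ((1 - θ) * M))) - (M * M))) - (X * ((100 * (θ * θ)) - (M * M)))) * (1 - e))))))) - (18000 *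
    (Nn * h)))
    (hT : T = (1800000 * ((θ * ((o * (1 - θ)) * ((1 - a) * h))) - (((1 - a) * b) * (b + (a - (1 -
    θ)))))) + (θ * (e * En)))
    (hρ : ρ = ((1 - a) * b) + ((θ * a) * e))
    (hu : h ≤ 31 / 100)
    (yy : 0 ≤ (((θ * h) + (1 - θ)) - a) - (b - ((1 - a) * h)))
    (Hb : 0 ≤ b - ((1 - a) * h))
    (small : 0 ≤ (23 * (θ * b)) - (20 * ρ))
    (sE : 0 ≤ h - e)
    :
    0 ≤ (600 * (θ * ((1800000 * ((o * (1 - θ)) * ((1 - a) * h))) + (e * En)))) - (1800000 * (e *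
    ((768 * ((θ * b) * (b + (θ * a)))) + (25 * (a * ((16 * ((θ * (b - ((1 - a) * h))) * (3 - (5 *
    (a - θ))))) + (99 * ((1 - (2 * θ)) * ((θ * (h - b)) - (a * (a - (1 - θ)))))))))))) ∨ 0 ≤ (600
    * (θ * T)) + (1800000 * (((1200 * (((θ * θ) * b) * b)) - (θ * ((e * (768 * (θ * b))) * (b +
    (θ * a))))) - (25 * (((16 * ((θ * (b - ((1 - a) * h))) * (3 - (5 * (a - θ))))) + (99 * ((1 -
    (2 * θ)) * ((θ * (h - b)) - (a * (a - (1 - θ))))))) * ρ)))) ∨ 0 ≤ (600 * (θ * T)) + (1800000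
    * (((1200 * (((θ * θ) * b) * b)) - (θ * ((e * (2475 * ((θ * (h - b)) - (a * (a - (1 - θ))))))
    * (b + (θ * a))))) - (25 * (((16 * ((θ * (b - ((1 - a) * h))) * (3 - (5 * (a - θ))))) + (99 *
    ((1 - (2 * θ)) * ((θ * (h - b)) - (a * (a - (1 - θ))))))) * ρ)))) := by
  obtain ⟨hz, ha, hW, t0, t1, b0, b2, o0, o1, e0, e1, h0, h1, w0, w1⟩ := P
  subst hρ hT hEn hNn hR hX hM hW ha hz
  exact B6 θ b o e h ω (by linarith) (by linarith) (by linarith) (by linarith) (by linarith)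
    (by linarith) (by linarith) (by linarith) (by linarith) (by linarith) (by linarith) (by
    linarith) (mul_nonneg b0 yy) (mul_nonneg e0 Hb) (mul_nonneg e0 yy) (mul_nonneg e0 small)
    (mul_nonneg o0 sE)

theorem wsb2 {θ b o e h ω z a W : ℝ} (P : Pt θ b o e h ω z a W)
    (npsi : 0 ≤ (1 - θ) - a)
    :
    0 ≤ (17 - (30 * θ)) - (30 * b) := by
  obtain ⟨hz, ha, hW, t0, t1, b0, b2, o0, o1, e0, e1, h0, h1, w0, w1⟩ := P
  subst  hW ha hz
  exact sb2 θ b o e h ω (by linarith) (by linarith) (by linarith) (by linarith) (by linarith)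
    (by linarith) (by linarith) (by linarith) (by linarith) (by linarith) (by linarith) (by
    linarith) npsi

theorem wsb3 {θ b o e h ω z a W : ℝ} (P : Pt θ b o e h ω z a W) {ρ : ℝ}
    (hρ : ρ = ((1 - a) * b) + ((θ * a) * e))
    (big : 0 ≤ (20 * ρ) - (23 * (θ * b)))
    :
    0 ≤ (17 - (30 * θ)) - (30 * b) := by
  obtain ⟨hz, ha, hW, t0, t1, b0, b2, o0, o1, e0, e1, h0, h1, w0, w1⟩ := P
  subst hρ hW ha hz
  exact sb3 θ b o e h ω (by linarith) (by linarith) (by linarith) (by linarith) (by linarith)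
    (by linarith) (by linarith) (by linarith) (by linarith) (by linarith) (by linarith) (by
    linarith) big

theorem wsb7 {θ b o e h ω z a W : ℝ} (P : Pt θ b o e h ω z a W)
    (rA : 0 ≤ 107 - (200 * a))
    :
    0 ≤ (17 - (30 * θ)) - (30 * b) := by
  obtain ⟨hz, ha, hW, t0, t1, b0, b2, o0, o1, e0, e1, h0, h1, w0, w1⟩ := P
  subst  hW ha hz
  exact sb7 θ b o e h ω (by linarith) (by linarith) (by linarith) (by linarith) (by linarith)
    (by linarith) (by linarith) (by linarith) (by linarith) (by linarith) (by linarith) (by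
    linarith) rA

theorem wf0 {θ b o e h ω z a W : ℝ} (P : Pt θ b o e h ω z a W)
    (npsi : 0 ≤ (1 - θ) - a)
    :
    0 ≤ (θ * (1 - a)) - (b * (((2 * θ) + 1) - a)) := by
  obtain ⟨hz, ha, hW, t0, t1, b0, b2, o0, o1, e0, e1, h0, h1, w0, w1⟩ := P
  subst  hW ha hz
  exact f0 θ b o e h ω (by linarith) (by linarith) (by linarith) (by linarith) (by linarith)
    (by linarith) (by linarith) (by linarith) (by linarith) (by linarith) (by linarith) (by
    linarith) npsi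

theorem wLq {θ b o e h ω z a W : ℝ} (P : Pt θ b o e h ω z a W)
    (rA : 0 ≤ 107 - (200 * a))
    (hA2 : 0 ≤ ((100 * h) + 63) - (200 * θ))
    :
    0 ≤ (a * (1 - a)) - ((((3 - (18 * (1 - (2 * θ)))) + (90 * ((1 - (2 * θ)) * (1 - (2 * θ))))) *
    (a - h)) * θ) := by
  obtain ⟨hz, ha, hW, t0, t1, b0, b2, o0, o1, e0, e1, h0, h1, w0, w1⟩ := P
  subst  hW ha hz
  exact Lq θ b o e h ω (by linarith) (by linarith) (by linarith) (by linarith) (by linarith)
    (by linarith) (by linarith) (by linarith) (by linarith) (by linarith) (by linarith) (by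
    linarith) rA hA2

theorem wf2 {θ b o e h ω z a W : ℝ} (P : Pt θ b o e h ω z a W)
    (hu : h ≤ 3 / 10)
    (npsi : 0 ≤ (1 - θ) - a)
    :
    0 ≤ (3 * (((1 - a) - (2 * b)) + ((a - (1 - θ)) * (1 - h)))) - (20 * (θ * b)) := by
  obtain ⟨hz, ha, hW, t0, t1, b0, b2, o0, o1, e0, e1, h0, h1, w0, w1⟩ := P
  subst  hW ha hz
  exact f2 θ b o e h ω (by linarith) (by linarith) (by linarith) (by linarith) (by linarith)
    (by linarith) (by linarith) (by linarith) (by linarith) (by linarith) (by linarith) (by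
    linarith) npsi

theorem whI {θ b o e h ω z a W : ℝ} (P : Pt θ b o e h ω z a W)
    (Hb : 0 ≤ b - ((1 - a) * h))
    (sA : 0 ≤ ((14 * θ) - 1) - (10 * a))
    :
    0 ≤ 3 - (10 * h) := by
  obtain ⟨hz, ha, hW, t0, t1, b0, b2, o0, o1, e0, e1, h0, h1, w0, w1⟩ := P
  subst  hW ha hz
  exact hI θ b o e h ω (by linarith) (by linarith) (by linarith) (by linarith) (by linarith)
    (by linarith) (by linarith) (by linarith) (by linarith) (by linarith) (by linarith) (by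
    linarith) Hb sA

theorem whBa {θ b o e h ω z a W : ℝ} (P : Pt θ b o e h ω z a W)
    (regC : 0 ≤ (b * (10 + (7 * ((1 - θ) * z)))) - (10 * ((1 - a) * h)))
    (rA : 0 ≤ 107 - (200 * a))
    :
    0 ≤ 4 - (13 * h) := by
  obtain ⟨hz, ha, hW, t0, t1, b0, b2, o0, o1, e0, e1, h0, h1, w0, w1⟩ := P
  subst  hW ha hz
  exact hBa θ b o e h ω (by linarith) (by linarith) (by linarith) (by linarith) (by linarith)
    (by linarith) (by linarith) (by linarith) (by linarith) (by linarith) (by linarith) (by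
    linarith) regC rA

theorem whBb {θ b o e h ω z a W : ℝ} (P : Pt θ b o e h ω z a W)
    (regC : 0 ≤ (b * (10 + (7 * ((1 - θ) * z)))) - (10 * ((1 - a) * h)))
    (rB2 : 0 ≤ ((73 - (200 * (1 - (2 * θ)))) - (100 * a)) - (50 * h))
    :
    0 ≤ 4 - (13 * h) := by
  obtain ⟨hz, ha, hW, t0, t1, b0, b2, o0, o1, e0, e1, h0, h1, w0, w1⟩ := P
  subst  hW ha hz
  exact hBb θ b o e h ω (by linarith) (by linarith) (by linarith) (by linarith) (by linarith)
    (by linarith) (by linarith) (by linarith) (by linarith) (by linarith) (by linarith) (by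
    linarith) regC rB2

theorem wrd {θ b o e h ω z a W : ℝ} (P : Pt θ b o e h ω z a W)
    (hu : h ≤ 37 / 100)
    :
    0 ≤ (10 * (a - h)) - (b * (10 + (7 * ((1 - θ) * z)))) := by
  obtain ⟨hz, ha, hW, t0, t1, b0, b2, o0, o1, e0, e1, h0, h1, w0, w1⟩ := P
  subst  hW ha hz
  exact rd θ b o e h ω (by linarith) (by linarith) (by linarith) (by linarith) (by linarith)
    (by linarith) (by linarith) (by linarith) (by linarith) (by linarith) (by linarith) (by
    linarith)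

theorem ww2 {θ b o e h ω z a W : ℝ} (P : Pt θ b o e h ω z a W)
    (Hb : 0 ≤ b - ((1 - a) * h))
    :
    0 ≤ (2 * ((a - h) * θ)) - (a * (1 - a)) := by
  obtain ⟨hz, ha, hW, t0, t1, b0, b2, o0, o1, e0, e1, h0, h1, w0, w1⟩ := P
  subst  hW ha hz
  exact w2 θ b o e h ω (by linarith) (by linarith) (by linarith) (by linarith) (by linarith)
    (by linarith) (by linarith) (by linarith) (by linarith) (by linarith) (by linarith) (by
    linarith) Hb

theorem whL {θ b o e h ω z a W : ℝ} (P : Pt θ b o e h ω z a W) {ρ : ℝ}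
    (hρ : ρ = ((1 - a) * b) + ((θ * a) * e))
    (small : 0 ≤ (23 * (θ * b)) - (20 * ρ))
    :
    0 ≤ (25 * b) - (32 * (e * (b + (θ * a)))) := by
  obtain ⟨hz, ha, hW, t0, t1, b0, b2, o0, o1, e0, e1, h0, h1, w0, w1⟩ := P
  subst hρ hW ha hz
  exact hL θ b o e h ω (by linarith) (by linarith) (by linarith) (by linarith) (by linarith)
    (by linarith) (by linarith) (by linarith) (by linarith) (by linarith) (by linarith) (by
    linarith) small

theorem wnB {θ b o e h ω z a W : ℝ} (P : Pt θ b o e h ω z a W) {R Nn : ℝ}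
    (hR : R = (5 * (((3 - (2 * a)) - (2 * θ)) * b)) + (3 * e))
    (hNn : Nn = R * (((((28 * h) + (30 * a)) + (30 * θ)) - 1) - (18 * R)))
    (hu : h ≤ 31 / 100)
    :
    0 ≤ Nn - (128 * (θ * b)) := by
  obtain ⟨hz, ha, hW, t0, t1, b0, b2, o0, o1, e0, e1, h0, h1, w0, w1⟩ := P
  subst hNn hR hW ha hz
  exact nB θ b o e h ω (by linarith) (by linarith) (by linarith) (by linarith) (by linarith)
    (by linarith) (by linarith) (by linarith) (by linarith) (by linarith) (by linarith) (by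
    linarith)

theorem wnI {θ b o e h ω z a W : ℝ} (P : Pt θ b o e h ω z a W) {R Nn : ℝ}
    (hR : R = (5 * (((7 - (4 * a)) - (6 * θ)) * b)) + (6 * e))
    (hNn : Nn = R * ((((3 + (30 * h)) + (20 * a)) + (20 * θ)) - (6 * R)))
    (hu : h ≤ 3 / 10)
    :
    0 ≤ Nn := by
  obtain ⟨hz, ha, hW, t0, t1, b0, b2, o0, o1, e0, e1, h0, h1, w0, w1⟩ := P
  subst hNn hR hW ha hz
  exact nI θ b o e h ω (by linarith) (by linarith) (by linarith) (by linarith) (by linarith)
    (by linarith) (by linarith) (by linarith) (by linarith) (by linarith) (by linarith) (by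
    linarith)

theorem wkc {θ b o e h ω z a W : ℝ} (P : Pt θ b o e h ω z a W) {ρ : ℝ}
    (hρ : ρ = ((1 - a) * b) + ((θ * a) * e))
    :
    0 ≤ (400 * θ) - (121 * ((2 * ρ) + (a * (1 - a)))) := by
  obtain ⟨hz, ha, hW, t0, t1, b0, b2, o0, o1, e0, e1, h0, h1, w0, w1⟩ := P
  subst hρ hW ha hz
  exact kc θ b o e h ω (by linarith) (by linarith) (by linarith) (by linarith) (by linarith)
    (by linarith) (by linarith) (by linarith) (by linarith) (by linarith) (by linarith) (by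
    linarith)

theorem wr1 {θ b o e h ω z a W : ℝ} (P : Pt θ b o e h ω z a W) {R : ℝ}
    (hR : R = (5 * (((7 - (4 * a)) - (6 * θ)) * b)) + (6 * e))
    :
    0 ≤ 7 - (5 * R) := by
  obtain ⟨hz, ha, hW, t0, t1, b0, b2, o0, o1, e0, e1, h0, h1, w0, w1⟩ := P
  subst hR hW ha hz
  exact r1 θ b o e h ω (by linarith) (by linarith) (by linarith) (by linarith) (by linarith)
    (by linarith) (by linarith) (by linarith) (by linarith) (by linarith) (by linarith) (by
    linarith)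

theorem wr2 {θ b o e h ω z a W : ℝ} (P : Pt θ b o e h ω z a W) {R : ℝ}
    (hR : R = (5 * (((3 - (2 * a)) - (2 * θ)) * b)) + (3 * e))
    :
    0 ≤ 7 - (10 * R) := by
  obtain ⟨hz, ha, hW, t0, t1, b0, b2, o0, o1, e0, e1, h0, h1, w0, w1⟩ := P
  subst hR hW ha hz
  exact r2 θ b o e h ω (by linarith) (by linarith) (by linarith) (by linarith) (by linarith)
    (by linarith) (by linarith) (by linarith) (by linarith) (by linarith) (by linarith) (by
    linarith)

theorem wmL {θ b o e h ω z a W : ℝ} (P : Pt θ b o e h ω z a W) {M : ℝ}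
    (hM : M = h * (((((132 * θ) + (90 * b)) - (45 * h)) - (32 * o)) - 39))
    (b1 : b ≤ 11 / 100)
    (hu : h ≤ 7 / 25)
    :
    0 ≤ (20 * θ) - M := by
  obtain ⟨hz, ha, hW, t0, t1, b0, b2, o0, o1, e0, e1, h0, h1, w0, w1⟩ := P
  subst hM hW ha hz
  exact mL θ b o e h ω (by linarith) (by linarith) (by linarith) (by linarith) (by linarith)
    (by linarith) (by linarith) (by linarith) (by linarith) (by linarith) (by linarith) (by
    linarith)

theorem wmA {θ b o e h ω z a W : ℝ} (P : Pt θ b o e h ω z a W) {M : ℝ}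
    (hM : M = h * ((2 * θ) - h))
    (hu : h ≤ 37 / 100)
    :
    0 ≤ (20 * θ) - M := by
  obtain ⟨hz, ha, hW, t0, t1, b0, b2, o0, o1, e0, e1, h0, h1, w0, w1⟩ := P
  subst hM hW ha hz
  exact mA θ b o e h ω (by linarith) (by linarith) (by linarith) (by linarith) (by linarith)
    (by linarith) (by linarith) (by linarith) (by linarith) (by linarith) (by linarith) (by
    linarith)

theorem wmI {θ b o e h ω z a W : ℝ} (P : Pt θ b o e h ω z a W) {M : ℝ}
    (hM : M = h * (((((120 * θ) - (7 * h)) - (28 * b)) - (9 * o)) - 47))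
    (hu : h ≤ 3 / 10)
    :
    0 ≤ (10 * θ) - M := by
  obtain ⟨hz, ha, hW, t0, t1, b0, b2, o0, o1, e0, e1, h0, h1, w0, w1⟩ := P
  subst hM hW ha hz
  exact mI θ b o e h ω (by linarith) (by linarith) (by linarith) (by linarith) (by linarith)
    (by linarith) (by linarith) (by linarith) (by linarith) (by linarith) (by linarith) (by
    linarith)

theorem wmB {θ b o e h ω z a W : ℝ} (P : Pt θ b o e h ω z a W) {M : ℝ}
    (hM : M = h * (((((20 * θ) + 3) - (12 * h)) - (19 * b)) - (10 * o)))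
    (hu : h ≤ 31 / 100)
    :
    0 ≤ (10 * θ) - M := by
  obtain ⟨hz, ha, hW, t0, t1, b0, b2, o0, o1, e0, e1, h0, h1, w0, w1⟩ := P
  subst hM hW ha hz
  exact mB θ b o e h ω (by linarith) (by linarith) (by linarith) (by linarith) (by linarith)
    (by linarith) (by linarith) (by linarith) (by linarith) (by linarith) (by linarith) (by
    linarith)

theorem wmB0 {θ b o e h ω z a W : ℝ} (P : Pt θ b o e h ω z a W) {M : ℝ}
    (hM : M = h * (((((20 * θ) + 3) - (12 * h)) - (19 * b)) - (10 * o)))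
    (hu : h ≤ 31 / 100)
    :
    0 ≤ M := by
  obtain ⟨hz, ha, hW, t0, t1, b0, b2, o0, o1, e0, e1, h0, h1, w0, w1⟩ := P
  subst hM hW ha hz
  exact mB0 θ b o e h ω (by linarith) (by linarith) (by linarith) (by linarith) (by linarith)
    (by linarith) (by linarith) (by linarith) (by linarith) (by linarith) (by linarith) (by
    linarith)

end Pool.Agent.Lib.MP_43bc59_co.F_SC
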