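import Pool.Agent.Lib.MP_43bc59_co.F_S1
import Pool.Agent.Lib.MP_43bc59_co.F_SW

set_option autoImplicit false
set_option linter.unusedVariables false

namespace Pool.Agent.Lib.MP_43bc59_co.ZS

open F_SC hiding HS

variable {θ b o e h ω z a W d al gp ξ μ n r p yy c Q : ℝ}

lemma pos_of {x y : ℝ} (c : ℝ) (c0 : 0 < c) (h : 0 ≤ y) (e : y = c * x) : 0 ≤ x :=
  le_of_mul_le_mul_left (by rw [mul_zero, ← e]; exact h) c0

lemma le_of {x x' y : ℝ} (c : ℝ) (c0 : 0 < c) (h : 0 ≤ y) (e : y = c * (x' - x)) : x ≤ x' :=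
  sub_nonneg.1 (pos_of c c0 h e)

lemma facts (P : Pt θ b o e h ω z a W) :
    0 < θ ∧ 97 / 100 ≤ z ∧ z ≤ 5 / 4 ∧ 9 / 20 ≤ a := by
  obtain ⟨hz, ha, hW, t0, t1, b0, b2, o0, o1, e0, e1, h0, h1, w0, w1⟩ := P
  have z0 : 97 / 100 ≤ z := by linarith
  refine ⟨by linarith, z0, by linarith, ?_⟩
  have := mul_le_mul t0 z0 (by norm_num) (by linarith)
  linarith

lemma rho_eq (hg : θ * gp = 1 - a) : θ * (gp * b + a * e) = (1 - a) * b + θ * a * e := by
  linear_combination b * hg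

lemma tc_eq (hg : θ * gp = 1 - a) :
    c * θ * Core θ a e W h p z b gp o ξ μ yy n
      = c * (θ * (o * (1 - θ) * ((1 - a) * h)) - (1 - a) * b * (b + (a - (1 - θ))))
        + θ * (e * (c * (E0 θ a e W h p z b ξ μ yy - n * h))) := by
  unfold Core
  linear_combination (-c * b * (b + (a - (1 - θ)))) * hg

lemma al_le (P : Pt θ b o e h ω z a W) (hal : θ * al = a * (1 - a)) :
    al ≤ 1 - θ + (1 - 2 * θ) / 25 := by
  have th := (facts P).1
  refine le_of_mul_le_mul_left ?_ th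
  rw [hal]
  nlinarith [sq_nonneg (a - 1 / 2), mul_nonneg (sub_nonneg.2 P.t1)
    (show 0 ≤ 2 * θ / 25 - (1 / 2 - θ) by linarith [P.t0])]

lemma al_le' (P : Pt θ b o e h ω z a W) (hal : θ * al = a * (1 - a)) (psi : 0 ≤ a - (1 - θ)) :
    al ≤ 1 - θ := by
  have th := (facts P).1
  refine le_of_mul_le_mul_left ?_ th
  rw [hal]
  nlinarith [mul_nonneg psi (show 0 ≤ a - θ by linarith [P.t1])]

lemma K4z (P : Pt θ b o e h ω z a W) (bd : b < a - h) :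
    0 * (z - h) ^ 2 ≤ θ ^ 2 * (z - h) ^ 2 - (1 - θ) ^ 2 * h ^ 2 := by
  obtain ⟨th, z0, z1, a0⟩ := facts P
  have f1 : 0 ≤ θ * z - h := by linarith [P.ha]
  have f2 : 0 ≤ θ * (z - h) + (1 - θ) * h :=
    add_nonneg (mul_nonneg th.le (by linarith [P.h1])) (mul_nonneg (by linarith [P.t1]) P.h0)
  linarith [mul_nonneg f1 f2]

/-- capacities, plain certificate, low range -/
lemma cbL (P : Pt θ b o e h ω z a W) (hd : d = a - h) (hal : θ * al = a * (1 - a)) (bd : b < d)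
    (hX : 20 * ξ = 40 * θ + 32 * b + 13 * o - 30 * h - 10)
    (hM : 20 * μ = h * (132 * θ + 90 * b - 45 * h - 32 * o - 39)) (hu : h ≤ 7 / 25)
    (sE : 0 ≤ h - e) (sA : 0 ≤ 14 * θ - 1 - 10 * a) (Rb : 0 ≤ θ * (h - b) - a * (a - (1 - θ)))
    (sb : 0 ≤ 17 - 30 * θ - 30 * b) : CB θ a e W h d al z ξ μ 0 0 := by
  obtain ⟨th, z0, z1, a0⟩ := facts P
  have b1 : b ≤ 11 / 100 := by linarith [P.t0]
  have l1 := al_le P hal
  have ⟨t0, t1, b0, o0, o1, h0⟩ : _ ∧ _ ∧ _ ∧ _ ∧ _ ∧ _ := ⟨P.t0, P.t1, P.b0, P.o0, P.o1, P.h0⟩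
  refine ⟨by linarith, by linarith, ?_, by linarith [wmL P hM b1 hu], le_rfl, le_rfl,
    pos_of 8000 (by norm_num) (wLK1 P hX hM b1 hu sE sA Rb sb) (by ring),
    le_of 20 (by norm_num) (wLK3 P hX b1 hu sA sb) (by ring), K4z P (hd ▸ bd), Or.inr ?_⟩
  · have : 0 ≤ h * (132 * θ + 90 * b - 45 * h - 32 * o - 39) := mul_nonneg h0 (by linarith)
    linarith
  · rcases wLK5 P hX hM b1 hu with k | k
    · exact ⟨(25 * (2 * a - h - (1 - θ)) - (1 - 2 * θ)) / 25, Or.inr (by linarith), by linarith,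
        by linarith, pos_of (8000 * 15625) (by norm_num) k (by ring)⟩
    · exact ⟨h, Or.inl rfl, h0, by linarith, pos_of (8000 * 15625) (by norm_num) k (by ring)⟩

/-- capacities, plain certificate, high range -/
lemma cbH (P : Pt θ b o e h ω z a W) (hd : d = a - h) (bd : b < d)
    (hM : 50 * μ = 42 * θ + 31 * h + 6 * b - 31 * o - 15) (hl : 7 / 25 ≤ h)
    (sb : 0 ≤ 17 - 30 * θ - 30 * b) : CB θ a e W h d al z 0 μ 0 0 := by
  have b1 : b ≤ 11 / 100 := by linarith [P.t0]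
  have ⟨t0, t1, b0, o0, o1, h1⟩ : _ ∧ _ ∧ _ ∧ _ ∧ _ ∧ _ := ⟨P.t0, P.t1, P.b0, P.o0, P.o1, P.h1⟩
  refine ⟨le_rfl, zero_le_one, by linarith, by linarith, le_rfl, le_rfl,
    pos_of 2500 (by norm_num) (wHK1 P hM b1 hl) (by ring), ?_, K4z P (hd ▸ bd), Or.inl ⟨rfl, rfl⟩⟩
  linarith [sq_nonneg (θ * z - h)]

/-- capacities, certificate A -/
lemma cbA (P : Pt θ b o e h ω z a W) (hd : d = a - h) (hal : θ * al = a * (1 - a))
    (hg : θ * gp = 1 - a) (hX : 20 * ξ = 40 * θ - 18 * h - 13) (hM : μ = h * (2 * θ - h))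
    (sA : 0 ≤ 14 * θ - 1 - 10 * a) (psi : 0 ≤ a - (1 - θ))
    (small : 0 ≤ 23 * (θ * b) - 20 * (θ * (gp * b + a * e)))
    (regA : 0 ≤ 10 * ((1 - a) * h) - b * (10 + 7 * ((1 - θ) * z)))
    (hA : 0 ≤ 200 * θ - 63 - 100 * h)
    (hull : 0 ≤ 506 - 500 * h - 500 * (1 - 2 * θ) - 600 * a) :
    CB θ a e W h d al z ξ μ (2 * θ * (16 / 25) * b) (2 * θ * (16 / 25) * b) := by
  obtain ⟨th, z0, z1, a0⟩ := facts P
  have l1 := al_le' P hal psi
  have ⟨t0, t1, b0, h0⟩ : _ ∧ _ ∧ _ ∧ _ := ⟨P.t0, P.t1, P.b0, P.h0⟩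
  have hu : h ≤ 37 / 100 := by linarith
  have n0 : 0 ≤ 2 * θ * (16 / 25) * b := by positivity
  refine ⟨by linarith, by linarith, ?_, ?_, n0, n0,
    pos_of 500 (by norm_num) (wAK1 P hX hM (rho_eq hg) hu small regA sA) (by ring),
    le_of 500 (by norm_num) (wAK3 P hX hu hull) (by ring),
    le_of 25 (by norm_num) (wAK4 P hu) (by ring), Or.inr ?_⟩
  · rw [hM]; exact mul_nonneg h0 (by linarith)
  · have := mul_le_mul_of_nonneg_left (show 2 * θ - h ≤ 1 by linarith) h0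
    linarith
  · rcases wAK5 P hX hM hu sA psi with k | k
    · exact ⟨2 * a - h - (1 - θ), Or.inr (by linarith), by linarith,
        by linarith, pos_of 500 (by norm_num) k (by ring)⟩
    · exact ⟨h, Or.inl rfl, h0, by linarith, pos_of 500 (by norm_num) k (by ring)⟩

/-- capacities, certificate 1 -/
lemma cbI (P : Pt θ b o e h ω z a W) (hd : d = a - h) (hal : θ * al = a * (1 - a))
    (hX : 4 * ξ = 5 - 6 * h - 6 * θ)
    (hM : 10 * μ = h * (120 * θ - 7 * h - 28 * b - 9 * o - 47))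
    (hR : 10 * r = 5 * ((7 - 4 * a - 6 * θ) * b) + 6 * e)
    (hN : 200 * n = 10 * r * (3 + 30 * h + 20 * a + 20 * θ - 6 * (10 * r)))
    (sE : 0 ≤ h - e) (sB : 0 ≤ θ * h + (1 - θ) - a) (sA : 0 ≤ 14 * θ - 1 - 10 * a)
    (Hb : 0 ≤ b - (1 - a) * h)
    (reg : 0 ≤ 107 - 200 * a ∨ 0 ≤ 73 - 200 * (1 - 2 * θ) - 100 * a - 50 * h) :
    CB θ a e W h d al z ξ μ n 0 := by
  obtain ⟨th, z0, z1, a0⟩ := facts P
  have l1 := al_le P hal
  have ⟨t0, t1, b2, o1, h0⟩ : _ ∧ _ ∧ _ ∧ _ ∧ _ := ⟨P.t0, P.t1, P.b2, P.o1, P.h0⟩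
  have hu : h ≤ 3 / 10 := by linarith [whI P Hb sA]
  refine ⟨by linarith, by linarith, ?_, by linarith [wmI P hM hu], by linarith [wnI P hR hN hu],
    le_rfl, pos_of 80000 (by norm_num) (wIK1 P hX hM hR hN hu sE sB sA Hb) (by ring), ?_,
    le_of 200 (by norm_num) (wIK4 P hR hN hu Hb) (by ring), Or.inr ?_⟩
  · have : 0 ≤ h * (120 * θ - 7 * h - 28 * b - 9 * o - 47) := mul_nonneg h0 (by linarith)
    linarith
  · rcases reg with k | k
    · exact le_of 800 (by norm_num) (wIK3a P hX hR hN hu Hb k) (by ring)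
    · exact le_of 800 (by norm_num) (wIK3b P hX hR hN hu Hb k) (by ring)
  · exact ⟨(25 * (2 * a - h - (1 - θ)) - (1 - 2 * θ)) / 25, Or.inr (by linarith), by linarith,
      by linarith, pos_of (400 * 15625) (by norm_num) (wIK5 P hX hM hu Hb) (by ring)⟩

/-- capacities, certificate B -/
lemma cbB (P : Pt θ b o e h ω z a W) (hd : d = a - h) (hal : θ * al = a * (1 - a))
    (hg : θ * gp = 1 - a) (hX : 20 * ξ = 23 + 29 * o - 30 * θ - 26 * h)
    (hM : 10 * μ = h * (20 * θ + 3 - 12 * h - 19 * b - 10 * o))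
    (hR : 5 * r = 5 * ((3 - 2 * a - 2 * θ) * b) + 3 * e)
    (hN : 100 * n = 5 * r * (28 * h + 30 * a + 30 * θ - 1 - 18 * (5 * r))) (h4 : 0 ≤ 4 - 13 * h)
    (sE : 0 ≤ h - e) (sA : 0 ≤ 14 * θ - 1 - 10 * a) (psi : 0 ≤ a - (1 - θ))
    (small : 0 ≤ 23 * (θ * b) - 20 * (θ * (gp * b + a * e)))
    (regC : 0 ≤ b * (10 + 7 * ((1 - θ) * z)) - 10 * ((1 - a) * h))
    (Rb : 0 ≤ θ * (h - b) - a * (a - (1 - θ)))
    (reg : 0 ≤ 107 - 200 * a ∨ 0 ≤ 73 - 200 * (1 - 2 * θ) - 100 * a - 50 * h) :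
    CB θ a e W h d al z ξ μ n (2 * θ * (16 / 25) * b) := by
  obtain ⟨th, z0, z1, a0⟩ := facts P
  have l1 := al_le' P hal psi
  have ⟨t0, t1, b0, o0, o1, h0⟩ : _ ∧ _ ∧ _ ∧ _ ∧ _ ∧ _ := ⟨P.t0, P.t1, P.b0, P.o0, P.o1, P.h0⟩
  have hu : h ≤ 31 / 100 := by linarith
  have n0 : 0 ≤ θ * b := by positivity
  refine ⟨by linarith, by linarith, by linarith [wmB0 P hM hu], by linarith [wmB P hM hu],
    by linarith [wnB P hR hN hu], by linarith,
    pos_of 200000 (by norm_num) (wBK1 P hX hM hR hN (rho_eq hg) hu sE psi small Rb) (by ring),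
    ?_, ?_, Or.inr ?_⟩
  · rcases reg with k | k
    · exact le_of 2000 (by norm_num) (wBK3a P hX hR hN (rho_eq hg) hu small regC k) (by ring)
    · exact le_of 2000 (by norm_num) (wBK3b P hX hR hN hu sA regC k) (by ring)
  · rcases reg with k | k
    · exact le_of 100 (by norm_num) (wBK4a P hR hN hu k) (by ring)
    · exact le_of 100 (by norm_num) (wBK4b P hR hN hu k) (by ring)
  · exact ⟨2 * a - h - (1 - θ), Or.inr (by linarith), by linarith,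
      by linarith, pos_of 50000 (by norm_num) (wBK5 P hX hM hu regC) (by ring)⟩

/-- the constants of the shared certificates -/
lemma c2 (P : Pt θ b o e h ω z a W) (hd : d = a - h) (hal : θ * al = a * (1 - a))
    (hg : θ * gp = 1 - a) (b0 : 0 < b) (kn : 2 * θ * (16 / 25) * b ≤ n)
    (sA : 0 ≤ 14 * θ - 1 - 10 * a) (psi : 0 ≤ a - (1 - θ))
    (small : 0 ≤ 23 * (θ * b) - 20 * (θ * (gp * b + a * e))) (hu : h ≤ 37 / 100) :
    C2 θ a e d al z b gp n (2 * θ * (16 / 25) * b) (11 / 20) (16 / 25) (23 / 20)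
      (7 / 10 * ((1 - θ) * z)) := by
  obtain ⟨th, z0, z1, a0⟩ := facts P
  have ⟨t0, t1, b2⟩ : _ ∧ _ ∧ _ := ⟨P.t0, P.t1, P.b2⟩
  have rb : gp * b + a * e ≤ 23 / 20 * b := le_of (20 * θ) (by linarith) small (by ring)
  have tz : 0 ≤ (1 - θ) * z := mul_nonneg (by linarith) (by linarith)
  refine ⟨b0, rb, by linarith, by norm_num, by norm_num, by norm_num, by linarith, le_rfl, kn, ?_,
    by linarith [wrd P hu], ?_, fun s s0 s1 => ?_, by linarith [whL P (rho_eq hg) small],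
    fun t k0 k1 => ?_⟩
  · linarith [mul_nonneg tz (show 0 ≤ 3 / 50 - 56 / 125 * b by linarith)]
  · linarith [HY θ b z (by linarith) (by linarith) (by linarith) (by linarith) (by linarith)
      (by linarith)]
  · linarith [F_SC.HS θ b z s (by linarith) (by linarith) (by linarith) (by linarith) (by linarith)
      (by linarith) (by linarith) (by linarith)]
  · exact le_of (400 * θ) (by linarith) (NT θ a t (by linarith) (by linarith) (by linarith)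
      (by linarith) (by linarith) (by linarith) (by linarith)) (by linear_combination 121 * hal)

lemma fin2 (c0 : 0 < c) (th : 0 < θ) (hg : θ * gp = 1 - a) (b0 : 0 ≤ b) (npsi : 0 ≤ 1 - θ - a)
    (f0 : 0 ≤ θ * (1 - a) - b * (2 * θ + 1 - a))
    (k : 0 ≤ c * (θ * (o * (1 - θ) * ((1 - a) * h)))
      + e * (θ * (c * (E0 θ a e W h p z b ξ μ yy - n * h))
        - c * (2 * ((1 - a) * a * b) + θ * a * a * e))) :
    0 ≤ Core θ a e W h p z b gp o ξ μ yy n + 2 * b ^ 2 - (gp * b + a * e) ^ 2 := by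
  unfold Core
  generalize E0 θ a e W h p z b ξ μ yy - n * h = Q at k ⊢
  obtain rfl : a = 1 - θ * gp := by linarith
  exact pos_of (c * θ ^ 2) (by positivity) (add_nonneg
    (mul_nonneg (mul_nonneg (mul_nonneg c0.le npsi) b0) f0) (mul_nonneg th.le k)) (by ring)

lemma fin10 {β γ : ℝ} (th : 0 < θ) (hg : θ * gp = 1 - a) (a0 : 0 ≤ a) (a1 : a ≤ 1) (b0 : 0 ≤ b)
    (e0 : 0 ≤ e) (h0 : 0 ≤ h) (psi : 0 ≤ a - (1 - θ)) (β0 : 0 ≤ β)
    (β1 : β ≤ θ * h + (1 - θ) - a) (β2 : β ≤ b - (1 - a) * h) (β3 : β ≤ γ)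
    (k : 0 ≤ o * (1 - θ) * ((1 - a) * h) + e * (E0 θ a e W h p z b ξ μ yy - n * h - 2 * a * γ)) :
    0 ≤ Core θ a e W h p z b gp o ξ μ yy n + b ^ 2 + 2 * b * ((1 - a) * h) - ((1 - a) * h) ^ 2 - 0
      - 2 * β * (gp * b + a * e + (1 - a) * h - b) := by
  unfold Core
  generalize E0 θ a e W h p z b ξ μ yy - n * h = Q at k ⊢
  have g0 : 0 ≤ gp := pos_of θ th (sub_nonneg.2 a1) hg.symm
  have g1 : 0 ≤ 1 - gp := pos_of θ th psi (by linarith)
  have f1 := mul_nonneg (mul_nonneg g0 b0) (sub_nonneg.2 β1)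
  have f2 := mul_nonneg (sub_nonneg.2 β2) (add_nonneg (mul_nonneg (sub_nonneg.2 a1) h0) β0)
  have f3 := mul_nonneg (mul_nonneg g1 b0) (add_nonneg b0 β0)
  have f4 := mul_nonneg (mul_nonneg e0 a0) (sub_nonneg.2 β3)
  obtain rfl : a = 1 - θ * gp := by linarith
  linarith [sq_nonneg β]

lemma fin11 {β γ : ℝ} (th : 0 < θ) (hg : θ * gp = 1 - a) (a0 : 0 ≤ a) (a1 : a ≤ 1) (b0 : 0 ≤ b)
    (e0 : 0 ≤ e) (h0 : 0 ≤ h) (npsi : 0 ≤ 1 - θ - a)
    (β1 : β ≤ θ * h + (1 - θ) - a) (β2 : β ≤ b - (1 - a) * h) (β3 : β ≤ γ)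
    (f : 0 ≤ 3 * (1 - a - 2 * b + (a - (1 - θ)) * (1 - h)) - 20 * (θ * b))
    (k : 0 ≤ 3 * (o * (1 - θ) * ((1 - a) * h)
      + e * (E0 θ a e W h p z b ξ μ yy - n * h - 2 * a * γ)) - 5 * (e * (1 - θ - a) * (4 * b + e))) :
    0 ≤ Core θ a e W h p z b gp o ξ μ yy n + b ^ 2 + 2 * b * ((1 - a) * h) - ((1 - a) * h) ^ 2
      - 5 / 3 * (1 - θ - a) * (2 * b + e) ^ 2 - 2 * β * (gp * b + a * e + (1 - a) * h - b) := by
  unfold Core
  generalize E0 θ a e W h p z b ξ μ yy - n * h = Q at k ⊢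
  have g1 : 0 ≤ gp - 1 := pos_of θ th npsi (by linarith)
  have H0 := mul_nonneg (sub_nonneg.2 a1) h0
  have f1 := mul_nonneg (mul_nonneg g1 b0)
    (show 0 ≤ 1 - a - b - 2 * β - 20 / 3 * (θ * b) by linarith)
  have f2 := mul_nonneg H0 (show 0 ≤ 2 * b - (1 - a) * h - 2 * β by linarith)
  have f4 := mul_nonneg (mul_nonneg e0 a0) (sub_nonneg.2 β3)
  obtain rfl : a = 1 - θ * gp := by linarith
  linarith

lemma fin6 (P : Pt θ b o e h ω z a W) (c0 : 0 < c) (hd : d = a - h) (hal : θ * al = a * (1 - a))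
    (hg : θ * gp = 1 - a) (sA : 0 ≤ 14 * θ - 1 - 10 * a) (psi : 0 ≤ a - (1 - θ))
    (Hb : 0 ≤ b - (1 - a) * h) (y0 : 0 ≤ θ * h + (1 - θ) - a - (b - (1 - a) * h))
    (k : 0 ≤ 600 * (θ * (c * (o * (1 - θ) * ((1 - a) * h))
        + e * (c * (E0 θ a e W h p z b ξ μ yy - n * h))))
      - c * (e * (768 * (θ * b * (b + θ * a)) + 25 * (a * (16 * (θ * (b - (1 - a) * h)
        * (3 - 5 * (a - θ))) + 99 * ((1 - 2 * θ) * (θ * (h - b) - a * (a - (1 - θ))))))))) :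
    0 ≤ Core θ a e W h p z b gp o ξ μ yy n + 2 * b ^ 2 - e * (16 / 25 * b) * (2 * b + 2 * θ * a)
      - (2 * (b - (1 - a) * h) * (1 - 5 / 3 * (a - θ)) + 33 / 8 * (1 - 2 * θ) * (al - d - b))
        * (gp * b + a * e) := by
  unfold Core
  generalize E0 θ a e W h p z b ξ μ yy - n * h = Q at k ⊢
  obtain ⟨th, z0, z1, a0⟩ := facts P
  have ⟨t0, t1, b0⟩ : _ ∧ _ ∧ _ := ⟨P.t0, P.t1, P.b0⟩
  have g0 : 0 ≤ gp := pos_of θ th (by linarith) hg.symm
  have f0 : 0 ≤ θ - 33 / 8 * (1 - 2 * θ) * a := by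
    have := mul_le_mul_of_nonneg_left (show a ≤ 1 by linarith) (show 0 ≤ 1 - 2 * θ by linarith)
    linarith
  have f1 := mul_nonneg (mul_nonneg g0 b0) (add_nonneg (mul_nonneg y0 f0)
    (mul_nonneg (mul_nonneg Hb (show 0 ≤ a - θ by linarith))
      (show 0 ≤ 10 / 3 * θ - 33 / 8 * (1 - 2 * θ) by linarith)))
  have f2 := mul_nonneg (mul_nonneg psi b0) (add_nonneg b0 Hb)
  have l : al = a * gp := mul_left_cancel₀ th.ne' (by rw [hal, ← hg]; ring)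
  subst hd l
  obtain rfl : a = 1 - θ * gp := by linarith
  exact pos_of (600 * c * θ) (by positivity)
    (add_nonneg k (mul_nonneg (show 0 ≤ 600 * c by positivity) (add_nonneg f1 f2))) (by ring)

end Pool.Agent.Lib.MP_43bc59_co.ZS
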