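import Pool.Agent.Lib.MP_43bc59_co.F_SC_0

set_option autoImplicit false
set_option maxRecDepth 100000

namespace Pool.Agent.Lib.MP_43bc59_co.F_SC

open Bx

theorem LK5_b21 : G [LK5_p0, LK5_p1] [] 6 [372, 22, 0, 9, 105, 20] [379, 33, 6, 12, 112, 23] [800, 400, 400, 400, 400, 20] :=
  G.leaf 352 84300728633008122718652839705527694656905795547955200000000000000000000000000000000000000 [5, 5, 6, 3, 7, 1]
    (.nd 1 (.lf [0, 1]) (.nd 2 (.nd 4 (.nd 0 (.nd 1 (.lf [0, 1]) (.lf [1, 0])) (.lf [1, 0])) (.nd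
    0 (.lf [0, 1]) (.nd 4 (.nd 1 (.lf [0, 1]) (.lf [1, 0])) (.lf [0, 1])))) (.nd 0 (.nd 4 (.lf
    [1, 0]) (.lf [0, 1])) (.lf [1, 0]))))
    (by decide +kernel)

theorem LK5_b22 : G [LK5_p0, LK5_p1] [] 6 [379, 22, 0, 9, 105, 20] [386, 33, 6, 12, 112, 23] [800, 400, 400, 400, 400, 20] :=
  G.leaf 357 87874230058550106877297829553588798944459934924800000000000000000000000000000000000000000 [5, 5, 6, 3, 7, 1]
    (.nd 4 (.lf [1, 0]) (.nd 2 (.nd 1 (.nd 0 (.lf [0, 1]) (.nd 1 (.lf [1, 0]) (.lf [0, 1]))) (.nd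
    0 (.nd 3 (.lf [1, 0]) (.nd 1 (.nd 4 (.lf [1, 0]) (.lf [0, 1])) (.lf [1, 0]))) (.lf [1, 0])))
    (.lf [1, 0])))
    (by decide +kernel)

theorem LK5_b23 : G [LK5_p0, LK5_p1] [] 6 [186, 33, 0, 9, 105, 20] [193, 44, 6, 12, 112, 23] [400, 400, 400, 400, 400, 20] :=
  G.leaf 370 2864337238508011862676684387223560259990251687116800000000000000000000000000000000000000 [5, 5, 6, 3, 7, 1]
    (.nd 0 (.nd 1 (.nd 0 (.lf [1, 0]) (.nd 3 (.lf [1, 0]) (.nd 1 (.lf [1, 0]) (.nd 4 (.lf [1, 0])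
    (.nd 2 (.nd 4 (.lf [1, 0]) (.nd 2 (.lf [1, 0]) (.lf [0, 1]))) (.lf [1, 0])))))) (.lf [1, 0]))
    (.lf [1, 0]))
    (by decide +kernel)

theorem LK5_b24 : G [LK5_p0, LK5_p1] [] 6 [193, 0, 0, 3, 21, 20] [200, 11, 6, 6, 28, 23] [400, 100, 400, 200, 100, 20] :=
  G.leaf 339 19061189551139375474230852490179266792652800000000000000000000000000000000000000 [5, 5, 6, 3, 7, 1]
    (.nd 1 (.nd 3 (.lf [1, 0]) (.nd 0 (.nd 4 (.lf [1, 0]) (.nd 1 (.nd 3 (.lf [1, 0]) (.nd 0 (.lf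
    [1, 0]) (.nd 4 (.lf [1, 0]) (.nd 4 (.lf [1, 0]) (.lf [0, 1]))))) (.lf [0, 1]))) (.lf [1,
    0]))) (.lf [1, 0]))
    (by decide +kernel)

theorem LK5_b25 : G [LK5_p0, LK5_p1] [] 6 [93, 0, 6, 3, 21, 20] [100, 11, 12, 6, 28, 23] [200, 100, 400, 200, 100, 20] :=
  G.leaf 268 587672787027628533330901318197338701824000000000000000000000000000000000000000 [5, 5, 6, 3, 7, 1]
    (.nd 1 (.lf [1, 0]) (.lf [1, 0]))
    (by decide +kernel)

theorem LK5_b26 : G [LK5_p0, LK5_p1] [] 6 [93, 0, 6, 3, 21, 20] [100, 11, 12, 6, 28, 23] [200, 100, 200, 200, 100, 20] :=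
  G.leaf 254 9577135144511611473043265389468424601600000000000000000000000000000000000000 [5, 5, 6, 3, 7, 1]
    (.lf [1, 0])
    (by decide +kernel)

theorem LK5_b27 : G [LK5_p0, LK5_p1] [] 6 [93, 0, 6, 3, 21, 20] [100, 11, 12, 6, 28, 23] [200, 100, 100, 200, 100, 20] :=
  G.leaf 248 162645490421371688041911535891356057600000000000000000000000000000000000000 [5, 5, 6, 3, 7, 1]
    (.lf [1, 0])
    (by decide +kernel)

theorem LK5_b28 : G [LK5_p0, LK5_p1] [] 6 [93, 0, 6, 0, 7, 20] [100, 11, 12, 3, 14, 23] [200, 100, 50, 100, 50, 20] :=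
  G.leaf 232 2532667826064367229592892055552000000000000000000000000000000000000000 [5, 5, 6, 3, 7, 1]
    (.lf [1, 0])
    (by decide +kernel)

theorem HK1_b0 : G [HK1_p0] [] 6 [93, 0, 0, 0, 14, 20] [100, 11, 6, 3, 25, 23] [200, 100, 25, 100, 50, 20] :=
  G.leaf 122 2188555493492489600000000000000000000 [2, 2, 5, 2, 4, 1]
    (.lf [1])
    (by decide +kernel)

theorem L2_b0 : G [L2_p0] [L2_c0] 6 [93, 0, 0, 0, 0, 20] [100, 11, 6, 3, 7, 23] [200, 100, 25, 100, 25, 20] :=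
  G.leaf 187 97958255000003127997562880000000000000000000000 [4, 3, 4, 4, 5, 1]
    (.nd 4 (.nd 2 (.lf [1, -42469]) (.lf [1, -47272])) (.lf [1, 0]))
    (by decide +kernel)

theorem H2_b0 : G [H2_p0] [H2_c0] 6 [93, 0, 0, 0, 14, 20] [100, 11, 6, 3, 25, 23] [200, 100, 25, 100, 50, 20] :=
  G.leaf 153 20046675758240313180000000000000000000000 [3, 3, 3, 4, 3, 1]
    (.nd 2 (.lf [1, 0]) (.lf [1, -6230]))
    (by decide +kernel)

theorem L3_b0 : G [L3_p0] [L3_c0, L3_c1, L3_c2, L3_c3] 6 [93, 0, 0, 0, 0, 20] [100, 11, 6, 3, 7, 23] [200, 100, 25, 100, 25, 20] :=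
  G.leaf 224 11133351175560856740705927168000000000000000000000000 [5, 4, 4, 4, 5, 1]
    (.nd 4 (.nd 1 (.nd 2 (.nd 3 (.nd 2 (.lf [1, -147, -10315, -9929, 0]) (.lf [1, -294, -3733,
    -4467, -2770])) (.nd 4 (.lf [1, -177, -3443, -8480, 0]) (.lf [1, -44, -5896, -20644,
    -1481]))) (.nd 4 (.lf [1, 0, -9775, -13090, 0]) (.lf [1, -44, -14672, -28969, -643]))) (.nd 2
    (.nd 4 (.lf [1, -245, 0, -16837, 0]) (.lf [1, -234, -1482, -29569, -550])) (.lf [1, -53,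
    -7949, -22371, 0]))) (.nd 1 (.nd 2 (.nd 1 (.lf [1, -271, 0, 0, 0]) (.nd 1 (.lf [1, -219, 0,
    0, 0]) (.nd 0 (.lf [1, 0, 0, 0, 0]) (.lf [1, -154, 0, 0, 0])))) (.lf [1, 0, -6676, 0, 0]))
    (.lf [1, -350, 0, 0, 0])))
    (by decide +kernel)

theorem H3_b0 : G [H3_p0] [H3_c0, H3_c1] 6 [93, 0, 0, 0, 14, 20] [100, 11, 6, 3, 25, 23] [200, 100, 25, 100, 50, 20] :=
  G.leaf 168 1794935369345956088748000000000000000000000000 [4, 4, 3, 4, 3, 1]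
    (.nd 1 (.lf [1, -266, -708]) (.lf [1, -517, 0]))
    (by decide +kernel)

theorem H7_b0 : G [H7_p0] [] 6 [93, 0, 0, 0, 14, 20] [100, 11, 6, 3, 25, 23] [200, 100, 25, 100, 50, 20] :=
  G.leaf 160 4566715138953156088748000000000000000000000000 [4, 4, 3, 4, 3, 1]
    (.nd 1 (.lf [1]) (.lf [1]))
    (by decide +kernel)

end Pool.Agent.Lib.MP_43bc59_co.F_SC
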