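import Pool.Agent.Lib.MP_43bc59_co.F_SC_0

set_option autoImplicit false
set_option maxRecDepth 100000

namespace Pool.Agent.Lib.MP_43bc59_co.F_SC

open Bx

theorem AK1_b0 : G [AK1_p0] [AK1_c0, AK1_c1, AK1_c2] 6 [93, 0, 0, 0, 0, 20] [100, 3, 6, 3, 37, 23] [200, 25, 25, 100, 100, 20] :=
  G.leaf 157 29398370469142287063244800000000000000000000 [3, 2, 3, 3, 7, 1]
    (.lf [64, -1033, -454, -881])
    (by decide +kernel)

theorem AK3_b0 : G [AK3_p0] [AK3_c0] 6 [93, 0, 0, 0, 0, 20] [100, 3, 6, 3, 37, 23] [200, 25, 25, 100, 100, 20] :=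
  G.leaf 96 508335360000000000000000000 [3, 1, 2, 2, 2, 1]
    (.lf [64, -6])
    (by decide +kernel)

theorem AK4_b0 : G [AK4_p0] [] 6 [93, 0, 0, 0, 0, 20] [100, 3, 6, 3, 37, 23] [200, 25, 25, 100, 100, 20] :=
  G.leaf 69 280778098400000000000 [2, 1, 2, 2, 2, 0]
    (.lf [1])
    (by decide +kernel)

theorem AK5_b0 : G [AK5_p0, AK5_p1] [AK5_c0, AK5_c1] 6 [93, 0, 0, 0, 0, 20] [100, 3, 6, 3, 37, 23] [200, 25, 25, 100, 100, 20] :=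
  G.leaf 265 97811793210442179054910168640000000000000000000000000000 [5, 4, 4, 3, 7, 1]
    (.nd 4 (.lf [1, 0, 0, 0]) (.nd 4 (.lf [1, 0, 0, -113]) (.nd 4 (.nd 2 (.nd 0 (.lf [0, 1, -9,
    0]) (.nd 4 (.lf [0, 1, -9, 0]) (.nd 1 (.nd 2 (.lf [1, 0, 0, -92]) (.lf [0, 1, 0, 0])) (.lf
    [1, 0, 0, 0])))) (.lf [1, 0, 0, -88])) (.lf [0, 1, -10, 0]))))
    (by decide +kernel)

theorem A4_b0 : G [A4_p0] [A4_c0, A4_c1, A4_c2] 6 [93, 0, 0, 0, 0, 20] [100, 3, 6, 3, 37, 23] [200, 25, 25, 100, 100, 20] :=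
  G.leaf 195 677799156658588236423180000000000000000000000 [4, 3, 3, 3, 5, 1]
    (.nd 1 (.nd 4 (.nd 3 (.nd 2 (.lf [1, 0, -2215, -15667]) (.nd 0 (.lf [1, -782, -2066, -88554])
    (.lf [1, 0, -1961, -86185]))) (.lf [1, -912, -2578, -15518])) (.lf [1, 0, 0, 0])) (.lf [1, 0,
    -2413, 0]))
    (by decide +kernel)

theorem IK1_b4 : G [IK1_p0] [IK1_c0, IK1_c1, IK1_c2, IK1_c3, IK1_c4] 6 [93, 0, 0, 0, 0, 20] [100, 3, 6, 3, 3, 23] [200, 50, 25, 100, 80, 20] :=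
  G.leaf 253 11269219786994302254026059939840000000000000000000000000 [3, 4, 5, 4, 7, 1]
    (.nd 2 (.nd 4 (.nd 3 (.nd 4 (.lf [1, -10544, -629, 0, 0, 0]) (.nd 2 (.nd 2 (.lf [1, -13401,
    0, 0, -61133, 0]) (.lf [1, -14645, 0, 0, -77032, 0])) (.lf [1, -12025, 0, 0, 0, 0]))) (.lf
    [1, -13919, -150, 0, -24984, 0])) (.nd 2 (.nd 4 (.lf [1, -11648, -827, 0, -14556, 0]) (.lf
    [1, -9825, -1485, 0, 0, 0])) (.lf [1, -10392, 0, 0, 0, 0]))) (.nd 0 (.nd 0 (.lf [1, -14480,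
    -2451, 0, 0, -3656]) (.nd 3 (.nd 2 (.nd 4 (.nd 2 (.lf [1, -16684, 0, 0, -94105, 0]) (.lf [1,
    -15270, 0, 0, -79785, 0])) (.lf [1, 0, 0, 0, 0, 0])) (.lf [1, -1094, -118671, 0, 0,
    -3424248])) (.nd 4 (.lf [1, -16897, -1398, 0, 0, 0]) (.nd 2 (.nd 4 (.lf [1, -13731, -1157, 0,
    -20711, 0]) (.lf [1, -11141, -1827, 0, 0, 0])) (.lf [1, -13238, -760, 0, -92142, -49329])))))
    (.lf [1, -16068, -135847, 0, 0, -3731632])))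
    (by decide +kernel)

theorem IK1_b5 : G [IK1_p0] [IK1_c0, IK1_c1, IK1_c2, IK1_c3, IK1_c4] 6 [93, 3, 0, 0, 0, 20] [100, 6, 6, 3, 3, 23] [200, 50, 25, 100, 80, 20] :=
  G.leaf 269 12747998646663163070846217748480000000000000000000000000 [3, 4, 5, 4, 7, 1]
    (.nd 2 (.nd 0 (.nd 0 (.lf [1, -9821, -2043, 0, 0, 0]) (.nd 1 (.nd 4 (.nd 3 (.nd 2 (.lf [1, 0,
    -64443, 0, 0, 0]) (.nd 2 (.lf [1, -11211, -1461, 0, 0, 0]) (.nd 4 (.lf [1, -9827, -235, 0,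
    -25525, 0]) (.lf [1, -10958, 0, 0, -56794, 0])))) (.lf [1, -12266, -809, 0, 0, 0])) (.nd 2
    (.lf [1, -9726, -1760, 0, 0, 0]) (.nd 3 (.lf [1, 0, 0, 0, 0, 0]) (.lf [1, -9295, -913, 0,
    -186, 0])))) (.nd 4 (.lf [1, -77494, -147647, 0, 0, 0]) (.lf [1, -8022, -1656, 0, 0, 0]))))
    (.lf [1, -9944, -2049, 0, 0, 0])) (.lf [1, 0, -7062, -4563, 0, 0]))
    (by decide +kernel)

theorem IK1_b6 : G [IK1_p0] [IK1_c0, IK1_c1, IK1_c2, IK1_c3, IK1_c4] 6 [93, 0, 0, 0, 3, 20] [100, 3, 6, 3, 6, 23] [200, 25, 25, 100, 80, 20] :=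
  G.leaf 190 1437226137365960440500523909120000000000000000000000000 [3, 4, 5, 4, 7, 1]
    (.lf [1, 0, -399, -100, 0, 0])
    (by decide +kernel)

theorem IK1_b7 : G [IK1_p0] [IK1_c0, IK1_c1, IK1_c2, IK1_c3, IK1_c4] 6 [93, 0, 0, 0, 3, 20] [100, 3, 6, 3, 6, 23] [200, 25, 25, 100, 40, 20] :=
  G.leaf 176 28436015813069149766796369920000000000000000000000000 [3, 4, 5, 4, 7, 1]
    (.lf [1, 0, 0, 0, 0, 0])
    (by decide +kernel)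

theorem IK1_b8 : G [IK1_p0] [IK1_c0, IK1_c1, IK1_c2, IK1_c3, IK1_c4] 6 [93, 0, 0, 0, 3, 20] [100, 3, 6, 3, 6, 23] [200, 25, 25, 100, 20, 20] :=
  G.leaf 186 833720462856324488848998400000000000000000000000000 [3, 4, 5, 4, 7, 1]
    (.lf [1, 0, 0, -353, -3565, -30503])
    (by decide +kernel)

theorem IK3a_b0 : G [IK3a_p0] [IK3a_c0, IK3a_c1] 6 [93, 0, 0, 0, 0, 20] [100, 3, 6, 3, 3, 23] [200, 25, 25, 100, 10, 20] :=
  G.leaf 128 75743610919047347200000000000000000 [3, 4, 3, 3, 3, 1]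
    (.lf [4, -2093, -14])
    (by decide +kernel)

theorem IK3b_b0 : G [IK3b_p0] [IK3b_c0, IK3b_c1] 6 [93, 0, 0, 0, 0, 20] [100, 3, 6, 3, 3, 23] [200, 25, 25, 100, 10, 20] :=
  G.leaf 124 75743610919047347200000000000000000 [3, 4, 3, 3, 3, 1]
    (.lf [1, -103, -2])
    (by decide +kernel)

theorem IK4_b0 : G [IK4_p0] [IK4_c0] 6 [93, 0, 0, 0, 0, 20] [100, 3, 6, 3, 3, 23] [200, 25, 25, 100, 10, 20] :=
  G.leaf 122 17573469353860475800000000000000000 [2, 4, 4, 4, 3, 0]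
    (.lf [1, -149])
    (by decide +kernel)

theorem IK5_b0 : G [IK5_p0] [IK5_c0] 6 [93, 0, 0, 0, 0, 20] [100, 3, 6, 3, 3, 23] [200, 25, 25, 100, 10, 20] :=
  G.leaf 205 10378344848597164445567230200000000000000000000000000000 [5, 4, 5, 3, 7, 1]
    (.lf [1, -1809337])
    (by decide +kernel)

end Pool.Agent.Lib.MP_43bc59_co.F_SC
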