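import Pool.Agent.Lib.MP_43bc59_co.F_SC_0

set_option autoImplicit false
set_option maxRecDepth 100000

namespace Pool.Agent.Lib.MP_43bc59_co.F_SC

open Bx

theorem I0_b4 : G [I0_p0, I0_p1, I0_p2] [I0_c0, I0_c1] 6 [93, 0, 0, 0, 0, 20] [100, 3, 6, 3, 3, 23] [200, 25, 100, 100, 40, 20] :=
  G.leaf 160 435404160427337538303578112000000000000000000000 [4, 4, 3, 3, 5, 1]
    (.lf [1, 0, 0, 0, 0])
    (by decide +kernel)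

theorem I0_b7 : G [I0_p0, I0_p1, I0_p2] [I0_c0, I0_c1] 6 [186, 0, 0, 0, 3, 20] [193, 3, 6, 3, 6, 23] [400, 50, 100, 100, 40, 20] :=
  G.leaf 180 100459016978855554832682080010240000000000000000000 [4, 4, 3, 3, 5, 1]
    (.nd 4 (.nd 3 (.lf [1, 0, 0, 0, 0]) (.lf [0, 1, 0, 0, 0])) (.lf [0, 1, 0, 0, 0]))
    (by decide +kernel)

theorem I0_b8 : G [I0_p0, I0_p1, I0_p2] [I0_c0, I0_c1] 6 [186, 3, 0, 0, 3, 20] [193, 6, 6, 3, 6, 23] [400, 50, 100, 100, 40, 20] :=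
  G.leaf 227 198845927828555864690724647731200000000000000000000 [4, 4, 3, 3, 5, 1]
    (.nd 4 (.nd 1 (.nd 3 (.lf [1, 0, 0, 0, 0]) (.nd 0 (.nd 4 (.nd 0 (.lf [1, 0, 0, 0, 0]) (.lf
    [0, 1, 0, -2197, 0])) (.lf [1, 0, 0, 0, 0])) (.lf [1, 0, 0, 0, 0]))) (.lf [0, 0, 1, -527,
    0])) (.nd 1 (.nd 0 (.lf [0, 1, 0, -1417, 0]) (.nd 1 (.nd 0 (.lf [0, 1, 0, -1765, -8734]) (.nd
    4 (.lf [1, 0, 0, 0, 0]) (.lf [0, 1, 0, -1331, -9366]))) (.lf [0, 1, 0, 0, 0]))) (.nd 1 (.nd 2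
    (.nd 4 (.nd 0 (.nd 0 (.lf [0, 0, 1, 0, 0]) (.lf [0, 1, 0, -4069, 0])) (.lf [0, 0, 1, 0, 0]))
    (.nd 0 (.lf [0, 1, 0, -4295, 0]) (.nd 1 (.lf [0, 0, 1, 0, 0]) (.nd 0 (.lf [0, 1, 0, 0, 0])
    (.lf [0, 0, 1, 0, 0]))))) (.lf [1, 0, 0, -13090, 0])) (.lf [0, 0, 1, 0, 0]))))
    (by decide +kernel)

theorem I0_b9 : G [I0_p0, I0_p1, I0_p2] [I0_c0, I0_c1] 6 [193, 0, 0, 0, 3, 20] [200, 3, 6, 3, 6, 23] [400, 25, 100, 100, 40, 20] :=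
  G.leaf 220 9696977001059852665208143872000000000000000000000 [4, 4, 3, 3, 5, 1]
    (.nd 3 (.lf [1, 0, 0, 0, 0]) (.nd 4 (.lf [1, 0, 0, 0, 0]) (.nd 1 (.lf [1, 0, 0, 0, 0]) (.nd 1
    (.nd 0 (.nd 3 (.lf [1, 0, 0, 0, 0]) (.nd 2 (.nd 0 (.lf [1, 0, 0, 0, 0]) (.nd 4 (.lf [1, 0, 0,
    0, 0]) (.lf [0, 1, 0, 0, 0]))) (.lf [1, 0, 0, 0, 0]))) (.lf [1, 0, 0, 0, 0])) (.lf [0, 0, 1,
    0, 0])))))
    (by decide +kernel)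

theorem I0_b10 : G [I0_p0, I0_p1, I0_p2] [I0_c0, I0_c1] 6 [93, 0, 6, 0, 0, 20] [100, 3, 12, 3, 3, 23] [200, 25, 100, 100, 20, 20] :=
  G.leaf 170 16569992001810201818639155200000000000000000000 [4, 4, 3, 3, 5, 1]
    (.lf [1, 0, 0, 0, -32747])
    (by decide +kernel)

theorem I0_b12 : G [I0_p0, I0_p1, I0_p2] [I0_c0, I0_c1] 6 [93, 0, 0, 0, 3, 20] [100, 3, 6, 3, 6, 23] [200, 50, 50, 100, 20, 20] :=
  G.leaf 156 43609637608094819480923054080000000000000000000 [4, 4, 3, 3, 5, 1]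
    (.lf [0, 1, 0, 0, 0])
    (by decide +kernel)

theorem I0_b16 : G [I0_p0, I0_p1, I0_p2] [I0_c0, I0_c1] 6 [186, 3, 0, 0, 6, 20] [193, 6, 6, 3, 9, 23] [400, 50, 100, 100, 40, 20] :=
  G.leaf 226 246582371491449357509737611264000000000000000000000 [4, 4, 3, 3, 5, 1]
    (.nd 1 (.lf [0, 1, 0, 0, 0]) (.nd 3 (.lf [0, 1, 0, -2462, 0]) (.nd 0 (.lf [0, 1, 0, -5008,
    0]) (.nd 3 (.lf [0, 1, 0, -4004, 0]) (.nd 4 (.nd 1 (.lf [0, 1, 0, -1754, 0]) (.nd 4 (.lf [0,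
    1, 0, -4844, 0]) (.lf [0, 0, 1, 0, 0]))) (.lf [0, 1, 0, -2211, 0]))))))
    (by decide +kernel)

theorem I0_b18 : G [I0_p0, I0_p1, I0_p2] [I0_c0, I0_c1] 6 [193, 3, 0, 0, 12, 20] [200, 6, 6, 3, 15, 23] [400, 50, 100, 100, 80, 20] :=
  G.leaf 229 7856598331779541374761420665651200000000000000000000 [4, 4, 3, 3, 5, 1]
    (.nd 0 (.nd 1 (.lf [0, 1, 0, -574, 0]) (.nd 1 (.nd 4 (.nd 3 (.lf [0, 0, 1, 0, 0]) (.nd 2 (.nd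
    1 (.lf [0, 0, 1, 0, 0]) (.nd 0 (.lf [0, 0, 1, 0, 0]) (.lf [0, 1, 0, 0, 0]))) (.lf [1, 0, 0,
    0, 0]))) (.lf [0, 1, 0, -1625, 0])) (.lf [0, 0, 1, 0, 0]))) (.nd 4 (.lf [1, 0, 0, 0, -3612])
    (.nd 1 (.lf [0, 1, 0, 0, 0]) (.nd 1 (.nd 1 (.lf [0, 0, 1, 0, 0]) (.nd 0 (.lf [0, 1, 0, -633,
    -34221]) (.lf [1, 0, 0, 0, 0]))) (.lf [0, 0, 1, 0, 0])))))
    (by decide +kernel)

theorem I0_b19 : G [I0_p0, I0_p1, I0_p2] [I0_c0, I0_c1] 6 [193, 3, 0, 0, 15, 20] [200, 6, 6, 3, 18, 23] [400, 50, 100, 100, 80, 20] :=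
  G.leaf 222 8735916508944943566029908554547200000000000000000000 [4, 4, 3, 3, 5, 1]
    (.nd 3 (.lf [0, 1, 0, -1262, 0]) (.nd 1 (.lf [0, 1, 0, 0, 0]) (.nd 2 (.nd 0 (.lf [0, 1, 0,
    -4734, 0]) (.nd 1 (.lf [0, 1, 0, 0, 0]) (.nd 4 (.lf [0, 0, 1, 0, 0]) (.lf [0, 1, 0, -3729,
    0])))) (.lf [0, 1, 0, -4884, 0]))))
    (by decide +kernel)

theorem I0_b20 : G [I0_p0, I0_p1, I0_p2] [I0_c0, I0_c1] 6 [93, 3, 6, 0, 6, 20] [100, 6, 12, 3, 9, 23] [200, 50, 100, 100, 40, 20] :=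
  G.leaf 184 16447479600602151802083409920000000000000000000000 [4, 4, 3, 3, 5, 1]
    (.nd 0 (.lf [0, 1, 0, -5650, 0]) (.lf [1, 0, 0, -1966, 0]))
    (by decide +kernel)

theorem I0_b21 : G [I0_p0, I0_p1, I0_p2] [I0_c0, I0_c1] 6 [93, 3, 0, 0, 9, 20] [100, 6, 6, 3, 12, 23] [200, 50, 50, 100, 40, 20] :=
  G.leaf 172 2476138118501910000133400002560000000000000000000 [4, 4, 3, 3, 5, 1]
    (.lf [0, 1, 0, -916, 0])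
    (by decide +kernel)

theorem I0_b22 : G [I0_p0, I0_p1, I0_p2] [I0_c0, I0_c1] 6 [93, 0, 6, 0, 0, 20] [100, 3, 12, 3, 3, 23] [200, 25, 50, 100, 10, 20] :=
  G.leaf 167 92111989869187063421184000000000000000000000 [4, 4, 3, 3, 5, 1]
    (.nd 4 (.lf [1, 0, 0, 0, 0]) (.lf [1, 0, 0, -3401, 0]))
    (by decide +kernel)

theorem I1_b0 : G [I1_p0] [I1_c0] 6 [93, 0, 0, 0, 0, 20] [100, 3, 6, 3, 3, 23] [200, 25, 25, 100, 10, 20] :=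
  G.leaf 166 22007979214131923251200000000000000000000 [3, 4, 3, 3, 5, 1]
    (.nd 4 (.lf [1, -3233584]) (.lf [1, -5013553]))
    (by decide +kernel)

theorem BK1_b13 : G [BK1_p0] [BK1_c0, BK1_c1, BK1_c2, BK1_c3] 6 [93, 0, 0, 0, 0, 20] [100, 3, 6, 3, 31, 23] [200, 200, 25, 1600, 6400, 20] :=
  G.leaf 414 403363840622751337058263859973490356869555814400000000000000000000000000000000 [3, 4, 6, 4, 7, 1]
    (.nd 1 (.nd 3 (.nd 1 (.lf [1, 0, -49646, 0, -94854]) (.nd 4 (.nd 2 (.lf [1, -41297, 0, 0, 0])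
    (.nd 0 (.nd 2 (.nd 0 (.lf [1, 0, 0, 0, -42074]) (.nd 3 (.lf [1, 0, -51748, -32707, -99385])
    (.nd 3 (.lf [1, 0, -52492, -30644, -99440]) (.nd 1 (.lf [1, 0, -14311, 0, -27081]) (.nd 1
    (.lf [1, 0, -30176, 0, -57077]) (.nd 1 (.lf [1, 0, -52297, -8664, -99149]) (.nd 2 (.nd 2 (.nd
    2 (.lf [1, 0, 0, 0, -13329]) (.nd 3 (.lf [1, 0, 0, -46102, -64423]) (.nd 0 (.lf [1, 0, 0, 0,
    -2213]) (.nd 2 (.lf [1, 0, 0, 0, -14079]) (.lf [1, -46273, 0, 0, 0]))))) (.lf [1, 0, 0, 0,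
    -6613])) (.lf [1, -45725, 0, 0, 0])))))))) (.lf [1, 0, 0, 0, -15779])) (.lf [1, 0, 0, 0,
    -8748]))) (.lf [1, 0, 0, 0, 0]))) (.lf [1, 0, -47384, -31069, -95153])) (.lf [1, 0, -38287,
    0, -72946]))
    (by decide +kernel)

end Pool.Agent.Lib.MP_43bc59_co.F_SC
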