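import Pool.Agent.Lib.MP_43bc59_co.F_SC_0

set_option autoImplicit false
set_option maxRecDepth 100000

namespace Pool.Agent.Lib.MP_43bc59_co.F_SC

open Bx

theorem BK1_b14 : G [BK1_p0] [BK1_c0, BK1_c1, BK1_c2, BK1_c3] 6 [93, 0, 0, 3, 0, 20] [100, 3, 6, 6, 31, 23] [200, 200, 25, 1600, 6400, 20] :=
  G.leaf 277 405273069280987495486773485846635251118165196800000000000000000000000000000000 [3, 4, 6, 4, 7, 1]
    (.lf [1, 0, -48576, -27168, -96742])
    (by decide +kernel)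

theorem BK1_b15 : G [BK1_p0] [BK1_c0, BK1_c1, BK1_c2, BK1_c3] 6 [93, 0, 0, 3, 0, 20] [100, 3, 6, 6, 31, 23] [200, 200, 25, 800, 6400, 20] :=
  G.leaf 274 25549853283152084843321189291146083674200473600000000000000000000000000000000 [3, 4, 6, 4, 7, 1]
    (.lf [1, 0, -83544, -76010, -187484])
    (by decide +kernel)

theorem BK1_b16 : G [BK1_p0] [BK1_c0, BK1_c1, BK1_c2, BK1_c3] 6 [93, 0, 0, 0, 31, 20] [100, 3, 6, 3, 62, 23] [200, 200, 25, 400, 6400, 20] :=
  G.leaf 267 1617648713500962251191389468908818398183424000000000000000000000000000000000 [3, 4, 6, 4, 7, 1]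
    (.lf [1, 0, -17791, -10253, -36226])
    (by decide +kernel)

theorem BK1_b17 : G [BK1_p0] [BK1_c0, BK1_c1, BK1_c2, BK1_c3] 6 [93, 0, 0, 0, 31, 20] [100, 3, 6, 3, 62, 23] [200, 200, 25, 400, 3200, 20] :=
  G.leaf 258 13010051485773753469198212310802680197939200000000000000000000000000000000 [3, 4, 6, 4, 7, 1]
    (.lf [1, 0, 0, -3810, -6311])
    (by decide +kernel)

theorem BK1_b18 : G [BK1_p0] [BK1_c0, BK1_c1, BK1_c2, BK1_c3] 6 [93, 3, 0, 0, 0, 20] [100, 6, 6, 3, 31, 23] [200, 200, 25, 400, 1600, 20] :=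
  G.leaf 254 100677571789359526182622483128537579520000000000000000000000000000000000 [3, 4, 6, 4, 7, 1]
    (.lf [1, 0, -38268, -7838, -77640])
    (by decide +kernel)

theorem BK1_b19 : G [BK1_p0] [BK1_c0, BK1_c1, BK1_c2, BK1_c3] 6 [93, 0, 0, 3, 0, 20] [100, 3, 6, 6, 31, 23] [200, 100, 25, 400, 1600, 20] :=
  G.leaf 251 6382960087376453878294599847807077580800000000000000000000000000000000 [3, 4, 6, 4, 7, 1]
    (.lf [1, 0, -37841, -26374, -86084])
    (by decide +kernel)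

theorem BK1_b20 : G [BK1_p0] [BK1_c0, BK1_c1, BK1_c2, BK1_c3] 6 [93, 3, 0, 0, 0, 20] [100, 6, 6, 3, 31, 23] [200, 100, 25, 200, 1600, 20] :=
  G.leaf 247 405466810717805516537553982347594956800000000000000000000000000000000 [3, 4, 6, 4, 7, 1]
    (.lf [1, 0, -90257, -7472, -174697])
    (by decide +kernel)

theorem BK1_b21 : G [BK1_p0] [BK1_c0, BK1_c1, BK1_c2, BK1_c3] 6 [93, 0, 0, 3, 0, 20] [100, 3, 6, 6, 31, 23] [200, 50, 25, 200, 1600, 20] :=
  G.leaf 245 26129405003902495592838242610435686400000000000000000000000000000000 [3, 4, 6, 4, 7, 1]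
    (.lf [1, 0, -143562, -95115, -348610])
    (by decide +kernel)

theorem BK1_b22 : G [BK1_p0] [BK1_c0, BK1_c1, BK1_c2, BK1_c3] 6 [93, 3, 0, 0, 0, 20] [100, 6, 6, 3, 31, 23] [200, 50, 25, 100, 1600, 20] :=
  G.leaf 240 1727087770889439776378677196256153600000000000000000000000000000000 [3, 4, 6, 4, 7, 1]
    (.lf [1, 0, 0, 0, -331366])
    (by decide +kernel)

theorem BK1_b23 : G [BK1_p0] [BK1_c0, BK1_c1, BK1_c2, BK1_c3] 6 [93, 0, 0, 0, 31, 20] [100, 3, 6, 3, 62, 23] [200, 25, 25, 100, 1600, 20] :=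
  G.leaf 234 121406475406913058142987541986201600000000000000000000000000000000 [3, 4, 6, 4, 7, 1]
    (.lf [1, 0, -23658, -9313, -56730])
    (by decide +kernel)

theorem BK1_b24 : G [BK1_p0] [BK1_c0, BK1_c1, BK1_c2, BK1_c3] 6 [93, 0, 0, 0, 31, 20] [100, 3, 6, 3, 62, 23] [200, 25, 25, 100, 800, 20] :=
  G.leaf 226 1194756530893069077534059269376000000000000000000000000000000000 [3, 4, 6, 4, 7, 1]
    (.lf [1, 0, -5445, -5786, -29657])
    (by decide +kernel)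

theorem BK1_b25 : G [BK1_p0] [BK1_c0, BK1_c1, BK1_c2, BK1_c3] 6 [93, 0, 0, 0, 31, 20] [100, 3, 6, 3, 62, 23] [200, 25, 25, 100, 400, 20] :=
  G.leaf 218 14118538106489898818043034393600000000000000000000000000000000 [3, 4, 6, 4, 7, 1]
    (.lf [1, 0, 0, -1842, -11443])
    (by decide +kernel)

theorem BK1_b26 : G [BK1_p0] [BK1_c0, BK1_c1, BK1_c2, BK1_c3] 6 [93, 0, 0, 0, 31, 20] [100, 3, 6, 3, 62, 23] [200, 25, 25, 100, 200, 20] :=
  G.leaf 199 224099275086562822537465548800000000000000000000000000000000 [3, 4, 6, 4, 7, 1]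
    (.lf [1, 0, 0, 0, 0])
    (by decide +kernel)

theorem BK3a_b0 : G [BK3a_p0] [BK3a_c0, BK3a_c1, BK3a_c2] 6 [93, 0, 0, 0, 0, 20] [100, 3, 6, 3, 31, 23] [200, 25, 25, 100, 100, 20] :=
  G.leaf 169 192014753806853683200000000000000000000 [3, 4, 3, 3, 3, 1]
    (.nd 4 (.lf [1, -25, -45, -5]) (.nd 1 (.lf [1, -213, -162, -8]) (.nd 3 (.lf [1, 0, -126,
    -12]) (.nd 2 (.nd 1 (.nd 4 (.lf [1, -162, -21, -5]) (.lf [1, -302, -132, -16])) (.lf [1, 0,
    -74, -94])) (.lf [1, 0, -182, -27])))))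
    (by decide +kernel)

end Pool.Agent.Lib.MP_43bc59_co.F_SC
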