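import Pool.Agent.Lib.MP_43bc59_co.F_SC_0

set_option autoImplicit false
set_option maxRecDepth 100000

namespace Pool.Agent.Lib.MP_43bc59_co.F_SC

open Bx

theorem BK3b_b0 : G [BK3b_p0] [BK3b_c0, BK3b_c1, BK3b_c2] 6 [93, 0, 0, 0, 0, 20] [100, 3, 6, 3, 31, 23] [200, 25, 25, 100, 100, 20] :=
  G.leaf 142 192014753806853683200000000000000000000 [3, 4, 3, 3, 3, 1]
    (.nd 2 (.lf [4, 0, -76, -27]) (.lf [1, -251, -149, -2]))
    (by decide +kernel)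

theorem BK4a_b0 : G [BK4a_p0] [BK4a_c0] 6 [93, 0, 0, 0, 0, 20] [100, 3, 6, 3, 31, 23] [200, 25, 25, 100, 100, 20] :=
  G.leaf 127 9606400000000000000000000000000000000 [2, 4, 4, 4, 3, 0]
    (.lf [4, -1])
    (by decide +kernel)

theorem BK4b_b0 : G [BK4b_p0] [BK4b_c0] 6 [93, 0, 0, 0, 0, 20] [100, 3, 6, 3, 31, 23] [200, 25, 25, 100, 100, 20] :=
  G.leaf 128 21423200000000000000000000000000000000 [2, 4, 4, 4, 3, 0]
    (.lf [4, -1])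
    (by decide +kernel)

theorem BK5_b0 : G [BK5_p0] [BK5_c0] 6 [93, 0, 0, 0, 0, 20] [100, 3, 6, 3, 31, 23] [200, 25, 25, 100, 100, 20] :=
  G.leaf 246 24145790686806527449884905120000000000000000000000000000000000 [5, 4, 6, 3, 7, 1]
    (.nd 4 (.lf [1, -1068]) (.nd 1 (.lf [1, -3136]) (.nd 1 (.lf [1, -1922]) (.nd 1 (.lf [1,
    -1222]) (.lf [1, 0])))))
    (by decide +kernel)

theorem B5_b0 : G [B5_p0, B5_p1] [B5_c0] 6 [93, 0, 0, 0, 0, 20] [100, 3, 6, 3, 31, 23] [200, 25, 25, 100, 100, 20] :=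
  G.leaf 203 1553340073033057725362880000000000000000000000000000 [4, 4, 4, 3, 5, 1]
    (.nd 4 (.lf [1, 0, -13977472]) (.lf [0, 1, -11712537]))
    (by decide +kernel)

theorem B6_b0 : G [B6_p0, B6_p1, B6_p2] [B6_c0, B6_c1, B6_c2, B6_c3, B6_c4] 6 [93, 0, 0, 0, 0, 20] [100, 3, 6, 3, 31, 23] [200, 25, 25, 100, 100, 20] :=
  G.leaf 250 6032567892524795192106353016000000000000000000000000000000 [5, 4, 4, 4, 5, 1]
    (.nd 1 (.lf [1, 0, 0, 0, -523481266, -410599071, -40288074, -65510168]) (.nd 4 (.nd 0 (.nd 1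
    (.lf [0, 1, 0, -151185900, 0, -59346662, 0, 0]) (.lf [0, 1, 0, -116775492, 0, -152137776, 0,
    0])) (.lf [0, 1, 0, -187217635, 0, -107342723, 0, 0])) (.nd 3 (.lf [0, 1, 0, -70986276, 0,
    -351075437, 0, 0]) (.lf [0, 0, 1, -14109986, 0, 0, 0, 0]))))
    (by decide +kernel)

theorem sb2_b0 : G [sb2_p0] [sb2_c0] 6 [93, 0, 0, 0, 0, 20] [100, 3, 6, 3, 1, 23] [200, 25, 25, 100, 2, 20] :=
  G.leaf 38 3400000000 [1, 1, 1, 1, 0, 0]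
    (.lf [1, -30])
    (by decide +kernel)

theorem sb3_b0 : G [sb3_p0] [sb3_c0] 6 [93, 0, 0, 0, 0, 20] [100, 3, 6, 3, 1, 23] [200, 25, 25, 100, 2, 20] :=
  G.leaf 62 13600000000000000 [2, 2, 1, 2, 0, 0]
    (.nd 1 (.lf [1, 0]) (.lf [1, -9]))
    (by decide +kernel)

theorem sb7_b0 : G [sb7_p0] [sb7_c0] 6 [93, 0, 0, 0, 0, 20] [100, 3, 6, 3, 1, 23] [200, 25, 25, 100, 2, 20] :=
  G.leaf 40 24016000000 [1, 1, 1, 1, 0, 0]
    (.lf [16, -2])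
    (by decide +kernel)

theorem f0_b0 : G [f0_p0] [f0_c0] 6 [93, 0, 0, 0, 0, 20] [100, 3, 6, 3, 1, 23] [200, 25, 25, 100, 2, 20] :=
  G.leaf 46 4331600000000 [2, 2, 1, 1, 0, 0]
    (.lf [4, -1])
    (by decide +kernel)

theorem Lq_b1 : G [Lq_p0] [Lq_c0, Lq_c1] 6 [93, 0, 0, 0, 0, 20] [100, 3, 6, 3, 1, 23] [200, 25, 25, 100, 4, 20] :=
  G.leaf 86 6148096000000000000000000 [4, 2, 2, 2, 1, 0]
    (.lf [4, 0, -1])
    (by decide +kernel)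

theorem Lq_b5 : G [Lq_p0] [Lq_c0, Lq_c1] 6 [186, 0, 0, 0, 2, 20] [193, 3, 6, 3, 3, 23] [400, 50, 25, 100, 8, 20] :=
  G.leaf 115 734789632000000000000000000 [4, 2, 2, 2, 1, 0]
    (.nd 2 (.nd 0 (.lf [16384, -86, -177]) (.nd 1 (.lf [1024, -6, -12]) (.lf [4096, -25, -49])))
    (.nd 0 (.lf [4096, -26, -42]) (.lf [1024, -7, -12])))
    (by decide +kernel)

theorem Lq_b7 : G [Lq_p0] [Lq_c0, Lq_c1] 6 [193, 0, 0, 0, 4, 20] [200, 3, 6, 3, 5, 23] [400, 50, 25, 100, 16, 20] :=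
  G.leaf 94 1520959488000000000000000000 [4, 2, 2, 2, 1, 0]
    (.lf [4, 0, -1])
    (by decide +kernel)

theorem Lq_b11 : G [Lq_p0] [Lq_c0, Lq_c1] 6 [193, 0, 0, 0, 5, 20] [200, 3, 6, 3, 6, 23] [400, 100, 50, 200, 16, 20] :=
  G.leaf 133 90376241152000000000000000000 [4, 2, 2, 2, 1, 0]
    (.nd 0 (.nd 2 (.lf [1024, -6, -14]) (.lf [4096, -29, -51])) (.nd 4 (.lf [4, 0, -1]) (.nd 2
    (.nd 0 (.lf [4096, -29, -58]) (.nd 1 (.lf [16384, -121, -246]) (.nd 2 (.lf [4096, -32, -61])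
    (.lf [4096, -31, -61])))) (.nd 0 (.lf [1024, -8, -14]) (.nd 1 (.lf [16384, -131, -242]) (.lf
    [1024, -9, -15]))))))
    (by decide +kernel)

end Pool.Agent.Lib.MP_43bc59_co.F_SC
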