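import Pool.Agent.Lib.MP_43bc59_co.F_SC_0

set_option autoImplicit false
set_option maxRecDepth 100000

namespace Pool.Agent.Lib.MP_43bc59_co.F_SC

open Bx

theorem Lq_b12 : G [Lq_p0] [Lq_c0, Lq_c1] 6 [193, 0, 0, 3, 5, 20] [200, 3, 6, 6, 6, 23] [400, 100, 50, 200, 16, 20] :=
  G.leaf 139 91612512256000000000000000000 [4, 2, 2, 2, 1, 0]
    (.nd 0 (.nd 2 (.lf [1024, -6, -14]) (.lf [4096, -27, -55])) (.nd 4 (.lf [4, 0, -1]) (.nd 3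
    (.nd 2 (.nd 1 (.lf [4096, -28, -61]) (.nd 0 (.lf [1024, -7, -14]) (.nd 2 (.lf [4096, -32,
    -61]) (.lf [4096, -30, -61])))) (.nd 0 (.lf [1024, -8, -14]) (.nd 1 (.lf [65536, -513, -983])
    (.lf [4096, -33, -61])))) (.nd 2 (.nd 0 (.lf [1024, -7, -14]) (.nd 1 (.lf [64, 0, -1]) (.lf
    [65536, -490, -983]))) (.nd 0 (.lf [4096, -31, -56]) (.nd 0 (.lf [1024, -8, -15]) (.lf
    [16384, -130, -246])))))))
    (by decide +kernel)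

theorem Lq_b13 : G [Lq_p0] [Lq_c0, Lq_c1] 6 [193, 3, 0, 0, 5, 20] [200, 6, 6, 3, 6, 23] [400, 100, 50, 100, 16, 20] :=
  G.leaf 135 23728226304000000000000000000 [4, 2, 2, 2, 1, 0]
    (.nd 0 (.nd 2 (.lf [4096, -29, -51]) (.lf [1024, -8, -13])) (.nd 2 (.nd 0 (.lf [16384, -121,
    -231]) (.nd 1 (.nd 0 (.lf [1024, -8, -15]) (.lf [16384, -130, -246])) (.lf [16384, -133,
    -245]))) (.lf [1, -1, 0])))
    (by decide +kernel)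

theorem Lq_b14 : G [Lq_p0] [Lq_c0, Lq_c1] 6 [193, 0, 6, 0, 5, 20] [200, 3, 12, 3, 6, 23] [400, 50, 50, 100, 16, 20] :=
  G.leaf 110 6392905728000000000000000000 [4, 2, 2, 2, 1, 0]
    (.nd 0 (.lf [1024, -8, -13]) (.lf [1, -4, 0]))
    (by decide +kernel)

theorem Lq_b15 : G [Lq_p0] [Lq_c0, Lq_c1] 6 [93, 3, 0, 0, 2, 20] [100, 6, 6, 3, 3, 23] [200, 50, 25, 100, 8, 20] :=
  G.leaf 121 51642368000000000000000000 [4, 2, 2, 2, 1, 0]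
    (.nd 2 (.nd 1 (.nd 2 (.lf [4, -2, 0]) (.nd 4 (.nd 0 (.lf [4096, -26, -49]) (.lf [4, 0, -1]))
    (.nd 0 (.lf [1024, -7, -10]) (.nd 0 (.lf [1024, -8, -13]) (.lf [1, -1, 0]))))) (.lf [4, -1,
    0])) (.lf [16, -1, 0]))
    (by decide +kernel)

theorem Lq_b16 : G [Lq_p0] [Lq_c0, Lq_c1] 6 [93, 0, 0, 0, 3, 20] [100, 3, 6, 3, 4, 23] [200, 25, 25, 100, 8, 20] :=
  G.leaf 100 12296192000000000000000000 [4, 2, 2, 2, 1, 0]
    (.nd 1 (.lf [4096, -34, 0]) (.lf [64, -1, 0]))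
    (by decide +kernel)

theorem f2_b0 : G [f2_p0] [f2_c0] 6 [93, 0, 0, 0, 0, 20] [100, 3, 6, 3, 3, 23] [200, 25, 25, 100, 10, 20] :=
  G.leaf 40 26894677500 [1, 1, 1, 1, 1, 0]
    (.lf [1, -16])
    (by decide +kernel)

theorem hI_b0 : G [hI_p0] [hI_c0, hI_c1] 6 [93, 0, 0, 0, 0, 20] [100, 3, 6, 3, 1, 23] [200, 25, 25, 100, 2, 20] :=
  G.leaf 41 5603200000 [1, 1, 1, 1, 1, 0]
    (.lf [4, -101, -10])
    (by decide +kernel)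

theorem hBa_b0 : G [hBa_p0] [hBa_c0, hBa_c1] 6 [93, 0, 0, 0, 0, 20] [100, 3, 6, 3, 1, 23] [200, 25, 25, 100, 2, 20] :=
  G.leaf 44 96064000000 [1, 1, 1, 1, 1, 0]
    (.lf [16, -48, -3])
    (by decide +kernel)

theorem hBb_b0 : G [hBb_p0] [hBb_c0, hBb_c1] 6 [93, 0, 0, 0, 0, 20] [100, 3, 6, 3, 1, 23] [200, 25, 25, 100, 2, 20] :=
  G.leaf 48 218032000000 [1, 1, 1, 1, 1, 0]
    (.nd 4 (.lf [1, 0, 0]) (.lf [64, -70, -11]))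
    (by decide +kernel)

theorem rd_b0 : G [rd_p0] [] 6 [93, 0, 0, 0, 0, 20] [100, 3, 6, 3, 37, 23] [200, 25, 25, 100, 100, 20] :=
  G.leaf 39 249490720000 [1, 1, 1, 1, 1, 0]
    (.lf [1])
    (by decide +kernel)

theorem w2_b0 : G [w2_p0] [w2_c0] 6 [93, 0, 0, 0, 0, 20] [100, 3, 6, 3, 1, 23] [200, 25, 25, 100, 2, 20] :=
  G.leaf 60 151544966625000000 [2, 2, 2, 2, 1, 0]
    (.lf [1, -2])
    (by decide +kernel)

theorem hL_b0 : G [hL_p0] [hL_c0] 6 [93, 0, 0, 0, 0, 20] [100, 3, 6, 3, 1, 23] [200, 25, 25, 100, 2, 20] :=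
  G.leaf 56 1201340964000000 [2, 2, 1, 2, 0, 0]
    (.lf [4, -15])
    (by decide +kernel)

theorem nB_b0 : G [nB_p0] [] 6 [93, 0, 0, 0, 0, 20] [100, 3, 6, 3, 31, 23] [200, 25, 25, 100, 100, 20] :=
  G.leaf 81 1159159593984000000000000 [2, 4, 2, 2, 1, 0]
    (.lf [1])
    (by decide +kernel)

theorem nI_b0 : G [nI_p0] [] 6 [93, 0, 0, 0, 0, 20] [100, 3, 6, 3, 3, 23] [200, 25, 25, 100, 10, 20] :=
  G.leaf 79 212526519961200000000000 [2, 4, 2, 2, 1, 0]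
    (.lf [1])
    (by decide +kernel)

end Pool.Agent.Lib.MP_43bc59_co.F_SC
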