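import Pool.Agent.Lib.MP_43bc59_co.F_SC_0

set_option autoImplicit false
set_option maxRecDepth 100000

namespace Pool.Agent.Lib.MP_43bc59_co.F_SC

open Bx

theorem kc_b0 : G [kc_p0] [] 6 [93, 0, 0, 0, 0, 20] [100, 3, 6, 3, 1, 23] [200, 25, 25, 100, 2, 20] :=
  G.leaf 65 9849226372418750000 [2, 2, 2, 2, 0, 0]
    (.lf [1])
    (by decide +kernel)

theorem r1_b0 : G [r1_p0] [] 6 [93, 0, 0, 0, 0, 20] [100, 3, 6, 3, 1, 23] [200, 25, 25, 100, 2, 20] :=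
  G.leaf 39 149449000000 [1, 2, 1, 1, 0, 0]
    (.lf [1])
    (by decide +kernel)

theorem r2_b0 : G [r2_p0] [] 6 [93, 0, 0, 0, 0, 20] [100, 3, 6, 3, 1, 23] [200, 25, 25, 100, 2, 20] :=
  G.leaf 38 134974000000 [1, 2, 1, 1, 0, 0]
    (.lf [1])
    (by decide +kernel)

theorem mL_b0 : G [mL_p0] [] 6 [93, 0, 0, 0, 0, 20] [100, 11, 6, 3, 7, 23] [200, 100, 25, 100, 25, 20] :=
  G.leaf 39 165296000000 [1, 1, 1, 0, 2, 0]
    (.lf [1])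
    (by decide +kernel)

theorem mA_b0 : G [mA_p0] [] 6 [93, 0, 0, 0, 0, 20] [100, 3, 6, 3, 37, 23] [200, 25, 25, 100, 100, 20] :=
  G.leaf 29 154947600 [1, 0, 0, 0, 2, 0]
    (.lf [1])
    (by decide +kernel)

theorem mI_b0 : G [mI_p0] [] 6 [93, 0, 0, 0, 0, 20] [100, 3, 6, 3, 3, 23] [200, 25, 25, 100, 10, 20] :=
  G.leaf 34 4978600000 [1, 1, 1, 0, 2, 0]
    (.lf [1])
    (by decide +kernel)

theorem mB_b0 : G [mB_p0] [] 6 [93, 0, 0, 0, 0, 20] [100, 3, 6, 3, 31, 23] [200, 25, 25, 100, 100, 20] :=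
  G.leaf 39 219040000000 [1, 1, 1, 0, 2, 0]
    (.lf [1])
    (by decide +kernel)

theorem mB0_b0 : G [mB0_p0] [] 6 [93, 0, 0, 0, 0, 20] [100, 3, 6, 3, 31, 23] [200, 25, 25, 100, 100, 20] :=
  G.leaf 38 78430000000 [1, 1, 1, 0, 2, 0]
    (.lf [1])
    (by decide +kernel)

theorem N1_b0 : G [N1_p0] [N1_c0, N1_c1, N1_c2] 5 [93, 93, 0, 0, 1] [100, 120, 3, 7, 2] [200, 200, 10, 50, 1] :=
  G.leaf 157 1649688576000000000000000000000 [3, 3, 3, 3, 3]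
    (.nd 2 (.nd 4 (.nd 3 (.nd 4 (.lf [1024, -8690, -2511, -2]) (.lf [4096, -14484, -3708, -2]))
    (.lf [1024, -4415, 0, -2])) (.lf [64, -3679, -817, -1])) (.nd 4 (.nd 3 (.lf [1, -5, -5, 0])
    (.nd 3 (.nd 1 (.lf [256, -586, -877, -1]) (.nd 2 (.lf [1024, -5577, -2046, -2]) (.nd 4 (.nd 1
    (.lf [256, -924, -1472, -1]) (.lf [16384, -94089, -77641, -35])) (.lf [1, 0, -1, 0])))) (.lf
    [256, -82, 0, -1]))) (.nd 1 (.lf [1024, -27655, -17325, -15]) (.nd 3 (.lf [1, -30, -26, 0])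
    (.nd 1 (.lf [4096, -41718, -31898, -23]) (.lf [1024, -11010, -7491, -5]))))))
    (by decide +kernel)

theorem N2_b1 : G [N2_p0] [N2_c0, N2_c1, N2_c2, N2_c3, N2_c4] 5 [93, 93, 0, 0, 2] [100, 120, 31, 7, 3] [200, 200, 100, 50, 2] :=
  G.leaf 163 5536428851200000000000000000000000 [3, 3, 3, 3, 3]
    (.nd 2 (.nd 3 (.lf [4096, -7149, 0, -261, -9, 0]) (.nd 4 (.nd 3 (.nd 2 (.lf [256, -303, 0, 0,
    -1, 0]) (.lf [4096, -9090, 0, 0, -14, -709])) (.nd 1 (.lf [4, 0, 0, 0, -1, -1]) (.nd 2 (.lf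
    [1024, -1564, -211, 0, -7, 0]) (.lf [65536, -109115, -5555, 0, -346, -21062])))) (.lf [256,
    -987, 0, 0, -2, 0]))) (.nd 3 (.nd 2 (.lf [4096, 0, 0, -2125, -7, 0]) (.lf [4, 0, 0, -6, 0,
    0])) (.nd 3 (.nd 2 (.lf [256, 0, 0, -6, -1, 0]) (.nd 1 (.lf [256, 0, 0, -246, -2, 0]) (.nd 3
    (.lf [4096, 0, 0, 0, -27, 0]) (.nd 4 (.lf [1024, 0, 0, -67, -2, 0]) (.nd 1 (.lf [1024, 0, 0,
    -909, -3, 0]) (.lf [4, 0, 0, -1, 0, 0])))))) (.lf [256, -33, 0, 0, -1, 0]))))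
    (by decide +kernel)

theorem N2_b2 : G [N2_p0] [N2_c0, N2_c1, N2_c2, N2_c3, N2_c4] 5 [93, 93, 0, 0, 3] [100, 120, 31, 7, 4] [200, 200, 100, 50, 2] :=
  G.leaf 190 5536428851200000000000000000000000 [3, 3, 3, 3, 3]
    (.nd 2 (.lf [64, -49911, 0, -3340, -22, 0]) (.nd 3 (.lf [256, -4315, 0, -1672, -1, 0]) (.nd 3
    (.nd 1 (.lf [256, 0, 0, -434, -3, 0]) (.nd 0 (.lf [256, 0, 0, -316, -1, 0]) (.nd 1 (.nd 3
    (.lf [4096, 0, 0, -1822, -42, 0]) (.nd 4 (.nd 1 (.nd 2 (.lf [1, 0, 0, 0, 0, 0]) (.nd 4 (.nd 1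
    (.lf [256, 0, 0, -581, -3, 0]) (.lf [262144, 0, 0, -342303, -1266, 0])) (.lf [4096, 0, 0,
    -4889, -19, 0]))) (.lf [256, -436, 0, -531, -3, 0])) (.lf [1024, 0, 0, -1751, -7, 0]))) (.lf
    [4, 0, 0, -2, 0, 0])))) (.lf [64, 0, 0, 0, -1, 0]))))
    (by decide +kernel)

theorem NQ_b0 : G [NQ_p0] [] 5 [93, 93, 0, 0, 1] [100, 120, 31, 7, 2] [200, 200, 100, 50, 1] :=
  G.leaf 42 1944010178800 [2, 1, 1, 1, 1]
    (.lf [1])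
    (by decide +kernel)

theorem HS_b0 : G [HS_p0] [] 4 [93, 0, 97, 0] [100, 3, 125, 16] [200, 25, 100, 25] :=
  G.leaf 64 5719618461400000000 [2, 2, 1, 3]
    (.lf [1])
    (by decide +kernel)

theorem HY_b0 : G [HY_p0] [] 3 [93, 0, 97] [100, 3, 125] [200, 25, 100] :=
  G.leaf 45 9861205227200 [2, 1, 1]
    (.lf [1])
    (by decide +kernel)

end Pool.Agent.Lib.MP_43bc59_co.F_SC
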