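import Pool.Agent.Lib.MP_43bc59_co.F_SC_0

set_option autoImplicit false
set_option maxRecDepth 100000

namespace Pool.Agent.Lib.MP_43bc59_co.F_SC

open Bx

theorem NT_b0 : G [NT_p0] [NT_c0] 3 [93, 5, 0] [100, 6, 7] [200, 10, 50] :=
  G.leaf 58 336678496000000 [2, 2, 2]
    (.lf [1, -409])
    (by decide +kernel)

end Pool.Agent.Lib.MP_43bc59_co.F_SC
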