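import Pool.Agent.Lib.MP_43bc59_co.F_SC_1
import Pool.Agent.Lib.MP_43bc59_co.F_SC_2
import Pool.Agent.Lib.MP_43bc59_co.F_SC_3
import Pool.Agent.Lib.MP_43bc59_co.F_SC_4
import Pool.Agent.Lib.MP_43bc59_co.F_SC_5
import Pool.Agent.Lib.MP_43bc59_co.F_SC_6
import Pool.Agent.Lib.MP_43bc59_co.F_SC_7
import Pool.Agent.Lib.MP_43bc59_co.F_SC_8
import Pool.Agent.Lib.MP_43bc59_co.F_SC_9

set_option autoImplicit false
set_option maxRecDepth 100000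
set_option linter.unusedSimpArgs false

namespace Pool.Agent.Lib.MP_43bc59_co.F_SC

open Bx

theorem LK1_b4 : G [LK1_p0] [LK1_c0, LK1_c1, LK1_c2, LK1_c3] 6 [93, 0, 0, 0, 0, 20] [100, 11, 6, 3, 7, 23] [200, 200, 25, 100, 200, 20] :=
  G.split 2 LK1_b5 LK1_b6

theorem LK1_b3 : G [LK1_p0] [LK1_c0, LK1_c1, LK1_c2, LK1_c3] 6 [93, 0, 0, 0, 0, 20] [100, 11, 6, 3, 7, 23] [200, 100, 25, 100, 200, 20] :=
  G.split 1 LK1_b4 LK1_b7

theorem LK1_b2 : G [LK1_p0] [LK1_c0, LK1_c1, LK1_c2, LK1_c3] 6 [93, 0, 0, 0, 0, 20] [100, 11, 6, 3, 7, 23] [200, 100, 25, 100, 100, 20] :=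
  G.split 4 LK1_b3 LK1_b8

theorem LK1_b1 : G [LK1_p0] [LK1_c0, LK1_c1, LK1_c2, LK1_c3] 6 [93, 0, 0, 0, 0, 20] [100, 11, 6, 3, 7, 23] [200, 100, 25, 100, 50, 20] :=
  G.split 4 LK1_b2 LK1_b9

theorem LK1_b0 : G [LK1_p0] [LK1_c0, LK1_c1, LK1_c2, LK1_c3] 6 [93, 0, 0, 0, 0, 20] [100, 11, 6, 3, 7, 23] [200, 100, 25, 100, 25, 20] :=
  G.split 4 LK1_b1 LK1_b10

theorem LK1 (θ b o e h ω : ℝ)
    (l0 : (93 : ℝ) ≤ 200 * θ) (u0 : 200 * θ ≤ 100)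
    (l1 : (0 : ℝ) ≤ 100 * b) (u1 : 100 * b ≤ 11)
    (l2 : (0 : ℝ) ≤ 25 * o) (u2 : 25 * o ≤ 6)
    (l3 : (0 : ℝ) ≤ 100 * e) (u3 : 100 * e ≤ 3)
    (l4 : (0 : ℝ) ≤ 25 * h) (u4 : 25 * h ≤ 7)
    (l5 : (20 : ℝ) ≤ 20 * ω) (u5 : 20 * ω ≤ 23)
    (c0 : 0 ≤ h - e)
    (c1 : 0 ≤ ((14 * θ) - 1) - (10 * ((θ * ((1 + o) - e)) + b)))
    (c2 : 0 ≤ (θ * (h - b)) - (((θ * ((1 + o) - e)) + b) * (((θ * ((1 + o) - e)) + b) - (1 -
    θ))))
    (c3 : 0 ≤ h * ((17 - (30 * θ)) - (30 * b)))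
    :
    0 ≤ (((((20 - ((((((40 * θ) + (32 * b)) + (13 * o)) - (30 * h)) - 10) * e)) * ((400 * (θ *
    θ)) - ((h * (((((132 * θ) + (90 * b)) - (45 * h)) - (32 * o)) - 39)) * (h * (((((132 * θ) +
    (90 * b)) - (45 * h)) - (32 * o)) - 39))))) * (1 + (o * ω))) - (8000 * ((θ * θ) * ((1 + (o *
    ω)) - ((2 - (1 + (o * ω))) * h))))) * ((((1 + o) - e) - h) * (((1 + o) - e) - h))) + (8000 *
    (((((1 - θ) * (1 - θ)) * h) * h) * ((1 + (o * ω)) - ((2 - (1 + (o * ω))) * h)))) := by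
  have hbx := LK1_b0 [θ, b, o, e, h, ω] rfl
    (by simp only [InBox, List.map_cons, List.map_nil]; push_cast; exact ⟨⟨by norm_num, by
    norm_num⟩, ⟨by linarith, by linarith⟩, ⟨by norm_num, by norm_num⟩, ⟨by linarith, by
    linarith⟩, ⟨by norm_num, by norm_num⟩, ⟨by linarith, by linarith⟩, ⟨by norm_num, by
    norm_num⟩, ⟨by linarith, by linarith⟩, ⟨by norm_num, by norm_num⟩, ⟨by linarith, by
    linarith⟩, ⟨by norm_num, by norm_num⟩, ⟨by linarith, by linarith⟩, trivial⟩)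
    (by simp only [List.forall_mem_cons, List.not_mem_nil, false_imp_iff, implies_true, and_true,
    LK1_p0, LK1_c0, LK1_c1, LK1_c2, LK1_c3, E.val, List.getD_cons_zero, List.getD_cons_succ,
    Int.cast_ofNat, Int.cast_one, Int.cast_zero]; exact ⟨c0, c1, c2, c3⟩)
  simpa only [List.mem_cons, List.not_mem_nil, or_false, exists_eq_or_imp, exists_eq_left,
  LK1_p0, LK1_c0, LK1_c1, LK1_c2, LK1_c3, E.val, List.getD_cons_zero, List.getD_cons_succ,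
  Int.cast_ofNat, Int.cast_one, Int.cast_zero] using hbx

theorem LK3 (θ b o e h ω : ℝ)
    (l0 : (93 : ℝ) ≤ 200 * θ) (u0 : 200 * θ ≤ 100)
    (l1 : (0 : ℝ) ≤ 100 * b) (u1 : 100 * b ≤ 11)
    (l2 : (0 : ℝ) ≤ 25 * o) (u2 : 25 * o ≤ 6)
    (l3 : (0 : ℝ) ≤ 100 * e) (u3 : 100 * e ≤ 3)
    (l4 : (0 : ℝ) ≤ 25 * h) (u4 : 25 * h ≤ 7)
    (l5 : (20 : ℝ) ≤ 20 * ω) (u5 : 20 * ω ≤ 23)
    (c0 : 0 ≤ ((14 * θ) - 1) - (10 * ((θ * ((1 + o) - e)) + b)))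
    (c1 : 0 ≤ (17 - (30 * θ)) - (30 * b))
    :
    0 ≤ (20 * (((θ * ((1 + o) - e)) - h) * ((θ * ((1 + o) - e)) - h))) - (((((1 + (o * ω)) *
    (((((40 * θ) + (32 * b)) + (13 * o)) - (30 * h)) - 10)) * θ) * θ) * (((1 + o) - e) - h)) := by
  have hbx := LK3_b0 [θ, b, o, e, h, ω] rfl
    (by simp only [InBox, List.map_cons, List.map_nil]; push_cast; exact ⟨⟨by norm_num, by
    norm_num⟩, ⟨by linarith, by linarith⟩, ⟨by norm_num, by norm_num⟩, ⟨by linarith, by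
    linarith⟩, ⟨by norm_num, by norm_num⟩, ⟨by linarith, by linarith⟩, ⟨by norm_num, by
    norm_num⟩, ⟨by linarith, by linarith⟩, ⟨by norm_num, by norm_num⟩, ⟨by linarith, by
    linarith⟩, ⟨by norm_num, by norm_num⟩, ⟨by linarith, by linarith⟩, trivial⟩)
    (by simp only [List.forall_mem_cons, List.not_mem_nil, false_imp_iff, implies_true, and_true,
    LK3_p0, LK3_c0, LK3_c1, E.val, List.getD_cons_zero, List.getD_cons_succ, Int.cast_ofNat,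
    Int.cast_one, Int.cast_zero]; exact ⟨c0, c1⟩)
  simpa only [List.mem_cons, List.not_mem_nil, or_false, exists_eq_or_imp, exists_eq_left,
  LK3_p0, LK3_c0, LK3_c1, E.val, List.getD_cons_zero, List.getD_cons_succ, Int.cast_ofNat,
  Int.cast_one, Int.cast_zero] using hbx

theorem LK5_b20 : G [LK5_p0, LK5_p1] [] 6 [186, 22, 0, 9, 105, 20] [193, 33, 6, 12, 112, 23] [400, 400, 400, 400, 400, 20] :=
  G.split 0 LK5_b21 LK5_b22

theorem LK5_b19 : G [LK5_p0, LK5_p1] [] 6 [186, 11, 0, 9, 105, 20] [193, 22, 6, 12, 112, 23] [400, 200, 400, 400, 400, 20] :=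
  G.split 1 LK5_b20 LK5_b23

theorem LK5_b17 : G [LK5_p0, LK5_p1] [] 6 [186, 11, 0, 3, 105, 20] [193, 22, 6, 6, 112, 23] [400, 200, 400, 200, 400, 20] :=
  G.split 3 LK5_b18 LK5_b19

theorem LK5_b15 : G [LK5_p0, LK5_p1] [] 6 [186, 11, 0, 3, 49, 20] [193, 22, 6, 6, 56, 23] [400, 200, 400, 200, 200, 20] :=
  G.split 4 LK5_b16 LK5_b17

theorem LK5_b13 : G [LK5_p0, LK5_p1] [] 6 [186, 0, 0, 3, 49, 20] [193, 11, 6, 6, 56, 23] [400, 100, 400, 200, 200, 20] :=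
  G.split 1 LK5_b14 LK5_b15

theorem LK5_b11 : G [LK5_p0, LK5_p1] [] 6 [186, 0, 0, 3, 21, 20] [193, 11, 6, 6, 28, 23] [400, 100, 400, 200, 100, 20] :=
  G.split 4 LK5_b12 LK5_b13

theorem LK5_b10 : G [LK5_p0, LK5_p1] [] 6 [93, 0, 0, 3, 21, 20] [100, 11, 6, 6, 28, 23] [200, 100, 400, 200, 100, 20] :=
  G.split 0 LK5_b11 LK5_b24

theorem LK5_b9 : G [LK5_p0, LK5_p1] [] 6 [93, 0, 0, 3, 21, 20] [100, 11, 6, 6, 28, 23] [200, 100, 200, 200, 100, 20] :=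
  G.split 2 LK5_b10 LK5_b25

theorem LK5_b8 : G [LK5_p0, LK5_p1] [] 6 [93, 0, 0, 3, 21, 20] [100, 11, 6, 6, 28, 23] [200, 100, 100, 200, 100, 20] :=
  G.split 2 LK5_b9 LK5_b26

theorem LK5_b7 : G [LK5_p0, LK5_p1] [] 6 [93, 0, 0, 3, 21, 20] [100, 11, 6, 6, 28, 23] [200, 100, 50, 200, 100, 20] :=
  G.split 2 LK5_b8 LK5_b27

theorem LK5_b5 : G [LK5_p0, LK5_p1] [] 6 [93, 0, 0, 3, 7, 20] [100, 11, 6, 6, 14, 23] [200, 100, 50, 200, 50, 20] :=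
  G.split 4 LK5_b6 LK5_b7

theorem LK5_b3 : G [LK5_p0, LK5_p1] [] 6 [93, 0, 0, 0, 7, 20] [100, 11, 6, 3, 14, 23] [200, 100, 50, 100, 50, 20] :=
  G.split 3 LK5_b4 LK5_b5

theorem LK5_b2 : G [LK5_p0, LK5_p1] [] 6 [93, 0, 0, 0, 7, 20] [100, 11, 6, 3, 14, 23] [200, 100, 25, 100, 50, 20] :=
  G.split 2 LK5_b3 LK5_b28

theorem LK5_b0 : G [LK5_p0, LK5_p1] [] 6 [93, 0, 0, 0, 0, 20] [100, 11, 6, 3, 7, 23] [200, 100, 25, 100, 25, 20] :=
  G.split 4 LK5_b1 LK5_b2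

theorem LK5 (θ b o e h ω : ℝ)
    (l0 : (93 : ℝ) ≤ 200 * θ) (u0 : 200 * θ ≤ 100)
    (l1 : (0 : ℝ) ≤ 100 * b) (u1 : 100 * b ≤ 11)
    (l2 : (0 : ℝ) ≤ 25 * o) (u2 : 25 * o ≤ 6)
    (l3 : (0 : ℝ) ≤ 100 * e) (u3 : 100 * e ≤ 3)
    (l4 : (0 : ℝ) ≤ 25 * h) (u4 : 25 * h ≤ 7)
    (l5 : (20 : ℝ) ≤ 20 * ω) (u5 : 20 * ω ≤ 23)
    :
    0 ≤ (((25 * (((20 - (((((40 * θ) + (32 * b)) + (13 * o)) - (30 * h)) - 10)) * ((400 * (θ *
    θ)) - ((h * (((((132 * θ) + (90 * b)) - (45 * h)) - (32 * o)) - 39)) * (h * (((((132 * θ) +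
    (90 * b)) - (45 * h)) - (32 * o)) - 39))))) * (1 + (o * ω)))) - (8000 * ((θ * θ) * ((25 * (1
    + (o * ω))) - ((2 - (1 + (o * ω))) * ((25 * (((2 * ((θ * ((1 + o) - e)) + b)) - h) - (1 -
    θ))) - (1 - (2 * θ)))))))) * (((25 * ((1 + o) - e)) - ((25 * (((2 * ((θ * ((1 + o) - e)) +
    b)) - h) - (1 - θ))) - (1 - (2 * θ)))) * ((25 * ((1 + o) - e)) - ((25 * (((2 * ((θ * ((1 + o)
    - e)) + b)) - h) - (1 - θ))) - (1 - (2 * θ)))))) + (8000 * (((((1 - θ) * (1 - θ)) * ((25 *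
    (((2 * ((θ * ((1 + o) - e)) + b)) - h) - (1 - θ))) - (1 - (2 * θ)))) * ((25 * (((2 * ((θ *
    ((1 + o) - e)) + b)) - h) - (1 - θ))) - (1 - (2 * θ)))) * ((25 * (1 + (o * ω))) - ((2 - (1 +
    (o * ω))) * ((25 * (((2 * ((θ * ((1 + o) - e)) + b)) - h) - (1 - θ))) - (1 - (2 * θ))))))) ∨
    0 ≤ 15625 * ((((1 * (((20 - (((((40 * θ) + (32 * b)) + (13 * o)) - (30 * h)) - 10)) * ((400 *
    (θ * θ)) - ((h * (((((132 * θ) + (90 * b)) - (45 * h)) - (32 * o)) - 39)) * (h * (((((132 *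
    θ) + (90 * b)) - (45 * h)) - (32 * o)) - 39))))) * (1 + (o * ω)))) - (8000 * ((θ * θ) * ((1 +
    (o * ω)) - ((2 - (1 + (o * ω))) * h))))) * ((((1 + o) - e) - h) * (((1 + o) - e) - h))) +
    (8000 * (((((1 - θ) * (1 - θ)) * h) * h) * ((1 + (o * ω)) - ((2 - (1 + (o * ω))) * h))))) := by
  have hbx := LK5_b0 [θ, b, o, e, h, ω] rfl
    (by simp only [InBox, List.map_cons, List.map_nil]; push_cast; exact ⟨⟨by norm_num, by
    norm_num⟩, ⟨by linarith, by linarith⟩, ⟨by norm_num, by norm_num⟩, ⟨by linarith, by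
    linarith⟩, ⟨by norm_num, by norm_num⟩, ⟨by linarith, by linarith⟩, ⟨by norm_num, by
    norm_num⟩, ⟨by linarith, by linarith⟩, ⟨by norm_num, by norm_num⟩, ⟨by linarith, by
    linarith⟩, ⟨by norm_num, by norm_num⟩, ⟨by linarith, by linarith⟩, trivial⟩)
    (by simp only [List.forall_mem_cons, List.not_mem_nil, false_imp_iff, implies_true, and_true,
    LK5_p0, LK5_p1, E.val, List.getD_cons_zero, List.getD_cons_succ, Int.cast_ofNat,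
    Int.cast_one, Int.cast_zero])
  simpa only [List.mem_cons, List.not_mem_nil, or_false, exists_eq_or_imp, exists_eq_left,
  LK5_p0, LK5_p1, E.val, List.getD_cons_zero, List.getD_cons_succ, Int.cast_ofNat, Int.cast_one,
  Int.cast_zero] using hbx

theorem HK1 (θ b o e h ω : ℝ)
    (l0 : (93 : ℝ) ≤ 200 * θ) (u0 : 200 * θ ≤ 100)
    (l1 : (0 : ℝ) ≤ 100 * b) (u1 : 100 * b ≤ 11)
    (l2 : (0 : ℝ) ≤ 25 * o) (u2 : 25 * o ≤ 6)
    (l3 : (0 : ℝ) ≤ 100 * e) (u3 : 100 * e ≤ 3)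
    (l4 : (14 : ℝ) ≤ 50 * h) (u4 : 50 * h ≤ 25)
    (l5 : (20 : ℝ) ≤ 20 * ω) (u5 : 20 * ω ≤ 23)
    :
    0 ≤ (((((2500 * (θ * θ)) - ((((((42 * θ) + (31 * h)) + (6 * b)) - (31 * o)) - 15) * (((((42 *
    θ) + (31 * h)) + (6 * b)) - (31 * o)) - 15))) * (1 + (o * ω))) - (2500 * ((θ * θ) * ((1 + (o
    * ω)) - ((2 - (1 + (o * ω))) * h))))) * ((((1 + o) - e) - h) * (((1 + o) - e) - h))) + (2500
    * (((((1 - θ) * (1 - θ)) * h) * h) * ((1 + (o * ω)) - ((2 - (1 + (o * ω))) * h)))) := by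
  have hbx := HK1_b0 [θ, b, o, e, h, ω] rfl
    (by simp only [InBox, List.map_cons, List.map_nil]; push_cast; exact ⟨⟨by norm_num, by
    norm_num⟩, ⟨by linarith, by linarith⟩, ⟨by norm_num, by norm_num⟩, ⟨by linarith, by
    linarith⟩, ⟨by norm_num, by norm_num⟩, ⟨by linarith, by linarith⟩, ⟨by norm_num, by
    norm_num⟩, ⟨by linarith, by linarith⟩, ⟨by norm_num, by norm_num⟩, ⟨by linarith, by
    linarith⟩, ⟨by norm_num, by norm_num⟩, ⟨by linarith, by linarith⟩, trivial⟩)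
    (by simp only [List.forall_mem_cons, List.not_mem_nil, false_imp_iff, implies_true, and_true,
    HK1_p0, E.val, List.getD_cons_zero, List.getD_cons_succ, Int.cast_ofNat, Int.cast_one,
    Int.cast_zero])
  simpa only [List.mem_cons, List.not_mem_nil, or_false, exists_eq_or_imp, exists_eq_left,
  HK1_p0, E.val, List.getD_cons_zero, List.getD_cons_succ, Int.cast_ofNat, Int.cast_one,
  Int.cast_zero] using hbx

theorem L2 (θ b o e h ω : ℝ)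
    (l0 : (93 : ℝ) ≤ 200 * θ) (u0 : 200 * θ ≤ 100)
    (l1 : (0 : ℝ) ≤ 100 * b) (u1 : 100 * b ≤ 11)
    (l2 : (0 : ℝ) ≤ 25 * o) (u2 : 25 * o ≤ 6)
    (l3 : (0 : ℝ) ≤ 100 * e) (u3 : 100 * e ≤ 3)
    (l4 : (0 : ℝ) ≤ 25 * h) (u4 : 25 * h ≤ 7)
    (l5 : (20 : ℝ) ≤ 20 * ω) (u5 : 20 * ω ≤ 23)
    (c0 : 0 ≤ e * ((1 - θ) - ((θ * ((1 + o) - e)) + b)))
    :
    0 ≤ (72000 * (θ * ((o * (1 - θ)) * ((1 - ((θ * ((1 + o) - e)) + b)) * h)))) + (e * ((θ *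
    (((72000 * (((((1 - ((θ * ((1 + o) - e)) + b)) * b) + (((θ * ((1 + o) - e)) + b) * (1 - ((θ *
    ((1 + o) - e)) + b)))) + ((θ * θ) * (((1 + o) - e) - h))) - (2 * ((θ * (1 - θ)) * h)))) +
    (32000 * (((((1 - θ) * (1 - θ)) * h) * h) * (6 - (4 * (((1 + o) - e) - h)))))) + (9 * ((1 +
    (o * ω)) * ((8000 * (((1 - e) - ((θ * ((1 + o) - e)) + b)) - (((θ * ((1 + o) - e)) + b) * (1
    - ((θ * ((1 + o) - e)) + b))))) - (((20 * (((400 * (θ * (2 - θ))) - (40 * ((1 - θ) * (h *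
    (((((132 * θ) + (90 * b)) - (45 * h)) - (32 * o)) - 39))))) - ((h * (((((132 * θ) + (90 * b))
    - (45 * h)) - (32 * o)) - 39)) * (h * (((((132 * θ) + (90 * b)) - (45 * h)) - (32 * o)) -
    39))))) - ((((((40 * θ) + (32 * b)) + (13 * o)) - (30 * h)) - 10) * ((400 * (θ * θ)) - ((h *
    (((((132 * θ) + (90 * b)) - (45 * h)) - (32 * o)) - 39)) * (h * (((((132 * θ) + (90 * b)) -
    (45 * h)) - (32 * o)) - 39)))))) * (1 - e))))))) - (72000 * ((2 * (((1 - ((θ * ((1 + o) - e))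
    + b)) * ((θ * ((1 + o) - e)) + b)) * b)) + (((θ * ((θ * ((1 + o) - e)) + b)) * ((θ * ((1 + o)
    - e)) + b)) * e))))) := by
  have hbx := L2_b0 [θ, b, o, e, h, ω] rfl
    (by simp only [InBox, List.map_cons, List.map_nil]; push_cast; exact ⟨⟨by norm_num, by
    norm_num⟩, ⟨by linarith, by linarith⟩, ⟨by norm_num, by norm_num⟩, ⟨by linarith, by
    linarith⟩, ⟨by norm_num, by norm_num⟩, ⟨by linarith, by linarith⟩, ⟨by norm_num, by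
    norm_num⟩, ⟨by linarith, by linarith⟩, ⟨by norm_num, by norm_num⟩, ⟨by linarith, by
    linarith⟩, ⟨by norm_num, by norm_num⟩, ⟨by linarith, by linarith⟩, trivial⟩)
    (by simp only [List.forall_mem_cons, List.not_mem_nil, false_imp_iff, implies_true, and_true,
    L2_p0, L2_c0, E.val, List.getD_cons_zero, List.getD_cons_succ, Int.cast_ofNat, Int.cast_one,
    Int.cast_zero]; exact c0)
  simpa only [List.mem_cons, List.not_mem_nil, or_false, exists_eq_or_imp, exists_eq_left, L2_p0,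
  L2_c0, E.val, List.getD_cons_zero, List.getD_cons_succ, Int.cast_ofNat, Int.cast_one,
  Int.cast_zero] using hbx

theorem H2 (θ b o e h ω : ℝ)
    (l0 : (93 : ℝ) ≤ 200 * θ) (u0 : 200 * θ ≤ 100)
    (l1 : (0 : ℝ) ≤ 100 * b) (u1 : 100 * b ≤ 11)
    (l2 : (0 : ℝ) ≤ 25 * o) (u2 : 25 * o ≤ 6)
    (l3 : (0 : ℝ) ≤ 100 * e) (u3 : 100 * e ≤ 3)
    (l4 : (14 : ℝ) ≤ 50 * h) (u4 : 50 * h ≤ 25)
    (l5 : (20 : ℝ) ≤ 20 * ω) (u5 : 20 * ω ≤ 23)
    (c0 : 0 ≤ b * ((1 - θ) - ((θ * ((1 + o) - e)) + b)))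
    :
    0 ≤ (62500 * (θ * ((o * (1 - θ)) * ((1 - ((θ * ((1 + o) - e)) + b)) * h)))) + (e * ((θ *
    (((62500 * (((((1 - ((θ * ((1 + o) - e)) + b)) * b) + (((θ * ((1 + o) - e)) + b) * (1 - ((θ *
    ((1 + o) - e)) + b)))) + ((θ * θ) * (((1 + o) - e) - h))) - (2 * ((θ * (1 - θ)) * h)))) +
    (20000 * (((((1 - θ) * (1 - θ)) * h) * h) * (10 - (8 * (((1 + o) - e) - h)))))) + (25 * ((1 +
    (o * ω)) * ((2500 * (((1 - e) - ((θ * ((1 + o) - e)) + b)) - (((θ * ((1 + o) - e)) + b) * (1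
    - ((θ * ((1 + o) - e)) + b))))) - ((((2500 * (θ * (2 - θ))) - (100 * ((1 - θ) * (((((42 * θ)
    + (31 * h)) + (6 * b)) - (31 * o)) - 15)))) - ((((((42 * θ) + (31 * h)) + (6 * b)) - (31 *
    o)) - 15) * (((((42 * θ) + (31 * h)) + (6 * b)) - (31 * o)) - 15))) * (1 - e))))))) - (62500
    * ((2 * (((1 - ((θ * ((1 + o) - e)) + b)) * ((θ * ((1 + o) - e)) + b)) * b)) + (((θ * ((θ *
    ((1 + o) - e)) + b)) * ((θ * ((1 + o) - e)) + b)) * e))))) := by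
  have hbx := H2_b0 [θ, b, o, e, h, ω] rfl
    (by simp only [InBox, List.map_cons, List.map_nil]; push_cast; exact ⟨⟨by norm_num, by
    norm_num⟩, ⟨by linarith, by linarith⟩, ⟨by norm_num, by norm_num⟩, ⟨by linarith, by
    linarith⟩, ⟨by norm_num, by norm_num⟩, ⟨by linarith, by linarith⟩, ⟨by norm_num, by
    norm_num⟩, ⟨by linarith, by linarith⟩, ⟨by norm_num, by norm_num⟩, ⟨by linarith, by
    linarith⟩, ⟨by norm_num, by norm_num⟩, ⟨by linarith, by linarith⟩, trivial⟩)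
    (by simp only [List.forall_mem_cons, List.not_mem_nil, false_imp_iff, implies_true, and_true,
    H2_p0, H2_c0, E.val, List.getD_cons_zero, List.getD_cons_succ, Int.cast_ofNat, Int.cast_one,
    Int.cast_zero]; exact c0)
  simpa only [List.mem_cons, List.not_mem_nil, or_false, exists_eq_or_imp, exists_eq_left, H2_p0,
  H2_c0, E.val, List.getD_cons_zero, List.getD_cons_succ, Int.cast_ofNat, Int.cast_one,
  Int.cast_zero] using hbx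

theorem L3 (θ b o e h ω : ℝ)
    (l0 : (93 : ℝ) ≤ 200 * θ) (u0 : 200 * θ ≤ 100)
    (l1 : (0 : ℝ) ≤ 100 * b) (u1 : 100 * b ≤ 11)
    (l2 : (0 : ℝ) ≤ 25 * o) (u2 : 25 * o ≤ 6)
    (l3 : (0 : ℝ) ≤ 100 * e) (u3 : 100 * e ≤ 3)
    (l4 : (0 : ℝ) ≤ 25 * h) (u4 : 25 * h ≤ 7)
    (l5 : (20 : ℝ) ≤ 20 * ω) (u5 : 20 * ω ≤ 23)
    (c0 : 0 ≤ (20 * (((1 - ((θ * ((1 + o) - e)) + b)) * b) + ((θ * ((θ * ((1 + o) - e)) + b)) *
    e))) - (23 * (θ * b)))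
    (c1 : 0 ≤ b * (((θ * h) + (1 - θ)) - ((θ * ((1 + o) - e)) + b)))
    (c2 : 0 ≤ e * ((θ * (h - b)) - (((θ * ((1 + o) - e)) + b) * (((θ * ((1 + o) - e)) + b) - (1 -
    θ)))))
    (c3 : 0 ≤ o * (h - e))
    :
    0 ≤ (θ * ((72000 * ((θ * ((o * (1 - θ)) * ((1 - ((θ * ((1 + o) - e)) + b)) * h))) - (((1 -
    ((θ * ((1 + o) - e)) + b)) * b) * (b + (((θ * ((1 + o) - e)) + b) - (1 - θ)))))) + (θ * (e *
    (((72000 * (((((1 - ((θ * ((1 + o) - e)) + b)) * b) + (((θ * ((1 + o) - e)) + b) * (1 - ((θ *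
    ((1 + o) - e)) + b)))) + ((θ * θ) * (((1 + o) - e) - h))) - (2 * ((θ * (1 - θ)) * h)))) +
    (32000 * (((((1 - θ) * (1 - θ)) * h) * h) * (6 - (4 * (((1 + o) - e) - h)))))) + (9 * ((1 +
    (o * ω)) * ((8000 * (((1 - e) - ((θ * ((1 + o) - e)) + b)) - (((θ * ((1 + o) - e)) + b) * (1
    - ((θ * ((1 + o) - e)) + b))))) - (((20 * (((400 * (θ * (2 - θ))) - (40 * ((1 - θ) * (h *
    (((((132 * θ) + (90 * b)) - (45 * h)) - (32 * o)) - 39))))) - ((h * (((((132 * θ) + (90 * b))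
    - (45 * h)) - (32 * o)) - 39)) * (h * (((((132 * θ) + (90 * b)) - (45 * h)) - (32 * o)) -
    39))))) - ((((((40 * θ) + (32 * b)) + (13 * o)) - (30 * h)) - 10) * ((400 * (θ * θ)) - ((h *
    (((((132 * θ) + (90 * b)) - (45 * h)) - (32 * o)) - 39)) * (h * (((((132 * θ) + (90 * b)) -
    (45 * h)) - (32 * o)) - 39)))))) * (1 - e)))))))))) + (72000 * (((θ * θ) * (2 * (b * b))) -
    ((((1 - ((θ * ((1 + o) - e)) + b)) * b) + ((θ * ((θ * ((1 + o) - e)) + b)) * e)) * (((1 - ((θ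
    * ((1 + o) - e)) + b)) * b) + ((θ * ((θ * ((1 + o) - e)) + b)) * e))))) := by
  have hbx := L3_b0 [θ, b, o, e, h, ω] rfl
    (by simp only [InBox, List.map_cons, List.map_nil]; push_cast; exact ⟨⟨by norm_num, by
    norm_num⟩, ⟨by linarith, by linarith⟩, ⟨by norm_num, by norm_num⟩, ⟨by linarith, by
    linarith⟩, ⟨by norm_num, by norm_num⟩, ⟨by linarith, by linarith⟩, ⟨by norm_num, by
    norm_num⟩, ⟨by linarith, by linarith⟩, ⟨by norm_num, by norm_num⟩, ⟨by linarith, by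
    linarith⟩, ⟨by norm_num, by norm_num⟩, ⟨by linarith, by linarith⟩, trivial⟩)
    (by simp only [List.forall_mem_cons, List.not_mem_nil, false_imp_iff, implies_true, and_true,
    L3_p0, L3_c0, L3_c1, L3_c2, L3_c3, E.val, List.getD_cons_zero, List.getD_cons_succ,
    Int.cast_ofNat, Int.cast_one, Int.cast_zero]; exact ⟨c0, c1, c2, c3⟩)
  simpa only [List.mem_cons, List.not_mem_nil, or_false, exists_eq_or_imp, exists_eq_left, L3_p0,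
  L3_c0, L3_c1, L3_c2, L3_c3, E.val, List.getD_cons_zero, List.getD_cons_succ, Int.cast_ofNat,
  Int.cast_one, Int.cast_zero] using hbx

theorem H3 (θ b o e h ω : ℝ)
    (l0 : (93 : ℝ) ≤ 200 * θ) (u0 : 200 * θ ≤ 100)
    (l1 : (0 : ℝ) ≤ 100 * b) (u1 : 100 * b ≤ 11)
    (l2 : (0 : ℝ) ≤ 25 * o) (u2 : 25 * o ≤ 6)
    (l3 : (0 : ℝ) ≤ 100 * e) (u3 : 100 * e ≤ 3)
    (l4 : (14 : ℝ) ≤ 50 * h) (u4 : 50 * h ≤ 25)
    (l5 : (20 : ℝ) ≤ 20 * ω) (u5 : 20 * ω ≤ 23)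
    (c0 : 0 ≤ (20 * (((1 - ((θ * ((1 + o) - e)) + b)) * b) + ((θ * ((θ * ((1 + o) - e)) + b)) *
    e))) - (23 * (θ * b)))
    (c1 : 0 ≤ e * (((14 * θ) - 1) - (10 * ((θ * ((1 + o) - e)) + b))))
    :
    0 ≤ (θ * ((62500 * ((θ * ((o * (1 - θ)) * ((1 - ((θ * ((1 + o) - e)) + b)) * h))) - (((1 -
    ((θ * ((1 + o) - e)) + b)) * b) * (b + (((θ * ((1 + o) - e)) + b) - (1 - θ)))))) + (θ * (e *
    (((62500 * (((((1 - ((θ * ((1 + o) - e)) + b)) * b) + (((θ * ((1 + o) - e)) + b) * (1 - ((θ *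
    ((1 + o) - e)) + b)))) + ((θ * θ) * (((1 + o) - e) - h))) - (2 * ((θ * (1 - θ)) * h)))) +
    (20000 * (((((1 - θ) * (1 - θ)) * h) * h) * (10 - (8 * (((1 + o) - e) - h)))))) + (25 * ((1 +
    (o * ω)) * ((2500 * (((1 - e) - ((θ * ((1 + o) - e)) + b)) - (((θ * ((1 + o) - e)) + b) * (1
    - ((θ * ((1 + o) - e)) + b))))) - ((((2500 * (θ * (2 - θ))) - (100 * ((1 - θ) * (((((42 * θ)
    + (31 * h)) + (6 * b)) - (31 * o)) - 15)))) - ((((((42 * θ) + (31 * h)) + (6 * b)) - (31 *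
    o)) - 15) * (((((42 * θ) + (31 * h)) + (6 * b)) - (31 * o)) - 15))) * (1 - e)))))))))) +
    (62500 * (((θ * θ) * (2 * (b * b))) - ((((1 - ((θ * ((1 + o) - e)) + b)) * b) + ((θ * ((θ *
    ((1 + o) - e)) + b)) * e)) * (((1 - ((θ * ((1 + o) - e)) + b)) * b) + ((θ * ((θ * ((1 + o) -
    e)) + b)) * e))))) := by
  have hbx := H3_b0 [θ, b, o, e, h, ω] rfl
    (by simp only [InBox, List.map_cons, List.map_nil]; push_cast; exact ⟨⟨by norm_num, by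
    norm_num⟩, ⟨by linarith, by linarith⟩, ⟨by norm_num, by norm_num⟩, ⟨by linarith, by
    linarith⟩, ⟨by norm_num, by norm_num⟩, ⟨by linarith, by linarith⟩, ⟨by norm_num, by
    norm_num⟩, ⟨by linarith, by linarith⟩, ⟨by norm_num, by norm_num⟩, ⟨by linarith, by
    linarith⟩, ⟨by norm_num, by norm_num⟩, ⟨by linarith, by linarith⟩, trivial⟩)
    (by simp only [List.forall_mem_cons, List.not_mem_nil, false_imp_iff, implies_true, and_true,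
    H3_p0, H3_c0, H3_c1, E.val, List.getD_cons_zero, List.getD_cons_succ, Int.cast_ofNat,
    Int.cast_one, Int.cast_zero]; exact ⟨c0, c1⟩)
  simpa only [List.mem_cons, List.not_mem_nil, or_false, exists_eq_or_imp, exists_eq_left, H3_p0,
  H3_c0, H3_c1, E.val, List.getD_cons_zero, List.getD_cons_succ, Int.cast_ofNat, Int.cast_one,
  Int.cast_zero] using hbx

theorem H7 (θ b o e h ω : ℝ)
    (l0 : (93 : ℝ) ≤ 200 * θ) (u0 : 200 * θ ≤ 100)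
    (l1 : (0 : ℝ) ≤ 100 * b) (u1 : 100 * b ≤ 11)
    (l2 : (0 : ℝ) ≤ 25 * o) (u2 : 25 * o ≤ 6)
    (l3 : (0 : ℝ) ≤ 100 * e) (u3 : 100 * e ≤ 3)
    (l4 : (14 : ℝ) ≤ 50 * h) (u4 : 50 * h ≤ 25)
    (l5 : (20 : ℝ) ≤ 20 * ω) (u5 : 20 * ω ≤ 23)
    :
    0 ≤ (θ * ((62500 * ((θ * ((o * (1 - θ)) * ((1 - ((θ * ((1 + o) - e)) + b)) * h))) - (((1 -
    ((θ * ((1 + o) - e)) + b)) * b) * (b + (((θ * ((1 + o) - e)) + b) - (1 - θ)))))) + (θ * (e *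
    (((62500 * (((((1 - ((θ * ((1 + o) - e)) + b)) * b) + (((θ * ((1 + o) - e)) + b) * (1 - ((θ *
    ((1 + o) - e)) + b)))) + ((θ * θ) * (((1 + o) - e) - h))) - (2 * ((θ * (1 - θ)) * h)))) +
    (20000 * (((((1 - θ) * (1 - θ)) * h) * h) * (10 - (8 * (((1 + o) - e) - h)))))) + (25 * ((1 +
    (o * ω)) * ((2500 * (((1 - e) - ((θ * ((1 + o) - e)) + b)) - (((θ * ((1 + o) - e)) + b) * (1
    - ((θ * ((1 + o) - e)) + b))))) - ((((2500 * (θ * (2 - θ))) - (100 * ((1 - θ) * (((((42 * θ)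
    + (31 * h)) + (6 * b)) - (31 * o)) - 15)))) - ((((((42 * θ) + (31 * h)) + (6 * b)) - (31 *
    o)) - 15) * (((((42 * θ) + (31 * h)) + (6 * b)) - (31 * o)) - 15))) * (1 - e)))))))))) +
    (62500 * (((θ * θ) * (((3 - (18 * (1 - (2 * θ)))) + (90 * ((1 - (2 * θ)) * (1 - (2 * θ))))) *
    (b * b))) - ((((1 - ((θ * ((1 + o) - e)) + b)) * b) + ((θ * ((θ * ((1 + o) - e)) + b)) * e))
    * (((1 - ((θ * ((1 + o) - e)) + b)) * b) + ((θ * ((θ * ((1 + o) - e)) + b)) * e))))) := by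
  have hbx := H7_b0 [θ, b, o, e, h, ω] rfl
    (by simp only [InBox, List.map_cons, List.map_nil]; push_cast; exact ⟨⟨by norm_num, by
    norm_num⟩, ⟨by linarith, by linarith⟩, ⟨by norm_num, by norm_num⟩, ⟨by linarith, by
    linarith⟩, ⟨by norm_num, by norm_num⟩, ⟨by linarith, by linarith⟩, ⟨by norm_num, by
    norm_num⟩, ⟨by linarith, by linarith⟩, ⟨by norm_num, by norm_num⟩, ⟨by linarith, by
    linarith⟩, ⟨by norm_num, by norm_num⟩, ⟨by linarith, by linarith⟩, trivial⟩)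
    (by simp only [List.forall_mem_cons, List.not_mem_nil, false_imp_iff, implies_true, and_true,
    H7_p0, E.val, List.getD_cons_zero, List.getD_cons_succ, Int.cast_ofNat, Int.cast_one,
    Int.cast_zero])
  simpa only [List.mem_cons, List.not_mem_nil, or_false, exists_eq_or_imp, exists_eq_left, H7_p0,
  E.val, List.getD_cons_zero, List.getD_cons_succ, Int.cast_ofNat, Int.cast_one, Int.cast_zero]
  using hbx

theorem AK1 (θ b o e h ω : ℝ)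
    (l0 : (93 : ℝ) ≤ 200 * θ) (u0 : 200 * θ ≤ 100)
    (l1 : (0 : ℝ) ≤ 25 * b) (u1 : 25 * b ≤ 3)
    (l2 : (0 : ℝ) ≤ 25 * o) (u2 : 25 * o ≤ 6)
    (l3 : (0 : ℝ) ≤ 100 * e) (u3 : 100 * e ≤ 3)
    (l4 : (0 : ℝ) ≤ 100 * h) (u4 : 100 * h ≤ 37)
    (l5 : (20 : ℝ) ≤ 20 * ω) (u5 : 20 * ω ≤ 23)
    (c0 : 0 ≤ (23 * (θ * b)) - (20 * (((1 - ((θ * ((1 + o) - e)) + b)) * b) + ((θ * ((θ * ((1 +
    o) - e)) + b)) * e))))
    (c1 : 0 ≤ (10 * ((1 - ((θ * ((1 + o) - e)) + b)) * h)) - (b * (10 + (7 * ((1 - θ) * ((1 + o)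
    - e))))))
    (c2 : 0 ≤ h * (((14 * θ) - 1) - (10 * ((θ * ((1 + o) - e)) + b))))
    :
    0 ≤ ((((25 * (((20 - ((((40 * θ) - (18 * h)) - 13) * e)) * ((1 * (θ * θ)) - ((h * ((2 * θ) -
    h)) * (h * ((2 * θ) - h))))) * (1 + (o * ω)))) - (20 * (((32 * (θ * b)) * (2 - (1 + (o *
    ω)))) * h))) - (500 * ((θ * θ) * ((1 + (o * ω)) - ((2 - (1 + (o * ω))) * h))))) * ((((1 + o)
    - e) - h) * (((1 + o) - e) - h))) + (500 * (((((1 - θ) * (1 - θ)) * h) * h) * ((1 + (o * ω))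
    - ((2 - (1 + (o * ω))) * h)))) := by
  have hbx := AK1_b0 [θ, b, o, e, h, ω] rfl
    (by simp only [InBox, List.map_cons, List.map_nil]; push_cast; exact ⟨⟨by norm_num, by
    norm_num⟩, ⟨by linarith, by linarith⟩, ⟨by norm_num, by norm_num⟩, ⟨by linarith, by
    linarith⟩, ⟨by norm_num, by norm_num⟩, ⟨by linarith, by linarith⟩, ⟨by norm_num, by
    norm_num⟩, ⟨by linarith, by linarith⟩, ⟨by norm_num, by norm_num⟩, ⟨by linarith, by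
    linarith⟩, ⟨by norm_num, by norm_num⟩, ⟨by linarith, by linarith⟩, trivial⟩)
    (by simp only [List.forall_mem_cons, List.not_mem_nil, false_imp_iff, implies_true, and_true,
    AK1_p0, AK1_c0, AK1_c1, AK1_c2, E.val, List.getD_cons_zero, List.getD_cons_succ,
    Int.cast_ofNat, Int.cast_one, Int.cast_zero]; exact ⟨c0, c1, c2⟩)
  simpa only [List.mem_cons, List.not_mem_nil, or_false, exists_eq_or_imp, exists_eq_left,
  AK1_p0, AK1_c0, AK1_c1, AK1_c2, E.val, List.getD_cons_zero, List.getD_cons_succ,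
  Int.cast_ofNat, Int.cast_one, Int.cast_zero] using hbx

theorem AK3 (θ b o e h ω : ℝ)
    (l0 : (93 : ℝ) ≤ 200 * θ) (u0 : 200 * θ ≤ 100)
    (l1 : (0 : ℝ) ≤ 25 * b) (u1 : 25 * b ≤ 3)
    (l2 : (0 : ℝ) ≤ 25 * o) (u2 : 25 * o ≤ 6)
    (l3 : (0 : ℝ) ≤ 100 * e) (u3 : 100 * e ≤ 3)
    (l4 : (0 : ℝ) ≤ 100 * h) (u4 : 100 * h ≤ 37)
    (l5 : (20 : ℝ) ≤ 20 * ω) (u5 : 20 * ω ≤ 23)
    (c0 : 0 ≤ ((506 - (500 * h)) - (500 * (1 - (2 * θ)))) - (600 * ((θ * ((1 + o) - e)) + b)))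
    :
    0 ≤ (500 * (((θ * ((1 + o) - e)) - h) * ((θ * ((1 + o) - e)) - h))) - (((25 * ((((1 + (o *
    ω)) * (((40 * θ) - (18 * h)) - 13)) * θ) * θ)) + (20 * ((32 * (θ * b)) * h))) * (((1 + o) -
    e) - h)) := by
  have hbx := AK3_b0 [θ, b, o, e, h, ω] rfl
    (by simp only [InBox, List.map_cons, List.map_nil]; push_cast; exact ⟨⟨by norm_num, by
    norm_num⟩, ⟨by linarith, by linarith⟩, ⟨by norm_num, by norm_num⟩, ⟨by linarith, by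
    linarith⟩, ⟨by norm_num, by norm_num⟩, ⟨by linarith, by linarith⟩, ⟨by norm_num, by
    norm_num⟩, ⟨by linarith, by linarith⟩, ⟨by norm_num, by norm_num⟩, ⟨by linarith, by
    linarith⟩, ⟨by norm_num, by norm_num⟩, ⟨by linarith, by linarith⟩, trivial⟩)
    (by simp only [List.forall_mem_cons, List.not_mem_nil, false_imp_iff, implies_true, and_true,
    AK3_p0, AK3_c0, E.val, List.getD_cons_zero, List.getD_cons_succ, Int.cast_ofNat,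
    Int.cast_one, Int.cast_zero]; exact c0)
  simpa only [List.mem_cons, List.not_mem_nil, or_false, exists_eq_or_imp, exists_eq_left,
  AK3_p0, AK3_c0, E.val, List.getD_cons_zero, List.getD_cons_succ, Int.cast_ofNat, Int.cast_one,
  Int.cast_zero] using hbx

theorem AK4 (θ b o e h ω : ℝ)
    (l0 : (93 : ℝ) ≤ 200 * θ) (u0 : 200 * θ ≤ 100)
    (l1 : (0 : ℝ) ≤ 25 * b) (u1 : 25 * b ≤ 3)
    (l2 : (0 : ℝ) ≤ 25 * o) (u2 : 25 * o ≤ 6)
    (l3 : (0 : ℝ) ≤ 100 * e) (u3 : 100 * e ≤ 3)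
    (l4 : (0 : ℝ) ≤ 100 * h) (u4 : 100 * h ≤ 37)
    (l5 : (20 : ℝ) ≤ 20 * ω) (u5 : 20 * ω ≤ 23)
    :
    0 ≤ (25 * ((((θ * θ) * (((1 + o) - e) - h)) * (((1 + o) - e) - h)) - ((((1 - θ) * (1 - θ)) *
    h) * h))) - (((32 * (θ * b)) * (((1 + o) - e) - h)) * (((1 + o) - e) - h)) := by
  have hbx := AK4_b0 [θ, b, o, e, h, ω] rfl
    (by simp only [InBox, List.map_cons, List.map_nil]; push_cast; exact ⟨⟨by norm_num, by
    norm_num⟩, ⟨by linarith, by linarith⟩, ⟨by norm_num, by norm_num⟩, ⟨by linarith, by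
    linarith⟩, ⟨by norm_num, by norm_num⟩, ⟨by linarith, by linarith⟩, ⟨by norm_num, by
    norm_num⟩, ⟨by linarith, by linarith⟩, ⟨by norm_num, by norm_num⟩, ⟨by linarith, by
    linarith⟩, ⟨by norm_num, by norm_num⟩, ⟨by linarith, by linarith⟩, trivial⟩)
    (by simp only [List.forall_mem_cons, List.not_mem_nil, false_imp_iff, implies_true, and_true,
    AK4_p0, E.val, List.getD_cons_zero, List.getD_cons_succ, Int.cast_ofNat, Int.cast_one,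
    Int.cast_zero])
  simpa only [List.mem_cons, List.not_mem_nil, or_false, exists_eq_or_imp, exists_eq_left,
  AK4_p0, E.val, List.getD_cons_zero, List.getD_cons_succ, Int.cast_ofNat, Int.cast_one,
  Int.cast_zero] using hbx

theorem AK5 (θ b o e h ω : ℝ)
    (l0 : (93 : ℝ) ≤ 200 * θ) (u0 : 200 * θ ≤ 100)
    (l1 : (0 : ℝ) ≤ 25 * b) (u1 : 25 * b ≤ 3)
    (l2 : (0 : ℝ) ≤ 25 * o) (u2 : 25 * o ≤ 6)
    (l3 : (0 : ℝ) ≤ 100 * e) (u3 : 100 * e ≤ 3)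
    (l4 : (0 : ℝ) ≤ 100 * h) (u4 : 100 * h ≤ 37)
    (l5 : (20 : ℝ) ≤ 20 * ω) (u5 : 20 * ω ≤ 23)
    (c0 : 0 ≤ ((14 * θ) - 1) - (10 * ((θ * ((1 + o) - e)) + b)))
    (c1 : 0 ≤ ((θ * ((1 + o) - e)) + b) - (1 - θ))
    :
    0 ≤ ((((25 * (((20 - (((40 * θ) - (18 * h)) - 13)) * ((1 * (θ * θ)) - ((h * ((2 * θ) - h)) *
    (h * ((2 * θ) - h))))) * (1 + (o * ω)))) - (20 * (((32 * (θ * b)) * (2 - (1 + (o * ω)))) *
    ((θ * ((1 + o) - e)) + b)))) - (500 * ((θ * θ) * ((1 + (o * ω)) - ((2 - (1 + (o * ω))) * (((2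
    * ((θ * ((1 + o) - e)) + b)) - h) - (1 - θ))))))) * ((((1 + o) - e) - (((2 * ((θ * ((1 + o) -
    e)) + b)) - h) - (1 - θ))) * (((1 + o) - e) - (((2 * ((θ * ((1 + o) - e)) + b)) - h) - (1 -
    θ))))) + (500 * (((((1 - θ) * (1 - θ)) * (((2 * ((θ * ((1 + o) - e)) + b)) - h) - (1 - θ))) *
    (((2 * ((θ * ((1 + o) - e)) + b)) - h) - (1 - θ))) * ((1 + (o * ω)) - ((2 - (1 + (o * ω))) *
    (((2 * ((θ * ((1 + o) - e)) + b)) - h) - (1 - θ)))))) ∨ 0 ≤ ((((25 * (((20 - (((40 * θ) - (18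
    * h)) - 13)) * ((1 * (θ * θ)) - ((h * ((2 * θ) - h)) * (h * ((2 * θ) - h))))) * (1 + (o *
    ω)))) - (20 * (((32 * (θ * b)) * (2 - (1 + (o * ω)))) * ((θ * ((1 + o) - e)) + b)))) - (500 *
    ((θ * θ) * ((1 + (o * ω)) - ((2 - (1 + (o * ω))) * h))))) * ((((1 + o) - e) - h) * (((1 + o)
    - e) - h))) + (500 * (((((1 - θ) * (1 - θ)) * h) * h) * ((1 + (o * ω)) - ((2 - (1 + (o * ω)))
    * h)))) := by
  have hbx := AK5_b0 [θ, b, o, e, h, ω] rfl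
    (by simp only [InBox, List.map_cons, List.map_nil]; push_cast; exact ⟨⟨by norm_num, by
    norm_num⟩, ⟨by linarith, by linarith⟩, ⟨by norm_num, by norm_num⟩, ⟨by linarith, by
    linarith⟩, ⟨by norm_num, by norm_num⟩, ⟨by linarith, by linarith⟩, ⟨by norm_num, by
    norm_num⟩, ⟨by linarith, by linarith⟩, ⟨by norm_num, by norm_num⟩, ⟨by linarith, by
    linarith⟩, ⟨by norm_num, by norm_num⟩, ⟨by linarith, by linarith⟩, trivial⟩)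
    (by simp only [List.forall_mem_cons, List.not_mem_nil, false_imp_iff, implies_true, and_true,
    AK5_p0, AK5_p1, AK5_c0, AK5_c1, E.val, List.getD_cons_zero, List.getD_cons_succ,
    Int.cast_ofNat, Int.cast_one, Int.cast_zero]; exact ⟨c0, c1⟩)
  simpa only [List.mem_cons, List.not_mem_nil, or_false, exists_eq_or_imp, exists_eq_left,
  AK5_p0, AK5_p1, AK5_c0, AK5_c1, E.val, List.getD_cons_zero, List.getD_cons_succ,
  Int.cast_ofNat, Int.cast_one, Int.cast_zero] using hbx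

theorem A4 (θ b o e h ω : ℝ)
    (l0 : (93 : ℝ) ≤ 200 * θ) (u0 : 200 * θ ≤ 100)
    (l1 : (0 : ℝ) ≤ 25 * b) (u1 : 25 * b ≤ 3)
    (l2 : (0 : ℝ) ≤ 25 * o) (u2 : 25 * o ≤ 6)
    (l3 : (0 : ℝ) ≤ 100 * e) (u3 : 100 * e ≤ 3)
    (l4 : (0 : ℝ) ≤ 100 * h) (u4 : 100 * h ≤ 37)
    (l5 : (20 : ℝ) ≤ 20 * ω) (u5 : 20 * ω ≤ 23)
    (c0 : 0 ≤ (23 * (θ * b)) - (20 * (((1 - ((θ * ((1 + o) - e)) + b)) * b) + ((θ * ((θ * ((1 +
    o) - e)) + b)) * e))))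
    (c1 : 0 ≤ o * ((10 * ((1 - ((θ * ((1 + o) - e)) + b)) * h)) - (b * (10 + (7 * ((1 - θ) * ((1
    + o) - e)))))))
    (c2 : 0 ≤ e * (((θ * h) + (1 - θ)) - ((θ * ((1 + o) - e)) + b)))
    :
    0 ≤ (25 * ((4500 * ((θ * ((o * (1 - θ)) * ((1 - ((θ * ((1 + o) - e)) + b)) * h))) - (((1 -
    ((θ * ((1 + o) - e)) + b)) * b) * (b + (((θ * ((1 + o) - e)) + b) - (1 - θ)))))) + (θ * (e *
    ((25 * (((180 * (((((1 - ((θ * ((1 + o) - e)) + b)) * b) + (((θ * ((1 + o) - e)) + b) * (1 -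
    ((θ * ((1 + o) - e)) + b)))) + ((θ * θ) * (((1 + o) - e) - h))) - (2 * ((θ * (1 - θ)) * h))))
    + (80 * (((((1 - θ) * (1 - θ)) * h) * h) * (6 - (4 * (((1 + o) - e) - h)))))) + (9 * ((1 + (o
    * ω)) * ((20 * (((1 - e) - ((θ * ((1 + o) - e)) + b)) - (((θ * ((1 + o) - e)) + b) * (1 - ((θ
    * ((1 + o) - e)) + b))))) - (((20 * (((1 * (θ * (2 - θ))) - (2 * ((1 - θ) * (h * ((2 * θ) -
    h))))) - ((h * ((2 * θ) - h)) * (h * ((2 * θ) - h))))) - ((((40 * θ) - (18 * h)) - 13) * ((1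
    * (θ * θ)) - ((h * ((2 * θ) - h)) * (h * ((2 * θ) - h)))))) * (1 - e))))))) - (180 * ((32 *
    (θ * b)) * h))))))) + (4500 * (θ * ((50 * (b * b)) - (32 * ((e * b) * (b + (θ * ((θ * ((1 +
    o) - e)) + b)))))))) := by
  have hbx := A4_b0 [θ, b, o, e, h, ω] rfl
    (by simp only [InBox, List.map_cons, List.map_nil]; push_cast; exact ⟨⟨by norm_num, by
    norm_num⟩, ⟨by linarith, by linarith⟩, ⟨by norm_num, by norm_num⟩, ⟨by linarith, by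
    linarith⟩, ⟨by norm_num, by norm_num⟩, ⟨by linarith, by linarith⟩, ⟨by norm_num, by
    norm_num⟩, ⟨by linarith, by linarith⟩, ⟨by norm_num, by norm_num⟩, ⟨by linarith, by
    linarith⟩, ⟨by norm_num, by norm_num⟩, ⟨by linarith, by linarith⟩, trivial⟩)
    (by simp only [List.forall_mem_cons, List.not_mem_nil, false_imp_iff, implies_true, and_true,
    A4_p0, A4_c0, A4_c1, A4_c2, E.val, List.getD_cons_zero, List.getD_cons_succ, Int.cast_ofNat,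
    Int.cast_one, Int.cast_zero]; exact ⟨c0, c1, c2⟩)
  simpa only [List.mem_cons, List.not_mem_nil, or_false, exists_eq_or_imp, exists_eq_left, A4_p0,
  A4_c0, A4_c1, A4_c2, E.val, List.getD_cons_zero, List.getD_cons_succ, Int.cast_ofNat,
  Int.cast_one, Int.cast_zero] using hbx

theorem IK1_b3 : G [IK1_p0] [IK1_c0, IK1_c1, IK1_c2, IK1_c3, IK1_c4] 6 [93, 0, 0, 0, 0, 20] [100, 3, 6, 3, 3, 23] [200, 25, 25, 100, 80, 20] :=
  G.split 1 IK1_b4 IK1_b5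

theorem IK1_b2 : G [IK1_p0] [IK1_c0, IK1_c1, IK1_c2, IK1_c3, IK1_c4] 6 [93, 0, 0, 0, 0, 20] [100, 3, 6, 3, 3, 23] [200, 25, 25, 100, 40, 20] :=
  G.split 4 IK1_b3 IK1_b6

theorem IK1_b1 : G [IK1_p0] [IK1_c0, IK1_c1, IK1_c2, IK1_c3, IK1_c4] 6 [93, 0, 0, 0, 0, 20] [100, 3, 6, 3, 3, 23] [200, 25, 25, 100, 20, 20] :=
  G.split 4 IK1_b2 IK1_b7

theorem IK1_b0 : G [IK1_p0] [IK1_c0, IK1_c1, IK1_c2, IK1_c3, IK1_c4] 6 [93, 0, 0, 0, 0, 20] [100, 3, 6, 3, 3, 23] [200, 25, 25, 100, 10, 20] :=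
  G.split 4 IK1_b1 IK1_b8

theorem IK1 (θ b o e h ω : ℝ)
    (l0 : (93 : ℝ) ≤ 200 * θ) (u0 : 200 * θ ≤ 100)
    (l1 : (0 : ℝ) ≤ 25 * b) (u1 : 25 * b ≤ 3)
    (l2 : (0 : ℝ) ≤ 25 * o) (u2 : 25 * o ≤ 6)
    (l3 : (0 : ℝ) ≤ 100 * e) (u3 : 100 * e ≤ 3)
    (l4 : (0 : ℝ) ≤ 10 * h) (u4 : 10 * h ≤ 3)
    (l5 : (20 : ℝ) ≤ 20 * ω) (u5 : 20 * ω ≤ 23)
    (c0 : 0 ≤ h - e)
    (c1 : 0 ≤ ((θ * h) + (1 - θ)) - ((θ * ((1 + o) - e)) + b))
    (c2 : 0 ≤ ((14 * θ) - 1) - (10 * ((θ * ((1 + o) - e)) + b)))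
    (c3 : 0 ≤ h * (((θ * h) + (1 - θ)) - ((θ * ((1 + o) - e)) + b)))
    (c4 : 0 ≤ h * (b - ((1 - ((θ * ((1 + o) - e)) + b)) * h)))
    :
    0 ≤ ((((200 * (((4 - (((5 - (6 * h)) - (6 * θ)) * e)) * ((100 * (θ * θ)) - ((h * (((((120 *
    θ) - (7 * h)) - (28 * b)) - (9 * o)) - 47)) * (h * (((((120 * θ) - (7 * h)) - (28 * b)) - (9
    * o)) - 47))))) * (1 + (o * ω)))) - (400 * (((((5 * (((7 - (4 * ((θ * ((1 + o) - e)) + b))) -
    (6 * θ)) * b)) + (6 * e)) * ((((3 + (30 * h)) + (20 * ((θ * ((1 + o) - e)) + b))) + (20 * θ))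
    - (6 * ((5 * (((7 - (4 * ((θ * ((1 + o) - e)) + b))) - (6 * θ)) * b)) + (6 * e))))) * (2 - (1
    + (o * ω)))) * h))) - (80000 * ((θ * θ) * ((1 + (o * ω)) - ((2 - (1 + (o * ω))) * h))))) *
    ((((1 + o) - e) - h) * (((1 + o) - e) - h))) + (80000 * (((((1 - θ) * (1 - θ)) * h) * h) *
    ((1 + (o * ω)) - ((2 - (1 + (o * ω))) * h)))) := by
  have hbx := IK1_b0 [θ, b, o, e, h, ω] rfl
    (by simp only [InBox, List.map_cons, List.map_nil]; push_cast; exact ⟨⟨by norm_num, by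
    norm_num⟩, ⟨by linarith, by linarith⟩, ⟨by norm_num, by norm_num⟩, ⟨by linarith, by
    linarith⟩, ⟨by norm_num, by norm_num⟩, ⟨by linarith, by linarith⟩, ⟨by norm_num, by
    norm_num⟩, ⟨by linarith, by linarith⟩, ⟨by norm_num, by norm_num⟩, ⟨by linarith, by
    linarith⟩, ⟨by norm_num, by norm_num⟩, ⟨by linarith, by linarith⟩, trivial⟩)
    (by simp only [List.forall_mem_cons, List.not_mem_nil, false_imp_iff, implies_true, and_true,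
    IK1_p0, IK1_c0, IK1_c1, IK1_c2, IK1_c3, IK1_c4, E.val, List.getD_cons_zero,
    List.getD_cons_succ, Int.cast_ofNat, Int.cast_one, Int.cast_zero]; exact ⟨c0, c1, c2, c3,
    c4⟩)
  simpa only [List.mem_cons, List.not_mem_nil, or_false, exists_eq_or_imp, exists_eq_left,
  IK1_p0, IK1_c0, IK1_c1, IK1_c2, IK1_c3, IK1_c4, E.val, List.getD_cons_zero,
  List.getD_cons_succ, Int.cast_ofNat, Int.cast_one, Int.cast_zero] using hbx

theorem IK3a (θ b o e h ω : ℝ)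
    (l0 : (93 : ℝ) ≤ 200 * θ) (u0 : 200 * θ ≤ 100)
    (l1 : (0 : ℝ) ≤ 25 * b) (u1 : 25 * b ≤ 3)
    (l2 : (0 : ℝ) ≤ 25 * o) (u2 : 25 * o ≤ 6)
    (l3 : (0 : ℝ) ≤ 100 * e) (u3 : 100 * e ≤ 3)
    (l4 : (0 : ℝ) ≤ 10 * h) (u4 : 10 * h ≤ 3)
    (l5 : (20 : ℝ) ≤ 20 * ω) (u5 : 20 * ω ≤ 23)
    (c0 : 0 ≤ b - ((1 - ((θ * ((1 + o) - e)) + b)) * h))
    (c1 : 0 ≤ 107 - (200 * ((θ * ((1 + o) - e)) + b)))
    :
    0 ≤ (800 * (((θ * ((1 + o) - e)) - h) * ((θ * ((1 + o) - e)) - h))) - (((200 * ((((1 + (o *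
    ω)) * ((5 - (6 * h)) - (6 * θ))) * θ) * θ)) + (4 * ((((5 * (((7 - (4 * ((θ * ((1 + o) - e)) +
    b))) - (6 * θ)) * b)) + (6 * e)) * ((((3 + (30 * h)) + (20 * ((θ * ((1 + o) - e)) + b))) +
    (20 * θ)) - (6 * ((5 * (((7 - (4 * ((θ * ((1 + o) - e)) + b))) - (6 * θ)) * b)) + (6 * e)))))
    * h))) * (((1 + o) - e) - h)) := by
  have hbx := IK3a_b0 [θ, b, o, e, h, ω] rfl
    (by simp only [InBox, List.map_cons, List.map_nil]; push_cast; exact ⟨⟨by norm_num, by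
    norm_num⟩, ⟨by linarith, by linarith⟩, ⟨by norm_num, by norm_num⟩, ⟨by linarith, by
    linarith⟩, ⟨by norm_num, by norm_num⟩, ⟨by linarith, by linarith⟩, ⟨by norm_num, by
    norm_num⟩, ⟨by linarith, by linarith⟩, ⟨by norm_num, by norm_num⟩, ⟨by linarith, by
    linarith⟩, ⟨by norm_num, by norm_num⟩, ⟨by linarith, by linarith⟩, trivial⟩)
    (by simp only [List.forall_mem_cons, List.not_mem_nil, false_imp_iff, implies_true, and_true,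
    IK3a_p0, IK3a_c0, IK3a_c1, E.val, List.getD_cons_zero, List.getD_cons_succ, Int.cast_ofNat,
    Int.cast_one, Int.cast_zero]; exact ⟨c0, c1⟩)
  simpa only [List.mem_cons, List.not_mem_nil, or_false, exists_eq_or_imp, exists_eq_left,
  IK3a_p0, IK3a_c0, IK3a_c1, E.val, List.getD_cons_zero, List.getD_cons_succ, Int.cast_ofNat,
  Int.cast_one, Int.cast_zero] using hbx

theorem IK3b (θ b o e h ω : ℝ)
    (l0 : (93 : ℝ) ≤ 200 * θ) (u0 : 200 * θ ≤ 100)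
    (l1 : (0 : ℝ) ≤ 25 * b) (u1 : 25 * b ≤ 3)
    (l2 : (0 : ℝ) ≤ 25 * o) (u2 : 25 * o ≤ 6)
    (l3 : (0 : ℝ) ≤ 100 * e) (u3 : 100 * e ≤ 3)
    (l4 : (0 : ℝ) ≤ 10 * h) (u4 : 10 * h ≤ 3)
    (l5 : (20 : ℝ) ≤ 20 * ω) (u5 : 20 * ω ≤ 23)
    (c0 : 0 ≤ b - ((1 - ((θ * ((1 + o) - e)) + b)) * h))
    (c1 : 0 ≤ ((73 - (200 * (1 - (2 * θ)))) - (100 * ((θ * ((1 + o) - e)) + b))) - (50 * h))
    :
    0 ≤ (800 * (((θ * ((1 + o) - e)) - h) * ((θ * ((1 + o) - e)) - h))) - (((200 * ((((1 + (o *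
    ω)) * ((5 - (6 * h)) - (6 * θ))) * θ) * θ)) + (4 * ((((5 * (((7 - (4 * ((θ * ((1 + o) - e)) +
    b))) - (6 * θ)) * b)) + (6 * e)) * ((((3 + (30 * h)) + (20 * ((θ * ((1 + o) - e)) + b))) +
    (20 * θ)) - (6 * ((5 * (((7 - (4 * ((θ * ((1 + o) - e)) + b))) - (6 * θ)) * b)) + (6 * e)))))
    * h))) * (((1 + o) - e) - h)) := by
  have hbx := IK3b_b0 [θ, b, o, e, h, ω] rfl
    (by simp only [InBox, List.map_cons, List.map_nil]; push_cast; exact ⟨⟨by norm_num, by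
    norm_num⟩, ⟨by linarith, by linarith⟩, ⟨by norm_num, by norm_num⟩, ⟨by linarith, by
    linarith⟩, ⟨by norm_num, by norm_num⟩, ⟨by linarith, by linarith⟩, ⟨by norm_num, by
    norm_num⟩, ⟨by linarith, by linarith⟩, ⟨by norm_num, by norm_num⟩, ⟨by linarith, by
    linarith⟩, ⟨by norm_num, by norm_num⟩, ⟨by linarith, by linarith⟩, trivial⟩)
    (by simp only [List.forall_mem_cons, List.not_mem_nil, false_imp_iff, implies_true, and_true,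
    IK3b_p0, IK3b_c0, IK3b_c1, E.val, List.getD_cons_zero, List.getD_cons_succ, Int.cast_ofNat,
    Int.cast_one, Int.cast_zero]; exact ⟨c0, c1⟩)
  simpa only [List.mem_cons, List.not_mem_nil, or_false, exists_eq_or_imp, exists_eq_left,
  IK3b_p0, IK3b_c0, IK3b_c1, E.val, List.getD_cons_zero, List.getD_cons_succ, Int.cast_ofNat,
  Int.cast_one, Int.cast_zero] using hbx

theorem IK4 (θ b o e h ω : ℝ)
    (l0 : (93 : ℝ) ≤ 200 * θ) (u0 : 200 * θ ≤ 100)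
    (l1 : (0 : ℝ) ≤ 25 * b) (u1 : 25 * b ≤ 3)
    (l2 : (0 : ℝ) ≤ 25 * o) (u2 : 25 * o ≤ 6)
    (l3 : (0 : ℝ) ≤ 100 * e) (u3 : 100 * e ≤ 3)
    (l4 : (0 : ℝ) ≤ 10 * h) (u4 : 10 * h ≤ 3)
    (l5 : (20 : ℝ) ≤ 20 * ω) (u5 : 20 * ω ≤ 23)
    (c0 : 0 ≤ b - ((1 - ((θ * ((1 + o) - e)) + b)) * h))
    :
    0 ≤ (200 * ((((θ * θ) * (((1 + o) - e) - h)) * (((1 + o) - e) - h)) - ((((1 - θ) * (1 - θ)) *
    h) * h))) - (((((5 * (((7 - (4 * ((θ * ((1 + o) - e)) + b))) - (6 * θ)) * b)) + (6 * e)) *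
    ((((3 + (30 * h)) + (20 * ((θ * ((1 + o) - e)) + b))) + (20 * θ)) - (6 * ((5 * (((7 - (4 *
    ((θ * ((1 + o) - e)) + b))) - (6 * θ)) * b)) + (6 * e))))) * (((1 + o) - e) - h)) * (((1 + o)
    - e) - h)) := by
  have hbx := IK4_b0 [θ, b, o, e, h, ω] rfl
    (by simp only [InBox, List.map_cons, List.map_nil]; push_cast; exact ⟨⟨by norm_num, by
    norm_num⟩, ⟨by linarith, by linarith⟩, ⟨by norm_num, by norm_num⟩, ⟨by linarith, by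
    linarith⟩, ⟨by norm_num, by norm_num⟩, ⟨by linarith, by linarith⟩, ⟨by norm_num, by
    norm_num⟩, ⟨by linarith, by linarith⟩, ⟨by norm_num, by norm_num⟩, ⟨by linarith, by
    linarith⟩, ⟨by norm_num, by norm_num⟩, ⟨by linarith, by linarith⟩, trivial⟩)
    (by simp only [List.forall_mem_cons, List.not_mem_nil, false_imp_iff, implies_true, and_true,
    IK4_p0, IK4_c0, E.val, List.getD_cons_zero, List.getD_cons_succ, Int.cast_ofNat,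
    Int.cast_one, Int.cast_zero]; exact c0)
  simpa only [List.mem_cons, List.not_mem_nil, or_false, exists_eq_or_imp, exists_eq_left,
  IK4_p0, IK4_c0, E.val, List.getD_cons_zero, List.getD_cons_succ, Int.cast_ofNat, Int.cast_one,
  Int.cast_zero] using hbx

theorem IK5 (θ b o e h ω : ℝ)
    (l0 : (93 : ℝ) ≤ 200 * θ) (u0 : 200 * θ ≤ 100)
    (l1 : (0 : ℝ) ≤ 25 * b) (u1 : 25 * b ≤ 3)
    (l2 : (0 : ℝ) ≤ 25 * o) (u2 : 25 * o ≤ 6)
    (l3 : (0 : ℝ) ≤ 100 * e) (u3 : 100 * e ≤ 3)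
    (l4 : (0 : ℝ) ≤ 10 * h) (u4 : 10 * h ≤ 3)
    (l5 : (20 : ℝ) ≤ 20 * ω) (u5 : 20 * ω ≤ 23)
    (c0 : 0 ≤ b - ((1 - ((θ * ((1 + o) - e)) + b)) * h))
    :
    0 ≤ (((25 * (((4 - ((5 - (6 * h)) - (6 * θ))) * ((100 * (θ * θ)) - ((h * (((((120 * θ) - (7 *
    h)) - (28 * b)) - (9 * o)) - 47)) * (h * (((((120 * θ) - (7 * h)) - (28 * b)) - (9 * o)) -
    47))))) * (1 + (o * ω)))) - (400 * ((θ * θ) * ((25 * (1 + (o * ω))) - ((2 - (1 + (o * ω))) *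
    ((25 * (((2 * ((θ * ((1 + o) - e)) + b)) - h) - (1 - θ))) - (1 - (2 * θ)))))))) * (((25 * ((1
    + o) - e)) - ((25 * (((2 * ((θ * ((1 + o) - e)) + b)) - h) - (1 - θ))) - (1 - (2 * θ)))) *
    ((25 * ((1 + o) - e)) - ((25 * (((2 * ((θ * ((1 + o) - e)) + b)) - h) - (1 - θ))) - (1 - (2 *
    θ)))))) + (400 * (((((1 - θ) * (1 - θ)) * ((25 * (((2 * ((θ * ((1 + o) - e)) + b)) - h) - (1
    - θ))) - (1 - (2 * θ)))) * ((25 * (((2 * ((θ * ((1 + o) - e)) + b)) - h) - (1 - θ))) - (1 -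
    (2 * θ)))) * ((25 * (1 + (o * ω))) - ((2 - (1 + (o * ω))) * ((25 * (((2 * ((θ * ((1 + o) -
    e)) + b)) - h) - (1 - θ))) - (1 - (2 * θ))))))) := by
  have hbx := IK5_b0 [θ, b, o, e, h, ω] rfl
    (by simp only [InBox, List.map_cons, List.map_nil]; push_cast; exact ⟨⟨by norm_num, by
    norm_num⟩, ⟨by linarith, by linarith⟩, ⟨by norm_num, by norm_num⟩, ⟨by linarith, by
    linarith⟩, ⟨by norm_num, by norm_num⟩, ⟨by linarith, by linarith⟩, ⟨by norm_num, by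
    norm_num⟩, ⟨by linarith, by linarith⟩, ⟨by norm_num, by norm_num⟩, ⟨by linarith, by
    linarith⟩, ⟨by norm_num, by norm_num⟩, ⟨by linarith, by linarith⟩, trivial⟩)
    (by simp only [List.forall_mem_cons, List.not_mem_nil, false_imp_iff, implies_true, and_true,
    IK5_p0, IK5_c0, E.val, List.getD_cons_zero, List.getD_cons_succ, Int.cast_ofNat,
    Int.cast_one, Int.cast_zero]; exact c0)
  simpa only [List.mem_cons, List.not_mem_nil, or_false, exists_eq_or_imp, exists_eq_left,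
  IK5_p0, IK5_c0, E.val, List.getD_cons_zero, List.getD_cons_succ, Int.cast_ofNat, Int.cast_one,
  Int.cast_zero] using hbx

theorem I0_b6 : G [I0_p0, I0_p1, I0_p2] [I0_c0, I0_c1] 6 [186, 0, 0, 0, 3, 20] [193, 3, 6, 3, 6, 23] [400, 25, 100, 100, 40, 20] :=
  G.split 1 I0_b7 I0_b8

theorem I0_b5 : G [I0_p0, I0_p1, I0_p2] [I0_c0, I0_c1] 6 [93, 0, 0, 0, 3, 20] [100, 3, 6, 3, 6, 23] [200, 25, 100, 100, 40, 20] :=
  G.split 0 I0_b6 I0_b9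

theorem I0_b3 : G [I0_p0, I0_p1, I0_p2] [I0_c0, I0_c1] 6 [93, 0, 0, 0, 0, 20] [100, 3, 6, 3, 3, 23] [200, 25, 100, 100, 20, 20] :=
  G.split 4 I0_b4 I0_b5

theorem I0_b2 : G [I0_p0, I0_p1, I0_p2] [I0_c0, I0_c1] 6 [93, 0, 0, 0, 0, 20] [100, 3, 6, 3, 3, 23] [200, 25, 50, 100, 20, 20] :=
  G.split 2 I0_b3 I0_b10

theorem I0_b17 : G [I0_p0, I0_p1, I0_p2] [I0_c0, I0_c1] 6 [193, 3, 0, 0, 6, 20] [200, 6, 6, 3, 9, 23] [400, 50, 100, 100, 40, 20] :=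
  G.split 4 I0_b18 I0_b19

theorem I0_b15 : G [I0_p0, I0_p1, I0_p2] [I0_c0, I0_c1] 6 [93, 3, 0, 0, 6, 20] [100, 6, 6, 3, 9, 23] [200, 50, 100, 100, 40, 20] :=
  G.split 0 I0_b16 I0_b17

theorem I0_b14 : G [I0_p0, I0_p1, I0_p2] [I0_c0, I0_c1] 6 [93, 3, 0, 0, 6, 20] [100, 6, 6, 3, 9, 23] [200, 50, 50, 100, 40, 20] :=
  G.split 2 I0_b15 I0_b20

theorem I0_b13 : G [I0_p0, I0_p1, I0_p2] [I0_c0, I0_c1] 6 [93, 3, 0, 0, 3, 20] [100, 6, 6, 3, 6, 23] [200, 50, 50, 100, 20, 20] :=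
  G.split 4 I0_b14 I0_b21

theorem I0_b11 : G [I0_p0, I0_p1, I0_p2] [I0_c0, I0_c1] 6 [93, 0, 0, 0, 3, 20] [100, 3, 6, 3, 6, 23] [200, 25, 50, 100, 20, 20] :=
  G.split 1 I0_b12 I0_b13

theorem I0_b1 : G [I0_p0, I0_p1, I0_p2] [I0_c0, I0_c1] 6 [93, 0, 0, 0, 0, 20] [100, 3, 6, 3, 3, 23] [200, 25, 50, 100, 10, 20] :=
  G.split 4 I0_b2 I0_b11

theorem I0_b0 : G [I0_p0, I0_p1, I0_p2] [I0_c0, I0_c1] 6 [93, 0, 0, 0, 0, 20] [100, 3, 6, 3, 3, 23] [200, 25, 25, 100, 10, 20] :=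
  G.split 2 I0_b1 I0_b22

theorem I0 (θ b o e h ω : ℝ)
    (l0 : (93 : ℝ) ≤ 200 * θ) (u0 : 200 * θ ≤ 100)
    (l1 : (0 : ℝ) ≤ 25 * b) (u1 : 25 * b ≤ 3)
    (l2 : (0 : ℝ) ≤ 25 * o) (u2 : 25 * o ≤ 6)
    (l3 : (0 : ℝ) ≤ 100 * e) (u3 : 100 * e ≤ 3)
    (l4 : (0 : ℝ) ≤ 10 * h) (u4 : 10 * h ≤ 3)
    (l5 : (20 : ℝ) ≤ 20 * ω) (u5 : 20 * ω ≤ 23)
    (c0 : 0 ≤ ((14 * θ) - 1) - (10 * ((θ * ((1 + o) - e)) + b)))
    (c1 : 0 ≤ e * (((14 * θ) - 1) - (10 * ((θ * ((1 + o) - e)) + b))))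
    :
    0 ≤ (720000 * ((o * (1 - θ)) * ((1 - ((θ * ((1 + o) - e)) + b)) * h))) + (e * (((200 *
    (((3600 * (((((1 - ((θ * ((1 + o) - e)) + b)) * b) + (((θ * ((1 + o) - e)) + b) * (1 - ((θ *
    ((1 + o) - e)) + b)))) + ((θ * θ) * (((1 + o) - e) - h))) - (2 * ((θ * (1 - θ)) * h)))) +
    (1600 * (((((1 - θ) * (1 - θ)) * h) * h) * (6 - (4 * (((1 + o) - e) - h)))))) + (9 * ((1 + (o
    * ω)) * ((400 * (((1 - e) - ((θ * ((1 + o) - e)) + b)) - (((θ * ((1 + o) - e)) + b) * (1 -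
    ((θ * ((1 + o) - e)) + b))))) - (((4 * (((100 * (θ * (2 - θ))) - (20 * ((1 - θ) * (h *
    (((((120 * θ) - (7 * h)) - (28 * b)) - (9 * o)) - 47))))) - ((h * (((((120 * θ) - (7 * h)) -
    (28 * b)) - (9 * o)) - 47)) * (h * (((((120 * θ) - (7 * h)) - (28 * b)) - (9 * o)) - 47)))))
    - (((5 - (6 * h)) - (6 * θ)) * ((100 * (θ * θ)) - ((h * (((((120 * θ) - (7 * h)) - (28 * b))
    - (9 * o)) - 47)) * (h * (((((120 * θ) - (7 * h)) - (28 * b)) - (9 * o)) - 47)))))) * (1 -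
    e))))))) - (3600 * ((((5 * (((7 - (4 * ((θ * ((1 + o) - e)) + b))) - (6 * θ)) * b)) + (6 *
    e)) * ((((3 + (30 * h)) + (20 * ((θ * ((1 + o) - e)) + b))) + (20 * θ)) - (6 * ((5 * (((7 -
    (4 * ((θ * ((1 + o) - e)) + b))) - (6 * θ)) * b)) + (6 * e))))) * h))) - (1440000 * (((θ *
    ((1 + o) - e)) + b) * (((θ * h) + (1 - θ)) - ((θ * ((1 + o) - e)) + b)))))) ∨ 0 ≤ ((720000 *
    ((θ * ((o * (1 - θ)) * ((1 - ((θ * ((1 + o) - e)) + b)) * h))) - (((1 - ((θ * ((1 + o) - e))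
    + b)) * b) * (b + (((θ * ((1 + o) - e)) + b) - (1 - θ)))))) + (θ * (e * ((200 * (((3600 *
    (((((1 - ((θ * ((1 + o) - e)) + b)) * b) + (((θ * ((1 + o) - e)) + b) * (1 - ((θ * ((1 + o) -
    e)) + b)))) + ((θ * θ) * (((1 + o) - e) - h))) - (2 * ((θ * (1 - θ)) * h)))) + (1600 * (((((1
    - θ) * (1 - θ)) * h) * h) * (6 - (4 * (((1 + o) - e) - h)))))) + (9 * ((1 + (o * ω)) * ((400
    * (((1 - e) - ((θ * ((1 + o) - e)) + b)) - (((θ * ((1 + o) - e)) + b) * (1 - ((θ * ((1 + o) -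
    e)) + b))))) - (((4 * (((100 * (θ * (2 - θ))) - (20 * ((1 - θ) * (h * (((((120 * θ) - (7 *
    h)) - (28 * b)) - (9 * o)) - 47))))) - ((h * (((((120 * θ) - (7 * h)) - (28 * b)) - (9 * o))
    - 47)) * (h * (((((120 * θ) - (7 * h)) - (28 * b)) - (9 * o)) - 47))))) - (((5 - (6 * h)) -
    (6 * θ)) * ((100 * (θ * θ)) - ((h * (((((120 * θ) - (7 * h)) - (28 * b)) - (9 * o)) - 47)) *
    (h * (((((120 * θ) - (7 * h)) - (28 * b)) - (9 * o)) - 47)))))) * (1 - e))))))) - (3600 *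
    ((((5 * (((7 - (4 * ((θ * ((1 + o) - e)) + b))) - (6 * θ)) * b)) + (6 * e)) * ((((3 + (30 *
    h)) + (20 * ((θ * ((1 + o) - e)) + b))) + (20 * θ)) - (6 * ((5 * (((7 - (4 * ((θ * ((1 + o) -
    e)) + b))) - (6 * θ)) * b)) + (6 * e))))) * h)))))) + (720000 * ((θ * (((b * b) + (2 * (b *
    ((1 - ((θ * ((1 + o) - e)) + b)) * h)))) - (((1 - ((θ * ((1 + o) - e)) + b)) * h) * ((1 - ((θ
    * ((1 + o) - e)) + b)) * h)))) - (2 * ((b - ((1 - ((θ * ((1 + o) - e)) + b)) * h)) * ((((1 -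
    ((θ * ((1 + o) - e)) + b)) * b) + ((θ * ((θ * ((1 + o) - e)) + b)) * e)) - (θ * (b - ((1 -
    ((θ * ((1 + o) - e)) + b)) * h)))))))) ∨ 0 ≤ ((720000 * ((θ * ((o * (1 - θ)) * ((1 - ((θ *
    ((1 + o) - e)) + b)) * h))) - (((1 - ((θ * ((1 + o) - e)) + b)) * b) * (b + (((θ * ((1 + o) -
    e)) + b) - (1 - θ)))))) + (θ * (e * ((200 * (((3600 * (((((1 - ((θ * ((1 + o) - e)) + b)) *
    b) + (((θ * ((1 + o) - e)) + b) * (1 - ((θ * ((1 + o) - e)) + b)))) + ((θ * θ) * (((1 + o) -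
    e) - h))) - (2 * ((θ * (1 - θ)) * h)))) + (1600 * (((((1 - θ) * (1 - θ)) * h) * h) * (6 - (4
    * (((1 + o) - e) - h)))))) + (9 * ((1 + (o * ω)) * ((400 * (((1 - e) - ((θ * ((1 + o) - e)) +
    b)) - (((θ * ((1 + o) - e)) + b) * (1 - ((θ * ((1 + o) - e)) + b))))) - (((4 * (((100 * (θ *
    (2 - θ))) - (20 * ((1 - θ) * (h * (((((120 * θ) - (7 * h)) - (28 * b)) - (9 * o)) - 47))))) -
    ((h * (((((120 * θ) - (7 * h)) - (28 * b)) - (9 * o)) - 47)) * (h * (((((120 * θ) - (7 * h))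
    - (28 * b)) - (9 * o)) - 47))))) - (((5 - (6 * h)) - (6 * θ)) * ((100 * (θ * θ)) - ((h *
    (((((120 * θ) - (7 * h)) - (28 * b)) - (9 * o)) - 47)) * (h * (((((120 * θ) - (7 * h)) - (28
    * b)) - (9 * o)) - 47)))))) * (1 - e))))))) - (3600 * ((((5 * (((7 - (4 * ((θ * ((1 + o) -
    e)) + b))) - (6 * θ)) * b)) + (6 * e)) * ((((3 + (30 * h)) + (20 * ((θ * ((1 + o) - e)) +
    b))) + (20 * θ)) - (6 * ((5 * (((7 - (4 * ((θ * ((1 + o) - e)) + b))) - (6 * θ)) * b)) + (6 *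
    e))))) * h)))))) + (720000 * ((θ * (((b * b) + (2 * (b * ((1 - ((θ * ((1 + o) - e)) + b)) *
    h)))) - (((1 - ((θ * ((1 + o) - e)) + b)) * h) * ((1 - ((θ * ((1 + o) - e)) + b)) * h)))) -
    (2 * ((((θ * h) + (1 - θ)) - ((θ * ((1 + o) - e)) + b)) * ((((1 - ((θ * ((1 + o) - e)) + b))
    * b) + ((θ * ((θ * ((1 + o) - e)) + b)) * e)) - (θ * (b - ((1 - ((θ * ((1 + o) - e)) + b)) *
    h)))))))) := by
  have hbx := I0_b0 [θ, b, o, e, h, ω] rfl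
    (by simp only [InBox, List.map_cons, List.map_nil]; push_cast; exact ⟨⟨by norm_num, by
    norm_num⟩, ⟨by linarith, by linarith⟩, ⟨by norm_num, by norm_num⟩, ⟨by linarith, by
    linarith⟩, ⟨by norm_num, by norm_num⟩, ⟨by linarith, by linarith⟩, ⟨by norm_num, by
    norm_num⟩, ⟨by linarith, by linarith⟩, ⟨by norm_num, by norm_num⟩, ⟨by linarith, by
    linarith⟩, ⟨by norm_num, by norm_num⟩, ⟨by linarith, by linarith⟩, trivial⟩)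
    (by simp only [List.forall_mem_cons, List.not_mem_nil, false_imp_iff, implies_true, and_true,
    I0_p0, I0_p1, I0_p2, I0_c0, I0_c1, E.val, List.getD_cons_zero, List.getD_cons_succ,
    Int.cast_ofNat, Int.cast_one, Int.cast_zero]; exact ⟨c0, c1⟩)
  simpa only [List.mem_cons, List.not_mem_nil, or_false, exists_eq_or_imp, exists_eq_left, I0_p0,
  I0_p1, I0_p2, I0_c0, I0_c1, E.val, List.getD_cons_zero, List.getD_cons_succ, Int.cast_ofNat,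
  Int.cast_one, Int.cast_zero] using hbx

theorem I1 (θ b o e h ω : ℝ)
    (l0 : (93 : ℝ) ≤ 200 * θ) (u0 : 200 * θ ≤ 100)
    (l1 : (0 : ℝ) ≤ 25 * b) (u1 : 25 * b ≤ 3)
    (l2 : (0 : ℝ) ≤ 25 * o) (u2 : 25 * o ≤ 6)
    (l3 : (0 : ℝ) ≤ 100 * e) (u3 : 100 * e ≤ 3)
    (l4 : (0 : ℝ) ≤ 10 * h) (u4 : 10 * h ≤ 3)
    (l5 : (20 : ℝ) ≤ 20 * ω) (u5 : 20 * ω ≤ 23)
    (c0 : 0 ≤ e * ((1 - θ) - ((θ * ((1 + o) - e)) + b)))
    :
    0 ≤ (3 * ((720000 * ((o * (1 - θ)) * ((1 - ((θ * ((1 + o) - e)) + b)) * h))) + (e * (((200 *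
    (((3600 * (((((1 - ((θ * ((1 + o) - e)) + b)) * b) + (((θ * ((1 + o) - e)) + b) * (1 - ((θ *
    ((1 + o) - e)) + b)))) + ((θ * θ) * (((1 + o) - e) - h))) - (2 * ((θ * (1 - θ)) * h)))) +
    (1600 * (((((1 - θ) * (1 - θ)) * h) * h) * (6 - (4 * (((1 + o) - e) - h)))))) + (9 * ((1 + (o
    * ω)) * ((400 * (((1 - e) - ((θ * ((1 + o) - e)) + b)) - (((θ * ((1 + o) - e)) + b) * (1 -
    ((θ * ((1 + o) - e)) + b))))) - (((4 * (((100 * (θ * (2 - θ))) - (20 * ((1 - θ) * (h *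
    (((((120 * θ) - (7 * h)) - (28 * b)) - (9 * o)) - 47))))) - ((h * (((((120 * θ) - (7 * h)) -
    (28 * b)) - (9 * o)) - 47)) * (h * (((((120 * θ) - (7 * h)) - (28 * b)) - (9 * o)) - 47)))))
    - (((5 - (6 * h)) - (6 * θ)) * ((100 * (θ * θ)) - ((h * (((((120 * θ) - (7 * h)) - (28 * b))
    - (9 * o)) - 47)) * (h * (((((120 * θ) - (7 * h)) - (28 * b)) - (9 * o)) - 47)))))) * (1 -
    e))))))) - (3600 * ((((5 * (((7 - (4 * ((θ * ((1 + o) - e)) + b))) - (6 * θ)) * b)) + (6 *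
    e)) * ((((3 + (30 * h)) + (20 * ((θ * ((1 + o) - e)) + b))) + (20 * θ)) - (6 * ((5 * (((7 -
    (4 * ((θ * ((1 + o) - e)) + b))) - (6 * θ)) * b)) + (6 * e))))) * h))) - (1440000 * (((θ *
    ((1 + o) - e)) + b) * (b - ((1 - ((θ * ((1 + o) - e)) + b)) * h)))))))) - (3600000 * ((e *
    ((1 - θ) - ((θ * ((1 + o) - e)) + b))) * ((4 * b) + e))) := by
  have hbx := I1_b0 [θ, b, o, e, h, ω] rfl
    (by simp only [InBox, List.map_cons, List.map_nil]; push_cast; exact ⟨⟨by norm_num, by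
    norm_num⟩, ⟨by linarith, by linarith⟩, ⟨by norm_num, by norm_num⟩, ⟨by linarith, by
    linarith⟩, ⟨by norm_num, by norm_num⟩, ⟨by linarith, by linarith⟩, ⟨by norm_num, by
    norm_num⟩, ⟨by linarith, by linarith⟩, ⟨by norm_num, by norm_num⟩, ⟨by linarith, by
    linarith⟩, ⟨by norm_num, by norm_num⟩, ⟨by linarith, by linarith⟩, trivial⟩)
    (by simp only [List.forall_mem_cons, List.not_mem_nil, false_imp_iff, implies_true, and_true,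
    I1_p0, I1_c0, E.val, List.getD_cons_zero, List.getD_cons_succ, Int.cast_ofNat, Int.cast_one,
    Int.cast_zero]; exact c0)
  simpa only [List.mem_cons, List.not_mem_nil, or_false, exists_eq_or_imp, exists_eq_left, I1_p0,
  I1_c0, E.val, List.getD_cons_zero, List.getD_cons_succ, Int.cast_ofNat, Int.cast_one,
  Int.cast_zero] using hbx

theorem BK1_b12 : G [BK1_p0] [BK1_c0, BK1_c1, BK1_c2, BK1_c3] 6 [93, 0, 0, 0, 0, 20] [100, 3, 6, 3, 31, 23] [200, 200, 25, 800, 6400, 20] :=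
  G.split 3 BK1_b13 BK1_b14

theorem BK1_b11 : G [BK1_p0] [BK1_c0, BK1_c1, BK1_c2, BK1_c3] 6 [93, 0, 0, 0, 0, 20] [100, 3, 6, 3, 31, 23] [200, 200, 25, 400, 6400, 20] :=
  G.split 3 BK1_b12 BK1_b15

theorem BK1_b10 : G [BK1_p0] [BK1_c0, BK1_c1, BK1_c2, BK1_c3] 6 [93, 0, 0, 0, 0, 20] [100, 3, 6, 3, 31, 23] [200, 200, 25, 400, 3200, 20] :=
  G.split 4 BK1_b11 BK1_b16

theorem BK1_b9 : G [BK1_p0] [BK1_c0, BK1_c1, BK1_c2, BK1_c3] 6 [93, 0, 0, 0, 0, 20] [100, 3, 6, 3, 31, 23] [200, 200, 25, 400, 1600, 20] :=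
  G.split 4 BK1_b10 BK1_b17

theorem BK1_b8 : G [BK1_p0] [BK1_c0, BK1_c1, BK1_c2, BK1_c3] 6 [93, 0, 0, 0, 0, 20] [100, 3, 6, 3, 31, 23] [200, 100, 25, 400, 1600, 20] :=
  G.split 1 BK1_b9 BK1_b18

theorem BK1_b7 : G [BK1_p0] [BK1_c0, BK1_c1, BK1_c2, BK1_c3] 6 [93, 0, 0, 0, 0, 20] [100, 3, 6, 3, 31, 23] [200, 100, 25, 200, 1600, 20] :=
  G.split 3 BK1_b8 BK1_b19

theorem BK1_b6 : G [BK1_p0] [BK1_c0, BK1_c1, BK1_c2, BK1_c3] 6 [93, 0, 0, 0, 0, 20] [100, 3, 6, 3, 31, 23] [200, 50, 25, 200, 1600, 20] :=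
  G.split 1 BK1_b7 BK1_b20

theorem BK1_b5 : G [BK1_p0] [BK1_c0, BK1_c1, BK1_c2, BK1_c3] 6 [93, 0, 0, 0, 0, 20] [100, 3, 6, 3, 31, 23] [200, 50, 25, 100, 1600, 20] :=
  G.split 3 BK1_b6 BK1_b21

theorem BK1_b4 : G [BK1_p0] [BK1_c0, BK1_c1, BK1_c2, BK1_c3] 6 [93, 0, 0, 0, 0, 20] [100, 3, 6, 3, 31, 23] [200, 25, 25, 100, 1600, 20] :=
  G.split 1 BK1_b5 BK1_b22

theorem BK1_b3 : G [BK1_p0] [BK1_c0, BK1_c1, BK1_c2, BK1_c3] 6 [93, 0, 0, 0, 0, 20] [100, 3, 6, 3, 31, 23] [200, 25, 25, 100, 800, 20] :=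
  G.split 4 BK1_b4 BK1_b23

theorem BK1_b2 : G [BK1_p0] [BK1_c0, BK1_c1, BK1_c2, BK1_c3] 6 [93, 0, 0, 0, 0, 20] [100, 3, 6, 3, 31, 23] [200, 25, 25, 100, 400, 20] :=
  G.split 4 BK1_b3 BK1_b24

theorem BK1_b1 : G [BK1_p0] [BK1_c0, BK1_c1, BK1_c2, BK1_c3] 6 [93, 0, 0, 0, 0, 20] [100, 3, 6, 3, 31, 23] [200, 25, 25, 100, 200, 20] :=
  G.split 4 BK1_b2 BK1_b25

theorem BK1_b0 : G [BK1_p0] [BK1_c0, BK1_c1, BK1_c2, BK1_c3] 6 [93, 0, 0, 0, 0, 20] [100, 3, 6, 3, 31, 23] [200, 25, 25, 100, 100, 20] :=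
  G.split 4 BK1_b1 BK1_b26

theorem BK1 (θ b o e h ω : ℝ)
    (l0 : (93 : ℝ) ≤ 200 * θ) (u0 : 200 * θ ≤ 100)
    (l1 : (0 : ℝ) ≤ 25 * b) (u1 : 25 * b ≤ 3)
    (l2 : (0 : ℝ) ≤ 25 * o) (u2 : 25 * o ≤ 6)
    (l3 : (0 : ℝ) ≤ 100 * e) (u3 : 100 * e ≤ 3)
    (l4 : (0 : ℝ) ≤ 100 * h) (u4 : 100 * h ≤ 31)
    (l5 : (20 : ℝ) ≤ 20 * ω) (u5 : 20 * ω ≤ 23)
    (c0 : 0 ≤ h - e)
    (c1 : 0 ≤ ((θ * ((1 + o) - e)) + b) - (1 - θ))
    (c2 : 0 ≤ (23 * (θ * b)) - (20 * (((1 - ((θ * ((1 + o) - e)) + b)) * b) + ((θ * ((θ * ((1 +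
    o) - e)) + b)) * e))))
    (c3 : 0 ≤ (θ * (h - b)) - (((θ * ((1 + o) - e)) + b) * (((θ * ((1 + o) - e)) + b) - (1 -
    θ))))
    :
    0 ≤ ((((100 * (((20 - ((((23 + (29 * o)) - (30 * θ)) - (26 * h)) * e)) * ((100 * (θ * θ)) -
    ((h * (((((20 * θ) + 3) - (12 * h)) - (19 * b)) - (10 * o))) * (h * (((((20 * θ) + 3) - (12 *
    h)) - (19 * b)) - (10 * o)))))) * (1 + (o * ω)))) - (2000 * (((((5 * (((3 - (2 * ((θ * ((1 +
    o) - e)) + b))) - (2 * θ)) * b)) + (3 * e)) * (((((28 * h) + (30 * ((θ * ((1 + o) - e)) +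
    b))) + (30 * θ)) - 1) - (18 * ((5 * (((3 - (2 * ((θ * ((1 + o) - e)) + b))) - (2 * θ)) * b))
    + (3 * e))))) * (2 - (1 + (o * ω)))) * h))) - (200000 * ((θ * θ) * ((1 + (o * ω)) - ((2 - (1
    + (o * ω))) * h))))) * ((((1 + o) - e) - h) * (((1 + o) - e) - h))) + (200000 * (((((1 - θ) *
    (1 - θ)) * h) * h) * ((1 + (o * ω)) - ((2 - (1 + (o * ω))) * h)))) := by
  have hbx := BK1_b0 [θ, b, o, e, h, ω] rfl
    (by simp only [InBox, List.map_cons, List.map_nil]; push_cast; exact ⟨⟨by norm_num, by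
    norm_num⟩, ⟨by linarith, by linarith⟩, ⟨by norm_num, by norm_num⟩, ⟨by linarith, by
    linarith⟩, ⟨by norm_num, by norm_num⟩, ⟨by linarith, by linarith⟩, ⟨by norm_num, by
    norm_num⟩, ⟨by linarith, by linarith⟩, ⟨by norm_num, by norm_num⟩, ⟨by linarith, by
    linarith⟩, ⟨by norm_num, by norm_num⟩, ⟨by linarith, by linarith⟩, trivial⟩)
    (by simp only [List.forall_mem_cons, List.not_mem_nil, false_imp_iff, implies_true, and_true,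
    BK1_p0, BK1_c0, BK1_c1, BK1_c2, BK1_c3, E.val, List.getD_cons_zero, List.getD_cons_succ,
    Int.cast_ofNat, Int.cast_one, Int.cast_zero]; exact ⟨c0, c1, c2, c3⟩)
  simpa only [List.mem_cons, List.not_mem_nil, or_false, exists_eq_or_imp, exists_eq_left,
  BK1_p0, BK1_c0, BK1_c1, BK1_c2, BK1_c3, E.val, List.getD_cons_zero, List.getD_cons_succ,
  Int.cast_ofNat, Int.cast_one, Int.cast_zero] using hbx

theorem BK3a (θ b o e h ω : ℝ)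
    (l0 : (93 : ℝ) ≤ 200 * θ) (u0 : 200 * θ ≤ 100)
    (l1 : (0 : ℝ) ≤ 25 * b) (u1 : 25 * b ≤ 3)
    (l2 : (0 : ℝ) ≤ 25 * o) (u2 : 25 * o ≤ 6)
    (l3 : (0 : ℝ) ≤ 100 * e) (u3 : 100 * e ≤ 3)
    (l4 : (0 : ℝ) ≤ 100 * h) (u4 : 100 * h ≤ 31)
    (l5 : (20 : ℝ) ≤ 20 * ω) (u5 : 20 * ω ≤ 23)
    (c0 : 0 ≤ (23 * (θ * b)) - (20 * (((1 - ((θ * ((1 + o) - e)) + b)) * b) + ((θ * ((θ * ((1 +
    o) - e)) + b)) * e))))
    (c1 : 0 ≤ (b * (10 + (7 * ((1 - θ) * ((1 + o) - e))))) - (10 * ((1 - ((θ * ((1 + o) - e)) +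
    b)) * h)))
    (c2 : 0 ≤ 107 - (200 * ((θ * ((1 + o) - e)) + b)))
    :
    0 ≤ (2000 * (((θ * ((1 + o) - e)) - h) * ((θ * ((1 + o) - e)) - h))) - (((100 * ((((1 + (o *
    ω)) * (((23 + (29 * o)) - (30 * θ)) - (26 * h))) * θ) * θ)) + (20 * ((((5 * (((3 - (2 * ((θ *
    ((1 + o) - e)) + b))) - (2 * θ)) * b)) + (3 * e)) * (((((28 * h) + (30 * ((θ * ((1 + o) - e))
    + b))) + (30 * θ)) - 1) - (18 * ((5 * (((3 - (2 * ((θ * ((1 + o) - e)) + b))) - (2 * θ)) *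
    b)) + (3 * e))))) * h))) * (((1 + o) - e) - h)) := by
  have hbx := BK3a_b0 [θ, b, o, e, h, ω] rfl
    (by simp only [InBox, List.map_cons, List.map_nil]; push_cast; exact ⟨⟨by norm_num, by
    norm_num⟩, ⟨by linarith, by linarith⟩, ⟨by norm_num, by norm_num⟩, ⟨by linarith, by
    linarith⟩, ⟨by norm_num, by norm_num⟩, ⟨by linarith, by linarith⟩, ⟨by norm_num, by
    norm_num⟩, ⟨by linarith, by linarith⟩, ⟨by norm_num, by norm_num⟩, ⟨by linarith, by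
    linarith⟩, ⟨by norm_num, by norm_num⟩, ⟨by linarith, by linarith⟩, trivial⟩)
    (by simp only [List.forall_mem_cons, List.not_mem_nil, false_imp_iff, implies_true, and_true,
    BK3a_p0, BK3a_c0, BK3a_c1, BK3a_c2, E.val, List.getD_cons_zero, List.getD_cons_succ,
    Int.cast_ofNat, Int.cast_one, Int.cast_zero]; exact ⟨c0, c1, c2⟩)
  simpa only [List.mem_cons, List.not_mem_nil, or_false, exists_eq_or_imp, exists_eq_left,
  BK3a_p0, BK3a_c0, BK3a_c1, BK3a_c2, E.val, List.getD_cons_zero, List.getD_cons_succ,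
  Int.cast_ofNat, Int.cast_one, Int.cast_zero] using hbx

theorem BK3b (θ b o e h ω : ℝ)
    (l0 : (93 : ℝ) ≤ 200 * θ) (u0 : 200 * θ ≤ 100)
    (l1 : (0 : ℝ) ≤ 25 * b) (u1 : 25 * b ≤ 3)
    (l2 : (0 : ℝ) ≤ 25 * o) (u2 : 25 * o ≤ 6)
    (l3 : (0 : ℝ) ≤ 100 * e) (u3 : 100 * e ≤ 3)
    (l4 : (0 : ℝ) ≤ 100 * h) (u4 : 100 * h ≤ 31)
    (l5 : (20 : ℝ) ≤ 20 * ω) (u5 : 20 * ω ≤ 23)
    (c0 : 0 ≤ ((14 * θ) - 1) - (10 * ((θ * ((1 + o) - e)) + b)))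
    (c1 : 0 ≤ (b * (10 + (7 * ((1 - θ) * ((1 + o) - e))))) - (10 * ((1 - ((θ * ((1 + o) - e)) +
    b)) * h)))
    (c2 : 0 ≤ ((73 - (200 * (1 - (2 * θ)))) - (100 * ((θ * ((1 + o) - e)) + b))) - (50 * h))
    :
    0 ≤ (2000 * (((θ * ((1 + o) - e)) - h) * ((θ * ((1 + o) - e)) - h))) - (((100 * ((((1 + (o *
    ω)) * (((23 + (29 * o)) - (30 * θ)) - (26 * h))) * θ) * θ)) + (20 * ((((5 * (((3 - (2 * ((θ *
    ((1 + o) - e)) + b))) - (2 * θ)) * b)) + (3 * e)) * (((((28 * h) + (30 * ((θ * ((1 + o) - e))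
    + b))) + (30 * θ)) - 1) - (18 * ((5 * (((3 - (2 * ((θ * ((1 + o) - e)) + b))) - (2 * θ)) *
    b)) + (3 * e))))) * h))) * (((1 + o) - e) - h)) := by
  have hbx := BK3b_b0 [θ, b, o, e, h, ω] rfl
    (by simp only [InBox, List.map_cons, List.map_nil]; push_cast; exact ⟨⟨by norm_num, by
    norm_num⟩, ⟨by linarith, by linarith⟩, ⟨by norm_num, by norm_num⟩, ⟨by linarith, by
    linarith⟩, ⟨by norm_num, by norm_num⟩, ⟨by linarith, by linarith⟩, ⟨by norm_num, by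
    norm_num⟩, ⟨by linarith, by linarith⟩, ⟨by norm_num, by norm_num⟩, ⟨by linarith, by
    linarith⟩, ⟨by norm_num, by norm_num⟩, ⟨by linarith, by linarith⟩, trivial⟩)
    (by simp only [List.forall_mem_cons, List.not_mem_nil, false_imp_iff, implies_true, and_true,
    BK3b_p0, BK3b_c0, BK3b_c1, BK3b_c2, E.val, List.getD_cons_zero, List.getD_cons_succ,
    Int.cast_ofNat, Int.cast_one, Int.cast_zero]; exact ⟨c0, c1, c2⟩)
  simpa only [List.mem_cons, List.not_mem_nil, or_false, exists_eq_or_imp, exists_eq_left,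
  BK3b_p0, BK3b_c0, BK3b_c1, BK3b_c2, E.val, List.getD_cons_zero, List.getD_cons_succ,
  Int.cast_ofNat, Int.cast_one, Int.cast_zero] using hbx

theorem BK4a (θ b o e h ω : ℝ)
    (l0 : (93 : ℝ) ≤ 200 * θ) (u0 : 200 * θ ≤ 100)
    (l1 : (0 : ℝ) ≤ 25 * b) (u1 : 25 * b ≤ 3)
    (l2 : (0 : ℝ) ≤ 25 * o) (u2 : 25 * o ≤ 6)
    (l3 : (0 : ℝ) ≤ 100 * e) (u3 : 100 * e ≤ 3)
    (l4 : (0 : ℝ) ≤ 100 * h) (u4 : 100 * h ≤ 31)
    (l5 : (20 : ℝ) ≤ 20 * ω) (u5 : 20 * ω ≤ 23)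
    (c0 : 0 ≤ 107 - (200 * ((θ * ((1 + o) - e)) + b)))
    :
    0 ≤ (100 * ((((θ * θ) * (((1 + o) - e) - h)) * (((1 + o) - e) - h)) - ((((1 - θ) * (1 - θ)) *
    h) * h))) - (((((5 * (((3 - (2 * ((θ * ((1 + o) - e)) + b))) - (2 * θ)) * b)) + (3 * e)) *
    (((((28 * h) + (30 * ((θ * ((1 + o) - e)) + b))) + (30 * θ)) - 1) - (18 * ((5 * (((3 - (2 *
    ((θ * ((1 + o) - e)) + b))) - (2 * θ)) * b)) + (3 * e))))) * (((1 + o) - e) - h)) * (((1 + o)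
    - e) - h)) := by
  have hbx := BK4a_b0 [θ, b, o, e, h, ω] rfl
    (by simp only [InBox, List.map_cons, List.map_nil]; push_cast; exact ⟨⟨by norm_num, by
    norm_num⟩, ⟨by linarith, by linarith⟩, ⟨by norm_num, by norm_num⟩, ⟨by linarith, by
    linarith⟩, ⟨by norm_num, by norm_num⟩, ⟨by linarith, by linarith⟩, ⟨by norm_num, by
    norm_num⟩, ⟨by linarith, by linarith⟩, ⟨by norm_num, by norm_num⟩, ⟨by linarith, by
    linarith⟩, ⟨by norm_num, by norm_num⟩, ⟨by linarith, by linarith⟩, trivial⟩)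
    (by simp only [List.forall_mem_cons, List.not_mem_nil, false_imp_iff, implies_true, and_true,
    BK4a_p0, BK4a_c0, E.val, List.getD_cons_zero, List.getD_cons_succ, Int.cast_ofNat,
    Int.cast_one, Int.cast_zero]; exact c0)
  simpa only [List.mem_cons, List.not_mem_nil, or_false, exists_eq_or_imp, exists_eq_left,
  BK4a_p0, BK4a_c0, E.val, List.getD_cons_zero, List.getD_cons_succ, Int.cast_ofNat,
  Int.cast_one, Int.cast_zero] using hbx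

theorem BK4b (θ b o e h ω : ℝ)
    (l0 : (93 : ℝ) ≤ 200 * θ) (u0 : 200 * θ ≤ 100)
    (l1 : (0 : ℝ) ≤ 25 * b) (u1 : 25 * b ≤ 3)
    (l2 : (0 : ℝ) ≤ 25 * o) (u2 : 25 * o ≤ 6)
    (l3 : (0 : ℝ) ≤ 100 * e) (u3 : 100 * e ≤ 3)
    (l4 : (0 : ℝ) ≤ 100 * h) (u4 : 100 * h ≤ 31)
    (l5 : (20 : ℝ) ≤ 20 * ω) (u5 : 20 * ω ≤ 23)
    (c0 : 0 ≤ ((73 - (200 * (1 - (2 * θ)))) - (100 * ((θ * ((1 + o) - e)) + b))) - (50 * h))
    :
    0 ≤ (100 * ((((θ * θ) * (((1 + o) - e) - h)) * (((1 + o) - e) - h)) - ((((1 - θ) * (1 - θ)) *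
    h) * h))) - (((((5 * (((3 - (2 * ((θ * ((1 + o) - e)) + b))) - (2 * θ)) * b)) + (3 * e)) *
    (((((28 * h) + (30 * ((θ * ((1 + o) - e)) + b))) + (30 * θ)) - 1) - (18 * ((5 * (((3 - (2 *
    ((θ * ((1 + o) - e)) + b))) - (2 * θ)) * b)) + (3 * e))))) * (((1 + o) - e) - h)) * (((1 + o)
    - e) - h)) := by
  have hbx := BK4b_b0 [θ, b, o, e, h, ω] rfl
    (by simp only [InBox, List.map_cons, List.map_nil]; push_cast; exact ⟨⟨by norm_num, by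
    norm_num⟩, ⟨by linarith, by linarith⟩, ⟨by norm_num, by norm_num⟩, ⟨by linarith, by
    linarith⟩, ⟨by norm_num, by norm_num⟩, ⟨by linarith, by linarith⟩, ⟨by norm_num, by
    norm_num⟩, ⟨by linarith, by linarith⟩, ⟨by norm_num, by norm_num⟩, ⟨by linarith, by
    linarith⟩, ⟨by norm_num, by norm_num⟩, ⟨by linarith, by linarith⟩, trivial⟩)
    (by simp only [List.forall_mem_cons, List.not_mem_nil, false_imp_iff, implies_true, and_true,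
    BK4b_p0, BK4b_c0, E.val, List.getD_cons_zero, List.getD_cons_succ, Int.cast_ofNat,
    Int.cast_one, Int.cast_zero]; exact c0)
  simpa only [List.mem_cons, List.not_mem_nil, or_false, exists_eq_or_imp, exists_eq_left,
  BK4b_p0, BK4b_c0, E.val, List.getD_cons_zero, List.getD_cons_succ, Int.cast_ofNat,
  Int.cast_one, Int.cast_zero] using hbx

theorem BK5 (θ b o e h ω : ℝ)
    (l0 : (93 : ℝ) ≤ 200 * θ) (u0 : 200 * θ ≤ 100)
    (l1 : (0 : ℝ) ≤ 25 * b) (u1 : 25 * b ≤ 3)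
    (l2 : (0 : ℝ) ≤ 25 * o) (u2 : 25 * o ≤ 6)
    (l3 : (0 : ℝ) ≤ 100 * e) (u3 : 100 * e ≤ 3)
    (l4 : (0 : ℝ) ≤ 100 * h) (u4 : 100 * h ≤ 31)
    (l5 : (20 : ℝ) ≤ 20 * ω) (u5 : 20 * ω ≤ 23)
    (c0 : 0 ≤ (b * (10 + (7 * ((1 - θ) * ((1 + o) - e))))) - (10 * ((1 - ((θ * ((1 + o) - e)) +
    b)) * h)))
    :
    0 ≤ ((((25 * (((20 - (((23 + (29 * o)) - (30 * θ)) - (26 * h))) * ((100 * (θ * θ)) - ((h *
    (((((20 * θ) + 3) - (12 * h)) - (19 * b)) - (10 * o))) * (h * (((((20 * θ) + 3) - (12 * h)) -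
    (19 * b)) - (10 * o)))))) * (1 + (o * ω)))) - (2000 * (((32 * (θ * b)) * (2 - (1 + (o * ω))))
    * ((θ * ((1 + o) - e)) + b)))) - (50000 * ((θ * θ) * ((1 + (o * ω)) - ((2 - (1 + (o * ω))) *
    (((2 * ((θ * ((1 + o) - e)) + b)) - h) - (1 - θ))))))) * ((((1 + o) - e) - (((2 * ((θ * ((1 +
    o) - e)) + b)) - h) - (1 - θ))) * (((1 + o) - e) - (((2 * ((θ * ((1 + o) - e)) + b)) - h) -
    (1 - θ))))) + (50000 * (((((1 - θ) * (1 - θ)) * (((2 * ((θ * ((1 + o) - e)) + b)) - h) - (1 -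
    θ))) * (((2 * ((θ * ((1 + o) - e)) + b)) - h) - (1 - θ))) * ((1 + (o * ω)) - ((2 - (1 + (o *
    ω))) * (((2 * ((θ * ((1 + o) - e)) + b)) - h) - (1 - θ)))))) := by
  have hbx := BK5_b0 [θ, b, o, e, h, ω] rfl
    (by simp only [InBox, List.map_cons, List.map_nil]; push_cast; exact ⟨⟨by norm_num, by
    norm_num⟩, ⟨by linarith, by linarith⟩, ⟨by norm_num, by norm_num⟩, ⟨by linarith, by
    linarith⟩, ⟨by norm_num, by norm_num⟩, ⟨by linarith, by linarith⟩, ⟨by norm_num, by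
    norm_num⟩, ⟨by linarith, by linarith⟩, ⟨by norm_num, by norm_num⟩, ⟨by linarith, by
    linarith⟩, ⟨by norm_num, by norm_num⟩, ⟨by linarith, by linarith⟩, trivial⟩)
    (by simp only [List.forall_mem_cons, List.not_mem_nil, false_imp_iff, implies_true, and_true,
    BK5_p0, BK5_c0, E.val, List.getD_cons_zero, List.getD_cons_succ, Int.cast_ofNat,
    Int.cast_one, Int.cast_zero]; exact c0)
  simpa only [List.mem_cons, List.not_mem_nil, or_false, exists_eq_or_imp, exists_eq_left,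
  BK5_p0, BK5_c0, E.val, List.getD_cons_zero, List.getD_cons_succ, Int.cast_ofNat, Int.cast_one,
  Int.cast_zero] using hbx

theorem B5 (θ b o e h ω : ℝ)
    (l0 : (93 : ℝ) ≤ 200 * θ) (u0 : 200 * θ ≤ 100)
    (l1 : (0 : ℝ) ≤ 25 * b) (u1 : 25 * b ≤ 3)
    (l2 : (0 : ℝ) ≤ 25 * o) (u2 : 25 * o ≤ 6)
    (l3 : (0 : ℝ) ≤ 100 * e) (u3 : 100 * e ≤ 3)
    (l4 : (0 : ℝ) ≤ 100 * h) (u4 : 100 * h ≤ 31)
    (l5 : (20 : ℝ) ≤ 20 * ω) (u5 : 20 * ω ≤ 23)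
    (c0 : 0 ≤ e * (((θ * h) + (1 - θ)) - ((θ * ((1 + o) - e)) + b)))
    :
    0 ≤ ((50 * ((1800000 * ((θ * ((o * (1 - θ)) * ((1 - ((θ * ((1 + o) - e)) + b)) * h))) - (((1
    - ((θ * ((1 + o) - e)) + b)) * b) * (b + (((θ * ((1 + o) - e)) + b) - (1 - θ)))))) + (θ * (e
    * ((100 * (((18000 * (((((1 - ((θ * ((1 + o) - e)) + b)) * b) + (((θ * ((1 + o) - e)) + b) *
    (1 - ((θ * ((1 + o) - e)) + b)))) + ((θ * θ) * (((1 + o) - e) - h))) - (2 * ((θ * (1 - θ)) *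
    h)))) + (8000 * (((((1 - θ) * (1 - θ)) * h) * h) * (6 - (4 * (((1 + o) - e) - h)))))) + (9 *
    ((1 + (o * ω)) * ((2000 * (((1 - e) - ((θ * ((1 + o) - e)) + b)) - (((θ * ((1 + o) - e)) + b)
    * (1 - ((θ * ((1 + o) - e)) + b))))) - (((20 * (((100 * (θ * (2 - θ))) - (20 * ((1 - θ) * (h
    * (((((20 * θ) + 3) - (12 * h)) - (19 * b)) - (10 * o)))))) - ((h * (((((20 * θ) + 3) - (12 *
    h)) - (19 * b)) - (10 * o))) * (h * (((((20 * θ) + 3) - (12 * h)) - (19 * b)) - (10 * o))))))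
    - ((((23 + (29 * o)) - (30 * θ)) - (26 * h)) * ((100 * (θ * θ)) - ((h * (((((20 * θ) + 3) -
    (12 * h)) - (19 * b)) - (10 * o))) * (h * (((((20 * θ) + 3) - (12 * h)) - (19 * b)) - (10 *
    o))))))) * (1 - e))))))) - (18000 * ((((5 * (((3 - (2 * ((θ * ((1 + o) - e)) + b))) - (2 *
    θ)) * b)) + (3 * e)) * (((((28 * h) + (30 * ((θ * ((1 + o) - e)) + b))) + (30 * θ)) - 1) -
    (18 * ((5 * (((3 - (2 * ((θ * ((1 + o) - e)) + b))) - (2 * θ)) * b)) + (3 * e))))) * h)))))))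
    + (1800000 * ((θ * ((100 * (b * b)) - (64 * ((e * b) * (b + (θ * ((θ * ((1 + o) - e)) +
    b))))))) - (75 * (((1 - (2 * θ)) * b) * (((1 - ((θ * ((1 + o) - e)) + b)) * b) + ((θ * ((θ *
    ((1 + o) - e)) + b)) * e))))))) - (90000000 * (((θ * (1 - θ)) * o) * (((1 - ((θ * ((1 + o) -
    e)) + b)) * h) - b))) ∨ 0 ≤ (50 * ((1800000 * ((θ * ((o * (1 - θ)) * ((1 - ((θ * ((1 + o) -
    e)) + b)) * h))) - (((1 - ((θ * ((1 + o) - e)) + b)) * b) * (b + (((θ * ((1 + o) - e)) + b) -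
    (1 - θ)))))) + (θ * (e * ((100 * (((18000 * (((((1 - ((θ * ((1 + o) - e)) + b)) * b) + (((θ *
    ((1 + o) - e)) + b) * (1 - ((θ * ((1 + o) - e)) + b)))) + ((θ * θ) * (((1 + o) - e) - h))) -
    (2 * ((θ * (1 - θ)) * h)))) + (8000 * (((((1 - θ) * (1 - θ)) * h) * h) * (6 - (4 * (((1 + o)
    - e) - h)))))) + (9 * ((1 + (o * ω)) * ((2000 * (((1 - e) - ((θ * ((1 + o) - e)) + b)) - (((θ
    * ((1 + o) - e)) + b) * (1 - ((θ * ((1 + o) - e)) + b))))) - (((20 * (((100 * (θ * (2 - θ)))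
    - (20 * ((1 - θ) * (h * (((((20 * θ) + 3) - (12 * h)) - (19 * b)) - (10 * o)))))) - ((h *
    (((((20 * θ) + 3) - (12 * h)) - (19 * b)) - (10 * o))) * (h * (((((20 * θ) + 3) - (12 * h)) -
    (19 * b)) - (10 * o)))))) - ((((23 + (29 * o)) - (30 * θ)) - (26 * h)) * ((100 * (θ * θ)) -
    ((h * (((((20 * θ) + 3) - (12 * h)) - (19 * b)) - (10 * o))) * (h * (((((20 * θ) + 3) - (12 *
    h)) - (19 * b)) - (10 * o))))))) * (1 - e))))))) - (18000 * ((((5 * (((3 - (2 * ((θ * ((1 +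
    o) - e)) + b))) - (2 * θ)) * b)) + (3 * e)) * (((((28 * h) + (30 * ((θ * ((1 + o) - e)) +
    b))) + (30 * θ)) - 1) - (18 * ((5 * (((3 - (2 * ((θ * ((1 + o) - e)) + b))) - (2 * θ)) * b))
    + (3 * e))))) * h))))))) + (1800000 * ((θ * ((100 * (b * b)) - (64 * ((e * b) * (b + (θ * ((θ
    * ((1 + o) - e)) + b))))))) - (75 * (((1 - (2 * θ)) * b) * (((1 - ((θ * ((1 + o) - e)) + b))
    * b) + ((θ * ((θ * ((1 + o) - e)) + b)) * e)))))) := by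
  have hbx := B5_b0 [θ, b, o, e, h, ω] rfl
    (by simp only [InBox, List.map_cons, List.map_nil]; push_cast; exact ⟨⟨by norm_num, by
    norm_num⟩, ⟨by linarith, by linarith⟩, ⟨by norm_num, by norm_num⟩, ⟨by linarith, by
    linarith⟩, ⟨by norm_num, by norm_num⟩, ⟨by linarith, by linarith⟩, ⟨by norm_num, by
    norm_num⟩, ⟨by linarith, by linarith⟩, ⟨by norm_num, by norm_num⟩, ⟨by linarith, by
    linarith⟩, ⟨by norm_num, by norm_num⟩, ⟨by linarith, by linarith⟩, trivial⟩)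
    (by simp only [List.forall_mem_cons, List.not_mem_nil, false_imp_iff, implies_true, and_true,
    B5_p0, B5_p1, B5_c0, E.val, List.getD_cons_zero, List.getD_cons_succ, Int.cast_ofNat,
    Int.cast_one, Int.cast_zero]; exact c0)
  simpa only [List.mem_cons, List.not_mem_nil, or_false, exists_eq_or_imp, exists_eq_left, B5_p0,
  B5_p1, B5_c0, E.val, List.getD_cons_zero, List.getD_cons_succ, Int.cast_ofNat, Int.cast_one,
  Int.cast_zero] using hbx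

theorem B6 (θ b o e h ω : ℝ)
    (l0 : (93 : ℝ) ≤ 200 * θ) (u0 : 200 * θ ≤ 100)
    (l1 : (0 : ℝ) ≤ 25 * b) (u1 : 25 * b ≤ 3)
    (l2 : (0 : ℝ) ≤ 25 * o) (u2 : 25 * o ≤ 6)
    (l3 : (0 : ℝ) ≤ 100 * e) (u3 : 100 * e ≤ 3)
    (l4 : (0 : ℝ) ≤ 100 * h) (u4 : 100 * h ≤ 31)
    (l5 : (20 : ℝ) ≤ 20 * ω) (u5 : 20 * ω ≤ 23)
    (c0 : 0 ≤ b * ((((θ * h) + (1 - θ)) - ((θ * ((1 + o) - e)) + b)) - (b - ((1 - ((θ * ((1 + o)
    - e)) + b)) * h))))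
    (c1 : 0 ≤ e * (b - ((1 - ((θ * ((1 + o) - e)) + b)) * h)))
    (c2 : 0 ≤ e * ((((θ * h) + (1 - θ)) - ((θ * ((1 + o) - e)) + b)) - (b - ((1 - ((θ * ((1 + o)
    - e)) + b)) * h))))
    (c3 : 0 ≤ e * ((23 * (θ * b)) - (20 * (((1 - ((θ * ((1 + o) - e)) + b)) * b) + ((θ * ((θ *
    ((1 + o) - e)) + b)) * e)))))
    (c4 : 0 ≤ o * (h - e))
    :
    0 ≤ (600 * (θ * ((1800000 * ((o * (1 - θ)) * ((1 - ((θ * ((1 + o) - e)) + b)) * h))) + (e *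
    ((100 * (((18000 * (((((1 - ((θ * ((1 + o) - e)) + b)) * b) + (((θ * ((1 + o) - e)) + b) * (1
    - ((θ * ((1 + o) - e)) + b)))) + ((θ * θ) * (((1 + o) - e) - h))) - (2 * ((θ * (1 - θ)) *
    h)))) + (8000 * (((((1 - θ) * (1 - θ)) * h) * h) * (6 - (4 * (((1 + o) - e) - h)))))) + (9 *
    ((1 + (o * ω)) * ((2000 * (((1 - e) - ((θ * ((1 + o) - e)) + b)) - (((θ * ((1 + o) - e)) + b)
    * (1 - ((θ * ((1 + o) - e)) + b))))) - (((20 * (((100 * (θ * (2 - θ))) - (20 * ((1 - θ) * (h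
    * (((((20 * θ) + 3) - (12 * h)) - (19 * b)) - (10 * o)))))) - ((h * (((((20 * θ) + 3) - (12 *
    h)) - (19 * b)) - (10 * o))) * (h * (((((20 * θ) + 3) - (12 * h)) - (19 * b)) - (10 * o))))))
    - ((((23 + (29 * o)) - (30 * θ)) - (26 * h)) * ((100 * (θ * θ)) - ((h * (((((20 * θ) + 3) -
    (12 * h)) - (19 * b)) - (10 * o))) * (h * (((((20 * θ) + 3) - (12 * h)) - (19 * b)) - (10 *
    o))))))) * (1 - e))))))) - (18000 * ((((5 * (((3 - (2 * ((θ * ((1 + o) - e)) + b))) - (2 *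
    θ)) * b)) + (3 * e)) * (((((28 * h) + (30 * ((θ * ((1 + o) - e)) + b))) + (30 * θ)) - 1) -
    (18 * ((5 * (((3 - (2 * ((θ * ((1 + o) - e)) + b))) - (2 * θ)) * b)) + (3 * e))))) * h)))))))
    - (1800000 * (e * ((768 * ((θ * b) * (b + (θ * ((θ * ((1 + o) - e)) + b))))) + (25 * (((θ *
    ((1 + o) - e)) + b) * ((16 * ((θ * (b - ((1 - ((θ * ((1 + o) - e)) + b)) * h))) * (3 - (5 *
    (((θ * ((1 + o) - e)) + b) - θ))))) + (99 * ((1 - (2 * θ)) * ((θ * (h - b)) - (((θ * ((1 + o)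
    - e)) + b) * (((θ * ((1 + o) - e)) + b) - (1 - θ)))))))))))) ∨ 0 ≤ (600 * (θ * ((1800000 *
    ((θ * ((o * (1 - θ)) * ((1 - ((θ * ((1 + o) - e)) + b)) * h))) - (((1 - ((θ * ((1 + o) - e))
    + b)) * b) * (b + (((θ * ((1 + o) - e)) + b) - (1 - θ)))))) + (θ * (e * ((100 * (((18000 *
    (((((1 - ((θ * ((1 + o) - e)) + b)) * b) + (((θ * ((1 + o) - e)) + b) * (1 - ((θ * ((1 + o) -
    e)) + b)))) + ((θ * θ) * (((1 + o) - e) - h))) - (2 * ((θ * (1 - θ)) * h)))) + (8000 * (((((1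
    - θ) * (1 - θ)) * h) * h) * (6 - (4 * (((1 + o) - e) - h)))))) + (9 * ((1 + (o * ω)) * ((2000
    * (((1 - e) - ((θ * ((1 + o) - e)) + b)) - (((θ * ((1 + o) - e)) + b) * (1 - ((θ * ((1 + o) -
    e)) + b))))) - (((20 * (((100 * (θ * (2 - θ))) - (20 * ((1 - θ) * (h * (((((20 * θ) + 3) -
    (12 * h)) - (19 * b)) - (10 * o)))))) - ((h * (((((20 * θ) + 3) - (12 * h)) - (19 * b)) - (10
    * o))) * (h * (((((20 * θ) + 3) - (12 * h)) - (19 * b)) - (10 * o)))))) - ((((23 + (29 * o))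
    - (30 * θ)) - (26 * h)) * ((100 * (θ * θ)) - ((h * (((((20 * θ) + 3) - (12 * h)) - (19 * b))
    - (10 * o))) * (h * (((((20 * θ) + 3) - (12 * h)) - (19 * b)) - (10 * o))))))) * (1 -
    e))))))) - (18000 * ((((5 * (((3 - (2 * ((θ * ((1 + o) - e)) + b))) - (2 * θ)) * b)) + (3 *
    e)) * (((((28 * h) + (30 * ((θ * ((1 + o) - e)) + b))) + (30 * θ)) - 1) - (18 * ((5 * (((3 -
    (2 * ((θ * ((1 + o) - e)) + b))) - (2 * θ)) * b)) + (3 * e))))) * h)))))))) + (1800000 *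
    (((1200 * (((θ * θ) * b) * b)) - (θ * ((e * (768 * (θ * b))) * (b + (θ * ((θ * ((1 + o) - e))
    + b)))))) - (25 * (((16 * ((θ * (b - ((1 - ((θ * ((1 + o) - e)) + b)) * h))) * (3 - (5 * (((θ
    * ((1 + o) - e)) + b) - θ))))) + (99 * ((1 - (2 * θ)) * ((θ * (h - b)) - (((θ * ((1 + o) -
    e)) + b) * (((θ * ((1 + o) - e)) + b) - (1 - θ))))))) * (((1 - ((θ * ((1 + o) - e)) + b)) *
    b) + ((θ * ((θ * ((1 + o) - e)) + b)) * e)))))) ∨ 0 ≤ (600 * (θ * ((1800000 * ((θ * ((o * (1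
    - θ)) * ((1 - ((θ * ((1 + o) - e)) + b)) * h))) - (((1 - ((θ * ((1 + o) - e)) + b)) * b) * (b
    + (((θ * ((1 + o) - e)) + b) - (1 - θ)))))) + (θ * (e * ((100 * (((18000 * (((((1 - ((θ * ((1
    + o) - e)) + b)) * b) + (((θ * ((1 + o) - e)) + b) * (1 - ((θ * ((1 + o) - e)) + b)))) + ((θ
    * θ) * (((1 + o) - e) - h))) - (2 * ((θ * (1 - θ)) * h)))) + (8000 * (((((1 - θ) * (1 - θ)) *
    h) * h) * (6 - (4 * (((1 + o) - e) - h)))))) + (9 * ((1 + (o * ω)) * ((2000 * (((1 - e) - ((θ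
    * ((1 + o) - e)) + b)) - (((θ * ((1 + o) - e)) + b) * (1 - ((θ * ((1 + o) - e)) + b))))) -
    (((20 * (((100 * (θ * (2 - θ))) - (20 * ((1 - θ) * (h * (((((20 * θ) + 3) - (12 * h)) - (19 *
    b)) - (10 * o)))))) - ((h * (((((20 * θ) + 3) - (12 * h)) - (19 * b)) - (10 * o))) * (h *
    (((((20 * θ) + 3) - (12 * h)) - (19 * b)) - (10 * o)))))) - ((((23 + (29 * o)) - (30 * θ)) -
    (26 * h)) * ((100 * (θ * θ)) - ((h * (((((20 * θ) + 3) - (12 * h)) - (19 * b)) - (10 * o))) *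
    (h * (((((20 * θ) + 3) - (12 * h)) - (19 * b)) - (10 * o))))))) * (1 - e))))))) - (18000 *
    ((((5 * (((3 - (2 * ((θ * ((1 + o) - e)) + b))) - (2 * θ)) * b)) + (3 * e)) * (((((28 * h) +
    (30 * ((θ * ((1 + o) - e)) + b))) + (30 * θ)) - 1) - (18 * ((5 * (((3 - (2 * ((θ * ((1 + o) -
    e)) + b))) - (2 * θ)) * b)) + (3 * e))))) * h)))))))) + (1800000 * (((1200 * (((θ * θ) * b) *
    b)) - (θ * ((e * (2475 * ((θ * (h - b)) - (((θ * ((1 + o) - e)) + b) * (((θ * ((1 + o) - e))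
    + b) - (1 - θ)))))) * (b + (θ * ((θ * ((1 + o) - e)) + b)))))) - (25 * (((16 * ((θ * (b - ((1
    - ((θ * ((1 + o) - e)) + b)) * h))) * (3 - (5 * (((θ * ((1 + o) - e)) + b) - θ))))) + (99 *
    ((1 - (2 * θ)) * ((θ * (h - b)) - (((θ * ((1 + o) - e)) + b) * (((θ * ((1 + o) - e)) + b) -
    (1 - θ))))))) * (((1 - ((θ * ((1 + o) - e)) + b)) * b) + ((θ * ((θ * ((1 + o) - e)) + b)) *
    e)))))) := by
  have hbx := B6_b0 [θ, b, o, e, h, ω] rfl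
    (by simp only [InBox, List.map_cons, List.map_nil]; push_cast; exact ⟨⟨by norm_num, by
    norm_num⟩, ⟨by linarith, by linarith⟩, ⟨by norm_num, by norm_num⟩, ⟨by linarith, by
    linarith⟩, ⟨by norm_num, by norm_num⟩, ⟨by linarith, by linarith⟩, ⟨by norm_num, by
    norm_num⟩, ⟨by linarith, by linarith⟩, ⟨by norm_num, by norm_num⟩, ⟨by linarith, by
    linarith⟩, ⟨by norm_num, by norm_num⟩, ⟨by linarith, by linarith⟩, trivial⟩)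
    (by simp only [List.forall_mem_cons, List.not_mem_nil, false_imp_iff, implies_true, and_true,
    B6_p0, B6_p1, B6_p2, B6_c0, B6_c1, B6_c2, B6_c3, B6_c4, E.val, List.getD_cons_zero,
    List.getD_cons_succ, Int.cast_ofNat, Int.cast_one, Int.cast_zero]; exact ⟨c0, c1, c2, c3,
    c4⟩)
  simpa only [List.mem_cons, List.not_mem_nil, or_false, exists_eq_or_imp, exists_eq_left, B6_p0,
  B6_p1, B6_p2, B6_c0, B6_c1, B6_c2, B6_c3, B6_c4, E.val, List.getD_cons_zero,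
  List.getD_cons_succ, Int.cast_ofNat, Int.cast_one, Int.cast_zero] using hbx

theorem sb2 (θ b o e h ω : ℝ)
    (l0 : (93 : ℝ) ≤ 200 * θ) (u0 : 200 * θ ≤ 100)
    (l1 : (0 : ℝ) ≤ 25 * b) (u1 : 25 * b ≤ 3)
    (l2 : (0 : ℝ) ≤ 25 * o) (u2 : 25 * o ≤ 6)
    (l3 : (0 : ℝ) ≤ 100 * e) (u3 : 100 * e ≤ 3)
    (l4 : (0 : ℝ) ≤ 2 * h) (u4 : 2 * h ≤ 1)
    (l5 : (20 : ℝ) ≤ 20 * ω) (u5 : 20 * ω ≤ 23)
    (c0 : 0 ≤ (1 - θ) - ((θ * ((1 + o) - e)) + b))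
    :
    0 ≤ (17 - (30 * θ)) - (30 * b) := by
  have hbx := sb2_b0 [θ, b, o, e, h, ω] rfl
    (by simp only [InBox, List.map_cons, List.map_nil]; push_cast; exact ⟨⟨by norm_num, by
    norm_num⟩, ⟨by linarith, by linarith⟩, ⟨by norm_num, by norm_num⟩, ⟨by linarith, by
    linarith⟩, ⟨by norm_num, by norm_num⟩, ⟨by linarith, by linarith⟩, ⟨by norm_num, by
    norm_num⟩, ⟨by linarith, by linarith⟩, ⟨by norm_num, by norm_num⟩, ⟨by linarith, by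
    linarith⟩, ⟨by norm_num, by norm_num⟩, ⟨by linarith, by linarith⟩, trivial⟩)
    (by simp only [List.forall_mem_cons, List.not_mem_nil, false_imp_iff, implies_true, and_true,
    sb2_p0, sb2_c0, E.val, List.getD_cons_zero, List.getD_cons_succ, Int.cast_ofNat,
    Int.cast_one, Int.cast_zero]; exact c0)
  simpa only [List.mem_cons, List.not_mem_nil, or_false, exists_eq_or_imp, exists_eq_left,
  sb2_p0, sb2_c0, E.val, List.getD_cons_zero, List.getD_cons_succ, Int.cast_ofNat, Int.cast_one,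
  Int.cast_zero] using hbx

theorem sb3 (θ b o e h ω : ℝ)
    (l0 : (93 : ℝ) ≤ 200 * θ) (u0 : 200 * θ ≤ 100)
    (l1 : (0 : ℝ) ≤ 25 * b) (u1 : 25 * b ≤ 3)
    (l2 : (0 : ℝ) ≤ 25 * o) (u2 : 25 * o ≤ 6)
    (l3 : (0 : ℝ) ≤ 100 * e) (u3 : 100 * e ≤ 3)
    (l4 : (0 : ℝ) ≤ 2 * h) (u4 : 2 * h ≤ 1)
    (l5 : (20 : ℝ) ≤ 20 * ω) (u5 : 20 * ω ≤ 23)
    (c0 : 0 ≤ (20 * (((1 - ((θ * ((1 + o) - e)) + b)) * b) + ((θ * ((θ * ((1 + o) - e)) + b)) *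
    e))) - (23 * (θ * b)))
    :
    0 ≤ (17 - (30 * θ)) - (30 * b) := by
  have hbx := sb3_b0 [θ, b, o, e, h, ω] rfl
    (by simp only [InBox, List.map_cons, List.map_nil]; push_cast; exact ⟨⟨by norm_num, by
    norm_num⟩, ⟨by linarith, by linarith⟩, ⟨by norm_num, by norm_num⟩, ⟨by linarith, by
    linarith⟩, ⟨by norm_num, by norm_num⟩, ⟨by linarith, by linarith⟩, ⟨by norm_num, by
    norm_num⟩, ⟨by linarith, by linarith⟩, ⟨by norm_num, by norm_num⟩, ⟨by linarith, by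
    linarith⟩, ⟨by norm_num, by norm_num⟩, ⟨by linarith, by linarith⟩, trivial⟩)
    (by simp only [List.forall_mem_cons, List.not_mem_nil, false_imp_iff, implies_true, and_true,
    sb3_p0, sb3_c0, E.val, List.getD_cons_zero, List.getD_cons_succ, Int.cast_ofNat,
    Int.cast_one, Int.cast_zero]; exact c0)
  simpa only [List.mem_cons, List.not_mem_nil, or_false, exists_eq_or_imp, exists_eq_left,
  sb3_p0, sb3_c0, E.val, List.getD_cons_zero, List.getD_cons_succ, Int.cast_ofNat, Int.cast_one,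
  Int.cast_zero] using hbx

theorem sb7 (θ b o e h ω : ℝ)
    (l0 : (93 : ℝ) ≤ 200 * θ) (u0 : 200 * θ ≤ 100)
    (l1 : (0 : ℝ) ≤ 25 * b) (u1 : 25 * b ≤ 3)
    (l2 : (0 : ℝ) ≤ 25 * o) (u2 : 25 * o ≤ 6)
    (l3 : (0 : ℝ) ≤ 100 * e) (u3 : 100 * e ≤ 3)
    (l4 : (0 : ℝ) ≤ 2 * h) (u4 : 2 * h ≤ 1)
    (l5 : (20 : ℝ) ≤ 20 * ω) (u5 : 20 * ω ≤ 23)
    (c0 : 0 ≤ 107 - (200 * ((θ * ((1 + o) - e)) + b)))
    :
    0 ≤ (17 - (30 * θ)) - (30 * b) := by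
  have hbx := sb7_b0 [θ, b, o, e, h, ω] rfl
    (by simp only [InBox, List.map_cons, List.map_nil]; push_cast; exact ⟨⟨by norm_num, by
    norm_num⟩, ⟨by linarith, by linarith⟩, ⟨by norm_num, by norm_num⟩, ⟨by linarith, by
    linarith⟩, ⟨by norm_num, by norm_num⟩, ⟨by linarith, by linarith⟩, ⟨by norm_num, by
    norm_num⟩, ⟨by linarith, by linarith⟩, ⟨by norm_num, by norm_num⟩, ⟨by linarith, by
    linarith⟩, ⟨by norm_num, by norm_num⟩, ⟨by linarith, by linarith⟩, trivial⟩)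
    (by simp only [List.forall_mem_cons, List.not_mem_nil, false_imp_iff, implies_true, and_true,
    sb7_p0, sb7_c0, E.val, List.getD_cons_zero, List.getD_cons_succ, Int.cast_ofNat,
    Int.cast_one, Int.cast_zero]; exact c0)
  simpa only [List.mem_cons, List.not_mem_nil, or_false, exists_eq_or_imp, exists_eq_left,
  sb7_p0, sb7_c0, E.val, List.getD_cons_zero, List.getD_cons_succ, Int.cast_ofNat, Int.cast_one,
  Int.cast_zero] using hbx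

theorem f0 (θ b o e h ω : ℝ)
    (l0 : (93 : ℝ) ≤ 200 * θ) (u0 : 200 * θ ≤ 100)
    (l1 : (0 : ℝ) ≤ 25 * b) (u1 : 25 * b ≤ 3)
    (l2 : (0 : ℝ) ≤ 25 * o) (u2 : 25 * o ≤ 6)
    (l3 : (0 : ℝ) ≤ 100 * e) (u3 : 100 * e ≤ 3)
    (l4 : (0 : ℝ) ≤ 2 * h) (u4 : 2 * h ≤ 1)
    (l5 : (20 : ℝ) ≤ 20 * ω) (u5 : 20 * ω ≤ 23)
    (c0 : 0 ≤ (1 - θ) - ((θ * ((1 + o) - e)) + b))
    :
    0 ≤ (θ * (1 - ((θ * ((1 + o) - e)) + b))) - (b * (((2 * θ) + 1) - ((θ * ((1 + o) - e)) + b))) := by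
  have hbx := f0_b0 [θ, b, o, e, h, ω] rfl
    (by simp only [InBox, List.map_cons, List.map_nil]; push_cast; exact ⟨⟨by norm_num, by
    norm_num⟩, ⟨by linarith, by linarith⟩, ⟨by norm_num, by norm_num⟩, ⟨by linarith, by
    linarith⟩, ⟨by norm_num, by norm_num⟩, ⟨by linarith, by linarith⟩, ⟨by norm_num, by
    norm_num⟩, ⟨by linarith, by linarith⟩, ⟨by norm_num, by norm_num⟩, ⟨by linarith, by
    linarith⟩, ⟨by norm_num, by norm_num⟩, ⟨by linarith, by linarith⟩, trivial⟩)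
    (by simp only [List.forall_mem_cons, List.not_mem_nil, false_imp_iff, implies_true, and_true,
    f0_p0, f0_c0, E.val, List.getD_cons_zero, List.getD_cons_succ, Int.cast_ofNat, Int.cast_one,
    Int.cast_zero]; exact c0)
  simpa only [List.mem_cons, List.not_mem_nil, or_false, exists_eq_or_imp, exists_eq_left, f0_p0,
  f0_c0, E.val, List.getD_cons_zero, List.getD_cons_succ, Int.cast_ofNat, Int.cast_one,
  Int.cast_zero] using hbx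

theorem Lq_b10 : G [Lq_p0] [Lq_c0, Lq_c1] 6 [193, 0, 0, 0, 5, 20] [200, 3, 6, 3, 6, 23] [400, 100, 50, 100, 16, 20] :=
  G.split 3 Lq_b11 Lq_b12

theorem Lq_b9 : G [Lq_p0] [Lq_c0, Lq_c1] 6 [193, 0, 0, 0, 5, 20] [200, 3, 6, 3, 6, 23] [400, 50, 50, 100, 16, 20] :=
  G.split 1 Lq_b10 Lq_b13

theorem Lq_b8 : G [Lq_p0] [Lq_c0, Lq_c1] 6 [193, 0, 0, 0, 5, 20] [200, 3, 6, 3, 6, 23] [400, 50, 25, 100, 16, 20] :=
  G.split 2 Lq_b9 Lq_b14

theorem Lq_b6 : G [Lq_p0] [Lq_c0, Lq_c1] 6 [193, 0, 0, 0, 2, 20] [200, 3, 6, 3, 3, 23] [400, 50, 25, 100, 8, 20] :=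
  G.split 4 Lq_b7 Lq_b8

theorem Lq_b4 : G [Lq_p0] [Lq_c0, Lq_c1] 6 [93, 0, 0, 0, 2, 20] [100, 3, 6, 3, 3, 23] [200, 50, 25, 100, 8, 20] :=
  G.split 0 Lq_b5 Lq_b6

theorem Lq_b3 : G [Lq_p0] [Lq_c0, Lq_c1] 6 [93, 0, 0, 0, 2, 20] [100, 3, 6, 3, 3, 23] [200, 25, 25, 100, 8, 20] :=
  G.split 1 Lq_b4 Lq_b15

theorem Lq_b2 : G [Lq_p0] [Lq_c0, Lq_c1] 6 [93, 0, 0, 0, 1, 20] [100, 3, 6, 3, 2, 23] [200, 25, 25, 100, 4, 20] :=
  G.split 4 Lq_b3 Lq_b16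

theorem Lq_b0 : G [Lq_p0] [Lq_c0, Lq_c1] 6 [93, 0, 0, 0, 0, 20] [100, 3, 6, 3, 1, 23] [200, 25, 25, 100, 2, 20] :=
  G.split 4 Lq_b1 Lq_b2

theorem Lq (θ b o e h ω : ℝ)
    (l0 : (93 : ℝ) ≤ 200 * θ) (u0 : 200 * θ ≤ 100)
    (l1 : (0 : ℝ) ≤ 25 * b) (u1 : 25 * b ≤ 3)
    (l2 : (0 : ℝ) ≤ 25 * o) (u2 : 25 * o ≤ 6)
    (l3 : (0 : ℝ) ≤ 100 * e) (u3 : 100 * e ≤ 3)
    (l4 : (0 : ℝ) ≤ 2 * h) (u4 : 2 * h ≤ 1)
    (l5 : (20 : ℝ) ≤ 20 * ω) (u5 : 20 * ω ≤ 23)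
    (c0 : 0 ≤ 107 - (200 * ((θ * ((1 + o) - e)) + b)))
    (c1 : 0 ≤ ((100 * h) + 63) - (200 * θ))
    :
    0 ≤ (((θ * ((1 + o) - e)) + b) * (1 - ((θ * ((1 + o) - e)) + b))) - ((((3 - (18 * (1 - (2 *
    θ)))) + (90 * ((1 - (2 * θ)) * (1 - (2 * θ))))) * (((θ * ((1 + o) - e)) + b) - h)) * θ) := by
  have hbx := Lq_b0 [θ, b, o, e, h, ω] rfl
    (by simp only [InBox, List.map_cons, List.map_nil]; push_cast; exact ⟨⟨by norm_num, by
    norm_num⟩, ⟨by linarith, by linarith⟩, ⟨by norm_num, by norm_num⟩, ⟨by linarith, by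
    linarith⟩, ⟨by norm_num, by norm_num⟩, ⟨by linarith, by linarith⟩, ⟨by norm_num, by
    norm_num⟩, ⟨by linarith, by linarith⟩, ⟨by norm_num, by norm_num⟩, ⟨by linarith, by
    linarith⟩, ⟨by norm_num, by norm_num⟩, ⟨by linarith, by linarith⟩, trivial⟩)
    (by simp only [List.forall_mem_cons, List.not_mem_nil, false_imp_iff, implies_true, and_true,
    Lq_p0, Lq_c0, Lq_c1, E.val, List.getD_cons_zero, List.getD_cons_succ, Int.cast_ofNat,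
    Int.cast_one, Int.cast_zero]; exact ⟨c0, c1⟩)
  simpa only [List.mem_cons, List.not_mem_nil, or_false, exists_eq_or_imp, exists_eq_left, Lq_p0,
  Lq_c0, Lq_c1, E.val, List.getD_cons_zero, List.getD_cons_succ, Int.cast_ofNat, Int.cast_one,
  Int.cast_zero] using hbx

theorem f2 (θ b o e h ω : ℝ)
    (l0 : (93 : ℝ) ≤ 200 * θ) (u0 : 200 * θ ≤ 100)
    (l1 : (0 : ℝ) ≤ 25 * b) (u1 : 25 * b ≤ 3)
    (l2 : (0 : ℝ) ≤ 25 * o) (u2 : 25 * o ≤ 6)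
    (l3 : (0 : ℝ) ≤ 100 * e) (u3 : 100 * e ≤ 3)
    (l4 : (0 : ℝ) ≤ 10 * h) (u4 : 10 * h ≤ 3)
    (l5 : (20 : ℝ) ≤ 20 * ω) (u5 : 20 * ω ≤ 23)
    (c0 : 0 ≤ (1 - θ) - ((θ * ((1 + o) - e)) + b))
    :
    0 ≤ (3 * (((1 - ((θ * ((1 + o) - e)) + b)) - (2 * b)) + ((((θ * ((1 + o) - e)) + b) - (1 -
    θ)) * (1 - h)))) - (20 * (θ * b)) := by
  have hbx := f2_b0 [θ, b, o, e, h, ω] rfl
    (by simp only [InBox, List.map_cons, List.map_nil]; push_cast; exact ⟨⟨by norm_num, by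
    norm_num⟩, ⟨by linarith, by linarith⟩, ⟨by norm_num, by norm_num⟩, ⟨by linarith, by
    linarith⟩, ⟨by norm_num, by norm_num⟩, ⟨by linarith, by linarith⟩, ⟨by norm_num, by
    norm_num⟩, ⟨by linarith, by linarith⟩, ⟨by norm_num, by norm_num⟩, ⟨by linarith, by
    linarith⟩, ⟨by norm_num, by norm_num⟩, ⟨by linarith, by linarith⟩, trivial⟩)
    (by simp only [List.forall_mem_cons, List.not_mem_nil, false_imp_iff, implies_true, and_true,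
    f2_p0, f2_c0, E.val, List.getD_cons_zero, List.getD_cons_succ, Int.cast_ofNat, Int.cast_one,
    Int.cast_zero]; exact c0)
  simpa only [List.mem_cons, List.not_mem_nil, or_false, exists_eq_or_imp, exists_eq_left, f2_p0,
  f2_c0, E.val, List.getD_cons_zero, List.getD_cons_succ, Int.cast_ofNat, Int.cast_one,
  Int.cast_zero] using hbx

theorem hI (θ b o e h ω : ℝ)
    (l0 : (93 : ℝ) ≤ 200 * θ) (u0 : 200 * θ ≤ 100)
    (l1 : (0 : ℝ) ≤ 25 * b) (u1 : 25 * b ≤ 3)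
    (l2 : (0 : ℝ) ≤ 25 * o) (u2 : 25 * o ≤ 6)
    (l3 : (0 : ℝ) ≤ 100 * e) (u3 : 100 * e ≤ 3)
    (l4 : (0 : ℝ) ≤ 2 * h) (u4 : 2 * h ≤ 1)
    (l5 : (20 : ℝ) ≤ 20 * ω) (u5 : 20 * ω ≤ 23)
    (c0 : 0 ≤ b - ((1 - ((θ * ((1 + o) - e)) + b)) * h))
    (c1 : 0 ≤ ((14 * θ) - 1) - (10 * ((θ * ((1 + o) - e)) + b)))
    :
    0 ≤ 3 - (10 * h) := by
  have hbx := hI_b0 [θ, b, o, e, h, ω] rfl
    (by simp only [InBox, List.map_cons, List.map_nil]; push_cast; exact ⟨⟨by norm_num, by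
    norm_num⟩, ⟨by linarith, by linarith⟩, ⟨by norm_num, by norm_num⟩, ⟨by linarith, by
    linarith⟩, ⟨by norm_num, by norm_num⟩, ⟨by linarith, by linarith⟩, ⟨by norm_num, by
    norm_num⟩, ⟨by linarith, by linarith⟩, ⟨by norm_num, by norm_num⟩, ⟨by linarith, by
    linarith⟩, ⟨by norm_num, by norm_num⟩, ⟨by linarith, by linarith⟩, trivial⟩)
    (by simp only [List.forall_mem_cons, List.not_mem_nil, false_imp_iff, implies_true, and_true,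
    hI_p0, hI_c0, hI_c1, E.val, List.getD_cons_zero, List.getD_cons_succ, Int.cast_ofNat,
    Int.cast_one, Int.cast_zero]; exact ⟨c0, c1⟩)
  simpa only [List.mem_cons, List.not_mem_nil, or_false, exists_eq_or_imp, exists_eq_left, hI_p0,
  hI_c0, hI_c1, E.val, List.getD_cons_zero, List.getD_cons_succ, Int.cast_ofNat, Int.cast_one,
  Int.cast_zero] using hbx

theorem hBa (θ b o e h ω : ℝ)
    (l0 : (93 : ℝ) ≤ 200 * θ) (u0 : 200 * θ ≤ 100)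
    (l1 : (0 : ℝ) ≤ 25 * b) (u1 : 25 * b ≤ 3)
    (l2 : (0 : ℝ) ≤ 25 * o) (u2 : 25 * o ≤ 6)
    (l3 : (0 : ℝ) ≤ 100 * e) (u3 : 100 * e ≤ 3)
    (l4 : (0 : ℝ) ≤ 2 * h) (u4 : 2 * h ≤ 1)
    (l5 : (20 : ℝ) ≤ 20 * ω) (u5 : 20 * ω ≤ 23)
    (c0 : 0 ≤ (b * (10 + (7 * ((1 - θ) * ((1 + o) - e))))) - (10 * ((1 - ((θ * ((1 + o) - e)) +
    b)) * h)))
    (c1 : 0 ≤ 107 - (200 * ((θ * ((1 + o) - e)) + b)))
    :
    0 ≤ 4 - (13 * h) := by
  have hbx := hBa_b0 [θ, b, o, e, h, ω] rfl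
    (by simp only [InBox, List.map_cons, List.map_nil]; push_cast; exact ⟨⟨by norm_num, by
    norm_num⟩, ⟨by linarith, by linarith⟩, ⟨by norm_num, by norm_num⟩, ⟨by linarith, by
    linarith⟩, ⟨by norm_num, by norm_num⟩, ⟨by linarith, by linarith⟩, ⟨by norm_num, by
    norm_num⟩, ⟨by linarith, by linarith⟩, ⟨by norm_num, by norm_num⟩, ⟨by linarith, by
    linarith⟩, ⟨by norm_num, by norm_num⟩, ⟨by linarith, by linarith⟩, trivial⟩)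
    (by simp only [List.forall_mem_cons, List.not_mem_nil, false_imp_iff, implies_true, and_true,
    hBa_p0, hBa_c0, hBa_c1, E.val, List.getD_cons_zero, List.getD_cons_succ, Int.cast_ofNat,
    Int.cast_one, Int.cast_zero]; exact ⟨c0, c1⟩)
  simpa only [List.mem_cons, List.not_mem_nil, or_false, exists_eq_or_imp, exists_eq_left,
  hBa_p0, hBa_c0, hBa_c1, E.val, List.getD_cons_zero, List.getD_cons_succ, Int.cast_ofNat,
  Int.cast_one, Int.cast_zero] using hbx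

theorem hBb (θ b o e h ω : ℝ)
    (l0 : (93 : ℝ) ≤ 200 * θ) (u0 : 200 * θ ≤ 100)
    (l1 : (0 : ℝ) ≤ 25 * b) (u1 : 25 * b ≤ 3)
    (l2 : (0 : ℝ) ≤ 25 * o) (u2 : 25 * o ≤ 6)
    (l3 : (0 : ℝ) ≤ 100 * e) (u3 : 100 * e ≤ 3)
    (l4 : (0 : ℝ) ≤ 2 * h) (u4 : 2 * h ≤ 1)
    (l5 : (20 : ℝ) ≤ 20 * ω) (u5 : 20 * ω ≤ 23)
    (c0 : 0 ≤ (b * (10 + (7 * ((1 - θ) * ((1 + o) - e))))) - (10 * ((1 - ((θ * ((1 + o) - e)) +
    b)) * h)))
    (c1 : 0 ≤ ((73 - (200 * (1 - (2 * θ)))) - (100 * ((θ * ((1 + o) - e)) + b))) - (50 * h))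
    :
    0 ≤ 4 - (13 * h) := by
  have hbx := hBb_b0 [θ, b, o, e, h, ω] rfl
    (by simp only [InBox, List.map_cons, List.map_nil]; push_cast; exact ⟨⟨by norm_num, by
    norm_num⟩, ⟨by linarith, by linarith⟩, ⟨by norm_num, by norm_num⟩, ⟨by linarith, by
    linarith⟩, ⟨by norm_num, by norm_num⟩, ⟨by linarith, by linarith⟩, ⟨by norm_num, by
    norm_num⟩, ⟨by linarith, by linarith⟩, ⟨by norm_num, by norm_num⟩, ⟨by linarith, by
    linarith⟩, ⟨by norm_num, by norm_num⟩, ⟨by linarith, by linarith⟩, trivial⟩)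
    (by simp only [List.forall_mem_cons, List.not_mem_nil, false_imp_iff, implies_true, and_true,
    hBb_p0, hBb_c0, hBb_c1, E.val, List.getD_cons_zero, List.getD_cons_succ, Int.cast_ofNat,
    Int.cast_one, Int.cast_zero]; exact ⟨c0, c1⟩)
  simpa only [List.mem_cons, List.not_mem_nil, or_false, exists_eq_or_imp, exists_eq_left,
  hBb_p0, hBb_c0, hBb_c1, E.val, List.getD_cons_zero, List.getD_cons_succ, Int.cast_ofNat,
  Int.cast_one, Int.cast_zero] using hbx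

theorem rd (θ b o e h ω : ℝ)
    (l0 : (93 : ℝ) ≤ 200 * θ) (u0 : 200 * θ ≤ 100)
    (l1 : (0 : ℝ) ≤ 25 * b) (u1 : 25 * b ≤ 3)
    (l2 : (0 : ℝ) ≤ 25 * o) (u2 : 25 * o ≤ 6)
    (l3 : (0 : ℝ) ≤ 100 * e) (u3 : 100 * e ≤ 3)
    (l4 : (0 : ℝ) ≤ 100 * h) (u4 : 100 * h ≤ 37)
    (l5 : (20 : ℝ) ≤ 20 * ω) (u5 : 20 * ω ≤ 23)
    :
    0 ≤ (10 * (((θ * ((1 + o) - e)) + b) - h)) - (b * (10 + (7 * ((1 - θ) * ((1 + o) - e))))) := by
  have hbx := rd_b0 [θ, b, o, e, h, ω] rfl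
    (by simp only [InBox, List.map_cons, List.map_nil]; push_cast; exact ⟨⟨by norm_num, by
    norm_num⟩, ⟨by linarith, by linarith⟩, ⟨by norm_num, by norm_num⟩, ⟨by linarith, by
    linarith⟩, ⟨by norm_num, by norm_num⟩, ⟨by linarith, by linarith⟩, ⟨by norm_num, by
    norm_num⟩, ⟨by linarith, by linarith⟩, ⟨by norm_num, by norm_num⟩, ⟨by linarith, by
    linarith⟩, ⟨by norm_num, by norm_num⟩, ⟨by linarith, by linarith⟩, trivial⟩)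
    (by simp only [List.forall_mem_cons, List.not_mem_nil, false_imp_iff, implies_true, and_true,
    rd_p0, E.val, List.getD_cons_zero, List.getD_cons_succ, Int.cast_ofNat, Int.cast_one,
    Int.cast_zero])
  simpa only [List.mem_cons, List.not_mem_nil, or_false, exists_eq_or_imp, exists_eq_left, rd_p0,
  E.val, List.getD_cons_zero, List.getD_cons_succ, Int.cast_ofNat, Int.cast_one, Int.cast_zero]
  using hbx

theorem w2 (θ b o e h ω : ℝ)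
    (l0 : (93 : ℝ) ≤ 200 * θ) (u0 : 200 * θ ≤ 100)
    (l1 : (0 : ℝ) ≤ 25 * b) (u1 : 25 * b ≤ 3)
    (l2 : (0 : ℝ) ≤ 25 * o) (u2 : 25 * o ≤ 6)
    (l3 : (0 : ℝ) ≤ 100 * e) (u3 : 100 * e ≤ 3)
    (l4 : (0 : ℝ) ≤ 2 * h) (u4 : 2 * h ≤ 1)
    (l5 : (20 : ℝ) ≤ 20 * ω) (u5 : 20 * ω ≤ 23)
    (c0 : 0 ≤ b - ((1 - ((θ * ((1 + o) - e)) + b)) * h))
    :
    0 ≤ (2 * ((((θ * ((1 + o) - e)) + b) - h) * θ)) - (((θ * ((1 + o) - e)) + b) * (1 - ((θ * ((1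
    + o) - e)) + b))) := by
  have hbx := w2_b0 [θ, b, o, e, h, ω] rfl
    (by simp only [InBox, List.map_cons, List.map_nil]; push_cast; exact ⟨⟨by norm_num, by
    norm_num⟩, ⟨by linarith, by linarith⟩, ⟨by norm_num, by norm_num⟩, ⟨by linarith, by
    linarith⟩, ⟨by norm_num, by norm_num⟩, ⟨by linarith, by linarith⟩, ⟨by norm_num, by
    norm_num⟩, ⟨by linarith, by linarith⟩, ⟨by norm_num, by norm_num⟩, ⟨by linarith, by
    linarith⟩, ⟨by norm_num, by norm_num⟩, ⟨by linarith, by linarith⟩, trivial⟩)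
    (by simp only [List.forall_mem_cons, List.not_mem_nil, false_imp_iff, implies_true, and_true,
    w2_p0, w2_c0, E.val, List.getD_cons_zero, List.getD_cons_succ, Int.cast_ofNat, Int.cast_one,
    Int.cast_zero]; exact c0)
  simpa only [List.mem_cons, List.not_mem_nil, or_false, exists_eq_or_imp, exists_eq_left, w2_p0,
  w2_c0, E.val, List.getD_cons_zero, List.getD_cons_succ, Int.cast_ofNat, Int.cast_one,
  Int.cast_zero] using hbx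

theorem hL (θ b o e h ω : ℝ)
    (l0 : (93 : ℝ) ≤ 200 * θ) (u0 : 200 * θ ≤ 100)
    (l1 : (0 : ℝ) ≤ 25 * b) (u1 : 25 * b ≤ 3)
    (l2 : (0 : ℝ) ≤ 25 * o) (u2 : 25 * o ≤ 6)
    (l3 : (0 : ℝ) ≤ 100 * e) (u3 : 100 * e ≤ 3)
    (l4 : (0 : ℝ) ≤ 2 * h) (u4 : 2 * h ≤ 1)
    (l5 : (20 : ℝ) ≤ 20 * ω) (u5 : 20 * ω ≤ 23)
    (c0 : 0 ≤ (23 * (θ * b)) - (20 * (((1 - ((θ * ((1 + o) - e)) + b)) * b) + ((θ * ((θ * ((1 +
    o) - e)) + b)) * e))))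
    :
    0 ≤ (25 * b) - (32 * (e * (b + (θ * ((θ * ((1 + o) - e)) + b))))) := by
  have hbx := hL_b0 [θ, b, o, e, h, ω] rfl
    (by simp only [InBox, List.map_cons, List.map_nil]; push_cast; exact ⟨⟨by norm_num, by
    norm_num⟩, ⟨by linarith, by linarith⟩, ⟨by norm_num, by norm_num⟩, ⟨by linarith, by
    linarith⟩, ⟨by norm_num, by norm_num⟩, ⟨by linarith, by linarith⟩, ⟨by norm_num, by
    norm_num⟩, ⟨by linarith, by linarith⟩, ⟨by norm_num, by norm_num⟩, ⟨by linarith, by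
    linarith⟩, ⟨by norm_num, by norm_num⟩, ⟨by linarith, by linarith⟩, trivial⟩)
    (by simp only [List.forall_mem_cons, List.not_mem_nil, false_imp_iff, implies_true, and_true,
    hL_p0, hL_c0, E.val, List.getD_cons_zero, List.getD_cons_succ, Int.cast_ofNat, Int.cast_one,
    Int.cast_zero]; exact c0)
  simpa only [List.mem_cons, List.not_mem_nil, or_false, exists_eq_or_imp, exists_eq_left, hL_p0,
  hL_c0, E.val, List.getD_cons_zero, List.getD_cons_succ, Int.cast_ofNat, Int.cast_one,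
  Int.cast_zero] using hbx

theorem nB (θ b o e h ω : ℝ)
    (l0 : (93 : ℝ) ≤ 200 * θ) (u0 : 200 * θ ≤ 100)
    (l1 : (0 : ℝ) ≤ 25 * b) (u1 : 25 * b ≤ 3)
    (l2 : (0 : ℝ) ≤ 25 * o) (u2 : 25 * o ≤ 6)
    (l3 : (0 : ℝ) ≤ 100 * e) (u3 : 100 * e ≤ 3)
    (l4 : (0 : ℝ) ≤ 100 * h) (u4 : 100 * h ≤ 31)
    (l5 : (20 : ℝ) ≤ 20 * ω) (u5 : 20 * ω ≤ 23)
    :
    0 ≤ (((5 * (((3 - (2 * ((θ * ((1 + o) - e)) + b))) - (2 * θ)) * b)) + (3 * e)) * (((((28 * h)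
    + (30 * ((θ * ((1 + o) - e)) + b))) + (30 * θ)) - 1) - (18 * ((5 * (((3 - (2 * ((θ * ((1 + o)
    - e)) + b))) - (2 * θ)) * b)) + (3 * e))))) - (128 * (θ * b)) := by
  have hbx := nB_b0 [θ, b, o, e, h, ω] rfl
    (by simp only [InBox, List.map_cons, List.map_nil]; push_cast; exact ⟨⟨by norm_num, by
    norm_num⟩, ⟨by linarith, by linarith⟩, ⟨by norm_num, by norm_num⟩, ⟨by linarith, by
    linarith⟩, ⟨by norm_num, by norm_num⟩, ⟨by linarith, by linarith⟩, ⟨by norm_num, by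
    norm_num⟩, ⟨by linarith, by linarith⟩, ⟨by norm_num, by norm_num⟩, ⟨by linarith, by
    linarith⟩, ⟨by norm_num, by norm_num⟩, ⟨by linarith, by linarith⟩, trivial⟩)
    (by simp only [List.forall_mem_cons, List.not_mem_nil, false_imp_iff, implies_true, and_true,
    nB_p0, E.val, List.getD_cons_zero, List.getD_cons_succ, Int.cast_ofNat, Int.cast_one,
    Int.cast_zero])
  simpa only [List.mem_cons, List.not_mem_nil, or_false, exists_eq_or_imp, exists_eq_left, nB_p0,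
  E.val, List.getD_cons_zero, List.getD_cons_succ, Int.cast_ofNat, Int.cast_one, Int.cast_zero]
  using hbx

theorem nI (θ b o e h ω : ℝ)
    (l0 : (93 : ℝ) ≤ 200 * θ) (u0 : 200 * θ ≤ 100)
    (l1 : (0 : ℝ) ≤ 25 * b) (u1 : 25 * b ≤ 3)
    (l2 : (0 : ℝ) ≤ 25 * o) (u2 : 25 * o ≤ 6)
    (l3 : (0 : ℝ) ≤ 100 * e) (u3 : 100 * e ≤ 3)
    (l4 : (0 : ℝ) ≤ 10 * h) (u4 : 10 * h ≤ 3)
    (l5 : (20 : ℝ) ≤ 20 * ω) (u5 : 20 * ω ≤ 23)
    :
    0 ≤ ((5 * (((7 - (4 * ((θ * ((1 + o) - e)) + b))) - (6 * θ)) * b)) + (6 * e)) * ((((3 + (30 *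
    h)) + (20 * ((θ * ((1 + o) - e)) + b))) + (20 * θ)) - (6 * ((5 * (((7 - (4 * ((θ * ((1 + o) -
    e)) + b))) - (6 * θ)) * b)) + (6 * e)))) := by
  have hbx := nI_b0 [θ, b, o, e, h, ω] rfl
    (by simp only [InBox, List.map_cons, List.map_nil]; push_cast; exact ⟨⟨by norm_num, by
    norm_num⟩, ⟨by linarith, by linarith⟩, ⟨by norm_num, by norm_num⟩, ⟨by linarith, by
    linarith⟩, ⟨by norm_num, by norm_num⟩, ⟨by linarith, by linarith⟩, ⟨by norm_num, by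
    norm_num⟩, ⟨by linarith, by linarith⟩, ⟨by norm_num, by norm_num⟩, ⟨by linarith, by
    linarith⟩, ⟨by norm_num, by norm_num⟩, ⟨by linarith, by linarith⟩, trivial⟩)
    (by simp only [List.forall_mem_cons, List.not_mem_nil, false_imp_iff, implies_true, and_true,
    nI_p0, E.val, List.getD_cons_zero, List.getD_cons_succ, Int.cast_ofNat, Int.cast_one,
    Int.cast_zero])
  simpa only [List.mem_cons, List.not_mem_nil, or_false, exists_eq_or_imp, exists_eq_left, nI_p0,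
  E.val, List.getD_cons_zero, List.getD_cons_succ, Int.cast_ofNat, Int.cast_one, Int.cast_zero]
  using hbx

theorem kc (θ b o e h ω : ℝ)
    (l0 : (93 : ℝ) ≤ 200 * θ) (u0 : 200 * θ ≤ 100)
    (l1 : (0 : ℝ) ≤ 25 * b) (u1 : 25 * b ≤ 3)
    (l2 : (0 : ℝ) ≤ 25 * o) (u2 : 25 * o ≤ 6)
    (l3 : (0 : ℝ) ≤ 100 * e) (u3 : 100 * e ≤ 3)
    (l4 : (0 : ℝ) ≤ 2 * h) (u4 : 2 * h ≤ 1)
    (l5 : (20 : ℝ) ≤ 20 * ω) (u5 : 20 * ω ≤ 23)
    :
    0 ≤ (400 * θ) - (121 * ((2 * (((1 - ((θ * ((1 + o) - e)) + b)) * b) + ((θ * ((θ * ((1 + o) -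
    e)) + b)) * e))) + (((θ * ((1 + o) - e)) + b) * (1 - ((θ * ((1 + o) - e)) + b))))) := by
  have hbx := kc_b0 [θ, b, o, e, h, ω] rfl
    (by simp only [InBox, List.map_cons, List.map_nil]; push_cast; exact ⟨⟨by norm_num, by
    norm_num⟩, ⟨by linarith, by linarith⟩, ⟨by norm_num, by norm_num⟩, ⟨by linarith, by
    linarith⟩, ⟨by norm_num, by norm_num⟩, ⟨by linarith, by linarith⟩, ⟨by norm_num, by
    norm_num⟩, ⟨by linarith, by linarith⟩, ⟨by norm_num, by norm_num⟩, ⟨by linarith, by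
    linarith⟩, ⟨by norm_num, by norm_num⟩, ⟨by linarith, by linarith⟩, trivial⟩)
    (by simp only [List.forall_mem_cons, List.not_mem_nil, false_imp_iff, implies_true, and_true,
    kc_p0, E.val, List.getD_cons_zero, List.getD_cons_succ, Int.cast_ofNat, Int.cast_one,
    Int.cast_zero])
  simpa only [List.mem_cons, List.not_mem_nil, or_false, exists_eq_or_imp, exists_eq_left, kc_p0,
  E.val, List.getD_cons_zero, List.getD_cons_succ, Int.cast_ofNat, Int.cast_one, Int.cast_zero]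
  using hbx

theorem r1 (θ b o e h ω : ℝ)
    (l0 : (93 : ℝ) ≤ 200 * θ) (u0 : 200 * θ ≤ 100)
    (l1 : (0 : ℝ) ≤ 25 * b) (u1 : 25 * b ≤ 3)
    (l2 : (0 : ℝ) ≤ 25 * o) (u2 : 25 * o ≤ 6)
    (l3 : (0 : ℝ) ≤ 100 * e) (u3 : 100 * e ≤ 3)
    (l4 : (0 : ℝ) ≤ 2 * h) (u4 : 2 * h ≤ 1)
    (l5 : (20 : ℝ) ≤ 20 * ω) (u5 : 20 * ω ≤ 23)
    :
    0 ≤ 7 - (5 * ((5 * (((7 - (4 * ((θ * ((1 + o) - e)) + b))) - (6 * θ)) * b)) + (6 * e))) := by
  have hbx := r1_b0 [θ, b, o, e, h, ω] rfl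
    (by simp only [InBox, List.map_cons, List.map_nil]; push_cast; exact ⟨⟨by norm_num, by
    norm_num⟩, ⟨by linarith, by linarith⟩, ⟨by norm_num, by norm_num⟩, ⟨by linarith, by
    linarith⟩, ⟨by norm_num, by norm_num⟩, ⟨by linarith, by linarith⟩, ⟨by norm_num, by
    norm_num⟩, ⟨by linarith, by linarith⟩, ⟨by norm_num, by norm_num⟩, ⟨by linarith, by
    linarith⟩, ⟨by norm_num, by norm_num⟩, ⟨by linarith, by linarith⟩, trivial⟩)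
    (by simp only [List.forall_mem_cons, List.not_mem_nil, false_imp_iff, implies_true, and_true,
    r1_p0, E.val, List.getD_cons_zero, List.getD_cons_succ, Int.cast_ofNat, Int.cast_one,
    Int.cast_zero])
  simpa only [List.mem_cons, List.not_mem_nil, or_false, exists_eq_or_imp, exists_eq_left, r1_p0,
  E.val, List.getD_cons_zero, List.getD_cons_succ, Int.cast_ofNat, Int.cast_one, Int.cast_zero]
  using hbx

theorem r2 (θ b o e h ω : ℝ)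
    (l0 : (93 : ℝ) ≤ 200 * θ) (u0 : 200 * θ ≤ 100)
    (l1 : (0 : ℝ) ≤ 25 * b) (u1 : 25 * b ≤ 3)
    (l2 : (0 : ℝ) ≤ 25 * o) (u2 : 25 * o ≤ 6)
    (l3 : (0 : ℝ) ≤ 100 * e) (u3 : 100 * e ≤ 3)
    (l4 : (0 : ℝ) ≤ 2 * h) (u4 : 2 * h ≤ 1)
    (l5 : (20 : ℝ) ≤ 20 * ω) (u5 : 20 * ω ≤ 23)
    :
    0 ≤ 7 - (10 * ((5 * (((3 - (2 * ((θ * ((1 + o) - e)) + b))) - (2 * θ)) * b)) + (3 * e))) := by
  have hbx := r2_b0 [θ, b, o, e, h, ω] rfl
    (by simp only [InBox, List.map_cons, List.map_nil]; push_cast; exact ⟨⟨by norm_num, by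
    norm_num⟩, ⟨by linarith, by linarith⟩, ⟨by norm_num, by norm_num⟩, ⟨by linarith, by
    linarith⟩, ⟨by norm_num, by norm_num⟩, ⟨by linarith, by linarith⟩, ⟨by norm_num, by
    norm_num⟩, ⟨by linarith, by linarith⟩, ⟨by norm_num, by norm_num⟩, ⟨by linarith, by
    linarith⟩, ⟨by norm_num, by norm_num⟩, ⟨by linarith, by linarith⟩, trivial⟩)
    (by simp only [List.forall_mem_cons, List.not_mem_nil, false_imp_iff, implies_true, and_true,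
    r2_p0, E.val, List.getD_cons_zero, List.getD_cons_succ, Int.cast_ofNat, Int.cast_one,
    Int.cast_zero])
  simpa only [List.mem_cons, List.not_mem_nil, or_false, exists_eq_or_imp, exists_eq_left, r2_p0,
  E.val, List.getD_cons_zero, List.getD_cons_succ, Int.cast_ofNat, Int.cast_one, Int.cast_zero]
  using hbx

theorem mL (θ b o e h ω : ℝ)
    (l0 : (93 : ℝ) ≤ 200 * θ) (u0 : 200 * θ ≤ 100)
    (l1 : (0 : ℝ) ≤ 100 * b) (u1 : 100 * b ≤ 11)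
    (l2 : (0 : ℝ) ≤ 25 * o) (u2 : 25 * o ≤ 6)
    (l3 : (0 : ℝ) ≤ 100 * e) (u3 : 100 * e ≤ 3)
    (l4 : (0 : ℝ) ≤ 25 * h) (u4 : 25 * h ≤ 7)
    (l5 : (20 : ℝ) ≤ 20 * ω) (u5 : 20 * ω ≤ 23)
    :
    0 ≤ (20 * θ) - (h * (((((132 * θ) + (90 * b)) - (45 * h)) - (32 * o)) - 39)) := by
  have hbx := mL_b0 [θ, b, o, e, h, ω] rfl
    (by simp only [InBox, List.map_cons, List.map_nil]; push_cast; exact ⟨⟨by norm_num, by
    norm_num⟩, ⟨by linarith, by linarith⟩, ⟨by norm_num, by norm_num⟩, ⟨by linarith, by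
    linarith⟩, ⟨by norm_num, by norm_num⟩, ⟨by linarith, by linarith⟩, ⟨by norm_num, by
    norm_num⟩, ⟨by linarith, by linarith⟩, ⟨by norm_num, by norm_num⟩, ⟨by linarith, by
    linarith⟩, ⟨by norm_num, by norm_num⟩, ⟨by linarith, by linarith⟩, trivial⟩)
    (by simp only [List.forall_mem_cons, List.not_mem_nil, false_imp_iff, implies_true, and_true,
    mL_p0, E.val, List.getD_cons_zero, List.getD_cons_succ, Int.cast_ofNat, Int.cast_one,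
    Int.cast_zero])
  simpa only [List.mem_cons, List.not_mem_nil, or_false, exists_eq_or_imp, exists_eq_left, mL_p0,
  E.val, List.getD_cons_zero, List.getD_cons_succ, Int.cast_ofNat, Int.cast_one, Int.cast_zero]
  using hbx

theorem mA (θ b o e h ω : ℝ)
    (l0 : (93 : ℝ) ≤ 200 * θ) (u0 : 200 * θ ≤ 100)
    (l1 : (0 : ℝ) ≤ 25 * b) (u1 : 25 * b ≤ 3)
    (l2 : (0 : ℝ) ≤ 25 * o) (u2 : 25 * o ≤ 6)
    (l3 : (0 : ℝ) ≤ 100 * e) (u3 : 100 * e ≤ 3)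
    (l4 : (0 : ℝ) ≤ 100 * h) (u4 : 100 * h ≤ 37)
    (l5 : (20 : ℝ) ≤ 20 * ω) (u5 : 20 * ω ≤ 23)
    :
    0 ≤ (20 * θ) - (h * ((2 * θ) - h)) := by
  have hbx := mA_b0 [θ, b, o, e, h, ω] rfl
    (by simp only [InBox, List.map_cons, List.map_nil]; push_cast; exact ⟨⟨by norm_num, by
    norm_num⟩, ⟨by linarith, by linarith⟩, ⟨by norm_num, by norm_num⟩, ⟨by linarith, by
    linarith⟩, ⟨by norm_num, by norm_num⟩, ⟨by linarith, by linarith⟩, ⟨by norm_num, by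
    norm_num⟩, ⟨by linarith, by linarith⟩, ⟨by norm_num, by norm_num⟩, ⟨by linarith, by
    linarith⟩, ⟨by norm_num, by norm_num⟩, ⟨by linarith, by linarith⟩, trivial⟩)
    (by simp only [List.forall_mem_cons, List.not_mem_nil, false_imp_iff, implies_true, and_true,
    mA_p0, E.val, List.getD_cons_zero, List.getD_cons_succ, Int.cast_ofNat, Int.cast_one,
    Int.cast_zero])
  simpa only [List.mem_cons, List.not_mem_nil, or_false, exists_eq_or_imp, exists_eq_left, mA_p0,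
  E.val, List.getD_cons_zero, List.getD_cons_succ, Int.cast_ofNat, Int.cast_one, Int.cast_zero]
  using hbx

theorem mI (θ b o e h ω : ℝ)
    (l0 : (93 : ℝ) ≤ 200 * θ) (u0 : 200 * θ ≤ 100)
    (l1 : (0 : ℝ) ≤ 25 * b) (u1 : 25 * b ≤ 3)
    (l2 : (0 : ℝ) ≤ 25 * o) (u2 : 25 * o ≤ 6)
    (l3 : (0 : ℝ) ≤ 100 * e) (u3 : 100 * e ≤ 3)
    (l4 : (0 : ℝ) ≤ 10 * h) (u4 : 10 * h ≤ 3)
    (l5 : (20 : ℝ) ≤ 20 * ω) (u5 : 20 * ω ≤ 23)
    :
    0 ≤ (10 * θ) - (h * (((((120 * θ) - (7 * h)) - (28 * b)) - (9 * o)) - 47)) := by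
  have hbx := mI_b0 [θ, b, o, e, h, ω] rfl
    (by simp only [InBox, List.map_cons, List.map_nil]; push_cast; exact ⟨⟨by norm_num, by
    norm_num⟩, ⟨by linarith, by linarith⟩, ⟨by norm_num, by norm_num⟩, ⟨by linarith, by
    linarith⟩, ⟨by norm_num, by norm_num⟩, ⟨by linarith, by linarith⟩, ⟨by norm_num, by
    norm_num⟩, ⟨by linarith, by linarith⟩, ⟨by norm_num, by norm_num⟩, ⟨by linarith, by
    linarith⟩, ⟨by norm_num, by norm_num⟩, ⟨by linarith, by linarith⟩, trivial⟩)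
    (by simp only [List.forall_mem_cons, List.not_mem_nil, false_imp_iff, implies_true, and_true,
    mI_p0, E.val, List.getD_cons_zero, List.getD_cons_succ, Int.cast_ofNat, Int.cast_one,
    Int.cast_zero])
  simpa only [List.mem_cons, List.not_mem_nil, or_false, exists_eq_or_imp, exists_eq_left, mI_p0,
  E.val, List.getD_cons_zero, List.getD_cons_succ, Int.cast_ofNat, Int.cast_one, Int.cast_zero]
  using hbx

theorem mB (θ b o e h ω : ℝ)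
    (l0 : (93 : ℝ) ≤ 200 * θ) (u0 : 200 * θ ≤ 100)
    (l1 : (0 : ℝ) ≤ 25 * b) (u1 : 25 * b ≤ 3)
    (l2 : (0 : ℝ) ≤ 25 * o) (u2 : 25 * o ≤ 6)
    (l3 : (0 : ℝ) ≤ 100 * e) (u3 : 100 * e ≤ 3)
    (l4 : (0 : ℝ) ≤ 100 * h) (u4 : 100 * h ≤ 31)
    (l5 : (20 : ℝ) ≤ 20 * ω) (u5 : 20 * ω ≤ 23)
    :
    0 ≤ (10 * θ) - (h * (((((20 * θ) + 3) - (12 * h)) - (19 * b)) - (10 * o))) := by
  have hbx := mB_b0 [θ, b, o, e, h, ω] rfl
    (by simp only [InBox, List.map_cons, List.map_nil]; push_cast; exact ⟨⟨by norm_num, by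
    norm_num⟩, ⟨by linarith, by linarith⟩, ⟨by norm_num, by norm_num⟩, ⟨by linarith, by
    linarith⟩, ⟨by norm_num, by norm_num⟩, ⟨by linarith, by linarith⟩, ⟨by norm_num, by
    norm_num⟩, ⟨by linarith, by linarith⟩, ⟨by norm_num, by norm_num⟩, ⟨by linarith, by
    linarith⟩, ⟨by norm_num, by norm_num⟩, ⟨by linarith, by linarith⟩, trivial⟩)
    (by simp only [List.forall_mem_cons, List.not_mem_nil, false_imp_iff, implies_true, and_true,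
    mB_p0, E.val, List.getD_cons_zero, List.getD_cons_succ, Int.cast_ofNat, Int.cast_one,
    Int.cast_zero])
  simpa only [List.mem_cons, List.not_mem_nil, or_false, exists_eq_or_imp, exists_eq_left, mB_p0,
  E.val, List.getD_cons_zero, List.getD_cons_succ, Int.cast_ofNat, Int.cast_one, Int.cast_zero]
  using hbx

theorem mB0 (θ b o e h ω : ℝ)
    (l0 : (93 : ℝ) ≤ 200 * θ) (u0 : 200 * θ ≤ 100)
    (l1 : (0 : ℝ) ≤ 25 * b) (u1 : 25 * b ≤ 3)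
    (l2 : (0 : ℝ) ≤ 25 * o) (u2 : 25 * o ≤ 6)
    (l3 : (0 : ℝ) ≤ 100 * e) (u3 : 100 * e ≤ 3)
    (l4 : (0 : ℝ) ≤ 100 * h) (u4 : 100 * h ≤ 31)
    (l5 : (20 : ℝ) ≤ 20 * ω) (u5 : 20 * ω ≤ 23)
    :
    0 ≤ h * (((((20 * θ) + 3) - (12 * h)) - (19 * b)) - (10 * o)) := by
  have hbx := mB0_b0 [θ, b, o, e, h, ω] rfl
    (by simp only [InBox, List.map_cons, List.map_nil]; push_cast; exact ⟨⟨by norm_num, by
    norm_num⟩, ⟨by linarith, by linarith⟩, ⟨by norm_num, by norm_num⟩, ⟨by linarith, by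
    linarith⟩, ⟨by norm_num, by norm_num⟩, ⟨by linarith, by linarith⟩, ⟨by norm_num, by
    norm_num⟩, ⟨by linarith, by linarith⟩, ⟨by norm_num, by norm_num⟩, ⟨by linarith, by
    linarith⟩, ⟨by norm_num, by norm_num⟩, ⟨by linarith, by linarith⟩, trivial⟩)
    (by simp only [List.forall_mem_cons, List.not_mem_nil, false_imp_iff, implies_true, and_true,
    mB0_p0, E.val, List.getD_cons_zero, List.getD_cons_succ, Int.cast_ofNat, Int.cast_one,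
    Int.cast_zero])
  simpa only [List.mem_cons, List.not_mem_nil, or_false, exists_eq_or_imp, exists_eq_left,
  mB0_p0, E.val, List.getD_cons_zero, List.getD_cons_succ, Int.cast_ofNat, Int.cast_one,
  Int.cast_zero] using hbx

theorem N1 (θ a h r w : ℝ)
    (l0 : (93 : ℝ) ≤ 200 * θ) (u0 : 200 * θ ≤ 100)
    (l1 : (93 : ℝ) ≤ 200 * a) (u1 : 200 * a ≤ 120)
    (l2 : (0 : ℝ) ≤ 10 * h) (u2 : 10 * h ≤ 3)
    (l3 : (0 : ℝ) ≤ 50 * r) (u3 : 50 * r ≤ 7)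
    (l4 : (1 : ℝ) ≤ w) (u4 : w ≤ 2)
    (c0 : 0 ≤ (a * (1 - a)) - (θ * ((w * (a - h)) + ((2 - w) * ((1 - a) * h)))))
    (c1 : 0 ≤ (2 * r) - (((7 - (4 * a)) - (6 * θ)) * ((1 - a) * h)))
    (c2 : 0 ≤ ((((7 - (4 * a)) - (6 * θ)) * ((1000 * (a - θ)) + 15)) + 36) - (2000 * r))
    :
    0 ≤ ((((((3 + (30 * h)) + (20 * a)) + (20 * θ)) - (60 * r)) * w) * ((((1 - θ) * ((w * (a -
    h)) + ((2 - w) * ((1 - a) * h)))) + (r * a)) * (((1 - θ) * ((w * (a - h)) + ((2 - w) * ((1 -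
    a) * h)))) + (r * a)))) - (20 * ((a * ((2 * (θ * (((1 - θ) * ((w * (a - h)) + ((2 - w) * ((1
    - a) * h)))) + (r * a)))) - (r * a))) * (w - ((2 - w) * ((1 - a) - r))))) := by
  have hbx := N1_b0 [θ, a, h, r, w] rfl
    (by simp only [InBox, List.map_cons, List.map_nil]; push_cast; exact ⟨⟨by norm_num, by
    norm_num⟩, ⟨by linarith, by linarith⟩, ⟨by norm_num, by norm_num⟩, ⟨by linarith, by
    linarith⟩, ⟨by norm_num, by norm_num⟩, ⟨by linarith, by linarith⟩, ⟨by norm_num, by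
    norm_num⟩, ⟨by linarith, by linarith⟩, ⟨by norm_num, by norm_num⟩, ⟨by linarith, by
    linarith⟩, trivial⟩)
    (by simp only [List.forall_mem_cons, List.not_mem_nil, false_imp_iff, implies_true, and_true,
    N1_p0, N1_c0, N1_c1, N1_c2, E.val, List.getD_cons_zero, List.getD_cons_succ, Int.cast_ofNat,
    Int.cast_one, Int.cast_zero]; exact ⟨c0, c1, c2⟩)
  simpa only [List.mem_cons, List.not_mem_nil, or_false, exists_eq_or_imp, exists_eq_left, N1_p0,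
  N1_c0, N1_c1, N1_c2, E.val, List.getD_cons_zero, List.getD_cons_succ, Int.cast_ofNat,
  Int.cast_one, Int.cast_zero] using hbx

theorem N2_b0 : G [N2_p0] [N2_c0, N2_c1, N2_c2, N2_c3, N2_c4] 5 [93, 93, 0, 0, 1] [100, 120, 31, 7, 2] [200, 200, 100, 50, 1] :=
  G.split 4 N2_b1 N2_b2

theorem N2 (θ a h r w : ℝ)
    (l0 : (93 : ℝ) ≤ 200 * θ) (u0 : 200 * θ ≤ 100)
    (l1 : (93 : ℝ) ≤ 200 * a) (u1 : 200 * a ≤ 120)
    (l2 : (0 : ℝ) ≤ 100 * h) (u2 : 100 * h ≤ 31)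
    (l3 : (0 : ℝ) ≤ 50 * r) (u3 : 50 * r ≤ 7)
    (l4 : (1 : ℝ) ≤ w) (u4 : w ≤ 2)
    (c0 : 0 ≤ (a * (1 - a)) - (θ * ((w * (a - h)) + ((2 - w) * ((1 - a) * h)))))
    (c1 : 0 ≤ ((14 * θ) - 1) - (10 * a))
    (c2 : 0 ≤ (r * ((10 * θ) + (7 * ((1 - θ) * a)))) - (10 * ((θ * ((3 - (2 * a)) - (2 * θ))) *
    ((1 - a) * h))))
    (c3 : 0 ≤ ((((3 - (2 * a)) - (2 * θ)) * ((1000 * (a - θ)) + 15)) + 18) - (1000 * r))
    (c4 : 0 ≤ (8 * h) - (5 * r))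
    :
    0 ≤ ((((((((28 * h) + (30 * a)) + (30 * θ)) - 1) - (90 * r)) * w) * ((((1 - θ) * ((w * (a -
    h)) + ((2 - w) * ((1 - a) * h)))) + (r * a)) * (((1 - θ) * ((w * (a - h)) + ((2 - w) * ((1 -
    a) * h)))) + (r * a)))) - (20 * ((a * ((2 * (θ * (((1 - θ) * ((w * (a - h)) + ((2 - w) * ((1
    - a) * h)))) + (r * a)))) - (r * a))) * (w - ((2 - w) * ((1 - a) - r)))))) - (22 * (((θ * (2
    - w)) * (1 - a)) * ((((1 - θ) * ((w * (a - h)) + ((2 - w) * ((1 - a) * h)))) + (r * a)) *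
    (((1 - θ) * ((w * (a - h)) + ((2 - w) * ((1 - a) * h)))) + (r * a))))) := by
  have hbx := N2_b0 [θ, a, h, r, w] rfl
    (by simp only [InBox, List.map_cons, List.map_nil]; push_cast; exact ⟨⟨by norm_num, by
    norm_num⟩, ⟨by linarith, by linarith⟩, ⟨by norm_num, by norm_num⟩, ⟨by linarith, by
    linarith⟩, ⟨by norm_num, by norm_num⟩, ⟨by linarith, by linarith⟩, ⟨by norm_num, by
    norm_num⟩, ⟨by linarith, by linarith⟩, ⟨by norm_num, by norm_num⟩, ⟨by linarith, by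
    linarith⟩, trivial⟩)
    (by simp only [List.forall_mem_cons, List.not_mem_nil, false_imp_iff, implies_true, and_true,
    N2_p0, N2_c0, N2_c1, N2_c2, N2_c3, N2_c4, E.val, List.getD_cons_zero, List.getD_cons_succ,
    Int.cast_ofNat, Int.cast_one, Int.cast_zero]; exact ⟨c0, c1, c2, c3, c4⟩)
  simpa only [List.mem_cons, List.not_mem_nil, or_false, exists_eq_or_imp, exists_eq_left, N2_p0,
  N2_c0, N2_c1, N2_c2, N2_c3, N2_c4, E.val, List.getD_cons_zero, List.getD_cons_succ,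
  Int.cast_ofNat, Int.cast_one, Int.cast_zero] using hbx

theorem NQ (θ a h r w : ℝ)
    (l0 : (93 : ℝ) ≤ 200 * θ) (u0 : 200 * θ ≤ 100)
    (l1 : (93 : ℝ) ≤ 200 * a) (u1 : 200 * a ≤ 120)
    (l2 : (0 : ℝ) ≤ 100 * h) (u2 : 100 * h ≤ 31)
    (l3 : (0 : ℝ) ≤ 50 * r) (u3 : 50 * r ≤ 7)
    (l4 : (1 : ℝ) ≤ w) (u4 : w ≤ 2)
    :
    0 ≤ (θ * (((1 - θ) * ((w * (a - h)) + ((2 - w) * ((1 - a) * h)))) + (r * a))) - (r * a) := by
  have hbx := NQ_b0 [θ, a, h, r, w] rfl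
    (by simp only [InBox, List.map_cons, List.map_nil]; push_cast; exact ⟨⟨by norm_num, by
    norm_num⟩, ⟨by linarith, by linarith⟩, ⟨by norm_num, by norm_num⟩, ⟨by linarith, by
    linarith⟩, ⟨by norm_num, by norm_num⟩, ⟨by linarith, by linarith⟩, ⟨by norm_num, by
    norm_num⟩, ⟨by linarith, by linarith⟩, ⟨by norm_num, by norm_num⟩, ⟨by linarith, by
    linarith⟩, trivial⟩)
    (by simp only [List.forall_mem_cons, List.not_mem_nil, false_imp_iff, implies_true, and_true,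
    NQ_p0, E.val, List.getD_cons_zero, List.getD_cons_succ, Int.cast_ofNat, Int.cast_one,
    Int.cast_zero])
  simpa only [List.mem_cons, List.not_mem_nil, or_false, exists_eq_or_imp, exists_eq_left, NQ_p0,
  E.val, List.getD_cons_zero, List.getD_cons_succ, Int.cast_ofNat, Int.cast_one, Int.cast_zero]
  using hbx

theorem HS (θ b z s : ℝ)
    (l0 : (93 : ℝ) ≤ 200 * θ) (u0 : 200 * θ ≤ 100)
    (l1 : (0 : ℝ) ≤ 25 * b) (u1 : 25 * b ≤ 3)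
    (l2 : (97 : ℝ) ≤ 100 * z) (u2 : 100 * z ≤ 125)
    (l3 : (0 : ℝ) ≤ 25 * s) (u3 : 25 * s ≤ 16)
    :
    0 ≤ ((400 - (253 * θ)) * ((1 - (b * s)) + ((s * (1 - θ)) * z))) - (10 * ((1 - (b * s)) * (20
    + (23 * (s * ((2 * θ) - (b * s))))))) := by
  have hbx := HS_b0 [θ, b, z, s] rfl
    (by simp only [InBox, List.map_cons, List.map_nil]; push_cast; exact ⟨⟨by norm_num, by
    norm_num⟩, ⟨by linarith, by linarith⟩, ⟨by norm_num, by norm_num⟩, ⟨by linarith, by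
    linarith⟩, ⟨by norm_num, by norm_num⟩, ⟨by linarith, by linarith⟩, ⟨by norm_num, by
    norm_num⟩, ⟨by linarith, by linarith⟩, trivial⟩)
    (by simp only [List.forall_mem_cons, List.not_mem_nil, false_imp_iff, implies_true, and_true,
    HS_p0, E.val, List.getD_cons_zero, List.getD_cons_succ, Int.cast_ofNat, Int.cast_one,
    Int.cast_zero])
  simpa only [List.mem_cons, List.not_mem_nil, or_false, exists_eq_or_imp, exists_eq_left, HS_p0,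
  E.val, List.getD_cons_zero, List.getD_cons_succ, Int.cast_ofNat, Int.cast_one, Int.cast_zero]
  using hbx

theorem HY (θ b z : ℝ)
    (l0 : (93 : ℝ) ≤ 200 * θ) (u0 : 200 * θ ≤ 100)
    (l1 : (0 : ℝ) ≤ 25 * b) (u1 : 25 * b ≤ 3)
    (l2 : (97 : ℝ) ≤ 100 * z) (u2 : 100 * z ≤ 125)
    :
    0 ≤ (200 * (25 - (16 * b))) - (253 * (θ * ((25 - (16 * b)) + (16 * ((1 - θ) * z))))) := by
  have hbx := HY_b0 [θ, b, z] rfl
    (by simp only [InBox, List.map_cons, List.map_nil]; push_cast; exact ⟨⟨by norm_num, by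
    norm_num⟩, ⟨by linarith, by linarith⟩, ⟨by norm_num, by norm_num⟩, ⟨by linarith, by
    linarith⟩, ⟨by norm_num, by norm_num⟩, ⟨by linarith, by linarith⟩, trivial⟩)
    (by simp only [List.forall_mem_cons, List.not_mem_nil, false_imp_iff, implies_true, and_true,
    HY_p0, E.val, List.getD_cons_zero, List.getD_cons_succ, Int.cast_ofNat, Int.cast_one,
    Int.cast_zero])
  simpa only [List.mem_cons, List.not_mem_nil, or_false, exists_eq_or_imp, exists_eq_left, HY_p0,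
  E.val, List.getD_cons_zero, List.getD_cons_succ, Int.cast_ofNat, Int.cast_one, Int.cast_zero]
  using hbx

theorem NT (θ a x : ℝ)
    (l0 : (93 : ℝ) ≤ 200 * θ) (u0 : 200 * θ ≤ 100)
    (l1 : (5 : ℝ) ≤ 10 * a) (u1 : 10 * a ≤ 6)
    (l2 : (0 : ℝ) ≤ 50 * x) (u2 : 50 * x ≤ 7)
    (c0 : 0 ≤ (a + θ) - 1)
    :
    0 ≤ ((440 * (θ * ((((2 * θ) + (2 * a)) - 1) + x))) - (121 * ((θ * ((2 * x) - ((a + x) * ((1 -
    a) - x)))) + (a * (1 - a))))) - (400 * θ) := by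
  have hbx := NT_b0 [θ, a, x] rfl
    (by simp only [InBox, List.map_cons, List.map_nil]; push_cast; exact ⟨⟨by norm_num, by
    norm_num⟩, ⟨by linarith, by linarith⟩, ⟨by norm_num, by norm_num⟩, ⟨by linarith, by
    linarith⟩, ⟨by norm_num, by norm_num⟩, ⟨by linarith, by linarith⟩, trivial⟩)
    (by simp only [List.forall_mem_cons, List.not_mem_nil, false_imp_iff, implies_true, and_true,
    NT_p0, NT_c0, E.val, List.getD_cons_zero, List.getD_cons_succ, Int.cast_ofNat, Int.cast_one,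
    Int.cast_zero]; exact c0)
  simpa only [List.mem_cons, List.not_mem_nil, or_false, exists_eq_or_imp, exists_eq_left, NT_p0,
  NT_c0, E.val, List.getD_cons_zero, List.getD_cons_succ, Int.cast_ofNat, Int.cast_one,
  Int.cast_zero] using hbx

end Pool.Agent.Lib.MP_43bc59_co.F_SC
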