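import Pool.Agent.Lib.MP_43bc59_co.Bq

set_option autoImplicit false
set_option maxRecDepth 100000

namespace Pool.Agent.Lib.MP_43bc59_co.F_SC

open Bx

def LK1_p0 : E :=
  (.a (.m (.s (.m (.m (.s (.c 20) (.m (.s (.s (.a (.a (.m (.c 40) (.v 0)) (.m (.c 32) (.v 1)))
  (.m (.c 13) (.v 2))) (.m (.c 30) (.v 4))) (.c 10)) (.v 3))) (.s (.m (.c 400) (.m (.v 0) (.v
  0))) (.m (.m (.v 4) (.s (.s (.s (.a (.m (.c 132) (.v 0)) (.m (.c 90) (.v 1))) (.m (.c 45) (.v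
  4))) (.m (.c 32) (.v 2))) (.c 39))) (.m (.v 4) (.s (.s (.s (.a (.m (.c 132) (.v 0)) (.m (.c 90)
  (.v 1))) (.m (.c 45) (.v 4))) (.m (.c 32) (.v 2))) (.c 39)))))) (.a (.c 1) (.m (.v 2) (.v 5))))
  (.m (.c 8000) (.m (.m (.v 0) (.v 0)) (.s (.a (.c 1) (.m (.v 2) (.v 5))) (.m (.s (.c 2) (.a (.c
  1) (.m (.v 2) (.v 5)))) (.v 4)))))) (.m (.s (.s (.a (.c 1) (.v 2)) (.v 3)) (.v 4)) (.s (.s (.a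
  (.c 1) (.v 2)) (.v 3)) (.v 4)))) (.m (.c 8000) (.m (.m (.m (.m (.s (.c 1) (.v 0)) (.s (.c 1)
  (.v 0))) (.v 4)) (.v 4)) (.s (.a (.c 1) (.m (.v 2) (.v 5))) (.m (.s (.c 2) (.a (.c 1) (.m (.v
  2) (.v 5)))) (.v 4))))))

def LK1_c0 : E :=
  (.s (.v 4) (.v 3))

def LK1_c1 : E :=
  (.s (.s (.m (.c 14) (.v 0)) (.c 1)) (.m (.c 10) (.a (.m (.v 0) (.s (.a (.c 1) (.v 2)) (.v 3)))
  (.v 1))))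

def LK1_c2 : E :=
  (.s (.m (.v 0) (.s (.v 4) (.v 1))) (.m (.a (.m (.v 0) (.s (.a (.c 1) (.v 2)) (.v 3))) (.v 1))
  (.s (.a (.m (.v 0) (.s (.a (.c 1) (.v 2)) (.v 3))) (.v 1)) (.s (.c 1) (.v 0)))))

def LK1_c3 : E :=
  (.m (.v 4) (.s (.s (.c 17) (.m (.c 30) (.v 0))) (.m (.c 30) (.v 1))))

def LK3_p0 : E :=
  (.s (.m (.c 20) (.m (.s (.m (.v 0) (.s (.a (.c 1) (.v 2)) (.v 3))) (.v 4)) (.s (.m (.v 0) (.s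
  (.a (.c 1) (.v 2)) (.v 3))) (.v 4)))) (.m (.m (.m (.m (.a (.c 1) (.m (.v 2) (.v 5))) (.s (.s
  (.a (.a (.m (.c 40) (.v 0)) (.m (.c 32) (.v 1))) (.m (.c 13) (.v 2))) (.m (.c 30) (.v 4))) (.c
  10))) (.v 0)) (.v 0)) (.s (.s (.a (.c 1) (.v 2)) (.v 3)) (.v 4))))

def LK3_c0 : E :=
  (.s (.s (.m (.c 14) (.v 0)) (.c 1)) (.m (.c 10) (.a (.m (.v 0) (.s (.a (.c 1) (.v 2)) (.v 3)))
  (.v 1))))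

def LK3_c1 : E :=
  (.s (.s (.c 17) (.m (.c 30) (.v 0))) (.m (.c 30) (.v 1)))

def LK5_p0 : E :=
  (.a (.m (.s (.m (.c 25) (.m (.m (.s (.c 20) (.s (.s (.a (.a (.m (.c 40) (.v 0)) (.m (.c 32) (.v
  1))) (.m (.c 13) (.v 2))) (.m (.c 30) (.v 4))) (.c 10))) (.s (.m (.c 400) (.m (.v 0) (.v 0)))
  (.m (.m (.v 4) (.s (.s (.s (.a (.m (.c 132) (.v 0)) (.m (.c 90) (.v 1))) (.m (.c 45) (.v 4)))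
  (.m (.c 32) (.v 2))) (.c 39))) (.m (.v 4) (.s (.s (.s (.a (.m (.c 132) (.v 0)) (.m (.c 90) (.v
  1))) (.m (.c 45) (.v 4))) (.m (.c 32) (.v 2))) (.c 39)))))) (.a (.c 1) (.m (.v 2) (.v 5)))))
  (.m (.c 8000) (.m (.m (.v 0) (.v 0)) (.s (.m (.c 25) (.a (.c 1) (.m (.v 2) (.v 5)))) (.m (.s
  (.c 2) (.a (.c 1) (.m (.v 2) (.v 5)))) (.s (.m (.c 25) (.s (.s (.m (.c 2) (.a (.m (.v 0) (.s
  (.a (.c 1) (.v 2)) (.v 3))) (.v 1))) (.v 4)) (.s (.c 1) (.v 0)))) (.s (.c 1) (.m (.c 2) (.v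
  0))))))))) (.m (.s (.m (.c 25) (.s (.a (.c 1) (.v 2)) (.v 3))) (.s (.m (.c 25) (.s (.s (.m (.c
  2) (.a (.m (.v 0) (.s (.a (.c 1) (.v 2)) (.v 3))) (.v 1))) (.v 4)) (.s (.c 1) (.v 0)))) (.s (.c
  1) (.m (.c 2) (.v 0))))) (.s (.m (.c 25) (.s (.a (.c 1) (.v 2)) (.v 3))) (.s (.m (.c 25) (.s
  (.s (.m (.c 2) (.a (.m (.v 0) (.s (.a (.c 1) (.v 2)) (.v 3))) (.v 1))) (.v 4)) (.s (.c 1) (.v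
  0)))) (.s (.c 1) (.m (.c 2) (.v 0))))))) (.m (.c 8000) (.m (.m (.m (.m (.s (.c 1) (.v 0)) (.s
  (.c 1) (.v 0))) (.s (.m (.c 25) (.s (.s (.m (.c 2) (.a (.m (.v 0) (.s (.a (.c 1) (.v 2)) (.v
  3))) (.v 1))) (.v 4)) (.s (.c 1) (.v 0)))) (.s (.c 1) (.m (.c 2) (.v 0))))) (.s (.m (.c 25) (.s
  (.s (.m (.c 2) (.a (.m (.v 0) (.s (.a (.c 1) (.v 2)) (.v 3))) (.v 1))) (.v 4)) (.s (.c 1) (.v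
  0)))) (.s (.c 1) (.m (.c 2) (.v 0))))) (.s (.m (.c 25) (.a (.c 1) (.m (.v 2) (.v 5)))) (.m (.s
  (.c 2) (.a (.c 1) (.m (.v 2) (.v 5)))) (.s (.m (.c 25) (.s (.s (.m (.c 2) (.a (.m (.v 0) (.s
  (.a (.c 1) (.v 2)) (.v 3))) (.v 1))) (.v 4)) (.s (.c 1) (.v 0)))) (.s (.c 1) (.m (.c 2) (.v
  0)))))))))

def LK5_p1 : E :=
  (.m (.c 15625) (.a (.m (.s (.m (.c 1) (.m (.m (.s (.c 20) (.s (.s (.a (.a (.m (.c 40) (.v 0))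
  (.m (.c 32) (.v 1))) (.m (.c 13) (.v 2))) (.m (.c 30) (.v 4))) (.c 10))) (.s (.m (.c 400) (.m
  (.v 0) (.v 0))) (.m (.m (.v 4) (.s (.s (.s (.a (.m (.c 132) (.v 0)) (.m (.c 90) (.v 1))) (.m
  (.c 45) (.v 4))) (.m (.c 32) (.v 2))) (.c 39))) (.m (.v 4) (.s (.s (.s (.a (.m (.c 132) (.v 0))
  (.m (.c 90) (.v 1))) (.m (.c 45) (.v 4))) (.m (.c 32) (.v 2))) (.c 39)))))) (.a (.c 1) (.m (.v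
  2) (.v 5))))) (.m (.c 8000) (.m (.m (.v 0) (.v 0)) (.s (.a (.c 1) (.m (.v 2) (.v 5))) (.m (.s
  (.c 2) (.a (.c 1) (.m (.v 2) (.v 5)))) (.v 4)))))) (.m (.s (.s (.a (.c 1) (.v 2)) (.v 3)) (.v
  4)) (.s (.s (.a (.c 1) (.v 2)) (.v 3)) (.v 4)))) (.m (.c 8000) (.m (.m (.m (.m (.s (.c 1) (.v
  0)) (.s (.c 1) (.v 0))) (.v 4)) (.v 4)) (.s (.a (.c 1) (.m (.v 2) (.v 5))) (.m (.s (.c 2) (.a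
  (.c 1) (.m (.v 2) (.v 5)))) (.v 4)))))))

def HK1_p0 : E :=
  (.a (.m (.s (.m (.s (.m (.c 2500) (.m (.v 0) (.v 0))) (.m (.s (.s (.a (.a (.m (.c 42) (.v 0))
  (.m (.c 31) (.v 4))) (.m (.c 6) (.v 1))) (.m (.c 31) (.v 2))) (.c 15)) (.s (.s (.a (.a (.m (.c
  42) (.v 0)) (.m (.c 31) (.v 4))) (.m (.c 6) (.v 1))) (.m (.c 31) (.v 2))) (.c 15)))) (.a (.c 1)
  (.m (.v 2) (.v 5)))) (.m (.c 2500) (.m (.m (.v 0) (.v 0)) (.s (.a (.c 1) (.m (.v 2) (.v 5)))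
  (.m (.s (.c 2) (.a (.c 1) (.m (.v 2) (.v 5)))) (.v 4)))))) (.m (.s (.s (.a (.c 1) (.v 2)) (.v
  3)) (.v 4)) (.s (.s (.a (.c 1) (.v 2)) (.v 3)) (.v 4)))) (.m (.c 2500) (.m (.m (.m (.m (.s (.c
  1) (.v 0)) (.s (.c 1) (.v 0))) (.v 4)) (.v 4)) (.s (.a (.c 1) (.m (.v 2) (.v 5))) (.m (.s (.c
  2) (.a (.c 1) (.m (.v 2) (.v 5)))) (.v 4))))))

def L2_p0 : E :=
  (.a (.m (.c 72000) (.m (.v 0) (.m (.m (.v 2) (.s (.c 1) (.v 0))) (.m (.s (.c 1) (.a (.m (.v 0)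
  (.s (.a (.c 1) (.v 2)) (.v 3))) (.v 1))) (.v 4))))) (.m (.v 3) (.s (.m (.v 0) (.a (.a (.m (.c
  72000) (.s (.a (.a (.m (.s (.c 1) (.a (.m (.v 0) (.s (.a (.c 1) (.v 2)) (.v 3))) (.v 1))) (.v
  1)) (.m (.a (.m (.v 0) (.s (.a (.c 1) (.v 2)) (.v 3))) (.v 1)) (.s (.c 1) (.a (.m (.v 0) (.s
  (.a (.c 1) (.v 2)) (.v 3))) (.v 1))))) (.m (.m (.v 0) (.v 0)) (.s (.s (.a (.c 1) (.v 2)) (.v
  3)) (.v 4)))) (.m (.c 2) (.m (.m (.v 0) (.s (.c 1) (.v 0))) (.v 4))))) (.m (.c 32000) (.m (.m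
  (.m (.m (.s (.c 1) (.v 0)) (.s (.c 1) (.v 0))) (.v 4)) (.v 4)) (.s (.c 6) (.m (.c 4) (.s (.s
  (.a (.c 1) (.v 2)) (.v 3)) (.v 4))))))) (.m (.c 9) (.m (.a (.c 1) (.m (.v 2) (.v 5))) (.s (.m
  (.c 8000) (.s (.s (.s (.c 1) (.v 3)) (.a (.m (.v 0) (.s (.a (.c 1) (.v 2)) (.v 3))) (.v 1)))
  (.m (.a (.m (.v 0) (.s (.a (.c 1) (.v 2)) (.v 3))) (.v 1)) (.s (.c 1) (.a (.m (.v 0) (.s (.a
  (.c 1) (.v 2)) (.v 3))) (.v 1)))))) (.m (.s (.m (.c 20) (.s (.s (.m (.c 400) (.m (.v 0) (.s (.c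
  2) (.v 0)))) (.m (.c 40) (.m (.s (.c 1) (.v 0)) (.m (.v 4) (.s (.s (.s (.a (.m (.c 132) (.v 0))
  (.m (.c 90) (.v 1))) (.m (.c 45) (.v 4))) (.m (.c 32) (.v 2))) (.c 39)))))) (.m (.m (.v 4) (.s
  (.s (.s (.a (.m (.c 132) (.v 0)) (.m (.c 90) (.v 1))) (.m (.c 45) (.v 4))) (.m (.c 32) (.v 2)))
  (.c 39))) (.m (.v 4) (.s (.s (.s (.a (.m (.c 132) (.v 0)) (.m (.c 90) (.v 1))) (.m (.c 45) (.v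
  4))) (.m (.c 32) (.v 2))) (.c 39)))))) (.m (.s (.s (.a (.a (.m (.c 40) (.v 0)) (.m (.c 32) (.v
  1))) (.m (.c 13) (.v 2))) (.m (.c 30) (.v 4))) (.c 10)) (.s (.m (.c 400) (.m (.v 0) (.v 0)))
  (.m (.m (.v 4) (.s (.s (.s (.a (.m (.c 132) (.v 0)) (.m (.c 90) (.v 1))) (.m (.c 45) (.v 4)))
  (.m (.c 32) (.v 2))) (.c 39))) (.m (.v 4) (.s (.s (.s (.a (.m (.c 132) (.v 0)) (.m (.c 90) (.v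
  1))) (.m (.c 45) (.v 4))) (.m (.c 32) (.v 2))) (.c 39))))))) (.s (.c 1) (.v 3)))))))) (.m (.c
  72000) (.a (.m (.c 2) (.m (.m (.s (.c 1) (.a (.m (.v 0) (.s (.a (.c 1) (.v 2)) (.v 3))) (.v
  1))) (.a (.m (.v 0) (.s (.a (.c 1) (.v 2)) (.v 3))) (.v 1))) (.v 1))) (.m (.m (.m (.v 0) (.a
  (.m (.v 0) (.s (.a (.c 1) (.v 2)) (.v 3))) (.v 1))) (.a (.m (.v 0) (.s (.a (.c 1) (.v 2)) (.v
  3))) (.v 1))) (.v 3)))))))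

def L2_c0 : E :=
  (.m (.v 3) (.s (.s (.c 1) (.v 0)) (.a (.m (.v 0) (.s (.a (.c 1) (.v 2)) (.v 3))) (.v 1))))

def H2_p0 : E :=
  (.a (.m (.c 62500) (.m (.v 0) (.m (.m (.v 2) (.s (.c 1) (.v 0))) (.m (.s (.c 1) (.a (.m (.v 0)
  (.s (.a (.c 1) (.v 2)) (.v 3))) (.v 1))) (.v 4))))) (.m (.v 3) (.s (.m (.v 0) (.a (.a (.m (.c
  62500) (.s (.a (.a (.m (.s (.c 1) (.a (.m (.v 0) (.s (.a (.c 1) (.v 2)) (.v 3))) (.v 1))) (.v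
  1)) (.m (.a (.m (.v 0) (.s (.a (.c 1) (.v 2)) (.v 3))) (.v 1)) (.s (.c 1) (.a (.m (.v 0) (.s
  (.a (.c 1) (.v 2)) (.v 3))) (.v 1))))) (.m (.m (.v 0) (.v 0)) (.s (.s (.a (.c 1) (.v 2)) (.v
  3)) (.v 4)))) (.m (.c 2) (.m (.m (.v 0) (.s (.c 1) (.v 0))) (.v 4))))) (.m (.c 20000) (.m (.m
  (.m (.m (.s (.c 1) (.v 0)) (.s (.c 1) (.v 0))) (.v 4)) (.v 4)) (.s (.c 10) (.m (.c 8) (.s (.s
  (.a (.c 1) (.v 2)) (.v 3)) (.v 4))))))) (.m (.c 25) (.m (.a (.c 1) (.m (.v 2) (.v 5))) (.s (.m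
  (.c 2500) (.s (.s (.s (.c 1) (.v 3)) (.a (.m (.v 0) (.s (.a (.c 1) (.v 2)) (.v 3))) (.v 1)))
  (.m (.a (.m (.v 0) (.s (.a (.c 1) (.v 2)) (.v 3))) (.v 1)) (.s (.c 1) (.a (.m (.v 0) (.s (.a
  (.c 1) (.v 2)) (.v 3))) (.v 1)))))) (.m (.s (.s (.m (.c 2500) (.m (.v 0) (.s (.c 2) (.v 0))))
  (.m (.c 100) (.m (.s (.c 1) (.v 0)) (.s (.s (.a (.a (.m (.c 42) (.v 0)) (.m (.c 31) (.v 4)))
  (.m (.c 6) (.v 1))) (.m (.c 31) (.v 2))) (.c 15))))) (.m (.s (.s (.a (.a (.m (.c 42) (.v 0))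
  (.m (.c 31) (.v 4))) (.m (.c 6) (.v 1))) (.m (.c 31) (.v 2))) (.c 15)) (.s (.s (.a (.a (.m (.c
  42) (.v 0)) (.m (.c 31) (.v 4))) (.m (.c 6) (.v 1))) (.m (.c 31) (.v 2))) (.c 15)))) (.s (.c 1)
  (.v 3)))))))) (.m (.c 62500) (.a (.m (.c 2) (.m (.m (.s (.c 1) (.a (.m (.v 0) (.s (.a (.c 1)
  (.v 2)) (.v 3))) (.v 1))) (.a (.m (.v 0) (.s (.a (.c 1) (.v 2)) (.v 3))) (.v 1))) (.v 1))) (.m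
  (.m (.m (.v 0) (.a (.m (.v 0) (.s (.a (.c 1) (.v 2)) (.v 3))) (.v 1))) (.a (.m (.v 0) (.s (.a
  (.c 1) (.v 2)) (.v 3))) (.v 1))) (.v 3)))))))

def H2_c0 : E :=
  (.m (.v 1) (.s (.s (.c 1) (.v 0)) (.a (.m (.v 0) (.s (.a (.c 1) (.v 2)) (.v 3))) (.v 1))))

def L3_p0 : E :=
  (.a (.m (.v 0) (.a (.m (.c 72000) (.s (.m (.v 0) (.m (.m (.v 2) (.s (.c 1) (.v 0))) (.m (.s (.c
  1) (.a (.m (.v 0) (.s (.a (.c 1) (.v 2)) (.v 3))) (.v 1))) (.v 4)))) (.m (.m (.s (.c 1) (.a (.m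
  (.v 0) (.s (.a (.c 1) (.v 2)) (.v 3))) (.v 1))) (.v 1)) (.a (.v 1) (.s (.a (.m (.v 0) (.s (.a
  (.c 1) (.v 2)) (.v 3))) (.v 1)) (.s (.c 1) (.v 0))))))) (.m (.v 0) (.m (.v 3) (.a (.a (.m (.c
  72000) (.s (.a (.a (.m (.s (.c 1) (.a (.m (.v 0) (.s (.a (.c 1) (.v 2)) (.v 3))) (.v 1))) (.v
  1)) (.m (.a (.m (.v 0) (.s (.a (.c 1) (.v 2)) (.v 3))) (.v 1)) (.s (.c 1) (.a (.m (.v 0) (.s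
  (.a (.c 1) (.v 2)) (.v 3))) (.v 1))))) (.m (.m (.v 0) (.v 0)) (.s (.s (.a (.c 1) (.v 2)) (.v
  3)) (.v 4)))) (.m (.c 2) (.m (.m (.v 0) (.s (.c 1) (.v 0))) (.v 4))))) (.m (.c 32000) (.m (.m
  (.m (.m (.s (.c 1) (.v 0)) (.s (.c 1) (.v 0))) (.v 4)) (.v 4)) (.s (.c 6) (.m (.c 4) (.s (.s
  (.a (.c 1) (.v 2)) (.v 3)) (.v 4))))))) (.m (.c 9) (.m (.a (.c 1) (.m (.v 2) (.v 5))) (.s (.m
  (.c 8000) (.s (.s (.s (.c 1) (.v 3)) (.a (.m (.v 0) (.s (.a (.c 1) (.v 2)) (.v 3))) (.v 1)))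
  (.m (.a (.m (.v 0) (.s (.a (.c 1) (.v 2)) (.v 3))) (.v 1)) (.s (.c 1) (.a (.m (.v 0) (.s (.a
  (.c 1) (.v 2)) (.v 3))) (.v 1)))))) (.m (.s (.m (.c 20) (.s (.s (.m (.c 400) (.m (.v 0) (.s (.c
  2) (.v 0)))) (.m (.c 40) (.m (.s (.c 1) (.v 0)) (.m (.v 4) (.s (.s (.s (.a (.m (.c 132) (.v 0))
  (.m (.c 90) (.v 1))) (.m (.c 45) (.v 4))) (.m (.c 32) (.v 2))) (.c 39)))))) (.m (.m (.v 4) (.s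
  (.s (.s (.a (.m (.c 132) (.v 0)) (.m (.c 90) (.v 1))) (.m (.c 45) (.v 4))) (.m (.c 32) (.v 2)))
  (.c 39))) (.m (.v 4) (.s (.s (.s (.a (.m (.c 132) (.v 0)) (.m (.c 90) (.v 1))) (.m (.c 45) (.v
  4))) (.m (.c 32) (.v 2))) (.c 39)))))) (.m (.s (.s (.a (.a (.m (.c 40) (.v 0)) (.m (.c 32) (.v
  1))) (.m (.c 13) (.v 2))) (.m (.c 30) (.v 4))) (.c 10)) (.s (.m (.c 400) (.m (.v 0) (.v 0)))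
  (.m (.m (.v 4) (.s (.s (.s (.a (.m (.c 132) (.v 0)) (.m (.c 90) (.v 1))) (.m (.c 45) (.v 4)))
  (.m (.c 32) (.v 2))) (.c 39))) (.m (.v 4) (.s (.s (.s (.a (.m (.c 132) (.v 0)) (.m (.c 90) (.v
  1))) (.m (.c 45) (.v 4))) (.m (.c 32) (.v 2))) (.c 39))))))) (.s (.c 1) (.v 3))))))))))) (.m
  (.c 72000) (.s (.m (.m (.v 0) (.v 0)) (.m (.c 2) (.m (.v 1) (.v 1)))) (.m (.a (.m (.s (.c 1)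
  (.a (.m (.v 0) (.s (.a (.c 1) (.v 2)) (.v 3))) (.v 1))) (.v 1)) (.m (.m (.v 0) (.a (.m (.v 0)
  (.s (.a (.c 1) (.v 2)) (.v 3))) (.v 1))) (.v 3))) (.a (.m (.s (.c 1) (.a (.m (.v 0) (.s (.a (.c
  1) (.v 2)) (.v 3))) (.v 1))) (.v 1)) (.m (.m (.v 0) (.a (.m (.v 0) (.s (.a (.c 1) (.v 2)) (.v
  3))) (.v 1))) (.v 3)))))))

def L3_c0 : E :=
  (.s (.m (.c 20) (.a (.m (.s (.c 1) (.a (.m (.v 0) (.s (.a (.c 1) (.v 2)) (.v 3))) (.v 1))) (.v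
  1)) (.m (.m (.v 0) (.a (.m (.v 0) (.s (.a (.c 1) (.v 2)) (.v 3))) (.v 1))) (.v 3)))) (.m (.c
  23) (.m (.v 0) (.v 1))))

def L3_c1 : E :=
  (.m (.v 1) (.s (.a (.m (.v 0) (.v 4)) (.s (.c 1) (.v 0))) (.a (.m (.v 0) (.s (.a (.c 1) (.v 2))
  (.v 3))) (.v 1))))

def L3_c2 : E :=
  (.m (.v 3) (.s (.m (.v 0) (.s (.v 4) (.v 1))) (.m (.a (.m (.v 0) (.s (.a (.c 1) (.v 2)) (.v
  3))) (.v 1)) (.s (.a (.m (.v 0) (.s (.a (.c 1) (.v 2)) (.v 3))) (.v 1)) (.s (.c 1) (.v 0))))))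

def L3_c3 : E :=
  (.m (.v 2) (.s (.v 4) (.v 3)))

def H3_p0 : E :=
  (.a (.m (.v 0) (.a (.m (.c 62500) (.s (.m (.v 0) (.m (.m (.v 2) (.s (.c 1) (.v 0))) (.m (.s (.c
  1) (.a (.m (.v 0) (.s (.a (.c 1) (.v 2)) (.v 3))) (.v 1))) (.v 4)))) (.m (.m (.s (.c 1) (.a (.m
  (.v 0) (.s (.a (.c 1) (.v 2)) (.v 3))) (.v 1))) (.v 1)) (.a (.v 1) (.s (.a (.m (.v 0) (.s (.a
  (.c 1) (.v 2)) (.v 3))) (.v 1)) (.s (.c 1) (.v 0))))))) (.m (.v 0) (.m (.v 3) (.a (.a (.m (.c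
  62500) (.s (.a (.a (.m (.s (.c 1) (.a (.m (.v 0) (.s (.a (.c 1) (.v 2)) (.v 3))) (.v 1))) (.v
  1)) (.m (.a (.m (.v 0) (.s (.a (.c 1) (.v 2)) (.v 3))) (.v 1)) (.s (.c 1) (.a (.m (.v 0) (.s
  (.a (.c 1) (.v 2)) (.v 3))) (.v 1))))) (.m (.m (.v 0) (.v 0)) (.s (.s (.a (.c 1) (.v 2)) (.v
  3)) (.v 4)))) (.m (.c 2) (.m (.m (.v 0) (.s (.c 1) (.v 0))) (.v 4))))) (.m (.c 20000) (.m (.m
  (.m (.m (.s (.c 1) (.v 0)) (.s (.c 1) (.v 0))) (.v 4)) (.v 4)) (.s (.c 10) (.m (.c 8) (.s (.s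
  (.a (.c 1) (.v 2)) (.v 3)) (.v 4))))))) (.m (.c 25) (.m (.a (.c 1) (.m (.v 2) (.v 5))) (.s (.m
  (.c 2500) (.s (.s (.s (.c 1) (.v 3)) (.a (.m (.v 0) (.s (.a (.c 1) (.v 2)) (.v 3))) (.v 1)))
  (.m (.a (.m (.v 0) (.s (.a (.c 1) (.v 2)) (.v 3))) (.v 1)) (.s (.c 1) (.a (.m (.v 0) (.s (.a
  (.c 1) (.v 2)) (.v 3))) (.v 1)))))) (.m (.s (.s (.m (.c 2500) (.m (.v 0) (.s (.c 2) (.v 0))))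
  (.m (.c 100) (.m (.s (.c 1) (.v 0)) (.s (.s (.a (.a (.m (.c 42) (.v 0)) (.m (.c 31) (.v 4)))
  (.m (.c 6) (.v 1))) (.m (.c 31) (.v 2))) (.c 15))))) (.m (.s (.s (.a (.a (.m (.c 42) (.v 0))
  (.m (.c 31) (.v 4))) (.m (.c 6) (.v 1))) (.m (.c 31) (.v 2))) (.c 15)) (.s (.s (.a (.a (.m (.c
  42) (.v 0)) (.m (.c 31) (.v 4))) (.m (.c 6) (.v 1))) (.m (.c 31) (.v 2))) (.c 15)))) (.s (.c 1)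
  (.v 3))))))))))) (.m (.c 62500) (.s (.m (.m (.v 0) (.v 0)) (.m (.c 2) (.m (.v 1) (.v 1)))) (.m
  (.a (.m (.s (.c 1) (.a (.m (.v 0) (.s (.a (.c 1) (.v 2)) (.v 3))) (.v 1))) (.v 1)) (.m (.m (.v
  0) (.a (.m (.v 0) (.s (.a (.c 1) (.v 2)) (.v 3))) (.v 1))) (.v 3))) (.a (.m (.s (.c 1) (.a (.m
  (.v 0) (.s (.a (.c 1) (.v 2)) (.v 3))) (.v 1))) (.v 1)) (.m (.m (.v 0) (.a (.m (.v 0) (.s (.a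
  (.c 1) (.v 2)) (.v 3))) (.v 1))) (.v 3)))))))

def H3_c0 : E :=
  (.s (.m (.c 20) (.a (.m (.s (.c 1) (.a (.m (.v 0) (.s (.a (.c 1) (.v 2)) (.v 3))) (.v 1))) (.v
  1)) (.m (.m (.v 0) (.a (.m (.v 0) (.s (.a (.c 1) (.v 2)) (.v 3))) (.v 1))) (.v 3)))) (.m (.c
  23) (.m (.v 0) (.v 1))))

def H3_c1 : E :=
  (.m (.v 3) (.s (.s (.m (.c 14) (.v 0)) (.c 1)) (.m (.c 10) (.a (.m (.v 0) (.s (.a (.c 1) (.v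
  2)) (.v 3))) (.v 1)))))

def H7_p0 : E :=
  (.a (.m (.v 0) (.a (.m (.c 62500) (.s (.m (.v 0) (.m (.m (.v 2) (.s (.c 1) (.v 0))) (.m (.s (.c
  1) (.a (.m (.v 0) (.s (.a (.c 1) (.v 2)) (.v 3))) (.v 1))) (.v 4)))) (.m (.m (.s (.c 1) (.a (.m
  (.v 0) (.s (.a (.c 1) (.v 2)) (.v 3))) (.v 1))) (.v 1)) (.a (.v 1) (.s (.a (.m (.v 0) (.s (.a
  (.c 1) (.v 2)) (.v 3))) (.v 1)) (.s (.c 1) (.v 0))))))) (.m (.v 0) (.m (.v 3) (.a (.a (.m (.c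
  62500) (.s (.a (.a (.m (.s (.c 1) (.a (.m (.v 0) (.s (.a (.c 1) (.v 2)) (.v 3))) (.v 1))) (.v
  1)) (.m (.a (.m (.v 0) (.s (.a (.c 1) (.v 2)) (.v 3))) (.v 1)) (.s (.c 1) (.a (.m (.v 0) (.s
  (.a (.c 1) (.v 2)) (.v 3))) (.v 1))))) (.m (.m (.v 0) (.v 0)) (.s (.s (.a (.c 1) (.v 2)) (.v
  3)) (.v 4)))) (.m (.c 2) (.m (.m (.v 0) (.s (.c 1) (.v 0))) (.v 4))))) (.m (.c 20000) (.m (.m
  (.m (.m (.s (.c 1) (.v 0)) (.s (.c 1) (.v 0))) (.v 4)) (.v 4)) (.s (.c 10) (.m (.c 8) (.s (.s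
  (.a (.c 1) (.v 2)) (.v 3)) (.v 4))))))) (.m (.c 25) (.m (.a (.c 1) (.m (.v 2) (.v 5))) (.s (.m
  (.c 2500) (.s (.s (.s (.c 1) (.v 3)) (.a (.m (.v 0) (.s (.a (.c 1) (.v 2)) (.v 3))) (.v 1)))
  (.m (.a (.m (.v 0) (.s (.a (.c 1) (.v 2)) (.v 3))) (.v 1)) (.s (.c 1) (.a (.m (.v 0) (.s (.a
  (.c 1) (.v 2)) (.v 3))) (.v 1)))))) (.m (.s (.s (.m (.c 2500) (.m (.v 0) (.s (.c 2) (.v 0))))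
  (.m (.c 100) (.m (.s (.c 1) (.v 0)) (.s (.s (.a (.a (.m (.c 42) (.v 0)) (.m (.c 31) (.v 4)))
  (.m (.c 6) (.v 1))) (.m (.c 31) (.v 2))) (.c 15))))) (.m (.s (.s (.a (.a (.m (.c 42) (.v 0))
  (.m (.c 31) (.v 4))) (.m (.c 6) (.v 1))) (.m (.c 31) (.v 2))) (.c 15)) (.s (.s (.a (.a (.m (.c
  42) (.v 0)) (.m (.c 31) (.v 4))) (.m (.c 6) (.v 1))) (.m (.c 31) (.v 2))) (.c 15)))) (.s (.c 1)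
  (.v 3))))))))))) (.m (.c 62500) (.s (.m (.m (.v 0) (.v 0)) (.m (.a (.s (.c 3) (.m (.c 18) (.s
  (.c 1) (.m (.c 2) (.v 0))))) (.m (.c 90) (.m (.s (.c 1) (.m (.c 2) (.v 0))) (.s (.c 1) (.m (.c
  2) (.v 0)))))) (.m (.v 1) (.v 1)))) (.m (.a (.m (.s (.c 1) (.a (.m (.v 0) (.s (.a (.c 1) (.v
  2)) (.v 3))) (.v 1))) (.v 1)) (.m (.m (.v 0) (.a (.m (.v 0) (.s (.a (.c 1) (.v 2)) (.v 3))) (.v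
  1))) (.v 3))) (.a (.m (.s (.c 1) (.a (.m (.v 0) (.s (.a (.c 1) (.v 2)) (.v 3))) (.v 1))) (.v
  1)) (.m (.m (.v 0) (.a (.m (.v 0) (.s (.a (.c 1) (.v 2)) (.v 3))) (.v 1))) (.v 3)))))))

def AK1_p0 : E :=
  (.a (.m (.s (.s (.m (.c 25) (.m (.m (.s (.c 20) (.m (.s (.s (.m (.c 40) (.v 0)) (.m (.c 18) (.v
  4))) (.c 13)) (.v 3))) (.s (.m (.c 1) (.m (.v 0) (.v 0))) (.m (.m (.v 4) (.s (.m (.c 2) (.v 0))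
  (.v 4))) (.m (.v 4) (.s (.m (.c 2) (.v 0)) (.v 4)))))) (.a (.c 1) (.m (.v 2) (.v 5))))) (.m (.c
  20) (.m (.m (.m (.c 32) (.m (.v 0) (.v 1))) (.s (.c 2) (.a (.c 1) (.m (.v 2) (.v 5))))) (.v
  4)))) (.m (.c 500) (.m (.m (.v 0) (.v 0)) (.s (.a (.c 1) (.m (.v 2) (.v 5))) (.m (.s (.c 2) (.a
  (.c 1) (.m (.v 2) (.v 5)))) (.v 4)))))) (.m (.s (.s (.a (.c 1) (.v 2)) (.v 3)) (.v 4)) (.s (.s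
  (.a (.c 1) (.v 2)) (.v 3)) (.v 4)))) (.m (.c 500) (.m (.m (.m (.m (.s (.c 1) (.v 0)) (.s (.c 1)
  (.v 0))) (.v 4)) (.v 4)) (.s (.a (.c 1) (.m (.v 2) (.v 5))) (.m (.s (.c 2) (.a (.c 1) (.m (.v
  2) (.v 5)))) (.v 4))))))

def AK1_c0 : E :=
  (.s (.m (.c 23) (.m (.v 0) (.v 1))) (.m (.c 20) (.a (.m (.s (.c 1) (.a (.m (.v 0) (.s (.a (.c
  1) (.v 2)) (.v 3))) (.v 1))) (.v 1)) (.m (.m (.v 0) (.a (.m (.v 0) (.s (.a (.c 1) (.v 2)) (.v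
  3))) (.v 1))) (.v 3)))))

def AK1_c1 : E :=
  (.s (.m (.c 10) (.m (.s (.c 1) (.a (.m (.v 0) (.s (.a (.c 1) (.v 2)) (.v 3))) (.v 1))) (.v 4)))
  (.m (.v 1) (.a (.c 10) (.m (.c 7) (.m (.s (.c 1) (.v 0)) (.s (.a (.c 1) (.v 2)) (.v 3)))))))

def AK1_c2 : E :=
  (.m (.v 4) (.s (.s (.m (.c 14) (.v 0)) (.c 1)) (.m (.c 10) (.a (.m (.v 0) (.s (.a (.c 1) (.v
  2)) (.v 3))) (.v 1)))))

def AK3_p0 : E :=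
  (.s (.m (.c 500) (.m (.s (.m (.v 0) (.s (.a (.c 1) (.v 2)) (.v 3))) (.v 4)) (.s (.m (.v 0) (.s
  (.a (.c 1) (.v 2)) (.v 3))) (.v 4)))) (.m (.a (.m (.c 25) (.m (.m (.m (.a (.c 1) (.m (.v 2) (.v
  5))) (.s (.s (.m (.c 40) (.v 0)) (.m (.c 18) (.v 4))) (.c 13))) (.v 0)) (.v 0))) (.m (.c 20)
  (.m (.m (.c 32) (.m (.v 0) (.v 1))) (.v 4)))) (.s (.s (.a (.c 1) (.v 2)) (.v 3)) (.v 4))))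

def AK3_c0 : E :=
  (.s (.s (.s (.c 506) (.m (.c 500) (.v 4))) (.m (.c 500) (.s (.c 1) (.m (.c 2) (.v 0))))) (.m
  (.c 600) (.a (.m (.v 0) (.s (.a (.c 1) (.v 2)) (.v 3))) (.v 1))))

def AK4_p0 : E :=
  (.s (.m (.c 25) (.s (.m (.m (.m (.v 0) (.v 0)) (.s (.s (.a (.c 1) (.v 2)) (.v 3)) (.v 4))) (.s
  (.s (.a (.c 1) (.v 2)) (.v 3)) (.v 4))) (.m (.m (.m (.s (.c 1) (.v 0)) (.s (.c 1) (.v 0))) (.v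
  4)) (.v 4)))) (.m (.m (.m (.c 32) (.m (.v 0) (.v 1))) (.s (.s (.a (.c 1) (.v 2)) (.v 3)) (.v
  4))) (.s (.s (.a (.c 1) (.v 2)) (.v 3)) (.v 4))))

def AK5_p0 : E :=
  (.a (.m (.s (.s (.m (.c 25) (.m (.m (.s (.c 20) (.s (.s (.m (.c 40) (.v 0)) (.m (.c 18) (.v
  4))) (.c 13))) (.s (.m (.c 1) (.m (.v 0) (.v 0))) (.m (.m (.v 4) (.s (.m (.c 2) (.v 0)) (.v
  4))) (.m (.v 4) (.s (.m (.c 2) (.v 0)) (.v 4)))))) (.a (.c 1) (.m (.v 2) (.v 5))))) (.m (.c 20)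
  (.m (.m (.m (.c 32) (.m (.v 0) (.v 1))) (.s (.c 2) (.a (.c 1) (.m (.v 2) (.v 5))))) (.a (.m (.v
  0) (.s (.a (.c 1) (.v 2)) (.v 3))) (.v 1))))) (.m (.c 500) (.m (.m (.v 0) (.v 0)) (.s (.a (.c
  1) (.m (.v 2) (.v 5))) (.m (.s (.c 2) (.a (.c 1) (.m (.v 2) (.v 5)))) (.s (.s (.m (.c 2) (.a
  (.m (.v 0) (.s (.a (.c 1) (.v 2)) (.v 3))) (.v 1))) (.v 4)) (.s (.c 1) (.v 0)))))))) (.m (.s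
  (.s (.a (.c 1) (.v 2)) (.v 3)) (.s (.s (.m (.c 2) (.a (.m (.v 0) (.s (.a (.c 1) (.v 2)) (.v
  3))) (.v 1))) (.v 4)) (.s (.c 1) (.v 0)))) (.s (.s (.a (.c 1) (.v 2)) (.v 3)) (.s (.s (.m (.c
  2) (.a (.m (.v 0) (.s (.a (.c 1) (.v 2)) (.v 3))) (.v 1))) (.v 4)) (.s (.c 1) (.v 0)))))) (.m
  (.c 500) (.m (.m (.m (.m (.s (.c 1) (.v 0)) (.s (.c 1) (.v 0))) (.s (.s (.m (.c 2) (.a (.m (.v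
  0) (.s (.a (.c 1) (.v 2)) (.v 3))) (.v 1))) (.v 4)) (.s (.c 1) (.v 0)))) (.s (.s (.m (.c 2) (.a
  (.m (.v 0) (.s (.a (.c 1) (.v 2)) (.v 3))) (.v 1))) (.v 4)) (.s (.c 1) (.v 0)))) (.s (.a (.c 1)
  (.m (.v 2) (.v 5))) (.m (.s (.c 2) (.a (.c 1) (.m (.v 2) (.v 5)))) (.s (.s (.m (.c 2) (.a (.m
  (.v 0) (.s (.a (.c 1) (.v 2)) (.v 3))) (.v 1))) (.v 4)) (.s (.c 1) (.v 0))))))))

def AK5_p1 : E :=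
  (.a (.m (.s (.s (.m (.c 25) (.m (.m (.s (.c 20) (.s (.s (.m (.c 40) (.v 0)) (.m (.c 18) (.v
  4))) (.c 13))) (.s (.m (.c 1) (.m (.v 0) (.v 0))) (.m (.m (.v 4) (.s (.m (.c 2) (.v 0)) (.v
  4))) (.m (.v 4) (.s (.m (.c 2) (.v 0)) (.v 4)))))) (.a (.c 1) (.m (.v 2) (.v 5))))) (.m (.c 20)
  (.m (.m (.m (.c 32) (.m (.v 0) (.v 1))) (.s (.c 2) (.a (.c 1) (.m (.v 2) (.v 5))))) (.a (.m (.v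
  0) (.s (.a (.c 1) (.v 2)) (.v 3))) (.v 1))))) (.m (.c 500) (.m (.m (.v 0) (.v 0)) (.s (.a (.c
  1) (.m (.v 2) (.v 5))) (.m (.s (.c 2) (.a (.c 1) (.m (.v 2) (.v 5)))) (.v 4)))))) (.m (.s (.s
  (.a (.c 1) (.v 2)) (.v 3)) (.v 4)) (.s (.s (.a (.c 1) (.v 2)) (.v 3)) (.v 4)))) (.m (.c 500)
  (.m (.m (.m (.m (.s (.c 1) (.v 0)) (.s (.c 1) (.v 0))) (.v 4)) (.v 4)) (.s (.a (.c 1) (.m (.v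
  2) (.v 5))) (.m (.s (.c 2) (.a (.c 1) (.m (.v 2) (.v 5)))) (.v 4))))))

def AK5_c0 : E :=
  (.s (.s (.m (.c 14) (.v 0)) (.c 1)) (.m (.c 10) (.a (.m (.v 0) (.s (.a (.c 1) (.v 2)) (.v 3)))
  (.v 1))))

def AK5_c1 : E :=
  (.s (.a (.m (.v 0) (.s (.a (.c 1) (.v 2)) (.v 3))) (.v 1)) (.s (.c 1) (.v 0)))

def A4_p0 : E :=
  (.a (.m (.c 25) (.a (.m (.c 4500) (.s (.m (.v 0) (.m (.m (.v 2) (.s (.c 1) (.v 0))) (.m (.s (.c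
  1) (.a (.m (.v 0) (.s (.a (.c 1) (.v 2)) (.v 3))) (.v 1))) (.v 4)))) (.m (.m (.s (.c 1) (.a (.m
  (.v 0) (.s (.a (.c 1) (.v 2)) (.v 3))) (.v 1))) (.v 1)) (.a (.v 1) (.s (.a (.m (.v 0) (.s (.a
  (.c 1) (.v 2)) (.v 3))) (.v 1)) (.s (.c 1) (.v 0))))))) (.m (.v 0) (.m (.v 3) (.s (.m (.c 25)
  (.a (.a (.m (.c 180) (.s (.a (.a (.m (.s (.c 1) (.a (.m (.v 0) (.s (.a (.c 1) (.v 2)) (.v 3)))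
  (.v 1))) (.v 1)) (.m (.a (.m (.v 0) (.s (.a (.c 1) (.v 2)) (.v 3))) (.v 1)) (.s (.c 1) (.a (.m
  (.v 0) (.s (.a (.c 1) (.v 2)) (.v 3))) (.v 1))))) (.m (.m (.v 0) (.v 0)) (.s (.s (.a (.c 1) (.v
  2)) (.v 3)) (.v 4)))) (.m (.c 2) (.m (.m (.v 0) (.s (.c 1) (.v 0))) (.v 4))))) (.m (.c 80) (.m
  (.m (.m (.m (.s (.c 1) (.v 0)) (.s (.c 1) (.v 0))) (.v 4)) (.v 4)) (.s (.c 6) (.m (.c 4) (.s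
  (.s (.a (.c 1) (.v 2)) (.v 3)) (.v 4))))))) (.m (.c 9) (.m (.a (.c 1) (.m (.v 2) (.v 5))) (.s
  (.m (.c 20) (.s (.s (.s (.c 1) (.v 3)) (.a (.m (.v 0) (.s (.a (.c 1) (.v 2)) (.v 3))) (.v 1)))
  (.m (.a (.m (.v 0) (.s (.a (.c 1) (.v 2)) (.v 3))) (.v 1)) (.s (.c 1) (.a (.m (.v 0) (.s (.a
  (.c 1) (.v 2)) (.v 3))) (.v 1)))))) (.m (.s (.m (.c 20) (.s (.s (.m (.c 1) (.m (.v 0) (.s (.c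
  2) (.v 0)))) (.m (.c 2) (.m (.s (.c 1) (.v 0)) (.m (.v 4) (.s (.m (.c 2) (.v 0)) (.v 4))))))
  (.m (.m (.v 4) (.s (.m (.c 2) (.v 0)) (.v 4))) (.m (.v 4) (.s (.m (.c 2) (.v 0)) (.v 4))))))
  (.m (.s (.s (.m (.c 40) (.v 0)) (.m (.c 18) (.v 4))) (.c 13)) (.s (.m (.c 1) (.m (.v 0) (.v
  0))) (.m (.m (.v 4) (.s (.m (.c 2) (.v 0)) (.v 4))) (.m (.v 4) (.s (.m (.c 2) (.v 0)) (.v
  4))))))) (.s (.c 1) (.v 3)))))))) (.m (.c 180) (.m (.m (.c 32) (.m (.v 0) (.v 1))) (.v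
  4)))))))) (.m (.c 4500) (.m (.v 0) (.s (.m (.c 50) (.m (.v 1) (.v 1))) (.m (.c 32) (.m (.m (.v
  3) (.v 1)) (.a (.v 1) (.m (.v 0) (.a (.m (.v 0) (.s (.a (.c 1) (.v 2)) (.v 3))) (.v 1))))))))))

def A4_c0 : E :=
  (.s (.m (.c 23) (.m (.v 0) (.v 1))) (.m (.c 20) (.a (.m (.s (.c 1) (.a (.m (.v 0) (.s (.a (.c
  1) (.v 2)) (.v 3))) (.v 1))) (.v 1)) (.m (.m (.v 0) (.a (.m (.v 0) (.s (.a (.c 1) (.v 2)) (.v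
  3))) (.v 1))) (.v 3)))))

def A4_c1 : E :=
  (.m (.v 2) (.s (.m (.c 10) (.m (.s (.c 1) (.a (.m (.v 0) (.s (.a (.c 1) (.v 2)) (.v 3))) (.v
  1))) (.v 4))) (.m (.v 1) (.a (.c 10) (.m (.c 7) (.m (.s (.c 1) (.v 0)) (.s (.a (.c 1) (.v 2))
  (.v 3))))))))

def A4_c2 : E :=
  (.m (.v 3) (.s (.a (.m (.v 0) (.v 4)) (.s (.c 1) (.v 0))) (.a (.m (.v 0) (.s (.a (.c 1) (.v 2))
  (.v 3))) (.v 1))))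

def IK1_p0 : E :=
  (.a (.m (.s (.s (.m (.c 200) (.m (.m (.s (.c 4) (.m (.s (.s (.c 5) (.m (.c 6) (.v 4))) (.m (.c
  6) (.v 0))) (.v 3))) (.s (.m (.c 100) (.m (.v 0) (.v 0))) (.m (.m (.v 4) (.s (.s (.s (.s (.m
  (.c 120) (.v 0)) (.m (.c 7) (.v 4))) (.m (.c 28) (.v 1))) (.m (.c 9) (.v 2))) (.c 47))) (.m (.v
  4) (.s (.s (.s (.s (.m (.c 120) (.v 0)) (.m (.c 7) (.v 4))) (.m (.c 28) (.v 1))) (.m (.c 9) (.v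
  2))) (.c 47)))))) (.a (.c 1) (.m (.v 2) (.v 5))))) (.m (.c 400) (.m (.m (.m (.a (.m (.c 5) (.m
  (.s (.s (.c 7) (.m (.c 4) (.a (.m (.v 0) (.s (.a (.c 1) (.v 2)) (.v 3))) (.v 1)))) (.m (.c 6)
  (.v 0))) (.v 1))) (.m (.c 6) (.v 3))) (.s (.a (.a (.a (.c 3) (.m (.c 30) (.v 4))) (.m (.c 20)
  (.a (.m (.v 0) (.s (.a (.c 1) (.v 2)) (.v 3))) (.v 1)))) (.m (.c 20) (.v 0))) (.m (.c 6) (.a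
  (.m (.c 5) (.m (.s (.s (.c 7) (.m (.c 4) (.a (.m (.v 0) (.s (.a (.c 1) (.v 2)) (.v 3))) (.v
  1)))) (.m (.c 6) (.v 0))) (.v 1))) (.m (.c 6) (.v 3)))))) (.s (.c 2) (.a (.c 1) (.m (.v 2) (.v
  5))))) (.v 4)))) (.m (.c 80000) (.m (.m (.v 0) (.v 0)) (.s (.a (.c 1) (.m (.v 2) (.v 5))) (.m
  (.s (.c 2) (.a (.c 1) (.m (.v 2) (.v 5)))) (.v 4)))))) (.m (.s (.s (.a (.c 1) (.v 2)) (.v 3))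
  (.v 4)) (.s (.s (.a (.c 1) (.v 2)) (.v 3)) (.v 4)))) (.m (.c 80000) (.m (.m (.m (.m (.s (.c 1)
  (.v 0)) (.s (.c 1) (.v 0))) (.v 4)) (.v 4)) (.s (.a (.c 1) (.m (.v 2) (.v 5))) (.m (.s (.c 2)
  (.a (.c 1) (.m (.v 2) (.v 5)))) (.v 4))))))

def IK1_c0 : E :=
  (.s (.v 4) (.v 3))

def IK1_c1 : E :=
  (.s (.a (.m (.v 0) (.v 4)) (.s (.c 1) (.v 0))) (.a (.m (.v 0) (.s (.a (.c 1) (.v 2)) (.v 3)))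
  (.v 1)))

def IK1_c2 : E :=
  (.s (.s (.m (.c 14) (.v 0)) (.c 1)) (.m (.c 10) (.a (.m (.v 0) (.s (.a (.c 1) (.v 2)) (.v 3)))
  (.v 1))))

def IK1_c3 : E :=
  (.m (.v 4) (.s (.a (.m (.v 0) (.v 4)) (.s (.c 1) (.v 0))) (.a (.m (.v 0) (.s (.a (.c 1) (.v 2))
  (.v 3))) (.v 1))))

def IK1_c4 : E :=
  (.m (.v 4) (.s (.v 1) (.m (.s (.c 1) (.a (.m (.v 0) (.s (.a (.c 1) (.v 2)) (.v 3))) (.v 1)))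
  (.v 4))))

def IK3a_p0 : E :=
  (.s (.m (.c 800) (.m (.s (.m (.v 0) (.s (.a (.c 1) (.v 2)) (.v 3))) (.v 4)) (.s (.m (.v 0) (.s
  (.a (.c 1) (.v 2)) (.v 3))) (.v 4)))) (.m (.a (.m (.c 200) (.m (.m (.m (.a (.c 1) (.m (.v 2)
  (.v 5))) (.s (.s (.c 5) (.m (.c 6) (.v 4))) (.m (.c 6) (.v 0)))) (.v 0)) (.v 0))) (.m (.c 4)
  (.m (.m (.a (.m (.c 5) (.m (.s (.s (.c 7) (.m (.c 4) (.a (.m (.v 0) (.s (.a (.c 1) (.v 2)) (.v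
  3))) (.v 1)))) (.m (.c 6) (.v 0))) (.v 1))) (.m (.c 6) (.v 3))) (.s (.a (.a (.a (.c 3) (.m (.c
  30) (.v 4))) (.m (.c 20) (.a (.m (.v 0) (.s (.a (.c 1) (.v 2)) (.v 3))) (.v 1)))) (.m (.c 20)
  (.v 0))) (.m (.c 6) (.a (.m (.c 5) (.m (.s (.s (.c 7) (.m (.c 4) (.a (.m (.v 0) (.s (.a (.c 1)
  (.v 2)) (.v 3))) (.v 1)))) (.m (.c 6) (.v 0))) (.v 1))) (.m (.c 6) (.v 3)))))) (.v 4)))) (.s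
  (.s (.a (.c 1) (.v 2)) (.v 3)) (.v 4))))

def IK3a_c0 : E :=
  (.s (.v 1) (.m (.s (.c 1) (.a (.m (.v 0) (.s (.a (.c 1) (.v 2)) (.v 3))) (.v 1))) (.v 4)))

def IK3a_c1 : E :=
  (.s (.c 107) (.m (.c 200) (.a (.m (.v 0) (.s (.a (.c 1) (.v 2)) (.v 3))) (.v 1))))

def IK3b_p0 : E :=
  (.s (.m (.c 800) (.m (.s (.m (.v 0) (.s (.a (.c 1) (.v 2)) (.v 3))) (.v 4)) (.s (.m (.v 0) (.s
  (.a (.c 1) (.v 2)) (.v 3))) (.v 4)))) (.m (.a (.m (.c 200) (.m (.m (.m (.a (.c 1) (.m (.v 2)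
  (.v 5))) (.s (.s (.c 5) (.m (.c 6) (.v 4))) (.m (.c 6) (.v 0)))) (.v 0)) (.v 0))) (.m (.c 4)
  (.m (.m (.a (.m (.c 5) (.m (.s (.s (.c 7) (.m (.c 4) (.a (.m (.v 0) (.s (.a (.c 1) (.v 2)) (.v
  3))) (.v 1)))) (.m (.c 6) (.v 0))) (.v 1))) (.m (.c 6) (.v 3))) (.s (.a (.a (.a (.c 3) (.m (.c
  30) (.v 4))) (.m (.c 20) (.a (.m (.v 0) (.s (.a (.c 1) (.v 2)) (.v 3))) (.v 1)))) (.m (.c 20)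
  (.v 0))) (.m (.c 6) (.a (.m (.c 5) (.m (.s (.s (.c 7) (.m (.c 4) (.a (.m (.v 0) (.s (.a (.c 1)
  (.v 2)) (.v 3))) (.v 1)))) (.m (.c 6) (.v 0))) (.v 1))) (.m (.c 6) (.v 3)))))) (.v 4)))) (.s
  (.s (.a (.c 1) (.v 2)) (.v 3)) (.v 4))))

def IK3b_c0 : E :=
  (.s (.v 1) (.m (.s (.c 1) (.a (.m (.v 0) (.s (.a (.c 1) (.v 2)) (.v 3))) (.v 1))) (.v 4)))

def IK3b_c1 : E :=
  (.s (.s (.s (.c 73) (.m (.c 200) (.s (.c 1) (.m (.c 2) (.v 0))))) (.m (.c 100) (.a (.m (.v 0)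
  (.s (.a (.c 1) (.v 2)) (.v 3))) (.v 1)))) (.m (.c 50) (.v 4)))

def IK4_p0 : E :=
  (.s (.m (.c 200) (.s (.m (.m (.m (.v 0) (.v 0)) (.s (.s (.a (.c 1) (.v 2)) (.v 3)) (.v 4))) (.s
  (.s (.a (.c 1) (.v 2)) (.v 3)) (.v 4))) (.m (.m (.m (.s (.c 1) (.v 0)) (.s (.c 1) (.v 0))) (.v
  4)) (.v 4)))) (.m (.m (.m (.a (.m (.c 5) (.m (.s (.s (.c 7) (.m (.c 4) (.a (.m (.v 0) (.s (.a
  (.c 1) (.v 2)) (.v 3))) (.v 1)))) (.m (.c 6) (.v 0))) (.v 1))) (.m (.c 6) (.v 3))) (.s (.a (.a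
  (.a (.c 3) (.m (.c 30) (.v 4))) (.m (.c 20) (.a (.m (.v 0) (.s (.a (.c 1) (.v 2)) (.v 3))) (.v
  1)))) (.m (.c 20) (.v 0))) (.m (.c 6) (.a (.m (.c 5) (.m (.s (.s (.c 7) (.m (.c 4) (.a (.m (.v
  0) (.s (.a (.c 1) (.v 2)) (.v 3))) (.v 1)))) (.m (.c 6) (.v 0))) (.v 1))) (.m (.c 6) (.v
  3)))))) (.s (.s (.a (.c 1) (.v 2)) (.v 3)) (.v 4))) (.s (.s (.a (.c 1) (.v 2)) (.v 3)) (.v
  4))))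

def IK4_c0 : E :=
  (.s (.v 1) (.m (.s (.c 1) (.a (.m (.v 0) (.s (.a (.c 1) (.v 2)) (.v 3))) (.v 1))) (.v 4)))

def IK5_p0 : E :=
  (.a (.m (.s (.m (.c 25) (.m (.m (.s (.c 4) (.s (.s (.c 5) (.m (.c 6) (.v 4))) (.m (.c 6) (.v
  0)))) (.s (.m (.c 100) (.m (.v 0) (.v 0))) (.m (.m (.v 4) (.s (.s (.s (.s (.m (.c 120) (.v 0))
  (.m (.c 7) (.v 4))) (.m (.c 28) (.v 1))) (.m (.c 9) (.v 2))) (.c 47))) (.m (.v 4) (.s (.s (.s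
  (.s (.m (.c 120) (.v 0)) (.m (.c 7) (.v 4))) (.m (.c 28) (.v 1))) (.m (.c 9) (.v 2))) (.c
  47)))))) (.a (.c 1) (.m (.v 2) (.v 5))))) (.m (.c 400) (.m (.m (.v 0) (.v 0)) (.s (.m (.c 25)
  (.a (.c 1) (.m (.v 2) (.v 5)))) (.m (.s (.c 2) (.a (.c 1) (.m (.v 2) (.v 5)))) (.s (.m (.c 25)
  (.s (.s (.m (.c 2) (.a (.m (.v 0) (.s (.a (.c 1) (.v 2)) (.v 3))) (.v 1))) (.v 4)) (.s (.c 1)
  (.v 0)))) (.s (.c 1) (.m (.c 2) (.v 0))))))))) (.m (.s (.m (.c 25) (.s (.a (.c 1) (.v 2)) (.v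
  3))) (.s (.m (.c 25) (.s (.s (.m (.c 2) (.a (.m (.v 0) (.s (.a (.c 1) (.v 2)) (.v 3))) (.v 1)))
  (.v 4)) (.s (.c 1) (.v 0)))) (.s (.c 1) (.m (.c 2) (.v 0))))) (.s (.m (.c 25) (.s (.a (.c 1)
  (.v 2)) (.v 3))) (.s (.m (.c 25) (.s (.s (.m (.c 2) (.a (.m (.v 0) (.s (.a (.c 1) (.v 2)) (.v
  3))) (.v 1))) (.v 4)) (.s (.c 1) (.v 0)))) (.s (.c 1) (.m (.c 2) (.v 0))))))) (.m (.c 400) (.m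
  (.m (.m (.m (.s (.c 1) (.v 0)) (.s (.c 1) (.v 0))) (.s (.m (.c 25) (.s (.s (.m (.c 2) (.a (.m
  (.v 0) (.s (.a (.c 1) (.v 2)) (.v 3))) (.v 1))) (.v 4)) (.s (.c 1) (.v 0)))) (.s (.c 1) (.m (.c
  2) (.v 0))))) (.s (.m (.c 25) (.s (.s (.m (.c 2) (.a (.m (.v 0) (.s (.a (.c 1) (.v 2)) (.v 3)))
  (.v 1))) (.v 4)) (.s (.c 1) (.v 0)))) (.s (.c 1) (.m (.c 2) (.v 0))))) (.s (.m (.c 25) (.a (.c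
  1) (.m (.v 2) (.v 5)))) (.m (.s (.c 2) (.a (.c 1) (.m (.v 2) (.v 5)))) (.s (.m (.c 25) (.s (.s
  (.m (.c 2) (.a (.m (.v 0) (.s (.a (.c 1) (.v 2)) (.v 3))) (.v 1))) (.v 4)) (.s (.c 1) (.v 0))))
  (.s (.c 1) (.m (.c 2) (.v 0)))))))))

def IK5_c0 : E :=
  (.s (.v 1) (.m (.s (.c 1) (.a (.m (.v 0) (.s (.a (.c 1) (.v 2)) (.v 3))) (.v 1))) (.v 4)))

def I0_p0 : E :=
  (.a (.m (.c 720000) (.m (.m (.v 2) (.s (.c 1) (.v 0))) (.m (.s (.c 1) (.a (.m (.v 0) (.s (.a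
  (.c 1) (.v 2)) (.v 3))) (.v 1))) (.v 4)))) (.m (.v 3) (.s (.s (.m (.c 200) (.a (.a (.m (.c
  3600) (.s (.a (.a (.m (.s (.c 1) (.a (.m (.v 0) (.s (.a (.c 1) (.v 2)) (.v 3))) (.v 1))) (.v
  1)) (.m (.a (.m (.v 0) (.s (.a (.c 1) (.v 2)) (.v 3))) (.v 1)) (.s (.c 1) (.a (.m (.v 0) (.s
  (.a (.c 1) (.v 2)) (.v 3))) (.v 1))))) (.m (.m (.v 0) (.v 0)) (.s (.s (.a (.c 1) (.v 2)) (.v
  3)) (.v 4)))) (.m (.c 2) (.m (.m (.v 0) (.s (.c 1) (.v 0))) (.v 4))))) (.m (.c 1600) (.m (.m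
  (.m (.m (.s (.c 1) (.v 0)) (.s (.c 1) (.v 0))) (.v 4)) (.v 4)) (.s (.c 6) (.m (.c 4) (.s (.s
  (.a (.c 1) (.v 2)) (.v 3)) (.v 4))))))) (.m (.c 9) (.m (.a (.c 1) (.m (.v 2) (.v 5))) (.s (.m
  (.c 400) (.s (.s (.s (.c 1) (.v 3)) (.a (.m (.v 0) (.s (.a (.c 1) (.v 2)) (.v 3))) (.v 1))) (.m
  (.a (.m (.v 0) (.s (.a (.c 1) (.v 2)) (.v 3))) (.v 1)) (.s (.c 1) (.a (.m (.v 0) (.s (.a (.c 1)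
  (.v 2)) (.v 3))) (.v 1)))))) (.m (.s (.m (.c 4) (.s (.s (.m (.c 100) (.m (.v 0) (.s (.c 2) (.v
  0)))) (.m (.c 20) (.m (.s (.c 1) (.v 0)) (.m (.v 4) (.s (.s (.s (.s (.m (.c 120) (.v 0)) (.m
  (.c 7) (.v 4))) (.m (.c 28) (.v 1))) (.m (.c 9) (.v 2))) (.c 47)))))) (.m (.m (.v 4) (.s (.s
  (.s (.s (.m (.c 120) (.v 0)) (.m (.c 7) (.v 4))) (.m (.c 28) (.v 1))) (.m (.c 9) (.v 2))) (.c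
  47))) (.m (.v 4) (.s (.s (.s (.s (.m (.c 120) (.v 0)) (.m (.c 7) (.v 4))) (.m (.c 28) (.v 1)))
  (.m (.c 9) (.v 2))) (.c 47)))))) (.m (.s (.s (.c 5) (.m (.c 6) (.v 4))) (.m (.c 6) (.v 0))) (.s
  (.m (.c 100) (.m (.v 0) (.v 0))) (.m (.m (.v 4) (.s (.s (.s (.s (.m (.c 120) (.v 0)) (.m (.c 7)
  (.v 4))) (.m (.c 28) (.v 1))) (.m (.c 9) (.v 2))) (.c 47))) (.m (.v 4) (.s (.s (.s (.s (.m (.c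
  120) (.v 0)) (.m (.c 7) (.v 4))) (.m (.c 28) (.v 1))) (.m (.c 9) (.v 2))) (.c 47))))))) (.s (.c
  1) (.v 3)))))))) (.m (.c 3600) (.m (.m (.a (.m (.c 5) (.m (.s (.s (.c 7) (.m (.c 4) (.a (.m (.v
  0) (.s (.a (.c 1) (.v 2)) (.v 3))) (.v 1)))) (.m (.c 6) (.v 0))) (.v 1))) (.m (.c 6) (.v 3)))
  (.s (.a (.a (.a (.c 3) (.m (.c 30) (.v 4))) (.m (.c 20) (.a (.m (.v 0) (.s (.a (.c 1) (.v 2))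
  (.v 3))) (.v 1)))) (.m (.c 20) (.v 0))) (.m (.c 6) (.a (.m (.c 5) (.m (.s (.s (.c 7) (.m (.c 4)
  (.a (.m (.v 0) (.s (.a (.c 1) (.v 2)) (.v 3))) (.v 1)))) (.m (.c 6) (.v 0))) (.v 1))) (.m (.c
  6) (.v 3)))))) (.v 4)))) (.m (.c 1440000) (.m (.a (.m (.v 0) (.s (.a (.c 1) (.v 2)) (.v 3)))
  (.v 1)) (.s (.a (.m (.v 0) (.v 4)) (.s (.c 1) (.v 0))) (.a (.m (.v 0) (.s (.a (.c 1) (.v 2))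
  (.v 3))) (.v 1))))))))

def I0_p1 : E :=
  (.a (.a (.m (.c 720000) (.s (.m (.v 0) (.m (.m (.v 2) (.s (.c 1) (.v 0))) (.m (.s (.c 1) (.a
  (.m (.v 0) (.s (.a (.c 1) (.v 2)) (.v 3))) (.v 1))) (.v 4)))) (.m (.m (.s (.c 1) (.a (.m (.v 0)
  (.s (.a (.c 1) (.v 2)) (.v 3))) (.v 1))) (.v 1)) (.a (.v 1) (.s (.a (.m (.v 0) (.s (.a (.c 1)
  (.v 2)) (.v 3))) (.v 1)) (.s (.c 1) (.v 0))))))) (.m (.v 0) (.m (.v 3) (.s (.m (.c 200) (.a (.a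
  (.m (.c 3600) (.s (.a (.a (.m (.s (.c 1) (.a (.m (.v 0) (.s (.a (.c 1) (.v 2)) (.v 3))) (.v
  1))) (.v 1)) (.m (.a (.m (.v 0) (.s (.a (.c 1) (.v 2)) (.v 3))) (.v 1)) (.s (.c 1) (.a (.m (.v
  0) (.s (.a (.c 1) (.v 2)) (.v 3))) (.v 1))))) (.m (.m (.v 0) (.v 0)) (.s (.s (.a (.c 1) (.v 2))
  (.v 3)) (.v 4)))) (.m (.c 2) (.m (.m (.v 0) (.s (.c 1) (.v 0))) (.v 4))))) (.m (.c 1600) (.m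
  (.m (.m (.m (.s (.c 1) (.v 0)) (.s (.c 1) (.v 0))) (.v 4)) (.v 4)) (.s (.c 6) (.m (.c 4) (.s
  (.s (.a (.c 1) (.v 2)) (.v 3)) (.v 4))))))) (.m (.c 9) (.m (.a (.c 1) (.m (.v 2) (.v 5))) (.s
  (.m (.c 400) (.s (.s (.s (.c 1) (.v 3)) (.a (.m (.v 0) (.s (.a (.c 1) (.v 2)) (.v 3))) (.v 1)))
  (.m (.a (.m (.v 0) (.s (.a (.c 1) (.v 2)) (.v 3))) (.v 1)) (.s (.c 1) (.a (.m (.v 0) (.s (.a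
  (.c 1) (.v 2)) (.v 3))) (.v 1)))))) (.m (.s (.m (.c 4) (.s (.s (.m (.c 100) (.m (.v 0) (.s (.c
  2) (.v 0)))) (.m (.c 20) (.m (.s (.c 1) (.v 0)) (.m (.v 4) (.s (.s (.s (.s (.m (.c 120) (.v 0))
  (.m (.c 7) (.v 4))) (.m (.c 28) (.v 1))) (.m (.c 9) (.v 2))) (.c 47)))))) (.m (.m (.v 4) (.s
  (.s (.s (.s (.m (.c 120) (.v 0)) (.m (.c 7) (.v 4))) (.m (.c 28) (.v 1))) (.m (.c 9) (.v 2)))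
  (.c 47))) (.m (.v 4) (.s (.s (.s (.s (.m (.c 120) (.v 0)) (.m (.c 7) (.v 4))) (.m (.c 28) (.v
  1))) (.m (.c 9) (.v 2))) (.c 47)))))) (.m (.s (.s (.c 5) (.m (.c 6) (.v 4))) (.m (.c 6) (.v
  0))) (.s (.m (.c 100) (.m (.v 0) (.v 0))) (.m (.m (.v 4) (.s (.s (.s (.s (.m (.c 120) (.v 0))
  (.m (.c 7) (.v 4))) (.m (.c 28) (.v 1))) (.m (.c 9) (.v 2))) (.c 47))) (.m (.v 4) (.s (.s (.s
  (.s (.m (.c 120) (.v 0)) (.m (.c 7) (.v 4))) (.m (.c 28) (.v 1))) (.m (.c 9) (.v 2))) (.c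
  47))))))) (.s (.c 1) (.v 3)))))))) (.m (.c 3600) (.m (.m (.a (.m (.c 5) (.m (.s (.s (.c 7) (.m
  (.c 4) (.a (.m (.v 0) (.s (.a (.c 1) (.v 2)) (.v 3))) (.v 1)))) (.m (.c 6) (.v 0))) (.v 1)))
  (.m (.c 6) (.v 3))) (.s (.a (.a (.a (.c 3) (.m (.c 30) (.v 4))) (.m (.c 20) (.a (.m (.v 0) (.s
  (.a (.c 1) (.v 2)) (.v 3))) (.v 1)))) (.m (.c 20) (.v 0))) (.m (.c 6) (.a (.m (.c 5) (.m (.s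
  (.s (.c 7) (.m (.c 4) (.a (.m (.v 0) (.s (.a (.c 1) (.v 2)) (.v 3))) (.v 1)))) (.m (.c 6) (.v
  0))) (.v 1))) (.m (.c 6) (.v 3)))))) (.v 4))))))) (.m (.c 720000) (.s (.m (.v 0) (.s (.a (.m
  (.v 1) (.v 1)) (.m (.c 2) (.m (.v 1) (.m (.s (.c 1) (.a (.m (.v 0) (.s (.a (.c 1) (.v 2)) (.v
  3))) (.v 1))) (.v 4))))) (.m (.m (.s (.c 1) (.a (.m (.v 0) (.s (.a (.c 1) (.v 2)) (.v 3))) (.v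
  1))) (.v 4)) (.m (.s (.c 1) (.a (.m (.v 0) (.s (.a (.c 1) (.v 2)) (.v 3))) (.v 1))) (.v 4)))))
  (.m (.c 2) (.m (.s (.v 1) (.m (.s (.c 1) (.a (.m (.v 0) (.s (.a (.c 1) (.v 2)) (.v 3))) (.v
  1))) (.v 4))) (.s (.a (.m (.s (.c 1) (.a (.m (.v 0) (.s (.a (.c 1) (.v 2)) (.v 3))) (.v 1)))
  (.v 1)) (.m (.m (.v 0) (.a (.m (.v 0) (.s (.a (.c 1) (.v 2)) (.v 3))) (.v 1))) (.v 3))) (.m (.v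
  0) (.s (.v 1) (.m (.s (.c 1) (.a (.m (.v 0) (.s (.a (.c 1) (.v 2)) (.v 3))) (.v 1))) (.v
  4))))))))))

def I0_p2 : E :=
  (.a (.a (.m (.c 720000) (.s (.m (.v 0) (.m (.m (.v 2) (.s (.c 1) (.v 0))) (.m (.s (.c 1) (.a
  (.m (.v 0) (.s (.a (.c 1) (.v 2)) (.v 3))) (.v 1))) (.v 4)))) (.m (.m (.s (.c 1) (.a (.m (.v 0)
  (.s (.a (.c 1) (.v 2)) (.v 3))) (.v 1))) (.v 1)) (.a (.v 1) (.s (.a (.m (.v 0) (.s (.a (.c 1)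
  (.v 2)) (.v 3))) (.v 1)) (.s (.c 1) (.v 0))))))) (.m (.v 0) (.m (.v 3) (.s (.m (.c 200) (.a (.a
  (.m (.c 3600) (.s (.a (.a (.m (.s (.c 1) (.a (.m (.v 0) (.s (.a (.c 1) (.v 2)) (.v 3))) (.v
  1))) (.v 1)) (.m (.a (.m (.v 0) (.s (.a (.c 1) (.v 2)) (.v 3))) (.v 1)) (.s (.c 1) (.a (.m (.v
  0) (.s (.a (.c 1) (.v 2)) (.v 3))) (.v 1))))) (.m (.m (.v 0) (.v 0)) (.s (.s (.a (.c 1) (.v 2))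
  (.v 3)) (.v 4)))) (.m (.c 2) (.m (.m (.v 0) (.s (.c 1) (.v 0))) (.v 4))))) (.m (.c 1600) (.m
  (.m (.m (.m (.s (.c 1) (.v 0)) (.s (.c 1) (.v 0))) (.v 4)) (.v 4)) (.s (.c 6) (.m (.c 4) (.s
  (.s (.a (.c 1) (.v 2)) (.v 3)) (.v 4))))))) (.m (.c 9) (.m (.a (.c 1) (.m (.v 2) (.v 5))) (.s
  (.m (.c 400) (.s (.s (.s (.c 1) (.v 3)) (.a (.m (.v 0) (.s (.a (.c 1) (.v 2)) (.v 3))) (.v 1)))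
  (.m (.a (.m (.v 0) (.s (.a (.c 1) (.v 2)) (.v 3))) (.v 1)) (.s (.c 1) (.a (.m (.v 0) (.s (.a
  (.c 1) (.v 2)) (.v 3))) (.v 1)))))) (.m (.s (.m (.c 4) (.s (.s (.m (.c 100) (.m (.v 0) (.s (.c
  2) (.v 0)))) (.m (.c 20) (.m (.s (.c 1) (.v 0)) (.m (.v 4) (.s (.s (.s (.s (.m (.c 120) (.v 0))
  (.m (.c 7) (.v 4))) (.m (.c 28) (.v 1))) (.m (.c 9) (.v 2))) (.c 47)))))) (.m (.m (.v 4) (.s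
  (.s (.s (.s (.m (.c 120) (.v 0)) (.m (.c 7) (.v 4))) (.m (.c 28) (.v 1))) (.m (.c 9) (.v 2)))
  (.c 47))) (.m (.v 4) (.s (.s (.s (.s (.m (.c 120) (.v 0)) (.m (.c 7) (.v 4))) (.m (.c 28) (.v
  1))) (.m (.c 9) (.v 2))) (.c 47)))))) (.m (.s (.s (.c 5) (.m (.c 6) (.v 4))) (.m (.c 6) (.v
  0))) (.s (.m (.c 100) (.m (.v 0) (.v 0))) (.m (.m (.v 4) (.s (.s (.s (.s (.m (.c 120) (.v 0))
  (.m (.c 7) (.v 4))) (.m (.c 28) (.v 1))) (.m (.c 9) (.v 2))) (.c 47))) (.m (.v 4) (.s (.s (.s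
  (.s (.m (.c 120) (.v 0)) (.m (.c 7) (.v 4))) (.m (.c 28) (.v 1))) (.m (.c 9) (.v 2))) (.c
  47))))))) (.s (.c 1) (.v 3)))))))) (.m (.c 3600) (.m (.m (.a (.m (.c 5) (.m (.s (.s (.c 7) (.m
  (.c 4) (.a (.m (.v 0) (.s (.a (.c 1) (.v 2)) (.v 3))) (.v 1)))) (.m (.c 6) (.v 0))) (.v 1)))
  (.m (.c 6) (.v 3))) (.s (.a (.a (.a (.c 3) (.m (.c 30) (.v 4))) (.m (.c 20) (.a (.m (.v 0) (.s
  (.a (.c 1) (.v 2)) (.v 3))) (.v 1)))) (.m (.c 20) (.v 0))) (.m (.c 6) (.a (.m (.c 5) (.m (.s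
  (.s (.c 7) (.m (.c 4) (.a (.m (.v 0) (.s (.a (.c 1) (.v 2)) (.v 3))) (.v 1)))) (.m (.c 6) (.v
  0))) (.v 1))) (.m (.c 6) (.v 3)))))) (.v 4))))))) (.m (.c 720000) (.s (.m (.v 0) (.s (.a (.m
  (.v 1) (.v 1)) (.m (.c 2) (.m (.v 1) (.m (.s (.c 1) (.a (.m (.v 0) (.s (.a (.c 1) (.v 2)) (.v
  3))) (.v 1))) (.v 4))))) (.m (.m (.s (.c 1) (.a (.m (.v 0) (.s (.a (.c 1) (.v 2)) (.v 3))) (.v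
  1))) (.v 4)) (.m (.s (.c 1) (.a (.m (.v 0) (.s (.a (.c 1) (.v 2)) (.v 3))) (.v 1))) (.v 4)))))
  (.m (.c 2) (.m (.s (.a (.m (.v 0) (.v 4)) (.s (.c 1) (.v 0))) (.a (.m (.v 0) (.s (.a (.c 1) (.v
  2)) (.v 3))) (.v 1))) (.s (.a (.m (.s (.c 1) (.a (.m (.v 0) (.s (.a (.c 1) (.v 2)) (.v 3))) (.v
  1))) (.v 1)) (.m (.m (.v 0) (.a (.m (.v 0) (.s (.a (.c 1) (.v 2)) (.v 3))) (.v 1))) (.v 3)))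
  (.m (.v 0) (.s (.v 1) (.m (.s (.c 1) (.a (.m (.v 0) (.s (.a (.c 1) (.v 2)) (.v 3))) (.v 1)))
  (.v 4))))))))))

def I0_c0 : E :=
  (.s (.s (.m (.c 14) (.v 0)) (.c 1)) (.m (.c 10) (.a (.m (.v 0) (.s (.a (.c 1) (.v 2)) (.v 3)))
  (.v 1))))

def I0_c1 : E :=
  (.m (.v 3) (.s (.s (.m (.c 14) (.v 0)) (.c 1)) (.m (.c 10) (.a (.m (.v 0) (.s (.a (.c 1) (.v
  2)) (.v 3))) (.v 1)))))

def I1_p0 : E :=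
  (.s (.m (.c 3) (.a (.m (.c 720000) (.m (.m (.v 2) (.s (.c 1) (.v 0))) (.m (.s (.c 1) (.a (.m
  (.v 0) (.s (.a (.c 1) (.v 2)) (.v 3))) (.v 1))) (.v 4)))) (.m (.v 3) (.s (.s (.m (.c 200) (.a
  (.a (.m (.c 3600) (.s (.a (.a (.m (.s (.c 1) (.a (.m (.v 0) (.s (.a (.c 1) (.v 2)) (.v 3))) (.v
  1))) (.v 1)) (.m (.a (.m (.v 0) (.s (.a (.c 1) (.v 2)) (.v 3))) (.v 1)) (.s (.c 1) (.a (.m (.v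
  0) (.s (.a (.c 1) (.v 2)) (.v 3))) (.v 1))))) (.m (.m (.v 0) (.v 0)) (.s (.s (.a (.c 1) (.v 2))
  (.v 3)) (.v 4)))) (.m (.c 2) (.m (.m (.v 0) (.s (.c 1) (.v 0))) (.v 4))))) (.m (.c 1600) (.m
  (.m (.m (.m (.s (.c 1) (.v 0)) (.s (.c 1) (.v 0))) (.v 4)) (.v 4)) (.s (.c 6) (.m (.c 4) (.s
  (.s (.a (.c 1) (.v 2)) (.v 3)) (.v 4))))))) (.m (.c 9) (.m (.a (.c 1) (.m (.v 2) (.v 5))) (.s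
  (.m (.c 400) (.s (.s (.s (.c 1) (.v 3)) (.a (.m (.v 0) (.s (.a (.c 1) (.v 2)) (.v 3))) (.v 1)))
  (.m (.a (.m (.v 0) (.s (.a (.c 1) (.v 2)) (.v 3))) (.v 1)) (.s (.c 1) (.a (.m (.v 0) (.s (.a
  (.c 1) (.v 2)) (.v 3))) (.v 1)))))) (.m (.s (.m (.c 4) (.s (.s (.m (.c 100) (.m (.v 0) (.s (.c
  2) (.v 0)))) (.m (.c 20) (.m (.s (.c 1) (.v 0)) (.m (.v 4) (.s (.s (.s (.s (.m (.c 120) (.v 0))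
  (.m (.c 7) (.v 4))) (.m (.c 28) (.v 1))) (.m (.c 9) (.v 2))) (.c 47)))))) (.m (.m (.v 4) (.s
  (.s (.s (.s (.m (.c 120) (.v 0)) (.m (.c 7) (.v 4))) (.m (.c 28) (.v 1))) (.m (.c 9) (.v 2)))
  (.c 47))) (.m (.v 4) (.s (.s (.s (.s (.m (.c 120) (.v 0)) (.m (.c 7) (.v 4))) (.m (.c 28) (.v
  1))) (.m (.c 9) (.v 2))) (.c 47)))))) (.m (.s (.s (.c 5) (.m (.c 6) (.v 4))) (.m (.c 6) (.v
  0))) (.s (.m (.c 100) (.m (.v 0) (.v 0))) (.m (.m (.v 4) (.s (.s (.s (.s (.m (.c 120) (.v 0))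
  (.m (.c 7) (.v 4))) (.m (.c 28) (.v 1))) (.m (.c 9) (.v 2))) (.c 47))) (.m (.v 4) (.s (.s (.s
  (.s (.m (.c 120) (.v 0)) (.m (.c 7) (.v 4))) (.m (.c 28) (.v 1))) (.m (.c 9) (.v 2))) (.c
  47))))))) (.s (.c 1) (.v 3)))))))) (.m (.c 3600) (.m (.m (.a (.m (.c 5) (.m (.s (.s (.c 7) (.m
  (.c 4) (.a (.m (.v 0) (.s (.a (.c 1) (.v 2)) (.v 3))) (.v 1)))) (.m (.c 6) (.v 0))) (.v 1)))
  (.m (.c 6) (.v 3))) (.s (.a (.a (.a (.c 3) (.m (.c 30) (.v 4))) (.m (.c 20) (.a (.m (.v 0) (.s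
  (.a (.c 1) (.v 2)) (.v 3))) (.v 1)))) (.m (.c 20) (.v 0))) (.m (.c 6) (.a (.m (.c 5) (.m (.s
  (.s (.c 7) (.m (.c 4) (.a (.m (.v 0) (.s (.a (.c 1) (.v 2)) (.v 3))) (.v 1)))) (.m (.c 6) (.v
  0))) (.v 1))) (.m (.c 6) (.v 3)))))) (.v 4)))) (.m (.c 1440000) (.m (.a (.m (.v 0) (.s (.a (.c
  1) (.v 2)) (.v 3))) (.v 1)) (.s (.v 1) (.m (.s (.c 1) (.a (.m (.v 0) (.s (.a (.c 1) (.v 2)) (.v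
  3))) (.v 1))) (.v 4))))))))) (.m (.c 3600000) (.m (.m (.v 3) (.s (.s (.c 1) (.v 0)) (.a (.m (.v
  0) (.s (.a (.c 1) (.v 2)) (.v 3))) (.v 1)))) (.a (.m (.c 4) (.v 1)) (.v 3)))))

def I1_c0 : E :=
  (.m (.v 3) (.s (.s (.c 1) (.v 0)) (.a (.m (.v 0) (.s (.a (.c 1) (.v 2)) (.v 3))) (.v 1))))

def BK1_p0 : E :=
  (.a (.m (.s (.s (.m (.c 100) (.m (.m (.s (.c 20) (.m (.s (.s (.a (.c 23) (.m (.c 29) (.v 2)))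
  (.m (.c 30) (.v 0))) (.m (.c 26) (.v 4))) (.v 3))) (.s (.m (.c 100) (.m (.v 0) (.v 0))) (.m (.m
  (.v 4) (.s (.s (.s (.a (.m (.c 20) (.v 0)) (.c 3)) (.m (.c 12) (.v 4))) (.m (.c 19) (.v 1)))
  (.m (.c 10) (.v 2)))) (.m (.v 4) (.s (.s (.s (.a (.m (.c 20) (.v 0)) (.c 3)) (.m (.c 12) (.v
  4))) (.m (.c 19) (.v 1))) (.m (.c 10) (.v 2))))))) (.a (.c 1) (.m (.v 2) (.v 5))))) (.m (.c
  2000) (.m (.m (.m (.a (.m (.c 5) (.m (.s (.s (.c 3) (.m (.c 2) (.a (.m (.v 0) (.s (.a (.c 1)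
  (.v 2)) (.v 3))) (.v 1)))) (.m (.c 2) (.v 0))) (.v 1))) (.m (.c 3) (.v 3))) (.s (.s (.a (.a (.m
  (.c 28) (.v 4)) (.m (.c 30) (.a (.m (.v 0) (.s (.a (.c 1) (.v 2)) (.v 3))) (.v 1)))) (.m (.c
  30) (.v 0))) (.c 1)) (.m (.c 18) (.a (.m (.c 5) (.m (.s (.s (.c 3) (.m (.c 2) (.a (.m (.v 0)
  (.s (.a (.c 1) (.v 2)) (.v 3))) (.v 1)))) (.m (.c 2) (.v 0))) (.v 1))) (.m (.c 3) (.v 3))))))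
  (.s (.c 2) (.a (.c 1) (.m (.v 2) (.v 5))))) (.v 4)))) (.m (.c 200000) (.m (.m (.v 0) (.v 0))
  (.s (.a (.c 1) (.m (.v 2) (.v 5))) (.m (.s (.c 2) (.a (.c 1) (.m (.v 2) (.v 5)))) (.v 4))))))
  (.m (.s (.s (.a (.c 1) (.v 2)) (.v 3)) (.v 4)) (.s (.s (.a (.c 1) (.v 2)) (.v 3)) (.v 4)))) (.m
  (.c 200000) (.m (.m (.m (.m (.s (.c 1) (.v 0)) (.s (.c 1) (.v 0))) (.v 4)) (.v 4)) (.s (.a (.c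
  1) (.m (.v 2) (.v 5))) (.m (.s (.c 2) (.a (.c 1) (.m (.v 2) (.v 5)))) (.v 4))))))

def BK1_c0 : E :=
  (.s (.v 4) (.v 3))

def BK1_c1 : E :=
  (.s (.a (.m (.v 0) (.s (.a (.c 1) (.v 2)) (.v 3))) (.v 1)) (.s (.c 1) (.v 0)))

def BK1_c2 : E :=
  (.s (.m (.c 23) (.m (.v 0) (.v 1))) (.m (.c 20) (.a (.m (.s (.c 1) (.a (.m (.v 0) (.s (.a (.c
  1) (.v 2)) (.v 3))) (.v 1))) (.v 1)) (.m (.m (.v 0) (.a (.m (.v 0) (.s (.a (.c 1) (.v 2)) (.v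
  3))) (.v 1))) (.v 3)))))

def BK1_c3 : E :=
  (.s (.m (.v 0) (.s (.v 4) (.v 1))) (.m (.a (.m (.v 0) (.s (.a (.c 1) (.v 2)) (.v 3))) (.v 1))
  (.s (.a (.m (.v 0) (.s (.a (.c 1) (.v 2)) (.v 3))) (.v 1)) (.s (.c 1) (.v 0)))))

def BK3a_p0 : E :=
  (.s (.m (.c 2000) (.m (.s (.m (.v 0) (.s (.a (.c 1) (.v 2)) (.v 3))) (.v 4)) (.s (.m (.v 0) (.s
  (.a (.c 1) (.v 2)) (.v 3))) (.v 4)))) (.m (.a (.m (.c 100) (.m (.m (.m (.a (.c 1) (.m (.v 2)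
  (.v 5))) (.s (.s (.a (.c 23) (.m (.c 29) (.v 2))) (.m (.c 30) (.v 0))) (.m (.c 26) (.v 4))))
  (.v 0)) (.v 0))) (.m (.c 20) (.m (.m (.a (.m (.c 5) (.m (.s (.s (.c 3) (.m (.c 2) (.a (.m (.v
  0) (.s (.a (.c 1) (.v 2)) (.v 3))) (.v 1)))) (.m (.c 2) (.v 0))) (.v 1))) (.m (.c 3) (.v 3)))
  (.s (.s (.a (.a (.m (.c 28) (.v 4)) (.m (.c 30) (.a (.m (.v 0) (.s (.a (.c 1) (.v 2)) (.v 3)))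
  (.v 1)))) (.m (.c 30) (.v 0))) (.c 1)) (.m (.c 18) (.a (.m (.c 5) (.m (.s (.s (.c 3) (.m (.c 2)
  (.a (.m (.v 0) (.s (.a (.c 1) (.v 2)) (.v 3))) (.v 1)))) (.m (.c 2) (.v 0))) (.v 1))) (.m (.c
  3) (.v 3)))))) (.v 4)))) (.s (.s (.a (.c 1) (.v 2)) (.v 3)) (.v 4))))

def BK3a_c0 : E :=
  (.s (.m (.c 23) (.m (.v 0) (.v 1))) (.m (.c 20) (.a (.m (.s (.c 1) (.a (.m (.v 0) (.s (.a (.c
  1) (.v 2)) (.v 3))) (.v 1))) (.v 1)) (.m (.m (.v 0) (.a (.m (.v 0) (.s (.a (.c 1) (.v 2)) (.v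
  3))) (.v 1))) (.v 3)))))

def BK3a_c1 : E :=
  (.s (.m (.v 1) (.a (.c 10) (.m (.c 7) (.m (.s (.c 1) (.v 0)) (.s (.a (.c 1) (.v 2)) (.v 3))))))
  (.m (.c 10) (.m (.s (.c 1) (.a (.m (.v 0) (.s (.a (.c 1) (.v 2)) (.v 3))) (.v 1))) (.v 4))))

def BK3a_c2 : E :=
  (.s (.c 107) (.m (.c 200) (.a (.m (.v 0) (.s (.a (.c 1) (.v 2)) (.v 3))) (.v 1))))

def BK3b_p0 : E :=
  (.s (.m (.c 2000) (.m (.s (.m (.v 0) (.s (.a (.c 1) (.v 2)) (.v 3))) (.v 4)) (.s (.m (.v 0) (.s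
  (.a (.c 1) (.v 2)) (.v 3))) (.v 4)))) (.m (.a (.m (.c 100) (.m (.m (.m (.a (.c 1) (.m (.v 2)
  (.v 5))) (.s (.s (.a (.c 23) (.m (.c 29) (.v 2))) (.m (.c 30) (.v 0))) (.m (.c 26) (.v 4))))
  (.v 0)) (.v 0))) (.m (.c 20) (.m (.m (.a (.m (.c 5) (.m (.s (.s (.c 3) (.m (.c 2) (.a (.m (.v
  0) (.s (.a (.c 1) (.v 2)) (.v 3))) (.v 1)))) (.m (.c 2) (.v 0))) (.v 1))) (.m (.c 3) (.v 3)))
  (.s (.s (.a (.a (.m (.c 28) (.v 4)) (.m (.c 30) (.a (.m (.v 0) (.s (.a (.c 1) (.v 2)) (.v 3)))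
  (.v 1)))) (.m (.c 30) (.v 0))) (.c 1)) (.m (.c 18) (.a (.m (.c 5) (.m (.s (.s (.c 3) (.m (.c 2)
  (.a (.m (.v 0) (.s (.a (.c 1) (.v 2)) (.v 3))) (.v 1)))) (.m (.c 2) (.v 0))) (.v 1))) (.m (.c
  3) (.v 3)))))) (.v 4)))) (.s (.s (.a (.c 1) (.v 2)) (.v 3)) (.v 4))))

def BK3b_c0 : E :=
  (.s (.s (.m (.c 14) (.v 0)) (.c 1)) (.m (.c 10) (.a (.m (.v 0) (.s (.a (.c 1) (.v 2)) (.v 3)))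
  (.v 1))))

def BK3b_c1 : E :=
  (.s (.m (.v 1) (.a (.c 10) (.m (.c 7) (.m (.s (.c 1) (.v 0)) (.s (.a (.c 1) (.v 2)) (.v 3))))))
  (.m (.c 10) (.m (.s (.c 1) (.a (.m (.v 0) (.s (.a (.c 1) (.v 2)) (.v 3))) (.v 1))) (.v 4))))

def BK3b_c2 : E :=
  (.s (.s (.s (.c 73) (.m (.c 200) (.s (.c 1) (.m (.c 2) (.v 0))))) (.m (.c 100) (.a (.m (.v 0)
  (.s (.a (.c 1) (.v 2)) (.v 3))) (.v 1)))) (.m (.c 50) (.v 4)))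

def BK4a_p0 : E :=
  (.s (.m (.c 100) (.s (.m (.m (.m (.v 0) (.v 0)) (.s (.s (.a (.c 1) (.v 2)) (.v 3)) (.v 4))) (.s
  (.s (.a (.c 1) (.v 2)) (.v 3)) (.v 4))) (.m (.m (.m (.s (.c 1) (.v 0)) (.s (.c 1) (.v 0))) (.v
  4)) (.v 4)))) (.m (.m (.m (.a (.m (.c 5) (.m (.s (.s (.c 3) (.m (.c 2) (.a (.m (.v 0) (.s (.a
  (.c 1) (.v 2)) (.v 3))) (.v 1)))) (.m (.c 2) (.v 0))) (.v 1))) (.m (.c 3) (.v 3))) (.s (.s (.a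
  (.a (.m (.c 28) (.v 4)) (.m (.c 30) (.a (.m (.v 0) (.s (.a (.c 1) (.v 2)) (.v 3))) (.v 1))))
  (.m (.c 30) (.v 0))) (.c 1)) (.m (.c 18) (.a (.m (.c 5) (.m (.s (.s (.c 3) (.m (.c 2) (.a (.m
  (.v 0) (.s (.a (.c 1) (.v 2)) (.v 3))) (.v 1)))) (.m (.c 2) (.v 0))) (.v 1))) (.m (.c 3) (.v
  3)))))) (.s (.s (.a (.c 1) (.v 2)) (.v 3)) (.v 4))) (.s (.s (.a (.c 1) (.v 2)) (.v 3)) (.v
  4))))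

def BK4a_c0 : E :=
  (.s (.c 107) (.m (.c 200) (.a (.m (.v 0) (.s (.a (.c 1) (.v 2)) (.v 3))) (.v 1))))

def BK4b_p0 : E :=
  (.s (.m (.c 100) (.s (.m (.m (.m (.v 0) (.v 0)) (.s (.s (.a (.c 1) (.v 2)) (.v 3)) (.v 4))) (.s
  (.s (.a (.c 1) (.v 2)) (.v 3)) (.v 4))) (.m (.m (.m (.s (.c 1) (.v 0)) (.s (.c 1) (.v 0))) (.v
  4)) (.v 4)))) (.m (.m (.m (.a (.m (.c 5) (.m (.s (.s (.c 3) (.m (.c 2) (.a (.m (.v 0) (.s (.a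
  (.c 1) (.v 2)) (.v 3))) (.v 1)))) (.m (.c 2) (.v 0))) (.v 1))) (.m (.c 3) (.v 3))) (.s (.s (.a
  (.a (.m (.c 28) (.v 4)) (.m (.c 30) (.a (.m (.v 0) (.s (.a (.c 1) (.v 2)) (.v 3))) (.v 1))))
  (.m (.c 30) (.v 0))) (.c 1)) (.m (.c 18) (.a (.m (.c 5) (.m (.s (.s (.c 3) (.m (.c 2) (.a (.m
  (.v 0) (.s (.a (.c 1) (.v 2)) (.v 3))) (.v 1)))) (.m (.c 2) (.v 0))) (.v 1))) (.m (.c 3) (.v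
  3)))))) (.s (.s (.a (.c 1) (.v 2)) (.v 3)) (.v 4))) (.s (.s (.a (.c 1) (.v 2)) (.v 3)) (.v
  4))))

def BK4b_c0 : E :=
  (.s (.s (.s (.c 73) (.m (.c 200) (.s (.c 1) (.m (.c 2) (.v 0))))) (.m (.c 100) (.a (.m (.v 0)
  (.s (.a (.c 1) (.v 2)) (.v 3))) (.v 1)))) (.m (.c 50) (.v 4)))

def BK5_p0 : E :=
  (.a (.m (.s (.s (.m (.c 25) (.m (.m (.s (.c 20) (.s (.s (.a (.c 23) (.m (.c 29) (.v 2))) (.m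
  (.c 30) (.v 0))) (.m (.c 26) (.v 4)))) (.s (.m (.c 100) (.m (.v 0) (.v 0))) (.m (.m (.v 4) (.s
  (.s (.s (.a (.m (.c 20) (.v 0)) (.c 3)) (.m (.c 12) (.v 4))) (.m (.c 19) (.v 1))) (.m (.c 10)
  (.v 2)))) (.m (.v 4) (.s (.s (.s (.a (.m (.c 20) (.v 0)) (.c 3)) (.m (.c 12) (.v 4))) (.m (.c
  19) (.v 1))) (.m (.c 10) (.v 2))))))) (.a (.c 1) (.m (.v 2) (.v 5))))) (.m (.c 2000) (.m (.m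
  (.m (.c 32) (.m (.v 0) (.v 1))) (.s (.c 2) (.a (.c 1) (.m (.v 2) (.v 5))))) (.a (.m (.v 0) (.s
  (.a (.c 1) (.v 2)) (.v 3))) (.v 1))))) (.m (.c 50000) (.m (.m (.v 0) (.v 0)) (.s (.a (.c 1) (.m
  (.v 2) (.v 5))) (.m (.s (.c 2) (.a (.c 1) (.m (.v 2) (.v 5)))) (.s (.s (.m (.c 2) (.a (.m (.v
  0) (.s (.a (.c 1) (.v 2)) (.v 3))) (.v 1))) (.v 4)) (.s (.c 1) (.v 0)))))))) (.m (.s (.s (.a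
  (.c 1) (.v 2)) (.v 3)) (.s (.s (.m (.c 2) (.a (.m (.v 0) (.s (.a (.c 1) (.v 2)) (.v 3))) (.v
  1))) (.v 4)) (.s (.c 1) (.v 0)))) (.s (.s (.a (.c 1) (.v 2)) (.v 3)) (.s (.s (.m (.c 2) (.a (.m
  (.v 0) (.s (.a (.c 1) (.v 2)) (.v 3))) (.v 1))) (.v 4)) (.s (.c 1) (.v 0)))))) (.m (.c 50000)
  (.m (.m (.m (.m (.s (.c 1) (.v 0)) (.s (.c 1) (.v 0))) (.s (.s (.m (.c 2) (.a (.m (.v 0) (.s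
  (.a (.c 1) (.v 2)) (.v 3))) (.v 1))) (.v 4)) (.s (.c 1) (.v 0)))) (.s (.s (.m (.c 2) (.a (.m
  (.v 0) (.s (.a (.c 1) (.v 2)) (.v 3))) (.v 1))) (.v 4)) (.s (.c 1) (.v 0)))) (.s (.a (.c 1) (.m
  (.v 2) (.v 5))) (.m (.s (.c 2) (.a (.c 1) (.m (.v 2) (.v 5)))) (.s (.s (.m (.c 2) (.a (.m (.v
  0) (.s (.a (.c 1) (.v 2)) (.v 3))) (.v 1))) (.v 4)) (.s (.c 1) (.v 0))))))))

def BK5_c0 : E :=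
  (.s (.m (.v 1) (.a (.c 10) (.m (.c 7) (.m (.s (.c 1) (.v 0)) (.s (.a (.c 1) (.v 2)) (.v 3))))))
  (.m (.c 10) (.m (.s (.c 1) (.a (.m (.v 0) (.s (.a (.c 1) (.v 2)) (.v 3))) (.v 1))) (.v 4))))

def B5_p0 : E :=
  (.s (.a (.m (.c 50) (.a (.m (.c 1800000) (.s (.m (.v 0) (.m (.m (.v 2) (.s (.c 1) (.v 0))) (.m
  (.s (.c 1) (.a (.m (.v 0) (.s (.a (.c 1) (.v 2)) (.v 3))) (.v 1))) (.v 4)))) (.m (.m (.s (.c 1)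
  (.a (.m (.v 0) (.s (.a (.c 1) (.v 2)) (.v 3))) (.v 1))) (.v 1)) (.a (.v 1) (.s (.a (.m (.v 0)
  (.s (.a (.c 1) (.v 2)) (.v 3))) (.v 1)) (.s (.c 1) (.v 0))))))) (.m (.v 0) (.m (.v 3) (.s (.m
  (.c 100) (.a (.a (.m (.c 18000) (.s (.a (.a (.m (.s (.c 1) (.a (.m (.v 0) (.s (.a (.c 1) (.v
  2)) (.v 3))) (.v 1))) (.v 1)) (.m (.a (.m (.v 0) (.s (.a (.c 1) (.v 2)) (.v 3))) (.v 1)) (.s
  (.c 1) (.a (.m (.v 0) (.s (.a (.c 1) (.v 2)) (.v 3))) (.v 1))))) (.m (.m (.v 0) (.v 0)) (.s (.s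
  (.a (.c 1) (.v 2)) (.v 3)) (.v 4)))) (.m (.c 2) (.m (.m (.v 0) (.s (.c 1) (.v 0))) (.v 4)))))
  (.m (.c 8000) (.m (.m (.m (.m (.s (.c 1) (.v 0)) (.s (.c 1) (.v 0))) (.v 4)) (.v 4)) (.s (.c 6)
  (.m (.c 4) (.s (.s (.a (.c 1) (.v 2)) (.v 3)) (.v 4))))))) (.m (.c 9) (.m (.a (.c 1) (.m (.v 2)
  (.v 5))) (.s (.m (.c 2000) (.s (.s (.s (.c 1) (.v 3)) (.a (.m (.v 0) (.s (.a (.c 1) (.v 2)) (.v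
  3))) (.v 1))) (.m (.a (.m (.v 0) (.s (.a (.c 1) (.v 2)) (.v 3))) (.v 1)) (.s (.c 1) (.a (.m (.v
  0) (.s (.a (.c 1) (.v 2)) (.v 3))) (.v 1)))))) (.m (.s (.m (.c 20) (.s (.s (.m (.c 100) (.m (.v
  0) (.s (.c 2) (.v 0)))) (.m (.c 20) (.m (.s (.c 1) (.v 0)) (.m (.v 4) (.s (.s (.s (.a (.m (.c
  20) (.v 0)) (.c 3)) (.m (.c 12) (.v 4))) (.m (.c 19) (.v 1))) (.m (.c 10) (.v 2))))))) (.m (.m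
  (.v 4) (.s (.s (.s (.a (.m (.c 20) (.v 0)) (.c 3)) (.m (.c 12) (.v 4))) (.m (.c 19) (.v 1)))
  (.m (.c 10) (.v 2)))) (.m (.v 4) (.s (.s (.s (.a (.m (.c 20) (.v 0)) (.c 3)) (.m (.c 12) (.v
  4))) (.m (.c 19) (.v 1))) (.m (.c 10) (.v 2))))))) (.m (.s (.s (.a (.c 23) (.m (.c 29) (.v 2)))
  (.m (.c 30) (.v 0))) (.m (.c 26) (.v 4))) (.s (.m (.c 100) (.m (.v 0) (.v 0))) (.m (.m (.v 4)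
  (.s (.s (.s (.a (.m (.c 20) (.v 0)) (.c 3)) (.m (.c 12) (.v 4))) (.m (.c 19) (.v 1))) (.m (.c
  10) (.v 2)))) (.m (.v 4) (.s (.s (.s (.a (.m (.c 20) (.v 0)) (.c 3)) (.m (.c 12) (.v 4))) (.m
  (.c 19) (.v 1))) (.m (.c 10) (.v 2)))))))) (.s (.c 1) (.v 3)))))))) (.m (.c 18000) (.m (.m (.a
  (.m (.c 5) (.m (.s (.s (.c 3) (.m (.c 2) (.a (.m (.v 0) (.s (.a (.c 1) (.v 2)) (.v 3))) (.v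
  1)))) (.m (.c 2) (.v 0))) (.v 1))) (.m (.c 3) (.v 3))) (.s (.s (.a (.a (.m (.c 28) (.v 4)) (.m
  (.c 30) (.a (.m (.v 0) (.s (.a (.c 1) (.v 2)) (.v 3))) (.v 1)))) (.m (.c 30) (.v 0))) (.c 1))
  (.m (.c 18) (.a (.m (.c 5) (.m (.s (.s (.c 3) (.m (.c 2) (.a (.m (.v 0) (.s (.a (.c 1) (.v 2))
  (.v 3))) (.v 1)))) (.m (.c 2) (.v 0))) (.v 1))) (.m (.c 3) (.v 3)))))) (.v 4)))))))) (.m (.c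
  1800000) (.s (.m (.v 0) (.s (.m (.c 100) (.m (.v 1) (.v 1))) (.m (.c 64) (.m (.m (.v 3) (.v 1))
  (.a (.v 1) (.m (.v 0) (.a (.m (.v 0) (.s (.a (.c 1) (.v 2)) (.v 3))) (.v 1)))))))) (.m (.c 75)
  (.m (.m (.s (.c 1) (.m (.c 2) (.v 0))) (.v 1)) (.a (.m (.s (.c 1) (.a (.m (.v 0) (.s (.a (.c 1)
  (.v 2)) (.v 3))) (.v 1))) (.v 1)) (.m (.m (.v 0) (.a (.m (.v 0) (.s (.a (.c 1) (.v 2)) (.v 3)))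
  (.v 1))) (.v 3)))))))) (.m (.c 90000000) (.m (.m (.m (.v 0) (.s (.c 1) (.v 0))) (.v 2)) (.s (.m
  (.s (.c 1) (.a (.m (.v 0) (.s (.a (.c 1) (.v 2)) (.v 3))) (.v 1))) (.v 4)) (.v 1)))))

def B5_p1 : E :=
  (.a (.m (.c 50) (.a (.m (.c 1800000) (.s (.m (.v 0) (.m (.m (.v 2) (.s (.c 1) (.v 0))) (.m (.s
  (.c 1) (.a (.m (.v 0) (.s (.a (.c 1) (.v 2)) (.v 3))) (.v 1))) (.v 4)))) (.m (.m (.s (.c 1) (.a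
  (.m (.v 0) (.s (.a (.c 1) (.v 2)) (.v 3))) (.v 1))) (.v 1)) (.a (.v 1) (.s (.a (.m (.v 0) (.s
  (.a (.c 1) (.v 2)) (.v 3))) (.v 1)) (.s (.c 1) (.v 0))))))) (.m (.v 0) (.m (.v 3) (.s (.m (.c
  100) (.a (.a (.m (.c 18000) (.s (.a (.a (.m (.s (.c 1) (.a (.m (.v 0) (.s (.a (.c 1) (.v 2))
  (.v 3))) (.v 1))) (.v 1)) (.m (.a (.m (.v 0) (.s (.a (.c 1) (.v 2)) (.v 3))) (.v 1)) (.s (.c 1)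
  (.a (.m (.v 0) (.s (.a (.c 1) (.v 2)) (.v 3))) (.v 1))))) (.m (.m (.v 0) (.v 0)) (.s (.s (.a
  (.c 1) (.v 2)) (.v 3)) (.v 4)))) (.m (.c 2) (.m (.m (.v 0) (.s (.c 1) (.v 0))) (.v 4))))) (.m
  (.c 8000) (.m (.m (.m (.m (.s (.c 1) (.v 0)) (.s (.c 1) (.v 0))) (.v 4)) (.v 4)) (.s (.c 6) (.m
  (.c 4) (.s (.s (.a (.c 1) (.v 2)) (.v 3)) (.v 4))))))) (.m (.c 9) (.m (.a (.c 1) (.m (.v 2) (.v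
  5))) (.s (.m (.c 2000) (.s (.s (.s (.c 1) (.v 3)) (.a (.m (.v 0) (.s (.a (.c 1) (.v 2)) (.v
  3))) (.v 1))) (.m (.a (.m (.v 0) (.s (.a (.c 1) (.v 2)) (.v 3))) (.v 1)) (.s (.c 1) (.a (.m (.v
  0) (.s (.a (.c 1) (.v 2)) (.v 3))) (.v 1)))))) (.m (.s (.m (.c 20) (.s (.s (.m (.c 100) (.m (.v
  0) (.s (.c 2) (.v 0)))) (.m (.c 20) (.m (.s (.c 1) (.v 0)) (.m (.v 4) (.s (.s (.s (.a (.m (.c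
  20) (.v 0)) (.c 3)) (.m (.c 12) (.v 4))) (.m (.c 19) (.v 1))) (.m (.c 10) (.v 2))))))) (.m (.m
  (.v 4) (.s (.s (.s (.a (.m (.c 20) (.v 0)) (.c 3)) (.m (.c 12) (.v 4))) (.m (.c 19) (.v 1)))
  (.m (.c 10) (.v 2)))) (.m (.v 4) (.s (.s (.s (.a (.m (.c 20) (.v 0)) (.c 3)) (.m (.c 12) (.v
  4))) (.m (.c 19) (.v 1))) (.m (.c 10) (.v 2))))))) (.m (.s (.s (.a (.c 23) (.m (.c 29) (.v 2)))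
  (.m (.c 30) (.v 0))) (.m (.c 26) (.v 4))) (.s (.m (.c 100) (.m (.v 0) (.v 0))) (.m (.m (.v 4)
  (.s (.s (.s (.a (.m (.c 20) (.v 0)) (.c 3)) (.m (.c 12) (.v 4))) (.m (.c 19) (.v 1))) (.m (.c
  10) (.v 2)))) (.m (.v 4) (.s (.s (.s (.a (.m (.c 20) (.v 0)) (.c 3)) (.m (.c 12) (.v 4))) (.m
  (.c 19) (.v 1))) (.m (.c 10) (.v 2)))))))) (.s (.c 1) (.v 3)))))))) (.m (.c 18000) (.m (.m (.a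
  (.m (.c 5) (.m (.s (.s (.c 3) (.m (.c 2) (.a (.m (.v 0) (.s (.a (.c 1) (.v 2)) (.v 3))) (.v
  1)))) (.m (.c 2) (.v 0))) (.v 1))) (.m (.c 3) (.v 3))) (.s (.s (.a (.a (.m (.c 28) (.v 4)) (.m
  (.c 30) (.a (.m (.v 0) (.s (.a (.c 1) (.v 2)) (.v 3))) (.v 1)))) (.m (.c 30) (.v 0))) (.c 1))
  (.m (.c 18) (.a (.m (.c 5) (.m (.s (.s (.c 3) (.m (.c 2) (.a (.m (.v 0) (.s (.a (.c 1) (.v 2))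
  (.v 3))) (.v 1)))) (.m (.c 2) (.v 0))) (.v 1))) (.m (.c 3) (.v 3)))))) (.v 4)))))))) (.m (.c
  1800000) (.s (.m (.v 0) (.s (.m (.c 100) (.m (.v 1) (.v 1))) (.m (.c 64) (.m (.m (.v 3) (.v 1))
  (.a (.v 1) (.m (.v 0) (.a (.m (.v 0) (.s (.a (.c 1) (.v 2)) (.v 3))) (.v 1)))))))) (.m (.c 75)
  (.m (.m (.s (.c 1) (.m (.c 2) (.v 0))) (.v 1)) (.a (.m (.s (.c 1) (.a (.m (.v 0) (.s (.a (.c 1)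
  (.v 2)) (.v 3))) (.v 1))) (.v 1)) (.m (.m (.v 0) (.a (.m (.v 0) (.s (.a (.c 1) (.v 2)) (.v 3)))
  (.v 1))) (.v 3))))))))

def B5_c0 : E :=
  (.m (.v 3) (.s (.a (.m (.v 0) (.v 4)) (.s (.c 1) (.v 0))) (.a (.m (.v 0) (.s (.a (.c 1) (.v 2))
  (.v 3))) (.v 1))))

def B6_p0 : E :=
  (.s (.m (.c 600) (.m (.v 0) (.a (.m (.c 1800000) (.m (.m (.v 2) (.s (.c 1) (.v 0))) (.m (.s (.c
  1) (.a (.m (.v 0) (.s (.a (.c 1) (.v 2)) (.v 3))) (.v 1))) (.v 4)))) (.m (.v 3) (.s (.m (.c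
  100) (.a (.a (.m (.c 18000) (.s (.a (.a (.m (.s (.c 1) (.a (.m (.v 0) (.s (.a (.c 1) (.v 2))
  (.v 3))) (.v 1))) (.v 1)) (.m (.a (.m (.v 0) (.s (.a (.c 1) (.v 2)) (.v 3))) (.v 1)) (.s (.c 1)
  (.a (.m (.v 0) (.s (.a (.c 1) (.v 2)) (.v 3))) (.v 1))))) (.m (.m (.v 0) (.v 0)) (.s (.s (.a
  (.c 1) (.v 2)) (.v 3)) (.v 4)))) (.m (.c 2) (.m (.m (.v 0) (.s (.c 1) (.v 0))) (.v 4))))) (.m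
  (.c 8000) (.m (.m (.m (.m (.s (.c 1) (.v 0)) (.s (.c 1) (.v 0))) (.v 4)) (.v 4)) (.s (.c 6) (.m
  (.c 4) (.s (.s (.a (.c 1) (.v 2)) (.v 3)) (.v 4))))))) (.m (.c 9) (.m (.a (.c 1) (.m (.v 2) (.v
  5))) (.s (.m (.c 2000) (.s (.s (.s (.c 1) (.v 3)) (.a (.m (.v 0) (.s (.a (.c 1) (.v 2)) (.v
  3))) (.v 1))) (.m (.a (.m (.v 0) (.s (.a (.c 1) (.v 2)) (.v 3))) (.v 1)) (.s (.c 1) (.a (.m (.v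
  0) (.s (.a (.c 1) (.v 2)) (.v 3))) (.v 1)))))) (.m (.s (.m (.c 20) (.s (.s (.m (.c 100) (.m (.v
  0) (.s (.c 2) (.v 0)))) (.m (.c 20) (.m (.s (.c 1) (.v 0)) (.m (.v 4) (.s (.s (.s (.a (.m (.c
  20) (.v 0)) (.c 3)) (.m (.c 12) (.v 4))) (.m (.c 19) (.v 1))) (.m (.c 10) (.v 2))))))) (.m (.m
  (.v 4) (.s (.s (.s (.a (.m (.c 20) (.v 0)) (.c 3)) (.m (.c 12) (.v 4))) (.m (.c 19) (.v 1)))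
  (.m (.c 10) (.v 2)))) (.m (.v 4) (.s (.s (.s (.a (.m (.c 20) (.v 0)) (.c 3)) (.m (.c 12) (.v
  4))) (.m (.c 19) (.v 1))) (.m (.c 10) (.v 2))))))) (.m (.s (.s (.a (.c 23) (.m (.c 29) (.v 2)))
  (.m (.c 30) (.v 0))) (.m (.c 26) (.v 4))) (.s (.m (.c 100) (.m (.v 0) (.v 0))) (.m (.m (.v 4)
  (.s (.s (.s (.a (.m (.c 20) (.v 0)) (.c 3)) (.m (.c 12) (.v 4))) (.m (.c 19) (.v 1))) (.m (.c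
  10) (.v 2)))) (.m (.v 4) (.s (.s (.s (.a (.m (.c 20) (.v 0)) (.c 3)) (.m (.c 12) (.v 4))) (.m
  (.c 19) (.v 1))) (.m (.c 10) (.v 2)))))))) (.s (.c 1) (.v 3)))))))) (.m (.c 18000) (.m (.m (.a
  (.m (.c 5) (.m (.s (.s (.c 3) (.m (.c 2) (.a (.m (.v 0) (.s (.a (.c 1) (.v 2)) (.v 3))) (.v
  1)))) (.m (.c 2) (.v 0))) (.v 1))) (.m (.c 3) (.v 3))) (.s (.s (.a (.a (.m (.c 28) (.v 4)) (.m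
  (.c 30) (.a (.m (.v 0) (.s (.a (.c 1) (.v 2)) (.v 3))) (.v 1)))) (.m (.c 30) (.v 0))) (.c 1))
  (.m (.c 18) (.a (.m (.c 5) (.m (.s (.s (.c 3) (.m (.c 2) (.a (.m (.v 0) (.s (.a (.c 1) (.v 2))
  (.v 3))) (.v 1)))) (.m (.c 2) (.v 0))) (.v 1))) (.m (.c 3) (.v 3)))))) (.v 4)))))))) (.m (.c
  1800000) (.m (.v 3) (.a (.m (.c 768) (.m (.m (.v 0) (.v 1)) (.a (.v 1) (.m (.v 0) (.a (.m (.v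
  0) (.s (.a (.c 1) (.v 2)) (.v 3))) (.v 1)))))) (.m (.c 25) (.m (.a (.m (.v 0) (.s (.a (.c 1)
  (.v 2)) (.v 3))) (.v 1)) (.a (.m (.c 16) (.m (.m (.v 0) (.s (.v 1) (.m (.s (.c 1) (.a (.m (.v
  0) (.s (.a (.c 1) (.v 2)) (.v 3))) (.v 1))) (.v 4)))) (.s (.c 3) (.m (.c 5) (.s (.a (.m (.v 0)
  (.s (.a (.c 1) (.v 2)) (.v 3))) (.v 1)) (.v 0)))))) (.m (.c 99) (.m (.s (.c 1) (.m (.c 2) (.v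
  0))) (.s (.m (.v 0) (.s (.v 4) (.v 1))) (.m (.a (.m (.v 0) (.s (.a (.c 1) (.v 2)) (.v 3))) (.v
  1)) (.s (.a (.m (.v 0) (.s (.a (.c 1) (.v 2)) (.v 3))) (.v 1)) (.s (.c 1) (.v 0))))))))))))))

def B6_p1 : E :=
  (.a (.m (.c 600) (.m (.v 0) (.a (.m (.c 1800000) (.s (.m (.v 0) (.m (.m (.v 2) (.s (.c 1) (.v
  0))) (.m (.s (.c 1) (.a (.m (.v 0) (.s (.a (.c 1) (.v 2)) (.v 3))) (.v 1))) (.v 4)))) (.m (.m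
  (.s (.c 1) (.a (.m (.v 0) (.s (.a (.c 1) (.v 2)) (.v 3))) (.v 1))) (.v 1)) (.a (.v 1) (.s (.a
  (.m (.v 0) (.s (.a (.c 1) (.v 2)) (.v 3))) (.v 1)) (.s (.c 1) (.v 0))))))) (.m (.v 0) (.m (.v
  3) (.s (.m (.c 100) (.a (.a (.m (.c 18000) (.s (.a (.a (.m (.s (.c 1) (.a (.m (.v 0) (.s (.a
  (.c 1) (.v 2)) (.v 3))) (.v 1))) (.v 1)) (.m (.a (.m (.v 0) (.s (.a (.c 1) (.v 2)) (.v 3))) (.v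
  1)) (.s (.c 1) (.a (.m (.v 0) (.s (.a (.c 1) (.v 2)) (.v 3))) (.v 1))))) (.m (.m (.v 0) (.v 0))
  (.s (.s (.a (.c 1) (.v 2)) (.v 3)) (.v 4)))) (.m (.c 2) (.m (.m (.v 0) (.s (.c 1) (.v 0))) (.v
  4))))) (.m (.c 8000) (.m (.m (.m (.m (.s (.c 1) (.v 0)) (.s (.c 1) (.v 0))) (.v 4)) (.v 4)) (.s
  (.c 6) (.m (.c 4) (.s (.s (.a (.c 1) (.v 2)) (.v 3)) (.v 4))))))) (.m (.c 9) (.m (.a (.c 1) (.m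
  (.v 2) (.v 5))) (.s (.m (.c 2000) (.s (.s (.s (.c 1) (.v 3)) (.a (.m (.v 0) (.s (.a (.c 1) (.v
  2)) (.v 3))) (.v 1))) (.m (.a (.m (.v 0) (.s (.a (.c 1) (.v 2)) (.v 3))) (.v 1)) (.s (.c 1) (.a
  (.m (.v 0) (.s (.a (.c 1) (.v 2)) (.v 3))) (.v 1)))))) (.m (.s (.m (.c 20) (.s (.s (.m (.c 100)
  (.m (.v 0) (.s (.c 2) (.v 0)))) (.m (.c 20) (.m (.s (.c 1) (.v 0)) (.m (.v 4) (.s (.s (.s (.a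
  (.m (.c 20) (.v 0)) (.c 3)) (.m (.c 12) (.v 4))) (.m (.c 19) (.v 1))) (.m (.c 10) (.v 2)))))))
  (.m (.m (.v 4) (.s (.s (.s (.a (.m (.c 20) (.v 0)) (.c 3)) (.m (.c 12) (.v 4))) (.m (.c 19) (.v
  1))) (.m (.c 10) (.v 2)))) (.m (.v 4) (.s (.s (.s (.a (.m (.c 20) (.v 0)) (.c 3)) (.m (.c 12)
  (.v 4))) (.m (.c 19) (.v 1))) (.m (.c 10) (.v 2))))))) (.m (.s (.s (.a (.c 23) (.m (.c 29) (.v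
  2))) (.m (.c 30) (.v 0))) (.m (.c 26) (.v 4))) (.s (.m (.c 100) (.m (.v 0) (.v 0))) (.m (.m (.v
  4) (.s (.s (.s (.a (.m (.c 20) (.v 0)) (.c 3)) (.m (.c 12) (.v 4))) (.m (.c 19) (.v 1))) (.m
  (.c 10) (.v 2)))) (.m (.v 4) (.s (.s (.s (.a (.m (.c 20) (.v 0)) (.c 3)) (.m (.c 12) (.v 4)))
  (.m (.c 19) (.v 1))) (.m (.c 10) (.v 2)))))))) (.s (.c 1) (.v 3)))))))) (.m (.c 18000) (.m (.m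
  (.a (.m (.c 5) (.m (.s (.s (.c 3) (.m (.c 2) (.a (.m (.v 0) (.s (.a (.c 1) (.v 2)) (.v 3))) (.v
  1)))) (.m (.c 2) (.v 0))) (.v 1))) (.m (.c 3) (.v 3))) (.s (.s (.a (.a (.m (.c 28) (.v 4)) (.m
  (.c 30) (.a (.m (.v 0) (.s (.a (.c 1) (.v 2)) (.v 3))) (.v 1)))) (.m (.c 30) (.v 0))) (.c 1))
  (.m (.c 18) (.a (.m (.c 5) (.m (.s (.s (.c 3) (.m (.c 2) (.a (.m (.v 0) (.s (.a (.c 1) (.v 2))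
  (.v 3))) (.v 1)))) (.m (.c 2) (.v 0))) (.v 1))) (.m (.c 3) (.v 3)))))) (.v 4))))))))) (.m (.c
  1800000) (.s (.s (.m (.c 1200) (.m (.m (.m (.v 0) (.v 0)) (.v 1)) (.v 1))) (.m (.v 0) (.m (.m
  (.v 3) (.m (.c 768) (.m (.v 0) (.v 1)))) (.a (.v 1) (.m (.v 0) (.a (.m (.v 0) (.s (.a (.c 1)
  (.v 2)) (.v 3))) (.v 1))))))) (.m (.c 25) (.m (.a (.m (.c 16) (.m (.m (.v 0) (.s (.v 1) (.m (.s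
  (.c 1) (.a (.m (.v 0) (.s (.a (.c 1) (.v 2)) (.v 3))) (.v 1))) (.v 4)))) (.s (.c 3) (.m (.c 5)
  (.s (.a (.m (.v 0) (.s (.a (.c 1) (.v 2)) (.v 3))) (.v 1)) (.v 0)))))) (.m (.c 99) (.m (.s (.c
  1) (.m (.c 2) (.v 0))) (.s (.m (.v 0) (.s (.v 4) (.v 1))) (.m (.a (.m (.v 0) (.s (.a (.c 1) (.v
  2)) (.v 3))) (.v 1)) (.s (.a (.m (.v 0) (.s (.a (.c 1) (.v 2)) (.v 3))) (.v 1)) (.s (.c 1) (.v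
  0)))))))) (.a (.m (.s (.c 1) (.a (.m (.v 0) (.s (.a (.c 1) (.v 2)) (.v 3))) (.v 1))) (.v 1))
  (.m (.m (.v 0) (.a (.m (.v 0) (.s (.a (.c 1) (.v 2)) (.v 3))) (.v 1))) (.v 3))))))))

def B6_p2 : E :=
  (.a (.m (.c 600) (.m (.v 0) (.a (.m (.c 1800000) (.s (.m (.v 0) (.m (.m (.v 2) (.s (.c 1) (.v
  0))) (.m (.s (.c 1) (.a (.m (.v 0) (.s (.a (.c 1) (.v 2)) (.v 3))) (.v 1))) (.v 4)))) (.m (.m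
  (.s (.c 1) (.a (.m (.v 0) (.s (.a (.c 1) (.v 2)) (.v 3))) (.v 1))) (.v 1)) (.a (.v 1) (.s (.a
  (.m (.v 0) (.s (.a (.c 1) (.v 2)) (.v 3))) (.v 1)) (.s (.c 1) (.v 0))))))) (.m (.v 0) (.m (.v
  3) (.s (.m (.c 100) (.a (.a (.m (.c 18000) (.s (.a (.a (.m (.s (.c 1) (.a (.m (.v 0) (.s (.a
  (.c 1) (.v 2)) (.v 3))) (.v 1))) (.v 1)) (.m (.a (.m (.v 0) (.s (.a (.c 1) (.v 2)) (.v 3))) (.v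
  1)) (.s (.c 1) (.a (.m (.v 0) (.s (.a (.c 1) (.v 2)) (.v 3))) (.v 1))))) (.m (.m (.v 0) (.v 0))
  (.s (.s (.a (.c 1) (.v 2)) (.v 3)) (.v 4)))) (.m (.c 2) (.m (.m (.v 0) (.s (.c 1) (.v 0))) (.v
  4))))) (.m (.c 8000) (.m (.m (.m (.m (.s (.c 1) (.v 0)) (.s (.c 1) (.v 0))) (.v 4)) (.v 4)) (.s
  (.c 6) (.m (.c 4) (.s (.s (.a (.c 1) (.v 2)) (.v 3)) (.v 4))))))) (.m (.c 9) (.m (.a (.c 1) (.m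
  (.v 2) (.v 5))) (.s (.m (.c 2000) (.s (.s (.s (.c 1) (.v 3)) (.a (.m (.v 0) (.s (.a (.c 1) (.v
  2)) (.v 3))) (.v 1))) (.m (.a (.m (.v 0) (.s (.a (.c 1) (.v 2)) (.v 3))) (.v 1)) (.s (.c 1) (.a
  (.m (.v 0) (.s (.a (.c 1) (.v 2)) (.v 3))) (.v 1)))))) (.m (.s (.m (.c 20) (.s (.s (.m (.c 100)
  (.m (.v 0) (.s (.c 2) (.v 0)))) (.m (.c 20) (.m (.s (.c 1) (.v 0)) (.m (.v 4) (.s (.s (.s (.a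
  (.m (.c 20) (.v 0)) (.c 3)) (.m (.c 12) (.v 4))) (.m (.c 19) (.v 1))) (.m (.c 10) (.v 2)))))))
  (.m (.m (.v 4) (.s (.s (.s (.a (.m (.c 20) (.v 0)) (.c 3)) (.m (.c 12) (.v 4))) (.m (.c 19) (.v
  1))) (.m (.c 10) (.v 2)))) (.m (.v 4) (.s (.s (.s (.a (.m (.c 20) (.v 0)) (.c 3)) (.m (.c 12)
  (.v 4))) (.m (.c 19) (.v 1))) (.m (.c 10) (.v 2))))))) (.m (.s (.s (.a (.c 23) (.m (.c 29) (.v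
  2))) (.m (.c 30) (.v 0))) (.m (.c 26) (.v 4))) (.s (.m (.c 100) (.m (.v 0) (.v 0))) (.m (.m (.v
  4) (.s (.s (.s (.a (.m (.c 20) (.v 0)) (.c 3)) (.m (.c 12) (.v 4))) (.m (.c 19) (.v 1))) (.m
  (.c 10) (.v 2)))) (.m (.v 4) (.s (.s (.s (.a (.m (.c 20) (.v 0)) (.c 3)) (.m (.c 12) (.v 4)))
  (.m (.c 19) (.v 1))) (.m (.c 10) (.v 2)))))))) (.s (.c 1) (.v 3)))))))) (.m (.c 18000) (.m (.m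
  (.a (.m (.c 5) (.m (.s (.s (.c 3) (.m (.c 2) (.a (.m (.v 0) (.s (.a (.c 1) (.v 2)) (.v 3))) (.v
  1)))) (.m (.c 2) (.v 0))) (.v 1))) (.m (.c 3) (.v 3))) (.s (.s (.a (.a (.m (.c 28) (.v 4)) (.m
  (.c 30) (.a (.m (.v 0) (.s (.a (.c 1) (.v 2)) (.v 3))) (.v 1)))) (.m (.c 30) (.v 0))) (.c 1))
  (.m (.c 18) (.a (.m (.c 5) (.m (.s (.s (.c 3) (.m (.c 2) (.a (.m (.v 0) (.s (.a (.c 1) (.v 2))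
  (.v 3))) (.v 1)))) (.m (.c 2) (.v 0))) (.v 1))) (.m (.c 3) (.v 3)))))) (.v 4))))))))) (.m (.c
  1800000) (.s (.s (.m (.c 1200) (.m (.m (.m (.v 0) (.v 0)) (.v 1)) (.v 1))) (.m (.v 0) (.m (.m
  (.v 3) (.m (.c 2475) (.s (.m (.v 0) (.s (.v 4) (.v 1))) (.m (.a (.m (.v 0) (.s (.a (.c 1) (.v
  2)) (.v 3))) (.v 1)) (.s (.a (.m (.v 0) (.s (.a (.c 1) (.v 2)) (.v 3))) (.v 1)) (.s (.c 1) (.v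
  0))))))) (.a (.v 1) (.m (.v 0) (.a (.m (.v 0) (.s (.a (.c 1) (.v 2)) (.v 3))) (.v 1))))))) (.m
  (.c 25) (.m (.a (.m (.c 16) (.m (.m (.v 0) (.s (.v 1) (.m (.s (.c 1) (.a (.m (.v 0) (.s (.a (.c
  1) (.v 2)) (.v 3))) (.v 1))) (.v 4)))) (.s (.c 3) (.m (.c 5) (.s (.a (.m (.v 0) (.s (.a (.c 1)
  (.v 2)) (.v 3))) (.v 1)) (.v 0)))))) (.m (.c 99) (.m (.s (.c 1) (.m (.c 2) (.v 0))) (.s (.m (.v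
  0) (.s (.v 4) (.v 1))) (.m (.a (.m (.v 0) (.s (.a (.c 1) (.v 2)) (.v 3))) (.v 1)) (.s (.a (.m
  (.v 0) (.s (.a (.c 1) (.v 2)) (.v 3))) (.v 1)) (.s (.c 1) (.v 0)))))))) (.a (.m (.s (.c 1) (.a
  (.m (.v 0) (.s (.a (.c 1) (.v 2)) (.v 3))) (.v 1))) (.v 1)) (.m (.m (.v 0) (.a (.m (.v 0) (.s
  (.a (.c 1) (.v 2)) (.v 3))) (.v 1))) (.v 3))))))))

def B6_c0 : E :=
  (.m (.v 1) (.s (.s (.a (.m (.v 0) (.v 4)) (.s (.c 1) (.v 0))) (.a (.m (.v 0) (.s (.a (.c 1) (.v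
  2)) (.v 3))) (.v 1))) (.s (.v 1) (.m (.s (.c 1) (.a (.m (.v 0) (.s (.a (.c 1) (.v 2)) (.v 3)))
  (.v 1))) (.v 4)))))

def B6_c1 : E :=
  (.m (.v 3) (.s (.v 1) (.m (.s (.c 1) (.a (.m (.v 0) (.s (.a (.c 1) (.v 2)) (.v 3))) (.v 1)))
  (.v 4))))

def B6_c2 : E :=
  (.m (.v 3) (.s (.s (.a (.m (.v 0) (.v 4)) (.s (.c 1) (.v 0))) (.a (.m (.v 0) (.s (.a (.c 1) (.v
  2)) (.v 3))) (.v 1))) (.s (.v 1) (.m (.s (.c 1) (.a (.m (.v 0) (.s (.a (.c 1) (.v 2)) (.v 3)))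
  (.v 1))) (.v 4)))))

def B6_c3 : E :=
  (.m (.v 3) (.s (.m (.c 23) (.m (.v 0) (.v 1))) (.m (.c 20) (.a (.m (.s (.c 1) (.a (.m (.v 0)
  (.s (.a (.c 1) (.v 2)) (.v 3))) (.v 1))) (.v 1)) (.m (.m (.v 0) (.a (.m (.v 0) (.s (.a (.c 1)
  (.v 2)) (.v 3))) (.v 1))) (.v 3))))))

def B6_c4 : E :=
  (.m (.v 2) (.s (.v 4) (.v 3)))

def sb2_p0 : E :=
  (.s (.s (.c 17) (.m (.c 30) (.v 0))) (.m (.c 30) (.v 1)))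

def sb2_c0 : E :=
  (.s (.s (.c 1) (.v 0)) (.a (.m (.v 0) (.s (.a (.c 1) (.v 2)) (.v 3))) (.v 1)))

def sb3_p0 : E :=
  (.s (.s (.c 17) (.m (.c 30) (.v 0))) (.m (.c 30) (.v 1)))

def sb3_c0 : E :=
  (.s (.m (.c 20) (.a (.m (.s (.c 1) (.a (.m (.v 0) (.s (.a (.c 1) (.v 2)) (.v 3))) (.v 1))) (.v
  1)) (.m (.m (.v 0) (.a (.m (.v 0) (.s (.a (.c 1) (.v 2)) (.v 3))) (.v 1))) (.v 3)))) (.m (.c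
  23) (.m (.v 0) (.v 1))))

def sb7_p0 : E :=
  (.s (.s (.c 17) (.m (.c 30) (.v 0))) (.m (.c 30) (.v 1)))

def sb7_c0 : E :=
  (.s (.c 107) (.m (.c 200) (.a (.m (.v 0) (.s (.a (.c 1) (.v 2)) (.v 3))) (.v 1))))

def f0_p0 : E :=
  (.s (.m (.v 0) (.s (.c 1) (.a (.m (.v 0) (.s (.a (.c 1) (.v 2)) (.v 3))) (.v 1)))) (.m (.v 1)
  (.s (.a (.m (.c 2) (.v 0)) (.c 1)) (.a (.m (.v 0) (.s (.a (.c 1) (.v 2)) (.v 3))) (.v 1)))))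

def f0_c0 : E :=
  (.s (.s (.c 1) (.v 0)) (.a (.m (.v 0) (.s (.a (.c 1) (.v 2)) (.v 3))) (.v 1)))

def Lq_p0 : E :=
  (.s (.m (.a (.m (.v 0) (.s (.a (.c 1) (.v 2)) (.v 3))) (.v 1)) (.s (.c 1) (.a (.m (.v 0) (.s
  (.a (.c 1) (.v 2)) (.v 3))) (.v 1)))) (.m (.m (.a (.s (.c 3) (.m (.c 18) (.s (.c 1) (.m (.c 2)
  (.v 0))))) (.m (.c 90) (.m (.s (.c 1) (.m (.c 2) (.v 0))) (.s (.c 1) (.m (.c 2) (.v 0)))))) (.s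
  (.a (.m (.v 0) (.s (.a (.c 1) (.v 2)) (.v 3))) (.v 1)) (.v 4))) (.v 0)))

def Lq_c0 : E :=
  (.s (.c 107) (.m (.c 200) (.a (.m (.v 0) (.s (.a (.c 1) (.v 2)) (.v 3))) (.v 1))))

def Lq_c1 : E :=
  (.s (.a (.m (.c 100) (.v 4)) (.c 63)) (.m (.c 200) (.v 0)))

def f2_p0 : E :=
  (.s (.m (.c 3) (.a (.s (.s (.c 1) (.a (.m (.v 0) (.s (.a (.c 1) (.v 2)) (.v 3))) (.v 1))) (.m
  (.c 2) (.v 1))) (.m (.s (.a (.m (.v 0) (.s (.a (.c 1) (.v 2)) (.v 3))) (.v 1)) (.s (.c 1) (.v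
  0))) (.s (.c 1) (.v 4))))) (.m (.c 20) (.m (.v 0) (.v 1))))

def f2_c0 : E :=
  (.s (.s (.c 1) (.v 0)) (.a (.m (.v 0) (.s (.a (.c 1) (.v 2)) (.v 3))) (.v 1)))

def hI_p0 : E :=
  (.s (.c 3) (.m (.c 10) (.v 4)))

def hI_c0 : E :=
  (.s (.v 1) (.m (.s (.c 1) (.a (.m (.v 0) (.s (.a (.c 1) (.v 2)) (.v 3))) (.v 1))) (.v 4)))

def hI_c1 : E :=
  (.s (.s (.m (.c 14) (.v 0)) (.c 1)) (.m (.c 10) (.a (.m (.v 0) (.s (.a (.c 1) (.v 2)) (.v 3)))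
  (.v 1))))

def hBa_p0 : E :=
  (.s (.c 4) (.m (.c 13) (.v 4)))

def hBa_c0 : E :=
  (.s (.m (.v 1) (.a (.c 10) (.m (.c 7) (.m (.s (.c 1) (.v 0)) (.s (.a (.c 1) (.v 2)) (.v 3))))))
  (.m (.c 10) (.m (.s (.c 1) (.a (.m (.v 0) (.s (.a (.c 1) (.v 2)) (.v 3))) (.v 1))) (.v 4))))

def hBa_c1 : E :=
  (.s (.c 107) (.m (.c 200) (.a (.m (.v 0) (.s (.a (.c 1) (.v 2)) (.v 3))) (.v 1))))

def hBb_p0 : E :=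
  (.s (.c 4) (.m (.c 13) (.v 4)))

def hBb_c0 : E :=
  (.s (.m (.v 1) (.a (.c 10) (.m (.c 7) (.m (.s (.c 1) (.v 0)) (.s (.a (.c 1) (.v 2)) (.v 3))))))
  (.m (.c 10) (.m (.s (.c 1) (.a (.m (.v 0) (.s (.a (.c 1) (.v 2)) (.v 3))) (.v 1))) (.v 4))))

def hBb_c1 : E :=
  (.s (.s (.s (.c 73) (.m (.c 200) (.s (.c 1) (.m (.c 2) (.v 0))))) (.m (.c 100) (.a (.m (.v 0)
  (.s (.a (.c 1) (.v 2)) (.v 3))) (.v 1)))) (.m (.c 50) (.v 4)))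

def rd_p0 : E :=
  (.s (.m (.c 10) (.s (.a (.m (.v 0) (.s (.a (.c 1) (.v 2)) (.v 3))) (.v 1)) (.v 4))) (.m (.v 1)
  (.a (.c 10) (.m (.c 7) (.m (.s (.c 1) (.v 0)) (.s (.a (.c 1) (.v 2)) (.v 3)))))))

def w2_p0 : E :=
  (.s (.m (.c 2) (.m (.s (.a (.m (.v 0) (.s (.a (.c 1) (.v 2)) (.v 3))) (.v 1)) (.v 4)) (.v 0)))
  (.m (.a (.m (.v 0) (.s (.a (.c 1) (.v 2)) (.v 3))) (.v 1)) (.s (.c 1) (.a (.m (.v 0) (.s (.a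
  (.c 1) (.v 2)) (.v 3))) (.v 1)))))

def w2_c0 : E :=
  (.s (.v 1) (.m (.s (.c 1) (.a (.m (.v 0) (.s (.a (.c 1) (.v 2)) (.v 3))) (.v 1))) (.v 4)))

def hL_p0 : E :=
  (.s (.m (.c 25) (.v 1)) (.m (.c 32) (.m (.v 3) (.a (.v 1) (.m (.v 0) (.a (.m (.v 0) (.s (.a (.c
  1) (.v 2)) (.v 3))) (.v 1)))))))

def hL_c0 : E :=
  (.s (.m (.c 23) (.m (.v 0) (.v 1))) (.m (.c 20) (.a (.m (.s (.c 1) (.a (.m (.v 0) (.s (.a (.c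
  1) (.v 2)) (.v 3))) (.v 1))) (.v 1)) (.m (.m (.v 0) (.a (.m (.v 0) (.s (.a (.c 1) (.v 2)) (.v
  3))) (.v 1))) (.v 3)))))

def nB_p0 : E :=
  (.s (.m (.a (.m (.c 5) (.m (.s (.s (.c 3) (.m (.c 2) (.a (.m (.v 0) (.s (.a (.c 1) (.v 2)) (.v
  3))) (.v 1)))) (.m (.c 2) (.v 0))) (.v 1))) (.m (.c 3) (.v 3))) (.s (.s (.a (.a (.m (.c 28) (.v
  4)) (.m (.c 30) (.a (.m (.v 0) (.s (.a (.c 1) (.v 2)) (.v 3))) (.v 1)))) (.m (.c 30) (.v 0)))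
  (.c 1)) (.m (.c 18) (.a (.m (.c 5) (.m (.s (.s (.c 3) (.m (.c 2) (.a (.m (.v 0) (.s (.a (.c 1)
  (.v 2)) (.v 3))) (.v 1)))) (.m (.c 2) (.v 0))) (.v 1))) (.m (.c 3) (.v 3)))))) (.m (.c 128) (.m
  (.v 0) (.v 1))))

def nI_p0 : E :=
  (.m (.a (.m (.c 5) (.m (.s (.s (.c 7) (.m (.c 4) (.a (.m (.v 0) (.s (.a (.c 1) (.v 2)) (.v 3)))
  (.v 1)))) (.m (.c 6) (.v 0))) (.v 1))) (.m (.c 6) (.v 3))) (.s (.a (.a (.a (.c 3) (.m (.c 30)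
  (.v 4))) (.m (.c 20) (.a (.m (.v 0) (.s (.a (.c 1) (.v 2)) (.v 3))) (.v 1)))) (.m (.c 20) (.v
  0))) (.m (.c 6) (.a (.m (.c 5) (.m (.s (.s (.c 7) (.m (.c 4) (.a (.m (.v 0) (.s (.a (.c 1) (.v
  2)) (.v 3))) (.v 1)))) (.m (.c 6) (.v 0))) (.v 1))) (.m (.c 6) (.v 3))))))

def kc_p0 : E :=
  (.s (.m (.c 400) (.v 0)) (.m (.c 121) (.a (.m (.c 2) (.a (.m (.s (.c 1) (.a (.m (.v 0) (.s (.a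
  (.c 1) (.v 2)) (.v 3))) (.v 1))) (.v 1)) (.m (.m (.v 0) (.a (.m (.v 0) (.s (.a (.c 1) (.v 2))
  (.v 3))) (.v 1))) (.v 3)))) (.m (.a (.m (.v 0) (.s (.a (.c 1) (.v 2)) (.v 3))) (.v 1)) (.s (.c
  1) (.a (.m (.v 0) (.s (.a (.c 1) (.v 2)) (.v 3))) (.v 1)))))))

def r1_p0 : E :=
  (.s (.c 7) (.m (.c 5) (.a (.m (.c 5) (.m (.s (.s (.c 7) (.m (.c 4) (.a (.m (.v 0) (.s (.a (.c
  1) (.v 2)) (.v 3))) (.v 1)))) (.m (.c 6) (.v 0))) (.v 1))) (.m (.c 6) (.v 3)))))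

def r2_p0 : E :=
  (.s (.c 7) (.m (.c 10) (.a (.m (.c 5) (.m (.s (.s (.c 3) (.m (.c 2) (.a (.m (.v 0) (.s (.a (.c
  1) (.v 2)) (.v 3))) (.v 1)))) (.m (.c 2) (.v 0))) (.v 1))) (.m (.c 3) (.v 3)))))

def mL_p0 : E :=
  (.s (.m (.c 20) (.v 0)) (.m (.v 4) (.s (.s (.s (.a (.m (.c 132) (.v 0)) (.m (.c 90) (.v 1)))
  (.m (.c 45) (.v 4))) (.m (.c 32) (.v 2))) (.c 39))))

def mA_p0 : E :=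
  (.s (.m (.c 20) (.v 0)) (.m (.v 4) (.s (.m (.c 2) (.v 0)) (.v 4))))

def mI_p0 : E :=
  (.s (.m (.c 10) (.v 0)) (.m (.v 4) (.s (.s (.s (.s (.m (.c 120) (.v 0)) (.m (.c 7) (.v 4))) (.m
  (.c 28) (.v 1))) (.m (.c 9) (.v 2))) (.c 47))))

def mB_p0 : E :=
  (.s (.m (.c 10) (.v 0)) (.m (.v 4) (.s (.s (.s (.a (.m (.c 20) (.v 0)) (.c 3)) (.m (.c 12) (.v
  4))) (.m (.c 19) (.v 1))) (.m (.c 10) (.v 2)))))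

def mB0_p0 : E :=
  (.m (.v 4) (.s (.s (.s (.a (.m (.c 20) (.v 0)) (.c 3)) (.m (.c 12) (.v 4))) (.m (.c 19) (.v
  1))) (.m (.c 10) (.v 2))))

def N1_p0 : E :=
  (.s (.m (.m (.s (.a (.a (.a (.c 3) (.m (.c 30) (.v 2))) (.m (.c 20) (.v 1))) (.m (.c 20) (.v
  0))) (.m (.c 60) (.v 3))) (.v 4)) (.m (.a (.m (.s (.c 1) (.v 0)) (.a (.m (.v 4) (.s (.v 1) (.v
  2))) (.m (.s (.c 2) (.v 4)) (.m (.s (.c 1) (.v 1)) (.v 2))))) (.m (.v 3) (.v 1))) (.a (.m (.s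
  (.c 1) (.v 0)) (.a (.m (.v 4) (.s (.v 1) (.v 2))) (.m (.s (.c 2) (.v 4)) (.m (.s (.c 1) (.v 1))
  (.v 2))))) (.m (.v 3) (.v 1))))) (.m (.c 20) (.m (.m (.v 1) (.s (.m (.c 2) (.m (.v 0) (.a (.m
  (.s (.c 1) (.v 0)) (.a (.m (.v 4) (.s (.v 1) (.v 2))) (.m (.s (.c 2) (.v 4)) (.m (.s (.c 1) (.v
  1)) (.v 2))))) (.m (.v 3) (.v 1))))) (.m (.v 3) (.v 1)))) (.s (.v 4) (.m (.s (.c 2) (.v 4)) (.s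
  (.s (.c 1) (.v 1)) (.v 3)))))))

def N1_c0 : E :=
  (.s (.m (.v 1) (.s (.c 1) (.v 1))) (.m (.v 0) (.a (.m (.v 4) (.s (.v 1) (.v 2))) (.m (.s (.c 2)
  (.v 4)) (.m (.s (.c 1) (.v 1)) (.v 2))))))

def N1_c1 : E :=
  (.s (.m (.c 2) (.v 3)) (.m (.s (.s (.c 7) (.m (.c 4) (.v 1))) (.m (.c 6) (.v 0))) (.m (.s (.c
  1) (.v 1)) (.v 2))))

def N1_c2 : E :=
  (.s (.a (.m (.s (.s (.c 7) (.m (.c 4) (.v 1))) (.m (.c 6) (.v 0))) (.a (.m (.c 1000) (.s (.v 1)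
  (.v 0))) (.c 15))) (.c 36)) (.m (.c 2000) (.v 3)))

def N2_p0 : E :=
  (.s (.s (.m (.m (.s (.s (.a (.a (.m (.c 28) (.v 2)) (.m (.c 30) (.v 1))) (.m (.c 30) (.v 0)))
  (.c 1)) (.m (.c 90) (.v 3))) (.v 4)) (.m (.a (.m (.s (.c 1) (.v 0)) (.a (.m (.v 4) (.s (.v 1)
  (.v 2))) (.m (.s (.c 2) (.v 4)) (.m (.s (.c 1) (.v 1)) (.v 2))))) (.m (.v 3) (.v 1))) (.a (.m
  (.s (.c 1) (.v 0)) (.a (.m (.v 4) (.s (.v 1) (.v 2))) (.m (.s (.c 2) (.v 4)) (.m (.s (.c 1) (.v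
  1)) (.v 2))))) (.m (.v 3) (.v 1))))) (.m (.c 20) (.m (.m (.v 1) (.s (.m (.c 2) (.m (.v 0) (.a
  (.m (.s (.c 1) (.v 0)) (.a (.m (.v 4) (.s (.v 1) (.v 2))) (.m (.s (.c 2) (.v 4)) (.m (.s (.c 1)
  (.v 1)) (.v 2))))) (.m (.v 3) (.v 1))))) (.m (.v 3) (.v 1)))) (.s (.v 4) (.m (.s (.c 2) (.v 4))
  (.s (.s (.c 1) (.v 1)) (.v 3))))))) (.m (.c 22) (.m (.m (.m (.v 0) (.s (.c 2) (.v 4))) (.s (.c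
  1) (.v 1))) (.m (.a (.m (.s (.c 1) (.v 0)) (.a (.m (.v 4) (.s (.v 1) (.v 2))) (.m (.s (.c 2)
  (.v 4)) (.m (.s (.c 1) (.v 1)) (.v 2))))) (.m (.v 3) (.v 1))) (.a (.m (.s (.c 1) (.v 0)) (.a
  (.m (.v 4) (.s (.v 1) (.v 2))) (.m (.s (.c 2) (.v 4)) (.m (.s (.c 1) (.v 1)) (.v 2))))) (.m (.v
  3) (.v 1)))))))

def N2_c0 : E :=
  (.s (.m (.v 1) (.s (.c 1) (.v 1))) (.m (.v 0) (.a (.m (.v 4) (.s (.v 1) (.v 2))) (.m (.s (.c 2)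
  (.v 4)) (.m (.s (.c 1) (.v 1)) (.v 2))))))

def N2_c1 : E :=
  (.s (.s (.m (.c 14) (.v 0)) (.c 1)) (.m (.c 10) (.v 1)))

def N2_c2 : E :=
  (.s (.m (.v 3) (.a (.m (.c 10) (.v 0)) (.m (.c 7) (.m (.s (.c 1) (.v 0)) (.v 1))))) (.m (.c 10)
  (.m (.m (.v 0) (.s (.s (.c 3) (.m (.c 2) (.v 1))) (.m (.c 2) (.v 0)))) (.m (.s (.c 1) (.v 1))
  (.v 2)))))

def N2_c3 : E :=
  (.s (.a (.m (.s (.s (.c 3) (.m (.c 2) (.v 1))) (.m (.c 2) (.v 0))) (.a (.m (.c 1000) (.s (.v 1)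
  (.v 0))) (.c 15))) (.c 18)) (.m (.c 1000) (.v 3)))

def N2_c4 : E :=
  (.s (.m (.c 8) (.v 2)) (.m (.c 5) (.v 3)))

def NQ_p0 : E :=
  (.s (.m (.v 0) (.a (.m (.s (.c 1) (.v 0)) (.a (.m (.v 4) (.s (.v 1) (.v 2))) (.m (.s (.c 2) (.v
  4)) (.m (.s (.c 1) (.v 1)) (.v 2))))) (.m (.v 3) (.v 1)))) (.m (.v 3) (.v 1)))

def HS_p0 : E :=
  (.s (.m (.s (.c 400) (.m (.c 253) (.v 0))) (.a (.s (.c 1) (.m (.v 1) (.v 3))) (.m (.m (.v 3)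
  (.s (.c 1) (.v 0))) (.v 2)))) (.m (.c 10) (.m (.s (.c 1) (.m (.v 1) (.v 3))) (.a (.c 20) (.m
  (.c 23) (.m (.v 3) (.s (.m (.c 2) (.v 0)) (.m (.v 1) (.v 3)))))))))

def HY_p0 : E :=
  (.s (.m (.c 200) (.s (.c 25) (.m (.c 16) (.v 1)))) (.m (.c 253) (.m (.v 0) (.a (.s (.c 25) (.m
  (.c 16) (.v 1))) (.m (.c 16) (.m (.s (.c 1) (.v 0)) (.v 2)))))))

def NT_p0 : E :=
  (.s (.s (.m (.c 440) (.m (.v 0) (.a (.s (.a (.m (.c 2) (.v 0)) (.m (.c 2) (.v 1))) (.c 1)) (.v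
  2)))) (.m (.c 121) (.a (.m (.v 0) (.s (.m (.c 2) (.v 2)) (.m (.a (.v 1) (.v 2)) (.s (.s (.c 1)
  (.v 1)) (.v 2))))) (.m (.v 1) (.s (.c 1) (.v 1)))))) (.m (.c 400) (.v 0)))

def NT_c0 : E :=
  (.s (.a (.v 1) (.v 0)) (.c 1))

end Pool.Agent.Lib.MP_43bc59_co.F_SC
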