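import Pool.Agent.Lib.MP_43bc59_co.F_SC_0

set_option autoImplicit false
set_option maxRecDepth 100000

namespace Pool.Agent.Lib.MP_43bc59_co.F_SC

open Bx

theorem LK1_b5 : G [LK1_p0] [LK1_c0, LK1_c1, LK1_c2, LK1_c3] 6 [93, 0, 0, 0, 0, 20] [100, 11, 6, 3, 7, 23] [200, 200, 50, 100, 200, 20] :=
  G.leaf 276 5388953966483048110822464710246400000000000000000000000000 [3, 3, 6, 3, 7, 1]
    (.nd 3 (.nd 4 (.nd 3 (.lf [1, -1731, 0, -50, 0]) (.nd 3 (.lf [1, -1588, 0, -40, 0]) (.nd 4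
    (.lf [1, 0, 0, 0, 0]) (.nd 2 (.lf [1, -1584, 0, 0, 0]) (.nd 4 (.lf [1, 0, 0, 0, 0]) (.nd 2
    (.lf [1, -1729, 0, 0, 0]) (.nd 0 (.lf [1, -1733, 0, 0, 0]) (.lf [1, 0, 0, -3416, 0]))))))))
    (.lf [1, 0, 0, 0, 0])) (.lf [1, -1499, 0, -143, 0]))
    (by decide +kernel)

theorem LK1_b6 : G [LK1_p0] [LK1_c0, LK1_c1, LK1_c2, LK1_c3] 6 [93, 0, 6, 0, 0, 20] [100, 11, 12, 3, 7, 23] [200, 200, 50, 100, 200, 20] :=
  G.leaf 260 7429232316947923572556543898419200000000000000000000000000 [3, 3, 6, 3, 7, 1]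
    (.nd 0 (.nd 1 (.nd 1 (.lf [1, -1287, 0, -694, 0]) (.nd 3 (.nd 2 (.nd 0 (.lf [1, -1466, 0,
    -268, 0]) (.nd 4 (.nd 4 (.lf [1, -1412, 0, -105, 0]) (.lf [1, -1771, 0, 0, 0])) (.lf [1, 0,
    0, 0, 0]))) (.lf [1, -1522, 0, -365, 0])) (.nd 4 (.lf [1, -1884, 0, -281, 0]) (.nd 2 (.lf [1,
    -1516, 0, -159, 0]) (.lf [1, -1504, -20, -292, 0]))))) (.lf [1, -1271, 0, -679, 0])) (.lf [1,
    -1384, 0, -694, 0]))
    (by decide +kernel)

theorem LK1_b7 : G [LK1_p0] [LK1_c0, LK1_c1, LK1_c2, LK1_c3] 6 [93, 11, 0, 0, 0, 20] [100, 22, 6, 3, 7, 23] [200, 200, 25, 100, 200, 20] :=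
  G.leaf 198 99438086152538098915986407424000000000000000000000000000 [3, 3, 6, 3, 7, 1]
    (.lf [1, -921, 0, -834, 0])
    (by decide +kernel)

theorem LK1_b8 : G [LK1_p0] [LK1_c0, LK1_c1, LK1_c2, LK1_c3] 6 [93, 0, 0, 0, 7, 20] [100, 11, 6, 3, 14, 23] [200, 100, 25, 100, 200, 20] :=
  G.leaf 193 16170959512604509198377536000000000000000000000000000000 [3, 3, 6, 3, 7, 1]
    (.lf [1, 0, -6, -267, 0])
    (by decide +kernel)

theorem LK1_b9 : G [LK1_p0] [LK1_c0, LK1_c1, LK1_c2, LK1_c3] 6 [93, 0, 0, 0, 7, 20] [100, 11, 6, 3, 14, 23] [200, 100, 25, 100, 100, 20] :=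
  G.leaf 188 215515610699688026581437644800000000000000000000000000 [3, 3, 6, 3, 7, 1]
    (.lf [1, 0, 0, -412, -158])
    (by decide +kernel)

theorem LK1_b10 : G [LK1_p0] [LK1_c0, LK1_c1, LK1_c2, LK1_c3] 6 [93, 0, 0, 0, 7, 20] [100, 11, 6, 3, 14, 23] [200, 100, 25, 100, 50, 20] :=
  G.leaf 186 4937236349103174493089593600000000000000000000000000 [3, 3, 6, 3, 7, 1]
    (.nd 1 (.lf [1, 0, 0, 0, 0]) (.lf [1, 0, -18, 0, -339]))
    (by decide +kernel)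

theorem LK3_b0 : G [LK3_p0] [LK3_c0, LK3_c1] 6 [93, 0, 0, 0, 0, 20] [100, 11, 6, 3, 7, 23] [200, 100, 25, 100, 25, 20] :=
  G.leaf 92 108800000000000000000000000 [3, 1, 3, 2, 2, 1]
    (.lf [16, -4, -1])
    (by decide +kernel)

theorem LK5_b1 : G [LK5_p0, LK5_p1] [] 6 [93, 0, 0, 0, 0, 20] [100, 11, 6, 3, 7, 23] [200, 100, 25, 100, 50, 20] :=
  G.leaf 225 23844094357098204431711570000000000000000000000000000000000000000000 [5, 5, 6, 3, 7, 1]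
    (.lf [1, 0])
    (by decide +kernel)

theorem LK5_b4 : G [LK5_p0, LK5_p1] [] 6 [93, 0, 0, 0, 7, 20] [100, 11, 6, 3, 14, 23] [200, 100, 50, 200, 50, 20] :=
  G.leaf 235 16291474902315895633142683122688000000000000000000000000000000000000000 [5, 5, 6, 3, 7, 1]
    (.lf [1, 0])
    (by decide +kernel)

theorem LK5_b6 : G [LK5_p0, LK5_p1] [] 6 [93, 0, 0, 3, 14, 20] [100, 11, 6, 6, 21, 23] [200, 100, 50, 200, 100, 20] :=
  G.leaf 242 1882760690243393269228250270105600000000000000000000000000000000000000000 [5, 5, 6, 3, 7, 1]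
    (.lf [1, 0])
    (by decide +kernel)

theorem LK5_b12 : G [LK5_p0, LK5_p1] [] 6 [186, 0, 0, 3, 42, 20] [193, 11, 6, 6, 49, 23] [400, 100, 400, 200, 200, 20] :=
  G.leaf 314 2106357456636772208848216153612172006522880000000000000000000000000000000000000000 [5, 5, 6, 3, 7, 1]
    (.nd 1 (.nd 1 (.lf [1, 0]) (.nd 0 (.nd 4 (.nd 1 (.lf [1, 0]) (.lf [0, 1])) (.lf [0, 1])) (.lf
    [1, 0]))) (.lf [1, 0]))
    (by decide +kernel)

theorem LK5_b14 : G [LK5_p0, LK5_p1] [] 6 [186, 0, 0, 3, 49, 20] [193, 11, 6, 6, 56, 23] [400, 200, 400, 200, 200, 20] :=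
  G.leaf 313 71887287454804322918067919060544954302464000000000000000000000000000000000000000000 [5, 5, 6, 3, 7, 1]
    (.nd 4 (.nd 1 (.lf [0, 1]) (.nd 0 (.nd 2 (.lf [0, 1]) (.lf [1, 0])) (.lf [1, 0]))) (.lf [0,
    1]))
    (by decide +kernel)

theorem LK5_b16 : G [LK5_p0, LK5_p1] [] 6 [186, 11, 0, 3, 98, 20] [193, 22, 6, 6, 105, 23] [400, 200, 400, 200, 400, 20] :=
  G.leaf 284 10106641810698128913741811292431101666000896000000000000000000000000000000000000000000 [5, 5, 6, 3, 7, 1]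
    (.lf [1, 0])
    (by decide +kernel)

theorem LK5_b18 : G [LK5_p0, LK5_p1] [] 6 [186, 11, 0, 6, 105, 20] [193, 22, 6, 9, 112, 23] [400, 200, 400, 400, 400, 20] :=
  G.leaf 311 86115646632245855082603518637021180913503961088000000000000000000000000000000000000000 [5, 5, 6, 3, 7, 1]
    (.nd 1 (.nd 0 (.nd 1 (.lf [1, 0]) (.lf [0, 1])) (.lf [1, 0])) (.lf [1, 0]))
    (by decide +kernel)

end Pool.Agent.Lib.MP_43bc59_co.F_SC
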