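import Pool.Agent.Lib.MP_43bc59_co.F_Piv

set_option autoImplicit false

namespace Pool.Agent.Lib.MP_43bc59_co

open Finset

variable {ι : Type} [Fintype ι] [DecidableEq ι] {a θ : ℝ} {w g A Φ : ι → ℝ} {c G : ι → ι → ℝ}

lemma s_mono {θ u v : ℝ} (uv : u ≤ v) (v1 : v ≤ θ) : u * (2 * θ - u) ≤ v * (2 * θ - v) := by
  nlinarith

/-- the optimal level of a lower letter is increasing -/
lemma um_le {b k t D uD : ℝ} (b0 : 0 ≤ b) (k0 : 0 < k) (t0 : 0 ≤ t) (tD : t ≤ D) (u0 : 0 ≤ uD)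
    (hu : D - b ≤ uD * (k + D)) : max (t - b) 0 / (k + t) ≤ uD := by
  have p1 : 0 < k + t := by linarith
  have p2 : 0 < k + D := by linarith
  rw [div_le_iff₀ p1]
  refine max_le ?_ (mul_nonneg u0 p1.le)
  refine le_of_mul_le_mul_right ?_ p2
  have h1 := mul_le_mul_of_nonneg_right hu p1.le
  nlinarith [mul_nonneg (sub_nonneg.2 tD) (add_nonneg b0 k0.le)]

/-- the value of a lower letter at the optimal level -/
lemma val_ge {a b k d J Ψ H t : ℝ} (b0 : 0 ≤ b) (k0 : 0 < k) (t0 : 0 ≤ t) (td : t ≤ d)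
    (J0 : 0 ≤ J) (hJ : (k + a - 1) * (d - b) ^ 2 ≤ J * d * (k + d)) (H0 : 0 < H) (Ψ0 : 0 ≤ Ψ)
    (hΨ : Ψ ≤ 2 * b * H - H ^ 2 ∨ (b ≤ H ∧ Ψ ≤ b ^ 2)) :
    -(2 * b + J) * t + Ψ * min 1 (t / H)
      ≤ -t ^ 2 + (1 - a + t) * (2 * (max (t - b) 0 / (k + t)) * (t - b)
        - (max (t - b) 0 / (k + t)) ^ 2 * (k + t)) := by
  have p1 : 0 < k + t := by linarith
  have Ψ1 : Ψ ≤ b ^ 2 := by
    rcases hΨ with h | h
    · nlinarith [sq_nonneg (b - H)]
    · exact h.2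
  have m1 : Ψ * min 1 (t / H) ≤ Ψ := mul_le_of_le_one_right Ψ0 (min_le_left _ _)
  have m2 : Ψ * min 1 (t / H) ≤ Ψ * (t / H) := mul_le_mul_of_nonneg_left (min_le_right _ _) Ψ0
  have Jt := mul_nonneg J0 t0
  rcases le_total t b with h | h
  · rw [max_eq_right (sub_nonpos.2 h), zero_div]
    have key : Ψ * min 1 (t / H) ≤ 2 * b * t - t ^ 2 := by
      rcases le_total t H with h2 | h2
      · refine m2.trans ?_
        rw [← mul_div_assoc, div_le_iff₀ H0]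
        rcases hΨ with h3 | h3
        · nlinarith [mul_le_mul_of_nonneg_right h3 t0,
            mul_nonneg (mul_nonneg t0 H0.le) (sub_nonneg.2 h2)]
        · nlinarith [mul_le_mul_of_nonneg_right h3.2 t0,
            mul_nonneg (mul_nonneg t0 b0) (sub_nonneg.2 h3.1),
            mul_nonneg (mul_nonneg t0 H0.le) (sub_nonneg.2 h)]
      · refine m1.trans ?_
        rcases hΨ with h3 | h3
        · nlinarith [mul_nonneg (sub_nonneg.2 h2) (show 0 ≤ 2 * b - t - H by linarith)]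
        · have : t = b := le_antisymm h (h3.1.trans h2)
          rw [this]; linarith [h3.2]
    linarith
  · rw [max_eq_left (sub_nonneg.2 h)]
    have e : (1 - a + t) * (2 * ((t - b) / (k + t)) * (t - b) - ((t - b) / (k + t)) ^ 2 * (k + t))
        = (t - b) ^ 2 - (k + a - 1) * (t - b) ^ 2 / (k + t) := by
      field_simp; ring
    have key : (k + a - 1) * (t - b) ^ 2 / (k + t) ≤ J * t := by
      rw [div_le_iff₀ p1]
      rcases le_total (k + a - 1) 0 with h2 | h2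
      · exact le_trans (mul_nonpos_of_nonpos_of_nonneg h2 (sq_nonneg _)) (mul_nonneg Jt p1.le)
      · rcases (t0.trans td).eq_or_lt with h3 | h3
        · have h4 : t = 0 := le_antisymm (h3 ▸ td) t0
          have h5 : b = 0 := le_antisymm (h4 ▸ h) b0
          rw [h4, h5]; simp
        have p2 : 0 < d * (k + d) := mul_pos h3 (by linarith)
        refine le_of_mul_le_mul_right ?_ p2
        have a1 : (t - b) * d ≤ (d - b) * t := by nlinarith
        have a2 : (t - b) * (k + d) ≤ (d - b) * (k + t) := by nlinarith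
        have a3 := mul_le_mul a1 a2 (mul_nonneg (sub_nonneg.2 h) (by linarith))
          (mul_nonneg (by linarith) t0)
        have a4 := mul_le_mul_of_nonneg_left a3 h2
        have a5 := mul_le_mul_of_nonneg_right hJ (mul_nonneg t0 p1.le)
        nlinarith
    rw [e]
    linarith

lemma psi_le {b J m Ψ : ℝ} (b0 : 0 ≤ b) (J0 : 0 ≤ J) (m0 : 0 < m)
    (hΨ : Ψ ≤ 2 * b * m - m ^ 2 ∨ (b ≤ m ∧ Ψ ≤ b ^ 2)) : Ψ ≤ (2 * b + J) * m := by
  have := mul_nonneg J0 m0.le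
  rcases hΨ with k | k
  · nlinarith [sq_nonneg m]
  · nlinarith [mul_le_mul_of_nonneg_left k.1 b0, mul_nonneg b0 m0.le, k.2]

lemma psi_le_sq {b m Ψ : ℝ} (hΨ : Ψ ≤ 2 * b * m - m ^ 2 ∨ (b ≤ m ∧ Ψ ≤ b ^ 2)) : Ψ ≤ b ^ 2 := by
  rcases hΨ with h | h
  · nlinarith [sq_nonneg (b - m)]
  · exact h.2

lemma Hyp.b_nonneg (H : Hyp a θ w g A Φ c G) (x : ι) {e W p z b : ℝ} (he : e = 1 - g x)
    (hW : W = w x) (W2 : W ≤ 2) (hp : p = 1 - e - a) (hz : z * (1 - a) = W * p + (2 - W) * a * e)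
    (hb : b = a - θ * z) : 0 ≤ b := by
  have pu := H.par_up x (hW ▸ H.w1 x) W2 hW.le
  rw [show g x - a = p by linarith, ← he, ← hz, ← mul_assoc] at pu
  have := le_of_mul_le_mul_right pu (sub_pos.2 H.a1)
  linarith

lemma Hyp.wp_le (H : Hyp a θ w g A Φ c G) (x : ι) {al : ℝ} (hal : θ * al = a * (1 - a)) :
    w x * (g x - a) ≤ al := by
  have t := H.par (fun j => if j = x then 1 else 0) (fun j => by split_ifs <;> norm_num)
    (fun j => by split_ifs <;> norm_num)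
  simp only [ite_mul, zero_mul, one_mul, sum_ite_eq', mem_univ, if_true] at t
  rw [← hal] at t
  exact le_of_mul_le_mul_left t H.th0

lemma Hyp.wd_le (H : Hyp a θ w g A Φ c G) (y : ι) {al : ℝ} (hal : θ * al = a * (1 - a)) :
    w y * (a - g y) ≤ al := by
  have t := H.par' (fun j => if j = y then 1 else 0) (fun j => by split_ifs <;> norm_num)
    (fun j => by split_ifs <;> norm_num)
  simp only [ite_mul, zero_mul, one_mul, sum_ite_eq', mem_univ, if_true] at t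
  rw [← hal] at t
  exact le_of_mul_le_mul_left t H.th0

lemma Hyp.gap_down (H : Hyp a θ w g A Φ c G) (y : ι) {al : ℝ} (hal : θ * al = a * (1 - a)) :
    (2 - min (w y) 2) * ((1 - a) * g y) ≤ al - w y * (a - g y) := by
  rcases le_total (w y) 2 with k | k
  · have t := H.par_down y (H.w1 y) k le_rfl
    rw [← hal] at t
    have := le_of_mul_le_mul_left t H.th0
    rw [min_eq_left k]; linarith
  · have := H.wd_le y hal
    rw [min_eq_right k]; linarith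

/-- The pivot master without shares; weight `w'` of the lower pivot explicit. -/
theorem Hyp.pivot0w (H : Hyp a θ w g A Φ c G) (x y : ι) (hx : a < g x) (hy : g y < a)
    (ymin : ∀ j, g y ≤ g j) (xmax : ∀ j, g j ≤ g x) {e W h w' W' p d al z b r : ℝ}
    (he : e = 1 - g x) (hW : W = w x) (W2 : W ≤ 2) (hh : h = g y) (hw' : w' = w y)
    (W1' : 1 ≤ W') (W2' : W' ≤ 2) (W3' : W' ≤ w')
    (hp : p = 1 - e - a) (hd : d = a - h) (hal : θ * al = a * (1 - a))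
    (hz : z * (1 - a) = W * p + (2 - W) * a * e) (hb : b = a - θ * z) (hr : r = al - W * p)
    (l ξ uy J Ψ D2 uD m q : ℝ) (l0 : 0 ≤ l) (l1 : l ≤ θ) (ξ0 : 0 ≤ ξ) (ξ1 : ξ ≤ 1)
    (uy0 : 0 ≤ uy) (uy1 : uy ≤ θ) (m0 : 0 < m)
    (C1 : ξ * (l * (2 * θ - l)) * (W' - (2 - W') * e) / w'
      ≤ uy * (2 * θ - uy) * (W - (2 - W) * h) / W)
    (C2 : uy * (2 * θ - uy) * (W - (2 - W) * h) / W
      ≤ ξ * (l * (2 * θ - l)) * (W' - (2 - W') * e) / w' + (1 - ξ) * (l * (2 * θ - l)))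
    (hD : d ≤ D2 ∨ al - d ≤ D2) (hu : D2 - b ≤ uD * (z - a + D2)) (uD0 : 0 ≤ uD) (uD1 : uD ≤ θ)
    (cap2 : uD * (2 * θ - uD) * (W - (2 - W) * (a - D2)) ≤ (1 - ξ) * (l * (2 * θ - l)) * W)
    (J0 : 0 ≤ J) (hJ : (z - 1) * (d - b) ^ 2 ≤ J * d * (z - h)) (za : a < z) (Ψ0 : 0 ≤ Ψ)
    (hΨ : Ψ ≤ 2 * b * m - m ^ 2 ∨ (b ≤ m ∧ Ψ ≤ b ^ 2))
    (S3 : q ≤ 1 ∨ d ≤ m) (S4 : q * m ≤ al - w' * d)
    (hF : 0 ≤ (1 - θ) * al - W * p ^ 2
      - W * (l * (2 - l) - ξ * (l * (2 * θ - l)) * (2 - W')) * ((1 - e) * e) - (2 * b + J) * al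
      - r ^ 2 + w' * (-d ^ 2 + (1 - h) * (2 * uy * (d - b) - uy ^ 2 * (z - h)) + (2 * b + J) * d)
      + q * Ψ) :
    Goal a θ w g Φ c G := by
  have W1 : 1 ≤ W := hW ▸ H.w1 x
  have W0 : 0 < W := by linarith
  have w1 : 1 ≤ w' := hw' ▸ H.w1 y
  have d0 : 0 < d := by linarith
  have h0 : 0 ≤ h := hh ▸ H.g0 y
  have k0 : 0 < z - a := sub_pos.2 za
  have b0 := H.b_nonneg x he hW W2 hp hz hb
  have r0 : 0 ≤ r := by
    have := H.wp_le x hal
    rw [← hW, show g x - a = p by linarith only [he, hp]] at this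
    linarith only [this, hr]
  have th := H.th0
  have sl : ∀ t, t ≤ a → 0 ≤ t → 0 ≤ W - (2 - W) * (a - t) := fun t t1 t0 =>
    slope_nonneg W1 (sub_nonneg.2 t1) (by linarith only [t0, H.a1])
  refine H.pivot x y hx hy ymin xmax (z' := (W' * d + (2 - W') * (1 - a) * h) / a) he hW W2 hh hw'
    W1' W2' W3' hp hd hal hz hb (div_mul_cancel₀ _ H.a0.ne') rfl hr rfl l ξ uy 0 0 m q (2 * b + J) Ψ
    0 0 r (fun t => max (t - b) 0 / (z - a + t)) (fun _ => 0) (fun _ => 0) l0 l1 ξ0 ξ1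
    uy0 uy1 le_rfl (mul_nonneg uy0 (by linarith only [th, uy1])) le_rfl m0 ?_ ?_ ?_ ?_ le_rfl ?_ Ψ0
    ?_ S3 S4 r0 ?_
  · simpa only [sub_zero, add_zero] using C1
  · simpa only [sub_zero, add_zero] using C2
  · intro t t0 t1 t2
    have ta : t ≤ a := by linarith only [t1, hd, h0]
    have u0 : 0 ≤ max (t - b) 0 / (z - a + t) :=
      div_nonneg (le_max_right _ _) (by linarith only [k0, t0])
    have tD : t ≤ D2 := by
      rcases hD with k | k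
      · exact t1.trans k
      · have := mul_le_mul_of_nonneg_right w1 d0.le
        linarith only [this, t2, k]
    have u1 : max (t - b) 0 / (z - a + t) ≤ uD := um_le b0 k0 t0 tD uD0 hu
    simp only [mul_zero, zero_mul, sub_zero, add_zero]
    refine ⟨u0, u1.trans uD1, mul_nonneg u0 (by linarith only [th, u1, uD1]), ?_, ?_⟩
    · rw [div_le_iff₀ W0]
      refine le_trans (mul_le_mul (s_mono u1 uD1) ?_ (sl t ta t0)
        (mul_nonneg uD0 (by linarith only [th, uD1]))) cap2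
      have := mul_le_mul_of_nonneg_left tD (sub_nonneg.2 W2)
      linarith only [this]
    · refine val_ge b0 k0 t0 t1 J0 ?_ m0 Ψ0 hΨ
      rw [show z - a + a - 1 = z - 1 by ring, show z - a + d = z - h by linarith only [hd]]
      exact hJ
  · intro t t0 _ t2
    simp only [mul_zero, zero_mul, sub_zero, add_zero, zero_div, le_refl, true_and,
      zero_pow two_ne_zero]
    have := mul_le_mul_of_nonneg_right t2 t0.le
    exact ⟨th.le, by linarith only [this]⟩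
  · simp
  · simpa only [zero_mul, add_zero, sub_zero] using psi_le b0 J0 m0 hΨ
  · refine hF.trans (le_of_eq ?_)
    ring

lemma elim_w {B Z Ψ v wb : ℝ} (w1 : 1 ≤ v) (hwb : v ≤ wb) (Ψ0 : 0 ≤ Ψ) (F1 : 0 ≤ B + Z + Ψ)
    (F2 : (0 ≤ B + 2 * Z ∧ 0 ≤ B + wb * Z) ∨ Ψ ≤ Z ∨ (wb ≤ 2 ∧ 0 ≤ B + wb * Z + (2 - wb) * Ψ)) :
    0 ≤ B + v * Z + (2 - min v 2) * Ψ := by
  rcases le_total v 2 with k | k
  · rw [min_eq_left k]
    rcases F2 with f | f | f
    · nlinarith [mul_nonneg (sub_nonneg.2 k) F1, mul_nonneg (sub_nonneg.2 w1) f.1]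
    · nlinarith [mul_nonneg (sub_nonneg.2 w1) (sub_nonneg.2 f)]
    · rcases le_total Ψ Z with f2 | f2
      · nlinarith [mul_nonneg (sub_nonneg.2 w1) (sub_nonneg.2 f2)]
      · nlinarith [mul_nonneg (sub_nonneg.2 hwb) (sub_nonneg.2 f2), f.2]
  · rw [min_eq_right k]
    rcases F2 with f | f | f
    · rcases le_total 0 Z with f2 | f2
      · nlinarith [mul_nonneg (sub_nonneg.2 k) f2, f.1]
      · nlinarith [mul_nonneg (sub_nonneg.2 hwb) (neg_nonneg.2 f2), f.2]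
    · nlinarith [mul_nonneg (sub_nonneg.2 k) (Ψ0.trans f)]
    · have k2 : wb = 2 := le_antisymm f.1 (k.trans hwb)
      have k3 : v = 2 := le_antisymm (k2 ▸ hwb) k
      have f2 := f.2
      rw [k2] at f2
      rw [k3]; exact f2

lemma cap_xi {v ξ S e N W Wb : ℝ} (w1 : 1 ≤ v) (W0 : 0 < W) (ξ0 : 0 ≤ ξ) (S0 : 0 ≤ S) (e0 : 0 ≤ e)
    (hξ : ξ = 0 ∨ (v ≤ Wb ∧ Wb ≤ 2)) (c1 : ξ * S * W ≤ N) (c2 : N ≤ S * (1 - ξ * e) * W) :
    ξ * S * (min v 2 - (2 - min v 2) * e) / v ≤ N / W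
      ∧ N / W ≤ ξ * S * (min v 2 - (2 - min v 2) * e) / v + (1 - ξ) * S
      ∧ ξ * S * (2 - Wb) ≤ ξ * S * (2 - min v 2) := by
  have v0 : 0 < v := by linarith
  rw [← le_div_iff₀ W0] at c1
  rw [← div_le_iff₀ W0] at c2
  rcases hξ with k | k
  · rw [k] at c1 c2 ⊢
    refine ⟨?_, ?_, ?_⟩
    · simpa using c1
    · simpa using c2
    · simp
  · have x0 := mul_nonneg ξ0 S0
    rw [min_eq_left (k.1.trans k.2)]
    have a1 : ξ * S * (v - (2 - v) * e) / v ≤ ξ * S := by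
      rw [div_le_iff₀ v0]
      exact mul_le_mul_of_nonneg_left
        (sub_le_self _ (mul_nonneg (by linarith [k.1, k.2]) e0)) x0
    have a2 : ξ * S * (1 - e) ≤ ξ * S * (v - (2 - v) * e) / v := by
      rw [le_div_iff₀ v0, mul_assoc (ξ * S)]
      refine mul_le_mul_of_nonneg_left ?_ x0
      nlinarith [mul_nonneg (sub_nonneg.2 w1) e0]
    exact ⟨a1.trans c1, by linarith, mul_le_mul_of_nonneg_left (by linarith [k.1]) x0⟩

/-- Gain through the parent gap at the lowest letter; `w y` eliminated at the corners. -/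
theorem Hyp.pivot0 (H : Hyp a θ w g A Φ c G) (x y : ι) (hx : a < g x) (hy : g y < a)
    (ymin : ∀ j, g y ≤ g j) (xmax : ∀ j, g j ≤ g x) {e W h p d al z b r : ℝ}
    (he : e = 1 - g x) (hW : W = w x) (W2 : W ≤ 2) (hh : h = g y)
    (hp : p = 1 - e - a) (hd : d = a - h) (hal : θ * al = a * (1 - a))
    (hz : z * (1 - a) = W * p + (2 - W) * a * e) (hb : b = a - θ * z) (hr : r = al - W * p)
    (l ξ Wb uy J Ψ D2 uD wb B Zy : ℝ) (h0 : 0 < h) (l0 : 0 ≤ l) (l1 : l ≤ θ) (ξ0 : 0 ≤ ξ)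
    (ξ1 : ξ ≤ 1) (hξ : ξ = 0 ∨ (w y ≤ Wb ∧ Wb ≤ 2)) (uy0 : 0 ≤ uy) (uy1 : uy ≤ θ)
    (cap0 : ξ * (l * (2 * θ - l)) * W ≤ uy * (2 * θ - uy) * (W - (2 - W) * h))
    (cap1 : uy * (2 * θ - uy) * (W - (2 - W) * h) ≤ l * (2 * θ - l) * (1 - ξ * e) * W)
    (hD : d ≤ D2 ∨ al - d ≤ D2) (hu : D2 - b ≤ uD * (z - a + D2)) (uD0 : 0 ≤ uD) (uD1 : uD ≤ θ)
    (cap2 : uD * (2 * θ - uD) * (W - (2 - W) * (a - D2)) ≤ (1 - ξ) * (l * (2 * θ - l)) * W)
    (J0 : 0 ≤ J) (hJ : (z - 1) * (d - b) ^ 2 ≤ J * d * (z - h)) (za : a < z) (Ψ0 : 0 ≤ Ψ)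
    (hΨ : Ψ ≤ 2 * b * ((1 - a) * h) - ((1 - a) * h) ^ 2 ∨ (b ≤ (1 - a) * h ∧ Ψ ≤ b ^ 2))
    (hB : B ≤ (1 - θ) * al - W * p ^ 2
      - W * (l * (2 - l) - ξ * (l * (2 * θ - l)) * (2 - Wb)) * ((1 - e) * e) - (2 * b + J) * al
      - r ^ 2)
    (hZ : Zy ≤ -d ^ 2 + (1 - h) * (2 * uy * (d - b) - uy ^ 2 * (z - h)) + (2 * b + J) * d)
    (hwb : w y ≤ wb) (F1 : 0 ≤ B + Zy + Ψ)
    (F2 : (0 ≤ B + 2 * Zy ∧ 0 ≤ B + wb * Zy) ∨ Ψ ≤ Zy
      ∨ (wb ≤ 2 ∧ 0 ≤ B + wb * Zy + (2 - wb) * Ψ)) :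
    Goal a θ w g Φ c G := by
  have w1 := H.w1 y
  have W0 : 0 < W := by linarith only [hW, H.w1 x]
  have e0 : 0 ≤ e := by linarith only [he, H.g1 x]
  have e1 : 0 ≤ 1 - e := by linarith only [he, H.g0 x]
  obtain ⟨c1, c2, c3⟩ := cap_xi w1 W0 ξ0 (mul_nonneg l0 (by linarith only [l1, H.th0])) e0 hξ
    cap0 cap1
  refine H.pivot0w x y hx hy ymin xmax he hW W2 hh rfl (le_min w1 one_le_two) (min_le_right _ _)
    (min_le_left _ _) hp hd hal hz hb hr l ξ uy J Ψ D2 uD ((1 - a) * h) (2 - min (w y) 2) l0 l1 ξ0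
    ξ1 uy0 uy1 (mul_pos (sub_pos.2 H.a1) h0) c1 c2 hD hu uD0 uD1 cap2 J0 hJ za Ψ0 hΨ
    (Or.inl (by linarith only [le_min w1 one_le_two])) (by rw [hd, hh]; exact H.gap_down y hal) ?_
  have t := mul_le_mul_of_nonneg_left hZ (zero_le_one.trans w1)
  have t2 := mul_le_mul_of_nonneg_right c3 (mul_nonneg W0.le (mul_nonneg e1 e0))
  linarith only [elim_w w1 hwb Ψ0 F1 F2, t, t2, hB]

/-- Gain through the threshold `d`: `Ψ = Q d`; `w y` eliminated at `1` and `wb`. -/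
theorem Hyp.pivot0d (H : Hyp a θ w g A Φ c G) (x y : ι) (hx : a < g x) (hy : g y < a)
    (ymin : ∀ j, g y ≤ g j) (xmax : ∀ j, g j ≤ g x) {e W h p d al z b r : ℝ}
    (he : e = 1 - g x) (hW : W = w x) (W2 : W ≤ 2) (hh : h = g y)
    (hp : p = 1 - e - a) (hd : d = a - h) (hal : θ * al = a * (1 - a))
    (hz : z * (1 - a) = W * p + (2 - W) * a * e) (hb : b = a - θ * z) (hr : r = al - W * p)
    (l ξ Wb uy J Q D2 uD wb B Zy : ℝ) (l0 : 0 ≤ l) (l1 : l ≤ θ) (ξ0 : 0 ≤ ξ)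
    (ξ1 : ξ ≤ 1) (hξ : ξ = 0 ∨ (w y ≤ Wb ∧ Wb ≤ 2)) (uy0 : 0 ≤ uy) (uy1 : uy ≤ θ)
    (cap0 : ξ * (l * (2 * θ - l)) * W ≤ uy * (2 * θ - uy) * (W - (2 - W) * h))
    (cap1 : uy * (2 * θ - uy) * (W - (2 - W) * h) ≤ l * (2 * θ - l) * (1 - ξ * e) * W)
    (hD : d ≤ D2 ∨ al - d ≤ D2) (hu : D2 - b ≤ uD * (z - a + D2)) (uD0 : 0 ≤ uD) (uD1 : uD ≤ θ)
    (cap2 : uD * (2 * θ - uD) * (W - (2 - W) * (a - D2)) ≤ (1 - ξ) * (l * (2 * θ - l)) * W)
    (J0 : 0 ≤ J) (hJ : (z - 1) * (d - b) ^ 2 ≤ J * d * (z - h)) (za : a < z) (Q0 : 0 ≤ Q)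
    (hQ : Q ≤ 2 * b - d ∨ (b ≤ d ∧ Q * d ≤ b ^ 2))
    (hB : B ≤ (1 - θ) * al - W * p ^ 2
      - W * (l * (2 - l) - ξ * (l * (2 * θ - l)) * (2 - Wb)) * ((1 - e) * e) - (2 * b + J) * al
      - r ^ 2)
    (hZ : Zy ≤ -d ^ 2 + (1 - h) * (2 * uy * (d - b) - uy ^ 2 * (z - h)) + (2 * b + J) * d)
    (hwb : w y ≤ wb) (F1 : 0 ≤ B + al * Q + (Zy - Q * d))
    (F2 : Q * d ≤ Zy ∨ 0 ≤ B + al * Q + wb * (Zy - Q * d)) :
    Goal a θ w g Φ c G := by
  have w1 := H.w1 y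
  have W0 : 0 < W := by linarith only [hW, H.w1 x]
  have e0 : 0 ≤ e := by linarith only [he, H.g1 x]
  have e1 : 0 ≤ 1 - e := by linarith only [he, H.g0 x]
  have d0 : 0 < d := by linarith only [hd, hh, hy]
  obtain ⟨c1, c2, c3⟩ := cap_xi w1 W0 ξ0 (mul_nonneg l0 (by linarith only [l1, H.th0])) e0 hξ
    cap0 cap1
  refine H.pivot0w x y hx hy ymin xmax he hW W2 hh rfl (le_min w1 one_le_two) (min_le_right _ _)
    (min_le_left _ _) hp hd hal hz hb hr l ξ uy J (Q * d) D2 uD d ((al - w y * d) / d) l0 l1 ξ0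
    ξ1 uy0 uy1 d0 c1 c2 hD hu uD0 uD1 cap2 J0 hJ za (mul_nonneg Q0 d0.le)
    (hQ.imp (fun k => by
      have := mul_le_mul_of_nonneg_right k d0.le
      linarith only [this]) id)
    (Or.inr le_rfl) (div_mul_cancel₀ _ d0.ne').le ?_
  have t := mul_le_mul_of_nonneg_left hZ (zero_le_one.trans w1)
  have t2 := mul_le_mul_of_nonneg_right c3 (mul_nonneg W0.le (mul_nonneg e1 e0))
  have t3 : (al - w y * d) / d * (Q * d) = (al - w y * d) * Q := by
    have := d0.ne'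
    field_simp
  have t4 : 0 ≤ B + al * Q + w y * (Zy - Q * d) := by
    rcases le_total (Q * d) Zy with k | k
    · have := mul_nonneg (sub_nonneg.2 w1) (sub_nonneg.2 k)
      linarith only [this, F1]
    · rcases F2 with f | f
      · have := mul_nonneg (sub_nonneg.2 w1) (sub_nonneg.2 f)
        linarith only [this, F1]
      · have := mul_nonneg (sub_nonneg.2 hwb) (sub_nonneg.2 k)
        linarith only [this, f]
  rw [t3]
  linarith only [t4, t, t2, hB]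

/-- the constant part in the tight coordinates (`gp = (1 - a) / θ`) -/
lemma base_eq {θ a e W p al z b gp : ℝ} (hp : p = 1 - e - a) (hal : θ * al = a * (1 - a))
    (hz : z * (1 - a) = W * p + (2 - W) * a * e) (hb : b = a - θ * z) (hg : θ * gp = 1 - a)
    (th : θ ≠ 0) :
    (1 - θ) * al - W * p ^ 2 - 2 * b * al
      = (z - 1) * (a * (1 - a)) + gp * b * (1 - 2 * a) + e * ((2 - W) * (a * (1 - a)) + W * p) := by
  have h1 : al = a * gp := by
    apply mul_left_cancel₀ th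
    rw [hal, ← hg]; ring
  have h2 : W * p ^ 2 = (1 - a) * (z * (1 - a) - (2 - W) * a * e) - e * (W * p) := by
    rw [hz, hp]; ring
  have h3 : gp * b = al - z * (1 - a) := by rw [hb, h1, ← hg]; ring
  have h4 : gp * b * (1 - 2 * a) = gp * b - 2 * b * al := by rw [h1]; ring
  rw [h4, h3, h2]
  linarith

/-- The summed form: `u1` is the optimal level of `y`, `δ` its reduction. -/
theorem Hyp.pivotS (H : Hyp a θ w g A Φ c G) (x y : ι) (hx : a < g x) (hy : g y < a)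
    (ymin : ∀ j, g y ≤ g j) (xmax : ∀ j, g j ≤ g x) {e W h p d al z b r gp u1 : ℝ}
    (he : e = 1 - g x) (hW : W = w x) (W2 : W ≤ 2) (hh : h = g y)
    (hp : p = 1 - e - a) (hd : d = a - h) (hal : θ * al = a * (1 - a))
    (hz : z * (1 - a) = W * p + (2 - W) * a * e) (hb : b = a - θ * z) (hr : r = al - W * p)
    (hg : θ * gp = 1 - a) (hu1 : u1 * (z - h) = d - b) (bd : b ≤ d) (za : a < z)
    (l ξ Wb δ D2 uD wb T Gn : ℝ) (l0 : 0 ≤ l) (l1 : l ≤ θ) (ξ0 : 0 ≤ ξ)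
    (ξ1 : ξ ≤ 1) (hξ : ξ = 0 ∨ (w y ≤ Wb ∧ Wb ≤ 2)) (uy0 : 0 ≤ u1 - δ) (uy1 : u1 - δ ≤ θ)
    (cap0 : ξ * (l * (2 * θ - l)) * W ≤ (u1 - δ) * (2 * θ - (u1 - δ)) * (W - (2 - W) * h))
    (cap1 : (u1 - δ) * (2 * θ - (u1 - δ)) * (W - (2 - W) * h)
      ≤ l * (2 * θ - l) * (1 - ξ * e) * W)
    (hD : d ≤ D2 ∨ al - d ≤ D2) (hu : D2 - b ≤ uD * (z - a + D2)) (uD0 : 0 ≤ uD) (uD1 : uD ≤ θ)
    (cap2 : uD * (2 * θ - uD) * (W - (2 - W) * (a - D2)) ≤ (1 - ξ) * (l * (2 * θ - l)) * W)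
    (hT : (z ≤ 1 ∧ T ≤ (z - 1) * (a * (1 - a) - u1 * (d - b)))
      ∨ (1 ≤ z ∧ T ≤ (1 - a) * (z - 1) * (b + (1 - θ) * h)))
    (hG : (0 < h ∧ Gn ≤ b ^ 2 + (2 * b * ((1 - a) * h) - ((1 - a) * h) ^ 2))
      ∨ (0 < h ∧ b ≤ (1 - a) * h ∧ Gn ≤ 2 * b ^ 2) ∨ Gn * d ≤ al * b ^ 2)
    (hwb : w y ≤ wb)
    (hS : 0 ≤ T + gp * b * (1 - 2 * a) + e * ((2 - W) * (a * (1 - a))
      + W * (p - (l * (2 - l) - ξ * (l * (2 * θ - l)) * (2 - Wb)) * (1 - e))) + Gn - r ^ 2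
      - wb * (δ ^ 2 * ((z - h) * (1 - h)))) :
    Goal a θ w g Φ c G := by
  have w1 := H.w1 y
  have W0 : 0 < W := by linarith only [hW, H.w1 x]
  have e0 : 0 ≤ e := by linarith only [he, H.g1 x]
  have e1 : 0 ≤ 1 - e := by linarith only [he, H.g0 x]
  have d0 : 0 < d := by linarith only [hd, hh, hy]
  have h0 : 0 ≤ h := hh ▸ H.g0 y
  have zh : 0 < z - h := by linarith only [za, hd, d0]
  have b0 := H.b_nonneg x he hW W2 hp hz hb
  have th := H.th0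
  obtain ⟨c1, c2, c3⟩ := cap_xi w1 W0 ξ0 (mul_nonneg l0 (by linarith only [l1, H.th0])) e0 hξ
    cap0 cap1
  have t2 := mul_le_mul_of_nonneg_right c3 (mul_nonneg W0.le (mul_nonneg e1 e0))
  have be := base_eq hp hal hz hb hg th.ne'
  have K0 : 0 ≤ δ ^ 2 * ((z - h) * (1 - h)) :=
    mul_nonneg (sq_nonneg _) (mul_nonneg zh.le (by linarith only [hd, d0, H.a1]))
  have t5 := mul_le_mul_of_nonneg_right hwb K0
  have uu : 0 ≤ u1 * (d - b) := by
    rw [← hu1, ← mul_assoc]; exact mul_nonneg (mul_self_nonneg _) zh.le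
  -- the choice of `J`
  obtain ⟨J, J0, hJ, hJ2⟩ : ∃ J, 0 ≤ J ∧ (z - 1) * (d - b) ^ 2 ≤ J * d * (z - h) ∧
      T ≤ (z - 1) * (a * (1 - a)) - J * al + w y * (J * d - (z - 1) * (u1 * (d - b))) := by
    rcases hT with ⟨k1, k2⟩ | ⟨k1, k2⟩
    · refine ⟨0, le_rfl, ?_, ?_⟩
      · rw [zero_mul, zero_mul]
        exact mul_nonpos_of_nonpos_of_nonneg (sub_nonpos.2 k1) (sq_nonneg _)
      · have := mul_nonneg (sub_nonneg.2 w1) (mul_nonneg (sub_nonneg.2 k1) uu)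
        linarith only [this, k2]
    · have Y0 := sub_nonneg.2 k1
      have a0 := H.a0
      have X : d - b = θ * z - h := by linarith only [hd, hb]
      have j0 : 0 ≤ θ * (d - b + θ * h) / a :=
        div_nonneg (mul_nonneg th.le (add_nonneg (sub_nonneg.2 bd) (mul_nonneg th.le h0))) a0.le
      have j1 : (d - b) ^ 2 ≤ θ * (d - b + θ * h) / a * d * (z - h) := by
        rw [div_mul_eq_mul_div, div_mul_eq_mul_div, le_div_iff₀ a0]
        have f1 : θ * (d - b + θ * h) * d * (z - h) - (d - b) ^ 2 * a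
            = h * (d - b) * b + θ * (1 - θ) * h ^ 2 * d := by
          have f2 : θ * (z - h) = d - b + (1 - θ) * h := by rw [X]; ring
          have f3 : a = d + h := by linarith only [hd]
          calc θ * (d - b + θ * h) * d * (z - h) - (d - b) ^ 2 * a
              = (d - b + θ * h) * d * (θ * (z - h)) - (d - b) ^ 2 * a := by ring
            _ = _ := by rw [f2, f3]; ring
        have f4 := mul_nonneg (mul_nonneg h0 (sub_nonneg.2 bd)) b0
        have f5 : 0 ≤ θ * (1 - θ) * h ^ 2 * d := mul_nonneg (mul_nonneg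
          (mul_nonneg th.le (by linarith only [H.th1])) (sq_nonneg _)) d0.le
        linarith only [f1, f4, f5]
      have j2 : u1 * (d - b) ≤ θ * (d - b + θ * h) / a * d := by
        refine le_of_mul_le_mul_right ?_ zh
        rw [mul_right_comm u1, hu1, ← sq]; exact j1
      have j3 : θ * (d - b + θ * h) / a * al = (1 - a) * (d - b + θ * h) := by
        rw [div_mul_eq_mul_div, mul_right_comm, hal]; field_simp
      refine ⟨(z - 1) * (θ * (d - b + θ * h) / a), mul_nonneg Y0 j0, ?_, ?_⟩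
      · have := mul_le_mul_of_nonneg_left j1 Y0
        linarith only [this]
      · have f1 := mul_nonneg (zero_le_one.trans w1) (mul_nonneg Y0 (sub_nonneg.2 j2))
        rw [mul_assoc (z - 1) _ al, j3]
        rw [hd] at f1 ⊢
        linarith only [f1, k2]
  have Zy : -d ^ 2 + (1 - h) * (2 * (u1 - δ) * (d - b) - (u1 - δ) ^ 2 * (z - h)) + (2 * b + J) * d
      = b ^ 2 + (J * d - (z - 1) * (u1 * (d - b))) - δ ^ 2 * ((z - h) * (1 - h)) := by
    have f1 : d = b + u1 * (z - h) := by linarith only [hu1]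
    rw [f1]; ring
  -- the choice of the threshold
  obtain ⟨m, q, Ψ, m0, Ψ0, hΨ, S3, S4, hq⟩ : ∃ m q Ψ, 0 < m ∧ 0 ≤ Ψ ∧
      (Ψ ≤ 2 * b * m - m ^ 2 ∨ (b ≤ m ∧ Ψ ≤ b ^ 2)) ∧ (q ≤ 1 ∨ d ≤ m) ∧ q * m ≤ al - w y * d ∧
      Gn ≤ w y * b ^ 2 + q * Ψ := by
    have gd := H.gap_down y hal
    rw [← hh, ← hd] at gd
    have m1 : 1 ≤ min (w y) 2 := le_min w1 one_le_two
    have fin : ∀ Ψ, Ψ ≤ b ^ 2 → b ^ 2 + Ψ ≤ w y * b ^ 2 + (2 - min (w y) 2) * Ψ := fun Ψ k => by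
      have f1 := mul_le_mul_of_nonneg_left k (sub_nonneg.2 m1)
      have f2 := mul_le_mul_of_nonneg_right (min_le_left (w y) 2) (sq_nonneg b)
      linarith only [f1, f2]
    rcases hG with ⟨k0, k⟩ | ⟨k0, k1, k⟩ | k
    · have m0 := mul_pos (sub_pos.2 H.a1) k0
      rcases le_total ((1 - a) * h) b with f | f
      · refine ⟨_, _, 2 * b * ((1 - a) * h) - ((1 - a) * h) ^ 2, m0, ?_, Or.inl le_rfl,
          Or.inl (by linarith only [m1]), gd, k.trans (fin _ (psi_le_sq (Or.inl le_rfl)))⟩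
        have := mul_nonneg m0.le (show 0 ≤ 2 * b - (1 - a) * h by linarith only [f, b0])
        linarith only [this]
      · refine ⟨_, _, b ^ 2, m0, sq_nonneg b, Or.inr ⟨f, le_rfl⟩,
          Or.inl (by linarith only [m1]), gd, k.trans (le_trans ?_ (fin _ le_rfl))⟩
        have : 2 * b * ((1 - a) * h) - ((1 - a) * h) ^ 2 ≤ b ^ 2 := psi_le_sq (Or.inl le_rfl)
        linarith only [this]
    · exact ⟨_, _, b ^ 2, mul_pos (sub_pos.2 H.a1) k0, sq_nonneg b, Or.inr ⟨k1, le_rfl⟩,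
        Or.inl (by linarith only [m1]), gd, k.trans (le_trans (by linarith only []) (fin _ le_rfl))⟩
    · refine ⟨d, (al - w y * d) / d, b ^ 2, d0, sq_nonneg b, Or.inr ⟨bd, le_rfl⟩, Or.inr le_rfl,
        (div_mul_cancel₀ _ d0.ne').le, le_of_mul_le_mul_right (k.trans (le_of_eq ?_)) d0⟩
      have := d0.ne'
      field_simp; ring
  refine H.pivot0w x y hx hy ymin xmax he hW W2 hh rfl (le_min w1 one_le_two) (min_le_right _ _)
    (min_le_left _ _) hp hd hal hz hb hr l ξ (u1 - δ) J Ψ D2 uD m q l0 l1 ξ0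
    ξ1 uy0 uy1 m0 c1 c2 hD hu uD0 uD1 cap2 J0 hJ za Ψ0 hΨ S3 S4 ?_
  rw [Zy]
  linarith only [hS, hq, hJ2, t2, t5, be]

end Pool.Agent.Lib.MP_43bc59_co
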