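import Pool.Agent.Lib.MP_43bc59_co.F_X0

set_option autoImplicit false

namespace Pool.Agent.Lib.MP_43bc59_co

open Finset

variable {ι : Type} [Fintype ι] [DecidableEq ι] {a θ : ℝ} {w g A Φ : ι → ℝ} {c G : ι → ι → ℝ}

lemma keyJ {Y b k t d J : ℝ} (b0 : 0 ≤ b) (k0 : 0 < k) (h : b ≤ t) (td : t ≤ d) (J0 : 0 ≤ J)
    (hJ : Y * (d - b) ^ 2 ≤ J * d * (k + d)) : Y * (t - b) ^ 2 ≤ J * t * (k + t) := by
  have t0 : 0 ≤ t := b0.trans h
  have p1 : 0 < k + t := by linarith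
  rcases le_total Y 0 with h2 | h2
  · exact le_trans (mul_nonpos_of_nonpos_of_nonneg h2 (sq_nonneg _))
      (mul_nonneg (mul_nonneg J0 t0) p1.le)
  · rcases (t0.trans td).eq_or_lt with h3 | h3
    · have h4 : t = 0 := le_antisymm (h3 ▸ td) t0
      have h5 : b = 0 := le_antisymm (h4 ▸ h) b0
      rw [h4, h5]; simp
    have p2 : 0 < d * (k + d) := mul_pos h3 (by linarith)
    refine le_of_mul_le_mul_right ?_ p2
    have a1 : (t - b) * d ≤ (d - b) * t := by nlinarith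
    have a2 : (t - b) * (k + d) ≤ (d - b) * (k + t) := by nlinarith
    have a3 := mul_le_mul a1 a2 (mul_nonneg (sub_nonneg.2 h) (by linarith))
      (mul_nonneg (by linarith) t0)
    have a4 := mul_le_mul_of_nonneg_left a3 h2
    have a5 := mul_le_mul_of_nonneg_right hJ (mul_nonneg t0 p1.le)
    nlinarith

/-- value of a lower letter below the threshold, at the level `β ub` -/
lemma val_low {a b z d J m ub β Lb y t : ℝ} (b0 : 0 ≤ b) (za : a < z) (td : t ≤ d)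
    (J0 : 0 ≤ J) (hJ : (z - 1) * (d - b) ^ 2 ≤ J * d * (z - a + d)) (m0 : 0 < m) (β0 : 0 ≤ β)
    (β1 : β ≤ 1) (ht : t = β * m) (hub : ub * (z - a + m) = m - b) (u0 : 0 ≤ ub)
    (um : ub * m ≤ 2 * b) (hY : Lb * m ≤ b ^ 2) (y0 : 0 ≤ y) (y1 : 1 - z ≤ y) :
    -(2 * b + J) * t + (b ^ 2 - 2 * y * b * ub) * β + Lb * t * (1 - β)
      ≤ -t ^ 2 + (1 - a + t) * (2 * (β * ub) * (t - b) - (β * ub) ^ 2 * (z - a + t)) := by
  have t0 : 0 ≤ t := by rw [ht]; exact mul_nonneg β0 m0.le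
  have p1 : 0 < z - a + t := by linarith
  have v0 : 0 ≤ β * ub := mul_nonneg β0 u0
  have e1 : β * ub * (z - a + t) - t + b = (1 - β) * (b - ub * t) := by
    have : β * ub * (z - a + t) = β * (ub * (z - a + m)) - β * ub * (m - t) := by ring
    rw [this, hub, ht]; ring
  have ut0 : 0 ≤ ub * t := mul_nonneg u0 t0
  have ut1 : ub * t ≤ 2 * b := by
    have : ub * t = β * (ub * m) := by rw [ht]; ring
    rw [this]
    exact le_trans (mul_le_of_le_one_left (mul_nonneg u0 m0.le) β1) um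
  have s1 : (b - ub * t) ^ 2 ≤ b ^ 2 := by nlinarith
  have s2 : (β * ub * (z - a + t) - t + b) ^ 2 ≤ (1 - β) ^ 2 * b ^ 2 := by
    rw [e1, mul_pow]; exact mul_le_mul_of_nonneg_left s1 (sq_nonneg _)
  have s3 : Lb * t * (1 - β) ≤ b ^ 2 * (β * (1 - β)) := by
    have := mul_le_mul_of_nonneg_right hY (mul_nonneg β0 (sub_nonneg.2 β1))
    rw [ht]; linarith
  have s4 : (z - 1) * (β * ub * (2 * (t - b) - β * ub * (z - a + t)))
      ≤ J * t + 2 * y * b * ub * β := by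
    have q0 : 0 ≤ J * t := mul_nonneg J0 t0
    have q1 : 0 ≤ y * (2 * b * (β * ub)) := mul_nonneg y0 (mul_nonneg (by linarith) v0)
    rcases le_total 1 z with k | k
    · rcases le_total t b with k2 | k2
      · have : β * ub * (2 * (t - b) - β * ub * (z - a + t)) ≤ 0 :=
          mul_nonpos_of_nonneg_of_nonpos v0 (by linarith [mul_nonneg v0 p1.le])
        linarith [mul_nonpos_of_nonneg_of_nonpos (sub_nonneg.2 k) this]
      · have f1 := keyJ (k := z - a) b0 (sub_pos.2 za) k2 td J0 hJ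
        have f2 : β * ub * (2 * (t - b) - β * ub * (z - a + t)) * (z - a + t) ≤ (t - b) ^ 2 := by
          linarith [sq_nonneg (β * ub * (z - a + t) - (t - b))]
        have f3 := mul_le_mul_of_nonneg_left f2 (sub_nonneg.2 k)
        have f4 : (z - 1) * (β * ub * (2 * (t - b) - β * ub * (z - a + t))) ≤ J * t :=
          le_of_mul_le_mul_right (by linarith) p1
        linarith
    · have f1 : (1 - β) * (b - ub * t) ≤ b := by nlinarith [mul_nonneg β0 b0]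
      have f2 : β * ub * (z - a + t) - 2 * (t - b) ≤ 2 * b := by linarith
      have f3 := mul_le_mul_of_nonneg_left (mul_le_mul_of_nonneg_left f2 v0) (sub_nonneg.2 k)
      have f4 := mul_le_mul_of_nonneg_right y1 (mul_nonneg v0 (show 0 ≤ 2 * b by linarith))
      linarith
  linarith

/-- the common capacity block at the pair of pivots -/
lemma cap_pair {W W' w' ξ S e NW : ℝ} (W0 : 0 < W) (W1' : 1 ≤ W') (W2' : W' ≤ 2) (W3' : W' ≤ w')
    (ξ0 : 0 ≤ ξ) (S0 : 0 ≤ S) (e0 : 0 ≤ e) (e1 : e ≤ 1) (c1 : ξ * S * W ≤ NW)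
    (c2 : (W' = w' ∧ NW ≤ (1 - ξ * e) * S * W) ∨ NW ≤ (1 - ξ) * S * W) :
    ξ * S * (W' - (2 - W') * e) / w' ≤ NW / W
      ∧ NW / W ≤ ξ * S * (W' - (2 - W') * e) / w' + (1 - ξ) * S := by
  have v0 : 0 < w' := by linarith
  have x0 := mul_nonneg ξ0 S0
  rw [← le_div_iff₀ W0] at c1
  constructor
  · refine le_trans ?_ c1
    rw [div_le_iff₀ v0]
    exact mul_le_mul_of_nonneg_left
      ((sub_le_self _ (mul_nonneg (sub_nonneg.2 W2') e0)).trans W3') x0
  · rcases c2 with ⟨k, c2⟩ | c2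
    · rw [← div_le_iff₀ W0] at c2
      have a2 : ξ * S * (1 - e) ≤ ξ * S * (W' - (2 - W') * e) / w' := by
        rw [le_div_iff₀ v0, mul_assoc (ξ * S), ← k]
        refine mul_le_mul_of_nonneg_left ?_ x0
        nlinarith [mul_nonneg (sub_nonneg.2 W1') e0]
      linarith
    · rw [← div_le_iff₀ W0] at c2
      have := div_nonneg (mul_nonneg x0 (slope_nonneg W1' e0 e1)) v0.le
      linarith

/-- capacity of the upper pivot towards the other lower letters -/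
lemma cap_rest {θ a W u uD t D2 β νb R : ℝ} (W1 : 1 ≤ W) (W2 : W ≤ 2) (a1 : a < 1) (t0 : 0 ≤ t)
    (ta : t ≤ a) (tD : t ≤ D2) (u1 : u ≤ uD) (uD0 : 0 ≤ uD) (uD1 : uD ≤ θ) (β1 : β ≤ 1)
    (ν0 : 0 ≤ νb) (h : uD * (2 * θ - uD) * (W - (2 - W) * (a - D2)) + νb * (2 - W) * a ≤ R * W) :
    (u * (2 * θ - u) - β * νb) * (W - (2 - W) * (a - t)) / W + β * νb ≤ R := by
  have W0 : 0 < W := by linarith
  have a1 : u * (2 * θ - u) * (W - (2 - W) * (a - t))
      ≤ uD * (2 * θ - uD) * (W - (2 - W) * (a - D2)) := by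
    refine mul_le_mul (s_mono u1 uD1) ?_ (slope_nonneg W1 (sub_nonneg.2 ta) (by linarith))
      (mul_nonneg uD0 (by linarith))
    have := mul_le_mul_of_nonneg_left tD (sub_nonneg.2 W2)
    linarith
  have a2 : β * (a - t) ≤ a := (mul_le_of_le_one_left (sub_nonneg.2 ta) β1).trans (by linarith)
  have a3 := mul_le_mul_of_nonneg_left a2 (mul_nonneg ν0 (sub_nonneg.2 W2))
  rw [div_add' _ _ _ W0.ne', div_le_iff₀ W0]
  linarith

/-- capacity of the lower pivot towards the other upper letters -/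
lemma cap_plus {θ a W' w' u uP t rh s ν1 : ℝ} (W1 : 1 ≤ W') (W2 : W' ≤ 2) (w0 : 0 < w')
    (a0 : 0 < a) (t0 : 0 ≤ t) (ta : t ≤ 1 - a) (tr : t ≤ rh) (u1 : u ≤ uP) (uP0 : 0 ≤ uP)
    (uP1 : uP ≤ θ) (s0 : 0 ≤ s)
    (h : uP * (2 * θ - uP) * (W' - (2 - W') * (1 - a - rh)) + s * (w' - (W' - (2 - W') * (1 - a)))
      ≤ ν1 * w') :
    (u * (2 * θ - u) - s) * (W' - (2 - W') * (1 - a - t)) / w' + s ≤ ν1 := by
  have a1 : u * (2 * θ - u) * (W' - (2 - W') * (1 - a - t))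
      ≤ uP * (2 * θ - uP) * (W' - (2 - W') * (1 - a - rh)) := by
    refine mul_le_mul (s_mono u1 uP1) ?_ (slope_nonneg W1 (sub_nonneg.2 ta) (by linarith))
      (mul_nonneg uP0 (by linarith))
    have := mul_le_mul_of_nonneg_left tr (sub_nonneg.2 W2)
    linarith
  have a3 := mul_nonneg s0 (mul_nonneg (sub_nonneg.2 W2) t0)
  rw [div_add' _ _ _ w0.ne', div_le_iff₀ w0]
  linarith

lemma Hyp.b'_nonneg (H : Hyp a θ w g A Φ c G) (y : ι) {h w' W' d z' b' : ℝ} (hh : h = g y)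
    (hw' : w' = w y) (W1' : 1 ≤ W') (W2' : W' ≤ 2) (W3' : W' ≤ w') (hd : d = a - h)
    (hz' : z' * a = W' * d + (2 - W') * (1 - a) * h) (hb' : b' = 1 - a - θ * z') : 0 ≤ b' := by
  have pd := H.par_down y W1' W2' (hw' ▸ W3')
  rw [← hh, ← hd, ← hz', ← mul_assoc, mul_comm a] at pd
  have := le_of_mul_le_mul_right pd H.a0
  linarith

/-- upper letter whose whole budget is its share -/
lemma pure_plus {θ a z' b' al v u t : ℝ} (hb' : b' = 1 - a - θ * z') (hal : θ * al = a * (1 - a))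
    (t0 : 0 ≤ t) (s0 : 0 ≤ u * (2 * θ - u)) (v2 : 2 ≤ v) :
    -t ^ 2 + 2 * u * t * (2 * θ + 2 * a - 1 + t) - u ^ 2 * (2 * t + al - (a + t) * (1 - a - t))
      ≤ -t ^ 2 + (a + t) * (2 * u * (t - b') - u ^ 2 * (z' - 1 + a + t))
        + u * (2 * θ - u) * (v * t + al - z' * (a + t)) := by
  have f1 := mul_nonneg s0 (mul_nonneg (sub_nonneg.2 v2) t0)
  have f2 : u * (θ * al) = u * (a * (1 - a)) := by rw [hal]
  rw [hb']
  linarith

/-- Pivot certificate without shares at the other lower letters. -/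
theorem Hyp.pivot1 (H : Hyp a θ w g A Φ c G) (x y : ι) (hx : a < g x) (hy : g y < a)
    (ymin : ∀ j, g y ≤ g j) (xmax : ∀ j, g j ≤ g x)
    {e W h w' W' p d al z b z' b' r r' : ℝ}
    (he : e = 1 - g x) (hW : W = w x) (W2 : W ≤ 2) (hh : h = g y) (hw' : w' = w y)
    (W1' : 1 ≤ W') (W2' : W' ≤ 2) (W3' : W' ≤ w') (hp : p = 1 - e - a) (hd : d = a - h)
    (hal : θ * al = a * (1 - a)) (hz : z * (1 - a) = W * p + (2 - W) * a * e) (hb : b = a - θ * z)
    (hz' : z' * a = W' * d + (2 - W') * (1 - a) * h) (hb' : b' = 1 - a - θ * z')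
    (hr : r = al - W * p) (hr' : r' = al - w' * d) (za : a < z)
    (l ξ uy ν1 J D2 uD : ℝ) (l0 : 0 ≤ l) (l1 : l ≤ θ) (ξ0 : 0 ≤ ξ) (ξ1 : ξ ≤ 1) (uy0 : 0 ≤ uy)
    (uy1 : uy ≤ θ) (ν10 : 0 ≤ ν1) (ν11 : ν1 ≤ uy * (2 * θ - uy))
    (c1 : ξ * (l * (2 * θ - l)) * W ≤ (uy * (2 * θ - uy) - ν1) * (W - (2 - W) * h) + ν1 * W)
    (c2 : (W' = w' ∧ (uy * (2 * θ - uy) - ν1) * (W - (2 - W) * h) + ν1 * W
        ≤ (1 - ξ * e) * (l * (2 * θ - l)) * W)
      ∨ (uy * (2 * θ - uy) - ν1) * (W - (2 - W) * h) + ν1 * W ≤ (1 - ξ) * (l * (2 * θ - l)) * W)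
    (hD : d ≤ D2 ∨ al - d ≤ D2) (hu : D2 - b ≤ uD * (z - a + D2)) (uD0 : 0 ≤ uD) (uD1 : uD ≤ θ)
    (c3 : uD * (2 * θ - uD) * (W - (2 - W) * (a - D2)) ≤ (1 - ξ) * (l * (2 * θ - l)) * W)
    (J0 : 0 ≤ J) (hJ : (z - 1) * (d - b) ^ 2 ≤ J * d * (z - h))
    (m q Ψ K rh : ℝ) (m0 : 0 < m) (S3 : q ≤ 1 ∨ d ≤ m) (S4 : q * m ≤ r') (Ψ0 : 0 ≤ Ψ)
    (hΨ : Ψ ≤ 2 * b * m - m ^ 2 ∨ (b ≤ m ∧ Ψ ≤ b ^ 2)) (rr : r ≤ rh)
    (hK : rh ^ 2 ≤ K ∨ ∃ uP J', 1 - a < z' ∧ b' ≤ rh ∧ rh - b' ≤ uP * (z' - 1 + a + rh) ∧ 0 ≤ uP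
      ∧ uP ≤ θ ∧ uP * (2 * θ - uP) * (W' - (2 - W') * (1 - a - rh)) ≤ ν1 * w' ∧ 0 ≤ J'
      ∧ ((z' - 1) * rh ≤ J' * a ∨ (z' - 1) * (rh - b') ^ 2 ≤ J' * rh * (z' - 1 + a + rh))
      ∧ 2 * b' * rh - b' ^ 2 + J' * rh ≤ K)
    (hF : 0 ≤ (1 - θ) * al - W * p ^ 2
      - W * (l * (2 - l) - ξ * (l * (2 * θ - l)) * (2 - W')) * ((1 - e) * e)
      + w' * (-d ^ 2 + (1 - h) * (2 * uy * (d - b) - uy ^ 2 * (z - h)) - ν1 * (2 - W) * h * e)
      - (2 * b + J) * r' + q * Ψ - K) :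
    Goal a θ w g Φ c G := by
  have W1 : 1 ≤ W := hW ▸ H.w1 x
  have W0 : 0 < W := by linarith only [W1]
  have w1 : 1 ≤ w' := hw' ▸ H.w1 y
  have w0 : 0 < w' := by linarith only [w1]
  have d0 : 0 < d := by linarith only [hd, hh, hy]
  have h0 : 0 ≤ h := hh ▸ H.g0 y
  have e0 : 0 ≤ e := by linarith only [he, H.g1 x]
  have e1 : e ≤ 1 := by linarith only [he, H.g0 x]
  have k0 : 0 < z - a := sub_pos.2 za
  have b0 := H.b_nonneg x he hW W2 hp hz hb
  have b0' := H.b'_nonneg y hh hw' W1' W2' W3' hd hz' hb'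
  have r0 : 0 ≤ r := by
    have := H.wp_le x hal
    rw [← hW, show g x - a = p by linarith only [he, hp]] at this
    linarith only [this, hr]
  have th := H.th0
  obtain ⟨C1, C2⟩ := cap_pair W0 W1' W2' W3' ξ0 (mul_nonneg l0 (by linarith only [l1, th])) e0 e1
    c1 c2
  rw [add_div, mul_div_cancel_right₀ _ W0.ne'] at C1 C2
  obtain ⟨up, ηp, ηp0, ηpK, hup⟩ : ∃ (up : ℝ → ℝ) (ηp : ℝ), 0 ≤ ηp ∧ ηp * r ≤ K ∧
      ∀ t, 0 < t → t ≤ p → t ≤ r → 0 ≤ up t ∧ up t ≤ θ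
        ∧ up t * (2 * θ - up t) * (W' - (2 - W') * (1 - a - t)) / w' ≤ ν1
        ∧ -ηp * t ≤ -t ^ 2 + (a + t) * (2 * up t * (t - b') - up t ^ 2 * (z' - 1 + a + t)) := by
    have optA : rh ^ 2 ≤ K → ∃ (up : ℝ → ℝ) (ηp : ℝ), 0 ≤ ηp ∧ ηp * r ≤ K ∧
        ∀ t, 0 < t → t ≤ p → t ≤ r → 0 ≤ up t ∧ up t ≤ θ
          ∧ up t * (2 * θ - up t) * (W' - (2 - W') * (1 - a - t)) / w' ≤ ν1
          ∧ -ηp * t ≤ -t ^ 2 + (a + t) * (2 * up t * (t - b') - up t ^ 2 * (z' - 1 + a + t)) := by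
      intro k
      refine ⟨fun _ => 0, r, r0, ?_, fun t t0 _ t2 => ⟨le_rfl, th.le, ?_, ?_⟩⟩
      · have := mul_le_mul rr rr r0 (r0.trans rr)
        linarith only [this, k]
      · simpa only [zero_mul, zero_div] using ν10
      · have := mul_le_mul_of_nonneg_right t2 t0.le
        linarith only [this]
    rcases hK with k | ⟨uP, J', k1, k2, k3, k4, k5, k6, k7, k8, k9⟩
    · exact optA k
    rcases (r0.trans rr).eq_or_lt with rh0 | rh0
    · have : b' = 0 := le_antisymm (rh0 ▸ k2) b0'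
      rw [← rh0, this] at k9
      exact optA (by rw [← rh0]; linarith only [k9])
    have kp : 0 < z' - 1 + a := by linarith only [k1]
    have η0 : 0 ≤ 2 * b' + J' - b' ^ 2 / rh := by
      have : b' ^ 2 / rh ≤ b' := by
        rw [div_le_iff₀ rh0, sq]; exact mul_le_mul_of_nonneg_left k2 b0'
      linarith only [this, b0', k7]
    have hJ' : (z' - 1 + a + (1 - a) - 1) * (rh - b') ^ 2 ≤ J' * rh * (z' - 1 + a + rh) := by
      rw [show z' - 1 + a + (1 - a) - 1 = z' - 1 by ring]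
      rcases k8 with k8 | k8
      · rcases le_total z' 1 with f | f
        · exact le_trans (mul_nonpos_of_nonpos_of_nonneg (sub_nonpos.2 f) (sq_nonneg _))
            (mul_nonneg (mul_nonneg k7 rh0.le) (by linarith only [kp, rh0]))
        · have f1 : (rh - b') ^ 2 ≤ rh ^ 2 :=
            pow_le_pow_left₀ (sub_nonneg.2 k2) (sub_le_self _ b0') 2
          have f2 := mul_le_mul_of_nonneg_left f1 (sub_nonneg.2 f)
          have f3 := mul_le_mul_of_nonneg_right k8 rh0.le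
          have f4 := mul_nonneg (mul_nonneg k7 rh0.le) (add_nonneg (sub_nonneg.2 f) rh0.le)
          linarith only [f2, f3, f4]
      · exact k8
    refine ⟨fun t => max (t - b') 0 / (z' - 1 + a + t), _, η0, ?_, fun t t0 t1 t2 => ?_⟩
    · refine (mul_le_mul_of_nonneg_left rr η0).trans ?_
      rw [sub_mul, div_mul_cancel₀ _ rh0.ne']
      linarith only [k9]
    · have u1 := um_le b0' kp t0.le (t2.trans rr) k4 k3
      refine ⟨div_nonneg (le_max_right _ _) (by linarith only [kp, t0]), u1.trans k5, ?_, ?_⟩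
      · have := cap_plus (s := 0) W1' W2' w0 H.a0 t0.le (by linarith only [t1, hp, e0])
          (t2.trans rr) u1 k4 k5 le_rfl (by simpa only [zero_mul, add_zero] using k6)
        simpa only [sub_zero, add_zero] using this
      · have := val_ge (a := 1 - a) b0' kp t0.le (t2.trans rr) k7 hJ' rh0 (sq_nonneg b')
          (Or.inr ⟨k2, le_rfl⟩)
        rw [min_eq_right ((div_le_one rh0).2 (t2.trans rr)), sub_sub_cancel] at this
        refine le_trans (le_of_eq ?_) this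
        ring
  refine H.pivot x y hx hy ymin xmax he hW W2 hh hw' W1' W2' W3' hp hd hal hz hb hz' hb' hr hr'
    l ξ uy ν1 0 m q (2 * b + J) Ψ 0 0 ηp (fun t => max (t - b) 0 / (z - a + t)) up (fun _ => 0)
    l0 l1 ξ0 ξ1 uy0 uy1 ν10 ν11 le_rfl m0 C1 C2 ?_ ?_ le_rfl ?_ Ψ0 ?_ S3 S4 ηp0 ?_
  · intro t t0 t1 t2
    have ta : t ≤ a := by linarith only [t1, hd, h0]
    have u0 : 0 ≤ max (t - b) 0 / (z - a + t) :=
      div_nonneg (le_max_right _ _) (by linarith only [k0, t0])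
    have tD : t ≤ D2 := by
      rcases hD with k | k
      · exact t1.trans k
      · have := mul_le_mul_of_nonneg_right w1 d0.le
        linarith only [this, t2, k, hr']
    have u1 : max (t - b) 0 / (z - a + t) ≤ uD := um_le b0 k0 t0 tD uD0 hu
    refine ⟨u0, u1.trans uD1, ?_, ?_, ?_⟩
    · rw [mul_zero]; exact mul_nonneg u0 (by linarith only [th, u1, uD1])
    · exact cap_rest W1 W2 H.a1 t0 ta tD u1 uD0 uD1 (min_le_left _ _) le_rfl
        (by simpa only [zero_mul, add_zero] using c3)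
    · simp only [mul_zero, zero_mul, sub_zero, add_zero]
      refine val_ge b0 k0 t0 t1 J0 ?_ m0 Ψ0 hΨ
      rw [show z - a + a - 1 = z - 1 by ring, show z - a + d = z - h by linarith only [hd]]
      exact hJ
  · intro t t0 t1 t2
    obtain ⟨k1, k2, k3, k4⟩ := hup t t0 t1 t2
    simp only [zero_mul, sub_zero, add_zero, le_refl, true_and]
    exact ⟨k1, k2, mul_nonneg k1 (by linarith only [th, k2]), k3, k4⟩
  · simp
  · simpa only [zero_mul, add_zero, sub_zero] using psi_le b0 J0 m0 hΨ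
  · linarith only [hF, ηpK]

lemma plus_far {θ a z' b' al v s et u t : ℝ} (th : 0 < θ) (a0 : 0 < a)
    (hb' : b' = 1 - a - θ * z') (hal : θ * al = a * (1 - a)) (b0 : 0 ≤ b') (t0 : 0 ≤ t)
    (s0 : 0 ≤ s) (v2 : 2 ≤ v) (z1 : z' ≤ 1) (zp : 0 ≤ z' - 1 + a + t)
    (hu : u * (z' - 1 + a + t) = t - b') (het : 2 * b' - s ≤ et) :
    -et * t ≤ -t ^ 2 + (a + t) * (2 * u * (t - b') - u ^ 2 * (z' - 1 + a + t))
      + s * (v * t + al - z' * (a + t)) := by
  have f1 : 0 ≤ al - z' * a := by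
    refine nonneg_of_mul_nonneg_right ?_ th
    have : θ * (al - z' * a) = a * b' := by rw [mul_sub, hal, hb']; ring
    rw [this]; exact mul_nonneg a0.le b0
  have f2 : (a + t) * (2 * u * (t - b') - u ^ 2 * (z' - 1 + a + t))
      = (t - b') ^ 2 + (1 - z') * (u ^ 2 * (z' - 1 + a + t)) := by
    rw [← hu]; ring
  have f3 := mul_nonneg (sub_nonneg.2 z1) (mul_nonneg (sq_nonneg u) zp)
  have f4 := mul_nonneg s0 f1
  have f5 := mul_nonneg s0 (mul_nonneg (show 0 ≤ v - z' - 1 by linarith) t0)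
  have f6 := mul_le_mul_of_nonneg_right het t0
  rw [f2]
  linarith [sq_nonneg b']

lemma plus_mid {θ a z' b' al et ub k rh t : ℝ} (t0 : 0 ≤ t) (tr : t ≤ rh) (al0 : 0 ≤ al)
    (g0 : 0 ≤ (a + t) * (1 - a - t)) (u0 : 0 ≤ ub) (uk : ub ≤ k * t) (z1 : z' ≤ 1)
    (ha : 1 - θ ≤ a) (hu : t - b' ≤ ub * (z' - 1 + a + t))
    (het : 2 * b' - ub * (2 * θ - ub) ≤ et) (hk : k ^ 2 * (2 * rh + al) ≤ 1) :
    -et * t ≤ -t ^ 2 + 2 * ub * t * (2 * θ + 2 * a - 1 + t)
      - ub ^ 2 * (2 * t + al - (a + t) * (1 - a - t)) := by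
  have f1 := mul_le_mul_of_nonneg_right het t0
  have f2 := mul_le_mul_of_nonneg_right hu t0
  have f3 := mul_nonneg (mul_nonneg u0 t0) (show 0 ≤ θ + a - z' by linarith)
  have f4 := mul_nonneg (sq_nonneg ub) g0
  have f5 := mul_nonneg (sq_nonneg ub) t0
  have f6 : ub ^ 2 * (2 * t + al) ≤ (k * t) ^ 2 * (2 * rh + al) :=
    mul_le_mul (pow_le_pow_left₀ u0 uk 2) (by linarith) (by linarith) (sq_nonneg _)
  have f7 := mul_le_mul_of_nonneg_right hk (sq_nonneg t)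
  linarith

/-- Pivot certificate with shares between the two rests. -/
theorem Hyp.pivot2 (H : Hyp a θ w g A Φ c G) (x y : ι) (hx : a < g x) (hy : g y < a)
    (ymin : ∀ j, g y ≤ g j) (xmax : ∀ j, g j ≤ g x)
    {e W h w' W' p d al z b z' b' r r' : ℝ}
    (he : e = 1 - g x) (hW : W = w x) (W2 : W ≤ 2) (hh : h = g y) (hw' : w' = w y)
    (W1' : 1 ≤ W') (W2' : W' ≤ 2) (W3' : W' ≤ w') (hp : p = 1 - e - a) (hd : d = a - h)
    (hal : θ * al = a * (1 - a)) (hz : z * (1 - a) = W * p + (2 - W) * a * e) (hb : b = a - θ * z)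
    (hz' : z' * a = W' * d + (2 - W') * (1 - a) * h) (hb' : b' = 1 - a - θ * z')
    (hr : r = al - W * p) (hr' : r' = al - w' * d) (za : a < z)
    (l ξ uy ν1 J D2 uD ub : ℝ) (l0 : 0 ≤ l) (l1 : l ≤ θ) (ξ0 : 0 ≤ ξ) (ξ1 : ξ ≤ 1) (uy0 : 0 ≤ uy)
    (uy1 : uy ≤ θ) (ν10 : 0 ≤ ν1) (ν11 : ν1 ≤ uy * (2 * θ - uy))
    (c1 : ξ * (l * (2 * θ - l)) * W ≤ (uy * (2 * θ - uy) - ν1) * (W - (2 - W) * h) + ν1 * W)
    (c2 : (W' = w' ∧ (uy * (2 * θ - uy) - ν1) * (W - (2 - W) * h) + ν1 * W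
        ≤ (1 - ξ * e) * (l * (2 * θ - l)) * W)
      ∨ (uy * (2 * θ - uy) - ν1) * (W - (2 - W) * h) + ν1 * W ≤ (1 - ξ) * (l * (2 * θ - l)) * W)
    (hD : d ≤ D2 ∨ al - d ≤ D2) (hu : D2 - b ≤ uD * (z - a + D2)) (uD1 : uD ≤ θ)
    (c3 : uD * (2 * θ - uD) * (W - (2 - W) * (a - D2)) + ub * (2 * θ - ub) * (2 - W) * a
      ≤ (1 - ξ) * (l * (2 * θ - l)) * W)
    (J0 : 0 ≤ J) (hJ : (z - 1) * (d - b) ^ 2 ≤ J * d * (z - h))
    (m k rh q yy La et : ℝ) (m0 : 0 < m) (bm : b ≤ m) (hub : ub * (z - a + m) = m - b)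
    (ub1 : ub ≤ uD) (ubm : ub * m ≤ 2 * b) (q1 : q ≤ 1) (S4 : q * m ≤ r') (wq : 2 ≤ w' + q)
    (rr : r ≤ rh) (k0 : 0 ≤ k) (hY : 2 * θ * k * rh * m ≤ b ^ 2)
    (hS : b ^ 2 + ub * (2 * θ - ub) * rh ≤ (2 * b - 2 * θ * k * rh) * m)
    (y0 : 0 ≤ yy) (y1 : 1 - z ≤ yy)
    (hLa : 2 * yy * b * ub + ub * (2 * θ - ub) * (2 - W) * a * e ≤ La) (La1 : La ≤ b ^ 2)
    (N1 : ∀ t, 0 ≤ t → t ≤ rh →
      1 ≤ 2 * k * (2 * θ + 2 * a - 1 + t) - k ^ 2 * (2 * t + al - (a + t) * (1 - a - t)))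
    (et0 : 0 ≤ et)
    (hAB : (k * rh ≤ ub ∧ ub * (2 * θ - ub) ≤ ν1)
      ∨ (1 - a < z' ∧ z' ≤ 1 ∧ 1 - θ ≤ a ∧ 2 * b' - ub * (2 * θ - ub) ≤ et
        ∧ k ^ 2 * (2 * rh + al) ≤ 1 ∧ ∃ uP, rh - b' ≤ uP * (z' - 1 + a + rh) ∧ ub ≤ uP ∧ uP ≤ θ
        ∧ uP * (2 * θ - uP) * (W' - (2 - W') * (1 - a - rh))
          + ub * (2 * θ - ub) * (w' - (W' - (2 - W') * (1 - a))) ≤ ν1 * w'))
    (hF : 0 ≤ (1 - θ) * al - W * p ^ 2
      - W * (l * (2 - l) - ξ * (l * (2 * θ - l)) * (2 - W')) * ((1 - e) * e)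
      + w' * (-d ^ 2 + (1 - h) * (2 * uy * (d - b) - uy ^ 2 * (z - h)) - ν1 * (2 - W) * h * e)
      - (2 * b + J) * r' + q * (b ^ 2 - La) - et * rh) :
    Goal a θ w g Φ c G := by
  have W1 : 1 ≤ W := hW ▸ H.w1 x
  have W0 : 0 < W := by linarith only [W1]
  have w1 : 1 ≤ w' := hw' ▸ H.w1 y
  have w0 : 0 < w' := by linarith only [w1]
  have d0 : 0 < d := by linarith only [hd, hh, hy]
  have h0 : 0 ≤ h := hh ▸ H.g0 y
  have e0 : 0 ≤ e := by linarith only [he, H.g1 x]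
  have e1 : e ≤ 1 := by linarith only [he, H.g0 x]
  have z0 : 0 < z - a := sub_pos.2 za
  have b0 := H.b_nonneg x he hW W2 hp hz hb
  have b0' := H.b'_nonneg y hh hw' W1' W2' W3' hd hz' hb'
  have r0 : 0 ≤ r := by
    have := H.wp_le x hal
    rw [← hW, show g x - a = p by linarith only [he, hp]] at this
    linarith only [this, hr]
  have th := H.th0
  have a0 := H.a0
  have al0 : 0 ≤ al := by
    refine nonneg_of_mul_nonneg_right ?_ th
    rw [hal]; exact mul_nonneg a0.le (sub_nonneg.2 H.a1.le)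
  have ub0 : 0 ≤ ub := by
    refine nonneg_of_mul_nonneg_left ?_ (show 0 < z - a + m by linarith only [z0, m0])
    rw [hub]; exact sub_nonneg.2 bm
  have ubθ : ub ≤ θ := ub1.trans uD1
  have uD0 : 0 ≤ uD := ub0.trans ub1
  have sb0 : 0 ≤ ub * (2 * θ - ub) := mul_nonneg ub0 (by linarith only [th, ubθ])
  have yb : 0 ≤ 2 * yy * b * ub := by positivity
  have le0 : 0 ≤ ub * (2 * θ - ub) * (2 - W) * e :=
    mul_nonneg (mul_nonneg sb0 (sub_nonneg.2 W2)) e0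
  have hJ2 : (z - 1) * (d - b) ^ 2 ≤ J * d * (z - a + d) := by
    rw [show z - a + d = z - h by linarith only [hd]]; exact hJ
  obtain ⟨C1, C2⟩ := cap_pair W0 W1' W2' W3' ξ0 (mul_nonneg l0 (by linarith only [l1, th])) e0 e1
    c1 c2
  rw [add_div, mul_div_cancel_right₀ _ W0.ne'] at C1 C2
  have sν : ub * (2 * θ - ub) ≤ ν1 := by
    rcases hAB with f | ⟨_, _, _, _, _, uP, _, f2, f3, f4⟩
    · exact f.2
    · have := cap_plus (t := 0) W1' W2' w0 a0 le_rfl (sub_nonneg.2 H.a1.le) (r0.trans rr) f2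
        (ub0.trans f2) f3 sb0 f4
      rwa [sub_self, zero_mul, zero_div, zero_add] at this
  refine H.pivot x y hx hy ymin xmax he hW W2 hh hw' W1' W2' W3' hp hd hal hz hb hz' hb' hr hr'
    l ξ uy ν1 (ub * (2 * θ - ub)) m q (2 * b + J) (b ^ 2 - La) (2 * θ * k * rh) (2 * θ * k) et
    (fun t => if t ≤ m then t / m * ub else max (t - b) 0 / (z - a + t))
    (fun t => if k * t ≤ ub then k * t else max ub ((t - b') / (z' - 1 + a + t)))
    (fun t => if k * t ≤ ub then k * t * (2 * θ - k * t) else ub * (2 * θ - ub))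
    l0 l1 ξ0 ξ1 uy0 uy1 ν10 ν11 sb0 m0 C1 C2 ?_ ?_ (by positivity)
    (mul_le_mul_of_nonneg_left rr (by positivity)) (sub_nonneg.2 La1) ?_ (Or.inl q1) S4 et0 ?_
  · intro t t0 t1 t2
    have ta : t ≤ a := by linarith only [t1, hd, h0]
    have tD : t ≤ D2 := by
      rcases hD with f | f
      · exact t1.trans f
      · have := mul_le_mul_of_nonneg_right w1 d0.le
        linarith only [this, t2, f, hr']
    have lt := mul_nonneg le0 t0
    by_cases tm : t ≤ m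
    · have β0 : 0 ≤ t / m := div_nonneg t0 m0.le
      have β1 : t / m ≤ 1 := (div_le_one m0).2 tm
      have u0 := mul_nonneg β0 ub0
      have u1 : t / m * ub ≤ ub := mul_le_of_le_one_left ub0 β1
      simp only [if_pos tm, min_eq_right β1]
      refine ⟨u0, u1.trans ubθ, ?_, cap_rest W1 W2 H.a1 t0 ta tD (u1.trans ub1) uD0 uD1 β1 sb0 c3,
        ?_⟩
      · have := mul_le_mul_of_nonneg_left u1 u0
        linarith only [this]
      · have f1 := val_low b0 za t1 J0 hJ2 m0 β0 β1 (div_mul_cancel₀ t m0.ne').symm hub ub0 ubm hY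
          y0 y1
        have f2 := mul_le_mul_of_nonneg_right hLa β0
        have f3 := mul_nonneg lt β0
        linarith only [f1, f2, f3]
    · have mt := (not_le.1 tm).le
      have β1 : 1 ≤ t / m := (one_le_div m0).2 mt
      have p1 : 0 < z - a + t := by linarith only [z0, t0]
      have u1 : max (t - b) 0 / (z - a + t) ≤ uD := um_le b0 z0 t0 tD uD0 hu
      have u2 : ub ≤ max (t - b) 0 / (z - a + t) := by
        rw [le_div_iff₀ p1]
        refine le_trans ?_ (le_max_left _ _)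
        have := mul_le_of_le_one_left (sub_nonneg.2 mt)
          (show ub ≤ 1 by linarith only [ubθ, H.th1])
        linarith only [this, hub]
      simp only [if_neg tm, min_eq_left β1]
      refine ⟨ub0.trans u2, u1.trans uD1, ?_,
        cap_rest W1 W2 H.a1 t0 ta tD u1 uD0 uD1 le_rfl sb0 c3, ?_⟩
      · rw [one_mul]; exact s_mono u2 (u1.trans uD1)
      · have f1 := val_ge (a := a) b0 z0 t0 t1 J0
          (by rw [show z - a + a - 1 = z - 1 by ring]; exact hJ2) m0 (sq_nonneg b)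
          (Or.inr ⟨bm, le_rfl⟩)
        rw [min_eq_left β1] at f1
        linarith only [f1, hLa, lt, yb]
  · intro t t0 t1 t2
    have tr := t2.trans rr
    have ta : t ≤ 1 - a := by linarith only [t1, hp, e0]
    by_cases kt : k * t ≤ ub
    · have u0 : 0 ≤ k * t := mul_nonneg k0 t0.le
      have s0 : 0 ≤ k * t * (2 * θ - k * t) := mul_nonneg u0 (by linarith only [th, kt, ubθ])
      simp only [if_pos kt]
      refine ⟨u0, kt.trans ubθ, s0, s_mono kt ubθ, ?_, le_rfl, ?_, ?_⟩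
      · linarith only [mul_self_nonneg (k * t)]
      · rw [sub_self, zero_mul, zero_div, zero_add]; exact (s_mono kt ubθ).trans sν
      · refine le_trans ?_ (pure_plus hb' hal t0.le s0 wq)
        have f1 := mul_le_mul_of_nonneg_right (N1 t t0.le tr) (sq_nonneg t)
        have f2 := mul_nonneg et0 t0.le
        linarith only [f1, f2]
    · have uk := (not_le.1 kt).le
      rcases hAB with f | ⟨f0, f1, f2, f3, f4, uP, f5, f6, f7, f8⟩
      · exact absurd ((mul_le_mul_of_nonneg_left tr k0).trans f.1) kt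
      have kp : 0 < z' - 1 + a := by linarith only [f0]
      have p1 : 0 < z' - 1 + a + t := by linarith only [kp, t0]
      have u1 : max ub ((t - b') / (z' - 1 + a + t)) ≤ uP :=
        max_le f6 (le_trans (div_le_div_of_nonneg_right (le_max_left _ _) p1.le)
          (um_le b0' kp t0.le tr (ub0.trans f6) f5))
      simp only [if_neg kt]
      refine ⟨ub0.trans (le_max_left _ _), u1.trans f7, sb0, le_rfl, ?_,
        s_mono (le_max_left _ _) (u1.trans f7),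
        cap_plus W1' W2' w0 a0 t0.le ta tr u1 (ub0.trans f6) f7 sb0 f8, ?_⟩
      · have := mul_le_mul_of_nonneg_left uk th.le
        linarith only [this, mul_self_nonneg ub]
      · rcases le_total ub ((t - b') / (z' - 1 + a + t)) with f | f
        · rw [max_eq_right f]
          exact plus_far th a0 hb' hal b0' t0.le sb0 wq f1 p1.le (div_mul_cancel₀ _ p1.ne') f3
        · rw [max_eq_left f]
          refine le_trans ?_ (pure_plus hb' hal t0.le sb0 wq)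
          exact plus_mid t0.le tr al0 (mul_nonneg (by linarith only [a0, t0]) (sub_nonneg.2 ta))
            ub0 uk f1 f2 ((div_le_iff₀ p1).1 f) f3 f4
  · have f1 := mul_le_mul_of_nonneg_left rr sb0
    have f2 := mul_nonneg J0 m0.le
    have f3 := mul_nonneg le0 a0.le
    linarith only [f1, f2, f3, hS, hLa, yb]
  · have := mul_le_mul_of_nonneg_left rr et0
    linarith only [hF, this]

end Pool.Agent.Lib.MP_43bc59_co
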