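import Pool.Agent.Lib.MP_43bc59_co.F_X1

set_option autoImplicit false

namespace Pool.Agent.Lib.MP_43bc59_co

open Finset

variable {ι : Type} [Fintype ι] [DecidableEq ι] {a θ : ℝ} {w g A Φ : ι → ℝ} {c G : ι → ι → ℝ}

/-- value of a lower letter at the optimal level, pointwise slope condition -/
lemma val_ge2 {a b k J Ψ H t : ℝ} (b0 : 0 ≤ b) (k0 : 0 < k) (t0 : 0 ≤ t) (J0 : 0 ≤ J)
    (hJ : (k + a - 1) * (max (t - b) 0 / (k + t)) ≤ J) (H0 : 0 < H) (Ψ0 : 0 ≤ Ψ)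
    (hΨ : Ψ ≤ 2 * b * H - H ^ 2 ∨ (b ≤ H ∧ Ψ ≤ b ^ 2)) :
    -(2 * b + J) * t + Ψ * min 1 (t / H)
      ≤ -t ^ 2 + (1 - a + t) * (2 * (max (t - b) 0 / (k + t)) * (t - b)
        - (max (t - b) 0 / (k + t)) ^ 2 * (k + t)) := by
  have p1 : 0 < k + t := by linarith
  rcases le_total b t with h | h
  · refine val_ge b0 k0 t0 le_rfl J0 ?_ H0 Ψ0 hΨ
    rw [max_eq_left (sub_nonneg.2 h), ← mul_div_assoc, div_le_iff₀ p1] at hJ
    have f1 := mul_le_mul_of_nonneg_right hJ (sub_nonneg.2 h)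
    have f2 := mul_nonneg (mul_nonneg J0 p1.le) b0
    linarith
  · have f := val_ge (a := 1 - k) b0 k0 t0 le_rfl J0
      (by
        rw [show k + (1 - k) - 1 = 0 by ring, zero_mul]
        exact mul_nonneg (mul_nonneg J0 t0) p1.le) H0 Ψ0 hΨ
    rw [max_eq_right (sub_nonpos.2 h), zero_div] at f ⊢
    linarith

/-- Pivot certificate for the middle zone: slack affine in the weight of the lower pivot. -/
theorem Hyp.pivotMw (H : Hyp a θ w g A Φ c G) (x y : ι) (hx : a < g x) (hy : g y < a)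
    (ymin : ∀ j, g y ≤ g j) (xmax : ∀ j, g j ≤ g x) {e W h p d al z b r : ℝ}
    (he : e = 1 - g x) (hW : W = w x) (W2 : W ≤ 2) (hh : h = g y)
    (hp : p = 1 - e - a) (hd : d = a - h) (hal : θ * al = a * (1 - a))
    (hz : z * (1 - a) = W * p + (2 - W) * a * e) (hb : b = a - θ * z) (hr : r = al - W * p)
    (l ξ uy J Ψ D2 uD Nn Dn P Zy B : ℝ) (h0 : 0 < h) (za : a < z) (l0 : 0 ≤ l) (l1 : l ≤ θ)
    (ξ0 : 0 ≤ ξ) (ξ1 : ξ ≤ 1) (uy0 : 0 ≤ uy) (uy1 : uy ≤ θ)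
    (hξ : ξ = 0 ∨ al ≤ 2 * d ∨ w y ≤ 2)
    (cap0 : ξ * (l * (2 * θ - l)) * W ≤ uy * (2 * θ - uy) * (W - (2 - W) * h))
    (cap1 : uy * (2 * θ - uy) * (W - (2 - W) * h) ≤ (1 - ξ * e) * (l * (2 * θ - l)) * W)
    (hD : d ≤ D2 ∨ al - d ≤ D2) (hu : D2 - b ≤ uD * (z - a + D2)) (uD0 : 0 ≤ uD) (uD1 : uD ≤ θ)
    (cap2 : uD * (2 * θ - uD) * (W - (2 - W) * (a - D2)) ≤ (1 - ξ) * (l * (2 * θ - l)) * W)
    (J0 : 0 ≤ J) (hJ : (z - 1) * uD ≤ J ∨ (z - 1) * (d - b) ^ 2 ≤ J * d * (z - h)) (Ψ0 : 0 ≤ Ψ)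
    (hΨ : Ψ ≤ 2 * b * ((1 - a) * h) - ((1 - a) * h) ^ 2 ∨ (b ≤ (1 - a) * h ∧ Ψ ≤ b ^ 2))
    (hP : P = Ψ + ξ * (l * (2 * θ - l)) * W * ((1 - e) * e))
    (hZ : Zy = -d ^ 2 + (1 - h) * (2 * uy * (d - b) - uy ^ 2 * (z - h)) + (2 * b + J) * d)
    (hB : B = (1 - θ) * al - W * p ^ 2 - W * (l * (2 - l)) * ((1 - e) * e) - (2 * b + J) * al
      - r ^ 2)
    (Dn0 : 0 < Dn) (hN : w y * Dn ≤ Nn) (F1 : 0 ≤ B + Zy + P)
    (F2 : 0 ≤ Dn * (B + 2 * P) + Nn * (Zy - P)) :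
    Goal a θ w g Φ c G := by
  have W1 : 1 ≤ W := hW ▸ H.w1 x
  have W0 : 0 < W := by linarith only [W1]
  have w1 := H.w1 y
  have w0 : 0 < w y := by linarith only [w1]
  have d0 : 0 < d := by linarith only [hd, hh, hy]
  have e0 : 0 ≤ e := by linarith only [he, H.g1 x]
  have e1 : e ≤ 1 := by linarith only [he, H.g0 x]
  have k0 : 0 < z - a := sub_pos.2 za
  have b0 := H.b_nonneg x he hW W2 hp hz hb
  have r0 : 0 ≤ r := by
    have := H.wp_le x hal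
    rw [← hW, show g x - a = p by linarith only [he, hp]] at this
    linarith only [this, hr]
  have th := H.th0
  have sl := mul_nonneg l0 (show 0 ≤ 2 * θ - l by linarith only [l1, th])
  have m0 := mul_pos (sub_pos.2 H.a1) h0
  have m1 : 1 ≤ min (w y) 2 := le_min w1 one_le_two
  have hξ' : ξ = 0 ∨ (w y ≤ 2 ∧ (2 : ℝ) ≤ 2) := by
    rcases hξ with k | k | k
    · exact Or.inl k
    · have t := H.wd_le y hal
      rw [← hh, ← hd] at t
      exact Or.inr ⟨le_of_mul_le_mul_right (t.trans k) d0, le_rfl⟩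
    · exact Or.inr ⟨k, le_rfl⟩
  obtain ⟨C1, C2, -⟩ := cap_xi w1 W0 ξ0 sl e0 hξ' cap0 (by linarith only [cap1])
  have P0 : 0 ≤ P := by
    rw [hP]
    exact add_nonneg Ψ0 (mul_nonneg (mul_nonneg (mul_nonneg ξ0 sl) W0.le)
      (mul_nonneg (sub_nonneg.2 e1) e0))
  have key : 0 ≤ B + w y * Zy + (2 - min (w y) 2) * P := by
    have f0 := mul_le_mul_of_nonneg_right (min_le_left (w y) 2) P0
    rcases le_total P Zy with k | k
    · have := mul_nonneg (sub_nonneg.2 w1) (sub_nonneg.2 k)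
      linarith only [this, F1, f0]
    · have f1 := mul_le_mul_of_nonneg_right hN (sub_nonneg.2 k)
      have f2 : 0 ≤ (B + w y * Zy + (2 - w y) * P) * Dn := by linarith only [f1, F2]
      have f3 := nonneg_of_mul_nonneg_left f2 Dn0
      linarith only [f3, f0]
  refine H.pivot x y hx hy ymin xmax
    (z' := (min (w y) 2 * d + (2 - min (w y) 2) * (1 - a) * h) / a) he hW W2 hh rfl m1
    (min_le_right _ _) (min_le_left _ _) hp hd hal hz hb (div_mul_cancel₀ _ H.a0.ne') rfl hr rfl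
    l ξ uy 0 0 ((1 - a) * h) (2 - min (w y) 2) (2 * b + J) Ψ
    0 0 r (fun t => max (t - b) 0 / (z - a + t)) (fun _ => 0) (fun _ => 0) l0 l1 ξ0 ξ1
    uy0 uy1 le_rfl (mul_nonneg uy0 (by linarith only [th, uy1])) le_rfl m0 ?_ ?_ ?_ ?_ le_rfl ?_ Ψ0
    ?_ (Or.inl (by linarith only [m1])) (by rw [hd, hh]; exact H.gap_down y hal) r0 ?_
  · simpa only [sub_zero, add_zero] using C1
  · simpa only [sub_zero, add_zero] using C2
  · intro t t0 t1 t2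
    have ta : t ≤ a := by linarith only [t1, hd, h0]
    have u0 : 0 ≤ max (t - b) 0 / (z - a + t) :=
      div_nonneg (le_max_right _ _) (by linarith only [k0, t0])
    have tD : t ≤ D2 := by
      rcases hD with k | k
      · exact t1.trans k
      · have := mul_le_mul_of_nonneg_right w1 d0.le
        linarith only [this, t2, k]
    have u1 : max (t - b) 0 / (z - a + t) ≤ uD := um_le b0 k0 t0 tD uD0 hu
    refine ⟨u0, u1.trans uD1, ?_, ?_, ?_⟩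
    · rw [mul_zero]; exact mul_nonneg u0 (by linarith only [th, u1, uD1])
    · exact cap_rest W1 W2 H.a1 t0 ta tD u1 uD0 uD1 (min_le_left _ _) le_rfl
        (by simpa only [zero_mul, add_zero] using cap2)
    · simp only [mul_zero, zero_mul, sub_zero, add_zero]
      rcases hJ with k | k
      · refine val_ge2 b0 k0 t0 J0 ?_ m0 Ψ0 hΨ
        rw [show z - a + a - 1 = z - 1 by ring]
        rcases le_total z 1 with f | f
        · exact le_trans (mul_nonpos_of_nonpos_of_nonneg (sub_nonpos.2 f) u0) J0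
        · exact (mul_le_mul_of_nonneg_left u1 (sub_nonneg.2 f)).trans k
      · refine val_ge b0 k0 t0 t1 J0 ?_ m0 Ψ0 hΨ
        rw [show z - a + a - 1 = z - 1 by ring, show z - a + d = z - h by linarith only [hd]]
        exact k
  · intro t t0 _ t2
    simp only [mul_zero, zero_mul, sub_zero, add_zero, zero_div, le_refl, true_and,
      zero_pow two_ne_zero]
    have := mul_le_mul_of_nonneg_right t2 t0.le
    exact ⟨th.le, by linarith only [this]⟩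
  · simp
  · simpa only [zero_mul, add_zero, sub_zero] using psi_le b0 J0 m0 hΨ
  · refine key.trans (le_of_eq ?_)
    rw [hB, hZ, hP]
    ring

/-- The same with the default cap `w y * d ≤ al`. -/
theorem Hyp.pivotM (H : Hyp a θ w g A Φ c G) (x y : ι) (hx : a < g x) (hy : g y < a)
    (ymin : ∀ j, g y ≤ g j) (xmax : ∀ j, g j ≤ g x) {e W h p d al z b r : ℝ}
    (he : e = 1 - g x) (hW : W = w x) (W2 : W ≤ 2) (hh : h = g y)
    (hp : p = 1 - e - a) (hd : d = a - h) (hal : θ * al = a * (1 - a))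
    (hz : z * (1 - a) = W * p + (2 - W) * a * e) (hb : b = a - θ * z) (hr : r = al - W * p)
    (l ξ uy J Ψ D2 uD P Zy B : ℝ) (h0 : 0 < h) (za : a < z) (l0 : 0 ≤ l) (l1 : l ≤ θ)
    (ξ0 : 0 ≤ ξ) (ξ1 : ξ ≤ 1) (uy0 : 0 ≤ uy) (uy1 : uy ≤ θ)
    (hξ : ξ = 0 ∨ al ≤ 2 * d ∨ w y ≤ 2)
    (cap0 : ξ * (l * (2 * θ - l)) * W ≤ uy * (2 * θ - uy) * (W - (2 - W) * h))
    (cap1 : uy * (2 * θ - uy) * (W - (2 - W) * h) ≤ (1 - ξ * e) * (l * (2 * θ - l)) * W)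
    (hD : d ≤ D2 ∨ al - d ≤ D2) (hu : D2 - b ≤ uD * (z - a + D2)) (uD0 : 0 ≤ uD) (uD1 : uD ≤ θ)
    (cap2 : uD * (2 * θ - uD) * (W - (2 - W) * (a - D2)) ≤ (1 - ξ) * (l * (2 * θ - l)) * W)
    (J0 : 0 ≤ J) (hJ : (z - 1) * uD ≤ J ∨ (z - 1) * (d - b) ^ 2 ≤ J * d * (z - h)) (Ψ0 : 0 ≤ Ψ)
    (hΨ : Ψ ≤ 2 * b * ((1 - a) * h) - ((1 - a) * h) ^ 2 ∨ (b ≤ (1 - a) * h ∧ Ψ ≤ b ^ 2))
    (hP : P = Ψ + ξ * (l * (2 * θ - l)) * W * ((1 - e) * e))
    (hZ : Zy = -d ^ 2 + (1 - h) * (2 * uy * (d - b) - uy ^ 2 * (z - h)) + (2 * b + J) * d)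
    (hB : B = (1 - θ) * al - W * p ^ 2 - W * (l * (2 - l)) * ((1 - e) * e) - (2 * b + J) * al
      - r ^ 2)
    (F1 : 0 ≤ B + Zy + P) (F2 : 0 ≤ d * (B + 2 * P) + al * (Zy - P)) :
    Goal a θ w g Φ c G :=
  H.pivotMw x y hx hy ymin xmax he hW W2 hh hp hd hal hz hb hr l ξ uy J Ψ D2 uD al d P Zy B h0 za
    l0 l1 ξ0 ξ1 uy0 uy1 hξ cap0 cap1 hD hu uD0 uD1 cap2 J0 hJ Ψ0 hΨ hP hZ hB
    (by linarith only [hd, hh, hy]) (by rw [hd, hh]; exact H.wd_le y hal) F1 F2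

end Pool.Agent.Lib.MP_43bc59_co
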