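import Pool.Agent.Lib.MP_43bc59_co.Cls

set_option autoImplicit false

namespace Pool.Agent.Lib.MP_43bc59_co

open Finset

variable {n : ℕ} {r : Fin n → Fin n → Prop}

open Classical in
/-- weakly order preserving maps to `{0, …, m}` which are extreme outside the block -/
noncomputable def KK (p q m : ℕ) (σ0 : X r) : Finset (Fin n → ℕ) :=
  (Fintype.piFinset (fun _ => range (m + 1))).filter (fun s => (∀ a b, r a b → s a ≤ s b) ∧
    (∀ a, pos σ0 a < p → s a = 0) ∧ (∀ a, q ≤ pos σ0 a → s a = m))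

lemma mem_KK {p q m : ℕ} {σ0 : X r} {s : Fin n → ℕ} : s ∈ KK p q m σ0 ↔ (∀ a, s a ≤ m) ∧
    (∀ a b, r a b → s a ≤ s b) ∧ (∀ a, pos σ0 a < p → s a = 0) ∧ (∀ a, q ≤ pos σ0 a → s a = m) := by
  unfold KK
  simp only [mem_filter, Fintype.mem_piFinset, mem_range, Nat.lt_succ_iff]

open Classical in
/-- monotone sequences which are extreme outside the block -/
noncomputable def VV (n p q m : ℕ) : Finset (Fin n → ℕ) :=
  (Fintype.piFinset (fun _ => range (m + 1))).filter (fun v => Monotone v ∧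
    (∀ k : Fin n, (k : ℕ) < p → v k = 0) ∧ (∀ k : Fin n, q ≤ (k : ℕ) → v k = m))

lemma mem_VV {p q m : ℕ} {v : Fin n → ℕ} : v ∈ VV n p q m ↔ (∀ a, v a ≤ m) ∧ Monotone v ∧
    (∀ k : Fin n, (k : ℕ) < p → v k = 0) ∧ (∀ k : Fin n, q ≤ (k : ℕ) → v k = m) := by
  unfold VV
  simp only [mem_filter, Fintype.mem_piFinset, mem_range, Nat.lt_succ_iff]

lemma card_VV {p l m : ℕ} (hq : p + l ≤ n) : (VV n p (p + l) m).card ≤ (m + n + 1).choose l := by
  classical
  rw [← card_range (m + n + 1), ← card_powersetCard]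
  have sm : ∀ v ∈ VV n p (p + l) m,
      StrictMono (fun j : Fin l => v ⟨p + j, by omega⟩ + (j : ℕ)) := by
    intro v hv i j hij
    have h1 := (mem_VV.1 hv).2.1 (show (⟨p + i, by omega⟩ : Fin n) ≤ ⟨p + j, by omega⟩ from by
      rw [Fin.mk_le_mk]; have := Fin.lt_def.1 hij; omega)
    have := Fin.lt_def.1 hij
    simp only; omega
  have cd : ∀ v ∈ VV n p (p + l) m,
      (univ.image (fun j : Fin l => v ⟨p + j, by omega⟩ + (j : ℕ))).card = l := by
    intro v hv
    rw [card_image_of_injective _ (sm v hv).injective]; simp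
  apply card_le_card_of_injOn
    (fun v => univ.image (fun j : Fin l => v ⟨p + j, by omega⟩ + (j : ℕ)))
  · intro v hv
    rw [mem_coe] at hv
    rw [mem_coe, mem_powersetCard]
    refine ⟨?_, cd v hv⟩
    intro x hx
    obtain ⟨j, _, rfl⟩ := mem_image.1 hx
    have := (mem_VV.1 hv).1 ⟨p + j, by omega⟩
    rw [mem_range]; omega
  · intro v hv w hw h
    rw [mem_coe] at hv hw
    simp only at h
    have a1 := orderEmbOfFin_unique (cd v hv) (fun j => mem_image_of_mem _ (mem_univ j)) (sm v hv)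
    have a2 := orderEmbOfFin_unique (cd v hv) (f := fun j : Fin l => w ⟨p + j, by omega⟩ + (j : ℕ))
      (fun j => by rw [h]; exact mem_image_of_mem _ (mem_univ j)) (sm w hw)
    funext k
    by_cases h1 : (k : ℕ) < p
    · rw [(mem_VV.1 hv).2.2.1 k h1, (mem_VV.1 hw).2.2.1 k h1]
    · by_cases h2 : p + l ≤ (k : ℕ)
      · rw [(mem_VV.1 hv).2.2.2 k h2, (mem_VV.1 hw).2.2.2 k h2]
      · have := congrFun (a1.trans a2.symm) ⟨k - p, by omega⟩
        simp only at this
        have e : (⟨p + (k - p), by omega⟩ : Fin n) = k := Fin.ext (by simp only; omega)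
        rw [e] at this; omega

lemma exists_sorted {p q m : ℕ} {C : Finset (X r)} (hC : IsCl p q C) {σ0 : X r} (h0 : σ0 ∈ C)
    {s : Fin n → ℕ} (hs : s ∈ KK p q m σ0) : ∃ σ ∈ C, Monotone (s ∘ σ.1) := by
  classical
  rw [mem_KK] at hs
  obtain ⟨s1, s2, s3, s4⟩ := hs
  set κ : Fin n → ℕ := fun a => s a * n + pos σ0 a with hκ
  have k1 : ∀ a b, κ a ≤ κ b → s a ≤ s b := by
    intro a b h
    by_contra hc
    have h1 : (s b + 1) * n ≤ s a * n := Nat.mul_le_mul_right n (by omega)
    have := pos_lt σ0 b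
    simp only [hκ] at h
    nlinarith
  have k2 : Function.Injective κ := by
    intro a b h
    have e : s a = s b := le_antisymm (k1 a b h.le) (k1 b a h.ge)
    simp only [hκ, e] at h
    exact pos_inj σ0 (by omega)
  have k3 : ∀ a b, s a ≤ s b → pos σ0 a ≤ pos σ0 b → κ a ≤ κ b := by
    intro a b h1 h2
    have := Nat.mul_le_mul_right n h1
    simp only [hκ]; omega
  set u := Tuple.sort κ with hu
  have m1 : Monotone (κ ∘ u) := Tuple.monotone_sort κ
  have m2 : StrictMono (κ ∘ u) := m1.strictMono_of_injective (k2.comp u.injective)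
  have m3 : ∀ a b, κ a ≤ κ b ↔ u⁻¹ a ≤ u⁻¹ b := by
    intro a b
    rw [← m2.le_iff_le]; simp
  have ok : Ok r u := fun a b h => (m3 a b).1 (k3 a b (s2 a b h) (pos_le σ0 h))
  have rel : Rel (Sb n p q) σ0 ⟨u, ok⟩ := by
    intro μ hμ
    rw [mem_Sb] at hμ
    by_contra hc
    obtain ⟨b, hb⟩ := exists_cross hc
    obtain ⟨a, ha⟩ := exists_cross (σ := ⟨u, ok⟩) (ρ := σ0) (μ := μ) (fun h => hc (fun a => (h a).symm))
    have : s b ≤ s a := by
      rcases hμ.2 with h | h
      · rw [s3 b (by omega)]; omega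
      · rw [s4 a (by omega)]; exact s1 b
    have h2 := Fin.le_def.1 ((m3 b a).1 (k3 b a this (by omega)))
    unfold pos at ha hb
    simp only at ha hb
    omega
  exact ⟨⟨u, ok⟩, (hC σ0 h0 _).2 rel, fun a b h => k1 _ _ (m1 h)⟩

lemma KK_le {p q m : ℕ} {C : Finset (X r)} (hC : IsCl p q C) {σ0 : X r} (h0 : σ0 ∈ C) :
    (KK p q m σ0).card ≤ C.card * (VV n p q m).card := by
  classical
  rw [← card_product]
  apply card_le_card_of_surjOn (fun z : X r × (Fin n → ℕ) => fun a => z.2 (z.1.1⁻¹ a))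
  intro s hs
  rw [mem_coe] at hs
  obtain ⟨σ, hmem, hm⟩ := exists_sorted hC h0 hs
  obtain ⟨s1, s2, s3, s4⟩ := mem_KK.1 hs
  refine ⟨(σ, s ∘ σ.1), ?_, ?_⟩
  · rw [mem_coe, mem_product]
    refine ⟨hmem, mem_VV.2 ⟨fun a => s1 _, hm, fun k hk => ?_, fun k hk => ?_⟩⟩
    · have e : pos σ (σ.1 k) = k := by simp [pos]
      have := hC.pos_eq hmem h0 (σ.1 k) (by omega)
      exact s3 _ (by omega)
    · have e : pos σ (σ.1 k) = k := by simp [pos]
      have := hC.pos_eq hmem h0 (σ.1 k) (by omega)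
      exact s4 _ (by omega)
  · funext a; simp

/-- the `j`-th element of a finite set of naturals -/
noncomputable def el (U : Finset ℕ) (j : ℕ) : ℕ :=
  if h : j < U.card then U.orderEmbOfFin rfl ⟨j, h⟩ else 0

lemma el_mem {U : Finset ℕ} {j : ℕ} (h : j < U.card) : el U j ∈ U := by
  unfold el; rw [dif_pos h]; exact orderEmbOfFin_mem _ _ _

lemma el_lt {U : Finset ℕ} {i j : ℕ} (hij : i < j) (h : j < U.card) : el U i < el U j := by
  unfold el; rw [dif_pos h, dif_pos (hij.trans h)]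
  exact (U.orderEmbOfFin rfl).strictMono (by rw [Fin.mk_lt_mk]; exact hij)

lemma el_surj {U : Finset ℕ} {x : ℕ} (h : x ∈ U) : ∃ j, j < U.card ∧ el U j = x := by
  have : x ∈ Set.range (U.orderEmbOfFin rfl) := by rw [range_orderEmbOfFin]; exact h
  obtain ⟨j, hj⟩ := this
  exact ⟨j, j.2, by unfold el; rw [dif_pos j.2]; exact hj⟩

lemma le_KK {p l m : ℕ} (hq : p + l ≤ n) {C : Finset (X r)} (hC : IsCl p (p + l) C) {σ0 : X r}
    (h0 : σ0 ∈ C) : C.card * (m + 1).choose l ≤ (KK p (p + l) m σ0).card := by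
  classical
  rw [← card_range (m + 1), ← card_powersetCard, ← card_product]
  apply card_le_card_of_injOn (fun z : X r × Finset ℕ => fun a =>
    if pos z.1 a < p then 0 else if p + l ≤ pos z.1 a then m else el z.2 (pos z.1 a - p))
  · rintro ⟨σ, U⟩ hz
    rw [mem_coe, mem_product, mem_powersetCard] at hz
    obtain ⟨hσ, hU, hc⟩ := hz
    simp only at hσ hU hc
    have b : ∀ j, j < l → el U j ≤ m := fun j hj => by
      have := mem_range.1 (hU (el_mem (hc ▸ hj))); omega
    rw [mem_coe, mem_KK]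
    refine ⟨fun a => ?_, fun a c h => ?_, fun a h => ?_, fun a h => ?_⟩
    · simp only
      split_ifs
      · omega
      · exact le_rfl
      · exact b _ (by omega)
    · have := pos_le σ h
      simp only
      split_ifs <;> try omega
      · exact b _ (by omega)
      · rcases this.eq_or_lt with e | e
        · rw [e]
        · exact (el_lt (by omega) (by omega)).le
    · have := hC.pos_eq h0 hσ a (by omega)
      simp only; rw [if_pos (by omega)]
    · have := hC.pos_eq h0 hσ a (by omega)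
      simp only; rw [if_neg (by omega), if_pos (by omega)]
  · have sub : ∀ (σ ρ : X r) (U W : Finset ℕ), σ ∈ C → ρ ∈ C → U.card = l → W.card = l →
        (∀ a, (if pos σ a < p then 0 else if p + l ≤ pos σ a then m else el U (pos σ a - p))
          = (if pos ρ a < p then 0 else if p + l ≤ pos ρ a then m else el W (pos ρ a - p))) →
        U ⊆ W := by
      intro σ ρ U W hσ hρ hU hW h x hx
      obtain ⟨j, hj, rfl⟩ := el_surj hx
      obtain ⟨a, ha⟩ := pos_surj σ (show p + j < n by omega)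
      have h1 := h a
      have h2 : ¬ (pos ρ a < p ∨ p + l ≤ pos ρ a) := fun hc => by
        have := hC.pos_eq hρ hσ a hc; omega
      rw [if_neg (by omega), if_neg (by omega), if_neg (by omega), if_neg (by omega), ha,
        Nat.add_sub_cancel_left] at h1
      rw [h1]; exact el_mem (by omega)
    rintro ⟨σ, U⟩ hz ⟨ρ, W⟩ hw h
    rw [mem_coe, mem_product, mem_powersetCard] at hz hw
    simp only at hz hw h
    have h' := congrFun h
    have e : U = W := Subset.antisymm (sub σ ρ U W hz.1 hw.1 hz.2.2 hw.2.2 h')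
      (sub ρ σ W U hw.1 hz.1 hw.2.2 hz.2.2 (fun a => (h' a).symm))
    subst e
    refine Prod.ext (eq_of_pos (funext fun a => ?_)) rfl
    by_cases h1 : pos σ a < p ∨ p + l ≤ pos σ a
    · exact (hC.pos_eq hz.1 hw.1 a h1).symm
    · have h2 : ¬ (pos ρ a < p ∨ p + l ≤ pos ρ a) := fun hc => by
        have := hC.pos_eq hw.1 hz.1 a hc; omega
      have h3 := h' a
      rw [if_neg (by omega), if_neg (by omega), if_neg (by omega), if_neg (by omega)] at h3
      show pos σ a = pos ρ a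
      rcases lt_trichotomy (pos σ a - p) (pos ρ a - p) with h4 | h4 | h4
      · have := el_lt (U := U) h4 (by omega); omega
      · omega
      · have := el_lt (U := U) h4 (by omega); omega

lemma KK_up {p l m : ℕ} (hq : p + l ≤ n) {C : Finset (X r)} (hC : IsCl p (p + l) C) {σ0 : X r}
    (h0 : σ0 ∈ C) : ((KK p (p + l) m σ0).card : ℝ) * l.factorial
      ≤ C.card * ((m : ℝ) + (n + 1 : ℕ)) ^ l := by
  have h1 : ((KK p (p + l) m σ0).card : ℝ) ≤ C.card * ((m + n + 1).choose l : ℕ) := by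
    exact_mod_cast (KK_le hC h0).trans (Nat.mul_le_mul_left _ (card_VV hq))
  have h2 : (((m + n + 1).choose l : ℕ) : ℝ) ≤ ((m + n + 1 : ℕ) : ℝ) ^ l / l.factorial := by
    exact_mod_cast Nat.choose_le_pow_div (α := ℝ) l (m + n + 1)
  have h3 : (0 : ℝ) < l.factorial := by exact_mod_cast l.factorial_pos
  rw [le_div_iff₀ h3] at h2
  have h4 : ((m + n + 1 : ℕ) : ℝ) = (m : ℝ) + (n + 1 : ℕ) := by push_cast; ring
  rw [h4] at h2
  nlinarith [mul_le_mul_of_nonneg_right h1 h3.le,
    mul_le_mul_of_nonneg_left h2 (Nat.cast_nonneg (α := ℝ) C.card)]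

lemma KK_low {p l m : ℕ} (hq : p + l ≤ n) (hm : n + 1 ≤ m) {C : Finset (X r)}
    (hC : IsCl p (p + l) C) {σ0 : X r} (h0 : σ0 ∈ C) :
    C.card * ((m : ℝ) - (n + 1 : ℕ)) ^ l ≤ ((KK p (p + l) m σ0).card : ℝ) * l.factorial := by
  have h1 : (C.card : ℝ) * ((m + 1).choose l : ℕ) ≤ (KK p (p + l) m σ0).card := by
    exact_mod_cast le_KK hq hC h0
  have h2 : ((m + 1 + 1 - l : ℕ) : ℝ) ^ l / l.factorial ≤ (((m + 1).choose l : ℕ) : ℝ) := by
    exact_mod_cast Nat.pow_le_choose (α := ℝ) l (m + 1)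
  have h3 : (0 : ℝ) < l.factorial := by exact_mod_cast l.factorial_pos
  rw [div_le_iff₀ h3] at h2
  have h4 : ((m : ℝ) - (n + 1 : ℕ)) ^ l ≤ ((m + 1 + 1 - l : ℕ) : ℝ) ^ l := by
    apply pow_le_pow_left₀
    · have : ((n + 1 : ℕ) : ℝ) ≤ m := by exact_mod_cast hm
      linarith
    · rw [← Nat.cast_sub hm]; exact_mod_cast (by omega)
  nlinarith [mul_le_mul_of_nonneg_right h1 h3.le,
    mul_le_mul_of_nonneg_left (h4.trans h2) (Nat.cast_nonneg (α := ℝ) C.card)]

lemma lim_le (x y : ℝ) (k L : ℕ)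
    (h : ∀ m : ℕ, L ≤ m → x * ((m : ℝ) - L) ^ k ≤ y * ((m : ℝ) + L) ^ k) : x ≤ y := by
  have t0 : Filter.Tendsto (fun m : ℕ => (L : ℝ) / m) Filter.atTop (nhds 0) :=
    tendsto_const_div_atTop_nhds_zero_nat _
  have t1 : Filter.Tendsto (fun m : ℕ => x * (1 - (L : ℝ) / m) ^ k) Filter.atTop
      (nhds (x * (1 - 0) ^ k)) := ((t0.const_sub 1).pow k).const_mul x
  have t2 : Filter.Tendsto (fun m : ℕ => y * (1 + (L : ℝ) / m) ^ k) Filter.atTop
      (nhds (y * (1 + 0) ^ k)) := ((t0.const_add 1).pow k).const_mul y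
  have := le_of_tendsto_of_tendsto t1 t2 (by
    filter_upwards [Filter.eventually_ge_atTop (L + 1)] with m hm
    have hm0 : (0 : ℝ) < m := by exact_mod_cast (show 0 < m by omega)
    have e1 : (1 - (L : ℝ) / m) = ((m : ℝ) - L) / m := by field_simp
    have e2 : (1 + (L : ℝ) / m) = ((m : ℝ) + L) / m := by field_simp
    rw [e1, e2, div_pow, div_pow, ← mul_div_assoc, ← mul_div_assoc]
    exact div_le_div_of_nonneg_right (h m (by omega)) (by positivity))
  simpa using this

/-- a possible first letter is first with probability at least one over the length -/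
lemma fish_one {p l : ℕ} (hq : p + l + 1 ≤ n) {C : Finset (X r)} (hC : IsCl p (p + l + 1) C)
    {x : Fin n} {σ : X r} (hσ : σ ∈ sub C x p) :
    (C.card : ℝ) ≤ (l + 1) * (sub C x p).card := by
  classical
  have hx := mem_sub.1 hσ
  have hCx : IsCl (p + 1) (p + 1 + l) (sub C x p) := by
    have := hC.first x; rwa [show p + l + 1 = p + 1 + l by omega] at this
  apply lim_le _ _ (l + 1) (n + 1)
  intro m hm
  have a1 := KK_low (l := l + 1) hq hm hC hx.1
  have a2 := KK_up (m := m) (by omega) hCx hσ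
  have a3 : (KK p (p + (l + 1)) m σ).card ≤ (m + 1) * (KK (p + 1) (p + 1 + l) m σ).card := by
    rw [← card_range (m + 1), ← card_product]
    apply card_le_card_of_injOn (fun s => (s x, Function.update s x 0))
    · intro s hs
      rw [mem_coe, mem_KK] at hs
      obtain ⟨s1, s2, s3, s4⟩ := hs
      rw [mem_coe, mem_product, mem_range, mem_KK]
      refine ⟨Nat.lt_succ_of_le (s1 x), fun a => ?_, fun a b h => ?_, fun a h => ?_, fun a h => ?_⟩
      · simp only [Function.update_apply]; split_ifs; exacts [Nat.zero_le _, s1 a]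
      · simp only [Function.update_apply]
        split_ifs with h1 h2 h2
        · exact le_rfl
        · exact Nat.zero_le _
        · have b1 := pos_le σ h
          have b2 : pos σ a ≠ p := fun e => h1 (pos_inj σ (e.trans hx.2.symm))
          rw [h2, hx.2] at b1
          exact (s3 a (by omega)).le
        · exact s2 a b h
      · simp only [Function.update_apply]
        split_ifs with h1
        · rfl
        · have b2 : pos σ a ≠ p := fun e => h1 (pos_inj σ (e.trans hx.2.symm))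
          exact s3 a (by omega)
      · simp only [Function.update_apply]
        rw [if_neg (by rintro rfl; omega)]
        exact s4 a (by omega)
    · intro s _ t _ h
      simp only [Prod.mk.injEq] at h
      funext a
      by_cases e : a = x
      · rw [e, h.1]
      · have := congrFun h.2 a
        rwa [Function.update_of_ne e, Function.update_of_ne e] at this
  have a4 : ((KK p (p + (l + 1)) m σ).card : ℝ)
      ≤ (m + 1) * (KK (p + 1) (p + 1 + l) m σ).card := by exact_mod_cast a3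
  have a5 : ((l + 1).factorial : ℝ) = (l + 1) * l.factorial := by
    rw [Nat.factorial_succ]; push_cast; ring
  have a6 : (m : ℝ) + 1 ≤ m + (n + 1 : ℕ) := by
    push_cast; linarith [Nat.cast_nonneg (α := ℝ) n]
  have f0 : (0 : ℝ) ≤ l.factorial := by positivity
  calc _ ≤ _ := a1
    _ ≤ ((m + 1) * (KK (p + 1) (p + 1 + l) m σ).card) * ((l + 1) * l.factorial) := by
        rw [a5]; exact mul_le_mul_of_nonneg_right a4 (by positivity)
    _ = (l + 1) * (m + 1) * ((KK (p + 1) (p + 1 + l) m σ).card * l.factorial) := by ring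
    _ ≤ (l + 1) * (m + (n + 1 : ℕ)) * ((sub C x p).card * ((m : ℝ) + (n + 1 : ℕ)) ^ l) := by
        gcongr
    _ = _ := by ring

lemma fish_gen {c1 c2 c3 c4 : ℝ} {K1 K2 K3 K4 : ℕ → Finset (Fin n → ℕ)} {l1 l2 l3 l4 : ℕ}
    (e : l1 + l2 = l3 + l4) (p1 : 0 ≤ c1) (p3 : 0 ≤ c3)
    (h1 : ∀ m, n + 1 ≤ m → c1 * ((m : ℝ) - (n + 1 : ℕ)) ^ l1 ≤ ((K1 m).card : ℝ) * l1.factorial)
    (h2 : ∀ m, n + 1 ≤ m → c2 * ((m : ℝ) - (n + 1 : ℕ)) ^ l2 ≤ ((K2 m).card : ℝ) * l2.factorial)
    (h3 : ∀ m, ((K3 m).card : ℝ) * l3.factorial ≤ c3 * ((m : ℝ) + (n + 1 : ℕ)) ^ l3)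
    (h4 : ∀ m, ((K4 m).card : ℝ) * l4.factorial ≤ c4 * ((m : ℝ) + (n + 1 : ℕ)) ^ l4)
    (p2 : 0 ≤ c2)
    (hi : ∀ m, ∀ s ∈ K1 m, ∀ t ∈ K2 m, s ⊓ t ∈ K3 m) (hs : ∀ m, ∀ s ∈ K1 m, ∀ t ∈ K2 m, s ⊔ t ∈ K4 m) :
    (l3.factorial * l4.factorial) * (c1 * c2) ≤ (l1.factorial * l2.factorial) * (c3 * c4) := by
  classical
  apply lim_le _ _ (l1 + l2) (n + 1)
  intro m hm
  have d := (K1 m).le_card_infs_mul_card_sups (K2 m)
  have d2 : (K1 m).card * (K2 m).card ≤ (K3 m).card * (K4 m).card :=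
    d.trans (Nat.mul_le_mul (card_le_card (infs_subset_iff.2 (hi m)))
      (card_le_card (sups_subset_iff.2 (hs m))))
  have d3 : ((K1 m).card : ℝ) * (K2 m).card ≤ (K3 m).card * (K4 m).card := by exact_mod_cast d2
  have z : (0 : ℝ) ≤ (m : ℝ) - (n + 1 : ℕ) := by
    have : ((n + 1 : ℕ) : ℝ) ≤ m := by exact_mod_cast hm
    linarith
  have b1 := mul_le_mul (h1 m hm) (h2 m hm) (by positivity) (by positivity)
  have b2 := mul_le_mul (h3 m) (h4 m) (by positivity) (by positivity)
  calc (l3.factorial * l4.factorial) * (c1 * c2) * ((m : ℝ) - (n + 1 : ℕ)) ^ (l1 + l2)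
      = (l3.factorial * l4.factorial) * (c1 * ((m : ℝ) - (n + 1 : ℕ)) ^ l1
          * (c2 * ((m : ℝ) - (n + 1 : ℕ)) ^ l2)) := by rw [pow_add]; ring
    _ ≤ (l3.factorial * l4.factorial) * (((K1 m).card : ℝ) * l1.factorial
          * (((K2 m).card : ℝ) * l2.factorial)) := mul_le_mul_of_nonneg_left b1 (by positivity)
    _ = (l1.factorial * l2.factorial) * (l3.factorial * l4.factorial)
          * (((K1 m).card : ℝ) * (K2 m).card) := by ring
    _ ≤ (l1.factorial * l2.factorial) * (l3.factorial * l4.factorial)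
          * (((K3 m).card : ℝ) * (K4 m).card) := mul_le_mul_of_nonneg_left d3 (by positivity)
    _ = (l1.factorial * l2.factorial) * (((K3 m).card : ℝ) * l3.factorial
          * (((K4 m).card : ℝ) * l4.factorial)) := by ring
    _ ≤ (l1.factorial * l2.factorial) * (c3 * ((m : ℝ) + (n + 1 : ℕ)) ^ l3
          * (c4 * ((m : ℝ) + (n + 1 : ℕ)) ^ l4)) := mul_le_mul_of_nonneg_left b2 (by positivity)
    _ = _ := by rw [e, pow_add]; ring

lemma inf_mem_KK {p1 q1 p2 q2 p3 q3 m : ℕ} {σ1 σ2 σ3 : X r} {s t : Fin n → ℕ}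
    (hs : s ∈ KK p1 q1 m σ1) (ht : t ∈ KK p2 q2 m σ2)
    (hl : ∀ a, pos σ3 a < p3 → pos σ1 a < p1 ∨ pos σ2 a < p2)
    (hr : ∀ a, q3 ≤ pos σ3 a → q1 ≤ pos σ1 a ∧ q2 ≤ pos σ2 a) : s ⊓ t ∈ KK p3 q3 m σ3 := by
  rw [mem_KK] at *
  refine ⟨fun a => ?_, fun a b h => ?_, fun a h => ?_, fun a h => ?_⟩
  · exact inf_le_left.trans (hs.1 a)
  · exact inf_le_inf (hs.2.1 a b h) (ht.2.1 a b h)
  · show s a ⊓ t a = 0
    rcases hl a h with h | h
    · rw [hs.2.2.1 a h]; simp
    · rw [ht.2.2.1 a h]; simp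
  · show s a ⊓ t a = m
    rw [hs.2.2.2 a (hr a h).1, ht.2.2.2 a (hr a h).2]; simp

lemma sup_mem_KK {p1 q1 p2 q2 p3 q3 m : ℕ} {σ1 σ2 σ3 : X r} {s t : Fin n → ℕ}
    (hs : s ∈ KK p1 q1 m σ1) (ht : t ∈ KK p2 q2 m σ2)
    (hl : ∀ a, pos σ3 a < p3 → pos σ1 a < p1 ∧ pos σ2 a < p2)
    (hr : ∀ a, q3 ≤ pos σ3 a → q1 ≤ pos σ1 a ∨ q2 ≤ pos σ2 a) : s ⊔ t ∈ KK p3 q3 m σ3 := by
  rw [mem_KK] at *
  refine ⟨fun a => ?_, fun a b h => ?_, fun a h => ?_, fun a h => ?_⟩
  · exact sup_le (hs.1 a) (ht.1 a)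
  · exact sup_le_sup (hs.2.1 a b h) (ht.2.1 a b h)
  · show s a ⊔ t a = 0
    rw [hs.2.2.1 a (hl a h).1, ht.2.2.1 a (hl a h).2]; simp
  · show s a ⊔ t a = m
    rcases hr a h with h | h
    · rw [hs.2.2.2 a h]; exact sup_eq_left.2 (ht.1 a)
    · rw [ht.2.2.2 a h]; exact sup_eq_right.2 (hs.1 a)

/-- first and last letter are negatively correlated up to the factor `ℓ / (ℓ - 1)` -/
lemma fish_fl {p l : ℕ} (hq : p + l + 2 ≤ n) {C : Finset (X r)} (hC : IsCl p (p + l + 2) C)
    (y z : Fin n) : ((l : ℝ) + 1) * (C.card * (sub (sub C y p) z (p + l + 1)).card)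
      ≤ (l + 2) * ((sub C y p).card * (sub C z (p + l + 1)).card) := by
  rcases (sub (sub C y p) z (p + l + 1)).eq_empty_or_nonempty with h | ⟨σ, hσ⟩
  · rw [h]; simp only [card_empty, Nat.cast_zero, mul_zero]; positivity
  have m1 := mem_sub.1 hσ
  have m2 := mem_sub.1 m1.1
  have c1 : IsCl p (p + (l + 2)) C := hC
  have c2 : IsCl (p + 1) (p + 1 + l) (sub (sub C y p) z (p + l + 1)) := by
    have := (hC.first y).last z; rwa [show p + 1 + l = p + l + 1 by omega]
  have c3 : IsCl (p + 1) (p + 1 + (l + 1)) (sub C y p) := by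
    have := hC.first y; rwa [show p + 1 + (l + 1) = p + l + 2 by omega]
  have c4 : IsCl p (p + (l + 1)) (sub C z (p + l + 1)) := hC.last z
  have key := fish_gen (n := n) (show (l + 2) + l = (l + 1) + (l + 1) by omega)
    (Nat.cast_nonneg _) (Nat.cast_nonneg _)
    (fun m hm => KK_low (by omega) hm c1 m2.1) (fun m hm => KK_low (by omega) hm c2 hσ)
    (fun m => KK_up (by omega) c3 m1.1)
    (fun m => KK_up (by omega) c4 (mem_sub.2 ⟨m2.1, m1.2⟩)) (Nat.cast_nonneg _)
    (fun m s hs t ht => inf_mem_KK hs ht (fun a h => by omega) (fun a h => by omega))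
    (fun m s hs t ht => sup_mem_KK hs ht (fun a h => by omega) (fun a h => by omega))
  rw [Nat.factorial_succ (l + 1), Nat.factorial_succ l] at key
  push_cast at key
  have f0 : (0 : ℝ) < (l + 1) * (l.factorial * l.factorial) := by positivity
  apply le_of_mul_le_mul_left _ f0
  nlinarith

lemma exists_two {p q : ℕ} (hpq : p + 2 ≤ q) (hq : q ≤ n) {C : Finset (X r)} (hC : IsCl p q C)
    {x y : Fin n} (hxy : x ≠ y) {σ ρ : X r} (hσ : σ ∈ sub C x p) (hρ : ρ ∈ sub C y p) :
    ∃ u, u ∈ sub (sub C x p) y (p + 1) := by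
  classical
  have m1 := mem_sub.1 hσ
  have m2 := mem_sub.1 hρ
  have hy : p < pos σ y ∧ pos σ y < q := by
    have a1 : pos σ y ≠ p := fun e => hxy (pos_inj σ (m1.2.trans e.symm))
    have a2 := hC.pos_eq m1.1 m2.1 y
    omega
  have hs : (fun a => if pos σ a ≤ p then 0 else if a = y then 1 else 2) ∈ KK p q 2 σ := by
    rw [mem_KK]
    refine ⟨fun a => by split_ifs <;> omega, fun a b h => ?_, fun a h => if_pos (by omega),
      fun a h => ?_⟩
    · have a1 := pos_le σ h
      have a2 := pos_le ρ h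
      by_cases h1 : pos σ a ≤ p
      · rw [if_pos h1]; exact Nat.zero_le _
      rw [if_neg h1, if_neg (show ¬ pos σ b ≤ p by omega)]
      by_cases h2 : b = y
      · by_cases h3 : a = y
        · rw [if_pos h2, if_pos h3]
        · exfalso
          subst h2
          have a3 : pos ρ a ≠ p := fun e => h3 (pos_inj ρ (e.trans m2.2.symm))
          have a4 := hC.pos_eq m2.1 m1.1 a
          omega
      · rw [if_neg h2]; split_ifs <;> omega
    · rw [if_neg (by omega), if_neg (by rintro rfl; omega)]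
  obtain ⟨u, hu, hm⟩ := exists_sorted hC m1.1 hs
  have mono : ∀ a b, pos u a ≤ pos u b → (if pos σ a ≤ p then 0 else if a = y then 1 else 2)
      ≤ (if pos σ b ≤ p then 0 else if b = y then 1 else 2) := by
    intro a b h
    have := hm (show u.1⁻¹ a ≤ u.1⁻¹ b from h)
    simpa using this
  have ux : pos u x = p := by
    obtain ⟨a, ha⟩ := pos_surj u (show p < n by omega)
    have b1 := hC.pos_eq hu m1.1 x
    have b2 := mono a x (by omega)
    rw [if_pos m1.2.le] at b2
    have b3 := hC.pos_eq m1.1 hu a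
    have b4 : pos σ a ≤ p := by by_contra hc; rw [if_neg hc] at b2; split_ifs at b2 <;> omega
    have : a = x := pos_inj σ (by omega)
    rw [← this, ha]
  refine ⟨u, mem_sub.2 ⟨mem_sub.2 ⟨hu, ux⟩, ?_⟩⟩
  obtain ⟨a, ha⟩ := pos_surj u (show p + 1 < n by omega)
  have b0 : pos u y ≠ p := fun e => hxy (pos_inj u (ux.trans e.symm))
  have b1 := hC.pos_eq hu m1.1 y
  have b2 := mono a y (by omega)
  rw [if_neg (show ¬ pos σ y ≤ p by omega), if_pos rfl] at b2
  have b3 := hC.pos_eq m1.1 hu a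
  have b4 : pos σ a ≠ p := fun e => by
    have : a = x := pos_inj σ (e.trans m1.2.symm)
    rw [this] at ha; omega
  have : a = y := by
    by_contra hc
    rw [if_neg (by omega), if_neg hc] at b2; omega
  rw [← this, ha]

/-- two first letters are positively correlated -/
lemma fish_ff {p l : ℕ} (hq : p + l + 2 ≤ n) {C : Finset (X r)} (hC : IsCl p (p + l + 2) C)
    {x y : Fin n} (hxy : x ≠ y) : ((l : ℝ) + 2) * ((sub C x p).card * (sub C y p).card)
      ≤ (l + 1) * (C.card * (sub (sub C x p) y (p + 1)).card) := by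
  rcases (sub C x p).eq_empty_or_nonempty with h | ⟨σ, hσ⟩
  · rw [h]; simp only [card_empty, Nat.cast_zero, mul_zero, zero_mul]; positivity
  rcases (sub C y p).eq_empty_or_nonempty with h | ⟨ρ, hρ⟩
  · rw [h]; simp only [card_empty, Nat.cast_zero, mul_zero]; positivity
  obtain ⟨u, hu⟩ := exists_two (by omega) hq hC hxy hσ hρ
  have m1 := mem_sub.1 hu
  have m2 := mem_sub.1 m1.1
  have m3 := mem_sub.1 hρ
  have c1 : IsCl (p + 1) (p + 1 + (l + 1)) (sub C x p) := by
    have := hC.first x; rwa [show p + 1 + (l + 1) = p + l + 2 by omega]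
  have c2 : IsCl (p + 1) (p + 1 + (l + 1)) (sub C y p) := by
    have := hC.first y; rwa [show p + 1 + (l + 1) = p + l + 2 by omega]
  have c3 : IsCl (p + 2) (p + 2 + l) (sub (sub C x p) y (p + 1)) := by
    have := (hC.first x).first y; rwa [show p + 2 + l = p + l + 2 by omega]
  have c4 : IsCl p (p + (l + 2)) C := hC
  have key := fish_gen (n := n) (show (l + 1) + (l + 1) = l + (l + 2) by omega)
    (Nat.cast_nonneg _) (Nat.cast_nonneg _)
    (fun m hm => KK_low (by omega) hm c1 m1.1) (fun m hm => KK_low (by omega) hm c2 hρ)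
    (fun m => KK_up (by omega) c3 hu)
    (fun m => KK_up (by omega) c4 m2.1) (Nat.cast_nonneg _)
    (fun m s hs t ht => inf_mem_KK hs ht (fun a h => by
        by_cases e : pos u a = p + 1
        · right; rw [pos_inj u (e.trans m1.2.symm)]; omega
        · omega)
      (fun a h => by have := hC.pos_eq m2.1 m3.1 a; omega))
    (fun m s hs t ht => sup_mem_KK hs ht (fun a h => by have := hC.pos_eq m2.1 m3.1 a; omega)
      (fun a h => by omega))
  rw [Nat.factorial_succ (l + 1), Nat.factorial_succ l] at key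
  push_cast at key
  have f0 : (0 : ℝ) < (l + 1) * (l.factorial * l.factorial) := by positivity
  apply le_of_mul_le_mul_left _ f0
  nlinarith

end Pool.Agent.Lib.MP_43bc59_co
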