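import Pool.Agent.Lib.MP_43bc59_co.Mix

set_option autoImplicit false

namespace Pool.Agent.Lib.MP_43bc59_co

open Finset

/-- the middle part of the distribution function of the first cut -/
noncomputable def Fm (n j : ℕ) : ℝ := 1 / 2 + (n : ℝ) / 4 * (1 / ((n : ℝ) - 1 - j) - 1 / j)

/-- the distribution function of the first cut -/
noncomputable def Fd (n a j : ℕ) : ℝ := if j < a then 0 else if j + a < n then Fm n j else 1

/-- the value of the plateau -/
noncomputable def Bv (n a : ℕ) : ℝ := a * (1 - Fm n a * (((n : ℝ) - a - 1) / (n - a)))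

/-- the supersolution -/
noncomputable def Uv (n a k : ℕ) : ℝ :=
  if k ≤ a then (k : ℝ) * (Bv n a / a + har a - har k)
  else if k + a ≤ n then Bv n a else ((n : ℝ) - k) * (Bv n a / a + har a - har (n - k))

lemma Uv_left {n a k : ℕ} (h : k ≤ a) : Uv n a k = (k : ℝ) * (Bv n a / a + har a - har k) := by
  unfold Uv; rw [if_pos h]

lemma Uv_mid {n a k : ℕ} (ha : 1 ≤ a) (h : a ≤ k) (h' : k + a ≤ n) : Uv n a k = Bv n a := by
  unfold Uv
  split_ifs with h1
  · have : k = a := by omega
    subst this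
    have : (k : ℝ) ≠ 0 := by positivity
    field_simp; ring
  · rfl

lemma Uv_right {n a k : ℕ} (ha : 1 ≤ a) (han : 2 * a + 1 ≤ n) (h : n ≤ k + a) :
    Uv n a k = ((n : ℝ) - k) * (Bv n a / a + har a - har (n - k)) := by
  unfold Uv
  rw [if_neg (by omega)]
  split_ifs with h1
  · have e : n = k + a := by omega
    have e1 : (n : ℝ) - k = a := by rw [e]; push_cast; ring
    rw [e1, show n - k = a by omega]
    have : (a : ℝ) ≠ 0 := by positivity
    field_simp; ring
  · rfl

lemma Fm_symm {n a j : ℕ} (h : j + 1 + a = n) : Fm n j = 1 - Fm n a := by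
  unfold Fm
  have e1 : (n : ℝ) - 1 - j = a := by rw [← h]; push_cast; ring
  have e2 : (n : ℝ) - 1 - a = j := by rw [← h]; push_cast; ring
  rw [e1, e2]; ring

lemma Uv_sd {n a : ℕ} (ha : 1 ≤ a) (han : 2 * a + 1 ≤ n) {j : ℕ} (hj : j + 2 ≤ n) :
    Uv n a (j + 2) - 2 * Uv n a (j + 1) + Uv n a j
      = (Fd n a (j + 1) - Fd n a j) - (1 - Fd n a j) / ((j : ℝ) + 1)
        - Fd n a (j + 1) / ((n : ℝ) - (j + 1)) := by
  have ha' : (a : ℝ) ≠ 0 := by positivity
  unfold Fd
  by_cases c1 : j + 2 ≤ a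
  · rw [Uv_left c1, Uv_left (show j + 1 ≤ a by omega), Uv_left (show j ≤ a by omega),
      if_pos (by omega), if_pos (by omega)]
    have := sd (Bv n a / a + har a) j
    push_cast
    linear_combination this
  by_cases c2 : j + 1 = a
  · subst c2
    rw [Uv_mid ha (by omega) (by omega), Uv_mid ha le_rfl (by omega),
      Uv_left (show j ≤ j + 1 by omega), if_neg (by omega), if_pos (by omega), if_pos (by omega),
      har_succ]
    have : (n : ℝ) - (j + 1) ≠ 0 := by
      have : ((j + 1 : ℕ) : ℝ) < n := by exact_mod_cast (show j + 1 < n by omega)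
      push_cast at this; linarith
    unfold Bv
    push_cast
    field_simp
    ring
  by_cases c3 : j + 2 + a ≤ n
  · rw [Uv_mid ha (by omega) (by omega), Uv_mid ha (by omega) (by omega),
      Uv_mid ha (by omega) (by omega), if_neg (by omega), if_pos (by omega), if_neg (by omega),
      if_pos (by omega)]
    obtain ⟨m, rfl⟩ : ∃ m, n = j + 3 + m := ⟨n - (j + 3), by omega⟩
    have hj0 : (j : ℝ) ≠ 0 := by
      have : 0 < j := by omega
      positivity
    unfold Fm
    have e1 : ((j + 3 + m : ℕ) : ℝ) - 1 - ((j + 1 : ℕ) : ℝ) = m + 1 := by push_cast; ring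
    have e2 : ((j + 3 + m : ℕ) : ℝ) - 1 - (j : ℝ) = m + 2 := by push_cast; ring
    have e3 : ((j + 3 + m : ℕ) : ℝ) - (j + 1) = m + 2 := by push_cast; ring
    rw [e1, e2, e3]
    push_cast
    field_simp
    ring
  by_cases c4 : j + 1 + a = n
  · rw [Uv_right ha han (by omega), Uv_mid ha (by omega) (by omega),
      Uv_mid ha (by omega) (by omega), if_neg (by omega), if_neg (by omega), if_neg (by omega),
      if_pos (by omega), Fm_symm c4]
    obtain ⟨b, rfl⟩ : ∃ b, a = b + 1 := ⟨a - 1, by omega⟩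
    have e1 : (n : ℝ) - ((j + 2 : ℕ) : ℝ) = b := by rw [← c4]; push_cast; ring
    have e2 : (n : ℝ) - (j + 1) = b + 1 := by rw [← c4]; push_cast; ring
    have e3 : (n : ℝ) - ((b + 1 : ℕ) : ℝ) = j + 1 := by rw [← c4]; push_cast; ring
    rw [e1, e2, show n - (j + 2) = b by omega, har_succ]
    unfold Bv
    rw [e3]
    push_cast
    field_simp
    ring
  · rw [Uv_right ha han (by omega), Uv_right ha han (by omega), Uv_right ha han (by omega),
      if_neg (by omega), if_neg (by omega), if_neg (by omega), if_neg (by omega)]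
    obtain ⟨m, rfl⟩ : ∃ m, n = j + 2 + m := ⟨n - (j + 2), by omega⟩
    rw [show j + 2 + m - (j + 2) = m by omega, show j + 2 + m - (j + 1) = m + 1 by omega,
      show j + 2 + m - j = m + 2 by omega]
    have := sd (Bv (j + 2 + m) a / a + har a) m
    have e : ((j + 2 + m : ℕ) : ℝ) - (j + 1) = m + 1 := by push_cast; ring
    rw [e]
    push_cast
    linear_combination this

/-- the constant `1 - 1/√2` -/
noncomputable def lam : ℝ := 1 - √2 / 2

lemma Bv_le {n a : ℕ} (ha : 1 ≤ a) (han : 2 * a + 1 ≤ n) : Bv n a ≤ lam * n := by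
  obtain ⟨m, rfl⟩ : ∃ m, n = 2 * a + 1 + m := ⟨n - (2 * a + 1), by omega⟩
  have ha' : (0 : ℝ) < a := by positivity
  have hm : (0 : ℝ) ≤ m := by positivity
  have e : Bv (2 * a + 1 + m) a
      = ((2 * a + 1 + m : ℝ) ^ 2 - (2 * a + 1 + m) - 2 * a ^ 2 + 2 * a) / (4 * (a + 1 + m)) := by
    unfold Bv Fm
    have e1 : ((2 * a + 1 + m : ℕ) : ℝ) - 1 - a = a + m := by push_cast; ring
    have e2 : ((2 * a + 1 + m : ℕ) : ℝ) - a - 1 = a + m := by push_cast; ring
    have e3 : ((2 * a + 1 + m : ℕ) : ℝ) - a = a + 1 + m := by push_cast; ring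
    rw [e1, e2, e3]
    push_cast
    field_simp
    ring
  rw [e, div_le_iff₀ (by positivity)]
  have hs : √2 * √2 = 2 := Real.mul_self_sqrt (by norm_num)
  have hl : 2 * lam ^ 2 - 4 * lam + 1 = 0 := by unfold lam; nlinarith
  push_cast
  set N : ℝ := 2 * a + 1 + m with hN
  have e4 : (a : ℝ) + 1 + m = N - a := by rw [hN]; ring
  rw [e4]
  have : (2 : ℝ) * a ≤ N := by rw [hN]; linarith
  nlinarith [sq_nonneg (a - lam * N), mul_self_nonneg N]

lemma law {n : ℕ} (hn : 2 ≤ n) : ∃ F : ℕ → ℝ, F 0 = 0 ∧ F (n - 1) = 1 ∧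
    (∀ i, F i ≤ F (i + 1)) ∧ ∀ k, 1 ≤ k → k < n → mix n F k ≤ lam * n := by
  have hs : √2 * √2 = 2 := Real.mul_self_sqrt (by norm_num)
  have hs0 : 0 ≤ √2 := Real.sqrt_nonneg 2
  rcases eq_or_lt_of_le hn with rfl | hn
  · refine ⟨fun i => if i = 0 then 0 else 1, by simp, by simp, ?_, ?_⟩
    · intro i; by_cases h : i = 0 <;> simp [h]
    · intro k h1 h2
      have : k = 1 := by omega
      subst this
      simp [mix, rho, lam]
      nlinarith
  classical
  have hex : ∃ j : ℕ, 2 * j + 1 ≤ n ∧ (n : ℝ) * (n - 1 - 2 * j) ≤ 2 * j * (n - 1 - j) := by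
    rcases Nat.even_or_odd' n with ⟨m, rfl | rfl⟩
    · obtain ⟨u, rfl⟩ : ∃ u, m = u + 2 := ⟨m - 2, by omega⟩
      refine ⟨u + 1, by omega, ?_⟩
      have : (0 : ℝ) ≤ u := by positivity
      push_cast; nlinarith
    · refine ⟨m, by omega, ?_⟩
      have : (0 : ℝ) ≤ m := by positivity
      push_cast; nlinarith
  have hn' : (3 : ℝ) ≤ n := by exact_mod_cast hn
  obtain ⟨a, ⟨han, hP⟩, hmin⟩ : ∃ a : ℕ, (2 * a + 1 ≤ n ∧
      (n : ℝ) * (n - 1 - 2 * a) ≤ 2 * a * (n - 1 - a)) ∧ ∀ j < a, ¬ (2 * j + 1 ≤ n ∧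
      (n : ℝ) * (n - 1 - 2 * j) ≤ 2 * j * (n - 1 - j)) :=
    ⟨Nat.find hex, Nat.find_spec hex, fun j hj => Nat.find_min hex hj⟩
  have ha : 1 ≤ a := by
    rcases Nat.eq_zero_or_pos a with rfl | h
    · simp at hP; nlinarith
    · exact h
  have ha' : (0 : ℝ) < a := by positivity
  have han' : 2 * (a : ℝ) + 1 ≤ n := by exact_mod_cast han
  have hL : (a : ℝ) - 1 ≤ lam * n := by
    obtain ⟨b, rfl⟩ : ∃ b, a = b + 1 := ⟨a - 1, by omega⟩
    have := hmin b (by omega)
    rw [not_and, not_le] at this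
    have h2 := this (by omega)
    push_cast at han' ⊢
    by_contra hc
    push Not at hc
    have h3 : 0 < (b : ℝ) - lam * n := by linarith
    have h4 : 0 < (1 + √2 / 2) * n - b := by nlinarith
    have h5 := mul_pos h3 h4
    have h6 : ((b : ℝ) - lam * n) * ((1 + √2 / 2) * n - b) = -b ^ 2 + 2 * b * n - n ^ 2 / 2 := by
      unfold lam; linear_combination ((n : ℝ) ^ 2 / 4) * hs
    rw [h6] at h5
    nlinarith
  have hF0 : 0 ≤ Fm n a := by
    unfold Fm
    have h1 : (0 : ℝ) < n - 1 - a := by linarith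
    have e : 1 / 2 + (n : ℝ) / 4 * (1 / ((n : ℝ) - 1 - a) - 1 / a)
        = (2 * a * (n - 1 - a) - n * (n - 1 - 2 * a)) / (4 * a * (n - 1 - a)) := by
      field_simp; ring
    rw [e]
    exact div_nonneg (by linarith) (by positivity)
  have F0 : Fd n a 0 = 0 := by unfold Fd; rw [if_pos (by omega)]
  have F1 : Fd n a (n - 1) = 1 := by unfold Fd; rw [if_neg (by omega), if_neg (by omega)]
  refine ⟨Fd n a, F0, F1, ?_, ?_⟩
  · intro i
    unfold Fd
    by_cases c1 : i + 1 < a
    · rw [if_pos (by omega), if_pos c1]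
    by_cases c2 : i + 1 = a
    · rw [if_pos (by omega), if_neg c1, if_pos (by omega), c2]; exact hF0
    by_cases c3 : i + 1 + a < n
    · rw [if_neg (by omega), if_pos (by omega), if_neg c1, if_pos c3]
      unfold Fm
      have hi : (0 : ℝ) < i := by exact_mod_cast (show 0 < i by omega)
      have hi2 : (i : ℝ) + 2 < n := by exact_mod_cast (show i + 2 < n by omega)
      have b1 : 1 / ((n : ℝ) - 1 - i) ≤ 1 / ((n : ℝ) - 1 - (i + 1)) :=
        one_div_le_one_div_of_le (by linarith) (by linarith)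
      have b2 : 1 / ((i : ℝ) + 1) ≤ 1 / i := one_div_le_one_div_of_le hi (by linarith)
      push_cast
      nlinarith
    by_cases c4 : i + 1 + a = n
    · rw [if_neg (by omega), if_pos (by omega), if_neg c1, if_neg c3, Fm_symm c4]; linarith
    · rw [if_neg (by omega), if_neg (by omega), if_neg c1, if_neg c3]
  · intro k _ hk
    have key := concave_nonneg (n := n) (D := fun k => Uv n a k - mix n (Fd n a) k)
      (by simp [mix_zero, Uv_left (Nat.zero_le a)])
      (by simp [mix_top, Uv_right ha han (Nat.le_add_right n a)])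
      (fun j hj => by
        have b1 := mix_sd F0 F1 hj
        have b2 := Uv_sd ha han hj
        linarith) k hk.le
    have hB := Bv_le ha han
    have hU : Uv n a k ≤ lam * n := by
      by_cases c1 : k ≤ a
      · rw [Uv_left c1]; exact left_le ha c1 hB hL
      by_cases c2 : k + a ≤ n
      · rw [Uv_mid ha (by omega) c2]; exact hB
      · rw [Uv_right ha han (by omega)]
        have e : (n : ℝ) - k = ((n - k : ℕ) : ℝ) := by rw [Nat.cast_sub hk.le]
        rw [e]
        exact left_le ha (by omega) hB hL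
    linarith

variable {n : ℕ} {r : Fin n → Fin n → Prop}

lemma main_Vq {f : X r → ℝ} (h0 : ∀ σ, 0 ≤ f σ) (h1 : ∀ σ, f σ ≤ 1) :
    Vq f (Icc 1 (n - 1)) - Vq f ∅ ≤ lam * n * ∑ i ∈ range (n - 1), edg f i := by
  by_cases hn : 2 ≤ n
  · obtain ⟨F, F0, F1, hm, hle⟩ := law hn
    have a1 : ∑ i ∈ range (n - 1), (F (i + 1) - F i) = 1 := by rw [sum_range_sub, F0, F1]; ring
    calc Vq f (Icc 1 (n - 1)) - Vq f ∅
        = ∑ i ∈ range (n - 1), (F (i + 1) - F i) * (Vq f (Icc 1 (n - 1)) - Vq f ∅) := by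
          rw [← sum_mul, a1, one_mul]
      _ ≤ ∑ i ∈ range (n - 1), (F (i + 1) - F i) * cost f (rho n (i + 1)) := by
          apply sum_le_sum
          intro i hi
          rw [mem_range] at hi
          exact mul_le_mul_of_nonneg_left (scheme h0 h1 (by omega) (by omega))
            (by linarith [hm i])
      _ = cost f (mix n F) := by
          unfold cost mix
          simp only [mul_sum, sum_mul]
          rw [sum_comm]
          exact sum_congr rfl (fun i _ => sum_congr rfl (fun j _ => by ring))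
      _ ≤ cost f (fun _ => lam * n) := cost_mono h0 h1 hle
      _ = _ := by unfold cost; rw [mul_sum]
  · have e : n - 1 = 0 := by omega
    rw [e]; simp

end Pool.Agent.Lib.MP_43bc59_co
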