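import Pool.Agent.Lib.MP_43bc59_co.M_P

set_option autoImplicit false
set_option maxRecDepth 100000

namespace Pool.Agent.Lib.MP_43bc59_co.ZM

open Bx

theorem YBc2_2 : G [(c2 (sS lYB) vYB eDB)] (sdYB) 5 [93, 5, 3, 6, 6] [100, 6, 15, 50, 8] [200, 10, 100, 200, 6] :=
  G.leaf 206 1796251786012267697413689442304000000000 [3, 3, 2, 3, 3]
    (.nd 2 (.nd 4 (.nd 3 (.lf [1, 0, 0, 0, 0, 0, -1073741824]) (.nd 4 (.lf [1, 0, 0, 0, 0, 0,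
    -1073741824]) (.lf [1, 0, 0, 0, 0, 0, -536870912]))) (.lf [1, 0, 0, 0, 0, 0, -4294967296]))
    (.nd 3 (.lf [1, 0, 0, 0, 0, 0, -4294967296]) (.nd 4 (.nd 4 (.lf [1, 0, 0, -67108864, 0, 0,
    -1610612736]) (.nd 3 (.lf [1, 0, 0, 0, 0, 0, -4294967296]) (.nd 4 (.lf [1, 0, 0, -33554432,
    0, 0, -805306368]) (.nd 1 (.nd 2 (.lf [1, 0, 0, 0, 0, 0, -402653184]) (.nd 3 (.lf [1, 0, 0,
    0, 0, 0, -4294967296]) (.nd 4 (.lf [1, 0, 0, 0, 0, 0, -805306368]) (.lf [1, 0, 0, 0, 0, 0,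
    -536870912])))) (.lf [1, 0, 0, 0, 0, 0, -4294967296]))))) (.nd 2 (.lf [1, 0, 0, 0, 0, 0,
    -4294967296]) (.lf [1, 0, 0, -125829120, 0, 0, -3355443200])))))
    (by decide +kernel)

theorem YBc2_7 : G [(c2 (sS lYB) vYB eDB)] (sdYB) 5 [93, 5, 6, 100, 24] [100, 6, 18, 144, 26] [200, 10, 200, 400, 24] :=
  G.leaf 208 3810024134261447132761813883551744000000000 [3, 3, 2, 3, 3]
    (.nd 4 (.nd 3 (.nd 4 (.lf [1, 0, 0, 0, 0, 0, -536870912]) (.nd 2 (.lf [1, 0, 0, 0, 0, 0,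
    -318767104]) (.nd 1 (.lf [1, 0, 0, 0, 0, 0, -268435456]) (.lf [1, 0, 0, 0, 0, 0,
    -335544320])))) (.nd 4 (.nd 2 (.lf [1, 0, 0, 0, 0, 0, -268435456]) (.nd 1 (.lf [1, 0, 0, 0,
    0, 0, 0]) (.nd 3 (.lf [1, 0, 0, -20971520, 0, 0, -301989888]) (.nd 0 (.lf [1, 0, 0,
    -33554432, 0, 0, 0]) (.nd 4 (.lf [1, 0, 0, -25165824, 0, 0, -201326592]) (.lf [1, 0, 0,
    -33554432, 0, 0, -201326592])))))) (.nd 3 (.nd 2 (.lf [1, 0, 0, 0, 0, 0, -281018368]) (.nd 1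
    (.lf [1, 0, 0, 0, 0, 0, 0]) (.nd 0 (.lf [1, 0, 0, 0, 0, 0, -268435456]) (.nd 4 (.lf [1, 0, 0,
    0, 0, 0, -402653184]) (.lf [1, 0, 0, 0, 0, 0, -251658240]))))) (.nd 4 (.lf [1, 0, 0,
    -8388608, 0, 0, -201326592]) (.nd 2 (.lf [1, 0, 0, 0, 0, 0, -230686720]) (.nd 1 (.lf [1, 0,
    0, 0, 0, 0, 0]) (.lf [1, 0, 0, -1572864, 0, 0, -171966464]))))))) (.nd 3 (.lf [1, 0, 0, 0, 0,
    0, -805306368]) (.nd 2 (.lf [1, 0, 0, 0, 0, 0, -134217728]) (.nd 4 (.nd 1 (.lf [1, 0, 0, 0,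
    0, 0, 0]) (.lf [1, 0, 0, -42205184, 0, 0, -270532608])) (.nd 1 (.lf [1, 0, 0, 0, 0, 0, 0])
    (.lf [1, 0, 0, -61341696, 0, 0, -268435456]))))))
    (by decide +kernel)

theorem YBc2_10 : G [(c2 (sS lYB) vYB eDB)] (sdYB) 5 [93, 5, 18, 200, 48] [100, 6, 30, 244, 50] [200, 10, 200, 800, 48] :=
  G.leaf 221 247125784271834047477012752941187072000000000 [3, 3, 2, 3, 3]
    (.nd 4 (.nd 1 (.nd 2 (.nd 3 (.lf [1, 0, 0, 0, 0, 0, -268435456]) (.nd 0 (.lf [1, 0, 0, 0, 0,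
    0, -67108864]) (.nd 1 (.nd 4 (.lf [1, 0, 0, -8388608, 0, 0, -201326592]) (.lf [1, 0, 0, 0, 0,
    0, -201326592])) (.lf [1, 0, 0, 0, 0, 0, 0])))) (.nd 3 (.nd 0 (.lf [1, 0, 0, -8388608, 0, 0,
    -201326592]) (.nd 1 (.nd 4 (.lf [1, 0, 0, -16777216, 0, 0, -268435456]) (.lf [1, 0, 0,
    -6291456, 0, 0, -234881024])) (.nd 2 (.lf [1, 0, 0, 0, 0, 0, -201326592]) (.nd 0 (.lf [1, 0,
    0, -16777216, 0, 0, 0]) (.nd 3 (.nd 4 (.lf [1, 0, 0, -25165824, 0, 0, 0]) (.lf [1, 0, 0,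
    -14680064, 0, 0, 0])) (.nd 4 (.lf [1, 0, 0, -12582912, 0, 0, -201326592]) (.lf [1, 0, 0, 0,
    0, 0, -268435456]))))))) (.nd 0 (.lf [1, 0, 0, -16777216, 0, 0, 0]) (.nd 4 (.lf [1, 0, 0,
    -15204352, 0, 0, -146800640]) (.lf [1, 0, 0, -6291456, 0, 0, -134217728]))))) (.nd 2 (.nd 3
    (.lf [1, 0, 0, 0, 0, 0, -4294967296]) (.nd 4 (.lf [1, 0, 0, -12582912, 0, 0, -268435456])
    (.lf [1, 0, 0, 0, 0, 0, -301989888]))) (.lf [1, 0, 0, -536870912, 0, 0, 0]))) (.nd 2 (.nd 1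
    (.nd 0 (.lf [1, 0, 0, 0, 0, 0, -255852544]) (.nd 3 (.lf [1, 0, 0, 0, 0, 0, -536870912]) (.nd
    1 (.lf [1, 0, 0, -21495808, 0, 0, -226492416]) (.lf [1, 0, 0, 0, 0, 0, 0])))) (.lf [1, 0, 0,
    -25165824, 0, 0, -402653184])) (.nd 1 (.nd 3 (.nd 0 (.lf [1, 0, 0, -33554432, 0, 0, 0]) (.nd
    1 (.nd 4 (.lf [1, 0, 0, -25165824, 0, 0, -268435456]) (.lf [1, 0, 0, -33554432, 0, 0,
    -268435456])) (.nd 0 (.lf [1, 0, 0, -25165824, 0, 0, -201326592]) (.nd 4 (.nd 3 (.lf [1, 0,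
    0, -23068672, 0, 0, -167772160]) (.lf [1, 0, 0, -18874368, 0, 0, -285212672])) (.nd 2 (.lf
    [1, 0, 0, -25165824, 0, 0, -201326592]) (.lf [1, 0, 0, -33554432, 0, 0, -134217728]))))))
    (.nd 0 (.lf [1, 0, 0, -33554432, 0, 0, 0]) (.nd 0 (.lf [1, 0, 0, -33554432, 0, 0, 0]) (.nd 4
    (.lf [1, 0, 0, -25165824, 0, 0, -134217728]) (.lf [1, 0, 0, -35651584, 0, 0, -117440512])))))
    (.lf [1, 0, 0, -536870912, 0, 0, 0]))))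
    (by decide +kernel)

theorem YBc2_11 : G [(c2 (sS lYB) vYB eDB)] (sdYB) 5 [93, 5, 18, 244, 48] [100, 6, 30, 288, 50] [200, 10, 200, 800, 48] :=
  G.leaf 214 271649783276355993683512863599099904000000000 [3, 3, 2, 3, 3]
    (.nd 4 (.nd 2 (.nd 3 (.nd 1 (.lf [1, 0, 0, -524288, 0, 0, 0]) (.nd 0 (.lf [1, 0, 0,
    -33554432, 0, 0, 0]) (.nd 4 (.lf [1, 0, 0, -14680064, 0, 0, -218103808]) (.lf [1, 0, 0,
    -4063232, 0, 0, -211812352])))) (.nd 1 (.lf [1, 0, 0, 0, 0, 0, 0]) (.nd 0 (.lf [1, 0, 0,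
    -33554432, 0, 0, 0]) (.nd 2 (.lf [1, 0, 0, -33554432, 0, 0, 0]) (.nd 3 (.nd 0 (.lf [1, 0, 0,
    -16777216, 0, 0, 0]) (.nd 1 (.lf [1, 0, 0, -8388608, 0, 0, 0]) (.lf [1, 0, 0, -33554432, 0,
    0, 0]))) (.lf [1, 0, 0, -16777216, 0, 0, 0])))))) (.nd 3 (.nd 0 (.lf [1, 0, 0, -33554432, 0,
    0, 0]) (.nd 4 (.lf [1, 0, 0, -25165824, 0, 0, 0]) (.lf [1, 0, 0, -16777216, 0, 0, 0]))) (.nd
    4 (.lf [1, 0, 0, -25165824, 0, 0, 0]) (.lf [1, 0, 0, -10485760, 0, 0, 0])))) (.nd 0 (.lf [1,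
    0, 0, -33554432, 0, 0, 0]) (.nd 1 (.nd 3 (.nd 2 (.lf [1, 0, 0, -25165824, 0, 0, 0]) (.lf [1,
    0, 0, -37748736, 0, 0, 0])) (.lf [1, 0, 0, -36700160, 0, 0, 0])) (.nd 3 (.nd 4 (.nd 2 (.lf
    [1, 0, 0, -25165824, 0, 0, -201326592]) (.lf [1, 0, 0, -268435456, 0, 0, 0])) (.nd 2 (.lf [1,
    0, 0, -35651584, 0, 0, -218103808]) (.lf [1, 0, 0, -536870912, 0, 0, 0]))) (.lf [1, 0, 0,
    -41943040, 0, 0, 0])))))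
    (by decide +kernel)

theorem YBc2_9 : G [(c2 (sS lYB) vYB eDB)] (sdYB) 5 [93, 5, 18, 100, 48] [100, 6, 30, 144, 50] [200, 10, 200, 400, 48] :=
  G.split 3 YBc2_10 YBc2_11

theorem YBc2_13 : G [(c2 (sS lYB) vYB eDB)] (sdYB) 5 [93, 5, 18, 200, 50] [100, 6, 30, 244, 52] [200, 10, 200, 800, 48] :=
  G.leaf 225 264023343046940108151037265203691520000000000 [3, 3, 2, 3, 3]
    (.nd 2 (.nd 1 (.nd 4 (.nd 0 (.lf [1, 0, 0, -33554432, 0, 0, -268435456]) (.nd 2 (.nd 1 (.lf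
    [1, 0, 0, -39845888, 0, 0, -285212672]) (.lf [1, 0, 0, 0, 0, 0, 0])) (.lf [1, 0, 0, 0, 0, 0,
    -268435456]))) (.nd 0 (.lf [1, 0, 0, -50331648, 0, 0, 0]) (.nd 2 (.nd 1 (.lf [1, 0, 0,
    -58720256, 0, 0, -301989888]) (.lf [1, 0, 0, 0, 0, 0, 0])) (.lf [1, 0, 0, 0, 0, 0,
    -268435456])))) (.nd 4 (.lf [1, 0, 0, -46137344, 0, 0, -385875968]) (.lf [1, 0, 0, -67108864,
    0, 0, -536870912]))) (.nd 1 (.nd 3 (.nd 1 (.nd 0 (.lf [1, 0, 0, -4831838208, 0, 0, 0]) (.nd 4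
    (.nd 0 (.lf [1, 0, 0, -58720256, 0, 0, 0]) (.nd 2 (.lf [1, 0, 0, -41943040, 0, 0,
    -402653184]) (.lf [1, 0, 0, -536870912, 0, 0, 0]))) (.nd 0 (.lf [1, 0, 0, -67108864, 0, 0,
    0]) (.nd 2 (.lf [1, 0, 0, -67108864, 0, 0, -268435456]) (.lf [1, 0, 0, -536870912, 0, 0,
    0]))))) (.nd 0 (.lf [1, 0, 0, -50331648, 0, 0, 0]) (.nd 2 (.nd 4 (.lf [1, 0, 0, -33554432, 0,
    0, -268435456]) (.lf [1, 0, 0, -50331648, 0, 0, -201326592])) (.nd 0 (.lf [1, 0, 0,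
    -67108864, 0, 0, 0]) (.nd 4 (.nd 0 (.lf [1, 0, 0, -50331648, 0, 0, 0]) (.nd 4 (.lf [1, 0, 0,
    -50331648, 0, 0, -150994944]) (.lf [1, 0, 0, -41943040, 0, 0, -150994944]))) (.nd 0 (.lf [1,
    0, 0, -67108864, 0, 0, 0]) (.nd 1 (.lf [1, 0, 0, -71303168, 0, 0, -218103808]) (.nd 2 (.lf
    [1, 0, 0, -58720256, 0, 0, -201326592]) (.lf [1, 0, 0, -67108864, 0, 0, -134217728])))))))))
    (.nd 0 (.lf [1, 0, 0, -67108864, 0, 0, 0]) (.nd 4 (.nd 0 (.lf [1, 0, 0, -50331648, 0, 0, 0])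
    (.nd 1 (.nd 2 (.nd 4 (.lf [1, 0, 0, -58720256, 0, 0, -134217728]) (.lf [1, 0, 0, -44040192,
    0, 0, -167772160])) (.lf [1, 0, 0, -536870912, 0, 0, 0])) (.lf [1, 0, 0, -50331648, 0, 0,
    0]))) (.nd 0 (.lf [1, 0, 0, -67108864, 0, 0, 0]) (.nd 1 (.nd 2 (.nd 0 (.lf [1, 0, 0,
    -75497472, 0, 0, 0]) (.nd 4 (.lf [1, 0, 0, -67108864, 0, 0, -134217728]) (.lf [1, 0, 0,
    -75497472, 0, 0, -134217728]))) (.lf [1, 0, 0, -536870912, 0, 0, 0])) (.nd 2 (.lf [1, 0, 0,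
    -67108864, 0, 0, 0]) (.lf [1, 0, 0, -75497472, 0, 0, 0]))))))) (.lf [1, 0, 0, -1073741824, 0,
    0, 0])))
    (by decide +kernel)

theorem YBc2_14 : G [(c2 (sS lYB) vYB eDB)] (sdYB) 5 [93, 5, 18, 244, 50] [100, 6, 30, 288, 52] [200, 10, 200, 800, 48] :=
  G.leaf 212 289890631476554660977629761145667584000000000 [3, 3, 2, 3, 3]
    (.nd 2 (.nd 1 (.nd 4 (.lf [1, 0, 0, -41943040, 0, 0, 0]) (.lf [1, 0, 0, -67108864, 0, 0, 0]))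
    (.nd 3 (.nd 0 (.lf [1, 0, 0, -67108864, 0, 0, 0]) (.nd 4 (.nd 4 (.lf [1, 0, 0, -58720256, 0,
    0, -268435456]) (.lf [1, 0, 0, -46137344, 0, 0, -234881024])) (.nd 0 (.lf [1, 0, 0,
    -83886080, 0, 0, 0]) (.nd 2 (.lf [1, 0, 0, -100663296, 0, 0, 0]) (.nd 1 (.lf [1, 0, 0,
    -67108864, 0, 0, -268435456]) (.lf [1, 0, 0, -83886080, 0, 0, -268435456])))))) (.nd 0 (.lf
    [1, 0, 0, -134217728, 0, 0, 0]) (.nd 4 (.lf [1, 0, 0, -67108864, 0, 0, 0]) (.lf [1, 0, 0,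
    -83886080, 0, 0, 0]))))) (.nd 1 (.nd 0 (.lf [1, 0, 0, -67108864, 0, 0, 0]) (.nd 4 (.lf [1, 0,
    0, -58720256, 0, 0, 0]) (.nd 3 (.lf [1, 0, 0, -77594624, 0, 0, 0]) (.lf [1, 0, 0, -83886080,
    0, 0, 0])))) (.lf [1, 0, 0, -536870912, 0, 0, 0])))
    (by decide +kernel)

theorem YBc2_12 : G [(c2 (sS lYB) vYB eDB)] (sdYB) 5 [93, 5, 18, 100, 50] [100, 6, 30, 144, 52] [200, 10, 200, 400, 48] :=
  G.split 3 YBc2_13 YBc2_14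

theorem YBc2_8 : G [(c2 (sS lYB) vYB eDB)] (sdYB) 5 [93, 5, 18, 100, 24] [100, 6, 30, 144, 26] [200, 10, 200, 400, 24] :=
  G.split 4 YBc2_9 YBc2_12

theorem YBc2_6 : G [(c2 (sS lYB) vYB eDB)] (sdYB) 5 [93, 5, 3, 100, 24] [100, 6, 15, 144, 26] [200, 10, 100, 400, 24] :=
  G.split 2 YBc2_7 YBc2_8

theorem YBc2_15 : G [(c2 (sS lYB) vYB eDB)] (sdYB) 5 [93, 5, 3, 144, 24] [100, 6, 15, 188, 26] [200, 10, 100, 400, 24] :=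
  G.leaf 219 1208268625934558683554290476253184000000000 [3, 3, 2, 3, 3]
    (.nd 2 (.nd 4 (.nd 3 (.nd 4 (.lf [1, 0, 0, -25165824, 0, 0, 0]) (.nd 3 (.lf [1, 0, 0,
    -2097152, 0, 0, 0]) (.nd 1 (.lf [1, 0, 0, 0, 0, 0, 0]) (.nd 2 (.lf [1, 0, 0, -8388608, 0, 0,
    0]) (.lf [1, 0, 0, 0, 0, 0, 0]))))) (.nd 4 (.lf [1, 0, -268435456, -16777216, 0, 0, 0]) (.nd
    3 (.nd 4 (.lf [1, 0, -402653184, 0, 0, 0, 0]) (.nd 0 (.lf [1, 0, -268435456, 0, 0, 0, 0])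
    (.nd 2 (.nd 3 (.lf [1, 0, -402653184, 0, 0, 0, 0]) (.lf [1, 0, -268435456, 0, 0, 0, 0])) (.lf
    [1, 0, 0, 0, 0, 0, 0])))) (.nd 4 (.lf [1, 0, -536870912, 0, 0, 0, 0]) (.nd 0 (.lf [1, 0,
    -536870912, 0, 0, 0, 0]) (.nd 3 (.nd 4 (.lf [1, 0, -268435456, 0, 0, 0, 0]) (.nd 2 (.lf [1,
    0, -8589934592, 0, 0, 0, 0]) (.lf [1, 0, -268435456, 0, 0, 0, 0]))) (.nd 4 (.lf [1, 0,
    -536870912, 0, 0, 0, 0]) (.nd 2 (.lf [1, 0, -4294967296, 0, 0, 0, 0]) (.lf [1, 0, -402653184,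
    0, 0, 0, 0]))))))))) (.nd 3 (.nd 4 (.lf [1, 0, 0, -50331648, 0, 0, 0]) (.lf [1, 0, 0,
    -67108864, 0, 0, 0])) (.lf [1, 0, -268435456, -50331648, 0, 0, 0]))) (.nd 3 (.nd 4 (.nd 4
    (.nd 3 (.nd 0 (.lf [1, 0, -268435456, -33554432, 0, 0, 0]) (.nd 1 (.lf [1, 0, -939524096, 0,
    0, 0, 0]) (.lf [1, 0, -201326592, -41943040, 0, 0, 0]))) (.nd 0 (.lf [1, 0, 0, -33554432, 0,
    0, 0]) (.nd 1 (.nd 2 (.lf [1, 0, 0, 0, 0, 0, 0]) (.lf [1, 0, -268435456, -33554432, 0, 0,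
    0])) (.lf [1, 0, 0, -50331648, 0, 0, 0])))) (.nd 3 (.nd 0 (.lf [1, 0, -536870912, 0, 0, 0,
    0]) (.nd 4 (.lf [1, 0, -331350016, -18350080, 0, 0, 0]) (.nd 1 (.lf [1, 0, -402653184, 0, 0,
    0, 0]) (.lf [1, 0, -268435456, -8388608, 0, 0, 0])))) (.nd 2 (.nd 4 (.lf [1, 0, 0, -16777216,
    0, 0, 0]) (.nd 0 (.lf [1, 0, 0, 0, 0, 0, 0]) (.nd 3 (.lf [1, 0, -104857600, -5242880, 0, 0,
    0]) (.lf [1, 0, 0, -8388608, 0, 0, 0])))) (.nd 0 (.lf [1, 0, 0, -16777216, 0, 0, 0]) (.nd 1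
    (.nd 4 (.lf [1, 0, -268435456, -16777216, 0, 0, 0]) (.lf [1, 0, -268435456, -4194304, 0, 0,
    0])) (.lf [1, 0, 0, -134217728, 0, 0, 0])))))) (.nd 2 (.nd 1 (.lf [1, 0, 0, -50331648, 0, 0,
    0]) (.nd 0 (.lf [1, 0, 0, -134217728, 0, 0, 0]) (.nd 4 (.lf [1, 0, 0, -67108864, 0, 0, 0])
    (.lf [1, 0, 0, -100663296, 0, 0, 0])))) (.nd 1 (.nd 0 (.lf [1, 0, 0, -75497472, 0, 0, 0])
    (.nd 3 (.lf [1, 0, -12884901888, 0, 0, 0, 0]) (.nd 4 (.lf [1, 0, -201326592, -58720256, 0, 0,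
    0]) (.lf [1, 0, 0, -88080384, 0, 0, 0])))) (.lf [1, 0, 0, -1073741824, 0, 0, 0])))) (.lf [1,
    0, -38654705664, 0, 0, 0, 0])))
    (by decide +kernel)

theorem YBc2_5 : G [(c2 (sS lYB) vYB eDB)] (sdYB) 5 [93, 5, 3, 50, 24] [100, 6, 15, 94, 26] [200, 10, 100, 200, 24] :=
  G.split 3 YBc2_6 YBc2_15

theorem YBc2_17 : G [(c2 (sS lYB) vYB eDB)] (sdYB) 5 [93, 5, 6, 50, 26] [100, 6, 18, 94, 28] [200, 10, 200, 200, 24] :=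
  G.leaf 204 595266128524135703173477448024064000000000 [3, 3, 2, 3, 3]
    (.nd 3 (.nd 4 (.nd 1 (.lf [1, 0, 0, 0, 0, 0, 0]) (.nd 2 (.lf [1, 0, 0, 0, 0, 0, -268435456])
    (.nd 3 (.nd 2 (.lf [1, 0, 0, 0, 0, 0, -352321536]) (.nd 0 (.lf [1, 0, 0, -100663296, 0, 0,
    0]) (.nd 1 (.lf [1, 0, 0, 0, 0, 0, -67108864]) (.lf [1, 0, 0, -102760448, 0, 0,
    -369098752])))) (.lf [1, 0, 0, 0, 0, 0, -1073741824])))) (.nd 1 (.lf [1, 0, 0, 0, 0, 0, 0])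
    (.nd 2 (.lf [1, 0, 0, 0, 0, 0, -268435456]) (.nd 3 (.nd 1 (.lf [1, 0, 0, 0, 0, 0, 0]) (.nd 0
    (.lf [1, 0, 0, -134217728, 0, 0, 0]) (.nd 2 (.lf [1, 0, 0, -100663296, 0, 0, -536870912])
    (.lf [1, 0, 0, -144703488, 0, 0, -402653184])))) (.lf [1, 0, 0, 0, 0, 0, -2147483648])))))
    (.nd 2 (.lf [1, 0, 0, 0, 0, 0, 0]) (.nd 1 (.lf [1, 0, 0, 0, 0, 0, 0]) (.nd 3 (.nd 4 (.lf [1,
    0, 0, -104857600, 0, 0, 0]) (.lf [1, 0, 0, -144703488, 0, 0, 0])) (.lf [1, 0, 0, -125829120,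
    0, 0, 0])))))
    (by decide +kernel)

theorem YBc2_21 : G [(c2 (sS lYB) vYB eDB)] (sdYB) 5 [93, 10, 36, 100, 26] [100, 11, 48, 144, 28] [200, 20, 400, 400, 24] :=
  G.leaf 216 143085865760323487348201204169572352000000000 [3, 3, 2, 3, 3]
    (.nd 4 (.nd 3 (.nd 0 (.lf [1, 0, 0, -67108864, 0, 0, 0]) (.nd 1 (.lf [1, 0, 0, 0, 0, 0, 0])
    (.nd 2 (.lf [1, 0, 0, 0, 0, 0, -134217728]) (.nd 0 (.lf [1, 0, 0, -67108864, 0, 0,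
    -268435456]) (.nd 4 (.nd 3 (.lf [1, 0, 0, -96468992, 0, 0, -184549376]) (.lf [1, 0, 0, 0, 0,
    0, -2147483648])) (.nd 3 (.lf [1, 0, 0, -77594624, 0, 0, -201326592]) (.lf [1, 0, 0, 0, 0, 0,
    -1073741824]))))))) (.nd 0 (.lf [1, 0, 0, -33554432, 0, 0, 0]) (.nd 1 (.lf [1, 0, 0, 0, 0, 0,
    0]) (.nd 2 (.lf [1, 0, 0, 0, 0, 0, 0]) (.lf [1, 0, 0, -92274688, 0, 0, 0]))))) (.nd 2 (.lf
    [1, 0, 0, 0, 0, 0, 0]) (.nd 3 (.nd 0 (.lf [1, 0, 0, -100663296, 0, 0, 0]) (.nd 1 (.lf [1, 0,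
    0, 0, 0, 0, 0]) (.nd 0 (.lf [1, 0, 0, -117440512, 0, 0, 0]) (.nd 1 (.lf [1, 0, 0, 0, 0, 0,
    -268435456]) (.nd 2 (.lf [1, 0, 0, -100663296, 0, 0, -268435456]) (.lf [1, 0, 0, -134217728,
    0, 0, -285212672])))))) (.nd 0 (.lf [1, 0, 0, -134217728, 0, 0, 0]) (.nd 1 (.lf [1, 0, 0, 0,
    0, 0, 0]) (.lf [1, 0, 0, -132120576, 0, 0, 0]))))))
    (by decide +kernel)

theorem YBc2_23 : G [(c2 (sS lYB) vYB eDB)] (sdYB) 5 [93, 10, 48, 200, 26] [100, 11, 60, 244, 28] [200, 20, 400, 800, 24] :=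
  G.leaf 224 1144920199734530729650866911616958464000000000 [3, 3, 2, 3, 3]
    (.nd 1 (.nd 2 (.nd 0 (.lf [1, 0, 0, -33554432, 0, 0, 0]) (.nd 4 (.nd 0 (.lf [1, 0, 0,
    -67108864, 0, 0, 0]) (.nd 4 (.lf [1, 0, 0, -87556096, 0, 0, -155189248]) (.lf [1, 0, 0,
    -71303168, 0, 0, -167772160]))) (.nd 0 (.lf [1, 0, 0, -100663296, 0, 0, 0]) (.nd 1 (.nd 2
    (.nd 3 (.lf [1, 0, 0, -115343360, 0, 0, -251658240]) (.lf [1, 0, 0, -125829120, 0, 0, 0]))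
    (.lf [1, 0, 0, 0, 0, 0, 0])) (.lf [1, 0, 0, 0, 0, 0, 0]))))) (.nd 0 (.lf [1, 0, 0,
    -134217728, 0, 0, 0]) (.nd 4 (.nd 3 (.nd 0 (.lf [1, 0, 0, -100663296, 0, 0, 0]) (.nd 1 (.nd 4
    (.lf [1, 0, 0, -109051904, 0, 0, -201326592]) (.lf [1, 0, 0, -92274688, 0, 0, -201326592]))
    (.nd 2 (.lf [1, 0, 0, -75497472, 0, 0, -134217728]) (.nd 0 (.lf [1, 0, 0, -134217728, 0, 0,
    0]) (.nd 4 (.lf [1, 0, 0, -102498304, 0, 0, 0]) (.lf [1, 0, 0, -83886080, 0, 0,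
    -134217728])))))) (.nd 0 (.lf [1, 0, 0, -134217728, 0, 0, 0]) (.nd 4 (.lf [1, 0, 0,
    -109051904, 0, 0, 0]) (.lf [1, 0, 0, -92274688, 0, 0, 0])))) (.nd 0 (.lf [1, 0, 0,
    -134217728, 0, 0, 0]) (.nd 3 (.nd 1 (.nd 2 (.nd 0 (.lf [1, 0, 0, -134217728, 0, 0, 0]) (.nd 4
    (.lf [1, 0, 0, -125829120, 0, 0, -201326592]) (.lf [1, 0, 0, -142606336, 0, 0, -201326592])))
    (.lf [1, 0, 0, -1073741824, 0, 0, 0])) (.nd 2 (.lf [1, 0, 0, -109051904, 0, 0, -134217728])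
    (.nd 0 (.lf [1, 0, 0, -134217728, 0, 0, 0]) (.nd 4 (.lf [1, 0, 0, -117440512, 0, 0, 0]) (.lf
    [1, 0, 0, -134217728, 0, 0, 0]))))) (.nd 1 (.lf [1, 0, 0, -150994944, 0, 0, 0]) (.lf [1, 0,
    0, -125829120, 0, 0, 0]))))))) (.nd 0 (.lf [1, 0, 0, -9663676416, 0, 0, 0]) (.nd 2 (.nd 4
    (.nd 0 (.lf [1, 0, 0, -134217728, 0, 0, 0]) (.nd 3 (.nd 1 (.nd 2 (.lf [1, 0, 0, -100663296,
    0, 0, -268435456]) (.lf [1, 0, 0, -33554432, 0, 0, -1342177280])) (.lf [1, 0, 0, 0, 0, 0,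
    -12884901888])) (.nd 4 (.nd 0 (.lf [1, 0, 0, -134217728, 0, 0, 0]) (.nd 1 (.lf [1, 0, 0,
    -109051904, 0, 0, 0]) (.lf [1, 0, 0, -134217728, 0, 0, 0]))) (.nd 0 (.lf [1, 0, 0,
    -100663296, 0, 0, 0]) (.nd 4 (.lf [1, 0, 0, -94371840, 0, 0, -117440512]) (.lf [1, 0, 0,
    -83886080, 0, 0, -134217728])))))) (.nd 0 (.lf [1, 0, 0, -134217728, 0, 0, 0]) (.nd 1 (.nd 2
    (.lf [1, 0, 0, -150994944, 0, 0, -201326592]) (.nd 3 (.lf [1, 0, 0, -33554432, 0, 0,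
    -1610612736]) (.lf [1, 0, 0, -125829120, 0, 0, -134217728]))) (.lf [1, 0, 0, -167772160, 0,
    0, -268435456])))) (.lf [1, 0, 0, -1610612736, 0, 0, 0]))))
    (by decide +kernel)

theorem YBc2_24 : G [(c2 (sS lYB) vYB eDB)] (sdYB) 5 [93, 10, 48, 244, 26] [100, 11, 60, 288, 28] [200, 20, 400, 800, 24] :=
  G.leaf 206 1254959803441412603022646441767075840000000000 [3, 3, 2, 3, 3]
    (.nd 4 (.nd 0 (.lf [1, 0, 0, -134217728, 0, 0, 0]) (.nd 2 (.nd 1 (.lf [1, 0, 0, -67108864, 0,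
    0, 0]) (.lf [1, 0, 0, -117440512, 0, 0, 0])) (.nd 1 (.lf [1, 0, 0, -114425856, 0, 0, 0]) (.lf
    [1, 0, 0, -1073741824, 0, 0, 0])))) (.nd 0 (.lf [1, 0, 0, -134217728, 0, 0, 0]) (.nd 1 (.nd 2
    (.lf [1, 0, 0, -125829120, 0, 0, 0]) (.nd 0 (.lf [1, 0, 0, -134217728, 0, 0, 0]) (.nd 3 (.lf
    [1, 0, 0, -148897792, 0, 0, 0]) (.lf [1, 0, 0, -159383552, 0, 0, 0])))) (.nd 2 (.lf [1, 0, 0,
    -159383552, 0, 0, 0]) (.lf [1, 0, 0, -1610612736, 0, 0, 0])))))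
    (by decide +kernel)

theorem YBc2_22 : G [(c2 (sS lYB) vYB eDB)] (sdYB) 5 [93, 10, 48, 100, 26] [100, 11, 60, 144, 28] [200, 20, 400, 400, 24] :=
  G.split 3 YBc2_23 YBc2_24

theorem YBc2_20 : G [(c2 (sS lYB) vYB eDB)] (sdYB) 5 [93, 10, 18, 100, 26] [100, 11, 30, 144, 28] [200, 20, 200, 400, 24] :=
  G.split 2 YBc2_21 YBc2_22

theorem YBc2_25 : G [(c2 (sS lYB) vYB eDB)] (sdYB) 5 [93, 11, 18, 100, 26] [100, 12, 30, 144, 28] [200, 20, 200, 400, 24] :=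
  G.leaf 214 39529425718233961267819421928259584000000000 [3, 3, 2, 3, 3]
    (.nd 2 (.nd 3 (.nd 1 (.nd 2 (.nd 0 (.lf [1, 0, 0, -536870912, 0, 0, 0]) (.nd 4 (.lf [1, 0, 0,
    -100663296, 0, 0, -536870912]) (.lf [1, 0, 0, -142606336, 0, 0, -469762048]))) (.lf [1, 0, 0,
    -33554432, 0, 0, -1610612736])) (.lf [1, 0, 0, 0, 0, 0, -34359738368])) (.nd 4 (.nd 0 (.lf
    [1, 0, 0, -134217728, 0, 0, 0]) (.nd 2 (.lf [1, 0, 0, -130547712, 0, 0, 0]) (.nd 1 (.nd 0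
    (.lf [1, 0, 0, -100663296, 0, 0, 0]) (.nd 3 (.nd 4 (.lf [1, 0, 0, -100663296, 0, 0,
    -268435456]) (.lf [1, 0, 0, -83886080, 0, 0, -201326592])) (.lf [1, 0, 0, -100663296, 0, 0,
    0]))) (.lf [1, 0, 0, -134217728, 0, 0, -268435456])))) (.nd 0 (.lf [1, 0, 0, -134217728, 0,
    0, 0]) (.nd 1 (.nd 2 (.lf [1, 0, 0, -167772160, 0, 0, 0]) (.nd 0 (.lf [1, 0, 0, -134217728,
    0, 0, 0]) (.nd 2 (.nd 1 (.lf [1, 0, 0, -167772160, 0, 0, 0]) (.lf [1, 0, 0, -134217728, 0, 0,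
    0])) (.lf [1, 0, 0, -125829120, 0, 0, -201326592])))) (.lf [1, 0, 0, -176160768, 0, 0,
    0]))))) (.lf [1, 0, 0, -1610612736, 0, 0, 0]))
    (by decide +kernel)

theorem YBc2_19 : G [(c2 (sS lYB) vYB eDB)] (sdYB) 5 [93, 5, 18, 100, 26] [100, 6, 30, 144, 28] [200, 10, 200, 400, 24] :=
  G.split 1 YBc2_20 YBc2_25

theorem YBc2_26 : G [(c2 (sS lYB) vYB eDB)] (sdYB) 5 [93, 5, 18, 144, 26] [100, 6, 30, 188, 28] [200, 10, 200, 400, 24] :=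
  G.leaf 209 5716038038161723609252121655902208000000000 [3, 3, 2, 3, 3]
    (.nd 1 (.nd 2 (.nd 3 (.lf [1, 0, -16777216, -103677952, 0, 0, 0]) (.lf [1, 0, -1073741824, 0,
    0, 0, 0])) (.nd 3 (.nd 4 (.nd 0 (.lf [1, 0, 0, -134217728, 0, 0, 0]) (.nd 3 (.lf [1, 0,
    -17179869184, 0, 0, 0, 0]) (.nd 1 (.lf [1, 0, 0, -142606336, 0, 0, 0]) (.nd 2 (.lf [1, 0, 0,
    -67108864, 0, 0, 0]) (.lf [1, 0, -1073741824, -100663296, 0, 0, 0]))))) (.nd 0 (.lf [1, 0, 0,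
    -167772160, 0, 0, 0]) (.nd 2 (.nd 1 (.lf [1, 0, 0, -184549376, 0, 0, 0]) (.lf [1, 0, 0,
    -134217728, 0, 0, 0])) (.nd 1 (.lf [1, 0, 0, -1610612736, 0, 0, 0]) (.lf [1, 0, -1073741824,
    -134217728, 0, 0, 0]))))) (.lf [1, 0, -4294967296, 0, 0, 0, 0]))) (.nd 2 (.nd 3 (.nd 4 (.lf
    [1, 0, 0, -132644864, 0, 0, 0]) (.nd 0 (.lf [1, 0, 0, -167772160, 0, 0, 0]) (.nd 1 (.lf [1,
    0, 0, -167772160, 0, 0, 0]) (.lf [1, 0, 0, -201326592, 0, 0, 0])))) (.lf [1, 0, -47244640256,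
    0, 0, 0, 0])) (.lf [1, 0, 0, -2147483648, 0, 0, 0])))
    (by decide +kernel)

theorem YBc2_18 : G [(c2 (sS lYB) vYB eDB)] (sdYB) 5 [93, 5, 18, 50, 26] [100, 6, 30, 94, 28] [200, 10, 200, 200, 24] :=
  G.split 3 YBc2_19 YBc2_26

theorem YBc2_16 : G [(c2 (sS lYB) vYB eDB)] (sdYB) 5 [93, 5, 3, 50, 26] [100, 6, 15, 94, 28] [200, 10, 100, 200, 24] :=
  G.split 2 YBc2_17 YBc2_18

theorem YBc2_4 : G [(c2 (sS lYB) vYB eDB)] (sdYB) 5 [93, 5, 3, 50, 12] [100, 6, 15, 94, 14] [200, 10, 100, 200, 12] :=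
  G.split 4 YBc2_5 YBc2_16

theorem YBc2_28 : G [(c2 (sS lYB) vYB eDB)] (sdYB) 5 [93, 5, 6, 50, 14] [100, 6, 18, 94, 16] [200, 10, 200, 200, 12] :=
  G.leaf 214 89069649178853749163749973950464000000000 [3, 3, 2, 3, 3]
    (.nd 1 (.lf [1, 0, 0, 0, 0, 0, 0]) (.nd 2 (.lf [1, 0, 0, 0, 0, 0, -67108864]) (.nd 3 (.nd 1
    (.lf [1, 0, 0, 0, 0, 0, -268435456]) (.nd 2 (.lf [1, 0, 0, -167772160, 0, 0, -536870912])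
    (.nd 0 (.lf [1, 0, 0, -268435456, 0, 0, 0]) (.nd 4 (.nd 3 (.nd 0 (.lf [1, 0, 0, -201326592,
    0, 0, 0]) (.nd 1 (.nd 2 (.lf [1, 0, 0, -167772160, 0, 0, -268435456]) (.lf [1, 0, 0,
    -201326592, 0, 0, -268435456])) (.lf [1, 0, 0, -234881024, 0, 0, -268435456]))) (.lf [1, 0,
    0, 0, 0, 0, -4294967296])) (.nd 1 (.nd 2 (.lf [1, 0, 0, -201326592, 0, 0, -268435456]) (.lf
    [1, 0, 0, -276824064, 0, 0, -335544320])) (.lf [1, 0, 0, -310378496, 0, 0, -335544320]))))))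
    (.nd 4 (.nd 1 (.lf [1, 0, 0, 0, 0, 0, 0]) (.nd 2 (.lf [1, 0, 0, -134217728, 0, 0, 0]) (.lf
    [1, 0, 0, -226492416, 0, 0, 0]))) (.nd 1 (.lf [1, 0, 0, 0, 0, 0, 0]) (.nd 2 (.lf [1, 0, 0,
    -234881024, 0, 0, 0]) (.lf [1, 0, 0, -297795584, 0, 0, 0])))))))
    (by decide +kernel)

theorem YBc2_31 : G [(c2 (sS lYB) vYB eDB)] (sdYB) 5 [93, 10, 36, 50, 14] [100, 11, 48, 94, 16] [200, 20, 400, 200, 12] :=
  G.leaf 221 2938335122237452023094174292115456000000000 [3, 3, 2, 3, 3]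
    (.nd 3 (.nd 4 (.nd 1 (.lf [1, 0, 0, 0, 0, 0, 0]) (.nd 2 (.lf [1, 0, 0, 0, 0, 0, 0]) (.nd 0
    (.lf [1, 0, 0, -134217728, 0, 0, 0]) (.nd 3 (.nd 1 (.lf [1, 0, 0, 0, 0, 0, 0]) (.nd 0 (.lf
    [1, 0, 0, -134217728, 0, 0, 0]) (.nd 2 (.lf [1, 0, 0, -134217728, 0, 0, 0]) (.lf [1, 0, 0,
    -201326592, 0, 0, 0])))) (.nd 1 (.lf [1, 0, 0, 0, 0, 0, -268435456]) (.nd 0 (.lf [1, 0, 0,
    -134217728, 0, 0, 0]) (.nd 2 (.lf [1, 0, 0, -150994944, 0, 0, -335544320]) (.nd 0 (.lf [1, 0,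
    0, -169869312, 0, 0, 0]) (.nd 4 (.lf [1, 0, 0, -201326592, 0, 0, -268435456]) (.lf [1, 0, 0,
    -167772160, 0, 0, -268435456])))))))))) (.nd 1 (.lf [1, 0, 0, 0, 0, 0, 0]) (.nd 2 (.lf [1, 0,
    0, 0, 0, 0, 0]) (.nd 0 (.lf [1, 0, 0, -134217728, 0, 0, 0]) (.nd 1 (.lf [1, 0, 0, 0, 0, 0,
    -67108864]) (.nd 2 (.lf [1, 0, 0, -192937984, 0, 0, -134217728]) (.nd 3 (.lf [1, 0, 0,
    -268435456, 0, 0, 0]) (.lf [1, 0, 0, -243269632, 0, 0, -268435456])))))))) (.nd 4 (.nd 1 (.lf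
    [1, 0, 0, 0, 0, 0, 0]) (.nd 2 (.lf [1, 0, 0, 0, 0, 0, 0]) (.lf [1, 0, -96468992, -193986560,
    0, 0, 0]))) (.nd 1 (.lf [1, 0, 0, 0, 0, 0, 0]) (.nd 2 (.lf [1, 0, 0, 0, 0, 0, 0]) (.lf [1, 0,
    -83886080, -249561088, 0, 0, 0])))))
    (by decide +kernel)

theorem YBc2_34 : G [(c2 (sS lYB) vYB eDB)] (sdYB) 5 [93, 10, 48, 100, 28] [100, 11, 60, 144, 30] [200, 20, 400, 400, 24] :=
  G.leaf 224 169466832286040496514536737645527040000000000 [3, 3, 2, 3, 3]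
    (.nd 1 (.nd 2 (.nd 3 (.nd 0 (.lf [1, 0, 0, -67108864, 0, 0, 0]) (.nd 4 (.nd 1 (.nd 0 (.lf [1,
    0, 0, -134217728, 0, 0, 0]) (.nd 2 (.lf [1, 0, 0, -141557760, 0, 0, -100663296]) (.lf [1, 0,
    0, 0, 0, 0, 0]))) (.lf [1, 0, 0, 0, 0, 0, 0])) (.lf [1, 0, 0, -159907840, 0, 0, -79691776])))
    (.lf [1, 0, 0, -159383552, 0, 0, 0])) (.nd 0 (.lf [1, 0, 0, -201326592, 0, 0, 0]) (.nd 3 (.nd
    1 (.nd 0 (.lf [1, 0, 0, -12348030976, 0, 0, 0]) (.nd 4 (.nd 2 (.nd 3 (.lf [1, 0, 0,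
    -167772160, 0, 0, 0]) (.lf [1, 0, 0, -167772160, 0, 0, -201326592])) (.lf [1, 0, 0,
    -1610612736, 0, 0, 0])) (.nd 2 (.nd 0 (.lf [1, 0, 0, -201326592, 0, 0, 0]) (.nd 3 (.lf [1, 0,
    0, -201326592, 0, 0, 0]) (.lf [1, 0, 0, -201326592, 0, 0, -201326592]))) (.lf [1, 0, 0,
    -1610612736, 0, 0, 0])))) (.nd 2 (.lf [1, 0, 0, -134217728, 0, 0, 0]) (.nd 0 (.lf [1, 0, 0,
    -134217728, 0, 0, 0]) (.nd 4 (.lf [1, 0, 0, -156237824, 0, 0, 0]) (.lf [1, 0, 0, -184549376,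
    0, 0, 0]))))) (.nd 4 (.nd 0 (.lf [1, 0, 0, -201326592, 0, 0, 0]) (.nd 1 (.lf [1, 0, 0,
    -201326592, 0, 0, 0]) (.lf [1, 0, 0, -182452224, 0, 0, 0]))) (.nd 0 (.lf [1, 0, 0,
    -268435456, 0, 0, 0]) (.nd 1 (.lf [1, 0, 0, -268435456, 0, 0, 0]) (.lf [1, 0, 0, -212860928,
    0, 0, 0]))))))) (.nd 2 (.nd 0 (.lf [1, 0, 0, -7516192768, 0, 0, 0]) (.nd 3 (.nd 0 (.lf [1, 0,
    0, -201326592, 0, 0, 0]) (.nd 1 (.nd 2 (.nd 4 (.lf [1, 0, 0, -184549376, 0, 0, -201326592])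
    (.lf [1, 0, 0, -218103808, 0, 0, -201326592])) (.nd 0 (.lf [1, 0, 0, -167772160, 0, 0, 0])
    (.nd 4 (.nd 3 (.lf [1, 0, 0, -163250176, 0, 0, 0]) (.lf [1, 0, 0, 0, 0, 0, -2684354560]))
    (.nd 3 (.lf [1, 0, 0, -192937984, 0, 0, 0]) (.lf [1, 0, 0, 0, 0, 0, -3221225472]))))) (.lf
    [1, 0, 0, -234881024, 0, 0, -268435456]))) (.nd 4 (.nd 0 (.lf [1, 0, 0, -201326592, 0, 0, 0])
    (.nd 1 (.lf [1, 0, 0, -184549376, 0, 0, 0]) (.lf [1, 0, 0, -268435456, 0, 0, 0]))) (.nd 0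
    (.lf [1, 0, 0, -268435456, 0, 0, 0]) (.nd 1 (.lf [1, 0, 0, -218103808, 0, 0, 0]) (.lf [1, 0,
    0, -268435456, 0, 0, 0])))))) (.lf [1, 0, 0, -2147483648, 0, 0, 0])))
    (by decide +kernel)

theorem YBc2_35 : G [(c2 (sS lYB) vYB eDB)] (sdYB) 5 [93, 10, 48, 100, 30] [100, 11, 60, 144, 32] [200, 20, 400, 400, 24] :=
  G.leaf 212 190733406449223325058704872898035712000000000 [3, 3, 2, 3, 3]
    (.nd 1 (.nd 2 (.lf [1, 0, 0, -183500800, 0, 0, -16777216]) (.nd 0 (.lf [1, 0, 0, -268435456,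
    0, 0, 0]) (.nd 1 (.nd 3 (.nd 0 (.lf [1, 0, 0, -14495514624, 0, 0, 0]) (.nd 2 (.lf [1, 0, 0,
    -231211008, 0, 0, 0]) (.lf [1, 0, 0, -2147483648, 0, 0, 0]))) (.lf [1, 0, 0, -301989888, 0,
    0, 0])) (.nd 3 (.nd 2 (.lf [1, 0, 0, -134217728, 0, 0, 0]) (.lf [1, 0, 0, -218103808, 0, 0,
    0])) (.lf [1, 0, 0, -241172480, 0, 0, 0]))))) (.nd 2 (.nd 0 (.lf [1, 0, 0, -9126805504, 0, 0,
    0]) (.nd 1 (.nd 3 (.nd 0 (.lf [1, 0, 0, -268435456, 0, 0, 0]) (.nd 2 (.lf [1, 0, 0,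
    -268435456, 0, 0, -134217728]) (.nd 4 (.lf [1, 0, 0, -222298112, 0, 0, -234881024]) (.lf [1,
    0, 0, -234881024, 0, 0, -268435456])))) (.nd 0 (.lf [1, 0, 0, -268435456, 0, 0, 0]) (.nd 2
    (.lf [1, 0, 0, -268435456, 0, 0, 0]) (.lf [1, 0, 0, -234881024, 0, 0, 0])))) (.lf [1, 0, 0,
    -318767104, 0, 0, -134217728]))) (.lf [1, 0, 0, -2684354560, 0, 0, 0])))
    (by decide +kernel)

theorem YBc2_33 : G [(c2 (sS lYB) vYB eDB)] (sdYB) 5 [93, 10, 48, 100, 14] [100, 11, 60, 144, 16] [200, 20, 400, 400, 12] :=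
  G.split 4 YBc2_34 YBc2_35

theorem YBc2_36 : G [(c2 (sS lYB) vYB eDB)] (sdYB) 5 [93, 10, 48, 144, 14] [100, 11, 60, 188, 16] [200, 20, 400, 400, 12] :=
  G.leaf 215 26872655121547562002016897240924160000000000 [3, 3, 2, 3, 3]
    (.nd 4 (.nd 1 (.nd 2 (.lf [1, 0, -268435456, -167772160, 0, 0, 0]) (.nd 3 (.nd 0 (.lf [1, 0,
    -8589934592, 0, 0, 0, 0]) (.nd 3 (.lf [1, 0, -4294967296, 0, 0, 0, 0]) (.nd 0 (.lf [1, 0,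
    -30064771072, 0, 0, 0, 0]) (.nd 4 (.lf [1, 0, -1140850688, -209715200, 0, 0, 0]) (.lf [1, 0,
    -1073741824, -176160768, 0, 0, 0]))))) (.lf [1, 0, -4294967296, 0, 0, 0, 0]))) (.nd 0 (.lf
    [1, 0, 0, -18790481920, 0, 0, 0]) (.nd 2 (.nd 3 (.nd 4 (.lf [1, 0, 0, -268435456, 0, 0, 0])
    (.lf [1, 0, 0, -234881024, 0, 0, 0])) (.lf [1, 0, -4294967296, 0, 0, 0, 0])) (.lf [1, 0, 0,
    -2684354560, 0, 0, 0])))) (.nd 1 (.nd 2 (.lf [1, 0, -134217728, -226492416, 0, 0, 0]) (.nd 3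
    (.nd 0 (.lf [1, 0, -8589934592, 0, 0, 0, 0]) (.nd 3 (.lf [1, 0, -8589934592, 0, 0, 0, 0])
    (.nd 0 (.lf [1, 0, -34359738368, 0, 0, 0, 0]) (.nd 1 (.lf [1, 0, 0, -301989888, 0, 0, 0])
    (.lf [1, 0, -5368709120, 0, 0, 0, 0]))))) (.lf [1, 0, -4294967296, 0, 0, 0, 0]))) (.nd 2 (.nd
    0 (.lf [1, 0, 0, -10200547328, 0, 0, 0]) (.nd 4 (.lf [1, 0, -268435456, -276824064, 0, 0, 0])
    (.lf [1, 0, -268435456, -301989888, 0, 0, 0]))) (.lf [1, 0, 0, -3221225472, 0, 0, 0]))))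
    (by decide +kernel)

theorem YBc2_32 : G [(c2 (sS lYB) vYB eDB)] (sdYB) 5 [93, 10, 48, 50, 14] [100, 11, 60, 94, 16] [200, 20, 400, 200, 12] :=
  G.split 3 YBc2_33 YBc2_36

theorem YBc2_30 : G [(c2 (sS lYB) vYB eDB)] (sdYB) 5 [93, 10, 18, 50, 14] [100, 11, 30, 94, 16] [200, 20, 200, 200, 12] :=
  G.split 2 YBc2_31 YBc2_32

theorem YBc2_37 : G [(c2 (sS lYB) vYB eDB)] (sdYB) 5 [93, 11, 18, 50, 14] [100, 12, 30, 94, 16] [200, 20, 200, 200, 12] :=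
  G.leaf 219 809731998917481277841885953523712000000000 [3, 3, 2, 3, 3]
    (.nd 2 (.nd 3 (.nd 1 (.nd 2 (.nd 4 (.nd 0 (.lf [1, 0, 0, -1073741824, 0, 0, 0]) (.nd 3 (.nd 4
    (.lf [1, 0, 0, -245366784, 0, 0, 0]) (.lf [1, 0, 0, -203423744, 0, 0, 0])) (.nd 1 (.lf [1, 0,
    0, -1610612736, 0, 0, 0]) (.nd 0 (.lf [1, 0, 0, -15569256448, 0, 0, 0]) (.nd 3 (.nd 4 (.lf
    [1, 0, 0, -209715200, 0, 0, -536870912]) (.lf [1, 0, 0, -184549376, 0, 0, -469762048])) (.lf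
    [1, 0, 0, 0, 0, 0, -4294967296])))))) (.nd 0 (.lf [1, 0, 0, -1610612736, 0, 0, 0]) (.nd 1
    (.lf [1, 0, 0, -2147483648, 0, 0, 0]) (.nd 0 (.lf [1, 0, 0, -18253611008, 0, 0, 0]) (.nd 2
    (.nd 3 (.lf [1, 0, 0, -268435456, 0, 0, 0]) (.lf [1, 0, 0, -234881024, 0, 0, -1073741824]))
    (.lf [1, 0, 0, -2684354560, 0, 0, 0])))))) (.nd 4 (.nd 0 (.lf [1, 0, 0, -134217728, 0, 0, 0])
    (.nd 3 (.nd 1 (.nd 0 (.lf [1, 0, 0, -201326592, 0, 0, 0]) (.nd 2 (.lf [1, 0, 0, -226492416,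
    0, 0, 0]) (.lf [1, 0, 0, -180879360, 0, 0, -176160768]))) (.lf [1, 0, 0, -163577856, 0, 0,
    -150994944])) (.lf [1, 0, 0, -67108864, 0, 0, -2147483648]))) (.nd 0 (.lf [1, 0, 0,
    -268435456, 0, 0, 0]) (.nd 1 (.nd 0 (.lf [1, 0, 0, -268435456, 0, 0, 0]) (.nd 2 (.lf [1, 0,
    0, -301989888, 0, 0, -268435456]) (.nd 3 (.lf [1, 0, 0, -243269632, 0, 0, -134217728]) (.lf
    [1, 0, 0, 0, 0, 0, -4294967296])))) (.nd 2 (.nd 3 (.lf [1, 0, 0, -234881024, 0, 0, 0]) (.lf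
    [1, 0, 0, -134217728, 0, 0, -2147483648])) (.lf [1, 0, 0, 0, 0, 0, 0])))))) (.lf [1, 0, 0,
    -369098752, 0, 0, -268435456])) (.nd 4 (.nd 1 (.nd 2 (.lf [1, 0, 0, -301989888, 0, 0, 0])
    (.lf [1, 0, 0, -214958080, 0, 0, 0])) (.lf [1, 0, 0, -536870912, 0, 0, 0])) (.nd 1 (.nd 2
    (.lf [1, 0, 0, -369098752, 0, 0, 0]) (.nd 0 (.lf [1, 0, 0, -536870912, 0, 0, 0]) (.nd 3 (.lf
    [1, 0, 0, -276824064, 0, 0, 0]) (.lf [1, 0, -12884901888, 0, 0, 0, 0])))) (.lf [1, 0, 0,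
    -536870912, 0, 0, 0])))) (.lf [1, 0, 0, -3758096384, 0, 0, 0]))
    (by decide +kernel)

theorem YBc2_29 : G [(c2 (sS lYB) vYB eDB)] (sdYB) 5 [93, 5, 18, 50, 14] [100, 6, 30, 94, 16] [200, 10, 200, 200, 12] :=
  G.split 1 YBc2_30 YBc2_37

theorem YBc2_27 : G [(c2 (sS lYB) vYB eDB)] (sdYB) 5 [93, 5, 3, 50, 14] [100, 6, 15, 94, 16] [200, 10, 100, 200, 12] :=
  G.split 2 YBc2_28 YBc2_29

theorem YBc2_3 : G [(c2 (sS lYB) vYB eDB)] (sdYB) 5 [93, 5, 3, 50, 6] [100, 6, 15, 94, 8] [200, 10, 100, 200, 6] :=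
  G.split 4 YBc2_4 YBc2_27

theorem YBc2_1 : G [(c2 (sS lYB) vYB eDB)] (sdYB) 5 [93, 5, 3, 3, 6] [100, 6, 15, 47, 8] [200, 10, 100, 100, 6] :=
  G.split 3 YBc2_2 YBc2_3

theorem YBc2_38 : G [(c2 (sS lYB) vYB eDB)] (sdYB) 5 [93, 5, 3, 3, 8] [100, 6, 15, 47, 10] [200, 10, 100, 100, 6] :=
  G.leaf 215 426989295286586825339322040320000000000 [3, 3, 2, 3, 3]
    (.nd 2 (.nd 4 (.nd 1 (.lf [1, -2147483648, 0, 0, -16777216, 0, 0]) (.nd 2 (.nd 3 (.lf [1, 0,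
    0, 0, 0, 0, -4294967296]) (.nd 1 (.lf [1, 0, 0, 0, 0, 0, -201326592]) (.nd 2 (.nd 4 (.lf [1,
    -17179869184, 0, -536870912, 0, 0, 0]) (.nd 3 (.lf [1, 0, 0, -268435456, 0, 0, -536870912])
    (.lf [1, 0, 0, -268435456, 0, 0, 0]))) (.nd 4 (.lf [1, -25769803776, 0, -1073741824, 0, 0,
    0]) (.nd 3 (.nd 0 (.lf [1, 0, 0, -536870912, 0, 0, 0]) (.nd 1 (.lf [1, 0, 0, -306184192, 0,
    0, -385875968]) (.lf [1, 0, 0, -360710144, 0, 0, -335544320]))) (.nd 0 (.lf [1, 0, 0,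
    -536870912, 0, 0, 0]) (.nd 1 (.lf [1, 0, 0, -301989888, 0, 0, 0]) (.lf [1, 0, 0, -402653184,
    0, 0, 0])))))))) (.lf [1, 0, 0, 0, -25165824, 0, 0]))) (.lf [1, -77309411328, 0, -2147483648,
    0, 0, 0])) (.nd 4 (.nd 2 (.nd 4 (.lf [1, -146028888064, 0, -4831838208, 0, 0, 0]) (.nd 1 (.nd
    3 (.lf [1, 0, 0, 0, 0, 0, -4294967296]) (.nd 3 (.nd 2 (.nd 1 (.nd 0 (.lf [1, 0, 0,
    -268435456, 0, 0, 0]) (.nd 1 (.lf [1, 0, 0, 0, 0, 0, 0]) (.nd 4 (.lf [1, -8589934592, 0,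
    -536870912, 0, 0, 0]) (.nd 2 (.lf [1, 0, 0, -234881024, 0, 0, -134217728]) (.lf [1, 0, 0,
    -262144000, 0, 0, -50331648]))))) (.lf [1, 0, 0, 0, 0, 0, 0])) (.lf [1, 0, 0, 0, 0, 0, 0]))
    (.lf [1, -7247757312, -67108864, -461373440, 0, 0, 0]))) (.nd 3 (.lf [1, 0, 0, 0, 0, 0,
    -12884901888]) (.nd 2 (.nd 1 (.nd 3 (.nd 0 (.lf [1, 0, 0, -1610612736, 0, 0, 0]) (.nd 1 (.lf
    [1, 0, 0, -2684354560, 0, 0, 0]) (.lf [1, 0, 0, -339214336, 0, 0, -205520896]))) (.lf [1, 0,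
    0, -402653184, 0, 0, 0])) (.lf [1, 0, 0, -1610612736, 0, 0, 0])) (.nd 1 (.nd 3 (.nd 0 (.lf
    [1, 0, 0, -268435456, 0, 0, 0]) (.nd 1 (.nd 2 (.lf [1, 0, 0, -335544320, 0, 0, -268435456])
    (.lf [1, 0, 0, -301989888, 0, 0, -268435456])) (.lf [1, 0, 0, -234881024, 0, 0,
    -134217728]))) (.lf [1, 0, 0, -318767104, 0, 0, 0])) (.lf [1, 0, 0, -436207616, 0, 0,
    -201326592])))))) (.nd 4 (.lf [1, -85899345920, 0, -3758096384, 0, 0, 0]) (.nd 3 (.lf [1, 0,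
    0, -201326592, 0, 0, -3758096384]) (.lf [1, -25769803776, 0, -1207959552, 0, 0, 0])))) (.lf
    [1, -85899345920, 0, -3221225472, 0, 0, 0])))
    (by decide +kernel)

theorem YBc2 : G [(c2 (sS lYB) vYB eDB)] (sdYB) 5 [93, 5, 3, 3, 3] [100, 6, 15, 47, 5] [200, 10, 100, 100, 3] :=
  G.split 4 YBc2_1 YBc2_38

theorem YAcC_1 : G [(sC lYA rYA)] (sdYA) 5 [93, 5, 3, 3, 6] [100, 6, 15, 47, 8] [200, 10, 100, 100, 6] :=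
  G.leaf 197 6417398900947434733568000000000 [2, 2, 2, 2, 2]
    (.nd 3 (.nd 4 (.nd 3 (.nd 2 (.nd 1 (.nd 4 (.lf [1, 0, 0, 0, 0, 0, -6442450944]) (.nd 3 (.lf
    [1, 0, 0, 0, 0, 0, 0]) (.nd 1 (.lf [1, 0, 0, 0, 0, 0, 0]) (.nd 4 (.lf [1, 0, 0, 0, 0, 0,
    -8589934592]) (.nd 3 (.lf [1, 0, 0, 0, 0, 0, 0]) (.nd 2 (.nd 4 (.lf [1, 0, 0, 0, 0, 0,
    -10737418240]) (.nd 0 (.lf [1, 0, 0, 0, 0, 0, -11542724608]) (.lf [1, 0, 0, 0, 0, 0,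
    -11274289152]))) (.nd 4 (.lf [1, 0, 0, 0, 0, 0, -10737418240]) (.nd 1 (.lf [1, 0, 0, 0, 0, 0,
    -8589934592]) (.nd 0 (.lf [1, 0, 0, 0, 0, 0, -11911823360]) (.lf [1, 0, 0, 0, 0, 0,
    -11811160064])))))))))) (.lf [1, 0, 0, 0, 0, 0, 0])) (.nd 1 (.nd 4 (.nd 3 (.lf [1, 0, 0, 0,
    0, 0, 0]) (.nd 1 (.lf [1, 0, 0, 0, 0, 0, 0]) (.lf [1, 0, 0, -33554432, 0, 0, -6543114240])))
    (.nd 3 (.lf [1, 0, 0, 0, 0, 0, 0]) (.nd 1 (.lf [1, 0, 0, 0, 0, 0, 0]) (.nd 4 (.lf [1, 0, 0,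
    -16777216, 0, 0, -8589934592]) (.nd 3 (.lf [1, 0, 0, 0, 0, 0, 0]) (.nd 2 (.nd 1 (.lf [1, 0,
    0, 0, 0, 0, -10468982784]) (.nd 0 (.lf [1, 0, 0, 0, 0, 0, -11274289152]) (.lf [1, 0, 0, 0, 0,
    0, -10737418240]))) (.nd 1 (.lf [1, 0, 0, -33554432, 0, 0, -9932111872]) (.nd 0 (.nd 4 (.lf
    [1, 0, 0, 0, 0, 0, -10066329600]) (.nd 3 (.lf [1, 0, 0, -8388608, 0, 0, -10468982784]) (.nd 4
    (.lf [1, 0, 0, 0, 0, 0, -10603200512]) (.nd 1 (.lf [1, 0, 0, -16777216, 0, 0, -10871635968])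
    (.nd 0 (.lf [1, 0, 0, -14680064, 0, 0, -11249123328]) (.lf [1, 0, 0, -16777216, 0, 0,
    -11408506880])))))) (.nd 4 (.lf [1, 0, 0, 0, 0, 0, -8589934592]) (.nd 3 (.lf [1, 0, 0, 0, 0,
    0, 0]) (.lf [1, 0, 0, -5111808, 0, 0, -10719592448]))))))))))) (.lf [1, 0, 0, 0, 0, 0, 0])))
    (.lf [1, 0, 0, 0, 0, 0, 0])) (.nd 2 (.lf [1, -1124073472, 0, 0, 0, 0, -1778384896]) (.nd 1
    (.nd 4 (.lf [1, 0, 0, -54525952, 0, 0, -3556769792]) (.nd 2 (.lf [1, 0, 0, 0, 0, 0,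
    -1979711488]) (.nd 1 (.lf [1, 0, 0, -134217728, 0, 0, 0]) (.nd 4 (.lf [1, 0, 0, -67108864, 0,
    0, -2684354560]) (.nd 3 (.nd 0 (.nd 2 (.nd 1 (.lf [1, 0, 0, -536870912, 0, 0, 0]) (.lf [1, 0,
    0, -50331648, 0, 0, -2499805184])) (.lf [1, 0, 0, -536870912, 0, 0, 0])) (.lf [1, 0, 0, 0, 0,
    0, 0])) (.lf [1, 0, 0, 0, 0, 0, 0])))))) (.lf [1, 0, 0, -268435456, 0, 0, 0])))) (.nd 4 (.nd
    3 (.nd 4 (.nd 1 (.nd 2 (.lf [1, 0, 0, 0, 0, 0, -9395240960]) (.nd 3 (.lf [1, 0, 0, 0, 0, 0,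
    -412316860416]) (.nd 1 (.lf [1, 0, 0, -150994944, 0, 0, -8858370048]) (.lf [1, 0, 0,
    -67108864, 0, 0, -9126805504])))) (.nd 2 (.nd 4 (.lf [1, 0, 0, 0, 0, 0, -8053063680]) (.lf
    [1, 0, 0, 0, 0, 0, -6442450944])) (.lf [1, 0, 0, -234881024, 0, 0, -8187281408]))) (.nd 1
    (.nd 3 (.lf [1, 0, 0, 0, 0, 0, -661424963584]) (.nd 2 (.nd 4 (.lf [1, 0, 0, 0, 0, 0,
    -10737418240]) (.nd 1 (.nd 3 (.nd 4 (.lf [1, 0, 0, 0, 0, 0, -10737418240]) (.nd 0 (.lf [1, 0,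
    0, 0, 0, 0, -11945377792]) (.lf [1, 0, 0, 0, 0, 0, -11811160064]))) (.lf [1, 0, 0, 0, 0, 0,
    -10737418240])) (.nd 3 (.lf [1, 0, 0, 0, 0, 0, -463856467968]) (.nd 4 (.lf [1, 0, 0, 0, 0, 0,
    -11811160064]) (.nd 0 (.lf [1, 0, 0, 0, 0, 0, -12415139840]) (.nd 1 (.lf [1, 0, 0, 0, 0, 0,
    -11811160064]) (.lf [1, 0, 0, 0, 0, 0, -12348030976]))))))) (.nd 4 (.nd 1 (.nd 3 (.lf [1, 0,
    0, -67108864, 0, 0, -10200547328]) (.lf [1, 0, 0, -67108864, 0, 0, -9126805504])) (.lf [1, 0,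
    0, -50331648, 0, 0, -10737418240])) (.nd 1 (.nd 3 (.nd 4 (.lf [1, 0, 0, -67108864, 0, 0,
    -11274289152]) (.nd 0 (.nd 1 (.lf [1, 0, 0, -33554432, 0, 0, -12079595520]) (.nd 2 (.lf [1,
    0, 0, -39845888, 0, 0, -11718885376]) (.lf [1, 0, 0, -3221225472, 0, 0, 0]))) (.nd 1 (.nd 2
    (.nd 4 (.lf [1, 0, 0, 0, 0, 0, -10737418240]) (.nd 3 (.lf [1, 0, 0, -5242880, 0, 0,
    -11156848640]) (.lf [1, 0, 0, 0, 0, 0, -188978561024]))) (.lf [1, 0, 0, -50331648, 0, 0,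
    -11274289152])) (.nd 2 (.nd 4 (.lf [1, 0, 0, 0, 0, 0, -10737418240]) (.nd 3 (.lf [1, 0, 0,
    -19922944, 0, 0, -10863247360]) (.nd 0 (.lf [1, 0, 0, -33554432, 0, 0, -11676942336]) (.nd 4
    (.lf [1, 0, 0, 0, 0, 0, -10871635968]) (.nd 2 (.lf [1, 0, 0, -38731776, 0, 0, -11321475072])
    (.lf [1, 0, 0, 0, 0, 0, -11274289152])))))) (.lf [1, 0, 0, -67108864, 0, 0,
    -11005853696]))))) (.nd 2 (.nd 1 (.nd 0 (.lf [1, 0, 0, 0, 0, 0, -11056185344]) (.lf [1, 0, 0,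
    0, 0, 0, -10871635968])) (.lf [1, 0, 0, -33554432, 0, 0, -9932111872])) (.nd 0 (.lf [1, 0, 0,
    -33285996544, 0, 0, 0]) (.nd 1 (.nd 4 (.lf [1, 0, 0, -67108864, 0, 0, -10200547328]) (.nd 3
    (.lf [1, 0, 0, -46137344, 0, 0, -11005853696]) (.lf [1, 0, 0, 0, 0, 0, 0]))) (.lf [1, 0, 0,
    0, 0, 0, 0]))))) (.nd 3 (.lf [1, 0, 0, 0, 0, 0, -455266533376]) (.nd 4 (.nd 2 (.lf [1, 0, 0,
    0, 0, 0, -10737418240]) (.lf [1, 0, 0, -67108864, 0, 0, -10737418240])) (.nd 1 (.nd 2 (.nd 0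
    (.lf [1, 0, 0, 0, 0, 0, -11408506880]) (.lf [1, 0, 0, 0, 0, 0, -11140071424])) (.nd 0 (.lf
    [1, 0, 0, -33554432, 0, 0, -11408506880]) (.nd 3 (.lf [1, 0, 0, -28311552, 0, 0,
    -11282677760]) (.nd 4 (.lf [1, 0, 0, -33554432, 0, 0, -10603200512]) (.nd 2 (.lf [1, 0, 0,
    -16777216, 0, 0, -10871635968]) (.lf [1, 0, 0, -67108864, 0, 0, -10737418240])))))) (.nd 0
    (.nd 2 (.lf [1, 0, 0, 0, 0, 0, -12884901888]) (.lf [1, 0, 0, -16777216, 0, 0, -11676942336]))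
    (.nd 2 (.lf [1, 0, 0, 0, 0, 0, -11811160064]) (.nd 3 (.lf [1, 0, 0, 0, 0, 0, -369367187456])
    (.lf [1, 0, 0, -17039360, 0, 0, -11333009408]))))))))))) (.nd 2 (.nd 3 (.nd 4 (.lf [1, 0, 0,
    0, 0, 0, -10200547328]) (.nd 1 (.nd 4 (.lf [1, 0, 0, 0, 0, 0, -11274289152]) (.nd 3 (.nd 0
    (.lf [1, 0, 0, 0, 0, 0, -11676942336]) (.nd 2 (.nd 1 (.lf [1, 0, 0, 0, 0, 0, -11274289152])
    (.lf [1, 0, 0, 0, 0, 0, -11811160064])) (.lf [1, 0, 0, 0, 0, 0, -11811160064]))) (.lf [1, 0,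
    0, 0, 0, 0, -472446402560]))) (.nd 3 (.lf [1, 0, 0, -33554432, 0, 0, -10871635968]) (.nd 4
    (.lf [1, 0, 0, 0, 0, 0, -10737418240]) (.nd 0 (.lf [1, 0, 0, -50331648, 0, 0, -12616466432])
    (.nd 2 (.nd 1 (.lf [1, 0, 0, -46137344, 0, 0, -11878268928]) (.lf [1, 0, 0, -33554432, 0, 0,
    -11140071424])) (.lf [1, 0, 0, 0, 0, 0, -11811160064]))))))) (.nd 1 (.nd 4 (.lf [1, 0, 0, 0,
    0, 0, -8589934592]) (.nd 3 (.lf [1, 0, 0, 0, 0, 0, -10737418240]) (.lf [1, 0, 0, 0, 0, 0,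
    0]))) (.lf [1, 0, 0, 0, 0, 0, 0]))) (.nd 3 (.nd 4 (.lf [1, 0, 0, -134217728, 0, 0,
    -10200547328]) (.nd 1 (.nd 3 (.nd 4 (.lf [1, 0, 0, -67108864, 0, 0, -10737418240]) (.nd 0
    (.lf [1, 0, 0, -67108864, 0, 0, -12348030976]) (.nd 1 (.nd 2 (.nd 4 (.lf [1, 0, 0, -67108864,
    0, 0, -10737418240]) (.nd 3 (.lf [1, 0, 0, -50331648, 0, 0, -11408506880]) (.lf [1, 0, 0,
    -44040192, 0, 0, -10938744832]))) (.lf [1, 0, 0, -1073741824, 0, 0, 0])) (.nd 2 (.nd 4 (.lf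
    [1, 0, 0, -67108864, 0, 0, -11274289152]) (.nd 3 (.lf [1, 0, 0, 0, 0, 0, -197568495616]) (.nd
    0 (.lf [1, 0, 0, -50331648, 0, 0, -11811160064]) (.nd 4 (.lf [1, 0, 0, -50331648, 0, 0,
    -11274289152]) (.nd 2 (.lf [1, 0, 0, -67108864, 0, 0, -11274289152]) (.lf [1, 0, 0,
    -16777216, 0, 0, -11173625856])))))) (.lf [1, 0, 0, -4294967296, 0, 0, 0]))))) (.lf [1, 0, 0,
    0, 0, 0, -481036337152])) (.lf [1, 0, 0, -134217728, 0, 0, -11274289152]))) (.nd 1 (.nd 4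
    (.lf [1, 0, 0, -67108864, 0, 0, -8589934592]) (.nd 2 (.nd 3 (.nd 0 (.nd 1 (.lf [1, 0, 0,
    -4294967296, 0, 0, 0]) (.lf [1, 0, 0, -54525952, 0, 0, -11542724608])) (.nd 4 (.lf [1, 0, 0,
    0, 0, 0, -9663676416]) (.nd 1 (.lf [1, 0, 0, 0, 0, 0, 0]) (.nd 3 (.lf [1, 0, 0, 0, 0, 0, 0])
    (.nd 4 (.lf [1, 0, 0, -33554432, 0, 0, -10468982784]) (.nd 0 (.lf [1, 0, 0, -26214400, 0, 0,
    -10871635968]) (.lf [1, 0, 0, -27262976, 0, 0, -10754195456]))))))) (.lf [1, 0, 0, 0, 0, 0,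
    0])) (.lf [1, 0, 0, -1073741824, 0, 0, 0]))) (.lf [1, 0, 0, 0, 0, 0, 0])))))) (.lf [1, 0, 0,
    -46137344, 0, 0, -14965276672])) (.nd 4 (.nd 3 (.nd 1 (.nd 2 (.lf [1, 0, 0, 0, 0, 0,
    -6442450944]) (.lf [1, 0, 0, -128450560, 0, 0, -6866075648])) (.nd 2 (.lf [1, 0, 0, 0, 0, 0,
    -4831838208]) (.lf [1, 0, 0, -268435456, 0, 0, -6442450944]))) (.lf [1, 0, 0, 0, 0, 0,
    -12884901888])) (.nd 2 (.nd 1 (.nd 4 (.lf [1, 0, 0, 0, 0, 0, -4831838208]) (.lf [1,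
    -1073741824, 0, 0, 0, 0, -3758096384])) (.lf [1, 0, 0, 0, 0, -268435456, -3758096384])) (.nd
    1 (.nd 4 (.nd 1 (.lf [1, 0, 0, -134217728, 0, 0, -4294967296]) (.lf [1, 0, 0, -134217728, 0,
    0, -6442450944])) (.nd 1 (.nd 2 (.lf [1, 0, 0, -100663296, 0, 0, -3489660928]) (.lf [1, 0, 0,
    -469762048, 0, 0, -3221225472])) (.nd 3 (.nd 2 (.lf [1, 0, 0, 0, 0, 0, -3355443200]) (.lf [1,
    0, 0, -268435456, 0, 0, -6442450944])) (.lf [1, 0, 0, 0, 0, 0, -8589934592])))) (.lf [1, 0,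
    0, -268435456, 0, 0, -4294967296]))))))
    (by decide +kernel)

theorem YAcC_2 : G [(sC lYA rYA)] (sdYA) 5 [93, 5, 3, 3, 8] [100, 6, 15, 47, 10] [200, 10, 100, 100, 6] :=
  G.leaf 205 8242468835281285824921600000000 [2, 2, 2, 2, 2]
    (.nd 3 (.nd 1 (.nd 2 (.nd 4 (.lf [1, -11811160064, 0, 0, -33554432, 0, 0]) (.lf [1,
    -103079215104, 0, 0, 0, 0, 0])) (.nd 3 (.nd 4 (.nd 2 (.nd 4 (.lf [1, -85899345920, 0,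
    -2147483648, 0, 0, 0]) (.nd 1 (.lf [1, -8589934592, 0, -268435456, 0, 0, 0]) (.nd 0 (.nd 3
    (.lf [1, -4294967296, 0, 0, 0, 0, 0]) (.nd 4 (.lf [1, -73014444032, 0, -1879048192, 0, 0, 0])
    (.nd 2 (.nd 1 (.nd 0 (.lf [1, 0, 0, 0, 0, 0, 0]) (.nd 3 (.lf [1, 0, 0, 0, 0, 0, 0]) (.nd 0
    (.lf [1, 0, 0, 0, 0, 0, 0]) (.nd 3 (.lf [1, -2147483648, 0, 0, 0, 0, 0]) (.nd 2 (.lf [1,
    -4294967296, 0, 0, 0, 0, 0]) (.nd 4 (.lf [1, -6643777536, 0, -218103808, 0, 0, -1711276032])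
    (.lf [1, 0, 0, -50331648, 0, 0, -2281701376]))))))) (.nd 0 (.lf [1, 0, 0, 0, 0, 0, 0]) (.nd 4
    (.lf [1, -1855425871872, 0, 0, 0, 0, 0]) (.lf [1, -4294967296, 0, -117440512, 0, 0,
    -2281701376])))) (.lf [1, -4294967296, 0, 0, 0, 0, 0])))) (.lf [1, 0, 0, 0, 0, 0, 0])))) (.nd
    4 (.lf [1, -68719476736, 0, -2147483648, 0, 0, 0]) (.nd 1 (.lf [1, 0, 0, -536870912, 0, 0,
    0]) (.nd 3 (.lf [1, -17179869184, 0, -536870912, 0, 0, 0]) (.nd 0 (.nd 1 (.lf [1,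
    -5368709120, 0, -738197504, 0, 0, -1073741824]) (.nd 2 (.nd 4 (.lf [1, -34359738368, 0,
    -1073741824, 0, 0, 0]) (.nd 0 (.lf [1, -1073741824, 0, 0, 0, 0, 0]) (.nd 4 (.lf [1,
    -150323855360, 0, -3489660928, 0, 0, 0]) (.nd 2 (.lf [1, -11005853696, 0, -452984832, 0, 0,
    -2684354560]) (.nd 0 (.lf [1, -4026531840, 0, 0, 0, 0, 0]) (.nd 1 (.nd 3 (.lf [1, 0, 0, 0, 0,
    0, 0]) (.nd 0 (.lf [1, 0, 0, 0, 0, 0, -2147483648]) (.nd 4 (.lf [1, -7516192768, 0,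
    -268435456, 0, 0, -2415919104]) (.lf [1, 0, 0, -50331648, 0, 0, -2415919104])))) (.nd 3 (.lf
    [1, 0, 0, 0, 0, 0, 0]) (.lf [1, -6442450944, 0, -218103808, 0, 0, -2684354560])))))))) (.lf
    [1, -34359738368, 0, -2147483648, 0, 0, 0]))) (.lf [1, 0, 0, -16777216, 0, 0, 0])))))) (.lf
    [1, -85899345920, 0, -3221225472, 0, 0, 0])) (.lf [1, -17179869184, 0, 0, -536870912, 0,
    0]))) (.nd 2 (.nd 3 (.nd 4 (.lf [1, -13958643712, 0, -335544320, 0, -671088640, 0]) (.lf [1,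
    -120259084288, 0, -3221225472, 0, 0, 0])) (.lf [1, -85899345920, 0, 0, -2147483648, 0, 0]))
    (.nd 3 (.nd 4 (.lf [1, -17179869184, 0, -1073741824, 0, 0, 0]) (.lf [1, -154618822656, 0,
    -5368709120, 0, 0, 0])) (.lf [1, 0, 0, 0, -4294967296, 0, 0])))) (.nd 4 (.nd 2 (.nd 4 (.lf
    [1, -979252543488, 0, -24696061952, 0, -4294967296, 0]) (.nd 1 (.nd 4 (.nd 2 (.nd 0 (.nd 3
    (.nd 1 (.nd 2 (.lf [1, -68719476736, 0, 0, 0, 0, 0]) (.nd 0 (.lf [1, -103079215104, 0, 0, 0,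
    0, 0]) (.nd 4 (.nd 1 (.lf [1, -85899345920, 0, 0, 0, 0, 0]) (.lf [1, -3422552064, 0, 0, 0, 0,
    -1577058304])) (.lf [1, -4415226380288, 0, 0, 0, 0, 0])))) (.lf [1, -51539607552, 0, 0, 0, 0,
    0])) (.lf [1, 0, 0, 0, 0, 0, -8589934592])) (.lf [1, -103079215104, 0, 0, 0, 0, 0])) (.lf [1,
    -85899345920, 0, 0, 0, 0, 0])) (.nd 2 (.nd 1 (.nd 0 (.nd 3 (.lf [1, 0, 0, 0, 0, 0,
    -2415919104]) (.lf [1, 0, 0, 0, 0, 0, -8589934592])) (.lf [1, -29377576304640, 0, 0, 0, 0,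
    0])) (.lf [1, -292057776128, 0, 0, 0, 0, 0])) (.lf [1, -240518168576, 0, 0, 0, 0, 0]))) (.nd
    3 (.nd 1 (.nd 2 (.nd 4 (.nd 0 (.nd 2 (.lf [1, -51539607552, 0, 0, 0, -2147483648, 0]) (.nd 3
    (.lf [1, 0, 0, -268435456, 0, 0, -6442450944]) (.nd 1 (.lf [1, 0, 0, 0, 0, -536870912, 0])
    (.lf [1, -6387924992, 0, -203161600, 0, -61341696, -1203765248])))) (.lf [1, 0, 0, 0, 0, 0,
    0])) (.lf [1, 0, 0, 0, 0, 0, -1744830464])) (.lf [1, -68719476736, 0, 0, 0, -2147483648, 0]))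
    (.lf [1, 0, 0, 0, 0, -536870912, 0])) (.lf [1, 0, 0, 0, 0, 0, -17179869184])))) (.nd 4 (.lf
    [1, -755914244096, 0, -20401094656, 0, 0, 0]) (.nd 3 (.nd 1 (.nd 2 (.nd 1 (.nd 4 (.nd 0 (.nd
    3 (.lf [1, 0, 0, 0, 0, 0, -17179869184]) (.nd 2 (.lf [1, -429496729600, 0, -15032385536, 0,
    0, 0]) (.nd 0 (.lf [1, 0, 0, 0, 0, 0, -1073741824]) (.nd 4 (.nd 1 (.nd 0 (.lf [1, 0, 0, 0, 0,
    0, -1610612736]) (.nd 2 (.nd 3 (.lf [1, 0, 0, 0, 0, 0, -17179869184]) (.lf [1, -9126805504,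
    0, -276824064, 0, 0, -1744830464])) (.lf [1, -15977278341120, 0, 0, 0, 0, 0]))) (.nd 0 (.lf
    [1, 0, 0, 0, 0, 0, -1207959552]) (.nd 2 (.lf [1, -9126805504, 0, -352321536, 0, 0,
    -1879048192]) (.nd 1 (.lf [1, -10049552384, 0, -286261248, 0, 0, -1769996288]) (.lf [1,
    -4563402752, 0, -184549376, 0, 0, -1476395008]))))) (.lf [1, -223338299392, 0, -5368709120,
    0, 0, 0]))))) (.lf [1, 0, 0, 0, 0, 0, -1073741824])) (.nd 0 (.nd 1 (.nd 2 (.nd 4 (.nd 0 (.lf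
    [1, 0, 0, 0, 0, 0, -2147483648]) (.nd 3 (.lf [1, 0, 0, 0, 0, 0, -8589934592]) (.nd 0 (.lf [1,
    0, 0, -67108864, 0, 0, -2147483648]) (.nd 2 (.nd 3 (.lf [1, 0, 0, 0, 0, 0, -17179869184])
    (.nd 1 (.lf [1, 0, 0, -536870912, 0, 0, -2147483648]) (.nd 0 (.lf [1, 0, 0, 0, 0, 0,
    -1744830464]) (.nd 4 (.lf [1, 0, 0, -67108864, 0, 0, -2147483648]) (.lf [1, -7516192768, 0,
    -268435456, 0, 0, -2147483648]))))) (.lf [1, 0, 0, -9663676416, 0, 0, 0]))))) (.lf [1, 0, 0,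
    -67108864, 0, 0, -2684354560])) (.nd 4 (.nd 0 (.lf [1, 0, 0, 0, 0, 0, -2147483648]) (.nd 3
    (.lf [1, 0, 0, 0, 0, 0, -8589934592]) (.nd 2 (.nd 0 (.lf [1, 0, 0, 0, 0, 0, -2147483648])
    (.nd 1 (.lf [1, 0, 0, -33554432, 0, 0, -1879048192]) (.lf [1, 0, 0, 0, 0, 0, -1939865600])))
    (.lf [1, 0, 0, 0, 0, 0, -2147483648])))) (.lf [1, 0, 0, 0, 0, 0, -2684354560]))) (.nd 2 (.lf
    [1, 0, 0, -536870912, 0, 0, -2147483648]) (.lf [1, 0, 0, -67108864, 0, 0, -2147483648])))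
    (.lf [1, 0, 0, 0, 0, 0, -2147483648]))) (.nd 4 (.lf [1, -377957122048, 0, -9663676416, 0, 0,
    0]) (.nd 0 (.nd 2 (.nd 3 (.lf [1, 0, 0, 0, 0, 0, -8589934592]) (.nd 1 (.nd 0 (.lf [1, 0, 0,
    0, 0, 0, -2147483648]) (.nd 4 (.nd 0 (.lf [1, 0, 0, 0, 0, 0, -2147483648]) (.nd 2 (.nd 3 (.lf
    [1, 0, 0, 0, 0, 0, -8589934592]) (.nd 1 (.lf [1, -1614907703296, 0, 0, 0, 0, 0]) (.lf [1,
    -6643777536, 0, -226492416, 0, 0, -2382364672]))) (.lf [1, -6710886400, 0, -251658240, 0, 0,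
    -2415919104]))) (.lf [1, 0, 0, -50331648, 0, 0, -2684354560]))) (.lf [1, 0, 0, 0, 0, 0,
    -17179869184]))) (.lf [1, -6442450944, 0, 0, 0, 0, -2684354560])) (.lf [1, 0, 0, 0, 0, 0,
    -2147483648])))) (.lf [1, -10737418240, 0, -671088640, 0, 0, -6979321856])) (.nd 2 (.nd 1
    (.nd 2 (.lf [1, 0, 0, -536870912, 0, 0, 0]) (.nd 4 (.lf [1, -11274289152, 0, -956301312, 0,
    0, -1744830464]) (.lf [1, 0, 0, -469762048, 0, 0, -2147483648]))) (.lf [1, 0, 0, -536870912,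
    0, 0, 0])) (.lf [1, 0, 0, -1073741824, 0, 0, 0]))) (.lf [1, 0, 0, 0, 0, 0, -17179869184]))))
    (.lf [1, -171798691840, 0, -5368709120, 0, 0, 0])))
    (by decide +kernel)

theorem YAcC : G [(sC lYA rYA)] (sdYA) 5 [93, 5, 3, 3, 3] [100, 6, 15, 47, 5] [200, 10, 100, 100, 3] :=
  G.split 4 YAcC_1 YAcC_2

theorem YBf20 : G [(f2B lYB uYB eP0)] (eh0 :: sdYB) 5 [93, 5, 3, 3, 3] [100, 6, 15, 47, 5] [200, 10, 100, 100, 3] :=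
  G.leaf 242 16784220267633019419019814578960990208000000000000000 [4, 7, 4, 4, 3]
    (.nd 4 (.nd 3 (.lf [1, -33554432, 0, 0, 0, 0, 0, -67108864]) (.nd 1 (.lf [1, -1795162112, 0,
    0, -18874368, 0, 0, -385875968]) (.nd 4 (.lf [1, -67108864, 0, 0, -2097152, 0, 0, 0]) (.nd 3
    (.lf [1, -9714008064, 0, 0, -102760448, 0, -243269632, -2080374784]) (.lf [1, 0, 0, 0,
    -131072, 0, 0, 0]))))) (.lf [1, -66840428544, 0, -7247757312, 0, -939524096, 0, 0]))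
    (by decide +kernel)

theorem YBc3 : G [(c3 vYB eDB)] (sdYB) 5 [93, 5, 3, 3, 3] [100, 6, 15, 47, 5] [200, 10, 100, 100, 3] :=
  G.leaf 131 43753240962732528640000000 [2, 3, 2, 2, 2]
    (.nd 4 (.nd 3 (.nd 3 (.nd 4 (.lf [1, -8192, 0, 0, 0, 0, -6144]) (.nd 3 (.lf [1, 0, 0, -64, 0,
    0, 0]) (.nd 2 (.lf [1, 0, 0, 0, 0, 0, 0]) (.nd 4 (.lf [1, 0, 0, -8, 0, 0, 0]) (.nd 3 (.lf [1,
    0, 0, -128, 0, 0, 0]) (.lf [2, 0, 0, -141, 0, 0, 0])))))) (.lf [1, 0, 0, 0, 0, 0, -32768]))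
    (.nd 3 (.nd 4 (.lf [1, 0, 0, 0, 0, 0, -1152]) (.nd 3 (.nd 4 (.lf [1, 0, 0, 0, 0, 0, 0]) (.nd
    2 (.nd 3 (.nd 4 (.lf [1, 0, 0, 0, 0, 0, 0]) (.nd 2 (.nd 3 (.lf [1, 0, 0, 0, 0, 0, -512]) (.lf
    [1, 0, 0, 0, 0, 0, -512])) (.lf [1, 0, 0, 0, 0, 0, 0]))) (.nd 4 (.lf [1, 0, 0, 0, 0, 0, 0])
    (.nd 2 (.lf [1, 0, 0, 0, 0, 0, -480]) (.lf [1, 0, 0, 0, 0, 0, 0])))) (.nd 3 (.nd 4 (.lf [1,
    0, 0, 0, 0, 0, 0]) (.nd 2 (.lf [1, 0, 0, -24, 0, 0, -448]) (.lf [1, 0, 0, -64, 0, 0, 0])))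
    (.lf [1, 0, 0, -64, 0, 0, 0])))) (.nd 4 (.lf [1, 0, 0, 0, 0, 0, 0]) (.nd 2 (.nd 3 (.lf [1, 0,
    0, 0, 0, -24, -160]) (.lf [1, 0, 0, -4, 0, 0, 0])) (.nd 3 (.nd 4 (.lf [1, 0, 0, -16, 0, 0,
    0]) (.nd 2 (.nd 3 (.lf [1, 0, 0, -49, 0, 0, 0]) (.lf [1, 0, 0, -52, 0, 0, 0])) (.lf [1, 0, 0,
    -64, 0, 0, 0]))) (.nd 4 (.lf [1, 0, 0, -64, 0, 0, 0]) (.nd 2 (.lf [1, 0, 0, -52, 0, 0, 0])
    (.lf [1, 0, 0, -68, 0, 0, 0])))))))) (.nd 4 (.lf [1, 0, 0, 0, 0, 0, 0]) (.nd 3 (.nd 4 (.lf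
    [1, 0, 0, 0, 0, 0, 0]) (.nd 2 (.nd 3 (.lf [1, 0, 0, 0, 0, 0, 0]) (.nd 4 (.lf [1, 0, 0, 0, 0,
    0, 0]) (.nd 2 (.lf [1, 0, 0, 0, 0, 0, 0]) (.nd 3 (.lf [1, 0, 0, 0, 0, 0, 0]) (.lf [1, 0, 0,
    0, 0, 0, 0]))))) (.lf [1, 0, 0, 0, 0, 0, 0]))) (.lf [1, 0, 0, 0, 0, 0, 0]))))) (.nd 3 (.lf
    [1, -32768, 0, 0, 0, 0, -24576]) (.lf [1, 0, 0, 0, 0, 0, -4096])))
    (by decide +kernel)

theorem YAc0 : G [(c0 lYA uYA rYA)] (sdYA) 5 [93, 5, 3, 3, 3] [100, 6, 15, 47, 5] [200, 10, 100, 100, 3] :=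
  G.leaf 151 4060760705467957771673600000000000 [2, 2, 2, 3, 3]
    (.nd 4 (.nd 3 (.lf [1, 0, 0, 0, -268435456, 0, 0]) (.lf [1, 0, 0, -16777216, 0, 0, 0])) (.lf
    [1, 0, 0, 0, 0, 0, 0]))
    (by decide +kernel)

theorem YBl1 : G [(up lYB)] (sdYB) 5 [93, 5, 3, 3, 3] [100, 6, 15, 47, 5] [200, 10, 100, 100, 3] :=
  G.leaf 80 30937521094400000 [1, 2, 1, 1, 1]
    (.nd 1 (.nd 4 (.lf [1, -245760, 0, 0, -1536, 0, 0]) (.lf [1, -393216, 0, 0, 0, 0, 0])) (.lf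
    [1, -536576, 0, -3840, 0, 0, -94208]))
    (by decide +kernel)

theorem XBu1 : G [(up uXB)] (sdXB) 5 [93, 4, 3, 3, 3] [100, 5, 26, 47, 5] [200, 10, 100, 100, 3] :=
  G.leaf 77 9932960156800000 [1, 2, 1, 1, 1]
    (.nd 4 (.nd 3 (.lf [1, 0, 0, 0, 0, 0, -131072]) (.lf [1, 0, 0, 0, 0, 0, 0])) (.lf [1,
    -1507328, 0, -34816, 0, 0, 0]))
    (by decide +kernel)

theorem XAdn : G [edn] (sdXA) 5 [93, 4, 3, 3, 3] [100, 5, 26, 47, 5] [200, 10, 100, 100, 3] :=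
  G.leaf 46 1036800000000 [1, 2, 1, 1, 1]
    (.lf [1, 0, 0, 0, 0, 0, -32])
    (by decide +kernel)

theorem XBl1 : G [(up lXB)] (sdXB) 5 [93, 4, 3, 3, 3] [100, 5, 26, 47, 5] [200, 10, 100, 100, 3] :=
  G.leaf 70 6364565040000000 [1, 2, 1, 1, 1]
    (.lf [1, -81920, 0, 0, 0, 0, 0])
    (by decide +kernel)

theorem YAza : G [eza] (sdYA) 5 [93, 5, 3, 3, 3] [100, 6, 15, 47, 5] [200, 10, 100, 100, 3] :=
  G.leaf 41 917568000000 [1, 2, 1, 1, 1]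
    (.lf [1, 0, 0, 0, 0, 0, 0])
    (by decide +kernel)

end Pool.Agent.Lib.MP_43bc59_co.ZM
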