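import Pool.Agent.Lib.MP_43bc59_co.M_P

set_option autoImplicit false
set_option maxRecDepth 100000

namespace Pool.Agent.Lib.MP_43bc59_co.ZM

open Bx

theorem XAf201_5 : G [(f2A lXA uXA (sE0 vXA) (pA lXA rXA eP1))] (ez0 :: eh1 :: sdXA) 5 [93, 8, 6, 12, 6] [100, 9, 29, 56, 8] [200, 20, 200, 400, 6] :=
  G.leaf 265 14052941314412866980118281824453333059628538265600000000000000 [4, 7, 4, 5, 3]
    (.nd 4 (.nd 2 (.lf [1, 0, 0, -134217728, 0, 0, 0, 0, 0]) (.nd 4 (.nd 1 (.lf [1, 0, 0,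
    -134217728, 0, 0, 0, 0, 0]) (.lf [1, 0, 0, -67108864, 0, 0, 0, 0, 0])) (.nd 3 (.nd 1 (.lf [1,
    0, 0, -67108864, 0, 0, 0, 0, 0]) (.lf [1, 0, 0, -16777216, 0, 0, 0, 0, 0])) (.lf [1, 0, 0,
    -67108864, 0, 0, 0, 0, 0])))) (.lf [1, 0, 0, -268435456, 0, 0, 0, 0, 0]))
    (by decide +kernel)

theorem XAf201_7 : G [(f2A lXA uXA (sE0 vXA) (pA lXA rXA eP1))] (ez0 :: eh1 :: sdXA) 5 [93, 9, 6, 12, 12] [100, 10, 29, 56, 14] [200, 20, 200, 400, 12] :=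
  G.leaf 263 135213649235037145065973483944590176410427981824000000000000000 [4, 7, 4, 5, 3]
    (.nd 2 (.nd 1 (.lf [1, 0, 0, -50331648, 0, 0, 0, 0, 0]) (.lf [1, -8388608, 0, 0, 0, 0, 0, 0,
    0])) (.nd 3 (.nd 1 (.nd 4 (.lf [1, 0, -33554432, 0, 0, 0, 0, 0, 0]) (.lf [1, 0, 0, -26214400,
    0, 0, -507904, 0, 0])) (.lf [1, 0, 0, 0, 0, 0, -1048576, 0, 0])) (.lf [1, 0, -8388608, 0, 0,
    0, 0, 0, 0])))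
    (by decide +kernel)

theorem XAf201_8 : G [(f2A lXA uXA (sE0 vXA) (pA lXA rXA eP1))] (ez0 :: eh1 :: sdXA) 5 [93, 9, 6, 12, 14] [100, 10, 29, 56, 16] [200, 20, 200, 400, 12] :=
  G.leaf 254 167488547820970827840210951841749630623762350080000000000000000 [4, 7, 4, 5, 3]
    (.nd 1 (.nd 2 (.lf [1, -268435456, 0, 0, 0, 0, 0, 0, 0]) (.lf [1, -36175872, 0, -20971520, 0,
    0, -573440, 0, 0])) (.lf [1, -25165824, 0, 0, 0, 0, -524288, 0, 0]))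
    (by decide +kernel)

theorem XAf201_6 : G [(f2A lXA uXA (sE0 vXA) (pA lXA rXA eP1))] (ez0 :: eh1 :: sdXA) 5 [93, 9, 6, 12, 6] [100, 10, 29, 56, 8] [200, 20, 200, 400, 6] :=
  G.split 4 XAf201_7 XAf201_8

theorem XAf201_4 : G [(f2A lXA uXA (sE0 vXA) (pA lXA rXA eP1))] (ez0 :: eh1 :: sdXA) 5 [93, 4, 6, 12, 6] [100, 5, 29, 56, 8] [200, 10, 200, 400, 6] :=
  G.split 1 XAf201_5 XAf201_6

theorem XAf201_12 : G [(f2A lXA uXA (sE0 vXA) (pA lXA rXA eP1))] (ez0 :: eh1 :: sdXA) 5 [93, 8, 29, 24, 12] [100, 9, 52, 68, 14] [200, 20, 200, 800, 12] :=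
  G.leaf 265 3995787441282754123344259461931459272358567625097216000000000000 [4, 7, 4, 5, 3]
    (.nd 2 (.nd 1 (.nd 4 (.lf [1, 0, 0, 0, 0, 0, 0, 0, 0]) (.lf [1, 0, 0, -50331648, 0, 0, 0, 0,
    0])) (.nd 4 (.lf [1, 0, -11534336, 0, 0, 0, -1097728, 0, 0]) (.nd 2 (.lf [1, 0, 0, 0, 0, 0,
    -1048576, 0, 0]) (.lf [1, 0, 0, -16777216, 0, 0, 0, 0, 0])))) (.nd 4 (.nd 3 (.lf [1, 0, 0, 0,
    0, 0, -2686976, 0, 0]) (.lf [1, 0, 0, 0, 0, 0, -2097152, 0, 0])) (.nd 1 (.lf [1, 0, 0, 0, 0,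
    0, -1048576, 0, 0]) (.lf [1, 0, 0, 0, 0, 0, -2097152, 0, 0]))))
    (by decide +kernel)

theorem XAf201_13 : G [(f2A lXA uXA (sE0 vXA) (pA lXA rXA eP1))] (ez0 :: eh1 :: sdXA) 5 [93, 8, 29, 68, 12] [100, 9, 52, 112, 14] [200, 20, 200, 800, 12] :=
  G.leaf 243 5111338762024425807076311888703859929667084484608000000000000000 [4, 7, 4, 5, 3]
    (.nd 2 (.lf [1, 0, 0, -16777216, 0, 0, 0, 0, 0]) (.lf [1, 0, 0, 0, 0, -1572864, 0, 0, 0]))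
    (by decide +kernel)

theorem XAf201_11 : G [(f2A lXA uXA (sE0 vXA) (pA lXA rXA eP1))] (ez0 :: eh1 :: sdXA) 5 [93, 8, 29, 12, 12] [100, 9, 52, 56, 14] [200, 20, 200, 400, 12] :=
  G.split 3 XAf201_12 XAf201_13

theorem XAf201_15 : G [(f2A lXA uXA (sE0 vXA) (pA lXA rXA eP1))] (ez0 :: eh1 :: sdXA) 5 [93, 8, 58, 12, 14] [100, 9, 81, 56, 16] [200, 20, 400, 400, 12] :=
  G.leaf 263 2595742054200029667292704434327179623620324905451520000000000000 [4, 7, 4, 5, 3]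
    (.nd 1 (.lf [1, 0, 0, -134217728, 0, 0, 0, 0, 0]) (.nd 3 (.nd 4 (.lf [1, 0, 0, -79691776, 0,
    0, -1245184, -1572864, 0]) (.lf [1, 0, 0, -109051904, 0, 0, -720896, 0, 0])) (.lf [1, 0, 0,
    -67108864, 0, 0, 0, 0, 0])))
    (by decide +kernel)

theorem XAf201_16 : G [(f2A lXA uXA (sE0 vXA) (pA lXA rXA eP1))] (ez0 :: eh1 :: sdXA) 5 [93, 8, 81, 12, 14] [100, 9, 104, 56, 16] [200, 20, 400, 400, 12] :=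
  G.leaf 257 3070499642864100546198080780753420863641112018944000000000000000 [4, 7, 4, 5, 3]
    (.nd 3 (.nd 4 (.lf [1, 0, 0, -65011712, 0, 0, -1818624, -1441792, 0]) (.lf [1, 0, 0,
    -150994944, 0, 0, -3670016, -4194304, 0])) (.nd 1 (.lf [1, 0, 0, -67108864, 0, 0, 0, 0, 0])
    (.lf [1, 0, 0, -67108864, 0, -2097152, 0, 0, 0])))
    (by decide +kernel)

theorem XAf201_14 : G [(f2A lXA uXA (sE0 vXA) (pA lXA rXA eP1))] (ez0 :: eh1 :: sdXA) 5 [93, 8, 29, 12, 14] [100, 9, 52, 56, 16] [200, 20, 200, 400, 12] :=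
  G.split 2 XAf201_15 XAf201_16

theorem XAf201_10 : G [(f2A lXA uXA (sE0 vXA) (pA lXA rXA eP1))] (ez0 :: eh1 :: sdXA) 5 [93, 8, 29, 12, 6] [100, 9, 52, 56, 8] [200, 20, 200, 400, 6] :=
  G.split 4 XAf201_11 XAf201_14

theorem XAf201_18 : G [(f2A lXA uXA (sE0 vXA) (pA lXA rXA eP1))] (ez0 :: eh1 :: sdXA) 5 [93, 9, 29, 12, 12] [100, 10, 52, 56, 14] [200, 20, 200, 400, 12] :=
  G.leaf 259 189497600252328577488039977789579772787912121253888000000000000 [4, 7, 4, 5, 3]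
    (.nd 3 (.nd 2 (.nd 4 (.lf [1, 0, 0, 0, 0, 0, -2097152, 0, 0]) (.lf [1, 0, 0, 0, 0, 0,
    -1572864, 0, 0])) (.lf [1, 0, 0, 0, 0, 0, -54525952, 0, 0])) (.nd 2 (.nd 4 (.nd 2 (.lf [1, 0,
    0, 0, 0, -2883584, 0, 0, 0]) (.lf [1, 0, -56623104, 0, 0, 0, 0, 0, 0])) (.lf [1, 0, 0, 0, 0,
    0, -1048576, 0, 0])) (.lf [1, 0, 0, 0, 0, -4194304, 0, 0, 0])))
    (by decide +kernel)

theorem XAf201_19 : G [(f2A lXA uXA (sE0 vXA) (pA lXA rXA eP1))] (ez0 :: eh1 :: sdXA) 5 [93, 9, 29, 12, 14] [100, 10, 52, 56, 16] [200, 20, 200, 400, 12] :=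
  G.leaf 265 235754928898000366052846280573850959879303793213440000000000000 [4, 7, 4, 5, 3]
    (.nd 2 (.nd 1 (.nd 3 (.nd 4 (.lf [1, -14680064, 0, 0, 0, 0, -983040, 0, 0]) (.lf [1, 0, 0,
    -83886080, 0, 0, -1835008, 0, 0])) (.lf [1, 0, 0, -29360128, 0, 0, -524288, 0, 0])) (.lf [1,
    -14680064, 0, 0, 0, 0, -1179648, 0, 0])) (.lf [1, 0, 0, 0, 0, -2752512, -327680, 0, 0]))
    (by decide +kernel)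

theorem XAf201_17 : G [(f2A lXA uXA (sE0 vXA) (pA lXA rXA eP1))] (ez0 :: eh1 :: sdXA) 5 [93, 9, 29, 12, 6] [100, 10, 52, 56, 8] [200, 20, 200, 400, 6] :=
  G.split 4 XAf201_18 XAf201_19

theorem XAf201_9 : G [(f2A lXA uXA (sE0 vXA) (pA lXA rXA eP1))] (ez0 :: eh1 :: sdXA) 5 [93, 4, 29, 12, 6] [100, 5, 52, 56, 8] [200, 10, 200, 400, 6] :=
  G.split 1 XAf201_10 XAf201_17

theorem XAf201_3 : G [(f2A lXA uXA (sE0 vXA) (pA lXA rXA eP1))] (ez0 :: eh1 :: sdXA) 5 [93, 4, 3, 12, 6] [100, 5, 26, 56, 8] [200, 10, 100, 400, 6] :=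
  G.split 2 XAf201_4 XAf201_9

theorem XAf201_21 : G [(f2A lXA uXA (sE0 vXA) (pA lXA rXA eP1))] (ez0 :: eh1 :: sdXA) 5 [93, 4, 6, 56, 6] [100, 5, 29, 100, 8] [200, 10, 200, 400, 6] :=
  G.leaf 244 195857587241009420431147474323291201727365120000000000000000 [4, 7, 4, 5, 3]
    (.nd 4 (.nd 1 (.lf [1, 0, 0, -62914560, 0, 0, 0, 0, -10485760]) (.nd 2 (.lf [1, -11534336, 0,
    0, 0, 0, 0, 0, 0]) (.lf [1, 0, 0, 0, 0, 0, 0, 0, 0]))) (.nd 1 (.lf [1, 0, 0, -134217728, 0,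
    0, 0, 0, 0]) (.lf [1, -33554432, 0, 0, 0, 0, 0, 0, 0])))
    (by decide +kernel)

theorem XAf201_23 : G [(f2A lXA uXA (sE0 vXA) (pA lXA rXA eP1))] (ez0 :: eh1 :: sdXA) 5 [93, 4, 29, 56, 12] [100, 5, 52, 100, 14] [200, 10, 200, 400, 12] :=
  G.leaf 239 2000574986144127262693344838047603327526779224064000000000000 [4, 7, 4, 5, 3]
    (.nd 2 (.nd 1 (.lf [1, 0, 0, 0, 0, 0, 0, 0, 0]) (.lf [1, 0, 0, 0, 0, -1048576, 0, 0, 0]))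
    (.lf [1, 0, 0, 0, 0, -1978368, 0, 0, -6094848]))
    (by decide +kernel)

theorem XAf201_24 : G [(f2A lXA uXA (sE0 vXA) (pA lXA rXA eP1))] (ez0 :: eh1 :: sdXA) 5 [93, 4, 29, 56, 14] [100, 5, 52, 100, 16] [200, 10, 200, 400, 12] :=
  G.leaf 260 2482237145007475296828217412321718073263894036480000000000000 [4, 7, 4, 5, 3]
    (.nd 2 (.nd 1 (.lf [1, 0, 0, -54525952, 0, 0, 0, 0, -10485760]) (.nd 4 (.lf [1, 0, 0, 0, 0,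
    -524288, 0, 0, 0]) (.nd 1 (.lf [1, 0, 0, -25165824, 0, -786432, 0, 0, 0]) (.lf [1, -16777216,
    0, 0, 0, -1179648, 0, 0, 0])))) (.nd 1 (.lf [1, 0, 0, -83886080, 0, -2621440, 0, 0,
    -8388608]) (.lf [1, 0, 0, 0, 0, -2097152, 0, 0, 0])))
    (by decide +kernel)

theorem XAf201_22 : G [(f2A lXA uXA (sE0 vXA) (pA lXA rXA eP1))] (ez0 :: eh1 :: sdXA) 5 [93, 4, 29, 56, 6] [100, 5, 52, 100, 8] [200, 10, 200, 400, 6] :=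
  G.split 4 XAf201_23 XAf201_24

theorem XAf201_20 : G [(f2A lXA uXA (sE0 vXA) (pA lXA rXA eP1))] (ez0 :: eh1 :: sdXA) 5 [93, 4, 3, 56, 6] [100, 5, 26, 100, 8] [200, 10, 100, 400, 6] :=
  G.split 2 XAf201_21 XAf201_22

theorem XAf201_2 : G [(f2A lXA uXA (sE0 vXA) (pA lXA rXA eP1))] (ez0 :: eh1 :: sdXA) 5 [93, 4, 3, 6, 6] [100, 5, 26, 50, 8] [200, 10, 100, 200, 6] :=
  G.split 3 XAf201_3 XAf201_20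

theorem XAf201_28 : G [(f2A lXA uXA (sE0 vXA) (pA lXA rXA eP1))] (ez0 :: eh1 :: sdXA) 5 [93, 8, 3, 6, 32] [100, 9, 26, 50, 34] [200, 20, 100, 200, 24] :=
  G.leaf 242 3415720429228971147569887625416138388604998123520000000000000 [4, 7, 4, 5, 3]
    (.lf [1, 0, 0, -797253304320, 0, -19151192064, 0, 0, 0])
    (by decide +kernel)

theorem XAf201_30 : G [(f2A lXA uXA (sE0 vXA) (pA lXA rXA eP1))] (ez0 :: eh1 :: sdXA) 5 [93, 9, 6, 6, 32] [100, 10, 29, 50, 34] [200, 20, 200, 200, 24] :=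
  G.leaf 235 60401575092443091178969468250724793103289837158400000000000000 [4, 7, 4, 5, 3]
    (.lf [1, -402653184, 0, 0, 0, 0, 0, 0, 0])
    (by decide +kernel)

theorem XAf201_32 : G [(f2A lXA uXA (sE0 vXA) (pA lXA rXA eP1))] (ez0 :: eh1 :: sdXA) 5 [93, 9, 29, 12, 32] [100, 10, 52, 56, 34] [200, 20, 200, 400, 24] :=
  G.leaf 262 2199890682126339076240387094507723373176662448406528000000000000 [4, 7, 4, 5, 3]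
    (.nd 2 (.nd 1 (.nd 2 (.lf [1, 0, 0, -100663296, 0, -2097152, 0, 0, 0]) (.lf [1, -27262976, 0,
    -37748736, 0, 0, 0, 0, 0])) (.lf [1, -402653184, 0, -536870912, 0, -33554432, 0, 0, 0])) (.lf
    [1, 0, 0, -268435456, 0, -25165824, 0, 0, 0]))
    (by decide +kernel)

theorem XAf201_33 : G [(f2A lXA uXA (sE0 vXA) (pA lXA rXA eP1))] (ez0 :: eh1 :: sdXA) 5 [93, 9, 29, 56, 32] [100, 10, 52, 100, 34] [200, 20, 200, 400, 24] :=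
  G.leaf 257 3374673303093047108786346900429566899410646616506368000000000000 [4, 7, 4, 5, 3]
    (.nd 2 (.nd 1 (.lf [1, 0, 0, -100663296, 0, -2621440, 0, 0, 0]) (.lf [1, 0, 0, -50331648, 0,
    -2097152, 0, 0, 0])) (.lf [1, 0, 0, -268435456, 0, -25165824, 0, 0, 0]))
    (by decide +kernel)

theorem XAf201_31 : G [(f2A lXA uXA (sE0 vXA) (pA lXA rXA eP1))] (ez0 :: eh1 :: sdXA) 5 [93, 9, 29, 6, 32] [100, 10, 52, 50, 34] [200, 20, 200, 200, 24] :=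
  G.split 3 XAf201_32 XAf201_33

theorem XAf201_29 : G [(f2A lXA uXA (sE0 vXA) (pA lXA rXA eP1))] (ez0 :: eh1 :: sdXA) 5 [93, 9, 3, 6, 32] [100, 10, 26, 50, 34] [200, 20, 100, 200, 24] :=
  G.split 2 XAf201_30 XAf201_31

theorem XAf201_27 : G [(f2A lXA uXA (sE0 vXA) (pA lXA rXA eP1))] (ez0 :: eh1 :: sdXA) 5 [93, 4, 3, 6, 32] [100, 5, 26, 50, 34] [200, 10, 100, 200, 24] :=
  G.split 1 XAf201_28 XAf201_29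

theorem XAf201_34 : G [(f2A lXA uXA (sE0 vXA) (pA lXA rXA eP1))] (ez0 :: eh1 :: sdXA) 5 [93, 4, 3, 6, 34] [100, 5, 26, 50, 36] [200, 10, 100, 200, 24] :=
  G.leaf 229 33858579270349621875584984057006492110760706048000000000000 [4, 7, 4, 5, 3]
    (.lf [1, 0, 0, -6710886400, 0, -176160768, 0, 0, 0])
    (by decide +kernel)

theorem XAf201_26 : G [(f2A lXA uXA (sE0 vXA) (pA lXA rXA eP1))] (ez0 :: eh1 :: sdXA) 5 [93, 4, 3, 6, 16] [100, 5, 26, 50, 18] [200, 10, 100, 200, 12] :=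
  G.split 4 XAf201_27 XAf201_34

theorem XAf201_35 : G [(f2A lXA uXA (sE0 vXA) (pA lXA rXA eP1))] (ez0 :: eh1 :: sdXA) 5 [93, 4, 3, 6, 18] [100, 5, 26, 50, 20] [200, 10, 100, 200, 12] :=
  G.leaf 225 4870483764078762911702234918002291495497891840000000000000 [4, 7, 4, 5, 3]
    (.lf [1, 0, 0, -3758096384, 0, -109051904, 0, 0, 0])
    (by decide +kernel)

theorem XAf201_25 : G [(f2A lXA uXA (sE0 vXA) (pA lXA rXA eP1))] (ez0 :: eh1 :: sdXA) 5 [93, 4, 3, 6, 8] [100, 5, 26, 50, 10] [200, 10, 100, 200, 6] :=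
  G.split 4 XAf201_26 XAf201_35

theorem XAf201_1 : G [(f2A lXA uXA (sE0 vXA) (pA lXA rXA eP1))] (ez0 :: eh1 :: sdXA) 5 [93, 4, 3, 6, 3] [100, 5, 26, 50, 5] [200, 10, 100, 200, 3] :=
  G.split 4 XAf201_2 XAf201_25

theorem XAf201_36 : G [(f2A lXA uXA (sE0 vXA) (pA lXA rXA eP1))] (ez0 :: eh1 :: sdXA) 5 [93, 4, 3, 50, 3] [100, 5, 26, 94, 5] [200, 10, 100, 200, 3] :=
  G.leaf 234 123042264651487569903558030615549357752057856000000000000 [4, 7, 4, 5, 3]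
    (.nd 4 (.nd 3 (.nd 2 (.lf [1, 0, 0, 0, 0, 0, 0, 0, -134217728]) (.lf [1, 0, 0, 0, 0,
    -1572864, 0, 0, -58720256])) (.lf [1, 0, 0, 0, 0, 0, 0, 0, -268435456])) (.lf [1,
    -2550136832, 0, 0, 0, -125829120, 0, 0, -2550136832]))
    (by decide +kernel)

theorem XAf201 : G [(f2A lXA uXA (sE0 vXA) (pA lXA rXA eP1))] (ez0 :: eh1 :: sdXA) 5 [93, 4, 3, 3, 3] [100, 5, 26, 47, 5] [200, 10, 100, 100, 3] :=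
  G.split 3 XAf201_1 XAf201_36

theorem YAf201_2 : G [(f2A lYA uYA (sE0 vYA) (pA lYA rYA eP1))] (ez0 :: eh1 :: sdYA) 5 [93, 5, 3, 6, 6] [100, 6, 15, 50, 8] [200, 10, 100, 200, 6] :=
  G.leaf 249 412313244952922246477827134956321946193625088000000000000 [4, 7, 4, 5, 3]
    (.nd 2 (.nd 3 (.lf [1, -20971520, -16777216, 0, 0, 0, 0, 0, 0]) (.lf [1, 0, 0, 0, 0, 0, 0, 0,
    0])) (.nd 3 (.lf [1, 0, 0, 0, 0, 0, -1048576, 0, 0]) (.nd 4 (.nd 1 (.nd 2 (.lf [1, 0,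
    -8388608, 0, 0, 0, 0, 0, 0]) (.lf [1, 0, 0, 0, 0, -1048576, 0, 0, 0])) (.lf [1, 0, 0, 0, 0,
    -1048576, 0, 0, 0])) (.lf [1, -11534336, 0, 0, 0, -786432, 0, 0, 0]))))
    (by decide +kernel)

theorem YAf201_3 : G [(f2A lYA uYA (sE0 vYA) (pA lYA rYA eP1))] (ez0 :: eh1 :: sdYA) 5 [93, 5, 3, 6, 8] [100, 6, 15, 50, 10] [200, 10, 100, 200, 6] :=
  G.leaf 220 601520578852647700904855577520486316261769216000000000000 [4, 7, 4, 5, 3]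
    (.lf [1, -738197504, 0, 0, 0, -33554432, 0, 0, 0])
    (by decide +kernel)

theorem YAf201_1 : G [(f2A lYA uYA (sE0 vYA) (pA lYA rYA eP1))] (ez0 :: eh1 :: sdYA) 5 [93, 5, 3, 6, 3] [100, 6, 15, 50, 5] [200, 10, 100, 200, 3] :=
  G.split 4 YAf201_2 YAf201_3

theorem YAf201_5 : G [(f2A lYA uYA (sE0 vYA) (pA lYA rYA eP1))] (ez0 :: eh1 :: sdYA) 5 [93, 5, 6, 50, 3] [100, 6, 18, 94, 5] [200, 10, 200, 200, 3] :=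
  G.leaf 249 1706964572366029969921486040046060473004589056000000000000 [4, 7, 4, 5, 3]
    (.nd 4 (.nd 3 (.nd 4 (.lf [1, -603979776, 0, 0, 0, 0, 0, 0, 0]) (.nd 1 (.nd 4 (.lf [1,
    -23068672, 0, 0, 0, 0, 0, 0, 0]) (.lf [1, 0, 0, 0, 0, 0, 0, 0, -3407872])) (.lf [1, -1048576,
    0, 0, 0, 0, 0, 0, 0]))) (.lf [1, 0, 0, 0, 0, 0, 0, 0, -67108864])) (.lf [1, -536870912, 0, 0,
    0, 0, 0, 0, 0]))
    (by decide +kernel)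

theorem YAf201_7 : G [(f2A lYA uYA (sE0 vYA) (pA lYA rYA eP1))] (ez0 :: eh1 :: sdYA) 5 [93, 5, 18, 50, 6] [100, 6, 30, 94, 8] [200, 10, 200, 200, 6] :=
  G.leaf 256 16902075399604271287988812680060176039575289856000000000000 [4, 7, 4, 5, 3]
    (.nd 3 (.nd 4 (.nd 1 (.nd 3 (.lf [1, 0, 0, 0, 0, 0, 0, 0, -67108864]) (.lf [1, 0, 0, 0, 0,
    -131072, 0, 0, 0])) (.lf [1, 0, 0, 0, 0, -262144, 0, 0, 0])) (.nd 1 (.nd 3 (.lf [1, 0, 0, 0,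
    0, 0, 0, 0, -805306368]) (.lf [1, -16515072, 0, 0, 0, -589824, 0, 0, -2359296])) (.lf [1,
    -12582912, 0, 0, 0, -524288, 0, 0, 0]))) (.lf [1, 0, 0, 0, 0, -8388608, 0, 0, -201326592]))
    (by decide +kernel)

theorem YAf201_8 : G [(f2A lYA uYA (sE0 vYA) (pA lYA rYA eP1))] (ez0 :: eh1 :: sdYA) 5 [93, 5, 18, 50, 8] [100, 6, 30, 94, 10] [200, 10, 200, 200, 6] :=
  G.leaf 224 24424883899679758909456818729587109302988963840000000000000 [4, 7, 4, 5, 3]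
    (.lf [1, -536870912, 0, 0, 0, -8388608, 0, 0, 0])
    (by decide +kernel)

theorem YAf201_6 : G [(f2A lYA uYA (sE0 vYA) (pA lYA rYA eP1))] (ez0 :: eh1 :: sdYA) 5 [93, 5, 18, 50, 3] [100, 6, 30, 94, 5] [200, 10, 200, 200, 3] :=
  G.split 4 YAf201_7 YAf201_8

theorem YAf201_4 : G [(f2A lYA uYA (sE0 vYA) (pA lYA rYA eP1))] (ez0 :: eh1 :: sdYA) 5 [93, 5, 3, 50, 3] [100, 6, 15, 94, 5] [200, 10, 100, 200, 3] :=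
  G.split 2 YAf201_5 YAf201_6

theorem YAf201 : G [(f2A lYA uYA (sE0 vYA) (pA lYA rYA eP1))] (ez0 :: eh1 :: sdYA) 5 [93, 5, 3, 3, 3] [100, 6, 15, 47, 5] [200, 10, 100, 100, 3] :=
  G.split 3 YAf201_1 YAf201_4

theorem XAc3_3 : G [(c3 vXA eDA)] (sdXA) 5 [93, 4, 6, 6, 6] [100, 5, 29, 50, 8] [200, 10, 200, 200, 6] :=
  G.leaf 164 86097088870524175974400000000 [2, 4, 2, 2, 2]
    (.nd 3 (.nd 1 (.lf [1, -4096, 0, 0, 0, 0, 0]) (.nd 4 (.nd 3 (.nd 1 (.lf [1, -4096, 0, 0, 0,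
    0, 0]) (.nd 4 (.lf [1, -4096, 0, 0, 0, 0, 0]) (.lf [1, 0, 0, 0, 0, 0, 0]))) (.lf [1, -4096,
    0, 0, 0, 0, 0])) (.lf [1, -16384, 0, 0, 0, 0, 0]))) (.nd 1 (.lf [1, -1024, 0, 0, 0, 0, 0])
    (.nd 4 (.nd 3 (.nd 1 (.lf [1, 0, 0, 0, 0, 0, 0]) (.nd 2 (.nd 4 (.nd 3 (.lf [1, -4096, 0, 0,
    0, 0, 0]) (.nd 0 (.nd 1 (.lf [1, -1024, 0, 0, 0, 0, 0]) (.nd 4 (.nd 2 (.lf [1, 0, 0, 0, 0, 0,
    0]) (.nd 0 (.lf [1, 0, 0, 0, 0, 0, 0]) (.nd 3 (.lf [1, -4096, 0, 0, 0, 0, 0]) (.lf [1, -4096,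
    0, 0, 0, 0, 0])))) (.lf [1, -8192, 0, 0, 0, 0, 0]))) (.lf [1, -4096, 0, 0, 0, 0, 0]))) (.lf
    [1, 0, 0, 0, 0, 0, 0])) (.lf [1, 0, 0, 0, 0, 0, 0]))) (.nd 2 (.lf [1, -512, 0, 0, 0, 0, 0])
    (.nd 1 (.lf [1, 0, 0, 0, 0, 0, -4096]) (.nd 4 (.nd 3 (.lf [1, 0, 0, 0, 0, 0, -2432]) (.nd 2
    (.lf [1, 0, 0, 0, 0, 0, -2048]) (.nd 0 (.lf [1, 0, 0, 0, 0, 0, -5120]) (.nd 1 (.lf [1, 0, 0,
    0, 0, 0, -4096]) (.lf [1, 0, 0, 0, 0, 0, -3840]))))) (.nd 3 (.lf [1, 0, 0, 0, 0, 0, -3328])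
    (.nd 0 (.lf [1, 0, 0, 0, 0, 0, -5120]) (.lf [1, 0, 0, 0, 0, 0, -4096]))))))) (.nd 3 (.lf [1,
    -4096, 0, 0, 0, 0, 0]) (.nd 2 (.lf [1, -2048, 0, 0, 0, 0, 0]) (.nd 1 (.lf [1, 0, 0, 0, 0, 0,
    -3584]) (.nd 4 (.nd 2 (.lf [1, 0, 0, 0, 0, 0, -1536]) (.nd 3 (.lf [1, 0, 0, 0, 0, 0, -512])
    (.nd 0 (.lf [1, 0, 0, 0, 0, 0, -4096]) (.nd 1 (.lf [1, 0, 0, 0, 0, 0, -4096]) (.nd 4 (.lf [1,
    0, 0, 0, 0, 0, -3840]) (.nd 3 (.lf [1, 0, 0, 0, 0, 0, 0]) (.lf [1, 0, 0, 0, 0, 0,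
    -3968]))))))) (.lf [1, -2048, 0, 0, 0, 0, -3072]))))))))
    (by decide +kernel)

theorem XAc3_4 : G [(c3 vXA eDA)] (sdXA) 5 [93, 4, 29, 6, 6] [100, 5, 52, 50, 8] [200, 10, 200, 200, 6] :=
  G.leaf 164 95156248505317658787840000000 [2, 4, 2, 2, 2]
    (.nd 3 (.lf [1, 0, 0, 0, 0, 0, 0]) (.nd 1 (.nd 2 (.nd 4 (.nd 3 (.nd 1 (.nd 4 (.lf [1, 0, 0,
    0, 0, 0, -5888]) (.nd 3 (.nd 0 (.lf [1, 0, 0, -64, 0, 0, -6144]) (.lf [1, 0, 0, 0, 0, 0,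
    -6144])) (.lf [1, 0, 0, 0, 0, 0, 0]))) (.lf [1, 0, 0, 0, 0, 0, -8192])) (.lf [1, 0, 0, 0, 0,
    0, -7168])) (.nd 3 (.lf [1, 0, 0, 0, 0, 0, -5632]) (.lf [1, 0, 0, 0, 0, 0, -8192]))) (.nd 3
    (.nd 4 (.nd 1 (.nd 3 (.nd 2 (.nd 0 (.lf [1, 0, 0, -128, 0, 0, -7168]) (.nd 4 (.nd 1 (.nd 2
    (.lf [1, 0, 0, -80, 0, 0, -7936]) (.lf [1, 0, 0, 0, 0, 0, -8192])) (.lf [1, 0, 0, -88, 0, 0,
    -6912])) (.lf [1, 0, 0, -104, 0, 0, -6912]))) (.lf [1, 0, 0, -128, 0, 0, -8192])) (.lf [1, 0,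
    0, -128, 0, -256, 0])) (.nd 2 (.lf [1, 0, 0, -48, 0, 0, -7552]) (.nd 3 (.nd 0 (.lf [1, 0, 0,
    -8192, 0, -16384, 0]) (.nd 4 (.nd 1 (.nd 2 (.lf [1, 0, 0, -96, 0, 0, -8704]) (.lf [1, 0, 0,
    -160, 0, 0, -9216])) (.lf [1, 0, 0, -128, 0, 0, -10240])) (.lf [1, 0, 0, -128, 0, 0,
    -8704]))) (.nd 0 (.lf [1, 0, 0, 0, 0, -640, 0]) (.nd 4 (.nd 1 (.lf [1, 0, 0, -160, 0, 0, 0])
    (.nd 2 (.lf [1, 0, 0, 0, 0, 0, -8192]) (.lf [1, 0, 0, -128, 0, 0, -9216]))) (.lf [1, 0, 0,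
    -128, 0, 0, -8192])))))) (.nd 1 (.nd 2 (.nd 4 (.nd 0 (.lf [1, 0, 0, 0, 0, 0, -8192]) (.nd 3
    (.nd 1 (.lf [1, 0, 0, -48, 0, 0, -8064]) (.lf [1, 0, 0, -64, 0, 0, -7168])) (.lf [1, 0, 0, 0,
    0, 0, 0]))) (.lf [1, 0, 0, 0, 0, 0, -8192])) (.lf [1, 0, 0, -128, 0, 0, -8448])) (.nd 2 (.lf
    [1, 0, 0, 0, 0, 0, -8192]) (.nd 0 (.lf [1, 0, 0, 0, 0, 0, -10744]) (.nd 4 (.nd 3 (.nd 1 (.nd
    2 (.lf [1, 0, 0, -88, 0, 0, -9344]) (.lf [1, 0, 0, -128, 0, 0, -10240])) (.lf [1, 0, 0, -96,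
    0, 0, -10752])) (.lf [1, -2112, 0, -160, 0, 0, -8288])) (.lf [1, -589824, 0, -18432, 0, 0,
    0])))))) (.nd 4 (.nd 1 (.nd 2 (.nd 3 (.nd 0 (.lf [1, 0, 0, 0, 0, 0, -294912]) (.nd 4 (.nd 1
    (.lf [1, 0, 0, 0, 0, 0, -98304]) (.nd 2 (.lf [1, 0, 0, -6144, 0, 0, -163840]) (.lf [1, 0, 0,
    -64, 0, 0, -7680]))) (.lf [1, 0, 0, -104, 0, 0, -7808]))) (.lf [1, 0, 0, 0, 0, 0, -32768]))
    (.lf [1, 0, 0, -2048, 0, 0, -65536])) (.lf [1, 0, 0, 0, 0, 0, -65536])) (.nd 2 (.nd 1 (.nd 0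
    (.lf [1, 0, 0, 0, 0, 0, -425984]) (.nd 3 (.lf [1, 0, 0, -40, 0, 0, -8960]) (.lf [1, 0, 0, 0,
    0, 0, -32768]))) (.lf [1, 0, 0, 0, 0, 0, -65536])) (.lf [1, 0, 0, -2048, 0, 0, -98304])))))
    (.nd 2 (.nd 4 (.nd 3 (.nd 1 (.nd 4 (.nd 3 (.nd 0 (.lf [1, 0, 0, -48, 0, 0, -5120]) (.lf [1,
    0, 0, 0, 0, 0, 0])) (.lf [1, 0, 0, 0, 0, 0, 0])) (.nd 3 (.nd 2 (.nd 0 (.nd 1 (.lf [1, 0, 0,
    -96, 0, 0, 0]) (.nd 3 (.lf [1, 0, 0, 0, 0, 0, 0]) (.lf [1, 0, 0, -96, 0, 0, -5632]))) (.lf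
    [1, 0, 0, 0, 0, 0, 0])) (.lf [1, 0, 0, 0, 0, 0, 0])) (.lf [1, 0, 0, 0, 0, 0, 0]))) (.lf [1,
    0, 0, 0, 0, 0, 0])) (.nd 1 (.nd 2 (.nd 3 (.nd 4 (.nd 0 (.lf [1, 0, 0, -128, 0, 0, -6144])
    (.nd 1 (.nd 3 (.nd 2 (.lf [1, 0, 0, -32, 0, 0, -6144]) (.lf [1, 0, 0, -64, 0, 0, -6656]))
    (.lf [1, 0, 0, -88, 0, 0, 0])) (.nd 2 (.lf [1, 0, 0, 0, 0, 0, -6144]) (.lf [1, 0, 0, -48, 0,
    0, -6912])))) (.nd 0 (.nd 1 (.lf [1, 0, 0, -88, 0, 0, -6400]) (.lf [1, 0, 0, -96, 0, 0,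
    -7168])) (.nd 1 (.lf [1, 0, 0, -64, 0, 0, -6144]) (.lf [1, 0, 0, -32, 0, 0, -6656])))) (.nd 0
    (.lf [1, 0, 0, 0, 0, 0, -65536]) (.nd 4 (.nd 1 (.lf [1, 0, 0, -26, 0, 0, -7552]) (.lf [1, 0,
    0, 0, 0, 0, -32768])) (.lf [1, 0, 0, -64, 0, 0, -7168])))) (.nd 3 (.nd 4 (.lf [1, 0, 0, 0, 0,
    0, -5632]) (.nd 0 (.nd 1 (.nd 3 (.lf [1, 0, 0, 0, 0, 0, -8192]) (.lf [1, 0, 0, -32, 0, 0,
    -5632])) (.lf [1, 0, 0, 0, 0, 0, -8192])) (.lf [1, 0, 0, 0, 0, 0, -4096]))) (.lf [1, 0, 0, 0,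
    0, 0, -6272]))) (.nd 4 (.nd 2 (.nd 3 (.lf [1, 0, 0, -96, 0, 0, -5120]) (.lf [1, 0, 0, -64, 0,
    0, -6656])) (.nd 3 (.nd 0 (.lf [1, 0, 0, -40, 0, 0, -5120]) (.lf [1, 0, 0, 0, 0, 0, -4096]))
    (.nd 0 (.lf [1, 0, 0, 0, 0, 0, -7040]) (.nd 1 (.nd 2 (.nd 3 (.lf [1, 0, 0, 0, 0, 0, -6144])
    (.lf [1, 0, 0, 0, 0, 0, -8192])) (.lf [1, 0, 0, 0, 0, 0, -5120])) (.nd 4 (.nd 3 (.lf [1, 0,
    0, 0, 0, 0, -4096]) (.lf [1, 0, 0, 0, 0, 0, -6144])) (.nd 2 (.lf [1, 0, 0, 0, 0, 0, -6144])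
    (.lf [1, 0, 0, 0, 0, 0, -5120]))))))) (.nd 3 (.nd 0 (.nd 2 (.lf [1, 0, 0, -4096, 0, 0, 0])
    (.nd 1 (.nd 4 (.nd 3 (.lf [1, 0, 0, -40, 0, 0, -5760]) (.lf [1, 0, 0, -64, 0, 0, -4608]))
    (.nd 3 (.lf [1, 0, 0, -46, 0, 0, -5728]) (.lf [1, 0, 0, -64, 0, 0, -4608]))) (.lf [1, 0, 0,
    -64, 0, 0, -4608]))) (.lf [1, 0, 0, -48, 0, 0, -4352])) (.nd 2 (.lf [1, 0, 0, -128, 0, 0,
    -6144]) (.nd 0 (.lf [1, 0, 0, -60, 0, 0, -5888]) (.lf [1, 0, 0, 0, 0, 0, -6016]))))))) (.nd 3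
    (.lf [1, 0, 0, 0, 0, 0, -4096]) (.nd 1 (.nd 2 (.nd 4 (.nd 0 (.lf [1, 0, 0, 0, 0, 0, -8192])
    (.nd 3 (.nd 1 (.lf [1, 0, 0, -48, 0, 0, -6272]) (.lf [1, 0, 0, 0, 0, 0, -7424])) (.lf [1, 0,
    0, 0, 0, 0, -8192]))) (.lf [1, 0, 0, 0, 0, 0, -7680])) (.nd 4 (.nd 3 (.lf [1, 0, 0, 0, 0, 0,
    -5632]) (.lf [1, 0, 0, 0, 0, 0, -8192])) (.lf [1, 0, 0, 0, 0, 0, -6144]))) (.nd 4 (.nd 2 (.nd
    3 (.lf [1, 0, 0, -384, 0, 0, 0]) (.lf [1, 0, 0, -32, 0, 0, -7168])) (.nd 3 (.lf [1, 0, 0, 0,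
    0, 0, -4096]) (.nd 0 (.lf [1, 0, 0, 0, 0, 0, -6144]) (.nd 1 (.nd 0 (.lf [1, 0, 0, 0, 0, 0,
    -6144]) (.nd 4 (.lf [1, 0, 0, 0, 0, 0, -6144]) (.nd 2 (.lf [1, 0, 0, 0, 0, 0, -6144]) (.lf
    [1, 0, 0, 0, 0, 0, -5632])))) (.lf [1, 0, 0, 0, 0, 0, -5696]))))) (.nd 2 (.lf [1, 0, 0, 0, 0,
    0, -8192]) (.lf [1, 0, 0, 0, 0, 0, -5632])))))) (.nd 4 (.nd 3 (.lf [1, 0, 0, -512, 0, 0, 0])
    (.nd 1 (.nd 2 (.nd 3 (.nd 0 (.lf [1, 0, 0, -8192, 0, 0, 0]) (.nd 4 (.lf [1, 0, 0, -112, 0, 0,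
    -7296]) (.lf [1, 0, 0, -128, 0, 0, -7168]))) (.lf [1, 0, 0, -2048, 0, 0, -32768])) (.lf [1,
    0, 0, -2048, 0, 0, 0])) (.lf [1, 0, 0, -2048, 0, 0, 0]))) (.nd 3 (.lf [1, 0, 0, -512, 0, 0,
    0]) (.lf [1, 0, 0, -128, 0, 0, -8192]))))))
    (by decide +kernel)

theorem XAc3_2 : G [(c3 vXA eDA)] (sdXA) 5 [93, 4, 3, 6, 6] [100, 5, 26, 50, 8] [200, 10, 100, 200, 6] :=
  G.split 2 XAc3_3 XAc3_4

theorem XAc3_5 : G [(c3 vXA eDA)] (sdXA) 5 [93, 4, 3, 6, 8] [100, 5, 26, 50, 10] [200, 10, 100, 200, 6] :=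
  G.leaf 137 26742281799622183649280000000 [2, 4, 2, 2, 2]
    (.nd 2 (.lf [1, -12288, 0, 0, 0, 0, -4096]) (.nd 4 (.nd 3 (.lf [1, 0, 0, 0, 0, 0, 0]) (.nd 1
    (.lf [1, -37421056, 0, -899072, 0, 0, 0]) (.lf [1, -12032, 0, -400, 0, 0, -7296]))) (.lf [1,
    -98304, 0, -3072, 0, 0, 0])))
    (by decide +kernel)

theorem XAc3_1 : G [(c3 vXA eDA)] (sdXA) 5 [93, 4, 3, 6, 3] [100, 5, 26, 50, 5] [200, 10, 100, 200, 3] :=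
  G.split 4 XAc3_2 XAc3_5

theorem XAc3_6 : G [(c3 vXA eDA)] (sdXA) 5 [93, 4, 3, 50, 3] [100, 5, 26, 94, 5] [200, 10, 100, 200, 3] :=
  G.leaf 141 7347434931578669301760000000 [2, 4, 2, 2, 2]
    (.nd 3 (.nd 4 (.nd 2 (.nd 1 (.lf [1, 0, 0, 0, 0, 0, -8192]) (.nd 3 (.lf [1, 0, 0, 0, 0, 0,
    -16384]) (.nd 4 (.nd 2 (.nd 1 (.lf [1, 0, 0, 0, 0, 0, -16384]) (.nd 2 (.lf [1, -1024, 0, 0,
    0, 0, -3584]) (.lf [1, -512, 0, 0, 0, 0, -5376]))) (.lf [1, -1024, 0, 0, 0, 0, 0])) (.nd 2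
    (.lf [1, 0, 0, 0, 0, 0, -8192]) (.lf [1, 0, 0, 0, 0, 0, 0]))))) (.nd 1 (.lf [1, 0, 0, 0, 0,
    0, -65536]) (.nd 2 (.nd 3 (.lf [1, 0, 0, 0, 0, 0, -32768]) (.nd 4 (.lf [1, 0, 0, 0, 0, 0,
    -8704]) (.lf [1, 0, 0, -32, 0, 0, -8704]))) (.lf [1, 0, 0, 0, 0, 0, -16384])))) (.lf [1,
    -458752, 0, -10240, 0, 0, -360448])) (.lf [1, 0, 0, 0, 0, 0, -65536]))
    (by decide +kernel)

theorem XAc3 : G [(c3 vXA eDA)] (sdXA) 5 [93, 4, 3, 3, 3] [100, 5, 26, 47, 5] [200, 10, 100, 100, 3] :=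
  G.split 3 XAc3_1 XAc3_6

theorem YAc2 : G [(c2 (kr rYA) vYA eDA)] (sdYA) 5 [93, 5, 3, 3, 3] [100, 6, 15, 47, 5] [200, 10, 100, 100, 3] :=
  G.leaf 200 3809123858570921547992314675200000000000 [3, 4, 2, 3, 3]
    (.nd 4 (.nd 3 (.nd 4 (.nd 1 (.nd 3 (.nd 2 (.lf [1, -536870912, 0, 0, 0, 0, 0]) (.lf [1, 0, 0,
    0, 0, 0, 0])) (.lf [1, 0, 0, 0, 0, 0, 0])) (.lf [1, 0, 0, 0, 0, 0, 0])) (.nd 3 (.nd 1 (.nd 3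
    (.nd 2 (.nd 1 (.lf [1, 0, 0, 0, 0, 0, 0]) (.nd 4 (.nd 3 (.nd 2 (.lf [1, 0, 0, 0, 0, 0, 0])
    (.lf [1, 0, 0, 0, 0, 0, 0])) (.lf [1, 0, 0, 0, 0, 0, 0])) (.nd 3 (.lf [1, 0, 0, 0, 0, 0, 0])
    (.lf [1, 0, 0, 0, 0, 0, 0])))) (.nd 1 (.lf [1, 0, 0, 0, 0, 0, 0]) (.nd 4 (.lf [1, 0, 0, 0, 0,
    0, 0]) (.nd 3 (.lf [1, 0, 0, 0, 0, 0, 0]) (.lf [1, 0, 0, 0, 0, 0, 0]))))) (.nd 1 (.nd 2 (.nd
    4 (.nd 3 (.lf [1, 0, 0, 0, 0, 0, 0]) (.lf [1, 0, 0, 0, 0, 0, 0])) (.nd 3 (.lf [1, 0, 0, 0, 0,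
    0, 0]) (.lf [1, 0, 0, 0, 0, 0, 0]))) (.lf [1, 0, 0, 0, 0, 0, 0])) (.nd 2 (.nd 4 (.nd 3 (.lf
    [1, 0, 0, 0, 0, 0, 0]) (.lf [1, 0, 0, 0, 0, 0, 0])) (.nd 3 (.lf [1, 0, 0, 0, 0, 0, 0]) (.lf
    [1, 0, 0, 0, 0, 0, 0]))) (.nd 4 (.nd 3 (.lf [1, 0, 0, 0, 0, 0, 0]) (.lf [1, 0, 0, 0, 0, 0,
    0])) (.nd 3 (.nd 1 (.lf [1, 0, 0, 0, 0, 0, 0]) (.nd 2 (.lf [1, 0, 0, 0, 0, 0, 0]) (.lf [1, 0,
    0, 0, 0, 0, 0]))) (.nd 1 (.lf [1, 0, 0, 0, 0, 0, 0]) (.lf [1, 0, 0, 0, 0, 0, 0]))))))) (.nd 4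
    (.lf [1, 0, 0, 0, 0, 0, 0]) (.nd 3 (.lf [1, 0, 0, 0, 0, 0, 0]) (.nd 1 (.nd 2 (.lf [1, 0, 0,
    0, 0, 0, 0]) (.lf [1, 0, 0, 0, 0, 0, 0])) (.lf [1, 0, 0, 0, 0, 0, 0]))))) (.nd 1 (.nd 3 (.nd
    1 (.lf [1, 0, 0, 0, 0, 0, 0]) (.nd 2 (.nd 4 (.lf [1, 0, 0, 0, 0, 0, 0]) (.lf [1, 0, 0, 0, 0,
    0, 0])) (.lf [1, 0, 0, 0, 0, 0, 0]))) (.lf [1, 0, 0, 0, 0, 0, 0])) (.lf [1, 0, 0, 0,
    -20971520, 0, 0])))) (.nd 3 (.nd 1 (.nd 4 (.lf [1, 0, 0, 0, 0, 0, 0]) (.nd 3 (.lf [1, 0, 0,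
    0, 0, 0, -2147483648]) (.nd 1 (.nd 2 (.nd 4 (.lf [1, 0, 0, 0, 0, 0, 0]) (.nd 1 (.lf [1, 0, 0,
    0, 0, 0, 0]) (.nd 3 (.lf [1, 0, 0, 0, 0, 0, 0]) (.lf [1, 0, 0, 0, 0, 0, 0])))) (.nd 4 (.lf
    [1, 0, 0, 0, 0, 0, 0]) (.nd 3 (.nd 1 (.lf [1, 0, 0, 0, 0, 0, 0]) (.lf [1, 0, 0, 0, 0, 0, 0]))
    (.nd 1 (.lf [1, 0, 0, 0, 0, 0, 0]) (.lf [1, 0, 0, 0, 0, 0, 0]))))) (.nd 2 (.lf [1, 0, 0, 0,
    0, 0, 0]) (.nd 4 (.lf [1, 0, 0, 0, 0, 0, 0]) (.nd 3 (.lf [1, 0, 0, 0, 0, 0, 0]) (.nd 1 (.lf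
    [1, 0, 0, 0, 0, 0, 0]) (.lf [1, 0, 0, 0, 0, 0, 0])))))))) (.nd 4 (.lf [1, 0, 0, 0, 0, 0, 0])
    (.nd 3 (.nd 1 (.nd 2 (.nd 4 (.lf [1, 0, 0, 0, 0, 0, 0]) (.nd 3 (.nd 1 (.lf [1, 0, 0, 0, 0, 0,
    0]) (.lf [1, 0, 0, 0, 0, 0, 0])) (.lf [1, 0, 0, 0, 0, 0, 0]))) (.lf [1, 0, 0, 0, 0, 0,
    -134217728])) (.nd 2 (.nd 4 (.lf [1, 0, 0, 0, 0, 0, 0]) (.nd 3 (.lf [1, 0, 0, 0, 0, 0, 0])
    (.lf [1, 0, 0, 0, 0, 0, 0]))) (.lf [1, 0, 0, 0, 0, 0, 0]))) (.nd 1 (.nd 2 (.nd 4 (.lf [1, 0,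
    0, 0, 0, 0, 0]) (.nd 3 (.nd 1 (.lf [1, 0, 0, 0, 0, 0, 0]) (.lf [1, 0, 0, 0, 0, 0, 0])) (.lf
    [1, 0, 0, 0, 0, 0, 0]))) (.lf [1, 0, 0, 0, 0, 0, 0])) (.lf [1, 0, 0, 0, 0, 0, 0]))))) (.lf
    [1, 0, 0, 0, 0, 0, -536870912]))) (.lf [1, -1073741824, 0, 0, 0, 0, 0]))
    (by decide +kernel)

theorem YAl1 : G [(up lYA)] (sdYA) 5 [93, 5, 3, 3, 3] [100, 6, 15, 47, 5] [200, 10, 100, 100, 3] :=
  G.leaf 77 18699263257600000 [1, 2, 1, 1, 1]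
    (.nd 3 (.nd 4 (.lf [1, -65536, 0, 0, 0, 0, 0]) (.lf [1, -262144, 0, 0, 0, 0, 0])) (.lf [1,
    -262144, 0, 0, 0, 0, -98304]))
    (by decide +kernel)

theorem YAv0 : G [vYA] (sdYA) 5 [93, 5, 3, 3, 3] [100, 6, 15, 47, 5] [200, 10, 100, 100, 3] :=
  G.leaf 70 26120548748800000 [1, 2, 1, 1, 1]
    (.nd 4 (.lf [1, 0, 0, 0, -6656, 0, 0]) (.lf [1, 0, 0, 0, 0, 0, 0]))
    (by decide +kernel)

theorem XAv0 : G [vXA] (sdXA) 5 [93, 4, 3, 3, 3] [100, 5, 26, 47, 5] [200, 10, 100, 100, 3] :=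
  G.leaf 55 14483060857600000 [1, 2, 1, 1, 1]
    (.lf [1, 0, 0, 0, 0, 0, 0])
    (by decide +kernel)

theorem XBf110 : G [(f1 lXB uXB (sE1 vXB) eP0)] (ez1 :: eh0 :: sdXB) 5 [93, 4, 3, 3, 3] [100, 5, 26, 47, 5] [200, 10, 100, 100, 3] :=
  G.leaf 204 259588976027334935564259786362064076800000000000000 [4, 6, 4, 4, 3]
    (.lf [1, -8589934592, -17179869184, 0, 0, 0, 0, 0, -4294967296])
    (by decide +kernel)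

theorem YBf110 : G [(f1 lYB uYB (sE1 vYB) eP0)] (ez1 :: eh0 :: sdYB) 5 [93, 5, 3, 3, 3] [100, 6, 15, 47, 5] [200, 10, 100, 100, 3] :=
  G.leaf 209 646987995654088132527103477934469939200000000000000 [4, 6, 4, 4, 3]
    (.lf [1, -147639500800, -317827579904, 0, 0, 0, 0, 0, -54760833024])
    (by decide +kernel)

end Pool.Agent.Lib.MP_43bc59_co.ZM
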