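import Pool.Agent.Lib.MP_43bc59_co.M_C1

set_option autoImplicit false
set_option maxRecDepth 100000

namespace Pool.Agent.Lib.MP_43bc59_co.ZM

open Bx

theorem XBf21_3 : G [(f2B lXB uXB eP1)] (eh1 :: sdXB) 5 [93, 4, 3, 6, 12] [100, 5, 26, 50, 14] [200, 10, 100, 200, 12] :=
  G.leaf 233 2506241000244219469704024682113695075847372800000000000 [4, 7, 4, 4, 3]
    (.nd 2 (.nd 3 (.lf [1, 0, 0, 0, 0, 0, 0, -7784628224]) (.nd 1 (.lf [1, 0, -100663296, 0, 0,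
    0, 0, 0]) (.lf [1, 0, 0, 0, 0, 0, 0, 0]))) (.nd 3 (.lf [1, 0, 0, 0, 0, 0, 0, -5368709120])
    (.nd 2 (.lf [1, 0, 0, 0, -1048576, 0, 0, -16777216]) (.lf [1, 0, 0, 0, -4194304, 0, 0, 0]))))
    (by decide +kernel)

theorem XBf21_4 : G [(f2B lXB uXB eP1)] (eh1 :: sdXB) 5 [93, 4, 3, 6, 14] [100, 5, 26, 50, 16] [200, 10, 100, 200, 12] :=
  G.leaf 239 3001542924322056946096852858639890046255104000000000000 [4, 7, 4, 4, 3]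
    (.nd 2 (.nd 1 (.lf [1, 0, -268435456, 0, 0, 0, 0, 0]) (.lf [1, 0, -50331648, 0, 0, 0, 0,
    -33554432])) (.nd 2 (.nd 3 (.lf [1, 0, 0, 0, 0, 0, 0, -3758096384]) (.nd 1 (.lf [1, 0,
    -33554432, 0, 0, 0, 0, 0]) (.lf [1, 0, -50331648, 0, -2883584, 0, 0, -12582912]))) (.nd 3
    (.lf [1, 0, 0, 0, 0, 0, 0, -6174015488]) (.nd 1 (.lf [1, 0, -100663296, 0, -5242880, 0, 0,
    0]) (.lf [1, 0, 0, 0, -4194304, 0, 0, 0])))))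
    (by decide +kernel)

theorem XBf21_2 : G [(f2B lXB uXB eP1)] (eh1 :: sdXB) 5 [93, 4, 3, 6, 6] [100, 5, 26, 50, 8] [200, 10, 100, 200, 6] :=
  G.split 4 XBf21_3 XBf21_4

theorem XBf21_5 : G [(f2B lXB uXB eP1)] (eh1 :: sdXB) 5 [93, 4, 3, 6, 8] [100, 5, 26, 50, 10] [200, 10, 100, 200, 6] :=
  G.leaf 247 482326947076090339373765956408683037458432000000000000 [4, 7, 4, 4, 3]
    (.nd 3 (.lf [1, 0, 0, 0, 0, 0, 0, -81067507712]) (.nd 2 (.nd 4 (.lf [1, 0, -184549376, 0, 0,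
    0, 0, -8388608]) (.lf [1, 0, -3758096384, 0, 0, 0, 0, 0])) (.nd 4 (.nd 2 (.nd 4 (.lf [1, 0,
    -1610612736, 0, -50331648, 0, 0, 0]) (.nd 1 (.lf [1, 0, -134217728, 0, 0, 0, 0, 0]) (.lf [1,
    0, -134217728, 0, -5242880, 0, 0, 0]))) (.lf [1, 0, -15569256448, 0, -469762048, 0, 0, 0]))
    (.lf [1, 0, -1073741824, 0, -33554432, 0, 0, 0]))))
    (by decide +kernel)

theorem XBf21_1 : G [(f2B lXB uXB eP1)] (eh1 :: sdXB) 5 [93, 4, 3, 6, 3] [100, 5, 26, 50, 5] [200, 10, 100, 200, 3] :=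
  G.split 4 XBf21_2 XBf21_5

theorem XBf21_10 : G [(f2B lXB uXB eP1)] (eh1 :: sdXB) 5 [93, 4, 6, 100, 12] [100, 5, 29, 144, 14] [200, 10, 200, 400, 12] :=
  G.leaf 234 1132145697538829054413998353286830036615168000000000000000 [4, 7, 4, 4, 3]
    (.nd 2 (.nd 1 (.lf [1, 0, -67108864, 0, 0, 0, 0, 0]) (.lf [1, 0, 0, 0, 0, 0, 0, 0])) (.lf [1,
    0, 0, 0, 0, 0, 0, 0]))
    (by decide +kernel)

theorem XBf21_12 : G [(f2B lXB uXB eP1)] (eh1 :: sdXB) 5 [93, 4, 6, 288, 12] [100, 5, 29, 332, 14] [200, 10, 200, 800, 12] :=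
  G.leaf 243 24430461624749676032486779352478360535040000000000000000000 [4, 7, 4, 4, 3]
    (.nd 2 (.nd 4 (.nd 1 (.lf [1, 0, -41943040, 0, 0, 0, 0, 0]) (.lf [1, 0, 0, 0, 0, 0, 0, 0]))
    (.lf [1, 0, -33554432, 0, 0, 0, 0, 0])) (.lf [1, 0, -33554432, -16777216, 0, 0, 0, 0]))
    (by decide +kernel)

theorem XBf21_14 : G [(f2B lXB uXB eP1)] (eh1 :: sdXB) 5 [93, 8, 6, 332, 12] [100, 9, 29, 376, 14] [200, 20, 200, 800, 12] :=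
  G.leaf 250 3332768130372794057546664775051075508808712192000000000000000 [4, 7, 4, 4, 3]
    (.nd 2 (.nd 4 (.nd 3 (.lf [1, 0, -50331648, -13631488, 0, 0, 0, 0]) (.lf [1, 0, -536870912,
    -268435456, 0, 0, 0, 0])) (.lf [1, 0, -2147483648, 0, 0, 0, 0, 0])) (.lf [1, 0, 0,
    -2952790016, 0, 0, 0, 0]))
    (by decide +kernel)

theorem XBf21_15 : G [(f2B lXB uXB eP1)] (eh1 :: sdXB) 5 [93, 9, 6, 332, 12] [100, 10, 29, 376, 14] [200, 20, 200, 800, 12] :=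
  G.leaf 268 4256383605092614872023465674095160229483249664000000000000000 [4, 7, 4, 4, 3]
    (.nd 2 (.nd 4 (.nd 3 (.lf [1, 0, -8388608, -8388608, 0, 0, 0, 0]) (.nd 2 (.lf [1, 0, 0,
    -1073741824, 0, 0, 0, 0]) (.nd 4 (.lf [1, 0, -33554432, -16777216, 0, 0, 0, 0]) (.nd 1 (.lf
    [1, 0, -21495808, -13107200, 0, 0, 0, 0]) (.lf [1, 0, 0, -4194304, 0, 0, 0, 0]))))) (.lf [1,
    0, -33554432, -16777216, 0, 0, 0, 0])) (.lf [1, 0, 0, -1342177280, 0, 0, 0, 0]))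
    (by decide +kernel)

theorem XBf21_13 : G [(f2B lXB uXB eP1)] (eh1 :: sdXB) 5 [93, 4, 6, 332, 12] [100, 5, 29, 376, 14] [200, 10, 200, 800, 12] :=
  G.split 1 XBf21_14 XBf21_15

theorem XBf21_11 : G [(f2B lXB uXB eP1)] (eh1 :: sdXB) 5 [93, 4, 6, 144, 12] [100, 5, 29, 188, 14] [200, 10, 200, 400, 12] :=
  G.split 3 XBf21_12 XBf21_13

theorem XBf21_9 : G [(f2B lXB uXB eP1)] (eh1 :: sdXB) 5 [93, 4, 6, 50, 12] [100, 5, 29, 94, 14] [200, 10, 200, 200, 12] :=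
  G.split 3 XBf21_10 XBf21_11

theorem XBf21_16 : G [(f2B lXB uXB eP1)] (eh1 :: sdXB) 5 [93, 4, 6, 50, 14] [100, 5, 29, 94, 16] [200, 10, 200, 200, 12] :=
  G.leaf 227 104173875193370435132246344322076848947200000000000000000 [4, 7, 4, 4, 3]
    (.nd 3 (.nd 2 (.lf [1, 0, -134217728, 0, 0, 0, 0, 0]) (.lf [1, 0, -52428800, -11534336, 0, 0,
    0, 0])) (.lf [1, 0, -106954752, -39845888, 0, 0, 0, 0]))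
    (by decide +kernel)

theorem XBf21_8 : G [(f2B lXB uXB eP1)] (eh1 :: sdXB) 5 [93, 4, 6, 50, 6] [100, 5, 29, 94, 8] [200, 10, 200, 200, 6] :=
  G.split 4 XBf21_9 XBf21_16

theorem XBf21_19 : G [(f2B lXB uXB eP1)] (eh1 :: sdXB) 5 [93, 4, 29, 100, 12] [100, 5, 52, 144, 14] [200, 10, 200, 400, 12] :=
  G.leaf 223 1367636531647900663203544032794629235529901670400000000000 [4, 7, 4, 4, 3]
    (.nd 2 (.lf [1, 0, 0, 0, -262144, 0, 0, 0]) (.lf [1, 0, 0, -33554432, -2097152, 0, 0, 0]))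
    (by decide +kernel)

theorem XBf21_21 : G [(f2B lXB uXB eP1)] (eh1 :: sdXB) 5 [93, 4, 58, 100, 14] [100, 5, 81, 144, 16] [200, 10, 400, 400, 12] :=
  G.leaf 251 25195503358772672788495882727900540300408389632000000000000 [4, 7, 4, 4, 3]
    (.nd 3 (.nd 1 (.lf [1, 0, -33554432, 0, 0, 0, 0, 0]) (.lf [1, 0, -58720256, 0, -3145728, 0,
    0, 0])) (.nd 1 (.lf [1, 0, -134217728, -67108864, 0, 0, 0, 0]) (.nd 4 (.lf [1, 0, 0,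
    -29360128, -786432, 0, 0, 0]) (.nd 2 (.lf [1, 0, -92274688, -25165824, -2883584, 0, 0, 0])
    (.lf [1, 0, -134217728, -33554432, -5242880, 0, 0, 0])))))
    (by decide +kernel)

theorem XBf21_22 : G [(f2B lXB uXB eP1)] (eh1 :: sdXB) 5 [93, 4, 81, 100, 14] [100, 5, 104, 144, 16] [200, 10, 400, 400, 12] :=
  G.leaf 234 27677464651988279560646712137275504204972032000000000000000 [4, 7, 4, 4, 3]
    (.nd 1 (.lf [1, 0, -109051904, -37748736, -3932160, 0, 0, 0]) (.lf [1, 0, -134217728,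
    -33554432, -6291456, 0, 0, 0]))
    (by decide +kernel)

theorem XBf21_20 : G [(f2B lXB uXB eP1)] (eh1 :: sdXB) 5 [93, 4, 29, 100, 14] [100, 5, 52, 144, 16] [200, 10, 200, 400, 12] :=
  G.split 2 XBf21_21 XBf21_22

theorem XBf21_18 : G [(f2B lXB uXB eP1)] (eh1 :: sdXB) 5 [93, 4, 29, 100, 6] [100, 5, 52, 144, 8] [200, 10, 200, 400, 6] :=
  G.split 4 XBf21_19 XBf21_20

theorem XBf21_23 : G [(f2B lXB uXB eP1)] (eh1 :: sdXB) 5 [93, 4, 29, 144, 6] [100, 5, 52, 188, 8] [200, 10, 200, 400, 6] :=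
  G.leaf 221 276460791723441061048774484704428075276828672000000000000 [4, 7, 4, 4, 3]
    (.lf [1, 0, 0, -4294967296, 0, 0, 0, 0])
    (by decide +kernel)

theorem XBf21_17 : G [(f2B lXB uXB eP1)] (eh1 :: sdXB) 5 [93, 4, 29, 50, 6] [100, 5, 52, 94, 8] [200, 10, 200, 200, 6] :=
  G.split 3 XBf21_18 XBf21_23

theorem XBf21_7 : G [(f2B lXB uXB eP1)] (eh1 :: sdXB) 5 [93, 4, 3, 50, 6] [100, 5, 26, 94, 8] [200, 10, 100, 200, 6] :=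
  G.split 2 XBf21_8 XBf21_17

theorem XBf21_26 : G [(f2B lXB uXB eP1)] (eh1 :: sdXB) 5 [93, 4, 6, 50, 16] [100, 5, 29, 94, 18] [200, 10, 200, 200, 12] :=
  G.leaf 250 124030918319259480129580973083686362677248000000000000000 [4, 7, 4, 4, 3]
    (.nd 3 (.nd 2 (.lf [1, 0, -1073741824, 0, 0, 0, 0, 0]) (.nd 1 (.lf [1, 0, -536870912, 0, 0,
    0, 0, 0]) (.nd 4 (.nd 3 (.lf [1, 0, -109051904, -33554432, -1835008, 0, 0, 0]) (.lf [1, 0,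
    -134217728, 0, 0, 0, 0, 0])) (.lf [1, 0, -2684354560, 0, 0, 0, 0, 0])))) (.lf [1, 0,
    -2147483648, -1073741824, 0, 0, 0, 0]))
    (by decide +kernel)

theorem XBf21_27 : G [(f2B lXB uXB eP1)] (eh1 :: sdXB) 5 [93, 4, 29, 50, 16] [100, 5, 52, 94, 18] [200, 10, 200, 200, 12] :=
  G.leaf 251 150231551544392288018827746006408046514798592000000000000 [4, 7, 4, 4, 3]
    (.nd 3 (.nd 2 (.nd 4 (.nd 1 (.lf [1, 0, -134217728, -50331648, 0, 0, 0, 0]) (.nd 3 (.lf [1,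
    0, -176160768, -35127296, -5505024, 0, 0, 0]) (.lf [1, 0, -227409920, -12451840, -7114752, 0,
    0, 0]))) (.lf [1, 0, -1610612736, 0, -50331648, 0, 0, 0])) (.lf [1, 0, -30601641984, 0,
    -905969664, 0, 0, 0])) (.lf [1, 0, 0, -7784628224, 0, 0, 0, 0]))
    (by decide +kernel)

theorem XBf21_25 : G [(f2B lXB uXB eP1)] (eh1 :: sdXB) 5 [93, 4, 3, 50, 16] [100, 5, 26, 94, 18] [200, 10, 100, 200, 12] :=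
  G.split 2 XBf21_26 XBf21_27

theorem XBf21_28 : G [(f2B lXB uXB eP1)] (eh1 :: sdXB) 5 [93, 4, 3, 50, 18] [100, 5, 26, 94, 20] [200, 10, 100, 200, 12] :=
  G.leaf 216 10092860618245377005027958203909616930127872000000000000 [4, 7, 4, 4, 3]
    (.lf [1, 0, -4294967296, 0, -117440512, 0, 0, 0])
    (by decide +kernel)

theorem XBf21_24 : G [(f2B lXB uXB eP1)] (eh1 :: sdXB) 5 [93, 4, 3, 50, 8] [100, 5, 26, 94, 10] [200, 10, 100, 200, 6] :=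
  G.split 4 XBf21_25 XBf21_28

theorem XBf21_6 : G [(f2B lXB uXB eP1)] (eh1 :: sdXB) 5 [93, 4, 3, 50, 3] [100, 5, 26, 94, 5] [200, 10, 100, 200, 3] :=
  G.split 4 XBf21_7 XBf21_24

theorem XBf21 : G [(f2B lXB uXB eP1)] (eh1 :: sdXB) 5 [93, 4, 3, 3, 3] [100, 5, 26, 47, 5] [200, 10, 100, 100, 3] :=
  G.split 3 XBf21_1 XBf21_6

theorem YAf111_1 : G [(f1 lYA uYA (sE1 vYA) (pA lYA rYA eP1))] (ez1 :: eh1 :: sdYA) 5 [93, 5, 3, 6, 3] [100, 6, 15, 50, 5] [200, 10, 100, 200, 3] :=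
  G.leaf 224 7272299544108213394578324012924458237952000000000000 [4, 6, 4, 4, 3]
    (.nd 4 (.nd 2 (.nd 4 (.nd 3 (.lf [1, 0, 0, -268435456, 0, 0, -4194304, 0, 0]) (.lf [1, 0, 0,
    0, 0, 0, 0, 0, 0])) (.nd 3 (.lf [1, 0, 0, 0, 0, 0, -1048576, 0, 0]) (.lf [1, 0, 0, 0, 0, 0,
    0, 0, 0]))) (.nd 4 (.lf [1, 0, 0, 0, 0, -786432, -786432, 0, 0]) (.lf [1, -167772160, 0, 0,
    0, 0, 0, 0, 0]))) (.nd 2 (.nd 3 (.lf [1, 0, 0, -3489660928, 0, 0, -50331648, 0, 0]) (.lf [1,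
    0, 0, -394264576, 0, -8388608, 0, -6815744, 0])) (.nd 4 (.lf [1, 0, 0, -351272960, 0,
    -10813440, 0, 0, 0]) (.lf [1, 0, 0, -1610612736, 0, -50331648, 0, 0, 0]))))
    (by decide +kernel)

theorem YAf111_3 : G [(f1 lYA uYA (sE1 vYA) (pA lYA rYA eP1))] (ez1 :: eh1 :: sdYA) 5 [93, 5, 3, 50, 6] [100, 6, 15, 94, 8] [200, 10, 100, 200, 6] :=
  G.leaf 233 67224740902850509819310122480205788348416000000000000 [4, 6, 4, 4, 3]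
    (.nd 1 (.nd 2 (.nd 3 (.lf [1, 0, 0, 0, 0, 0, 0, 0, -16777216]) (.lf [1, 0, 0, 0, 0, 0, 0, 0,
    -134217728])) (.nd 4 (.lf [1, 0, 0, 0, 0, 0, 0, 0, -41943040]) (.nd 3 (.lf [1, 0, 0, 0, 0,
    -4194304, 0, 0, -67108864]) (.lf [1, 0, 0, 0, 0, 0, 0, 0, -402653184])))) (.nd 4 (.nd 2 (.lf
    [1, 0, 0, 0, -524288, 0, 0, 0, 0]) (.lf [1, 0, 0, 0, -8388608, -6291456, 0, 0, 0])) (.nd 2
    (.lf [1, 0, 0, 0, 0, 0, 0, 0, -25165824]) (.lf [1, 0, 0, 0, 0, -7340032, 0, 0, -50331648]))))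
    (by decide +kernel)

theorem YAf111_5 : G [(f1 lYA uYA (sE1 vYA) (pA lYA rYA eP1))] (ez1 :: eh1 :: sdYA) 5 [93, 5, 6, 50, 8] [100, 6, 18, 94, 10] [200, 10, 200, 200, 6] :=
  G.leaf 230 1287365036637681686554094162533283128147968000000000000 [4, 6, 4, 4, 3]
    (.nd 1 (.lf [1, 0, 0, -285212672, 0, 0, 0, 0, -41943040]) (.nd 4 (.nd 3 (.lf [1, 0, 0,
    -218103808, 0, -7340032, 0, 0, -16777216]) (.lf [1, 0, 0, 0, 0, -8388608, 0, 0, -100663296]))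
    (.lf [1, 0, 0, -1610612736, 0, -50331648, 0, 0, 0])))
    (by decide +kernel)

theorem YAf111_6 : G [(f1 lYA uYA (sE1 vYA) (pA lYA rYA eP1))] (ez1 :: eh1 :: sdYA) 5 [93, 5, 18, 50, 8] [100, 6, 30, 94, 10] [200, 10, 200, 200, 6] :=
  G.leaf 239 1639222195029240918945822943271547882700800000000000000 [4, 6, 4, 4, 3]
    (.nd 4 (.nd 1 (.nd 3 (.nd 4 (.lf [1, 0, 0, -5368709120, 0, -150994944, 0, 0, 0]) (.lf [1, 0,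
    0, -242221056, 0, -10354688, 0, 0, -63438848])) (.lf [1, 0, 0, 0, 0, 0, 0, 0, -805306368]))
    (.nd 3 (.lf [1, 0, 0, -268435456, 0, -16777216, 0, 0, -33554432]) (.lf [1, 0, 0, 0, 0,
    -67108864, 0, 0, -939524096]))) (.lf [1, 0, 0, -4026531840, 0, -134217728, 0, 0, 0]))
    (by decide +kernel)

theorem YAf111_4 : G [(f1 lYA uYA (sE1 vYA) (pA lYA rYA eP1))] (ez1 :: eh1 :: sdYA) 5 [93, 5, 3, 50, 8] [100, 6, 15, 94, 10] [200, 10, 100, 200, 6] :=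
  G.split 2 YAf111_5 YAf111_6

theorem YAf111_2 : G [(f1 lYA uYA (sE1 vYA) (pA lYA rYA eP1))] (ez1 :: eh1 :: sdYA) 5 [93, 5, 3, 50, 3] [100, 6, 15, 94, 5] [200, 10, 100, 200, 3] :=
  G.split 4 YAf111_3 YAf111_4

theorem YAf111 : G [(f1 lYA uYA (sE1 vYA) (pA lYA rYA eP1))] (ez1 :: eh1 :: sdYA) 5 [93, 5, 3, 3, 3] [100, 6, 15, 47, 5] [200, 10, 100, 100, 3] :=
  G.split 3 YAf111_1 YAf111_2

theorem XBf111_2 : G [(f1 lXB uXB (sE1 vXB) eP1)] (ez1 :: eh1 :: sdXB) 5 [93, 4, 3, 6, 6] [100, 5, 26, 50, 8] [200, 10, 100, 200, 6] :=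
  G.leaf 228 20051345766002170811222687375965602971648000000000000 [4, 6, 4, 4, 3]
    (.nd 2 (.nd 4 (.nd 1 (.lf [1, -1610612736, 0, -3221225472, 0, 0, 0, 0, 0]) (.lf [1, 0, 0, 0,
    0, 0, 0, 0, -33554432])) (.nd 1 (.lf [1, 0, 0, -536870912, 0, 0, 0, 0, 0]) (.lf [1, 0, 0,
    -134217728, 0, 0, 0, 0, -67108864]))) (.nd 4 (.lf [1, -1073741824, 0, 0, 0, 0, 0, 0, 0]) (.nd
    1 (.lf [1, -1073741824, 0, -2147483648, 0, 0, 0, 0, 0]) (.lf [1, -243269632, 0, 0, 0, 0, 0,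
    0, -67108864]))))
    (by decide +kernel)

theorem XBf111_3 : G [(f1 lXB uXB (sE1 vXB) eP1)] (ez1 :: eh1 :: sdXB) 5 [93, 4, 3, 6, 8] [100, 5, 26, 50, 10] [200, 10, 100, 200, 6] :=
  G.leaf 228 27162174636739779962387081074188786597888000000000000 [4, 6, 4, 4, 3]
    (.nd 4 (.nd 2 (.lf [1, 0, 0, -637534208, 0, 0, 0, 0, -50331648]) (.nd 3 (.lf [1, 0, 0, 0, 0,
    0, 0, 0, -35433480192]) (.lf [1, 0, 0, -1602224128, 0, -47808512, 0, 0, -41943040]))) (.lf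
    [1, 0, 0, -12884901888, 0, -369098752, 0, 0, 0]))
    (by decide +kernel)

theorem XBf111_1 : G [(f1 lXB uXB (sE1 vXB) eP1)] (ez1 :: eh1 :: sdXB) 5 [93, 4, 3, 6, 3] [100, 5, 26, 50, 5] [200, 10, 100, 200, 3] :=
  G.split 4 XBf111_2 XBf111_3

theorem XBf111_5 : G [(f1 lXB uXB (sE1 vXB) eP1)] (ez1 :: eh1 :: sdXB) 5 [93, 4, 3, 50, 6] [100, 5, 26, 94, 8] [200, 10, 100, 200, 6] :=
  G.leaf 226 39521700893203964400670714176904512929792000000000000 [4, 6, 4, 4, 3]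
    (.nd 4 (.nd 2 (.lf [1, 0, 0, -134217728, 0, 0, 0, 0, 0]) (.lf [1, -134217728, 0, 0, 0, 0, 0,
    0, 0])) (.nd 2 (.lf [1, 0, 0, -268435456, 0, 0, 0, 0, 0]) (.nd 1 (.lf [1, -176160768, 0, 0,
    0, 0, 0, 0, 0]) (.lf [1, -117440512, 0, -520093696, 0, -20971520, 0, 0, 0]))))
    (by decide +kernel)

theorem XBf111_6 : G [(f1 lXB uXB (sE1 vXB) eP1)] (ez1 :: eh1 :: sdXB) 5 [93, 4, 3, 50, 8] [100, 5, 26, 94, 10] [200, 10, 100, 200, 6] :=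
  G.leaf 235 54867167116840771476834740075688395538432000000000000 [4, 6, 4, 4, 3]
    (.nd 4 (.nd 2 (.nd 1 (.lf [1, 0, 0, -3221225472, 0, 0, 0, 0, 0]) (.nd 3 (.lf [1, 0, 0,
    -805306368, 0, 0, 0, 0, 0]) (.lf [1, 0, 0, -2147483648, -1073741824, 0, 0, 0, 0]))) (.nd 2
    (.nd 3 (.lf [1, 0, 0, -1342177280, 0, -41943040, 0, 0, 0]) (.lf [1, 0, 0, 0, -17716740096, 0,
    0, 0, 0])) (.lf [1, 0, 0, -112742891520, 0, -3489660928, 0, 0, 0]))) (.lf [1, 0, 0,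
    -12884901888, 0, -402653184, 0, 0, 0]))
    (by decide +kernel)

theorem XBf111_4 : G [(f1 lXB uXB (sE1 vXB) eP1)] (ez1 :: eh1 :: sdXB) 5 [93, 4, 3, 50, 3] [100, 5, 26, 94, 5] [200, 10, 100, 200, 3] :=
  G.split 4 XBf111_5 XBf111_6

theorem XBf111 : G [(f1 lXB uXB (sE1 vXB) eP1)] (ez1 :: eh1 :: sdXB) 5 [93, 4, 3, 3, 3] [100, 5, 26, 47, 5] [200, 10, 100, 100, 3] :=
  G.split 3 XBf111_1 XBf111_4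

theorem YBf100 : G [(f1 lYB uYB (sE0 vYB) eP0)] (ez0 :: eh0 :: sdYB) 5 [93, 5, 3, 3, 3] [100, 6, 15, 47, 5] [200, 10, 100, 100, 3] :=
  G.leaf 240 568311535033751829975058549775532032000000000000000 [4, 6, 4, 4, 3]
    (.nd 3 (.lf [1, 0, -33285996544, 0, 0, -402653184, 0, 0, -16106127360]) (.nd 4 (.nd 4 (.lf
    [1, 0, -19864223744, 0, 0, -335544320, 0, 0, 0]) (.nd 1 (.lf [1, 0, -50465865728, 0, 0,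
    -536870912, 0, 0, -10737418240]) (.nd 4 (.lf [1, 0, -1073741824, 0, 0, -16777216, 0, 0,
    -134217728]) (.nd 2 (.lf [1, 0, -1426063360, 0, 0, -9437184, 0, -39845888, -301989888]) (.lf
    [1, 0, -7516192768, 0, 0, -268435456, 0, 0, -1610612736]))))) (.lf [1, -9663676416, 0, 0, 0,
    -134217728, 0, 0, 0])))
    (by decide +kernel)

theorem YAc3 : G [(c3 vYA eDA)] (sdYA) 5 [93, 5, 3, 3, 3] [100, 6, 15, 47, 5] [200, 10, 100, 100, 3] :=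
  G.leaf 160 3608803801501206937600000000 [2, 4, 2, 2, 2]
    (.nd 4 (.nd 3 (.nd 3 (.nd 4 (.lf [1, 0, 0, -32, 0, 0, 0]) (.nd 1 (.nd 3 (.nd 4 (.lf [1, 0, 0,
    0, 0, 0, 0]) (.nd 2 (.nd 1 (.nd 3 (.nd 4 (.lf [1, 0, 0, 0, 0, 0, 0]) (.nd 0 (.nd 1 (.lf [1,
    0, 0, 0, 0, 0, 0]) (.lf [1, 0, 0, 0, 0, 0, 0])) (.lf [1, 0, 0, 0, 0, 0, 0]))) (.lf [1, 0, 0,
    0, 0, 0, 0])) (.nd 3 (.lf [1, 0, 0, 0, 0, 0, 0]) (.lf [1, 0, 0, 0, 0, 0, 0]))) (.nd 1 (.lf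
    [1, 0, 0, 0, 0, 0, 0]) (.nd 3 (.nd 4 (.lf [1, 0, 0, 0, 0, 0, 0]) (.nd 0 (.nd 1 (.lf [1, 0, 0,
    -48, 0, 0, 0]) (.nd 2 (.lf [1, 0, 0, 0, 0, 0, 0]) (.lf [1, 0, 0, -64, 0, 0, 0]))) (.lf [1, 0,
    0, 0, 0, 0, 0]))) (.lf [1, 0, 0, 0, 0, 0, 0]))))) (.nd 4 (.nd 2 (.lf [1, 0, 0, 0, 0, 0, 0])
    (.nd 1 (.lf [1, 0, 0, 0, 0, 0, 0]) (.nd 3 (.lf [1, 0, 0, 0, 0, 0, 0]) (.lf [1, 0, 0, -96, 0,
    0, 0])))) (.nd 2 (.nd 1 (.nd 3 (.nd 4 (.lf [1, 0, 0, 0, 0, 0, 0]) (.nd 1 (.lf [1, 0, 0, 0, 0,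
    0, 0]) (.nd 0 (.nd 2 (.lf [1, 0, 0, 0, 0, 0, 0]) (.nd 4 (.lf [1, 0, 0, 0, 0, 0, 0]) (.nd 3
    (.lf [1, 0, 0, 0, 0, 0, 0]) (.lf [1, 0, 0, 0, 0, 0, 0])))) (.lf [1, 0, 0, 0, 0, 0, 0]))))
    (.lf [1, 0, 0, 0, 0, 0, 0])) (.lf [1, 0, 0, 0, 0, 0, 0])) (.nd 1 (.nd 3 (.nd 1 (.nd 4 (.lf
    [1, 0, 0, 0, 0, 0, 0]) (.nd 0 (.nd 2 (.lf [1, 0, 0, -32, 0, 0, 0]) (.lf [1, 0, 0, -128, 0, 0,
    0])) (.lf [1, 0, 0, 0, 0, 0, 0]))) (.lf [1, 0, 0, 0, 0, 0, 0])) (.nd 2 (.nd 1 (.nd 0 (.nd 4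
    (.lf [1, 0, 0, 0, 0, 0, 0]) (.nd 3 (.lf [1, 0, 0, -40, 0, 0, 0]) (.lf [1, 0, 0, -64, 0, 0,
    0]))) (.lf [1, 0, 0, 0, 0, 0, 0])) (.lf [1, 0, 0, -32, 0, 0, 0])) (.lf [1, 0, 0, -80, 0, 0,
    0]))) (.nd 3 (.nd 2 (.nd 1 (.nd 0 (.nd 4 (.lf [1, 0, 0, 0, 0, 0, 0]) (.nd 3 (.lf [1, 0, 0,
    -48, 0, 0, 0]) (.lf [1, 0, 0, 0, 0, 0, 0]))) (.lf [1, 0, 0, 0, 0, 0, 0])) (.lf [1, 0, 0, 0,
    0, 0, 0])) (.nd 0 (.nd 1 (.lf [1, 0, 0, -128, 0, 0, 0]) (.lf [1, 0, 0, -128, 0, 0, 0])) (.lf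
    [1, 0, 0, -64, 0, 0, 0]))) (.nd 2 (.nd 1 (.lf [1, 0, 0, -56, 0, 0, 0]) (.lf [1, 0, 0, 0, 0,
    0, 0])) (.nd 0 (.lf [1, 0, 0, -128, 0, 0, 0]) (.nd 1 (.nd 4 (.lf [1, 0, 0, -96, 0, 0, 0])
    (.nd 3 (.lf [1, 0, 0, -64, 0, 0, 0]) (.lf [1, 0, 0, -80, 0, 0, 0]))) (.nd 4 (.nd 3 (.lf [1,
    0, 0, -96, 0, 0, 0]) (.lf [1, 0, 0, -128, 0, 0, 0])) (.nd 3 (.lf [1, 0, 0, -96, 0, 0, 0])
    (.lf [1, 0, 0, -96, 0, 0, 0]))))))))))) (.nd 3 (.lf [1, 0, 0, 0, 0, 0, 0]) (.nd 4 (.lf [1, 0,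
    0, 0, 0, 0, 0]) (.nd 1 (.nd 2 (.nd 3 (.lf [1, 0, 0, 0, 0, 0, 0]) (.nd 4 (.lf [1, 0, 0, 0, 0,
    0, 0]) (.nd 1 (.lf [1, 0, 0, 0, 0, 0, 0]) (.nd 0 (.lf [1, 0, 0, 0, 0, 0, 0]) (.nd 2 (.lf [1,
    0, 0, 0, 0, 0, 0]) (.nd 3 (.lf [1, 0, 0, 0, 0, 0, 0]) (.lf [1, 0, 0, 0, 0, 0, 0]))))))) (.lf
    [1, 0, 0, 0, 0, 0, 0])) (.lf [1, 0, 0, 0, 0, 0, 0])))))) (.nd 4 (.lf [1, 0, 0, 0, 0, 0, 0])
    (.nd 1 (.nd 3 (.nd 4 (.lf [1, 0, 0, 0, 0, 0, 0]) (.nd 1 (.lf [1, 0, 0, 0, 0, 0, 0]) (.nd 2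
    (.nd 4 (.lf [1, 0, 0, 0, 0, 0, 0]) (.nd 3 (.lf [1, 0, 0, 0, 0, 0, 0]) (.lf [1, 0, 0, 0, 0, 0,
    0]))) (.lf [1, 0, 0, 0, 0, 0, 0])))) (.lf [1, 0, 0, 0, 0, 0, 0])) (.lf [1, 0, 0, 0, 0, 0,
    0])))) (.nd 3 (.nd 4 (.nd 1 (.nd 2 (.lf [1, 0, 0, 0, 0, 0, 0]) (.nd 3 (.lf [1, 0, 0, 0, 0, 0,
    -114688]) (.lf [1, 0, 0, -120, 0, 0, -2432]))) (.nd 2 (.lf [1, 0, 0, 0, 0, 0, 0]) (.lf [1, 0,
    0, -192, 0, 0, 0]))) (.nd 1 (.nd 3 (.lf [1, 0, 0, 0, 0, 0, -65536]) (.nd 2 (.nd 1 (.nd 4 (.lf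
    [1, 0, 0, 0, 0, 0, 0]) (.nd 3 (.lf [1, 0, 0, 0, 0, 0, 0]) (.lf [1, 0, 0, 0, 0, 0, 0]))) (.lf
    [1, 0, 0, 0, 0, 0, 0])) (.nd 1 (.nd 4 (.nd 2 (.lf [1, 0, 0, 0, 0, 0, 0]) (.nd 3 (.lf [1, 0,
    0, -160, 0, 0, 0]) (.lf [1, 0, 0, -128, 0, 0, 0]))) (.nd 3 (.nd 2 (.nd 1 (.lf [1, 0, 0, -32,
    0, 0, 0]) (.nd 0 (.lf [1, 0, 0, -128, 0, 0, 0]) (.nd 4 (.lf [1, 0, 0, 0, 0, 0, 0]) (.lf [1,
    0, 0, -48, 0, 0, 0])))) (.nd 1 (.lf [1, 0, 0, -128, 0, 0, 0]) (.lf [1, 0, 0, -128, 0, 0,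
    0]))) (.nd 2 (.nd 0 (.lf [4, 0, 0, -267, 0, 0, 0]) (.nd 1 (.lf [1, 0, 0, 0, 0, 0, 0]) (.lf
    [1, 0, 0, 0, 0, 0, 0]))) (.nd 1 (.nd 0 (.lf [1, 0, 0, -4096, 0, 0, 0]) (.nd 4 (.lf [1, 0, 0,
    -96, 0, 0, 0]) (.nd 3 (.lf [1, 0, 0, -96, 0, 0, 0]) (.lf [1, 0, 0, -64, 0, 0, 0])))) (.lf [1,
    0, 0, -128, 0, 0, 0]))))) (.nd 4 (.nd 3 (.lf [1, 0, 0, 0, 0, 0, -49152]) (.nd 2 (.lf [1, 0,
    0, 0, 0, 0, 0]) (.lf [1, 0, 0, -176, 0, 0, 0]))) (.nd 3 (.lf [1, 0, 0, 0, 0, 0, -49152]) (.nd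
    2 (.lf [1, 0, 0, 0, 0, 0, 0]) (.nd 1 (.nd 0 (.lf [1, 0, 0, -128, 0, 0, 0]) (.nd 4 (.nd 3 (.lf
    [1, 0, 0, -128, 0, 0, 0]) (.lf [1, 0, 0, -128, 0, 0, 0])) (.nd 3 (.lf [1, 0, 0, -112, 0, 0,
    0]) (.nd 2 (.lf [1, 0, 0, -64, 0, 0, 0]) (.lf [1, 0, 0, -128, 0, 0, 0]))))) (.lf [1, 0, 0,
    -128, 0, 0, 0])))))))) (.nd 2 (.nd 3 (.nd 1 (.nd 4 (.lf [1, 0, 0, 0, 0, 0, 0]) (.nd 3 (.lf
    [1, 0, 0, 0, 0, 0, 0]) (.lf [1, 0, 0, 0, 0, 0, 0]))) (.nd 4 (.lf [1, 0, 0, 0, 0, 0, 0]) (.nd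
    3 (.nd 4 (.nd 0 (.lf [1, 0, 0, 0, 0, 0, 0]) (.nd 2 (.lf [1, 0, 0, 0, 0, 0, 0]) (.nd 1 (.lf
    [1, 0, 0, 0, 0, 0, 0]) (.lf [1, 0, 0, 0, 0, 0, 0])))) (.nd 0 (.lf [1, 0, 0, 0, 0, 0, 0]) (.nd
    1 (.lf [1, 0, 0, 0, 0, 0, 0]) (.lf [1, 0, 0, 0, 0, 0, 0])))) (.nd 1 (.lf [1, 0, 0, 0, 0, 0,
    0]) (.nd 0 (.lf [1, 0, 0, 0, 0, 0, 0]) (.nd 4 (.lf [1, 0, 0, 0, 0, 0, 0]) (.lf [1, 0, 0, 0,
    0, 0, 0]))))))) (.nd 4 (.nd 1 (.lf [1, 0, 0, 0, 0, 0, 0]) (.lf [1, 0, 0, 0, 0, 0, 0])) (.nd 1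
    (.nd 3 (.nd 4 (.lf [1, 0, 0, 0, 0, 0, 0]) (.nd 1 (.nd 0 (.lf [1, 0, 0, 0, 0, 0, 0]) (.nd 2
    (.lf [1, 0, 0, 0, 0, 0, 0]) (.nd 3 (.lf [1, 0, 0, 0, 0, 0, 0]) (.lf [1, 0, 0, 0, 0, 0, 0]))))
    (.lf [1, 0, 0, 0, 0, 0, 0]))) (.nd 4 (.lf [1, 0, 0, 0, 0, 0, 0]) (.nd 1 (.nd 0 (.lf [1, 0, 0,
    0, 0, 0, 0]) (.nd 2 (.lf [1, 0, 0, 0, 0, 0, 0]) (.nd 3 (.nd 4 (.lf [1, 0, 0, 0, 0, 0, 0])
    (.lf [1, 0, 0, 0, 0, 0, 0])) (.lf [1, 0, 0, 0, 0, 0, 0])))) (.lf [1, 0, 0, 0, 0, 0, 0]))))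
    (.nd 3 (.nd 4 (.lf [1, 0, 0, 0, 0, 0, 0]) (.nd 1 (.nd 0 (.lf [1, 0, 0, 0, 0, 0, 0]) (.nd 2
    (.lf [1, 0, 0, 0, 0, 0, 0]) (.nd 3 (.lf [1, 0, 0, 0, 0, 0, 0]) (.lf [1, 0, 0, 0, 0, 0, 0]))))
    (.lf [1, 0, 0, 0, 0, 0, 0]))) (.nd 4 (.lf [1, 0, 0, 0, 0, 0, 0]) (.lf [1, 0, 0, 0, 0, 0,
    0])))))) (.nd 3 (.nd 1 (.nd 4 (.lf [1, 0, 0, -64, 0, 0, -1536]) (.nd 3 (.nd 2 (.nd 0 (.lf [1,
    0, 0, -128, 0, 0, 0]) (.nd 1 (.lf [1, 0, 0, -32, 0, 0, 0]) (.lf [1, 0, 0, -32, 0, 0, -768])))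
    (.lf [1, 0, 0, -512, 0, 0, 0])) (.lf [1, 0, 0, 0, 0, 0, -32768]))) (.nd 4 (.lf [1, 0, 0, -64,
    0, 0, 0]) (.lf [1, 0, 0, 0, 0, 0, -1536]))) (.nd 1 (.nd 4 (.lf [1, 0, 0, -32, 0, 0, 0]) (.nd
    3 (.nd 1 (.lf [1, 0, 0, -32, 0, 0, 0]) (.nd 2 (.lf [1, 0, 0, -40, 0, 0, 0]) (.lf [1, 0, 0,
    -512, 0, 0, 0]))) (.lf [1, 0, 0, -32, 0, 0, 0]))) (.lf [1, 0, 0, 0, 0, 0, 0])))))) (.nd 1
    (.lf [1, 0, 0, 0, 0, 0, -16384]) (.nd 2 (.nd 4 (.lf [1, 0, 0, 0, 0, 0, -1024]) (.nd 3 (.nd 1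
    (.lf [1, 0, 0, 0, 0, 0, 0]) (.nd 4 (.lf [1, 0, 0, -32, 0, 0, 0]) (.lf [1, 0, 0, 0, 0, 0,
    -512]))) (.lf [1, 0, 0, -64, 0, 0, 0]))) (.lf [1, 0, 0, 0, 0, 0, -5120]))))) (.nd 3 (.lf [1,
    0, 0, 0, 0, 0, 0]) (.lf [1, -45952, 0, -1168, 0, 0, -6400])))
    (by decide +kernel)

theorem YBv1 : G [(up vYB)] (sdYB) 5 [93, 5, 3, 3, 3] [100, 6, 15, 47, 5] [200, 10, 100, 100, 3] :=
  G.leaf 76 10372084921600000 [1, 2, 1, 1, 1]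
    (.nd 4 (.lf [1, 0, 0, 0, 0, 0, -58112]) (.lf [1, -843776, 0, -22272, 0, 0, -36864]))
    (by decide +kernel)

theorem XAl0 : G [lXA] (sdXA) 5 [93, 4, 3, 3, 3] [100, 5, 26, 47, 5] [200, 10, 100, 100, 3] :=
  G.leaf 70 9144703840000000 [1, 2, 1, 1, 1]
    (.lf [1, 0, 0, 0, 0, 0, -32768])
    (by decide +kernel)

theorem XBv0 : G [vXB] (sdXB) 5 [93, 4, 3, 3, 3] [100, 5, 26, 47, 5] [200, 10, 100, 100, 3] :=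
  G.leaf 70 7816562272000000 [1, 2, 1, 1, 1]
    (.lf [1, 0, -65536, 0, 0, 0, 0])
    (by decide +kernel)

theorem YBza : G [eza] (sdYB) 5 [93, 5, 3, 3, 3] [100, 6, 15, 47, 5] [200, 10, 100, 100, 3] :=
  G.leaf 41 917568000000 [1, 2, 1, 1, 1]
    (.lf [1, 0, 0, 0, 0, 0, 0])
    (by decide +kernel)

end Pool.Agent.Lib.MP_43bc59_co.ZM
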