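import Pool.Agent.Lib.MP_43bc59_co.M_C2

set_option autoImplicit false
set_option maxRecDepth 100000

namespace Pool.Agent.Lib.MP_43bc59_co.ZM

open Bx

theorem XAf211_5 : G [(f2A lXA uXA (sE1 vXA) (pA lXA rXA eP1))] (ez1 :: eh1 :: sdXA) 5 [93, 8, 6, 12, 6] [100, 9, 29, 56, 8] [200, 20, 200, 400, 6] :=
  G.leaf 237 14587101155565013654322636237082896861228538265600000000000000 [4, 7, 4, 5, 3]
    (.lf [1, -1476395008, 0, -3221225472, 0, 0, 0, 0, 0])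
    (by decide +kernel)

theorem XAf211_7 : G [(f2A lXA uXA (sE1 vXA) (pA lXA rXA eP1))] (ez1 :: eh1 :: sdXA) 5 [93, 9, 6, 12, 12] [100, 10, 29, 56, 14] [200, 20, 200, 400, 12] :=
  G.leaf 264 140545848575518670676096435804174440192827981824000000000000000 [4, 7, 4, 5, 3]
    (.nd 2 (.nd 1 (.lf [1, 0, 0, -50331648, 0, 0, 0, 0, 0]) (.lf [1, 0, 0, -16777216, 0, 0, 0, 0,
    0])) (.nd 3 (.nd 4 (.lf [1, -134217728, 0, 0, 0, 0, 0, 0, 0]) (.nd 2 (.lf [1, 0, 0,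
    -10485760, 0, 0, 0, 0, 0]) (.lf [1, -1342177280, 0, 0, 0, 0, 0, 0, 0]))) (.lf [1, -65536, 0,
    0, 0, 0, 0, 0, 0])))
    (by decide +kernel)

theorem XAf211_8 : G [(f2A lXA uXA (sE1 vXA) (pA lXA rXA eP1))] (ez1 :: eh1 :: sdXA) 5 [93, 9, 6, 12, 14] [100, 10, 29, 56, 16] [200, 20, 200, 400, 12] :=
  G.leaf 257 173517941501970670678374584795962506911762350080000000000000000 [4, 7, 4, 5, 3]
    (.nd 1 (.nd 2 (.lf [1, 0, 0, -1610612736, 0, 0, 0, 0, 0]) (.nd 4 (.lf [1, 0, 0, -67108864, 0,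
    0, -524288, 0, 0]) (.lf [1, 0, 0, -83886080, 0, 0, 0, 0, 0]))) (.nd 2 (.lf [1, 0, 0,
    -67108864, 0, 0, 0, 0, 0]) (.lf [1, 0, 0, -41943040, 0, 0, -589824, 0, 0])))
    (by decide +kernel)

theorem XAf211_6 : G [(f2A lXA uXA (sE1 vXA) (pA lXA rXA eP1))] (ez1 :: eh1 :: sdXA) 5 [93, 9, 6, 12, 6] [100, 10, 29, 56, 8] [200, 20, 200, 400, 6] :=
  G.split 4 XAf211_7 XAf211_8

theorem XAf211_4 : G [(f2A lXA uXA (sE1 vXA) (pA lXA rXA eP1))] (ez1 :: eh1 :: sdXA) 5 [93, 4, 6, 12, 6] [100, 5, 29, 56, 8] [200, 10, 200, 400, 6] :=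
  G.split 1 XAf211_5 XAf211_6

theorem XAf211_10 : G [(f2A lXA uXA (sE1 vXA) (pA lXA rXA eP1))] (ez1 :: eh1 :: sdXA) 5 [93, 4, 29, 12, 12] [100, 5, 52, 56, 14] [200, 10, 200, 400, 12] :=
  G.leaf 231 1323968269468990106780489141528078883733647654912000000000000 [4, 7, 4, 5, 3]
    (.lf [1, -805306368, 0, 0, 0, 0, 0, 0, 0])
    (by decide +kernel)

theorem XAf211_12 : G [(f2A lXA uXA (sE1 vXA) (pA lXA rXA eP1))] (ez1 :: eh1 :: sdXA) 5 [93, 8, 29, 12, 14] [100, 9, 52, 56, 16] [200, 20, 200, 400, 12] :=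
  G.leaf 239 181763050119831085505774433620047427726838406840320000000000000 [4, 7, 4, 5, 3]
    (.lf [1, -671088640, 0, -1342177280, 0, 0, 0, 0, 0])
    (by decide +kernel)

theorem XAf211_14 : G [(f2A lXA uXA (sE1 vXA) (pA lXA rXA eP1))] (ez1 :: eh1 :: sdXA) 5 [93, 9, 58, 12, 14] [100, 10, 81, 56, 16] [200, 20, 400, 400, 12] :=
  G.leaf 265 3576123659212465146607699365056668909387743913574400000000000000 [4, 7, 4, 5, 3]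
    (.nd 3 (.nd 0 (.nd 2 (.nd 4 (.lf [1, 0, 0, 0, 0, 0, -925696, 0, 0]) (.lf [1, 0, 0,
    -100663296, 0, 0, -1835008, 0, 0])) (.lf [1, -4194304, 0, 0, 0, 0, -688128, 0, 0])) (.lf [1,
    0, 0, -83886080, 0, 0, -2097152, 0, 0])) (.nd 4 (.lf [1, -33554432, 0, 0, 0, 0, 0, 0, 0])
    (.nd 1 (.lf [1, 0, 0, -33554432, 0, 0, 0, 0, 0]) (.lf [1, 0, 0, 0, 0, -425984, 0, 0, 0]))))
    (by decide +kernel)

theorem XAf211_15 : G [(f2A lXA uXA (sE1 vXA) (pA lXA rXA eP1))] (ez1 :: eh1 :: sdXA) 5 [93, 9, 81, 12, 14] [100, 10, 104, 56, 16] [200, 20, 400, 400, 12] :=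
  G.leaf 241 4211796640254117557888878509960781891029172224000000000000000000 [4, 7, 4, 5, 3]
    (.lf [1, -268435456, 0, 0, 0, 0, 0, 0, 0])
    (by decide +kernel)

theorem XAf211_13 : G [(f2A lXA uXA (sE1 vXA) (pA lXA rXA eP1))] (ez1 :: eh1 :: sdXA) 5 [93, 9, 29, 12, 14] [100, 10, 52, 56, 16] [200, 20, 200, 400, 12] :=
  G.split 2 XAf211_14 XAf211_15

theorem XAf211_11 : G [(f2A lXA uXA (sE1 vXA) (pA lXA rXA eP1))] (ez1 :: eh1 :: sdXA) 5 [93, 4, 29, 12, 14] [100, 5, 52, 56, 16] [200, 10, 200, 400, 12] :=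
  G.split 1 XAf211_12 XAf211_13

theorem XAf211_9 : G [(f2A lXA uXA (sE1 vXA) (pA lXA rXA eP1))] (ez1 :: eh1 :: sdXA) 5 [93, 4, 29, 12, 6] [100, 5, 52, 56, 8] [200, 10, 200, 400, 6] :=
  G.split 4 XAf211_10 XAf211_11

theorem XAf211_3 : G [(f2A lXA uXA (sE1 vXA) (pA lXA rXA eP1))] (ez1 :: eh1 :: sdXA) 5 [93, 4, 3, 12, 6] [100, 5, 26, 56, 8] [200, 10, 100, 400, 6] :=
  G.split 2 XAf211_4 XAf211_9

theorem XAf211_17 : G [(f2A lXA uXA (sE1 vXA) (pA lXA rXA eP1))] (ez1 :: eh1 :: sdXA) 5 [93, 4, 6, 56, 6] [100, 5, 29, 100, 8] [200, 10, 200, 400, 6] :=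
  G.leaf 251 208824570485138289789413897532705038527365120000000000000000 [4, 7, 4, 5, 3]
    (.nd 4 (.nd 1 (.lf [1, -335544320, 0, -738197504, 0, 0, 0, 0, 0]) (.nd 2 (.nd 4 (.lf [1, 0,
    0, -16777216, 0, 0, 0, 0, 0]) (.lf [1, 0, 0, 0, 0, 0, 0, 0, 0])) (.lf [1, 0, 0, 0, 0, 0, 0,
    0, 0]))) (.nd 1 (.lf [1, 0, 0, -134217728, 0, 0, 0, 0, 0]) (.nd 2 (.lf [1, 0, 0, -67108864,
    0, 0, 0, 0, 0]) (.nd 4 (.lf [1, 0, 0, -16777216, 0, 0, 0, 0, 0]) (.lf [1, 0, 0, -33554432, 0,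
    0, 0, 0, 0])))))
    (by decide +kernel)

theorem XAf211_18 : G [(f2A lXA uXA (sE1 vXA) (pA lXA rXA eP1))] (ez1 :: eh1 :: sdXA) 5 [93, 4, 29, 56, 6] [100, 5, 52, 100, 8] [200, 10, 200, 400, 6] :=
  G.leaf 259 294012511744534131578416073819565901200998006784000000000000 [4, 7, 4, 5, 3]
    (.nd 4 (.lf [1, -134217728, 0, 0, 0, 0, 0, 0, 0]) (.nd 2 (.nd 1 (.lf [1, -268435456, 0,
    -536870912, 0, 0, 0, 0, 0]) (.nd 3 (.nd 4 (.lf [1, 0, 0, 0, 0, 0, 0, 0, 0]) (.lf [1, -958464,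
    0, -43024384, 0, -1263616, 0, 0, 0])) (.lf [1, -7831552, 0, -38928384, 0, -1220608, 0, 0,
    0]))) (.lf [1, -268435456, 0, 0, 0, 0, 0, 0, 0])))
    (by decide +kernel)

theorem XAf211_16 : G [(f2A lXA uXA (sE1 vXA) (pA lXA rXA eP1))] (ez1 :: eh1 :: sdXA) 5 [93, 4, 3, 56, 6] [100, 5, 26, 100, 8] [200, 10, 100, 400, 6] :=
  G.split 2 XAf211_17 XAf211_18

theorem XAf211_2 : G [(f2A lXA uXA (sE1 vXA) (pA lXA rXA eP1))] (ez1 :: eh1 :: sdXA) 5 [93, 4, 3, 6, 6] [100, 5, 26, 50, 8] [200, 10, 100, 200, 6] :=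
  G.split 3 XAf211_3 XAf211_16

theorem XAf211_21 : G [(f2A lXA uXA (sE1 vXA) (pA lXA rXA eP1))] (ez1 :: eh1 :: sdXA) 5 [93, 4, 6, 6, 16] [100, 5, 29, 50, 18] [200, 10, 200, 200, 12] :=
  G.leaf 258 56505646689406570356804054270625812546846720000000000000000 [4, 7, 4, 5, 3]
    (.nd 1 (.lf [1, 0, 0, -1879048192, 0, 0, 0, 0, 0]) (.nd 3 (.nd 1 (.lf [1, 0, 0, -1879048192,
    0, 0, 0, 0, 0]) (.lf [1, 0, 0, -83886080, 0, 0, -262144, 0, 0])) (.nd 2 (.lf [1, 0, 0,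
    -536870912, 0, 0, 0, 0, 0]) (.lf [1, 0, 0, -83886080, 0, 0, 0, 0, 0]))))
    (by decide +kernel)

theorem XAf211_23 : G [(f2A lXA uXA (sE1 vXA) (pA lXA rXA eP1))] (ez1 :: eh1 :: sdXA) 5 [93, 8, 29, 6, 16] [100, 9, 52, 50, 18] [200, 20, 200, 200, 12] :=
  G.leaf 236 8876269182030849175373250340577514837847767515136000000000000 [4, 7, 4, 5, 3]
    (.lf [1, -1207959552, 0, -2684354560, 0, 0, 0, 0, 0])
    (by decide +kernel)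

theorem XAf211_26 : G [(f2A lXA uXA (sE1 vXA) (pA lXA rXA eP1))] (ez1 :: eh1 :: sdXA) 5 [93, 9, 58, 12, 16] [100, 10, 81, 56, 18] [200, 20, 400, 400, 12] :=
  G.leaf 268 4369414099668442627618697987146083724865257114435584000000000000 [4, 7, 4, 5, 3]
    (.nd 1 (.nd 0 (.nd 4 (.nd 2 (.lf [1, 0, 0, -83886080, 0, 0, -262144, 0, 0]) (.lf [1, 0, 0,
    -100663296, 0, -2097152, 0, 0, 0])) (.lf [1, 0, 0, -805306368, 0, -16777216, 0, 0, 0])) (.lf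
    [1, -805306368, 0, -1879048192, 0, 0, 0, 0, 0])) (.lf [1, 0, 0, -100663296, 0, -2359296,
    -393216, 0, 0]))
    (by decide +kernel)

theorem XAf211_27 : G [(f2A lXA uXA (sE1 vXA) (pA lXA rXA eP1))] (ez1 :: eh1 :: sdXA) 5 [93, 9, 81, 12, 16] [100, 10, 104, 56, 18] [200, 20, 400, 400, 12] :=
  G.leaf 241 5153388416536551563964898868043651963679879987200000000000000000 [4, 7, 4, 5, 3]
    (.lf [1, 0, 0, -268435456, 0, -25165824, 0, 0, 0])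
    (by decide +kernel)

theorem XAf211_25 : G [(f2A lXA uXA (sE1 vXA) (pA lXA rXA eP1))] (ez1 :: eh1 :: sdXA) 5 [93, 9, 29, 12, 16] [100, 10, 52, 56, 18] [200, 20, 200, 400, 12] :=
  G.split 2 XAf211_26 XAf211_27

theorem XAf211_28 : G [(f2A lXA uXA (sE1 vXA) (pA lXA rXA eP1))] (ez1 :: eh1 :: sdXA) 5 [93, 9, 29, 56, 16] [100, 10, 52, 100, 18] [200, 20, 200, 400, 12] :=
  G.leaf 261 463730483732350557628295286623015635281212906405888000000000000 [4, 7, 4, 5, 3]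
    (.nd 2 (.nd 1 (.nd 4 (.lf [1, 0, 0, -112590848, 0, -2680832, 0, 0, -7733248]) (.lf [1, 0, 0,
    -536870912, 0, -16777216, 0, 0, 0])) (.lf [1, 0, 0, -88080384, 0, -2883584, 0, 0, 0])) (.lf
    [1, 0, 0, -536870912, 0, -33554432, 0, 0, 0]))
    (by decide +kernel)

theorem XAf211_24 : G [(f2A lXA uXA (sE1 vXA) (pA lXA rXA eP1))] (ez1 :: eh1 :: sdXA) 5 [93, 9, 29, 6, 16] [100, 10, 52, 50, 18] [200, 20, 200, 200, 12] :=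
  G.split 3 XAf211_25 XAf211_28

theorem XAf211_22 : G [(f2A lXA uXA (sE1 vXA) (pA lXA rXA eP1))] (ez1 :: eh1 :: sdXA) 5 [93, 4, 29, 6, 16] [100, 5, 52, 50, 18] [200, 10, 200, 200, 12] :=
  G.split 1 XAf211_23 XAf211_24

theorem XAf211_20 : G [(f2A lXA uXA (sE1 vXA) (pA lXA rXA eP1))] (ez1 :: eh1 :: sdXA) 5 [93, 4, 3, 6, 16] [100, 5, 26, 50, 18] [200, 10, 100, 200, 12] :=
  G.split 2 XAf211_21 XAf211_22

theorem XAf211_29 : G [(f2A lXA uXA (sE1 vXA) (pA lXA rXA eP1))] (ez1 :: eh1 :: sdXA) 5 [93, 4, 3, 6, 18] [100, 5, 26, 50, 20] [200, 10, 100, 200, 12] :=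
  G.leaf 225 5062257322272789685364380615766635303497891840000000000000 [4, 7, 4, 5, 3]
    (.lf [1, 0, 0, -3758096384, 0, -109051904, 0, 0, 0])
    (by decide +kernel)

theorem XAf211_19 : G [(f2A lXA uXA (sE1 vXA) (pA lXA rXA eP1))] (ez1 :: eh1 :: sdXA) 5 [93, 4, 3, 6, 8] [100, 5, 26, 50, 10] [200, 10, 100, 200, 6] :=
  G.split 4 XAf211_20 XAf211_29

theorem XAf211_1 : G [(f2A lXA uXA (sE1 vXA) (pA lXA rXA eP1))] (ez1 :: eh1 :: sdXA) 5 [93, 4, 3, 6, 3] [100, 5, 26, 50, 5] [200, 10, 100, 200, 3] :=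
  G.split 4 XAf211_2 XAf211_19

theorem XAf211_30 : G [(f2A lXA uXA (sE1 vXA) (pA lXA rXA eP1))] (ez1 :: eh1 :: sdXA) 5 [93, 4, 3, 50, 3] [100, 5, 26, 94, 5] [200, 10, 100, 200, 3] :=
  G.leaf 234 131819905646685361830817493265847725752057856000000000000 [4, 7, 4, 5, 3]
    (.nd 4 (.nd 3 (.nd 2 (.lf [1, 0, 0, 0, 0, 0, 0, 0, -134217728]) (.lf [1, 0, 0, 0, 0,
    -1572864, 0, 0, -50331648])) (.lf [1, 0, 0, 0, 0, 0, 0, 0, -134217728])) (.lf [1, 0, 0,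
    -3758096384, 0, -92274688, 0, 0, -3623878656]))
    (by decide +kernel)

theorem XAf211 : G [(f2A lXA uXA (sE1 vXA) (pA lXA rXA eP1))] (ez1 :: eh1 :: sdXA) 5 [93, 4, 3, 3, 3] [100, 5, 26, 47, 5] [200, 10, 100, 100, 3] :=
  G.split 3 XAf211_1 XAf211_30

theorem XBf101_3 : G [(f1 lXB uXB (sE0 vXB) eP1)] (ez0 :: eh1 :: sdXB) 5 [93, 4, 6, 6, 6] [100, 5, 29, 50, 8] [200, 10, 200, 200, 6] :=
  G.leaf 221 236863180238189723666540961814310761267200000000000000 [4, 6, 4, 4, 3]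
    (.nd 4 (.nd 1 (.lf [1, 0, 0, -268435456, 0, 0, 0, 0, -50331648]) (.lf [1, 0, 0, 0, 0, 0, 0,
    0, -41943040])) (.lf [1, -150994944, 0, 0, 0, 0, 0, 0, -134217728]))
    (by decide +kernel)

theorem XBf101_5 : G [(f1 lXB uXB (sE0 vXB) eP1)] (ez0 :: eh1 :: sdXB) 5 [93, 4, 29, 6, 12] [100, 5, 52, 50, 14] [200, 10, 200, 200, 12] :=
  G.leaf 231 2103671706413925928293646753335114867933184000000000000 [4, 6, 4, 4, 3]
    (.nd 1 (.nd 3 (.lf [1, 0, 0, 0, 0, 0, 0, 0, -6979321856]) (.nd 2 (.lf [1, 0, 0, 0, 0, 0, 0,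
    0, 0]) (.lf [1, 0, 0, 0, 0, -10485760, 0, 0, -67108864]))) (.nd 3 (.lf [1, 0, 0, 0, 0, 0, 0,
    0, -1073741824]) (.nd 2 (.lf [1, 0, 0, 0, 0, -6291456, 0, 0, -67108864]) (.lf [1, 0, 0, 0, 0,
    -12582912, 0, 0, -100663296]))))
    (by decide +kernel)

theorem XBf101_6 : G [(f1 lXB uXB (sE0 vXB) eP1)] (ez0 :: eh1 :: sdXB) 5 [93, 4, 29, 6, 14] [100, 5, 52, 50, 16] [200, 10, 200, 200, 12] :=
  G.leaf 242 2496484658879610321046949842802866787450880000000000000 [4, 6, 4, 4, 3]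
    (.nd 1 (.nd 2 (.lf [1, 0, 0, 0, 0, 0, 0, 0, -67108864]) (.nd 3 (.lf [1, 0, 0, 0, 0, 0, 0, 0,
    -10737418240]) (.nd 1 (.lf [1, 0, 0, -279969792, 0, -21299200, 0, 0, -59244544]) (.lf [1, 0,
    0, -318767104, 0, -17301504, 0, 0, 0])))) (.nd 2 (.lf [1, 0, 0, 0, 0, -9437184, 0, 0,
    -67108864]) (.lf [1, 0, 0, 0, 0, -18874368, 0, 0, -67108864])))
    (by decide +kernel)

theorem XBf101_4 : G [(f1 lXB uXB (sE0 vXB) eP1)] (ez0 :: eh1 :: sdXB) 5 [93, 4, 29, 6, 6] [100, 5, 52, 50, 8] [200, 10, 200, 200, 6] :=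
  G.split 4 XBf101_5 XBf101_6

theorem XBf101_2 : G [(f1 lXB uXB (sE0 vXB) eP1)] (ez0 :: eh1 :: sdXB) 5 [93, 4, 3, 6, 6] [100, 5, 26, 50, 8] [200, 10, 100, 200, 6] :=
  G.split 2 XBf101_3 XBf101_4

theorem XBf101_7 : G [(f1 lXB uXB (sE0 vXB) eP1)] (ez0 :: eh1 :: sdXB) 5 [93, 4, 3, 6, 8] [100, 5, 26, 50, 10] [200, 10, 100, 200, 6] :=
  G.leaf 229 22387353117504684722029647734168057020416000000000000 [4, 6, 4, 4, 3]
    (.nd 3 (.lf [1, 0, 0, 0, 0, 0, 0, 0, -127238406144]) (.nd 4 (.nd 4 (.lf [1, 0, 0,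
    -8589934592, 0, -234881024, 0, 0, 0]) (.nd 2 (.lf [1, -1073741824, 0, 0, 0, 0, 0, 0, 0]) (.lf
    [1, 0, 0, -1962934272, 0, -60817408, 0, 0, -50331648]))) (.lf [1, 0, 0, -4294967296, 0,
    -134217728, 0, 0, 0])))
    (by decide +kernel)

theorem XBf101_1 : G [(f1 lXB uXB (sE0 vXB) eP1)] (ez0 :: eh1 :: sdXB) 5 [93, 4, 3, 6, 3] [100, 5, 26, 50, 5] [200, 10, 100, 200, 3] :=
  G.split 4 XBf101_2 XBf101_7

theorem XBf101_9 : G [(f1 lXB uXB (sE0 vXB) eP1)] (ez0 :: eh1 :: sdXB) 5 [93, 4, 3, 50, 6] [100, 5, 26, 94, 8] [200, 10, 100, 200, 6] :=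
  G.leaf 236 33234804855811756451147426899336512929792000000000000 [4, 6, 4, 4, 3]
    (.nd 2 (.nd 1 (.lf [1, 0, 0, -268435456, 0, 0, 0, 0, 0]) (.lf [1, 0, 0, 0, 0, 0, 0, 0, 0]))
    (.nd 4 (.nd 2 (.lf [1, 0, 0, 0, 0, -8388608, 0, 0, 0]) (.lf [1, 0, 0, 0, 0, -16777216, 0, 0,
    0])) (.nd 1 (.nd 2 (.lf [1, 0, 0, -268435456, 0, 0, 0, 0, 0]) (.lf [1, 0, 0, -402653184,
    -67108864, -23068672, 0, 0, 0])) (.nd 3 (.nd 2 (.lf [1, 0, 0, 0, 0, -12582912, 0, 0, 0]) (.lf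
    [1, 0, 0, 0, 0, -33554432, 0, 0, 0])) (.lf [1, 0, 0, 0, -6979321856, 0, 0, 0, 0])))))
    (by decide +kernel)

theorem XBf101_10 : G [(f1 lXB uXB (sE0 vXB) eP1)] (ez0 :: eh1 :: sdXB) 5 [93, 4, 3, 50, 8] [100, 5, 26, 94, 10] [200, 10, 100, 200, 6] :=
  G.leaf 235 46791242618656381142789913199897963659264000000000000 [4, 6, 4, 4, 3]
    (.nd 4 (.nd 2 (.lf [1, -536870912, 0, 0, 0, 0, 0, 0, 0]) (.nd 4 (.lf [1, 0, 0, -13958643712,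
    0, -402653184, 0, 0, 0]) (.nd 2 (.lf [1, 0, 0, -1677721600, 0, -57147392, 0, 0, 0]) (.lf [1,
    0, 0, -103079215104, 0, -3187671040, 0, 0, 0])))) (.lf [1, 0, 0, -10737418240, 0, -335544320,
    0, 0, 0]))
    (by decide +kernel)

theorem XBf101_8 : G [(f1 lXB uXB (sE0 vXB) eP1)] (ez0 :: eh1 :: sdXB) 5 [93, 4, 3, 50, 3] [100, 5, 26, 94, 5] [200, 10, 100, 200, 3] :=
  G.split 4 XBf101_9 XBf101_10

theorem XBf101 : G [(f1 lXB uXB (sE0 vXB) eP1)] (ez0 :: eh1 :: sdXB) 5 [93, 4, 3, 3, 3] [100, 5, 26, 47, 5] [200, 10, 100, 100, 3] :=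
  G.split 3 XBf101_1 XBf101_8

theorem XAcC_3 : G [(sC lXA rXA)] (sdXA) 5 [93, 4, 6, 6, 6] [100, 5, 29, 50, 8] [200, 10, 200, 200, 6] :=
  G.leaf 196 19704890471640347869184000000000 [2, 2, 2, 2, 2]
    (.nd 3 (.lf [1, 0, 0, 0, 0, 0, 0]) (.nd 4 (.nd 3 (.nd 2 (.nd 4 (.lf [1, -10737418240, 0, 0,
    0, 0, 0]) (.nd 3 (.nd 4 (.lf [1, -4294967296, 0, 0, 0, 0, -6442450944]) (.nd 1 (.lf [1,
    -3221225472, 0, 0, 0, 0, -8589934592]) (.lf [1, 0, 0, 0, 0, 0, -4294967296]))) (.lf [1,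
    -6442450944, 0, 0, 0, -536870912, 0]))) (.nd 1 (.nd 4 (.lf [1, -2147483648, 0, 0, 0, 0,
    -5368709120]) (.nd 3 (.nd 1 (.nd 4 (.lf [1, 0, 0, 0, 0, 0, -6442450944]) (.nd 0 (.lf [1, 0,
    0, 0, 0, 0, -8187281408]) (.nd 2 (.lf [1, -2147483648, 0, 0, 0, 0, -7516192768]) (.nd 1 (.nd
    4 (.lf [1, 0, 0, 0, 0, 0, -7516192768]) (.nd 3 (.lf [1, -1073741824, 0, 0, 0, 0,
    -6979321856]) (.nd 4 (.lf [1, 0, 0, 0, 0, 0, -7516192768]) (.nd 0 (.lf [1, 0, 0, 0, 0, 0,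
    -8589934592]) (.nd 3 (.lf [1, -1073741824, 0, 0, 0, 0, -7247757312]) (.lf [1, 0, 0, 0, 0, 0,
    -8589934592])))))) (.lf [1, 0, 0, 0, 0, 0, -7247757312]))))) (.nd 4 (.lf [1, 0, 0, 0, 0, 0,
    -8589934592]) (.nd 0 (.lf [1, 0, 0, 0, 0, 0, -9663676416]) (.nd 4 (.lf [1, -2147483648, 0, 0,
    0, 0, -7516192768]) (.nd 3 (.lf [1, -2147483648, 0, 0, 0, 0, -7516192768]) (.lf [1, 0, 0, 0,
    0, 0, -635655159808])))))) (.lf [1, -4563402752, 0, 0, 0, -385875968, 0]))) (.lf [1, 0, 0, 0,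
    0, 0, -4294967296]))) (.nd 1 (.nd 4 (.lf [1, 0, 0, 0, 0, 0, -8589934592]) (.nd 3 (.nd 1 (.nd
    4 (.lf [1, 0, 0, 0, 0, 0, -9663676416]) (.nd 2 (.lf [1, -4294967296, 0, 0, 0, 0,
    -9663676416]) (.nd 0 (.lf [1, 0, 0, 0, 0, 0, -326417514496]) (.nd 4 (.lf [1, 0, 0, 0, 0, 0,
    -8589934592]) (.nd 2 (.nd 3 (.lf [1, 0, 0, 0, 0, 0, -68719476736]) (.lf [1, -1275068416, 0,
    0, 0, 0, -8287944704])) (.lf [1, 0, 0, 0, 0, 0, -8321499136])))))) (.lf [1, 0, 0, 0, 0, 0,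
    -68719476736])) (.lf [1, 0, 0, 0, 0, 0, -68719476736]))) (.nd 4 (.nd 2 (.lf [1, 0, 0, 0, 0,
    0, -8589934592]) (.lf [1, 0, 0, 0, 0, 0, -6174015488])) (.nd 2 (.nd 3 (.nd 4 (.lf [1, 0, 0,
    0, 0, 0, -8589934592]) (.nd 1 (.nd 3 (.nd 4 (.lf [1, 0, 0, 0, 0, 0, -9663676416]) (.nd 0 (.lf
    [1, 0, 0, 0, 0, 0, -10737418240]) (.nd 2 (.nd 1 (.lf [1, 0, 0, 0, 0, 0, -9126805504]) (.lf
    [1, 0, 0, 0, 0, 0, -9663676416])) (.lf [1, -2147483648, 0, 0, 0, 0, -8589934592])))) (.lf [1,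
    -1073741824, 0, 0, 0, 0, -8321499136])) (.lf [1, 0, 0, 0, 0, 0, -4294967296]))) (.nd 4 (.lf
    [1, 0, 0, 0, 0, 0, -9663676416]) (.nd 1 (.lf [1, 0, 0, 0, 0, 0, -11005853696]) (.nd 0 (.lf
    [1, 0, 0, 0, 0, 0, -9663676416]) (.nd 3 (.nd 4 (.lf [1, 0, 0, 0, 0, 0, -8589934592]) (.nd 2
    (.nd 1 (.lf [1, 0, 0, 0, 0, 0, -9126805504]) (.lf [1, 0, 0, 0, 0, 0, -4294967296])) (.nd 0
    (.lf [1, 0, 0, 0, 0, 0, -9663676416]) (.nd 1 (.lf [1, 0, 0, 0, 0, 0, -10066329600]) (.lf [1,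
    0, 0, 0, 0, 0, -2147483648]))))) (.nd 4 (.lf [1, 0, 0, 0, 0, 0, -9663676416]) (.nd 1 (.lf [1,
    0, 0, 0, 0, 0, -10737418240]) (.nd 0 (.lf [1, 0, 0, 0, 0, 0, -9663676416]) (.nd 2 (.nd 4 (.lf
    [1, 0, 0, 0, 0, 0, -8589934592]) (.nd 0 (.lf [1, 0, 0, 0, 0, 0, -9663676416]) (.nd 3 (.lf [1,
    0, 0, 0, 0, 0, -8589934592]) (.lf [1, 0, 0, 0, 0, 0, -9663676416])))) (.nd 4 (.lf [1, 0, 0,
    0, 0, 0, -9663676416]) (.nd 0 (.lf [1, 0, 0, 0, 0, 0, -10737418240]) (.nd 3 (.lf [1, 0, 0, 0,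
    0, 0, -9663676416]) (.lf [1, 0, 0, 0, 0, 0, -10334765056]))))))))))))) (.nd 1 (.nd 3 (.nd 4
    (.lf [1, 0, 0, 0, 0, 0, -6442450944]) (.nd 0 (.lf [1, 0, 0, 0, 0, 0, -8589934592]) (.nd 2
    (.nd 4 (.lf [1, 0, 0, 0, 0, 0, -7516192768]) (.nd 3 (.nd 1 (.lf [1, 0, 0, 0, 0, 0,
    -8321499136]) (.lf [1, 0, 0, 0, 0, 0, -8858370048])) (.lf [1, 0, 0, 0, 0, 0, -8053063680])))
    (.nd 4 (.lf [1, 0, 0, 0, 0, 0, -6979321856]) (.nd 1 (.lf [1, 0, 0, 0, 0, 0, -7247757312])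
    (.nd 3 (.lf [1, 0, 0, 0, 0, 0, -8589934592]) (.lf [1, 0, 0, 0, 0, 0, -7516192768]))))))) (.lf
    [1, 0, 0, 0, 0, 0, -9126805504])) (.nd 3 (.lf [1, 0, 0, 0, 0, 0, -4294967296]) (.nd 4 (.lf
    [1, 0, 0, 0, 0, 0, -6442450944]) (.nd 0 (.lf [1, 0, 0, 0, 0, 0, -8589934592]) (.nd 2 (.nd 4
    (.lf [1, 0, 0, 0, 0, 0, -7516192768]) (.nd 1 (.nd 3 (.lf [1, 0, 0, 0, 0, 0, -8321499136])
    (.lf [1, 0, 0, 0, 0, 0, -8858370048])) (.nd 3 (.lf [1, 0, 0, 0, 0, 0, -4294967296]) (.nd 0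
    (.lf [1, 0, 0, 0, 0, 0, -8589934592]) (.nd 4 (.lf [1, 0, 0, 0, 0, 0, -8589934592]) (.nd 0
    (.lf [1, 0, 0, 0, 0, 0, -8589934592]) (.nd 3 (.lf [1, 0, 0, 0, 0, 0, -8053063680]) (.lf [1,
    0, 0, 0, 0, 0, -8589934592])))))))) (.nd 4 (.lf [1, 0, 0, 0, 0, 0, -6979321856]) (.nd 1 (.nd
    3 (.lf [1, 0, 0, 0, 0, 0, -7449083904]) (.lf [1, 0, 0, 0, 0, 0, -8589934592])) (.nd 3 (.lf
    [1, 0, 0, 0, 0, 0, -4294967296]) (.nd 0 (.lf [1, 0, 0, 0, 0, 0, -8589934592]) (.nd 4 (.lf [1,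
    0, 0, 0, 0, 0, -7516192768]) (.nd 2 (.lf [1, 0, 0, 0, 0, 0, -7784628224]) (.lf [1, 0, 0, 0,
    0, 0, -7247757312])))))))))))))))) (.nd 2 (.lf [1, -4294967296, 0, 0, 0, 0, -4294967296])
    (.nd 4 (.nd 3 (.lf [1, -6442450944, 0, 0, 0, 0, 0]) (.lf [1, 0, 0, 0, 0, 0, -5637144576]))
    (.lf [1, -3221225472, 0, 0, 0, 0, -2147483648])))))
    (by decide +kernel)

theorem XAcC_5 : G [(sC lXA rXA)] (sdXA) 5 [93, 4, 29, 12, 6] [100, 5, 52, 56, 8] [200, 10, 200, 400, 6] :=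
  G.leaf 156 83257062693165661685022720000000 [2, 2, 2, 2, 2]
    (.nd 2 (.lf [1, 0, 0, -6291456, 0, 0, 0]) (.nd 1 (.nd 4 (.lf [1, 0, 0, -33554432, 0,
    -134217728, 0]) (.nd 2 (.lf [1, -805306368, 0, -125829120, 0, -184549376, 0]) (.nd 1 (.lf [1,
    0, 0, -1073741824, 0, 0, 0]) (.lf [1, -7516192768, 0, -301989888, 0, -335544320, 0])))) (.lf
    [1, 0, 0, -1073741824, 0, 0, 0])))
    (by decide +kernel)

theorem XAcC_7 : G [(sC lXA rXA)] (sdXA) 5 [93, 4, 29, 56, 12] [100, 5, 52, 100, 14] [200, 10, 200, 400, 12] :=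
  G.leaf 197 436616985447220182893199360000000 [2, 2, 2, 2, 2]
    (.nd 1 (.nd 3 (.nd 2 (.nd 1 (.nd 4 (.nd 3 (.nd 2 (.nd 4 (.lf [1, 0, 0, 0, 0, 0, -5100273664])
    (.nd 0 (.nd 1 (.lf [1, 0, 0, 0, 0, 0, -6442450944]) (.lf [1, 0, 0, 0, 0, 0, -5368709120]))
    (.nd 1 (.nd 4 (.lf [1, 0, 0, 0, 0, 0, -5368709120]) (.nd 3 (.lf [1, 0, 0, 0, 0, 0,
    -5368709120]) (.lf [1, 0, 0, 0, 0, 0, -6174015488]))) (.lf [1, 0, 0, 0, 0, 0,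
    -5368709120])))) (.nd 4 (.lf [1, 0, 0, 0, 0, 0, -6442450944]) (.nd 0 (.lf [1, 0, 0, 0, 0, 0,
    -6979321856]) (.nd 1 (.nd 4 (.lf [1, 0, 0, 0, 0, 0, -6442450944]) (.nd 3 (.lf [1, 0, 0, 0, 0,
    0, -6442450944]) (.lf [1, 0, 0, 0, 0, 0, -7113539584]))) (.lf [1, 0, 0, 0, 0, 0,
    -6442450944]))))) (.lf [1, 0, 0, 0, 0, -67108864, 0])) (.nd 2 (.lf [1, 0, 0, 0, 0, -67108864,
    -3422552064]) (.lf [1, 0, 0, 0, 0, 0, -4294967296]))) (.nd 4 (.nd 3 (.nd 4 (.lf [1, 0, 0, 0,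
    0, 0, -6442450944]) (.nd 0 (.lf [1, 0, 0, 0, 0, 0, -7650410496]) (.nd 1 (.nd 2 (.nd 4 (.lf
    [1, 0, 0, 0, 0, 0, -6442450944]) (.nd 3 (.nd 0 (.lf [1, 0, 0, 0, 0, 0, -6442450944]) (.nd 1
    (.lf [1, 0, 0, 0, 0, 0, -6442450944]) (.lf [1, 0, 0, 0, 0, 0, -6174015488]))) (.lf [1, 0, 0,
    0, 0, 0, -326417514496]))) (.nd 4 (.lf [1, 0, 0, 0, 0, 0, -6710886400]) (.nd 3 (.nd 0 (.lf
    [1, 0, 0, 0, 0, 0, -7516192768]) (.nd 1 (.nd 4 (.lf [1, 0, 0, 0, 0, 0, -7516192768]) (.nd 2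
    (.lf [1, 0, 0, 0, 0, 0, -6979321856]) (.lf [1, -1073741824, 0, 0, 0, 0, -6979321856]))) (.lf
    [1, -369098752, 0, 0, 0, 0, -6744440832]))) (.lf [1, 0, 0, 0, 0, 0, -377957122048])))) (.nd 2
    (.lf [1, 0, 0, 0, 0, 0, -7516192768]) (.lf [1, -1073741824, 0, 0, 0, 0, -7516192768])))))
    (.nd 3 (.nd 0 (.lf [1, 0, 0, 0, 0, -1073741824, 0]) (.nd 4 (.lf [1, 0, 0, 0, 0, 0,
    -5368709120]) (.nd 1 (.lf [1, 0, 0, 0, 0, 0, -5905580032]) (.nd 2 (.nd 4 (.lf [1, 0, 0, 0, 0,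
    0, -6174015488]) (.nd 0 (.lf [1, 0, 0, 0, 0, -134217728, -5905580032]) (.nd 1 (.nd 2 (.lf [1,
    0, 0, 0, 0, 0, -6375342080]) (.lf [1, 0, 0, 0, 0, 0, -5905580032])) (.nd 4 (.lf [1, 0, 0, 0,
    0, 0, -6442450944]) (.nd 2 (.lf [1, -838860800, 0, 0, 0, -37748736, -6140461056]) (.lf [1, 0,
    0, 0, 0, 0, -6224347136])))))) (.nd 4 (.lf [1, 0, 0, 0, 0, 0, -6442450944]) (.nd 0 (.lf [1,
    0, 0, 0, 0, -134217728, -6710886400]) (.lf [1, -1283457024, 0, 0, 0, 0, -6526337024])))))))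
    (.lf [1, 0, 0, 0, 0, -268435456, 0]))) (.lf [1, -1073741824, 0, 0, 0, -134217728,
    -4294967296]))) (.nd 1 (.nd 4 (.nd 2 (.nd 3 (.nd 0 (.nd 1 (.nd 4 (.lf [1, 0, 0, -40894464, 0,
    0, -5167382528]) (.nd 3 (.nd 2 (.lf [1, 0, 0, -30408704, 0, 0, -5402263552]) (.lf [1, 0, 0,
    0, 0, 0, -5368709120])) (.lf [1, 0, 0, 0, 0, 0, -5637144576]))) (.nd 4 (.lf [1, 0, 0,
    -67108864, 0, 0, -5368709120]) (.nd 3 (.lf [1, 0, 0, 0, 0, 0, -4227858432]) (.lf [1, 0, 0,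
    -33554432, 0, 0, -5905580032])))) (.nd 1 (.nd 4 (.lf [1, 0, 0, -16777216, 0, 0, -4630511616])
    (.nd 2 (.nd 3 (.nd 0 (.nd 1 (.lf [1, 0, 0, 0, 0, 0, -4294967296]) (.lf [1, 0, 0, 0, 0, 0,
    -4831838208])) (.lf [1, 0, 0, 0, 0, 0, -4294967296])) (.lf [1, 0, 0, -16777216, 0, 0,
    -5368709120])) (.nd 4 (.lf [1, 0, 0, 0, 0, 0, -5368709120]) (.nd 3 (.lf [1, 0, 0, 0, 0, 0,
    -5368709120]) (.lf [1, 0, 0, 0, 0, 0, -5637144576]))))) (.nd 4 (.lf [1, 0, 0, 0, 0, 0,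
    -3690987520]) (.nd 2 (.lf [1, 0, 0, -67108864, 0, 0, -5100273664]) (.lf [1, 0, 0, 0, 0, 0,
    -4898947072]))))) (.lf [1, 0, 0, 0, 0, -268435456, 0])) (.nd 1 (.nd 3 (.lf [1, 0, 0,
    -83886080, 0, 0, -4831838208]) (.lf [1, 0, 0, -268435456, 0, 0, 0])) (.lf [1, 0, 0,
    -536870912, 0, 0, 0]))) (.nd 2 (.nd 0 (.nd 3 (.nd 1 (.nd 4 (.lf [1, 0, 0, -50331648, 0, 0,
    -4563402752]) (.lf [1, 0, 0, -50331648, 0, 0, -4026531840])) (.lf [1, 0, 0, -83886080, 0, 0,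
    -4026531840])) (.lf [1, 0, 0, 0, 0, -134217728, 0])) (.nd 3 (.nd 1 (.lf [1, 0, 0, -57671680,
    0, 0, -4462739456]) (.lf [1, 0, 0, -83886080, 0, 0, -4294967296])) (.lf [1, 0, 0, 0, 0, 0,
    0]))) (.lf [1, 0, 0, -268435456, 0, 0, -3221225472]))) (.nd 4 (.nd 3 (.nd 1 (.nd 2 (.nd 4
    (.lf [1, 0, 0, 0, 0, 0, -5368709120]) (.nd 0 (.lf [1, 0, 0, 0, 0, -67108864, -5502926848])
    (.nd 4 (.lf [1, 0, 0, 0, 0, 0, -5368709120]) (.nd 3 (.nd 1 (.lf [1, 0, 0, 0, 0, 0,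
    -5637144576]) (.lf [1, 0, 0, 0, 0, 0, -5301600256])) (.lf [1, 0, 0, 0, 0, 0,
    -292057776128]))))) (.nd 4 (.lf [1, 0, 0, -41943040, 0, 0, -5301600256]) (.nd 0 (.lf [1, 0,
    0, -4294967296, 0, -8589934592, 0]) (.nd 3 (.nd 1 (.lf [1, 0, 0, -12582912, 0, 0,
    -5234491392]) (.lf [1, 0, 0, -25165824, 0, 0, -4966055936])) (.lf [1, 0, 0, 0, 0, 0,
    -257698037760]))))) (.lf [1, 0, 0, 0, 0, 0, -6442450944])) (.nd 2 (.nd 1 (.lf [1, 0, 0, 0, 0,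
    -83886080, -3758096384]) (.nd 0 (.lf [1, 0, 0, 0, 0, -1073741824, 0]) (.nd 4 (.lf [1, 0, 0,
    0, 0, 0, -4429185024]) (.nd 3 (.nd 4 (.lf [1, 0, 0, 0, 0, 0, -5368709120]) (.nd 0 (.lf [1, 0,
    0, 0, 0, -67108864, -5100273664]) (.nd 1 (.lf [1, 0, 0, 0, 0, 0, -5368709120]) (.lf [1, 0, 0,
    0, 0, -33554432, -5435817984])))) (.lf [1, 0, 0, 0, 0, -134217728, 0]))))) (.nd 1 (.nd 0 (.lf
    [1, 0, 0, 0, 0, -268435456, 0]) (.nd 4 (.lf [1, 0, 0, -16777216, 0, -201326592, 0]) (.nd 2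
    (.lf [1, 0, 0, 0, 0, -67108864, -3489660928]) (.lf [1, 0, 0, -536870912, 0, 0, 0])))) (.nd 0
    (.lf [1, 0, 0, 0, 0, -1073741824, 0]) (.nd 4 (.lf [1, 0, 0, 0, 0, -83886080, -3087007744])
    (.nd 0 (.lf [1, 0, 0, 0, 0, -117440512, -3690987520]) (.nd 3 (.nd 1 (.lf [1, 0, 0, 0, 0,
    -67108864, -3825205248]) (.lf [1, 0, 0, 0, 0, -67108864, -4563402752])) (.lf [1, 0, 0, 0, 0,
    0, 0])))))))) (.nd 2 (.nd 3 (.lf [1, 0, 0, 0, 0, 0, -5100273664]) (.lf [1, 0, 0, 0, 0,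
    -268435456, 0])) (.nd 3 (.lf [1, 0, 0, -67108864, 0, 0, -5368709120]) (.nd 1 (.lf [1, 0, 0,
    -33554432, 0, -201326592, 0]) (.lf [1, 0, 0, 0, 0, -218103808, 0]))))))) (.nd 4 (.nd 1 (.nd 2
    (.nd 4 (.lf [1, 0, 0, 0, 0, 0, -6710886400]) (.nd 3 (.nd 0 (.lf [1, 0, 0, 0, 0, 0,
    -274877906944]) (.nd 2 (.nd 1 (.lf [1, 0, 0, 0, 0, 0, -85899345920]) (.nd 4 (.lf [1, 0, 0, 0,
    0, 0, -6442450944]) (.nd 3 (.lf [1, 0, 0, 0, 0, 0, -51539607552]) (.lf [1, 0, 0, 0, 0, 0,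
    -6174015488])))) (.lf [1, 0, 0, 0, 0, 0, -7395606528]))) (.lf [1, 0, 0, 0, 0, 0,
    -34359738368]))) (.nd 3 (.nd 1 (.lf [1, 0, 0, 0, 0, 0, -85899345920]) (.lf [1, 0, 0,
    -22020096, 0, 0, -6006243328])) (.lf [1, 0, 0, 0, 0, 0, -34359738368]))) (.lf [1, 0, 0, 0, 0,
    0, -68719476736])) (.lf [1, 0, 0, -41943040, 0, 0, -7516192768]))) (.nd 2 (.nd 3 (.nd 2 (.nd
    4 (.lf [1, 0, 0, 0, 0, 0, -3892314112]) (.lf [1, 0, 0, 0, 0, 0, -2147483648])) (.lf [1, 0, 0,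
    0, 0, 0, -4026531840])) (.nd 4 (.nd 1 (.nd 3 (.nd 4 (.lf [1, 0, 0, 0, 0, 0, -5100273664])
    (.nd 2 (.nd 0 (.lf [1, 0, 0, -33554432, 0, 0, -6643777536]) (.nd 1 (.nd 3 (.nd 4 (.lf [1, 0,
    0, 0, 0, 0, -5368709120]) (.nd 0 (.lf [1, 0, 0, 0, 0, 0, -5637144576]) (.nd 2 (.lf [1, 0, 0,
    0, 0, 0, -5905580032]) (.lf [1, 0, 0, -25165824, 0, 0, -5972688896])))) (.lf [1, 0, 0, 0, 0,
    0, -4294967296])) (.nd 4 (.lf [1, 0, 0, 0, 0, 0, -5368709120]) (.nd 3 (.lf [1, 0, 0,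
    -12058624, 0, 0, -6526337024]) (.lf [1, 0, 0, 0, 0, 0, -5502926848]))))) (.nd 0 (.lf [1, 0,
    0, 0, 0, 0, -6979321856]) (.nd 1 (.lf [1, 0, 0, 0, 0, 0, -6375342080]) (.nd 4 (.lf [1, 0, 0,
    0, 0, 0, -6442450944]) (.nd 3 (.lf [1, 0, 0, 0, 0, 0, -7516192768]) (.lf [1, 0, 0, 0, 0, 0,
    -6442450944]))))))) (.nd 4 (.lf [1, 0, 0, 0, 0, 0, -6442450944]) (.nd 0 (.lf [1, 0, 0, 0, 0,
    0, -85899345920]) (.nd 2 (.lf [1, 0, 0, -16777216, 0, 0, -6710886400]) (.lf [1, 0, 0, 0, 0,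
    0, -7516192768]))))) (.nd 3 (.lf [1, 0, 0, -16777216, 0, 0, -4294967296]) (.nd 4 (.lf [1, 0,
    0, -50331648, 0, 0, -6442450944]) (.nd 0 (.lf [1, 0, 0, -33554432, 0, 0, -7516192768]) (.nd 2
    (.lf [1, 0, 0, -37748736, 0, 0, -6375342080]) (.nd 1 (.nd 4 (.lf [1, 0, 0, 0, 0, 0,
    -6442450944]) (.nd 3 (.nd 0 (.lf [1, 0, 0, 0, 0, 0, -6442450944]) (.nd 4 (.lf [1, 0, 0, 0, 0,
    0, -6442450944]) (.nd 2 (.lf [1, 0, 0, 0, 0, 0, -6308233216]) (.lf [1, 0, 0, 0, 0, 0,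
    -6710886400])))) (.lf [1, 0, 0, 0, 0, 0, -7516192768]))) (.nd 4 (.lf [1, 0, 0, 0, 0, 0,
    -5368709120]) (.nd 3 (.lf [1, 0, 0, 0, 0, 0, -4294967296]) (.nd 0 (.lf [1, 0, 0, 0, 0, 0,
    -6442450944]) (.nd 2 (.lf [1, 0, 0, -16777216, 0, 0, -6710886400]) (.nd 4 (.lf [1, 0, 0, 0,
    0, 0, -6442450944]) (.nd 0 (.lf [1, 0, 0, 0, 0, 0, -6710886400]) (.nd 1 (.lf [1, 0, 0, 0, 0,
    0, -6979321856]) (.lf [1, 0, 0, 0, 0, 0, -6710886400])))))))))))))) (.nd 1 (.nd 3 (.lf [1, 0,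
    0, 0, 0, 0, -4294967296]) (.lf [1, 0, 0, 0, 0, 0, -5368709120])) (.lf [1, 0, 0, -76283904, 0,
    0, -4936695808])))) (.nd 3 (.lf [1, 0, 0, -536870912, 0, 0, 0]) (.nd 4 (.nd 1 (.lf [1, 0, 0,
    -71303168, 0, 0, -5637144576]) (.lf [1, 0, 0, -1073741824, 0, 0, 0])) (.lf [1, 0, 0,
    -134217728, 0, 0, -4294967296])))))
    (by decide +kernel)

theorem XAcC_8 : G [(sC lXA rXA)] (sdXA) 5 [93, 4, 29, 56, 14] [100, 5, 52, 100, 16] [200, 10, 200, 400, 12] :=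
  G.leaf 193 483107110438023165860904960000000 [2, 2, 2, 2, 2]
    (.nd 2 (.nd 1 (.nd 4 (.nd 3 (.nd 1 (.lf [1, 0, 0, 0, 0, -134217728, -1879048192]) (.lf [1,
    -1308622848, 0, 0, 0, 0, -3053453312])) (.lf [1, 0, 0, 0, 0, 0, -6442450944])) (.nd 1 (.nd 2
    (.nd 0 (.nd 4 (.nd 3 (.lf [1, 0, 0, 0, 0, -50331648, -1442840576]) (.lf [1, 0, 0, 0, 0, 0,
    -103079215104])) (.nd 3 (.nd 2 (.lf [1, -2684354560, 0, 0, 0, 0, 0]) (.nd 1 (.lf [1,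
    -17179869184, 0, 0, 0, -1073741824, 0]) (.nd 2 (.lf [1, 0, 0, 0, 0, 0, -1073741824]) (.nd 3
    (.nd 4 (.lf [1, 0, 0, -50331648, 0, -134217728, -1073741824]) (.nd 1 (.lf [1, 0, 0, 0, 0,
    -167772160, -1006632960]) (.nd 0 (.lf [1, 0, 0, 0, 0, 0, 0]) (.nd 4 (.lf [1, 0, 0, -79691776,
    0, -117440512, -1207959552]) (.lf [1, -3489660928, 0, -197132288, 0, -201326592,
    -1275068416]))))) (.lf [1, -268435456, 0, 0, 0, 0, 0]))))) (.lf [1, 0, 0, 0, 0, 0,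
    -85899345920]))) (.lf [1, -5905580032, 0, 0, 0, 0, -1879048192])) (.lf [1, -4294967296, 0, 0,
    0, 0, -3221225472])) (.lf [1, -240518168576, 0, 0, 0, 0, 0]))) (.nd 4 (.nd 2 (.nd 1 (.nd 3
    (.lf [1, 0, 0, 0, 0, 0, -1610612736]) (.lf [1, 0, 0, -67108864, 0, 0, -4294967296])) (.lf [1,
    0, 0, -268435456, 0, 0, -3221225472])) (.nd 3 (.lf [1, 0, 0, 0, 0, 0, 0]) (.lf [1, 0, 0, 0,
    0, 0, -3489660928]))) (.nd 2 (.nd 1 (.nd 3 (.lf [1, 0, 0, -71303168, 0, 0, -939524096]) (.lf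
    [1, 0, 0, -67108864, 0, 0, -3221225472])) (.lf [1, 0, 0, -536870912, 0, 0, 0])) (.nd 1 (.lf
    [1, 0, 0, 0, 0, 0, -2013265920]) (.lf [1, 0, 0, 0, 0, 0, -1073741824]))))) (.nd 1 (.nd 3 (.nd
    1 (.nd 4 (.nd 2 (.nd 1 (.nd 3 (.nd 0 (.nd 4 (.lf [1, 0, 0, -79691776, 0, -67108864,
    -2684354560]) (.lf [1, 0, 0, -67108864, 0, -67108864, -3221225472])) (.lf [1, 0, 0,
    -79691776, 0, 0, -3288334336])) (.lf [1, 0, 0, -67108864, 0, -201326592, 0])) (.nd 0 (.nd 4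
    (.lf [1, 0, 0, -125829120, 0, -67108864, -2214592512]) (.lf [1, 0, 0, -113246208, 0, 0,
    -2818572288])) (.lf [1, 0, 0, -67108864, 0, 0, -1073741824]))) (.lf [1, 0, 0, -402653184, 0,
    0, -2147483648])) (.nd 2 (.nd 1 (.nd 0 (.nd 4 (.nd 2 (.nd 1 (.lf [1, 0, 0, -134217728, 0,
    -134217728, -1342177280]) (.nd 3 (.lf [1, 0, 0, -83886080, 0, -134217728, -1610612736]) (.lf
    [1, 0, 0, -67108864, 0, -268435456, 0]))) (.lf [1, 0, 0, -41943040, 0, -150994944,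
    -1207959552])) (.nd 2 (.lf [1, -42949672960, 0, -1879048192, 0, -1073741824, 0]) (.lf [1,
    -5368709120, 0, -180355072, 0, -285212672, -1207959552]))) (.lf [1, -5905580032, 0,
    -167772160, 0, 0, -1342177280])) (.nd 3 (.nd 0 (.nd 4 (.lf [1, 0, 0, -104857600, 0,
    -100663296, -1677721600]) (.nd 2 (.lf [1, 0, 0, -1073741824, 0, 0, 0]) (.nd 2 (.lf [1,
    -2684354560, 0, -201326592, 0, -134217728, -1342177280]) (.nd 1 (.lf [1, -3087007744, 0,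
    -176160768, 0, -184549376, -1476395008]) (.lf [1, 0, 0, -390070272, 0, 0, -1006632960])))))
    (.lf [1, 0, 0, -67108864, 0, 0, 0])) (.lf [1, 0, 0, -100663296, 0, -134217728, 0]))) (.lf [1,
    0, 0, -1073741824, 0, 0, 0]))) (.nd 4 (.nd 2 (.nd 1 (.nd 0 (.nd 3 (.lf [1, 0, 0, 0, 0,
    -268435456, -2147483648]) (.lf [1, 0, 0, 0, 0, -268435456, 0])) (.nd 3 (.lf [1, 0, 0, 0, 0,
    0, -2147483648]) (.lf [1, 0, 0, 0, 0, 0, 0]))) (.lf [1, -240518168576, 0, 0, 0, -8589934592,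
    0])) (.nd 4 (.nd 1 (.lf [1, -3548381184, 0, -206831616, 0, -191889408, -2009071616]) (.lf [1,
    -223338299392, 0, -4831838208, 0, -6442450944, 0])) (.nd 3 (.lf [1, 0, 0, -67108864, 0, 0,
    -4294967296]) (.lf [1, 0, 0, -50331648, 0, -201326592, 0])))) (.nd 2 (.lf [1, -1168231104512,
    0, -25232932864, 0, -31138512896, 0]) (.lf [1, -85899345920, 0, -3489660928, 0, -2147483648,
    0])))) (.lf [1, 0, 0, -67108864, 0, 0, -5368709120])) (.nd 1 (.nd 2 (.nd 4 (.lf [1, 0, 0,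
    -335544320, 0, 0, -2147483648]) (.lf [1, 0, 0, -469762048, 0, 0, -1073741824])) (.lf [1, 0,
    0, -1073741824, 0, 0, 0])) (.lf [1, 0, 0, -1073741824, 0, 0, 0]))))
    (by decide +kernel)

theorem XAcC_6 : G [(sC lXA rXA)] (sdXA) 5 [93, 4, 29, 56, 6] [100, 5, 52, 100, 8] [200, 10, 200, 400, 6] :=
  G.split 4 XAcC_7 XAcC_8

theorem XAcC_4 : G [(sC lXA rXA)] (sdXA) 5 [93, 4, 29, 6, 6] [100, 5, 52, 50, 8] [200, 10, 200, 200, 6] :=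
  G.split 3 XAcC_5 XAcC_6

theorem XAcC_2 : G [(sC lXA rXA)] (sdXA) 5 [93, 4, 3, 6, 6] [100, 5, 26, 50, 8] [200, 10, 100, 200, 6] :=
  G.split 2 XAcC_3 XAcC_4

theorem XAcC_9 : G [(sC lXA rXA)] (sdXA) 5 [93, 4, 3, 50, 6] [100, 5, 26, 94, 8] [200, 10, 100, 200, 6] :=
  G.leaf 148 9798607492256055260758016000000 [2, 2, 2, 2, 2]
    (.nd 4 (.nd 3 (.nd 2 (.lf [1, 0, 0, 0, 0, 0, -17179869184]) (.lf [1, 0, 0, -8388608, 0, 0,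
    -8657043456])) (.lf [1, 0, 0, 0, 0, 0, -51539607552])) (.lf [1, 0, 0, -67108864, 0, 0,
    -10737418240]))
    (by decide +kernel)

theorem XAcC_1 : G [(sC lXA rXA)] (sdXA) 5 [93, 4, 3, 3, 6] [100, 5, 26, 47, 8] [200, 10, 100, 100, 6] :=
  G.split 3 XAcC_2 XAcC_9

theorem XAcC_10 : G [(sC lXA rXA)] (sdXA) 5 [93, 4, 3, 3, 8] [100, 5, 26, 47, 10] [200, 10, 100, 100, 6] :=
  G.leaf 184 2267973969776278824960000000000 [2, 2, 2, 2, 2]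
    (.nd 3 (.nd 2 (.lf [1, -11005853696, 0, -180355072, 0, 0, 0]) (.nd 1 (.lf [1,
    -29583734734848, 0, -710817087488, 0, 0, 0]) (.nd 2 (.nd 4 (.nd 4 (.lf [1, -68719476736, 0,
    -2147483648, 0, 0, 0]) (.nd 2 (.nd 1 (.nd 0 (.nd 3 (.nd 3 (.nd 2 (.lf [1, -4294967296, 0,
    -83886080, 0, 0, 0]) (.nd 4 (.lf [1, -17179869184, 0, -536870912, 0, 0, 0]) (.nd 0 (.lf [1,
    0, 0, -67108864, 0, 0, 0]) (.nd 4 (.lf [1, -17179869184, 0, -536870912, 0, 0, 0]) (.lf [1,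
    -2885681152, 0, -144703488, 0, 0, -738197504]))))) (.lf [1, -4831838208, 0, -234881024, 0, 0,
    -3758096384])) (.lf [1, -34359738368, 0, -1073741824, 0, 0, 0])) (.lf [1, -17179869184, 0,
    -536870912, 0, 0, 0])) (.lf [1, 0, 0, -1073741824, 0, 0, 0])) (.nd 1 (.nd 0 (.nd 4 (.lf [1,
    -19327352832, 0, -469762048, 0, 0, 0]) (.lf [1, -1744830464, 0, 0, 0, 0, -939524096])) (.lf
    [1, -1073741824, 0, 0, 0, 0, 0])) (.nd 3 (.lf [1, 0, 0, -33554432, 0, 0, -268435456]) (.lf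
    [1, 0, 0, 0, 0, 0, 0]))))) (.lf [1, -68719476736, 0, -2147483648, 0, 0, 0])) (.lf [1,
    -171798691840, 0, -16106127360, 0, 0, 0])))) (.lf [1, -171798691840, 0, -4294967296, 0, 0,
    -171798691840]))
    (by decide +kernel)

theorem XAcC : G [(sC lXA rXA)] (sdXA) 5 [93, 4, 3, 3, 3] [100, 5, 26, 47, 5] [200, 10, 100, 100, 3] :=
  G.split 4 XAcC_1 XAcC_10

theorem XAf110_1 : G [(f1 lXA uXA (sE1 vXA) (pA lXA rXA eP0))] (ez1 :: eh0 :: sdXA) 5 [93, 4, 6, 3, 3] [100, 5, 29, 47, 5] [200, 10, 200, 100, 3] :=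
  G.leaf 254 5848027106219698886780255960020992000000000000000000 [4, 6, 4, 4, 3]
    (.nd 4 (.nd 3 (.nd 4 (.lf [1, 0, -45097156608, 0, 0, 0, -536870912, 0, 0]) (.nd 1 (.lf [1,
    -2147483648, -6442450944, 0, 0, 0, 0, 0, 0]) (.nd 2 (.nd 3 (.lf [1, 0, -536870912, 0, 0, 0,
    0, 0, 0]) (.nd 4 (.lf [1, 0, -469762048, 0, 0, 0, -5505024, 0, 0]) (.nd 1 (.lf [1, 0,
    -176160768, 0, 0, 0, 0, 0, 0]) (.lf [1, -100663296, -134217728, 0, 0, 0, 0, 0, 0])))) (.lf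
    [1, -4294967296, -9663676416, 0, 0, 0, -117440512, 0, 0])))) (.lf [1, 0, -27917287424, 0, 0,
    0, 0, 0, 0])) (.lf [1, 0, -8443905703936, 0, 0, 0, 0, 0, 0]))
    (by decide +kernel)

theorem XAf110_2 : G [(f1 lXA uXA (sE1 vXA) (pA lXA rXA eP0))] (ez1 :: eh0 :: sdXA) 5 [93, 4, 29, 3, 3] [100, 5, 52, 47, 5] [200, 10, 200, 100, 3] :=
  G.leaf 209 7810150762288764155453281088992375603200000000000000 [4, 6, 4, 4, 3]
    (.lf [1, -10737418240, -23622320128, 0, 0, 0, -268435456, 0, 0])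
    (by decide +kernel)

theorem XAf110 : G [(f1 lXA uXA (sE1 vXA) (pA lXA rXA eP0))] (ez1 :: eh0 :: sdXA) 5 [93, 4, 3, 3, 3] [100, 5, 26, 47, 5] [200, 10, 100, 100, 3] :=
  G.split 2 XAf110_1 XAf110_2

theorem XAf210_5 : G [(f2A lXA uXA (sE1 vXA) (pA lXA rXA eP0))] (ez1 :: eh0 :: sdXA) 5 [93, 4, 6, 12, 12] [100, 5, 29, 56, 14] [200, 10, 200, 400, 12] :=
  G.leaf 264 927640205834788246541334376966292406848716800000000000000000 [4, 7, 4, 5, 3]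
    (.nd 2 (.nd 1 (.lf [1, 0, -268435456, 0, 0, 0, 0, 0, 0]) (.nd 4 (.nd 3 (.nd 2 (.lf [1,
    -67108864, -67108864, 0, 0, 0, 0, 0, 0]) (.lf [1, -42991616, -78643200, 0, 0, 0, 0, 0, 0]))
    (.lf [1, 0, -50331648, 0, 0, 0, 0, 0, 0])) (.lf [1, 0, -139984896, 0, 0, 0, -1548288, 0,
    0]))) (.lf [1, -2684354560, -5905580032, 0, 0, 0, -75497472, 0, 0]))
    (by decide +kernel)

theorem XAf210_6 : G [(f2A lXA uXA (sE1 vXA) (pA lXA rXA eP0))] (ez1 :: eh0 :: sdXA) 5 [93, 4, 6, 12, 14] [100, 5, 29, 56, 16] [200, 10, 200, 400, 12] :=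
  G.leaf 234 1147033197560706961832523348255327174996787200000000000000000 [4, 7, 4, 5, 3]
    (.lf [1, 0, -8589934592, 0, 0, 0, -100663296, 0, 0])
    (by decide +kernel)

theorem XAf210_4 : G [(f2A lXA uXA (sE1 vXA) (pA lXA rXA eP0))] (ez1 :: eh0 :: sdXA) 5 [93, 4, 6, 12, 6] [100, 5, 29, 56, 8] [200, 10, 200, 400, 6] :=
  G.split 4 XAf210_5 XAf210_6

theorem XAf210_7 : G [(f2A lXA uXA (sE1 vXA) (pA lXA rXA eP0))] (ez1 :: eh0 :: sdXA) 5 [93, 4, 29, 12, 6] [100, 5, 52, 56, 8] [200, 10, 200, 400, 6] :=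
  G.leaf 229 181053385688728683812457984593128863922170888192000000000000 [4, 7, 4, 5, 3]
    (.lf [1, -536870912, -1073741824, 0, 0, 0, -16777216, 0, 0])
    (by decide +kernel)

theorem XAf210_3 : G [(f2A lXA uXA (sE1 vXA) (pA lXA rXA eP0))] (ez1 :: eh0 :: sdXA) 5 [93, 4, 3, 12, 6] [100, 5, 26, 56, 8] [200, 10, 100, 400, 6] :=
  G.split 2 XAf210_4 XAf210_7

theorem XAf210_8 : G [(f2A lXA uXA (sE1 vXA) (pA lXA rXA eP0))] (ez1 :: eh0 :: sdXA) 5 [93, 4, 3, 56, 6] [100, 5, 26, 100, 8] [200, 10, 100, 400, 6] :=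
  G.leaf 226 15362026056711998530671897228620625953308016640000000000000 [4, 7, 4, 5, 3]
    (.lf [1, -536870912, -1342177280, 0, 0, 0, 0, 0, 0])
    (by decide +kernel)

theorem XAf210_2 : G [(f2A lXA uXA (sE1 vXA) (pA lXA rXA eP0))] (ez1 :: eh0 :: sdXA) 5 [93, 4, 3, 6, 6] [100, 5, 26, 50, 8] [200, 10, 100, 200, 6] :=
  G.split 3 XAf210_3 XAf210_8

theorem XAf210_9 : G [(f2A lXA uXA (sE1 vXA) (pA lXA rXA eP0))] (ez1 :: eh0 :: sdXA) 5 [93, 4, 3, 6, 8] [100, 5, 26, 50, 10] [200, 10, 100, 200, 6] :=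
  G.leaf 225 568641884949425733844937193180471045126094848000000000000 [4, 7, 4, 5, 3]
    (.lf [1, 0, -40802189312, 0, 0, -939524096, 0, 0, 0])
    (by decide +kernel)

theorem XAf210_1 : G [(f2A lXA uXA (sE1 vXA) (pA lXA rXA eP0))] (ez1 :: eh0 :: sdXA) 5 [93, 4, 3, 6, 3] [100, 5, 26, 50, 5] [200, 10, 100, 200, 3] :=
  G.split 4 XAf210_2 XAf210_9

theorem XAf210_10 : G [(f2A lXA uXA (sE1 vXA) (pA lXA rXA eP0))] (ez1 :: eh0 :: sdXA) 5 [93, 4, 3, 50, 3] [100, 5, 26, 94, 5] [200, 10, 100, 200, 3] :=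
  G.leaf 217 131883504921634453892246477888817303694344192000000000000 [4, 7, 4, 5, 3]
    (.lf [1, -134217728, -268435456, 0, 0, 0, 0, 0, 0])
    (by decide +kernel)

theorem XAf210 : G [(f2A lXA uXA (sE1 vXA) (pA lXA rXA eP0))] (ez1 :: eh0 :: sdXA) 5 [93, 4, 3, 3, 3] [100, 5, 26, 47, 5] [200, 10, 100, 100, 3] :=
  G.split 3 XAf210_1 XAf210_10

theorem XBv1 : G [(up vXB)] (sdXB) 5 [93, 4, 3, 3, 3] [100, 5, 26, 47, 5] [200, 10, 100, 100, 3] :=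
  G.leaf 74 8240916668800000 [1, 2, 1, 1, 1]
    (.nd 4 (.lf [1, -65536, 0, 0, 0, 0, -49152]) (.lf [1, -327680, 0, -6144, 0, 0, 0]))
    (by decide +kernel)

theorem XAu0 : G [uXA] (sdXA) 5 [93, 4, 3, 3, 3] [100, 5, 26, 47, 5] [200, 10, 100, 100, 3] :=
  G.leaf 72 12238497952000000 [1, 2, 1, 1, 1]
    (.lf [1, -131072, 0, 0, 0, 0, 0])
    (by decide +kernel)

theorem XBf100 : G [(f1 lXB uXB (sE0 vXB) eP0)] (ez0 :: eh0 :: sdXB) 5 [93, 4, 3, 3, 3] [100, 5, 26, 47, 5] [200, 10, 100, 100, 3] :=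
  G.leaf 205 215540312516453200153868336762064076800000000000000 [4, 6, 4, 4, 3]
    (.lf [1, 0, -77309411328, 0, 0, -1006632960, 0, 0, -20401094656])
    (by decide +kernel)

theorem YBl0 : G [lYB] (sdYB) 5 [93, 5, 3, 3, 3] [100, 6, 15, 47, 5] [200, 10, 100, 100, 3] :=
  G.leaf 70 30317781984000000 [1, 2, 1, 1, 1]
    (.lf [1, 0, -16384, -512, 0, 0, 0])
    (by decide +kernel)

end Pool.Agent.Lib.MP_43bc59_co.ZM
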