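import Pool.Agent.Lib.MP_43bc59_co.M_C3

set_option autoImplicit false
set_option maxRecDepth 100000

namespace Pool.Agent.Lib.MP_43bc59_co.ZM

open Bx

theorem XAf200_6 : G [(f2A lXA uXA (sE0 vXA) (pA lXA rXA eP0))] (ez0 :: eh0 :: sdXA) 5 [93, 8, 6, 12, 12] [100, 9, 29, 56, 14] [200, 20, 200, 400, 12] :=
  G.leaf 270 98253323302264346463163519184941982700561812684800000000000000 [4, 7, 4, 5, 3]
    (.nd 3 (.nd 2 (.lf [1, 0, -201326592, 0, 0, 0, 0, 0, 0]) (.nd 4 (.nd 1 (.lf [1, 0,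
    -134217728, 0, 0, 0, 0, 0, 0]) (.nd 2 (.lf [1, 0, -67108864, 0, 0, 0, 0, 0, 0]) (.lf [1, 0,
    -33554432, 0, 0, 0, 0, 0, 0]))) (.lf [1, 0, -134217728, 0, 0, 0, 0, 0, 0]))) (.lf [1, 0,
    -134217728, 0, 0, 0, 0, 0, 0]))
    (by decide +kernel)

theorem XAf200_8 : G [(f2A lXA uXA (sE0 vXA) (pA lXA rXA eP0))] (ez0 :: eh0 :: sdXA) 5 [93, 9, 12, 12, 12] [100, 10, 35, 56, 14] [200, 20, 400, 400, 12] :=
  G.leaf 266 1934021564870718801266976425122733521682014993907712000000000000 [4, 7, 4, 5, 3]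
    (.nd 4 (.nd 3 (.nd 1 (.lf [1, 0, -58720256, 0, 0, 0, 0, 0, 0]) (.nd 2 (.lf [1, 0, -16777216,
    0, 0, 0, 0, 0, 0]) (.lf [1, 0, 0, 0, 0, 0, -262144, 0, 0]))) (.lf [1, 0, -41943040, 0, 0, 0,
    0, 0, 0])) (.lf [1, 0, -136314880, 0, 0, 0, -1507328, 0, 0]))
    (by decide +kernel)

theorem XAf200_10 : G [(f2A lXA uXA (sE0 vXA) (pA lXA rXA eP0))] (ez0 :: eh0 :: sdXA) 5 [93, 9, 35, 24, 12] [100, 10, 58, 68, 14] [200, 20, 400, 800, 12] :=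
  G.leaf 267 65339614005922944703337286262764154820546452556611584000000000000 [4, 7, 4, 5, 3]
    (.nd 4 (.nd 1 (.nd 2 (.lf [1, 0, 0, 0, 0, 0, 0, 0, 0]) (.nd 3 (.lf [1, 0, 0, 0, 0, 0,
    -1310720, 0, 0]) (.lf [1, 0, 0, 0, 0, 0, 0, 0, 0]))) (.nd 2 (.lf [1, 0, 0, 0, 0, 0, -1048576,
    0, 0]) (.lf [1, 0, 0, 0, 0, 0, -2097152, 0, 0]))) (.nd 1 (.lf [1, 0, -83886080, 0, 0, 0,
    -1835008, 0, 0]) (.lf [1, 0, -41943040, 0, 0, 0, -1572864, 0, 0])))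
    (by decide +kernel)

theorem XAf200_11 : G [(f2A lXA uXA (sE0 vXA) (pA lXA rXA eP0))] (ez0 :: eh0 :: sdXA) 5 [93, 9, 35, 68, 12] [100, 10, 58, 112, 14] [200, 20, 400, 800, 12] :=
  G.leaf 259 82691500228390330154192270565874479673474763718656000000000000000 [4, 7, 4, 5, 3]
    (.nd 4 (.nd 1 (.lf [1, 0, 0, 0, 0, 0, 0, 0, 0]) (.nd 2 (.lf [1, 0, 0, 0, 0, 0, 0, 0, 0]) (.lf
    [1, 0, 0, 0, 0, 0, -1048576, 0, 0]))) (.lf [1, 0, -67108864, 0, 0, 0, -1048576, 0, 0]))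
    (by decide +kernel)

theorem XAf200_9 : G [(f2A lXA uXA (sE0 vXA) (pA lXA rXA eP0))] (ez0 :: eh0 :: sdXA) 5 [93, 9, 35, 12, 12] [100, 10, 58, 56, 14] [200, 20, 400, 400, 12] :=
  G.split 3 XAf200_10 XAf200_11

theorem XAf200_7 : G [(f2A lXA uXA (sE0 vXA) (pA lXA rXA eP0))] (ez0 :: eh0 :: sdXA) 5 [93, 9, 6, 12, 12] [100, 10, 29, 56, 14] [200, 20, 200, 400, 12] :=
  G.split 2 XAf200_8 XAf200_9

theorem XAf200_5 : G [(f2A lXA uXA (sE0 vXA) (pA lXA rXA eP0))] (ez0 :: eh0 :: sdXA) 5 [93, 4, 6, 12, 12] [100, 5, 29, 56, 14] [200, 10, 200, 400, 12] :=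
  G.split 1 XAf200_6 XAf200_7

theorem XAf200_12 : G [(f2A lXA uXA (sE0 vXA) (pA lXA rXA eP0))] (ez0 :: eh0 :: sdXA) 5 [93, 4, 6, 12, 14] [100, 5, 29, 56, 16] [200, 10, 200, 400, 12] :=
  G.leaf 234 1106071085518454279726836455352399610196787200000000000000000 [4, 7, 4, 5, 3]
    (.lf [1, 0, -9126805504, 0, 0, 0, -117440512, 0, 0])
    (by decide +kernel)

theorem XAf200_4 : G [(f2A lXA uXA (sE0 vXA) (pA lXA rXA eP0))] (ez0 :: eh0 :: sdXA) 5 [93, 4, 6, 12, 6] [100, 5, 29, 56, 8] [200, 10, 200, 400, 6] :=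
  G.split 4 XAf200_5 XAf200_12

theorem XAf200_17 : G [(f2A lXA uXA (sE0 vXA) (pA lXA rXA eP0))] (ez0 :: eh0 :: sdXA) 5 [93, 8, 58, 24, 12] [100, 9, 81, 68, 14] [200, 20, 400, 800, 12] :=
  G.leaf 267 57354310803972305404281730260319251175773688964317184000000000000 [4, 7, 4, 5, 3]
    (.nd 4 (.nd 1 (.lf [1, 0, -25165824, 0, 0, 0, 0, -1048576, 0]) (.nd 2 (.nd 3 (.lf [1, 0, 0,
    0, 0, 0, -950272, 0, 0]) (.lf [1, 0, 0, 0, 0, 0, 0, 0, 0])) (.lf [1, 0, -9437184, 0, 0, 0,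
    -2244608, 0, 0]))) (.lf [1, 0, -184549376, 0, 0, 0, -4194304, -4194304, 0]))
    (by decide +kernel)

theorem XAf200_18 : G [(f2A lXA uXA (sE0 vXA) (pA lXA rXA eP0))] (ez0 :: eh0 :: sdXA) 5 [93, 8, 81, 24, 12] [100, 9, 104, 68, 14] [200, 20, 400, 800, 12] :=
  G.leaf 257 67734238653482993253068434571255509558041943998464000000000000000 [4, 7, 4, 5, 3]
    (.nd 4 (.nd 3 (.lf [1, 0, -150994944, 0, 0, 0, -6553600, -8388608, 0]) (.lf [1, 0, -90177536,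
    0, 0, 0, -4390912, -4194304, 0])) (.lf [1, 0, -134217728, 0, 0, 0, -5242880, -8388608, 0]))
    (by decide +kernel)

theorem XAf200_16 : G [(f2A lXA uXA (sE0 vXA) (pA lXA rXA eP0))] (ez0 :: eh0 :: sdXA) 5 [93, 8, 29, 24, 12] [100, 9, 52, 68, 14] [200, 20, 200, 800, 12] :=
  G.split 2 XAf200_17 XAf200_18

theorem XAf200_19 : G [(f2A lXA uXA (sE0 vXA) (pA lXA rXA eP0))] (ez0 :: eh0 :: sdXA) 5 [93, 8, 29, 68, 12] [100, 9, 52, 112, 14] [200, 20, 200, 800, 12] :=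
  G.leaf 245 5017979375518521715666655815532621017667084484608000000000000000 [4, 7, 4, 5, 3]
    (.nd 2 (.lf [1, 0, -35651584, 0, 0, 0, 0, 0, 0]) (.lf [1, 0, -58720256, 0, 0, -3145728, 0, 0,
    0]))
    (by decide +kernel)

theorem XAf200_15 : G [(f2A lXA uXA (sE0 vXA) (pA lXA rXA eP0))] (ez0 :: eh0 :: sdXA) 5 [93, 8, 29, 12, 12] [100, 9, 52, 56, 14] [200, 20, 200, 400, 12] :=
  G.split 3 XAf200_16 XAf200_19

theorem XAf200_21 : G [(f2A lXA uXA (sE0 vXA) (pA lXA rXA eP0))] (ez0 :: eh0 :: sdXA) 5 [93, 9, 29, 24, 12] [100, 10, 52, 68, 14] [200, 20, 200, 800, 12] :=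
  G.leaf 261 5255194799845208851465842460155425543494596405755904000000000000 [4, 7, 4, 5, 3]
    (.nd 2 (.nd 4 (.nd 3 (.lf [1, 0, 0, 0, 0, 0, -4194304, 0, 0]) (.nd 2 (.lf [1, 0, 0, 0, 0, 0,
    -4194304, 0, 0]) (.lf [1, 0, 0, 0, 0, 0, -2097152, 0, 0]))) (.lf [1, 0, -46137344, 0, 0, 0,
    -2752512, 0, 0])) (.lf [1, 0, 0, 0, 0, 0, -67108864, 0, 0]))
    (by decide +kernel)

theorem XAf200_22 : G [(f2A lXA uXA (sE0 vXA) (pA lXA rXA eP0))] (ez0 :: eh0 :: sdXA) 5 [93, 9, 29, 68, 12] [100, 10, 52, 112, 14] [200, 20, 200, 800, 12] :=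
  G.leaf 259 6674855774980659537884331531311194722686065442816000000000000000 [4, 7, 4, 5, 3]
    (.nd 2 (.nd 4 (.nd 2 (.lf [1, 0, 0, 0, 0, -2818048, -278528, 0, 0]) (.nd 3 (.lf [1, 0, 0, 0,
    0, 0, -1441792, 0, 0]) (.lf [1, 0, 0, 0, 0, -1572864, 0, 0, 0]))) (.nd 2 (.lf [1, 0,
    -67108864, 0, 0, -4194304, 0, 0, 0]) (.lf [1, 0, -41943040, 0, 0, 0, -1572864, 0, 0]))) (.lf
    [1, 0, 0, 0, 0, -8388608, 0, 0, 0]))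
    (by decide +kernel)

theorem XAf200_20 : G [(f2A lXA uXA (sE0 vXA) (pA lXA rXA eP0))] (ez0 :: eh0 :: sdXA) 5 [93, 9, 29, 12, 12] [100, 10, 52, 56, 14] [200, 20, 200, 400, 12] :=
  G.split 3 XAf200_21 XAf200_22

theorem XAf200_14 : G [(f2A lXA uXA (sE0 vXA) (pA lXA rXA eP0))] (ez0 :: eh0 :: sdXA) 5 [93, 4, 29, 12, 12] [100, 5, 52, 56, 14] [200, 10, 200, 400, 12] :=
  G.split 1 XAf200_15 XAf200_20

theorem XAf200_23 : G [(f2A lXA uXA (sE0 vXA) (pA lXA rXA eP0))] (ez0 :: eh0 :: sdXA) 5 [93, 4, 29, 12, 14] [100, 5, 52, 56, 16] [200, 10, 200, 400, 12] :=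
  G.leaf 234 1564357084003465955224033476457536504531894927360000000000000 [4, 7, 4, 5, 3]
    (.lf [1, 0, -6039797760, 0, 0, 0, -109051904, 0, 0])
    (by decide +kernel)

theorem XAf200_13 : G [(f2A lXA uXA (sE0 vXA) (pA lXA rXA eP0))] (ez0 :: eh0 :: sdXA) 5 [93, 4, 29, 12, 6] [100, 5, 52, 56, 8] [200, 10, 200, 400, 6] :=
  G.split 4 XAf200_14 XAf200_23

theorem XAf200_3 : G [(f2A lXA uXA (sE0 vXA) (pA lXA rXA eP0))] (ez0 :: eh0 :: sdXA) 5 [93, 4, 3, 12, 6] [100, 5, 26, 56, 8] [200, 10, 100, 400, 6] :=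
  G.split 2 XAf200_4 XAf200_13

theorem XAf200_25 : G [(f2A lXA uXA (sE0 vXA) (pA lXA rXA eP0))] (ez0 :: eh0 :: sdXA) 5 [93, 4, 6, 56, 6] [100, 5, 29, 100, 8] [200, 10, 200, 400, 6] :=
  G.leaf 243 193712035222310728307909066458971201727365120000000000000000 [4, 7, 4, 5, 3]
    (.nd 3 (.nd 4 (.nd 4 (.lf [1, 0, -67108864, 0, 0, 0, 0, 0, 0]) (.lf [1, 0, -35651584, 0, 0,
    0, 0, 0, 0])) (.lf [1, 0, -3221225472, 0, 0, 0, 0, 0, 0])) (.lf [1, 0, -33554432, 0, 0, 0, 0,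
    0, 0]))
    (by decide +kernel)

theorem XAf200_26 : G [(f2A lXA uXA (sE0 vXA) (pA lXA rXA eP0))] (ez0 :: eh0 :: sdXA) 5 [93, 4, 29, 56, 6] [100, 5, 52, 100, 8] [200, 10, 200, 400, 6] :=
  G.leaf 262 276211194276449521831528934632624539024998006784000000000000 [4, 7, 4, 5, 3]
    (.nd 3 (.nd 4 (.nd 2 (.nd 3 (.lf [1, 0, 0, 0, 0, -524288, 0, 0, 0]) (.nd 1 (.lf [1, 0,
    -4194304, 0, 0, 0, 0, 0, 0]) (.lf [1, 0, -33554432, 0, 0, -2097152, 0, 0, 0]))) (.lf [1, 0,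
    -671088640, 0, 0, -25165824, 0, 0, 0])) (.lf [1, 0, -536870912, 0, 0, -16777216, 0, 0, 0]))
    (.lf [1, 0, -3758096384, 0, 0, -100663296, 0, 0, 0]))
    (by decide +kernel)

theorem XAf200_24 : G [(f2A lXA uXA (sE0 vXA) (pA lXA rXA eP0))] (ez0 :: eh0 :: sdXA) 5 [93, 4, 3, 56, 6] [100, 5, 26, 100, 8] [200, 10, 100, 400, 6] :=
  G.split 2 XAf200_25 XAf200_26

theorem XAf200_2 : G [(f2A lXA uXA (sE0 vXA) (pA lXA rXA eP0))] (ez0 :: eh0 :: sdXA) 5 [93, 4, 3, 6, 6] [100, 5, 26, 50, 8] [200, 10, 100, 200, 6] :=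
  G.split 3 XAf200_3 XAf200_24

theorem XAf200_27 : G [(f2A lXA uXA (sE0 vXA) (pA lXA rXA eP0))] (ez0 :: eh0 :: sdXA) 5 [93, 4, 3, 6, 8] [100, 5, 26, 50, 10] [200, 10, 100, 200, 6] :=
  G.leaf 225 545915625952347684214983984506838789126094848000000000000 [4, 7, 4, 5, 3]
    (.lf [1, 0, -40265318400, 0, 0, -939524096, 0, 0, 0])
    (by decide +kernel)

theorem XAf200_1 : G [(f2A lXA uXA (sE0 vXA) (pA lXA rXA eP0))] (ez0 :: eh0 :: sdXA) 5 [93, 4, 3, 6, 3] [100, 5, 26, 50, 5] [200, 10, 100, 200, 3] :=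
  G.split 4 XAf200_2 XAf200_27

theorem XAf200_28 : G [(f2A lXA uXA (sE0 vXA) (pA lXA rXA eP0))] (ez0 :: eh0 :: sdXA) 5 [93, 4, 3, 50, 3] [100, 5, 26, 94, 5] [200, 10, 100, 200, 3] :=
  G.leaf 217 123105711477753391916225315498363031694344192000000000000 [4, 7, 4, 5, 3]
    (.lf [1, 0, -671088640, 0, 0, -8388608, 0, 0, 0])
    (by decide +kernel)

theorem XAf200 : G [(f2A lXA uXA (sE0 vXA) (pA lXA rXA eP0))] (ez0 :: eh0 :: sdXA) 5 [93, 4, 3, 3, 3] [100, 5, 26, 47, 5] [200, 10, 100, 100, 3] :=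
  G.split 3 XAf200_1 XAf200_28

theorem YAf211_2 : G [(f2A lYA uYA (sE1 vYA) (pA lYA rYA eP1))] (ez1 :: eh1 :: sdYA) 5 [93, 5, 3, 6, 6] [100, 6, 15, 50, 8] [200, 10, 100, 200, 6] :=
  G.leaf 235 461254519832997797286280382112939162193625088000000000000 [4, 7, 4, 5, 3]
    (.nd 2 (.nd 3 (.nd 4 (.lf [1, 0, 0, 0, 0, 0, 0, 0, 0]) (.lf [1, 0, 0, -50331648, 0, 0,
    -786432, 0, 0])) (.lf [1, 0, 0, 0, 0, 0, 0, 0, 0])) (.nd 3 (.nd 4 (.lf [1, -75497472, 0, 0,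
    0, 0, 0, 0, 0]) (.lf [1, 0, 0, 0, 0, 0, -524288, 0, 0])) (.nd 4 (.lf [1, -33554432, 0, 0, 0,
    0, 0, 0, 0]) (.lf [1, 0, 0, -4587520, 0, -450560, 0, 0, 0]))))
    (by decide +kernel)

theorem YAf211_4 : G [(f2A lYA uYA (sE1 vYA) (pA lYA rYA eP1))] (ez1 :: eh1 :: sdYA) 5 [93, 5, 3, 12, 8] [100, 6, 15, 56, 10] [200, 10, 100, 400, 6] :=
  G.leaf 222 16651072938913814469436312159410463441265098752000000000000 [4, 7, 4, 5, 3]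
    (.lf [1, 0, 0, -134217728, 0, 0, -2097152, 0, 0])
    (by decide +kernel)

theorem YAf211_5 : G [(f2A lYA uYA (sE1 vYA) (pA lYA rYA eP1))] (ez1 :: eh1 :: sdYA) 5 [93, 5, 3, 56, 8] [100, 6, 15, 100, 10] [200, 10, 100, 400, 6] :=
  G.leaf 255 26509968570510052971826917605303930172821471232000000000000 [4, 7, 4, 5, 3]
    (.nd 1 (.nd 4 (.nd 0 (.nd 1 (.lf [1, 0, 0, -51380224, 0, -1572864, 0, 0, 0]) (.lf [1, 0, 0,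
    -68943872, 0, -1671168, 0, 0, 0])) (.lf [1, 0, 0, -59768832, 0, -1703936, 0, 0, 0])) (.lf [1,
    0, 0, -402653184, 0, -12582912, 0, 0, 0])) (.nd 2 (.lf [1, 0, 0, -67108864, 0, -1572864, 0,
    -1048576, 0]) (.lf [1, 0, 0, -67108864, 0, -3145728, 0, 0, 0])))
    (by decide +kernel)

theorem YAf211_3 : G [(f2A lYA uYA (sE1 vYA) (pA lYA rYA eP1))] (ez1 :: eh1 :: sdYA) 5 [93, 5, 3, 6, 8] [100, 6, 15, 50, 10] [200, 10, 100, 200, 6] :=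
  G.split 3 YAf211_4 YAf211_5

theorem YAf211_1 : G [(f2A lYA uYA (sE1 vYA) (pA lYA rYA eP1))] (ez1 :: eh1 :: sdYA) 5 [93, 5, 3, 6, 3] [100, 6, 15, 50, 5] [200, 10, 100, 200, 3] :=
  G.split 4 YAf211_2 YAf211_3

theorem YAf211_8 : G [(f2A lYA uYA (sE1 vYA) (pA lYA rYA eP1))] (ez1 :: eh1 :: sdYA) 5 [93, 5, 3, 50, 12] [100, 6, 15, 94, 14] [200, 10, 100, 200, 12] :=
  G.leaf 231 7567178303314526425048055605473883239783333888000000000000 [4, 7, 4, 5, 3]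
    (.nd 3 (.nd 2 (.lf [1, -4194304, 0, 0, 0, 0, 0, 0, -1048576]) (.lf [1, -7864320, 0, 0, 0, 0,
    0, 0, 0])) (.lf [1, -8388608, 0, 0, 0, 0, 0, 0, -8388608]))
    (by decide +kernel)

theorem YAf211_9 : G [(f2A lYA uYA (sE1 vYA) (pA lYA rYA eP1))] (ez1 :: eh1 :: sdYA) 5 [93, 5, 3, 50, 14] [100, 6, 15, 94, 16] [200, 10, 100, 200, 12] :=
  G.leaf 260 9078320829770990057776756389557733827385753600000000000000 [4, 7, 4, 5, 3]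
    (.nd 3 (.nd 1 (.nd 2 (.lf [1, 0, 0, -9437184, 0, 0, 0, 0, 0]) (.nd 4 (.lf [1, -8388608, 0, 0,
    0, 0, 0, 0, -4194304]) (.nd 3 (.lf [1, 0, 0, 0, 0, 0, 0, 0, -201326592]) (.lf [1, 0, 0,
    -19922944, 0, -851968, 0, 0, -3670016])))) (.nd 2 (.lf [1, 0, 0, 0, 0, 0, 0, 0, 0]) (.lf [1,
    0, 0, 0, 0, -393216, 0, 0, 0]))) (.lf [1, 0, 0, 0, 0, -458752, 0, 0, -17301504]))
    (by decide +kernel)

theorem YAf211_7 : G [(f2A lYA uYA (sE1 vYA) (pA lYA rYA eP1))] (ez1 :: eh1 :: sdYA) 5 [93, 5, 3, 50, 6] [100, 6, 15, 94, 8] [200, 10, 100, 200, 6] :=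
  G.split 4 YAf211_8 YAf211_9

theorem YAf211_11 : G [(f2A lYA uYA (sE1 vYA) (pA lYA rYA eP1))] (ez1 :: eh1 :: sdYA) 5 [93, 5, 3, 100, 8] [100, 6, 15, 144, 10] [200, 10, 100, 400, 6] :=
  G.leaf 245 39238789726344358449541785946421809737841508352000000000000 [4, 7, 4, 5, 3]
    (.nd 2 (.nd 1 (.lf [1, 0, 0, -41943040, 0, 0, 0, 0, 0]) (.nd 4 (.lf [1, 0, 0, -20971520, 0,
    -524288, 0, 0, 0]) (.lf [1, 0, 0, -134217728, 0, -4194304, 0, 0, 0]))) (.nd 4 (.nd 1 (.lf [1,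
    0, 0, -54525952, 0, -1835008, 0, 0, -4194304]) (.lf [1, 0, 0, -66060288, 0, -2555904, 0, 0,
    -5242880])) (.lf [1, 0, 0, -201326592, 0, -8388608, 0, 0, 0])))
    (by decide +kernel)

theorem YAf211_12 : G [(f2A lYA uYA (sE1 vYA) (pA lYA rYA eP1))] (ez1 :: eh1 :: sdYA) 5 [93, 5, 3, 144, 8] [100, 6, 15, 188, 10] [200, 10, 100, 400, 6] :=
  G.leaf 223 55350051288182922131501100270293427984260923392000000000000 [4, 7, 4, 5, 3]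
    (.lf [1, 0, 0, -50331648, 0, -1835008, 0, 0, -23068672])
    (by decide +kernel)

theorem YAf211_10 : G [(f2A lYA uYA (sE1 vYA) (pA lYA rYA eP1))] (ez1 :: eh1 :: sdYA) 5 [93, 5, 3, 50, 8] [100, 6, 15, 94, 10] [200, 10, 100, 200, 6] :=
  G.split 3 YAf211_11 YAf211_12

theorem YAf211_6 : G [(f2A lYA uYA (sE1 vYA) (pA lYA rYA eP1))] (ez1 :: eh1 :: sdYA) 5 [93, 5, 3, 50, 3] [100, 6, 15, 94, 5] [200, 10, 100, 200, 3] :=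
  G.split 4 YAf211_7 YAf211_10

theorem YAf211 : G [(f2A lYA uYA (sE1 vYA) (pA lYA rYA eP1))] (ez1 :: eh1 :: sdYA) 5 [93, 5, 3, 3, 3] [100, 6, 15, 47, 5] [200, 10, 100, 100, 3] :=
  G.split 3 YAf211_1 YAf211_6

theorem YAc1_4 : G [(c1A lYA uYA rYA)] (sdYA) 5 [93, 5, 6, 6, 12] [100, 6, 18, 50, 14] [200, 10, 200, 200, 12] :=
  G.leaf 206 1601208976962189398973559183769600000000 [2, 2, 3, 3, 3]
    (.nd 3 (.nd 1 (.nd 2 (.nd 3 (.lf [1, 0, 0, 0, -79691776, 0, 0]) (.lf [1, 0, 0, 0, -100663296,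
    0, 0])) (.nd 3 (.nd 1 (.lf [1, 0, 0, 0, -104857600, 0, 0]) (.nd 4 (.lf [1, 0, 0, 0,
    -67108864, 0, 0]) (.lf [1, 0, 0, 0, -100663296, 0, 0]))) (.lf [1, 0, 0, 0, -117440512, 0,
    0]))) (.lf [1, 0, 0, 0, -134217728, 0, 0])) (.nd 1 (.nd 4 (.nd 3 (.nd 2 (.lf [1, 0, 0, 0, 0,
    0, 0]) (.nd 1 (.nd 3 (.lf [1, 0, 0, 0, -33554432, 0, 0]) (.lf [1, 0, 0, 0, -67108864, 0, 0]))
    (.lf [1, 0, 0, 0, 0, 0, 0]))) (.lf [1, 0, 0, 0, 0, 0, 0])) (.nd 1 (.nd 3 (.lf [1, 0, 0, 0,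
    -83886080, 0, 0]) (.lf [1, 0, 0, 0, 0, 0, 0])) (.lf [1, 0, 0, 0, 0, 0, 0]))) (.nd 2 (.nd 4
    (.nd 3 (.nd 1 (.lf [1, 0, 0, 0, -67108864, 0, 0]) (.lf [1, 0, 0, 0, -83886080, 0, 0])) (.nd 1
    (.lf [1, 0, 0, 0, -8388608, 0, 0]) (.nd 4 (.lf [1, 0, 0, 0, -67108864, 0, 0]) (.nd 3 (.lf [1,
    0, 0, 0, -54525952, 0, 0]) (.lf [1, 0, 0, 0, -34078720, -18874368, 0]))))) (.nd 1 (.lf [1, 0,
    0, 0, -83886080, 0, 0]) (.lf [1, 0, 0, 0, -109051904, 0, 0]))) (.nd 3 (.nd 1 (.nd 4 (.nd 3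
    (.lf [1, 0, 0, 0, -70254592, 0, 0]) (.lf [1, 0, 0, 0, -83886080, 0, 0])) (.lf [1, 0, 0, 0,
    -117440512, 0, 0])) (.lf [1, 0, 0, 0, -2147483648, 0, 0])) (.nd 4 (.nd 1 (.nd 4 (.lf [1, 0,
    0, 0, -50331648, 0, 0]) (.nd 3 (.nd 2 (.lf [1, 0, 0, 0, -33554432, 0, 0]) (.nd 3 (.lf [1, 0,
    0, 0, -33554432, 0, 0]) (.lf [1, 0, 0, 0, -50331648, 0, 0]))) (.lf [1, 0, 0, 0, -20971520, 0,
    0]))) (.nd 3 (.nd 2 (.nd 4 (.lf [1, 0, 0, 0, -83886080, 0, 0]) (.lf [1, 0, 0, 0, -58720256,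
    0, 0])) (.lf [1, 0, 0, 0, -71303168, 0, 0])) (.nd 4 (.lf [1, 0, 0, 0, -67108864, 0, 0]) (.nd
    2 (.nd 4 (.lf [1, 0, 0, 0, -50331648, 0, 0]) (.nd 3 (.lf [1, 0, 0, 0, -38535168, 0, 0]) (.lf
    [1, 0, 0, 0, -29360128, -16777216, 0]))) (.nd 3 (.lf [1, 0, 0, 0, -41943040, 0, 0]) (.lf [1,
    0, 0, -16777216, -25165824, 0, 0])))))) (.nd 1 (.lf [1, 0, 0, 0, -67108864, 0, 0]) (.lf [1,
    0, 0, 0, -100663296, 0, 0])))))))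
    (by decide +kernel)

theorem YAc1_5 : G [(c1A lYA uYA rYA)] (sdYA) 5 [93, 5, 18, 6, 12] [100, 6, 30, 50, 14] [200, 10, 200, 200, 12] :=
  G.leaf 206 1948089398892021322046457983795200000000 [2, 2, 3, 3, 3]
    (.nd 1 (.nd 3 (.nd 1 (.lf [1, 0, 0, 0, -134217728, 0, 0]) (.nd 3 (.nd 4 (.lf [1, 0, 0, 0,
    -75497472, 0, 0]) (.lf [1, 0, 0, 0, -100663296, 0, 0])) (.lf [1, 0, 0, 0, -2952790016, 0,
    0]))) (.nd 3 (.nd 1 (.nd 4 (.nd 2 (.nd 3 (.nd 4 (.lf [1, 0, 0, 0, -67108864, 0, 0]) (.nd 2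
    (.nd 0 (.lf [1, 0, 0, 0, -33554432, 0, 0]) (.nd 1 (.lf [1, 0, 0, 0, -33554432, 0, 0]) (.lf
    [1, 0, 0, 0, -50331648, 0, 0]))) (.lf [1, 0, 0, 0, -50331648, 0, 0]))) (.lf [1, 0, 0, 0,
    -67108864, 0, 0])) (.nd 3 (.nd 0 (.lf [1, 0, 0, -5368709120, 0, 0, 0]) (.nd 2 (.nd 4 (.lf [1,
    0, 0, -16777216, -54525952, 0, 0]) (.nd 1 (.lf [1, 0, 0, -33554432, -29360128, 0, 0]) (.lf
    [1, 0, 0, 0, -67108864, 0, 0]))) (.lf [1, 0, 0, -1073741824, 0, 0, 0]))) (.lf [1, 0, 0, 0,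
    -67108864, 0, 0]))) (.nd 2 (.lf [1, 0, 0, 0, -95420416, 0, 0]) (.nd 1 (.lf [1, 0, 0,
    -16777216, -88080384, 0, 0]) (.lf [1, 0, 0, 0, -134217728, 0, 0])))) (.nd 4 (.nd 2 (.lf [1,
    0, 0, 0, -39845888, 0, 0]) (.nd 3 (.nd 0 (.lf [1, 0, 0, -67108864, 0, 0, 0]) (.nd 1 (.lf [1,
    0, 0, -57671680, -18350080, 0, 0]) (.lf [1, 0, 0, -67108864, 0, 0, 0]))) (.nd 0 (.lf [1, 0,
    0, 0, -67108864, 0, 0]) (.nd 1 (.lf [1, 0, 0, 0, -67108864, 0, 0]) (.nd 4 (.lf [1, 0, 0,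
    -33554432, -41943040, 0, 0]) (.lf [1, 0, 0, -33554432, -29360128, 0, 0])))))) (.nd 2 (.lf [1,
    0, 0, 0, -67108864, 0, 0]) (.nd 0 (.lf [1, 0, 0, 0, -67108864, 0, 0]) (.nd 3 (.lf [1, 0, 0,
    -67108864, -46137344, 0, 0]) (.nd 1 (.lf [1, 0, 0, 0, -100663296, 0, 0]) (.lf [1, 0, 0,
    -41943040, -63963136, 0, 0]))))))) (.nd 4 (.nd 1 (.nd 2 (.lf [1, 0, 0, -34144256, -11206656,
    0, 0]) (.lf [1, 0, 0, -83886080, 0, 0, 0])) (.lf [1, 0, 0, -67108864, 0, 0, 0])) (.lf [1, 0,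
    0, -100663296, 0, 0, 0])))) (.nd 3 (.lf [1, 0, 0, 0, -1073741824, 0, 0]) (.nd 2 (.nd 3 (.nd 1
    (.nd 4 (.lf [1, 0, 0, 0, -83886080, 0, 0]) (.lf [1, 0, 0, 0, -134217728, 0, 0])) (.lf [1, 0,
    0, 0, -536870912, 0, 0])) (.nd 1 (.nd 4 (.nd 3 (.nd 4 (.lf [1, 0, 0, 0, -67108864, 0, 0])
    (.nd 2 (.nd 0 (.lf [1, 0, 0, -536870912, 0, 0, 0]) (.nd 3 (.lf [1, 0, 0, -100663296, 0, 0,
    0]) (.lf [1, 0, 0, 0, -50331648, 0, 0]))) (.nd 1 (.lf [1, 0, 0, 0, -50331648, 0, 0]) (.lf [1,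
    0, 0, 0, -34603008, 0, 0])))) (.lf [1, 0, 0, -33554432, -16777216, 0, 0])) (.lf [1, 0, 0, 0,
    -83886080, 0, 0])) (.nd 4 (.nd 3 (.lf [1, 0, 0, 0, -805306368, 0, 0]) (.lf [1, 0, 0,
    -67108864, -33554432, 0, 0])) (.lf [1, 0, 0, 0, -134217728, 0, 0])))) (.lf [1, 0, 0,
    -3221225472, 0, 0, 0]))))
    (by decide +kernel)

theorem YAc1_3 : G [(c1A lYA uYA rYA)] (sdYA) 5 [93, 5, 3, 6, 12] [100, 6, 15, 50, 14] [200, 10, 100, 200, 12] :=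
  G.split 2 YAc1_4 YAc1_5

theorem YAc1_6 : G [(c1A lYA uYA rYA)] (sdYA) 5 [93, 5, 3, 6, 14] [100, 6, 15, 50, 16] [200, 10, 100, 200, 12] :=
  G.leaf 185 290096434532356525811404741017600000000 [2, 2, 3, 3, 3]
    (.nd 1 (.nd 2 (.nd 3 (.lf [1, -2952790016, 0, 0, -134479872, 0, 0]) (.lf [1, 0, 0, 0,
    -100663296, 0, 0])) (.nd 1 (.nd 3 (.lf [1, 0, 0, 0, -268435456, 0, 0]) (.nd 4 (.nd 3 (.lf [1,
    0, 0, 0, -134217728, 0, 0]) (.lf [1, 0, 0, -134217728, 0, 0, 0])) (.lf [1, 0, 0, -41943040,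
    -147849216, 0, 0]))) (.nd 3 (.nd 1 (.lf [1, 0, 0, 0, -167772160, 0, 0]) (.lf [1, -1342177280,
    0, 0, -146800640, 0, 0])) (.nd 4 (.nd 3 (.nd 1 (.lf [1, 0, 0, -33554432, -104857600, 0, 0])
    (.lf [1, 0, 0, 0, -92274688, 0, 0])) (.lf [1, 0, 0, 0, 0, 0, 0])) (.lf [1, 0, 0, -33554432,
    -121634816, 0, 0]))))) (.nd 2 (.nd 3 (.lf [1, 0, 0, 0, -268435456, 0, 0]) (.nd 1 (.nd 4 (.lf
    [1, 0, 0, 0, -134217728, 0, 0]) (.lf [1, 0, 0, 0, -167772160, 0, 0])) (.nd 2 (.lf [1, 0, 0,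
    0, -184549376, 0, 0]) (.lf [1, 0, 0, 0, -134217728, 0, 0])))) (.nd 1 (.nd 3 (.lf [1, 0, 0, 0,
    -1342177280, 0, 0]) (.nd 3 (.lf [1, 0, 0, 0, -268435456, 0, 0]) (.lf [1, 0, 0, 0, -150994944,
    0, 0]))) (.lf [1, 0, 0, 0, -268435456, 0, 0]))))
    (by decide +kernel)

theorem YAc1_2 : G [(c1A lYA uYA rYA)] (sdYA) 5 [93, 5, 3, 6, 6] [100, 6, 15, 50, 8] [200, 10, 100, 200, 6] :=
  G.split 4 YAc1_3 YAc1_6

theorem YAc1_7 : G [(c1A lYA uYA rYA)] (sdYA) 5 [93, 5, 3, 50, 6] [100, 6, 15, 94, 8] [200, 10, 100, 200, 6] :=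
  G.leaf 200 51383667537340356870871502028800000000 [2, 2, 3, 3, 3]
    (.nd 4 (.nd 3 (.nd 4 (.lf [1, 0, 0, -67108864, 0, 0, 0]) (.nd 1 (.nd 3 (.lf [1, 0, 0, 0, 0,
    0, -51539607552]) (.nd 4 (.lf [1, 0, 0, -16777216, 0, 0, 0]) (.nd 1 (.nd 2 (.lf [1, 0, 0, 0,
    0, 0, 0]) (.nd 3 (.nd 1 (.lf [1, 0, 0, -58720256, 0, 0, -603979776]) (.lf [1, 0, 0,
    -50331648, 0, 0, -402653184])) (.lf [1, 0, 0, -62914560, 0, 0, 0]))) (.nd 3 (.lf [1, 0, 0, 0,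
    0, 0, -34359738368]) (.nd 4 (.lf [1, 0, 0, -4194304, 0, 0, 0]) (.nd 2 (.lf [1, 0, 0, 0, 0, 0,
    0]) (.lf [1, 0, 0, -66846720, 0, 0, -434110464]))))))) (.nd 2 (.nd 3 (.nd 4 (.lf [1, 0, 0, 0,
    0, 0, 0]) (.nd 4 (.lf [1, 0, 0, 0, 0, 0, 0]) (.nd 1 (.lf [1, 0, 0, -16777216, 0, 0,
    -805306368]) (.lf [1, 0, 0, 0, 0, -41943040, -436207616])))) (.nd 4 (.lf [1, 0, 0, -16777216,
    0, 0, 0]) (.nd 2 (.nd 1 (.lf [1, 0, 0, 0, 0, 0, 0]) (.lf [1, 0, 0, -16777216, -8388608,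
    -33554432, 0])) (.lf [1, 0, 0, 0, 0, -33554432, 0])))) (.nd 3 (.lf [1, 0, 0, -46137344, 0, 0,
    -771751936]) (.lf [1, 0, 0, -50331648, 0, 0, 0]))))) (.lf [1, 0, 0, 0, 0, 0, -2684354560]))
    (.lf [1, 0, 0, -134217728, 0, 0, 0]))
    (by decide +kernel)

theorem YAc1_1 : G [(c1A lYA uYA rYA)] (sdYA) 5 [93, 5, 3, 3, 6] [100, 6, 15, 47, 8] [200, 10, 100, 100, 6] :=
  G.split 3 YAc1_2 YAc1_7

theorem YAc1_8 : G [(c1A lYA uYA rYA)] (sdYA) 5 [93, 5, 3, 3, 8] [100, 6, 15, 47, 10] [200, 10, 100, 100, 6] :=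
  G.leaf 182 8253270480746204765765959680000000000 [2, 2, 3, 3, 3]
    (.nd 4 (.nd 3 (.nd 1 (.nd 2 (.lf [1, -6442450944, 0, 0, -167772160, 0, 0]) (.nd 1 (.nd 3 (.lf
    [1, -6442450944, 0, -201326592, -167772160, 0, 0]) (.lf [1, 0, 0, 0, -301989888, 0, 0])) (.lf
    [1, -15032385536, 0, -335544320, -167772160, 0, 0]))) (.nd 2 (.lf [1, -7381975040, 0, 0,
    -245366784, 0, 0]) (.nd 1 (.nd 3 (.lf [1, 0, 0, -167772160, -201326592, 0, 0]) (.lf [1, 0, 0,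
    0, -2147483648, 0, 0])) (.lf [1, 0, 0, 0, -402653184, 0, 0])))) (.lf [1, -4294967296, 0,
    -268435456, 0, 0, 0])) (.lf [1, -343597383680, 0, -10737418240, 0, 0, 0]))
    (by decide +kernel)

theorem YAc1 : G [(c1A lYA uYA rYA)] (sdYA) 5 [93, 5, 3, 3, 3] [100, 6, 15, 47, 5] [200, 10, 100, 100, 3] :=
  G.split 4 YAc1_1 YAc1_8

theorem YBf101_1 : G [(f1 lYB uYB (sE0 vYB) eP1)] (ez0 :: eh1 :: sdYB) 5 [93, 5, 3, 6, 3] [100, 6, 15, 50, 5] [200, 10, 100, 200, 3] :=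
  G.leaf 228 6878727786481088348100029879496474624000000000000000 [4, 6, 4, 4, 3]
    (.nd 4 (.nd 3 (.lf [1, 0, 0, 0, 0, 0, 0, 0, -536870912]) (.nd 4 (.lf [1, 0, 0, 0, 0, 0, 0, 0,
    -134217728]) (.nd 1 (.lf [1, 0, 0, 0, 0, -524288, 0, 0, -119537664]) (.lf [1, 0, 0, 0, 0, 0,
    0, 0, -536870912])))) (.lf [1, -9663676416, 0, 0, 0, -469762048, 0, 0, 0]))
    (by decide +kernel)

theorem YBf101_2 : G [(f1 lYB uYB (sE0 vYB) eP1)] (ez0 :: eh1 :: sdYB) 5 [93, 5, 3, 50, 3] [100, 6, 15, 94, 5] [200, 10, 100, 200, 3] :=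
  G.leaf 232 12037986329342834274149331389407452725248000000000000 [4, 6, 4, 4, 3]
    (.nd 4 (.nd 4 (.lf [1, 0, 0, 0, 0, -4194304, 0, 0, 0]) (.nd 2 (.nd 3 (.nd 1 (.lf [1, 0, 0, 0,
    0, 0, 0, 0, -8388608]) (.lf [1, 0, 0, 0, 0, 0, 0, 0, -25165824])) (.lf [1, 0, 0, 0, 0, 0, 0,
    0, 0])) (.nd 3 (.nd 1 (.lf [1, 0, 0, 0, 0, -3145728, 0, 0, -41943040]) (.lf [1, 0, 0, 0, 0,
    -3145728, 0, 0, -41943040])) (.lf [1, 0, 0, 0, 0, -1048576, 0, 0, 0])))) (.lf [1, -536870912,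
    0, 0, 0, 0, 0, 0, 0]))
    (by decide +kernel)

theorem YBf101 : G [(f1 lYB uYB (sE0 vYB) eP1)] (ez0 :: eh1 :: sdYB) 5 [93, 5, 3, 3, 3] [100, 6, 15, 47, 5] [200, 10, 100, 100, 3] :=
  G.split 3 YBf101_1 YBf101_2

theorem XBc1 : G [(c1B lXB uXB)] (sdXB) 5 [93, 4, 3, 3, 3] [100, 5, 26, 47, 5] [200, 10, 100, 100, 3] :=
  G.leaf 190 1488545121792788078643200000000000 [2, 2, 2, 3, 3]
    (.nd 4 (.nd 3 (.nd 3 (.nd 2 (.nd 4 (.lf [1, 0, 0, 0, 0, 0, -1073741824]) (.nd 3 (.lf [1, 0,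
    0, 0, 0, 0, -1073741824]) (.lf [1, 0, 0, 0, 0, 0, -738197504]))) (.nd 4 (.nd 2 (.lf [1, 0, 0,
    -16777216, 0, 0, -671088640]) (.nd 3 (.nd 1 (.nd 4 (.nd 1 (.lf [1, 0, 0, -41943040, 0, 0,
    -671088640]) (.nd 0 (.lf [1, 0, 0, -16777216, 0, 0, 0]) (.nd 3 (.lf [1, 0, 0, -33554432, 0,
    0, -268435456]) (.lf [1, 0, 0, -25165824, 0, 0, -469762048])))) (.lf [1, -2684354560, 0,
    -117440512, 0, 0, -536870912])) (.lf [1, 0, 0, -2684354560, 0, 0, -34359738368])) (.lf [1, 0,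
    0, -51380224, 0, 0, 0]))) (.nd 3 (.nd 1 (.nd 2 (.lf [1, 0, 0, 0, 0, 0, -536870912]) (.nd 4
    (.nd 0 (.lf [1, 0, 0, -16777216, 0, 0, -536870912]) (.nd 3 (.lf [1, 0, 0, -22544384, 0, 0,
    -301989888]) (.lf [1, 0, 0, -16777216, 0, 0, -536870912]))) (.nd 3 (.lf [1, 0, 0, -12582912,
    0, 0, -268435456]) (.lf [1, 0, 0, 0, 0, 0, -1073741824])))) (.nd 2 (.lf [1, 0, 0, 0, 0, 0,
    -1073741824]) (.lf [1, 0, 0, -1879048192, 0, 0, -21474836480]))) (.nd 2 (.nd 4 (.lf [1, 0, 0,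
    -16777216, 0, 0, -402653184]) (.nd 3 (.lf [1, 0, 0, -4194304, 0, 0, -469762048]) (.lf [1, 0,
    0, -8388608, 0, 0, -285212672]))) (.nd 3 (.nd 4 (.lf [1, 0, 0, -36700160, 0, 0, 0]) (.nd 0
    (.lf [1, 0, 0, -16777216, 0, 0, 0]) (.nd 2 (.lf [1, 0, 0, -18874368, 0, 0, -184549376]) (.lf
    [1, 0, 0, -33554432, 0, 0, 0])))) (.nd 4 (.lf [1, 0, 0, -33554432, 0, 0, 0]) (.lf [1, 0,
    -100663296, -23068672, 0, 0, 0]))))))) (.lf [1, 0, 0, 0, 0, 0, -111669149696])) (.nd 4 (.nd 2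
    (.lf [1, 0, 0, 0, 0, 0, 0]) (.nd 3 (.nd 2 (.lf [1, 0, 0, -33554432, 0, 0, 0]) (.lf [1, 0,
    -620756992, -46137344, 0, 0, 0])) (.lf [1, 0, -25769803776, 0, 0, 0, 0]))) (.nd 3 (.nd 2 (.lf
    [1, 0, 0, 0, 0, 0, 0]) (.nd 3 (.nd 4 (.lf [1, 0, -1207959552, 0, 0, 0, 0]) (.nd 2 (.lf [1, 0,
    -671088640, 0, 0, 0, 0]) (.lf [1, 0, -21474836480, 0, 0, 0, 0]))) (.nd 2 (.lf [1, 0, 0,
    -12582912, 0, 0, 0]) (.nd 4 (.nd 3 (.lf [1, 0, -805306368, -33554432, 0, 0, 0]) (.lf [1, 0,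
    -402653184, -33554432, 0, 0, 0])) (.nd 3 (.lf [1, 0, -811073536, -12419072, 0, 0, 0]) (.nd 0
    (.lf [1, 0, -536870912, -16777216, 0, 0, 0]) (.nd 1 (.nd 2 (.lf [1, 0, -268435456, 0, 0, 0,
    0]) (.lf [1, 0, -587202560, -10485760, 0, 0, 0])) (.lf [1, 0, 0, -67108864, 0, 0, 0]))))))))
    (.nd 4 (.lf [1, 0, -2147483648, 0, 0, 0, 0]) (.nd 2 (.lf [1, 0, -1073741824, 0, 0, 0, 0])
    (.lf [1, 0, -103079215104, 0, 0, 0, 0])))))) (.nd 3 (.nd 4 (.nd 4 (.lf [1, -38654705664, 0,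
    -1006632960, 0, 0, 0]) (.nd 2 (.lf [1, 0, 0, 0, 0, 0, -1073741824]) (.lf [1, -6979321856, 0,
    -251658240, 0, 0, -1073741824]))) (.lf [1, -12884901888, 0, -402653184, 0, 0, 0])) (.lf [1,
    -3221225472, -268435456, -134217728, 0, 0, 0])))
    (by decide +kernel)

theorem YAu1 : G [(up uYA)] (sdYA) 5 [93, 5, 3, 3, 3] [100, 6, 15, 47, 5] [200, 10, 100, 100, 3] :=
  G.leaf 77 9691948435200000 [1, 2, 1, 1, 1]
    (.nd 1 (.nd 2 (.lf [1, -131072, 0, 0, -2688, 0, 0]) (.lf [1, -196608, 0, 0, 0, 0, 0])) (.lf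
    [1, -131072, 0, 0, -4096, 0, 0]))
    (by decide +kernel)

theorem YBu0 : G [uYB] (sdYB) 5 [93, 5, 3, 3, 3] [100, 6, 15, 47, 5] [200, 10, 100, 100, 3] :=
  G.leaf 73 14745441888000000 [1, 2, 1, 1, 1]
    (.nd 4 (.lf [1, 0, -65536, 0, 0, 0, 0]) (.lf [1, 0, 0, 0, 0, 0, 0]))
    (by decide +kernel)

theorem XAu1 : G [(up uXA)] (sdXA) 5 [93, 4, 3, 3, 3] [100, 5, 26, 47, 5] [200, 10, 100, 100, 3] :=
  G.leaf 55 12987265046400000 [1, 2, 1, 1, 1]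
    (.lf [1, 0, 0, 0, 0, 0, 0])
    (by decide +kernel)

theorem XBf20 : G [(f2B lXB uXB eP0)] (eh0 :: sdXB) 5 [93, 4, 3, 3, 3] [100, 5, 26, 47, 5] [200, 10, 100, 100, 3] :=
  G.leaf 208 5005121025184000633808829341402546176000000000000000 [4, 7, 4, 4, 3]
    (.lf [1, -24696061952, 0, 0, -301989888, 0, 0, -6979321856])
    (by decide +kernel)

theorem YBv0 : G [vYB] (sdYB) 5 [93, 5, 3, 3, 3] [100, 6, 15, 47, 5] [200, 10, 100, 100, 3] :=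
  G.leaf 70 9935793504000000 [1, 2, 1, 1, 1]
    (.lf [1, 0, -49152, 0, 0, 0, 0])
    (by decide +kernel)

end Pool.Agent.Lib.MP_43bc59_co.ZM
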