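import Pool.Agent.Lib.MP_43bc59_co.M_C4

set_option autoImplicit false
set_option maxRecDepth 100000

namespace Pool.Agent.Lib.MP_43bc59_co.ZM

open Bx

theorem XAc1_2 : G [(c1A lXA uXA rXA)] (sdXA) 5 [93, 4, 6, 6, 3] [100, 5, 29, 50, 5] [200, 10, 200, 200, 3] :=
  G.leaf 225 24327048318681192078218035200000000000 [2, 2, 3, 3, 3]
    (.nd 4 (.nd 3 (.nd 2 (.nd 3 (.lf [1, 0, 0, 0, 0, 0, 0]) (.nd 1 (.lf [1, 0, 0, 0, 0, 0, 0])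
    (.nd 2 (.nd 4 (.lf [1, -3221225472, 0, 0, -83886080, 0, 0]) (.nd 3 (.lf [1, 0, 0, 0,
    -8388608, 0, 0]) (.nd 1 (.lf [1, 0, 0, 0, -23068672, 0, 0]) (.nd 3 (.lf [1, 0, 0, 0,
    -41943040, 0, 0]) (.nd 4 (.nd 2 (.lf [1, 0, 0, 0, -37224448, 0, 0]) (.nd 1 (.nd 0 (.nd 3 (.lf
    [1, 0, 0, 0, -33554432, 0, 0]) (.nd 2 (.lf [1, 0, 0, 0, -39845888, 0, 0]) (.lf [1, 0, 0, 0,
    -44040192, 0, 0]))) (.lf [1, 0, 0, 0, -50331648, 0, 0])) (.lf [1, 0, 0, 0, -134217728, 0,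
    0]))) (.nd 1 (.nd 0 (.nd 3 (.lf [1, 0, 0, 0, -33554432, 0, 0]) (.nd 2 (.lf [1, 0, 0, 0,
    -25165824, 0, 0]) (.lf [1, 0, 0, 0, -35651584, 0, 0]))) (.lf [1, 0, 0, 0, -41943040, 0, 0]))
    (.lf [1, 0, 0, 0, -41943040, 0, 0]))))))) (.lf [1, -234881024, 0, 0, -22544384, 0, 0]))))
    (.nd 1 (.nd 3 (.lf [1, 0, 0, 0, 0, 0, 0]) (.nd 1 (.nd 2 (.lf [1, 0, 0, 0, 0, 0, 0]) (.nd 3
    (.lf [1, 0, 0, 0, 0, 0, 0]) (.nd 4 (.lf [1, -2147483648, 0, 0, -83886080, 0, 0]) (.nd 1 (.lf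
    [1, 0, 0, 0, 0, 0, 0]) (.nd 4 (.lf [1, -536870912, 0, 0, -41943040, 0, 0]) (.lf [1, 0, 0, 0,
    -33554432, 0, 0])))))) (.lf [1, 0, 0, 0, 0, 0, 0]))) (.nd 4 (.nd 2 (.nd 3 (.lf [1, 0, 0, 0,
    -67108864, 0, 0]) (.nd 1 (.lf [1, -2147483648, 0, 0, -83886080, 0, 0]) (.lf [1, 0, 0, 0,
    -94371840, 0, 0]))) (.nd 1 (.nd 3 (.lf [1, -536870912, 0, 0, 0, 0, 0]) (.lf [1, -1342177280,
    0, 0, -88080384, 0, 0])) (.nd 4 (.nd 3 (.lf [1, 0, 0, 0, -90177536, 0, 0]) (.lf [1, 0, 0, 0,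
    -100663296, 0, 0])) (.lf [1, -1073741824, 0, 0, -117440512, 0, 0])))) (.nd 3 (.nd 1 (.lf [1,
    0, 0, 0, 0, 0, 0]) (.nd 4 (.nd 3 (.lf [1, 0, 0, 0, -71303168, 0, 0]) (.lf [1, 0, 0, 0,
    -58720256, 0, 0])) (.lf [1, 0, 0, 0, -46137344, 0, 0]))) (.nd 1 (.nd 3 (.nd 2 (.lf [1, 0, 0,
    0, 0, 0, 0]) (.lf [1, 0, 0, 0, -57147392, 0, 0])) (.nd 2 (.nd 4 (.nd 1 (.nd 3 (.lf [1, 0, 0,
    0, -50331648, 0, 0]) (.nd 2 (.nd 0 (.nd 4 (.lf [1, 0, 0, 0, -50331648, 0, 0]) (.nd 3 (.lf [1,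
    0, 0, 0, -67108864, 0, 0]) (.nd 1 (.lf [1, 0, 0, 0, -52428800, 0, 0]) (.lf [1, 0, 0, 0,
    -100663296, 0, 0])))) (.lf [1, 0, 0, 0, -67108864, 0, 0])) (.nd 0 (.nd 3 (.lf [1, 0, 0, 0,
    -33554432, 0, 0]) (.nd 1 (.lf [1, 0, 0, 0, -33554432, 0, 0]) (.nd 2 (.lf [1, 0, 0, 0,
    -50331648, 0, 0]) (.lf [1, 0, 0, 0, -41943040, 0, 0])))) (.lf [1, -536870912, 0, 0,
    -50331648, 0, 0])))) (.lf [1, -268435456, 0, 0, -35651584, 0, 0])) (.nd 3 (.lf [1, 0, 0, 0,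
    -33554432, 0, 0]) (.nd 1 (.nd 0 (.nd 2 (.lf [1, 0, 0, 0, -41943040, 0, 0]) (.nd 3 (.lf [1, 0,
    0, 0, -8388608, 0, 0]) (.nd 4 (.nd 1 (.lf [1, 0, 0, 0, -33554432, 0, 0]) (.lf [1, 0, 0, 0,
    -35651584, 0, 0])) (.lf [1, 0, 0, 0, -29360128, 0, 0])))) (.nd 2 (.lf [1, 0, 0, 0, -50331648,
    0, 0]) (.lf [1, 0, 0, 0, -38273024, 0, 0]))) (.nd 0 (.lf [1, 0, 0, 0, -25165824, 0, 0]) (.nd
    3 (.lf [1, 0, 0, 0, 0, 0, 0]) (.nd 2 (.lf [1, 0, 0, 0, -35651584, 0, 0]) (.lf [1, 0, 0, 0, 0,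
    0, 0]))))))) (.nd 4 (.nd 1 (.lf [1, 0, 0, 0, -83886080, 0, 0]) (.nd 2 (.nd 3 (.lf [1, 0, 0,
    0, -67108864, 0, 0]) (.nd 0 (.lf [1, 0, 0, 0, -54525952, 0, 0]) (.lf [1, -536870912, 0, 0,
    -58720256, 0, 0]))) (.lf [1, 0, 0, 0, -75497472, 0, 0]))) (.lf [1, 0, 0, 0, -48234496, 0,
    0])))) (.nd 4 (.lf [1, 0, 0, 0, -78118912, 0, 0]) (.lf [1, 0, 0, 0, -67108864, 0, 0])))))))
    (.nd 4 (.lf [1, 0, 0, 0, 0, 0, 0]) (.nd 3 (.lf [1, 0, 0, 0, 0, 0, 0]) (.nd 4 (.lf [1, 0, 0,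
    0, 0, 0, 0]) (.nd 2 (.lf [1, 0, 0, 0, 0, 0, 0]) (.nd 1 (.lf [1, 0, 0, 0, 0, 0, 0]) (.nd 4
    (.lf [1, 0, 0, 0, 0, 0, 0]) (.nd 3 (.lf [1, 0, 0, 0, 0, 0, 0]) (.lf [1, 0, 0, 0, 0, 0,
    -402653184]))))))))) (.lf [1, -3959422976, 0, 0, -129499136, 0, 0]))
    (by decide +kernel)

theorem XAc1_7 : G [(c1A lXA uXA rXA)] (sdXA) 5 [93, 8, 58, 12, 6] [100, 9, 81, 56, 8] [200, 20, 400, 400, 6] :=
  G.leaf 207 38246419067554701187770673214259200000000 [2, 2, 3, 3, 3]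
    (.nd 4 (.nd 3 (.nd 1 (.nd 2 (.lf [1, 0, 0, 0, 0, 0, 0]) (.lf [1, -1073741824, 0, 0,
    -50331648, 0, 0])) (.nd 4 (.nd 2 (.nd 1 (.lf [1, 0, 0, 0, -60817408, 0, 0]) (.lf [1, 0, 0, 0,
    -71303168, 0, 0])) (.lf [1, 0, 0, 0, -75497472, 0, 0])) (.lf [1, 0, 0, 0, -50331648, 0, 0])))
    (.nd 1 (.lf [1, 0, 0, 0, 0, 0, 0]) (.nd 4 (.lf [1, 0, 0, 0, -58720256, 0, 0]) (.lf [1, 0, 0,
    0, 0, 0, 0])))) (.nd 1 (.lf [1, -2147483648, 0, 0, -67108864, 0, 0]) (.nd 2 (.nd 3 (.lf [1,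
    -1207959552, 0, 0, -90177536, 0, 0]) (.lf [1, 0, 0, 0, 0, 0, 0])) (.nd 4 (.nd 1 (.nd 3 (.lf
    [1, -1207959552, 0, 0, -94371840, 0, 0]) (.lf [1, 0, 0, 0, 0, 0, 0])) (.nd 3 (.nd 4 (.lf [1,
    0, 0, 0, -111149056, 0, 0]) (.lf [1, 0, 0, 0, -100663296, 0, 0])) (.nd 4 (.nd 0 (.lf [1, 0,
    0, 0, -92274688, 0, 0]) (.lf [1, -469762048, 0, 0, -100663296, 0, 0])) (.lf [1, 0, 0, 0,
    -83886080, 0, 0])))) (.nd 1 (.lf [1, -3388997632, 0, 0, -98041856, -75497472, 0]) (.nd 2 (.nd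
    3 (.lf [1, -1073741824, 0, 0, -117440512, 0, 0]) (.lf [1, -2147483648, 0, 0, 0, 0, 0])) (.nd
    0 (.nd 4 (.nd 3 (.lf [1, 0, 0, 0, -117440512, 0, 0]) (.lf [1, 0, 0, 0, -106954752, 0, 0]))
    (.nd 3 (.lf [1, -1073741824, 0, 0, -134217728, 0, 0]) (.lf [1, -939524096, 0, 0, -113246208,
    0, 0]))) (.nd 3 (.lf [1, -240518168576, 0, 0, -4294967296, 0, 0]) (.lf [1, -1342177280, 0, 0,
    -106954752, 0, 0])))))))))
    (by decide +kernel)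

theorem XAc1_9 : G [(c1A lXA uXA rXA)] (sdXA) 5 [93, 8, 81, 12, 12] [100, 9, 104, 56, 14] [200, 20, 400, 400, 12] :=
  G.leaf 178 302160965453896458849746954485760000000000 [2, 2, 3, 3, 3]
    (.nd 4 (.lf [1, 0, 0, 0, -50331648, 0, 0]) (.nd 1 (.nd 3 (.lf [1, 0, 0, 0, -75497472, 0, 0])
    (.lf [1, 0, 0, -83886080, 0, 0, 0])) (.nd 4 (.lf [1, 0, 0, 0, -67108864, 0, 0]) (.lf [1, 0,
    0, -12582912, -75497472, 0, 0]))))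
    (by decide +kernel)

theorem XAc1_11 : G [(c1A lXA uXA rXA)] (sdXA) 5 [93, 8, 81, 24, 14] [100, 9, 104, 68, 16] [200, 20, 400, 800, 12] :=
  G.leaf 218 2854293315474573104075977858744320000000000 [2, 2, 3, 3, 3]
    (.nd 1 (.nd 2 (.nd 4 (.nd 1 (.nd 0 (.lf [1, 0, 0, 0, -101711872, -50331648, 0]) (.nd 2 (.nd 4
    (.lf [1, -1744830464, 0, -25165824, -104857600, 0, 0]) (.lf [1, 0, 0, 0, -92274688, 0, 0]))
    (.lf [1, -2147483648, 0, 0, -100663296, 0, 0]))) (.lf [1, -1610612736, 0, 0, -83886080, 0,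
    0])) (.lf [1, -2516850835456, 0, -54492397568, 0, -66571993088, 0])) (.nd 1 (.nd 4 (.nd 3
    (.lf [1, 0, 0, 0, -201326592, 0, 0]) (.nd 0 (.lf [1, 0, 0, -2147483648, 0, -4294967296, 0])
    (.nd 2 (.nd 4 (.nd 1 (.nd 0 (.lf [1, -2281701376, 0, -56098816, -103022592, -31457280, 0])
    (.lf [1, -4294967296, 0, -100663296, -92274688, 0, 0])) (.nd 4 (.lf [1, -1610612736, 0,
    -50331648, -100663296, 0, 0]) (.lf [1, -2684354560, 0, -100663296, -94371840, 0, 0]))) (.lf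
    [1, -1073741824, 0, -33554432, -92274688, 0, 0])) (.lf [1, -3758096384, 0, -201326592,
    -75497472, 0, 0])))) (.lf [1, -274877906944, 0, -10737418240, 0, -4294967296, 0])) (.nd 4
    (.nd 0 (.lf [1, 0, 0, 0, 0, -2147483648, 0]) (.nd 3 (.lf [1, -4294967296, 0, 0, -167772160,
    0, 0]) (.nd 4 (.lf [1, -188978561024, 0, -4026531840, 0, -4294967296, 0]) (.nd 2 (.lf [1,
    -1073741824, 0, 0, -92274688, 0, 0]) (.lf [1, -1610612736, 0, -54525952, -85983232, 0,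
    0]))))) (.lf [1, -60129542144, 0, -1342177280, 0, -1073741824, 0])))) (.nd 4 (.nd 4 (.nd 2
    (.nd 1 (.nd 0 (.lf [1, 0, 0, 0, -109051904, 0, 0]) (.nd 3 (.lf [1, 0, 0, 0, -134217728, 0,
    0]) (.nd 2 (.nd 1 (.lf [1, -536870912, 0, 0, -134217728, 0, 0]) (.lf [1, -1241513984, 0,
    -18874368, -116391936, 0, 0])) (.lf [1, -1073741824, 0, 0, -117440512, 0, 0])))) (.lf [1, 0,
    0, 0, -134217728, 0, 0])) (.lf [1, -2817498546176, 0, -230854492160, 0, 0, 0])) (.lf [1, 0,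
    0, 0, -109051904, 0, 0])) (.nd 2 (.nd 1 (.nd 2 (.nd 3 (.lf [1, 0, 0, 0, -2147483648, 0, 0])
    (.nd 0 (.nd 4 (.nd 1 (.lf [1, -1073741824, 0, -50331648, -117440512, 0, 0]) (.nd 0 (.nd 4
    (.lf [1, -2147483648, 0, -55574528, -113770496, 0, 0]) (.lf [1, -939524096, 0, -34603008,
    -109576192, 0, 0])) (.lf [1, 0, 0, 0, 0, -4294967296, 0]))) (.lf [1, -111669149696, 0,
    -4563402752, 0, -2147483648, 0])) (.lf [1, -3791650816, 0, -89128960, -118489088, 0, 0])))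
    (.nd 0 (.nd 4 (.lf [1, -771751936, 0, 0, -118489088, 0, 0]) (.lf [1, -2281701376, 0, 0,
    -169869312, -75497472, 0])) (.lf [1, -2147483648, 0, 0, -134217728, 0, 0]))) (.nd 4 (.nd 3
    (.lf [1, 0, 0, 0, -1073741824, 0, 0]) (.nd 0 (.lf [1, 0, 0, 0, -142606336, 0, 0]) (.lf [1,
    -1065151889408, 0, 0, -23622320128, 0, 0]))) (.nd 3 (.lf [1, 0, 0, 0, -1073741824, 0, 0])
    (.nd 0 (.nd 2 (.lf [1, 0, 0, -4294967296, 0, 0, 0]) (.lf [1, -671088640, 0, 0, -148897792, 0,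
    0])) (.lf [1, -171798691840, 0, -5368709120, 0, 0, 0]))))) (.lf [1, -103079215104, 0,
    -8589934592, 0, 0, 0]))))
    (by decide +kernel)

theorem XAc1_12 : G [(c1A lXA uXA rXA)] (sdXA) 5 [93, 8, 81, 68, 14] [100, 9, 104, 112, 16] [200, 20, 400, 800, 12] :=
  G.leaf 220 3399475352008040915442063114240000000000000 [2, 2, 3, 3, 3]
    (.nd 1 (.nd 4 (.nd 3 (.nd 2 (.lf [1, -2013265920, 0, -62914560, -52428800, 0, 0]) (.nd 1 (.nd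
    0 (.lf [1, 0, 0, -201326592, 0, 0, 0]) (.nd 2 (.nd 3 (.lf [1, 0, 0, -134217728, 0, 0, 0])
    (.nd 1 (.lf [1, -2684354560, 0, -150994944, 0, 0, 0]) (.lf [1, -2113929216, 0, -96468992,
    -74448896, 0, 0]))) (.lf [1, -2147483648, 0, -268435456, 0, 0, 0]))) (.lf [1, -3758096384, 0,
    -167772160, 0, 0, 0]))) (.lf [1, 0, 0, -134217728, 0, 0, 0])) (.lf [1, -4831838208, 0,
    -234881024, 0, 0, 0])) (.nd 2 (.nd 4 (.nd 1 (.nd 3 (.nd 0 (.lf [1, 0, 0, -41943040,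
    -77594624, 0, 0]) (.nd 2 (.nd 4 (.nd 1 (.nd 3 (.lf [1, -2684354560, 0, -167772160, 0, 0, 0])
    (.nd 4 (.lf [1, -939524096, 0, -37748736, -100663296, 0, 0]) (.lf [1, -1744830464, 0,
    -75497472, -96468992, 0, 0]))) (.nd 4 (.lf [1, -1879048192, 0, -58720256, -88604672, 0, 0])
    (.lf [1, -2147483648, 0, -67108864, -92274688, 0, 0]))) (.lf [1, 0, 0, 0, -95420416, 0, 0]))
    (.nd 4 (.lf [1, -704643072, 0, 0, -103809024, 0, 0]) (.lf [1, 0, 0, 0, -92274688, 0, 0]))))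
    (.lf [1, 0, 0, -67108864, 0, 0, 0])) (.nd 0 (.lf [1, 0, 0, -41943040, -83886080, 0, 0]) (.nd
    4 (.nd 2 (.lf [1, -2147483648, 0, -104857600, -90177536, 0, 0]) (.nd 1 (.nd 3 (.nd 0 (.lf [1,
    0, 0, 0, -109051904, 0, 0]) (.nd 4 (.lf [1, 0, 0, 0, -102760448, 0, 0]) (.lf [1, -2147483648,
    0, -67108864, -100663296, 0, 0]))) (.lf [1, 0, 0, 0, 0, 0, 0])) (.nd 0 (.lf [1, 0, 0,
    -25165824, -100663296, 0, 0]) (.nd 3 (.lf [1, -402653184, 0, -20971520, -111149056, 0, 0])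
    (.lf [1, 0, 0, -134217728, 0, 0, 0]))))) (.lf [1, 0, 0, -25165824, -87031808, 0, 0])))) (.nd
    1 (.nd 3 (.nd 4 (.nd 0 (.nd 3 (.lf [1, 0, 0, -134217728, 0, 0, 0]) (.nd 2 (.lf [1,
    -2013265920, 0, -104857600, -79691776, 0, 0]) (.lf [1, -1610612736, 0, -50331648, -92274688,
    0, 0]))) (.nd 2 (.lf [1, -2684354560, 0, -83886080, -100663296, 0, 0]) (.lf [1, -2147483648,
    0, -67108864, -100663296, 0, 0]))) (.lf [1, -5905580032, 0, -268435456, 0, 0, 0])) (.lf [1,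
    0, 0, -134217728, 0, 0, 0])) (.nd 3 (.nd 4 (.nd 0 (.nd 2 (.lf [1, 0, 0, -2147483648, 0, 0,
    0]) (.lf [1, -595591168, 0, -47972352, -103809024, 0, 0])) (.nd 2 (.lf [1, -68719476736, 0,
    -6442450944, 0, 0, 0]) (.nd 1 (.lf [1, -2147483648, 0, -67108864, -102760448, 0, 0]) (.nd 0
    (.lf [1, -1073741824, 0, -67108864, -109051904, 0, 0]) (.lf [1, -3221225472, 0, -100663296,
    -109051904, 0, 0]))))) (.nd 0 (.nd 1 (.lf [1, -2147483648, 0, -117440512, -85983232, 0, 0])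
    (.lf [1, -1610612736, 0, -88080384, -111149056, 0, 0])) (.lf [1, -103079215104, 0,
    -3221225472, 0, 0, 0]))) (.lf [1, 0, 0, -201326592, 0, 0, 0])))) (.lf [1, -2281701376, 0,
    -167772160, -79691776, 0, 0])))
    (by decide +kernel)

theorem XAc1_10 : G [(c1A lXA uXA rXA)] (sdXA) 5 [93, 8, 81, 12, 14] [100, 9, 104, 56, 16] [200, 20, 400, 400, 12] :=
  G.split 3 XAc1_11 XAc1_12

theorem XAc1_8 : G [(c1A lXA uXA rXA)] (sdXA) 5 [93, 8, 81, 12, 6] [100, 9, 104, 56, 8] [200, 20, 400, 400, 6] :=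
  G.split 4 XAc1_9 XAc1_10

theorem XAc1_6 : G [(c1A lXA uXA rXA)] (sdXA) 5 [93, 8, 29, 12, 6] [100, 9, 52, 56, 8] [200, 20, 200, 400, 6] :=
  G.split 2 XAc1_7 XAc1_8

theorem XAc1_13 : G [(c1A lXA uXA rXA)] (sdXA) 5 [93, 8, 29, 56, 6] [100, 9, 52, 100, 8] [200, 20, 200, 400, 6] :=
  G.leaf 166 7039409037468410833160507385446400000000 [2, 2, 3, 3, 3]
    (.nd 4 (.lf [1, 0, 0, -67108864, 0, 0, 0]) (.lf [1, 0, 0, -134217728, 0, 0, 0]))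
    (by decide +kernel)

theorem XAc1_5 : G [(c1A lXA uXA rXA)] (sdXA) 5 [93, 8, 29, 6, 6] [100, 9, 52, 50, 8] [200, 20, 200, 200, 6] :=
  G.split 3 XAc1_6 XAc1_13

theorem XAc1_16 : G [(c1A lXA uXA rXA)] (sdXA) 5 [93, 9, 29, 12, 12] [100, 10, 52, 56, 14] [200, 20, 200, 400, 12] :=
  G.leaf 197 38632784360153137047922122791321600000000 [2, 2, 3, 3, 3]
    (.nd 2 (.nd 3 (.nd 4 (.lf [1, 0, 0, 0, -67108864, 0, 0]) (.nd 1 (.lf [1, 0, 0, 0, -83886080,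
    0, 0]) (.lf [1, 0, 0, 0, -6979321856, 0, 0]))) (.nd 1 (.nd 4 (.lf [1, 0, 0, 0, -46137344, 0,
    0]) (.nd 3 (.nd 4 (.lf [1, 0, 0, 0, -67108864, 0, 0]) (.lf [1, 0, 0, 0, -81788928, 0, 0]))
    (.nd 2 (.lf [1, 0, 0, -50331648, -50331648, 0, 0]) (.lf [1, 0, 0, 0, -58720256, 0, 0]))))
    (.nd 2 (.lf [1, 0, 0, -50331648, -75497472, 0, 0]) (.nd 4 (.nd 3 (.lf [1, 0, 0, 0, -67108864,
    0, 0]) (.nd 4 (.lf [1, 0, 0, 0, -58720256, 0, 0]) (.lf [1, 0, 0, 0, -48234496, 0, 0]))) (.nd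
    3 (.lf [1, 0, 0, 0, -83886080, 0, 0]) (.nd 1 (.nd 4 (.lf [1, 0, 0, 0, -67108864, 0, 0]) (.lf
    [1, 0, 0, 0, -75497472, 0, 0])) (.nd 0 (.lf [1, 0, 0, -37748736, -60817408, 0, 0]) (.lf [1,
    0, 0, 0, -83886080, 0, 0])))))))) (.lf [1, 0, 0, -46137344, -77594624, 0, 0]))
    (by decide +kernel)

theorem XAc1_17 : G [(c1A lXA uXA rXA)] (sdXA) 5 [93, 9, 29, 12, 14] [100, 10, 52, 56, 16] [200, 20, 200, 400, 12] :=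
  G.leaf 215 49926355715726060893464230992281600000000 [2, 2, 3, 3, 3]
    (.nd 2 (.nd 1 (.nd 2 (.nd 4 (.nd 3 (.lf [1, 0, 0, 0, -134217728, 0, 0]) (.nd 1 (.nd 0 (.lf
    [1, 0, 0, -46661632, -86245376, 0, 0]) (.nd 4 (.nd 2 (.lf [1, 0, 0, 0, -109051904, 0, 0])
    (.lf [1, 0, 0, -33554432, -109051904, 0, 0])) (.lf [1, 0, 0, 0, -99090432, 0, 0]))) (.nd 0
    (.nd 3 (.lf [1, 0, 0, 0, -100663296, 0, 0]) (.lf [1, 0, 0, -134217728, 0, 0, 0])) (.nd 4 (.nd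
    2 (.lf [1, 0, 0, 0, -100663296, 0, 0]) (.nd 1 (.lf [1, 0, 0, -16777216, -106954752, 0, 0])
    (.nd 3 (.lf [1, 0, 0, 0, -109051904, 0, 0]) (.lf [1, 0, 0, 0, -100663296, 0, 0])))) (.lf [1,
    0, 0, 0, -93323264, 0, 0]))))) (.nd 1 (.nd 4 (.nd 0 (.nd 2 (.lf [1, 0, 0, -35307520,
    -113491968, 0, 0]) (.lf [1, 0, 0, -11811160064, 0, 0, 0])) (.nd 3 (.lf [1, 0, 0, 0,
    -1610612736, 0, 0]) (.nd 2 (.lf [1, 0, 0, 0, -123731968, 0, 0]) (.lf [1, 0, 0, -37748736,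
    -121634816, 0, 0])))) (.nd 0 (.nd 2 (.nd 3 (.lf [1, 0, 0, 0, -2147483648, 0, 0]) (.lf [1, 0,
    0, 0, -127926272, 0, 0])) (.lf [1, 0, 0, -12884901888, 0, 0, 0])) (.lf [1, -8053063680, 0,
    -218103808, -125829120, 0, 0]))) (.nd 2 (.nd 0 (.nd 4 (.nd 3 (.lf [1, 0, 0, 0, -134217728, 0,
    0]) (.lf [1, 0, 0, 0, -109051904, 0, 0])) (.nd 3 (.lf [1, 0, 0, 0, -134217728, 0, 0]) (.lf
    [1, 0, 0, 0, -117440512, 0, 0]))) (.nd 3 (.lf [1, 0, 0, 0, -150994944, 0, 0]) (.lf [1,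
    -1073741824, 0, 0, -109051904, 0, 0]))) (.nd 3 (.lf [1, 0, 0, 0, -167772160, 0, 0]) (.nd 0
    (.nd 4 (.lf [1, 0, 0, -33554432, -109051904, 0, 0]) (.lf [1, -1207959552, 0, -67108864,
    -111149056, 0, 0])) (.nd 4 (.nd 3 (.lf [1, -402653184, 0, 0, -130023424, 0, 0]) (.lf [1,
    -1610612736, 0, -83886080, -83886080, 0, 0])) (.lf [1, -1649267441664, 0, -47244640256, 0, 0,
    0]))))))) (.nd 4 (.nd 3 (.nd 1 (.lf [1, 0, 0, 0, -109051904, 0, 0]) (.lf [1, -1207959552, 0,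
    0, -96468992, 0, 0])) (.nd 1 (.nd 4 (.lf [1, 0, 0, 0, -100663296, 0, 0]) (.lf [1, 0, 0, 0,
    -83886080, 0, 0])) (.lf [1, 0, 0, 0, -83886080, 0, 0]))) (.nd 1 (.nd 2 (.nd 3 (.lf [1, 0, 0,
    0, -134217728, 0, 0]) (.lf [1, -570425344, 0, 0, -112197632, 0, 0])) (.lf [1, -1073741824, 0,
    0, -109051904, 0, 0])) (.nd 2 (.nd 3 (.lf [1, 0, 0, 0, -128450560, 0, 0]) (.lf [1, 0, 0, 0,
    -100663296, 0, 0])) (.lf [1, -2147483648, 0, 0, -100663296, 0, 0]))))) (.nd 4 (.nd 3 (.lf [1,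
    0, 0, 0, -10200547328, 0, 0]) (.nd 2 (.lf [1, 0, 0, -46137344, -104857600, 0, 0]) (.nd 1 (.nd
    3 (.lf [1, 0, 0, 0, -109051904, 0, 0]) (.nd 2 (.lf [1, 0, 0, 0, -97517568, 0, 0]) (.lf [1, 0,
    0, 0, -83886080, 0, 0]))) (.nd 4 (.lf [1, 0, 0, 0, -117440512, 0, 0]) (.lf [1, 0, 0, 0,
    -100663296, 0, 0]))))) (.nd 2 (.lf [1, 0, 0, -71303168, -136314880, 0, 0]) (.nd 1 (.nd 3 (.lf
    [1, 0, 0, 0, -7516192768, 0, 0]) (.nd 2 (.nd 0 (.lf [1, 0, 0, 0, -125829120, 0, 0]) (.lf [1,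
    0, 0, 0, -134217728, 0, 0])) (.lf [1, 0, 0, 0, -117440512, 0, 0]))) (.lf [1, 0, 0, 0,
    -140509184, 0, 0]))))) (.nd 1 (.nd 4 (.nd 4 (.nd 1 (.lf [1, 0, 0, -3221225472, 0, 0, 0]) (.nd
    2 (.nd 0 (.lf [1, 0, 0, -7516192768, 0, 0, 0]) (.nd 4 (.lf [1, 0, 0, -29360128, -102760448,
    0, 0]) (.nd 3 (.lf [1, 0, 0, 0, -1073741824, 0, 0]) (.lf [1, 0, 0, -33554432, -109051904, 0,
    0])))) (.lf [1, 0, 0, -1073741824, 0, 0, 0]))) (.lf [1, 0, 0, -31457280, -94896128, 0, 0]))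
    (.lf [1, -4966055936, 0, -423624704, -111149056, 0, 0])) (.lf [1, 0, 0, -2147483648, 0, 0,
    0])))
    (by decide +kernel)

theorem XAc1_15 : G [(c1A lXA uXA rXA)] (sdXA) 5 [93, 9, 29, 12, 6] [100, 10, 52, 56, 8] [200, 20, 200, 400, 6] :=
  G.split 4 XAc1_16 XAc1_17

theorem XAc1_18 : G [(c1A lXA uXA rXA)] (sdXA) 5 [93, 9, 29, 56, 6] [100, 10, 52, 100, 8] [200, 20, 200, 400, 6] :=
  G.leaf 197 7597581708080432959421932267110400000000 [2, 2, 3, 3, 3]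
    (.nd 4 (.nd 2 (.nd 3 (.nd 4 (.nd 1 (.lf [1, 0, 0, -67108864, 0, 0, 0]) (.nd 3 (.lf [1, 0, 0,
    -67108864, 0, 0, 0]) (.nd 2 (.lf [1, 0, 0, -268435456, 0, 0, 0]) (.nd 4 (.lf [1, 0, 0,
    -50331648, -41943040, 0, 0]) (.lf [1, 0, 0, -41943040, -56623104, 0, 0]))))) (.nd 2 (.lf [1,
    0, 0, -100663296, 0, 0, 0]) (.nd 1 (.lf [1, 0, 0, 0, 0, 0, 0]) (.nd 3 (.lf [1, 0, 0,
    -67108864, 0, 0, 0]) (.nd 4 (.lf [1, 0, 0, -50331648, -25165824, 0, 0]) (.lf [1, 0, 0,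
    -50331648, -12582912, 0, 0])))))) (.lf [1, 0, 0, -46137344, 0, 0, -134217728])) (.lf [1, 0,
    0, -268435456, 0, 0, 0])) (.nd 3 (.nd 2 (.nd 1 (.lf [1, 0, 0, -134217728, 0, 0, 0]) (.nd 3
    (.lf [1, 0, 0, -134217728, 0, 0, 0]) (.nd 2 (.lf [1, 0, 0, -268435456, 0, 0, 0]) (.nd 4 (.lf
    [1, 0, 0, -50331648, -67108864, 0, 0]) (.lf [1, 0, 0, -159383552, 0, 0, 0]))))) (.lf [1, 0,
    0, -268435456, 0, 0, 0])) (.lf [1, 0, 0, -134217728, 0, 0, 0])))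
    (by decide +kernel)

theorem XAc1_14 : G [(c1A lXA uXA rXA)] (sdXA) 5 [93, 9, 29, 6, 6] [100, 10, 52, 50, 8] [200, 20, 200, 200, 6] :=
  G.split 3 XAc1_15 XAc1_18

theorem XAc1_4 : G [(c1A lXA uXA rXA)] (sdXA) 5 [93, 4, 29, 6, 6] [100, 5, 52, 50, 8] [200, 10, 200, 200, 6] :=
  G.split 1 XAc1_5 XAc1_14

theorem XAc1_19 : G [(c1A lXA uXA rXA)] (sdXA) 5 [93, 4, 29, 6, 8] [100, 5, 52, 50, 10] [200, 10, 200, 200, 6] :=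
  G.leaf 205 309279413148416130408067694592000000000 [2, 2, 3, 3, 3]
    (.nd 4 (.nd 1 (.lf [1, -19327352832000, 0, -464393338880, 0, 0, 0]) (.nd 2 (.nd 3 (.nd 2 (.nd
    1 (.nd 4 (.lf [1, -103079215104, 0, -2147483648, 0, 0, 0]) (.nd 0 (.nd 4 (.lf [1,
    -171798691840, 0, -5368709120, 0, 0, 0]) (.nd 3 (.lf [1, -3221225472, 0, -100663296,
    -125829120, 0, 0]) (.lf [1, 0, 0, 0, -167772160, 0, 0]))) (.lf [1, -171798691840, 0,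
    -5368709120, 0, 0, 0]))) (.lf [1, -171798691840, 0, -13958643712, 0, 0, 0])) (.nd 1 (.lf [1,
    -2147483648, 0, 0, -134217728, 0, 0]) (.lf [1, -4227858432, 0, -95420416, -141557760, 0,
    0]))) (.lf [1, 0, 0, -213909504, 0, 0, 0])) (.lf [1, -137438953472, 0, -11811160064, 0, 0,
    0]))) (.lf [1, -103079215104, 0, -3221225472, 0, 0, 0]))
    (by decide +kernel)

theorem XAc1_3 : G [(c1A lXA uXA rXA)] (sdXA) 5 [93, 4, 29, 6, 3] [100, 5, 52, 50, 5] [200, 10, 200, 200, 3] :=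
  G.split 4 XAc1_4 XAc1_19

theorem XAc1_1 : G [(c1A lXA uXA rXA)] (sdXA) 5 [93, 4, 3, 6, 3] [100, 5, 26, 50, 5] [200, 10, 100, 200, 3] :=
  G.split 2 XAc1_2 XAc1_3

theorem XAc1_20 : G [(c1A lXA uXA rXA)] (sdXA) 5 [93, 4, 3, 50, 3] [100, 5, 26, 94, 5] [200, 10, 100, 200, 3] :=
  G.leaf 161 5942201826505319823878822297600000000 [2, 2, 3, 3, 3]
    (.nd 4 (.lf [1, 0, 0, -13631488, 0, 0, -4857004032]) (.lf [1, 0, -2952790016, 0, 0, 0, 0]))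
    (by decide +kernel)

theorem XAc1 : G [(c1A lXA uXA rXA)] (sdXA) 5 [93, 4, 3, 3, 3] [100, 5, 26, 47, 5] [200, 10, 100, 100, 3] :=
  G.split 3 XAc1_1 XAc1_20

theorem YAf100_5 : G [(f1 lYA uYA (sE0 vYA) (pA lYA rYA eP0))] (ez0 :: eh0 :: sdYA) 5 [93, 10, 6, 6, 12] [100, 11, 18, 50, 14] [200, 20, 200, 200, 12] :=
  G.leaf 247 160813698413615702520933174678748056587862016000000000000 [4, 6, 4, 4, 3]
    (.nd 3 (.nd 4 (.nd 2 (.nd 1 (.lf [1, 0, 0, 0, 0, 0, 0, 0, 0]) (.lf [1, 0, 0, 0, 0, 0,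
    -1048576, 0, 0])) (.lf [1, 0, 0, 0, 0, 0, -2097152, 0, 0])) (.lf [1, -33554432, 0, 0, 0, 0,
    -524288, 0, 0])) (.nd 1 (.lf [1, 0, -100663296, 0, 0, 0, 0, 0, 0]) (.nd 4 (.nd 2 (.nd 3 (.lf
    [1, 0, 0, 0, 0, 0, 0, 0, 0]) (.lf [1, 0, -67108864, 0, 0, 0, 0, 0, 0])) (.lf [1, 0, 0, 0, 0,
    0, 0, 0, 0])) (.lf [1, 0, 0, 0, 0, 0, 0, 0, 0]))))
    (by decide +kernel)

theorem YAf100_6 : G [(f1 lYA uYA (sE0 vYA) (pA lYA rYA eP0))] (ez0 :: eh0 :: sdYA) 5 [93, 10, 18, 6, 12] [100, 11, 30, 50, 14] [200, 20, 200, 200, 12] :=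
  G.leaf 242 219693373825739101819484441599623516890595328000000000000 [4, 6, 4, 4, 3]
    (.nd 3 (.lf [1, 0, 0, 0, 0, 0, -4194304, 0, 0]) (.nd 4 (.nd 3 (.nd 1 (.lf [1, 0, 0, 0, 0,
    -2621440, 0, 0, 0]) (.lf [1, 0, 0, 0, 0, 0, -2621440, 0, 0])) (.nd 2 (.nd 1 (.lf [1, 0, 0, 0,
    0, 0, 0, 0, 0]) (.lf [1, 0, 0, 0, 0, -1048576, 0, 0, 0])) (.lf [1, 0, -201326592, 0, 0,
    -8388608, 0, 0, 0]))) (.lf [1, 0, -150994944, 0, 0, -6815744, 0, 0, 0])))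
    (by decide +kernel)

theorem YAf100_4 : G [(f1 lYA uYA (sE0 vYA) (pA lYA rYA eP0))] (ez0 :: eh0 :: sdYA) 5 [93, 10, 3, 6, 12] [100, 11, 15, 50, 14] [200, 20, 100, 200, 12] :=
  G.split 2 YAf100_5 YAf100_6

theorem YAf100_7 : G [(f1 lYA uYA (sE0 vYA) (pA lYA rYA eP0))] (ez0 :: eh0 :: sdYA) 5 [93, 10, 3, 6, 14] [100, 11, 15, 50, 16] [200, 20, 100, 200, 12] :=
  G.leaf 214 14164765132997304748354085470604729820119040000000000000 [4, 6, 4, 4, 3]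
    (.lf [1, 0, -536870912, 0, 0, 0, -8388608, 0, 0])
    (by decide +kernel)

theorem YAf100_3 : G [(f1 lYA uYA (sE0 vYA) (pA lYA rYA eP0))] (ez0 :: eh0 :: sdYA) 5 [93, 10, 3, 6, 6] [100, 11, 15, 50, 8] [200, 20, 100, 200, 6] :=
  G.split 4 YAf100_4 YAf100_7

theorem YAf100_10 : G [(f1 lYA uYA (sE0 vYA) (pA lYA rYA eP0))] (ez0 :: eh0 :: sdYA) 5 [93, 11, 6, 6, 12] [100, 12, 18, 50, 14] [200, 20, 200, 200, 12] :=
  G.leaf 248 191373865800070863889176710307548284378415104000000000000 [4, 6, 4, 4, 3]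
    (.nd 3 (.lf [1, 0, 0, 0, 0, 0, -2097152, 0, 0]) (.nd 4 (.nd 2 (.nd 1 (.nd 3 (.lf [1, 0, 0, 0,
    0, 0, -524288, 0, 0]) (.lf [1, 0, -16777216, 0, 0, 0, 0, 0, 0])) (.nd 4 (.lf [1, 0, 0, 0, 0,
    0, -262144, 0, 0]) (.nd 3 (.lf [1, 0, 0, 0, 0, 0, -1048576, 0, 0]) (.lf [1, 0, 0, 0, 0, 0, 0,
    -1048576, 0])))) (.nd 3 (.lf [1, 0, 0, 0, 0, 0, -2097152, 0, 0]) (.nd 4 (.lf [1, 0, 0, 0, 0,
    -2097152, 0, 0, 0]) (.nd 1 (.lf [1, 0, 0, 0, 0, -1310720, 0, 0, 0]) (.lf [1, 0, 0, 0, 0,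
    -2621440, 0, 0, 0]))))) (.lf [1, 0, 0, 0, 0, -1048576, 0, 0, 0])))
    (by decide +kernel)

theorem YAf100_11 : G [(f1 lYA uYA (sE0 vYA) (pA lYA rYA eP0))] (ez0 :: eh0 :: sdYA) 5 [93, 11, 6, 6, 14] [100, 12, 18, 50, 16] [200, 20, 200, 200, 12] :=
  G.leaf 219 227748207954739882179221860691680666771783680000000000000 [4, 6, 4, 4, 3]
    (.lf [1, -1610612736, 0, 0, 0, 0, 0, 0, 0])
    (by decide +kernel)

theorem YAf100_9 : G [(f1 lYA uYA (sE0 vYA) (pA lYA rYA eP0))] (ez0 :: eh0 :: sdYA) 5 [93, 11, 6, 6, 6] [100, 12, 18, 50, 8] [200, 20, 200, 200, 6] :=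
  G.split 4 YAf100_10 YAf100_11

theorem YAf100_12 : G [(f1 lYA uYA (sE0 vYA) (pA lYA rYA eP0))] (ez0 :: eh0 :: sdYA) 5 [93, 11, 18, 6, 6] [100, 12, 30, 50, 8] [200, 20, 200, 200, 6] :=
  G.leaf 226 35661120615535640680499436952887270678986752000000000000 [4, 6, 4, 4, 3]
    (.nd 4 (.nd 3 (.lf [1, 0, 0, 0, 0, 0, -25165824, 0, 0]) (.nd 3 (.lf [1, 0, 0, 0, 0, 0,
    -8388608, 0, 0]) (.lf [1, 0, 0, 0, 0, -4194304, 0, 0, 0]))) (.lf [1, -50331648, 0, 0, 0,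
    -10485760, 0, 0, 0]))
    (by decide +kernel)

theorem YAf100_8 : G [(f1 lYA uYA (sE0 vYA) (pA lYA rYA eP0))] (ez0 :: eh0 :: sdYA) 5 [93, 11, 3, 6, 6] [100, 12, 15, 50, 8] [200, 20, 100, 200, 6] :=
  G.split 2 YAf100_9 YAf100_12

theorem YAf100_2 : G [(f1 lYA uYA (sE0 vYA) (pA lYA rYA eP0))] (ez0 :: eh0 :: sdYA) 5 [93, 5, 3, 6, 6] [100, 6, 15, 50, 8] [200, 10, 100, 200, 6] :=
  G.split 1 YAf100_3 YAf100_8

theorem YAf100_14 : G [(f1 lYA uYA (sE0 vYA) (pA lYA rYA eP0))] (ez0 :: eh0 :: sdYA) 5 [93, 10, 3, 50, 6] [100, 11, 15, 94, 8] [200, 20, 100, 200, 6] :=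
  G.leaf 243 2367107893489691662193837833393674144186368000000000000 [4, 6, 4, 4, 3]
    (.nd 4 (.nd 3 (.nd 2 (.lf [1, 0, -201326592, 0, 0, 0, 0, 0, 0]) (.nd 4 (.lf [1, 0,
    -2147483648, 0, 0, -33554432, 0, 0, 0]) (.nd 3 (.lf [1, 0, 0, 0, 0, 0, 0, 0, -6174015488])
    (.lf [1, 0, -197132288, 0, 0, -4718592, 0, 0, 0])))) (.lf [1, 0, -14495514624, 0, 0, 0, 0, 0,
    0])) (.lf [1, 0, -427819008, 0, 0, 0, 0, 0, 0]))
    (by decide +kernel)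

theorem YAf100_17 : G [(f1 lYA uYA (sE0 vYA) (pA lYA rYA eP0))] (ez0 :: eh0 :: sdYA) 5 [93, 11, 3, 100, 12] [100, 12, 15, 144, 14] [200, 20, 100, 400, 12] :=
  G.leaf 259 296750898376570617910814396975712341441118208000000000000 [4, 6, 4, 4, 3]
    (.nd 2 (.nd 4 (.nd 3 (.nd 2 (.nd 1 (.lf [1, 0, -4194304, 0, 0, 0, 0, 0, 0]) (.lf [1, 0, 0, 0,
    0, -1048576, 0, 0, 0])) (.nd 4 (.lf [1, 0, -16777216, 0, 0, 0, 0, 0, 0]) (.nd 0 (.lf [1, 0,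
    -117440512, 0, 0, 0, 0, -8388608, 0]) (.nd 1 (.lf [1, 0, -67108864, 0, 0, 0, 0, 0, 0]) (.lf
    [1, 0, -33554432, 0, 0, 0, 0, 0, 0]))))) (.nd 2 (.lf [1, 0, -201326592, 0, 0, -2097152, 0,
    -5242880, 0]) (.lf [1, 0, -184549376, 0, 0, 0, 0, -4194304, 0]))) (.lf [1, 0, -67108864, 0,
    0, 0, 0, 0, 0])) (.lf [1, 0, -201326592, 0, 0, -8388608, 0, 0, 0]))
    (by decide +kernel)

theorem YAf100_18 : G [(f1 lYA uYA (sE0 vYA) (pA lYA rYA eP0))] (ez0 :: eh0 :: sdYA) 5 [93, 11, 3, 100, 14] [100, 12, 15, 144, 16] [200, 20, 100, 400, 12] :=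
  G.leaf 221 354400013740426532820955604295216015857418240000000000000 [4, 6, 4, 4, 3]
    (.lf [1, 0, -3489660928, 0, 0, -67108864, 0, 0, 0])
    (by decide +kernel)

theorem YAf100_16 : G [(f1 lYA uYA (sE0 vYA) (pA lYA rYA eP0))] (ez0 :: eh0 :: sdYA) 5 [93, 11, 3, 100, 6] [100, 12, 15, 144, 8] [200, 20, 100, 400, 6] :=
  G.split 4 YAf100_17 YAf100_18

theorem YAf100_19 : G [(f1 lYA uYA (sE0 vYA) (pA lYA rYA eP0))] (ez0 :: eh0 :: sdYA) 5 [93, 11, 3, 144, 6] [100, 12, 15, 188, 8] [200, 20, 100, 400, 6] :=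
  G.leaf 220 48714848110183002672134734591737497445728256000000000000 [4, 6, 4, 4, 3]
    (.lf [1, 0, -11005853696, 0, 0, -134217728, 0, -469762048, 0])
    (by decide +kernel)

theorem YAf100_15 : G [(f1 lYA uYA (sE0 vYA) (pA lYA rYA eP0))] (ez0 :: eh0 :: sdYA) 5 [93, 11, 3, 50, 6] [100, 12, 15, 94, 8] [200, 20, 100, 200, 6] :=
  G.split 3 YAf100_16 YAf100_19

theorem YAf100_13 : G [(f1 lYA uYA (sE0 vYA) (pA lYA rYA eP0))] (ez0 :: eh0 :: sdYA) 5 [93, 5, 3, 50, 6] [100, 6, 15, 94, 8] [200, 10, 100, 200, 6] :=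
  G.split 1 YAf100_14 YAf100_15

theorem YAf100_1 : G [(f1 lYA uYA (sE0 vYA) (pA lYA rYA eP0))] (ez0 :: eh0 :: sdYA) 5 [93, 5, 3, 3, 6] [100, 6, 15, 47, 8] [200, 10, 100, 100, 6] :=
  G.split 3 YAf100_2 YAf100_13

theorem YAf100_20 : G [(f1 lYA uYA (sE0 vYA) (pA lYA rYA eP0))] (ez0 :: eh0 :: sdYA) 5 [93, 5, 3, 3, 8] [100, 6, 15, 47, 10] [200, 10, 100, 100, 6] :=
  G.leaf 206 2927793421490834199386010858455354572800000000000000 [4, 6, 4, 4, 3]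
    (.lf [1, -9126805504, 0, 0, 0, -100663296, 0, 0, 0])
    (by decide +kernel)

theorem YAf100 : G [(f1 lYA uYA (sE0 vYA) (pA lYA rYA eP0))] (ez0 :: eh0 :: sdYA) 5 [93, 5, 3, 3, 3] [100, 6, 15, 47, 5] [200, 10, 100, 100, 3] :=
  G.split 4 YAf100_1 YAf100_20

theorem YAf210_5 : G [(f2A lYA uYA (sE1 vYA) (pA lYA rYA eP0))] (ez1 :: eh0 :: sdYA) 5 [93, 5, 6, 12, 12] [100, 6, 18, 56, 14] [200, 10, 200, 400, 12] :=
  G.leaf 250 1072716247212578965203318987208481995203463348224000000000000 [4, 7, 4, 5, 3]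
    (.nd 2 (.nd 1 (.nd 4 (.nd 3 (.lf [1, 0, 0, 0, 0, 0, -524288, 0, 0]) (.lf [1, 0, 0, 0, 0, 0,
    0, 0, 0])) (.lf [1, 0, -16777216, 0, 0, 0, 0, 0, 0])) (.lf [1, 0, 0, 0, 0, 0, -786432, 0,
    0])) (.lf [1, -46137344, -104857600, 0, 0, 0, -1966080, 0, 0]))
    (by decide +kernel)

theorem YAf210_6 : G [(f2A lYA uYA (sE1 vYA) (pA lYA rYA eP0))] (ez1 :: eh0 :: sdYA) 5 [93, 5, 6, 56, 12] [100, 6, 18, 100, 14] [200, 10, 200, 400, 12] :=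
  G.leaf 256 1783684556212629368491783706721174360447416008704000000000000 [4, 7, 4, 5, 3]
    (.nd 1 (.lf [1, -33554432, -44040192, 0, 0, 0, 0, 0, 0]) (.nd 4 (.nd 2 (.nd 3 (.lf [1,
    -12582912, 0, 0, 0, 0, -262144, 0, 0]) (.lf [1, -16777216, 0, 0, 0, 0, 0, 0, 0])) (.lf [1,
    -67108864, 0, 0, 0, 0, 0, 0, 0])) (.lf [1, 0, 0, 0, 0, 0, -131072, 0, 0])))
    (by decide +kernel)

theorem YAf210_4 : G [(f2A lYA uYA (sE1 vYA) (pA lYA rYA eP0))] (ez1 :: eh0 :: sdYA) 5 [93, 5, 6, 6, 12] [100, 6, 18, 50, 14] [200, 10, 200, 200, 12] :=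
  G.split 3 YAf210_5 YAf210_6

theorem YAf210_7 : G [(f2A lYA uYA (sE1 vYA) (pA lYA rYA eP0))] (ez1 :: eh0 :: sdYA) 5 [93, 5, 6, 6, 14] [100, 6, 18, 50, 16] [200, 10, 200, 200, 12] :=
  G.leaf 231 52870157008745239186329697591463666480987504640000000000000 [4, 7, 4, 5, 3]
    (.lf [1, 0, -26843545600, 0, 0, 0, -385875968, 0, 0])
    (by decide +kernel)

theorem YAf210_3 : G [(f2A lYA uYA (sE1 vYA) (pA lYA rYA eP0))] (ez1 :: eh0 :: sdYA) 5 [93, 5, 6, 6, 6] [100, 6, 18, 50, 8] [200, 10, 200, 200, 6] :=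
  G.split 4 YAf210_4 YAf210_7

theorem YAf210_8 : G [(f2A lYA uYA (sE1 vYA) (pA lYA rYA eP0))] (ez1 :: eh0 :: sdYA) 5 [93, 5, 18, 6, 6] [100, 6, 30, 50, 8] [200, 10, 200, 200, 6] :=
  G.leaf 235 8592060965688949758656139961481552927240749056000000000000 [4, 7, 4, 5, 3]
    (.nd 3 (.lf [1, -1073741824, -2415919104, 0, 0, 0, -33554432, 0, 0]) (.lf [1, -3221225472,
    -6979321856, 0, 0, -67108864, -75497472, 0, 0]))
    (by decide +kernel)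

theorem YAf210_2 : G [(f2A lYA uYA (sE1 vYA) (pA lYA rYA eP0))] (ez1 :: eh0 :: sdYA) 5 [93, 5, 3, 6, 6] [100, 6, 15, 50, 8] [200, 10, 100, 200, 6] :=
  G.split 2 YAf210_3 YAf210_8

theorem YAf210_9 : G [(f2A lYA uYA (sE1 vYA) (pA lYA rYA eP0))] (ez1 :: eh0 :: sdYA) 5 [93, 5, 3, 6, 8] [100, 6, 15, 50, 10] [200, 10, 100, 200, 6] :=
  G.leaf 221 651263765293057131960018147239221366590799872000000000000 [4, 7, 4, 5, 3]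
    (.lf [1, 0, -2147483648, 0, 0, 0, -41943040, 0, 0])
    (by decide +kernel)

theorem YAf210_1 : G [(f2A lYA uYA (sE1 vYA) (pA lYA rYA eP0))] (ez1 :: eh0 :: sdYA) 5 [93, 5, 3, 6, 3] [100, 6, 15, 50, 5] [200, 10, 100, 200, 3] :=
  G.split 4 YAf210_2 YAf210_9

theorem YAf210_11 : G [(f2A lYA uYA (sE1 vYA) (pA lYA rYA eP0))] (ez1 :: eh0 :: sdYA) 5 [93, 5, 3, 100, 3] [100, 6, 15, 144, 5] [200, 10, 100, 400, 3] :=
  G.leaf 249 4129340796451216872566355847492096809246916608000000000000 [4, 7, 4, 5, 3]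
    (.nd 4 (.nd 1 (.lf [1, -16777216, -33554432, 0, 0, 0, 0, 0, 0]) (.nd 3 (.nd 4 (.lf [1, 0,
    -29360128, 0, 0, -1048576, 0, 0, 0]) (.lf [1, -67108864, -100663296, 0, 0, 0, 0, -4194304,
    0])) (.lf [1, -9699328, -13631488, 0, 0, -294912, 0, 0, 0]))) (.lf [1, 0, -201326592, 0, 0,
    -8388608, 0, 0, 0]))
    (by decide +kernel)

theorem YAf210_12 : G [(f2A lYA uYA (sE1 vYA) (pA lYA rYA eP0))] (ez1 :: eh0 :: sdYA) 5 [93, 5, 3, 144, 3] [100, 6, 15, 188, 5] [200, 10, 100, 400, 3] :=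
  G.leaf 223 5890776142474426530960719856500346892874416128000000000000 [4, 7, 4, 5, 3]
    (.lf [1, -318767104, -704643072, 0, 0, 0, 0, 0, 0])
    (by decide +kernel)

theorem YAf210_10 : G [(f2A lYA uYA (sE1 vYA) (pA lYA rYA eP0))] (ez1 :: eh0 :: sdYA) 5 [93, 5, 3, 50, 3] [100, 6, 15, 94, 5] [200, 10, 100, 200, 3] :=
  G.split 3 YAf210_11 YAf210_12

theorem YAf210 : G [(f2A lYA uYA (sE1 vYA) (pA lYA rYA eP0))] (ez1 :: eh0 :: sdYA) 5 [93, 5, 3, 3, 3] [100, 6, 15, 47, 5] [200, 10, 100, 100, 3] :=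
  G.split 3 YAf210_1 YAf210_10

theorem YBf111_1 : G [(f1 lYB uYB (sE1 vYB) eP1)] (ez1 :: eh1 :: sdYB) 5 [93, 5, 3, 6, 3] [100, 6, 15, 50, 5] [200, 10, 100, 200, 3] :=
  G.leaf 216 7856007040217316021877560349896474624000000000000000 [4, 6, 4, 4, 3]
    (.nd 4 (.lf [1, 0, 0, 0, 0, 0, 0, 0, -134217728]) (.nd 3 (.lf [1, 0, 0, 0, 0, 0, 0, 0,
    -2147483648]) (.lf [1, 0, 0, -536870912, 0, -10485760, 0, 0, -134217728])))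
    (by decide +kernel)

theorem YBf111_3 : G [(f1 lYB uYB (sE1 vYB) eP1)] (ez1 :: eh1 :: sdYB) 5 [93, 5, 3, 50, 6] [100, 6, 15, 94, 8] [200, 10, 100, 200, 6] :=
  G.leaf 208 91462055535076249117821387814097026809856000000000000 [4, 6, 4, 4, 3]
    (.nd 4 (.lf [1, -58720256, 0, 0, 0, 0, 0, 0, -16777216]) (.lf [1, 0, 0, 0, 0, 0, 0, 0, 0]))
    (by decide +kernel)

theorem YBf111_4 : G [(f1 lYB uYB (sE1 vYB) eP1)] (ez1 :: eh1 :: sdYB) 5 [93, 5, 3, 50, 8] [100, 6, 15, 94, 10] [200, 10, 100, 200, 6] :=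
  G.leaf 240 128169136438969996403542799681495091904512000000000000 [4, 6, 4, 4, 3]
    (.nd 4 (.nd 2 (.nd 3 (.lf [1, 0, 0, -369098752, 0, -7340032, 0, 0, -41943040]) (.nd 1 (.lf
    [1, 0, 0, -536870912, 0, 0, 0, 0, 0]) (.lf [1, 0, 0, -134217728, -67108864, 0, 0, 0, 0])))
    (.nd 3 (.nd 1 (.nd 3 (.lf [1, 0, 0, -603979776, 0, -20971520, 0, 0, 0]) (.lf [1, 0, 0,
    -369098752, 0, -12582912, 0, 0, 0])) (.lf [1, 0, 0, -134217728, 0, -8388608, 0, 0, 0])) (.nd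
    1 (.lf [1, 0, 0, -536870912, -167772160, -8388608, 0, 0, 0]) (.lf [1, 0, 0, -603979776, 0,
    -25165824, 0, 0, 0])))) (.lf [1, 0, 0, -8589934592, 0, -268435456, 0, 0, 0]))
    (by decide +kernel)

theorem YBf111_2 : G [(f1 lYB uYB (sE1 vYB) eP1)] (ez1 :: eh1 :: sdYB) 5 [93, 5, 3, 50, 3] [100, 6, 15, 94, 5] [200, 10, 100, 200, 3] :=
  G.split 4 YBf111_3 YBf111_4

theorem YBf111 : G [(f1 lYB uYB (sE1 vYB) eP1)] (ez1 :: eh1 :: sdYB) 5 [93, 5, 3, 3, 3] [100, 6, 15, 47, 5] [200, 10, 100, 100, 3] :=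
  G.split 3 YBf111_1 YBf111_2

theorem YBc1 : G [(c1B lYB uYB)] (sdYB) 5 [93, 5, 3, 3, 3] [100, 6, 15, 47, 5] [200, 10, 100, 100, 3] :=
  G.leaf 204 10450577445270013248512000000000000 [2, 2, 2, 3, 3]
    (.nd 4 (.nd 3 (.nd 2 (.lf [1, 0, 0, 0, 0, 0, -2147483648]) (.nd 3 (.nd 4 (.lf [1, 0, 0,
    -268435456, 0, 0, -5368709120]) (.nd 1 (.lf [1, 0, 0, 0, 0, 0, -3758096384]) (.lf [1, 0, 0,
    0, 0, 0, -17179869184]))) (.lf [1, 0, 0, 0, 0, 0, -8589934592]))) (.nd 4 (.nd 2 (.lf [1, 0,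
    0, -268435456, 0, 0, 0]) (.nd 1 (.nd 2 (.lf [1, 0, 0, 0, 0, 0, 0]) (.nd 3 (.nd 1 (.lf [1, 0,
    0, -536870912, 0, 0, 0]) (.lf [1, 0, 0, -402653184, 0, 0, 0])) (.lf [1, 0, -939524096,
    -469762048, 0, 0, 0]))) (.nd 2 (.lf [1, 0, 0, -469762048, 0, 0, 0]) (.lf [1, 0, 0,
    -5368709120, 0, 0, 0])))) (.nd 4 (.nd 2 (.lf [1, 0, 0, 0, 0, 0, -1073741824]) (.nd 3 (.nd 1
    (.nd 2 (.lf [1, 0, 0, -67108864, 0, 0, 0]) (.lf [1, 0, 0, -234881024, 0, 0, 0])) (.lf [1, 0,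
    0, -318767104, 0, 0, -1073741824])) (.nd 1 (.lf [1, 0, -939524096, -218103808, 0, 0, 0]) (.lf
    [1, 0, 0, -402653184, 0, 0, 0])))) (.nd 3 (.nd 2 (.nd 3 (.nd 4 (.lf [1, 0, 0, 0, 0, 0,
    -1073741824]) (.nd 1 (.lf [1, 0, 0, 0, 0, 0, 0]) (.nd 4 (.lf [1, 0, 0, 0, 0, 0, -1073741824])
    (.nd 3 (.nd 0 (.lf [1, 0, 0, 0, 0, 0, -1073741824]) (.lf [1, 0, 0, 0, 0, 0, -905969664]))
    (.lf [1, 0, 0, 0, 0, 0, -671088640]))))) (.lf [1, 0, 0, 0, 0, 0, -1073741824])) (.nd 3 (.nd 1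
    (.nd 4 (.lf [1, 0, 0, -134217728, 0, 0, 0]) (.nd 2 (.lf [1, 0, 0, 0, 0, 0, 0]) (.nd 3 (.lf
    [1, 0, 0, -67108864, 0, 0, 0]) (.nd 0 (.lf [1, 0, 0, -16777216, 0, 0, 0]) (.nd 4 (.lf [1, 0,
    0, -67108864, 0, 0, 0]) (.lf [1, 0, -478150656, -31457280, 0, 0, 0])))))) (.nd 4 (.lf [1, 0,
    0, -150994944, 0, 0, 0]) (.nd 2 (.nd 0 (.lf [1, 0, 0, -67108864, 0, 0, 0]) (.nd 3 (.nd 4 (.lf
    [1, 0, 0, -100663296, 0, 0, 0]) (.nd 4 (.lf [1, 0, 0, -33554432, 0, 0, -671088640]) (.lf [1,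
    0, 0, -16777216, 0, 0, -671088640]))) (.lf [1, 0, 0, -67108864, 0, 0, 0]))) (.lf [1, 0, 0,
    -1073741824, 0, 0, 0])))) (.nd 1 (.nd 4 (.lf [1, 0, 0, -117440512, 0, 0, -536870912]) (.nd 4
    (.lf [1, 0, 0, -67108864, 0, 0, -536870912]) (.nd 3 (.nd 0 (.lf [1, 0, 0, -16777216, 0, 0,
    0]) (.nd 2 (.lf [1, 0, 0, 0, 0, 0, -536870912]) (.lf [1, 0, 0, -67108864, 0, 0, 0]))) (.lf
    [1, 0, 0, -16777216, 0, 0, -805306368])))) (.nd 2 (.nd 4 (.lf [1, 0, 0, 0, 0, 0,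
    -2684354560]) (.lf [1, 0, 0, 0, 0, 0, -1610612736])) (.lf [1, 0, 0, -1073741824, 0, 0,
    0]))))) (.nd 2 (.nd 3 (.lf [1, 0, 0, 0, 0, 0, 0]) (.lf [1, 0, -1342177280, 0, 0, 0, 0])) (.nd
    3 (.nd 4 (.lf [1, 0, -771751936, -125829120, 0, 0, 0]) (.nd 1 (.nd 3 (.lf [1, 0, -1610612736,
    0, 0, 0, 0]) (.nd 4 (.lf [1, 0, -939524096, -50331648, 0, 0, 0]) (.nd 0 (.lf [1, 0,
    -536870912, 0, 0, 0, 0]) (.nd 2 (.lf [1, 0, 0, 0, 0, 0, 0]) (.lf [1, 0, -1040187392,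
    -8388608, 0, 0, 0]))))) (.lf [1, 0, 0, -83886080, 0, 0, 0]))) (.lf [1, 0, -34359738368, 0, 0,
    0, 0]))))))) (.nd 2 (.nd 4 (.lf [1, 0, 0, 0, 0, 0, -1073741824]) (.lf [1, -17515413504, 0, 0,
    0, 0, 0])) (.nd 4 (.nd 1 (.nd 4 (.lf [1, -51539607552, 0, -2147483648, 0, 0, 0]) (.nd 3 (.lf
    [1, 0, 0, 0, 0, 0, -9663676416]) (.lf [1, -34359738368, 0, -1610612736, 0, 0, 0]))) (.lf [1,
    -40802189312, 0, -1879048192, 0, 0, -1073741824])) (.lf [1, -120259084288, 0, -4294967296, 0,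
    0, 0]))))
    (by decide +kernel)

theorem YAv1 : G [(up vYA)] (sdYA) 5 [93, 5, 3, 3, 3] [100, 6, 15, 47, 5] [200, 10, 100, 100, 3] :=
  G.leaf 78 26767615744000000 [1, 2, 1, 1, 1]
    (.nd 4 (.lf [1, -81920, 0, 0, 0, 0, -106496]) (.lf [1, -1056768, 0, -19456, 0, -18432,
    -53248]))
    (by decide +kernel)

theorem XAcR : G [rXA] (sdXA) 5 [93, 4, 3, 3, 3] [100, 5, 26, 47, 5] [200, 10, 100, 100, 3] :=
  G.leaf 54 8415660083200000 [1, 2, 1, 1, 1]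
    (.lf [1, 0, 0, 0, 0, 0, 0])
    (by decide +kernel)

theorem XBl0 : G [lXB] (sdXB) 5 [93, 4, 3, 3, 3] [100, 5, 26, 47, 5] [200, 10, 100, 100, 3] :=
  G.leaf 70 5668731161600000 [1, 2, 1, 1, 1]
    (.lf [1, 0, -65536, 0, 0, 0, 0])
    (by decide +kernel)

theorem YAdn : G [edn] (sdYA) 5 [93, 5, 3, 3, 3] [100, 6, 15, 47, 5] [200, 10, 100, 100, 3] :=
  G.leaf 46 917568000000 [1, 2, 1, 1, 1]
    (.lf [1, 0, 0, 0, 0, 0, -24])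
    (by decide +kernel)

end Pool.Agent.Lib.MP_43bc59_co.ZM
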