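import Pool.Agent.Lib.MP_43bc59_co.M_E

set_option autoImplicit false
set_option maxRecDepth 100000

namespace Pool.Agent.Lib.MP_43bc59_co.ZM

open Bx

def lXA : E :=
  (.s (.s (.s (.s (.s (.a (.a (.a (.a (.a (.a (.m (.c 54580) eT) (.m (.c 68511) eA)) (.m (.c
  127496) eE)) (.m (.c 57299) eW)) (.m (.c 154317) (.m eH eW))) (.m (.c 425936) (.m eE eH))) (.m
  (.c 170789) (.m eA eH))) (.c 16547)) (.m (.c 360012) eH)) (.m (.c 90364) (.m eE eW))) (.m (.c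
  96770) (.m eA eW))) (.m (.c 337167) (.m eA eE)))

def uXA : E :=
  (.s (.s (.s (.s (.s (.a (.a (.a (.a (.a (.a (.c 104767) (.m (.c 68031) eT)) (.m (.c 52807) eH))
  (.m (.c 162077) (.m eE eW))) (.m (.c 205184) (.m eA eW))) (.m (.c 346488) (.m eE eH))) (.m (.c
  8104) (.m eA eH))) (.m (.c 184766) eA)) (.m (.c 63427) eE)) (.m (.c 99038) eW)) (.m (.c 107185)
  (.m eH eW))) (.m (.c 457309) (.m eA eE)))

def rXA : E :=
  (.s (.s (.s (.s (.s (.s (.a (.a (.a (.a (.a (.c 66994) (.m (.c 49712) eT)) (.m (.c 148684) eH))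
  (.m (.c 26810) (.m eE eW))) (.m (.c 132326) (.m eA eW))) (.m (.c 98512) (.m eA eE))) (.m (.c
  220912) eA)) (.m (.c 63178) eE)) (.m (.c 42396) eW)) (.m (.c 65067) (.m eH eW))) (.m (.c
  108296) (.m eE eH))) (.m (.c 63296) (.m eA eH)))

def vXA : E :=
  (.s (.s (.s (.s (.s (.s (.a (.a (.a (.a (.a (.c 158561) (.m (.c 40032) eT)) (.m (.c 245287)
  eH)) (.m (.c 25652) (.m eE eW))) (.m (.c 195151) (.m eA eW))) (.m (.c 243906) (.m eA eE))) (.m
  (.c 414360) eA)) (.m (.c 131795) eE)) (.m (.c 62255) eW)) (.m (.c 98081) (.m eH eW))) (.m (.c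
  226882) (.m eE eH))) (.m (.c 62683) (.m eA eH)))

def lXB : E :=
  (.s (.s (.s (.s (.s (.a (.a (.a (.a (.a (.a (.m (.c 76256) eT) (.m (.c 36674) eA)) (.m (.c
  22146) eE)) (.m (.c 15771) eW)) (.m (.c 194308) (.m eH eW))) (.m (.c 31189) (.m eA eH))) (.m
  (.c 27726) (.m eA eE))) (.c 4497)) (.m (.c 281540) eH)) (.m (.c 28641) (.m eE eW))) (.m (.c
  55548) (.m eA eW))) (.m (.c 103333) (.m eE eH)))

def uXB : E :=
  (.s (.s (.s (.s (.s (.a (.a (.a (.a (.a (.a (.c 43071) (.m (.c 140518) eT)) (.m (.c 29889) eA))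
  (.m (.c 86847) (.m eE eW))) (.m (.c 302016) (.m eH eW))) (.m (.c 4236) (.m eA eW))) (.m (.c
  23599) (.m eE eH))) (.m (.c 73715) eE)) (.m (.c 400480) eH)) (.m (.c 65261) eW)) (.m (.c 54469)
  (.m eA eH))) (.m (.c 99153) (.m eA eE)))

def vXB : E :=
  (.s (.s (.s (.s (.s (.s (.s (.a (.a (.a (.a (.m (.c 137789) eT) (.m (.c 77924) eA)) (.m (.c
  46370) eE)) (.m (.c 10203) eW)) (.m (.c 245039) (.m eH eW))) (.c 21432)) (.m (.c 339541) eH))
  (.m (.c 57113) (.m eE eW))) (.m (.c 72450) (.m eA eW))) (.m (.c 83898) (.m eE eH))) (.m (.c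
  19644) (.m eA eH))) (.m (.c 4243) (.m eA eE)))

def lYA : E :=
  (.s (.s (.s (.s (.s (.a (.a (.a (.a (.a (.a (.m (.c 67512) eT) (.m (.c 183080) eA)) (.m (.c
  261818) eE)) (.m (.c 148905) eW)) (.m (.c 243536) (.m eH eW))) (.m (.c 252805) (.m eE eH))) (.m
  (.c 215730) (.m eA eH))) (.c 92171)) (.m (.c 457041) eH)) (.m (.c 250372) (.m eE eW))) (.m (.c
  260630) (.m eA eW))) (.m (.c 224352) (.m eA eE)))

def uYA : E :=
  (.s (.s (.s (.s (.s (.s (.a (.a (.a (.a (.a (.c 30774) (.m (.c 89546) eT)) (.m (.c 333583) eE))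
  (.m (.c 52426) eH)) (.m (.c 147259) (.m eA eW))) (.m (.c 526509) (.m eE eH))) (.m (.c 85229)
  eA)) (.m (.c 53336) eW)) (.m (.c 17653) (.m eE eW))) (.m (.c 21109) (.m eH eW))) (.m (.c
  221445) (.m eA eH))) (.m (.c 940414) (.m eA eE)))

def rYA : E :=
  (.s (.s (.s (.s (.s (.s (.a (.a (.a (.a (.a (.c 137119) (.m (.c 18277) eT)) (.m (.c 202334)
  eH)) (.m (.c 3302) (.m eE eW))) (.m (.c 236657) (.m eA eW))) (.m (.c 71023) (.m eA eE))) (.m
  (.c 375086) eA)) (.m (.c 56282) eE)) (.m (.c 75093) eW)) (.m (.c 115239) (.m eH eW))) (.m (.c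
  15355) (.m eE eH))) (.m (.c 38761) (.m eA eH)))

def vYA : E :=
  (.s (.s (.s (.s (.s (.s (.s (.a (.a (.a (.a (.c 263410) (.m (.c 14690) eT)) (.m (.c 405590)
  eH)) (.m (.c 403400) (.m eA eW))) (.m (.c 252536) (.m eA eE))) (.m (.c 698064) eA)) (.m (.c
  106531) eE)) (.m (.c 120972) eW)) (.m (.c 56270) (.m eE eW))) (.m (.c 225101) (.m eH eW))) (.m
  (.c 92627) (.m eE eH))) (.m (.c 73703) (.m eA eH)))

def lYB : E :=
  (.s (.s (.s (.s (.s (.s (.a (.a (.a (.a (.a (.m (.c 76270) eT) (.m (.c 458263) eA)) (.m (.c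
  457184) eE)) (.m (.c 304168) eW)) (.m (.c 153302) (.m eH eW))) (.m (.c 20917) (.m eA eH))) (.c
  291319)) (.m (.c 246323) eH)) (.m (.c 466660) (.m eE eW))) (.m (.c 473746) (.m eA eW))) (.m (.c
  35042) (.m eE eH))) (.m (.c 6333) (.m eA eE)))

def uYB : E :=
  (.s (.s (.s (.s (.s (.s (.s (.a (.a (.a (.a (.m (.c 162295) eT) (.m (.c 300315) eA)) (.m (.c
  273214) (.m eE eW))) (.m (.c 315852) (.m eH eW))) (.m (.c 108694) (.m eE eH))) (.c 72991)) (.m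
  (.c 195246) eE)) (.m (.c 297932) eH)) (.m (.c 5137) eW)) (.m (.c 175339) (.m eA eW))) (.m (.c
  290539) (.m eA eH))) (.m (.c 276057) (.m eA eE)))

def vYB : E :=
  (.s (.s (.s (.s (.s (.s (.a (.a (.a (.a (.a (.c 11754) (.m (.c 152331) eT)) (.m (.c 91785) eA))
  (.m (.c 196022) (.m eE eW))) (.m (.c 293850) (.m eH eW))) (.m (.c 68290) (.m eE eH))) (.m (.c
  175304) eE)) (.m (.c 384510) eH)) (.m (.c 36228) eW)) (.m (.c 58550) (.m eA eW))) (.m (.c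
  78030) (.m eA eH))) (.m (.c 161247) (.m eA eE)))

end Pool.Agent.Lib.MP_43bc59_co.ZM
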