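import Pool.Agent.Lib.MP_43bc59_co.M_K

set_option autoImplicit false

namespace Pool.Agent.Lib.MP_43bc59_co.ZM

open Bx

/-- values of the named expressions -/
structure At (X : ℕ → ℝ) (θ a e h W p d al z b r : ℝ) : Prop where
  t : eT.val X = θ
  a' : eA.val X = a
  e' : eE.val X = e
  h' : eH.val X = h
  w : eW.val X = W
  m : eM.val X = 1 - a
  p' : eP.val X = p
  d' : eD.val X = d
  v : eV.val X = θ * al
  z' : eZ.val X = z * (1 - a)
  b' : eB.val X = b * (1 - a)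
  g : eG.val X = (1 - a) * h
  r' : eR.val X = θ * r
  u : eU.val X = W * ((1 - e) * e)

lemma at_of {θ a e h W p d al z b r : ℝ} (hp : p = 1 - e - a) (hd : d = a - h)
    (hal : θ * al = a * (1 - a)) (hz : z * (1 - a) = W * p + (2 - W) * a * e) (hb : b = a - θ * z)
    (hr : r = al - W * p) : At (fun j => [θ, a, e, h, W].getD j 0) θ a e h W p d al z b r := by
  refine ⟨rfl, rfl, rfl, rfl, rfl, ?_, ?_, ?_, ?_, ?_, ?_, ?_, ?_, ?_⟩ <;>
    simp only [eT, eA, eE, eH, eW, eM, eP, eD, eV, eZ, eB, eG, eR, eU, E.val, List.getD_cons_zero,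
      List.getD_cons_succ, Int.cast_one, Int.cast_ofNat]
  · exact hp.symm
  · exact hd.symm
  · exact hal.symm
  · rw [hz, hp]
  · rw [← hp, ← hz, hb]; ring
  · rw [← hp, ← hal, hr]; ring

lemma one {P : E} {cs : List E} {lo hi q : List ℕ} {vs : List ℝ} (g : G [P] cs 5 lo hi q)
    (hl : vs.length = 5) (bx : InBox (lo.map (fun n : ℕ => (n : ℤ))) (hi.map (fun n : ℕ => (n : ℤ)))
      (q.map (fun n : ℕ => (n : ℤ))) vs) (hc : ∀ C ∈ cs, 0 ≤ C.val (fun j => vs.getD j 0)) :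
    0 ≤ P.val (fun j => vs.getD j 0) := by
  obtain ⟨Q, hQ, k⟩ := g vs hl bx hc
  rwa [List.mem_singleton.1 hQ] at k

lemma pos_of {s v : ℝ} (s0 : 0 < s) (k : 0 ≤ s * v) : 0 ≤ v := nonneg_of_mul_nonneg_right k s0 

section
variable {X : ℕ → ℝ} {θ a e h W p d al z b r : ℝ} (t : At X θ a e h W p d al z b r)
  {L U R V T P D Y : E} {l u ρ v η π δ y : ℝ}
include t

lemma sS_val (hl : L.val X = 100000 * l) : (sS L).val X = 10 ^ 10 * (l * (2 * θ - l)) := by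
  simp only [sS, E.val, t.t, hl, Int.cast_ofNat]; ring

lemma sC_val (hl : L.val X = 100000 * l) (hr : R.val X = 100000 * ρ) :
    (sC L R).val X = 10 ^ 10 * (l * (2 * θ - l) - ρ) := by
  simp only [sC, E.val, sS_val t hl, hr, Int.cast_ofNat]; ring

lemma sN_val (hu : U.val X = 100000 * u) :
    (sN U).val X = 10 ^ 10 * (u * (2 * θ - u) * (W - (2 - W) * h)) := by
  simp only [sN, E.val, sS_val t hu, t.w, t.h', Int.cast_ofNat]; ring

lemma s0_val (hl : L.val X = 100000 * l) : (s0 L).val X = 10 ^ 10 * (1 - a) ^ 2 * θ ^ 2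
    * ((1 - θ) * al - W * p ^ 2 - r ^ 2 - W * ((1 - e) * e) * (l * (2 - l))) := by
  simp only [s0, E.val, t.t, t.m, t.v, t.w, t.p', t.r', t.u, hl, Int.cast_ofNat, Int.cast_one]; ring

lemma sY_val (hu : U.val X = 100000 * u) : (sY U).val X = 10 ^ 10 * (1 - a) ^ 2
    * ((1 - h) * (u * (2 * (d - b) - u * (z - h))) - d ^ 2) := by
  simp only [sY, E.val, t.m, t.h', t.d', t.b', t.z', hu, Int.cast_ofNat, Int.cast_one]; ring

lemma sE0_val : (sE0 V).val X = 10 ^ 10 * (1 - a) ^ 2 * (2 * b + 0) := by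
  simp only [sE0, E.val, t.m, t.b', Int.cast_ofNat]; ring

lemma sE1_val (hv : V.val X = 100000 * v) :
    (sE1 V).val X = 10 ^ 10 * (1 - a) ^ 2 * (2 * b + v * (z - 1)) := by
  simp only [sE1, E.val, t.m, t.b', t.z', hv, Int.cast_ofNat]; ring

lemma eP0_val : eP0.val X = 10 ^ 10 * (1 - a) ^ 2 * (((1 - a) * h) * (2 * b - (1 - a) * h)) := by
  simp only [eP0, E.val, t.m, t.b', t.g, Int.cast_ofNat]; ring

lemma eP1_val : eP1.val X = 10 ^ 10 * (1 - a) ^ 2 * (b * b) := by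
  simp only [eP1, E.val, t.b', Int.cast_ofNat]; ring

lemma pA_val (hl : L.val X = 100000 * l) (hr : R.val X = 100000 * ρ)
    (hP : P.val X = 10 ^ 10 * (1 - a) ^ 2 * π) : (pA L R P).val X
      = 10 ^ 10 * (1 - a) ^ 2 * (π + W * ((1 - e) * e) * (l * (2 * θ - l) - ρ)) := by
  simp only [pA, E.val, t.m, t.u, sC_val t hl hr, hP]; ring

lemma f1_val (hl : L.val X = 100000 * l) (hu : U.val X = 100000 * u)
    (hT : T.val X = 10 ^ 10 * (1 - a) ^ 2 * η) (hP : P.val X = 10 ^ 10 * (1 - a) ^ 2 * π) :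
    (f1 L U T P).val X = 10 ^ 10 * (1 - a) ^ 2 * θ ^ 2
      * ((1 - θ) * al - W * p ^ 2 - r ^ 2 - W * ((1 - e) * e) * (l * (2 - l))
        + ((1 - h) * (u * (2 * (d - b) - u * (z - h))) - d ^ 2) + π - η * (al - d)) := by
  simp only [f1, E.val, s0_val t hl, sY_val t hu, hT, hP, t.t, t.v, t.d']; ring

lemma f2A_val (hl : L.val X = 100000 * l) (hu : U.val X = 100000 * u)
    (hT : T.val X = 10 ^ 10 * (1 - a) ^ 2 * η) (hP : P.val X = 10 ^ 10 * (1 - a) ^ 2 * π) :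
    (f2A L U T P).val X = 10 ^ 10 * (1 - a) ^ 2 * θ ^ 2
      * ((d - 1 * ((1 - a) * h)) * ((1 - θ) * al - W * p ^ 2 - r ^ 2
          - W * ((1 - e) * e) * (l * (2 - l)) + 2 * π)
        + (al - 2 * 1 * ((1 - a) * h))
          * (((1 - h) * (u * (2 * (d - b) - u * (z - h))) - d ^ 2) - π)
        - 1 * (η * ((1 - a) * h) * (2 * d - al))) := by
  simp only [f2A, E.val, s0_val t hl, sY_val t hu, hT, hP, t.t, t.v, t.d', t.g, Int.cast_ofNat]
  ring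

lemma f2B_val (hl : L.val X = 100000 * l) (hu : U.val X = 100000 * u)
    (hP : P.val X = 10 ^ 10 * (1 - a) ^ 2 * π) :
    (f2B L U P).val X = 10 ^ 10 * (1 - a) ^ 2 * θ ^ 2
      * ((d - 0 * ((1 - a) * h)) * ((1 - θ) * al - W * p ^ 2 - r ^ 2
          - W * ((1 - e) * e) * (l * (2 - l)) + 2 * π)
        + (al - 2 * 0 * ((1 - a) * h))
          * (((1 - h) * (u * (2 * (d - b) - u * (z - h))) - d ^ 2) - π)
        - 0 * (η * ((1 - a) * h) * (2 * d - al))) := by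
  simp only [f2B, E.val, s0_val t hl, sY_val t hu, hP, t.t, t.v, t.d']; ring

lemma up_val (hl : L.val X = 100000 * l) : (up L).val X = 100000 * (θ - l) := by
  simp only [up, E.val, t.t, hl, Int.cast_ofNat]; ring

lemma c2_val (hy : Y.val X = 10 ^ 10 * y) (hv : V.val X = 100000 * v) (hD : D.val X = θ * δ) :
    (c2 Y V D).val X = 10 ^ 10 * θ * (y * W - v * (2 * θ - v) * (W - (2 - W) * (a - δ))) := by
  simp only [c2, E.val, sS_val t hv, hy, hD, t.t, t.w, t.a', Int.cast_ofNat]; ring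

lemma c3_val (hv : V.val X = 100000 * v) (hD : D.val X = θ * δ) :
    (c3 V D).val X = 100000 * θ * (1 - a) * (v * (z - a + δ) - (δ - b)) := by
  simp only [c3, E.val, hv, hD, t.t, t.z', t.a', t.m, t.b', Int.cast_ofNat]; ring

lemma za_of (a0 : 0 < a) (a1 : a < 1) (k : 0 ≤ eza.val X) : a < z := by
  simp only [eza, E.val, t.z', t.a', t.m, Int.cast_ofNat, Int.cast_one] at k
  by_contra f
  have := mul_nonneg (sub_nonneg.2 (not_lt.1 f)) (sub_pos.2 a1).le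
  linarith

lemma ez0_of (a1 : a < 1) (k : z ≤ 1) : 0 ≤ ez0.val X := by
  simp only [ez0, E.val, t.z', t.m]
  linarith [mul_nonneg (sub_nonneg.2 k) (sub_pos.2 a1).le]

lemma ez1_of (a1 : a < 1) (k : 1 ≤ z) : 0 ≤ ez1.val X := by
  simp only [ez1, E.val, t.z', t.m]
  linarith [mul_nonneg (sub_nonneg.2 k) (sub_pos.2 a1).le]

lemma eh0_of (a1 : a < 1) (k : (1 - a) * h ≤ b) : 0 ≤ eh0.val X := by
  simp only [eh0, E.val, t.b', t.m, t.g]
  linarith [mul_nonneg (sub_nonneg.2 k) (sub_pos.2 a1).le]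

lemma eh1_of (a1 : a < 1) (k : b ≤ (1 - a) * h) : 0 ≤ eh1.val X := by
  simp only [eh1, E.val, t.b', t.m, t.g]
  linarith [mul_nonneg (sub_nonneg.2 k) (sub_pos.2 a1).le]

end

variable {ι : Type} [Fintype ι] [DecidableEq ι] {a θ : ℝ} {w g A Φ : ι → ℝ} {c Γ : ι → ι → ℝ}

/-- a slab with a clean share of the pivot -/
theorem slabA (L U R V : E) {sd : List E} {lo hi q : List ℕ}
    (gc0 : G [c0 L U R] sd 5 lo hi q) (gcC : G [sC L R] sd 5 lo hi q) (gcR : G [R] sd 5 lo hi q)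
    (gc1 : G [c1A L U R] sd 5 lo hi q) (gc2 : G [c2 (kr R) V eDA] sd 5 lo hi q)
    (gc3 : G [c3 V eDA] sd 5 lo hi q) (gdn : G [edn] sd 5 lo hi q) (gza : G [eza] sd 5 lo hi q)
    (gl0 : G [L] sd 5 lo hi q) (gl1 : G [up L] sd 5 lo hi q) (gu0 : G [U] sd 5 lo hi q)
    (gu1 : G [up U] sd 5 lo hi q) (gv0 : G [V] sd 5 lo hi q) (gv1 : G [up V] sd 5 lo hi q)
    (g100 : G [f1 L U (sE0 V) (pA L R eP0)] (ez0 :: eh0 :: sd) 5 lo hi q)
    (g200 : G [f2A L U (sE0 V) (pA L R eP0)] (ez0 :: eh0 :: sd) 5 lo hi q)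
    (g101 : G [f1 L U (sE0 V) (pA L R eP1)] (ez0 :: eh1 :: sd) 5 lo hi q)
    (g201 : G [f2A L U (sE0 V) (pA L R eP1)] (ez0 :: eh1 :: sd) 5 lo hi q)
    (g110 : G [f1 L U (sE1 V) (pA L R eP0)] (ez1 :: eh0 :: sd) 5 lo hi q)
    (g210 : G [f2A L U (sE1 V) (pA L R eP0)] (ez1 :: eh0 :: sd) 5 lo hi q)
    (g111 : G [f1 L U (sE1 V) (pA L R eP1)] (ez1 :: eh1 :: sd) 5 lo hi q)
    (g211 : G [f2A L U (sE1 V) (pA L R eP1)] (ez1 :: eh1 :: sd) 5 lo hi q)
    (H : Hyp a θ w g A Φ c Γ) (x y : ι) (hx : a < g x) (hy : g y < a)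
    (ymin : ∀ j, g y ≤ g j) (xmax : ∀ j, g j ≤ g x) (W2 : w x ≤ 2) (h0 : 0 < g y)
    (cut : a * (1 - a) ≤ 2 * θ * (a - g y))
    (bx : InBox (lo.map (fun n : ℕ => (n : ℤ))) (hi.map (fun n : ℕ => (n : ℤ)))
      (q.map (fun n : ℕ => (n : ℤ))) [θ, a, 1 - g x, g y, w x])
    (hs : ∀ C ∈ sd, 0 ≤ C.val (fun j => [θ, a, 1 - g x, g y, w x].getD j 0)) :
    Goal a θ w g Φ c Γ := by
  have th := H.th0
  have m0 := sub_pos.2 H.a1
  obtain ⟨al, hal⟩ : ∃ al, θ * al = a * (1 - a) := ⟨_, mul_div_cancel₀ _ th.ne'⟩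
  obtain ⟨z, hz⟩ : ∃ z, z * (1 - a) = w x * (1 - (1 - g x) - a) + (2 - w x) * a * (1 - g x) :=
    ⟨_, div_mul_cancel₀ _ m0.ne'⟩
  have t := at_of (h := g y) rfl rfl hal hz rfl rfl
  set X : ℕ → ℝ := fun j => [θ, a, 1 - g x, g y, w x].getD j 0 with hX
  have k5 : ∀ Q : E, ∃ s, Q.val X = 100000 * s := fun Q => ⟨Q.val X / 100000, by ring⟩
  obtain ⟨l, hl⟩ := k5 L
  obtain ⟨u, hu⟩ := k5 U
  obtain ⟨ρ, hr⟩ := k5 R
  obtain ⟨v, hv⟩ := k5 V
  have o : ∀ {P : E}, G [P] sd 5 lo hi q → 0 ≤ P.val X := fun k => one k rfl bx hs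
  have o2 : ∀ {P C D : E}, G [P] (C :: D :: sd) 5 lo hi q → 0 ≤ C.val X → 0 ≤ D.val X →
      0 ≤ P.val X := fun k k1 k2 => one k rfl bx
        (List.forall_mem_cons.2 ⟨k1, List.forall_mem_cons.2 ⟨k2, hs⟩⟩)
  have dA : eDA.val X = θ * (al - (a - g y)) := by
    simp only [eDA, E.val, t.v, t.t, t.d']; ring
  have kR : (kr R).val X = 10 ^ 10 * ρ := by simp only [kr, E.val, hr, Int.cast_ofNat]; ring
  have s0 : (0 : ℝ) < 10 ^ 10 * (1 - a) ^ 2 * θ ^ 2 := by positivity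
  have b1 := o gc0
  have b2 := o gcC
  have b3 := o gcR
  have b4 := o gc1
  have b5 := o gc2
  have b6 := o gc3
  have b7 := o gdn
  have b8 := o gl0
  have b9 := o gl1
  have b10 := o gu0
  have b11 := o gu1
  have b12 := o gv0
  have b13 := o gv1
  simp only [c0, c1A, edn, E.val, sN_val t hu, sC_val t hl hr, sS_val t hl, t.w, t.e', t.d', t.g,
    Int.cast_ofNat, Int.cast_one] at b1 b4 b7
  rw [sC_val t hl hr] at b2
  rw [c2_val t kR hv dA] at b5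
  rw [c3_val t hv dA] at b6
  rw [up_val t hl] at b9
  rw [up_val t hu] at b11
  rw [up_val t hv] at b13
  have b5' := pos_of (by positivity) b5
  have b6' := pos_of (by positivity) b6
  refine H.pivotC x y hx hy ymin xmax rfl rfl W2 rfl rfl rfl hal hz rfl rfl l
    (l * (2 * θ - l) - ρ) u v (al - (a - g y)) 1 h0 (za_of t H.a0 H.a1 (o gza))
    (by linarith only [b8, hl]) (by linarith only [b9]) (by linarith only [b10, hu])
    (by linarith only [b11]) (by linarith only [b12, hv]) (by linarith only [b13])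
    (by linarith only [b2]) (by linarith only [b3, hr])
    (Or.inr (le_of_mul_le_mul_left (by linarith only [cut, hal]) th)) (Or.inr rfl)
    (by linarith only [b7]) (by linarith only [b1]) (by linarith only [b4]) (Or.inr le_rfl)
    (by linarith only [b6']) (by linarith only [b5']) ?_
  rintro J Ψ (⟨j1, rfl⟩ | ⟨j1, rfl⟩) (⟨j2, rfl⟩ | ⟨j2, rfl⟩) S Y P rfl rfl rfl
  · exact ⟨pos_of s0 (f1_val t hl hu (sE0_val t) (pA_val t hl hr (eP0_val t)) ▸
        o2 g100 (ez0_of t H.a1 j1) (eh0_of t H.a1 j2)),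
      pos_of s0 (f2A_val t hl hu (sE0_val t) (pA_val t hl hr (eP0_val t)) ▸
        o2 g200 (ez0_of t H.a1 j1) (eh0_of t H.a1 j2))⟩
  · exact ⟨pos_of s0 (f1_val t hl hu (sE0_val t) (pA_val t hl hr (eP1_val t)) ▸
        o2 g101 (ez0_of t H.a1 j1) (eh1_of t H.a1 j2)),
      pos_of s0 (f2A_val t hl hu (sE0_val t) (pA_val t hl hr (eP1_val t)) ▸
        o2 g201 (ez0_of t H.a1 j1) (eh1_of t H.a1 j2))⟩
  · exact ⟨pos_of s0 (f1_val t hl hu (sE1_val t hv) (pA_val t hl hr (eP0_val t)) ▸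
        o2 g110 (ez1_of t H.a1 j1) (eh0_of t H.a1 j2)),
      pos_of s0 (f2A_val t hl hu (sE1_val t hv) (pA_val t hl hr (eP0_val t)) ▸
        o2 g210 (ez1_of t H.a1 j1) (eh0_of t H.a1 j2))⟩
  · exact ⟨pos_of s0 (f1_val t hl hu (sE1_val t hv) (pA_val t hl hr (eP1_val t)) ▸
        o2 g111 (ez1_of t H.a1 j1) (eh1_of t H.a1 j2)),
      pos_of s0 (f2A_val t hl hu (sE1_val t hv) (pA_val t hl hr (eP1_val t)) ▸
        o2 g211 (ez1_of t H.a1 j1) (eh1_of t H.a1 j2))⟩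

/-- a slab without a clean share of the pivot -/
theorem slabB (L U V : E) {sd : List E} {lo hi q : List ℕ}
    (gc1 : G [c1B L U] sd 5 lo hi q) (gc2 : G [c2 (sS L) V eDB] sd 5 lo hi q)
    (gc3 : G [c3 V eDB] sd 5 lo hi q) (gza : G [eza] sd 5 lo hi q)
    (gl0 : G [L] sd 5 lo hi q) (gl1 : G [up L] sd 5 lo hi q) (gu0 : G [U] sd 5 lo hi q)
    (gu1 : G [up U] sd 5 lo hi q) (gv0 : G [V] sd 5 lo hi q) (gv1 : G [up V] sd 5 lo hi q)
    (g100 : G [f1 L U (sE0 V) eP0] (ez0 :: eh0 :: sd) 5 lo hi q)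
    (g20 : G [f2B L U eP0] (eh0 :: sd) 5 lo hi q)
    (g101 : G [f1 L U (sE0 V) eP1] (ez0 :: eh1 :: sd) 5 lo hi q)
    (g21 : G [f2B L U eP1] (eh1 :: sd) 5 lo hi q)
    (g110 : G [f1 L U (sE1 V) eP0] (ez1 :: eh0 :: sd) 5 lo hi q)
    (g111 : G [f1 L U (sE1 V) eP1] (ez1 :: eh1 :: sd) 5 lo hi q)
    (H : Hyp a θ w g A Φ c Γ) (x y : ι) (hx : a < g x) (hy : g y < a)
    (ymin : ∀ j, g y ≤ g j) (xmax : ∀ j, g j ≤ g x) (W2 : w x ≤ 2) (h0 : 0 < g y)
    (bx : InBox (lo.map (fun n : ℕ => (n : ℤ))) (hi.map (fun n : ℕ => (n : ℤ)))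
      (q.map (fun n : ℕ => (n : ℤ))) [θ, a, 1 - g x, g y, w x])
    (hs : ∀ C ∈ sd, 0 ≤ C.val (fun j => [θ, a, 1 - g x, g y, w x].getD j 0)) :
    Goal a θ w g Φ c Γ := by
  have th := H.th0
  have m0 := sub_pos.2 H.a1
  obtain ⟨al, hal⟩ : ∃ al, θ * al = a * (1 - a) := ⟨_, mul_div_cancel₀ _ th.ne'⟩
  obtain ⟨z, hz⟩ : ∃ z, z * (1 - a) = w x * (1 - (1 - g x) - a) + (2 - w x) * a * (1 - g x) :=
    ⟨_, div_mul_cancel₀ _ m0.ne'⟩
  have t := at_of (h := g y) rfl rfl hal hz rfl rfl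
  set X : ℕ → ℝ := fun j => [θ, a, 1 - g x, g y, w x].getD j 0 with hX
  have k5 : ∀ Q : E, ∃ s, Q.val X = 100000 * s := fun Q => ⟨Q.val X / 100000, by ring⟩
  obtain ⟨l, hl⟩ := k5 L
  obtain ⟨u, hu⟩ := k5 U
  obtain ⟨v, hv⟩ := k5 V
  have o : ∀ {P : E}, G [P] sd 5 lo hi q → 0 ≤ P.val X := fun k => one k rfl bx hs
  have o1 : ∀ {P C : E}, G [P] (C :: sd) 5 lo hi q → 0 ≤ C.val X → 0 ≤ P.val X :=
    fun k k1 => one k rfl bx (List.forall_mem_cons.2 ⟨k1, hs⟩)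
  have o2 : ∀ {P C D : E}, G [P] (C :: D :: sd) 5 lo hi q → 0 ≤ C.val X → 0 ≤ D.val X →
      0 ≤ P.val X := fun k k1 k2 => one k rfl bx
        (List.forall_mem_cons.2 ⟨k1, List.forall_mem_cons.2 ⟨k2, hs⟩⟩)
  have dB : eDB.val X = θ * (a - g y) := by simp only [eDB, E.val, t.t, t.d']
  have s0 : (0 : ℝ) < 10 ^ 10 * (1 - a) ^ 2 * θ ^ 2 := by positivity
  have b4 := o gc1
  have b5 := o gc2
  have b6 := o gc3
  have b8 := o gl0
  have b9 := o gl1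
  have b10 := o gu0
  have b11 := o gu1
  have b12 := o gv0
  have b13 := o gv1
  simp only [c1B, E.val, sN_val t hu, sS_val t hl, t.w] at b4
  rw [c2_val t (sS_val t hl) hv dB] at b5
  rw [c3_val t hv dB] at b6
  rw [up_val t hl] at b9
  rw [up_val t hu] at b11
  rw [up_val t hv] at b13
  have b5' := pos_of (by positivity) b5
  have b6' := pos_of (by positivity) b6
  have l0 : 0 ≤ l := by linarith only [b8, hl]
  have u0 : 0 ≤ u := by linarith only [b10, hu]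
  have q0 : eP0.val X = 10 ^ 10 * (1 - a) ^ 2 * (((1 - a) * g y) * (2 * (a - θ * z) - (1 - a) * g y)
      + w x * ((1 - (1 - g x)) * (1 - g x)) * 0) := by rw [eP0_val t, mul_zero, add_zero]
  have q1 : eP1.val X = 10 ^ 10 * (1 - a) ^ 2 * ((a - θ * z) * (a - θ * z)
      + w x * ((1 - (1 - g x)) * (1 - g x)) * 0) := by rw [eP1_val t, mul_zero, add_zero]
  refine H.pivotC x y hx hy ymin xmax rfl rfl W2 rfl rfl rfl hal hz rfl rfl l
    0 u v (a - g y) 0 h0 (za_of t H.a0 H.a1 (o gza))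
    l0 (by linarith only [b9]) u0
    (by linarith only [b11]) (by linarith only [b12, hv]) (by linarith only [b13])
    le_rfl (mul_nonneg l0 (by linarith only [b9, th])) (Or.inl rfl) (Or.inl rfl)
    (by linarith only [hy]) ?_ (by linarith only [b4]) (Or.inl le_rfl)
    (by linarith only [b6']) (by linarith only [b5']) ?_
  · rw [zero_mul]
    exact mul_nonneg (mul_nonneg u0 (by linarith only [b11, th]))
      (slope_nonneg (H.w1 x) (H.g0 y) (H.g1 y))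
  rintro J Ψ (⟨j1, rfl⟩ | ⟨j1, rfl⟩) (⟨j2, rfl⟩ | ⟨j2, rfl⟩) S Y P rfl rfl rfl
  · exact ⟨pos_of s0 (f1_val t hl hu (sE0_val t) q0 ▸
        o2 g100 (ez0_of t H.a1 j1) (eh0_of t H.a1 j2)),
      pos_of s0 (f2B_val t hl hu q0 ▸ o1 g20 (eh0_of t H.a1 j2))⟩
  · exact ⟨pos_of s0 (f1_val t hl hu (sE0_val t) q1 ▸
        o2 g101 (ez0_of t H.a1 j1) (eh1_of t H.a1 j2)),
      pos_of s0 (f2B_val t hl hu q1 ▸ o1 g21 (eh1_of t H.a1 j2))⟩
  · exact ⟨pos_of s0 (f1_val t hl hu (sE1_val t hv) q0 ▸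
        o2 g110 (ez1_of t H.a1 j1) (eh0_of t H.a1 j2)),
      pos_of s0 (f2B_val t hl hu q0 ▸ o1 g20 (eh0_of t H.a1 j2))⟩
  · exact ⟨pos_of s0 (f1_val t hl hu (sE1_val t hv) q1 ▸
        o2 g111 (ez1_of t H.a1 j1) (eh1_of t H.a1 j2)),
      pos_of s0 (f2B_val t hl hu q1 ▸ o1 g21 (eh1_of t H.a1 j2))⟩

end Pool.Agent.Lib.MP_43bc59_co.ZM
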