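import Pool.Agent.Lib.MP_43bc59_co.Law

set_option autoImplicit false

namespace Pool.Agent.Lib.MP_43bc59_co

open Finset

variable {n : ℕ} {r : Fin n → Fin n → Prop}

lemma eq_of_rel {σ ρ : X r} (h : Rel (Icc 1 (n - 1)) σ ρ) : σ = ρ := by
  by_contra hne
  obtain ⟨a, ha⟩ := exists_lt_of_ne hne
  have h1 := pos_lt ρ a
  have := (h (pos σ a + 1) (mem_Icc.2 ⟨by omega, by omega⟩) a).1 (by omega)
  omega

lemma Vq_top (f : X r → ℝ) : Vq f (Icc 1 (n - 1)) = ∑ σ, f σ * f σ := by
  unfold Vq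
  exact sum_congr rfl (fun σ _ => by rw [Pr_const (fun u v h => by rw [eq_of_rel h])])

lemma Vq_empty (f : X r → ℝ) :
    Vq f ∅ = (∑ σ, f σ) * (∑ σ, f σ) / (Fintype.card (X r)) := by
  have h : ∀ σ ρ : X r, Rel ∅ σ ρ := fun σ ρ μ hμ => absurd hμ (notMem_empty μ)
  unfold Vq Pr csum
  simp only [h, if_true, sum_const, card_univ, nsmul_eq_mul, mul_one]
  rw [mul_div_assoc, sum_mul]

lemma tau_val {i : ℕ} {σ : X r} (h : tau i σ ≠ σ) : (tau i σ).1 = σ.1 * sw n i := by
  unfold tau at h ⊢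
  split_ifs with h1
  · rfl
  · rw [dif_neg h1] at h; exact absurd rfl h

lemma sw_inj {i j : ℕ} (hi : i + 1 < n) (hj : j + 1 < n) (h : sw n i = sw n j) : i = j := by
  have h1 := sw_val hi ⟨i, by omega⟩
  have h2 := sw_val hj ⟨i, by omega⟩
  rw [h, h2] at h1
  simp only [s] at h1
  split_ifs at h1 <;> omega

theorem main (E : Finset (Equiv.Perm (Fin n)))
    (hE : ∀ σ : Equiv.Perm (Fin n), σ ∈ E ↔ ∀ i j : Fin n, r (σ i) (σ j) → i ≤ j)
    (A : Finset (Equiv.Perm (Fin n))) (hA : A ⊆ E) :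
    (2 + √2) * ((A.card : ℝ) * ((E \ A).card : ℝ)) ≤ (n : ℝ) * (E.card : ℝ) *
        (((A ×ˢ (E \ A)).filter
          (fun p : Equiv.Perm (Fin n) × Equiv.Perm (Fin n) =>
            ∃ i j : Fin n, j.val = i.val + 1 ∧ p.2 = p.1 * Equiv.swap i j)).card : ℝ) := by
  classical
  have hok : ∀ σ, σ ∈ E ↔ Ok r σ := by
    intro σ
    rw [hE]
    constructor
    · intro h a b hab
      apply h; simpa using hab
    · intro h i j hij
      simpa using h _ _ hij
  set f : X r → ℝ := fun σ => if σ.1 ∈ A then 1 else 0 with hf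
  have h0 : ∀ σ, 0 ≤ f σ := fun σ => by simp only [hf]; split_ifs <;> norm_num
  have h1 : ∀ σ, f σ ≤ 1 := fun σ => by simp only [hf]; split_ifs <;> norm_num
  have key := main_Vq h0 h1
  have c1 : ∑ σ, f σ = A.card := by
    rw [← sum_subtype E hok (fun σ => if σ ∈ A then (1 : ℝ) else 0), sum_boole,
      filter_mem_eq_inter, inter_eq_right.2 hA]
  have c2 : ∑ σ, f σ * f σ = A.card := by
    rw [← c1]; exact sum_congr rfl (fun σ _ => by simp only [hf]; split_ifs <;> norm_num)
  have c3 : Fintype.card (X r) = E.card := Fintype.card_of_subtype E hok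
  have c4 : ((E \ A).card : ℝ) = E.card - A.card := by
    rw [card_sdiff_of_subset hA, Nat.cast_sub (card_le_card hA)]
  set T := (A ×ˢ (E \ A)).filter
    (fun p : Equiv.Perm (Fin n) × Equiv.Perm (Fin n) =>
      ∃ i j : Fin n, j.val = i.val + 1 ∧ p.2 = p.1 * Equiv.swap i j) with hT
  have c5 : ∑ i ∈ range (n - 1), edg f i ≤ T.card := by
    have e : ∑ i ∈ range (n - 1), edg f i = (((range (n - 1) ×ˢ (univ : Finset (X r))).filter
        (fun z => z.2.1 ∈ A ∧ (tau z.1 z.2).1 ∉ A)).card : ℝ) := by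
      rw [← sum_boole, sum_product]
      apply sum_congr rfl
      intro i _
      unfold edg
      apply sum_congr rfl
      intro σ _
      simp only [hf]
      by_cases a1 : σ.1 ∈ A <;> by_cases a2 : (tau i σ).1 ∈ A <;> simp [a1, a2]
    rw [e]
    have hne : ∀ z : ℕ × X r, z.2.1 ∈ A → (tau z.1 z.2).1 ∉ A → tau z.1 z.2 ≠ z.2 :=
      fun z a1 a2 h => a2 (h.symm ▸ a1)
    apply Nat.cast_le.2
    apply card_le_card_of_injOn (fun z => (z.2.1, (tau z.1 z.2).1))
    · intro z hz
      simp only [coe_filter, mem_product, mem_range, mem_univ, and_true, Set.mem_ofPred_eq] at hz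
      obtain ⟨hi, a1, a2⟩ := hz
      simp only [hT, coe_filter, mem_product, mem_sdiff, Set.mem_ofPred_eq]
      refine ⟨⟨a1, (hok _).2 (tau z.1 z.2).2, a2⟩, ⟨z.1, by omega⟩, ⟨z.1 + 1, by omega⟩, rfl, ?_⟩
      rw [tau_val (hne z a1 a2)]
      unfold sw
      rw [dif_pos (by omega)]
    · intro z hz w hw h
      simp only [coe_filter, mem_product, mem_range, mem_univ, and_true, Set.mem_ofPred_eq] at hz hw
      simp only [Prod.mk.injEq] at h
      have e2 : z.2 = w.2 := Subtype.ext h.1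
      have e1 := h.2
      rw [tau_val (hne z hz.2.1 hz.2.2), tau_val (hne w hw.2.1 hw.2.2), h.1, mul_left_cancel_iff] at e1
      exact Prod.ext (sw_inj (by omega) (by omega) e1) e2
  rw [Vq_top, Vq_empty, c1, c2, c3] at key
  rw [c4]
  have hs : √2 * √2 = 2 := Real.mul_self_sqrt (by norm_num)
  have hs0 : 0 ≤ √2 := Real.sqrt_nonneg 2
  have hl : (2 + √2) * lam = 1 := by unfold lam; nlinarith
  have hl0 : 0 ≤ lam := by unfold lam; nlinarith
  rcases Nat.eq_zero_or_pos E.card with hz | hz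
  · have : A.card = 0 := by have := card_le_card hA; omega
    simp [hz, this]
  · have hM : (0 : ℝ) < E.card := by exact_mod_cast hz
    have k2 : (A.card : ℝ) - A.card * A.card / E.card ≤ lam * n * T.card :=
      key.trans (mul_le_mul_of_nonneg_left c5 (by positivity))
    have k3 : (A.card : ℝ) * (E.card - A.card) = (A.card - A.card * A.card / E.card) * E.card := by
      field_simp
    rw [k3]
    calc (2 + √2) * ((A.card - A.card * A.card / E.card) * (E.card : ℝ))
        ≤ (2 + √2) * ((lam * n * T.card) * E.card) :=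
          mul_le_mul_of_nonneg_left (mul_le_mul_of_nonneg_right k2 hM.le) (by positivity)
      _ = ((2 + √2) * lam) * (n * E.card * T.card) := by ring
      _ = _ := by rw [hl, one_mul]

end Pool.Agent.Lib.MP_43bc59_co
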