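import Pool.Agent.Lib.MP_43bc59_co.Scheme

set_option autoImplicit false

namespace Pool.Agent.Lib.MP_43bc59_co

open Finset

lemma sd (K : ℝ) (j : ℕ) :
    ((j : ℝ) + 2) * (K - har (j + 2)) - 2 * (((j : ℝ) + 1) * (K - har (j + 1)))
      + j * (K - har j) = -(1 / ((j : ℝ) + 1)) := by
  rw [har_succ (j + 1), har_succ j]
  push_cast
  field_simp
  ring

lemma rho_right {n μ k : ℕ} (h : μ ≤ k) :
    rho n μ k = ((n : ℝ) - k) * (μ / n + har (n - μ) - har (n - k)) := by
  unfold rho
  split_ifs with h'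
  · have : k = μ := by omega
    subst this; ring
  · rfl

lemma rho_left {n μ k : ℕ} (h : k ≤ μ) :
    rho n μ k = (k : ℝ) * ((n - μ) / n + har μ - har k) := by
  unfold rho; rw [if_pos h]

lemma rho_sd {n μ j : ℕ} (hμ : μ < n) (hj : j + 2 ≤ n) :
    rho n μ (j + 2) - 2 * rho n μ (j + 1) + rho n μ j
      = (if μ = j + 1 then 1 else 0) - (if j + 1 ≤ μ then 1 else 0) / ((j : ℝ) + 1)
        - (if μ ≤ j + 1 then 1 else 0) / ((n : ℝ) - (j + 1)) := by
  obtain ⟨m, rfl⟩ : ∃ m, n = j + 2 + m := ⟨n - (j + 2), by omega⟩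
  have e2 : j + 2 + m - (j + 2) = m := by omega
  have e1 : j + 2 + m - (j + 1) = m + 1 := by omega
  have e0 : j + 2 + m - j = m + 2 := by omega
  rcases lt_trichotomy μ (j + 1) with h | h | h
  · rw [rho_right (show μ ≤ j + 2 by omega), rho_right (show μ ≤ j + 1 by omega),
      rho_right (show μ ≤ j by omega), e2, e1, e0, if_neg (by omega), if_neg (by omega),
      if_pos (by omega)]
    have := sd ((μ : ℝ) / (j + 2 + m : ℕ) + har (j + 2 + m - μ)) m
    have e : ((j + 2 + m : ℕ) : ℝ) - (j + 1) = m + 1 := by push_cast; ring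
    rw [e]
    push_cast at this ⊢
    linear_combination this
  · subst h
    rw [rho_right (show j + 1 ≤ j + 2 by omega), rho_left (show j + 1 ≤ j + 1 by omega),
      rho_left (show j ≤ j + 1 by omega), e2, e1, if_pos rfl, if_pos le_rfl, har_succ m, har_succ j]
    have e : ((j + 2 + m : ℕ) : ℝ) - (j + 1) = m + 1 := by push_cast; ring
    rw [e]
    push_cast
    field_simp
    ring
  · rw [rho_left (show j + 2 ≤ μ by omega), rho_left (show j + 1 ≤ μ by omega),
      rho_left (show j ≤ μ by omega), if_neg (by omega), if_pos (by omega), if_neg (by omega)]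
    have := sd ((((j + 2 + m : ℕ) : ℝ) - μ) / (j + 2 + m : ℕ) + har μ) j
    push_cast at this ⊢
    linear_combination this

/-- the mixed weights -/
noncomputable def mix (n : ℕ) (F : ℕ → ℝ) (k : ℕ) : ℝ :=
  ∑ i ∈ range (n - 1), (F (i + 1) - F i) * rho n (i + 1) k

lemma mix_zero (n : ℕ) (F : ℕ → ℝ) : mix n F 0 = 0 := by
  unfold mix
  apply sum_eq_zero
  intro i _
  rw [rho_left (Nat.zero_le _)]; simp

lemma mix_top (n : ℕ) (F : ℕ → ℝ) : mix n F n = 0 := by
  unfold mix
  apply sum_eq_zero
  intro i hi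
  rw [mem_range] at hi
  rw [rho_right (by omega)]; simp

lemma mix_sd {n : ℕ} {F : ℕ → ℝ} (F0 : F 0 = 0) (F1 : F (n - 1) = 1) {j : ℕ} (hj : j + 2 ≤ n) :
    mix n F (j + 2) - 2 * mix n F (j + 1) + mix n F j
      = (F (j + 1) - F j) - (1 - F j) / ((j : ℝ) + 1) - F (j + 1) / ((n : ℝ) - (j + 1)) := by
  have a1 : ∑ i ∈ range (n - 1), (F (i + 1) - F i) * (if i + 1 = j + 1 then (1 : ℝ) else 0)
      = F (j + 1) - F j := by
    rw [sum_eq_single j]
    · simp
    · intro b _ hb
      rw [if_neg (by omega)]; ring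
    · intro h; exact absurd (mem_range.2 (by omega)) h
  have a2 : ∑ i ∈ range (n - 1), (F (i + 1) - F i) * (if j + 1 ≤ i + 1 then (1 : ℝ) else 0)
      = 1 - F j := by
    have := sum_range_sub (fun i => F (max i j)) (n - 1)
    rw [show max (n - 1) j = n - 1 by omega, show max 0 j = j by omega, F1] at this
    rw [← this]
    apply sum_congr rfl
    intro i _
    split_ifs with h
    · rw [show max (i + 1) j = i + 1 by omega, show max i j = i by omega]; ring
    · rw [show max (i + 1) j = j by omega, show max i j = j by omega]; ring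
  have a3 : ∑ i ∈ range (n - 1), (F (i + 1) - F i) * (if i + 1 ≤ j + 1 then (1 : ℝ) else 0)
      = F (j + 1) := by
    have := sum_range_sub (fun i => F (min i (j + 1))) (n - 1)
    rw [show min (n - 1) (j + 1) = j + 1 by omega, show min 0 (j + 1) = 0 by omega, F0,
      sub_zero] at this
    rw [← this]
    apply sum_congr rfl
    intro i _
    split_ifs with h
    · rw [show min (i + 1) (j + 1) = i + 1 by omega, show min i (j + 1) = i by omega]; ring
    · rw [show min (i + 1) (j + 1) = j + 1 by omega, show min i (j + 1) = j + 1 by omega]; ring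
  rw [← a1]
  conv_rhs => rw [← a2, ← a3]
  unfold mix
  rw [sum_div, sum_div, mul_sum, ← sum_sub_distrib, ← sum_add_distrib, ← sum_sub_distrib,
    ← sum_sub_distrib]
  apply sum_congr rfl
  intro i hi
  rw [mem_range] at hi
  have := rho_sd (μ := i + 1) (show i + 1 < n by omega) hj
  linear_combination (F (i + 1) - F i) * this

lemma concave_nonneg {n : ℕ} {D : ℕ → ℝ} (h0 : 0 ≤ D 0) (hn : 0 ≤ D n)
    (h : ∀ j, j + 2 ≤ n → D (j + 2) - 2 * D (j + 1) + D j ≤ 0) : ∀ k, k ≤ n → 0 ≤ D k := by
  have a : ∀ k : ℕ, k + 1 ≤ n → (k : ℝ) * D (k + 1) ≤ (k + 1) * D k := by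
    intro k
    induction k with
    | zero => intro _; simpa using h0
    | succ k ih =>
      intro hk
      have b1 := ih (by omega)
      have b2 := h k hk
      have b3 : (0 : ℝ) ≤ k + 1 := by positivity
      push_cast
      nlinarith [mul_le_mul_of_nonneg_left b2 b3]
  intro k hk
  induction hk using Nat.decreasingInduction with
  | self => exact hn
  | of_succ k hk ih =>
    have b := a k hk
    have b3 : (0 : ℝ) < k + 1 := by positivity
    have b4 : 0 ≤ (k : ℝ) * D (k + 1) := mul_nonneg (by positivity) ih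
    by_contra hc
    push Not at hc
    nlinarith [mul_pos_of_neg_of_neg (neg_neg_of_pos b3) hc]

lemma har_diff (k d : ℕ) : (k : ℝ) * (har (k + d) - har k) ≤ d * (k / (k + 1)) := by
  induction d with
  | zero => simp
  | succ d ih =>
    rw [← add_assoc, har_succ]
    push_cast
    have : (k : ℝ) * (1 / (k + d + 1)) ≤ k / (k + 1) := by
      rw [mul_one_div]
      apply div_le_div_of_nonneg_left (by positivity) (by positivity)
      have : (0 : ℝ) ≤ d := by positivity
      linarith
    nlinarith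

lemma left_le {j k : ℕ} (hj : 1 ≤ j) (hk : k ≤ j) {B L : ℝ} (hB : B ≤ L) (hL : (j : ℝ) - 1 ≤ L) :
    (k : ℝ) * (B / j + har j - har k) ≤ L := by
  have hj' : (0 : ℝ) < j := by exact_mod_cast hj
  obtain ⟨d, rfl⟩ : ∃ d, j = k + d := ⟨j - k, by omega⟩
  have a1 := har_diff k d
  have a2 : (k : ℝ) * (B / (k + d : ℕ)) ≤ k * (L / (k + d : ℕ)) :=
    mul_le_mul_of_nonneg_left (div_le_div_of_nonneg_right hB hj'.le) (by positivity)
  have a3 : (d : ℝ) * (k / (k + 1)) ≤ d * (L / (k + d : ℕ)) := by
    rcases Nat.eq_zero_or_pos d with rfl | hd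
    · simp
    · apply mul_le_mul_of_nonneg_left _ (by positivity)
      rw [div_le_div_iff₀ (by positivity) hj']
      have : (1 : ℝ) ≤ d := by exact_mod_cast hd
      have hk0 : (0 : ℝ) ≤ k := by positivity
      push_cast at hL ⊢
      nlinarith
  have a4 : (k : ℝ) * (L / (k + d : ℕ)) + d * (L / (k + d : ℕ)) = L := by
    rw [← add_mul]; push_cast at hj' ⊢; field_simp
  nlinarith

end Pool.Agent.Lib.MP_43bc59_co
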