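import Pool.Agent.Lib.MP_43bc59_co.Test
import Pool.Agent.Lib.MP_43bc59_co.Fish

set_option autoImplicit false

namespace Pool.Agent.Lib.MP_43bc59_co

open Finset

variable {n : ℕ} {r : Fin n → Fin n → Prop}

lemma IsCl.eq_of_short {p q : ℕ} (hpq : q ≤ p + 1) {C : Finset (X r)} (hC : IsCl p q C)
    {σ ρ : X r} (hσ : σ ∈ C) (hρ : ρ ∈ C) : σ = ρ := by
  apply eq_of_pos
  funext a
  have a1 := hC.pos_eq hσ hρ a
  have a2 := hC.pos_eq hρ hσ a
  omega

lemma sum_le_card {f : X r → ℝ} (h1 : ∀ σ, f σ ≤ 1) (C : Finset (X r)) :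
    ∑ σ ∈ C, f σ ≤ C.card := by
  simpa using sum_le_sum (s := C) (fun σ _ => h1 σ)

lemma short_zero {p q : ℕ} (hpq : q ≤ p + 1) {C D : Finset (X r)} (hC : IsCl p q C) (hD : D ⊆ C)
    {f : X r → ℝ} (hb : ∀ σ, f σ * (1 - f σ) = 0) :
    (∑ σ ∈ C, f σ) * (D.card - ∑ σ ∈ D, f σ) = 0 := by
  have e : (D.card : ℝ) - ∑ σ ∈ D, f σ = ∑ σ ∈ D, (1 - f σ) := by
    rw [sum_sub_distrib]; simp
  rw [e, sum_mul_sum]
  apply sum_eq_zero
  intro σ hσ
  apply sum_eq_zero
  intro ρ hρ
  rw [← hC.eq_of_short hpq hσ (hD hρ)]; exact hb σ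

lemma sub_subset (C : Finset (X r)) (x : Fin n) (k : ℕ) : sub C x k ⊆ C := filter_subset _ _

variable {f : X r → ℝ} (h0 : ∀ σ, 0 ≤ f σ) (h1 : ∀ σ, f σ ≤ 1) (hb : ∀ σ, f σ * (1 - f σ) = 0)

include h0 h1 hb in
/-- the first cost dominates the chance of `f = 1` at a random word and `f = 0` at a random word
beginning with `y` -/
lemma plus0 (y : Fin n) (l : ℕ) : ∀ (p : ℕ) (C : Finset (X r)), p + l ≤ n → IsCl p (p + l) C →
    (∑ σ ∈ C, f σ) * ((sub C y p).card - ∑ σ ∈ sub C y p, f σ)
      ≤ (sub C y p).card * cA f p (p + l) C := by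
  induction l with
  | zero =>
    intro p C _ hC
    rw [short_zero (by omega) hC (sub_subset C y p) hb]
    exact mul_nonneg (by positivity) (cA_nonneg h0 h1 _ _ _)
  | succ l ih =>
    intro p C hq hC
    rcases l with _ | l
    · rw [short_zero (by omega) hC (sub_subset C y p) hb]
      exact mul_nonneg (by positivity) (cA_nonneg h0 h1 _ _ _)
    rcases (sub C y p).eq_empty_or_nonempty with h | hne
    · rw [h]; simp
    have My : (0 : ℝ) < (sub C y p).card := by exact_mod_cast hne.card_pos
    have M0 : (0 : ℝ) < C.card := by exact_mod_cast (hne.mono (sub_subset C y p)).card_pos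
    have hk : p + l + 1 < n := by omega
    have hC' : IsCl p (p + l + 1 + 1) C := hC
    set k : Fin n → ℝ := fun z => ((sub (sub C y p) z (p + l + 1)).card
      - ∑ σ ∈ sub (sub C y p) z (p + l + 1), f σ) / (sub (sub C y p) z (p + l + 1)).card with hkd
    have k0 : ∀ z, 0 ≤ k z := fun z =>
      div_nonneg (by linarith [sum_le_card h1 (sub (sub C y p) z (p + l + 1))]) (by positivity)
    have k1 : ∀ z, k z ≤ 1 := fun z => div_le_one_of_le₀
      (by linarith [sum_nonneg (s := sub (sub C y p) z (p + l + 1)) (fun σ _ => h0 σ)])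
      (by positivity)
    have k2 : ∀ z, (sub (sub C y p) z (p + l + 1)).card * k z
        = (sub (sub C y p) z (p + l + 1)).card - ∑ σ ∈ sub (sub C y p) z (p + l + 1), f σ := by
      intro z
      rcases (sub (sub C y p) z (p + l + 1)).eq_empty_or_nonempty with h | h
      · rw [h]; simp
      · have : (0 : ℝ) < (sub (sub C y p) z (p + l + 1)).card := by exact_mod_cast h.card_pos
        simp only [hkd]; field_simp
    have k3 : ∀ z, (∑ σ ∈ sub C z (p + l + 1), f σ) * k z
        ≤ cA f p (p + l + 1) (sub C z (p + l + 1)) := by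
      intro z
      have := ih p _ (by omega) (hC'.last z)
      rw [sub_comm] at this
      rcases (sub (sub C y p) z (p + l + 1)).eq_empty_or_nonempty with h | h
      · have : k z = 0 := by simp only [hkd, h]; simp
        rw [this, mul_zero]; exact cA_nonneg h0 h1 _ _ _
      · have h2 : (0 : ℝ) < (sub (sub C y p) z (p + l + 1)).card := by exact_mod_cast h.card_pos
        rw [← k2 z] at this
        apply le_of_mul_le_mul_left _ h2
        calc _ = (∑ σ ∈ sub C z (p + l + 1), f σ)
            * ((sub (sub C y p) z (p + l + 1)).card * k z) := by ring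
          _ ≤ _ := this
    have k4 : ∑ z, (sub (sub C y p) z (p + l + 1)).card * k z
        = (sub C y p).card - ∑ σ ∈ sub C y p, f σ := by
      rw [sum_congr rfl (fun z _ => k2 z), sum_sub_distrib, card_sub _ hk, sum_sub _ hk]
    have k5 : ((l : ℝ) + 1) * (C.card * ((sub C y p).card - ∑ σ ∈ sub C y p, f σ))
        ≤ (l + 2) * ((sub C y p).card * ∑ z, (sub C z (p + l + 1)).card * k z) := by
      rw [← k4, mul_sum, mul_sum, mul_sum, mul_sum]
      apply sum_le_sum
      intro z _
      have := mul_le_mul_of_nonneg_right (fish_fl (by omega) hC y z) (k0 z)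
      linarith
    have t := test_last (by omega) hk hC' h0 h1 (β := fun z => 1 - k z)
      (fun z => by linarith [k1 z]) (fun z => by linarith [k0 z])
    have t2 : ∑ x, (1 - k x) * (C.card * ∑ σ ∈ sub C x (p + l + 1), f σ
        - (∑ σ ∈ C, f σ) * (sub C x (p + l + 1)).card)
        = (∑ σ ∈ C, f σ) * ∑ z, (sub C z (p + l + 1)).card * k z
          - C.card * ∑ z, (∑ σ ∈ sub C z (p + l + 1), f σ) * k z := by
      have e : ∀ x, (1 - k x) * (C.card * ∑ σ ∈ sub C x (p + l + 1), f σ
          - (∑ σ ∈ C, f σ) * (sub C x (p + l + 1)).card)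
          = C.card * ∑ σ ∈ sub C x (p + l + 1), f σ - (∑ σ ∈ C, f σ) * (sub C x (p + l + 1)).card
            + ((∑ σ ∈ C, f σ) * ((sub C x (p + l + 1)).card * k x)
              - C.card * ((∑ σ ∈ sub C x (p + l + 1), f σ) * k x)) := fun x => by ring
      rw [sum_congr rfl (fun x _ => e x), sum_add_distrib, sum_sub_distrib, sum_sub_distrib,
        ← mul_sum, ← mul_sum, ← mul_sum, ← mul_sum, card_sub _ hk, sum_sub _ hk]
      ring
    rw [t2] at t
    have r1 := cA_last f C (show p < p + l + 1 by omega) hk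
    have r2 := cA_add_cB f p (p + l + 1 + 1) C
    have r3 : ∑ z, (∑ σ ∈ sub C z (p + l + 1), f σ) * k z
        ≤ ∑ z, cA f p (p + l + 1) (sub C z (p + l + 1)) := sum_le_sum (fun z _ => k3 z)
    have F0 : 0 ≤ ∑ σ ∈ C, f σ := sum_nonneg (fun σ _ => h0 σ)
    push_cast at t r2
    show _ ≤ _ * cA f p (p + l + 1 + 1) C
    set F := ∑ σ ∈ C, f σ
    set K := ((sub C y p).card : ℝ) - ∑ σ ∈ sub C y p, f σ
    set S1 := ∑ z, ((sub C z (p + l + 1)).card : ℝ) * k z
    set S2 := ∑ z, (∑ σ ∈ sub C z (p + l + 1), f σ) * k z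
    set A := cA f p (p + l + 1 + 1) C
    set B := cB f p (p + l + 1 + 1) C
    set E := cE f p (p + l + 1 + 1) C
    set M := (C.card : ℝ)
    set N := ((sub C y p).card : ℝ)
    have l0 : (0 : ℝ) < l + 1 := by positivity
    have u1 : ((l : ℝ) + 2) * S2 ≤ (l + 1) * A - B := by nlinarith
    have u2 : ((l : ℝ) + 2) * (F * S1) ≤ M * ((l + 1) * A) := by
      have := mul_le_mul_of_nonneg_left u1 M0.le
      nlinarith
    have u3 := mul_le_mul_of_nonneg_left k5 F0
    have u4 := mul_le_mul_of_nonneg_left u2 My.le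
    apply le_of_mul_le_mul_left _ (mul_pos l0 M0)
    nlinarith

include h0 h1 hb in
lemma plusW_small (y : Fin n) {p l : ℕ} {C : Finset (X r)} (hq : p + l + 1 ≤ n)
    (hC : IsCl p (p + l + 1) C) (hW : ((l : ℝ) + 1) * (sub C y p).card ≤ C.card) :
    (l + 1) * (sub C y p).card / C.card * ((∑ σ ∈ C, f σ) / C.card)
      - (l + 1) * (∑ σ ∈ sub C y p, f σ) / C.card
      + (2 - (l + 1) * (sub C y p).card / C.card) * (1 - (∑ σ ∈ C, f σ) / C.card)
        * ((l + 1) * (∑ σ ∈ sub C y p, f σ) / C.card) ≤ cA f p (p + l + 1) C / C.card := by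
  rcases (sub C y p).eq_empty_or_nonempty with h | ⟨σ, hσ⟩
  · rw [h]
    simp only [card_empty, Nat.cast_zero, mul_zero, zero_div, zero_mul, sum_empty, sub_zero,
      add_zero]
    exact div_nonneg (cA_nonneg h0 h1 _ _ _) (by positivity)
  have My : (0 : ℝ) < (sub C y p).card := by exact_mod_cast card_pos.2 ⟨σ, hσ⟩
  have e : (C.card : ℝ) = (l + 1) * (sub C y p).card := le_antisymm (fish_one hq hC hσ) hW
  have key := plus0 h0 h1 hb y (l + 1) p C hq hC
  have l0 : (0 : ℝ) < l + 1 := by positivity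
  have key' : _ ≤ _ * cA f p (p + l + 1) C := key
  rw [e, le_div_iff₀ (mul_pos l0 My)]
  apply le_of_mul_le_mul_left _ My
  refine le_trans (le_of_eq ?_) key'
  field_simp; ring

include h0 h1 hb in
/-- the weighted form -/
lemma plusW (y : Fin n) (l : ℕ) : ∀ (p : ℕ) (C : Finset (X r)), p + l + 1 ≤ n →
    IsCl p (p + l + 1) C → ((l : ℝ) + 1) * (sub C y p).card / C.card ≤ 2 →
    (l + 1) * (sub C y p).card / C.card * ((∑ σ ∈ C, f σ) / C.card)
      - (l + 1) * (∑ σ ∈ sub C y p, f σ) / C.card
      + (2 - (l + 1) * (sub C y p).card / C.card) * (1 - (∑ σ ∈ C, f σ) / C.card)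
        * ((l + 1) * (∑ σ ∈ sub C y p, f σ) / C.card) ≤ cA f p (p + l + 1) C / C.card := by
  induction l with
  | zero =>
    intro p C hq hC _
    apply plusW_small h0 h1 hb y hq hC
    have : ((sub C y p).card : ℝ) ≤ C.card := by exact_mod_cast card_le_card (sub_subset C y p)
    simpa using this
  | succ l ih =>
    intro p C hq hC hW
    by_cases hs : (((l + 1 : ℕ) : ℝ) + 1) * (sub C y p).card ≤ C.card
    · exact plusW_small h0 h1 hb y hq hC hs
    push_cast at hs hW ⊢
    push Not at hs
    have l0 : (0 : ℝ) < l + 1 := by positivity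
    have My : (0 : ℝ) < (sub C y p).card := by
      by_contra hc
      have : ((sub C y p).card : ℝ) = 0 := le_antisymm (not_lt.1 hc) (by positivity)
      rw [this, mul_zero] at hs
      exact absurd hs (not_lt.2 (by positivity))
    have M0 : (0 : ℝ) < C.card :=
      My.trans_le (by exact_mod_cast card_le_card (sub_subset C y p))
    have hk : p + l + 1 < n := by omega
    have hC' : IsCl p (p + l + 1 + 1) C := hC
    have hC2 : IsCl p (p + l + 2) C := hC
    have ne : ∀ z, (sub C z (p + l + 1)).Nonempty → (sub (sub C z (p + l + 1)) y p).Nonempty := by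
      intro z hz
      by_contra hc
      rw [not_nonempty_iff_eq_empty, sub_comm] at hc
      have Mz : (0 : ℝ) < (sub C z (p + l + 1)).card := by exact_mod_cast hz.card_pos
      have a1 : ∀ x, ((l : ℝ) + 1) * (C.card * (sub (sub C z (p + l + 1)) x p).card)
          ≤ (l + 2) * ((sub C x p).card * (sub C z (p + l + 1)).card)
            - (if x = y then ((l : ℝ) + 2) * (((sub C y p).card : ℝ)
              * (sub C z (p + l + 1)).card) else 0) := by
        intro x
        rw [sub_comm]
        split_ifs with h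
        · rw [h, hc]; simp
        · simpa using fish_fl (by omega) hC2 x z
      have a2 := sum_le_sum (s := univ) (fun x _ => a1 x)
      rw [sum_sub_distrib, ← mul_sum, ← mul_sum, ← mul_sum, ← sum_mul, card_sub _ (by omega),
        card_sub _ (by omega), sum_ite_eq'] at a2
      simp only [mem_univ, if_true] at a2
      nlinarith
    set W : ℝ := (l + 1 + 1) * (sub C y p).card / C.card with hWd
    have W1 : 1 < W := by rw [hWd, lt_div_iff₀ M0]; linarith
    set Wz : Fin n → ℝ := fun z =>
      (l + 1) * (sub (sub C z (p + l + 1)) y p).card / (sub C z (p + l + 1)).card with hWz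
    set Hz : Fin n → ℝ := fun z =>
      (l + 1) * (∑ σ ∈ sub (sub C z (p + l + 1)) y p, f σ) / (sub C z (p + l + 1)).card with hHz
    set β : Fin n → ℝ := fun z =>
      if (sub C z (p + l + 1)).Nonempty then W - Wz z + (2 - W) * Hz z else 0 with hβ
    have w1 : ∀ z, (sub C z (p + l + 1)).Nonempty → Wz z ≤ W := by
      intro z hz
      have Mz : (0 : ℝ) < (sub C z (p + l + 1)).card := by exact_mod_cast hz.card_pos
      have := fish_fl (by omega) hC2 y z
      simp only [hWz, hWd]
      rw [sub_comm, div_le_div_iff₀ Mz M0]; linarith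
    have w2 : ∀ z, (sub C z (p + l + 1)).Nonempty → 1 ≤ Wz z := by
      intro z hz
      have Mz : (0 : ℝ) < (sub C z (p + l + 1)).card := by exact_mod_cast hz.card_pos
      obtain ⟨σ, hσ⟩ := ne z hz
      simp only [hWz]
      rw [le_div_iff₀ Mz, one_mul]
      exact fish_one (by omega) (hC'.last z) hσ
    have w3 : ∀ z, 0 ≤ Hz z := fun z =>
      div_nonneg (mul_nonneg l0.le (sum_nonneg (fun σ _ => h0 σ))) (by positivity)
    have w4 : ∀ z, Hz z ≤ Wz z := fun z =>
      div_le_div_of_nonneg_right (mul_le_mul_of_nonneg_left (sum_le_card h1 _) l0.le)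
        (by positivity)
    have b0 : ∀ z, 0 ≤ β z := by
      intro z; simp only [hβ]
      split_ifs with h
      · nlinarith [w1 z h, w3 z]
      · exact le_rfl
    have b1 : ∀ z, β z ≤ 1 := by
      intro z; simp only [hβ]
      split_ifs with h
      · nlinarith [w2 z h, w4 z, w3 z]
      · exact zero_le_one
    have t := test_last (by omega) hk hC' h0 h1 b0 b1
    set F := ∑ σ ∈ C, f σ with hF
    set M := (C.card : ℝ) with hM
    have c1 : ∀ z, β z * (M * ∑ σ ∈ sub C z (p + l + 1), f σ - F * (sub C z (p + l + 1)).card)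
        + M * cA f p (p + l + 1) (sub C z (p + l + 1))
        ≥ W * (M * ∑ σ ∈ sub C z (p + l + 1), f σ - F * (sub C z (p + l + 1)).card)
          + (l + 1) * (F * (sub (sub C z (p + l + 1)) y p).card
            + ((2 - W) * (M - F) - M) * ∑ σ ∈ sub (sub C z (p + l + 1)) y p, f σ) := by
      intro z
      rcases (sub C z (p + l + 1)).eq_empty_or_nonempty with h | h
      · have e : sub (∅ : Finset (X r)) y p = ∅ := rfl
        rw [h, e]
        simp only [sum_empty, card_empty, Nat.cast_zero, mul_zero, sub_zero, add_zero, zero_add]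
        exact mul_nonneg M0.le (cA_nonneg h0 h1 _ _ _)
      · have Mz : (0 : ℝ) < (sub C z (p + l + 1)).card := by exact_mod_cast h.card_pos
        have i1 := ih p _ (by omega) (hC'.last z) ((w1 z h).trans hW)
        have i2 : Wz z * ((∑ σ ∈ sub C z (p + l + 1), f σ) / (sub C z (p + l + 1)).card) - Hz z
            + (2 - Wz z) * (1 - (∑ σ ∈ sub C z (p + l + 1), f σ) / (sub C z (p + l + 1)).card)
              * Hz z ≤ cA f p (p + l + 1) (sub C z (p + l + 1)) / (sub C z (p + l + 1)).card := i1
        have e1 : ((l : ℝ) + 1) * (sub (sub C z (p + l + 1)) y p).card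
            = Wz z * (sub C z (p + l + 1)).card := (div_mul_cancel₀ _ Mz.ne').symm
        have e2 : ((l : ℝ) + 1) * ∑ σ ∈ sub (sub C z (p + l + 1)) y p, f σ
            = Hz z * (sub C z (p + l + 1)).card := (div_mul_cancel₀ _ Mz.ne').symm
        have e3 : β z = W - Wz z + (2 - W) * Hz z := by simp only [hβ]; rw [if_pos h]
        have a1 := sum_le_card h1 (sub C z (p + l + 1))
        set Fz := ∑ σ ∈ sub C z (p + l + 1), f σ
        set Mz' := ((sub C z (p + l + 1)).card : ℝ)
        rw [le_div_iff₀ Mz] at i2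
        have i3 : Wz z * Fz - Hz z * Mz' + (2 - Wz z) * (Mz' - Fz) * Hz z
            ≤ cA f p (p + l + 1) (sub C z (p + l + 1)) := by
          refine le_trans (le_of_eq ?_) i2
          field_simp
        have i4 : 0 ≤ (W - Wz z) * ((Mz' - Fz) * Hz z) :=
          mul_nonneg (by linarith [w1 z h]) (mul_nonneg (by linarith) (w3 z))
        have i5 : Wz z * Fz - Hz z * Mz' + (2 - W) * (Mz' - Fz) * Hz z
            ≤ cA f p (p + l + 1) (sub C z (p + l + 1)) := by nlinarith
        have i6 := mul_le_mul_of_nonneg_left i5 M0.le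
        have e4 : (l + 1) * (F * (sub (sub C z (p + l + 1)) y p).card
            + ((2 - W) * (M - F) - M) * ∑ σ ∈ sub (sub C z (p + l + 1)) y p, f σ)
            = F * (Wz z * Mz') + ((2 - W) * (M - F) - M) * (Hz z * Mz') := by
          rw [← e1, ← e2]; ring
        rw [e3, e4]
        nlinarith
    have c2 := sum_le_sum (s := univ) (fun z _ => (c1 z).le)
    have s1 : ∑ z, ((sub (sub C z (p + l + 1)) y p).card : ℝ) = (sub C y p).card := by
      rw [← card_sub (sub C y p) hk]; exact sum_congr rfl (fun z _ => by rw [sub_comm])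
    have s2 : ∑ z, ∑ σ ∈ sub (sub C z (p + l + 1)) y p, f σ = ∑ σ ∈ sub C y p, f σ := by
      rw [← sum_sub (sub C y p) hk]; exact sum_congr rfl (fun z _ => by rw [sub_comm])
    rw [sum_add_distrib, sum_add_distrib, ← mul_sum, ← mul_sum, ← mul_sum, sum_add_distrib,
      sum_sub_distrib, ← mul_sum, ← mul_sum, ← mul_sum, ← mul_sum, s1, s2, card_sub _ hk,
      sum_sub _ hk] at c2
    have r1 := cA_last f C (show p < p + l + 1 by omega) hk
    have r2 := cA_add_cB f p (p + l + 1 + 1) C
    push_cast at t r2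
    show _ ≤ cA f p (p + l + 1 + 1) C / M
    set A := cA f p (p + l + 1 + 1) C
    set B := cB f p (p + l + 1 + 1) C
    set E := cE f p (p + l + 1 + 1) C
    set N := ((sub C y p).card : ℝ)
    set G := ∑ σ ∈ sub C y p, f σ
    set T := ∑ x, β x * (M * ∑ σ ∈ sub C x (p + l + 1), f σ - F * (sub C x (p + l + 1)).card)
    set S := ∑ z, cA f p (p + l + 1) (sub C z (p + l + 1))
    have u1 : ((l : ℝ) + 2) * (F * N + ((2 - W) * (M - F) - M) * G) ≤ M * A := by
      apply le_of_mul_le_mul_left _ l0
      have v1 := mul_le_mul_of_nonneg_left c2 (show (0 : ℝ) ≤ l + 2 by positivity)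
      have v2 : ((l : ℝ) + 2) * S = (l + 1) * A - B := by nlinarith
      have v3 : ((l : ℝ) + 2) * (M * S) = M * ((l + 1) * A - B) := by rw [← v2]; ring
      rw [← hF, ← hM] at v1
      nlinarith
    rw [le_div_iff₀ M0]
    apply le_of_mul_le_mul_left _ M0
    refine le_trans (le_of_eq ?_) u1
    have e5 : W * M = (l + 1 + 1) * N := by rw [hWd]; field_simp
    have e6 : ((l : ℝ) + 2) * (F * N) = W * M * F := by rw [e5]; ring
    field_simp
    nlinarith

end Pool.Agent.Lib.MP_43bc59_co
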