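import Pool.Agent.Lib.MP_43bc59_co.Cut

set_option autoImplicit false

namespace Pool.Agent.Lib.MP_43bc59_co

open Finset

/-- The real inequality that closes the first-letter step.  Index `j` runs over the possible first
letters, `w j` is their weight, `g j` the mean after `j`, `G j l` the mean after `j, l`,
`c j l` the weight of the pair, `A j` the first cost of the child and `Φ j` its deficit. -/
def St_F : Prop :=
  ∀ (ι : Type) [Fintype ι] [DecidableEq ι] (a θ : ℝ) (w g A Φ : ι → ℝ) (c G : ι → ι → ℝ),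
    0 < θ → θ ≤ 1 / 2 → 0 < a → a < 1 →
    (∀ j, 1 ≤ w j) → (∀ j, 0 ≤ g j) → (∀ j, g j ≤ 1) → ∑ j, w j * (g j - a) = 0 →
    (∀ β : ι → ℝ, (∀ j, 0 ≤ β j) → (∀ j, β j ≤ 1) →
      θ * ∑ j, β j * (w j * (g j - a)) ≤ a * (1 - a)) →
    (∀ j, θ * (1 - g j) ≤ 1 - a) → (∀ j, θ * g j ≤ a) →
    (∀ j, w j ≤ 2 →
      θ * (w j * (a - g j) + (2 - w j) * (1 - a) * (w j * g j)) ≤ a * (1 - a)) →
    (∀ j, w j ≤ 2 →
      θ * (w j * (g j - a) + (2 - w j) * a * (w j * (1 - g j))) ≤ a * (1 - a)) →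
    (∀ j l, c j l = c l j) → (∀ j l, j ≠ l → w j * w l ≤ c j l) →
    (∀ j l, 0 ≤ G j l) → (∀ j l, G j l ≤ 1) →
    (∀ j u, 0 ≤ u → u ≤ θ → u * (2 * θ - u) * A j - u * (2 - u) * (g j * (1 - g j)) ≤ Φ j) →
    (∀ j (β : ι → ℝ), (∀ l, 0 ≤ β l) → (∀ l, β l ≤ 1) → β j = 0 →
      ∑ l, β l * (c j l * (G j l - g j)) ≤ w j * A j) →
    (∀ j (β : ι → ℝ), (∀ l, 0 ≤ β l) → (∀ l, β l ≤ 1) → β j = 0 →
      ∑ l, β l * (c j l * (g j - G j l)) ≤ w j * A j) →
    (∀ j l, j ≠ l → g j * (1 - G j l) ≤ A j) → (∀ j l, j ≠ l → (1 - g j) * G j l ≤ A j) →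
    (∀ j l, j ≠ l → c j l ≤ 2 * w j → c j l / w j * (g j - G j l)
      + (2 - c j l / w j) * (1 - g j) * (c j l / w j * G j l) ≤ A j) →
    (∀ j l, j ≠ l → c j l ≤ 2 * w j → c j l / w j * (G j l - g j)
      + (2 - c j l / w j) * g j * (c j l / w j * (1 - G j l)) ≤ A j) →
    ∑ j, w j * (g j - a) ^ 2 ≤ (1 - θ) * (a * (1 - a)) / θ
      + θ ^ 2 * ∑ j, ∑ l, (if j = l then 0 else c j l * max (G j l - G l j) 0) + ∑ j, w j * Φ j

variable {n : ℕ} {r : Fin n → Fin n → Prop}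

/-- the cuts outside the block `[p, q)` -/
def Sb (n p q : ℕ) : Finset ℕ := (range (n + 1)).filter (fun μ => μ ≤ p ∨ q ≤ μ)

/-- `C` is empty or the class of words with given letters outside the block `[p, q)` -/
def IsCl (p q : ℕ) (C : Finset (X r)) : Prop := ∀ σ ∈ C, ∀ ρ, ρ ∈ C ↔ Rel (Sb n p q) σ ρ

/-- the words of `C` with the letter `x` at position `k` -/
noncomputable def sub (C : Finset (X r)) (x : Fin n) (k : ℕ) : Finset (X r) :=
  C.filter (fun σ => pos σ x = k)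

/-- boundary edges at the bond `i` inside `C` -/
noncomputable def eC (f : X r → ℝ) (C : Finset (X r)) (i : ℕ) : ℝ :=
  ∑ σ ∈ C, f σ * (1 - f (tau i σ))

/-- first cost -/
noncomputable def cA (f : X r → ℝ) (p q : ℕ) (C : Finset (X r)) : ℝ :=
  ∑ i ∈ Ico p (q - 1), ((q : ℝ) - 1 - i) * eC f C i

/-- second cost -/
noncomputable def cB (f : X r → ℝ) (p q : ℕ) (C : Finset (X r)) : ℝ :=
  ∑ i ∈ Ico p (q - 1), ((i : ℝ) + 1 - p) * eC f C i

end Pool.Agent.Lib.MP_43bc59_co
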