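import Pool.Agent.Lib.MP_43bc59_co.Cut

set_option autoImplicit false

namespace Pool.Agent.Lib.MP_43bc59_co

open Finset

variable {n : ℕ} {r : Fin n → Fin n → Prop}

lemma strict_empty (n : ℕ) : Strict n ∅ := by
  refine ⟨fun k => if k ≤ n then (k : ℝ) * (n - k) else 0, ⟨?_, by simp, ?_, by simp⟩, ?_⟩
  · intro k
    split_ifs with h
    · have : (k : ℝ) ≤ n := by exact_mod_cast h
      exact mul_nonneg (by positivity) (by linarith)
    · exact le_rfl
  · intro k hk
    split_ifs with h
    · have : k = n := by omega
      subst this; simp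
    · rfl
  · intro k l hkl hl _
    simp only
    rw [if_pos (by omega), if_pos (by omega), if_pos (by omega), if_pos (by omega)]
    have : (k : ℝ) < l := by exact_mod_cast hkl
    push_cast; nlinarith

lemma strict_Icc {p q : ℕ} (hpq : p ≤ q) (hq : q < n) : Strict n (Icc p q) := by
  refine ⟨fun k => if k ≤ p then (k : ℝ) * (p - k) else
    if q ≤ k ∧ k ≤ n then ((k : ℝ) - q) * (n - k) else 0, ⟨?_, by simp, ?_, ?_⟩, ?_⟩
  · intro k
    split_ifs with h h'
    · have : (k : ℝ) ≤ p := by exact_mod_cast h
      exact mul_nonneg (by positivity) (by linarith)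
    · have h1 : (k : ℝ) ≤ n := by exact_mod_cast h'.2
      have h2 : (q : ℝ) ≤ k := by exact_mod_cast h'.1
      exact mul_nonneg (by linarith) (by linarith)
    · exact le_rfl
  · intro k hk
    rw [if_neg (by omega)]
    split_ifs with h
    · have : k = n := by omega
      subst this; simp
    · rfl
  · intro k hk
    rw [mem_Icc] at hk
    split_ifs with h h'
    · have : k = p := by omega
      subst this; simp
    · have : k = q := by omega
      subst this; simp
    · rfl
  · intro k l hkl hl hs
    have hkl' : (k : ℝ) < l := by exact_mod_cast hkl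
    simp only
    by_cases h1 : l < p
    · rw [if_pos (by omega), if_pos (by omega), if_pos (by omega), if_pos (by omega)]
      push_cast; nlinarith
    · have h2 : ¬ k < p := fun h => h1 ((hs p (mem_Icc.2 ⟨le_rfl, hpq⟩)).1 h)
      have h3 : q ≤ k := by
        by_contra h3
        have := (hs (k + 1) (mem_Icc.2 ⟨by omega, by omega⟩)).1 (by omega)
        omega
      rw [if_neg (by omega), if_pos (by omega), if_neg (by omega), if_pos (by omega),
        if_neg (by omega), if_pos (by omega)]
      by_cases h4 : k ≤ p
      · have e1 : k = p := by omega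
        have e2 : q = p := by omega
        subst e1; subst e2
        rw [if_pos le_rfl]; push_cast; nlinarith
      · rw [if_neg h4, if_pos (by omega)]; push_cast; nlinarith

/-- the weighted number of boundary edges -/
noncomputable def cost (f : X r → ℝ) (W : ℕ → ℝ) : ℝ := ∑ i ∈ range (n - 1), W (i + 1) * edg f i

variable {f : X r → ℝ} (h0 : ∀ σ, 0 ≤ f σ) (h1 : ∀ σ, f σ ≤ 1)

include h0 h1 in
lemma cost_mono {W W' : ℕ → ℝ} (h : ∀ k, 1 ≤ k → k < n → W k ≤ W' k) : cost f W ≤ cost f W' := by
  apply sum_le_sum
  intro i hi
  rw [mem_range] at hi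
  exact mul_le_mul_of_nonneg_right (h _ (by omega) (by omega)) (edg_nonneg h0 h1 i)

lemma cost_add (W W' : ℕ → ℝ) : cost f W + cost f W' = cost f (fun k => W k + W' k) := by
  unfold cost; rw [← sum_add_distrib]; exact sum_congr rfl (fun i _ => by ring)

include h0 h1 in
lemma cut' {S : Finset ℕ} (hS : Strict n S) (μ : ℕ) {W : ℕ → ℝ} (hW : Adm n S W)
    (hV : ∀ k l, k < l → l < n → Same S k l →
      (if k < μ ∧ μ ≤ l then 1 else 0) ≤ (W (k + 1) - W k) - (W (l + 1) - W l)) :
    Vq f (insert μ S) - Vq f S ≤ cost f W := cut hS hW μ hV h0 h1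

include h0 h1 in
lemma step_first {μ : ℕ} (hμ : μ < n) :
    Vq f (Icc μ μ) - Vq f ∅ ≤ cost f (fun k => if k ≤ μ then (k : ℝ) * (n - μ) / n else
      if k ≤ n then (μ : ℝ) * (n - k) / n else 0) := by
  have hn : (0 : ℝ) < n := by exact_mod_cast (show 0 < n by omega)
  have hμ' : (μ : ℝ) < n := by exact_mod_cast hμ
  have e : Icc μ μ = insert μ ∅ := by simp
  rw [e]
  apply cut' h0 h1 (strict_empty n) μ
  · refine ⟨?_, by simp, ?_, by simp⟩
    · intro k
      split_ifs with h h'
      · exact div_nonneg (mul_nonneg (by positivity) (by linarith)) hn.le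
      · have : (k : ℝ) ≤ n := by exact_mod_cast h'
        exact div_nonneg (mul_nonneg (by positivity) (by linarith)) hn.le
      · exact le_rfl
    · intro k hk
      rw [if_neg (by omega)]
      split_ifs with h
      · have : k = n := by omega
        subst this; simp
      · rfl
  · have V : ∀ k, k < n → (if k + 1 ≤ μ then ((k + 1 : ℕ) : ℝ) * (n - μ) / n else
        if k + 1 ≤ n then (μ : ℝ) * (n - (k + 1 : ℕ)) / n else 0)
        - (if k ≤ μ then (k : ℝ) * (n - μ) / n else if k ≤ n then (μ : ℝ) * (n - k) / n else 0)
        = (if k < μ then 1 else 0) - μ / n := by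
      intro k hk
      rcases lt_trichotomy k μ with h | h | h
      · rw [if_pos (by omega), if_pos (by omega), if_pos h]; push_cast; field_simp; ring
      · subst h
        rw [if_neg (by omega), if_pos (by omega), if_pos (by omega), if_neg (by omega)]
        push_cast; field_simp; ring
      · rw [if_neg (by omega), if_pos (by omega), if_neg (by omega), if_pos (by omega),
          if_neg (by omega)]
        push_cast; field_simp; ring
    intro k l hkl hl _
    rw [V k (by omega), V l hl]
    split_ifs <;> first | omega | linarith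

include h0 h1 in
lemma step_left {p q : ℕ} (hpq : p + 1 ≤ q) (hq : q < n) :
    Vq f (Icc p q) - Vq f (Icc (p + 1) q)
      ≤ cost f (fun k => if k ≤ p then (k : ℝ) / (p + 1) else 0) := by
  have hp : (0 : ℝ) < p + 1 := by positivity
  have e : Icc p q = insert p (Icc (p + 1) q) := by
    ext x; simp only [mem_Icc, mem_insert]; omega
  rw [e]
  apply cut' h0 h1 (strict_Icc hpq hq) p
  · refine ⟨?_, by simp, ?_, ?_⟩
    · intro k
      split_ifs
      · positivity
      · exact le_rfl
    · intro k hk
      rw [if_neg (by omega)]
    · intro k hk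
      rw [mem_Icc] at hk
      rw [if_neg (by omega)]
  · have V : ∀ k, k ≤ p → (if k + 1 ≤ p then ((k + 1 : ℕ) : ℝ) / (p + 1) else 0)
        - (if k ≤ p then (k : ℝ) / (p + 1) else 0)
        = (if k < p then 1 else 0) - p / (p + 1) := by
      intro k hk
      rcases lt_or_eq_of_le hk with h | h
      · rw [if_pos (by omega), if_pos (by omega), if_pos h]; push_cast; field_simp; ring
      · subst h
        rw [if_neg (by omega), if_pos (by omega), if_neg (by omega)]
    intro k l hkl hl hs
    have := hs (p + 1) (mem_Icc.2 ⟨le_rfl, hpq⟩)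
    by_cases hl' : l ≤ p
    · rw [V k (by omega), V l hl']
      split_ifs <;> first | omega | linarith
    · rw [if_neg (by omega), if_neg (by omega), if_neg (by omega), if_neg (by omega),
        if_neg (by omega)]
      norm_num

include h0 h1 in
lemma step_right {p q : ℕ} (hpq : p ≤ q) (hq : q + 1 < n) :
    Vq f (Icc p (q + 1)) - Vq f (Icc p q)
      ≤ cost f (fun k => if q < k ∧ k ≤ n then ((n : ℝ) - k) / (n - q) else 0) := by
  have hp : (0 : ℝ) < n - q := by
    have : (q : ℝ) < n := by exact_mod_cast (show q < n by omega)
    linarith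
  have e : Icc p (q + 1) = insert (q + 1) (Icc p q) := by
    ext x; simp only [mem_Icc, mem_insert]; omega
  rw [e]
  apply cut' h0 h1 (strict_Icc hpq (by omega)) (q + 1)
  · refine ⟨?_, by simp, ?_, ?_⟩
    · intro k
      split_ifs with h
      · have : (k : ℝ) ≤ n := by exact_mod_cast h.2
        exact div_nonneg (by linarith) hp.le
      · exact le_rfl
    · intro k hk
      split_ifs with h
      · have : k = n := by omega
        subst this; simp
      · rfl
    · intro k hk
      rw [mem_Icc] at hk
      rw [if_neg (by omega)]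
  · have V : ∀ k, q ≤ k → k < n →
        (if q < k + 1 ∧ k + 1 ≤ n then ((n : ℝ) - (k + 1 : ℕ)) / (n - q) else 0)
        - (if q < k ∧ k ≤ n then ((n : ℝ) - k) / (n - q) else 0)
        = (if k < q + 1 then 1 else 0) - 1 / (n - q) := by
      intro k hk hkn
      rcases lt_or_eq_of_le hk with h | h
      · rw [if_pos (by omega), if_pos (by omega), if_neg (by omega)]; push_cast; field_simp; ring
      · subst h
        rw [if_pos (by omega), if_neg (by omega), if_pos (by omega)]; push_cast; field_simp; ring
    intro k l hkl hl hs
    have := hs q (mem_Icc.2 ⟨hpq, le_rfl⟩)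
    by_cases hk' : q ≤ k
    · rw [V k hk' (by omega), V l (by omega) hl]
      split_ifs <;> first | omega | linarith
    · rw [if_neg (by omega), if_neg (by omega), if_neg (by omega), if_neg (by omega),
        if_neg (by omega)]
      norm_num

/-- harmonic numbers -/
noncomputable def har (k : ℕ) : ℝ := ∑ i ∈ range k, 1 / ((i : ℝ) + 1)

lemma har_succ (k : ℕ) : har (k + 1) = har k + 1 / ((k : ℝ) + 1) := by
  unfold har; rw [sum_range_succ]

include h0 h1 in
lemma run_left {q : ℕ} (hq : q < n) : ∀ p, 1 ≤ p → p ≤ q →
    Vq f (Icc 1 q) - Vq f (Icc p q)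
      ≤ cost f (fun k => if k ≤ p then (k : ℝ) * (har p - har k) else 0) := by
  intro p hp
  induction p, hp using Nat.le_induction with
  | base =>
    intro _
    rw [sub_self]
    have : cost f (fun _ => 0) = 0 := by simp [cost]
    refine le_trans this.ge ?_
    apply cost_mono h0 h1
    intro k hk _
    split_ifs with h
    · have : k = 1 := by omega
      subst this; simp
    · exact le_rfl
  | succ p hp ih =>
    intro hpq
    have a1 := ih (by omega)
    have a2 := step_left h0 h1 hpq hq
    have a3 := add_le_add a1 a2
    rw [cost_add] at a3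
    refine le_trans (by linarith) (a3.trans (cost_mono h0 h1 ?_))
    intro k _ _
    rcases lt_trichotomy k (p + 1) with h | h | h
    · rw [if_pos (by omega), if_pos (by omega), if_pos (by omega), har_succ]
      apply le_of_eq; ring
    · subst h
      rw [if_neg (by omega), if_neg (by omega), if_pos (by omega)]; simp
    · rw [if_neg (by omega), if_neg (by omega), if_neg (by omega)]; simp

include h0 h1 in
lemma run_right : ∀ u, 1 ≤ u → ∀ q, 1 ≤ q → q + u = n →
    Vq f (Icc 1 (n - 1)) - Vq f (Icc 1 q)
      ≤ cost f (fun k => if q ≤ k then ((n : ℝ) - k) * (har u - har (n - k)) else 0) := by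
  intro u hu
  induction u, hu using Nat.le_induction with
  | base =>
    intro q _ hq
    rw [show n - 1 = q by omega, sub_self]
    have : cost f (fun _ => 0) = 0 := by simp [cost]
    refine le_trans this.ge ?_
    apply cost_mono h0 h1
    intro k hk _
    split_ifs with h
    · rw [show n - k = 1 by omega]; simp
    · exact le_rfl
  | succ u hu ih =>
    intro q hq hqu
    have a1 := ih (q + 1) (by omega) (by omega)
    have a2 := step_right h0 h1 hq (show q + 1 < n by omega)
    have a3 := add_le_add a1 a2
    rw [cost_add] at a3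
    refine le_trans (by linarith) (a3.trans (cost_mono h0 h1 ?_))
    intro k _ hk
    have e : (n : ℝ) - q = u + 1 := by rw [← hqu]; push_cast; ring
    rcases lt_trichotomy q k with h | h | h
    · rw [if_pos (by omega), if_pos (by omega), if_pos (by omega), har_succ, e]
      apply le_of_eq; ring
    · subst h
      rw [if_neg (by omega), if_neg (by omega), if_pos (by omega), show n - q = u + 1 by omega]
      simp
    · rw [if_neg (by omega), if_neg (by omega), if_neg (by omega)]; simp

/-- the weights of the scheme with first cut `μ` -/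
noncomputable def rho (n μ k : ℕ) : ℝ :=
  if k ≤ μ then (k : ℝ) * ((n - μ) / n + har μ - har k)
  else ((n : ℝ) - k) * (μ / n + har (n - μ) - har (n - k))

include h0 h1 in
lemma scheme {μ : ℕ} (hμ1 : 1 ≤ μ) (hμ : μ < n) :
    Vq f (Icc 1 (n - 1)) - Vq f ∅ ≤ cost f (rho n μ) := by
  have a1 := step_first h0 h1 hμ
  have a2 := run_left h0 h1 hμ μ hμ1 le_rfl
  have a3 := run_right h0 h1 (n - μ) (by omega) μ hμ1 (by omega)
  have a4 := add_le_add (add_le_add a1 a2) a3
  rw [cost_add, cost_add] at a4
  refine le_trans (by linarith) (a4.trans (cost_mono h0 h1 ?_))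
  intro k _ hk
  unfold rho
  rcases lt_trichotomy k μ with h | h | h
  · rw [if_pos (by omega), if_pos (by omega), if_neg (by omega), if_pos (by omega)]
    apply le_of_eq; ring
  · subst h
    rw [if_pos (by omega), if_pos (by omega), if_pos (by omega), if_pos (by omega)]
    apply le_of_eq; ring
  · rw [if_neg (by omega), if_pos (by omega), if_neg (by omega), if_pos (by omega),
      if_neg (by omega)]
    apply le_of_eq; ring

end Pool.Agent.Lib.MP_43bc59_co
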