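import Pool.Agent.Lib.MP_43bc59_co.Step
import Pool.Agent.Lib.MP_43bc59_co.Main

set_option autoImplicit false

namespace Pool.Agent.Lib.MP_43bc59_co

open Finset

variable {n : ℕ} {r : Fin n → Fin n → Prop}

theorem sharp_of (hF : St_F) (E : Finset (Equiv.Perm (Fin n)))
    (hE : ∀ σ : Equiv.Perm (Fin n), σ ∈ E ↔ ∀ i j : Fin n, r (σ i) (σ j) → i ≤ j)
    (A : Finset (Equiv.Perm (Fin n))) (hA : A ⊆ E) :
    4 * ((A.card : ℝ) * ((E \ A).card : ℝ)) ≤ (n : ℝ) * (E.card : ℝ) *
        (((A ×ˢ (E \ A)).filter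
          (fun p : Equiv.Perm (Fin n) × Equiv.Perm (Fin n) =>
            ∃ i j : Fin n, j.val = i.val + 1 ∧ p.2 = p.1 * Equiv.swap i j)).card : ℝ) := by
  classical
  have hok : ∀ σ, σ ∈ E ↔ Ok r σ := by
    intro σ
    rw [hE]
    constructor
    · intro h a b hab
      apply h; simpa using hab
    · intro h i j hij
      simpa using h _ _ hij
  set f : X r → ℝ := fun σ => if σ.1 ∈ A then 1 else 0 with hf
  have h0 : ∀ σ, 0 ≤ f σ := fun σ => by simp only [hf]; split_ifs <;> norm_num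
  have h1 : ∀ σ, f σ ≤ 1 := fun σ => by simp only [hf]; split_ifs <;> norm_num
  have hb : ∀ σ, f σ * (1 - f σ) = 0 := fun σ => by simp only [hf]; split_ifs <;> norm_num
  have key := tt_of hF n r f h0 h1 hb 0 n univ (by omega) le_rfl isCl_univ (1 / 2)
  have c1 : ∑ σ, f σ = A.card := by
    rw [← sum_subtype E hok (fun σ => if σ ∈ A then (1 : ℝ) else 0), sum_boole,
      filter_mem_eq_inter, inter_eq_right.2 hA]
  have c3 : Fintype.card (X r) = E.card := Fintype.card_of_subtype E hok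
  have c4 : ((E \ A).card : ℝ) = E.card - A.card := by
    rw [card_sdiff_of_subset hA, Nat.cast_sub (card_le_card hA)]
  set T := (A ×ˢ (E \ A)).filter
    (fun p : Equiv.Perm (Fin n) × Equiv.Perm (Fin n) =>
      ∃ i j : Fin n, j.val = i.val + 1 ∧ p.2 = p.1 * Equiv.swap i j) with hT
  have c5 : ∑ i ∈ range (n - 1), edg f i ≤ T.card := by
    have e : ∑ i ∈ range (n - 1), edg f i = (((range (n - 1) ×ˢ (univ : Finset (X r))).filter
        (fun z => z.2.1 ∈ A ∧ (tau z.1 z.2).1 ∉ A)).card : ℝ) := by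
      rw [← sum_boole, sum_product]
      apply sum_congr rfl
      intro i _
      unfold edg
      apply sum_congr rfl
      intro σ _
      simp only [hf]
      by_cases a1 : σ.1 ∈ A <;> by_cases a2 : (tau i σ).1 ∈ A <;> simp [a1, a2]
    rw [e]
    have hne : ∀ z : ℕ × X r, z.2.1 ∈ A → (tau z.1 z.2).1 ∉ A → tau z.1 z.2 ≠ z.2 :=
      fun z a1 a2 h => a2 (h.symm ▸ a1)
    apply Nat.cast_le.2
    apply card_le_card_of_injOn (fun z => (z.2.1, (tau z.1 z.2).1))
    · intro z hz
      simp only [coe_filter, mem_product, mem_range, mem_univ, and_true, Set.mem_ofPred_eq] at hz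
      obtain ⟨hi, a1, a2⟩ := hz
      simp only [hT, coe_filter, mem_product, mem_sdiff, Set.mem_ofPred_eq]
      refine ⟨⟨a1, (hok _).2 (tau z.1 z.2).2, a2⟩, ⟨z.1, by omega⟩, ⟨z.1 + 1, by omega⟩, rfl, ?_⟩
      rw [tau_val (hne z a1 a2)]
      unfold sw
      rw [dif_pos (by omega)]
    · intro z hz w hw h
      simp only [coe_filter, mem_product, mem_range, mem_univ, and_true, Set.mem_ofPred_eq] at hz hw
      simp only [Prod.mk.injEq] at h
      have e2 : z.2 = w.2 := Subtype.ext h.1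
      have e1 := h.2
      rw [tau_val (hne z hz.2.1 hz.2.2), tau_val (hne w hw.2.1 hw.2.2), h.1,
        mul_left_cancel_iff] at e1
      exact Prod.ext (sw_inj (by omega) (by omega) e1) e2
  have c6 : cA f 0 n univ + cB f 0 n univ = n * ∑ i ∈ range (n - 1), edg f i := by
    rw [cA_add_cB, Nat.cast_zero, sub_zero, range_eq_Ico]; rfl
  rw [c1, card_univ, c3] at key
  rw [c4]
  have hM : (0 : ℝ) ≤ E.card := by positivity
  have c7 := mul_le_mul_of_nonneg_left c5 (show (0 : ℝ) ≤ n * E.card by positivity)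
  have c8 : (E.card : ℝ) * ((1 / 2) ^ 2 * cA f 0 n univ + (1 - 1 / 2) ^ 2 * cB f 0 n univ)
      = (n * E.card * ∑ i ∈ range (n - 1), edg f i) / 4 := by
    have : (1 / 2 : ℝ) ^ 2 * cA f 0 n univ + (1 - 1 / 2) ^ 2 * cB f 0 n univ
        = (cA f 0 n univ + cB f 0 n univ) / 4 := by ring
    rw [this, c6]; ring
  rw [c8] at key
  linarith

/-- words in which `y` directly follows `x` -/
def Adj (x y : Fin n) : Finset (Equiv.Perm (Fin n)) :=
  univ.filter (fun σ => (σ⁻¹ y).val = (σ⁻¹ x).val + 1)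

lemma Adj_card {x y x' y' : Fin n} (h : x ≠ y) (h' : x' ≠ y') :
    (Adj x y).card = (Adj x' y').card := by
  set π : Equiv.Perm (Fin n) := Equiv.swap (Equiv.swap x x' y) y' * Equiv.swap x x' with hπ
  have e1 : π x = x' := by
    rw [hπ, Equiv.Perm.mul_apply, Equiv.swap_apply_left]
    apply Equiv.swap_apply_of_ne_of_ne _ h'
    intro e
    exact h ((Equiv.swap x x').injective ((Equiv.swap_apply_left x x').trans e))
  have e2 : π y = y' := by rw [hπ, Equiv.Perm.mul_apply, Equiv.swap_apply_left]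
  apply card_bijective (fun σ => π * σ) (Group.mulLeft_bijective π)
  intro σ
  have i1 : π⁻¹ x' = x := by rw [← e1]; exact π.symm_apply_apply x
  have i2 : π⁻¹ y' = y := by rw [← e2]; exact π.symm_apply_apply y
  simp only [Adj, mem_filter, mem_univ, true_and, mul_inv_rev, Equiv.Perm.mul_apply, i1, i2]

lemma Adj_bound {x y : Fin n} (h : x ≠ y) :
    n * (Adj x y).card ≤ (univ : Finset (Equiv.Perm (Fin n))).card := by
  have hn : 2 ≤ n := by
    have := x.2; have := y.2
    have : x.val ≠ y.val := fun e => h (Fin.ext e)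
    omega
  have a1 : ∑ z ∈ (univ : Finset (Fin n)).offDiag, (Adj z.1 z.2).card
      = (n * n - n) * (Adj x y).card := by
    rw [sum_congr rfl (fun z hz => Adj_card (mem_offDiag.1 hz).2.2 h), sum_const, offDiag_card,
      card_univ, Fintype.card_fin, smul_eq_mul]
  have a2 : ∑ z ∈ (univ : Finset (Fin n)).offDiag, (Adj z.1 z.2).card
      ≤ (univ : Finset (Equiv.Perm (Fin n))).card * (n - 1) := by
    simp only [Adj, card_filter]
    rw [sum_comm]
    apply (sum_le_card_nsmul _ _ (n - 1) _).trans (le_of_eq (smul_eq_mul _ _))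
    intro σ _
    rw [← card_filter, ← card_range (n - 1)]
    apply card_le_card_of_injOn (fun z => (σ⁻¹ z.1).val)
    · intro z hz
      have := (mem_filter.1 (mem_coe.1 hz)).2
      have := (σ⁻¹ z.2).2
      rw [mem_coe, mem_range]; dsimp only; omega
    · intro z hz w hw e
      have b1 := (mem_filter.1 (mem_coe.1 hz)).2
      have b2 := (mem_filter.1 (mem_coe.1 hw)).2
      have e' : (σ⁻¹ z.1).val = (σ⁻¹ w.1).val := e
      exact Prod.ext (σ⁻¹.injective (Fin.ext e')) (σ⁻¹.injective (Fin.ext (by omega)))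
  rw [a1] at a2
  apply Nat.le_of_mul_le_mul_right _ (show 0 < n - 1 by omega)
  refine le_trans (le_of_eq ?_) a2
  rw [← Nat.mul_sub_one]; ring

/-- the extremal example: the antichain and the words with `x` before `y` -/
theorem extremal {x y : Fin n} (h : x ≠ y) :
    ∃ A : Finset (Equiv.Perm (Fin n)), 2 * A.card = (univ : Finset (Equiv.Perm (Fin n))).card ∧
      n * ((A ×ˢ (univ \ A)).filter
          (fun p : Equiv.Perm (Fin n) × Equiv.Perm (Fin n) =>
            ∃ i j : Fin n, j.val = i.val + 1 ∧ p.2 = p.1 * Equiv.swap i j)).card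
        ≤ (univ : Finset (Equiv.Perm (Fin n))).card := by
  refine ⟨univ.filter (fun σ => σ⁻¹ x < σ⁻¹ y), ?_, ?_⟩
  · rw [← card_filter_add_card_filter_not (s := univ) (fun σ : Equiv.Perm (Fin n) => σ⁻¹ x < σ⁻¹ y),
      two_mul]
    congr 1
    apply card_bijective (fun σ => Equiv.swap x y * σ) (Group.mulLeft_bijective _)
    intro σ
    simp only [mem_filter, mem_univ, true_and, mul_inv_rev, Equiv.Perm.mul_apply, Equiv.swap_inv,
      Equiv.swap_apply_left, Equiv.swap_apply_right, not_lt]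
    exact ⟨le_of_lt, fun h' => lt_of_le_of_ne h' (fun e => h (σ⁻¹.injective e))⟩
  · refine le_trans (Nat.mul_le_mul_left n ?_) (Adj_bound h)
    have key : ∀ (σ : Equiv.Perm (Fin n)) (i j : Fin n), j.val = i.val + 1 → σ⁻¹ x < σ⁻¹ y →
        ¬ (σ * Equiv.swap i j)⁻¹ x < (σ * Equiv.swap i j)⁻¹ y → σ⁻¹ x = i ∧ σ⁻¹ y = j := by
      intro σ i j hij a1 a2
      simp only [mul_inv_rev, Equiv.Perm.mul_apply, Equiv.swap_inv, Equiv.swap_apply_def] at a2
      rw [Fin.lt_def] at a1
      split_ifs at a2 with b1 b2 b3 b4 b5 b6 b7 b8 <;>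
        simp only [Fin.ext_iff, Fin.lt_def] at * <;> omega
    apply card_le_card_of_injOn (fun p => p.1)
    · intro p hp
      simp only [coe_filter, mem_product, mem_sdiff, mem_filter, mem_univ, true_and,
        Set.mem_ofPred_eq] at hp
      obtain ⟨⟨a1, a2⟩, i, j, hij, e⟩ := hp
      rw [e] at a2
      obtain ⟨b1, b2⟩ := key _ i j hij a1 a2
      simp only [Adj, coe_filter, mem_univ, true_and, Set.mem_ofPred_eq, b1, b2, hij]
    · intro p hp q hq e
      simp only [coe_filter, mem_product, mem_sdiff, mem_filter, mem_univ, true_and,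
        Set.mem_ofPred_eq] at hp hq
      obtain ⟨⟨a1, a2⟩, i, j, hij, e1⟩ := hp
      obtain ⟨⟨a3, a4⟩, i', j', hij', e2⟩ := hq
      rw [e1] at a2
      rw [e2] at a4
      obtain ⟨b1, b2⟩ := key _ i j hij a1 a2
      obtain ⟨b3, b4⟩ := key _ i' j' hij' a3 a4
      have e' : p.1 = q.1 := e
      rw [← e'] at b3 b4 e2
      exact Prod.ext e' (by rw [e1, e2, ← b1, ← b2, b3, b4])

end Pool.Agent.Lib.MP_43bc59_co
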