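import Pool.Agent.Lib.MP_43bc59_co.Plus

set_option autoImplicit false

namespace Pool.Agent.Lib.MP_43bc59_co

open Finset

variable {n : ℕ} {r : Fin n → Fin n → Prop}

lemma IsCl.swap_mem {p q : ℕ} {C : Finset (X r)} (hC : IsCl p q C) (hpq : p + 1 < q) (hq : q ≤ n)
    {x y : Fin n} (hy : (sub C y p).Nonempty) {σ : X r} (hσ : σ ∈ sub (sub C x p) y (p + 1)) :
    tau p σ ∈ sub (sub C y p) x (p + 1) := by
  rw [mem_sub, mem_sub] at hσ
  obtain ⟨⟨h1, h2⟩, h3⟩ := hσ
  rw [mem_sub, mem_sub]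
  rcases tau_cases (show p + 1 < n by omega) σ x y h2 h3 with ⟨e, _⟩ | ⟨_, h⟩
  · refine ⟨⟨hC.tau_mem hq le_rfl hpq h1, ?_⟩, ?_⟩
    · rw [e]; simp only [h3, s_right]
    · rw [e]; simp only [h2, s_left]
  · exfalso
    obtain ⟨ρ, hρ⟩ := hy
    rw [mem_sub] at hρ
    have a1 := pos_le ρ h
    have a2 : pos ρ x ≠ p := fun e => by
      have := pos_inj ρ (e.trans hρ.2.symm)
      subst this; omega
    have a3 := hC.pos_eq hρ.1 h1 x
    omega

lemma IsCl.sum_swap {p q : ℕ} {C : Finset (X r)} (hC : IsCl p q C) (hpq : p + 1 < q) (hq : q ≤ n)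
    {x y : Fin n} (hx : (sub C x p).Nonempty) (hy : (sub C y p).Nonempty) (h : X r → ℝ) :
    ∑ σ ∈ sub (sub C x p) y (p + 1), h (tau p σ) = ∑ σ ∈ sub (sub C y p) x (p + 1), h σ := by
  apply sum_bij' (fun σ _ => tau p σ) (fun σ _ => tau p σ)
  · intro σ hσ; exact hC.swap_mem hpq hq hy hσ
  · intro σ hσ; exact hC.swap_mem hpq hq hx hσ
  · intro σ _; exact tau_tau p σ
  · intro σ _; exact tau_tau p σ
  · intro σ _; rfl

lemma sum_sub_type (P : Fin n → Prop) [DecidablePred P] (h : Fin n → ℝ) (hz : ∀ x, ¬ P x → h x = 0) :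
    ∑ x : {x // P x}, h x.1 = ∑ x, h x := by
  rw [← sum_subtype (univ.filter P) (by simp) h, sum_filter]
  apply sum_congr rfl
  intro x _
  split_ifs with hx
  · rfl
  · exact (hz x hx).symm

lemma mul_mean (D : Finset (X r)) (f : X r → ℝ) :
    (D.card : ℝ) * ((∑ σ ∈ D, f σ) / D.card) = ∑ σ ∈ D, f σ := by
  rcases D.eq_empty_or_nonempty with h | h
  · rw [h]; simp
  · have : (0 : ℝ) < D.card := by exact_mod_cast h.card_pos
    exact mul_div_cancel₀ _ this.ne'

lemma sum_compl' (D : Finset (X r)) (f : X r → ℝ) :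
    ∑ σ ∈ D, (1 - f σ) = D.card - ∑ σ ∈ D, f σ := by
  rw [sum_sub_distrib]; simp

section norm

variable {f : X r → ℝ} (h0 : ∀ σ, 0 ≤ f σ) (h1 : ∀ σ, f σ ≤ 1) (hb : ∀ σ, f σ * (1 - f σ) = 0)

/-- mean of `f` on `D` -/
noncomputable def mn (f : X r → ℝ) (D : Finset (X r)) : ℝ := (∑ σ ∈ D, f σ) / D.card

lemma mn_compl {D : Finset (X r)} (hD : D.Nonempty) (f : X r → ℝ) :
    mn (fun σ => 1 - f σ) D = 1 - mn f D := by
  have : (0 : ℝ) < D.card := by exact_mod_cast hD.card_pos
  unfold mn; rw [sum_compl', sub_div, div_self this.ne']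

include h0 in
lemma mn_nonneg (D : Finset (X r)) : 0 ≤ mn f D :=
  div_nonneg (sum_nonneg (fun σ _ => h0 σ)) (by positivity)

include h1 in
lemma mn_le (D : Finset (X r)) : mn f D ≤ 1 :=
  div_le_one_of_le₀ (sum_le_card h1 D) (by positivity)

include h0 h1 in
/-- the first-letter test in normalised form -/
lemma test_mn {p q l : ℕ} (hl : q = p + l + 1) (hq : q ≤ n) {C : Finset (X r)} (hC : IsCl p q C)
    (hne : C.Nonempty) {β : Fin n → ℝ} (b0 : ∀ x, 0 ≤ β x) (b1 : ∀ x, β x ≤ 1) :
    ∑ x, β x * (((l : ℝ) + 1) * (sub C x p).card / C.card * (mn f (sub C x p) - mn f C))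
      ≤ cA f p q C / C.card := by
  subst hl
  have M0 : (0 : ℝ) < C.card := by exact_mod_cast hne.card_pos
  have t := test_first (by omega) hq hC h0 h1 b0 b1
  have e : ∀ x, β x * (((l : ℝ) + 1) * (sub C x p).card / C.card * (mn f (sub C x p) - mn f C))
      = ((l : ℝ) + 1) * (β x * (C.card * ∑ σ ∈ sub C x p, f σ
        - (∑ σ ∈ C, f σ) * (sub C x p).card)) / (C.card * C.card) := by
    intro x
    have := mul_mean (sub C x p) f
    unfold mn
    set m := (∑ σ ∈ sub C x p, f σ) / (sub C x p).card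
    rw [← this]
    field_simp
  rw [sum_congr rfl (fun x _ => e x), ← sum_div, ← mul_sum, div_le_div_iff₀ (mul_pos M0 M0) M0]
  push_cast at t
  have e2 : ((p : ℝ) + l + 1 - p) = l + 1 := by ring
  rw [e2] at t
  nlinarith [mul_le_mul_of_nonneg_right t M0.le]

include h0 h1 hb in
lemma plus0_mn {p q l : ℕ} (hl : q = p + l) (hq : q ≤ n) {C : Finset (X r)} (hC : IsCl p q C)
    {y : Fin n} (hy : (sub C y p).Nonempty) :
    mn f C * (1 - mn f (sub C y p)) ≤ cA f p q C / C.card := by
  subst hl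
  have My : (0 : ℝ) < (sub C y p).card := by exact_mod_cast hy.card_pos
  have M0 : (0 : ℝ) < C.card := by exact_mod_cast (hy.mono (sub_subset C y p)).card_pos
  have t := plus0 h0 h1 hb y l p C hq hC
  unfold mn
  rw [div_mul_eq_mul_div, div_le_div_iff_of_pos_right M0]
  apply le_of_mul_le_mul_left _ My
  refine le_trans (le_of_eq ?_) t
  field_simp

include h0 h1 hb in
lemma plusW_mn {p q l : ℕ} (hl : q = p + l + 1) (hq : q ≤ n) {C : Finset (X r)} (hC : IsCl p q C)
    (y : Fin n) {W : ℝ} (hW : W = ((l : ℝ) + 1) * (sub C y p).card / C.card) (h2 : W ≤ 2) :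
    W * (mn f C - mn f (sub C y p)) + (2 - W) * (1 - mn f C) * (W * mn f (sub C y p))
      ≤ cA f p q C / C.card := by
  subst hl
  have t := plusW h0 h1 hb y l p C hq hC (hW ▸ h2)
  have e : ((l : ℝ) + 1) * (∑ σ ∈ sub C y p, f σ) / C.card = W * mn f (sub C y p) := by
    have := mul_mean (sub C y p) f
    rw [hW]; unfold mn
    set m := (∑ σ ∈ sub C y p, f σ) / (sub C y p).card
    rw [← this]; ring
  rw [← hW, e] at t
  refine le_trans (le_of_eq ?_) t
  unfold mn; ring

include h0 h1 hb in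
lemma var_le_cA {p l : ℕ} (hq : p + l + 1 ≤ n) {C : Finset (X r)} (hC : IsCl p (p + l + 1) C) :
    (∑ σ ∈ C, f σ) * (C.card - ∑ σ ∈ C, f σ) ≤ C.card * cA f p (p + l + 1) C := by
  have := sum_le_sum (s := univ) (fun y _ => plus0 h0 h1 hb y (l + 1) p C hq hC)
  rwa [← mul_sum, sum_sub_distrib, ← sum_mul, card_sub _ (by omega), sum_sub _ (by omega)] at this

/-- the two-cost inequality on a class -/
def TT (f : X r → ℝ) (p q : ℕ) (C : Finset (X r)) : Prop :=
  ∀ θ : ℝ, (∑ σ ∈ C, f σ) * (C.card - ∑ σ ∈ C, f σ)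
    ≤ C.card * (θ ^ 2 * cA f p q C + (1 - θ) ^ 2 * cB f p q C)

lemma TT.mn {p q : ℕ} {C : Finset (X r)} (h : TT f p q C) (hne : C.Nonempty) (θ : ℝ) :
    mn f C * (1 - mn f C)
      ≤ θ ^ 2 * (cA f p q C / C.card) + (1 - θ) ^ 2 * (cB f p q C / C.card) := by
  have M0 : (0 : ℝ) < C.card := by exact_mod_cast hne.card_pos
  have t := h θ
  unfold MP_43bc59_co.mn
  apply le_of_mul_le_mul_left _ (mul_pos M0 M0)
  refine le_trans (le_of_eq ?_) (t.trans (le_of_eq ?_)) <;> field_simp

include h0 h1 hb in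
lemma half (hF : St_F) {p q l : ℕ} (hl : q = p + l + 2) (hq : q ≤ n) {C : Finset (X r)}
    (hC : IsCl p q C) (ih : ∀ x, TT f (p + 1) q (sub C x p)) {θ : ℝ}
    (hθ : θ * (cA f p q C + cB f p q C) = cB f p q C) (hpos : 0 < cA f p q C + cB f p q C)
    (h2 : θ ≤ 1 / 2) :
    (∑ σ ∈ C, f σ) * (C.card - ∑ σ ∈ C, f σ) ≤ C.card * (θ * cA f p q C) := by
  classical
  rcases C.eq_empty_or_nonempty with h | hne
  · rw [h]; simp
  by_contra hc
  push Not at hc
  have M0 : (0 : ℝ) < C.card := by exact_mod_cast hne.card_pos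
  have hp : p < n := by omega
  have hp1 : p + 1 < n := by omega
  have g0 : ∀ σ, 0 ≤ 1 - f σ := fun σ => by linarith [h1 σ]
  have g1 : ∀ σ, 1 - f σ ≤ 1 := fun σ => by linarith [h0 σ]
  have gb : ∀ σ, (1 - f σ) * (1 - (1 - f σ)) = 0 := fun σ => by linarith [hb σ]
  have hL : (q : ℝ) - p = l + 2 := by rw [hl]; push_cast; ring
  have rE := cA_add_cB f p q C
  rw [hL] at rE
  have E0 : 0 < cE f p q C := by
    by_contra h
    have : ((l : ℝ) + 2) * cE f p q C ≤ 0 :=
      mul_nonpos_of_nonneg_of_nonpos (by positivity) (not_lt.1 h)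
    linarith
  have θ1 : 1 ≤ θ * (l + 2) := by
    apply le_of_mul_le_mul_right _ E0
    have := cE_le_cB h0 h1 p q C
    rw [rE] at hθ
    nlinarith
  have θ0 : 0 < θ := by
    by_contra h
    have : θ * ((l : ℝ) + 2) ≤ 0 := mul_nonpos_of_nonpos_of_nonneg (not_lt.1 h) (by positivity)
    linarith
  set a := mn f C with ha
  set A0 := cA f p q C / C.card with hA0
  have A00 : 0 ≤ A0 := div_nonneg (cA_nonneg h0 h1 _ _ _) M0.le
  have hlt : θ * A0 < a * (1 - a) := by
    apply lt_of_mul_lt_mul_left _ (mul_pos M0 M0).le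
    refine lt_of_le_of_lt (le_of_eq ?_) (hc.trans_le (le_of_eq ?_))
    · rw [hA0]; field_simp
    · rw [ha]; unfold mn; field_simp
  have a0 : 0 < a := by
    have := mn_nonneg h0 C
    have := mul_nonneg θ0.le A00
    rcases (show 0 ≤ a from mn_nonneg h0 C).eq_or_lt with h | h
    · rw [← h] at hlt; linarith
    · exact h
  have a1 : a < 1 := by
    have := mul_nonneg θ0.le A00
    rcases (show a ≤ 1 from mn_le h1 C).eq_or_lt with h | h
    · rw [h] at hlt; linarith
    · exact h
  let ι := {x : Fin n // (sub C x p).Nonempty}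
  let w : Fin n → ℝ := fun x => ((l : ℝ) + 2) * (sub C x p).card / C.card
  let g : Fin n → ℝ := fun x => mn f (sub C x p)
  let A : Fin n → ℝ := fun x => cA f (p + 1) q (sub C x p) / (sub C x p).card
  let B : Fin n → ℝ := fun x => cB f (p + 1) q (sub C x p) / (sub C x p).card
  let Φ : Fin n → ℝ := fun x => θ ^ 2 * A x + (1 - θ) ^ 2 * B x - g x * (1 - g x)
  let c : Fin n → Fin n → ℝ := fun x y =>
    ((l : ℝ) + 2) * (l + 1) * (sub (sub C x p) y (p + 1)).card / C.card
  let G : Fin n → Fin n → ℝ := fun x y => mn f (sub (sub C x p) y (p + 1))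
  have wz : ∀ x, ¬ (sub C x p).Nonempty → w x = 0 := by
    intro x hx; rw [not_nonempty_iff_eq_empty] at hx
    simp only [w, hx, card_empty, Nat.cast_zero, mul_zero, zero_div]
  have Mx : ∀ x : ι, (0 : ℝ) < (sub C x.1 p).card := fun x => by exact_mod_cast x.2.card_pos
  have w1 : ∀ x : ι, 1 ≤ w x.1 := by
    intro x
    obtain ⟨σ, hσ⟩ := x.2
    have hC' : IsCl p (p + (l + 1) + 1) C := by rwa [hl] at hC
    have := fish_one (by omega) hC' hσ
    simp only [w]
    rw [le_div_iff₀ M0]; push_cast at this; linarith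
  have cw : ∀ x y : ι, x ≠ y → w x.1 * w y.1 ≤ c x.1 y.1 := by
    intro x y hxy
    have hC' : IsCl p (p + l + 2) C := by rwa [hl] at hC
    have := fish_ff (by omega) hC' (show x.1 ≠ y.1 from fun h => hxy (Subtype.ext h))
    simp only [w, c]
    rw [div_mul_div_comm, div_le_div_iff₀ (mul_pos M0 M0) M0]
    have := mul_le_mul_of_nonneg_left this (show (0 : ℝ) ≤ (l + 2) * C.card by positivity)
    nlinarith
  have ne2 : ∀ x y : ι, x ≠ y → (sub (sub C x.1 p) y.1 (p + 1)).Nonempty := by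
    intro x y hxy
    by_contra h
    rw [not_nonempty_iff_eq_empty] at h
    have := cw x y hxy
    simp only [c, h, card_empty, Nat.cast_zero, mul_zero, zero_div] at this
    nlinarith [w1 x, w1 y]
  have sF : ∑ x, w x * g x = (l + 2) * a := by
    have : ∀ x, w x * g x = ((l : ℝ) + 2) * (∑ σ ∈ sub C x p, f σ) / C.card := by
      intro x
      rw [← mul_mean (sub C x p) f]; simp only [w, g, mn]; ring
    rw [sum_congr rfl (fun x _ => this x), ← sum_div, ← mul_sum, sum_sub _ hp, ha]
    unfold mn; ring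
  have sW : ∑ x, w x = l + 2 := by
    simp only [w]
    rw [← sum_div, ← mul_sum, card_sub _ hp]; field_simp
  have ext : ∀ β : ι → ℝ, (∀ j, 0 ≤ β j) → (∀ j, β j ≤ 1) → ∃ γ : Fin n → ℝ, (∀ x, 0 ≤ γ x) ∧
      (∀ x, γ x ≤ 1) ∧ ∀ h : Fin n → ℝ, ∑ x : ι, β x * h x.1 = ∑ x, γ x * h x := by
    intro β b0 b1
    refine ⟨fun x => if h : (sub C x p).Nonempty then β ⟨x, h⟩ else 0, fun x => ?_, fun x => ?_,
      fun h => ?_⟩
    · dsimp only; split_ifs
      · exact b0 _
      · exact le_rfl
    · dsimp only; split_ifs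
      · exact b1 _
      · exact zero_le_one
    · rw [← sum_sub_type (fun x => (sub C x p).Nonempty) _
        (fun x hx => by dsimp only; rw [dif_neg hx, zero_mul])]
      exact sum_congr rfl (fun x _ => by dsimp only; rw [dif_pos x.2])
  have cq : ∀ (x : ι) (y : Fin n),
      c x.1 y = w x.1 * (((l : ℝ) + 1) * (sub (sub C x.1 p) y (p + 1)).card / (sub C x.1 p).card) := by
    intro x y
    have := Mx x
    simp only [w, c]; field_simp
  have cq' : ∀ (x : ι) (y : Fin n), c x.1 y / w x.1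
      = ((l : ℝ) + 1) * (sub (sub C x.1 p) y (p + 1)).card / (sub C x.1 p).card := by
    intro x y
    rw [cq, mul_div_cancel_left₀ _ (by linarith [w1 x])]
  have hw : ∀ x, w x = (((l + 1 : ℕ) : ℝ) + 1) * (sub C x p).card / C.card := by
    intro x; simp only [w]; push_cast; ring
  have key := hF ι a θ (fun x => w x.1) (fun x => g x.1) (fun x => A x.1) (fun x => Φ x.1)
    (fun x y => c x.1 y.1) (fun x y => G x.1 y.1) θ0 h2 a0 a1 w1 (fun x => mn_nonneg h0 _)
    (fun x => mn_le h1 _) ?_ ?_ ?_ ?_ ?_ ?_ ?_ cw (fun x y => mn_nonneg h0 _)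
    (fun x y => mn_le h1 _) ?_ ?_ ?_ ?_ ?_ ?_ ?_
  · have s1 : ∑ j : ι, ∑ k : ι, (if j = k then 0 else c j.1 k.1 * max (G j.1 k.1 - G k.1 j.1) 0)
        ≤ ((l : ℝ) + 2) * (l + 1) * eC f C p / C.card := by
      have b1 : ∀ j k : ι, (if j = k then 0 else c j.1 k.1 * max (G j.1 k.1 - G k.1 j.1) 0)
          ≤ ((l : ℝ) + 2) * (l + 1) * eC f (sub (sub C j.1 p) k.1 (p + 1)) p / C.card := by
        intro j k
        have e0 := eC_nonneg h0 h1 (sub (sub C j.1 p) k.1 (p + 1)) p
        split_ifs with hjk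
        · positivity
        have m0 : (0 : ℝ) < (sub (sub C j.1 p) k.1 (p + 1)).card := by
          exact_mod_cast (ne2 j k hjk).card_pos
        have e1 := hC.sum_swap (by omega) hq j.2 k.2 (fun _ => 1)
        simp only [sum_const, nsmul_eq_mul, mul_one] at e1
        have e2 := hC.sum_swap (by omega) hq j.2 k.2 f
        have e3 : ∑ σ ∈ sub (sub C j.1 p) k.1 (p + 1), f σ
            - ∑ σ ∈ sub (sub C k.1 p) j.1 (p + 1), f σ
            ≤ eC f (sub (sub C j.1 p) k.1 (p + 1)) p := by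
          rw [← e2, ← sum_sub_distrib]
          apply sum_le_sum
          intro σ _
          nlinarith [mul_nonneg (g0 σ) (h0 (tau p σ))]
        have e4 : ((sub (sub C j.1 p) k.1 (p + 1)).card : ℝ) * max (G j.1 k.1 - G k.1 j.1) 0
            ≤ eC f (sub (sub C j.1 p) k.1 (p + 1)) p := by
          rcases le_total (G j.1 k.1 - G k.1 j.1) 0 with h | h
          · rw [max_eq_right h, mul_zero]; exact e0
          · rw [max_eq_left h, mul_sub]
            have i1 := mul_mean (sub (sub C j.1 p) k.1 (p + 1)) f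
            have i2 := mul_mean (sub (sub C k.1 p) j.1 (p + 1)) f
            rw [← e1] at i2
            simp only [G, mn]
            rw [← e1, i1, i2]; exact e3
        simp only [c]
        rw [div_mul_eq_mul_div, mul_assoc (((l : ℝ) + 2) * (l + 1))]
        exact div_le_div_of_nonneg_right (mul_le_mul_of_nonneg_left e4 (by positivity)) M0.le
      refine (sum_le_sum (fun j _ => sum_le_sum (fun k _ => b1 j k))).trans ?_
      have b2 : ∀ h : Fin n → ℝ, (∀ x, 0 ≤ h x) → ∑ x : ι, h x.1 ≤ ∑ x, h x := by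
        intro h hh
        rw [← sum_subtype (univ.filter (fun x => (sub C x p).Nonempty)) (by simp) h]
        exact sum_le_sum_of_subset_of_nonneg (filter_subset _ _) (fun x _ _ => hh x)
      have b3 : ∀ j : Fin n, ∑ k : ι,
          ((l : ℝ) + 2) * (l + 1) * eC f (sub (sub C j p) k.1 (p + 1)) p / C.card
          ≤ ((l : ℝ) + 2) * (l + 1) * eC f (sub C j p) p / C.card := by
        intro j
        refine (b2 (fun k => ((l : ℝ) + 2) * (l + 1) * eC f (sub (sub C j p) k (p + 1)) p / C.card)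
          (fun k => by have := eC_nonneg h0 h1 (sub (sub C j p) k (p + 1)) p; positivity)).trans ?_
        rw [← sum_div, ← mul_sum, eC_sub f _ hp1]
      refine (sum_le_sum (fun j _ => b3 j.1)).trans ?_
      refine (b2 (fun j => ((l : ℝ) + 2) * (l + 1) * eC f (sub C j p) p / C.card)
          (fun j => by have := eC_nonneg h0 h1 (sub C j p) p; positivity)).trans ?_
      rw [← sum_div, ← mul_sum, eC_sub f _ hp]
    have wA : ∀ x, w x * A x = ((l : ℝ) + 2) * cA f (p + 1) q (sub C x p) / C.card := by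
      intro x
      rcases (sub C x p).eq_empty_or_nonempty with h | h
      · simp only [w, h]; simp [cA, eC]
      · have := Mx ⟨x, h⟩
        simp only [w, A]; field_simp
    have wB : ∀ x, w x * B x = ((l : ℝ) + 2) * cB f (p + 1) q (sub C x p) / C.card := by
      intro x
      rcases (sub C x p).eq_empty_or_nonempty with h | h
      · simp only [w, h]; simp [cB, eC]
      · have := Mx ⟨x, h⟩
        simp only [w, B]; field_simp
    have rA := cA_first f C (show p + 1 < q by omega) hq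
    have rB := cB_first f C (show p + 1 < q by omega) hq
    have hL' : (q : ℝ) - 1 - p = l + 1 := by linarith
    rw [hL'] at rA
    set B0 := cB f p q C / C.card with hB0
    have s2 : ∑ x, w x * A x = (l + 2) * A0 - (l + 2) * (l + 1) * eC f C p / C.card := by
      rw [sum_congr rfl (fun x _ => wA x), ← sum_div, ← mul_sum, hA0, rA]; ring
    have s3 : ∑ x, w x * B x = (l + 2) * B0 - (A0 + B0) := by
      rw [sum_congr rfl (fun x _ => wB x), ← sum_div, ← mul_sum, hA0, hB0, ← add_div, rE, rB]; ring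
    have s4 : ∑ x, (w x * (g x - a) ^ 2 - w x * Φ x) = (l + 2) * (a * (1 - a))
        - θ ^ 2 * ∑ x, w x * A x - (1 - θ) ^ 2 * ∑ x, w x * B x := by
      have : ∀ x, w x * (g x - a) ^ 2 - w x * Φ x = (1 - 2 * a) * (w x * g x) + a ^ 2 * w x
          - θ ^ 2 * (w x * A x) - (1 - θ) ^ 2 * (w x * B x) := fun x => by simp only [Φ]; ring
      rw [sum_congr rfl (fun x _ => this x), sum_sub_distrib, sum_sub_distrib, sum_add_distrib,
        ← mul_sum, ← mul_sum, ← mul_sum, ← mul_sum, sF, sW]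
      ring
    rw [← sum_sub_type (fun x => (sub C x p).Nonempty) _
      (fun x hx => by rw [wz x hx]; ring), sum_sub_distrib, s2, s3] at s4
    have s5 : θ * (A0 + B0) = B0 := by rw [hA0, hB0, ← add_div, ← mul_div_assoc, hθ]
    have s6 := mul_le_mul_of_nonneg_left s1 (sq_nonneg θ)
    have s7 : ((l : ℝ) + 2) * (a * (1 - a)) ≤ (1 - θ) * (a * (1 - a)) / θ
        + (l + 2) * (θ ^ 2 * A0 + (1 - θ) ^ 2 * B0) - (1 - θ) ^ 2 * (A0 + B0) := by
      have k : ∑ j : ι, w j.1 * (g j.1 - a) ^ 2 ≤ (1 - θ) * (a * (1 - a)) / θ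
        + θ ^ 2 * ∑ j : ι, ∑ k : ι,
          (if j = k then 0 else c j.1 k.1 * max (G j.1 k.1 - G k.1 j.1) 0)
        + ∑ j : ι, w j.1 * Φ j.1 := key
      linarith
    have s8 : θ ^ 2 * A0 + (1 - θ) ^ 2 * B0 = θ * A0 := by linear_combination (θ - 1) * s5
    have s9 : (1 - θ) ^ 2 * (A0 + B0) = (1 - θ) * A0 := by linear_combination (θ - 1) * s5
    rw [s8, s9] at s7
    have s10 := mul_le_mul_of_nonneg_left s7 θ0.le
    have s11 : θ * ((1 - θ) * (a * (1 - a)) / θ) = (1 - θ) * (a * (1 - a)) := by field_simp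
    have s12 := mul_nonneg (show 0 ≤ θ * (l + 2) - 1 by linarith)
      (show 0 ≤ a * (1 - a) - θ * A0 by linarith)
    have s13 := mul_pos θ0 (show 0 < a * (1 - a) - θ * A0 by linarith)
    nlinarith
  · rw [sum_sub_type (fun x => (sub C x p).Nonempty) (fun x => w x * (g x - a))
      (fun x hx => by rw [wz x hx, zero_mul])]
    simp only [mul_sub]
    rw [sum_sub_distrib, ← sum_mul, sF, sW, sub_self]
  · intro β b0 b1
    obtain ⟨γ, c0, c1, e⟩ := ext β b0 b1
    rw [e (fun x => w x * (g x - a))]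
    have t := test_mn h0 h1 (l := l + 1) (by omega) hq hC hne c0 c1
    simp only [← hw] at t
    exact (mul_le_mul_of_nonneg_left t θ0.le).trans hlt.le
  · intro x
    have t := plus0_mn h0 h1 hb (l := l + 2) (by omega) hq hC x.2
    apply le_of_mul_le_mul_left _ a0
    have := mul_le_mul_of_nonneg_left t θ0.le
    simp only [g]; nlinarith
  · intro x
    have t := plus0_mn g0 g1 gb (l := l + 2) (by omega) hq hC x.2
    rw [mn_compl hne, mn_compl x.2, cA_compl hC hq] at t
    apply le_of_mul_le_mul_left _ (show 0 < 1 - a by linarith)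
    have := mul_le_mul_of_nonneg_left t θ0.le
    simp only [g]; nlinarith
  · intro x hx
    have t := plusW_mn h0 h1 hb (l := l + 1) (by omega) hq hC x.1 (hw x.1) hx
    exact (mul_le_mul_of_nonneg_left t θ0.le).trans hlt.le
  · intro x hx
    have t := plusW_mn g0 g1 gb (l := l + 1) (by omega) hq hC x.1 (hw x.1) hx
    rw [mn_compl hne, mn_compl x.2, cA_compl hC hq] at t
    refine le_trans (le_of_eq ?_) ((mul_le_mul_of_nonneg_left t θ0.le).trans hlt.le)
    simp only [g]; ring
  · intro x y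
    have := hC.sum_swap (by omega) hq x.2 y.2 (fun _ => 1)
    simp only [sum_const, nsmul_eq_mul, mul_one] at this
    simp only [c]; rw [this]
  · intro x u u0 u1
    have t := (ih x.1).mn x.2 ((θ - u) / (1 - u))
    have hu : 0 < 1 - u := by linarith
    have t2 := mul_le_mul_of_nonneg_left t (sq_nonneg (1 - u))
    have e : (1 - u) ^ 2 * (((θ - u) / (1 - u)) ^ 2 * A x.1 + (1 - (θ - u) / (1 - u)) ^ 2 * B x.1)
        = (θ - u) ^ 2 * A x.1 + (1 - θ) ^ 2 * B x.1 := by field_simp; ring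
    have t3 : (1 - u) ^ 2 * (g x.1 * (1 - g x.1)) ≤ (θ - u) ^ 2 * A x.1 + (1 - θ) ^ 2 * B x.1 :=
      e ▸ t2
    simp only [Φ]; nlinarith
  · intro x β b0 b1 _
    obtain ⟨γ, c0, c1, e⟩ := ext β b0 b1
    rw [e (fun y => c x.1 y * (G x.1 y - g x.1))]
    have t := test_mn h0 h1 (l := l) (by omega) hq (hC.first x.1) x.2 c0 c1
    refine le_trans (le_of_eq ?_) (mul_le_mul_of_nonneg_left t (show 0 ≤ w x.1 by linarith [w1 x]))
    rw [mul_sum]
    exact sum_congr rfl (fun y _ => by rw [cq]; simp only [G, g]; ring)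
  · intro x β b0 b1 _
    obtain ⟨γ, c0, c1, e⟩ := ext β b0 b1
    rw [e (fun y => c x.1 y * (g x.1 - G x.1 y))]
    have t := test_mn g0 g1 (l := l) (by omega) hq (hC.first x.1) x.2 c0 c1
    rw [cA_compl (hC.first x.1) hq] at t
    refine le_trans (le_of_eq ?_) (mul_le_mul_of_nonneg_left t (show 0 ≤ w x.1 by linarith [w1 x]))
    rw [mul_sum]
    refine sum_congr rfl (fun y _ => ?_)
    rw [cq]
    rcases (sub (sub C x.1 p) y (p + 1)).eq_empty_or_nonempty with h | h
    · rw [h]; simp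
    · rw [mn_compl h, mn_compl x.2]; simp only [G, g]; ring
  · intro x y hxy
    exact plus0_mn h0 h1 hb (l := l + 1) (by omega) hq (hC.first x.1) (ne2 x y hxy)
  · intro x y hxy
    have t := plus0_mn g0 g1 gb (l := l + 1) (by omega) hq (hC.first x.1) (ne2 x y hxy)
    rw [mn_compl (ne2 x y hxy), mn_compl x.2, cA_compl (hC.first x.1) hq, sub_sub_cancel] at t
    exact t
  · intro x y hxy h
    exact plusW_mn h0 h1 hb (l := l) (by omega) hq (hC.first x.1) y.1 (cq' x y.1)
      (by rw [div_le_iff₀ (by linarith [w1 x])]; exact h)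
  · intro x y hxy h
    have t := plusW_mn g0 g1 gb (l := l) (by omega) hq (hC.first x.1) y.1 (cq' x y.1)
      (by rw [div_le_iff₀ (by linarith [w1 x])]; exact h)
    rw [mn_compl (ne2 x y hxy), mn_compl x.2, cA_compl (hC.first x.1) hq] at t
    refine le_trans (le_of_eq ?_) t
    simp only [G, g]; ring

end norm

/-- the two-cost inequality follows from the real inequality -/
theorem tt_of (hF : St_F) (l : ℕ) : ∀ (r : Fin n → Fin n → Prop) (f : X r → ℝ), (∀ σ, 0 ≤ f σ) →
    (∀ σ, f σ ≤ 1) → (∀ σ, f σ * (1 - f σ) = 0) → ∀ (p q : ℕ) (C : Finset (X r)), q = p + l →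
    q ≤ n → IsCl p q C → TT f p q C := by
  induction l with
  | zero =>
    intro r f h0 h1 hb p q C hl hq hC θ
    rw [short_zero (by omega) hC Subset.rfl hb]
    have := cA_nonneg h0 h1 p q C
    have := cB_nonneg h0 h1 p q C
    positivity
  | succ l ih =>
    intro r f h0 h1 hb p q C hl hq hC θ
    have nA := cA_nonneg h0 h1 p q C
    have nB := cB_nonneg h0 h1 p q C
    rcases l with _ | l
    · rw [short_zero (by omega) hC Subset.rfl hb]; positivity
    rcases (add_nonneg nA nB).eq_or_lt with hz | hpos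
    · have hC' : IsCl p (p + (l + 1) + 1) C := by rwa [hl] at hC
      have t := var_le_cA h0 h1 hb (by omega) hC'
      have e : cA f p (p + (l + 1) + 1) C = 0 := by
        rw [show p + (l + 1) + 1 = q by omega]; linarith
      rw [e, mul_zero] at t
      exact t.trans (by positivity)
    have main : (∑ σ ∈ C, f σ) * (C.card - ∑ σ ∈ C, f σ)
        ≤ C.card * (cA f p q C * cB f p q C / (cA f p q C + cB f p q C)) := by
      rcases le_total (cB f p q C) (cA f p q C) with h | h
      · have t := half h0 h1 hb hF (l := l) (by omega) hq hC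
          (fun x => ih r f h0 h1 hb (p + 1) q _ (by omega) hq (hC.first x))
          (θ := cB f p q C / (cA f p q C + cB f p q C)) (div_mul_cancel₀ _ hpos.ne') hpos
          (by rw [div_le_iff₀ hpos]; linarith)
        refine t.trans (le_of_eq ?_)
        ring
      · have hC2 := hC.rev (by omega) hq
        have eA := cA_rev f C (show p ≤ q by omega) hq
        have eB := cB_rev f C (show p ≤ q by omega) hq
        have t := half (f := fun u => f (revE.symm u)) (fun _ => h0 _) (fun _ => h1 _)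
          (fun _ => hb _) hF (l := l) (by omega) (Nat.sub_le n p) hC2
          (fun x => ih (flip r) _ (fun _ => h0 _) (fun _ => h1 _) (fun _ => hb _) (n - q + 1) (n - p)
            _ (by omega) (Nat.sub_le n p) (hC2.first x))
          (θ := cA f p q C / (cA f p q C + cB f p q C))
          (by rw [eA, eB, add_comm (cB f p q C)]; exact div_mul_cancel₀ _ hpos.ne')
          (by rw [eA, eB]; linarith) (by rw [div_le_iff₀ hpos]; linarith)
        rw [eA, card_map, sum_map] at t
        simp only [Equiv.coe_toEmbedding, Equiv.symm_apply_apply] at t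
        refine t.trans (le_of_eq ?_)
        ring
    refine main.trans (mul_le_mul_of_nonneg_left ?_ (by positivity))
    rw [div_le_iff₀ hpos]
    nlinarith [sq_nonneg (θ * cA f p q C - (1 - θ) * cB f p q C)]

end Pool.Agent.Lib.MP_43bc59_co
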