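import Pool.Agent.Lib.MP_43bc59_co.Cls

set_option autoImplicit false

namespace Pool.Agent.Lib.MP_43bc59_co

open Finset

variable {n : ℕ} {r : Fin n → Fin n → Prop}

/-- The cut lemma for a general test function. -/
lemma gcut {S : Finset ℕ} (hS : Strict n S) {W : ℕ → ℝ} (hW : Adm n S W) (μ : ℕ)
    (hV : ∀ k l, k < l → l < n → Same S k l →
      (if k < μ ∧ μ ≤ l then 1 else 0) ≤ (W (k + 1) - W k) - (W (l + 1) - W l))
    {f : X r → ℝ} (h0 : ∀ σ, 0 ≤ f σ) (h1 : ∀ σ, f σ ≤ 1)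
    {g : X r → ℝ} (g0 : ∀ σ, 0 ≤ g σ) (g1 : ∀ σ, g σ ≤ 1)
    (hg : ∀ σ ρ, Rel (insert μ S) σ ρ → g σ = g ρ) :
    ∑ σ, f σ * (g σ - Pr S g σ) ≤ ∑ i ∈ bonds n S, W (i + 1) * edg f i := by
  obtain ⟨ψ, hψ⟩ := poisson hS g
  have e2 : ∑ σ, f σ * (g σ - Pr S g σ) = ∑ σ, f σ * (-Lap S ψ σ) :=
    sum_congr rfl (fun σ _ => by rw [hψ])
  have hterm : ∀ (σ ρ : X r), Rel S σ ρ → ∀ a, (if pos σ a < μ ∧ μ ≤ pos ρ a then (1 : ℝ) else 0)
      ≤ (if pos σ a < pos ρ a then
        (W (pos σ a + 1) - W (pos σ a)) - (W (pos ρ a + 1) - W (pos ρ a)) else 0) := by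
    intro σ ρ h a
    by_cases ha : pos σ a < pos ρ a
    · rw [if_pos ha]; exact hV _ _ ha (pos_lt ρ a) (fun ν hν => h ν hν a)
    · rw [if_neg ha, if_neg (by omega)]
  have hdr : ∀ σ ρ : X r, Rel S σ ρ → Lap S ψ ρ - Lap S ψ σ ≤ drift W σ ρ := by
    intro σ ρ h
    have a1 := hψ σ
    have a2 := hψ ρ
    have a3 := Pr_rel g h
    have a4 : ∑ a, (if pos σ a < μ ∧ μ ≤ pos ρ a then (1 : ℝ) else 0) ≤ drift W σ ρ :=
      sum_le_sum (fun a _ => hterm σ ρ h a)
    have a5 : ∀ a ∈ (univ : Finset (Fin n)),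
        (0 : ℝ) ≤ (if pos σ a < μ ∧ μ ≤ pos ρ a then (1 : ℝ) else 0) := by
      intro a _; split_ifs <;> norm_num
    have a6 : g σ - g ρ ≤ ∑ a, (if pos σ a < μ ∧ μ ≤ pos ρ a then (1 : ℝ) else 0) := by
      by_cases hc : ∀ a, pos σ a < μ ↔ pos ρ a < μ
      · have : Rel (insert μ S) σ ρ := by
          intro ν hν
          rcases mem_insert.1 hν with rfl | hν
          · exact hc
          · exact h ν hν
        rw [hg _ _ this, sub_self]
        exact sum_nonneg a5
      · obtain ⟨a, ha⟩ := exists_cross hc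
        have b1 := single_le_sum a5 (mem_univ a)
        rw [if_pos ha] at b1
        linarith [g1 σ, g0 ρ]
    linarith
  have hgrad : ∀ i ∈ bonds n S, ∀ σ, ψ σ - ψ (tau i σ) ≤ W (i + 1) := fun i hi σ =>
    (maxp hS hW ψ hdr σ _ (rel_tau hi σ).symm).trans (Phi_tau_le hW (mem_bonds.1 hi).1 σ)
  rw [e2, ip_Lap]
  apply sum_le_sum
  intro i hi
  have z := sum_inv i (fun σ => f σ * f (tau i σ)) ψ (fun σ => by rw [tau_tau]; ring)
  have e : ∑ σ, f σ * (ψ σ - ψ (tau i σ))
      = ∑ σ, f σ * (1 - f (tau i σ)) * (ψ σ - ψ (tau i σ))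
        + ∑ σ, f σ * f (tau i σ) * (ψ σ - ψ (tau i σ)) := by
    rw [← sum_add_distrib]; exact sum_congr rfl (fun σ _ => by ring)
  rw [e, z, add_zero]
  unfold edg
  rw [mul_sum]
  apply sum_le_sum
  intro σ _
  have := mul_nonneg (h0 σ) (show 0 ≤ 1 - f (tau i σ) by linarith [h1 (tau i σ)])
  nlinarith [hgrad i hi σ]

lemma same_Sb {p q k l : ℕ} (hkl : k < l) (hl : l < n) (h : Same (Sb n p q) k l) :
    p ≤ k ∧ l < q := by
  constructor
  · by_contra hc
    have := (h (k + 1) (mem_Sb.2 (by omega))).1 (by omega); omega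
  · by_contra hc
    have := (h l (mem_Sb.2 (by omega))).1 (by omega); omega

lemma strict_Sb {p q : ℕ} (hq : q ≤ n) : Strict n (Sb n p q) := by
  refine ⟨fun k => if p ≤ k ∧ k ≤ q then ((k : ℝ) - p) * (q - k) else 0, ⟨?_, ?_, ?_, ?_⟩, ?_⟩
  · intro k
    split_ifs with h
    · have h1 : (p : ℝ) ≤ k := by exact_mod_cast h.1
      have h2 : (k : ℝ) ≤ q := by exact_mod_cast h.2
      exact mul_nonneg (by linarith) (by linarith)
    · exact le_rfl
  · split_ifs with h
    · have : p = 0 := by omega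
      subst this; simp
    · rfl
  · intro k hk
    split_ifs with h
    · have : k = q := by omega
      subst this; simp
    · rfl
  · intro k hk
    rw [mem_Sb] at hk
    split_ifs with h
    · rcases hk.2 with h' | h'
      · have : k = p := by omega
        subst this; simp
      · have : k = q := by omega
        subst this; simp
    · rfl
  · intro k l hkl hl hs
    obtain ⟨a1, a2⟩ := same_Sb hkl hl hs
    have hkl' : (k : ℝ) < l := by exact_mod_cast hkl
    simp only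
    rw [if_pos (by omega), if_pos (by omega), if_pos (by omega), if_pos (by omega)]
    push_cast; nlinarith

/-- the cut lemma inside a class -/
lemma ccut {p q : ℕ} (hq : q ≤ n) {C : Finset (X r)} (hC : IsCl p q C) {W : ℕ → ℝ}
    (hW : Adm n (Sb n p q) W) (μ : ℕ)
    (hV : ∀ k l, p ≤ k → k < l → l < q →
      (if k < μ ∧ μ ≤ l then 1 else 0) ≤ (W (k + 1) - W k) - (W (l + 1) - W l))
    {f : X r → ℝ} (h0 : ∀ σ, 0 ≤ f σ) (h1 : ∀ σ, f σ ≤ 1)
    {g : X r → ℝ} (g0 : ∀ σ, 0 ≤ g σ) (g1 : ∀ σ, g σ ≤ 1)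
    (hg : ∀ σ ρ, Rel (insert μ (Sb n p q)) σ ρ → g σ = g ρ) :
    (C.card : ℝ) * ∑ σ ∈ C, f σ * g σ - (∑ σ ∈ C, f σ) * ∑ σ ∈ C, g σ
      ≤ C.card * ∑ i ∈ Ico p (q - 1), W (i + 1) * eC f C i := by
  classical
  rcases C.eq_empty_or_nonempty with rfl | hne
  · simp
  have hM : (0 : ℝ) < C.card := by exact_mod_cast hne.card_pos
  have key := gcut (strict_Sb hq) hW μ
    (fun k l hkl hl hs => hV k l (same_Sb hkl hl hs).1 hkl (same_Sb hkl hl hs).2)
    (f := fun σ => if σ ∈ C then f σ else 0)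
    (fun σ => by split_ifs; exacts [h0 σ, le_rfl])
    (fun σ => by split_ifs; exacts [h1 σ, zero_le_one]) g0 g1 hg
  have cs : ∀ (u : X r → ℝ), ∀ σ ∈ C, csum (Sb n p q) u σ = ∑ ρ ∈ C, u ρ := by
    intro u σ hσ
    unfold csum
    rw [← sum_filter]
    apply sum_congr _ (fun _ _ => rfl)
    ext ρ
    simp only [mem_filter, mem_univ, true_and]
    exact (hC σ hσ ρ).symm
  have e1 : ∑ σ, (if σ ∈ C then f σ else 0) * (g σ - Pr (Sb n p q) g σ)
      = ∑ σ ∈ C, f σ * g σ - (∑ σ ∈ C, f σ) * (∑ σ ∈ C, g σ) / C.card := by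
    simp only [ite_mul, zero_mul]
    rw [← sum_filter, filter_mem_eq_inter, univ_inter, mul_div_assoc, sum_mul, ← sum_sub_distrib]
    apply sum_congr rfl
    intro σ hσ
    unfold Pr
    rw [cs _ σ hσ, cs _ σ hσ]
    simp only [sum_const, nsmul_eq_mul, mul_one]; ring
  have e2 : ∑ i ∈ bonds n (Sb n p q), W (i + 1) * edg (fun σ => if σ ∈ C then f σ else 0) i
      = ∑ i ∈ Ico p (q - 1), W (i + 1) * eC f C i := by
    apply sum_congr
    · ext i; rw [mem_bonds_Sb hq, mem_Ico]; omega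
    · intro i hi
      rw [mem_Ico] at hi
      congr 1
      unfold edg eC
      simp only [ite_mul, zero_mul]
      rw [← sum_filter, filter_mem_eq_inter, univ_inter]
      apply sum_congr rfl
      intro σ hσ
      rw [if_pos (hC.tau_mem hq hi.1 (by omega) hσ)]
  rw [e1, e2] at key
  have := mul_le_mul_of_nonneg_left key hM.le
  rw [mul_sub, mul_div_cancel₀ _ hM.ne'] at this
  exact this

lemma sum_letter (C : Finset (X r)) {k : ℕ} (hk : k < n) (β : Fin n → ℝ) (h : X r → ℝ) :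
    ∑ σ ∈ C, h σ * β (σ.1 ⟨k, hk⟩) = ∑ x, β x * ∑ σ ∈ sub C x k, h σ := by
  rw [← sum_sub C hk]
  apply sum_congr rfl
  intro x _
  rw [mul_sum]
  apply sum_congr rfl
  intro σ hσ
  have h1 : σ.1⁻¹ x = ⟨k, hk⟩ := Fin.ext (mem_sub.1 hσ).2
  rw [← h1]; simp [mul_comm]

lemma letter_eq {k : ℕ} (hk : k < n) {σ ρ : X r} (h1 : ∀ a, pos σ a < k ↔ pos ρ a < k)
    (h2 : ∀ a, pos σ a < k + 1 ↔ pos ρ a < k + 1) : σ.1 ⟨k, hk⟩ = ρ.1 ⟨k, hk⟩ := by
  have e1 : pos σ (σ.1 ⟨k, hk⟩) = k := by simp [pos]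
  have e2 : pos ρ (ρ.1 ⟨k, hk⟩) = k := by simp [pos]
  apply pos_inj ρ
  have a1 := h1 (σ.1 ⟨k, hk⟩)
  have a2 := h2 (σ.1 ⟨k, hk⟩)
  omega

/-- first-letter test -/
lemma test_first {p q : ℕ} (hpq : p < q) (hq : q ≤ n) {C : Finset (X r)} (hC : IsCl p q C)
    {f : X r → ℝ} (h0 : ∀ σ, 0 ≤ f σ) (h1 : ∀ σ, f σ ≤ 1)
    {β : Fin n → ℝ} (b0 : ∀ x, 0 ≤ β x) (b1 : ∀ x, β x ≤ 1) :
    ((q : ℝ) - p) * ∑ x, β x * (C.card * ∑ σ ∈ sub C x p, f σ
      - (∑ σ ∈ C, f σ) * (sub C x p).card) ≤ C.card * cA f p q C := by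
  have hl : (0 : ℝ) < (q : ℝ) - p := by
    have : (p : ℝ) < q := by exact_mod_cast hpq
    linarith
  have hp : p < n := by omega
  have key := ccut hq hC (W := fun k => if p < k ∧ k ≤ q then ((q : ℝ) - k) / (q - p) else 0)
    ⟨fun k => by
        split_ifs with h
        · have : (k : ℝ) ≤ q := by exact_mod_cast h.2
          exact div_nonneg (by linarith) hl.le
        · exact le_rfl,
      by simp,
      fun k hk => by
        split_ifs with h
        · have : k = q := by omega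
          subst this; simp
        · rfl,
      fun k hk => by
        rw [mem_Sb] at hk
        split_ifs with h
        · have : k = q := by omega
          subst this; simp
        · rfl⟩ (p + 1)
    (fun k l a1 a2 a3 => by
      rw [if_pos (show p < k + 1 ∧ k + 1 ≤ q by omega), if_pos (show p < l + 1 ∧ l + 1 ≤ q by omega),
        if_pos (show p < l ∧ l ≤ q by omega)]
      by_cases hk : k = p
      · subst hk
        rw [if_pos (by omega), if_neg (by omega)]
        apply le_of_eq; push_cast; field_simp; ring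
      · rw [if_neg (by omega), if_pos (by omega)]
        apply le_of_eq; push_cast; field_simp; ring)
    h0 h1 (g := fun σ => β (σ.1 ⟨p, hp⟩)) (fun σ => b0 _) (fun σ => b1 _)
    (fun σ ρ h => by
      rw [letter_eq hp (h p (mem_insert_of_mem (mem_Sb.2 (by omega)))) (h _ (mem_insert_self _ _))])
  have e1 := sum_letter C hp β f
  have e2 := sum_letter C hp β (fun _ => 1)
  simp only [one_mul, sum_const, nsmul_eq_mul, mul_one] at e2
  have e3 : ((q : ℝ) - p) * ∑ i ∈ Ico p (q - 1),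
      (if p < i + 1 ∧ i + 1 ≤ q then ((q : ℝ) - (i + 1 : ℕ)) / (q - p) else 0) * eC f C i
      = cA f p q C := by
    unfold cA
    rw [mul_sum]
    apply sum_congr rfl
    intro i hi
    rw [mem_Ico] at hi
    rw [if_pos (by omega)]; push_cast; field_simp; ring
  rw [e1, e2] at key
  have e4 : ∑ x, β x * (C.card * ∑ σ ∈ sub C x p, f σ - (∑ σ ∈ C, f σ) * (sub C x p).card)
      = C.card * ∑ x, β x * ∑ σ ∈ sub C x p, f σ
        - (∑ σ ∈ C, f σ) * ∑ x, β x * (sub C x p).card := by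
    rw [mul_sum, mul_sum, ← sum_sub_distrib]
    exact sum_congr rfl (fun x _ => by ring)
  rw [e4, ← e3]
  nlinarith [mul_le_mul_of_nonneg_left key hl.le]

/-- last-letter test -/
lemma test_last {p q : ℕ} (hpq : p ≤ q) (hq : q < n) {C : Finset (X r)} (hC : IsCl p (q + 1) C)
    {f : X r → ℝ} (h0 : ∀ σ, 0 ≤ f σ) (h1 : ∀ σ, f σ ≤ 1)
    {β : Fin n → ℝ} (b0 : ∀ x, 0 ≤ β x) (b1 : ∀ x, β x ≤ 1) :
    ((q : ℝ) + 1 - p) * ∑ x, β x * (C.card * ∑ σ ∈ sub C x q, f σ
      - (∑ σ ∈ C, f σ) * (sub C x q).card) ≤ C.card * cB f p (q + 1) C := by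
  have hl : (0 : ℝ) < (q : ℝ) + 1 - p := by
    have : (p : ℝ) ≤ q := by exact_mod_cast hpq
    linarith
  have key := ccut (show q + 1 ≤ n by omega) hC
    (W := fun k => if p ≤ k ∧ k ≤ q then ((k : ℝ) - p) / (q + 1 - p) else 0)
    ⟨fun k => by
        split_ifs with h
        · have : (p : ℝ) ≤ k := by exact_mod_cast h.1
          exact div_nonneg (by linarith) hl.le
        · exact le_rfl,
      by
        split_ifs with h
        · have : p = 0 := by omega
          subst this; simp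
        · rfl,
      fun k hk => by rw [if_neg (by omega)],
      fun k hk => by
        rw [mem_Sb] at hk
        split_ifs with h
        · have : k = p := by omega
          subst this; simp
        · rfl⟩ q
    (fun k l a1 a2 a3 => by
      rw [if_pos (show p ≤ k + 1 ∧ k + 1 ≤ q by omega), if_pos (show p ≤ k ∧ k ≤ q by omega),
        if_pos (show p ≤ l ∧ l ≤ q by omega)]
      by_cases hk : l = q
      · subst hk
        rw [if_pos (by omega), if_neg (by omega)]
        apply le_of_eq; push_cast; field_simp; ring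
      · rw [if_neg (by omega), if_pos (by omega)]
        apply le_of_eq; push_cast; field_simp; ring)
    h0 h1 (g := fun σ => β (σ.1 ⟨q, hq⟩)) (fun σ => b0 _) (fun σ => b1 _)
    (fun σ ρ h => by
      rw [letter_eq hq (h _ (mem_insert_self _ _))
        (h (q + 1) (mem_insert_of_mem (mem_Sb.2 (by omega))))])
  have e1 := sum_letter C hq β f
  have e2 := sum_letter C hq β (fun _ => 1)
  simp only [one_mul, sum_const, nsmul_eq_mul, mul_one] at e2
  have e3 : ((q : ℝ) + 1 - p) * ∑ i ∈ Ico p (q + 1 - 1),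
      (if p ≤ i + 1 ∧ i + 1 ≤ q then (((i + 1 : ℕ) : ℝ) - p) / (q + 1 - p) else 0) * eC f C i
      = cB f p (q + 1) C := by
    unfold cB
    rw [mul_sum]
    apply sum_congr rfl
    intro i hi
    rw [mem_Ico] at hi
    rw [if_pos (by omega)]; push_cast; field_simp
  rw [e1, e2] at key
  have e4 : ∑ x, β x * (C.card * ∑ σ ∈ sub C x q, f σ - (∑ σ ∈ C, f σ) * (sub C x q).card)
      = C.card * ∑ x, β x * ∑ σ ∈ sub C x q, f σ
        - (∑ σ ∈ C, f σ) * ∑ x, β x * (sub C x q).card := by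
    rw [mul_sum, mul_sum, ← sum_sub_distrib]
    exact sum_congr rfl (fun x _ => by ring)
  rw [e4, ← e3]
  nlinarith [mul_le_mul_of_nonneg_left key hl.le]

end Pool.Agent.Lib.MP_43bc59_co
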